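import Pool.Agent.ESH.EIG

/-!
# ESH / FTH: tame automorphisms act faithfully on the special fibre

Proof.  If `γ ≠ 1`, EIG gives `ζ ≠ 1`, `f ≠ 0`, `γ f = ζ f`; by `scale` we may assume that `f` is a unit of `W`.  Then
`γ f - f = (ζ - 1) f` is a unit of `W`, because `ζ - 1` is a unit of `V` (`eig_unit`): contradiction.
-/

namespace Pool.Agent.ESH

open Pool.Agent.Helper11

variable {C Φ : Type*} [Field C] [Field Φ] [Algebra C Φ] [FunField C Φ] [CharZero C] [IsAlgClosed C]

omit [Algebra C Φ] [FunField C Φ] [CharZero C] [IsAlgClosed C] [Field C] in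
private theorem fth_unit (W : ValuationSubring Φ) {u : Φ} (h1 : u ∈ W) (h2 : u⁻¹ ∈ W)
    (h0 : u ≠ 0) : W.valuation u = 1 := by
  rw [← ValuationSubring.valuation_le_one_iff] at h1 h2
  refine le_antisymm h1 ?_
  have h3 : W.valuation u * W.valuation u⁻¹ = 1 := by
    rw [← map_mul, mul_inv_cancel₀ h0, map_one]
  calc (1 : W.ValueGroup) = W.valuation u * W.valuation u⁻¹ := h3.symm
    _ ≤ W.valuation u * 1 := mul_le_mul_right h2 _
    _ = W.valuation u := mul_one _

theorem fth {V : ValuationSubring C} {W : ValuationSubring Φ} {pts : Set (Subring Φ)}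
    (h : IsMdl V W pts) (γ : Φ ≃ₐ[C] Φ) (n : ℕ) (hn : 0 < n) (hγn : γ ^ n = 1)
    (hVn : V.valuation (n : C) = 1) (hγ : ∀ f ∈ W, γ f - f ∈ W.nonunits) : γ = 1 := by
  by_contra hne
  obtain ⟨ζ, hζn, hζ1, f, hf, hγf⟩ := eig γ n hn hγn hne
  obtain ⟨c, hc, h1, h2⟩ := h.scale f hf
  have hc' : algebraMap C Φ c ≠ 0 := (map_ne_zero _).2 hc
  have h3 : γ (f / algebraMap C Φ c) = algebraMap C Φ ζ * (f / algebraMap C Φ c) := by
    rw [map_div₀, AlgEquiv.commutes, hγf]
    ring
  have h4 := hγ _ h1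
  have h5 : γ (f / algebraMap C Φ c) - f / algebraMap C Φ c =
      -(algebraMap C Φ (1 - ζ)) * (f / algebraMap C Φ c) := by
    rw [h3, map_sub, map_one]
    ring
  rw [h5, ValuationSubring.mem_nonunits_iff, map_mul, Valuation.map_neg] at h4
  have h6 := eig_unit V n hVn ζ hζn hζ1
  have hz : (1 - ζ) ≠ 0 := sub_ne_zero.2 (Ne.symm hζ1)
  have h7 : W.valuation (algebraMap C Φ (1 - ζ)) = 1 := by
    have e1 : algebraMap C Φ (1 - ζ) ∈ W := by
      rw [h.base, ← ValuationSubring.valuation_le_one_iff]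
      exact h6.le
    have e2 : algebraMap C Φ (1 - ζ)⁻¹ ∈ W := by
      rw [h.base, ← ValuationSubring.valuation_le_one_iff, map_inv₀, h6, inv_one]
    rw [map_inv₀] at e2
    exact fth_unit W e1 e2 ((map_ne_zero _).2 hz)
  have h8 : W.valuation (f / algebraMap C Φ c) = 1 := by
    refine fth_unit W h1 ?_ (div_ne_zero hf hc')
    rw [inv_div]
    exact h2
  rw [h7, h8, mul_one] at h4
  exact lt_irrefl _ h4

end Pool.Agent.ESH
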