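import Pool.Agent.ESH.TUN

/-!
# ESH / ORD: the local ring of a place above a point

`A` a point with parameter `t`, `R` a place above `A`, `c = ev R t`, `t' = t - c`.
(1) `c ∈ V` (`spc_ev`), `t' ∈ A`, `t' ≠ 0` (TUN), `R.ord t' ≥ 1`.
(2) every non-zero `a ∈ A` is `t'^n b` with `b ∈ A`, `ev R b ≠ 0`: repeatedly divide by `t'` (`zero`) as long as the value is
    `0`; this stops since `n ≤ n R.ord t' ≤ R.ord a`.
(3) `Φ` is the fraction field of `A` (`frac` and `Φ = Frac W`), so by (2) every non-zero `f` is `t'^n b/b'` with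
    `ev R b, ev R b' ≠ 0`, `R.ord f = n R.ord t'`; as some `f` has order `1`, `R.ord t' = 1`.
(4) `ord_frac`: elements of `R.ge 0` are fractions `b/b'` of elements of `A` with `ev R b' ≠ 0`.
(5) if `D(A) ⊆ A` then `D(R.ge 0) ⊆ R.ge 0` (quotient rule).
(6) for another place `R' ≠ R` above `A`, `ev R' t ≠ ev R t`: otherwise `t'` generates the kernels of both evaluations on `A`
    (`zero`), so the two evaluations on `A` have the same kernel and by (4) `R.ge 0 = R'.ge 0`; `plv_ext`.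
-/

namespace Pool.Agent.ESH

open Pool.Agent.Helper11

variable {C Φ : Type*} [Field C] [Field Φ] [Algebra C Φ] [FunField C Φ] [CharZero C] [IsAlgClosed C]

private theorem ord_mem {V : ValuationSubring C} {W : ValuationSubring Φ} {pts : Set (Subring Φ)}
    (hV : Rk1 V) (h : IsMdl V W pts) {A : Subring Φ} (hA : A ∈ pts) {t : Φ} (ht : IsPar V W A t)
    (R : Place C Φ) (hR : Below A R) :
    t - algebraMap C Φ (ev R t) ∈ A ∧ t - algebraMap C Φ (ev R t) ≠ 0 ∧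
      t - algebraMap C Φ (ev R t) ∈ R.ge 1 := by
  have h1 := (spc_ev hV (h.pt A hA) R hR t ht.mem.1).1
  refine ⟨sub_mem ht.mem.1 ((h.pt A hA).base _ h1), ?_, evl_mem R (hR _ ht.mem.1)⟩
  intro h0
  have h2 := tun h hA ht _ h1
  rw [h0] at h2
  apply h2
  rw [ValuationSubring.mem_nonunits_iff, map_zero]
  exact zero_lt_one

private theorem ord_unit (R : Place C Φ) {f : Φ} (hf : f ∈ R.ge 0) (h : ev R f ≠ 0) :
    f ≠ 0 ∧ R.ord f = 0 := by
  have h1 : f ∉ R.ge 1 := fun h2 => h ((evl_zero_iff R hf).2 h2)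
  have h2 : f ≠ 0 := by
    rintro rfl
    exact h1 (zero_mem _)
  have h3 : ¬ (1 : ℤ) ≤ R.ord f := fun h4 => h1 (R.mem_ge_of_le h4)
  have h4 := R.le_ord_of_mem hf h2
  exact ⟨h2, by omega⟩

private theorem ord_dec {V : ValuationSubring C} {W : ValuationSubring Φ} {pts : Set (Subring Φ)}
    (hV : Rk1 V) (h : IsMdl V W pts) {A : Subring Φ} (hA : A ∈ pts) {t : Φ} (ht : IsPar V W A t)
    (R : Place C Φ) (hR : Below A R) (N : ℕ) : ∀ a ∈ A, a ≠ 0 → R.ord a ≤ N →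
    ∃ n : ℕ, ∃ b ∈ A, a = (t - algebraMap C Φ (ev R t)) ^ n * b ∧ ev R b ≠ 0 := by
  obtain ⟨h1, h2, h3⟩ := ord_mem hV h hA ht R hR
  have h4 : 1 ≤ R.ord (t - algebraMap C Φ (ev R t)) := R.le_ord_of_mem h3 h2
  induction N with
  | zero =>
    intro a ha ha0 hN
    refine ⟨0, a, ha, by rw [pow_zero, one_mul], ?_⟩
    intro h5
    have h6 := R.le_ord_of_mem ((evl_zero_iff R (hR a ha)).1 h5) ha0
    push_cast at hN
    omega
  | succ N ih =>
    intro a ha ha0 hN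
    by_cases h5 : ev R a = 0
    · obtain ⟨b, hb, hab⟩ := ht.zero R hR _ h3 a ha ((evl_zero_iff R (hR a ha)).1 h5)
      have hb0 : b ≠ 0 := by
        rintro rfl
        rw [mul_zero] at hab
        exact ha0 hab
      have h6 : R.ord a = R.ord (t - algebraMap C Φ (ev R t)) + R.ord b := by
        rw [hab, R.ord_mul _ _ h2 hb0]
      obtain ⟨n, b', hb', h7, h8⟩ := ih b hb hb0 (by push_cast at hN; omega)
      refine ⟨n + 1, b', hb', ?_, h8⟩
      rw [pow_succ', mul_assoc, ← h7]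
      exact hab
    · exact ⟨0, a, ha, by rw [pow_zero, one_mul], h5⟩

private theorem ord_quo {V : ValuationSubring C} {W : ValuationSubring Φ} {pts : Set (Subring Φ)}
    (hV : Rk1 V) (h : IsMdl V W pts) {A : Subring Φ} (hA : A ∈ pts) {t : Φ} (ht : IsPar V W A t)
    (R : Place C Φ) (hR : Below A R) (f : Φ) (hf : f ≠ 0) :
    ∃ n m : ℕ, ∃ b ∈ A, ∃ s ∈ A, ev R b ≠ 0 ∧ ev R s ≠ 0 ∧
      f * ((t - algebraMap C Φ (ev R t)) ^ m * s) = (t - algebraMap C Φ (ev R t)) ^ n * b := by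
  have hfr : ∃ a ∈ A, ∃ s ∈ A, a ≠ 0 ∧ s ≠ 0 ∧ f * s = a := by
    rcases W.mem_or_inv_mem f with h1 | h1
    · obtain ⟨a, ha, s, hs, hsW, h2⟩ := (h.pt A hA).frac f h1
      have hs0 : s ≠ 0 := by
        rintro rfl
        apply hsW
        rw [ValuationSubring.mem_nonunits_iff, map_zero]
        exact zero_lt_one
      refine ⟨a, ha, s, hs, ?_, hs0, h2⟩
      rw [← h2]
      exact mul_ne_zero hf hs0
    · obtain ⟨a, ha, s, hs, hsW, h2⟩ := (h.pt A hA).frac _ h1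
      have hs0 : s ≠ 0 := by
        rintro rfl
        apply hsW
        rw [ValuationSubring.mem_nonunits_iff, map_zero]
        exact zero_lt_one
      refine ⟨s, hs, a, ha, hs0, ?_, ?_⟩
      · rw [← h2]
        exact mul_ne_zero (inv_ne_zero hf) hs0
      · rw [← h2, ← mul_assoc, mul_inv_cancel₀ hf, one_mul]
  obtain ⟨a, ha, s, hs, ha0, hs0, h2⟩ := hfr
  have hto : ∀ x : Φ, R.ord x ≤ ((R.ord x).toNat : ℤ) := fun x => Int.self_le_toNat _
  obtain ⟨n, b, hb, h3, h4⟩ := ord_dec hV h hA ht R hR _ a ha ha0 (hto a)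
  obtain ⟨m, b', hb', h5, h6⟩ := ord_dec hV h hA ht R hR _ s hs hs0 (hto s)
  refine ⟨n, m, b, hb, b', hb', h4, h6, ?_⟩
  rw [← h3, ← h5, h2]

private theorem ord_quo_ord {V : ValuationSubring C} {W : ValuationSubring Φ} {pts : Set (Subring Φ)}
    (hV : Rk1 V) (h : IsMdl V W pts) {A : Subring Φ} (hA : A ∈ pts) {t : Φ} (ht : IsPar V W A t)
    (R : Place C Φ) (hR : Below A R) (f : Φ) (hf : f ≠ 0) {n m : ℕ} {b s : Φ} (hb : b ∈ A)
    (hs : s ∈ A) (hb0 : ev R b ≠ 0) (hs0 : ev R s ≠ 0)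
    (e : f * ((t - algebraMap C Φ (ev R t)) ^ m * s) = (t - algebraMap C Φ (ev R t)) ^ n * b) :
    R.ord f + m * R.ord (t - algebraMap C Φ (ev R t)) = n * R.ord (t - algebraMap C Φ (ev R t)) := by
  obtain ⟨h1, h2, h3⟩ := ord_mem hV h hA ht R hR
  obtain ⟨b1, b2⟩ := ord_unit R (hR b hb) hb0
  obtain ⟨s1, s2⟩ := ord_unit R (hR s hs) hs0
  have e1 := congrArg R.ord e
  rw [R.ord_mul _ _ hf (mul_ne_zero (pow_ne_zero _ h2) s1), R.ord_mul _ _ (pow_ne_zero _ h2) s1,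
    R.ord_mul _ _ (pow_ne_zero _ h2) b1, R.ord_pow, R.ord_pow, b2, s2] at e1
  linarith

theorem ord_par {V : ValuationSubring C} {W : ValuationSubring Φ} {pts : Set (Subring Φ)}
    (hV : Rk1 V) (h : IsMdl V W pts) {A : Subring Φ} (hA : A ∈ pts) {t : Φ} (ht : IsPar V W A t)
    (R : Place C Φ) (hR : Below A R) : R.ord (t - algebraMap C Φ (ev R t)) = 1 := by
  obtain ⟨h1, h2, h3⟩ := ord_mem hV h hA ht R hR
  have h4 : 1 ≤ R.ord (t - algebraMap C Φ (ev R t)) := R.le_ord_of_mem h3 h2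
  obtain ⟨f, hf⟩ := R.exists_ord_eq_one
  have hf0 : f ≠ 0 := R.ne_zero_of_ord_ne_zero (by rw [hf]; decide)
  obtain ⟨n, m, b, hb, s, hs, hb0, hs0, e⟩ := ord_quo hV h hA ht R hR f hf0
  have e1 := ord_quo_ord hV h hA ht R hR f hf0 hb hs hb0 hs0 e
  rw [hf] at e1
  have e2 : R.ord (t - algebraMap C Φ (ev R t)) ∣ 1 :=
    ⟨(n : ℤ) - m, by linear_combination e1⟩
  have e3 := Int.le_of_dvd one_pos e2
  omega

theorem ord_frac {V : ValuationSubring C} {W : ValuationSubring Φ} {pts : Set (Subring Φ)}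
    (hV : Rk1 V) (h : IsMdl V W pts) {A : Subring Φ} (hA : A ∈ pts)
    (R : Place C Φ) (hR : Below A R) (f : Φ) (hf : f ∈ R.ge 0) :
    ∃ b ∈ A, ∃ s ∈ A, ev R s ≠ 0 ∧ f * s = b := by
  by_cases hf0 : f = 0
  · refine ⟨0, zero_mem _, 1, one_mem _, ?_, by rw [hf0, zero_mul]⟩
    have h1 := evl_const R (1 : C)
    rw [map_one] at h1
    rw [h1]
    exact one_ne_zero
  obtain ⟨t, ht⟩ := (h.pt A hA).par
  obtain ⟨h1, h2, h3⟩ := ord_mem hV h hA ht R hR
  obtain ⟨n, m, b, hb, s, hs, hb0, hs0, e⟩ := ord_quo hV h hA ht R hR f hf0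
  have e1 := ord_quo_ord hV h hA ht R hR f hf0 hb hs hb0 hs0 e
  rw [ord_par hV h hA ht R hR] at e1
  have e2 := R.le_ord_of_mem hf hf0
  have e3 : m ≤ n := by omega
  refine ⟨(t - algebraMap C Φ (ev R t)) ^ (n - m) * b, mul_mem (pow_mem h1 _) hb, s, hs, hs0, ?_⟩
  apply mul_left_cancel₀ (pow_ne_zero m h2)
  rw [← mul_assoc ((t - algebraMap C Φ (ev R t)) ^ m) ((t - algebraMap C Φ (ev R t)) ^ (n - m)) b,
    ← pow_add, Nat.add_sub_cancel' e3, ← e]
  ring

theorem ord_der {V : ValuationSubring C} {W : ValuationSubring Φ} {pts : Set (Subring Φ)}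
    (hV : Rk1 V) (h : IsMdl V W pts) {A : Subring Φ} (hA : A ∈ pts)
    (R : Place C Φ) (hR : Below A R) (D : Derivation C Φ Φ) (hD : ∀ a ∈ A, D a ∈ A) (f : Φ)
    (hf : f ∈ R.ge 0) : D f ∈ R.ge 0 := by
  obtain ⟨b, hb, s, hs, hs0, e⟩ := ord_frac hV h hA R hR f hf
  obtain ⟨s1, s2⟩ := ord_unit R (hR s hs) hs0
  have h1 := (evl_inv R (hR s hs) hs0).1
  have e1 := congrArg D e
  rw [D.leibniz, smul_eq_mul, smul_eq_mul] at e1
  have e2 : D f = (D b - f * D s) * s⁻¹ := by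
    rw [← e1]
    field_simp
    ring
  rw [e2]
  have h2 := R.mul_mem_ge hf (hR _ (hD s hs))
  rw [add_zero] at h2
  have h3 := R.mul_mem_ge (sub_mem (hR _ (hD b hb)) h2) h1
  rwa [add_zero] at h3

/-- derivations preserving `A` preserve `W` -/
theorem ord_derW {V : ValuationSubring C} {W : ValuationSubring Φ} {A : Subring Φ} (hA : IsPt V W A)
    (D : Derivation C Φ Φ) (hD : ∀ a ∈ A, D a ∈ A) (f : Φ) (hf : f ∈ W) : D f ∈ W := by
  obtain ⟨b, hb, s, hs, hs0, e⟩ := hA.frac f hf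
  have s1 : s ≠ 0 := by
    rintro rfl
    apply hs0
    rw [ValuationSubring.mem_nonunits_iff, map_zero]
    exact zero_lt_one
  have h1 : s⁻¹ ∈ W := by
    rw [← ValuationSubring.valuation_le_one_iff, map_inv₀]
    rw [ValuationSubring.mem_nonunits_iff, not_lt] at hs0
    exact inv_le_one_of_one_le₀ hs0
  have e1 := congrArg D e
  rw [D.leibniz, smul_eq_mul, smul_eq_mul] at e1
  have e2 : D f = (D b - f * D s) * s⁻¹ := by
    rw [← e1]
    field_simp
    ring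
  rw [e2]
  exact mul_mem (sub_mem (hA.le _ (hD b hb)) (mul_mem hf (hA.le _ (hD s hs)))) h1

theorem ord_inj {V : ValuationSubring C} {W : ValuationSubring Φ} {pts : Set (Subring Φ)}
    (hV : Rk1 V) (h : IsMdl V W pts) {A : Subring Φ} (hA : A ∈ pts) {t : Φ} (ht : IsPar V W A t)
    (R R' : Place C Φ) (hR : Below A R) (hR' : Below A R') (he : ev R t = ev R' t) : R = R' := by
  apply plv_ext
  intro f hf
  obtain ⟨b, hb, s, hs, hs0, e⟩ := ord_frac hV h hA R hR f hf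
  have hs0' : ev R' s ≠ 0 := by
    intro h0
    apply hs0
    have h1 := (evl_zero_iff R' (hR' s hs)).1 h0
    obtain ⟨-, -, h3⟩ := ord_mem hV h hA ht R' hR'
    obtain ⟨b1, hb1, e1⟩ := ht.zero R' hR' _ h3 s hs h1
    rw [← he] at e1
    obtain ⟨-, -, h4⟩ := ord_mem hV h hA ht R hR
    rw [evl_zero_iff R (hR s hs), e1]
    have h5 := R.mul_mem_ge h4 (hR b1 hb1)
    rwa [add_zero] at h5
  obtain ⟨s1, s2⟩ := ord_unit R' (hR' s hs) hs0'
  have h1 := (evl_inv R' (hR' s hs) hs0').1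
  have e2 : f = b * s⁻¹ := by
    rw [← e, mul_assoc, mul_inv_cancel₀ s1, mul_one]
  rw [e2]
  have h3 := R'.mul_mem_ge (hR' b hb) h1
  rwa [add_zero] at h3

end Pool.Agent.ESH
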