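import Pool.Agent.ESH.FXR
import Pool.Agent.ESH.ORD

/-!
# ESH / NCL: distinct fixed points of a tame automorphism have distinct specialisations

Proof.  Suppose `P ≠ Q`.  `t` a parameter of `A`, `p = ev P t`, `q = ev Q t ∈ V.nonunits` (`spc_ev`, `t` is a non-unit).
`γ (t - p) ∈ A` has value `0` at `P` (`fxr_ev`), so `γ (t - p) = u_P (t - p)`, `u_P ∈ A` (`zero`); similarly
`γ (t - q) = u_Q (t - q)`.  Put `δ = q - p ≠ 0` (`ord_inj`).  Subtracting:
`δ = u_P (t - p) - u_Q (t - q) = (u_P - u_Q)(t - q) + u_P δ`, so `δ (1 - u_P) = (u_P - u_Q)(t - q)`.  At `Q`: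
`δ (1 - ev Q u_P) = 0`, so `ev Q u_P = 1`, so `u_P - 1 ∈ A` is a non-unit of `A` (its value at `Q` is `0`, `spc_ev`), so
`ev P u_P - 1 ∈ V.nonunits` (`spc_ev` at `P`).  But `ζ = ev P u_P` is the value of `γ τ/τ` for `τ = t - p`
(`ord_par`: order `1`), and `ζ^n = 1` (iterate: `γ^j τ/τ` has value `ζ^j`, by `fxr_ev`).  So `ζ = 1` by `eig_unit`
(`n` is a unit of `V`), contradicting `fxr`.
-/

namespace Pool.Agent.ESH

open Pool.Agent.Helper11

variable {C Φ : Type*} [Field C] [Field Φ] [Algebra C Φ] [FunField C Φ] [CharZero C] [IsAlgClosed C]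

omit [FunField C Φ] [CharZero C] [IsAlgClosed C] in
private theorem ncl_ge (γ : Φ ≃ₐ[C] Φ) (R : Place C Φ) (hR : Fixes γ R) (n : ℤ) {f : Φ}
    (hf : f ∈ R.ge n) : γ f ∈ R.ge n := by
  rcases (R.mem_ge).1 hf with h | h
  · rw [h, map_zero]
    exact zero_mem _
  · exact R.mem_ge_of_le (by rw [hR f]; exact h)

theorem ncl {V : ValuationSubring C} {W : ValuationSubring Φ} {pts : Set (Subring Φ)}
    (hV : Rk1 V) (h : IsMdl V W pts) {A : Subring Φ} (hA : A ∈ pts) (γ : Φ ≃ₐ[C] Φ) (n : ℕ)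
    (hn : 0 < n) (hγn : γ ^ n = 1) (hVn : V.valuation (n : C) = 1) (hγ : γ ≠ 1)
    (hγA : PresA (γ : Φ ≃+* Φ) A) (P Q : Place C Φ) (hP : Below A P) (hQ : Below A Q)
    (hγP : Fixes γ P) (hγQ : Fixes γ Q) : P = Q := by
  by_contra hne
  have hPt := h.pt A hA
  obtain ⟨t, ht⟩ := hPt.par
  have htA : t ∈ A := ht.mem.1
  have hp := spc_ev hV hPt P hP t htA
  have hq := spc_ev hV hPt Q hQ t htA
  have hγt : γ t ∈ A := (hγA t).2 htA
  have hpA : algebraMap C Φ (ev P t) ∈ A := hPt.base _ hp.1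
  have hqA : algebraMap C Φ (ev Q t) ∈ A := hPt.base _ hq.1
  have hP1 : t - algebraMap C Φ (ev P t) ∈ P.ge 1 := evl_mem P (hP t htA)
  have hQ1 : t - algebraMap C Φ (ev Q t) ∈ Q.ge 1 := evl_mem Q (hQ t htA)
  have hP2 : γ t - algebraMap C Φ (ev P t) ∈ P.ge 1 := by
    have h1 := ncl_ge γ P hγP 1 hP1
    rw [map_sub, AlgEquiv.commutes] at h1
    exact h1
  have hQ2 : γ t - algebraMap C Φ (ev Q t) ∈ Q.ge 1 := by
    have h1 := ncl_ge γ Q hγQ 1 hQ1
    rw [map_sub, AlgEquiv.commutes] at h1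
    exact h1
  obtain ⟨uP, huPA, huP⟩ := ht.zero P hP _ hP1 _ (A.sub_mem hγt hpA) hP2
  obtain ⟨uQ, huQA, huQ⟩ := ht.zero Q hQ _ hQ1 _ (A.sub_mem hγt hqA) hQ2
  have hpq : ev P t ≠ ev Q t := fun he => hne (ord_inj hV h hA ht P Q hP hQ he)
  -- the value of `uP` at `Q` is one
  have hid : (algebraMap C Φ (ev Q t) - algebraMap C Φ (ev P t)) * (1 - uP) =
      (uP - uQ) * (t - algebraMap C Φ (ev Q t)) := by
    linear_combination huP - huQ
  have hev : ev Q uP = 1 := by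
    have huPQ : uP ∈ Q.ge 0 := hQ uP huPA
    have huQQ : uQ ∈ Q.ge 0 := hQ uQ huQA
    have h1Q : (1 : Φ) ∈ Q.ge 0 := Q.one_mem_ge
    have hδ : (algebraMap C Φ (ev Q t) - algebraMap C Φ (ev P t)) ∈ Q.ge 0 :=
      sub_mem (Q.algebraMap_mem_ge _) (Q.algebraMap_mem_ge _)
    have e1 : ev Q (1 : Φ) = 1 := by
      have h := evl_const Q (1 : C)
      rw [map_one] at h
      exact h
    have e2 : ev Q ((algebraMap C Φ (ev Q t) - algebraMap C Φ (ev P t)) * (1 - uP)) =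
        (ev Q t - ev P t) * (1 - ev Q uP) := by
      rw [evl_mul Q hδ (sub_mem h1Q huPQ), evl_sub Q h1Q huPQ, e1,
        evl_sub Q (Q.algebraMap_mem_ge _) (Q.algebraMap_mem_ge _), evl_const, evl_const]
    have e3 : ev Q ((uP - uQ) * (t - algebraMap C Φ (ev Q t))) = 0 := by
      have hd : uP - uQ ∈ Q.ge 0 := sub_mem huPQ huQQ
      have ht0 : t - algebraMap C Φ (ev Q t) ∈ Q.ge 0 := Q.ge_anti (by norm_num) hQ1
      rw [evl_mul Q hd ht0, (evl_zero_iff Q ht0).2 hQ1, mul_zero]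
    rw [hid, e3] at e2
    rcases mul_eq_zero.1 e2.symm with h2 | h2
    · exact absurd (sub_eq_zero.1 h2).symm hpq
    · exact (sub_eq_zero.1 h2).symm
  -- so `ζ - 1` is a non-unit
  have hnu : NU A (uP - 1) := by
    have h1 := spc_ev hV hPt Q hQ (uP - 1) (A.sub_mem huPA A.one_mem)
    refine h1.2.2 ?_
    have e1 : ev Q (1 : Φ) = 1 := by
      have h := evl_const Q (1 : C)
      rw [map_one] at h
      exact h
    rw [evl_sub Q (hQ uP huPA) Q.one_mem_ge, hev, e1, sub_self]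
    exact V.mem_nonunits_iff.2 (by rw [map_zero]; exact zero_lt_one)
  have hzn : ev P uP - 1 ∈ V.nonunits := by
    have h1 := spc_ev hV hPt P hP (uP - 1) (A.sub_mem huPA A.one_mem)
    have h2 := h1.2.1 hnu
    have e1 : ev P (1 : Φ) = 1 := by
      have h := evl_const P (1 : C)
      rw [map_one] at h
      exact h
    rw [evl_sub P (hP uP huPA) P.one_mem_ge, e1] at h2
    exact h2
  -- `ζ` is a root of unity
  have hord : P.ord (t - algebraMap C Φ (ev P t)) = 1 := ord_par hV h hA ht P hP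
  set τ : Φ := t - algebraMap C Φ (ev P t) with hτ
  have hτ0 : τ ≠ 0 := by
    intro h0
    rw [h0, P.ord_zero] at hord
    exact zero_ne_one hord
  have hγτ : γ τ = τ * uP := by
    rw [hτ, map_sub, AlgEquiv.commutes]
    exact huP
  have hpow : ∀ j : ℕ, ∃ w ∈ P.ge 0, ev P w = ev P uP ^ j ∧ (γ ^ j) τ = τ * w := by
    intro j
    induction j with
    | zero =>
      refine ⟨1, P.one_mem_ge, ?_, ?_⟩
      · have h := evl_const P (1 : C)
        rw [map_one] at h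
        rw [pow_zero, h]
      · rw [pow_zero, AlgEquiv.one_apply, mul_one]
    | succ j ih =>
      obtain ⟨w, hw, h1, h2⟩ := ih
      have h3 := fxr_ev γ P hγP hw
      refine ⟨uP * γ w, ?_, ?_, ?_⟩
      · have h4 := P.mul_mem_ge (hP uP huPA) h3.1
        rw [add_zero] at h4
        exact h4
      · rw [evl_mul P (hP uP huPA) h3.1, h3.2, h1, pow_succ, mul_comm]
      · rw [pow_succ', AlgEquiv.mul_apply, h2, map_mul, hγτ, mul_assoc]
  have hzn1 : ev P uP ^ n = 1 := by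
    obtain ⟨w, hw, h1, h2⟩ := hpow n
    rw [hγn, AlgEquiv.one_apply] at h2
    have h3 : w = 1 := mul_left_cancel₀ hτ0 (by rw [← h2, mul_one])
    rw [← h1, h3]
    have h := evl_const P (1 : C)
    rw [map_one] at h
    exact h
  by_cases hz1 : ev P uP = 1
  · refine fxr γ n hn hγn hγ P hγP τ hord ?_
    rw [hγτ, mul_div_cancel_left₀ _ hτ0]
    exact hz1
  · have h1 := eig_unit V n hVn (ev P uP) hzn1 hz1
    have h2 : V.valuation (ev P uP - 1) < 1 := V.mem_nonunits_iff.1 hzn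
    rw [← neg_sub, Valuation.map_neg, h1] at h2
    exact lt_irrefl _ h2

end Pool.Agent.ESH
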