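import Pool.Agent.ESH.INV
import Pool.Agent.ESH.FTH
import Pool.Agent.ESH.NCL

/-!
# ESH / INR: inertia centralises `Γ` and fixes the ramified places

Proof.  (1) Let `γ ∈ Γ` and `γ' ∈ Γ` with `σ γ = γ' σ`.  `δ = γ' γ⁻¹ ∈ Γ` satisfies `δ f - f ∈ W.nonunits` for `f ∈ W`: put
`g = γ⁻¹ f ∈ W` (`inv_W`), `δ f = γ' g = σ γ σ⁻¹ g`; modulo `W.nonunits` (which is preserved by `σ` and `γ`),
`σ⁻¹ g ≡ g` (apply `hσW` to `σ⁻¹ g ∈ W`), so `γ σ⁻¹ g ≡ γ g = f`, and `σ` of it is `≡` to it.  FTH with `n = card Γ`: `δ = 1`.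
(`σ` preserves `W`: `σ f = f + (σ f - f)`, and `σ⁻¹`: if `σ f ∈ W`, `f ∉ W`, then `f⁻¹ ∈ W.nonunits`,
`σ f⁻¹ ∈ W.nonunits`, contradiction.)
(2) Let `γ ∈ Γ`, `γ ≠ 1`, fix `P`, let `A ∈ pts` be below `P` (`spc_exists`).  `P' = plMap σ s hs P` is above `A` (`hσA`), and is
fixed by `γ`: `P'.ord (γ f) = P.ord (σ⁻¹ γ f) = P.ord (γ σ⁻¹ f) = P.ord (σ⁻¹ f)`.  `γ` preserves `A` (`inv_fix`).  NCL:
`P' = P`.
-/

namespace Pool.Agent.ESH

open Pool.Agent.Helper11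

variable {C Φ : Type*} [Field C] [Field Φ] [Algebra C Φ] [FunField C Φ] [CharZero C] [IsAlgClosed C]

private theorem inr_nu {F : Type*} [Field F] (W : ValuationSubring F) (x : F) :
    x ∈ W.nonunits ↔ x = 0 ∨ x⁻¹ ∉ W := by
  rw [W.mem_nonunits_iff, ← W.valuation_le_one_iff, map_inv₀, not_le]
  by_cases hx : x = 0
  · simp [hx]
  · have hv : W.valuation x ≠ 0 := (Valuation.ne_zero_iff _).2 hx
    rw [one_lt_inv₀ (zero_lt_iff.2 hv)]
    simp [hx]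

private theorem inr_sub {F : Type*} [Field F] (W : ValuationSubring F) {x y : F}
    (hx : x ∈ W.nonunits) (hy : y ∈ W.nonunits) : x - y ∈ W.nonunits := by
  rw [W.mem_nonunits_iff] at hx hy ⊢
  exact (W.valuation.map_sub x y).trans_lt (max_lt hx hy)

private theorem inr_back {F : Type*} [Field F] (W : ValuationSubring F) (σ : F ≃+* F)
    (hσW : ∀ f ∈ W, σ f - f ∈ W.nonunits) (k : F) (hk : σ k ∈ W) : k ∈ W := by
  by_contra hkW
  have h0 : k ≠ 0 := by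
    rintro rfl
    exact hkW W.zero_mem
  have h1 : k⁻¹ ∈ W.nonunits := by
    rw [inr_nu, inv_inv]
    exact Or.inr hkW
  have h2 : k⁻¹ ∈ W := W.nonunits_subset h1
  have h3 := hσW _ h2
  have h4 : σ k⁻¹ ∈ W.nonunits := by
    have h5 : σ k⁻¹ = (σ k⁻¹ - k⁻¹) - (0 - k⁻¹) := by ring
    rw [h5]
    refine inr_sub W h3 (inr_sub W ?_ h1)
    rw [inr_nu]
    exact Or.inl rfl
  rw [inr_nu, map_inv₀, inv_inv] at h4
  rcases h4 with h4 | h4
  · have h6 : σ k ≠ 0 := by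
      rw [Ne, map_eq_zero_iff σ σ.injective]
      exact h0
    exact inv_ne_zero h6 h4
  · exact h4 hk

theorem inr_comm {V : ValuationSubring C} {W : ValuationSubring Φ} {pts : Set (Subring Φ)}
    (hV : Rk1 V) (h : IsMdl V W pts) (hg : PosGenus C Φ) (Γ : Subgroup (Φ ≃ₐ[C] Φ)) [Finite Γ]
    (hΓ : V.valuation (Nat.card Γ : C) = 1) (σ : Φ ≃+* Φ)
    (hσW : ∀ f ∈ W, σ f - f ∈ W.nonunits)
    (hσΓ : ∀ γ ∈ Γ, ∃ γ' ∈ Γ, ∀ f, σ (γ f) = γ' (σ f)) :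
    ∀ γ ∈ Γ, ∀ f, σ (γ f) = γ (σ f) := by
  intro γ hγ
  obtain ⟨γ', hγ', hcomm⟩ := hσΓ γ hγ
  have hpres : ∀ (g : Φ ≃ₐ[C] Φ) (f : Φ), g f ∈ W ↔ f ∈ W := by
    intro g f
    exact inv_W hV h hg (g : Φ ≃+* Φ) (RingEquiv.refl C) (fun c => g.commutes c)
      (fun c => Iff.rfl) f
  have hδΓ : γ' * γ⁻¹ ∈ Γ := Γ.mul_mem hγ' (Γ.inv_mem hγ)
  have hδn : (γ' * γ⁻¹) ^ Nat.card Γ = 1 := by
    have h1 := pow_card_eq_one' (x := (⟨γ' * γ⁻¹, hδΓ⟩ : Γ))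
    have h2 := congrArg Subtype.val h1
    rw [Subgroup.coe_pow, Subgroup.coe_one] at h2
    exact h2
  have hδ : γ' * γ⁻¹ = 1 := by
    refine fth h (γ' * γ⁻¹) (Nat.card Γ) Nat.card_pos hδn hΓ ?_
    intro f hf
    obtain ⟨g, hg1⟩ : ∃ g, γ g = f := γ.surjective f
    have hgW : g ∈ W := (hpres γ g).1 (by rw [hg1]; exact hf)
    obtain ⟨k, hk⟩ : ∃ k, σ k = g := σ.surjective g
    have hkW : k ∈ W := inr_back W σ hσW k (by rw [hk]; exact hgW)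
    have h1 : (γ' * γ⁻¹) f = σ (γ k) := by
      have h2 : γ⁻¹ f = g := by
        rw [← hg1]
        exact γ.symm_apply_apply g
      rw [AlgEquiv.mul_apply, h2, hcomm k, hk]
    have h2 : g - k ∈ W.nonunits := by
      rw [← hk]
      exact hσW k hkW
    have h3 : f - γ k ∈ W.nonunits := by
      have h4 : f - γ k = γ (g - k) := by
        rw [map_sub, hg1]
      rw [h4, inr_nu]
      rw [inr_nu] at h2
      rcases h2 with h2 | h2
      · left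
        rw [h2, map_zero]
      · right
        rw [← map_inv₀, hpres]
        exact h2
    have h4 : γ k ∈ W := (hpres γ k).2 hkW
    have h5 := hσW _ h4
    have h6 : (γ' * γ⁻¹) f - f = (σ (γ k) - γ k) - (f - γ k) := by
      rw [h1]
      ring
    rw [h6]
    exact inr_sub W h5 h3
  have he : γ' = γ := mul_inv_eq_one.1 hδ
  intro f
  rw [hcomm f, he]

theorem inr_fix {V : ValuationSubring C} {W : ValuationSubring Φ} {pts : Set (Subring Φ)}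
    (hV : Rk1 V) (h : IsMdl V W pts) (hg : PosGenus C Φ) (Γ : Subgroup (Φ ≃ₐ[C] Φ)) [Finite Γ]
    (hΓ : V.valuation (Nat.card Γ : C) = 1) (σ : Φ ≃+* Φ) (s : C ≃+* C)
    (hs : ∀ c : C, σ (algebraMap C Φ c) = algebraMap C Φ (s c))
    (hσA : ∀ A ∈ pts, PresA σ A) (hc : ∀ γ ∈ Γ, ∀ f, σ (γ f) = γ (σ f))
    (P : Place C Φ) (hP : ∃ γ ∈ Γ, γ ≠ 1 ∧ Fixes γ P) : plMap σ s hs P = P := by
  obtain ⟨γ, hγ, hγ1, hfix⟩ := hP
  obtain ⟨A, hA, hAP⟩ := spc_exists hV h P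
  have hγn : γ ^ Nat.card Γ = 1 := by
    have h1 := pow_card_eq_one' (x := (⟨γ, hγ⟩ : Γ))
    have h2 := congrArg Subtype.val h1
    rw [Subgroup.coe_pow, Subgroup.coe_one] at h2
    exact h2
  have hAP' : Below A (plMap σ s hs P) := by
    intro a ha
    have h1 : σ.symm a ∈ A := (hσA A hA (σ.symm a)).1 (by rw [RingEquiv.apply_symm_apply]; exact ha)
    have h2 := (plMap_ge σ s hs P 0 (σ.symm a)).2 (hAP _ h1)
    rw [RingEquiv.apply_symm_apply] at h2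
    exact h2
  have hfix' : Fixes γ (plMap σ s hs P) := by
    intro f
    change P.ord (σ.symm (γ f)) = P.ord (σ.symm f)
    have h1 : σ.symm (γ f) = γ (σ.symm f) := by
      rw [RingEquiv.symm_apply_eq, hc γ hγ, RingEquiv.apply_symm_apply]
    rw [h1, hfix]
  exact ncl hV h hA γ (Nat.card Γ) Nat.card_pos hγn hΓ hγ1 (inv_fix hV h hg γ P hfix hA hAP)
    (plMap σ s hs P) P hAP' hAP hfix' hfix

end Pool.Agent.ESH
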