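import Pool.Agent.ESH.BRA
import Pool.Agent.Helper11.Height

/-!
# ESH / MOB: Mobius transformations

`mob_uniq`: `x` and `x'` both generate the fixed field of `G`, and take the values `0, 1, ∞` at the same three places.  Then
`x = x'`.
Proof.  `x' = p(x)/q(x)`, `p, q` coprime polynomials; `max (deg p, deg q) * ht x = ht x'` (the degree of a rational function of
`x`), and `ht x = ht x' = card G` (BRA, `ht_eq_finrank`), so `max(deg p, deg q) = 1`: `x' = (a x + b)/(c x + d)`; the value
`0` at `P₀` gives `b = 0`, the pole at `P∞` gives `c = 0` and the value `1` at `P₁` gives `a = d`.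
`mob_norm`: let `c₀, c₁, c₂` be three distinct elements of `C`; `x' = (x - c₀)(c₁ - c₂)/((x - c₂)(c₁ - c₀))` is again a
generator, and the branch points correspond: `c₀ ↦ 0`, `c₁ ↦ 1`, `c₂ ↦ ∞`, and in general finite
branch points of `x'` are the images of finite branch points of `x` or of `∞` (`c ↦ μ(c)`); orders: for
`c ≠ c₂`, `R.ord (x' - μ(c)) = R.ord (x - c)` at the zeros of `x - c`.  In particular if `x` has at most `r` finite branch points,
`x'` has at most `r + 1`.
`mob_few`: `x' = (x - c₀)/(c₁ - c₀)` if `c₀ ≠ c₁`, and `x' = x - c₀` otherwise.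
-/

namespace Pool.Agent.ESH

open Pool.Agent.Helper11

section MobPrivate

open Polynomial IntermediateField

variable {k L : Type*} [Field k] [Field L] [Algebra k L]

/-- the pole order of a ratio -/
private theorem mob_loc (v : Place k L) {x : L} {p q : k[X]} (hp : p ≠ 0) (hq : q ≠ 0)
    (hpx : aeval x p ≠ 0) (hqx : aeval x q ≠ 0) (hc : IsCoprime p q) :
    max 0 (-(v.ord (aeval x p / aeval x q))) =
      ((max (p.natDegree : ℤ) q.natDegree) - q.natDegree) * max 0 (-v.ord x) +
        max 0 (v.ord (aeval x q)) := by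
  rw [v.ord_div hpx hqx]
  rcases le_or_gt 0 (v.ord x) with h | h
  · have h0 : x ∈ v.ge 0 := v.mem_ge_of_le h
    have hp0 : 0 ≤ v.ord (aeval x p) := v.le_ord_of_mem (v.aeval_mem_ge_zero h0 p) hpx
    have hq0 : 0 ≤ v.ord (aeval x q) := v.le_ord_of_mem (v.aeval_mem_ge_zero h0 q) hqx
    have hone : v.ord (aeval x p) = 0 ∨ v.ord (aeval x q) = 0 := by
      by_contra hcon
      push Not at hcon
      obtain ⟨a, b, hab⟩ := hc
      have h1 : aeval x a * aeval x p + aeval x b * aeval x q = 1 := by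
        rw [← map_mul, ← map_mul, ← map_add, hab, map_one]
      have h2 : aeval x p ∈ v.ge 1 := v.mem_ge_of_le (by omega)
      have h3 : aeval x q ∈ v.ge 1 := v.mem_ge_of_le (by omega)
      have h4 : (1 : L) ∈ v.ge 1 := by
        rw [← h1]
        refine add_mem ?_ ?_
        · simpa using v.mul_mem_ge (v.aeval_mem_ge_zero h0 a) h2
        · simpa using v.mul_mem_ge (v.aeval_mem_ge_zero h0 b) h3
      have h5 := v.le_ord_of_mem h4 one_ne_zero
      rw [v.ord_one] at h5
      omega
    rw [max_eq_left (a := (0 : ℤ)) (b := -v.ord x) (by omega), mul_zero, zero_add]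
    rcases hone with h1 | h1 <;> rw [h1] <;> omega
  · have hp1 := (v.ord_aeval h hp).2
    have hq1 := (v.ord_aeval h hq).2
    rw [hp1, hq1, max_eq_right (a := (0 : ℤ)) (b := -v.ord x) (by omega)]
    have hqn : (q.natDegree : ℤ) * v.ord x ≤ 0 :=
      mul_nonpos_of_nonneg_of_nonpos (Int.natCast_nonneg _) h.le
    rw [max_eq_left (a := (0 : ℤ)) (b := (q.natDegree : ℤ) * v.ord x) hqn, add_zero]
    rcases le_total (p.natDegree : ℤ) q.natDegree with h1 | h1
    · rw [max_eq_right h1, sub_self, zero_mul]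
      refine max_eq_left ?_
      nlinarith
    · rw [max_eq_left h1]
      rw [max_eq_right (by nlinarith)]
      ring

private theorem mob_ht [FunField k L] [CharZero k] [IsAlgClosed k] {x : L}
    (hx : Transcendental k x) {p q : k[X]} (hp : p ≠ 0) (hq : q ≠ 0) (hc : IsCoprime p q) :
    ht k (aeval x p / aeval x q) = (max (p.natDegree : ℤ) q.natDegree) * ht k x := by
  have hpx : aeval x p ≠ 0 := fun h => hp ((transcendental_iff.1 hx) p h)
  have hqx : aeval x q ≠ 0 := fun h => hq ((transcendental_iff.1 hx) q h)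
  have h1 : ht k (aeval x p / aeval x q) = ∑ᶠ v : Place k L,
      (((max (p.natDegree : ℤ) q.natDegree) - q.natDegree) * max 0 (-v.ord x) +
        max 0 (v.ord (aeval x q))) := by
    unfold ht
    exact finsum_congr fun v => mob_loc v hp hq hpx hqx hc
  have hs : {v : Place k L | ((max (p.natDegree : ℤ) q.natDegree) - q.natDegree) *
      max 0 (-v.ord x) ≠ 0}.Finite := by
    refine (supp_negpart (k := k) x).subset fun v hv h => hv ?_
    rw [h, mul_zero]
  rw [h1, fs_add hs (supp_pospart _), fs_const_mul, ← ht_eq_pos, ht_aeval x hq]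
  unfold ht
  ring

/-- numerator and denominator may be taken coprime -/
private theorem mob_cop (r s : k[X]) (hs : s ≠ 0) :
    ∃ g r' s' : k[X], r = g * r' ∧ s = g * s' ∧ IsCoprime r' s' := by
  classical
  obtain ⟨r', hr'⟩ := EuclideanDomain.gcd_dvd_left r s
  obtain ⟨s', hs'⟩ := EuclideanDomain.gcd_dvd_right r s
  have hg := EuclideanDomain.gcd_eq_gcd_ab r s
  have hg0 : EuclideanDomain.gcd r s ≠ 0 := fun h => hs (by rw [hs', h, zero_mul])
  refine ⟨EuclideanDomain.gcd r s, r', s', hr', hs', EuclideanDomain.gcdA r s,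
    EuclideanDomain.gcdB r s, ?_⟩
  refine mul_left_cancel₀ hg0 ?_
  calc EuclideanDomain.gcd r s * (EuclideanDomain.gcdA r s * r' + EuclideanDomain.gcdB r s * s')
      = (EuclideanDomain.gcd r s * r') * EuclideanDomain.gcdA r s +
        (EuclideanDomain.gcd r s * s') * EuclideanDomain.gcdB r s := by ring
    _ = r * EuclideanDomain.gcdA r s + s * EuclideanDomain.gcdB r s := by rw [← hr', ← hs']
    _ = EuclideanDomain.gcd r s * 1 := by rw [mul_one, ← hg]

end MobPrivate

variable {C Φ : Type*} [Field C] [Field Φ] [Algebra C Φ] [FunField C Φ] [CharZero C] [IsAlgClosed C]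

theorem mob_uniq (G : Subgroup (Φ ≃ₐ[C] Φ)) [Finite G] (x x' : Φ) (hx : FixGen G x)
    (hx' : FixGen G x') (P₀ P₁ P₂ : Place C Φ) (h0 : 1 ≤ P₀.ord x) (h0' : 1 ≤ P₀.ord x')
    (h1 : 1 ≤ P₁.ord (x - 1)) (h1' : 1 ≤ P₁.ord (x' - 1)) (h2 : P₂.ord x ≤ -1)
    (h2' : P₂.ord x' ≤ -1) : x = x' := by
  classical
  obtain ⟨htx, hfx⟩ := bra_deg G x hx
  obtain ⟨htx', hfx'⟩ := bra_deg G x' hx'
  have hmem : x' ∈ IntermediateField.adjoin C {x} := hx.2 x' hx'.1
  rw [IntermediateField.mem_adjoin_simple_iff] at hmem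
  obtain ⟨r, s, hrs⟩ := hmem
  have hs0 : s ≠ 0 := by
    rintro rfl
    rw [map_zero, div_zero] at hrs
    rw [hrs, P₂.ord_zero] at h2'
    omega
  have hr0 : r ≠ 0 := by
    rintro rfl
    rw [map_zero, zero_div] at hrs
    rw [hrs, P₂.ord_zero] at h2'
    omega
  -- coprime numerator and denominator
  obtain ⟨p, q, hp0, hq0, hpq, hxpq⟩ : ∃ p q : Polynomial C, p ≠ 0 ∧ q ≠ 0 ∧ IsCoprime p q ∧
      x' = Polynomial.aeval x p / Polynomial.aeval x q := by
    obtain ⟨g, r', s', hr', hs', hco⟩ := mob_cop r s hs0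
    have hg0 : g ≠ 0 := fun h => hs0 (by rw [hs', h, zero_mul])
    have hr'0 : r' ≠ 0 := fun h => hr0 (by rw [hr', h, mul_zero])
    have hs'0 : s' ≠ 0 := fun h => hs0 (by rw [hs', h, mul_zero])
    refine ⟨r', s', hr'0, hs'0, hco, ?_⟩
    have hgx : Polynomial.aeval x g ≠ 0 := fun h =>
      hg0 ((transcendental_iff.1 htx) _ h)
    rw [hrs, hr', hs', map_mul, map_mul]
    exact mul_div_mul_left _ _ hgx
  have hht := mob_ht htx hp0 hq0 hpq
  rw [← hxpq, ht_eq_finrank htx, ht_eq_finrank htx', hfx, hfx'] at hht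
  have hN : (0 : ℤ) < (Nat.card G : ℤ) := by exact_mod_cast Nat.card_pos
  have hmax : max (p.natDegree : ℤ) q.natDegree = 1 := by
    have h3 : (max (p.natDegree : ℤ) q.natDegree - 1) * (Nat.card G : ℤ) = 0 := by
      linear_combination -hht
    rcases mul_eq_zero.1 h3 with h4 | h4
    · omega
    · omega
  have hpd : p.natDegree ≤ 1 := by
    have := le_max_left (p.natDegree : ℤ) q.natDegree
    omega
  have hqd : q.natDegree ≤ 1 := by
    have := le_max_right (p.natDegree : ℤ) q.natDegree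
    omega
  obtain ⟨a, b, rfl⟩ : ∃ a b : C, p = Polynomial.C a * Polynomial.X + Polynomial.C b :=
    Polynomial.exists_eq_X_add_C_of_natDegree_le_one hpd
  obtain ⟨c, d, rfl⟩ : ∃ c d : C, q = Polynomial.C c * Polynomial.X + Polynomial.C d :=
    Polynomial.exists_eq_X_add_C_of_natDegree_le_one hqd
  simp only [map_add, map_mul, Polynomial.aeval_C, Polynomial.aeval_X] at hxpq
  have hden : algebraMap C Φ c * x + algebraMap C Φ d ≠ 0 := by
    intro h
    rw [h, div_zero] at hxpq
    rw [hxpq, P₂.ord_zero] at h2'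
    omega
  have hrel : x' * (algebraMap C Φ c * x + algebraMap C Φ d) =
      algebraMap C Φ a * x + algebraMap C Φ b := by
    rw [hxpq, div_mul_cancel₀ _ hden]
  -- the value at `P₀`
  have hconst : ∀ (P : Place C Φ) (e : C), algebraMap C Φ e ∈ P.ge 1 → e = 0 := by
    intro P e he
    by_contra h
    have h3 := P.le_ord_of_mem he ((map_ne_zero _).2 h)
    rw [P.ord_algebraMap] at h3
    omega
  have hb : b = 0 := by
    apply hconst P₀
    have e1 : algebraMap C Φ b = x' * (algebraMap C Φ c * x + algebraMap C Φ d) -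
        algebraMap C Φ a * x := by
      rw [hrel]
      ring
    have m1 : x ∈ P₀.ge 1 := P₀.mem_ge_of_le h0
    have m2 : x' ∈ P₀.ge 1 := P₀.mem_ge_of_le h0'
    have m3 : algebraMap C Φ a * x ∈ P₀.ge 1 := by
      simpa using P₀.mul_mem_ge (P₀.algebraMap_mem_ge a) m1
    have m4 : algebraMap C Φ c * x + algebraMap C Φ d ∈ P₀.ge 0 := by
      refine add_mem ?_ (P₀.algebraMap_mem_ge d)
      simpa using P₀.mul_mem_ge (P₀.algebraMap_mem_ge c) (P₀.ge_anti (by norm_num) m1)
    rw [e1]
    refine sub_mem ?_ m3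
    simpa using P₀.mul_mem_ge m2 m4
  subst hb
  rw [map_zero, add_zero] at hrel
  have hx0 : x ≠ 0 := P₂.ne_zero_of_ord_ne_zero (by omega)
  have hx'0 : x' ≠ 0 := P₂.ne_zero_of_ord_ne_zero (by omega)
  have ha : a ≠ 0 := by
    rintro rfl
    rw [map_zero, zero_mul] at hrel
    rcases mul_eq_zero.1 hrel with h | h
    · exact hx'0 h
    · exact hden h
  have ha' : algebraMap C Φ a ≠ 0 := (map_ne_zero _).2 ha
  have hc : c = 0 := by
    by_contra hc
    have hc' : algebraMap C Φ c ≠ 0 := (map_ne_zero _).2 hc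
    have hcx : P₂.ord (algebraMap C Φ c * x) = P₂.ord x := by
      rw [P₂.ord_mul _ _ hc' hx0, P₂.ord_algebraMap, zero_add]
    have h3 := (P₂.ord_add_eq_left (x := algebraMap C Φ c * x) (y := algebraMap C Φ d)
      (mul_ne_zero hc' hx0) (by
        right
        rw [hcx, P₂.ord_algebraMap]
        omega)).2
    have h4 := congrArg P₂.ord hrel
    rw [P₂.ord_mul _ _ hx'0 hden, h3, hcx, P₂.ord_mul _ _ ha' hx0, P₂.ord_algebraMap] at h4
    omega
  subst hc
  rw [map_zero, zero_mul, zero_add] at hrel hden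
  have had : a = d := by
    have h3 : d - a = 0 := by
      apply hconst P₁
      have e1 : algebraMap C Φ (d - a) = algebraMap C Φ a * (x - 1) -
          (x' - 1) * algebraMap C Φ d := by
        rw [map_sub]
        linear_combination hrel
      have m1 : x - 1 ∈ P₁.ge 1 := P₁.mem_ge_of_le h1
      have m2 : x' - 1 ∈ P₁.ge 1 := P₁.mem_ge_of_le h1'
      rw [e1]
      refine sub_mem ?_ ?_
      · simpa using P₁.mul_mem_ge (P₁.algebraMap_mem_ge a) m1
      · simpa using P₁.mul_mem_ge m2 (P₁.algebraMap_mem_ge d)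
    exact (sub_eq_zero.1 h3).symm
  subst had
  have h3 : algebraMap C Φ a * (x - x') = 0 := by linear_combination -hrel
  rcases mul_eq_zero.1 h3 with h4 | h4
  · exact absurd h4 ha'
  · exact sub_eq_zero.1 h4

/-- a nonconstant minus a constant -/
private theorem mob_ne {x : Φ} (htx : Transcendental C x) (c : C) :
    x - algebraMap C Φ c ≠ 0 := by
  intro h
  rw [sub_eq_zero] at h
  exact htx (h ▸ isAlgebraic_algebraMap c)

/-- two different constants -/
private theorem mob_ord (P : Place C Φ) {x : Φ} (c c' : C) (hcc : c ≠ c')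
    (h : 1 ≤ P.ord (x - algebraMap C Φ c)) : P.ord (x - algebraMap C Φ c') = 0 := by
  have h1 : x - algebraMap C Φ c' = algebraMap C Φ (c - c') + (x - algebraMap C Φ c) := by
    rw [map_sub]
    ring
  have h2 : algebraMap C Φ (c - c') ≠ 0 := (map_ne_zero _).2 (sub_ne_zero.2 hcc)
  rw [h1, (P.ord_add_eq_left h2 (Or.inr (by rw [P.ord_algebraMap]; omega))).2,
    P.ord_algebraMap]

theorem mob_norm (G : Subgroup (Φ ≃ₐ[C] Φ)) [Finite G] (x : Φ) (hx : FixGen G x) (B : Finset C)
    (hB : ∀ c : C, BrF x c → c ∈ B) (c₀ c₁ c₂ : C) (h01 : c₀ ≠ c₁) (h02 : c₀ ≠ c₂) (h12 : c₁ ≠ c₂)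
    (b0 : BrF x c₀) (b1 : BrF x c₁) (b2 : BrF x c₂) :
    ∃ x' : Φ, FixGen G x' ∧ BrF x' (0 : C) ∧ BrF x' (1 : C) ∧ BrI C x' ∧
      ∃ B' : Finset C, B'.card ≤ B.card + 1 ∧ ∀ c : C, BrF x' c → c ∈ B' := by
  classical
  obtain ⟨htx, -⟩ := bra_deg G x hx
  -- the multiplier
  obtain ⟨κ, hκ⟩ : ∃ κ : C, κ = (c₁ - c₂) / (c₁ - c₀) := ⟨_, rfl⟩
  have hκ0 : κ ≠ 0 := by
    rw [hκ]
    exact div_ne_zero (sub_ne_zero.2 h12) (sub_ne_zero.2 h01.symm)
  have hκe : κ * (c₁ - c₀) = c₁ - c₂ := by
    rw [hκ, div_mul_cancel₀ _ (sub_ne_zero.2 h01.symm)]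
  have hx0 := mob_ne htx c₀
  have hx2 := mob_ne htx c₂
  have hκ' : algebraMap C Φ κ ≠ 0 := (map_ne_zero _).2 hκ0
  have hκe' : algebraMap C Φ κ * (algebraMap C Φ c₁ - algebraMap C Φ c₀) =
      algebraMap C Φ c₁ - algebraMap C Φ c₂ := by
    rw [← map_sub, ← map_mul, hκe, map_sub]
  obtain ⟨x', hx'⟩ : ∃ x' : Φ, x' = algebraMap C Φ κ * (x - algebraMap C Φ c₀) /
    (x - algebraMap C Φ c₂) := ⟨_, rfl⟩
  have hrel : x' * (x - algebraMap C Φ c₂) = algebraMap C Φ κ * (x - algebraMap C Φ c₀) := by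
    rw [hx', div_mul_cancel₀ _ hx2]
  -- orders of `x' - c`
  have hsub : ∀ c' : C, c' ≠ κ → x' - algebraMap C Φ c' = algebraMap C Φ (κ - c') *
      (x - algebraMap C Φ ((κ * c₀ - c' * c₂) / (κ - c'))) / (x - algebraMap C Φ c₂) := by
    intro c' hc'
    have h1 : κ - c' ≠ 0 := sub_ne_zero.2 hc'.symm
    have h2 : algebraMap C Φ (κ - c') ≠ 0 := (map_ne_zero _).2 h1
    have h3 : algebraMap C Φ (κ - c') *
        algebraMap C Φ ((κ * c₀ - c' * c₂) / (κ - c')) =
        algebraMap C Φ κ * algebraMap C Φ c₀ - algebraMap C Φ c' * algebraMap C Φ c₂ := by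
      rw [← map_mul, mul_div_cancel₀ _ h1, map_sub, map_mul, map_mul]
    have h4 : algebraMap C Φ (κ - c') = algebraMap C Φ κ - algebraMap C Φ c' := map_sub _ _ _
    rw [eq_div_iff hx2]
    linear_combination hrel + h3 - x * h4
  have hordsub : ∀ (P : Place C Φ) (c' : C), c' ≠ κ → P.ord (x' - algebraMap C Φ c') =
      P.ord (x - algebraMap C Φ ((κ * c₀ - c' * c₂) / (κ - c'))) -
        P.ord (x - algebraMap C Φ c₂) := by
    intro P c' hc'
    have h1 : κ - c' ≠ 0 := sub_ne_zero.2 hc'.symm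
    have h2 : algebraMap C Φ (κ - c') ≠ 0 := (map_ne_zero _).2 h1
    rw [hsub c' hc', P.ord_div (mul_ne_zero h2 (mob_ne htx _)) hx2,
      P.ord_mul _ _ h2 (mob_ne htx _), P.ord_algebraMap, zero_add]
  have h1κ : (1 : C) ≠ κ := by
    intro h
    rw [← h, one_mul] at hκe
    exact h02 (sub_right_injective hκe)
  have hμ1 : (κ * c₀ - 1 * c₂) / (κ - 1) = c₁ := by
    rw [div_eq_iff (sub_ne_zero.2 h1κ.symm)]
    linear_combination (-1 : C) * hκe
  have hμ0 : (κ * c₀ - 0 * c₂) / (κ - 0) = c₀ := by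
    rw [zero_mul, sub_zero, sub_zero, mul_div_cancel_left₀ _ hκ0]
  refine ⟨x', ⟨?_, ?_⟩, ?_, ?_, ?_, ?_⟩
  · intro g hg
    rw [hx', map_div₀, map_mul, map_sub, map_sub, AlgEquiv.commutes, AlgEquiv.commutes,
      AlgEquiv.commutes, hx.1 g hg]
  · intro f hf
    have h1 := hx.2 f hf
    have h2 : x ∈ IntermediateField.adjoin C {x'} := by
      have hm : x' ∈ IntermediateField.adjoin C {x'} :=
        IntermediateField.mem_adjoin_simple_self C x'
      have hm' : ∀ c : C, algebraMap C Φ c ∈ IntermediateField.adjoin C {x'} := fun c =>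
        IntermediateField.algebraMap_mem _ c
      have hne : x' - algebraMap C Φ κ ≠ 0 := by
        intro h
        rw [sub_eq_zero] at h
        rw [h] at hrel
        have h3 := mul_left_cancel₀ hκ' hrel
        exact h02 ((algebraMap C Φ).injective (sub_right_injective h3)).symm
      have hxe : x = (algebraMap C Φ c₂ * x' - algebraMap C Φ κ * algebraMap C Φ c₀) /
          (x' - algebraMap C Φ κ) := by
        rw [eq_div_iff hne]
        linear_combination hrel
      rw [hxe]
      exact div_mem (sub_mem (mul_mem (hm' c₂) hm) (mul_mem (hm' κ) (hm' c₀)))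
        (sub_mem hm (hm' κ))
    have h3 : IntermediateField.adjoin C {x} ≤ IntermediateField.adjoin C {x'} := by
      rw [IntermediateField.adjoin_simple_le_iff]
      exact h2
    exact h3 h1
  · obtain ⟨P, hP⟩ := b0
    refine ⟨P, ?_⟩
    rw [hordsub P 0 hκ0.symm, hμ0, mob_ord P c₀ c₂ h02 (by omega), sub_zero]
    exact hP
  · obtain ⟨P, hP⟩ := b1
    refine ⟨P, ?_⟩
    rw [hordsub P 1 h1κ, hμ1, mob_ord P c₁ c₂ h12 (by omega), sub_zero]
    exact hP
  · obtain ⟨P, hP⟩ := b2
    refine ⟨P, ?_⟩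
    rw [hx', P.ord_div (mul_ne_zero hκ' hx0) hx2, P.ord_mul _ _ hκ' hx0, P.ord_algebraMap,
      mob_ord P c₂ c₀ h02.symm (by omega)]
    omega
  · refine ⟨insert κ (B.image fun c => κ * (c - c₀) / (c - c₂)), ?_, ?_⟩
    · exact (Finset.card_insert_le _ _).trans (Nat.add_le_add_right Finset.card_image_le 1)
    · intro c' hc'
      obtain ⟨P, hP⟩ := hc'
      by_cases hck : c' = κ
      · rw [hck]
        exact Finset.mem_insert_self _ _
      refine Finset.mem_insert_of_mem ?_
      rw [Finset.mem_image]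
      rw [hordsub P c' hck] at hP
      set c := (κ * c₀ - c' * c₂) / (κ - c') with hcdef
      have hkc : κ - c' ≠ 0 := sub_ne_zero.2 (Ne.symm hck)
      have hce : c * (κ - c') = κ * c₀ - c' * c₂ := by
        rw [hcdef, div_mul_cancel₀ _ hkc]
      have hcc2 : c ≠ c₂ := by
        intro h
        rw [h, sub_self] at hP
        omega
      have hord : 2 ≤ P.ord (x - algebraMap C Φ c) := by
        rcases le_or_gt 0 (P.ord (x - algebraMap C Φ c₂)) with h | h
        · omega
        · exfalso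
          have h1 : x - algebraMap C Φ c = (x - algebraMap C Φ c₂) + algebraMap C Φ (c₂ - c) := by
            rw [map_sub]
            ring
          have h2 := (P.ord_add_eq_left (x := x - algebraMap C Φ c₂)
            (y := algebraMap C Φ (c₂ - c)) hx2 (Or.inr (by rw [P.ord_algebraMap]; exact h))).2
          rw [← h1] at h2
          omega
      refine ⟨c, hB c ⟨P, hord⟩, ?_⟩
      rw [div_eq_iff (sub_ne_zero.2 hcc2)]
      linear_combination hce

/-- at most two finite branch points: a generator with all its branch points in `{0, 1, ∞}` -/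
theorem mob_few (G : Subgroup (Φ ≃ₐ[C] Φ)) [Finite G] (x : Φ) (hx : FixGen G x)
    (h : (∃ c₀ c₁ : C, ∀ c : C, BrF x c → c = c₀ ∨ c = c₁)) :
    ∃ x' : Φ, FixGen G x' ∧ ∀ c : C, BrF x' c → c = 0 ∨ c = 1 := by
  obtain ⟨c₀, c₁, hcc⟩ := h
  -- an affine change of variable
  obtain ⟨e, he, hgen⟩ : ∃ e : C, e ≠ 0 ∧ ∀ c : C, (c₀ + c * e = c₀ ∨ c₀ + c * e = c₁) →
      c = 0 ∨ c = 1 := by
    by_cases h01 : c₀ = c₁
    · refine ⟨1, one_ne_zero, fun c hc => Or.inl ?_⟩
      rcases hc with hc | hc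
      · simpa using hc
      · rw [← h01] at hc
        simpa using hc
    · refine ⟨c₁ - c₀, sub_ne_zero.2 (Ne.symm h01), fun c hc => ?_⟩
      have h1 : c₁ - c₀ ≠ 0 := sub_ne_zero.2 (Ne.symm h01)
      rcases hc with hc | hc
      · left
        have h2 : c * (c₁ - c₀) = 0 := by linear_combination hc
        exact (mul_eq_zero.1 h2).resolve_right h1
      · right
        have h2 : (c - 1) * (c₁ - c₀) = 0 := by linear_combination hc
        exact sub_eq_zero.1 ((mul_eq_zero.1 h2).resolve_right h1)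
  have he' : algebraMap C Φ e ≠ 0 := (map_ne_zero _).2 he
  refine ⟨(x - algebraMap C Φ c₀) / algebraMap C Φ e, ⟨?_, ?_⟩, ?_⟩
  · intro g hg
    rw [map_div₀, map_sub, AlgEquiv.commutes, AlgEquiv.commutes, hx.1 g hg]
  · intro f hf
    have h3 : IntermediateField.adjoin C {x} ≤
        IntermediateField.adjoin C {(x - algebraMap C Φ c₀) / algebraMap C Φ e} := by
      rw [IntermediateField.adjoin_simple_le_iff]
      have hm : (x - algebraMap C Φ c₀) / algebraMap C Φ e ∈
          IntermediateField.adjoin C {(x - algebraMap C Φ c₀) / algebraMap C Φ e} :=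
        IntermediateField.mem_adjoin_simple_self C _
      have hxe : x = (x - algebraMap C Φ c₀) / algebraMap C Φ e * algebraMap C Φ e +
          algebraMap C Φ c₀ := by
        rw [div_mul_cancel₀ _ he']
        ring
      have hmem := add_mem (mul_mem hm (IntermediateField.algebraMap_mem _ e))
        (IntermediateField.algebraMap_mem (IntermediateField.adjoin C
          {(x - algebraMap C Φ c₀) / algebraMap C Φ e}) c₀)
      rwa [← hxe] at hmem
    exact h3 (hx.2 f hf)
  · rintro c ⟨P, hP⟩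
    apply hgen c
    apply hcc
    refine ⟨P, ?_⟩
    obtain ⟨htx, -⟩ := bra_deg G x hx
    have h1 : (x - algebraMap C Φ c₀) / algebraMap C Φ e - algebraMap C Φ c =
        (x - algebraMap C Φ (c₀ + c * e)) / algebraMap C Φ e := by
      rw [map_add, map_mul, eq_div_iff he', sub_mul, div_mul_cancel₀ _ he']
      ring
    rw [h1, P.ord_div (mob_ne htx _) he', P.ord_algebraMap, sub_zero] at hP
    exact hP

end Pool.Agent.ESH
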