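import Pool.Agent.ESH.HOL

/-!
# ESH / UVL: values of a function at two places away from its divisor on the special fibre

Proof.  `scale`: `f = c u` with `u` a unit of `W`.  `u` and `u⁻¹` have no poles at the places above `A₁`, so `u, u⁻¹ ∈ A₁`
(HOL), and `ev P₁ u, ev P₁ u⁻¹ ∈ V` (`spc_ev`): `ev P₁ f = c * (unit of V)`.  The same for `P₂`.
-/

namespace Pool.Agent.ESH

open Pool.Agent.Helper11

variable {C Φ : Type*} [Field C] [Field Φ] [Algebra C Φ] [FunField C Φ] [CharZero C] [IsAlgClosed C]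

theorem uvl {V : ValuationSubring C} {W : ValuationSubring Φ} {pts : Set (Subring Φ)}
    (hV : Rk1 V) (h : IsMdl V W pts) {A₁ A₂ : Subring Φ} (hA₁ : A₁ ∈ pts) (hA₂ : A₂ ∈ pts)
    (P₁ P₂ : Place C Φ) (h₁ : Below A₁ P₁) (h₂ : Below A₂ P₂) (f : Φ) (hf : f ≠ 0)
    (h0 : ∀ R : Place C Φ, (Below A₁ R ∨ Below A₂ R) → R.ord f = 0) :
    V.valuation (ev P₁ f) = V.valuation (ev P₂ f) := by
  obtain ⟨c, hc, hu1, hu2⟩ := h.scale f hf
  have hc' : algebraMap C Φ c ≠ 0 := (map_ne_zero _).2 hc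
  have hu0 : f / algebraMap C Φ c ≠ 0 := div_ne_zero hf hc'
  have hinv : (f / algebraMap C Φ c)⁻¹ = algebraMap C Φ c / f := inv_div _ _
  have hord : ∀ R : Place C Φ, R.ord f = 0 → R.ord (f / algebraMap C Φ c) = 0 := by
    intro R hR
    rw [R.ord_div hf hc', hR, R.ord_algebraMap, sub_zero]
  have key : ∀ {A : Subring Φ}, A ∈ pts → ∀ P : Place C Φ, Below A P →
      (∀ R : Place C Φ, Below A R → R.ord f = 0) →
      V.valuation (ev P f) = V.valuation c := by
    intro A hA P hP hR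
    have hm1 : f / algebraMap C Φ c ∈ A :=
      hol hV h hA _ hu1 fun R hBR => Or.inr (hord R (hR R hBR)).ge
    have hm2 : (f / algebraMap C Φ c)⁻¹ ∈ A := by
      refine hol hV h hA _ (hinv ▸ hu2) fun R hBR => Or.inr ?_
      rw [R.ord_inv, hord R (hR R hBR), neg_zero]
    have hv1 := (spc_ev hV (h.pt A hA) P hP _ hm1).1
    have hv2 := (spc_ev hV (h.pt A hA) P hP _ hm2).1
    have hge1 : f / algebraMap C Φ c ∈ P.ge 0 := hP _ hm1
    have hge2 : (f / algebraMap C Φ c)⁻¹ ∈ P.ge 0 := hP _ hm2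
    have hprod : ev P (f / algebraMap C Φ c) * ev P (f / algebraMap C Φ c)⁻¹ = 1 := by
      rw [← evl_mul P hge1 hge2, mul_inv_cancel₀ hu0, ← map_one (algebraMap C Φ), evl_const]
    have hval : V.valuation (ev P (f / algebraMap C Φ c)) = 1 := by
      rw [← ValuationSubring.valuation_le_one_iff] at hv1 hv2
      refine le_antisymm hv1 ?_
      have h3 := congrArg V.valuation hprod
      rw [map_mul, map_one] at h3
      calc (1 : V.ValueGroup) = V.valuation (ev P (f / algebraMap C Φ c)) *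
            V.valuation (ev P (f / algebraMap C Φ c)⁻¹) := h3.symm
        _ ≤ V.valuation (ev P (f / algebraMap C Φ c)) * 1 := mul_le_mul_right hv2 _
        _ = V.valuation (ev P (f / algebraMap C Φ c)) := mul_one _
    have hfe : f = algebraMap C Φ c * (f / algebraMap C Φ c) := by
      rw [mul_div_cancel₀ _ hc']
    have hev : ev P f = c * ev P (f / algebraMap C Φ c) := by
      conv_lhs => rw [hfe]
      rw [evl_mul P (P.algebraMap_mem_ge c) hge1, evl_const]
    rw [hev, map_mul, hval, mul_one]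
  rw [key hA₁ P₁ h₁ fun R hR => h0 R (Or.inl hR), key hA₂ P₂ h₂ fun R hR => h0 R (Or.inr hR)]

end Pool.Agent.ESH
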