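import Pool.Agent.ESH.NRM
import Pool.Agent.ESH.UVL
import Pool.Agent.ESH.INR
import Pool.Agent.ESH.MOB

/-!
# ESH / ALO: the branch points are exceptional units with unramified field of definition (local statement)

`alo`: choose places `P₀, P₁, P₂, P_λ` with `x = 0, 1, ∞, λ` (`bra_surj`).  All zeros and poles of `x`, and `P₁`, `P_λ`, have
non-trivial stabilisers in `G ≤ Γ` (BRA).  Let `A₁, A₂ ∈ pts` be below `P₁, P_λ` (`spc_exists`).  A zero or pole `R` of `x` is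
not above `A₁`: otherwise `R = P₁` (NRM), but `x(P₁) = 1`; similarly for `A₂` (`x(P_λ) = λ ≠ 0, ∞`).  UVL:
`V.valuation λ = V.valuation 1 = 1`.  The same with `f = 1 - x` and the places `P₀` (value `1`), `P_λ` (value `1 - λ`): zeros
over `1`, poles over `∞`.
`ain`: `σ` commutes with `Γ` (`inr_comm`), so with `G`, so `x' = σ x` satisfies `FixGen G x'` (fixed by `G`;
`σ(C(x)) = C(σ x)`, and the fixed field of `G` is stable under `σ`).  For the ramified places `P₀, P₁, P₂, P_λ`, `σ P = P`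
(`inr_fix`), so `(σ x)(P) = (σ x)(σ P) = s(x(P))` (`evl_map`): `σ x` has the values `0, 1, ∞` at `P₀, P₁, P₂`; by
`mob_uniq` `σ x = x`; at `P_λ`: `λ = s(λ)`.
-/

namespace Pool.Agent.ESH

open Pool.Agent.Helper11

variable {C Φ : Type*} [Field C] [Field Φ] [Algebra C Φ] [FunField C Φ] [CharZero C] [IsAlgClosed C]

private theorem alo_aux {V : ValuationSubring C} {W : ValuationSubring Φ} {pts : Set (Subring Φ)}
    (hV : Rk1 V) (h : IsMdl V W pts) (hg : PosGenus C Φ) (Γ : Subgroup (Φ ≃ₐ[C] Φ)) [Finite Γ]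
    (hΓ : V.valuation (Nat.card Γ : C) = 1) (f : Φ) (hf : f ≠ 0)
    (hR : ∀ R : Place C Φ, R.ord f ≠ 0 → ∃ γ ∈ Γ, γ ≠ 1 ∧ Fixes γ R) (P Q : Place C Φ)
    (hP : ∃ γ ∈ Γ, γ ≠ 1 ∧ Fixes γ P) (hQ : ∃ γ ∈ Γ, γ ≠ 1 ∧ Fixes γ Q)
    (hP0 : P.ord f = 0) (hQ0 : Q.ord f = 0) :
    V.valuation (ev P f) = V.valuation (ev Q f) := by
  obtain ⟨A₁, hA₁, h₁⟩ := spc_exists hV h P
  obtain ⟨A₂, hA₂, h₂⟩ := spc_exists hV h Q
  refine uvl hV h hA₁ hA₂ P Q h₁ h₂ f hf ?_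
  intro R hRB
  by_contra hne
  have hRs := hR R hne
  rcases hRB with hRB | hRB
  · have := nrm_eq hV h hg Γ hΓ hA₁ R P hRB h₁ hRs hP
    rw [this] at hne
    exact hne hP0
  · have := nrm_eq hV h hg Γ hΓ hA₂ R Q hRB h₂ hRs hQ
    rw [this] at hne
    exact hne hQ0

omit [FunField C Φ] [CharZero C] [IsAlgClosed C] in
private theorem alo_ord (P : Place C Φ) (x : Φ) (a c : C) (hac : a ≠ c)
    (h : x - algebraMap C Φ a ∈ P.ge 1) : P.ord (x - algebraMap C Φ c) = 0 := by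
  have h1 : algebraMap C Φ (a - c) ≠ 0 := by
    intro h2
    exact hac (sub_eq_zero.mp ((map_eq_zero _).mp h2))
  have h2 := P.ord_algebraMap (a - c)
  have h3 := P.ord_add_eq_right (x := x - algebraMap C Φ a) h1 (by
    rcases h with h | h
    · exact Or.inl h
    · right; rw [h2]; omega)
  have h4 : x - algebraMap C Φ a + algebraMap C Φ (a - c) = x - algebraMap C Φ c := by
    rw [map_sub]
    ring
  rw [h4, h2] at h3
  exact h3.2

omit [FunField C Φ] [CharZero C] [IsAlgClosed C] in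
private theorem alo_pole (R : Place C Φ) (x : Φ) (c : C) (h : R.ord (x - algebraMap C Φ c) < 0) :
    R.ord x ≤ -1 := by
  have hne : x - algebraMap C Φ c ≠ 0 := R.ne_zero_of_ord_ne_zero (by omega)
  have h1 := R.ord_add_eq_left (y := algebraMap C Φ c) hne (by
    right; rw [R.ord_algebraMap]; exact h)
  rw [sub_add_cancel] at h1
  omega

theorem alo {V : ValuationSubring C} {W : ValuationSubring Φ} {pts : Set (Subring Φ)}
    (hV : Rk1 V) (h : IsMdl V W pts) (hg : PosGenus C Φ) (Γ G : Subgroup (Φ ≃ₐ[C] Φ)) [Finite Γ]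
    (hΓ : V.valuation (Nat.card Γ : C) = 1) (hG : G ≤ Γ) (x : Φ) (hx : FixGen G x)
    (b0 : BrF x (0 : C)) (b1 : BrF x (1 : C)) (bi : BrI C x) (l : C) (l0 : l ≠ 0) (l1 : l ≠ 1) (bl : BrF x l) :
    V.valuation l = 1 ∧ V.valuation (1 - l) = 1 := by
  have : Finite G := Finite.of_injective (Subgroup.inclusion hG) (Subgroup.inclusion_injective hG)
  obtain ⟨hxt, -⟩ := bra_deg G x hx
  have hxc : ∀ c : C, x - algebraMap C Φ c ≠ 0 := by
    intro c hc
    apply hxt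
    rw [sub_eq_zero.mp hc]
    exact isAlgebraic_algebraMap c
  have hfin : ∀ c : C, BrF x c → ∀ Q : Place C Φ, 1 ≤ Q.ord (x - algebraMap C Φ c) →
      ∃ γ ∈ Γ, γ ≠ 1 ∧ Fixes γ Q := by
    intro c hc Q hQ
    obtain ⟨g, hg1, hg2⟩ := bra_fin G x hx c hc Q hQ
    exact ⟨g, hG hg1, hg2⟩
  have hinf : ∀ Q : Place C Φ, Q.ord x ≤ -1 → ∃ γ ∈ Γ, γ ≠ 1 ∧ Fixes γ Q := by
    intro Q hQ
    obtain ⟨g, hg1, hg2⟩ := bra_inf G x hx bi Q hQ
    exact ⟨g, hG hg1, hg2⟩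
  obtain ⟨P₀, h0⟩ := (bra_surj x hxt (0 : C)).1
  obtain ⟨P₁, h1⟩ := (bra_surj x hxt (1 : C)).1
  obtain ⟨Pl, hl⟩ := (bra_surj x hxt l).1
  have hordc : ∀ c : C, BrF x c → ∀ R : Place C Φ, R.ord (x - algebraMap C Φ c) ≠ 0 →
      ∃ γ ∈ Γ, γ ≠ 1 ∧ Fixes γ R := by
    intro c hc R hR
    rcases lt_or_gt_of_ne hR with hR | hR
    · exact hinf R (alo_pole R x c hR)
    · exact hfin c hc R (by omega)
  constructor
  · have key := alo_aux hV h hg Γ hΓ (x - algebraMap C Φ 0) (hxc 0) (hordc 0 b0) P₁ Pl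
      (hfin 1 b1 P₁ h1) (hfin l bl Pl hl)
      (alo_ord P₁ x 1 0 one_ne_zero (P₁.mem_ge_of_le h1))
      (alo_ord Pl x l 0 l0 (Pl.mem_ge_of_le hl))
    have e1 : ev P₁ (x - algebraMap C Φ 0) = 1 := by
      apply evl_eq
      rw [map_zero, sub_zero]
      exact P₁.mem_ge_of_le h1
    have e2 : ev Pl (x - algebraMap C Φ 0) = l := by
      apply evl_eq
      rw [map_zero, sub_zero]
      exact Pl.mem_ge_of_le hl
    rw [e1, e2, map_one] at key
    exact key.symm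
  · have key := alo_aux hV h hg Γ hΓ (x - algebraMap C Φ 1) (hxc 1) (hordc 1 b1) P₀ Pl
      (hfin 0 b0 P₀ h0) (hfin l bl Pl hl)
      (alo_ord P₀ x 0 1 zero_ne_one (P₀.mem_ge_of_le h0))
      (alo_ord Pl x l 1 l1 (Pl.mem_ge_of_le hl))
    have e1 : ev P₀ (x - algebraMap C Φ 1) = -1 := by
      apply evl_eq
      have : x - algebraMap C Φ 1 - algebraMap C Φ (-1) = x - algebraMap C Φ 0 := by
        simp
      rw [this]
      exact P₀.mem_ge_of_le h0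
    have e2 : ev Pl (x - algebraMap C Φ 1) = l - 1 := by
      apply evl_eq
      have : x - algebraMap C Φ 1 - algebraMap C Φ (l - 1) = x - algebraMap C Φ l := by
        rw [map_sub]
        ring
      rw [this]
      exact Pl.mem_ge_of_le hl
    rw [e1, e2, Valuation.map_neg, map_one, ← Valuation.map_sub_swap] at key
    exact key.symm

theorem ain {V : ValuationSubring C} {W : ValuationSubring Φ} {pts : Set (Subring Φ)}
    (hV : Rk1 V) (h : IsMdl V W pts) (hg : PosGenus C Φ) (Γ G : Subgroup (Φ ≃ₐ[C] Φ)) [Finite Γ]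
    (hΓ : V.valuation (Nat.card Γ : C) = 1) (hG : G ≤ Γ) (x : Φ) (hx : FixGen G x)
    (b0 : BrF x (0 : C)) (b1 : BrF x (1 : C)) (bi : BrI C x) (l : C) (l0 : l ≠ 0) (l1 : l ≠ 1) (bl : BrF x l)
    (σ : Φ ≃+* Φ) (s : C ≃+* C) (hs : ∀ c : C, σ (algebraMap C Φ c) = algebraMap C Φ (s c))
    (hσW : ∀ f ∈ W, σ f - f ∈ W.nonunits) (hσA : ∀ A ∈ pts, PresA σ A)
    (hσΓ : ∀ γ ∈ Γ, ∃ γ' ∈ Γ, ∀ f, σ (γ f) = γ' (σ f)) : s l = l := by
  have : Finite G := Finite.of_injective (Subgroup.inclusion hG) (Subgroup.inclusion_injective hG)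
  obtain ⟨hxt, -⟩ := bra_deg G x hx
  have hfin : ∀ c : C, BrF x c → ∀ Q : Place C Φ, 1 ≤ Q.ord (x - algebraMap C Φ c) →
      ∃ γ ∈ Γ, γ ≠ 1 ∧ Fixes γ Q := by
    intro c hc Q hQ
    obtain ⟨g, hg1, hg2⟩ := bra_fin G x hx c hc Q hQ
    exact ⟨g, hG hg1, hg2⟩
  obtain ⟨P₀, h0⟩ := (bra_surj x hxt (0 : C)).1
  obtain ⟨P₁, h1⟩ := (bra_surj x hxt (1 : C)).1
  obtain ⟨P₂, h2⟩ := (bra_surj x hxt (1 : C)).2
  obtain ⟨Pl, hl⟩ := (bra_surj x hxt l).1
  have hcomm := inr_comm hV h hg Γ hΓ σ hσW hσΓ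
  have hfix : ∀ P : Place C Φ, (∃ γ ∈ Γ, γ ≠ 1 ∧ Fixes γ P) → plMap σ s hs P = P :=
    fun P hP => inr_fix hV h hg Γ hΓ σ s hs hσA hcomm P hP
  have hge : ∀ P : Place C Φ, (∃ γ ∈ Γ, γ ≠ 1 ∧ Fixes γ P) → ∀ f : Φ, f ∈ P.ge 1 →
      σ f ∈ P.ge 1 := by
    intro P hP f hf
    have h3 := (plMap_ge σ s hs P 1 f).mpr hf
    rwa [hfix P hP] at h3
  have hadj : ∀ y ∈ IntermediateField.adjoin C {x}, σ y ∈ IntermediateField.adjoin C {σ x} := by
    intro y hy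
    induction hy using IntermediateField.adjoin_induction with
    | mem y hy =>
      rw [Set.mem_singleton_iff] at hy
      subst hy
      exact IntermediateField.mem_adjoin_simple_self C _
    | algebraMap c =>
      rw [hs]
      exact IntermediateField.algebraMap_mem _ _
    | add a b _ _ ha hb => rw [map_add]; exact add_mem ha hb
    | inv a _ ha => rw [map_inv₀]; exact inv_mem ha
    | mul a b _ _ ha hb => rw [map_mul]; exact mul_mem ha hb
  have hx' : FixGen G (σ x) := by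
    refine ⟨fun g hgG => ?_, fun f hf => ?_⟩
    · rw [← hcomm g (hG hgG), hx.1 g hgG]
    · have h3 : σ.symm f ∈ IntermediateField.adjoin C {x} := by
        apply hx.2
        intro g hgG
        apply σ.injective
        rw [hcomm g (hG hgG), RingEquiv.apply_symm_apply]
        exact hf g hgG
      have h4 := hadj _ h3
      rwa [RingEquiv.apply_symm_apply] at h4
  have hσne : ∀ f : Φ, f ≠ 0 → σ f ≠ 0 := fun f hf => by
    rw [Ne, EmbeddingLike.map_eq_zero_iff]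
    exact hf
  have hxc : ∀ c : C, x - algebraMap C Φ c ≠ 0 := by
    intro c hc
    apply hxt
    rw [sub_eq_zero.mp hc]
    exact isAlgebraic_algebraMap c
  have hs0 := hfin 0 b0 P₀ h0
  have hs1 := hfin 1 b1 P₁ h1
  have hs2 : ∃ γ ∈ Γ, γ ≠ 1 ∧ Fixes γ P₂ := by
    obtain ⟨g, hg1, hg2⟩ := bra_inf G x hx bi P₂ h2
    exact ⟨g, hG hg1, hg2⟩
  have hsl := hfin l bl Pl hl
  have hx0 : x ≠ 0 := by
    have := hxc 0
    rwa [map_zero, sub_zero] at this
  rw [map_zero, sub_zero] at h0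
  rw [map_one] at h1
  have hx1 : x - 1 ≠ 0 := by
    have := hxc 1
    rwa [map_one] at this
  have k0 : 1 ≤ P₀.ord (σ x) :=
    P₀.le_ord_of_mem (hge P₀ hs0 x (P₀.mem_ge_of_le h0)) (hσne x hx0)
  have k1 : 1 ≤ P₁.ord (σ x - 1) := by
    have h3 := P₁.le_ord_of_mem (hge P₁ hs1 (x - 1) (P₁.mem_ge_of_le h1)) (hσne _ hx1)
    rwa [map_sub, map_one] at h3
  have k2 : P₂.ord (σ x) ≤ -1 := by
    have h4 : x⁻¹ ∈ P₂.ge 1 := P₂.mem_ge_of_le (by rw [P₂.ord_inv]; omega)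
    have h3 := P₂.le_ord_of_mem (hge P₂ hs2 x⁻¹ h4) (hσne _ (inv_ne_zero hx0))
    rw [map_inv₀, P₂.ord_inv] at h3
    omega
  have hxx := mob_uniq G x (σ x) hx hx' P₀ P₁ P₂ h0 k0 h1 k1 h2 k2
  have h5 := hge Pl hsl (x - algebraMap C Φ l) (Pl.mem_ge_of_le hl)
  rw [map_sub, hs, ← hxx] at h5
  have e1 := evl_eq Pl h5
  have e2 := evl_eq Pl (Pl.mem_ge_of_le hl)
  rw [← e1, e2]

end Pool.Agent.ESH
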