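import Mathlib

/-!
# ESH / DSA: sum over distinct exponents (archimedean case)

Let `N = card I ≥ 1000`, `0 < ε ≤ 1`, `88 ε X ≤ N`, `ν : I → Fin X ⊕ I` injective.  Put
`ψ(n) = choose(X,n) (2ε)^n`.
(1) `ψ(n) ≤ (1 + 2ε)^X ≤ exp(2 ε X) ≤ exp(N/44)` for every `n` (one term of the binomial expansion).
(2) for `n ≥ N/4`: `choose(X,n) ≤ X^n / n! ≤ (e X / n)^n` (`n! ≥ (n/e)^n`), so
    `ψ(n) ≤ (2 e ε X / n)^n ≤ (1/4)^n ≤ exp(- (N/4) log 4) ≤ exp(- 0.3465 N)`, since
    `2 e ε X ≤ 2 * 2.7183 * N / 88 ≤ N / 16 ≤ n / 4`.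
(3) Let `m` be the number of `i` with `ν i` in the second summand.  Among the other `N - m` indices the `n_i`
    are distinct, so at most `N/4 + 1` of them are `< N/4`.  So the product of the factors
    `ψ(n_i)` and `exp(-7N/8)` is at most `exp(-E)` with
    `E ≥ (7/8) N m + 0.3465 N (N - m - N/4 - 1) - (N/4 + 1) (N/44)` if `N - m ≥ N/4 + 1`, which is
    `≥ 0.3465 N (3N/4 - 1) - N (N + 4)/176 ≥ N^2/5` (as `7/8 ≥ 0.3465`); and if `N - m < N/4 + 1` then
    `E ≥ (7/8) N (3N/4 - 1) - (N/4 + 1)(N/44) ≥ N^2/5`.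
(4) the factors `ε^(-k_i)` give at most `ε^(-∑ k_i)` (over all `i`, as `ε ≤ 1`).
-/

namespace Pool.Agent.ESH

private theorem dsa_small (X n : ℕ) (ε : ℝ) (hε : 0 < ε) (hn : n < X) :
    (X.choose n : ℝ) * (2 * ε) ^ n ≤ Real.exp (2 * ε * X) := by
  have h1 : (2 * ε + 1) ^ X = ∑ m ∈ Finset.range (X + 1), (2 * ε) ^ m * 1 ^ (X - m) * (X.choose m : ℝ) :=
    add_pow _ _ _
  have h2 : (X.choose n : ℝ) * (2 * ε) ^ n ≤ (2 * ε + 1) ^ X := by
    rw [h1]
    have h3 := Finset.single_le_sum (s := Finset.range (X + 1))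
      (f := fun m => (2 * ε) ^ m * 1 ^ (X - m) * (X.choose m : ℝ))
      (fun m _ => by positivity) (Finset.mem_range.mpr (by omega : n < X + 1))
    refine le_trans (le_of_eq ?_) h3
    simp only [one_pow, mul_one]
    ring
  refine h2.trans ?_
  have h4 : 2 * ε + 1 ≤ Real.exp (2 * ε) := Real.add_one_le_exp _
  calc (2 * ε + 1) ^ X ≤ (Real.exp (2 * ε)) ^ X := by gcongr
    _ = Real.exp (2 * ε * X) := by rw [← Real.exp_nat_mul]; ring_nf

private theorem dsa_large (X n : ℕ) (N ε : ℝ) (hε : 0 < ε) (hN : 0 ≤ N) (hX : 88 * ε * X ≤ N)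
    (hn : N ≤ 4 * n) : (X.choose n : ℝ) * (2 * ε) ^ n ≤ Real.exp (-(346 / 1000) * N) := by
  have h1 : (X.choose n : ℝ) ≤ (X : ℝ) ^ n / n.factorial := by
    have := Nat.choose_le_pow_div (α := ℝ) n X
    exact this
  have hfac : (0 : ℝ) < n.factorial := by positivity
  have h2 : (X.choose n : ℝ) * (2 * ε) ^ n ≤ (2 * ε * X) ^ n / n.factorial := by
    calc (X.choose n : ℝ) * (2 * ε) ^ n ≤ ((X : ℝ) ^ n / n.factorial) * (2 * ε) ^ n := by gcongr
      _ = (2 * ε * X) ^ n / n.factorial := by rw [mul_pow]; ring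
  have h3 : (2 * ε * X) ^ n / n.factorial ≤ ((1 / 11) * (n : ℝ)) ^ n / n.factorial := by
    refine div_le_div_of_nonneg_right (pow_le_pow_left₀ (by positivity) ?_ n) hfac.le
    linarith
  have h4 : (n : ℝ) ^ n / n.factorial ≤ Real.exp n := Real.pow_div_factorial_le_exp _ (by positivity) n
  have h5 : ((1 / 11) * (n : ℝ)) ^ n / n.factorial ≤ (1 / 11) ^ n * Real.exp n := by
    rw [mul_pow, mul_div_assoc]
    gcongr
  have h6 : (1 / 11 : ℝ) ^ n * Real.exp n ≤ (1 / 4) ^ n := by
    have : Real.exp (n : ℝ) = (Real.exp 1) ^ n := by rw [← Real.exp_nat_mul]; ring_nf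
    rw [this, ← mul_pow]
    have := Real.exp_one_lt_d9
    gcongr
    linarith
  have h7 : (1 / 4 : ℝ) ^ n = Real.exp (-(n * (2 * Real.log 2))) := by
    have : (1 / 4 : ℝ) = Real.exp (-(2 * Real.log 2)) := by
      rw [Real.exp_neg, two_mul, Real.exp_add, Real.exp_log (by norm_num)]
      norm_num
    rw [this, ← Real.exp_nat_mul]
    ring_nf
  calc (X.choose n : ℝ) * (2 * ε) ^ n ≤ (1 / 4 : ℝ) ^ n := h2.trans (h3.trans (h5.trans h6))
    _ ≤ Real.exp (-(346 / 1000) * N) := by
      rw [h7]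
      apply Real.exp_le_exp.mpr
      have hl := Real.log_two_gt_d9
      have hn0 : (0 : ℝ) ≤ n := by positivity
      nlinarith

theorem dsa {I : Type*} [Fintype I] (X : ℕ) (k : I → ℕ) (ε : ℝ) (hε : 0 < ε) (hε1 : ε ≤ 1)
    (hN : 1000 ≤ Fintype.card I) (hX : 88 * ε * X ≤ Fintype.card I) (ν : I → Fin X ⊕ I)
    (hν : Function.Injective ν) :
    ∏ i, Sum.elim (fun n : Fin X => ε⁻¹ ^ (k i) * ((X.choose (n : ℕ) : ℝ) * (2 * ε) ^ (n : ℕ)))
        (fun _ : I => Real.exp (-(7 / 8) * Fintype.card I)) (ν i)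
      ≤ ε⁻¹ ^ (∑ i, k i) * Real.exp (-(Fintype.card I : ℝ) ^ 2 / 5) := 
by
  classical
  set N : ℝ := (Fintype.card I : ℝ) with hNdef
  have hN' : (1000 : ℝ) ≤ N := by rw [hNdef]; exact_mod_cast hN
  have hN0 : 0 ≤ N := by linarith
  -- the exponents
  let g : Fin X ⊕ I → ℝ := Sum.elim (fun n : Fin X => if 4 * (n : ℕ) < Fintype.card I then N / 44
    else -(346 / 1000) * N) (fun _ : I => -(346 / 1000) * N)
  have hε1' : 1 ≤ ε⁻¹ := (one_le_inv₀ hε).mpr hε1
  have hterm : ∀ i, Sum.elim (fun n : Fin X => ε⁻¹ ^ (k i) * ((X.choose (n : ℕ) : ℝ) * (2 * ε) ^ (n : ℕ)))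
        (fun _ : I => Real.exp (-(7 / 8) * N)) (ν i) ≤ ε⁻¹ ^ (k i) * Real.exp (g (ν i)) := by
    intro i
    rcases ν i with n | j
    · simp only [Sum.elim_inl, g]
      split_ifs with h
      · have h1 := dsa_small X n ε hε n.2
        have h2 : Real.exp (2 * ε * X) ≤ Real.exp (N / 44) := by
          apply Real.exp_le_exp.mpr
          linarith
        have := h1.trans h2
        gcongr
      · have h1 := dsa_large X n N ε hε hN0 hX (by
          have : Fintype.card I ≤ 4 * (n : ℕ) := by omega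
          rw [hNdef]; exact_mod_cast this)
        gcongr
    · simp only [Sum.elim_inr, g]
      have h1 : (1 : ℝ) ≤ ε⁻¹ ^ (k i) := one_le_pow₀ hε1'
      have h2 : Real.exp (-(7 / 8) * N) ≤ Real.exp (-(346 / 1000) * N) := by
        apply Real.exp_le_exp.mpr
        nlinarith
      calc Real.exp (-(7 / 8) * N) ≤ 1 * Real.exp (-(346 / 1000) * N) := by rw [one_mul]; exact h2
        _ ≤ _ := by gcongr
  have hnn : ∀ i ∈ Finset.univ, 0 ≤ Sum.elim (fun n : Fin X => ε⁻¹ ^ (k i) * ((X.choose (n : ℕ) : ℝ) * (2 * ε) ^ (n : ℕ)))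
        (fun _ : I => Real.exp (-(7 / 8) * N)) (ν i) := by
    intro i _
    rcases ν i with n | j
    · simp only [Sum.elim_inl]; positivity
    · simp only [Sum.elim_inr]; positivity
  refine (Finset.prod_le_prod hnn (fun i _ => hterm i)).trans ?_
  rw [Finset.prod_mul_distrib, Finset.prod_pow_eq_pow_sum, ← Real.exp_sum]
  refine mul_le_mul_of_nonneg_left ?_ (by positivity)
  apply Real.exp_le_exp.mpr
  -- count of the indices in the first case
  let s : Finset I := Finset.univ.filter (fun i => g (ν i) = N / 44)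
  have hcases : ∀ i, g (ν i) = N / 44 ∨ g (ν i) = -(346 / 1000) * N := by
    intro i
    rcases ν i with n | j
    · simp only [Sum.elim_inl, g]
      split_ifs
      · left; rfl
      · right; rfl
    · right; simp only [Sum.elim_inr, g]
  have hs : 4 * s.card ≤ Fintype.card I + 3 := by
    have hinj : Set.InjOn (fun i => Sum.elim (fun n : Fin X => (n : ℕ)) (fun _ => 0) (ν i)) (s : Set I) := by
      intro i hi j hj hij
      have hi' : g (ν i) = N / 44 := (Finset.mem_filter.mp hi).2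
      have hj' : g (ν j) = N / 44 := (Finset.mem_filter.mp hj).2
      apply hν
      simp only at hij
      revert hi' hj' hij
      rcases ν i with a | a <;> rcases ν j with b | b
      · intro h _ _
        simp only [Sum.elim_inl] at h
        exact congrArg _ (Fin.ext h)
      · intro _ _ h
        simp only [Sum.elim_inr, g] at h
        nlinarith
      · intro _ h _
        simp only [Sum.elim_inr, g] at h
        nlinarith
      · intro _ h _
        simp only [Sum.elim_inr, g] at h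
        nlinarith
    have hmaps : ∀ i ∈ s, (fun i => Sum.elim (fun n : Fin X => (n : ℕ)) (fun _ => 0) (ν i)) i ∈
        Finset.range ((Fintype.card I + 3) / 4) := by
      intro i hi
      have hi' : g (ν i) = N / 44 := (Finset.mem_filter.mp hi).2
      rw [Finset.mem_range]
      revert hi'
      simp only
      rcases ν i with a | a
      · intro h
        simp only [Sum.elim_inl, g] at h ⊢
        by_cases h2 : 4 * (a : ℕ) < Fintype.card I
        · omega
        · rw [if_neg h2] at h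
          nlinarith
      · intro h
        simp only [Sum.elim_inr, g] at h
        nlinarith
    have := Finset.card_le_card_of_injOn _ hmaps hinj
    rw [Finset.card_range] at this
    omega
  have hsum : ∑ i, g (ν i) = s.card * (N / 44) + (N - s.card) * (-(346 / 1000) * N) := by
    have h1 : ∑ i, g (ν i) = ∑ i, ((if g (ν i) = N / 44 then (N / 44 + 346 / 1000 * N) else 0) + (-(346 / 1000) * N)) := by
      apply Finset.sum_congr rfl
      intro i _
      rcases hcases i with h | h
      · rw [if_pos h, h]; ring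
      · rw [h, if_neg]
        · ring
        · intro h3; nlinarith
    rw [h1, Finset.sum_add_distrib, ← Finset.sum_filter, Finset.sum_const, Finset.sum_const, Finset.card_univ]
    simp only [nsmul_eq_mul]
    rw [← hNdef]
    ring
  rw [hsum]
  have hs' : (4 : ℝ) * s.card ≤ N + 3 := by rw [hNdef]; exact_mod_cast hs
  nlinarith

end Pool.Agent.ESH
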