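import Mathlib

/-!
# ESH / EXP: expansion of an interpolation determinant

Let `E i j = ∑_{n ∈ J} A i n * φ n j` (`i, j ∈ I`).  Then
`det E = ∑_{ν : I → J} (∏_i A i (ν i)) * det (φ (ν i) j)` (multilinearity in the rows:
`Matrix.detRowAlternating`, `MultilinearMap.map_sum`), and the terms with `ν` not injective vanish (two equal
rows, `Matrix.det_zero_of_row_eq`).  Each `det (φ (ν i) j) = ∑_σ ± ∏_i φ (ν i) (σ i)` (with `σ : I ≃ I`), so by
the triangle inequality `|term| ≤ (card I)! * B`, and there are at most `(card J)^(card I)` maps `ν`.  In the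
non-archimedean case the sums are bounded by their largest term (`IsNonarchimedean.finset_image_add...`, or
induct over the finset: `f (∑) ≤ B` if all terms are `≤ B` and `0 ≤ B`).
-/

namespace Pool.Agent.ESH

private theorem EXP_det {M : Type*} [Field M] {I J : Type*} [Fintype I] [DecidableEq I]
    [Fintype J] (A : I → J → M) (φ : J → I → M) :
    (Matrix.of fun i j : I => ∑ n, A i n * φ n j).det =
      ∑ ν : I → J, (∏ i, A i (ν i)) * (Matrix.of fun i j : I => φ (ν i) j).det := by
  have h1 : (Matrix.of fun i j : I => ∑ n, A i n * φ n j).det =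
      (Matrix.detRowAlternating (R := M) (n := I)).toMultilinearMap
        (fun i => ∑ n, A i n • φ n) := by
    change _ = (Matrix.detRowAlternating (R := M) (n := I)) (fun i => ∑ n, A i n • φ n)
    change Matrix.det _ = Matrix.det _
    congr 1
    ext i j
    simp [Finset.sum_apply]
  rw [h1, MultilinearMap.map_sum]
  refine Finset.sum_congr rfl fun ν _ => ?_
  rw [MultilinearMap.map_smul_univ, smul_eq_mul]
  rfl

private theorem EXP_term {M : Type*} [Field M] (f : AbsoluteValue M ℝ) {I J : Type*} [Fintype I]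
    [DecidableEq I] (A : I → J → M) (φ : J → I → M) (w : I → J → ℝ)
    (hw : ∀ i n j, f (A i n) * f (φ n j) ≤ w i n) (B : ℝ) (ν : I → J)
    (hB : ∏ i, w i (ν i) ≤ B) (σ : Equiv.Perm I) :
    f ((∏ i, A i (ν i)) * (((Equiv.Perm.sign σ : ℤ) : M) * ∏ i, φ (ν (σ i)) i)) ≤ B := by
  have hs : f (((Equiv.Perm.sign σ : ℤ) : M)) = 1 := by
    rcases Int.units_eq_one_or (Equiv.Perm.sign σ) with h | h
    · rw [h]
      simp
    · rw [h]
      simp
  rw [map_mul, map_mul, hs, one_mul, map_prod, map_prod]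
  have h1 : ∏ i, f (φ (ν (σ i)) i) = ∏ i, f (φ (ν i) (σ⁻¹ i)) := by
    rw [← Equiv.prod_comp σ (fun i => f (φ (ν i) (σ⁻¹ i)))]
    refine Finset.prod_congr rfl fun i _ => ?_
    have h0 : σ⁻¹ (σ i) = i := σ.symm_apply_apply i
    rw [h0]
  rw [h1, ← Finset.prod_mul_distrib]
  refine le_trans ?_ hB
  exact Finset.prod_le_prod (fun i _ => mul_nonneg (f.nonneg _) (f.nonneg _))
    fun i _ => hw _ _ _

private theorem EXP_zero {M : Type*} [Field M] {I J : Type*} [Fintype I] [DecidableEq I]
    (φ : J → I → M) (ν : I → J) (hν : ¬ Function.Injective ν) :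
    (Matrix.of fun i j : I => φ (ν i) j).det = 0 := by
  rw [Function.Injective] at hν
  push Not at hν
  obtain ⟨i, i', h1, h2⟩ := hν
  refine Matrix.det_zero_of_row_eq h2 ?_
  funext j
  simp [Matrix.of_apply, h1]

private theorem EXP_expand {M : Type*} [Field M] {I J : Type*} [Fintype I] [DecidableEq I]
    (A : I → J → M) (φ : J → I → M) (ν : I → J) :
    (∏ i, A i (ν i)) * (Matrix.of fun i j : I => φ (ν i) j).det =
      ∑ σ : Equiv.Perm I, (∏ i, A i (ν i)) *
        (((Equiv.Perm.sign σ : ℤ) : M) * ∏ i, φ (ν (σ i)) i) := by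
  rw [Matrix.det_apply', Finset.mul_sum]
  rfl

theorem exp_arch {M : Type*} [Field M] (f : AbsoluteValue M ℝ) {I J : Type*} [Fintype I] [DecidableEq I]
    [Fintype J] (A : I → J → M) (φ : J → I → M) (w : I → J → ℝ)
    (hw : ∀ i n j, f (A i n) * f (φ n j) ≤ w i n) (B : ℝ) (hB0 : 0 ≤ B)
    (hB : ∀ ν : I → J, Function.Injective ν → ∏ i, w i (ν i) ≤ B) :
    f (Matrix.of fun i j : I => ∑ n, A i n * φ n j).det ≤
      (Fintype.card J : ℝ) ^ Fintype.card I * ((Fintype.card I).factorial : ℝ) * B := by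
  classical
  rw [EXP_det]
  refine (f.sum_le _ _).trans ?_
  have h1 : ∀ ν : I → J, f ((∏ i, A i (ν i)) * (Matrix.of fun i j : I => φ (ν i) j).det) ≤
      ((Fintype.card I).factorial : ℝ) * B := by
    intro ν
    by_cases hν : Function.Injective ν
    · rw [EXP_expand]
      refine (f.sum_le _ _).trans ?_
      refine (Finset.sum_le_sum fun σ _ => EXP_term f A φ w hw B ν (hB ν hν) σ).trans ?_
      rw [Finset.sum_const, Finset.card_univ, Fintype.card_perm, nsmul_eq_mul]
    · rw [EXP_zero φ ν hν, mul_zero, map_zero]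
      positivity
  refine (Finset.sum_le_sum fun ν _ => h1 ν).trans ?_
  rw [Finset.sum_const, Finset.card_univ, Fintype.card_fun, nsmul_eq_mul]
  push_cast
  rw [mul_assoc]

private theorem EXP_na {M : Type*} [Field M] (f : AbsoluteValue M ℝ) (hf : IsNonarchimedean f)
    {α : Type*} (s : Finset α) (g : α → M) (B : ℝ) (hB0 : 0 ≤ B) (h : ∀ a ∈ s, f (g a) ≤ B) :
    f (∑ a ∈ s, g a) ≤ B := by
  classical
  induction s using Finset.induction_on with
  | empty => simpa using hB0
  | insert a s ha ih =>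
    rw [Finset.sum_insert ha]
    refine (hf _ _).trans (max_le (h a (Finset.mem_insert_self a s)) ?_)
    exact ih fun b hb => h b (Finset.mem_insert_of_mem hb)

theorem exp_nonarch {M : Type*} [Field M] (f : AbsoluteValue M ℝ) (hf : IsNonarchimedean f)
    {I J : Type*} [Fintype I] [DecidableEq I]
    [Fintype J] (A : I → J → M) (φ : J → I → M) (w : I → J → ℝ)
    (hw : ∀ i n j, f (A i n) * f (φ n j) ≤ w i n) (B : ℝ) (hB0 : 0 ≤ B)
    (hB : ∀ ν : I → J, Function.Injective ν → ∏ i, w i (ν i) ≤ B) :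
    f (Matrix.of fun i j : I => ∑ n, A i n * φ n j).det ≤ B := by
  classical
  rw [EXP_det]
  refine EXP_na f hf _ _ B hB0 fun ν _ => ?_
  by_cases hν : Function.Injective ν
  · rw [EXP_expand]
    exact EXP_na f hf _ _ B hB0 fun σ _ => EXP_term f A φ w hw B ν (hB ν hν) σ
  · rw [EXP_zero φ ν hν, mul_zero, map_zero]
    exact hB0

end Pool.Agent.ESH
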