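import Pool.Agent.ESH.ENT
import Pool.Agent.ESH.EXP
import Pool.Agent.ESH.DSA

/-!
# ESH / BAR: archimedean estimate of the interpolation determinant (any absolute value)

Proof.  As in BNA: by ENT the `(i,j)` entry is `(a^(l i))^(k i) * E' i j`,
`E' i j = ∑_{n<X} choose(n, k i) (a^(l i) - 1)^(n - k i) choose(z j, n) + e i j`,
`e i j = choose(z j, k i) (a^(l i))^(z j) ((1+η)^(t j * l i) - 1) / (a^(l i))^(k i)`.
Bounds: `f (n : M) ≤ n` for naturals;
`f (A i (inl n)) f (φ (inl n) j) ≤ choose(n,k) ε^(n-k) choose(z j, n) ≤ ε⁻¹^k * (choose(X,n) (2ε)^n)`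
(zero if `n < k`); `f (e i j) ≤ choose(X, k i) (1+ε)^X f((1+η)^m - 1)` with `m = t j * l i ≤ R L ≤ N/200`
(`e i j = 0` if `z j < k i`), `f ((1+η)^m - 1) ≤ m 2^m f η ≤ 4^m f η`, `(1+ε)^X ≤ exp(ε X) ≤ exp(N/88)`, so
`f (e i j) ≤ exp(N/16 + N/88 + (log 4) N/200 - N) ≤ exp(-7N/8)`.
Finally `f (∏ (a^(l i))^(k i)) ≤ (1+ε)^(∑ k i) ≤ exp(ε ∑ k i)`.  Conclude by `exp_arch` (with
`card (Fin X ⊕ I) = X + N`) and `dsa`.
-/

namespace Pool.Agent.ESH

private lemma bar_nat {M : Type*} [Field M] (f : AbsoluteValue M ℝ) (n : ℕ) :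
    f (n : M) ≤ n := by
  induction n with
  | zero => simp
  | succ n ih =>
    rw [Nat.cast_succ, Nat.cast_succ]
    refine (f.add_le _ _).trans ?_
    rw [f.map_one]
    linarith

private lemma bar_pow {M : Type*} [Field M] (f : AbsoluteValue M ℝ) {η : M} (hη : f η ≤ 1)
    (m : ℕ) : f ((1 + η) ^ m - 1) ≤ 4 ^ m * f η := by
  induction m with
  | zero => simp
  | succ m ih =>
    have h1 : (1 + η) ^ (m + 1) - 1 = (1 + η) * ((1 + η) ^ m - 1) + η := by ring
    have h2 : f (1 + η) ≤ 2 := by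
      refine (f.add_le _ _).trans ?_
      rw [f.map_one]
      linarith
    have h3 : 0 ≤ f η := f.nonneg _
    have h4 : (1 : ℝ) ≤ 4 ^ m := one_le_pow₀ (by norm_num)
    rw [h1]
    refine (f.add_le _ _).trans ?_
    rw [f.map_mul]
    have h5 : f (1 + η) * f ((1 + η) ^ m - 1) ≤ 2 * (4 ^ m * f η) :=
      mul_le_mul h2 ih (f.nonneg _) (by norm_num)
    have h6 : f η ≤ 4 ^ m * f η := le_mul_of_one_le_left h3 h4
    rw [pow_succ]
    nlinarith

private lemma bar_err {M : Type*} [Field M] (f : AbsoluteValue M ℝ) {N : ℝ} {b η : M}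
    {ε : ℝ} (hε : 0 < ε) {X z k m : ℕ} (hz : z < X) (hb : b ≠ 0)
    (hbε : f (b - 1) ≤ ε) (hN : 0 ≤ N) (hX : 88 * ε * X ≤ N) (hη : f η ≤ Real.exp (-N))
    (hC : (X.choose k : ℝ) ≤ Real.exp (N / 16)) (hm : 200 * (m : ℝ) ≤ N) :
    f ((z.choose k : M) * b ^ z * ((1 + η) ^ m - 1) / b ^ k) ≤ Real.exp (-(7 / 8) * N) := by
  rcases Nat.lt_or_ge z k with hzk | hzk
  · rw [Nat.choose_eq_zero_of_lt hzk, Nat.cast_zero, zero_mul, zero_mul, zero_div, f.map_zero]
    exact (Real.exp_pos _).le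
  · have h1 : (z.choose k : M) * b ^ z * ((1 + η) ^ m - 1) / b ^ k =
        (z.choose k : M) * b ^ (z - k) * ((1 + η) ^ m - 1) := by
      rw [div_eq_iff (pow_ne_zero _ hb)]
      have h2 : b ^ z = b ^ (z - k) * b ^ k := by rw [← pow_add, Nat.sub_add_cancel hzk]
      rw [h2]
      ring
    rw [h1, f.map_mul, f.map_mul, f.map_pow]
    have hfb : f b ≤ 1 + ε := by
      have h3 : b = 1 + (b - 1) := by ring
      rw [h3]
      refine (f.add_le _ _).trans ?_
      rw [f.map_one]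
      linarith
    have hfb2 : f b ^ (z - k) ≤ Real.exp (N / 88) := by
      calc f b ^ (z - k) ≤ (1 + ε) ^ (z - k) := pow_le_pow_left₀ (f.nonneg _) hfb _
        _ ≤ (1 + ε) ^ X := pow_le_pow_right₀ (by linarith) (by omega)
        _ ≤ Real.exp ε ^ X := by
            refine pow_le_pow_left₀ (by linarith) ?_ _
            have := Real.add_one_le_exp ε
            linarith
        _ = Real.exp (X * ε) := by rw [← Real.exp_nat_mul]
        _ ≤ Real.exp (N / 88) := Real.exp_le_exp.2 (by linarith)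
    have hch : f ((z.choose k : ℕ) : M) ≤ Real.exp (N / 16) := by
      refine (bar_nat f _).trans (le_trans ?_ hC)
      exact_mod_cast Nat.choose_le_choose k hz.le
    have hη1 : f η ≤ 1 := hη.trans (Real.exp_le_one_iff.2 (by linarith))
    have hpw : f ((1 + η) ^ m - 1) ≤ Real.exp (N / 100) * Real.exp (-N) := by
      refine (bar_pow f hη1 m).trans ?_
      refine mul_le_mul ?_ hη (f.nonneg _) (Real.exp_pos _).le
      calc (4 : ℝ) ^ m ≤ Real.exp 2 ^ m := by
            refine pow_le_pow_left₀ (by norm_num) ?_ _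
            have h4 : Real.exp 2 = Real.exp 1 * Real.exp 1 := by rw [← Real.exp_add]; norm_num
            have h5 := Real.exp_one_gt_d9
            rw [h4]
            nlinarith
        _ = Real.exp (m * 2) := by rw [← Real.exp_nat_mul]
        _ ≤ Real.exp (N / 100) := Real.exp_le_exp.2 (by linarith)
    calc f ((z.choose k : ℕ) : M) * f b ^ (z - k) * f ((1 + η) ^ m - 1)
        ≤ Real.exp (N / 16) * Real.exp (N / 88) * (Real.exp (N / 100) * Real.exp (-N)) := by
          refine mul_le_mul (mul_le_mul hch hfb2 ?_ (Real.exp_pos _).le) hpw (f.nonneg _) ?_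
          · exact pow_nonneg (f.nonneg _) _
          · positivity
      _ = Real.exp (N / 16 + N / 88 + (N / 100 + -N)) := by
          rw [Real.exp_add, Real.exp_add, Real.exp_add]
      _ ≤ Real.exp (-(7 / 8) * N) := Real.exp_le_exp.2 (by linarith)

private lemma bar_main {M : Type*} [Field M] (f : AbsoluteValue M ℝ) {b : M} {ε : ℝ}
    (hε : 0 < ε) {X z k n : ℕ} (hz : z < X) (hbε : f (b - 1) ≤ ε) :
    f ((n.choose k : M) * (b - 1) ^ (n - k)) * f ((z.choose n : ℕ) : M) ≤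
      ε⁻¹ ^ k * ((X.choose n : ℝ) * (2 * ε) ^ n) := by
  rcases Nat.lt_or_ge n k with hnk | hnk
  · rw [Nat.choose_eq_zero_of_lt hnk, Nat.cast_zero, zero_mul, f.map_zero, zero_mul]
    positivity
  · rw [f.map_mul, f.map_pow]
    have h1 : f ((n.choose k : ℕ) : M) ≤ 2 ^ n := by
      refine (bar_nat f _).trans ?_
      have h2 : n.choose k ≤ 2 ^ n := Nat.choose_le_two_pow n k
      exact_mod_cast h2
    have h2 : f (b - 1) ^ (n - k) ≤ ε ^ (n - k) := pow_le_pow_left₀ (f.nonneg _) hbε _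
    have h3 : f ((z.choose n : ℕ) : M) ≤ (X.choose n : ℝ) := by
      refine (bar_nat f _).trans ?_
      exact_mod_cast Nat.choose_le_choose n hz.le
    calc f ((n.choose k : ℕ) : M) * f (b - 1) ^ (n - k) * f ((z.choose n : ℕ) : M)
        ≤ 2 ^ n * ε ^ (n - k) * (X.choose n : ℝ) := by
          refine mul_le_mul (mul_le_mul h1 h2 ?_ (by positivity)) h3 (f.nonneg _)
            (by positivity)
          exact pow_nonneg (f.nonneg _) _
      _ = ε⁻¹ ^ k * ((X.choose n : ℝ) * (2 * ε) ^ n) := by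
          have h4 : ε ^ n = ε ^ (n - k) * ε ^ k := by rw [← pow_add, Nat.sub_add_cancel hnk]
          rw [mul_pow, h4, inv_pow]
          have h5 : ε ^ k ≠ 0 := (pow_pos hε k).ne'
          field_simp

theorem bar {M : Type*} [Field M] (f : AbsoluteValue M ℝ)
    {I : Type*} [Fintype I] [DecidableEq I] (X R L : ℕ) (k l z t : I → ℕ) (hz : ∀ j, z j < X)
    (ht : ∀ j, t j ≤ R) (hl : ∀ i, l i ≤ L)
    (a η : M) (ha : a ≠ 0) (ε : ℝ) (hε : 0 < ε) (hε1 : ε ≤ 1)
    (haε : ∀ i, f (a ^ (l i) - 1) ≤ ε)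
    (hN : 1000 ≤ Fintype.card I) (hX : 88 * ε * X ≤ Fintype.card I)
    (hη : f η ≤ Real.exp (-(Fintype.card I : ℝ)))
    (hC : ∀ i, (X.choose (k i) : ℝ) ≤ Real.exp (Fintype.card I / 16))
    (hRL : 200 * (R * L) ≤ Fintype.card I) :
    f (Matrix.of fun i j : I =>
        ((z j).choose (k i) : M) * (a ^ (l i)) ^ (z j) * (1 + η) ^ (t j * l i)).det
      ≤ ((X : ℝ) + Fintype.card I) ^ Fintype.card I * ((Fintype.card I).factorial : ℝ) *
        (ε⁻¹ ^ (∑ i, k i) * Real.exp (-(Fintype.card I : ℝ) ^ 2 / 5)) *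
        Real.exp (ε * (∑ i, k i : ℕ)) := by
  classical
  -- the expansion
  let e : I → I → M := fun i j => ((z j).choose (k i) : M) * (a ^ (l i)) ^ (z j) *
    ((1 + η) ^ (t j * l i) - 1) / (a ^ (l i)) ^ (k i)
  let A : I → (Fin X ⊕ I) → M := fun i => Sum.elim
    (fun n : Fin X => (((n : ℕ).choose (k i) : ℕ) : M) * (a ^ (l i) - 1) ^ ((n : ℕ) - k i))
    (fun j₀ => e i j₀)
  let φ : (Fin X ⊕ I) → I → M := Sum.elim
    (fun n j => (((z j).choose (n : ℕ) : ℕ) : M)) (fun j₀ j => if j = j₀ then 1 else 0)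
  let w : I → (Fin X ⊕ I) → ℝ := fun i => Sum.elim
    (fun n : Fin X => ε⁻¹ ^ (k i) * ((X.choose (n : ℕ) : ℝ) * (2 * ε) ^ (n : ℕ)))
    (fun _ : I => Real.exp (-(7 / 8) * Fintype.card I))
  have hent : (Matrix.of fun i j : I =>
        ((z j).choose (k i) : M) * (a ^ (l i)) ^ (z j) * (1 + η) ^ (t j * l i)) =
      Matrix.of fun i j : I => (a ^ (l i)) ^ (k i) *
        (Matrix.of fun i j : I => ∑ n, A i n * φ n j) i j := by
    ext i j
    simp only [Matrix.of_apply]
    have hb : (a ^ (l i)) ^ (k i) ≠ 0 := pow_ne_zero _ (pow_ne_zero _ ha)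
    rw [Fintype.sum_sum_type]
    have h1 : ∑ n : Fin X, A i (Sum.inl n) * φ (Sum.inl n) j =
        ∑ n ∈ Finset.range X, (n.choose (k i) : M) * (a ^ (l i) - 1) ^ (n - k i) *
          ((z j).choose n : M) :=
      Fin.sum_univ_eq_sum_range (fun n => ((n.choose (k i) : ℕ) : M) *
        (a ^ (l i) - 1) ^ (n - k i) * (((z j).choose n : ℕ) : M)) X
    have h2 : ∑ j₀ : I, A i (Sum.inr j₀) * φ (Sum.inr j₀) j = e i j := by
      rw [Finset.sum_eq_single j]
      · simp [A, φ]
      · intro j₀ _ hj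
        simp [A, φ, Ne.symm hj]
      · intro h
        exact absurd (Finset.mem_univ j) h
    rw [h1, h2, mul_add, ← ent (a ^ (l i)) (k i) (z j) X (hz j)]
    have h3 : (a ^ (l i)) ^ (k i) * e i j = ((z j).choose (k i) : M) * (a ^ (l i)) ^ (z j) *
        ((1 + η) ^ (t j * l i) - 1) := mul_div_cancel₀ _ hb
    rw [h3]
    ring
  rw [hent, Matrix.det_mul_column, f.map_mul]
  have hNr : (0 : ℝ) ≤ Fintype.card I := Nat.cast_nonneg _
  have hw : ∀ i n j, f (A i n) * f (φ n j) ≤ w i n := by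
    intro i n j
    rcases n with n | j₀
    · exact bar_main f hε (hz j) (haε i)
    · have h1 : f (φ (Sum.inr j₀) j) ≤ 1 := by
        by_cases h : j = j₀
        · simp [φ, h]
        · simp [φ, h]
      have h2 : f (A i (Sum.inr j₀)) ≤ Real.exp (-(7 / 8) * Fintype.card I) := by
        refine bar_err f hε (hz j₀) (pow_ne_zero _ ha) (haε i) hNr hX hη (hC i) ?_
        have h3 : t j₀ * l i ≤ R * L := Nat.mul_le_mul (ht j₀) (hl i)
        have h4 : 200 * (t j₀ * l i) ≤ Fintype.card I := by omega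
        exact_mod_cast h4
      calc f (A i (Sum.inr j₀)) * f (φ (Sum.inr j₀) j)
          ≤ Real.exp (-(7 / 8) * Fintype.card I) * 1 :=
            mul_le_mul h2 h1 (f.nonneg _) (Real.exp_pos _).le
        _ = w i (Sum.inr j₀) := mul_one _
  have h5 := exp_arch f A φ w hw (ε⁻¹ ^ (∑ i, k i) * Real.exp (-(Fintype.card I : ℝ) ^ 2 / 5))
    (by positivity) (fun ν hν => dsa X k ε hε hε1 hN hX ν hν)
  have h6 : (Fintype.card (Fin X ⊕ I) : ℝ) = (X : ℝ) + Fintype.card I := by
    rw [Fintype.card_sum, Fintype.card_fin, Nat.cast_add]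
  rw [h6] at h5
  have h7 : f (∏ i, (a ^ (l i)) ^ (k i)) ≤ Real.exp (ε * (∑ i, k i : ℕ)) := by
    rw [map_prod]
    calc ∏ i, f ((a ^ (l i)) ^ (k i)) ≤ ∏ i, Real.exp (ε * k i) := by
          refine Finset.prod_le_prod (fun i _ => f.nonneg _) fun i _ => ?_
          rw [f.map_pow]
          have hfb : f (a ^ (l i)) ≤ Real.exp ε := by
            have h3 : a ^ (l i) = 1 + (a ^ (l i) - 1) := by ring
            rw [h3]
            refine (f.add_le _ _).trans ?_
            rw [f.map_one]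
            have h8 := Real.add_one_le_exp ε
            have h9 := haε i
            linarith
          calc f (a ^ (l i)) ^ (k i) ≤ Real.exp ε ^ (k i) :=
                pow_le_pow_left₀ (f.nonneg _) hfb _
            _ = Real.exp (ε * k i) := by rw [← Real.exp_nat_mul, mul_comm]
      _ = Real.exp (ε * (∑ i, k i : ℕ)) := by
          rw [← Real.exp_sum, ← Finset.mul_sum, Nat.cast_sum]
  rw [mul_comm]
  exact mul_le_mul h5 h7 (f.nonneg _) (by positivity)

end Pool.Agent.ESH
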