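import Pool.Agent.ESH.BGA

/-!
# ESH / BPA: first properties of the local rings after extension of the constants

`A = locA (AV A₀ V) V'`.  `bpa_sub`: `AV A₀ V ⊆ V'` (generators).  `bpa_nub`: `V.nonunits` maps into `V'.nonunits`.
`bpa_W`: if `s ∈ AV A₀ V` is in `W.nonunits` then it is in `V'.nonunits`: `s = ∑ c_i e_i` with `e` residually independent in `A₀`
(`bav`), `c_i ∈ V.nonunits` by BLD, so `s ∈ V'.nonunits` (`e_i ∈ V'`).
`bpa_nu`: `NU A a` iff `a ∈ A` and `a ∈ V'.nonunits`: `A ⊆ V'`; if `a = b/s` is a unit of `V'` then so is `b` and `a⁻¹ = s/b ∈ A`.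
`bpa_le`: `A ⊆ W`: `a s = b`, `s` a unit of `V'`, so `s ∉ W.nonunits` (`bpa_W`), and `AV A₀ V ⊆ W`.
-/

namespace Pool.Agent.ESH

open Pool.Agent.Helper11

variable {O K F C Φ : Type*} [CommRing O] [IsDomain O] [IsDiscreteValuationRing O] [Field K] [CharZero K]
  [Algebra O K] [IsFractionRing O K] [Field F] [Algebra K F] [Algebra O F] [IsScalarTower O K F]
  [FunField K F] [Field C] [CharZero C] [Algebra K C] [Algebra.IsAlgebraic K C] [IsAlgClosed C] [Field Φ]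
  [Algebra F Φ] [Algebra C Φ] [Finite (IsLocalRing.ResidueField O)]

private theorem bpa_locA_V' {S : Subring Φ} {V' : ValuationSubring Φ} (hS : ∀ a ∈ S, a ∈ V')
    (a : Φ) (ha : a ∈ locA S V') : a ∈ V' := by
  obtain ⟨b, hb, s, hs, h0, h1, h2, h3⟩ := ha
  have h4 : a = b * s⁻¹ := by
    rw [← h3, mul_assoc, mul_inv_cancel₀ h0, mul_one]
  rw [h4]
  exact V'.mul_mem _ _ (hS b hb) h2

theorem bpa_sub {W₀ : ValuationSubring F} {pts₀ : Set (Subring F)} {V : ValuationSubring C}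
    {W : ValuationSubring Φ} (E : BExt O K W₀ pts₀ V W) {A₀ : Subring F} (hA₀ : A₀ ∈ pts₀)
    (V' : ValuationSubring Φ) (hV' : ∀ c : C, algebraMap C Φ c ∈ V' ↔ c ∈ V)
    (hd : Dom A₀ (V'.comap (algebraMap F Φ))) :
    (∀ a ∈ AV A₀ V, a ∈ V') ∧ (∀ a ∈ AV A₀ V, a ∈ W) ∧
      (∀ a ∈ AV A₀ V, a ∈ locA (AV A₀ V) V') := by
  have hpt := E.mdl.pt A₀ hA₀
  refine ⟨?_, ?_, ?_⟩
  · have h : AV A₀ V ≤ V'.toSubring := by
      apply Subring.closure_le.mpr
      rintro x (⟨a, ha, rfl⟩ | ⟨c, hc, rfl⟩)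
      · exact hd.1 a ha
      · exact (hV' c).mpr hc
    exact fun a ha => h ha
  · have h : AV A₀ V ≤ W.toSubring := by
      apply Subring.closure_le.mpr
      rintro x (⟨a, ha, rfl⟩ | ⟨c, hc, rfl⟩)
      · exact (E.WF a).mpr (hpt.le a ha)
      · exact (E.WC c).mpr hc
    exact fun a ha => h ha
  · intro a ha
    exact ⟨a, ha, 1, Subring.one_mem _, one_ne_zero, V'.one_mem, by rw [inv_one]; exact V'.one_mem,
      mul_one a⟩

private theorem bpa_mem_sum {V' : ValuationSubring Φ} {n : ℕ} (x : Fin n → Φ)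
    (hx : ∀ i, x i ∈ V'.nonunits) : ∑ i, x i ∈ V'.nonunits :=
  sum_mem (fun i _ => hx i)

private theorem bpa_mul {V' : ValuationSubring Φ} {x y : Φ} (hx : x ∈ V'.nonunits)
    (hy : y ∈ V') : x * y ∈ V'.nonunits := by
  rw [ValuationSubring.mem_nonunits_iff] at hx ⊢
  rw [← ValuationSubring.valuation_le_one_iff] at hy
  rw [map_mul]
  exact mul_lt_one_of_lt_of_le hx hy

private theorem bpa_const {V : ValuationSubring C} {V' : ValuationSubring Φ}
    (hV' : ∀ c : C, algebraMap C Φ c ∈ V' ↔ c ∈ V) (c : C) (hc : c ∈ V.nonunits) :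
    algebraMap C Φ c ∈ V'.nonunits := by
  rw [ValuationSubring.mem_nonunits_iff_or] at hc ⊢
  rcases hc with h | h
  · left
    rw [h, map_zero]
  · right
    rw [← map_inv₀, hV']
    exact h

theorem bpa_W {W₀ : ValuationSubring F} {pts₀ : Set (Subring F)} {V : ValuationSubring C}
    {W : ValuationSubring Φ} (E : BExt O K W₀ pts₀ V W) {A₀ : Subring F} (hA₀ : A₀ ∈ pts₀)
    (V' : ValuationSubring Φ) (hV' : ∀ c : C, algebraMap C Φ c ∈ V' ↔ c ∈ V)
    (hd : Dom A₀ (V'.comap (algebraMap F Φ))) (s : Φ) (hs : s ∈ AV A₀ V) (hsW : s ∈ W.nonunits) :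
    s ∈ V'.nonunits := by
  have hpt := E.mdl.pt A₀ hA₀
  obtain ⟨n, e, c, heA, heI, hc, rfl⟩ := bav E A₀ hpt.le hpt.base hpt.sat s hs
  have h1 := bld E e heI c hc hsW
  apply bpa_mem_sum
  intro i
  exact bpa_mul (bpa_const hV' _ (h1 i)) (hd.1 _ (heA i))

theorem bpa_nu {W₀ : ValuationSubring F} {pts₀ : Set (Subring F)} {V : ValuationSubring C}
    {W : ValuationSubring Φ} (E : BExt O K W₀ pts₀ V W) {A₀ : Subring F} (hA₀ : A₀ ∈ pts₀)
    (V' : ValuationSubring Φ) (hV' : ∀ c : C, algebraMap C Φ c ∈ V' ↔ c ∈ V)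
    (hd : Dom A₀ (V'.comap (algebraMap F Φ))) (a : Φ) :
    NU (locA (AV A₀ V) V') a ↔ a ∈ locA (AV A₀ V) V' ∧ a ∈ V'.nonunits := by
  obtain ⟨hs1, hs2, hs3⟩ := bpa_sub E hA₀ V' hV' hd
  constructor
  · rintro ⟨ha, h⟩
    refine ⟨ha, ?_⟩
    rw [ValuationSubring.mem_nonunits_iff_or]
    rcases h with h | h
    · exact Or.inl h
    · by_cases ha0 : a = 0
      · exact Or.inl ha0
      · right
        intro hinv
        apply h
        obtain ⟨b, hb, s, hs, h0, h1, h2, h3⟩ := ha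
        have hb0 : b ≠ 0 := by rw [← h3]; exact mul_ne_zero ha0 h0
        have hinvb : b⁻¹ = a⁻¹ * s⁻¹ := by rw [← h3, mul_inv]
        refine ⟨s, hs, b, hb, hb0, hs1 b hb, ?_, ?_⟩
        · rw [hinvb]
          exact V'.mul_mem _ _ hinv h2
        · rw [← h3, ← mul_assoc, inv_mul_cancel₀ ha0, one_mul]
  · rintro ⟨ha, h⟩
    refine ⟨ha, ?_⟩
    rw [ValuationSubring.mem_nonunits_iff_or] at h
    rcases h with h | h
    · exact Or.inl h
    · exact Or.inr (fun hc => h (bpa_locA_V' hs1 _ hc))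

theorem bpa_le {W₀ : ValuationSubring F} {pts₀ : Set (Subring F)} {V : ValuationSubring C}
    {W : ValuationSubring Φ} (E : BExt O K W₀ pts₀ V W) {A₀ : Subring F} (hA₀ : A₀ ∈ pts₀)
    (V' : ValuationSubring Φ) (hV' : ∀ c : C, algebraMap C Φ c ∈ V' ↔ c ∈ V)
    (hd : Dom A₀ (V'.comap (algebraMap F Φ))) (a : Φ) (ha : a ∈ locA (AV A₀ V) V') :
    a ∈ W ∧ a ∈ V' := by
  obtain ⟨hs1, hs2, hs3⟩ := bpa_sub E hA₀ V' hV' hd
  refine ⟨?_, bpa_locA_V' hs1 a ha⟩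
  obtain ⟨b, hb, s, hs, h0, h1, h2, h3⟩ := ha
  have hsn : s ∉ W.nonunits := by
    intro h
    have h4 := bpa_W E hA₀ V' hV' hd s hs h
    rw [ValuationSubring.mem_nonunits_iff_or] at h4
    rcases h4 with h4 | h4
    · exact h0 h4
    · exact h4 h2
  rw [ValuationSubring.mem_nonunits_iff_or] at hsn
  push Not at hsn
  have h4 : a = b * s⁻¹ := by
    rw [← h3, mul_assoc, mul_inv_cancel₀ h0, mul_one]
  rw [h4]
  exact W.mul_mem _ _ (hs2 b hb) hsn.2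

theorem bpa_basic {W₀ : ValuationSubring F} {pts₀ : Set (Subring F)} {V : ValuationSubring C}
    {W : ValuationSubring Φ} (E : BExt O K W₀ pts₀ V W) {A₀ : Subring F} (hA₀ : A₀ ∈ pts₀)
    (V' : ValuationSubring Φ) (hV' : ∀ c : C, algebraMap C Φ c ∈ V' ↔ c ∈ V)
    (hd : Dom A₀ (V'.comap (algebraMap F Φ))) :
    (∀ c ∈ V, algebraMap C Φ c ∈ locA (AV A₀ V) V') ∧
    (∀ a b, NU (locA (AV A₀ V) V') a → NU (locA (AV A₀ V) V') b → NU (locA (AV A₀ V) V') (a + b)) ∧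
    (∀ c ∈ V.nonunits, NU (locA (AV A₀ V) V') (algebraMap C Φ c)) := by
  obtain ⟨hs1, hs2, hs3⟩ := bpa_sub E hA₀ V' hV' hd
  have hVl : ∀ c ∈ V, algebraMap C Φ c ∈ locA (AV A₀ V) V' := fun c hc =>
    hs3 _ (Subring.subset_closure (Or.inr ⟨c, hc, rfl⟩))
  refine ⟨hVl, ?_, ?_⟩
  · intro a b ha hb
    rw [bpa_nu E hA₀ V' hV' hd] at ha hb ⊢
    exact ⟨Subring.add_mem _ ha.1 hb.1, add_mem ha.2 hb.2⟩
  · intro c hc
    rw [bpa_nu E hA₀ V' hV' hd]
    exact ⟨hVl c (ValuationSubring.nonunits_subset hc), bpa_const hV' c hc⟩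

end Pool.Agent.ESH
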