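import Pool.Agent.ESH.BUQ
import Pool.Agent.ESH.BPA

/-!
# ESH / BCE: centres of valuation rings

`bce_centre`: let `V' ∩ C = V`, `V' ≠ W`.  `V₀ = V'.comap (F → Φ)` satisfies `V₀ ∩ K = O` (`ovr`, `comm`).  If `V₀ = W₀` then
`BExt O K W₀ pts₀ V V'` and `V' = W` by BUQ.  So `centre` of the base model gives `A₀` with `Dom A₀ V₀`, and
`A = locA (AV A₀ V) V' ∈ ptsC` is dominated by `V'` (`bpa_nu`, `bpa_le`).
`bce_sep`: let `A = locA (AV A₀ V) V₁`, `B = locA (AV B₀ V) V₂` be both dominated by `V'`.  Then `A₀` and `B₀` are dominated by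
`V'.comap`: (`A₀ ⊆ A ⊆ V'`; a non-unit of `A₀` is in `V₁.nonunits`, so a non-unit of `A`, so in `V'.nonunits`); so `A₀ = B₀` (`sep`).  For
`s ∈ AV A₀ V`, `s ≠ 0`: `s` is a unit of `V₁` iff it is a unit of `A` (`bpa_nu`) iff it is a unit of `V'` (`Dom A V'`), and the same
for `V₂`; so `A = locA (AV A₀ V) V' = B`.
-/

namespace Pool.Agent.ESH

open Pool.Agent.Helper11

variable {O K F C Φ : Type*} [CommRing O] [IsDomain O] [IsDiscreteValuationRing O] [Field K] [CharZero K]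
  [Algebra O K] [IsFractionRing O K] [Field F] [Algebra K F] [Algebra O F] [IsScalarTower O K F]
  [FunField K F] [Field C] [CharZero C] [Algebra K C] [Algebra.IsAlgebraic K C] [IsAlgClosed C] [Field Φ]
  [Algebra F Φ] [Algebra C Φ] [Finite (IsLocalRing.ResidueField O)]

private theorem bce_nu {K : Type*} [Field K] (A : ValuationSubring K) (a : K) :
    a ∈ A.nonunits ↔ a = 0 ∨ a⁻¹ ∉ A := by
  rw [ValuationSubring.mem_nonunits_iff]
  by_cases ha : a = 0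
  · subst ha
    simp
  · have h1 : A.valuation a ≠ 0 := (Valuation.ne_zero_iff _).2 ha
    rw [← ValuationSubring.valuation_le_one_iff, map_inv₀, inv_le_one₀ (zero_lt_iff.2 h1), not_le]
    simp [ha]

private theorem bce_comap {K L : Type*} [Field K] [Field L] (f : K →+* L) (A : ValuationSubring L)
    (a : K) : a ∈ (A.comap f).nonunits ↔ f a ∈ A.nonunits := by
  rw [bce_nu, bce_nu, ValuationSubring.mem_comap, map_inv₀, map_eq_zero]

theorem bce_centre {W₀ : ValuationSubring F} {pts₀ : Set (Subring F)} {V : ValuationSubring C}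
    {W : ValuationSubring Φ} (E : BExt O K W₀ pts₀ V W) (V' : ValuationSubring Φ)
    (hV' : ∀ c : C, algebraMap C Φ c ∈ V' ↔ c ∈ V) (hne : V' ≠ W) :
    ∃ A ∈ (ptsC pts₀ V : Set (Subring Φ)), Dom A V' := by
  have h1 : ∀ x : K, algebraMap K F x ∈ V'.comap (algebraMap F Φ) ↔
      x ∈ Set.range (algebraMap O K) := by
    intro x
    rw [ValuationSubring.mem_comap, E.cmp.comm, hV', E.ovr]
  have h2 : V'.comap (algebraMap F Φ) ≠ W₀ := by
    intro h3
    apply hne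
    refine buq E ⟨E.mdl, E.cmp, E.ovr, ?_, hV'⟩
    intro f
    rw [← h3, ValuationSubring.mem_comap]
  obtain ⟨A₀, hA₀, hd⟩ := E.mdl.centre _ h1 h2
  refine ⟨locA (AV A₀ V) V', ⟨A₀, hA₀, V', hV', hd, rfl⟩, ?_, ?_⟩
  · intro a ha
    exact (bpa_le E hA₀ V' hV' hd a ha).2
  · intro a ha
    exact ((bpa_nu E hA₀ V' hV' hd a).1 ha).2

private theorem bce_loc {W₀ : ValuationSubring F} {pts₀ : Set (Subring F)} {V : ValuationSubring C}
    {W : ValuationSubring Φ} (E : BExt O K W₀ pts₀ V W) {A₀ : Subring F} (hA₀ : A₀ ∈ pts₀)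
    (V₁ : ValuationSubring Φ) (hV₁ : ∀ c : C, algebraMap C Φ c ∈ V₁ ↔ c ∈ V)
    (hd : Dom A₀ (V₁.comap (algebraMap F Φ))) (V' : ValuationSubring Φ)
    (hD : Dom (locA (AV A₀ V) V₁) V') :
    Dom A₀ (V'.comap (algebraMap F Φ)) ∧ locA (AV A₀ V) V₁ = locA (AV A₀ V) V' := by
  obtain ⟨s1, s2, s3⟩ := bpa_sub E hA₀ V₁ hV₁ hd
  have hin : ∀ a ∈ A₀, algebraMap F Φ a ∈ AV A₀ V := fun a ha =>
    Subring.subset_closure (Or.inl ⟨a, ha, rfl⟩)
  have key : ∀ s ∈ AV A₀ V, s ≠ 0 → (s⁻¹ ∈ V₁ ↔ s⁻¹ ∈ V') := by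
    intro s hs hs0
    have hsA := s3 s hs
    constructor
    · intro h
      have h1 : ¬ NU (locA (AV A₀ V) V₁) s := by
        intro h2
        have h3 := ((bpa_nu E hA₀ V₁ hV₁ hd s).1 h2).2
        rw [bce_nu] at h3
        rcases h3 with h3 | h3
        · exact hs0 h3
        · exact h3 h
      have h2 : s⁻¹ ∈ locA (AV A₀ V) V₁ := by
        by_contra h3
        exact h1 ⟨hsA, Or.inr h3⟩
      exact hD.1 _ h2
    · intro h
      by_contra h1
      have h2 : NU (locA (AV A₀ V) V₁) s := by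
        rw [bpa_nu E hA₀ V₁ hV₁ hd]
        refine ⟨hsA, ?_⟩
        rw [bce_nu]
        exact Or.inr h1
      have h3 := hD.2 s h2
      rw [bce_nu] at h3
      rcases h3 with h3 | h3
      · exact hs0 h3
      · exact h3 h
  refine ⟨⟨?_, ?_⟩, ?_⟩
  · intro a ha
    rw [ValuationSubring.mem_comap]
    exact hD.1 _ (s3 _ (hin a ha))
  · intro a ha
    rw [bce_comap]
    apply hD.2
    rw [bpa_nu E hA₀ V₁ hV₁ hd]
    refine ⟨s3 _ (hin a ha.1), ?_⟩
    rw [← bce_comap]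
    exact hd.2 a ha
  · ext f
    constructor
    · rintro ⟨b, hb, s, hs, h0, h1, h2, h3⟩
      exact ⟨b, hb, s, hs, h0, hD.1 _ (s3 s hs), (key s hs h0).1 h2, h3⟩
    · rintro ⟨b, hb, s, hs, h0, h1, h2, h3⟩
      exact ⟨b, hb, s, hs, h0, s1 s hs, (key s hs h0).2 h2, h3⟩

theorem bce_sep {W₀ : ValuationSubring F} {pts₀ : Set (Subring F)} {V : ValuationSubring C}
    {W : ValuationSubring Φ} (E : BExt O K W₀ pts₀ V W) (V' : ValuationSubring Φ) (A B : Subring Φ)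
    (hA : A ∈ (ptsC pts₀ V : Set (Subring Φ))) (hB : B ∈ (ptsC pts₀ V : Set (Subring Φ)))
    (hAV : Dom A V') (hBV : Dom B V') : A = B := by
  obtain ⟨A₀, hA₀, V₁, hV₁, hd₁, rfl⟩ := hA
  obtain ⟨B₀, hB₀, V₂, hV₂, hd₂, rfl⟩ := hB
  obtain ⟨a1, a2⟩ := bce_loc E hA₀ V₁ hV₁ hd₁ V' hAV
  obtain ⟨b1, b2⟩ := bce_loc E hB₀ V₂ hV₂ hd₂ V' hBV
  have h := E.mdl.sep _ A₀ hA₀ B₀ hB₀ a1 b1
  subst h
  rw [a2, b2]

end Pool.Agent.ESH
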