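import Pool.Agent.ESH.BUQ
import Pool.Agent.ESH.BPA

/-!
# ESH / BCO: inertia acts trivially on the special fibre

`σ` is a ring automorphism of `Φ`, trivial on `F`, inducing `s` on `C` with `s z - z ∈ V.nonunits` for `z ∈ V` (so `s(V) = V`).
`bco_AV`: for a subring `R ⊆ F`, `R ⊆ W₀`, and `a ∈ AV R V`: `a = ∑ c_i e_i`, `e_i ∈ R`, `c_i ∈ V`, so `σ a - a = ∑ (s c_i - c_i) e_i` is a sum
of products of elements of `V.nonunits` and of `R`; and `σ(AV R V) = AV R V`.
`bco_W`: `f ∈ W` is `a/b` with `a, b ∈ AV W₀ V`, `b ∉ W.nonunits` (as in `bpf_frac`, or from `bga_rep`), `σ a ≡ a`, `σ b ≡ b` modulo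
`W.nonunits`; so `σ f - f = (σ a b - a σ b)/(b σ b) ∈ W.nonunits`.
`bco_A`: `A = locA (AV A₀ V) V'`: for `s ∈ AV A₀ V`, `σ s - s ∈ V'.nonunits`, so `s` is a unit of `V'` iff `σ s` is; so `σ(A) = A`.
-/

namespace Pool.Agent.ESH

open Pool.Agent.Helper11

variable {O K F C Φ : Type*} [CommRing O] [IsDomain O] [IsDiscreteValuationRing O] [Field K] [CharZero K]
  [Algebra O K] [IsFractionRing O K] [Field F] [Algebra K F] [Algebra O F] [IsScalarTower O K F]
  [FunField K F] [Field C] [CharZero C] [Algebra K C] [Algebra.IsAlgebraic K C] [IsAlgClosed C] [Field Φ]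
  [Algebra F Φ] [Algebra C Φ] [Finite (IsLocalRing.ResidueField O)]

private theorem bco_nu {K : Type*} [Field K] (A : ValuationSubring K) (a : K) :
    a ∈ A.nonunits ↔ a = 0 ∨ a⁻¹ ∉ A := by
  rw [ValuationSubring.mem_nonunits_iff]
  by_cases ha : a = 0
  · subst ha
    simp
  · have h1 : A.valuation a ≠ 0 := (Valuation.ne_zero_iff _).2 ha
    rw [← ValuationSubring.valuation_le_one_iff, map_inv₀, inv_le_one₀ (zero_lt_iff.2 h1), not_le]
    simp [ha]

private theorem bco_le {K : Type*} [Field K] (A : ValuationSubring K) {a : K} (ha : a ∈ A.nonunits) :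
    a ∈ A := by
  rw [ValuationSubring.mem_nonunits_iff] at ha
  rw [← ValuationSubring.valuation_le_one_iff]
  exact ha.le

private theorem bco_add {K : Type*} [Field K] (A : ValuationSubring K) {a b : K}
    (ha : a ∈ A.nonunits) (hb : b ∈ A.nonunits) : a + b ∈ A.nonunits := by
  rw [ValuationSubring.mem_nonunits_iff] at ha hb ⊢
  exact lt_of_le_of_lt (A.valuation.map_add a b) (max_lt ha hb)

private theorem bco_neg {K : Type*} [Field K] (A : ValuationSubring K) {a : K}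
    (ha : a ∈ A.nonunits) : -a ∈ A.nonunits := by
  rw [ValuationSubring.mem_nonunits_iff] at ha ⊢
  rwa [Valuation.map_neg]

private theorem bco_sub {K : Type*} [Field K] (A : ValuationSubring K) {a b : K}
    (ha : a ∈ A.nonunits) (hb : b ∈ A.nonunits) : a - b ∈ A.nonunits := by
  rw [sub_eq_add_neg]
  exact bco_add A ha (bco_neg A hb)

private theorem bco_mul {K : Type*} [Field K] (A : ValuationSubring K) {a b : K}
    (ha : a ∈ A) (hb : b ∈ A.nonunits) : a * b ∈ A.nonunits := by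
  rw [ValuationSubring.mem_nonunits_iff] at hb ⊢
  rw [← ValuationSubring.valuation_le_one_iff] at ha
  rw [map_mul]
  exact lt_of_le_of_lt (mul_le_of_le_one_left' ha) hb

private theorem bco_zero {K : Type*} [Field K] (A : ValuationSubring K) : (0 : K) ∈ A.nonunits := by
  rw [bco_nu]
  exact Or.inl rfl

private theorem bco_inv {K : Type*} [Field K] (A : ValuationSubring K) {a : K}
    (ha : a ∉ A.nonunits) : a ≠ 0 ∧ a⁻¹ ∈ A := by
  rw [bco_nu] at ha
  push Not at ha
  exact ha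

private theorem bco_sV {V : ValuationSubring C} (s : C ≃+* C) (hi : ∀ z ∈ V, s z - z ∈ V.nonunits)
    (c : C) : s c ∈ V ↔ c ∈ V := by
  constructor
  · intro h
    by_contra h1
    have hc0 : c ≠ 0 := by
      rintro rfl
      exact h1 (zero_mem _)
    have h2 : c⁻¹ ∈ V.nonunits := by
      rw [bco_nu, inv_inv]
      exact Or.inr h1
    have h3 := bco_add V (hi _ (bco_le V h2)) h2
    rw [sub_add_cancel, bco_nu, map_inv₀, inv_inv] at h3
    rcases h3 with h3 | h3
    · exact hc0 (by simpa using h3)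
    · exact h3 h
  · intro h
    have h1 := add_mem (bco_le V (hi c h)) h
    rwa [sub_add_cancel] at h1

private theorem bco_symm {V : ValuationSubring C} (s : C ≃+* C)
    (hi : ∀ z ∈ V, s z - z ∈ V.nonunits) : ∀ z ∈ V, s.symm z - z ∈ V.nonunits := by
  intro z hz
  have h1 : s.symm z ∈ V := by
    rw [← bco_sV s hi, RingEquiv.apply_symm_apply]
    exact hz
  have h2 := bco_neg V (hi _ h1)
  rwa [RingEquiv.apply_symm_apply, neg_sub] at h2

private theorem bco_hs (σ : Φ ≃+* Φ) (s : C ≃+* C)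
    (hs : ∀ c : C, σ (algebraMap C Φ c) = algebraMap C Φ (s c)) (c : C) :
    σ.symm (algebraMap C Φ c) = algebraMap C Φ (s.symm c) := by
  rw [RingEquiv.symm_apply_eq, hs, RingEquiv.apply_symm_apply]

private theorem bco_hF (σ : Φ ≃+* Φ)
    (hF : ∀ f : F, σ (algebraMap F Φ f) = algebraMap F Φ f) (f : F) :
    σ.symm (algebraMap F Φ f) = algebraMap F Φ f := by
  rw [RingEquiv.symm_apply_eq, hF]

private theorem bco_stab {V : ValuationSubring C} (R : Subring F) (σ : Φ ≃+* Φ) (s : C ≃+* C)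
    (hs : ∀ c : C, σ (algebraMap C Φ c) = algebraMap C Φ (s c))
    (hF : ∀ f : F, σ (algebraMap F Φ f) = algebraMap F Φ f)
    (hi : ∀ z ∈ V, s z - z ∈ V.nonunits) (a : Φ) (ha : a ∈ AV R V) : σ a ∈ AV R V := by
  unfold AV at ha ⊢
  induction ha using Subring.closure_induction with
  | mem x hx =>
    rcases hx with ⟨f, hf, rfl⟩ | ⟨c, hc, rfl⟩
    · rw [hF]
      exact Subring.subset_closure (Or.inl ⟨f, hf, rfl⟩)
    · rw [hs]
      exact Subring.subset_closure (Or.inr ⟨s c, (bco_sV s hi c).2 hc, rfl⟩)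
  | zero => rw [map_zero]; exact zero_mem _
  | one => rw [map_one]; exact one_mem _
  | add x y _ _ hx hy => rw [map_add]; exact add_mem hx hy
  | neg x _ hx => rw [map_neg]; exact neg_mem hx
  | mul x y _ _ hx hy => rw [map_mul]; exact mul_mem hx hy

private theorem bco_AV {V : ValuationSubring C} (R : Subring F) (U : ValuationSubring Φ)
    (hU : ∀ c : C, algebraMap C Φ c ∈ U ↔ c ∈ V) (hRU : ∀ a ∈ R, algebraMap F Φ a ∈ U)
    (σ : Φ ≃+* Φ) (s : C ≃+* C)
    (hs : ∀ c : C, σ (algebraMap C Φ c) = algebraMap C Φ (s c))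
    (hF : ∀ f : F, σ (algebraMap F Φ f) = algebraMap F Φ f)
    (hi : ∀ z ∈ V, s z - z ∈ V.nonunits) (a : Φ) (ha : a ∈ AV R V) :
    a ∈ U ∧ σ a - a ∈ U.nonunits := by
  unfold AV at ha
  induction ha using Subring.closure_induction with
  | mem x hx =>
    rcases hx with ⟨f, hf, rfl⟩ | ⟨c, hc, rfl⟩
    · refine ⟨hRU f hf, ?_⟩
      rw [hF, sub_self]
      exact bco_zero U
    · refine ⟨(hU c).2 hc, ?_⟩
      rw [hs, ← map_sub, bco_nu, ← map_inv₀, hU, map_eq_zero, ← bco_nu]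
      exact hi c hc
  | zero =>
    refine ⟨zero_mem _, ?_⟩
    rw [map_zero, sub_self]
    exact bco_zero U
  | one =>
    refine ⟨one_mem _, ?_⟩
    rw [map_one, sub_self]
    exact bco_zero U
  | add x y _ _ hx hy =>
    refine ⟨add_mem hx.1 hy.1, ?_⟩
    have h := bco_add U hx.2 hy.2
    rw [map_add]
    have e : σ x + σ y - (x + y) = σ x - x + (σ y - y) := by ring
    rw [e]
    exact h
  | neg x _ hx =>
    refine ⟨neg_mem hx.1, ?_⟩
    have h := bco_neg U hx.2
    rw [map_neg]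
    have e : -σ x - -x = -(σ x - x) := by ring
    rw [e]
    exact h
  | mul x y _ _ hx hy =>
    refine ⟨mul_mem hx.1 hy.1, ?_⟩
    have h1 : σ x ∈ U := by
      have := add_mem (bco_le U hx.2) hx.1
      rwa [sub_add_cancel] at this
    have h := bco_add U (bco_mul U h1 hy.2) (bco_mul U hy.1 hx.2)
    rw [map_mul]
    have e : σ x * σ y - x * y = σ x * (σ y - y) + y * (σ x - x) := by ring
    rw [e]
    exact h

private theorem bco_span {W₀ : ValuationSubring F} {pts₀ : Set (Subring F)} {V : ValuationSubring C}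
    {W : ValuationSubring Φ} (E : BExt O K W₀ pts₀ V W) (a : Φ)
    (ha : a ∈ Submodule.span C (Set.range (algebraMap F Φ))) :
    a ∈ Submodule.span C ((algebraMap F Φ) '' (W₀.toSubring : Set F)) := by
  have h1 : Submodule.span C (Set.range (algebraMap F Φ)) ≤
      Submodule.span C ((algebraMap F Φ) '' (W₀.toSubring : Set F)) := by
    rw [Submodule.span_le]
    rintro _ ⟨f, rfl⟩
    by_cases hf : f = 0
    · rw [hf, map_zero]
      exact Submodule.zero_mem _
    · obtain ⟨c, hc0, hc1, -⟩ := E.mdl.scale f hf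
      have h2 : algebraMap K F c ≠ 0 := by simpa using hc0
      have e : algebraMap F Φ f = (algebraMap K C c) • algebraMap F Φ (f / algebraMap K F c) := by
        rw [Algebra.smul_def, ← E.cmp.comm, ← map_mul, mul_div_cancel₀ _ h2]
      rw [e]
      apply Submodule.smul_mem
      apply Submodule.subset_span
      exact ⟨_, hc1, rfl⟩
  exact h1 ha

private theorem bco_frac {W₀ : ValuationSubring F} {pts₀ : Set (Subring F)} {V : ValuationSubring C}
    {W : ValuationSubring Φ} (E : BExt O K W₀ pts₀ V W) (f : Φ) (hf : f ∈ W) (hf0 : f ≠ 0) :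
    ∃ a ∈ AV W₀.toSubring V, ∃ b ∈ AV W₀.toSubring V, b ∉ W.nonunits ∧ f * b = a := by
  obtain ⟨a, ha, b, hb, hb0, e⟩ := E.cmp.gen f
  have ha0 : a ≠ 0 := by
    rw [← e]
    exact mul_ne_zero hf0 hb0
  have hO : ∀ c : O, algebraMap O F c ∈ W₀.toSubring := by
    intro c
    rw [IsScalarTower.algebraMap_apply O K F]
    exact (E.mdl.base _).2 ⟨c, rfl⟩
  have hR : ∀ a ∈ W₀.toSubring, a ∈ W₀ := fun a ha => ha
  have hs : ∀ c : O, c ≠ 0 → ∀ a ∈ W₀.toSubring, a / algebraMap O F c ∈ W₀ →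
      a / algebraMap O F c ∈ W₀.toSubring := fun c _ a _ h => h
  obtain ⟨c, hc0, a', ha', haW, ea⟩ := bga_rep E W₀.toSubring hR hO hs a (bco_span E a ha) ha0
  obtain ⟨d, hd0, b', hb', hbW, eb⟩ := bga_rep E W₀.toSubring hR hO hs b (bco_span E b hb) hb0
  have hd0' : algebraMap C Φ d ≠ 0 := by simpa using hd0
  obtain ⟨a0, a1⟩ := bco_inv W haW
  have hsub : ∀ x ∈ AV W₀.toSubring V, x ∈ W := by
    intro x hx
    unfold AV at hx
    have hle : Subring.closure ((algebraMap F Φ) '' (W₀.toSubring : Set F) ∪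
        (algebraMap C Φ) '' (V : Set C)) ≤ W.toSubring := by
      rw [Subring.closure_le]
      rintro _ (⟨f, hf, rfl⟩ | ⟨c, hc, rfl⟩)
      · exact (E.WF f).2 hf
      · exact (E.WC c).2 hc
    exact hle hx
  have e2 : f * b' = algebraMap C Φ (c / d) * a' := by
    rw [map_div₀]
    field_simp
    rw [ea, eb] at e
    linear_combination e
  have h3 : c / d ∈ V := by
    rw [← E.WC]
    have h4 : algebraMap C Φ (c / d) = f * b' * a'⁻¹ := by
      rw [e2, mul_assoc, mul_inv_cancel₀ a0, mul_one]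
    rw [h4]
    exact mul_mem (mul_mem hf (hsub _ hb')) a1
  refine ⟨algebraMap C Φ (c / d) * a', mul_mem ?_ ha', b', hb', hbW, e2⟩
  exact Subring.subset_closure (Or.inr ⟨_, h3, rfl⟩)

theorem bco_W {W₀ : ValuationSubring F} {pts₀ : Set (Subring F)} {V : ValuationSubring C}
    {W : ValuationSubring Φ} (E : BExt O K W₀ pts₀ V W) (σ : Φ ≃+* Φ) (s : C ≃+* C)
    (hs : ∀ c : C, σ (algebraMap C Φ c) = algebraMap C Φ (s c))
    (hF : ∀ f : F, σ (algebraMap F Φ f) = algebraMap F Φ f)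
    (hi : ∀ z ∈ V, s z - z ∈ V.nonunits) (f : Φ) (hf : f ∈ W) : σ f - f ∈ W.nonunits := by
  by_cases hf0 : f = 0
  · rw [hf0, map_zero, sub_self]
    exact bco_zero W
  obtain ⟨a, ha, b, hb, hbW, e⟩ := bco_frac E f hf hf0
  have hRU : ∀ a ∈ W₀.toSubring, algebraMap F Φ a ∈ W := fun a ha => (E.WF a).2 ha
  obtain ⟨a1, a2⟩ := bco_AV W₀.toSubring W E.WC hRU σ s hs hF hi a ha
  obtain ⟨b1, b2⟩ := bco_AV W₀.toSubring W E.WC hRU σ s hs hF hi b hb
  obtain ⟨b3, b4⟩ := bco_inv W hbW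
  have h1 : σ b ∉ W.nonunits := by
    intro h2
    apply hbW
    have h3 := bco_sub W h2 b2
    have e1 : σ b - (σ b - b) = b := by ring
    rwa [e1] at h3
  obtain ⟨b5, b6⟩ := bco_inv W h1
  have e1 := congrArg σ e
  rw [map_mul] at e1
  have e2 : σ f - f = (b⁻¹ * (σ b)⁻¹) * ((b * (σ a - a)) - a * (σ b - b)) := by
    have e3 : f = a * b⁻¹ := by rw [← e, mul_assoc, mul_inv_cancel₀ b3, mul_one]
    have e4 : σ f = σ a * (σ b)⁻¹ := by rw [← e1, mul_assoc, mul_inv_cancel₀ b5, mul_one]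
    rw [e4, e3]
    field_simp
    ring
  rw [e2]
  exact bco_mul W (mul_mem b4 b6) (bco_sub W (bco_mul W b1 a2) (bco_mul W a1 b2))

private theorem bco_one {pts₀ : Set (Subring F)} {V : ValuationSubring C}
    (σ : Φ ≃+* Φ) (s : C ≃+* C)
    (hs : ∀ c : C, σ (algebraMap C Φ c) = algebraMap C Φ (s c))
    (hF : ∀ f : F, σ (algebraMap F Φ f) = algebraMap F Φ f)
    (hi : ∀ z ∈ V, s z - z ∈ V.nonunits) (A : Subring Φ) (hA : A ∈ (ptsC pts₀ V : Set (Subring Φ)))
    (f : Φ) (hf : f ∈ A) : σ f ∈ A := by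
  obtain ⟨A₀, hA₀, V', hV', hd, rfl⟩ := hA
  obtain ⟨b, hb, t, ht, h0, h1, h2, h3⟩ := hf
  have hRU : ∀ a ∈ A₀, algebraMap F Φ a ∈ V' := fun a ha => hd.1 a ha
  obtain ⟨b1, b2⟩ := bco_AV A₀ V' hV' hRU σ s hs hF hi t ht
  have h4 : σ t ∉ V'.nonunits := by
    intro h5
    have h6 := bco_sub V' h5 b2
    have e1 : σ t - (σ t - t) = t := by ring
    rw [e1, bco_nu] at h6
    rcases h6 with h6 | h6
    · exact h0 h6
    · exact h6 h2
  obtain ⟨b5, b6⟩ := bco_inv V' h4
  have b7 : σ t ∈ V' := by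
    have := add_mem (bco_le V' b2) b1
    rwa [sub_add_cancel] at this
  refine ⟨σ b, bco_stab A₀ σ s hs hF hi b hb, σ t, bco_stab A₀ σ s hs hF hi t ht, b5, b7, b6, ?_⟩
  rw [← map_mul, h3]

theorem bco_A {W₀ : ValuationSubring F} {pts₀ : Set (Subring F)} {V : ValuationSubring C}
    {W : ValuationSubring Φ} (E : BExt O K W₀ pts₀ V W) (σ : Φ ≃+* Φ) (s : C ≃+* C)
    (hs : ∀ c : C, σ (algebraMap C Φ c) = algebraMap C Φ (s c))
    (hF : ∀ f : F, σ (algebraMap F Φ f) = algebraMap F Φ f)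
    (hi : ∀ z ∈ V, s z - z ∈ V.nonunits) (A : Subring Φ) (hA : A ∈ (ptsC pts₀ V : Set (Subring Φ))) :
    PresA σ A := by
  intro f
  constructor
  · intro h
    have h1 := bco_one σ.symm s.symm (bco_hs σ s hs) (bco_hF σ hF) (bco_symm s hi) A hA (σ f) h
    rwa [RingEquiv.symm_apply_apply] at h1
  · intro h
    exact bco_one σ s hs hF hi A hA f h

end Pool.Agent.ESH
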