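import Pool.Agent.ESH.TWA

/-!
# ESH / BRT: second half of Belyi's theorem, effective (rational points, one step)

Let `T` be a finite set of at least two rational numbers.  Partial fractions: `1/∏_{t∈T}(X - t) = ∑_t a_t/(X - t)`,
`a_t = ∏_{u ≠ t} (t - u)⁻¹ ≠ 0`, and `∑ a_t = 0` (`card T ≥ 2`: compare the behaviour at infinity;
`Lagrange` API: `∑ nodalWeight = 0`, or the coefficient of degree `card T - 1` of the Lagrange interpolation of `1`).
Let `c = ∏_{t ≠ u} |num(t - u)|` (ordered pairs), `m_t = c a_t`, a non-zero integer, `∑ m_t = 0`.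
`p = ∏_{m_t > 0} (X - t)^(m_t)`, `q = ∏_{m_t < 0} (X - t)^(-m_t)`: monic, coprime, `deg p = deg q ≥ 1`, and
`p' q - p q' = p q ∑ m_t/(X - t) = p q c / ∏ (X - t)`, so
`(p' q - p q') * ∏_{t∈T} (X - t) = c p q` and outside `T` it does not vanish.
Bound: `num(t-u) ≤ 2 B^2`, `den(t - u) ≤ B^2`; `|m_t| ≤ c ∏_{u≠t} den(t-u) ≤ (2B^2)^(k^2) (B^2)^k`, `k = card T`;
`deg p ≤ k max|m_t|`.
-/

namespace Pool.Agent.ESH

open Polynomial

/-- products of powers of linear factors -/
private noncomputable def PP (T : Finset ℚ) (e : ℚ → ℕ) : ℚ[X] := ∏ t ∈ T, (X - C t) ^ e t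

private theorem PP_monic (T : Finset ℚ) (e : ℚ → ℕ) : (PP T e).Monic :=
  monic_prod_of_monic _ _ fun t _ => (monic_X_sub_C t).pow _

private theorem PP_natDegree (T : Finset ℚ) (e : ℚ → ℕ) : (PP T e).natDegree = ∑ t ∈ T, e t := by
  unfold PP
  rw [natDegree_prod_of_monic _ _ fun t _ => (monic_X_sub_C t).pow _]
  refine Finset.sum_congr rfl fun t _ => ?_
  rw [(monic_X_sub_C t).natDegree_pow, natDegree_X_sub_C, mul_one]

private theorem PP_deriv (T : Finset ℚ) (e : ℚ → ℕ) :
    derivative (PP T e) * (∏ t ∈ T, (X - C t)) =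
      PP T e * ∑ t ∈ T, C (e t : ℚ) * ∏ u ∈ T.erase t, (X - C u) := by
  unfold PP
  rw [derivative_prod_finset, Finset.sum_mul, Finset.mul_sum]
  refine Finset.sum_congr rfl fun t ht => ?_
  have h1 : derivative ((X - C t : ℚ[X]) ^ e t) * (X - C t) = C (e t : ℚ) * (X - C t) ^ e t := by
    rw [derivative_X_sub_C_pow]
    rcases Nat.eq_zero_or_pos (e t) with h | h
    · simp [h]
    · obtain ⟨k, hk⟩ : ∃ k, e t = k + 1 := ⟨e t - 1, by omega⟩
      rw [hk, Nat.add_sub_cancel]
      push_cast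
      ring
  rw [← Finset.mul_prod_erase T (fun t => (X - C t : ℚ[X])) ht,
    ← Finset.mul_prod_erase T (fun t => (X - C t : ℚ[X]) ^ e t) ht]
  calc (∏ b ∈ T.erase t, (X - C b : ℚ[X]) ^ e b) * derivative ((X - C t) ^ e t) *
        ((X - C t) * ∏ x ∈ T.erase t, (X - C x))
      = (∏ b ∈ T.erase t, (X - C b : ℚ[X]) ^ e b) *
          (derivative ((X - C t) ^ e t) * (X - C t)) * ∏ x ∈ T.erase t, (X - C x) := by ring
    _ = _ := by rw [h1]; ring

private theorem num_sub_le (a b : ℚ) (B : ℕ) (ha : a.num.natAbs ≤ B ∧ a.den ≤ B)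
    (hb : b.num.natAbs ≤ B ∧ b.den ≤ B) : |(a - b).num| ≤ 2 * (B : ℤ) ^ 2 := by
  have h0 := Rat.sub_den_dvd a b
  have hpos : 0 < a.den * b.den := Nat.mul_pos a.den_pos b.den_pos
  obtain ⟨k, hk⟩ := h0
  have hk0 : 1 ≤ k := by
    rcases Nat.eq_zero_or_pos k with h | h
    · rw [h, mul_zero] at hk
      omega
    · exact h
  -- (a - b) = (a.num * b.den - b.num * a.den) / (a.den * b.den)
  have h1 : (a - b).num * (k : ℤ) = a.num * b.den - b.num * a.den := by
    have h2 : ((a - b).num : ℚ) = (a - b) * (a - b).den := (Rat.mul_den_eq_num (a - b)).symm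
    have h3 : ((a - b).num * (k : ℤ) : ℚ) = a.num * b.den - b.num * a.den := by
      have ha1 : (a.num : ℚ) = a * a.den := (Rat.mul_den_eq_num a).symm
      have hb1 : (b.num : ℚ) = b * b.den := (Rat.mul_den_eq_num b).symm
      have hk' : ((a - b).den : ℚ) * k = a.den * b.den := by exact_mod_cast hk.symm
      rw [h2, ha1, hb1]
      push_cast
      rw [mul_assoc, hk']
      ring
    exact_mod_cast h3
  have h4 : |(a - b).num| ≤ |(a - b).num * (k : ℤ)| := by
    rw [abs_mul]
    have : (1 : ℤ) ≤ |(k : ℤ)| := by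
      rw [abs_of_nonneg (by positivity)]
      exact_mod_cast hk0
    exact le_mul_of_one_le_right (abs_nonneg _) this
  refine h4.trans ?_
  rw [h1]
  have e1 : |a.num * (b.den : ℤ)| ≤ (B : ℤ) ^ 2 := by
    rw [abs_mul, sq]
    refine mul_le_mul ?_ ?_ (abs_nonneg _) (by positivity)
    · rw [Int.abs_eq_natAbs]
      exact_mod_cast ha.1
    · rw [abs_of_nonneg (by positivity)]
      exact_mod_cast hb.2
  have e2 : |b.num * (a.den : ℤ)| ≤ (B : ℤ) ^ 2 := by
    rw [abs_mul, sq]
    refine mul_le_mul ?_ ?_ (abs_nonneg _) (by positivity)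
    · rw [Int.abs_eq_natAbs]
      exact_mod_cast hb.1
    · rw [abs_of_nonneg (by positivity)]
      exact_mod_cast ha.2
  calc |a.num * (b.den : ℤ) - b.num * a.den| ≤ |a.num * (b.den : ℤ)| + |b.num * (a.den : ℤ)| :=
        abs_sub _ _
    _ ≤ 2 * (B : ℤ) ^ 2 := by linarith

private theorem den_sub_le (a b : ℚ) (B : ℕ) (ha : a.num.natAbs ≤ B ∧ a.den ≤ B)
    (hb : b.num.natAbs ≤ B ∧ b.den ≤ B) : (a - b).den ≤ B ^ 2 := by
  have h0 := Rat.sub_den_dvd a b
  have hpos : 0 < a.den * b.den := Nat.mul_pos a.den_pos b.den_pos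
  refine (Nat.le_of_dvd hpos h0).trans ?_
  rw [sq]
  exact Nat.mul_le_mul ha.2 hb.2

theorem brt (F : Type*) [Field F] [CharZero F] (T : Finset ℚ) (hT : 2 ≤ T.card) (B : ℕ)
    (hB : ∀ q ∈ T, q.num.natAbs ≤ B ∧ q.den ≤ B) :
    ∃ p q : ℚ[X], IsCoprime p q ∧ 1 ≤ p.natDegree ∧ p.natDegree = q.natDegree ∧ p.Monic ∧ q.Monic ∧
      p.natDegree ≤ T.card * ((2 * B ^ 2) ^ (T.card ^ 2) * (B ^ 2) ^ T.card) ∧
      (∀ t ∈ T, p.eval t = 0 ∨ q.eval t = 0) ∧
      ∀ z : F, (∀ t ∈ T, z ≠ algebraMap ℚ F t) →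
        aeval z (derivative p * q - p * derivative q) ≠ 0 := by
  classical
  have hTne : T.Nonempty := Finset.card_pos.1 (by omega)
  have hB1 : 1 ≤ B := by
    obtain ⟨t, ht⟩ := hTne
    exact t.den_pos.trans_le (hB t ht).2
  -- the weights
  set a : ℚ → ℚ := fun t => ∏ u ∈ T.erase t, (t - u)⁻¹ with ha
  set N : ℚ → ℤ := fun s => ∏ u ∈ T.erase s, |(s - u).num| with hN
  set c : ℤ := ∏ s ∈ T, N s with hc
  set m : ℚ → ℤ := fun t => (∏ s ∈ T.erase t, N s) *
    ∏ u ∈ T.erase t, ((t - u).num.sign * ((t - u).den : ℤ)) with hm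
  have hne : ∀ s, ∀ u ∈ T.erase s, (s - u) ≠ 0 := fun s u hu =>
    sub_ne_zero.2 (Finset.ne_of_mem_erase hu).symm
  have hN0 : ∀ s, N s ≠ 0 := fun s => Finset.prod_ne_zero_iff.2 fun u hu =>
    abs_ne_zero.2 (Rat.num_ne_zero.2 (hne s u hu))
  have hc0 : c ≠ 0 := Finset.prod_ne_zero_iff.2 fun s _ => hN0 s
  have hm0 : ∀ t, m t ≠ 0 := fun t => mul_ne_zero (Finset.prod_ne_zero_iff.2 fun s _ => hN0 s)
    (Finset.prod_ne_zero_iff.2 fun u hu => mul_ne_zero
      (mt Int.sign_eq_zero_iff_zero.1 (Rat.num_ne_zero.2 (hne t u hu))) (by exact_mod_cast (t - u).den_nz))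
  have hma : ∀ t ∈ T, (m t : ℚ) = c * a t := by
    intro t ht
    have h1 : (c : ℚ) = (N t : ℚ) * ((∏ s ∈ T.erase t, N s : ℤ) : ℚ) := by
      rw [hc, ← Finset.mul_prod_erase T N ht]
      push_cast
      rfl
    have h2 : (N t : ℚ) * a t =
        ((∏ u ∈ T.erase t, ((t - u).num.sign * ((t - u).den : ℤ)) : ℤ) : ℚ) := by
      simp only [hN, ha]
      push_cast
      rw [← Finset.prod_mul_distrib]
      refine Finset.prod_congr rfl fun u hu => ?_
      have h3 := hne t u hu
      have h4 : ((t - u).num : ℚ) = (t - u) * (t - u).den := (Rat.mul_den_eq_num (t - u)).symm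
      have h5 : (|((t - u).num : ℚ)|) = ((t - u).num.sign : ℚ) * ((t - u).num : ℚ) := by
        have := Int.sign_mul_self_eq_abs (t - u).num
        exact_mod_cast this.symm
      rw [h5, h4]
      field_simp
    rw [h1, mul_right_comm, h2]
    simp only [hm]
    push_cast
    ring
  have hsum1 : ∑ t ∈ T, C (a t) * ∏ u ∈ T.erase t, (X - C u) = (1 : ℚ[X]) := by
    have h := Lagrange.sum_basis (s := T) (v := (id : ℚ → ℚ)) (Set.injOn_id _) hTne
    rw [← h]
    refine Finset.sum_congr rfl fun t _ => ?_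
    unfold Lagrange.basis Lagrange.basisDivisor
    rw [Finset.prod_mul_distrib, ha]
    simp only [id, map_prod]
  have hsum0 : ∑ t ∈ T, a t = 0 := by
    have h := congrArg (fun P : ℚ[X] => P.coeff (T.card - 1)) hsum1
    simp only [finsetSum_coeff, coeff_C_mul] at h
    rw [coeff_one, if_neg (by omega)] at h
    rw [← h]
    refine Finset.sum_congr rfl fun t ht => ?_
    have h1 : (∏ u ∈ T.erase t, (X - C u : ℚ[X])).Monic :=
      monic_prod_of_monic _ _ fun u _ => monic_X_sub_C u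
    have h2 : (∏ u ∈ T.erase t, (X - C u : ℚ[X])).natDegree = T.card - 1 := by
      rw [natDegree_prod_of_monic _ _ fun u _ => monic_X_sub_C u]
      simp [Finset.card_erase_of_mem ht]
    have h3 := h1.coeff_natDegree
    rw [h2] at h3
    rw [h3, mul_one]
  have hmsum : ∑ t ∈ T, m t = 0 := by
    have h1 : ((∑ t ∈ T, m t : ℤ) : ℚ) = 0 := by
      push_cast
      rw [Finset.sum_congr rfl hma, ← Finset.mul_sum, hsum0, mul_zero]
    exact_mod_cast h1
  -- the exponents
  set e : ℚ → ℕ := fun t => (m t).toNat with he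
  set e' : ℚ → ℕ := fun t => (-m t).toNat with he'
  have hee : ∀ t, (e t : ℤ) - e' t = m t := by
    intro t
    simp only [he, he']
    omega
  have heq : ∑ t ∈ T, e t = ∑ t ∈ T, e' t := by
    have h1 : ∑ t ∈ T, ((e t : ℤ) - e' t) = 0 := by
      rw [Finset.sum_congr rfl fun t _ => hee t]
      exact hmsum
    rw [Finset.sum_sub_distrib] at h1
    have h2 : ((∑ t ∈ T, e t : ℕ) : ℤ) = ((∑ t ∈ T, e' t : ℕ) : ℤ) := by
      push_cast
      linarith
    exact_mod_cast h2
  have hor : ∀ t, 0 < e t ∨ 0 < e' t := by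
    intro t
    have := hm0 t
    simp only [he, he']
    omega
  have hsumpos : 1 ≤ ∑ t ∈ T, e t := by
    by_contra h
    have h0 : ∑ t ∈ T, e t = 0 := by omega
    have h0' : ∑ t ∈ T, e' t = 0 := by rw [← heq]; exact h0
    obtain ⟨t, ht⟩ := hTne
    have h1 := Finset.sum_eq_zero_iff.1 h0 t ht
    have h2 := Finset.sum_eq_zero_iff.1 h0' t ht
    rcases hor t with h3 | h3 <;> omega
  refine ⟨PP T e, PP T e', ?_, ?_, ?_, PP_monic T e, PP_monic T e', ?_, ?_, ?_⟩
  · unfold PP
    refine IsCoprime.prod_left fun t _ => IsCoprime.prod_right fun u _ => ?_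
    by_cases htu : t = u
    · subst htu
      have h1 : e t = 0 ∨ e' t = 0 := by
        simp only [he, he']
        omega
      rcases h1 with h1 | h1
      · rw [h1, pow_zero]
        exact isCoprime_one_left
      · rw [h1, pow_zero]
        exact isCoprime_one_right
    · exact (isCoprime_X_sub_C_of_isUnit_sub (sub_ne_zero.2 htu).isUnit).pow
  · rw [PP_natDegree]
    exact hsumpos
  · rw [PP_natDegree, PP_natDegree, heq]
  · rw [PP_natDegree]
    have hbound : ∀ t ∈ T, e t ≤ (2 * B ^ 2) ^ (T.card ^ 2) * (B ^ 2) ^ T.card := by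
      intro t ht
      have hB2 : (1 : ℤ) ≤ 2 * (B : ℤ) ^ 2 := by
        have : (1 : ℤ) ≤ B := by exact_mod_cast hB1
        nlinarith
      have hB3 : (1 : ℤ) ≤ (B : ℤ) ^ 2 := by
        have : (1 : ℤ) ≤ B := by exact_mod_cast hB1
        nlinarith
      have hNs : ∀ s ∈ T, N s ≤ (2 * (B : ℤ) ^ 2) ^ T.card := by
        intro s hs
        calc N s ≤ ∏ _u ∈ T.erase s, (2 * (B : ℤ) ^ 2) :=
              Finset.prod_le_prod (fun _ _ => abs_nonneg _) fun u hu =>
                num_sub_le s u B (hB s hs) (hB u (Finset.mem_of_mem_erase hu))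
          _ = (2 * (B : ℤ) ^ 2) ^ (T.erase s).card := Finset.prod_const _
          _ ≤ (2 * (B : ℤ) ^ 2) ^ T.card :=
              pow_le_pow_right₀ hB2 (Finset.card_le_card (Finset.erase_subset _ _))
      have hN0' : ∀ s, 0 ≤ N s := fun s => Finset.prod_nonneg fun _ _ => abs_nonneg _
      have h1 : ∏ s ∈ T.erase t, N s ≤ (2 * (B : ℤ) ^ 2) ^ (T.card ^ 2) := by
        calc ∏ s ∈ T.erase t, N s ≤ ∏ _s ∈ T.erase t, (2 * (B : ℤ) ^ 2) ^ T.card :=
              Finset.prod_le_prod (fun s _ => hN0' s) fun s hs =>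
                hNs s (Finset.mem_of_mem_erase hs)
          _ = ((2 * (B : ℤ) ^ 2) ^ T.card) ^ (T.erase t).card := Finset.prod_const _
          _ = (2 * (B : ℤ) ^ 2) ^ (T.card * (T.erase t).card) := by rw [pow_mul]
          _ ≤ (2 * (B : ℤ) ^ 2) ^ (T.card ^ 2) := by
              apply pow_le_pow_right₀ hB2
              rw [sq]
              exact Nat.mul_le_mul_left _ (Finset.card_le_card (Finset.erase_subset _ _))
      have h2 : |∏ u ∈ T.erase t, ((t - u).num.sign * ((t - u).den : ℤ))| ≤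
          ((B : ℤ) ^ 2) ^ T.card := by
        rw [Finset.abs_prod]
        calc ∏ u ∈ T.erase t, |(t - u).num.sign * ((t - u).den : ℤ)|
            ≤ ∏ _u ∈ T.erase t, ((B : ℤ) ^ 2) := by
              refine Finset.prod_le_prod (fun _ _ => abs_nonneg _) fun u hu => ?_
              rw [abs_mul]
              have h3 : |(t - u).num.sign| ≤ 1 := by
                rcases Int.sign_trichotomy (t - u).num with h | h | h <;> rw [h] <;> simp
              have h4 : |((t - u).den : ℤ)| ≤ (B : ℤ) ^ 2 := by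
                rw [abs_of_nonneg (by positivity)]
                exact_mod_cast den_sub_le t u B (hB t ht) (hB u (Finset.mem_of_mem_erase hu))
              calc |(t - u).num.sign| * |((t - u).den : ℤ)| ≤ 1 * (B : ℤ) ^ 2 :=
                    mul_le_mul h3 h4 (abs_nonneg _) (by positivity)
                _ = (B : ℤ) ^ 2 := one_mul _
          _ = ((B : ℤ) ^ 2) ^ (T.erase t).card := Finset.prod_const _
          _ ≤ ((B : ℤ) ^ 2) ^ T.card :=
              pow_le_pow_right₀ hB3 (Finset.card_le_card (Finset.erase_subset _ _))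
      have h5 : |m t| ≤ (2 * (B : ℤ) ^ 2) ^ (T.card ^ 2) * ((B : ℤ) ^ 2) ^ T.card := by
        simp only [hm]
        rw [abs_mul, abs_of_nonneg (Finset.prod_nonneg fun s _ => hN0' s)]
        exact mul_le_mul h1 h2 (abs_nonneg _) (by positivity)
      have h6 : (e t : ℤ) ≤ |m t| := by
        simp only [he]
        rw [Int.toNat_eq_max]
        exact max_le (le_abs_self _) (abs_nonneg _)
      exact_mod_cast h6.trans h5
    calc ∑ t ∈ T, e t ≤ ∑ _t ∈ T, (2 * B ^ 2) ^ (T.card ^ 2) * (B ^ 2) ^ T.card :=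
          Finset.sum_le_sum hbound
      _ = T.card * ((2 * B ^ 2) ^ (T.card ^ 2) * (B ^ 2) ^ T.card) := by
          rw [Finset.sum_const, smul_eq_mul]
  · intro t ht
    have key : ∀ e₀ : ℚ → ℕ, 0 < e₀ t → (PP T e₀).eval t = 0 := by
      intro e₀ h0
      unfold PP
      rw [eval_prod]
      refine Finset.prod_eq_zero ht ?_
      rw [eval_pow, eval_sub, eval_X, eval_C, sub_self, zero_pow h0.ne']
    rcases hor t with h | h
    · exact Or.inl (key e h)
    · exact Or.inr (key e' h)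
  · intro z hz hzero
    have hid : (derivative (PP T e) * PP T e' - PP T e * derivative (PP T e')) *
        (∏ t ∈ T, (X - C t)) = C (c : ℚ) * (PP T e * PP T e') := by
      have h1 := PP_deriv T e
      have h2 := PP_deriv T e'
      calc (derivative (PP T e) * PP T e' - PP T e * derivative (PP T e')) *
            (∏ t ∈ T, (X - C t))
          = (derivative (PP T e) * (∏ t ∈ T, (X - C t))) * PP T e' -
              PP T e * (derivative (PP T e') * (∏ t ∈ T, (X - C t))) := by ring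
        _ = PP T e * PP T e' * ((∑ t ∈ T, C (e t : ℚ) * ∏ u ∈ T.erase t, (X - C u)) -
              ∑ t ∈ T, C (e' t : ℚ) * ∏ u ∈ T.erase t, (X - C u)) := by rw [h1, h2]; ring
        _ = PP T e * PP T e' * (C (c : ℚ) * ∑ t ∈ T, C (a t) * ∏ u ∈ T.erase t, (X - C u)) := by
            congr 1
            rw [← Finset.sum_sub_distrib, Finset.mul_sum]
            refine Finset.sum_congr rfl fun t ht => ?_
            have h3 : ((e t : ℚ) - e' t) = c * a t := by
              rw [← hma t ht, ← hee t]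
              push_cast
              ring
            rw [← sub_mul, ← C_sub, h3, C_mul, mul_assoc]
        _ = C (c : ℚ) * (PP T e * PP T e') := by rw [hsum1]; ring
    have h1 := congrArg (fun P : ℚ[X] => aeval z P) hid
    simp only [map_mul] at h1
    rw [hzero, zero_mul] at h1
    have hPP : ∀ e₀ : ℚ → ℕ, aeval z (PP T e₀) ≠ 0 := by
      intro e₀
      unfold PP
      rw [map_prod]
      refine Finset.prod_ne_zero_iff.2 fun t ht => ?_
      rw [map_pow, map_sub, aeval_X, aeval_C]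
      exact pow_ne_zero _ (sub_ne_zero.2 (hz t ht))
    have hcF : aeval z (C (c : ℚ)) ≠ 0 := by
      rw [aeval_C]
      exact (_root_.map_ne_zero _).2 (by exact_mod_cast hc0)
    exact (mul_ne_zero hcF (mul_ne_zero (hPP e) (hPP e'))) h1.symm

end Pool.Agent.ESH
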