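import Pool.Agent.ESH.BST
import Pool.Agent.ESH.BRT

/-!
# ESH / BEL: effective Belyi theorem

Proof.  BST: `g`, `T`; put `T₁ = T ∪ {0, 1}` (at least two points, at most `N + 3`), numerators and denominators
`≤ B = tw 8 s`, `s = N + A + 16`.  BRT: `p₀`, `q₀` of the same degree, monic.  Put `p = p₀ ∘ g`, `q = q₀ ∘ g` (with
`g` mapped to `ℚ[X]`): coprime (compose the Bezout identity), same degree `deg p₀ * deg g ≥ 1` and same leading
coefficient `lead(g)^(deg p₀)`.  Let `z ∈ F`.  If `g(z) ∈ T₁`, then `p(z) = 0` or `q(z) = 0`: this is the case for roots of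
`P` and for roots of `g'`.  Otherwise `g'(z) ≠ 0` and
`(p' q - p q')(z) = (p₀' q₀ - p₀ q₀')(g(z)) g'(z) ≠ 0`.  Bounds: TWA.
-/

namespace Pool.Agent.ESH

open Polynomial

theorem bel (F : Type*) [Field F] [CharZero F] (P : ℤ[X]) (hP : P ≠ 0) (N A : ℕ)
    (hdeg : P.natDegree ≤ N) (hA : ∀ i, |P.coeff i| ≤ (A : ℤ)) :
    ∃ p q : ℚ[X], IsCoprime p q ∧ 1 ≤ p.natDegree ∧ p.natDegree = q.natDegree ∧
      p.leadingCoeff = q.leadingCoeff ∧ p.natDegree ≤ tw 20 (N + A + 16) ∧
      (∀ z : F, aeval z P = 0 → aeval z p = 0 ∨ aeval z q = 0) ∧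
      (∀ z : F, aeval z p = 0 ∨ aeval z q = 0 ∨
        aeval z (derivative p * q - p * derivative q) ≠ 0) := by
  classical
  obtain ⟨g, T, hg1, hgN, hTc, hTB, hgP, hgg⟩ := bst F P hP N A hdeg hA
  set s : ℕ := N + A + 16 with hs
  have hs16 : 16 ≤ s := by omega
  set B : ℕ := tw 8 s with hB
  set T₁ : Finset ℚ := insert 0 (insert 1 T) with hT₁
  have hsB : s ≤ B := le_tw 8 s
  have hT₁2 : 2 ≤ T₁.card := by
    have : ({0, 1} : Finset ℚ) ⊆ T₁ := by
      intro x hx
      simp only [Finset.mem_insert, Finset.mem_singleton] at hx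
      rcases hx with rfl | rfl <;> simp [hT₁]
    have h2 : ({0, 1} : Finset ℚ).card = 2 := by
      rw [Finset.card_pair]
      norm_num
    calc 2 = ({0, 1} : Finset ℚ).card := h2.symm
      _ ≤ _ := Finset.card_le_card this
  have hT₁c : T₁.card ≤ s := by
    have h1 := Finset.card_insert_le (0 : ℚ) (insert 1 T)
    have h2 := Finset.card_insert_le (1 : ℚ) T
    rw [← hT₁] at h1
    omega
  have hT₁B : ∀ q ∈ T₁, q.num.natAbs ≤ B ∧ q.den ≤ B := by
    intro q hq
    rw [hT₁, Finset.mem_insert, Finset.mem_insert] at hq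
    rcases hq with rfl | rfl | hq
    · constructor
      · simp
      · simp only [Rat.den_ofNat]
        omega
    · constructor
      · simp only [Rat.num_ofNat, Int.natAbs_one]
        omega
      · simp only [Rat.den_ofNat]
        omega
    · exact hTB q hq
  obtain ⟨p₀, q₀, hcop, hp1, hpq, hpm, hqm, hpdeg, hpqT, hder⟩ := brt F T₁ hT₁2 B hT₁B
  set G : ℚ[X] := g.map (algebraMap ℤ ℚ) with hG
  have hGdeg : G.natDegree = g.natDegree :=
    natDegree_map_eq_of_injective (RingHom.injective_int _) g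
  have hGne : G.natDegree ≠ 0 := by omega
  have hGz : ∀ z : F, aeval z G = aeval z g := fun z => by rw [hG, aeval_map_algebraMap]
  refine ⟨p₀.comp G, q₀.comp G, ?_, ?_, ?_, ?_, ?_, ?_, ?_⟩
  · exact hcop.map (compRingHom G)
  · rw [natDegree_comp]
    exact Nat.mul_pos hp1 (by omega)
  · rw [natDegree_comp, natDegree_comp, hpq]
  · rw [leadingCoeff_comp hGne, leadingCoeff_comp hGne, hpm.leadingCoeff, hqm.leadingCoeff, hpq]
  · rw [natDegree_comp, hGdeg]
    have h0s : s ≤ tw 0 s := le_tw 0 s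
    have hc0 : T₁.card ≤ tw 0 s := hT₁c.trans h0s
    have hB8 : B ≤ tw 8 s := le_rfl
    have hBB : B ^ 2 ≤ tw 9 s := by
      rw [pow_two]
      exact tw_mul hs16 hB8 hB8
    have h2 : 2 ≤ tw 9 s := le_trans (by omega) (le_tw 9 s)
    have h2BB : 2 * B ^ 2 ≤ tw 10 s := tw_mul hs16 h2 hBB
    have hcc : T₁.card ^ 2 ≤ tw 1 s := by
      rw [pow_two]
      exact tw_mul hs16 hc0 hc0
    have e1 : (2 * B ^ 2) ^ (T₁.card ^ 2) ≤ tw 12 s :=
      tw_pow hs16 h2BB (hcc.trans (tw_mono (by norm_num) le_rfl))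
    have e2 : (B ^ 2) ^ T₁.card ≤ tw 12 s :=
      (tw_pow hs16 hBB (hc0.trans (tw_mono (by norm_num) le_rfl))).trans
        (tw_mono (by norm_num) le_rfl)
    have e3 := tw_mul hs16 e1 e2
    have e4 : T₁.card * ((2 * B ^ 2) ^ (T₁.card ^ 2) * (B ^ 2) ^ T₁.card) ≤ tw 14 s :=
      tw_mul hs16 (hc0.trans (tw_mono (by norm_num) le_rfl)) e3
    have e5 : g.natDegree ≤ tw 14 s := by
      refine hgN.trans ?_
      have hN : N ≤ tw 0 s := le_trans (by omega) h0s
      exact (tw_fact hs16 hN).trans (tw_mono (by norm_num) le_rfl)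
    exact (tw_mul hs16 (hpdeg.trans e4) e5).trans (tw_mono (by norm_num) le_rfl)
  · intro z hz
    obtain ⟨t, htT, ht⟩ := hgP z hz
    have htT₁ : t ∈ T₁ := by
      rw [hT₁]
      exact Finset.mem_insert_of_mem (Finset.mem_insert_of_mem htT)
    rw [aeval_comp, aeval_comp, hGz, ht, aeval_algebraMap_apply, aeval_algebraMap_apply]
    rcases hpqT t htT₁ with h | h
    · left
      rw [aeval_def, Algebra.algebraMap_self, eval₂_id, h, map_zero]
    · right
      rw [aeval_def, Algebra.algebraMap_self, eval₂_id, h, map_zero]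
  · intro z
    have hpqT' : ∀ t ∈ T₁, aeval z g = algebraMap ℚ F t →
        aeval z (p₀.comp G) = 0 ∨ aeval z (q₀.comp G) = 0 := by
      intro t htT₁ ht
      rw [aeval_comp, aeval_comp, hGz, ht, aeval_algebraMap_apply, aeval_algebraMap_apply]
      rcases hpqT t htT₁ with h | h
      · left
        rw [aeval_def, Algebra.algebraMap_self, eval₂_id, h, map_zero]
      · right
        rw [aeval_def, Algebra.algebraMap_self, eval₂_id, h, map_zero]
    by_cases hex : ∃ t ∈ T₁, aeval z g = algebraMap ℚ F t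
    · obtain ⟨t, htT₁, ht⟩ := hex
      rcases hpqT' t htT₁ ht with h | h
      · exact Or.inl h
      · exact Or.inr (Or.inl h)
    · right; right
      push Not at hex
      have hd := hder (aeval z g) hex
      have hg' : aeval z (derivative g) ≠ 0 := by
        intro h0
        obtain ⟨t, htT, ht⟩ := hgg z h0
        exact hex t (by rw [hT₁]; exact Finset.mem_insert_of_mem (Finset.mem_insert_of_mem htT)) ht
      have hG' : aeval z (derivative G) ≠ 0 := by
        rw [hG, derivative_map, aeval_map_algebraMap]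
        exact hg'
      have e : derivative (p₀.comp G) * q₀.comp G - p₀.comp G * derivative (q₀.comp G) =
          derivative G * (derivative p₀ * q₀ - p₀ * derivative q₀).comp G := by
        rw [derivative_comp, derivative_comp, sub_comp, mul_comp, mul_comp]
        ring
      rw [e, map_mul, aeval_comp, hGz]
      exact mul_ne_zero hG' hd

end Pool.Agent.ESH
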