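import Pool.Agent.ESH.BLM

/-!
# ESH / BWR: sums of products of constants and functions

`Rp T R a`: `a` is a finite sum of products of an element of `T ⊆ C` and an element of `R ⊆ F`.
`rp_ri`: such sums are combinations of a residually independent family.
-/

namespace Pool.Agent.ESH

open Pool.Agent.Helper11

section

variable {F C Φ : Type*} [Field F] [Field C] [Field Φ] [Algebra F Φ] [Algebra C Φ]

/-- the sum of the products of the pairs of a list -/
noncomputable def ls (Φ : Type*) [Field Φ] [Algebra F Φ] [Algebra C Φ] (l : List (C × F)) : Φ :=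
  (l.map fun p => algebraMap C Φ p.1 * algebraMap F Φ p.2).sum

/-- `a` is a finite sum of products `c f`, `c ∈ T`, `f ∈ R` -/
def Rp (T : Set C) (R : Set F) (a : Φ) : Prop :=
  ∃ l : List (C × F), (∀ p ∈ l, p.1 ∈ T ∧ p.2 ∈ R) ∧ a = ls Φ l

theorem ls_nil : ls Φ ([] : List (C × F)) = 0 := by simp [ls]

theorem ls_cons (p : C × F) (l : List (C × F)) :
    ls Φ (p :: l) = algebraMap C Φ p.1 * algebraMap F Φ p.2 + ls Φ l := by simp [ls]

theorem ls_append (l l' : List (C × F)) : ls Φ (l ++ l') = ls Φ l + ls Φ l' := by simp [ls]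

theorem ls_mapC (c : C) (l : List (C × F)) :
    ls Φ (l.map fun p => (c * p.1, p.2)) = algebraMap C Φ c * ls Φ l := by
  induction l with
  | nil => simp [ls_nil]
  | cons p l ih =>
    rw [List.map_cons, ls_cons, ls_cons, ih, map_mul]
    ring

theorem ls_mapF (f : F) (l : List (C × F)) :
    ls Φ (l.map fun p => (p.1, f * p.2)) = algebraMap F Φ f * ls Φ l := by
  induction l with
  | nil => simp [ls_nil]
  | cons p l ih =>
    rw [List.map_cons, ls_cons, ls_cons, ih, map_mul]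
    ring

theorem rp_zero (T : Set C) (R : Set F) : Rp T R (0 : Φ) := ⟨[], by simp, ls_nil.symm⟩

theorem rp_add {T : Set C} {R : Set F} {a b : Φ} (ha : Rp T R a) (hb : Rp T R b) : Rp T R (a + b) := by
  obtain ⟨l, hl, rfl⟩ := ha
  obtain ⟨l', hl', rfl⟩ := hb
  refine ⟨l ++ l', ?_, (ls_append l l').symm⟩
  intro p hp
  rcases List.mem_append.1 hp with h | h
  · exact hl p h
  · exact hl' p h

theorem rp_single {T : Set C} {R : Set F} {c : C} {f : F} (hc : c ∈ T) (hf : f ∈ R) :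
    Rp T R (algebraMap C Φ c * algebraMap F Φ f) :=
  ⟨[(c, f)], by simp [hc, hf], by rw [ls_cons, ls_nil, add_zero]⟩

theorem rp_mulC {T T' : Set C} {R : Set F} {c : C} (h : ∀ t ∈ T, c * t ∈ T') {a : Φ} (ha : Rp T R a) :
    Rp T' R (algebraMap C Φ c * a) := by
  obtain ⟨l, hl, rfl⟩ := ha
  refine ⟨_, ?_, (ls_mapC c l).symm⟩
  intro p hp
  obtain ⟨q, hq, rfl⟩ := List.mem_map.1 hp
  exact ⟨h _ (hl q hq).1, (hl q hq).2⟩

theorem rp_mulF {T : Set C} {R R' : Set F} {f : F} (h : ∀ t ∈ R, f * t ∈ R') {a : Φ} (ha : Rp T R a) :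
    Rp T R' (algebraMap F Φ f * a) := by
  obtain ⟨l, hl, rfl⟩ := ha
  refine ⟨_, ?_, (ls_mapF f l).symm⟩
  intro p hp
  obtain ⟨q, hq, rfl⟩ := List.mem_map.1 hp
  exact ⟨(hl q hq).1, h _ (hl q hq).2⟩

theorem rp_neg {T : Set C} {R : Set F} (h : ∀ t ∈ T, -t ∈ T) {a : Φ} (ha : Rp T R a) :
    Rp T R (-a) := by
  have h1 := rp_mulC (T' := T) (c := -1) (fun t ht => by rw [neg_one_mul]; exact h t ht) ha
  rwa [map_neg, map_one, neg_one_mul] at h1

theorem rp_mono {T T' : Set C} {R R' : Set F} (h : ∀ t ∈ T, t ∈ T') (h' : ∀ t ∈ R, t ∈ R') {a : Φ}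
    (ha : Rp T R a) : Rp T' R' a := by
  obtain ⟨l, hl, rfl⟩ := ha
  exact ⟨l, fun p hp => ⟨h _ (hl p hp).1, h' _ (hl p hp).2⟩, rfl⟩

theorem rp_mul_AV {T : Set C} {R : Subring F} {V : ValuationSubring C} (hn : ∀ t ∈ T, -t ∈ T)
    (hV : ∀ c ∈ V, ∀ t ∈ T, c * t ∈ T) {x : Φ} (hx : x ∈ AV R V) :
    ∀ y : Φ, Rp T (R : Set F) y → Rp T (R : Set F) (x * y) := by
  induction hx using Subring.closure_induction with
  | mem z hz =>
    intro y hy
    rcases hz with ⟨f, hf, rfl⟩ | ⟨c, hc, rfl⟩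
    · exact rp_mulF (fun t ht => R.mul_mem hf ht) hy
    · exact rp_mulC (fun t ht => hV c hc t ht) hy
  | zero => intro y _; rw [zero_mul]; exact rp_zero _ _
  | one => intro y hy; rwa [one_mul]
  | add a b _ _ ha hb => intro y hy; rw [add_mul]; exact rp_add (ha y hy) (hb y hy)
  | neg a _ ha => intro y hy; rw [neg_mul]; exact rp_neg hn (ha y hy)
  | mul a b _ _ ha hb => intro y hy; rw [mul_assoc]; exact ha _ (hb y hy)

theorem rp_AV {R : Subring F} {V : ValuationSubring C} {x : Φ} (hx : x ∈ AV R V) :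
    Rp (V : Set C) (R : Set F) x := by
  have h1 : Rp (V : Set C) (R : Set F) (algebraMap C Φ 1 * algebraMap F Φ 1) :=
    rp_single V.one_mem R.one_mem
  have h2 := rp_mul_AV (T := (V : Set C)) (fun t ht => V.neg_mem _ ht)
    (fun c hc t ht => V.mul_mem _ _ hc ht) hx _ h1
  rwa [map_one, map_one, one_mul, mul_one] at h2

theorem AV_of_rp {R : Subring F} {V : ValuationSubring C} {x : Φ}
    (hx : Rp (V : Set C) (R : Set F) x) : x ∈ AV R V := by
  obtain ⟨l, hl, rfl⟩ := hx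
  induction l with
  | nil => rw [ls_nil]; exact zero_mem _
  | cons p l ih =>
    rw [ls_cons]
    refine add_mem (mul_mem ?_ ?_) (ih fun q hq => hl q (List.mem_cons_of_mem _ hq))
    · exact Subring.subset_closure (Or.inr ⟨p.1, (hl p List.mem_cons_self).1, rfl⟩)
    · exact Subring.subset_closure (Or.inl ⟨p.2, (hl p List.mem_cons_self).2, rfl⟩)

theorem rp_span {R : Set F} {a : Φ} (ha : a ∈ Submodule.span C ((algebraMap F Φ) '' R)) :
    Rp (Set.univ : Set C) R a := by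
  induction ha using Submodule.span_induction with
  | mem x hx =>
    obtain ⟨f, hf, rfl⟩ := hx
    have := rp_single (Φ := Φ) (Set.mem_univ (1 : C)) hf
    rwa [map_one, one_mul] at this
  | zero => exact rp_zero _ _
  | add x y _ _ hx hy => exact rp_add hx hy
  | smul c x _ hx =>
    rw [Algebra.smul_def]
    exact rp_mulC (fun _ _ => Set.mem_univ _) hx

theorem rp_of_sum {T : Set C} {R : Set F} {n : ℕ} (c : Fin n → C) (e : Fin n → F)
    (hc : ∀ i, c i ∈ T) (he : ∀ i, e i ∈ R) :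
    Rp T R (∑ i, algebraMap C Φ (c i) * algebraMap F Φ (e i)) := by
  refine ⟨List.ofFn fun i => (c i, e i), ?_, ?_⟩
  · intro p hp
    rw [List.mem_ofFn] at hp
    obtain ⟨i, rfl⟩ := hp
    exact ⟨hc i, he i⟩
  · rw [ls, List.map_ofFn, List.sum_ofFn]
    rfl

end

section

variable {O K F C Φ : Type*} [CommRing O] [Field K] [Algebra O K] [Field F] [Algebra K F]
  [Algebra O F] [IsScalarTower O K F] [Field C] [Algebra K C] [Field Φ] [Algebra F Φ] [Algebra C Φ]

/-- coordinates -/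
theorem ls_coord (hc : Cmps K F C Φ) {T : Set C} (h0 : (0 : C) ∈ T) (hadd : ∀ s ∈ T, ∀ t ∈ T, s + t ∈ T)
    (hT : ∀ t ∈ T, ∀ o : O, t * algebraMap K C (algebraMap O K o) ∈ T) {n : ℕ} (e : Fin n → F)
    (l : List (C × F))
    (hl : ∀ p ∈ l, p.1 ∈ T ∧ ∃ a : Fin n → O, p.2 = ∑ i, algebraMap O F (a i) * e i) :
    ∃ c : Fin n → C, (∀ i, c i ∈ T) ∧
      ls Φ l = ∑ i, algebraMap C Φ (c i) * algebraMap F Φ (e i) := by
  induction l with
  | nil => exact ⟨fun _ => 0, fun _ => h0, by simp [ls_nil]⟩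
  | cons p l ih =>
    obtain ⟨c, hcT, hc'⟩ := ih fun q hq => hl q (List.mem_cons_of_mem _ hq)
    obtain ⟨hp1, a, ha⟩ := hl p List.mem_cons_self
    refine ⟨fun i => p.1 * algebraMap K C (algebraMap O K (a i)) + c i,
      fun i => hadd _ (hT _ hp1 _) _ (hcT i), ?_⟩
    rw [ls_cons, hc', ha, map_sum, Finset.mul_sum, ← Finset.sum_add_distrib]
    apply Finset.sum_congr rfl
    intro i _
    rw [map_mul, map_add, map_mul, ← hc.comm, ← IsScalarTower.algebraMap_apply O K F]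
    ring

end

section

variable {O K F C Φ : Type*} [CommRing O] [IsDomain O] [IsDiscreteValuationRing O] [Field K] [CharZero K]
  [Algebra O K] [IsFractionRing O K] [Field F] [Algebra K F] [Algebra O F] [IsScalarTower O K F]
  [FunField K F] [Field C] [Algebra K C] [IsAlgClosed C] [Field Φ]
  [Algebra F Φ] [Algebra C Φ]

/-- two sums and a finite set at the same time -/
theorem rp_ri {W₀ : ValuationSubring F} {pts₀ : Set (Subring F)} (h : IsBMdl O K W₀ pts₀)
    (hc : Cmps K F C Φ) (R : Subring F)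
    (hR : ∀ a ∈ R, a ∈ W₀) (hO : ∀ c : O, algebraMap O F c ∈ R)
    (hs : ∀ c : O, c ≠ 0 → ∀ a ∈ R, a / algebraMap O F c ∈ W₀ → a / algebraMap O F c ∈ R)
    {T : Set C} (h0 : (0 : C) ∈ T) (hadd : ∀ s ∈ T, ∀ t ∈ T, s + t ∈ T)
    (hT : ∀ t ∈ T, ∀ o : O, t * algebraMap K C (algebraMap O K o) ∈ T)
    (X : Finset F) (hX : ∀ x ∈ X, x ∈ R)
    {a b : Φ} (ha : Rp T (R : Set F) a) (hb : Rp T (R : Set F) b) :
    ∃ (n : ℕ) (e : Fin n → F), (∀ i, e i ∈ R) ∧ ResInd O W₀ e ∧
      (∀ x ∈ X, ∃ c : Fin n → O, x = ∑ i, algebraMap O F (c i) * e i) ∧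
      (∃ c : Fin n → C, (∀ i, c i ∈ T) ∧ a = ∑ i, algebraMap C Φ (c i) * algebraMap F Φ (e i)) ∧
      ∃ c : Fin n → C, (∀ i, c i ∈ T) ∧ b = ∑ i, algebraMap C Φ (c i) * algebraMap F Φ (e i) := by
  classical
  obtain ⟨l, hl, rfl⟩ := ha
  obtain ⟨l', hl', rfl⟩ := hb
  obtain ⟨n, e, he, hri, hX'⟩ := blm h (fun z hz => bkd_closed hc z hz) R hR hO hs
    (X ∪ ((l.map Prod.snd).toFinset ∪ (l'.map Prod.snd).toFinset)) (by
      intro x hx
      rw [Finset.mem_union, Finset.mem_union, List.mem_toFinset, List.mem_toFinset] at hx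
      rcases hx with h1 | h1 | h1
      · exact hX x h1
      · obtain ⟨p, hp, rfl⟩ := List.mem_map.1 h1
        exact (hl p hp).2
      · obtain ⟨p, hp, rfl⟩ := List.mem_map.1 h1
        exact (hl' p hp).2)
  refine ⟨n, e, he, hri, fun x hx => hX' x (Finset.mem_union_left _ hx), ?_, ?_⟩
  · exact ls_coord hc h0 hadd hT e l fun p hp => ⟨(hl p hp).1, hX' p.2 (by
      rw [Finset.mem_union, Finset.mem_union, List.mem_toFinset]
      exact Or.inr (Or.inl (List.mem_map.2 ⟨p, hp, rfl⟩)))⟩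
  · exact ls_coord hc h0 hadd hT e l' fun p hp => ⟨(hl' p hp).1, hX' p.2 (by
      rw [Finset.mem_union, Finset.mem_union, List.mem_toFinset, List.mem_toFinset]
      exact Or.inr (Or.inr (List.mem_map.2 ⟨p, hp, rfl⟩)))⟩

end

end Pool.Agent.ESH
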