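import Pool.Agent.ESH.BLD
import Pool.Agent.ESH.BWR

/-!
# ESH / BGA: the Gauss norm

`bga_mem`: for a residually independent family, `∑ c_i e_i ∈ W` iff all `c_i ∈ V`: let `c_j` have maximal valuation, not in `V`; then
`∑ (c_i/c_j) e_i ∈ W` is a unit of `W` by BLD (coefficient `1`), and `c_j ∉ W`, so `∑ c_i e_i = c_j * unit ∉ W`.
`bav`: every element of `AV R V` is `∑ c_i e_i` with `e` residually independent in `R`, `c_i ∈ V` (it is `∑ c_i w_i`, `w_i ∈ R`; BLM).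
`bga_rep`: every non-zero element `a` of the `C`-span of `R` is `c a'`, `c ∈ C`, `a' ∈ AV R V`, `a' ∉ W.nonunits`: write
`a = ∑ c_i e_i` (BLM), `c = c_j` of maximal valuation, `a' = ∑ (c_i/c_j) e_i`.
`bga_scale`: `Φ ∋ f = a/b`, `a, b` in the `C`-span of `F`, which is the `C`-span of `W₀` (`scale` for `W₀`); apply `bga_rep`
with `R = W₀` to `a` and `b`.
-/

namespace Pool.Agent.ESH

open Pool.Agent.Helper11

variable {O K F C Φ : Type*} [CommRing O] [IsDomain O] [IsDiscreteValuationRing O] [Field K] [CharZero K]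
  [Algebra O K] [IsFractionRing O K] [Field F] [Algebra K F] [Algebra O F] [IsScalarTower O K F]
  [FunField K F] [Field C] [CharZero C] [Algebra K C] [Algebra.IsAlgebraic K C] [IsAlgClosed C] [Field Φ]
  [Algebra F Φ] [Algebra C Φ] [Finite (IsLocalRing.ResidueField O)]

/-- the coefficient of maximal valuation -/
theorem bga_max {W₀ : ValuationSubring F} {pts₀ : Set (Subring F)} {V : ValuationSubring C}
    {W : ValuationSubring Φ} (E : BExt O K W₀ pts₀ V W) {n : ℕ} (e : Fin n → F) (he : ResInd O W₀ e)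
    (c : Fin n → C) {i₀ : Fin n} (h0 : c i₀ ≠ 0) :
    ∃ j, c j ≠ 0 ∧ (∀ i, V.valuation (c i) ≤ V.valuation (c j)) ∧ (∀ i, c i / c j ∈ V) ∧
      ∑ i, algebraMap C Φ (c i / c j) * algebraMap F Φ (e i) ∈ W ∧
      ∑ i, algebraMap C Φ (c i / c j) * algebraMap F Φ (e i) ∉ W.nonunits ∧
      ∑ i, algebraMap C Φ (c i) * algebraMap F Φ (e i) =
        algebraMap C Φ (c j) * ∑ i, algebraMap C Φ (c i / c j) * algebraMap F Φ (e i) := by
  have hne : Nonempty (Fin n) := ⟨i₀⟩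
  obtain ⟨j, hj⟩ := Finite.exists_max (fun i => V.valuation (c i))
  have hj0 : c j ≠ 0 := by
    intro hz
    have h1 := hj i₀
    simp only [hz, map_zero] at h1
    have h2 : V.valuation (c i₀) = 0 := le_antisymm h1 zero_le
    exact h0 ((V.valuation.zero_iff).1 h2)
  have hdiv : ∀ i, c i / c j ∈ V := by
    intro i
    rw [← V.valuation_le_one_iff, map_div₀]
    exact div_le_one_of_le₀ (hj i) zero_le
  refine ⟨j, hj0, hj, hdiv, ?_, ?_, ?_⟩
  · apply sum_mem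
    intro i _
    exact mul_mem ((E.WC _).2 (hdiv i)) ((E.WF _).2 (he.1 i))
  · intro hn
    have h1 := bld E e he (fun i => c i / c j) hdiv hn j
    have h2 : V.valuation (c j / c j) < 1 := h1
    rw [div_self hj0, map_one] at h2
    exact lt_irrefl _ h2
  · rw [Finset.mul_sum]
    apply Finset.sum_congr rfl
    intro i _
    rw [← mul_assoc, ← map_mul, mul_div_cancel₀ _ hj0]

/-- inverse of a unit -/
theorem inv_mem_of_not_nonunit {L : Type*} [Field L] {W : ValuationSubring L} {x : L}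
    (hx : x ∉ W.nonunits) : x ≠ 0 ∧ x⁻¹ ∈ W := by
  rw [ValuationSubring.mem_nonunits_iff_or, not_or, not_not] at hx
  exact hx

theorem bga_mem {W₀ : ValuationSubring F} {pts₀ : Set (Subring F)} {V : ValuationSubring C}
    {W : ValuationSubring Φ} (E : BExt O K W₀ pts₀ V W) {n : ℕ} (e : Fin n → F) (he : ResInd O W₀ e)
    (c : Fin n → C) :
    ∑ i, algebraMap C Φ (c i) * algebraMap F Φ (e i) ∈ W ↔ ∀ i, c i ∈ V := by
  constructor
  · intro hsum
    by_contra hcon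
    push Not at hcon
    obtain ⟨i₀, hi₀⟩ := hcon
    have h0 : c i₀ ≠ 0 := fun h => hi₀ (by rw [h]; exact V.zero_mem)
    obtain ⟨j, hj0, hj, -, hu, hun, heq⟩ := bga_max E e he c h0
    obtain ⟨hu0, hui⟩ := inv_mem_of_not_nonunit hun
    have h1 : algebraMap C Φ (c j) ∈ W := by
      have h2 := W.mul_mem _ _ hsum hui
      rwa [heq, mul_assoc, mul_inv_cancel₀ hu0, mul_one] at h2
    rw [E.WC, ← V.valuation_le_one_iff] at h1
    exact hi₀ ((V.valuation_le_one_iff _).1 ((hj i₀).trans h1))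
  · intro hc
    apply sum_mem
    intro i _
    exact mul_mem ((E.WC _).2 (hc i)) ((E.WF _).2 (he.1 i))

theorem bav {W₀ : ValuationSubring F} {pts₀ : Set (Subring F)} {V : ValuationSubring C}
    {W : ValuationSubring Φ} (E : BExt O K W₀ pts₀ V W) (R : Subring F)
    (hR : ∀ a ∈ R, a ∈ W₀) (hO : ∀ c : O, algebraMap O F c ∈ R)
    (hs : ∀ c : O, c ≠ 0 → ∀ a ∈ R, a / algebraMap O F c ∈ W₀ → a / algebraMap O F c ∈ R)
    (a : Φ) (ha : a ∈ AV R V) :
    ∃ (n : ℕ) (e : Fin n → F) (c : Fin n → C), (∀ i, e i ∈ R) ∧ ResInd O W₀ e ∧ (∀ i, c i ∈ V) ∧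
      a = ∑ i, algebraMap C Φ (c i) * algebraMap F Φ (e i) := by
  obtain ⟨n, e, he, hri, -, ⟨c, hcT, hc1⟩, -⟩ := rp_ri E.mdl E.cmp R hR hO hs (T := (V : Set C))
    V.zero_mem (fun s hs t ht => V.add_mem _ _ hs ht)
    (fun t ht o => V.mul_mem _ _ ht ((E.ovr _).2 ⟨o, rfl⟩)) ∅ (by simp) (rp_AV ha) (rp_AV ha)
  exact ⟨n, e, c, he, hri, hcT, hc1⟩

theorem bga_rep {W₀ : ValuationSubring F} {pts₀ : Set (Subring F)} {V : ValuationSubring C}
    {W : ValuationSubring Φ} (E : BExt O K W₀ pts₀ V W) (R : Subring F)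
    (hR : ∀ a ∈ R, a ∈ W₀) (hO : ∀ c : O, algebraMap O F c ∈ R)
    (hs : ∀ c : O, c ≠ 0 → ∀ a ∈ R, a / algebraMap O F c ∈ W₀ → a / algebraMap O F c ∈ R)
    (a : Φ) (ha : a ∈ Submodule.span C ((algebraMap F Φ) '' (R : Set F))) (ha0 : a ≠ 0) :
    ∃ c : C, c ≠ 0 ∧ ∃ a' ∈ AV R V, a' ∉ W.nonunits ∧ a = algebraMap C Φ c * a' := by
  obtain ⟨n, e, he, hri, -, ⟨c, hcT, hc1⟩, -⟩ := rp_ri E.mdl E.cmp R hR hO hs
    (T := (Set.univ : Set C)) (Set.mem_univ _) (fun s hs t ht => Set.mem_univ _)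
    (fun t ht o => Set.mem_univ _) ∅ (by simp) (rp_span ha) (rp_span ha)
  have hex : ∃ i, c i ≠ 0 := by
    by_contra hcon
    push Not at hcon
    apply ha0
    rw [hc1]
    apply Finset.sum_eq_zero
    intro i _
    rw [hcon i, map_zero, zero_mul]
  obtain ⟨i₀, h0⟩ := hex
  obtain ⟨j, hj0, hj, hdiv, hu, hun, heq⟩ := bga_max E e hri c h0
  exact ⟨c j, hj0, _, AV_of_rp (rp_of_sum (fun i => c i / c j) e hdiv he), hun, by rw [hc1, heq]⟩

/-- the span of `W₀` is the span of `F` -/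
theorem bga_span {W₀ : ValuationSubring F} {pts₀ : Set (Subring F)} {V : ValuationSubring C}
    {W : ValuationSubring Φ} (E : BExt O K W₀ pts₀ V W) {a : Φ}
    (ha : a ∈ Submodule.span C (Set.range (algebraMap F Φ))) :
    a ∈ Submodule.span C ((algebraMap F Φ) '' (W₀.toSubring : Set F)) := by
  refine (Submodule.span_le.2 ?_) ha
  rintro _ ⟨f, rfl⟩
  by_cases hf : f = 0
  · rw [hf, map_zero]; exact zero_mem _
  obtain ⟨c, hc0, hfc, -⟩ := E.mdl.scale f hf
  have hcF : algebraMap K F c ≠ 0 := by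
    rw [Ne, map_eq_zero]; exact hc0
  have h1 : algebraMap F Φ f = algebraMap K C c • algebraMap F Φ (f / algebraMap K F c) := by
    rw [Algebra.smul_def, ← E.cmp.comm, ← map_mul, mul_div_cancel₀ _ hcF]
  rw [h1]
  exact Submodule.smul_mem _ _ (Submodule.subset_span ⟨_, hfc, rfl⟩)

theorem bga_O {W₀ : ValuationSubring F} {pts₀ : Set (Subring F)} {V : ValuationSubring C}
    {W : ValuationSubring Φ} (E : BExt O K W₀ pts₀ V W) (c : O) : algebraMap O F c ∈ W₀ := by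
  rw [IsScalarTower.algebraMap_apply O K F]
  exact (E.mdl.base _).2 ⟨c, rfl⟩

theorem bga_scale {W₀ : ValuationSubring F} {pts₀ : Set (Subring F)} {V : ValuationSubring C}
    {W : ValuationSubring Φ} (E : BExt O K W₀ pts₀ V W) (f : Φ) (hf : f ≠ 0) :
    ∃ c : C, c ≠ 0 ∧ f / algebraMap C Φ c ∈ W ∧ algebraMap C Φ c / f ∈ W := by
  obtain ⟨a, ha, b, hb, hb0, hab⟩ := E.cmp.gen f
  have ha0 : a ≠ 0 := by rw [← hab]; exact mul_ne_zero hf hb0
  have hAV : ∀ z ∈ AV W₀.toSubring V, z ∈ W := by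
    intro z hz
    refine (Subring.closure_le.2 ?_) hz
    rintro _ (⟨w, hw, rfl⟩ | ⟨d, hd, rfl⟩)
    · exact (E.WF _).2 hw
    · exact (E.WC _).2 hd
  obtain ⟨c, hc0, a', ha', hau, hac⟩ := bga_rep E W₀.toSubring (fun a ha => ha) (bga_O E)
    (fun c _ a _ h => h) a (bga_span E ha) ha0
  obtain ⟨d, hd0, b', hb', hbu, hbd⟩ := bga_rep E W₀.toSubring (fun a ha => ha) (bga_O E)
    (fun c _ a _ h => h) b (bga_span E hb) hb0
  obtain ⟨ha1, ha2⟩ := inv_mem_of_not_nonunit hau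
  obtain ⟨hb1, hb2⟩ := inv_mem_of_not_nonunit hbu
  have hcC : algebraMap C Φ c ≠ 0 := by rw [Ne, map_eq_zero]; exact hc0
  have hdC : algebraMap C Φ d ≠ 0 := by rw [Ne, map_eq_zero]; exact hd0
  have hfe : f = algebraMap C Φ (c / d) * (a' * b'⁻¹) := by
    have : f = a / b := by rw [eq_div_iff hb0]; exact hab
    rw [this, hac, hbd, map_div₀]
    field_simp
  have hcd : c / d ≠ 0 := div_ne_zero hc0 hd0
  have hcdC : algebraMap C Φ (c / d) ≠ 0 := by rw [Ne, map_eq_zero]; exact hcd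
  refine ⟨c / d, hcd, ?_, ?_⟩
  · have : f / algebraMap C Φ (c / d) = a' * b'⁻¹ := by
      rw [hfe, mul_div_cancel_left₀ _ hcdC]
    rw [this]
    exact W.mul_mem _ _ (hAV _ ha') hb2
  · have : algebraMap C Φ (c / d) / f = a'⁻¹ * b' := by
      rw [hfe, div_eq_iff (mul_ne_zero hcdC (mul_ne_zero ha1 (inv_ne_zero hb1)))]
      field_simp
    rw [this]
    exact W.mul_mem _ _ ha2 (hAV _ hb')

end Pool.Agent.ESH
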