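import Pool.Agent.ESH.DefsB
import Pool.Agent.Helper11.FunFieldBasic

/-!
# ESH / BKD: constants

`bkd_closed`: let `z ∈ F` be algebraic over `K`.  Its image in `Φ` is algebraic over `C`, so equals a constant `c ∈ C`; then
`1, z` are linearly dependent over `C`, so (`disj`) linearly dependent over `K`, so `z ∈ K`.
`bkd_ker`: if `D f = 0` and `f` is transcendental over `K`, then `F` is algebraic over `K(f)`
(`FunField.isAlgebraic_adjoin`), `D` vanishes on `K(f)`, so on `F` (characteristic zero: apply `D` to a minimal equation),
contradicting `D ≠ 0`.  So `f` is algebraic over `K`, hence in `K` by hypothesis.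
-/

namespace Pool.Agent.ESH

open Pool.Agent.Helper11

theorem bkd_closed {K F C Φ : Type*} [Field K] [Field F] [Field C] [Field Φ] [Algebra K F] [Algebra K C]
    [Algebra F Φ] [Algebra C Φ] [IsAlgClosed C] (h : Cmps K F C Φ) (z : F) (hz : IsAlgebraic K z) :
    z ∈ Set.range (algebraMap K F) := by
  have hZ : ∃ c : C, algebraMap C Φ c = algebraMap F Φ z := by
    obtain ⟨p, hp0, hp⟩ := hz
    have h1 : IsAlgebraic C (algebraMap F Φ z) := by
      refine ⟨p.map (algebraMap K C), (Polynomial.map_ne_zero_iff (algebraMap K C).injective).2 hp0, ?_⟩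
      rw [Polynomial.aeval_def, Polynomial.eval₂_map]
      have h2 : (algebraMap C Φ).comp (algebraMap K C) = (algebraMap F Φ).comp (algebraMap K F) := by
        ext x
        exact (h.comm x).symm
      rw [h2, ← Polynomial.hom_eval₂, ← Polynomial.aeval_def, hp, map_zero]
    have h3 := minpoly.mem_range_of_degree_eq_one C (algebraMap F Φ z)
      (IsAlgClosed.degree_eq_one_of_irreducible C (minpoly.irreducible h1.isIntegral))
    exact h3
  obtain ⟨c, hc⟩ := hZ
  by_contra hne
  have hlin : LinearIndependent K ![(1 : F), z] := by
    rw [LinearIndependent.pair_iff]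
    intro s t hst
    have ht : t = 0 := by
      by_contra ht
      apply hne
      refine ⟨-s / t, ?_⟩
      rw [Algebra.smul_def, Algebra.smul_def, mul_one] at hst
      have ht' : algebraMap K F t ≠ 0 := (map_ne_zero _).2 ht
      rw [map_div₀, map_neg, div_eq_iff ht', mul_comm]
      linear_combination -hst
    refine ⟨?_, ht⟩
    rw [ht, zero_smul, add_zero, Algebra.smul_def, mul_one] at hst
    exact (map_eq_zero _).1 hst
  have h4 := h.disj 2 _ hlin
  have h5 : (fun i => algebraMap F Φ (![(1 : F), z] i)) = ![(1 : Φ), algebraMap F Φ z] := by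
    funext i
    fin_cases i <;> simp
  rw [h5, LinearIndependent.pair_iff] at h4
  have h6 := h4 c (-1) (by rw [Algebra.smul_def, mul_one, hc, neg_smul, one_smul, add_neg_cancel])
  exact one_ne_zero (neg_eq_zero.1 h6.2)

theorem bkd_ker {K F : Type*} [Field K] [CharZero K] [Field F] [Algebra K F] [FunField K F]
    (hcl : ∀ z : F, IsAlgebraic K z → z ∈ Set.range (algebraMap K F)) (D : Derivation K F F)
    (hD : D ≠ 0) (f : F) (hf : D f = 0) : f ∈ Set.range (algebraMap K F) := by
  apply hcl
  by_contra htr
  have halg := FunField.isAlgebraic_adjoin (k := K) (L := F) (x := f) htr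
  apply hD
  have hE : ∀ x ∈ IntermediateField.adjoin K {f}, D x = 0 := by
    intro x hx
    induction hx using IntermediateField.adjoin_induction with
    | mem x hx =>
      rw [Set.mem_singleton_iff] at hx
      rw [hx, hf]
    | algebraMap x => exact D.map_algebraMap x
    | add x y _ _ hx hy => rw [map_add, hx, hy, add_zero]
    | inv x _ hx => rw [Derivation.leibniz_inv, hx, smul_zero]
    | mul x y _ _ hx hy => rw [Derivation.leibniz, hx, hy, smul_zero, smul_zero, add_zero]
  let D' : Derivation (IntermediateField.adjoin K {f}) F F :=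
    { toFun := D
      map_add' := map_add D
      map_smul' := by
        intro c x
        rw [RingHom.id_apply, Algebra.smul_def, Derivation.leibniz, smul_eq_mul, smul_eq_mul]
        have h1 : D (algebraMap (IntermediateField.adjoin K {f}) F c) = 0 := hE _ c.2
        rw [h1, mul_zero, add_zero, Algebra.smul_def]
      map_one_eq_zero' := D.map_one_eq_zero
      leibniz' := D.leibniz }
  ext y
  have hy : IsAlgebraic (IntermediateField.adjoin K {f}) y := halg.isAlgebraic y
  have hsep := (minpoly.irreducible hy.isIntegral).separable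
  have h1 := hsep.aeval_derivative_ne_zero (minpoly.aeval (IntermediateField.adjoin K {f}) y)
  have h2 := D'.map_aeval (minpoly (IntermediateField.adjoin K {f}) y) y
  rw [minpoly.aeval, map_zero, smul_eq_mul] at h2
  have h3 : D' y = 0 := (mul_eq_zero.1 h2.symm).resolve_left h1
  exact h3

end Pool.Agent.ESH
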