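import Pool.Agent.ESH.BLM

/-!
# ESH / BLD: residual linear disjointness

Proof.  Let `k₀` be the (finite) residue field of `O`, `κ₀` that of `W₀`, `k` that of `V`, all contained in the residue field `κ` of `W`
(`WF`, `WC`).  `k₀` is algebraically closed in `κ₀` (`geom`), and `k` is algebraic over `k₀`: for `z ∈ V` take a primitive
polynomial `q ∈ O[X]` with `q(z) = 0` (`C` algebraic over `K`; scale the coefficients), reduce.  Suppose `∑ c̄_i ē_i = 0` in `κ` with
`c̄_i ∈ k` not all zero and `ē_i ∈ κ₀` linearly independent over `k₀`.  Let `k₁ = k₀(c̄_1, ..., c̄_n) = k₀(θ)` (finite, perfect base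
field), `p` the minimal polynomial of `θ` over `k₀`, of degree `d`.  `p` stays irreducible over `κ₀`: the coefficients of a monic
factor are polynomials in its roots, which are roots of `p`, hence algebraic over `k₀`, so in `k₀`.  So `1, θ, ..., θ^(d-1)`
are linearly independent over `κ₀`; write `c̄_i = ∑_j a_ij θ^j`, `a_ij ∈ k₀`: `∑_i a_ij ē_i = 0` for all `j`, so all
`a_ij = 0`: contradiction.
-/

namespace Pool.Agent.ESH

open Pool.Agent.Helper11

open Polynomial in
private theorem bld_core {k₀ κ₀ κ : Type*} [Field k₀] [Finite k₀] [Field κ₀] [Field κ]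
    [Algebra k₀ κ₀] [Algebra κ₀ κ] [Algebra k₀ κ] [IsScalarTower k₀ κ₀ κ]
    (hcl : ∀ x : κ₀, IsIntegral k₀ x → x ∈ Set.range (algebraMap k₀ κ₀))
    {n : ℕ} (e : Fin n → κ₀) (he : LinearIndependent k₀ e) (c : Fin n → κ)
    (hc : ∀ i, IsIntegral k₀ (c i))
    (hs : ∑ i, c i * algebraMap κ₀ κ (e i) = 0) : ∀ i, c i = 0 := by
  classical
  have : FiniteDimensional k₀ (IntermediateField.adjoin k₀ (Set.range c)) :=
    IntermediateField.finiteDimensional_adjoin (by rintro x ⟨i, rfl⟩; exact hc i)
  obtain ⟨θ, hθ⟩ := Field.exists_primitive_element k₀ (IntermediateField.adjoin k₀ (Set.range c))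
  have hθi : IsIntegral k₀ θ := IsIntegral.of_finite k₀ θ
  have ht : IsIntegral k₀ (θ : κ) := by
    have := hθi.map (IntermediateField.val (IntermediateField.adjoin k₀ (Set.range c)))
    simpa using this
  have htκ : IsIntegral κ₀ (θ : κ) := ht.tower_top
  -- degrees
  have hdeg : (minpoly k₀ (θ : κ)).natDegree ≤ (minpoly κ₀ (θ : κ)).natDegree := by
    have hdvd : minpoly κ₀ (θ : κ) ∣ (minpoly k₀ (θ : κ)).map (algebraMap k₀ κ₀) :=
      minpoly.dvd_map_of_isScalarTower k₀ κ₀ (θ : κ)
    have hl := integralClosure.mem_lifts_of_monic_of_dvd_map κ₀ (minpoly.monic ht)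
      (minpoly.monic htκ) hdvd
    have hl2 : minpoly κ₀ (θ : κ) ∈ lifts (algebraMap k₀ κ₀) := by
      rw [lifts_iff_coeff_lifts] at hl ⊢
      intro m
      obtain ⟨y, hy⟩ := hl m
      rw [← hy]
      exact hcl _ y.2
    obtain ⟨g, hg, hgd, hgm⟩ := lifts_and_natDegree_eq_and_monic hl2 (minpoly.monic htκ)
    rw [← hgd]
    apply natDegree_le_of_dvd _ hgm.ne_zero
    apply minpoly.dvd
    have h1 : aeval (θ : κ) (g.map (algebraMap k₀ κ₀)) = 0 := by
      rw [hg]; exact minpoly.aeval _ _
    rwa [aeval_map_algebraMap] at h1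
  have hind := linearIndependent_pow (K := κ₀) (θ : κ)
  -- representation
  have hrep : ∀ i, ∃ q : k₀[X], q.natDegree < (minpoly k₀ (θ : κ)).natDegree ∧ c i = aeval (θ : κ) q := by
    intro i
    have hmem : (⟨c i, IntermediateField.subset_adjoin _ _ ⟨i, rfl⟩⟩ :
        IntermediateField.adjoin k₀ (Set.range c)) ∈ IntermediateField.adjoin k₀ {θ} := by
      rw [hθ]; exact IntermediateField.mem_top
    rw [← IntermediateField.mem_toSubalgebra,
      IntermediateField.adjoin_simple_toSubalgebra_of_isAlgebraic hθi.isAlgebraic,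
      Algebra.adjoin_singleton_eq_range_aeval] at hmem
    obtain ⟨q, hq⟩ := hmem
    have hq' : aeval (θ : κ) q = c i := by
      have h5 : aeval θ q = (⟨c i, IntermediateField.subset_adjoin _ _ ⟨i, rfl⟩⟩ :
        IntermediateField.adjoin k₀ (Set.range c)) := hq
      have h6 := aeval_algebraMap_apply κ θ q
      rw [h5] at h6
      exact h6
    refine ⟨q %ₘ minpoly k₀ (θ : κ), ?_, ?_⟩
    · apply natDegree_modByMonic_lt _ (minpoly.monic ht)
      exact minpoly.ne_one _ _
    · rw [← hq', aeval_modByMonic_eq_self_of_root (minpoly.aeval _ _)]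
  choose q hqd hq using hrep
  have hz : ∀ j : ℕ, ∑ i, algebraMap k₀ κ₀ ((q i).coeff j) * e i = 0 := by
    intro j
    by_cases hj : j < (minpoly κ₀ (θ : κ)).natDegree
    · have h2 := (Fintype.linearIndependent_iff.mp hind) (fun j => ∑ i, algebraMap k₀ κ₀ ((q i).coeff j) * e i) ?_ ⟨j, hj⟩
      · exact h2
      · rw [← hs]
        have h3 : ∀ i, c i = ∑ j : Fin (minpoly κ₀ (θ : κ)).natDegree,
            algebraMap κ₀ κ (algebraMap k₀ κ₀ ((q i).coeff j)) * (θ : κ) ^ (j : ℕ) := by
          intro i
          rw [hq i, aeval_eq_sum_range' (lt_of_lt_of_le (hqd i) hdeg), ← Fin.sum_univ_eq_sum_range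
            (fun j => (q i).coeff j • (θ : κ) ^ j)]
          apply Finset.sum_congr rfl
          intro j _
          rw [← IsScalarTower.algebraMap_apply, Algebra.smul_def]
        simp only [Algebra.smul_def, map_sum, map_mul, Finset.sum_mul]
        rw [Finset.sum_comm]
        apply Finset.sum_congr rfl
        intro i _
        rw [h3 i, Finset.sum_mul]
        apply Finset.sum_congr rfl
        intro j _
        ring
    · have h4 : ∀ i, (q i).coeff j = 0 := by
        intro i
        apply coeff_eq_zero_of_natDegree_lt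
        have := hqd i
        omega
      simp [h4]
  intro i
  have hcoef : ∀ j, (q i).coeff j = 0 := by
    intro j
    apply (Fintype.linearIndependent_iff.mp he) (fun i => (q i).coeff j) _ i
    simp only [Algebra.smul_def]
    exact hz j
  have hq0 : q i = 0 := by
    ext j
    rw [hcoef j, coeff_zero]
  rw [hq i, hq0, map_zero]

variable {O K F C Φ : Type*} [CommRing O] [IsDomain O] [IsDiscreteValuationRing O] [Field K] [CharZero K]
  [Algebra O K] [IsFractionRing O K] [Field F] [Algebra K F] [Algebra O F] [IsScalarTower O K F]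
  [FunField K F] [Field C] [CharZero C] [Algebra K C] [Algebra.IsAlgebraic K C] [IsAlgClosed C] [Field Φ]
  [Algebra F Φ] [Algebra C Φ] [Finite (IsLocalRing.ResidueField O)]

theorem bld {W₀ : ValuationSubring F} {pts₀ : Set (Subring F)} {V : ValuationSubring C}
    {W : ValuationSubring Φ} (E : BExt O K W₀ pts₀ V W) {n : ℕ} (e : Fin n → F) (he : ResInd O W₀ e)
    (c : Fin n → C) (hc : ∀ i, c i ∈ V)
    (hs : ∑ i, algebraMap C Φ (c i) * algebraMap F Φ (e i) ∈ W.nonunits) : ∀ i, c i ∈ V.nonunits := by
  classical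
  have hOmem : ∀ a : O, algebraMap O F a ∈ W₀ := fun a => by
    rw [IsScalarTower.algebraMap_apply O K F]
    exact (E.mdl.base _).mpr ⟨a, rfl⟩
  have hOinv : ∀ a : O, a ≠ 0 → (algebraMap O F a)⁻¹ ∈ W₀ → IsUnit a := by
    intro a ha h
    rw [IsScalarTower.algebraMap_apply O K F, ← map_inv₀] at h
    obtain ⟨d, hd⟩ := (E.mdl.base _).mp h
    have h0 : algebraMap O K a ≠ 0 := by
      intro h0
      exact ha ((IsFractionRing.injective O K) (by rw [h0, map_zero]))
    have h1 : a * d = 1 := by
      apply IsFractionRing.injective O K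
      rw [map_mul, hd, map_one, mul_inv_cancel₀ h0]
    exact IsUnit.of_mul_eq_one _ h1
  let iO : O →+* W₀ := (algebraMap O F).codRestrict W₀ hOmem
  let iF : W₀ →+* W := ((algebraMap F Φ).comp W₀.subtype).codRestrict W
    (fun f => (E.WF _).mpr f.2)
  have hO0 : ∀ a : O, algebraMap O F a = 0 → a = 0 := by
    intro a ha
    rw [IsScalarTower.algebraMap_apply O K F] at ha
    apply IsFractionRing.injective O K
    rw [map_zero]
    exact (map_eq_zero _).mp ha
  have hlO : IsLocalHom iO := ⟨fun a ha => by
    obtain ⟨b, hb⟩ := isUnit_iff_exists_inv.mp ha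
    have hb' : algebraMap O F a * (b : F) = 1 := congrArg Subtype.val hb
    have ha0 : a ≠ 0 := by
      rintro rfl
      rw [map_zero, zero_mul] at hb'
      exact zero_ne_one hb'
    apply hOinv a ha0
    rw [inv_eq_of_mul_eq_one_right hb']
    exact b.2⟩
  have hlF : IsLocalHom iF := ⟨fun f hf => by
    obtain ⟨b, hb⟩ := isUnit_iff_exists_inv.mp hf
    have hb' : algebraMap F Φ (f : F) * (b : Φ) = 1 := congrArg Subtype.val hb
    have hf0 : (f : F) ≠ 0 := by
      intro h0
      rw [h0, map_zero, zero_mul] at hb'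
      exact zero_ne_one hb'
    have h1 : (f : F)⁻¹ ∈ W₀ := by
      rw [← E.WF, map_inv₀, inv_eq_of_mul_eq_one_right hb']
      exact b.2
    exact IsUnit.of_mul_eq_one ⟨(f : F)⁻¹, h1⟩ (Subtype.ext (mul_inv_cancel₀ hf0))⟩
  letI : Algebra (IsLocalRing.ResidueField O) (IsLocalRing.ResidueField W₀) :=
    (IsLocalRing.ResidueField.map iO).toAlgebra
  letI : Algebra (IsLocalRing.ResidueField W₀) (IsLocalRing.ResidueField W) :=
    (IsLocalRing.ResidueField.map iF).toAlgebra
  letI : Algebra (IsLocalRing.ResidueField O) (IsLocalRing.ResidueField W) :=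
    ((IsLocalRing.ResidueField.map iF).comp (IsLocalRing.ResidueField.map iO)).toAlgebra
  have : IsScalarTower (IsLocalRing.ResidueField O) (IsLocalRing.ResidueField W₀)
    (IsLocalRing.ResidueField W) := IsScalarTower.of_algebraMap_eq' rfl
  have hmO : ∀ a : O, algebraMap (IsLocalRing.ResidueField O) (IsLocalRing.ResidueField W₀)
      (IsLocalRing.residue O a) = IsLocalRing.residue W₀ (iO a) := fun a => rfl
  have hmF : ∀ f : W₀, algebraMap (IsLocalRing.ResidueField W₀) (IsLocalRing.ResidueField W)
      (IsLocalRing.residue W₀ f) = IsLocalRing.residue W (iF f) := fun f => rfl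
  have hmOW : ∀ a : O, algebraMap (IsLocalRing.ResidueField O) (IsLocalRing.ResidueField W)
      (IsLocalRing.residue O a) = IsLocalRing.residue W (iF (iO a)) := fun a => rfl
  -- `geom`
  have hcl : ∀ x : IsLocalRing.ResidueField W₀, IsIntegral (IsLocalRing.ResidueField O) x →
      x ∈ Set.range (algebraMap (IsLocalRing.ResidueField O) (IsLocalRing.ResidueField W₀)) := by
    intro x hx
    obtain ⟨f, rfl⟩ := IsLocalRing.residue_surjective x
    obtain ⟨p, hp, hp0⟩ := hx
    have hl : p ∈ Polynomial.lifts (IsLocalRing.residue O) := by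
      rw [Polynomial.lifts_iff_coeff_lifts]
      intro m
      exact IsLocalRing.residue_surjective _
    obtain ⟨q, hq, -, hqm⟩ := Polynomial.lifts_and_natDegree_eq_and_monic hl hp
    have h1 : Polynomial.aeval (f : F) q ∈ W₀.nonunits := by
      have h2 : ((Polynomial.eval₂ iO f q : W₀) : F) = Polynomial.aeval (f : F) q := by
        have h3 := Polynomial.hom_eval₂ q iO W₀.subtype f
        exact h3
      rw [← h2, ValuationSubring.coe_mem_nonunits_iff, ← IsLocalRing.residue_eq_zero_iff,
        Polynomial.hom_eval₂]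
      rw [← hq, Polynomial.eval₂_map] at hp0
      exact hp0
    obtain ⟨a, ha⟩ := E.mdl.geom f f.2 ⟨q, hqm, h1⟩
    refine ⟨IsLocalRing.residue O a, ?_⟩
    rw [hmO]
    have h4 : f - iO a ∈ IsLocalRing.maximalIdeal W₀ := by
      rw [← ValuationSubring.coe_mem_nonunits_iff]
      exact ha
    rw [← IsLocalRing.residue_eq_zero_iff, map_sub, sub_eq_zero] at h4
    exact h4.symm
  -- linear independence
  have hlin : LinearIndependent (IsLocalRing.ResidueField O)
      (fun i => IsLocalRing.residue W₀ ⟨e i, he.1 i⟩) := by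
    rw [Fintype.linearIndependent_iff]
    intro g hg
    choose a ha using fun i => IsLocalRing.residue_surjective (g i)
    have h1 : ∑ i, algebraMap O F (a i) * e i ∈ W₀.nonunits := by
      have h2 : ((∑ i, iO (a i) * ⟨e i, he.1 i⟩ : W₀) : F) = ∑ i, algebraMap O F (a i) * e i := by
        have h3 := map_sum W₀.subtype (fun i => iO (a i) * ⟨e i, he.1 i⟩) Finset.univ
        exact h3
      rw [← h2, ValuationSubring.coe_mem_nonunits_iff, ← IsLocalRing.residue_eq_zero_iff, map_sum,
        ← hg]
      apply Finset.sum_congr rfl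
      intro i _
      rw [Algebra.smul_def, ← ha i, hmO, map_mul]
    intro i
    rw [← ha i, IsLocalRing.residue_eq_zero_iff]
    exact he.2 a h1 i
  -- integrality
  have hint : ∀ i, IsIntegral (IsLocalRing.ResidueField O)
      (IsLocalRing.residue W ⟨algebraMap C Φ (c i), (E.WC _).mpr (hc i)⟩) := by
    intro i
    letI : Algebra O C := ((algebraMap K C).comp (algebraMap O K)).toAlgebra
    have : IsScalarTower O K C := IsScalarTower.of_algebraMap_eq' rfl
    have hal : IsAlgebraic O (c i) :=
      (IsFractionRing.isAlgebraic_iff O K C).mpr (Algebra.IsAlgebraic.isAlgebraic (c i))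
    obtain ⟨q, hq0, hq⟩ := hal
    letI : NormalizedGCDMonoid O := Classical.choice inferInstance
    have hinjC : Function.Injective (algebraMap O C) := by
      rw [IsScalarTower.algebraMap_eq O K C]
      exact (algebraMap K C).injective.comp (IsFractionRing.injective O K)
    have hpp : Polynomial.aeval (c i) q.primPart = 0 := by
      have h1 : Polynomial.aeval (c i) q =
          algebraMap O C q.content * Polynomial.aeval (c i) q.primPart := by
        conv_lhs => rw [q.eq_C_content_mul_primPart]
        rw [map_mul, Polynomial.aeval_C]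
      rw [hq] at h1
      rcases mul_eq_zero.mp h1.symm with h2 | h2
      · exfalso
        apply hq0
        rw [← Polynomial.content_eq_zero_iff]
        exact hinjC (by rw [h2, map_zero])
      · exact h2
    have hprim := q.isPrimitive_primPart
    have hne : q.primPart.map (IsLocalRing.residue O) ≠ 0 := by
      intro h0
      obtain ⟨π, hπ⟩ := IsDiscreteValuationRing.exists_irreducible O
      have h1 : Polynomial.C π ∣ q.primPart := by
        rw [Polynomial.C_dvd_iff_dvd_coeff]
        intro m
        have h2 : IsLocalRing.residue O (q.primPart.coeff m) = 0 := by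
          rw [← Polynomial.coeff_map, h0, Polynomial.coeff_zero]
        rw [IsLocalRing.residue_eq_zero_iff, hπ.maximalIdeal_eq, Ideal.mem_span_singleton] at h2
        exact h2
      exact hπ.not_isUnit (hprim π h1)
    have halg : IsAlgebraic (IsLocalRing.ResidueField O)
        (IsLocalRing.residue W ⟨algebraMap C Φ (c i), (E.WC _).mpr (hc i)⟩) := by
      refine ⟨q.primPart.map (IsLocalRing.residue O), hne, ?_⟩
      have h1 : Polynomial.eval₂ (iF.comp iO) ⟨algebraMap C Φ (c i), (E.WC _).mpr (hc i)⟩
          q.primPart = 0 := by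
        apply Subtype.ext
        have h2 := Polynomial.hom_eval₂ q.primPart (iF.comp iO) W.subtype
          ⟨algebraMap C Φ (c i), (E.WC _).mpr (hc i)⟩
        have h3 : W.subtype.comp (iF.comp iO) = (algebraMap C Φ).comp (algebraMap O C) := by
          ext a
          show algebraMap F Φ (algebraMap O F a) = algebraMap C Φ (algebraMap K C (algebraMap O K a))
          rw [← E.cmp.comm, IsScalarTower.algebraMap_apply O K F]
        rw [h3] at h2
        have h4 := Polynomial.hom_eval₂ q.primPart (algebraMap O C) (algebraMap C Φ) (c i)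
        have h5 : Polynomial.eval₂ (algebraMap O C) (c i) q.primPart = 0 := hpp
        rw [h5, map_zero] at h4
        exact h2.trans h4.symm
      have h6 := Polynomial.hom_eval₂ q.primPart (iF.comp iO) (IsLocalRing.residue W)
        ⟨algebraMap C Φ (c i), (E.WC _).mpr (hc i)⟩
      rw [h1, map_zero] at h6
      rw [Polynomial.aeval_def, Polynomial.eval₂_map]
      exact h6.symm
    exact halg.isIntegral
  have hsum : ∑ i, IsLocalRing.residue W ⟨algebraMap C Φ (c i), (E.WC _).mpr (hc i)⟩ *
      algebraMap (IsLocalRing.ResidueField W₀) (IsLocalRing.ResidueField W)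
        (IsLocalRing.residue W₀ ⟨e i, he.1 i⟩) = 0 := by
    have h2 : ((∑ i, (⟨algebraMap C Φ (c i), (E.WC _).mpr (hc i)⟩ : W) * iF ⟨e i, he.1 i⟩ : W) : Φ)
        = ∑ i, algebraMap C Φ (c i) * algebraMap F Φ (e i) := by
      have h3 := map_sum W.subtype (fun i => (⟨algebraMap C Φ (c i), (E.WC _).mpr (hc i)⟩ : W) *
        iF ⟨e i, he.1 i⟩) Finset.univ
      exact h3
    rw [← h2, ValuationSubring.coe_mem_nonunits_iff, ← IsLocalRing.residue_eq_zero_iff,
      map_sum] at hs
    rw [← hs]
    apply Finset.sum_congr rfl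
    intro i _
    rw [hmF, map_mul]
  have key := bld_core hcl _ hlin _ hint hsum
  intro i
  have h1 := key i
  rw [IsLocalRing.residue_eq_zero_iff, ← ValuationSubring.coe_mem_nonunits_iff] at h1
  have h2 : algebraMap C Φ (c i) ∈ W.nonunits := h1
  rw [ValuationSubring.mem_nonunits_iff_or] at h2 ⊢
  rcases h2 with h2 | h2
  · left
    exact (map_eq_zero _).mp h2
  · right
    intro h3
    apply h2
    rw [← map_inv₀]
    exact (E.WC _).mpr h3

end Pool.Agent.ESH
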