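import Mathlib

/-!
# ESH / WRN: the Wronskian of linearly independent functions

Let the constants of the derivation `D` of `F` be `K`.  If `e_0, ..., e_{n-1}` are linearly independent over `K` then
`det (D^i e_j) ≠ 0`.

Proof.  Induct on `n`.  If the determinant vanishes there are `f_j ∈ F`, not all zero, with `∑_j f_j D^i e_j = 0` for `i < n`
(`Matrix.exists_mulVec_eq_zero_iff`).  By induction (for the first `n - 1` functions, and their first `n - 1` derivatives) the last
coefficient `f_{n-1}` is not zero; normalise it to `1`.  Differentiate the relations for `i < n - 1` and subtract the relation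
for `i + 1`: `∑_{j<n-1} D(f_j) D^i e_j = 0` for `i < n - 1`; by induction `D f_j = 0` for all `j`, so `f_j ∈ K`, and the
relation for `i = 0` contradicts the linear independence.
-/

namespace Pool.Agent.ESH

theorem wrn {K F : Type*} [Field K] [Field F] [Algebra K F] (D : Derivation K F F)
    (hker : ∀ f : F, D f = 0 → f ∈ Set.range (algebraMap K F)) {n : ℕ} (e : Fin n → F)
    (he : LinearIndependent K e) :
    (Matrix.of fun i j : Fin n => (⇑D)^[(i : ℕ)] (e j)).det ≠ 0 := by
  induction n with
  | zero =>
    rw [Matrix.det_isEmpty]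
    exact one_ne_zero
  | succ n ih =>
    intro hdet
    have he' : LinearIndependent K (fun j : Fin n => e j.castSucc) :=
      he.comp _ (Fin.castSucc_injective n)
    have hN := ih (fun j : Fin n => e j.castSucc) he'
    have hzero : ∀ g : Fin n → F, (∀ i : Fin n, ∑ j, (⇑D)^[(i : ℕ)] (e j.castSucc) * g j = 0) →
        g = 0 := by
      intro g hg
      by_contra hne
      apply hN
      rw [← Matrix.exists_mulVec_eq_zero_iff]
      refine ⟨g, hne, ?_⟩
      funext i
      rw [Matrix.mulVec, Pi.zero_apply]
      exact hg i
    obtain ⟨v, hv0, hv⟩ := Matrix.exists_mulVec_eq_zero_iff.2 hdet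
    have hv' : ∀ i : Fin (n + 1), ∑ j, (⇑D)^[(i : ℕ)] (e j) * v j = 0 := by
      intro i
      have := congrFun hv i
      rw [Matrix.mulVec, Pi.zero_apply] at this
      exact this
    have hlast : v (Fin.last n) ≠ 0 := by
      intro h0
      apply hv0
      have h1 : (fun j : Fin n => v j.castSucc) = 0 := by
        apply hzero
        intro i
        have := hv' i.castSucc
        rw [Fin.sum_univ_castSucc, h0, mul_zero, add_zero] at this
        exact this
      funext j
      refine Fin.lastCases ?_ (fun k => ?_) j
      · exact h0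
      · exact congrFun h1 k
    obtain ⟨f, hf⟩ : ∃ f : Fin (n + 1) → F, ∀ j, f j = v j / v (Fin.last n) := ⟨_, fun _ => rfl⟩
    have hflast : f (Fin.last n) = 1 := by rw [hf, div_self hlast]
    have hrel : ∀ i : Fin (n + 1), ∑ j, (⇑D)^[(i : ℕ)] (e j) * f j = 0 := by
      intro i
      have h1 : ∑ j, (⇑D)^[(i : ℕ)] (e j) * f j =
          (∑ j, (⇑D)^[(i : ℕ)] (e j) * v j) / v (Fin.last n) := by
        rw [Finset.sum_div]
        refine Finset.sum_congr rfl (fun j _ => ?_)
        rw [hf, mul_div_assoc]
      rw [h1, hv', zero_div]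
    have hD : (fun j : Fin n => D (f j.castSucc)) = 0 := by
      apply hzero
      intro i
      have h1 := congrArg D (hrel i.castSucc)
      rw [map_zero, map_sum] at h1
      have h2 : ∀ j, D ((⇑D)^[((i.castSucc : Fin (n + 1)) : ℕ)] (e j) * f j) =
          (⇑D)^[(i : ℕ)] (e j) * D (f j) + (⇑D)^[((i.succ : Fin (n + 1)) : ℕ)] (e j) * f j := by
        intro j
        rw [Derivation.leibniz, smul_eq_mul, smul_eq_mul, Fin.val_succ, Function.iterate_succ_apply',
          Fin.val_castSucc]
        ring
      rw [Finset.sum_congr rfl (fun j _ => h2 j), Finset.sum_add_distrib, hrel i.succ, add_zero,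
        Fin.sum_univ_castSucc, hflast, Derivation.map_one_eq_zero, mul_zero, add_zero] at h1
      exact h1
    have hK : ∀ j, ∃ c : K, f j = algebraMap K F c := by
      intro j
      refine Fin.lastCases ?_ (fun k => ?_) j
      · exact ⟨1, by rw [hflast, map_one]⟩
      · obtain ⟨c, hc⟩ := hker _ (congrFun hD k)
        exact ⟨c, hc.symm⟩
    choose c hc using hK
    have h0 := hrel 0
    rw [Fin.val_zero, Function.iterate_zero] at h0
    have h1 : ∑ j, c j • e j = 0 := by
      rw [← h0]
      refine Finset.sum_congr rfl (fun j _ => ?_)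
      rw [hc j, id_eq, Algebra.smul_def, mul_comm]
    have h2 := Fintype.linearIndependent_iff.1 he c h1 (Fin.last n)
    have h3 := hc (Fin.last n)
    rw [h2, map_zero, hflast] at h3
    exact one_ne_zero h3

end Pool.Agent.ESH
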