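import Pool.Agent.ESH.BKD
import Pool.Agent.ESH.WRN

/-!
# ESH / BLM: residually independent generators

Let `R ⊆ W₀` be a subring containing `O` and saturated (`a ∈ R`, `a/c ∈ W₀` imply `a/c ∈ R` for `c ∈ O`, `c ≠ 0`).  Every finite
subset `X` of `R` is contained in the `O`-span of a residually independent finite family of elements of `R`.

Proof.  Let `U` be the `K`-span of `X`, `f_1, ..., f_d` a `K`-basis of `U` consisting of elements of `W₀` (scale by constants), `D` the
derivation of `IsBMdl.der` (`D(W₀) ⊆ W₀`), whose constants are `K` (BKD), `w = det(D^i f_j) ≠ 0` (WRN).  `M = U ∩ R` is an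
`O`-module.  If `f = ∑ c_j f_j ∈ M`, `c_j ∈ K`, then `D^i f ∈ W₀` and by Cramer's rule `c_j w ∈ W₀`.  As `w = c u`, `c ∈ K`, `u` a unit of
`W₀` (`scale`), `c_j c ∈ O` (`base`).  So `M ⊆ c⁻¹ ⊕ O f_j` is finitely generated (`O` noetherian), torsion-free, hence free
over the discrete valuation ring `O`: let `e` be a basis.  `X ⊆ M` is in its span.  Residual independence: if
`∑ c_i e_i ∈ W₀.nonunits`, `c_i ∈ O`, and `π` is a uniformiser of `O`, then `(∑ c_i e_i)/π ∈ W₀` (by `scale` the element is
`c u` with `c ∈ K`, `u` a unit of `W₀`; `c ∈ O` is a non-unit, so divisible by `π`), so it is in `R` (saturation) and in `M`,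
so by uniqueness of coordinates (a basis of `M` is linearly independent over `K`) `c_i/π ∈ O`.
`resInd_lin`: residually independent families are linearly independent over `K` (scale a relation).
-/

namespace Pool.Agent.ESH

open Pool.Agent.Helper11

variable {O K F : Type*} [CommRing O] [IsDomain O] [IsDiscreteValuationRing O] [Field K] [CharZero K]
  [Algebra O K] [IsFractionRing O K] [Field F] [Algebra K F] [Algebra O F] [IsScalarTower O K F]
  [FunField K F]

private theorem nonunit_div {W₀ : ValuationSubring F} {pts₀ : Set (Subring F)}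
    (h : IsBMdl O K W₀ pts₀) {π : O} (hπ : Irreducible π) {s : F} (hs : s ∈ W₀.nonunits) :
    s / algebraMap O F π ∈ W₀ := by
  have hinj : Function.Injective (algebraMap O F) := by
    rw [IsScalarTower.algebraMap_eq O K F]
    exact (algebraMap K F).injective.comp (IsFractionRing.injective O K)
  have hπ0 : algebraMap O F π ≠ 0 := by
    rw [Ne, ← map_zero (algebraMap O F)]
    exact fun h0 => hπ.ne_zero (hinj h0)
  by_cases hs0 : s = 0
  · rw [hs0, zero_div]
    exact W₀.zero_mem
  obtain ⟨κ, hκ0, h1, h2⟩ := h.scale s hs0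
  have hκF : algebraMap K F κ ≠ 0 := (map_ne_zero _).2 hκ0
  have h3 : algebraMap K F κ ∈ W₀.nonunits := by
    have e : algebraMap K F κ = s * (algebraMap K F κ / s) := by field_simp
    rw [e, ValuationSubring.mem_nonunits_iff, map_mul]
    rw [ValuationSubring.mem_nonunits_iff] at hs
    have h4 := (W₀.valuation_le_one_iff _).2 h2
    exact mul_lt_one_of_lt_of_le hs h4
  have h3' : algebraMap K F κ ∈ W₀ := ValuationSubring.nonunits_subset h3
  obtain ⟨o, ho⟩ := (h.base κ).1 h3'
  have hou : o ∈ IsLocalRing.maximalIdeal O := by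
    rw [IsLocalRing.mem_maximalIdeal, mem_nonunits_iff]
    intro hu
    obtain ⟨o', ho'⟩ := hu.exists_right_inv
    rw [ValuationSubring.mem_nonunits_iff_or] at h3
    rcases h3 with h3 | h3
    · exact hκF h3
    · apply h3
      have e : (algebraMap K F κ)⁻¹ = algebraMap K F (algebraMap O K o') := by
        rw [← map_inv₀]
        congr 1
        rw [inv_eq_iff_eq_inv, eq_comm]
        apply inv_eq_of_mul_eq_one_left
        rw [← ho, ← map_mul, ho', map_one]
      rw [e]
      exact (h.base _).2 ⟨o', rfl⟩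
  rw [hπ.maximalIdeal_eq, Ideal.mem_span_singleton] at hou
  obtain ⟨o', rfl⟩ := hou
  have e : s / algebraMap O F π = (s / algebraMap K F κ) * algebraMap K F (algebraMap O K o') := by
    rw [← ho, map_mul, map_mul, ← IsScalarTower.algebraMap_apply O K F,
      ← IsScalarTower.algebraMap_apply O K F]
    have h5 : algebraMap O F o' ≠ 0 := by
      intro h0
      apply hκF
      rw [← ho, map_mul, map_mul, ← IsScalarTower.algebraMap_apply O K F o', h0, mul_zero]
    field_simp
  rw [e]
  exact W₀.mul_mem _ _ h1 ((h.base _).2 ⟨o', rfl⟩)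

private theorem coord_bound {W₀ : ValuationSubring F} {d : ℕ} (D : Derivation K F F)
    (hD : ∀ f ∈ W₀, D f ∈ W₀) (f : Fin d → F) (hf : ∀ j, f j ∈ W₀) (c : Fin d → K)
    (hx : ∑ j, algebraMap K F (c j) * f j ∈ W₀) (j : Fin d) :
    (Matrix.of fun i j : Fin d => (⇑D)^[(i : ℕ)] (f j)).det * algebraMap K F (c j) ∈ W₀ := by
  have hDi : ∀ (i : ℕ) (g : F), g ∈ W₀ → (⇑D)^[i] g ∈ W₀ := by
    intro i
    induction i with
    | zero => intro g hg; exact hg
    | succ i ih =>
      intro g hg
      rw [Function.iterate_succ_apply']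
      exact hD _ (ih g hg)
  have hDx : ∀ i : ℕ, (⇑D)^[i] (∑ j, algebraMap K F (c j) * f j) =
      ∑ j, (⇑D)^[i] (f j) * algebraMap K F (c j) := by
    intro i
    induction i with
    | zero =>
      rw [Function.iterate_zero, id_eq]
      exact Finset.sum_congr rfl (fun j _ => by rw [id_eq, mul_comm])
    | succ i ih =>
      rw [Function.iterate_succ_apply', ih, map_sum]
      refine Finset.sum_congr rfl (fun j _ => ?_)
      rw [Derivation.leibniz, Derivation.map_algebraMap, smul_zero, zero_add, smul_eq_mul,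
        Function.iterate_succ_apply', mul_comm]
  set A : Matrix (Fin d) (Fin d) F := Matrix.of fun i j : Fin d => (⇑D)^[(i : ℕ)] (f j) with hA
  set A₀ : Matrix (Fin d) (Fin d) W₀ :=
    Matrix.of fun i j : Fin d => ⟨(⇑D)^[(i : ℕ)] (f j), hDi _ _ (hf j)⟩ with hA₀
  have hAA : A = W₀.subtype.mapMatrix A₀ := by
    ext i j
    rfl
  have hadj : ∀ i k, A.adjugate i k ∈ W₀ := by
    intro i k
    rw [hAA, ← RingHom.map_adjugate]
    exact (A₀.adjugate i k).2
  have hmul : A.adjugate.mulVec (A.mulVec (fun j => algebraMap K F (c j))) =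
      A.det • (fun j => algebraMap K F (c j)) := by
    rw [Matrix.mulVec_mulVec, Matrix.adjugate_mul, Matrix.smul_mulVec, Matrix.one_mulVec]
  have hj := congrFun hmul j
  rw [Pi.smul_apply, smul_eq_mul] at hj
  rw [← hj, Matrix.mulVec]
  apply sum_mem
  intro k _
  apply W₀.mul_mem _ _ (hadj j k)
  have : A.mulVec (fun j => algebraMap K F (c j)) k = (⇑D)^[(k : ℕ)] (∑ j, algebraMap K F (c j) * f j) := by
    rw [hDx, Matrix.mulVec]
    rfl
  rw [this]
  exact hDi _ _ hx

theorem blm {W₀ : ValuationSubring F} {pts₀ : Set (Subring F)} (h : IsBMdl O K W₀ pts₀)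
    (hcl : ∀ z : F, IsAlgebraic K z → z ∈ Set.range (algebraMap K F)) (R : Subring F)
    (hR : ∀ a ∈ R, a ∈ W₀) (hO : ∀ c : O, algebraMap O F c ∈ R)
    (hs : ∀ c : O, c ≠ 0 → ∀ a ∈ R, a / algebraMap O F c ∈ W₀ → a / algebraMap O F c ∈ R)
    (X : Finset F) (hX : ∀ x ∈ X, x ∈ R) :
    ∃ (n : ℕ) (e : Fin n → F), (∀ i, e i ∈ R) ∧ ResInd O W₀ e ∧
      ∀ x ∈ X, ∃ c : Fin n → O, x = ∑ i, algebraMap O F (c i) * e i := by
  classical
  have hinj : Function.Injective (algebraMap O F) := by
    rw [IsScalarTower.algebraMap_eq O K F]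
    exact (algebraMap K F).injective.comp (IsFractionRing.injective O K)
  obtain ⟨D, hD0, hDW⟩ := h.der
  set U : Submodule K F := Submodule.span K (X : Set F) with hU
  have hUfin : FiniteDimensional K U := FiniteDimensional.span_finset K X
  obtain ⟨d, bU⟩ : ∃ d : ℕ, Nonempty (Module.Basis (Fin d) K U) :=
    ⟨_, ⟨Module.finBasis K U⟩⟩
  obtain ⟨b⟩ := bU
  have hb0 : ∀ j, (b j : F) ≠ 0 := fun j h0 => b.ne_zero j (Subtype.ext h0)
  choose κ hκ0 hκ1 hκ2 using fun j => h.scale (b j : F) (hb0 j)
  obtain ⟨f, hf⟩ : ∃ f : Fin d → F, ∀ j, f j = (b j : F) / algebraMap K F (κ j) := ⟨_, fun _ => rfl⟩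
  have hfW : ∀ j, f j ∈ W₀ := fun j => by rw [hf]; exact hκ1 j
  have hbf : ∀ j, (b j : F) = algebraMap K F (κ j) * f j := fun j => by
    have : algebraMap K F (κ j) ≠ 0 := (map_ne_zero _).2 (hκ0 j)
    rw [hf]
    field_simp
  have hblin : LinearIndependent K (fun j => (b j : F)) :=
    b.linearIndependent.map' U.subtype U.ker_subtype
  have hflin : LinearIndependent K f := by
    rw [Fintype.linearIndependent_iff] at hblin ⊢
    intro g hg j
    have h1 := hblin (fun j => g j * (κ j)⁻¹) ?_ j
    · exact (mul_eq_zero.1 h1).resolve_right (inv_ne_zero (hκ0 j))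
    · rw [← hg]
      refine Finset.sum_congr rfl (fun j _ => ?_)
      have : algebraMap K F (κ j) ≠ 0 := (map_ne_zero _).2 (hκ0 j)
      rw [hbf, Algebra.smul_def, Algebra.smul_def, map_mul, map_inv₀]
      field_simp
  have hw := wrn D (fun g hg => bkd_ker hcl D hD0 g hg) f hflin
  obtain ⟨δ, hδ0, hδ1, hδ2⟩ := h.scale _ hw
  have hδF : algebraMap K F δ ≠ 0 := (map_ne_zero _).2 hδ0
  -- the module `U ∩ R`
  let M : Submodule O F :=
    { carrier := {x | x ∈ R ∧ x ∈ U}
      add_mem' := fun ha hb => ⟨R.add_mem ha.1 hb.1, U.add_mem ha.2 hb.2⟩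
      zero_mem' := ⟨R.zero_mem, U.zero_mem⟩
      smul_mem' := by
        intro c x hx
        rw [Algebra.smul_def]
        refine ⟨R.mul_mem (hO c) hx.1, ?_⟩
        rw [IsScalarTower.algebraMap_apply O K F, ← Algebra.smul_def]
        exact U.smul_mem _ hx.2 }
  have hMmem : ∀ x, x ∈ M ↔ x ∈ R ∧ x ∈ U := fun x => Iff.rfl
  let N : Submodule O F := Submodule.span O (Set.range fun j => (algebraMap K F δ)⁻¹ * f j)
  have hMN : M ≤ N := by
    intro x hx
    rw [hMmem] at hx
    obtain ⟨hxR, hxU⟩ := hx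
    -- coordinates
    obtain ⟨c, hc⟩ : ∃ c : Fin d → K, x = ∑ j, algebraMap K F (c j) * f j := by
      refine ⟨fun j => b.repr ⟨x, hxU⟩ j * κ j, ?_⟩
      have h1 : ((∑ i, b.repr ⟨x, hxU⟩ i • b i : U) : F) = x :=
        congrArg Subtype.val (b.sum_repr ⟨x, hxU⟩)
      rw [Submodule.coe_sum] at h1
      refine h1.symm.trans (Finset.sum_congr rfl (fun j _ => ?_))
      rw [Submodule.coe_smul, hbf, Algebra.smul_def, map_mul, mul_assoc]
    have hxW := hR x hxR
    rw [hc] at hxW
    have hcO : ∀ j, ∃ o : O, algebraMap O K o = δ * c j := by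
      intro j
      have h1 := coord_bound D hDW f hfW c hxW j
      have h2 : algebraMap K F (δ * c j) ∈ W₀ := by
        have h3 := W₀.mul_mem _ _ hδ2 h1
        have e : algebraMap K F (δ * c j) = algebraMap K F δ /
            (Matrix.of fun i j : Fin d => (⇑D)^[(i : ℕ)] (f j)).det *
            ((Matrix.of fun i j : Fin d => (⇑D)^[(i : ℕ)] (f j)).det * algebraMap K F (c j)) := by
          rw [map_mul]
          field_simp
        rw [e]
        exact h3
      obtain ⟨o, ho⟩ := (h.base _).1 h2
      exact ⟨o, ho⟩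
    choose o ho using hcO
    have hx' : x = ∑ j, o j • ((algebraMap K F δ)⁻¹ * f j) := by
      rw [hc]
      refine Finset.sum_congr rfl (fun j _ => ?_)
      rw [Algebra.smul_def, IsScalarTower.algebraMap_apply O K F, ho, map_mul]
      field_simp
    rw [hx']
    exact Submodule.sum_mem _ (fun j _ => Submodule.smul_mem _ _ (Submodule.subset_span ⟨j, rfl⟩))
  have hNn : IsNoetherian O N := isNoetherian_span_of_finite O (Set.finite_range _)
  have hMfg : M.FG := isNoetherian_submodule.1 hNn M hMN
  have hMf : Module.Finite O M := Module.Finite.iff_fg.2 hMfg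
  have : Module.IsTorsionFree O F := by
    rw [Module.isTorsionFree_iff_algebraMap_injective]
    exact hinj
  have : Module.Free O M := Module.free_of_finite_type_torsion_free'
  obtain ⟨n, ⟨e'⟩⟩ : ∃ n : ℕ, Nonempty (Module.Basis (Fin n) O M) := ⟨_, ⟨Module.finBasis O M⟩⟩
  have hsum : ∀ c : Fin n → O, ((∑ i, c i • e' i : M) : F) = ∑ i, algebraMap O F (c i) * (e' i : F) := by
    intro c
    rw [Submodule.coe_sum]
    exact Finset.sum_congr rfl (fun i _ => by rw [Submodule.coe_smul, Algebra.smul_def])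
  refine ⟨n, fun i => (e' i : F), fun i => ((hMmem _).1 (e' i).2).1, ⟨fun i => hR _ ((hMmem _).1 (e' i).2).1, ?_⟩, ?_⟩
  · intro c hc i
    obtain ⟨π, hπ⟩ := IsDiscreteValuationRing.exists_irreducible O
    have hπF : algebraMap O F π ≠ 0 := by
      rw [Ne, ← map_zero (algebraMap O F)]
      exact fun h0 => hπ.ne_zero (hinj h0)
    have h1 := nonunit_div h hπ hc
    rw [← hsum] at h1
    have hsM := (∑ i, c i • e' i : M).2
    rw [hMmem] at hsM
    have h2 := hs π hπ.ne_zero _ hsM.1 h1
    have h3 : ((∑ i, c i • e' i : M) : F) / algebraMap O F π ∈ M := by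
      rw [hMmem]
      refine ⟨h2, ?_⟩
      rw [IsScalarTower.algebraMap_apply O K F, div_eq_inv_mul, ← map_inv₀, ← Algebra.smul_def]
      exact U.smul_mem _ hsM.2
    have h4 : (∑ i, c i • e' i : M) = π • (⟨_, h3⟩ : M) := by
      apply Subtype.ext
      rw [Submodule.coe_smul, Algebra.smul_def, mul_div_cancel₀ _ hπF]
    have h5 : e'.repr (∑ i, c i • e' i) i = π * e'.repr (⟨_, h3⟩ : M) i := by
      have h7 := congrArg (fun z => e'.repr z i) h4
      simp only [map_smul, Finsupp.smul_apply, smul_eq_mul] at h7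
      exact h7
    have h6 : e'.repr (∑ i, c i • e' i) i = c i := by
      rw [e'.repr_sum_self]
    rw [hπ.maximalIdeal_eq, Ideal.mem_span_singleton]
    exact ⟨_, h6.symm.trans h5⟩
  · intro x hx
    have hxM : x ∈ M := (hMmem _).2 ⟨hX x hx, Submodule.subset_span hx⟩
    refine ⟨fun i => e'.repr ⟨x, hxM⟩ i, ?_⟩
    rw [← hsum, e'.sum_repr]

theorem resInd_lin {W₀ : ValuationSubring F} {pts₀ : Set (Subring F)} (h : IsBMdl O K W₀ pts₀)
    {n : ℕ} (e : Fin n → F) (he : ResInd O W₀ e) : LinearIndependent K e := by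
  rw [← LinearIndependent.iff_fractionRing (R := O) (K := K), Fintype.linearIndependent_iff]
  have hinj : Function.Injective (algebraMap O F) := by
    rw [IsScalarTower.algebraMap_eq O K F]
    exact (algebraMap K F).injective.comp (IsFractionRing.injective O K)
  obtain ⟨π, hπ⟩ := IsDiscreteValuationRing.exists_irreducible O
  have hπF : algebraMap O F π ≠ 0 := by
    rw [Ne, ← map_zero (algebraMap O F)]
    exact fun h0 => hπ.ne_zero (hinj h0)
  have key : ∀ k : ℕ, ∀ c : Fin n → O, ∑ i, algebraMap O F (c i) * e i = 0 →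
      ∀ i, c i ∈ IsLocalRing.maximalIdeal O ^ k := by
    intro k
    induction k with
    | zero => intro c _ i; simp
    | succ k ih =>
      intro c hc
      have h1 : ∀ i, c i ∈ IsLocalRing.maximalIdeal O := by
        apply he.2
        rw [hc]
        exact W₀.nonunits.zero_mem
      have h2 : ∀ i, ∃ d : O, c i = π * d := by
        intro i
        have := h1 i
        rw [hπ.maximalIdeal_eq, Ideal.mem_span_singleton] at this
        exact this
      choose d hd using h2
      have h3 : ∑ i, algebraMap O F (d i) * e i = 0 := by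
        have h4 : algebraMap O F π * ∑ i, algebraMap O F (d i) * e i = 0 := by
          rw [← hc, Finset.mul_sum]
          refine Finset.sum_congr rfl (fun i _ => ?_)
          rw [hd i, map_mul, mul_assoc]
        exact (mul_eq_zero.1 h4).resolve_left hπF
      intro i
      rw [hd i, pow_succ']
      refine Ideal.mul_mem_mul ?_ (ih d h3 i)
      rw [hπ.maximalIdeal_eq]
      exact Ideal.mem_span_singleton_self π
  intro c hc i
  have h1 : ∑ i, algebraMap O F (c i) * e i = 0 := by
    rw [← hc]
    exact Finset.sum_congr rfl (fun i _ => by rw [Algebra.smul_def])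
  have h2 : c i ∈ ⨅ k : ℕ, IsLocalRing.maximalIdeal O ^ k := by
    rw [Ideal.mem_iInf]
    exact fun k => key k c h1 i
  rw [Ideal.iInf_pow_eq_bot_of_isLocalRing _ (IsLocalRing.maximalIdeal.isMaximal O).ne_top] at h2
  exact h2

end Pool.Agent.ESH
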