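import Pool.Agent.ESH.BEL
import Pool.Agent.ESH.MOB

/-!
# ESH / BLP: Belyi functions from covers branched over roots of an integral polynomial

Proof.  Apply BEL (`F = C`): `p`, `q`; `β = p(x)/q(x)` (`q(x) ≠ 0`, `x` transcendental; `β` is not constant since `p, q` are
coprime of degree `≥ 1`).  `ht β ≤ deg p * ht x` (poles of `β` are zeros of `q(x)`, because `deg p = deg q`: at poles of `x`
`β` has the value `lead p/lead q = 1`; and `ht (q(x)) = deg q * ht x` counts the poles of `q(x)`, equal in number to
its zeros), `ht x = card G` (`ht_eq_finrank`, BRA), `ht β = [Φ : C(β)]`.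
Let `P` be a place, `c ≠ 0, 1`.  If `P.ord x < 0`: `β` has value `1` at `P`, `P.ord (β - c) = 0`.  Otherwise let
`z = x(P)`.  If `q(z) = 0` then `p(z) ≠ 0`, `P.ord β < 0`, `P.ord (β - c) < 0`.  Let `q(z) ≠ 0`;
`β - c = (p - c q)(x)/q(x)`.  If `(p - c q)(z) ≠ 0` the order is `0`.  If `p(z) = c q(z) ≠ 0`: by BEL
`(p' q - p q')(z) ≠ 0`, so `(p - c q)'(z) = p'(z) - c q'(z) = (p' q - p q')(z)/q(z) ≠ 0`: `z` is a simple root of `p - c q`,
`P.ord (β - c) = P.ord (x - z)`, and `z` is not a branch point (`z` a root of `P` would give `p(z) q(z) = 0`), so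
`P.ord (x - z) ≤ 1`.
-/

namespace Pool.Agent.ESH

open Pool.Agent.Helper11 Polynomial IntermediateField

variable {C Φ : Type*} [Field C] [Field Φ] [Algebra C Φ] [FunField C Φ] [CharZero C] [IsAlgClosed C]

omit [FunField C Φ] [CharZero C] [IsAlgClosed C] in
/-- order of `R(x)` at a place where `x` has the value `z` and `R(z) ≠ 0` -/
private theorem blp_ord_zero (v : Place C Φ) {x : Φ} {z : C} (hx : x ∈ v.ge 0)
    (hz : x - algebraMap C Φ z ∈ v.ge 1) {R : C[X]} (hR : R.eval z ≠ 0) :
    aeval x R ≠ 0 ∧ v.ord (aeval x R) = 0 := by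
  obtain ⟨S, hS⟩ : (X - Polynomial.C z) ∣ R - Polynomial.C (R.eval z) := by
    rw [dvd_iff_isRoot]
    simp
  have h1 : R = (X - Polynomial.C z) * S + Polynomial.C (R.eval z) := by rw [← hS]; ring
  have h2 : aeval x R = (x - algebraMap C Φ z) * aeval x S + algebraMap C Φ (R.eval z) := by
    conv_lhs => rw [h1]
    simp
  have h3 : algebraMap C Φ (R.eval z) ≠ 0 := by
    intro h
    exact hR ((map_eq_zero _).mp h)
  have h4 : (x - algebraMap C Φ z) * aeval x S ∈ v.ge 1 := by
    have := v.mul_mem_ge hz (v.aeval_mem_ge_zero hx S)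
    simpa using this
  rw [h2]
  have h5 := v.ord_algebraMap (R.eval z)
  have h6 := v.ord_add_eq_right (x := (x - algebraMap C Φ z) * aeval x S) h3 (by
    rcases h4 with h | h
    · exact Or.inl h
    · right; rw [h5]; omega)
  rw [h5] at h6
  exact h6

omit [FunField C Φ] [CharZero C] [IsAlgClosed C] in
/-- order of `R(x)` at a place where `x` has the value `z` and `z` is a simple root of `R` -/
private theorem blp_ord_simple (v : Place C Φ) {x : Φ} {z : C} (hx : x ∈ v.ge 0)
    (hz : x - algebraMap C Φ z ∈ v.ge 1) (hne : x - algebraMap C Φ z ≠ 0) {R : C[X]}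
    (hR : R.eval z = 0) (hR' : (derivative R).eval z ≠ 0) :
    v.ord (aeval x R) = v.ord (x - algebraMap C Φ z) := by
  obtain ⟨S, hS⟩ : (X - Polynomial.C z) ∣ R := by
    rw [dvd_iff_isRoot]
    exact hR
  have h1 : S.eval z ≠ 0 := by
    intro h
    apply hR'
    rw [hS]
    simp [h]
  obtain ⟨h2, h3⟩ := blp_ord_zero v hx hz h1
  have h4 : aeval x R = (x - algebraMap C Φ z) * aeval x S := by
    rw [hS]
    simp
  rw [h4, v.ord_mul _ _ hne h2, h3, add_zero]

theorem blp (x : Φ) (hx : Transcendental C x) (P : ℤ[X]) (hP : P ≠ 0) (N A : ℕ)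
    (hdeg : P.natDegree ≤ N) (hA : ∀ i, |P.coeff i| ≤ (A : ℤ))
    (hroot : ∀ c : C, BrF x c → aeval c P = 0) :
    ∃ β : Φ, IsBelyi C β ∧
      Module.finrank C⟮β⟯ Φ ≤ Module.finrank C⟮x⟯ Φ * tw 20 (N + A + 16) := by
  obtain ⟨p₀, q₀, hcop₀, hp1, hpq, hlead, hbd, hz1, hz2⟩ := bel C P hP N A hdeg hA
  set p : C[X] := p₀.map (algebraMap ℚ C) with hp
  set q : C[X] := q₀.map (algebraMap ℚ C) with hq
  have hinj : Function.Injective (algebraMap ℚ C) := (algebraMap ℚ C).injective
  have evp : ∀ z : C, aeval z p₀ = p.eval z := fun z => by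
    rw [hp, eval_map, aeval_def]
  have evq : ∀ z : C, aeval z q₀ = q.eval z := fun z => by
    rw [hq, eval_map, aeval_def]
  have hcop : IsCoprime p q := hcop₀.map (mapRingHom (algebraMap ℚ C))
  have hpd : p.natDegree = p₀.natDegree := natDegree_map_eq_of_injective hinj _
  have hqd : q.natDegree = p₀.natDegree := by
    rw [hpq]; exact natDegree_map_eq_of_injective hinj _
  have hpl : p.leadingCoeff = q.leadingCoeff := by
    rw [hp, hq, leadingCoeff_map_of_injective hinj, leadingCoeff_map_of_injective hinj, hlead]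
  have hp0 : p ≠ 0 := by
    intro h
    rw [h, natDegree_zero] at hpd
    omega
  have hq0 : q ≠ 0 := by
    intro h
    rw [h, natDegree_zero] at hqd
    omega
  have hne : ∀ R : C[X], R ≠ 0 → aeval x R ≠ 0 := fun R hR h =>
    hx ⟨R, hR, h⟩
  have hxz : ∀ z : C, x - algebraMap C Φ z ≠ 0 := by
    intro z h
    apply hx
    rw [sub_eq_zero.mp h]
    exact isAlgebraic_algebraMap z
  have hpx := hne p hp0
  have hqx := hne q hq0
  -- `p - c q` for `c ≠ 1`
  have hRdeg : ∀ c : C, c ≠ 1 → p - Polynomial.C c * q ≠ 0 ∧ (p - Polynomial.C c * q).natDegree = p₀.natDegree := by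
    intro c hc
    have h1 : (p - Polynomial.C c * q).coeff p₀.natDegree = p.leadingCoeff * (1 - c) := by
      rw [coeff_sub, coeff_C_mul]
      have e1 : p.coeff p₀.natDegree = p.leadingCoeff := by rw [← hpd]; rfl
      have e2 : q.coeff p₀.natDegree = q.leadingCoeff := by rw [← hqd]; rfl
      rw [e1, e2, ← hpl]
      ring
    have h2 : (p - Polynomial.C c * q).coeff p₀.natDegree ≠ 0 := by
      rw [h1]
      exact mul_ne_zero (leadingCoeff_ne_zero.mpr hp0) (sub_ne_zero.mpr (Ne.symm hc))
    refine ⟨fun h => h2 (by rw [h, coeff_zero]), le_antisymm ?_ (le_natDegree_of_ne_zero h2)⟩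
    refine (natDegree_sub_le _ _).trans (max_le hpd.le ?_)
    exact (natDegree_C_mul_le _ _).trans hqd.le
  set β : Φ := aeval x p / aeval x q with hβ
  have hβ0 : β ≠ 0 := div_ne_zero hpx hqx
  have hβc : ∀ c : C, β - algebraMap C Φ c = aeval x (p - Polynomial.C c * q) / aeval x q := by
    intro c
    rw [hβ, eq_div_iff hqx, sub_mul, div_mul_cancel₀ _ hqx]
    simp
  have htr : Transcendental C β := by
    intro halg
    obtain ⟨c, hc⟩ := mem_range_of_isAlgebraic halg
    have h1 := hβc c
    rw [← hc, sub_self, eq_comm, div_eq_zero_iff] at h1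
    have h2 : p - Polynomial.C c * q = 0 := by
      by_contra h
      rcases h1 with h1 | h1
      · exact hne _ h h1
      · exact hqx h1
    have h3 : q ∣ p := ⟨Polynomial.C c, by rw [sub_eq_zero.mp h2]; ring⟩
    have h4 : IsUnit q := hcop.isUnit_of_dvd' h3 dvd_rfl
    have h5 := natDegree_eq_zero_of_isUnit h4
    omega
  refine ⟨β, ⟨htr, ?_⟩, ?_⟩
  · intro v c hc0 hc1
    obtain ⟨hR0, hRd⟩ := hRdeg c hc1
    rw [hβc c, v.ord_div (hne _ hR0) hqx]
    by_cases hvx : x ∈ v.ge 0
    · obtain ⟨z, hz⟩ := v.exists_residue hvx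
      by_cases hqz : q.eval z = 0
      · have hpz : p.eval z ≠ 0 := by
          intro hpz
          obtain ⟨a, b, hab⟩ := hcop
          have := congrArg (eval z) hab
          simp [hpz, hqz] at this
        have h1 : (p - Polynomial.C c * q).eval z ≠ 0 := by
          simpa [hqz] using hpz
        rw [(blp_ord_zero v hvx hz h1).2]
        have h2 : aeval x q ∈ v.ge 0 := v.aeval_mem_ge_zero hvx q
        have := v.le_ord_of_mem h2 hqx
        omega
      · rw [(blp_ord_zero v hvx hz hqz).2]
        by_cases hRz : (p - Polynomial.C c * q).eval z = 0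
        · have hpz : p.eval z = c * q.eval z := by
            have := hRz
            simp only [eval_sub, eval_mul, eval_C] at this
            exact sub_eq_zero.mp this
          have hpz0 : p.eval z ≠ 0 := by
            rw [hpz]
            exact mul_ne_zero hc0 hqz
          have hW : aeval z (derivative p₀ * q₀ - p₀ * derivative q₀) ≠ 0 := by
            rcases hz2 z with h | h | h
            · exact absurd (by rw [← evp]; exact h) hpz0
            · exact absurd (by rw [← evq]; exact h) hqz
            · exact h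
          have hW2 : (derivative p).eval z * q.eval z - p.eval z * (derivative q).eval z ≠ 0 := by
            intro h
            apply hW
            have e1 : aeval z (derivative p₀) = (derivative p).eval z := by
              rw [hp, derivative_map, eval_map, aeval_def]
            have e2 : aeval z (derivative q₀) = (derivative q).eval z := by
              rw [hq, derivative_map, eval_map, aeval_def]
            rw [map_sub, map_mul, map_mul, e1, e2, evp, evq]
            exact h
          have hR' : (derivative (p - Polynomial.C c * q)).eval z ≠ 0 := by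
            intro h
            apply hW2
            have h3 : (derivative p).eval z = c * (derivative q).eval z := by
              have := h
              simp only [derivative_sub, derivative_mul, derivative_C, zero_mul, zero_add, eval_sub,
                eval_mul, eval_C] at this
              exact sub_eq_zero.mp this
            rw [h3, hpz]
            ring
          rw [blp_ord_simple v hvx hz (hxz z) hRz hR']
          by_contra hcon
          push Not at hcon
          have h4 : BrF x z := ⟨v, by omega⟩
          rcases hz1 z (hroot z h4) with h | h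
          · exact hpz0 (by rw [← evp]; exact h)
          · exact hqz (by rw [← evq]; exact h)
        · rw [(blp_ord_zero v hvx hz hRz).2]
          norm_num
    · have hv : v.ord x < 0 := by
        rw [Place.mem_ge] at hvx
        push Not at hvx
        exact hvx.2
      rw [(v.ord_aeval hv hR0).2, (v.ord_aeval hv hq0).2, hRd, hqd]
      norm_num
  · have h1 : ht C β ≤ ht C (aeval x q) := by
      rw [ht_eq_pos (aeval x q)]
      unfold ht
      apply fs_mono (supp_negpart β) (supp_pospart (aeval x q))
      intro v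
      rw [hβ, v.ord_div hpx hqx]
      by_cases hvx : x ∈ v.ge 0
      · have h2 : aeval x p ∈ v.ge 0 := v.aeval_mem_ge_zero hvx p
        have := v.le_ord_of_mem h2 hpx
        apply max_le_max le_rfl
        omega
      · have hv : v.ord x < 0 := by
          rw [Place.mem_ge] at hvx
          push Not at hvx
          exact hvx.2
        rw [(v.ord_aeval hv hp0).2, (v.ord_aeval hv hq0).2, hpd, hqd]
        simp
    rw [ht_aeval x hq0, ht_eq_finrank htr, ht_eq_finrank hx, hqd] at h1
    have h2 : Module.finrank C⟮β⟯ Φ ≤ p₀.natDegree * Module.finrank C⟮x⟯ Φ := by exact_mod_cast h1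
    calc Module.finrank C⟮β⟯ Φ ≤ p₀.natDegree * Module.finrank C⟮x⟯ Φ := h2
      _ = Module.finrank C⟮x⟯ Φ * p₀.natDegree := mul_comm _ _
      _ ≤ _ := Nat.mul_le_mul le_rfl hbd

end Pool.Agent.ESH
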