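import Pool.Agent.ESH.BPR

/-!
# ESH / BPG: the maximal ideal of `A` is generated by `V.nonunits` and `t`

Proof.  `S = AV A₀ V`, `J` = the ideal of `A` generated by `V.nonunits` and `t`; elements of `J` have the form `c x + t y`,
`c ∈ V.nonunits`, `x, y ∈ A` (of two elements of `V.nonunits` one divides the other).  Non-units of `A₀` are in `J` (`gen` of
`A₀`, with the maximal ideal of `O` mapping into `V.nonunits`).  Let `b ∈ S ∩ V'.nonunits`; `b ≡ q(θ)` modulo `J`, `q ∈ V[X]`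
(induction on generators).  `bpr_el`: `θ - d ∈ V'.nonunits`,
`d ∈ V`.  `q = (X - d) q₁ + q(d)` with `q₁ ∈ V[X]`; `q(θ) ∈ V'.nonunits`, so `q(d) ∈ V.nonunits ⊆ J`.  Similarly
`p = (X - d) p₁ + p(d)`, `p(θ) ∈ J` a non-unit of `A₀`, `p(d) ∈ V.nonunits`.  So modulo `J`: `p₁(θ) b ≡ p₁(θ)(θ - d) q₁(θ) ≡ p(θ) q₁(θ) ≡ 0`.
`p₁(θ)` is a unit of `V'`: `p₁(θ) ≡ p₁(d) = p'(d) ≡ p'(θ)` modulo `V'.nonunits`, and `p'(θ)` is a unit of `A₀`, so of `V'`.
So `b ∈ J A`.  For a general non-unit `a = b/s` of `A` divide by `s`.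
-/

namespace Pool.Agent.ESH

open Pool.Agent.Helper11 Polynomial

/-- non-units of a valuation subring: arithmetic -/
private theorem bpg_mul {L : Type*} [Field L] (V : ValuationSubring L) {x y : L} (hx : x ∈ V.nonunits)
    (hy : y ∈ V) : x * y ∈ V.nonunits := by
  rw [ValuationSubring.mem_nonunits_iff_exists_mem_maximalIdeal] at hx ⊢
  obtain ⟨h, hm⟩ := hx
  exact ⟨V.mul_mem _ _ h hy, (IsLocalRing.maximalIdeal V).mul_mem_right ⟨y, hy⟩ hm⟩

private theorem bpg_add {L : Type*} [Field L] (V : ValuationSubring L) {x y : L} (hx : x ∈ V.nonunits)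
    (hy : y ∈ V.nonunits) : x + y ∈ V.nonunits := by
  rw [ValuationSubring.mem_nonunits_iff_exists_mem_maximalIdeal] at hx hy ⊢
  obtain ⟨h, hm⟩ := hx
  obtain ⟨h', hm'⟩ := hy
  exact ⟨V.add_mem _ _ h h', (IsLocalRing.maximalIdeal V).add_mem hm hm'⟩

private theorem bpg_neg {L : Type*} [Field L] (V : ValuationSubring L) {x : L} (hx : x ∈ V.nonunits) :
    -x ∈ V.nonunits := by
  have := bpg_mul V hx (V.neg_mem _ V.one_mem)
  simpa using this

private theorem bpg_le {L : Type*} [Field L] (V : ValuationSubring L) {x : L} (hx : x ∈ V.nonunits) :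
    x ∈ V := by
  rw [ValuationSubring.mem_nonunits_iff_exists_mem_maximalIdeal] at hx
  exact hx.1

private theorem bpg_zero {L : Type*} [Field L] (V : ValuationSubring L) : (0 : L) ∈ V.nonunits := by
  rw [ValuationSubring.mem_nonunits_iff_exists_mem_maximalIdeal]
  exact ⟨V.zero_mem, (IsLocalRing.maximalIdeal V).zero_mem⟩

private theorem bpg_iff {L : Type*} [Field L] (V : ValuationSubring L) {x : L} :
    x ∈ V.nonunits ↔ x ∈ V ∧ (x = 0 ∨ x⁻¹ ∉ V) := by
  rw [ValuationSubring.mem_nonunits_iff_exists_mem_maximalIdeal]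
  constructor
  · rintro ⟨h, hm⟩
    refine ⟨h, ?_⟩
    by_cases h0 : x = 0
    · exact Or.inl h0
    · refine Or.inr fun hi => ?_
      rw [IsLocalRing.mem_maximalIdeal, mem_nonunits_iff] at hm
      exact hm (IsUnit.of_mul_eq_one (⟨x⁻¹, hi⟩ : V) (Subtype.ext (mul_inv_cancel₀ h0)))
  · rintro ⟨h, hm⟩
    refine ⟨h, ?_⟩
    rw [IsLocalRing.mem_maximalIdeal, mem_nonunits_iff]
    intro hu
    obtain ⟨y, hy⟩ := hu.exists_right_inv
    have hxy : x * (y : L) = 1 := congrArg Subtype.val hy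
    rcases hm with h0 | hi
    · rw [h0, zero_mul] at hxy
      exact zero_ne_one hxy
    · rw [inv_eq_of_mul_eq_one_right hxy] at hi
      exact hi y.2

/-- of two elements of a valuation ring one divides the other -/
private theorem bpg_dvd {L : Type*} [Field L] (V : ValuationSubring L) (x y : L) :
    (∃ v ∈ V, x = y * v) ∨ ∃ v ∈ V, y = x * v := by
  by_cases hy : y = 0
  · exact Or.inr ⟨0, V.zero_mem, by rw [hy, mul_zero]⟩
  by_cases hx : x = 0
  · exact Or.inl ⟨0, V.zero_mem, by rw [hx, mul_zero]⟩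
  rcases V.mem_or_inv_mem (x / y) with h | h
  · exact Or.inl ⟨x / y, h, by field_simp⟩
  · exact Or.inr ⟨(x / y)⁻¹, h, by field_simp⟩

variable {O K F C Φ : Type*} [CommRing O] [IsDomain O] [IsDiscreteValuationRing O] [Field K] [CharZero K]
  [Algebra O K] [IsFractionRing O K] [Field F] [Algebra K F] [Algebra O F] [IsScalarTower O K F]
  [FunField K F] [Field C] [CharZero C] [Algebra K C] [Algebra.IsAlgebraic K C] [IsAlgClosed C] [Field Φ]
  [Algebra F Φ] [Algebra C Φ] [Finite (IsLocalRing.ResidueField O)]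

theorem bpg {W₀ : ValuationSubring F} {pts₀ : Set (Subring F)} {V : ValuationSubring C}
    {W : ValuationSubring Φ} (E : BExt O K W₀ pts₀ V W) {A₀ : Subring F} (hA₀ : A₀ ∈ pts₀)
    (V' : ValuationSubring Φ) (hV' : ∀ c : C, algebraMap C Φ c ∈ V' ↔ c ∈ V)
    (hd : Dom A₀ (V'.comap (algebraMap F Φ))) (t : F) (ht : NU A₀ t)
    (htg : ∀ a, NU A₀ a → ∃ c ∈ IsLocalRing.maximalIdeal O, ∃ x ∈ A₀, ∃ y ∈ A₀,
      a = algebraMap O F c * x + t * y)
    (a : Φ) (ha : NU (locA (AV A₀ V) V') a) :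
    ∃ c ∈ V.nonunits, ∃ x ∈ locA (AV A₀ V) V', ∃ y ∈ locA (AV A₀ V) V',
      a = algebraMap C Φ c * x + algebraMap F Φ t * y := by
  classical
  obtain ⟨hSV', hSW, hSA⟩ := bpa_sub E hA₀ V' hV' hd
  obtain ⟨hVA, -, -⟩ := bpa_basic E hA₀ V' hV' hd
  set A := locA (AV A₀ V) V' with hA
  set t' := algebraMap F Φ t with ht'
  -- the ideal J
  let J : Φ → Prop := fun b => ∃ c ∈ V.nonunits, ∃ x ∈ A, ∃ y ∈ A, b = algebraMap C Φ c * x + t' * y
  have hAV' : ∀ x ∈ A, x ∈ V' := fun x hx => (bpa_le E hA₀ V' hV' hd x hx).2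
  have hFS : ∀ f ∈ A₀, algebraMap F Φ f ∈ AV A₀ V := fun f hf =>
    Subring.subset_closure (Or.inl ⟨f, hf, rfl⟩)
  have hCS : ∀ c ∈ V, algebraMap C Φ c ∈ AV A₀ V := fun c hc =>
    Subring.subset_closure (Or.inr ⟨c, hc, rfl⟩)
  have hVnu : ∀ c : C, c ∈ V.nonunits ↔ algebraMap C Φ c ∈ V'.nonunits := by
    intro c
    rw [bpg_iff, bpg_iff, hV', ← map_inv₀, hV', map_eq_zero]
  have hFnu : ∀ f, NU A₀ f → algebraMap F Φ f ∈ V'.nonunits := by
    intro f hf
    have h1 := hd.2 f hf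
    rw [bpg_iff, ValuationSubring.mem_comap, ValuationSubring.mem_comap] at h1
    rw [bpg_iff, ← map_inv₀, map_eq_zero]
    exact h1
  have hJadd : ∀ b b', J b → J b' → J (b + b') := by
    rintro b b' ⟨c, hc, x, hx, y, hy, rfl⟩ ⟨c', hc', x', hx', y', hy', rfl⟩
    rcases bpg_dvd V c c' with ⟨v, hv, h⟩ | ⟨v, hv, h⟩
    · refine ⟨c', hc', algebraMap C Φ v * x + x', A.add_mem (A.mul_mem (hVA v hv) hx) hx', y + y',
        A.add_mem hy hy', ?_⟩
      rw [h, map_mul]
      ring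
    · refine ⟨c, hc, x + algebraMap C Φ v * x', A.add_mem hx (A.mul_mem (hVA v hv) hx'), y + y',
        A.add_mem hy hy', ?_⟩
      rw [h, map_mul]
      ring
  have hJmul : ∀ b z, z ∈ A → J b → J (b * z) := by
    rintro b z hz ⟨c, hc, x, hx, y, hy, rfl⟩
    exact ⟨c, hc, x * z, A.mul_mem hx hz, y * z, A.mul_mem hy hz, by ring⟩
  have hJneg : ∀ b, J b → J (-b) := by
    rintro b ⟨c, hc, x, hx, y, hy, rfl⟩
    exact ⟨c, hc, -x, A.neg_mem hx, -y, A.neg_mem hy, by ring⟩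
  have hJc : ∀ c ∈ V.nonunits, J (algebraMap C Φ c) := fun c hc =>
    ⟨c, hc, 1, A.one_mem, 0, A.zero_mem, by ring⟩
  have hJV' : ∀ b, J b → b ∈ V'.nonunits := by
    rintro b ⟨c, hc, x, hx, y, hy, rfl⟩
    exact bpg_add V' (bpg_mul V' ((hVnu c).1 hc) (hAV' x hx)) (bpg_mul V' (hFnu t ht) (hAV' y hy))
  have hOC : ∀ o : O, algebraMap F Φ (algebraMap O F o) = algebraMap C Φ (algebraMap K C (algebraMap O K o)) := by
    intro o
    rw [IsScalarTower.algebraMap_apply O K F, E.cmp.comm]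
  have hOV : ∀ o : O, algebraMap K C (algebraMap O K o) ∈ V := fun o => (E.ovr _).2 ⟨o, rfl⟩
  have hOm : ∀ o ∈ IsLocalRing.maximalIdeal O, algebraMap K C (algebraMap O K o) ∈ V.nonunits := by
    intro o ho
    rw [bpg_iff]
    refine ⟨hOV o, ?_⟩
    by_cases h0 : o = 0
    · left; rw [h0, map_zero, map_zero]
    right
    intro hi
    rw [← map_inv₀] at hi
    obtain ⟨o', ho'⟩ := (E.ovr _).1 hi
    have h1 : algebraMap O K (o * o') = 1 := by
      rw [map_mul, ho', mul_inv_cancel₀]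
      intro h
      exact h0 ((map_eq_zero_iff _ (IsFractionRing.injective O K)).1 h)
    have h2 : o * o' = 1 := IsFractionRing.injective O K (by rw [h1, map_one])
    exact (IsLocalRing.mem_maximalIdeal _).1 ho (IsUnit.of_mul_eq_one _ h2)
  have hJnu : ∀ f, NU A₀ f → J (algebraMap F Φ f) := by
    intro f hf
    obtain ⟨c, hc, x, hx, y, hy, h⟩ := htg f hf
    refine ⟨_, hOm c hc, algebraMap F Φ x, hSA _ (hFS x hx), algebraMap F Φ y, hSA _ (hFS y hy), ?_⟩
    rw [h, map_add, map_mul, map_mul, hOC]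
  -- evaluation of polynomials
  obtain ⟨θ, hθ, p, hpm, hp1, hp2, hprim⟩ := (E.mdl.pt A₀ hA₀).prim
  let ι : V →+* Φ := (algebraMap C Φ).comp V.subtype
  let ρ : O →+* V := ((algebraMap K C).comp (algebraMap O K)).codRestrict V.toSubring hOV
  let ev : V[X] →+* Φ := eval₂RingHom ι (algebraMap F Φ θ)
  have hevX : ev X = algebraMap F Φ θ := eval₂_X _ _
  have hevC : ∀ v : V, ev (Polynomial.C v) = algebraMap C Φ (v : C) := fun v => eval₂_C _ _
  have hιρ : ι.comp ρ = (algebraMap F Φ).comp (algebraMap O F) := by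
    ext o
    exact (hOC o).symm
  have hevO : ∀ q : O[X], ev (q.map ρ) = algebraMap F Φ (aeval θ q) := by
    intro q
    change eval₂ ι (algebraMap F Φ θ) (q.map ρ) = _
    rw [eval₂_map, hιρ, aeval_def, hom_eval₂]
  have hθS : algebraMap F Φ θ ∈ AV A₀ V := hFS θ hθ
  have hevS : ∀ q : V[X], ev q ∈ AV A₀ V := by
    intro q
    induction q using Polynomial.induction_on' with
    | add p q hp hq => rw [map_add]; exact Subring.add_mem _ hp hq
    | monomial n v =>
      rw [← C_mul_X_pow_eq_monomial, map_mul, map_pow, hevX, hevC]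
      exact Subring.mul_mem _ (hCS _ v.2) (Subring.pow_mem _ hθS n)
  have hrep : ∀ b ∈ AV A₀ V, ∃ q : V[X], J (b - ev q) := by
    intro b hb
    unfold AV at hb
    induction hb using Subring.closure_induction with
    | mem x hx =>
      rcases hx with ⟨f, hf, rfl⟩ | ⟨c, hc, rfl⟩
      · obtain ⟨q, hq⟩ := hprim f hf
        refine ⟨q.map ρ, ?_⟩
        rw [hevO, ← map_sub]
        exact hJnu _ hq
      · refine ⟨Polynomial.C ⟨c, hc⟩, ?_⟩
        rw [hevC, sub_self]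
        have := hJc 0 (bpg_zero V)
        rwa [map_zero] at this
    | zero =>
      refine ⟨0, ?_⟩
      have := hJc 0 (bpg_zero V)
      rw [map_zero] at this
      rwa [map_zero, sub_zero]
    | one =>
      refine ⟨1, ?_⟩
      rw [map_one, sub_self]
      have := hJc 0 (bpg_zero V)
      rwa [map_zero] at this
    | add x y _ _ hx hy =>
      obtain ⟨q, hq⟩ := hx
      obtain ⟨r, hr⟩ := hy
      refine ⟨q + r, ?_⟩
      have := hJadd _ _ hq hr
      rwa [show x - ev q + (y - ev r) = x + y - ev (q + r) by rw [map_add]; ring] at this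
    | neg x _ hx =>
      obtain ⟨q, hq⟩ := hx
      refine ⟨-q, ?_⟩
      have := hJneg _ hq
      rwa [show -(x - ev q) = -x - ev (-q) by rw [map_neg]; ring] at this
    | mul x y hx' hy' hx hy =>
      obtain ⟨q, hq⟩ := hx
      obtain ⟨r, hr⟩ := hy
      refine ⟨q * r, ?_⟩
      have := hJadd _ _ (hJmul _ y (hSA y hy') hq) (hJmul _ (ev q) (hSA _ (hevS q)) hr)
      rwa [show (x - ev q) * y + (y - ev r) * ev q = x * y - ev (q * r) by rw [map_mul]; ring] at this
  obtain ⟨d, hdV, hdn⟩ := bpr_el E hA₀ V' hV' hd θ hθ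
  set δ : V := ⟨d, hdV⟩ with hδ
  have hfac : ∀ q : V[X], ∃ q₁ : V[X], q = (X - Polynomial.C δ) * q₁ + Polynomial.C (q.eval δ) := by
    intro q
    obtain ⟨q₁, h⟩ := X_sub_C_dvd_sub_C_eval (a := δ) (p := q)
    exact ⟨q₁, by rw [← h]; ring⟩
  have hevfac : ∀ q q₁ : V[X], q = (X - Polynomial.C δ) * q₁ + Polynomial.C (q.eval δ) →
      ev q = (algebraMap F Φ θ - algebraMap C Φ d) * ev q₁ + algebraMap C Φ ((q.eval δ : V) : C) := by
    intro q q₁ h
    conv_lhs => rw [h]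
    rw [map_add, map_mul, map_sub, hevX, hevC, hevC]
  have hevn : ∀ q : V[X], ev q ∈ V'.nonunits → ((q.eval δ : V) : C) ∈ V.nonunits := by
    intro q hq
    obtain ⟨q₁, h⟩ := hfac q
    have h1 := hevfac q q₁ h
    rw [hVnu]
    have h2 : algebraMap C Φ ((q.eval δ : V) : C) =
        ev q + -((algebraMap F Φ θ - algebraMap C Φ d) * ev q₁) := by rw [h1]; ring
    rw [h2]
    exact bpg_add V' hq (bpg_neg V' (bpg_mul V' hdn (hAV' _ (hSA _ (hevS q₁)))))
  -- the polynomial p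
  obtain ⟨p₁, hp₁⟩ := hfac (p.map ρ)
  have hpe := hevfac _ _ hp₁
  have hJp : J (ev (p.map ρ)) := by rw [hevO]; exact hJnu _ hp1
  have hpd := hevn _ (hJV' _ hJp)
  have hder : ev (derivative (p.map ρ)) = ev p₁ + (algebraMap F Φ θ - algebraMap C Φ d) * ev (derivative p₁) := by
    conv_lhs => rw [hp₁]
    rw [derivative_add, derivative_mul, derivative_C, derivative_X_sub_C, map_add, map_add, map_mul, map_mul,
      map_one, map_zero, map_sub, hevX, hevC]
    ring
  have hp₁u : ev p₁ ∉ V'.nonunits := by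
    intro h
    have h1 : ev (derivative (p.map ρ)) ∈ V'.nonunits := by
      rw [hder]
      exact bpg_add V' h (bpg_mul V' hdn (hAV' _ (hSA _ (hevS _))))
    rw [derivative_map, hevO] at h1
    have h2 : aeval θ (derivative p) ∈ A₀ := by
      rw [aeval_def, eval₂_eq_sum]
      refine Subring.sum_mem _ fun i _ => A₀.mul_mem ((E.mdl.pt A₀ hA₀).base _) (A₀.pow_mem hθ _)
    refine hp2 ⟨h2, ?_⟩
    rw [bpg_iff, ← map_inv₀, map_eq_zero] at h1
    rcases h1.2 with h3 | h3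
    · exact Or.inl h3
    · exact Or.inr fun h4 => h3 (hAV' _ (hSA _ (hFS _ h4)))
  have hp₁0 : ev p₁ ≠ 0 := fun h => hp₁u (by rw [h]; exact bpg_zero V')
  have hp₁i : (ev p₁)⁻¹ ∈ A := by
    have h1 : ev p₁ ∈ V' := hAV' _ (hSA _ (hevS _))
    have h2 : (ev p₁)⁻¹ ∈ V' := by
      by_contra h3
      exact hp₁u ((bpg_iff V').2 ⟨h1, Or.inr h3⟩)
    exact ⟨1, Subring.one_mem _, ev p₁, hevS _, hp₁0, h1, h2, inv_mul_cancel₀ hp₁0⟩
  -- elements of `S`
  have hSJ : ∀ b ∈ AV A₀ V, b ∈ V'.nonunits → J b := by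
    intro b hb hbn
    obtain ⟨q, hq⟩ := hrep b hb
    have hqn : ev q ∈ V'.nonunits := by
      have := bpg_add V' hbn (bpg_neg V' (hJV' _ hq))
      rwa [show b + -(b - ev q) = ev q by ring] at this
    have hqd := hevn q hqn
    obtain ⟨q₁, hq₁⟩ := hfac q
    have hqe := hevfac _ _ hq₁
    have h1 : J (ev p₁ * b) := by
      have h2 := hJadd _ _ (hJadd _ _ (hJmul _ (ev p₁) (hSA _ (hevS _)) hq)
        (hJmul _ (ev q₁) (hSA _ (hevS _)) (hJadd _ _ hJp (hJneg _ (hJc _ hpd)))))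
        (hJmul _ (ev p₁) (hSA _ (hevS _)) (hJc _ hqd))
      have h3 : (b - ev q) * ev p₁ + (ev (p.map ρ) + -algebraMap C Φ (((p.map ρ).eval δ : V) : C)) * ev q₁
          + algebraMap C Φ ((q.eval δ : V) : C) * ev p₁ = ev p₁ * b := by
        rw [hqe, hpe]
        ring
      rwa [h3] at h2
    have h4 := hJmul _ _ hp₁i h1
    rwa [show ev p₁ * b * (ev p₁)⁻¹ = b by field_simp] at h4
  -- general elements
  have ha' := (bpa_nu E hA₀ V' hV' hd a).1 ha
  obtain ⟨⟨b, hb, s, hs, h0, h1, h2, h3⟩, hn⟩ := ha'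
  have hbn : b ∈ V'.nonunits := by rw [← h3]; exact bpg_mul V' hn h1
  have h5 := hJmul _ s⁻¹ ⟨1, Subring.one_mem _, s, hs, h0, h1, h2, inv_mul_cancel₀ h0⟩ (hSJ b hb hbn)
  rwa [show b * s⁻¹ = a by rw [← h3]; field_simp] at h5

end Pool.Agent.ESH
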