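import Pool.Agent.ESH.BPF
import Pool.Agent.ESH.BPG

/-!
# ESH / BPD: `A` modulo `W.nonunits` is a discrete valuation ring with uniformiser `t`

Proof.  Let `B = A/(A ∩ W.nonunits)`, a local domain (a subring of the residue field of `W`), with maximal ideal generated by `t̄`
(BPG: `V.nonunits ⊆ W.nonunits`).  `B` is noetherian: by `fin` every element of `A₀` is `b/s` with `b, s` in `O[S]`, `S` finite, `s⁻¹ ∈ A₀`;
so every element of `A` is a quotient `b/s` of elements of the subring `V[S]` of `Φ`, with `s` a unit of `V'`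
(elements of `AV A₀ V`: put the finitely many denominators together).  So `B` is a localisation of the image of `V[S]` in the
residue field of `W`, which is a finitely generated algebra over the residue field of `V`, hence noetherian.  By Krull's intersection
theorem `⋂ t̄^n B = 0`.  So for `a ∈ A`, `a ∉ W.nonunits`, there is a largest `n` with `ā ∈ t̄^n B`, `ā = t̄^n ū` with `u ∈ A`,
`ū` a unit of `B`, so `u` is a unit of `A` (if `u` were a non-unit, `ū ∈ t̄ B`).
(If `t̄ = 0` then `B` is a field and `n = 0` works: then `a` is a unit.)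
-/

namespace Pool.Agent.ESH

open Pool.Agent.Helper11

variable {O K F C Φ : Type*} [CommRing O] [IsDomain O] [IsDiscreteValuationRing O] [Field K] [CharZero K]
  [Algebra O K] [IsFractionRing O K] [Field F] [Algebra K F] [Algebra O F] [IsScalarTower O K F]
  [FunField K F] [Field C] [CharZero C] [Algebra K C] [Algebra.IsAlgebraic K C] [IsAlgClosed C] [Field Φ]
  [Algebra F Φ] [Algebra C Φ] [Finite (IsLocalRing.ResidueField O)]

private theorem bpd_mul_nonunits {W : ValuationSubring Φ} {a x : Φ} (ha : a ∈ W.nonunits)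
    (hx : x ∈ W) : a * x ∈ W.nonunits := by
  rw [ValuationSubring.mem_nonunits_iff] at ha ⊢
  rw [map_mul]
  exact mul_lt_one_of_lt_of_le ha ((W.valuation_le_one_iff x).mpr hx)

private theorem bpd_unit_not {W : ValuationSubring Φ} {s : Φ} (h0 : s ≠ 0) (h : s⁻¹ ∈ W) :
    s ∉ W.nonunits := by
  intro hs
  have := bpd_mul_nonunits hs h
  rw [mul_inv_cancel₀ h0, ValuationSubring.mem_nonunits_iff, map_one] at this
  exact lt_irrefl _ this

private theorem bpd_res_zero {W : ValuationSubring Φ} (x : W) :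
    IsLocalRing.residue W x = 0 ↔ (x : Φ) ∈ W.nonunits := by
  rw [IsLocalRing.residue_eq_zero_iff, ValuationSubring.coe_mem_nonunits_iff]

/-- The abstract form: a subring `B` of a field which is a localisation of a noetherian subring. -/
private theorem bpd_noeth {L : Type*} [Field L] (B₀ B : Subring L) [IsNoetherianRing B₀]
    (hle : B₀ ≤ B) (h : ∀ z ∈ B, ∃ s ∈ B₀, ∃ s' ∈ B, s * s' = 1 ∧ z * s ∈ B₀) :
    IsNoetherianRing B := by
  letI : Algebra B₀ B := (Subring.inclusion hle).toAlgebra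
  let M : Submonoid B₀ := (IsUnit.submonoid B).comap (Subring.inclusion hle)
  haveI : IsLocalization M B := by
    refine ⟨⟨fun y => y.2, ?_, ?_⟩⟩
    · intro z
      obtain ⟨s, hs, s', hs', h1, h2⟩ := h z.1 z.2
      refine ⟨(⟨z.1 * s, h2⟩, ⟨⟨s, hs⟩, ?_⟩), ?_⟩
      · change IsUnit (⟨s, hle hs⟩ : B)
        exact IsUnit.of_mul_eq_one ⟨s', hs'⟩ (Subtype.ext h1)
      · apply Subtype.ext
        rfl
    · intro x y hxy
      refine ⟨1, ?_⟩
      have : x = y := Subring.inclusion_injective hle hxy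
      rw [this]
  exact IsLocalization.isNoetherianRing M B inferInstance

theorem bpd {W₀ : ValuationSubring F} {pts₀ : Set (Subring F)} {V : ValuationSubring C}
    {W : ValuationSubring Φ} (E : BExt O K W₀ pts₀ V W) {A₀ : Subring F} (hA₀ : A₀ ∈ pts₀)
    (V' : ValuationSubring Φ) (hV' : ∀ c : C, algebraMap C Φ c ∈ V' ↔ c ∈ V)
    (hd : Dom A₀ (V'.comap (algebraMap F Φ))) (t : F) (ht : NU A₀ t)
    (htg : ∀ a, NU A₀ a → ∃ c ∈ IsLocalRing.maximalIdeal O, ∃ x ∈ A₀, ∃ y ∈ A₀,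
      a = algebraMap O F c * x + t * y)
    (a : Φ) (ha : a ∈ locA (AV A₀ V) V') (haW : a ∉ W.nonunits) :
    ∃ n : ℕ, ∃ u ∈ locA (AV A₀ V) V', u ≠ 0 ∧ u⁻¹ ∈ locA (AV A₀ V) V' ∧
      a - algebraMap F Φ t ^ n * u ∈ W.nonunits := by
  classical
  obtain ⟨hSV', hSW, hSA⟩ := bpa_sub E hA₀ V' hV' hd
  have hAle := bpa_le E hA₀ V' hV' hd
  obtain ⟨hVA, hNadd, hVnub⟩ := bpa_basic E hA₀ V' hV' hd
  obtain ⟨S₀, hS₀A, hfin⟩ := (E.mdl.pt A₀ hA₀).fin
  -- images of elements of `A₀`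
  have hA₀S : ∀ x ∈ A₀, algebraMap F Φ x ∈ AV A₀ V := fun x hx =>
    Subring.subset_closure (Or.inl ⟨x, hx, rfl⟩)
  have hVS : ∀ c ∈ V, algebraMap C Φ c ∈ AV A₀ V := fun c hc =>
    Subring.subset_closure (Or.inr ⟨c, hc, rfl⟩)
  -- the finitely generated subring
  obtain ⟨T, hT⟩ : ∃ T : Subring Φ, T = Subring.closure
      ((algebraMap F Φ) '' (S₀ : Set F) ∪ (algebraMap C Φ) '' (V : Set C)) := ⟨_, rfl⟩
  have hTS : T ≤ AV A₀ V := by
    rw [hT]
    apply Subring.closure_le.mpr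
    rintro _ (⟨x, hx, rfl⟩ | ⟨c, hc, rfl⟩)
    · exact hA₀S x (hS₀A x hx)
    · exact hVS c hc
  have hOT : ∀ x ∈ Algebra.adjoin O (S₀ : Set F), algebraMap F Φ x ∈ T := by
    intro x hx
    induction hx using Algebra.adjoin_induction with
    | mem x hx => rw [hT]; exact Subring.subset_closure (Or.inl ⟨x, hx, rfl⟩)
    | algebraMap r =>
      rw [IsScalarTower.algebraMap_apply O K F, E.cmp.comm, hT]
      exact Subring.subset_closure (Or.inr ⟨_, (E.ovr _).mpr ⟨r, rfl⟩, rfl⟩)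
    | add x y _ _ hx hy => rw [map_add]; exact T.add_mem hx hy
    | mul x y _ _ hx hy => rw [map_mul]; exact T.mul_mem hx hy
  have hQ : ∀ x ∈ AV A₀ V, ∃ σ ∈ Algebra.adjoin O (S₀ : Set F), σ ≠ 0 ∧ σ⁻¹ ∈ A₀ ∧ σ ∈ A₀ ∧
      x * algebraMap F Φ σ ∈ T := by
    have hadj : ∀ x ∈ Algebra.adjoin O (S₀ : Set F), x ∈ A₀ := by
      intro x hx
      induction hx using Algebra.adjoin_induction with
      | mem x hx => exact hS₀A x hx
      | algebraMap r => exact (E.mdl.pt A₀ hA₀).base r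
      | add x y _ _ hx hy => exact A₀.add_mem hx hy
      | mul x y _ _ hx hy => exact A₀.mul_mem hx hy
    intro x hx
    induction hx using Subring.closure_induction with
    | mem x hx =>
      rcases hx with ⟨y, hy, rfl⟩ | ⟨c, hc, rfl⟩
      · obtain ⟨b, hb, s, hs, hs0, hsi, hbs⟩ := hfin y hy
        exact ⟨s, hs, hs0, hsi, hadj s hs, by rw [← map_mul, hbs]; exact hOT b hb⟩
      · refine ⟨1, one_mem _, one_ne_zero, by rw [inv_one]; exact A₀.one_mem, A₀.one_mem, ?_⟩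
        rw [map_one, mul_one, hT]
        exact Subring.subset_closure (Or.inr ⟨c, hc, rfl⟩)
    | zero => exact ⟨1, one_mem _, one_ne_zero, by rw [inv_one]; exact A₀.one_mem, A₀.one_mem,
        by rw [zero_mul]; exact T.zero_mem⟩
    | one => exact ⟨1, one_mem _, one_ne_zero, by rw [inv_one]; exact A₀.one_mem, A₀.one_mem,
        by rw [map_one, mul_one]; exact T.one_mem⟩
    | add x y _ _ hx hy =>
      obtain ⟨σ, h1, h2, h3, h4, h5⟩ := hx
      obtain ⟨σ', h1', h2', h3', h4', h5'⟩ := hy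
      refine ⟨σ * σ', mul_mem h1 h1', mul_ne_zero h2 h2', by rw [mul_inv]; exact A₀.mul_mem h3 h3',
        A₀.mul_mem h4 h4', ?_⟩
      have e : (x + y) * algebraMap F Φ (σ * σ') = x * algebraMap F Φ σ * algebraMap F Φ σ' +
          y * algebraMap F Φ σ' * algebraMap F Φ σ := by rw [map_mul]; ring
      rw [e]
      exact T.add_mem (T.mul_mem h5 (hOT _ h1')) (T.mul_mem h5' (hOT _ h1))
    | neg x _ hx =>
      obtain ⟨σ, h1, h2, h3, h4, h5⟩ := hx
      exact ⟨σ, h1, h2, h3, h4, by rw [neg_mul]; exact T.neg_mem h5⟩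
    | mul x y _ _ hx hy =>
      obtain ⟨σ, h1, h2, h3, h4, h5⟩ := hx
      obtain ⟨σ', h1', h2', h3', h4', h5'⟩ := hy
      refine ⟨σ * σ', mul_mem h1 h1', mul_ne_zero h2 h2', by rw [mul_inv]; exact A₀.mul_mem h3 h3',
        A₀.mul_mem h4 h4', ?_⟩
      have e : (x * y) * algebraMap F Φ (σ * σ') = (x * algebraMap F Φ σ) *
          (y * algebraMap F Φ σ') := by rw [map_mul]; ring
      rw [e]
      exact T.mul_mem h5 h5'
  obtain ⟨A, hA⟩ : ∃ A : Subring Φ, A = locA (AV A₀ V) V' := ⟨_, rfl⟩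
  -- every element of `A` is a quotient of elements of `T`
  have hAT : ∀ x ∈ A, ∃ s ∈ T, s ≠ 0 ∧ s⁻¹ ∈ A ∧ x * s ∈ T := by
    intro x hx
    rw [hA] at hx
    obtain ⟨b, hb, s, hs, hs0, hs1, hs2, hbs⟩ := hx
    obtain ⟨σ, h1, h2, h3, h4, h5⟩ := hQ b hb
    obtain ⟨σ', h1', h2', h3', h4', h5'⟩ := hQ s hs
    have hσ : ∀ σ : F, σ ≠ 0 → σ⁻¹ ∈ A₀ → (algebraMap F Φ σ)⁻¹ ∈ V' := by
      intro σ _ h
      rw [← map_inv₀]
      exact hd.1 _ h
    have hne : s * algebraMap F Φ σ' * algebraMap F Φ σ ≠ 0 := by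
      refine mul_ne_zero (mul_ne_zero hs0 ?_) ?_
      · exact (map_ne_zero _).mpr h2'
      · exact (map_ne_zero _).mpr h2
    refine ⟨s * algebraMap F Φ σ' * algebraMap F Φ σ, T.mul_mem h5' (hOT _ h1), hne, ?_, ?_⟩
    · rw [hA]
      refine ⟨1, (AV A₀ V).one_mem, s * algebraMap F Φ σ' * algebraMap F Φ σ,
        hTS (T.mul_mem h5' (hOT _ h1)), hne, ?_, ?_, inv_mul_cancel₀ hne⟩
      · exact V'.mul_mem _ _ (V'.mul_mem _ _ hs1 (hd.1 _ h4')) (hd.1 _ h4)
      · rw [mul_inv, mul_inv]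
        exact V'.mul_mem _ _ (V'.mul_mem _ _ hs2 (hσ _ h2' h3')) (hσ _ h2 h3)
    · have e : x * (s * algebraMap F Φ σ' * algebraMap F Φ σ) =
          (b * algebraMap F Φ σ) * algebraMap F Φ σ' := by rw [← hbs]; ring
      rw [e]
      exact T.mul_mem h5 (hOT _ h1')
  have hTA : T ≤ A := fun x hx => by rw [hA]; exact hSA x (hTS hx)
  have hAW : ∀ x ∈ A, x ∈ W := fun x hx => (hAle x (by rw [← hA]; exact hx)).1
  have haA : a ∈ A := by rw [hA]; exact ha
  have htA : algebraMap F Φ t ∈ A := by rw [hA]; exact hSA _ (hA₀S t ht.1)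
  -- the residue map on `A`
  let ρ : A →+* IsLocalRing.ResidueField W :=
    (IsLocalRing.residue W).comp (A.subtype.codRestrict W fun x => hAW x x.2)
  have hρ0 : ∀ (x : Φ) (hx : x ∈ A), ρ ⟨x, hx⟩ = 0 ↔ x ∈ W.nonunits := fun x hx =>
    bpd_res_zero (⟨x, hAW x hx⟩ : W)
  -- the residue field of `V` and the noetherian subring
  let f : V →+* W := ((algebraMap C Φ).comp V.subtype).codRestrict W fun x => (E.WC x).mpr x.2
  haveI : IsLocalHom f := by
    refine ⟨fun v hv => ?_⟩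
    obtain ⟨w, hw⟩ := hv.exists_right_inv
    have hw' : algebraMap C Φ v * (w : Φ) = 1 := congrArg Subtype.val hw
    have hv0 : (v : C) ≠ 0 := by
      intro h
      rw [h, map_zero, zero_mul] at hw'
      exact zero_ne_one hw'
    have hw2 : (w : Φ) = algebraMap C Φ (v : C)⁻¹ := by
      rw [map_inv₀]
      exact eq_inv_of_mul_eq_one_right hw'
    have hw3 : (v : C)⁻¹ ∈ V := by
      rw [← E.WC, ← hw2]
      exact w.2
    exact IsUnit.of_mul_eq_one ⟨(v : C)⁻¹, hw3⟩ (Subtype.ext (mul_inv_cancel₀ hv0))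
  let φ : MvPolynomial S₀ (IsLocalRing.ResidueField V) →+* IsLocalRing.ResidueField W :=
    MvPolynomial.eval₂Hom (IsLocalRing.ResidueField.map f)
      (fun s => ρ ⟨algebraMap F Φ s, by rw [hA]; exact hSA _ (hA₀S _ (hS₀A _ s.2))⟩)
  haveI : IsNoetherianRing φ.range := inferInstance
  have hφρ : φ.range ≤ ρ.range := by
    rintro _ ⟨p, rfl⟩
    induction p using MvPolynomial.induction_on with
    | C c =>
      obtain ⟨v, rfl⟩ := IsLocalRing.residue_surjective c
      have e : φ (MvPolynomial.C (IsLocalRing.residue V v)) =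
          ρ ⟨algebraMap C Φ v, by rw [hA]; exact hVA v v.2⟩ := by
        rw [MvPolynomial.coe_eval₂Hom, MvPolynomial.eval₂_C, IsLocalRing.ResidueField.map_residue]
        rfl
      rw [e]
      exact ⟨_, rfl⟩
    | add p q hp hq => rw [map_add]; exact ρ.range.add_mem hp hq
    | mul_X p s hp =>
      rw [map_mul]
      refine ρ.range.mul_mem hp ?_
      rw [MvPolynomial.coe_eval₂Hom, MvPolynomial.eval₂_X]
      exact ⟨_, rfl⟩
  have hTφ : ∀ (x : Φ) (hx : x ∈ T), ρ ⟨x, hTA hx⟩ ∈ φ.range := by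
    intro x hx
    have hx' := hx
    rw [hT] at hx'
    have key : ∀ (x : Φ), x ∈ Subring.closure
        ((algebraMap F Φ) '' (S₀ : Set F) ∪ (algebraMap C Φ) '' (V : Set C)) →
        ∃ hx : x ∈ A, ρ ⟨x, hx⟩ ∈ φ.range := by
      intro x hx
      induction hx using Subring.closure_induction with
      | mem x hx =>
        rcases hx with ⟨y, hy, rfl⟩ | ⟨c, hc, rfl⟩
        · refine ⟨by rw [hA]; exact hSA _ (hA₀S _ (hS₀A _ hy)), MvPolynomial.X ⟨y, hy⟩, ?_⟩
          rw [MvPolynomial.coe_eval₂Hom, MvPolynomial.eval₂_X]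
        · refine ⟨by rw [hA]; exact hVA c hc,
            MvPolynomial.C (IsLocalRing.residue V ⟨c, hc⟩), ?_⟩
          rw [MvPolynomial.coe_eval₂Hom, MvPolynomial.eval₂_C, IsLocalRing.ResidueField.map_residue]
          rfl
      | zero => exact ⟨A.zero_mem, 0, by rw [map_zero]; exact (map_zero ρ).symm⟩
      | one => exact ⟨A.one_mem, 1, by rw [map_one]; exact (map_one ρ).symm⟩
      | add x y _ _ hx hy =>
        obtain ⟨h1, h2⟩ := hx
        obtain ⟨h1', h2'⟩ := hy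
        refine ⟨A.add_mem h1 h1', ?_⟩
        have e : ρ ⟨x + y, A.add_mem h1 h1'⟩ = ρ ⟨x, h1⟩ + ρ ⟨y, h1'⟩ := by
          rw [← map_add]; rfl
        rw [e]
        exact φ.range.add_mem h2 h2'
      | neg x _ hx =>
        obtain ⟨h1, h2⟩ := hx
        refine ⟨A.neg_mem h1, ?_⟩
        have e : ρ ⟨-x, A.neg_mem h1⟩ = -ρ ⟨x, h1⟩ := by
          rw [← map_neg]; rfl
        rw [e]
        exact φ.range.neg_mem h2
      | mul x y _ _ hx hy =>
        obtain ⟨h1, h2⟩ := hx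
        obtain ⟨h1', h2'⟩ := hy
        refine ⟨A.mul_mem h1 h1', ?_⟩
        have e : ρ ⟨x * y, A.mul_mem h1 h1'⟩ = ρ ⟨x, h1⟩ * ρ ⟨y, h1'⟩ := by
          rw [← map_mul]; rfl
        rw [e]
        exact φ.range.mul_mem h2 h2'
    obtain ⟨_, h⟩ := key x hx'
    exact h
  haveI hN : IsNoetherianRing ρ.range := by
    apply bpd_noeth φ.range ρ.range hφρ
    rintro _ ⟨x, rfl⟩
    obtain ⟨s, hs, hs0, hsi, hxs⟩ := hAT x.1 x.2
    refine ⟨ρ ⟨s, hTA hs⟩, hTφ s hs, ρ ⟨s⁻¹, hsi⟩, ⟨_, rfl⟩, ?_, ?_⟩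
    · rw [← map_mul, ← map_one ρ]
      congr 1
      exact Subtype.ext (mul_inv_cancel₀ hs0)
    · have e : ρ x * ρ ⟨s, hTA hs⟩ = ρ ⟨x.1 * s, hTA hxs⟩ := by
        rw [← map_mul]; rfl
      rw [e]
      exact hTφ _ hxs
  -- the ideal generated by the residue of `t`
  let τ : ρ.range := ⟨ρ ⟨algebraMap F Φ t, htA⟩, ⟨_, rfl⟩⟩
  have hAWV : ∀ x ∈ A, x ∈ W.nonunits → x ∈ V'.nonunits := by
    intro x hx hxW
    rw [hA] at hx
    obtain ⟨b, hb, s, hs, hs0, hs1, hs2, hbs⟩ := hx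
    have hbW : b ∈ W.nonunits := by
      rw [← hbs]
      exact bpd_mul_nonunits hxW (hSW s hs)
    have hbV := bpa_W E hA₀ V' hV' hd b hb hbW
    have e : x = b * s⁻¹ := by
      rw [← hbs, mul_assoc, mul_inv_cancel₀ hs0, mul_one]
    rw [e]
    exact bpd_mul_nonunits hbV hs2
  have hAV : ∀ x ∈ A, x ∈ V' := fun x hx => (hAle x (by rw [← hA]; exact hx)).2
  have htV : algebraMap F Φ t ∈ V'.nonunits := by
    have := hd.2 t ht
    rw [ValuationSubring.mem_nonunits_iff_exists_mem_maximalIdeal] at this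
    by_contra hcon
    have h1 : (algebraMap F Φ t)⁻¹ ∈ V' := by
      rcases V'.mem_or_inv_mem (algebraMap F Φ t) with h | h
      · rw [ValuationSubring.mem_nonunits_iff, not_lt] at hcon
        rw [← V'.valuation_le_one_iff, map_inv₀]
        exact inv_le_one_of_one_le₀ hcon
      · exact h
    obtain ⟨h2, h3⟩ := this
    apply h3
    have h4 : t ≠ 0 := by
      intro h
      rw [h, map_zero, ValuationSubring.mem_nonunits_iff, map_zero] at hcon
      exact hcon zero_lt_one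
    have h5 : t⁻¹ ∈ V'.comap (algebraMap F Φ) := by
      change algebraMap F Φ t⁻¹ ∈ V'
      rw [map_inv₀]
      exact h1
    exact IsUnit.of_mul_eq_one ⟨t⁻¹, h5⟩ (Subtype.ext (mul_inv_cancel₀ h4))
  have hJ : Ideal.span {τ} ≠ ⊤ := by
    intro h
    have h1 : (1 : ρ.range) ∈ Ideal.span {τ} := by rw [h]; exact Submodule.mem_top
    obtain ⟨z, hz⟩ := Ideal.mem_span_singleton'.mp h1
    obtain ⟨x, hx⟩ := z.2
    have h2 : ρ x * ρ ⟨algebraMap F Φ t, htA⟩ = 1 := by
      rw [hx]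
      exact congrArg Subtype.val hz
    have h3 : ρ ⟨x.1 * algebraMap F Φ t - 1, A.sub_mem (A.mul_mem x.2 htA) A.one_mem⟩ = 0 := by
      have : ρ (x * ⟨algebraMap F Φ t, htA⟩ - 1) = 0 := by
        rw [map_sub, map_mul, h2, map_one, sub_self]
      exact this
    rw [hρ0] at h3
    have h4 := hAWV _ (A.sub_mem (A.mul_mem x.2 htA) A.one_mem) h3
    have h5 : x.1 * algebraMap F Φ t ∈ V'.nonunits := by
      rw [mul_comm]
      exact bpd_mul_nonunits htV (hAV _ x.2)
    rw [ValuationSubring.mem_nonunits_iff] at h4 h5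
    have h6 : V'.valuation (x.1 * algebraMap F Φ t - (x.1 * algebraMap F Φ t - 1)) < 1 :=
      lt_of_le_of_lt (Valuation.map_sub _ _ _) (max_lt h5 h4)
    rw [sub_sub_cancel, map_one] at h6
    exact lt_irrefl _ h6
  have hK := Ideal.iInf_pow_eq_bot_of_isDomain (Ideal.span {τ}) hJ
  let α : ρ.range := ⟨ρ ⟨a, haA⟩, ⟨_, rfl⟩⟩
  have hα0 : α ≠ 0 := by
    intro h
    exact haW ((hρ0 a haA).mp (congrArg Subtype.val h))
  have hex : ∃ n, α ∉ Ideal.span {τ} ^ n := by
    by_contra h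
    push Not at h
    apply hα0
    have : α ∈ (⨅ i : ℕ, Ideal.span {τ} ^ i) := by
      rw [Submodule.mem_iInf]
      exact h
    rw [hK] at this
    exact (Submodule.mem_bot _).mp this
  obtain ⟨n, hn, hn'⟩ : ∃ n, α ∈ Ideal.span {τ} ^ n ∧ α ∉ Ideal.span {τ} ^ (n + 1) := by
    have h1 := Nat.find_spec hex
    have h2 : Nat.find hex ≠ 0 := by
      intro h
      rw [h, pow_zero, Ideal.one_eq_top] at h1
      exact h1 Submodule.mem_top
    obtain ⟨m, hm⟩ := Nat.exists_eq_succ_of_ne_zero h2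
    refine ⟨m, ?_, by rw [← Nat.succ_eq_add_one, ← hm]; exact h1⟩
    have h3 := Nat.find_min hex (m := m) (by omega)
    rw [not_not] at h3
    exact h3
  rw [Ideal.span_singleton_pow, Ideal.mem_span_singleton'] at hn hn'
  obtain ⟨z, hz⟩ := hn
  obtain ⟨u, hu⟩ := z.2
  have hz' : ρ u * ρ ⟨algebraMap F Φ t, htA⟩ ^ n = ρ ⟨a, haA⟩ := by
    rw [hu]
    exact congrArg Subtype.val hz
  have hunit : ¬ NU (locA (AV A₀ V) V') u.1 := by
    intro hNU
    obtain ⟨c, hc, x, hx, y, hy, hxy⟩ := bpg E hA₀ V' hV' hd t ht htg u.1 hNU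
    rw [← hA] at hx hy
    apply hn'
    refine ⟨⟨ρ ⟨y, hy⟩, ⟨_, rfl⟩⟩, ?_⟩
    apply Subtype.ext
    change ρ ⟨y, hy⟩ * (ρ ⟨algebraMap F Φ t, htA⟩) ^ (n + 1) = ρ ⟨a, haA⟩
    have hcV : c ∈ V := V.nonunits_subset hc
    have hcA : algebraMap C Φ c ∈ A := by rw [hA]; exact hVA c hcV
    have e : u = ⟨algebraMap C Φ c, hcA⟩ * ⟨x, hx⟩ + ⟨algebraMap F Φ t, htA⟩ * ⟨y, hy⟩ :=
      Subtype.ext hxy
    have e0 : ρ ⟨algebraMap C Φ c, hcA⟩ = 0 := by
      rw [hρ0]
      by_contra hcon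
      have h1 : (algebraMap C Φ c)⁻¹ ∈ W := by
        rw [ValuationSubring.mem_nonunits_iff, not_lt] at hcon
        rw [← W.valuation_le_one_iff, map_inv₀]
        exact inv_le_one_of_one_le₀ hcon
      rw [← map_inv₀, E.WC] at h1
      have hc0 : c ≠ 0 := by
        intro h
        rw [h, map_zero, ValuationSubring.mem_nonunits_iff, map_zero] at hcon
        exact hcon zero_lt_one
      have h2 := bpd_mul_nonunits hc h1
      rw [mul_inv_cancel₀ hc0, ValuationSubring.mem_nonunits_iff, map_one] at h2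
      exact lt_irrefl _ h2
    rw [← hz', e, map_add, map_mul, map_mul, e0, zero_mul, zero_add]
    ring
  have huA : u.1 ∈ locA (AV A₀ V) V' := by rw [← hA]; exact u.2
  have hu0 : u.1 ≠ 0 := fun h => hunit ⟨huA, Or.inl h⟩
  have hui : u.1⁻¹ ∈ locA (AV A₀ V) V' := by
    by_contra h
    exact hunit ⟨huA, Or.inr h⟩
  refine ⟨n, u.1, huA, hu0, hui, ?_⟩
  have hmem : a - algebraMap F Φ t ^ n * u.1 ∈ A :=
    A.sub_mem haA (A.mul_mem (A.pow_mem htA n) u.2)
  rw [← hρ0 _ hmem]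
  have e : (⟨a - algebraMap F Φ t ^ n * u.1, hmem⟩ : A) =
      ⟨a, haA⟩ - ⟨algebraMap F Φ t, htA⟩ ^ n * u := rfl
  rw [e, map_sub, map_mul, map_pow, ← hz']
  ring

end Pool.Agent.ESH
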