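import Pool.Agent.ESH.BPA

/-!
# ESH / BPE: extension of the derivation

Proof.  `bpe_ext`: a `K`-derivation `D` of `F` extends (uniquely) to a `C`-derivation `D'` of `Φ`: on the `C`-span `E` of `F`
(isomorphic to `C ⊗ F` by `disj`) put `D'(∑ c_i f_i) = ∑ c_i D f_i`, which is well defined and a derivation; `Φ` is the
fraction field of `E` (`gen`).
`bpe`: if `D(A₀) ⊆ A₀` then `D'(AV A₀ V) ⊆ AV A₀ V` (generators; `D'` vanishes on `V`), and `D'(A) ⊆ A` by the quotient rule.
-/

namespace Pool.Agent.ESH

open Pool.Agent.Helper11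

section ext
open scoped TensorProduct

theorem bpe_ext {K F C Φ : Type*} [Field K] [Field F] [Field C] [Field Φ] [Algebra K F] [Algebra K C]
    [Algebra F Φ] [Algebra C Φ] (h : Cmps K F C Φ) (D : Derivation K F F) :
    ∃ D' : Derivation C Φ Φ, ∀ f : F, D' (algebraMap F Φ f) = algebraMap F Φ (D f) := by
  classical
  let : Algebra K Φ := ((algebraMap F Φ).comp (algebraMap K F)).toAlgebra
  have : IsScalarTower K F Φ := IsScalarTower.of_algebraMap_eq (fun x => rfl)
  have : IsScalarTower K C Φ := IsScalarTower.of_algebraMap_eq (fun x => h.comm x)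
  let μ : C ⊗[K] F →ₐ[C] Φ := Algebra.TensorProduct.lift (Algebra.ofId C Φ)
    (IsScalarTower.toAlgHom K F Φ) (fun _ _ => Commute.all _ _)
  have hμt : ∀ (c : C) (f : F), μ (c ⊗ₜ f) = algebraMap C Φ c * algebraMap F Φ f := by
    intro c f
    simp [μ, Algebra.TensorProduct.lift_tmul, Algebra.ofId_apply]
  have hμ : Function.Injective μ := by
    let b := Module.Basis.ofVectorSpace K F
    let B := b.baseChange C
    have hB : ∀ i, μ (B i) = algebraMap F Φ (b i) := by
      intro i
      rw [Module.Basis.baseChange_apply, hμt, map_one, one_mul]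
    have hli : LinearIndependent C (fun i => algebraMap F Φ (b i)) := by
      rw [linearIndependent_iff_finset_linearIndependent]
      intro s
      have e := s.equivFin
      have h1 : LinearIndependent K (fun j : Fin s.card => b ((e.symm j : s) : _)) := by
        refine b.linearIndependent.comp _ ?_
        intro j k hjk
        exact e.symm.injective (Subtype.ext hjk)
      have h2 := h.disj _ _ h1
      have h3 := h2.comp e e.injective
      refine (Eq.mp ?_ h3)
      congr 1
      funext i
      simp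
    have h4 := Module.Basis.injective_constr_of_linearIndependent (R₂ := C) (b := B)
      (v := fun i => algebraMap F Φ (b i)) hli
    have h5 : (B.constr C fun i => algebraMap F Φ (b i)) = μ.toLinearMap := by
      refine B.ext fun i => ?_
      rw [Module.Basis.constr_basis]
      exact (hB i).symm
    intro x y hxy
    apply h4
    rw [h5]
    exact hxy
  let : Algebra (C ⊗[K] F) Φ := μ.toRingHom.toAlgebra
  have hal : ∀ x : C ⊗[K] F, algebraMap (C ⊗[K] F) Φ x = μ x := fun x => rfl
  have hsp : ∀ a ∈ Submodule.span C (Set.range (algebraMap F Φ)), ∃ x : C ⊗[K] F, μ x = a := by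
    intro a ha
    induction ha using Submodule.span_induction with
    | mem x hx =>
      obtain ⟨f, rfl⟩ := hx
      exact ⟨1 ⊗ₜ f, by rw [hμt, map_one, one_mul]⟩
    | zero => exact ⟨0, map_zero _⟩
    | add x y _ _ hx hy =>
      obtain ⟨u, rfl⟩ := hx
      obtain ⟨v, rfl⟩ := hy
      exact ⟨u + v, map_add _ _ _⟩
    | smul c x _ hx =>
      obtain ⟨u, rfl⟩ := hx
      exact ⟨c • u, map_smul _ _ _⟩
  have hfs : FaithfulSMul (C ⊗[K] F) Φ := by
    rw [faithfulSMul_iff_algebraMap_injective]
    exact hμ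
  have hfr : IsFractionRing (C ⊗[K] F) Φ := by
    refine IsFractionRing.of_field _ _ ?_
    intro z
    obtain ⟨a, ha, b, hb, hb0, hab⟩ := h.gen z
    obtain ⟨u, rfl⟩ := hsp a ha
    obtain ⟨v, rfl⟩ := hsp b hb
    exact ⟨u, v, by rw [hal, hal, eq_div_iff hb0, hab]⟩
  -- dual numbers
  let φ : F →ₐ[K] TrivSqZeroExt Φ Φ :=
    { toFun := fun f => TrivSqZeroExt.inl (algebraMap F Φ f) + TrivSqZeroExt.inr (algebraMap F Φ (D f))
      map_one' := by
        ext
        · simp
        · simp [-Derivation.leibniz]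
      map_zero' := by ext <;> simp
      map_mul' := by
        intro x y
        ext
        · simp
        · simp only [TrivSqZeroExt.snd_add, TrivSqZeroExt.snd_inl, TrivSqZeroExt.snd_inr, TrivSqZeroExt.snd_mul,
            TrivSqZeroExt.fst_add, TrivSqZeroExt.fst_inl, TrivSqZeroExt.fst_inr, Derivation.leibniz,
            smul_eq_mul, map_add, map_mul, zero_add, add_zero, op_smul_eq_smul]
      map_add' := by
        intro x y
        ext
        · simp
        · simp only [TrivSqZeroExt.snd_add, TrivSqZeroExt.snd_inl, TrivSqZeroExt.snd_inr, map_add,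
            zero_add, add_zero]
      commutes' := by
        intro r
        ext
        · simp only [TrivSqZeroExt.algebraMap_eq_inl', TrivSqZeroExt.fst_add, TrivSqZeroExt.fst_inl,
            TrivSqZeroExt.fst_inr, add_zero]
          rfl
        · simp only [TrivSqZeroExt.algebraMap_eq_inl', TrivSqZeroExt.snd_add, TrivSqZeroExt.snd_inl,
            TrivSqZeroExt.snd_inr, add_zero, Derivation.map_algebraMap, map_zero] }
  let ν : C ⊗[K] F →ₐ[C] TrivSqZeroExt Φ Φ := Algebra.TensorProduct.lift (Algebra.ofId C _)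
    φ (fun _ _ => Commute.all _ _)
  have hν : ∀ x : C ⊗[K] F, (ν x).fst = μ x := by
    intro x
    induction x with
    | zero => simp
    | add x y hx hy => rw [map_add, TrivSqZeroExt.fst_add, hx, hy, map_add]
    | tmul c f =>
      rw [hμt]
      simp [ν, φ, Algebra.TensorProduct.lift_tmul, Algebra.ofId_apply, TrivSqZeroExt.algebraMap_eq_inl']
  have hu : ∀ y : nonZeroDivisors (C ⊗[K] F), IsUnit (ν.toRingHom y) := by
    intro y
    rw [TrivSqZeroExt.isUnit_iff_isUnit_fst]
    have h1 : (ν.toRingHom (y : C ⊗[K] F)).fst = μ y := hν y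
    rw [h1, isUnit_iff_ne_zero]
    intro h2
    have h3 : (y : C ⊗[K] F) = 0 := hμ (by rw [h2, map_zero])
    have h4 : Nontrivial (C ⊗[K] F) := μ.toRingHom.domain_nontrivial
    exact nonZeroDivisors.ne_zero y.2 h3
  let L : Φ →+* TrivSqZeroExt Φ Φ := IsLocalization.lift (M := nonZeroDivisors (C ⊗[K] F)) hu
  have hL : ∀ x : C ⊗[K] F, L (μ x) = ν x := by
    intro x
    exact IsLocalization.lift_eq (M := nonZeroDivisors (C ⊗[K] F)) hu x
  have hL1 : ∀ z : Φ, (L z).fst = z := by
    have h1 : (TrivSqZeroExt.fstHom Φ Φ Φ).toRingHom.comp L = RingHom.id Φ := by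
      refine IsLocalization.ringHom_ext (nonZeroDivisors (C ⊗[K] F)) (RingHom.ext fun x => ?_)
      change (L (μ x)).fst = μ x
      rw [hL, hν]
    intro z
    exact congrArg (fun g : Φ →+* Φ => g z) h1
  have hLF : ∀ f : F, L (algebraMap F Φ f) =
      TrivSqZeroExt.inl (algebraMap F Φ f) + TrivSqZeroExt.inr (algebraMap F Φ (D f)) := by
    intro f
    have h1 : μ (1 ⊗ₜ f) = algebraMap F Φ f := by rw [hμt, map_one, one_mul]
    rw [← h1, hL]
    simp only [ν, Algebra.TensorProduct.lift_tmul, map_one, one_mul]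
    rw [h1]
    rfl
  have hLC : ∀ c : C, L (algebraMap C Φ c) = TrivSqZeroExt.inl (algebraMap C Φ c) := by
    intro c
    have h1 : μ (c ⊗ₜ 1) = algebraMap C Φ c := by rw [hμt, map_one, mul_one]
    rw [← h1, hL]
    simp only [ν, Algebra.TensorProduct.lift_tmul, map_one, mul_one]
    rw [h1]
    rfl
  refine ⟨Derivation.mk' { toFun := fun z => (L z).snd, map_add' := ?_, map_smul' := ?_ } ?_, ?_⟩
  · intro x y
    rw [map_add, TrivSqZeroExt.snd_add]
  · intro c x
    rw [Algebra.smul_def, map_mul, hLC, TrivSqZeroExt.snd_mul]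
    simp [Algebra.smul_def]
  · intro x y
    change (L (x * y)).snd = x • (L y).snd + y • (L x).snd
    rw [map_mul, TrivSqZeroExt.snd_mul, hL1, hL1, op_smul_eq_smul]
  · intro f
    change (L (algebraMap F Φ f)).snd = _
    rw [hLF]
    simp only [TrivSqZeroExt.snd_add, TrivSqZeroExt.snd_inl, TrivSqZeroExt.snd_inr, zero_add]

end ext

variable {O K F C Φ : Type*} [CommRing O] [IsDomain O] [IsDiscreteValuationRing O] [Field K] [CharZero K]
  [Algebra O K] [IsFractionRing O K] [Field F] [Algebra K F] [Algebra O F] [IsScalarTower O K F]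
  [FunField K F] [Field C] [CharZero C] [Algebra K C] [Algebra.IsAlgebraic K C] [IsAlgClosed C] [Field Φ]
  [Algebra F Φ] [Algebra C Φ] [Finite (IsLocalRing.ResidueField O)]

theorem bpe {W₀ : ValuationSubring F} {pts₀ : Set (Subring F)} {V : ValuationSubring C}
    {W : ValuationSubring Φ} (E : BExt O K W₀ pts₀ V W) {A₀ : Subring F} (hA₀ : A₀ ∈ pts₀)
    (V' : ValuationSubring Φ) (hV' : ∀ c : C, algebraMap C Φ c ∈ V' ↔ c ∈ V)
    (hd : Dom A₀ (V'.comap (algebraMap F Φ))) (D : Derivation K F F) (hD : ∀ a ∈ A₀, D a ∈ A₀)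
    (D' : Derivation C Φ Φ) (hD' : ∀ f : F, D' (algebraMap F Φ f) = algebraMap F Φ (D f)) (a : Φ)
    (ha : a ∈ locA (AV A₀ V) V') : D' a ∈ locA (AV A₀ V) V' := by
  have hS : ∀ x ∈ AV A₀ V, D' x ∈ AV A₀ V := by
    intro x hx
    unfold AV at hx
    induction hx using Subring.closure_induction with
    | mem x hx =>
      rcases hx with ⟨f, hf, rfl⟩ | ⟨c, hc, rfl⟩
      · rw [hD']
        exact Subring.subset_closure (Or.inl ⟨D f, hD f hf, rfl⟩)
      · rw [D'.map_algebraMap]
        exact Subring.zero_mem _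
    | zero => rw [map_zero]; exact Subring.zero_mem _
    | one => rw [D'.map_one_eq_zero]; exact Subring.zero_mem _
    | add x y _ _ hx hy => rw [map_add]; exact Subring.add_mem _ hx hy
    | neg x _ hx => rw [map_neg]; exact Subring.neg_mem _ hx
    | mul x y hx' hy' hx hy =>
      rw [D'.leibniz]
      exact Subring.add_mem _ (Subring.mul_mem _ hx' hy) (Subring.mul_mem _ hy' hx)
  obtain ⟨b, hb, s, hs, h0, h1, h2, h3⟩ := ha
  refine ⟨D' b * s - b * D' s, Subring.sub_mem _ (Subring.mul_mem _ (hS b hb) hs)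
    (Subring.mul_mem _ hb (hS s hs)), s * s, Subring.mul_mem _ hs hs, mul_ne_zero h0 h0,
    V'.mul_mem _ _ h1 h1, by rw [mul_inv]; exact V'.mul_mem _ _ h2 h2, ?_⟩
  rw [← h3, D'.leibniz, smul_eq_mul, smul_eq_mul]
  ring

end Pool.Agent.ESH
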