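import Pool.Agent.ESH.DefsG
import Pool.Agent.Helper11.Residue

/-!
# ESH / EVL: evaluation at places, composite valuation rings

Existence of the value: `Pool.Agent.Helper11.Place.exists_residue`; uniqueness: a non-zero constant has order `0`, so
is not in `R.ge 1`.  Sums and products of `f = c + (order ≥ 1)`.  If `ev R f ≠ 0` then `R.ord f = 0`.
`evl_vr`: `V' = {f ∈ R.ge 0 | ev R f ∈ V}` is a subring; it is a valuation ring: if `R.ord f < 0` then
`f⁻¹ ∈ R.ge 1`, value `0 ∈ V`; if `R.ord f > 0`, value `0`; if `R.ord f = 0`, `ev R f⁻¹ = (ev R f)⁻¹` and `V` is a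
valuation ring.  Non-units: `f ∈ V'` with `f = 0` or `f⁻¹ ∉ V'`.
`evl_map`: `σ f - s c = σ (f - c)` and `(plMap σ s hs P).ord (σ g) = P.ord g`.
-/

namespace Pool.Agent.ESH

open Pool.Agent.Helper11

variable {C Φ : Type*} [Field C] [Field Φ] [Algebra C Φ] [FunField C Φ] [CharZero C] [IsAlgClosed C]

private theorem evl_aux_ge0 (R : Place C Φ) {f : Φ} {c : C} (h : f - algebraMap C Φ c ∈ R.ge 1) : f ∈ R.ge 0 := by
  have h1 := add_mem (R.ge_anti (by norm_num : (0 : ℤ) ≤ 1) h) (R.algebraMap_mem_ge c)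
  rwa [sub_add_cancel] at h1

private theorem evl_aux_uniq (R : Place C Φ) {c : C} (h : algebraMap C Φ c ∈ R.ge 1) : c = 0 := by
  by_contra hc
  have h1 := R.le_ord_of_mem h (by simpa using hc)
  rw [R.ord_algebraMap] at h1
  omega

private theorem evl_aux_nu {K : Type*} [Field K] (A : ValuationSubring K) (a : K) :
    a ∈ A.nonunits ↔ a = 0 ∨ a⁻¹ ∉ A := by
  rw [ValuationSubring.mem_nonunits_iff]
  by_cases ha : a = 0
  · subst ha
    simp
  · have h1 : A.valuation a ≠ 0 := (Valuation.ne_zero_iff _).2 ha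
    rw [← ValuationSubring.valuation_le_one_iff, map_inv₀, inv_le_one₀ (zero_lt_iff.2 h1), not_le]
    simp [ha]

theorem evl_mem (R : Place C Φ) {f : Φ} (hf : f ∈ R.ge 0) : f - algebraMap C Φ (ev R f) ∈ R.ge 1 := by
  have h : ∃ c : C, f - algebraMap C Φ c ∈ R.ge 1 := R.exists_residue hf
  unfold ev
  rw [dif_pos h]
  exact h.choose_spec

theorem evl_eq (R : Place C Φ) {f : Φ} {c : C} (h : f - algebraMap C Φ c ∈ R.ge 1) : ev R f = c := by
  have h1 := evl_mem R (evl_aux_ge0 R h)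
  have h2 := sub_mem h h1
  have h3 : f - algebraMap C Φ c - (f - algebraMap C Φ (ev R f)) = algebraMap C Φ (ev R f - c) := by
    rw [map_sub]; ring
  rw [h3] at h2
  exact sub_eq_zero.1 (evl_aux_uniq R h2)

theorem evl_const (R : Place C Φ) (c : C) : ev R (algebraMap C Φ c) = c :=
  evl_eq R (by rw [sub_self]; exact zero_mem _)

theorem evl_add (R : Place C Φ) {f g : Φ} (hf : f ∈ R.ge 0) (hg : g ∈ R.ge 0) :
    ev R (f + g) = ev R f + ev R g := by
  apply evl_eq
  have h := add_mem (evl_mem R hf) (evl_mem R hg)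
  have h3 : f - algebraMap C Φ (ev R f) + (g - algebraMap C Φ (ev R g)) =
      f + g - algebraMap C Φ (ev R f + ev R g) := by
    rw [map_add]; ring
  rwa [h3] at h

theorem evl_sub (R : Place C Φ) {f g : Φ} (hf : f ∈ R.ge 0) (hg : g ∈ R.ge 0) :
    ev R (f - g) = ev R f - ev R g := by
  apply evl_eq
  have h := sub_mem (evl_mem R hf) (evl_mem R hg)
  have h3 : f - algebraMap C Φ (ev R f) - (g - algebraMap C Φ (ev R g)) =
      f - g - algebraMap C Φ (ev R f - ev R g) := by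
    rw [map_sub]; ring
  rwa [h3] at h

theorem evl_mul (R : Place C Φ) {f g : Φ} (hf : f ∈ R.ge 0) (hg : g ∈ R.ge 0) :
    ev R (f * g) = ev R f * ev R g := by
  apply evl_eq
  have h1 := R.mul_mem_ge (evl_mem R hf) hg
  have h2 := R.mul_mem_ge (R.algebraMap_mem_ge (ev R f)) (evl_mem R hg)
  rw [add_zero] at h1
  rw [zero_add] at h2
  have h := add_mem h1 h2
  have h3 : (f - algebraMap C Φ (ev R f)) * g + algebraMap C Φ (ev R f) * (g - algebraMap C Φ (ev R g)) =
      f * g - algebraMap C Φ (ev R f * ev R g) := by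
    rw [map_mul]; ring
  rwa [h3] at h

theorem evl_zero_iff (R : Place C Φ) {f : Φ} (hf : f ∈ R.ge 0) : ev R f = 0 ↔ f ∈ R.ge 1 := by
  constructor
  · intro h
    have h1 := evl_mem R hf
    rwa [h, map_zero, sub_zero] at h1
  · intro h
    apply evl_eq
    rwa [map_zero, sub_zero]

theorem evl_inv (R : Place C Φ) {f : Φ} (hf : f ∈ R.ge 0) (h : ev R f ≠ 0) :
    f⁻¹ ∈ R.ge 0 ∧ ev R f⁻¹ = (ev R f)⁻¹ := by
  have h1 : f ∉ R.ge 1 := fun h2 => h ((evl_zero_iff R hf).2 h2)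
  have h2 : f ≠ 0 := by
    rintro rfl
    exact h1 (zero_mem _)
  have h3 : ¬ (1 : ℤ) ≤ R.ord f := fun h4 => h1 (R.mem_ge_of_le h4)
  have h5 : f⁻¹ ∈ R.ge 0 := by
    apply R.mem_ge_of_le
    rw [R.ord_inv]
    omega
  refine ⟨h5, ?_⟩
  have h6 := evl_mul R hf h5
  rw [mul_inv_cancel₀ h2] at h6
  have h7 : ev R (1 : Φ) = 1 := by
    have := evl_const R (1 : C)
    rwa [map_one] at this
  rw [h7] at h6
  exact eq_inv_of_mul_eq_one_right h6.symm

private theorem evl_aux_neg (R : Place C Φ) {f : Φ} (hf : f ∉ R.ge 0) : f⁻¹ ∈ R.ge 0 ∧ ev R f⁻¹ = 0 := by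
  have h1 : ¬ (0 : ℤ) ≤ R.ord f := fun h4 => hf (R.mem_ge_of_le h4)
  have h2 : f⁻¹ ∈ R.ge 1 := by
    apply R.mem_ge_of_le
    rw [R.ord_inv]
    omega
  have h3 : f⁻¹ ∈ R.ge 0 := R.ge_anti (by norm_num : (0 : ℤ) ≤ 1) h2
  exact ⟨h3, (evl_zero_iff R h3).2 h2⟩

private def evl_ring (V : ValuationSubring C) (R : Place C Φ) : ValuationSubring Φ where
  carrier := {f | f ∈ R.ge 0 ∧ ev R f ∈ V}
  mul_mem' := by
    rintro a b ⟨ha, ha'⟩ ⟨hb, hb'⟩
    refine ⟨?_, ?_⟩
    · have := R.mul_mem_ge ha hb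
      rwa [add_zero] at this
    · rw [evl_mul R ha hb]
      exact mul_mem ha' hb'
  one_mem' := by
    refine ⟨R.one_mem_ge, ?_⟩
    have := evl_const R (1 : C)
    rw [map_one] at this
    rw [this]
    exact one_mem _
  add_mem' := by
    rintro a b ⟨ha, ha'⟩ ⟨hb, hb'⟩
    refine ⟨add_mem ha hb, ?_⟩
    rw [evl_add R ha hb]
    exact add_mem ha' hb'
  zero_mem' := by
    refine ⟨zero_mem _, ?_⟩
    have := evl_const R (0 : C)
    rw [map_zero] at this
    rw [this]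
    exact zero_mem _
  neg_mem' := by
    rintro a ⟨ha, ha'⟩
    refine ⟨neg_mem ha, ?_⟩
    have h0 : ev R (0 : Φ) = 0 := by
      have := evl_const R (0 : C)
      rwa [map_zero] at this
    have h1 := evl_sub R (zero_mem (R.ge 0)) ha
    rw [zero_sub, h0, zero_sub] at h1
    rw [h1]
    exact neg_mem ha'
  mem_or_inv_mem' := by
    intro f
    by_cases hf : f ∈ R.ge 0
    · by_cases h0 : ev R f = 0
      · left
        refine ⟨hf, ?_⟩
        rw [h0]
        exact zero_mem _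
      · obtain ⟨h1, h2⟩ := evl_inv R hf h0
        rcases V.mem_or_inv_mem (ev R f) with h3 | h3
        · exact Or.inl ⟨hf, h3⟩
        · right
          refine ⟨h1, ?_⟩
          rw [h2]
          exact h3
    · obtain ⟨h1, h2⟩ := evl_aux_neg R hf
      right
      refine ⟨h1, ?_⟩
      rw [h2]
      exact zero_mem _

theorem evl_vr (V : ValuationSubring C) (R : Place C Φ) :
    ∃ V' : ValuationSubring Φ, (∀ f, f ∈ V' ↔ f ∈ R.ge 0 ∧ ev R f ∈ V) ∧
      (∀ f, f ∈ V'.nonunits ↔ f ∈ R.ge 0 ∧ ev R f ∈ V.nonunits) := by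
  have hm : ∀ f, f ∈ evl_ring V R ↔ f ∈ R.ge 0 ∧ ev R f ∈ V := fun f => Iff.rfl
  refine ⟨evl_ring V R, hm, ?_⟩
  intro f
  rw [evl_aux_nu, evl_aux_nu, hm]
  constructor
  · rintro (rfl | h)
    · refine ⟨zero_mem _, Or.inl ?_⟩
      have := evl_const R (0 : C)
      rwa [map_zero] at this
    · have hf : f ∈ R.ge 0 := by
        by_contra hf
        obtain ⟨h1, h2⟩ := evl_aux_neg R hf
        apply h
        refine ⟨h1, ?_⟩
        rw [h2]
        exact zero_mem _
      refine ⟨hf, ?_⟩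
      by_cases h0 : ev R f = 0
      · exact Or.inl h0
      · obtain ⟨h1, h2⟩ := evl_inv R hf h0
        right
        intro h3
        apply h
        refine ⟨h1, ?_⟩
        rw [h2]
        exact h3
  · rintro ⟨hf, h⟩
    by_cases h0 : f = 0
    · exact Or.inl h0
    right
    rintro ⟨h1, h2⟩
    have h6 := evl_mul R hf h1
    rw [mul_inv_cancel₀ h0] at h6
    have h7 : ev R (1 : Φ) = 1 := by
      have := evl_const R (1 : C)
      rwa [map_one] at this
    rw [h7] at h6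
    have h8 : ev R f⁻¹ = (ev R f)⁻¹ := eq_inv_of_mul_eq_one_right h6.symm
    rcases h with h | h
    · rw [h, zero_mul] at h6
      exact one_ne_zero h6
    · rw [h8] at h2
      exact h h2

theorem plMap_ge (σ : Φ ≃+* Φ) (s : C ≃+* C) (hs : ∀ c : C, σ (algebraMap C Φ c) = algebraMap C Φ (s c))
    (P : Place C Φ) (n : ℤ) (f : Φ) : σ f ∈ (plMap σ s hs P).ge n ↔ f ∈ P.ge n := by
  rw [Place.mem_ge, Place.mem_ge]
  have h1 : (plMap σ s hs P).ord (σ f) = P.ord f := by
    show P.ord (σ.symm (σ f)) = P.ord f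
    rw [RingEquiv.symm_apply_apply]
  rw [h1, EmbeddingLike.map_eq_zero_iff]

theorem evl_map (σ : Φ ≃+* Φ) (s : C ≃+* C) (hs : ∀ c : C, σ (algebraMap C Φ c) = algebraMap C Φ (s c))
    (P : Place C Φ) {f : Φ} (hf : f ∈ P.ge 0) : ev (plMap σ s hs P) (σ f) = s (ev P f) := by
  apply evl_eq
  have h := (plMap_ge σ s hs P 1 (f - algebraMap C Φ (ev P f))).2 (evl_mem P hf)
  rwa [map_sub, hs] at h

end Pool.Agent.ESH
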