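import Pool.Agent.ESH.BPG
import Pool.Agent.ESH.EVL

/-!
# ESH / BPZ: `t - c` generates the kernel of the evaluation at a place

Proof.  Let `R` be a place with `A ⊆ R.ge 0`, `c ∈ C` with `t - c ∈ R.ge 1`, and `I = {a ∈ A | a ∈ R.ge 1}`.
(0) `ev R` maps `A` into `V`, and non-units of `A` into `V.nonunits`: as in SPC (rank one; that proof uses only the properties of BPA and
BPR, not the other fields of `IsPt`); so `c ∈ V.nonunits`.
(1) `I` is a finitely generated ideal of `A`: by `fin`, `A` is the localisation (at units of `V'`) of the subring `V[x_1, ..., x_r]`,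
`x_i ∈ A₀`; an element of `A` with value `0` at `R` is `b/s` with `b` a polynomial in the `x_i` with coefficients in `V`, of value `0`
at `x_i ↦ ev R x_i ∈ V`, so `b` is in the ideal generated by the `x_i - ev R x_i`.
(2) `I ⊆ (t - c) A + V.nonunits I`: let `a ∈ I`; `a` is a non-unit of `A`, so (BPG) `a = c₁ x + t y = c₁ x + c y + (t - c) y`, and
`c₁ x + c y = c₂ z`, `c₂ ∈ V.nonunits` the larger one of `c₁, c`, `z ∈ A`; evaluating, `c₂ ev R z = 0`; if `c₂ ≠ 0` then `z ∈ I`.
(3) Nakayama for the finitely generated module `I/(t - c)A` over the local ring `A` (`V.nonunits ⊆` maximal ideal): `I = (t - c) A`.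
-/

namespace Pool.Agent.ESH

open Pool.Agent.Helper11

section BpzPrivate

variable {C Φ : Type*} [Field C] [Field Φ] [Algebra C Φ] [FunField C Φ] [CharZero C] [IsAlgClosed C]

private theorem bpz_nonunits {K : Type*} [Field K] (A : ValuationSubring K) (a : K) :
    a ∈ A.nonunits ↔ a = 0 ∨ a⁻¹ ∉ A := by
  rw [ValuationSubring.mem_nonunits_iff]
  by_cases ha : a = 0
  · subst ha
    simp
  · have h1 : A.valuation a ≠ 0 := (Valuation.ne_zero_iff _).2 ha
    rw [← ValuationSubring.valuation_le_one_iff, map_inv₀, inv_le_one₀ (zero_lt_iff.2 h1), not_le]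
    simp [ha]

private theorem bpz_exc {V : ValuationSubring C} (hV : V ≠ ⊤) : ∃ c : C, c ≠ 0 ∧ c ∈ V.nonunits := by
  have h1 : ∃ x : C, x ∉ V := by
    by_contra hcon
    push Not at hcon
    exact hV (eq_top_iff.2 fun x _ => hcon x)
  obtain ⟨x, hx⟩ := h1
  have hx0 : x ≠ 0 := by
    rintro rfl
    exact hx V.zero_mem
  refine ⟨x⁻¹, inv_ne_zero hx0, ?_⟩
  rw [ValuationSubring.mem_nonunits_iff, map_inv₀]
  rw [← V.valuation_le_one_iff, not_le] at hx
  exact inv_lt_one_of_one_lt₀ hx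

private theorem bpz_nu_neg {A : Subring Φ} {a : Φ} (h : NU A a) : NU A (-a) := by
  refine ⟨A.neg_mem h.1, ?_⟩
  rcases h.2 with h2 | h2
  · left; rw [h2, neg_zero]
  · right
    intro h3
    apply h2
    have := A.neg_mem h3
    rwa [inv_neg, neg_neg] at this

private theorem bpz_nu_mul {A : Subring Φ} {a b : Φ} (h : NU A a) (hb : b ∈ A) : NU A (a * b) := by
  refine ⟨A.mul_mem h.1 hb, ?_⟩
  by_cases h0 : a * b = 0
  · exact Or.inl h0
  · right
    intro h3
    have ha0 : a ≠ 0 := left_ne_zero_of_mul h0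
    have hb0 : b ≠ 0 := right_ne_zero_of_mul h0
    rcases h.2 with h2 | h2
    · exact ha0 h2
    · apply h2
      have := A.mul_mem hb h3
      rwa [mul_inv_rev, ← mul_assoc, mul_inv_cancel₀ hb0, one_mul] at this

private theorem bpz_unit {A : Subring Φ} {R : Place C Φ} (hR : Below A R) {a : Φ}
    (h0 : a ≠ 0) (h1 : a ∈ A) (h2 : a⁻¹ ∈ A) : ev R a * ev R a⁻¹ = 1 := by
  rw [← evl_mul R (hR a h1) (hR _ h2), mul_inv_cancel₀ h0]
  have := evl_const R (1 : C)
  rwa [map_one] at this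

private theorem bpz_one_sub {A : Subring Φ} (add : ∀ a b, NU A a → NU A b → NU A (a + b))
    {x : Φ} (hx : NU A x) : 1 + x ∈ A ∧ 1 + x ≠ 0 ∧ (1 + x)⁻¹ ∈ A := by
  have hbA : 1 + x ∈ A := A.add_mem A.one_mem hx.1
  have hb : ¬ NU A (1 + x) := by
    intro hb
    have h1 := add _ _ hb (bpz_nu_neg hx)
    have h2 : 1 + x + -x = 1 := by ring
    rw [h2] at h1
    rcases h1.2 with h3 | h3
    · exact one_ne_zero h3
    · exact h3 (by rw [inv_one]; exact A.one_mem)
  refine ⟨hbA, fun h0 => hb ⟨hbA, Or.inl h0⟩, ?_⟩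
  by_contra h0
  exact hb ⟨hbA, Or.inr h0⟩

/-- values are in `V` -/
private theorem bpz_ev1 {V : ValuationSubring C} {A : Subring Φ} (hV : Rk1 V)
    (base : ∀ c ∈ V, algebraMap C Φ c ∈ A) (add : ∀ a b, NU A a → NU A b → NU A (a + b))
    (nub : ∀ c ∈ V.nonunits, NU A (algebraMap C Φ c))
    (R : Place C Φ) (hR : Below A R) (a : Φ) (ha : a ∈ A) : ev R a ∈ V := by
  by_contra hcon
  have he0 : ev R a ≠ 0 := by
    intro h0
    rw [h0] at hcon
    exact hcon V.zero_mem
  have hy : (ev R a)⁻¹ ∈ V.nonunits := by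
    rw [ValuationSubring.mem_nonunits_iff, map_inv₀]
    rw [← V.valuation_le_one_iff, not_le] at hcon
    exact inv_lt_one_of_one_lt₀ hcon
  obtain ⟨c₀, hc₀, hc₀n⟩ := bpz_exc hV.1
  obtain ⟨n, hn⟩ := hV.2 c₀⁻¹ _ hy (inv_ne_zero he0)
  set d := (ev R a)⁻¹ ^ n * c₀⁻¹ with hd
  have hxA : algebraMap C Φ d * a ^ n ∈ A := A.mul_mem (base d hn) (A.pow_mem ha n)
  have hnu : NU A (algebraMap C Φ c₀ * (algebraMap C Φ d * a ^ n)) :=
    bpz_nu_mul (nub c₀ hc₀n) hxA
  obtain ⟨hb1, hb2, hb3⟩ := bpz_one_sub add (bpz_nu_neg hnu)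
  have hu := bpz_unit hR hb2 hb1 hb3
  have hpow : ∀ m : ℕ, ev R (a ^ m) = ev R a ^ m := by
    intro m
    induction m with
    | zero =>
      have := evl_const R (1 : C)
      rw [map_one] at this
      simpa using this
    | succ m ih => rw [pow_succ, evl_mul R (hR _ (A.pow_mem ha m)) (hR a ha), ih, pow_succ]
  have hone : ev R (1 : Φ) = 1 := by
    have := evl_const R (1 : C)
    rwa [map_one] at this
  have hev : ev R (1 + -(algebraMap C Φ c₀ * (algebraMap C Φ d * a ^ n))) = 0 := by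
    rw [← sub_eq_add_neg, evl_sub R (hR _ A.one_mem) (hR _ hnu.1), hone,
      evl_mul R (R.algebraMap_mem_ge c₀) (hR _ hxA), evl_const,
      evl_mul R (R.algebraMap_mem_ge d) (hR _ (A.pow_mem ha n)), evl_const, hpow, hd]
    rw [inv_pow]
    field_simp
    ring
  rw [hev, zero_mul] at hu
  exact zero_ne_one hu

/-- elements with value `0` are non-units -/
private theorem bpz_nu_of_ge {A : Subring Φ} (R : Place C Φ) (hR : Below A R) (a : Φ) (ha : a ∈ A)
    (h1 : a ∈ R.ge 1) : NU A a := by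
  refine ⟨ha, ?_⟩
  by_contra h0
  push Not at h0
  have hu := bpz_unit hR h0.1 ha h0.2
  rw [(evl_zero_iff R (hR a ha)).2 h1, zero_mul] at hu
  exact zero_ne_one hu

/-- non-units have values in the maximal ideal -/
private theorem bpz_ev2 {V : ValuationSubring C} {A : Subring Φ} (hV : Rk1 V)
    (base : ∀ c ∈ V, algebraMap C Φ c ∈ A) (add : ∀ a b, NU A a → NU A b → NU A (a + b))
    (nub : ∀ c ∈ V.nonunits, NU A (algebraMap C Φ c))
    (R : Place C Φ) (hR : Below A R) (a : Φ) (hnu : NU A a) : ev R a ∈ V.nonunits := by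
  by_contra hcon
  have ha := hnu.1
  have hcV := bpz_ev1 hV base add nub R hR a ha
  rw [bpz_nonunits] at hcon
  push Not at hcon
  have hcA : algebraMap C Φ (ev R a) ∈ A := base _ hcV
  have hsA : a - algebraMap C Φ (ev R a) ∈ A := A.sub_mem ha hcA
  have hs : NU A (a - algebraMap C Φ (ev R a)) :=
    bpz_nu_of_ge R hR _ hsA (evl_mem R (hR a ha))
  have h1 := add _ _ hnu (bpz_nu_neg hs)
  have h2 : a + -(a - algebraMap C Φ (ev R a)) = algebraMap C Φ (ev R a) := by ring
  rw [h2] at h1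
  rcases h1.2 with h3 | h3
  · exact hcon.1 (by simpa using h3)
  · apply h3
    rw [← map_inv₀]
    exact base _ hcon.2

/-- common divisor of two elements of the maximal ideal -/
private theorem bpz_two {V : ValuationSubring C} {c₁ c₂ : C} (h1 : c₁ ∈ V.nonunits)
    (h2 : c₂ ∈ V.nonunits) : ∃ c₃ ∈ V.nonunits, ∃ d₁ ∈ V, ∃ d₂ ∈ V, c₁ = c₃ * d₁ ∧ c₂ = c₃ * d₂ := by
  by_cases h : c₂ = 0
  · exact ⟨c₁, h1, 1, V.one_mem, 0, V.zero_mem, by rw [mul_one], by rw [h, mul_zero]⟩
  rcases V.mem_or_inv_mem (c₁ / c₂) with h3 | h3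
  · exact ⟨c₂, h2, c₁ / c₂, h3, 1, V.one_mem, by rw [mul_div_cancel₀ _ h], by rw [mul_one]⟩
  · by_cases h' : c₁ = 0
    · exact ⟨c₂, h2, 0, V.zero_mem, 1, V.one_mem, by rw [h', mul_zero], by rw [mul_one]⟩
    · rw [inv_div] at h3
      exact ⟨c₁, h1, 1, V.one_mem, c₂ / c₁, h3, by rw [mul_one], by rw [mul_div_cancel₀ _ h']⟩

/-- the abstract form -/
private theorem bpz_core {V : ValuationSubring C} (A : Subring Φ) (hV : Rk1 V)
    (base : ∀ c ∈ V, algebraMap C Φ c ∈ A) (add : ∀ a b, NU A a → NU A b → NU A (a + b))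
    (nub : ∀ c ∈ V.nonunits, NU A (algebraMap C Φ c))
    (R : Place C Φ) (hR : Below A R) (T : Set Φ) (hTf : T.Finite) (hT : ∀ x ∈ T, x ∈ A)
    (B : Subring Φ) (hB : B = Subring.closure (T ∪ (algebraMap C Φ) '' (V : Set C)))
    (hfin : ∀ a ∈ A, ∃ u ∈ A, u ≠ 0 ∧ u⁻¹ ∈ A ∧ a * u ∈ B)
    (t : Φ) (ht : NU A t)
    (htg : ∀ a, NU A a → ∃ c ∈ V.nonunits, ∃ x ∈ A, ∃ y ∈ A, a = algebraMap C Φ c * x + t * y)
    (c : C) (hc : t - algebraMap C Φ c ∈ R.ge 1) (a : Φ) (ha : a ∈ A) (haR : a ∈ R.ge 1) :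
    ∃ b ∈ A, a = (t - algebraMap C Φ c) * b := by
  classical
  have hcn : c ∈ V.nonunits := by
    have h1 := bpz_ev2 hV base add nub R hR t ht
    rwa [evl_eq R hc] at h1
  have hcV : c ∈ V := V.nonunits_subset hcn
  -- the kernel of the evaluation
  let I : Ideal A :=
    { carrier := {x : A | (x : Φ) ∈ R.ge 1}
      add_mem' := fun {x y} hx hy => by
        change ((x + y : A) : Φ) ∈ R.ge 1
        rw [Subring.coe_add]
        exact add_mem hx hy
      zero_mem' := by
        change ((0 : A) : Φ) ∈ R.ge 1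
        rw [Subring.coe_zero]
        exact zero_mem _
      smul_mem' := fun r {x} hx => by
        change ((r * x : A) : Φ) ∈ R.ge 1
        rw [Subring.coe_mul]
        have h := R.mul_mem_ge (hR _ r.2) hx
        rwa [zero_add] at h }
  have hI : ∀ x : A, x ∈ I ↔ (x : Φ) ∈ R.ge 1 := fun x => Iff.rfl
  have htc : t - algebraMap C Φ c ∈ A := A.sub_mem ht.1 (base c hcV)
  -- finite generation
  let G : Set A := Subtype.val ⁻¹' ((fun x : Φ => x - algebraMap C Φ (ev R x)) '' T)
  have hGf : G.Finite := (hTf.image _).preimage Subtype.val_injective.injOn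
  have hGI : ∀ x ∈ G, x ∈ I := by
    rintro x ⟨y, hy, hxy⟩
    rw [hI]
    change (x : Φ) ∈ R.ge 1
    have hxy' : y - algebraMap C Φ (ev R y) = (x : Φ) := hxy
    rw [← hxy']
    exact evl_mem R (hR y (hT y hy))
  have hBA : ∀ x ∈ B, ∃ hx : x ∈ A,
      (⟨x - algebraMap C Φ (ev R x), A.sub_mem hx (base _ (bpz_ev1 hV base add nub R hR x hx))⟩ : A) ∈
        Ideal.span G := by
    intro x hx
    rw [hB] at hx
    induction hx using Subring.closure_induction with
    | mem x hx =>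
      rcases hx with hx | hx
      · refine ⟨hT x hx, Ideal.subset_span ?_⟩
        exact ⟨x, hx, rfl⟩
      · obtain ⟨d, hd, rfl⟩ := hx
        refine ⟨base d hd, ?_⟩
        have h1 : (⟨algebraMap C Φ d - algebraMap C Φ (ev R (algebraMap C Φ d)), A.sub_mem (base d hd)
            (base _ (bpz_ev1 hV base add nub R hR _ (base d hd)))⟩ : A) = 0 := by
          apply Subtype.ext
          change algebraMap C Φ d - algebraMap C Φ (ev R (algebraMap C Φ d)) = 0
          rw [evl_const, sub_self]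
        rw [h1]
        exact zero_mem _
    | zero =>
      refine ⟨A.zero_mem, ?_⟩
      have h1 : (⟨0 - algebraMap C Φ (ev R 0), A.sub_mem A.zero_mem
            (base _ (bpz_ev1 hV base add nub R hR _ A.zero_mem))⟩ : A) = 0 := by
        apply Subtype.ext
        change (0 : Φ) - algebraMap C Φ (ev R 0) = 0
        have := evl_const R (0 : C)
        rw [map_zero] at this
        rw [this, map_zero, sub_zero]
      rw [h1]
      exact zero_mem _
    | one =>
      refine ⟨A.one_mem, ?_⟩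
      have h1 : (⟨1 - algebraMap C Φ (ev R 1), A.sub_mem A.one_mem
            (base _ (bpz_ev1 hV base add nub R hR _ A.one_mem))⟩ : A) = 0 := by
        apply Subtype.ext
        change (1 : Φ) - algebraMap C Φ (ev R 1) = 0
        have := evl_const R (1 : C)
        rw [map_one] at this
        rw [this, map_one, sub_self]
      rw [h1]
      exact zero_mem _
    | add x y _ _ hx hy =>
      obtain ⟨hx1, hx2⟩ := hx
      obtain ⟨hy1, hy2⟩ := hy
      refine ⟨A.add_mem hx1 hy1, ?_⟩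
      have h1 := add_mem hx2 hy2
      convert h1 using 1
      apply Subtype.ext
      change (x + y) - algebraMap C Φ (ev R (x + y)) =
        (x - algebraMap C Φ (ev R x)) + (y - algebraMap C Φ (ev R y))
      rw [evl_add R (hR x hx1) (hR y hy1), map_add]
      ring
    | neg x _ hx =>
      obtain ⟨hx1, hx2⟩ := hx
      refine ⟨A.neg_mem hx1, ?_⟩
      have h1 := neg_mem hx2
      convert h1 using 1
      apply Subtype.ext
      change (-x) - algebraMap C Φ (ev R (-x)) = -(x - algebraMap C Φ (ev R x))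
      have h2 : ev R (-x) = - ev R x := by
        have h3 := evl_sub R (zero_mem (R.ge 0)) (hR x hx1)
        have h4 := evl_const R (0 : C)
        rw [map_zero] at h4
        rwa [zero_sub, h4, zero_sub] at h3
      rw [h2, map_neg]
      ring
    | mul x y _ _ hx hy =>
      obtain ⟨hx1, hx2⟩ := hx
      obtain ⟨hy1, hy2⟩ := hy
      refine ⟨A.mul_mem hx1 hy1, ?_⟩
      have h1 := add_mem (Ideal.mul_mem_left _ (⟨y, hy1⟩ : A) hx2)
        (Ideal.mul_mem_left _ (⟨algebraMap C Φ (ev R x),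
          base _ (bpz_ev1 hV base add nub R hR x hx1)⟩ : A) hy2)
      convert h1 using 1
      apply Subtype.ext
      change (x * y) - algebraMap C Φ (ev R (x * y)) =
        y * (x - algebraMap C Φ (ev R x)) +
          algebraMap C Φ (ev R x) * (y - algebraMap C Φ (ev R y))
      rw [evl_mul R (hR x hx1) (hR y hy1), map_mul]
      ring
  have hIG : I = Ideal.span G := by
    apply le_antisymm
    · intro x hx
      rw [hI] at hx
      obtain ⟨u, huA, hu0, hu1, hu2⟩ := hfin x x.2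
      obtain ⟨h1, h2⟩ := hBA _ hu2
      have h3 : ev R ((x : Φ) * u) = 0 := by
        rw [evl_zero_iff R (hR _ h1)]
        have := R.mul_mem_ge hx (hR u huA)
        rwa [add_zero] at this
      have h4 := Ideal.mul_mem_left _ (⟨u⁻¹, hu1⟩ : A) h2
      convert h4 using 1
      apply Subtype.ext
      change (x : Φ) = u⁻¹ * ((x : Φ) * u - algebraMap C Φ (ev R ((x : Φ) * u)))
      rw [h3, map_zero, sub_zero]
      field_simp
    · rw [Ideal.span_le]
      exact hGI
  have hIfg : I.FG := by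
    rw [hIG]
    exact Submodule.fg_span hGf
  -- the ideal generated by the maximal ideal of `V`
  let N : Ideal A := Ideal.span {x : A | ∃ d ∈ V.nonunits, (x : Φ) = algebraMap C Φ d}
  have hNj : N ≤ Ideal.jacobson ⊥ := by
    apply Ideal.span_le.2
    rintro x ⟨d, hd, hxd⟩
    rw [SetLike.mem_coe, Ideal.mem_jacobson_bot]
    intro y
    have h1 : NU A ((x : Φ) * y) := by
      rw [hxd]
      exact bpz_nu_mul (nub d hd) y.2
    obtain ⟨h2, h3, h4⟩ := bpz_one_sub add h1
    refine IsUnit.of_mul_eq_one ⟨_, h4⟩ ?_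
    apply Subtype.ext
    change ((x : Φ) * y + 1) * (1 + (x : Φ) * y)⁻¹ = 1
    rw [add_comm, mul_inv_cancel₀ h3]
  have hle : I ≤ Ideal.span {(⟨t - algebraMap C Φ c, htc⟩ : A)} ⊔ N • I := by
    intro x hx
    have hxR : (x : Φ) ∈ R.ge 1 := (hI x).1 hx
    obtain ⟨c₁, hc₁, y, hy, z, hz, hxyz⟩ := htg x (bpz_nu_of_ge R hR x x.2 hxR)
    obtain ⟨c₃, hc₃, d₁, hd₁, d₂, hd₂, e1, e2⟩ := bpz_two hc₁ hcn
    have hwA : algebraMap C Φ d₁ * y + algebraMap C Φ d₂ * z ∈ A :=
      A.add_mem (A.mul_mem (base _ hd₁) hy) (A.mul_mem (base _ hd₂) hz)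
    have key : (x : Φ) = z * (t - algebraMap C Φ c) +
        algebraMap C Φ c₃ * (algebraMap C Φ d₁ * y + algebraMap C Φ d₂ * z) := by
      rw [hxyz]
      conv_lhs => rw [e1]
      conv_rhs => rw [e2]
      rw [map_mul, map_mul]
      ring
    have hz1 : (⟨z, hz⟩ : A) * ⟨t - algebraMap C Φ c, htc⟩ ∈
        Ideal.span {(⟨t - algebraMap C Φ c, htc⟩ : A)} :=
      Ideal.mul_mem_left _ _ (Ideal.subset_span rfl)
    by_cases h0 : c₃ = 0
    · refine Ideal.mem_sup_left ?_
      have h1 : x = (⟨z, hz⟩ : A) * ⟨t - algebraMap C Φ c, htc⟩ := by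
        apply Subtype.ext
        rw [key, h0, map_zero, zero_mul, add_zero]
        rfl
      rw [h1]
      exact hz1
    · have h0' : algebraMap C Φ c₃ ≠ 0 := (map_ne_zero _).2 h0
      have hwR : algebraMap C Φ d₁ * y + algebraMap C Φ d₂ * z ∈ R.ge 1 := by
        have h1 : algebraMap C Φ c₃ * (algebraMap C Φ d₁ * y + algebraMap C Φ d₂ * z) ∈ R.ge 1 := by
          have h2 : algebraMap C Φ c₃ * (algebraMap C Φ d₁ * y + algebraMap C Φ d₂ * z) =
              (x : Φ) - z * (t - algebraMap C Φ c) := by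
            rw [key]
            ring
          rw [h2]
          refine sub_mem hxR ?_
          have := R.mul_mem_ge (hR z hz) hc
          rwa [zero_add] at this
        have h3 := R.mul_mem_ge (R.algebraMap_mem_ge c₃⁻¹) h1
        rw [zero_add, map_inv₀, inv_mul_cancel_left₀ h0'] at h3
        exact h3
      have hc₃A : algebraMap C Φ c₃ ∈ A := (nub c₃ hc₃).1
      have h1 : x = (⟨z, hz⟩ : A) * ⟨t - algebraMap C Φ c, htc⟩ +
          (⟨algebraMap C Φ c₃, hc₃A⟩ : A) • (⟨_, hwA⟩ : A) := by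
        apply Subtype.ext
        rw [key]
        rfl
      rw [h1]
      refine Submodule.add_mem_sup hz1 ?_
      refine Submodule.smul_mem_smul (Ideal.subset_span ⟨c₃, hc₃, rfl⟩) ?_
      exact hwR
  have hfinal := Submodule.le_of_le_smul_of_le_jacobson_bot hIfg hNj hle
  have h1 : (⟨a, ha⟩ : A) ∈ I := haR
  have h2 := hfinal h1
  obtain ⟨b, hb⟩ := Ideal.mem_span_singleton'.1 h2
  refine ⟨b, b.2, ?_⟩
  have h3 := congrArg Subtype.val hb
  rw [mul_comm]
  exact h3.symm

end BpzPrivate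

variable {O K F C Φ : Type*} [CommRing O] [IsDomain O] [IsDiscreteValuationRing O] [Field K] [CharZero K]
  [Algebra O K] [IsFractionRing O K] [Field F] [Algebra K F] [Algebra O F] [IsScalarTower O K F]
  [FunField K F] [Field C] [CharZero C] [Algebra K C] [Algebra.IsAlgebraic K C] [IsAlgClosed C] [Field Φ]
  [Algebra F Φ] [Algebra C Φ] [Finite (IsLocalRing.ResidueField O)]

  [FunField C Φ]

theorem bpz {W₀ : ValuationSubring F} {pts₀ : Set (Subring F)} {V : ValuationSubring C}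
    {W : ValuationSubring Φ} (E : BExt O K W₀ pts₀ V W) {A₀ : Subring F} (hA₀ : A₀ ∈ pts₀)
    (V' : ValuationSubring Φ) (hV' : ∀ c : C, algebraMap C Φ c ∈ V' ↔ c ∈ V)
    (hd : Dom A₀ (V'.comap (algebraMap F Φ))) (hV1 : Rk1 V) (t : F) (ht : NU A₀ t)
    (htg : ∀ a, NU A₀ a → ∃ c ∈ IsLocalRing.maximalIdeal O, ∃ x ∈ A₀, ∃ y ∈ A₀,
      a = algebraMap O F c * x + t * y)
    (R : Place C Φ) (hR : Below (locA (AV A₀ V) V') R) (c : C)
    (hc : algebraMap F Φ t - algebraMap C Φ c ∈ R.ge 1) (a : Φ) (ha : a ∈ locA (AV A₀ V) V')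
    (haR : a ∈ R.ge 1) :
    ∃ b ∈ locA (AV A₀ V) V', a = (algebraMap F Φ t - algebraMap C Φ c) * b := by
  obtain ⟨hsub1, hsub2, hsub3⟩ := bpa_sub E hA₀ V' hV' hd
  obtain ⟨base, add, nub⟩ := bpa_basic E hA₀ V' hV' hd
  have hpt := E.mdl.pt A₀ hA₀
  obtain ⟨S, hS, hSf⟩ := hpt.fin
  have hA₀A : ∀ x ∈ A₀, algebraMap F Φ x ∈ locA (AV A₀ V) V' := fun x hx =>
    hsub3 _ (Subring.subset_closure (Or.inl ⟨x, hx, rfl⟩))
  -- the subring generated by `V` and `S`
  obtain ⟨B, hB⟩ : ∃ B : Subring Φ, B = Subring.closure (((algebraMap F Φ) '' (S : Set F)) ∪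
    (algebraMap C Φ) '' (V : Set C)) := ⟨_, rfl⟩
  have hBV : ∀ d ∈ V, algebraMap C Φ d ∈ B := by
    intro d hd'
    rw [hB]
    exact Subring.subset_closure (Or.inr ⟨d, hd', rfl⟩)
  have hBO : ∀ x ∈ Algebra.adjoin O (S : Set F), algebraMap F Φ x ∈ B := by
    intro x hx
    induction hx using Algebra.adjoin_induction with
    | mem x hx =>
      rw [hB]
      exact Subring.subset_closure (Or.inl ⟨x, hx, rfl⟩)
    | algebraMap r =>
      have h1 : algebraMap F Φ (algebraMap O F r) = algebraMap C Φ (algebraMap K C (algebraMap O K r)) := by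
        rw [IsScalarTower.algebraMap_apply O K F, E.cmp.comm]
      rw [h1]
      exact hBV _ ((E.ovr _).2 ⟨r, rfl⟩)
    | add x y _ _ hx hy =>
      rw [map_add]
      exact B.add_mem hx hy
    | mul x y _ _ hx hy =>
      rw [map_mul]
      exact B.mul_mem hx hy
  -- clearing denominators
  have hclear : ∀ x ∈ AV A₀ V, ∃ u ∈ locA (AV A₀ V) V', u ≠ 0 ∧ u⁻¹ ∈ locA (AV A₀ V) V' ∧
      u ∈ B ∧ x * u ∈ B := by
    intro x hx
    unfold AV at hx
    induction hx using Subring.closure_induction with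
    | mem x hx =>
      rcases hx with ⟨y, hy, rfl⟩ | ⟨y, hy, rfl⟩
      · obtain ⟨b, hb, s, hs, hs0, hs1, hs2⟩ := hSf y hy
        have hs1' : algebraMap F Φ s⁻¹ ∈ locA (AV A₀ V) V' := hA₀A _ hs1
        have hsA : s ∈ A₀ := by
          have h3 : ∀ z ∈ Algebra.adjoin O (S : Set F), z ∈ A₀ := by
            intro z hz
            induction hz using Algebra.adjoin_induction with
            | mem x hx => exact hS x hx
            | algebraMap r => exact hpt.base r
            | add x y _ _ hx hy => exact A₀.add_mem hx hy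
            | mul x y _ _ hx hy => exact A₀.mul_mem hx hy
          exact h3 s hs
        refine ⟨algebraMap F Φ s, hA₀A _ hsA, (map_ne_zero _).2 hs0, ?_, hBO s hs, ?_⟩
        · rwa [← map_inv₀]
        · rw [← map_mul, hs2]
          exact hBO b hb
      · refine ⟨1, Subring.one_mem _, one_ne_zero, ?_, B.one_mem, ?_⟩
        · rw [inv_one]
          exact Subring.one_mem _
        · rw [mul_one]
          exact hBV y hy
    | zero =>
      refine ⟨1, Subring.one_mem _, one_ne_zero, ?_, B.one_mem, ?_⟩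
      · rw [inv_one]
        exact Subring.one_mem _
      · rw [mul_one]
        exact B.zero_mem
    | one =>
      refine ⟨1, Subring.one_mem _, one_ne_zero, ?_, B.one_mem, ?_⟩
      · rw [inv_one]
        exact Subring.one_mem _
      · rw [mul_one]
        exact B.one_mem
    | add x y _ _ hx hy =>
      obtain ⟨u, hu1, hu2, hu3, hu4, hu5⟩ := hx
      obtain ⟨v, hv1, hv2, hv3, hv4, hv5⟩ := hy
      refine ⟨u * v, Subring.mul_mem _ hu1 hv1, mul_ne_zero hu2 hv2, ?_, B.mul_mem hu4 hv4, ?_⟩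
      · rw [mul_inv]
        exact Subring.mul_mem _ hu3 hv3
      · have h1 : (x + y) * (u * v) = (x * u) * v + (y * v) * u := by ring
        rw [h1]
        exact B.add_mem (B.mul_mem hu5 hv4) (B.mul_mem hv5 hu4)
    | neg x _ hx =>
      obtain ⟨u, hu1, hu2, hu3, hu4, hu5⟩ := hx
      refine ⟨u, hu1, hu2, hu3, hu4, ?_⟩
      rw [neg_mul]
      exact B.neg_mem hu5
    | mul x y _ _ hx hy =>
      obtain ⟨u, hu1, hu2, hu3, hu4, hu5⟩ := hx
      obtain ⟨v, hv1, hv2, hv3, hv4, hv5⟩ := hy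
      refine ⟨u * v, Subring.mul_mem _ hu1 hv1, mul_ne_zero hu2 hv2, ?_, B.mul_mem hu4 hv4, ?_⟩
      · rw [mul_inv]
        exact Subring.mul_mem _ hu3 hv3
      · have h1 : (x * y) * (u * v) = (x * u) * (y * v) := by ring
        rw [h1]
        exact B.mul_mem hu5 hv5
  have htA : NU (locA (AV A₀ V) V') (algebraMap F Φ t) := by
    rw [bpa_nu E hA₀ V' hV' hd]
    refine ⟨hA₀A _ ht.1, ?_⟩
    have h1 := hd.2 t ht
    rw [bpz_nonunits] at h1 ⊢
    rcases h1 with h1 | h1
    · left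
      rw [h1, map_zero]
    · right
      intro h2
      apply h1
      rw [ValuationSubring.mem_comap, map_inv₀]
      exact h2
  refine bpz_core (locA (AV A₀ V) V') hV1 base add nub R hR ((algebraMap F Φ) '' (S : Set F))
    (S.finite_toSet.image _) ?_ B hB ?_ (algebraMap F Φ t) htA ?_ c hc a ha haR
  · rintro x ⟨y, hy, rfl⟩
    exact hA₀A _ (hS y hy)
  · rintro x ⟨b, hb, s, hs, hs0, hs1, hs2, hxs⟩
    obtain ⟨u, hu1, hu2, hu3, hu4, hu5⟩ := hclear b hb
    have hsA : s ∈ locA (AV A₀ V) V' := hsub3 s hs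
    have hsi : s⁻¹ ∈ locA (AV A₀ V) V' := by
      refine ⟨1, Subring.one_mem _, s, hs, hs0, hs1, hs2, ?_⟩
      rw [inv_mul_cancel₀ hs0]
    refine ⟨s * u, Subring.mul_mem _ hsA hu1, mul_ne_zero hs0 hu2, ?_, ?_⟩
    · rw [mul_inv]
      exact Subring.mul_mem _ hsi hu3
    · rw [← mul_assoc, hxs]
      exact hu5
  · intro x hx
    exact bpg E hA₀ V' hV' hd t ht htg x hx

end Pool.Agent.ESH
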