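import Pool.Agent.ESH.BGA

/-!
# ESH / BTR: every non-constant function is residually non-constant after an affine change

Proof.  Let `f = a/b`, `a, b` in the `C`-span of `F` (`gen`).  By BLM (after scaling) there is a residually independent family `e` in
`W₀` with `a = ∑ a_i e_i`, `b = ∑ b_i e_i`, `a_i, b_i ∈ C`.  For `x ∈ C` the Gauss norm of `a - x b` is
`g(x) = max_i |a_i - x b_i|` (`bga_mem`; `|.|` the valuation of `V`).  Since `f ∉ C`, `g(x) ≠ 0` for all `x`.  The minimum of `g` over
`x ∈ C` is attained at one of the finitely many `x_i = a_i/b_i` (`b_i ≠ 0`; there is one as `b ≠ 0`): given `x`, let `x_j` be the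
closest to `x`; for all `i` with `b_i ≠ 0`, `|x_j - x_i| ≤ max(|x_j - x|, |x - x_i|) ≤ |x - x_i|`, so `g(x_j) ≤ g(x)`.  Let `x` be a
minimum point and, by `bga_scale`, `f - x = c u`, `u` a unit of `W`, `c ∈ C`.  If `u - y ∈ W.nonunits` with `y ∈ V`, then
`f - x - c y = c (u - y)`, so the Gauss norm of `a - (x + c y) b = (f - x - c y) b` is strictly smaller than that of
`a - x b`: contradiction.  (The Gauss norm of `h b` is that of `h` times that of `b`, as both are computed by `W`: elements
`h` with `h = c_h * unit`, `|c_h|`.)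
-/

namespace Pool.Agent.ESH

open Pool.Agent.Helper11

variable {O K F C Φ : Type*} [CommRing O] [IsDomain O] [IsDiscreteValuationRing O] [Field K] [CharZero K]
  [Algebra O K] [IsFractionRing O K] [Field F] [Algebra K F] [Algebra O F] [IsScalarTower O K F]
  [FunField K F] [Field C] [CharZero C] [Algebra K C] [Algebra.IsAlgebraic K C] [IsAlgClosed C] [Field Φ]
  [Algebra F Φ] [Algebra C Φ] [Finite (IsLocalRing.ResidueField O)]

/-- the Gauss norm -/
theorem btr_norm {W₀ : ValuationSubring F} {pts₀ : Set (Subring F)} {V : ValuationSubring C}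
    {W : ValuationSubring Φ} (E : BExt O K W₀ pts₀ V W) {n : ℕ} (e : Fin n → F) (he : ResInd O W₀ e)
    (c : Fin n → C) :
    (∀ i, W.valuation (algebraMap C Φ (c i)) ≤
      W.valuation (∑ i, algebraMap C Φ (c i) * algebraMap F Φ (e i))) ∧
    ((∃ i, c i ≠ 0) → ∃ j, W.valuation (∑ i, algebraMap C Φ (c i) * algebraMap F Φ (e i)) =
      W.valuation (algebraMap C Φ (c j))) := by
  by_cases hex : ∃ i, c i ≠ 0
  · obtain ⟨i₀, h0⟩ := hex
    obtain ⟨j, hj0, hj, hdiv, hu, hun, heq⟩ := bga_max E e he c h0
    have hN : W.valuation (∑ i, algebraMap C Φ (c i) * algebraMap F Φ (e i)) =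
        W.valuation (algebraMap C Φ (c j)) := by
      have h1 : W.valuation (∑ i, algebraMap C Φ (c i / c j) * algebraMap F Φ (e i)) = 1 :=
        le_antisymm ((W.valuation_le_one_iff _).2 hu) (not_lt.1 hun)
      rw [heq, map_mul, h1, mul_one]
    refine ⟨fun i => ?_, fun _ => ⟨j, hN⟩⟩
    rw [hN]
    have h2 : algebraMap C Φ (c i) = algebraMap C Φ (c i / c j) * algebraMap C Φ (c j) := by
      rw [← map_mul, div_mul_cancel₀ _ hj0]
    rw [h2, map_mul]
    exact mul_le_of_le_one_left' ((W.valuation_le_one_iff _).2 ((E.WC _).2 (hdiv i)))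
  · refine ⟨fun i => ?_, fun h => absurd h hex⟩
    push Not at hex
    rw [hex i, map_zero, map_zero]
    exact zero_le

theorem btr {W₀ : ValuationSubring F} {pts₀ : Set (Subring F)} {V : ValuationSubring C}
    {W : ValuationSubring Φ} (E : BExt O K W₀ pts₀ V W) (f : Φ) (hf : ∀ c : C, f ≠ algebraMap C Φ c) :
    ∃ a c : C, c ≠ 0 ∧ (f - algebraMap C Φ a) / algebraMap C Φ c ∈ W ∧
      ∀ b ∈ V, (f - algebraMap C Φ a) / algebraMap C Φ c - algebraMap C Φ b ∉ W.nonunits := by
  classical
  obtain ⟨a, ha, b, hb, hb0, hab⟩ := E.cmp.gen f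
  obtain ⟨n, e, he, hri, -, ⟨α, -, hα⟩, ⟨β, -, hβ⟩⟩ := rp_ri E.mdl E.cmp W₀.toSubring (fun a ha => ha)
    (bga_O E) (fun c _ a _ h => h)
    (T := (Set.univ : Set C)) (Set.mem_univ _) (fun s hs t ht => Set.mem_univ _)
    (fun t ht o => Set.mem_univ _) ∅ (by simp) (rp_span (bga_span E ha)) (rp_span (bga_span E hb))
  set N := W.valuation with hN
  -- the sum for `a - x b`
  have hsub : ∀ x : C, a - algebraMap C Φ x * b =
      ∑ i, algebraMap C Φ (α i - x * β i) * algebraMap F Φ (e i) := by
    intro x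
    rw [hα, hβ, Finset.mul_sum, ← Finset.sum_sub_distrib]
    apply Finset.sum_congr rfl
    intro i _
    rw [map_sub, map_mul]
    ring
  have hne : ∀ x : C, a - algebraMap C Φ x * b ≠ 0 := by
    intro x h0
    apply hf x
    rw [sub_eq_zero, ← hab] at h0
    exact mul_right_cancel₀ hb0 h0
  have hnorm1 : ∀ (x : C) (i : Fin n), N (algebraMap C Φ (α i - x * β i)) ≤
      N (a - algebraMap C Φ x * b) := by
    intro x i
    rw [hsub x]
    exact (btr_norm E e hri (fun i => α i - x * β i)).1 i
  have hnorm2 : ∀ x : C, ∃ j, N (a - algebraMap C Φ x * b) = N (algebraMap C Φ (α j - x * β j)) := by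
    intro x
    have h1 := (btr_norm E e hri (fun i => α i - x * β i)).2 (by
      by_contra hcon
      push Not at hcon
      apply hne x
      rw [hsub x]
      apply Finset.sum_eq_zero
      intro i _
      rw [hcon i, map_zero, zero_mul])
    rw [hsub x]
    exact h1
  -- the finite set of candidates
  let S : Finset (Fin n) := Finset.univ.filter fun i => β i ≠ 0
  have hS : S.Nonempty := by
    by_contra hcon
    rw [Finset.not_nonempty_iff_eq_empty, Finset.filter_eq_empty_iff] at hcon
    apply hb0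
    rw [hβ]
    apply Finset.sum_eq_zero
    intro i _
    have : β i = 0 := by
      have := hcon (Finset.mem_univ i)
      rwa [not_not] at this
    rw [this, map_zero, zero_mul]
  obtain ⟨j, hjS, hj⟩ := S.exists_min_image
    (fun i => N (a - algebraMap C Φ (α i / β i) * b)) hS
  have hmin : ∀ x : C, N (a - algebraMap C Φ (α j / β j) * b) ≤ N (a - algebraMap C Φ x * b) := by
    intro x
    obtain ⟨k, hkS, hk⟩ := S.exists_min_image (fun i => N (algebraMap C Φ (x - α i / β i))) hS
    refine (hj k hkS).trans ?_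
    obtain ⟨i, hi⟩ := hnorm2 (α k / β k)
    rw [hi]
    refine le_trans ?_ (hnorm1 x i)
    by_cases hβi : β i = 0
    · rw [hβi, mul_zero, mul_zero]
    · have hiS : i ∈ S := Finset.mem_filter.2 ⟨Finset.mem_univ _, hβi⟩
      have e1 : ∀ y : C, N (algebraMap C Φ (α i - y * β i)) =
          N (algebraMap C Φ (y - α i / β i)) * N (algebraMap C Φ (β i)) := by
        intro y
        rw [← map_mul, ← map_mul, ← Valuation.map_neg N (algebraMap C Φ (α i - y * β i)),
          ← map_neg (algebraMap C Φ)]
        congr 2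
        field_simp
        ring
      rw [e1 x, e1 (α k / β k)]
      refine mul_le_mul_left ?_ _
      have e2 : algebraMap C Φ (α k / β k - α i / β i) =
          algebraMap C Φ (x - α i / β i) - algebraMap C Φ (x - α k / β k) := by
        rw [← map_sub]
        congr 1
        ring
      rw [e2]
      exact (N.map_sub _ _).trans (max_le le_rfl (hk i hiS))
  set x := α j / β j with hx
  have hfx : f - algebraMap C Φ x ≠ 0 := sub_ne_zero.2 (hf x)
  obtain ⟨c, hc0, h1, h2⟩ := bga_scale E (f - algebraMap C Φ x) hfx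
  refine ⟨x, c, hc0, h1, fun y hy hn => ?_⟩
  have hcC : algebraMap C Φ c ≠ 0 := by rw [Ne, map_eq_zero]; exact hc0
  have h3 := hmin (x + c * y)
  have hfb : ∀ z : C, a - algebraMap C Φ z * b = (f - algebraMap C Φ z) * b := by
    intro z
    rw [← hab]
    ring
  rw [hfb, hfb, map_mul, map_mul] at h3
  have hNb : 0 < N b := zero_lt_iff.2 (N.ne_zero_iff.2 hb0)
  have h4 : N (f - algebraMap C Φ x) ≤ N (f - algebraMap C Φ (x + c * y)) :=
    le_of_mul_le_mul_right h3 hNb
  have h5 : f - algebraMap C Φ (x + c * y) =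
      algebraMap C Φ c * ((f - algebraMap C Φ x) / algebraMap C Φ c - algebraMap C Φ y) := by
    rw [map_add, map_mul]
    field_simp
    ring
  have h6 : N ((f - algebraMap C Φ x) / algebraMap C Φ c - algebraMap C Φ y) < 1 := hn
  have hNc : 0 < N (algebraMap C Φ c) := zero_lt_iff.2 (N.ne_zero_iff.2 hcC)
  have h7 : N (f - algebraMap C Φ (x + c * y)) < N (algebraMap C Φ c) := by
    rw [h5, map_mul]
    exact mul_lt_of_lt_one_right hNc h6
  have h8 : N (algebraMap C Φ c) ≤ N (f - algebraMap C Φ x) := by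
    have h9 : N (algebraMap C Φ c / (f - algebraMap C Φ x)) ≤ 1 := (W.valuation_le_one_iff _).2 h2
    have h10 : algebraMap C Φ c = algebraMap C Φ c / (f - algebraMap C Φ x) *
        (f - algebraMap C Φ x) := by rw [div_mul_cancel₀ _ hfx]
    rw [h10, map_mul]
    exact mul_le_of_le_one_left' h9
  exact absurd (h4.trans_lt h7) (not_lt.2 h8)

end Pool.Agent.ESH
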