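import Pool.Agent.ESH.BWE
import Pool.Agent.ESH.BTR
import Pool.Agent.ESH.BPD
import Pool.Agent.ESH.BPE
import Pool.Agent.ESH.BPZ
import Pool.Agent.ESH.BCE
import Pool.Agent.ESH.BCO

/-!
# ESH / BMD: the model after extension of the constants

Proof.  BWE gives `W`; `pts = ptsC pts₀ V`.  `IsMdl`: `base` = `WC`; `scale` = `bga_scale`; `trans` = `btr`; `centre`, `sep` = BCE.
`IsPt`: BPA (`base`, `le`, `add`, `nub`), BPR (`res`), BPF (`frac`, `sat`), and `par` with the parameter `t` of `A₀`: `mem` (`bpa_nu`, `hd`), BPG,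
BPD, BPE, BPZ.  The last part is BCO.
-/

namespace Pool.Agent.ESH

open Pool.Agent.Helper11

variable {O K F C Φ : Type*} [CommRing O] [IsDomain O] [IsDiscreteValuationRing O] [Field K] [CharZero K]
  [Algebra O K] [IsFractionRing O K] [Field F] [Algebra K F] [Algebra O F] [IsScalarTower O K F]
  [FunField K F] [Field C] [CharZero C] [Algebra K C] [Algebra.IsAlgebraic K C] [IsAlgClosed C] [Field Φ]
  [Algebra F Φ] [Algebra C Φ] [Finite (IsLocalRing.ResidueField O)]

  [FunField C Φ]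

private theorem bmd_nu {L : Type*} [Field L] (W : ValuationSubring L) (x : L) :
    x ∈ W.nonunits ↔ x = 0 ∨ x⁻¹ ∉ W := by
  rw [W.mem_nonunits_iff, ← W.valuation_le_one_iff, map_inv₀, not_le]
  by_cases hx : x = 0
  · simp [hx]
  · have hv : W.valuation x ≠ 0 := (Valuation.ne_zero_iff _).2 hx
    rw [one_lt_inv₀ (zero_lt_iff.2 hv)]
    simp [hx]

theorem bmd {W₀ : ValuationSubring F} {pts₀ : Set (Subring F)} (h : IsBMdl O K W₀ pts₀)
    (hc : Cmps K F C Φ) (V : ValuationSubring C) (hV1 : Rk1 V)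
    (hV : ∀ x : K, algebraMap K C x ∈ V ↔ x ∈ Set.range (algebraMap O K)) :
    ∃ (W : ValuationSubring Φ) (pts : Set (Subring Φ)), IsMdl V W pts ∧
      ∀ (σ : Φ ≃+* Φ) (s : C ≃+* C), (∀ c : C, σ (algebraMap C Φ c) = algebraMap C Φ (s c)) →
        (∀ f : F, σ (algebraMap F Φ f) = algebraMap F Φ f) →
        (∀ z ∈ V, s z - z ∈ V.nonunits) →
        (∀ f ∈ W, σ f - f ∈ W.nonunits) ∧ ∀ A ∈ pts, PresA σ A := by
  obtain ⟨W, E⟩ := bwe h hc V hV
  refine ⟨W, ptsC pts₀ V, ?_, ?_⟩
  · refine { base := E.WC, scale := bga_scale E, trans := btr E, pt := ?_,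
             centre := fun V' hV' hne => bce_centre E V' hV' hne,
             sep := fun V' A hA B hB h1 h2 => bce_sep E V' A B hA hB h1 h2 }
    rintro A ⟨A₀, hA₀, V', hV', hd, rfl⟩
    have hb := bpa_basic E hA₀ V' hV' hd
    obtain ⟨t, ht, htg, D, hDt, hDA⟩ := (h.pt A₀ hA₀).par
    obtain ⟨D', hD'⟩ := bpe_ext hc D
    have htV : algebraMap F Φ t ∈ V'.nonunits := by
      have h1 := hd.2 t ht
      rw [bmd_nu] at h1 ⊢
      rcases h1 with h1 | h1
      · left
        rw [h1, map_zero]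
      · right
        rw [← map_inv₀]
        exact h1
    have htA : algebraMap F Φ t ∈ locA (AV A₀ V) V' :=
      (bpa_sub E hA₀ V' hV' hd).2.2 _ (Subring.subset_closure (Or.inl ⟨t, ht.1, rfl⟩))
    refine { base := hb.1, le := fun a ha => (bpa_le E hA₀ V' hV' hd a ha).1, add := hb.2.1,
             res := fun a ha => bpr E hA₀ V' hV' hd a ha, nub := hb.2.2,
             frac := fun f hf => bpf_frac E hA₀ V' hV' hd f hf,
             sat := fun c hcV hc0 a ha h1 => bpf_sat E hA₀ V' hV' hd c hcV hc0 a ha h1,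
             par := ⟨algebraMap F Φ t, ?_⟩ }
    exact { mem := (bpa_nu E hA₀ V' hV' hd _).2 ⟨htA, htV⟩,
            gen := fun a ha => bpg E hA₀ V' hV' hd t ht htg a ha,
            dvr := fun a ha haW => bpd E hA₀ V' hV' hd t ht htg a ha haW,
            der := ⟨D', by rw [hD', hDt, map_one],
              fun a ha => bpe E hA₀ V' hV' hd D hDA D' hD' a ha⟩,
            zero := fun R hR c hc' a ha haR =>
              bpz E hA₀ V' hV' hd hV1 t ht htg R hR c hc' a ha haR }
  · intro σ s hs hF hi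
    exact ⟨fun f hf => bco_W E σ s hs hF hi f hf, fun A hA => bco_A E σ s hs hF hi A hA⟩

end Pool.Agent.ESH
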