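import Mathlib

/-!
# ESH / DSN: sum over distinct exponents (non-archimedean case)

Let `N = card I`, `ν : I → Fin X ⊕ I` injective, `m = #{i | ν i is in the second summand}`.  The product is
`4^(∑_{i ∈ first} k_i) * 4^(-∑_{i ∈ first} n_i) * 4^(-N m)` where the `N - m` numbers `n_i` are distinct, so
`∑ n_i ≥ (N-m)(N-m-1)/2` (sum of a finset of naturals; `Finset.sum_range_id_le_sum...` or induct), and
`N m + (N-m)(N-m-1)/2 = N(N-1)/2 + m(m+1)/2 ≥ N(N-1)/2`.
-/

namespace Pool.Agent.ESH

/-- the sum of the elements of a finset of naturals -/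
theorem sum_distinct (s : Finset ℕ) : s.card * (s.card - 1) / 2 ≤ ∑ n ∈ s, n := by
  induction s using Finset.induction_on_max with
  | empty => simp
  | insert a s hs ih =>
    have ha : a ∉ s := fun h => lt_irrefl _ (hs a h)
    have h1 : s.card ≤ a := by
      have : s ⊆ Finset.range a := fun x hx => Finset.mem_range.2 (hs x hx)
      simpa using Finset.card_le_card this
    rw [Finset.card_insert_of_notMem ha, Finset.sum_insert ha]
    have h2 : (s.card + 1) * (s.card + 1 - 1) / 2 = s.card * (s.card - 1) / 2 + s.card := by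
      have h3 : (s.card + 1) * (s.card + 1 - 1) = s.card * (s.card - 1) + s.card * 2 := by
        rcases Nat.eq_zero_or_pos s.card with h | h
        · rw [h]
        · obtain ⟨c, hc⟩ : ∃ c, s.card = c + 1 := ⟨s.card - 1, by omega⟩
          rw [hc]
          simp only [Nat.add_sub_cancel]
          ring
      rw [h3, Nat.add_mul_div_right _ _ (by norm_num)]
    omega

theorem dsn {I : Type*} [Fintype I] (X : ℕ) (k : I → ℕ) (ν : I → Fin X ⊕ I)
    (hν : Function.Injective ν) :
    ∏ i, Sum.elim (fun n : Fin X => (4 : ℝ) ^ (k i) / 4 ^ (n : ℕ))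
        (fun _ : I => (1 / 4 : ℝ) ^ Fintype.card I) (ν i)
      ≤ 4 ^ (∑ i, k i) / 4 ^ (Fintype.card I * (Fintype.card I - 1) / 2) := by
  classical
  set N := Fintype.card I with hN
  -- the exponent
  let g : I → ℕ := fun i => Sum.elim (fun n : Fin X => (n : ℕ)) (fun _ : I => N) (ν i)
  have h1 : ∀ i, Sum.elim (fun n : Fin X => (4 : ℝ) ^ (k i) / 4 ^ (n : ℕ))
      (fun _ : I => (1 / 4 : ℝ) ^ N) (ν i) ≤ 4 ^ (k i) / 4 ^ (g i) := by
    intro i
    show _ ≤ (4 : ℝ) ^ (k i) / 4 ^ (Sum.elim (fun n : Fin X => (n : ℕ)) (fun _ : I => N) (ν i))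
    rcases ν i with n | j
    · simp
    · simp only [Sum.elim_inr]
      rw [one_div_pow]
      exact div_le_div_of_nonneg_right (one_le_pow₀ (by norm_num)) (by positivity)
  have h0 : ∀ i, 0 ≤ Sum.elim (fun n : Fin X => (4 : ℝ) ^ (k i) / 4 ^ (n : ℕ))
      (fun _ : I => (1 / 4 : ℝ) ^ N) (ν i) := by
    intro i
    rcases ν i with n | j
    · simp only [Sum.elim_inl]; positivity
    · simp only [Sum.elim_inr]; positivity
  refine (Finset.prod_le_prod (fun i _ => h0 i) (fun i _ => h1 i)).trans ?_
  rw [Finset.prod_div_distrib, Finset.prod_pow_eq_pow_sum, Finset.prod_pow_eq_pow_sum]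
  refine div_le_div_of_nonneg_left (by positivity) (by positivity) ?_
  refine pow_le_pow_right₀ (by norm_num) ?_
  -- the sum of the exponents
  set J : Finset I := Finset.univ.filter (fun i => (ν i).isLeft = true) with hJ
  have hsplit : ∑ i, g i = ∑ i ∈ J, g i + ∑ i ∈ Jᶜ, g i := (Finset.sum_add_sum_compl J g).symm
  have hJc : ∑ i ∈ Jᶜ, g i = Jᶜ.card * N := by
    rw [Finset.sum_congr rfl (g := fun _ => N), Finset.sum_const, smul_eq_mul]
    intro i hi
    rw [Finset.mem_compl, hJ, Finset.mem_filter] at hi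
    show Sum.elim (fun n : Fin X => (n : ℕ)) (fun _ : I => N) (ν i) = N
    rcases h : ν i with n | j
    · exact absurd ⟨Finset.mem_univ _, by rw [h]; rfl⟩ hi
    · rfl
  have hinj : Set.InjOn g (J : Set I) := by
    intro i hi j hj hij
    rw [Finset.mem_coe, hJ, Finset.mem_filter] at hi hj
    have h2 := hi.2
    have h3 := hj.2
    change Sum.elim (fun n : Fin X => (n : ℕ)) (fun _ : I => N) (ν i) =
      Sum.elim (fun n : Fin X => (n : ℕ)) (fun _ : I => N) (ν j) at hij
    rcases h : ν i with n | n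
    · rcases h' : ν j with n' | n'
      · rw [h, h'] at hij
        simp only [Sum.elim_inl] at hij
        apply hν
        rw [h, h', Fin.ext hij]
      · rw [h'] at h3
        simp at h3
    · rw [h] at h2
      simp at h2
  have hJs : J.card * (J.card - 1) / 2 ≤ ∑ i ∈ J, g i := by
    have h2 := sum_distinct (J.image g)
    rw [Finset.card_image_of_injOn hinj, Finset.sum_image hinj] at h2
    exact h2
  have hcard : J.card + Jᶜ.card = N := by
    rw [Finset.card_add_card_compl]
  rw [hsplit, hJc]
  refine le_trans ?_ (Nat.add_le_add_right hJs _)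
  generalize J.card = j at *
  generalize Jᶜ.card = m at *
  rw [← hcard]
  have e1 : (j + m) * (j + m - 1) ≤ j * (j - 1) + m * (j + m) * 2 := by
    rcases Nat.eq_zero_or_pos (j + m) with h | h
    · rw [h]; simp
    · rcases Nat.eq_zero_or_pos j with h' | h'
      · subst h'
        obtain ⟨c, hc⟩ : ∃ c, m = c + 1 := ⟨m - 1, by omega⟩
        subst hc
        simp only [Nat.zero_add, Nat.add_sub_cancel]
        nlinarith
      · obtain ⟨c, hc⟩ : ∃ c, j = c + 1 := ⟨j - 1, by omega⟩
        subst hc
        rw [show c + 1 + m - 1 = c + m by omega, show c + 1 - 1 = c by omega]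
        nlinarith
  calc (j + m) * (j + m - 1) / 2 ≤ (j * (j - 1) + m * (j + m) * 2) / 2 := Nat.div_le_div_right e1
    _ = j * (j - 1) / 2 + m * (j + m) := Nat.add_mul_div_right _ _ (by norm_num)

end Pool.Agent.ESH
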