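import Pool.Agent.ESH.ENT
import Pool.Agent.ESH.EXP
import Pool.Agent.ESH.DSN

/-!
# ESH / BNA: non-archimedean estimate of the interpolation determinant

Proof.  `f a = 1` (`f (a-1) < 1`), `f (n : M) ≤ 1` for naturals, `f (a^l - 1) ≤ 1/4`, `f ((1+η)^m - 1) ≤ f η`.
By ENT (with `b = a^(l i)`), the `(i,j)` entry is `(a^(l i))^(k i) * E' i j` with
`E' i j = ∑_{n<X} choose(n, k i) (a^(l i) - 1)^(n - k i) choose(z j, n) + e i j`,
`e i j = choose(z j, k i) (a^(l i))^(z j) ((1+η)^(t j * l i) - 1) / (a^(l i))^(k i)`, `f (e i j) ≤ f η ≤ (1/4)^N`.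
So `f (det E) = f (det E')`.  Write `E' i j = ∑_{n ∈ Fin X ⊕ I} A i n φ n j` with
`A i (inl n) = choose(n, k i) (a^(l i) - 1)^(n - k i)`, `φ (inl n) j = choose(z j, n)`,
`A i (inr j₀) = e i j₀`, `φ (inr j₀) j = if j = j₀ then 1 else 0`.  Then `f (A i n) f (φ n j) ≤ w i n` with
`w i (inl n) = 4^(k i)/4^n` (for `n < k i` the left side is `0`), `w i (inr _) = (1/4)^N`; conclude by
`exp_nonarch` and `dsn`.
-/

namespace Pool.Agent.ESH

private theorem bna_nat {M : Type*} [Field M] (f : AbsoluteValue M ℝ) (hf : IsNonarchimedean f)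
    (n : ℕ) : f (n : M) ≤ 1 := by
  induction n with
  | zero => rw [Nat.cast_zero, map_zero]; exact zero_le_one
  | succ n ih =>
    rw [Nat.cast_succ]
    refine (hf _ _).trans (max_le ih ?_)
    rw [map_one]

private theorem bna_one {M : Type*} [Field M] (f : AbsoluteValue M ℝ) (hf : IsNonarchimedean f)
    (a : M) (ha : f (a - 1) < 1) : f a = 1 := by
  refine le_antisymm ?_ ?_
  · have h1 := hf (a - 1) 1
    rw [sub_add_cancel, map_one] at h1
    exact h1.trans (max_le ha.le le_rfl)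
  · by_contra h
    push Not at h
    have h1 := hf a (-(a - 1))
    rw [show a + -(a - 1) = 1 by ring, map_one, map_neg_eq_map] at h1
    exact absurd (lt_of_le_of_lt h1 (max_lt h ha)) (lt_irrefl _)

private theorem bna_pow {M : Type*} [Field M] (f : AbsoluteValue M ℝ) (hf : IsNonarchimedean f)
    (a : M) (ha : f (a - 1) ≤ 1 / 4) (m : ℕ) : f (a ^ m - 1) ≤ 1 / 4 := by
  have hfa : f a = 1 := bna_one f hf a (lt_of_le_of_lt ha (by norm_num))
  induction m with
  | zero => rw [pow_zero, sub_self, map_zero]; norm_num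
  | succ m ih =>
    rw [show a ^ (m + 1) - 1 = a * (a ^ m - 1) + (a - 1) by ring]
    refine (hf _ _).trans (max_le ?_ ha)
    rw [map_mul, hfa, one_mul]
    exact ih

private theorem bna_pow' {M : Type*} [Field M] (f : AbsoluteValue M ℝ) (hf : IsNonarchimedean f)
    (η : M) (hη : f η ≤ 1) (m : ℕ) : f ((1 + η) ^ m - 1) ≤ f η := by
  have h1 : f (1 + η) ≤ 1 := (hf _ _).trans (max_le (by rw [map_one]) hη)
  induction m with
  | zero => rw [pow_zero, sub_self, map_zero]; exact apply_nonneg f _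
  | succ m ih =>
    rw [show (1 + η) ^ (m + 1) - 1 = (1 + η) * ((1 + η) ^ m - 1) + η by ring]
    refine (hf _ _).trans (max_le ?_ le_rfl)
    rw [map_mul]
    calc f (1 + η) * f ((1 + η) ^ m - 1) ≤ 1 * f η :=
          mul_le_mul h1 ih (apply_nonneg f _) zero_le_one
      _ = f η := one_mul _

theorem bna {M : Type*} [Field M] (f : AbsoluteValue M ℝ) (hf : IsNonarchimedean f)
    {I : Type*} [Fintype I] [DecidableEq I] (X : ℕ) (k l z t : I → ℕ) (hz : ∀ j, z j < X)
    (a η : M) (ha : f (a - 1) ≤ 1 / 4) (hη : f η ≤ (1 / 4 : ℝ) ^ Fintype.card I) :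
    f (Matrix.of fun i j : I =>
        ((z j).choose (k i) : M) * (a ^ (l i)) ^ (z j) * (1 + η) ^ (t j * l i)).det
      ≤ 4 ^ (∑ i, k i) / 4 ^ (Fintype.card I * (Fintype.card I - 1) / 2) := by
  set N := Fintype.card I with hN
  have hη1 : f η ≤ 1 := hη.trans (pow_le_one₀ (by norm_num) (by norm_num))
  have hfa : f a = 1 := bna_one f hf a (lt_of_le_of_lt ha (by norm_num))
  have hfb : ∀ i, f (a ^ l i) = 1 := fun i => by rw [map_pow, hfa, one_pow]
  have hb0 : ∀ i, a ^ l i ≠ 0 := fun i h => by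
    have := hfb i
    rw [h, map_zero] at this
    exact zero_ne_one this
  have hbk0 : ∀ i, (a ^ l i) ^ k i ≠ 0 := fun i => pow_ne_zero _ (hb0 i)
  -- the error terms
  let e : I → I → M := fun i j => ((z j).choose (k i) : M) * (a ^ (l i)) ^ (z j) *
    ((1 + η) ^ (t j * l i) - 1) / (a ^ l i) ^ k i
  let A : I → (Fin X ⊕ I) → M := fun i => Sum.elim
    (fun n : Fin X => ((n : ℕ).choose (k i) : M) * (a ^ l i - 1) ^ ((n : ℕ) - k i))
    (fun j₀ => e i j₀)
  let φ : (Fin X ⊕ I) → I → M := fun q j => Sum.elim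
    (fun n : Fin X => ((z j).choose (n : ℕ) : M)) (fun j₀ => if j = j₀ then 1 else 0) q
  have hE : ∀ i j, ((z j).choose (k i) : M) * (a ^ (l i)) ^ (z j) * (1 + η) ^ (t j * l i) =
      (a ^ l i) ^ k i * ∑ q, A i q * φ q j := by
    intro i j
    have h1 := ent (a ^ l i) (k i) (z j) X (hz j)
    rw [Fintype.sum_sum_type]
    simp only [A, φ, Sum.elim_inl, Sum.elim_inr, mul_ite, mul_one, mul_zero,
      Finset.sum_ite_eq, Finset.mem_univ, if_true]
    rw [mul_add, ← Finset.sum_range (fun n : ℕ => ((n.choose (k i) : ℕ) : M) *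
      (a ^ l i - 1) ^ (n - k i) * ((z j).choose n : M)), ← h1]
    simp only [e]
    rw [mul_div_cancel₀ _ (hbk0 i)]
    ring
  have hdet : (Matrix.of fun i j : I =>
        ((z j).choose (k i) : M) * (a ^ (l i)) ^ (z j) * (1 + η) ^ (t j * l i)).det =
      (∏ i, (a ^ l i) ^ k i) * (Matrix.of fun i j : I => ∑ q, A i q * φ q j).det := by
    rw [← Matrix.det_mul_column]
    congr 1
    ext i j
    rw [Matrix.of_apply, Matrix.of_apply, Matrix.of_apply]
    exact hE i j
  have hprod : f (∏ i, (a ^ l i) ^ k i) = 1 := by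
    rw [map_prod]
    exact Finset.prod_eq_one fun i _ => by rw [map_pow, hfb, one_pow]
  rw [hdet, map_mul, hprod, one_mul]
  refine exp_nonarch f hf A φ (fun i => Sum.elim (fun n : Fin X => (4 : ℝ) ^ (k i) / 4 ^ (n : ℕ))
        (fun _ : I => (1 / 4 : ℝ) ^ N)) ?_ _ (by positivity) fun ν hν => dsn X k ν hν
  intro i q j
  rcases q with n | j₀
  · simp only [A, φ, Sum.elim_inl]
    by_cases hn : (n : ℕ) < k i
    · rw [Nat.choose_eq_zero_of_lt hn, Nat.cast_zero, zero_mul, map_zero, zero_mul]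
      positivity
    · have h1 : f ((n : ℕ).choose (k i) : M) ≤ 1 := bna_nat f hf _
      have h2 : f ((z j).choose (n : ℕ) : M) ≤ 1 := bna_nat f hf _
      have h3 : f ((a ^ l i - 1) ^ ((n : ℕ) - k i)) ≤ (1 / 4) ^ ((n : ℕ) - k i) := by
        rw [map_pow]
        exact pow_le_pow_left₀ (apply_nonneg f _) (bna_pow f hf a ha (l i)) _
      have h4 : (1 / 4 : ℝ) ^ ((n : ℕ) - k i) = 4 ^ k i / 4 ^ (n : ℕ) := by
        have h5 : (4 : ℝ) ^ (n : ℕ) = 4 ^ k i * 4 ^ ((n : ℕ) - k i) := by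
          rw [← pow_add]
          congr 1
          omega
        rw [h5, one_div_pow]
        have h6 : (4 : ℝ) ^ k i ≠ 0 := by positivity
        field_simp
      rw [map_mul, ← h4]
      calc f ((n : ℕ).choose (k i) : M) * f ((a ^ l i - 1) ^ ((n : ℕ) - k i)) *
            f ((z j).choose (n : ℕ) : M)
          ≤ 1 * (1 / 4) ^ ((n : ℕ) - k i) * 1 := by
            refine mul_le_mul (mul_le_mul h1 h3 (apply_nonneg f _) zero_le_one) h2
              (apply_nonneg f _) (by positivity)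
        _ = (1 / 4) ^ ((n : ℕ) - k i) := by ring
  · simp only [A, φ, Sum.elim_inr]
    have h1 : f ((z j₀).choose (k i) : M) ≤ 1 := bna_nat f hf _
    have h2 : f ((1 + η) ^ (t j₀ * l i) - 1) ≤ f η := bna_pow' f hf η hη1 _
    have h3 : f (e i j₀) ≤ (1 / 4) ^ N := by
      simp only [e]
      rw [map_div₀, map_pow, hfb, one_pow, div_one, map_mul, map_mul, map_pow, hfb, one_pow,
        mul_one]
      calc f ((z j₀).choose (k i) : M) * f ((1 + η) ^ (t j₀ * l i) - 1)
          ≤ 1 * f η := mul_le_mul h1 h2 (apply_nonneg f _) zero_le_one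
        _ ≤ (1 / 4) ^ N := by rw [one_mul]; exact hη
    have h4 : f (if j = j₀ then (1 : M) else 0) ≤ 1 := by
      split_ifs
      · rw [map_one]
      · rw [map_zero]; exact zero_le_one
    calc f (e i j₀) * f (if j = j₀ then (1 : M) else 0) ≤ (1 / 4) ^ N * 1 :=
          mul_le_mul h3 h4 (apply_nonneg f _) (by positivity)
      _ = (1 / 4) ^ N := mul_one _

end Pool.Agent.ESH
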