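import Pool.Agent.ESH.BPA

/-!
# ESH / BPF: `W` is a localisation of `A`, and `A` is saturated

`bpf_frac`: let `f ∈ W`, `f ≠ 0`.  `f = a/b` with `a, b` in the `C`-span of `F` (`gen`).  Every element of `F` is a quotient of elements of `A₀`
(`W₀` is a localisation of `A₀` by `frac`, `F` is the fraction field of `W₀`); multiplying by a common denominator we may assume
`a, b` in the `C`-span of `A₀`.  `bga_rep` (`R = A₀`): `a = c a'`, `b = d b'`, `a', b' ∈ AV A₀ V` units of `W`.  `f ∈ W` gives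
`c/d ∈ V` (`WC`), `f b' = (c/d) a'`.
`bpf_sat`: `c ∈ V`, `c ≠ 0`, `a = b/s ∈ A`, `a/c ∈ W`: `b/c = (a/c) s ∈ W`; `b = ∑ d_i e_i` (`bav`), `b/c = ∑ (d_i/c) e_i`, so by
`bga_mem` all `d_i/c ∈ V` and `b/c ∈ AV A₀ V`.
-/

namespace Pool.Agent.ESH

open Pool.Agent.Helper11

variable {O K F C Φ : Type*} [CommRing O] [IsDomain O] [IsDiscreteValuationRing O] [Field K] [CharZero K]
  [Algebra O K] [IsFractionRing O K] [Field F] [Algebra K F] [Algebra O F] [IsScalarTower O K F]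
  [FunField K F] [Field C] [CharZero C] [Algebra K C] [Algebra.IsAlgebraic K C] [IsAlgClosed C] [Field Φ]
  [Algebra F Φ] [Algebra C Φ] [Finite (IsLocalRing.ResidueField O)]

private theorem bpf_nu {L : Type*} [Field L] (A : ValuationSubring L) (a : L) :
    a ∈ A.nonunits ↔ a = 0 ∨ a⁻¹ ∉ A := by
  rw [ValuationSubring.mem_nonunits_iff]
  by_cases ha : a = 0
  · subst ha
    simp
  · have h1 : A.valuation a ≠ 0 := (Valuation.ne_zero_iff _).2 ha
    rw [← ValuationSubring.valuation_le_one_iff, map_inv₀, inv_le_one₀ (zero_lt_iff.2 h1), not_le]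
    simp [ha]

private theorem bpf_quot {W₀ : ValuationSubring F} {A₀ : Subring F}
    (h : ∀ f ∈ W₀, ∃ a ∈ A₀, ∃ s ∈ A₀, s ∉ W₀.nonunits ∧ f * s = a) (x : F) :
    ∃ s ∈ A₀, s ≠ 0 ∧ x * s ∈ A₀ := by
  by_cases hx : x = 0
  · exact ⟨1, A₀.one_mem, one_ne_zero, by rw [hx, zero_mul]; exact A₀.zero_mem⟩
  rcases W₀.mem_or_inv_mem x with h1 | h1
  · obtain ⟨a, ha, s, hs, hs2, hfs⟩ := h x h1
    refine ⟨s, hs, ?_, by rw [hfs]; exact ha⟩
    rintro rfl
    exact hs2 ((bpf_nu W₀ 0).2 (Or.inl rfl))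
  · obtain ⟨a, ha, s, hs, hs2, hfs⟩ := h x⁻¹ h1
    have hs0 : s ≠ 0 := by
      rintro rfl
      exact hs2 ((bpf_nu W₀ 0).2 (Or.inl rfl))
    refine ⟨a, ha, ?_, ?_⟩
    · rw [← hfs]
      exact mul_ne_zero (inv_ne_zero hx) hs0
    · rw [← hfs, ← mul_assoc, mul_inv_cancel₀ hx, one_mul]
      exact hs

private theorem bpf_span_mul {C F Φ : Type*} [Field C] [Field F] [Field Φ] [Algebra F Φ] [Algebra C Φ]
    {A₀ : Subring F} {s : F} (hs : s ∈ A₀) {a : Φ}
    (ha : a ∈ Submodule.span C ((algebraMap F Φ) '' (A₀ : Set F))) :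
    algebraMap F Φ s * a ∈ Submodule.span C ((algebraMap F Φ) '' (A₀ : Set F)) := by
  induction ha using Submodule.span_induction with
  | mem x hx =>
    obtain ⟨y, hy, rfl⟩ := hx
    apply Submodule.subset_span
    exact ⟨s * y, A₀.mul_mem hs hy, by rw [map_mul]⟩
  | zero =>
    rw [mul_zero]
    exact zero_mem _
  | add x y _ _ hx hy =>
    rw [mul_add]
    exact add_mem hx hy
  | smul c x _ hx =>
    rw [mul_smul_comm]
    exact Submodule.smul_mem _ _ hx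

private theorem bpf_span {C F Φ : Type*} [Field C] [Field F] [Field Φ] [Algebra F Φ] [Algebra C Φ]
    {A₀ : Subring F} (h : ∀ x : F, ∃ s ∈ A₀, s ≠ 0 ∧ x * s ∈ A₀) {a : Φ}
    (ha : a ∈ Submodule.span C (Set.range (algebraMap F Φ))) :
    ∃ s ∈ A₀, s ≠ 0 ∧ algebraMap F Φ s * a ∈ Submodule.span C ((algebraMap F Φ) '' (A₀ : Set F)) := by
  induction ha using Submodule.span_induction with
  | mem x hx =>
    obtain ⟨y, rfl⟩ := hx
    obtain ⟨s, hs, hs0, hys⟩ := h y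
    refine ⟨s, hs, hs0, Submodule.subset_span ⟨y * s, hys, ?_⟩⟩
    rw [map_mul, mul_comm]
  | zero =>
    refine ⟨1, A₀.one_mem, one_ne_zero, ?_⟩
    rw [mul_zero]
    exact zero_mem _
  | add x y _ _ hx hy =>
    obtain ⟨s, hs, hs0, h1⟩ := hx
    obtain ⟨t, ht, ht0, h2⟩ := hy
    refine ⟨s * t, A₀.mul_mem hs ht, mul_ne_zero hs0 ht0, ?_⟩
    have h3 := add_mem (bpf_span_mul ht h1) (bpf_span_mul hs h2)
    have h4 : algebraMap F Φ t * (algebraMap F Φ s * x) + algebraMap F Φ s * (algebraMap F Φ t * y) =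
        algebraMap F Φ (s * t) * (x + y) := by
      rw [map_mul]; ring
    rwa [h4] at h3
  | smul c x _ hx =>
    obtain ⟨s, hs, hs0, h1⟩ := hx
    refine ⟨s, hs, hs0, ?_⟩
    rw [mul_smul_comm]
    exact Submodule.smul_mem _ _ h1

theorem bpf_frac {W₀ : ValuationSubring F} {pts₀ : Set (Subring F)} {V : ValuationSubring C}
    {W : ValuationSubring Φ} (E : BExt O K W₀ pts₀ V W) {A₀ : Subring F} (hA₀ : A₀ ∈ pts₀)
    (V' : ValuationSubring Φ) (hV' : ∀ c : C, algebraMap C Φ c ∈ V' ↔ c ∈ V)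
    (hd : Dom A₀ (V'.comap (algebraMap F Φ))) (f : Φ) (hf : f ∈ W) :
    ∃ a ∈ locA (AV A₀ V) V', ∃ s ∈ locA (AV A₀ V) V', s ∉ W.nonunits ∧ f * s = a := by
  by_cases hf0 : f = 0
  · refine ⟨0, Subring.zero_mem _, 1, Subring.one_mem _, ?_, by rw [hf0, zero_mul]⟩
    rw [bpf_nu, inv_one]
    rintro (h | h)
    · exact one_ne_zero h
    · exact h W.one_mem
  obtain ⟨hs1, hs2, hs3⟩ := bpa_sub E hA₀ V' hV' hd
  have hP := E.mdl.pt A₀ hA₀
  have hq := bpf_quot (W₀ := W₀) (A₀ := A₀) hP.frac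
  obtain ⟨a, ha, b, hb, hb0, hfb⟩ := E.cmp.gen f
  obtain ⟨s, hs, hs0, h1⟩ := bpf_span hq ha
  obtain ⟨t, ht, ht0, h2⟩ := bpf_span hq hb
  have h3 := bpf_span_mul ht h1
  have h4 := bpf_span_mul hs h2
  have hinj : Function.Injective (algebraMap F Φ) := (algebraMap F Φ).injective
  have hs0' : algebraMap F Φ s ≠ 0 := by
    rw [Ne, map_eq_zero_iff _ hinj]
    exact hs0
  have ht0' : algebraMap F Φ t ≠ 0 := by
    rw [Ne, map_eq_zero_iff _ hinj]
    exact ht0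
  have ha0 : a ≠ 0 := by
    rw [← hfb]
    exact mul_ne_zero hf0 hb0
  obtain ⟨c, hc0, α, hα, hα2, hα3⟩ := bga_rep E A₀ hP.le hP.base hP.sat _ h3
    (mul_ne_zero ht0' (mul_ne_zero hs0' ha0))
  obtain ⟨d, hd0, β, hβ, hβ2, hβ3⟩ := bga_rep E A₀ hP.le hP.base hP.sat _ h4
    (mul_ne_zero hs0' (mul_ne_zero ht0' hb0))
  have hc0' : algebraMap C Φ c ≠ 0 := by
    rw [Ne, map_eq_zero_iff _ (algebraMap C Φ).injective]
    exact hc0
  have hd0' : algebraMap C Φ d ≠ 0 := by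
    rw [Ne, map_eq_zero_iff _ (algebraMap C Φ).injective]
    exact hd0
  have h5 : f * (algebraMap C Φ d * β) = algebraMap C Φ c * α := by
    rw [← hα3, ← hβ3, ← hfb]
    ring
  rw [bpf_nu, not_or, not_not] at hα2 hβ2
  have h6 : algebraMap C Φ (c / d) * α = f * β := by
    rw [map_div₀]
    field_simp
    linear_combination -h5
  have h7 : algebraMap C Φ (c / d) = f * β * α⁻¹ := by
    rw [← h6, mul_assoc, mul_inv_cancel₀ hα2.1, mul_one]
  have h8 : c / d ∈ V := by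
    rw [← E.WC, h7]
    exact W.mul_mem _ _ (W.mul_mem _ _ hf (hs2 β hβ)) hα2.2
  refine ⟨algebraMap C Φ (c / d) * α, ?_, β, hs3 β hβ, ?_, h6.symm⟩
  · apply hs3
    exact Subring.mul_mem _ (Subring.subset_closure (Or.inr ⟨_, h8, rfl⟩)) hα
  · rw [bpf_nu, not_or, not_not]
    exact hβ2

theorem bpf_sat {W₀ : ValuationSubring F} {pts₀ : Set (Subring F)} {V : ValuationSubring C}
    {W : ValuationSubring Φ} (E : BExt O K W₀ pts₀ V W) {A₀ : Subring F} (hA₀ : A₀ ∈ pts₀)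
    (V' : ValuationSubring Φ) (hV' : ∀ c : C, algebraMap C Φ c ∈ V' ↔ c ∈ V)
    (hd : Dom A₀ (V'.comap (algebraMap F Φ))) (c : C) (hc : c ∈ V) (hc0 : c ≠ 0) (a : Φ)
    (ha : a ∈ locA (AV A₀ V) V') (h : a / algebraMap C Φ c ∈ W) :
    a / algebraMap C Φ c ∈ locA (AV A₀ V) V' := by
  obtain ⟨hs1, hs2, hs3⟩ := bpa_sub E hA₀ V' hV' hd
  have hP := E.mdl.pt A₀ hA₀
  obtain ⟨b, hb, s, hs, hs0, hsV, hsV', hab⟩ := ha
  obtain ⟨n, e, d, he, hres, hdV, hbe⟩ := bav E A₀ hP.le hP.base hP.sat b hb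
  have h1 : b / algebraMap C Φ c = ∑ i, algebraMap C Φ (d i / c) * algebraMap F Φ (e i) := by
    rw [hbe, Finset.sum_div]
    apply Finset.sum_congr rfl
    intro i _
    rw [map_div₀]
    ring
  have h2 : b / algebraMap C Φ c ∈ W := by
    have h3 : b / algebraMap C Φ c = a / algebraMap C Φ c * s := by
      rw [← hab]
      ring
    rw [h3]
    exact W.mul_mem _ _ h (hs2 s hs)
  rw [h1, bga_mem E e hres] at h2
  have h4 : b / algebraMap C Φ c ∈ AV A₀ V := by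
    rw [h1]
    apply Subring.sum_mem
    intro i _
    exact Subring.mul_mem _ (Subring.subset_closure (Or.inr ⟨_, h2 i, rfl⟩))
      (Subring.subset_closure (Or.inl ⟨_, he i, rfl⟩))
  refine ⟨b / algebraMap C Φ c, h4, s, hs, hs0, hsV, hsV', ?_⟩
  rw [← hab]
  ring

end Pool.Agent.ESH
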