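import Pool.Agent.ESH.BPA

/-!
# ESH / BPR: residue field at the points

`bpr_el`: for `a ∈ A₀` there is `d ∈ V` with `a - d ∈ V'.nonunits`.  By `prim` `a - q(θ)` is a non-unit of `A₀`, so in `V'.nonunits` (`hd`),
`q ∈ O[X]`, so it is enough to treat `θ`.  `p` is monic in `O[X]`, `p(θ) ∈ V'.nonunits`; `p = ∏ (X - r_j)` in `C`, the roots are integral
over `O`, so in `V`; `∏ (θ - r_j) ∈ V'.nonunits` so some `θ - r_j ∈ V'.nonunits`.
`bpr`: `a = b/s ∈ A`, `b, s ∈ AV A₀ V`, `s` a unit of `V'`; elements of `AV A₀ V` are sums `∑ c_i e_i`, `c_i ∈ V`, `e_i ∈ A₀`, so congruent to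
elements of `V` modulo `V'.nonunits`; quotient.
-/

namespace Pool.Agent.ESH

open Pool.Agent.Helper11

variable {O K F C Φ : Type*} [CommRing O] [IsDomain O] [IsDiscreteValuationRing O] [Field K] [CharZero K]
  [Algebra O K] [IsFractionRing O K] [Field F] [Algebra K F] [Algebra O F] [IsScalarTower O K F]
  [FunField K F] [Field C] [CharZero C] [Algebra K C] [Algebra.IsAlgebraic K C] [IsAlgClosed C] [Field Φ]
  [Algebra F Φ] [Algebra C Φ] [Finite (IsLocalRing.ResidueField O)]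

private theorem bpr_mul {V' : ValuationSubring Φ} {x y : Φ} (hx : x ∈ V'.nonunits)
    (hy : y ∈ V') : x * y ∈ V'.nonunits := by
  rw [ValuationSubring.mem_nonunits_iff] at hx ⊢
  rw [← ValuationSubring.valuation_le_one_iff] at hy
  rw [map_mul]
  exact mul_lt_one_of_lt_of_le hx hy

private theorem bpr_root {V : ValuationSubring C} (φ : O →+* C) (hφ : ∀ a, φ a ∈ V)
    (p : Polynomial O) (hp : p.Monic) (r : C) (hr : Polynomial.eval₂ φ r p = 0) : r ∈ V := by
  have h1 : IsIntegral V r := by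
    refine ⟨p.map (φ.codRestrict V hφ), hp.map _, ?_⟩
    rw [Polynomial.eval₂_map]
    exact hr
  obtain ⟨y, hy⟩ := IsIntegrallyClosed.isIntegral_iff.mp h1
  rw [← hy]
  exact y.2

theorem bpr_el {W₀ : ValuationSubring F} {pts₀ : Set (Subring F)} {V : ValuationSubring C}
    {W : ValuationSubring Φ} (E : BExt O K W₀ pts₀ V W) {A₀ : Subring F} (hA₀ : A₀ ∈ pts₀)
    (V' : ValuationSubring Φ) (hV' : ∀ c : C, algebraMap C Φ c ∈ V' ↔ c ∈ V)
    (hd : Dom A₀ (V'.comap (algebraMap F Φ))) (a : F) (ha : a ∈ A₀) :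
    ∃ d ∈ V, algebraMap F Φ a - algebraMap C Φ d ∈ V'.nonunits := by
  classical
  have hpt := E.mdl.pt A₀ hA₀
  obtain ⟨θ, hθ, p, hp, hpn, -, hq⟩ := hpt.prim
  -- nonunits of `A₀` go to nonunits of `V'`
  have hnu : ∀ x : F, NU A₀ x → algebraMap F Φ x ∈ V'.nonunits := by
    intro x hx
    have h1 := hd.2 x hx
    rw [ValuationSubring.mem_nonunits_iff_or] at h1 ⊢
    rcases h1 with h1 | h1
    · left
      rw [h1, map_zero]
    · right
      intro h2
      apply h1
      rw [ValuationSubring.mem_comap, map_inv₀]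
      exact h2
  have hφV : ∀ x : O, ((algebraMap K C).comp (algebraMap O K)) x ∈ V := fun x =>
    (E.ovr _).mpr ⟨x, rfl⟩
  have hcomp : (algebraMap F Φ).comp (algebraMap O F) =
      (algebraMap C Φ).comp ((algebraMap K C).comp (algebraMap O K)) := by
    ext x
    show algebraMap F Φ (algebraMap O F x) = algebraMap C Φ (algebraMap K C (algebraMap O K x))
    rw [← E.cmp.comm, IsScalarTower.algebraMap_apply O K F]
  have hev : ∀ q : Polynomial O, algebraMap F Φ (Polynomial.aeval θ q) =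
      Polynomial.eval₂ ((algebraMap C Φ).comp ((algebraMap K C).comp (algebraMap O K)))
        (algebraMap F Φ θ) q := by
    intro q
    rw [Polynomial.aeval_def, Polynomial.hom_eval₂, hcomp]
  have hΘ : algebraMap F Φ θ ∈ V' := hd.1 θ hθ
  -- a root
  obtain ⟨r, hr, hrn⟩ : ∃ r : C, Polynomial.eval₂ ((algebraMap K C).comp (algebraMap O K)) r p = 0 ∧
      algebraMap F Φ θ - algebraMap C Φ r ∈ V'.nonunits := by
    by_contra hcon
    push Not at hcon
    have hsplit := IsAlgClosed.splits (p.map ((algebraMap K C).comp (algebraMap O K)))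
    have hprod := hsplit.eq_prod_roots_of_monic (hp.map _)
    have h1 := hnu _ hpn
    rw [hev, ← Polynomial.eval₂_map, hprod, Polynomial.eval₂_multiset_prod, Multiset.map_map,
      ValuationSubring.mem_nonunits_iff, map_multiset_prod, Multiset.map_map] at h1
    apply h1.ne
    apply Multiset.prod_eq_one
    intro v hv
    obtain ⟨r, hr, rfl⟩ := Multiset.mem_map.mp hv
    have hr0 : Polynomial.eval₂ ((algebraMap K C).comp (algebraMap O K)) r p = 0 := by
      have h2 := (Polynomial.mem_roots'.mp hr).2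
      rwa [Polynomial.IsRoot.def, Polynomial.eval_map] at h2
    have hrV := bpr_root _ hφV p hp r hr0
    have h3 := hcon r hr0
    have h4 : algebraMap F Φ θ - algebraMap C Φ r ∈ V' := sub_mem hΘ ((hV' r).mpr hrV)
    rw [ValuationSubring.mem_nonunits_iff, not_lt] at h3
    rw [← ValuationSubring.valuation_le_one_iff] at h4
    simp only [Function.comp_apply, Polynomial.eval₂_sub, Polynomial.eval₂_X, Polynomial.eval₂_C]
    exact le_antisymm h4 h3
  have hrV := bpr_root _ hφV p hp r hr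
  obtain ⟨q, hq⟩ := hq a ha
  have hψ : ∀ x : O, ((algebraMap C Φ).comp ((algebraMap K C).comp (algebraMap O K))) x ∈ V' :=
    fun x => (hV' _).mpr (hφV x)
  have h1 : algebraMap F Φ (Polynomial.aeval θ q) = ((Polynomial.eval₂
      (RingHom.codRestrict ((algebraMap C Φ).comp ((algebraMap K C).comp (algebraMap O K))) V' hψ)
      ⟨algebraMap F Φ θ, hΘ⟩ q : V') : Φ) := by
    rw [hev]
    exact (Polynomial.hom_eval₂ q (RingHom.codRestrict ((algebraMap C Φ).comp ((algebraMap K C).comp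
      (algebraMap O K))) V' hψ) V'.subtype ⟨algebraMap F Φ θ, hΘ⟩).symm
  have h2 : algebraMap C Φ (Polynomial.eval₂ ((algebraMap K C).comp (algebraMap O K)) r q) =
      ((Polynomial.eval₂
      (RingHom.codRestrict ((algebraMap C Φ).comp ((algebraMap K C).comp (algebraMap O K))) V' hψ)
      ⟨algebraMap C Φ r, (hV' r).mpr hrV⟩ q : V') : Φ) := by
    rw [Polynomial.hom_eval₂]
    exact (Polynomial.hom_eval₂ q (RingHom.codRestrict ((algebraMap C Φ).comp ((algebraMap K C).comp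
      (algebraMap O K))) V' hψ) V'.subtype ⟨algebraMap C Φ r, (hV' r).mpr hrV⟩).symm
  refine ⟨Polynomial.eval₂ ((algebraMap K C).comp (algebraMap O K)) r q, ?_, ?_⟩
  · rw [← hV', h2]
    exact Subtype.prop _
  · have h3 : algebraMap F Φ (Polynomial.aeval θ q) -
        algebraMap C Φ (Polynomial.eval₂ ((algebraMap K C).comp (algebraMap O K)) r q) ∈
        V'.nonunits := by
      rw [h1, h2]
      have h4 := Polynomial.sub_dvd_eval_sub (⟨algebraMap F Φ θ, hΘ⟩ : V')
        ⟨algebraMap C Φ r, (hV' r).mpr hrV⟩ (q.map (RingHom.codRestrict ((algebraMap C Φ).comp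
        ((algebraMap K C).comp (algebraMap O K))) V' hψ))
      rw [Polynomial.eval_map, Polynomial.eval_map] at h4
      obtain ⟨z, hz⟩ := h4
      have h5 := congrArg Subtype.val hz
      have h6 : ((Polynomial.eval₂
        (RingHom.codRestrict ((algebraMap C Φ).comp ((algebraMap K C).comp (algebraMap O K))) V' hψ)
        ⟨algebraMap F Φ θ, hΘ⟩ q : V') : Φ) - ((Polynomial.eval₂
        (RingHom.codRestrict ((algebraMap C Φ).comp ((algebraMap K C).comp (algebraMap O K))) V' hψ)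
        ⟨algebraMap C Φ r, (hV' r).mpr hrV⟩ q : V') : Φ) =
        (algebraMap F Φ θ - algebraMap C Φ r) * (z : Φ) := h5
      rw [h6]
      exact bpr_mul hrn z.2
    have h7 : algebraMap F Φ (a - Polynomial.aeval θ q) ∈ V'.nonunits := hnu _ hq
    have h8 := add_mem h7 h3
    rw [map_sub, sub_add_sub_cancel] at h8
    exact h8

private theorem bpr_AV {W₀ : ValuationSubring F} {pts₀ : Set (Subring F)} {V : ValuationSubring C}
    {W : ValuationSubring Φ} (E : BExt O K W₀ pts₀ V W) {A₀ : Subring F} (hA₀ : A₀ ∈ pts₀)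
    (V' : ValuationSubring Φ) (hV' : ∀ c : C, algebraMap C Φ c ∈ V' ↔ c ∈ V)
    (hd : Dom A₀ (V'.comap (algebraMap F Φ))) (b : Φ) (hb : b ∈ AV A₀ V) :
    b ∈ V' ∧ ∃ d ∈ V, b - algebraMap C Φ d ∈ V'.nonunits := by
  unfold AV at hb
  induction hb using Subring.closure_induction with
  | mem x hx =>
    rcases hx with ⟨a, ha, rfl⟩ | ⟨c, hc, rfl⟩
    · exact ⟨hd.1 a ha, bpr_el E hA₀ V' hV' hd a ha⟩
    · exact ⟨(hV' c).mpr hc, c, hc, by rw [sub_self]; exact zero_mem _⟩
  | zero => exact ⟨zero_mem _, 0, zero_mem _, by rw [map_zero, sub_zero]; exact zero_mem _⟩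
  | one => exact ⟨one_mem _, 1, one_mem _, by rw [map_one, sub_self]; exact zero_mem _⟩
  | add x y _ _ hx hy =>
    obtain ⟨hx1, d, hd1, hd2⟩ := hx
    obtain ⟨hy1, f, hf1, hf2⟩ := hy
    refine ⟨add_mem hx1 hy1, d + f, add_mem hd1 hf1, ?_⟩
    have h := add_mem hd2 hf2
    rw [map_add]
    convert h using 1
    ring
  | neg x _ hx =>
    obtain ⟨hx1, d, hd1, hd2⟩ := hx
    refine ⟨neg_mem hx1, -d, neg_mem hd1, ?_⟩
    have h := neg_mem hd2
    rw [map_neg]
    convert h using 1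
    ring
  | mul x y _ _ hx hy =>
    obtain ⟨hx1, d, hd1, hd2⟩ := hx
    obtain ⟨hy1, f, hf1, hf2⟩ := hy
    refine ⟨mul_mem hx1 hy1, d * f, mul_mem hd1 hf1, ?_⟩
    have h := add_mem (bpr_mul hd2 hy1) (bpr_mul hf2 ((hV' d).mpr hd1))
    rw [map_mul]
    convert h using 1
    ring

theorem bpr {W₀ : ValuationSubring F} {pts₀ : Set (Subring F)} {V : ValuationSubring C}
    {W : ValuationSubring Φ} (E : BExt O K W₀ pts₀ V W) {A₀ : Subring F} (hA₀ : A₀ ∈ pts₀)
    (V' : ValuationSubring Φ) (hV' : ∀ c : C, algebraMap C Φ c ∈ V' ↔ c ∈ V)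
    (hd : Dom A₀ (V'.comap (algebraMap F Φ))) (a : Φ) (ha : a ∈ locA (AV A₀ V) V') :
    ∃ c ∈ V, NU (locA (AV A₀ V) V') (a - algebraMap C Φ c) := by
  have hbas := bpa_basic E hA₀ V' hV' hd
  have ha' := ha
  obtain ⟨b, hb, s, hs, h0, h1, h2, h3⟩ := ha
  obtain ⟨hbV, d, hd1, hd2⟩ := bpr_AV E hA₀ V' hV' hd b hb
  obtain ⟨hsV, f, hf1, hf2⟩ := bpr_AV E hA₀ V' hV' hd s hs
  -- `f` is a unit of `V`
  have hfn : algebraMap C Φ f ∉ V'.nonunits := by
    intro h
    have h4 := add_mem hf2 h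
    rw [sub_add_cancel, ValuationSubring.mem_nonunits_iff_or] at h4
    rcases h4 with h4 | h4
    · exact h0 h4
    · exact h4 h2
  rw [ValuationSubring.mem_nonunits_iff_or] at hfn
  push Not at hfn
  obtain ⟨hf0, hfi⟩ := hfn
  have hf0' : f ≠ 0 := fun h => hf0 (by rw [h, map_zero])
  rw [← map_inv₀, hV'] at hfi
  have hcV : d * f⁻¹ ∈ V := mul_mem hd1 hfi
  refine ⟨d * f⁻¹, hcV, ?_⟩
  rw [bpa_nu E hA₀ V' hV' hd]
  refine ⟨sub_mem ha' (hbas.1 _ hcV), ?_⟩
  have h5 : a - algebraMap C Φ (d * f⁻¹) =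
      ((b - algebraMap C Φ d) * algebraMap C Φ f +
        (s - algebraMap C Φ f) * (-(algebraMap C Φ d))) * (s⁻¹ * algebraMap C Φ f⁻¹) := by
    have h6 : a = b * s⁻¹ := by
      rw [← h3, mul_assoc, mul_inv_cancel₀ h0, mul_one]
    rw [h6, map_mul, map_inv₀]
    field_simp
    ring
  rw [h5]
  apply bpr_mul
  · exact add_mem (bpr_mul hd2 ((hV' f).mpr hf1)) (bpr_mul hf2 (neg_mem ((hV' d).mpr hd1)))
  · exact mul_mem h2 ((hV' _).mpr hfi)

end Pool.Agent.ESH
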