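import Pool.Agent.ESH.FXR
import Pool.Agent.Helper11.Degree
import Pool.Agent.Helper11.Height

/-!
# ESH / BRA: branch points of a Galois cover of the line

`G` finite group of `C`-automorphisms, `Φ^G = C(x)`, so `[Φ : C(x)] = N = card G` (Artin).  For a place `Q` put
`g Q = plMap g ...` (`(g Q).ord f = Q.ord (g⁻¹ f)`).

`bra_deg`: Artin's theorem (`IntermediateField.fixedField`, `finrank_eq_card`).
`bra_fin`: suppose `c` is a branch point, `P.ord (x - c) ≥ 2`, and `Q.ord (x - c) ≥ 1`.  If the stabiliser of `Q` were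
trivial then the `N` places `g Q` are distinct zeros of `x - c` of order `Q.ord (x - c) ≥ 1`; the sum of all
`max 0 (v.ord (x - c))` is `N` (`finsum_pos_ord`, `C(x - c) = C(x)`), so these are all the zeros and all have order `1`:
contradiction with `P`.
`bra_inf`: the same with poles.
`bra_card`: if `x` has at most `r` finite branch points (in a finset `B`), the places with non-trivial stabiliser in `G` are
zeros of `x - c`, `c ∈ B`, or poles of `x`: by `fxr_ord` their order is not `1`, resp. not `-1`; each fibre has at most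
`N` places, so at most `(r + 1) N` in all.
-/

namespace Pool.Agent.ESH

open Pool.Agent.Helper11 IntermediateField

variable {C Φ : Type*} [Field C] [Field Φ] [Algebra C Φ] [FunField C Φ] [CharZero C] [IsAlgClosed C]

theorem bra_deg (G : Subgroup (Φ ≃ₐ[C] Φ)) [Finite G] (x : Φ) (hx : FixGen G x) :
    Transcendental C x ∧ Module.finrank C⟮x⟯ Φ = Nat.card G := by
  have hfix : IntermediateField.fixedField G = C⟮x⟯ := by
    apply le_antisymm
    · intro f hf
      rw [IntermediateField.mem_fixedField_iff] at hf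
      exact hx.2 f hf
    · rw [IntermediateField.adjoin_simple_le_iff, IntermediateField.mem_fixedField_iff]
      exact hx.1
  have hfr : Module.finrank (IntermediateField.fixedField G) Φ = Nat.card G := by
    have := Fintype.ofFinite G
    rw [Nat.card_eq_fintype_card]
    exact FixedPoints.finrank_eq_card G Φ
  rw [hfix] at hfr
  refine ⟨?_, hfr⟩
  by_contra halg
  have halg' : IsAlgebraic C x := by
    by_contra h
    exact halg h
  obtain ⟨c, hc⟩ := mem_range_of_isAlgebraic halg'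
  have hfin : FiniteDimensional C⟮x⟯ Φ := by
    apply FiniteDimensional.of_finrank_pos
    rw [hfr]
    exact Nat.card_pos
  obtain ⟨y, hy⟩ := FunField.exists_transcendental (k := C) (L := Φ)
  apply hy
  have h1 : IsAlgebraic C⟮x⟯ y := (IsIntegral.of_finite C⟮x⟯ y).isAlgebraic
  have h2 : Algebra.IsAlgebraic C C⟮x⟯ := IntermediateField.isAlgebraic_adjoin_simple
    (halg'.isIntegral)
  exact h1.restrictScalars C

/-- the sum over a finite set of places is at most the total sum -/
private theorem bra_sum_le (f : Place C Φ → ℤ) (hf : {v | f v ≠ 0}.Finite) (h0 : ∀ v, 0 ≤ f v)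
    (S : Finset (Place C Φ)) : ∑ v ∈ S, f v ≤ ∑ᶠ v, f v := by
  classical
  have h1 : Function.support f ⊆ ((hf.toFinset ∪ S : Finset (Place C Φ)) : Set (Place C Φ)) := by
    intro v hv
    simp only [Finset.coe_union, Set.mem_union, Finset.mem_coe, Set.Finite.mem_toFinset]
    left
    exact hv
  rw [finsum_eq_sum_of_support_subset f h1]
  exact Finset.sum_le_sum_of_subset_of_nonneg Finset.subset_union_right fun i _ _ => h0 i

/-- the image of a place under an automorphism -/
private noncomputable def braPl (g : Φ ≃ₐ[C] Φ) (Q : Place C Φ) : Place C Φ :=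
  plMap (g : Φ ≃+* Φ) (RingEquiv.refl C) (fun c => g.commutes c) Q

private theorem braPl_ord (g : Φ ≃ₐ[C] Φ) (Q : Place C Φ) (f : Φ) :
    (braPl g Q).ord f = Q.ord (g⁻¹ f) := rfl

private theorem bra_main (G : Subgroup (Φ ≃ₐ[C] Φ)) [Finite G] (y : Φ)
    (hy : ht C y = (Nat.card G : ℤ)) (hfix : ∀ g ∈ G, g y = y) (P Q : Place C Φ)
    (hP : 2 ≤ P.ord y) (hQ : 1 ≤ Q.ord y) : ∃ g ∈ G, g ≠ 1 ∧ Fixes g Q := by
  classical
  by_contra hcon
  push Not at hcon
  have hinj : Function.Injective (fun g : G => braPl (g : Φ ≃ₐ[C] Φ) Q) := by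
    intro g h hgh
    simp only at hgh
    by_contra hne
    apply hcon ((g : Φ ≃ₐ[C] Φ)⁻¹ * (h : Φ ≃ₐ[C] Φ)) (G.mul_mem (G.inv_mem g.2) h.2)
    · intro h1
      apply hne
      apply Subtype.ext
      exact inv_mul_eq_one.mp h1
    · intro f
      have h2 := congrArg (fun R : Place C Φ => R.ord ((h : Φ ≃ₐ[C] Φ) f)) hgh
      simp only [braPl_ord] at h2
      rw [AlgEquiv.mul_apply, h2]
      congr 1
      rw [← AlgEquiv.mul_apply, inv_mul_cancel, AlgEquiv.one_apply]
  have hford : ∀ g : G, (braPl (g : Φ ≃ₐ[C] Φ) Q).ord y = Q.ord y := by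
    intro g
    rw [braPl_ord, hfix _ (G.inv_mem g.2)]
  have := Fintype.ofFinite G
  set S : Finset (Place C Φ) := Finset.univ.image (fun g : G => braPl (g : Φ ≃ₐ[C] Φ) Q) with hS
  have hScard : S.card = Nat.card G := by
    rw [hS, Finset.card_image_of_injective _ hinj, Finset.card_univ, Nat.card_eq_fintype_card]
  have hSord : ∀ v ∈ S, max 0 (v.ord y) = Q.ord y := by
    intro v hv
    rw [hS, Finset.mem_image] at hv
    obtain ⟨g, -, rfl⟩ := hv
    rw [hford g]
    exact max_eq_right (by omega)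
  have hpos : (0 : ℤ) < Nat.card G := by exact_mod_cast Nat.card_pos
  have htot : ∑ᶠ v : Place C Φ, max 0 (v.ord y) = (Nat.card G : ℤ) := by
    rw [← ht_eq_pos, hy]
  have hfin := supp_pospart (k := C) y
  have hSsum : ∑ v ∈ S, max 0 (v.ord y) = Nat.card G * Q.ord y := by
    rw [Finset.sum_congr rfl hSord, Finset.sum_const, hScard, nsmul_eq_mul]
  by_cases hPS : P ∈ S
  · have h1 := bra_sum_le (fun v : Place C Φ => max 0 (v.ord y)) hfin (fun v => le_max_left _ _) S
    rw [hSsum, htot] at h1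
    have h2 : Q.ord y = P.ord y := by
      rw [← hSord P hPS]
      exact max_eq_right (by omega)
    rw [h2] at h1
    nlinarith
  · have h1 := bra_sum_le (fun v : Place C Φ => max 0 (v.ord y)) hfin (fun v => le_max_left _ _)
      (insert P S)
    rw [Finset.sum_insert hPS, hSsum, htot, max_eq_right (by omega)] at h1
    nlinarith

private theorem bra_ht (G : Subgroup (Φ ≃ₐ[C] Φ)) [Finite G] (x : Φ) (hx : FixGen G x) :
    ht C x = (Nat.card G : ℤ) := by
  obtain ⟨h1, h2⟩ := bra_deg G x hx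
  rw [ht_eq_finrank h1, h2]

private theorem bra_ht_sub (G : Subgroup (Φ ≃ₐ[C] Φ)) [Finite G] (x : Φ) (hx : FixGen G x) (c : C) :
    ht C (x - algebraMap C Φ c) = (Nat.card G : ℤ) := by
  have h := ht_add_const x (-c)
  rw [map_neg, ← sub_eq_add_neg] at h
  rw [h, bra_ht G x hx]

theorem bra_fin (G : Subgroup (Φ ≃ₐ[C] Φ)) [Finite G] (x : Φ) (hx : FixGen G x) (c : C)
    (hc : BrF x c) (Q : Place C Φ) (hQ : 1 ≤ Q.ord (x - algebraMap C Φ c)) :
    ∃ g ∈ G, g ≠ 1 ∧ Fixes g Q := by
  obtain ⟨P, hP⟩ := hc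
  refine bra_main G (x - algebraMap C Φ c) (bra_ht_sub G x hx c) ?_ P Q hP hQ
  intro g hg
  rw [map_sub, hx.1 g hg, g.commutes]

theorem bra_inf (G : Subgroup (Φ ≃ₐ[C] Φ)) [Finite G] (x : Φ) (hx : FixGen G x)
    (hc : BrI C x) (Q : Place C Φ) (hQ : Q.ord x ≤ -1) : ∃ g ∈ G, g ≠ 1 ∧ Fixes g Q := by
  obtain ⟨P, hP⟩ := hc
  refine bra_main G x⁻¹ ?_ ?_ P Q ?_ ?_
  · rw [ht_inv, bra_ht G x hx]
  · intro g hg
    rw [map_inv₀, hx.1 g hg]
  · rw [Place.ord_inv]; omega
  · rw [Place.ord_inv]; omega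

/-- the number of zeros is at most the height -/
private theorem bra_fib (y : Φ) :
    {Q : Place C Φ | 1 ≤ Q.ord y}.Finite ∧ ({Q : Place C Φ | 1 ≤ Q.ord y}.ncard : ℤ) ≤ ht C y := by
  classical
  have hfin := supp_pospart (k := C) y
  have h1 : {Q : Place C Φ | 1 ≤ Q.ord y}.Finite := by
    refine hfin.subset ?_
    intro Q hQ
    simp only [Set.mem_setOf_eq] at hQ ⊢
    rw [max_eq_right (by omega)]
    omega
  refine ⟨h1, ?_⟩
  rw [ht_eq_pos, Set.ncard_eq_toFinset_card _ h1]
  refine le_trans ?_ (bra_sum_le (fun v : Place C Φ => max 0 (v.ord y)) hfin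
    (fun v => le_max_left _ _) h1.toFinset)
  have h2 : ∀ v ∈ h1.toFinset, (1 : ℤ) ≤ max 0 (v.ord y) := by
    intro v hv
    rw [Set.Finite.mem_toFinset, Set.mem_setOf_eq] at hv
    exact le_max_of_le_right hv
  have h3 := Finset.sum_le_sum h2
  rw [Finset.sum_const, nsmul_eq_mul, mul_one] at h3
  exact h3

theorem bra_card (G : Subgroup (Φ ≃ₐ[C] Φ)) [Finite G] (x : Φ) (hx : FixGen G x) (B : Finset C)
    (hB : ∀ c : C, BrF x c → c ∈ B) :
    {Q : Place C Φ | ∃ g ∈ G, g ≠ 1 ∧ Fixes g Q}.Finite ∧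
    {Q : Place C Φ | ∃ g ∈ G, g ≠ 1 ∧ Fixes g Q}.ncard ≤ (B.card + 1) * Nat.card G := by
  classical
  set T : Set (Place C Φ) := (⋃ c ∈ B, {Q : Place C Φ | 1 ≤ Q.ord (x - algebraMap C Φ c)}) ∪
    {Q : Place C Φ | 1 ≤ Q.ord x⁻¹} with hT
  have hxt := (bra_deg G x hx).1
  have hsub : {Q : Place C Φ | ∃ g ∈ G, g ≠ 1 ∧ Fixes g Q} ⊆ T := by
    rintro Q ⟨g, hg, hg1, hgQ⟩
    have hpow : g ^ Nat.card G = 1 := by
      have := pow_card_eq_one' (x := (⟨g, hg⟩ : G))
      exact congrArg Subtype.val this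
    obtain ⟨h1, h2⟩ := fxr_ord g (Nat.card G) Nat.card_pos hpow hg1 Q hgQ x (hx.1 g hg)
    rw [hT]
    by_cases h3 : x ∈ Q.ge 0
    · left
      obtain ⟨c, hc⟩ := Q.exists_residue h3
      have hne : x - algebraMap C Φ c ≠ 0 := by
        intro h4
        apply hxt
        rw [sub_eq_zero.mp h4]
        exact isAlgebraic_algebraMap c
      have h5 : 1 ≤ Q.ord (x - algebraMap C Φ c) := Q.le_ord_of_mem hc hne
      have h6 := h1 c
      have h7 : c ∈ B := hB c ⟨Q, by omega⟩
      rw [Set.mem_iUnion₂]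
      exact ⟨c, h7, h5⟩
    · right
      rw [Place.mem_ge] at h3
      push Not at h3
      rw [Set.mem_setOf_eq, Place.ord_inv]
      omega
  have hfinc : ∀ c : C, {Q : Place C Φ | 1 ≤ Q.ord (x - algebraMap C Φ c)}.Finite :=
    fun c => (bra_fib _).1
  have hncc : ∀ c : C, {Q : Place C Φ | 1 ≤ Q.ord (x - algebraMap C Φ c)}.ncard ≤ Nat.card G := by
    intro c
    have h := (bra_fib (C := C) (x - algebraMap C Φ c)).2
    rw [bra_ht_sub G x hx] at h
    exact_mod_cast h
  have hfin1 : {Q : Place C Φ | 1 ≤ Q.ord x⁻¹}.Finite := (bra_fib _).1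
  have hnc1 : {Q : Place C Φ | 1 ≤ Q.ord x⁻¹}.ncard ≤ Nat.card G := by
    have h := (bra_fib (C := C) x⁻¹).2
    rw [ht_inv, bra_ht G x hx] at h
    exact_mod_cast h
  have hU : ∀ D : Finset C,
      (⋃ c ∈ D, {Q : Place C Φ | 1 ≤ Q.ord (x - algebraMap C Φ c)}).Finite ∧
      (⋃ c ∈ D, {Q : Place C Φ | 1 ≤ Q.ord (x - algebraMap C Φ c)}).ncard ≤
        D.card * Nat.card G := by
    intro D
    induction D using Finset.induction_on with
    | empty => simp
    | insert a s ha ih =>
      rw [Finset.set_biUnion_insert]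
      refine ⟨(hfinc a).union ih.1, ?_⟩
      rw [Finset.card_insert_of_notMem ha]
      refine (Set.ncard_union_le _ _).trans ?_
      have := hncc a
      have := ih.2
      nlinarith
  have hTfin : T.Finite := (hU B).1.union hfin1
  refine ⟨hTfin.subset hsub, (Set.ncard_le_ncard hsub hTfin).trans ?_⟩
  rw [hT]
  refine (Set.ncard_union_le _ _).trans ?_
  have := (hU B).2
  nlinarith

/-- every value is taken -/
theorem bra_surj (x : Φ) (hx : Transcendental C x) (c : C) :
    (∃ Q : Place C Φ, 1 ≤ Q.ord (x - algebraMap C Φ c)) ∧ ∃ Q : Place C Φ, Q.ord x ≤ -1 := by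
  have h0 := ht_pos hx
  constructor
  · by_contra hcon
    push Not at hcon
    have h := ht_add_const x (-c)
    rw [map_neg, ← sub_eq_add_neg, ht_eq_pos] at h
    have h2 : ∑ᶠ v : Place C Φ, max 0 (v.ord (x - algebraMap C Φ c)) = 0 := by
      apply finsum_eq_zero_of_forall_eq_zero
      intro v
      have h3 := hcon v
      have h4 : v.ord (x - algebraMap C Φ c) ≤ 0 := by omega
      exact max_eq_left h4
    rw [h2] at h
    omega
  · by_contra hcon
    push Not at hcon
    have h2 : ht C x = 0 := by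
      unfold ht
      apply finsum_eq_zero_of_forall_eq_zero
      intro v
      have h3 := hcon v
      have h4 : -v.ord x ≤ 0 := by omega
      exact max_eq_left h4
    omega

end Pool.Agent.ESH
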