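import Pool.Agent.ESH.PDV

/-!
# ESH / BSG: an integral equation with small coefficients for the critical values

Proof.  For `j < n` let `r_j` be the remainder of PDV: `n` vectors in `ℤ^(n-1)` with entries of absolute value
`≤ B = ((n+1)^2 A)^(n(n+1))`.  Siegel's lemma (`Int.Matrix.exists_ne_zero_int_vec_norm_le`, `n - 1` equations, `n`
unknowns, exponent `(n-1)/1`): integers `c_j`, not all zero, `|c_j| ≤ (n max(1,B))^(n-1) ≤ ((n+1)^2 A)^((n+1)^3)`, with
`∑ c_j r_j = 0` (`A ≥ 1` since `f ≠ 0`).  Put `R = ∑ c_j X^j`, `deg R ≤ n - 1`.  If `f'(γ) = 0` in a field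
`F` of characteristic zero, then `ℓ^(n^2) f(γ)^j = r_j(γ)`, so `ℓ^(n^2) R(f(γ)) = ∑ c_j r_j(γ) = 0`, `ℓ ≠ 0`.
-/

namespace Pool.Agent.ESH

open Polynomial

section

attribute [local instance] Matrix.seminormedAddCommGroup

private theorem bsg_siegel (n : ℕ) (hn : 2 ≤ n) (M : Matrix (Fin (n - 1)) (Fin n) ℤ) (B : ℕ)
    (hB : 1 ≤ B) (hM : ∀ i j, |M i j| ≤ (B : ℤ)) :
    ∃ t : Fin n → ℤ, t ≠ 0 ∧ (∀ i, ∑ j, M i j * t j = 0) ∧
      ∀ j, |t j| ≤ (((n * B) ^ (n - 1) : ℕ) : ℤ) := by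
  obtain ⟨t, ht0, ht1, ht2⟩ := Int.Matrix.exists_ne_zero_int_vec_norm_le M
    (by rw [Fintype.card_fin, Fintype.card_fin]; omega) (by rw [Fintype.card_fin]; omega)
  refine ⟨t, ht0, fun i => ?_, fun j => ?_⟩
  · have h1 := congrFun ht1 i
    simpa only [Matrix.mulVec, dotProduct, Pi.zero_apply] using h1
  · have hMn : ‖M‖ ≤ (B : ℝ) := by
      rw [Matrix.norm_le_iff (by positivity)]
      intro i j
      rw [Int.norm_eq_abs]
      exact_mod_cast hM i j
    have h2 : ‖t‖ ≤ ((n : ℝ) * B) ^ (n - 1) := by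
      refine ht2.trans ?_
      rw [Fintype.card_fin, Fintype.card_fin]
      have h3 : ((n - 1 : ℕ) : ℝ) / ((n : ℝ) - ((n - 1 : ℕ) : ℝ)) = ((n - 1 : ℕ) : ℝ) := by
        have h4 : ((n : ℝ) - ((n - 1 : ℕ) : ℝ)) = 1 := by
          rw [Nat.cast_sub (by omega)]
          push_cast
          ring
        rw [h4, div_one]
      rw [h3, Real.rpow_natCast]
      refine pow_le_pow_left₀ (by positivity) ?_ _
      refine mul_le_mul_of_nonneg_left (max_le ?_ hMn) (by positivity)
      exact_mod_cast hB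
    have h5 : ‖t j‖ ≤ ((n : ℝ) * B) ^ (n - 1) := (norm_le_pi_norm t j).trans h2
    rw [Int.norm_eq_abs] at h5
    have h6 : ((|t j| : ℤ) : ℝ) ≤ ((((n * B) ^ (n - 1) : ℕ) : ℤ) : ℝ) := by
      push_cast
      exact h5
    exact_mod_cast h6

end

theorem bsg (F : Type*) [Field F] [CharZero F] (f : ℤ[X]) (n A : ℕ) (hn : 2 ≤ n)
    (hdeg : f.natDegree = n) (hA : ∀ i, |f.coeff i| ≤ (A : ℤ)) :
    ∃ R : ℤ[X], R ≠ 0 ∧ R.natDegree ≤ n - 1 ∧
      (∀ i, |R.coeff i| ≤ (((n + 1) ^ 2 * A) ^ ((n + 1) ^ 3) : ℤ)) ∧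
      ∀ γ : F, aeval γ f.derivative = 0 → aeval (aeval γ f) R = 0 := by
  classical
  have hf0 : f ≠ 0 := by
    rintro rfl
    rw [natDegree_zero] at hdeg
    omega
  have hA1 : 1 ≤ A := by
    have h1 := hA n
    have h2 : f.coeff n ≠ 0 := by
      rw [← hdeg]
      exact leadingCoeff_ne_zero.mpr hf0
    have h3 : 1 ≤ |f.coeff n| := Int.one_le_abs h2
    have h4 : (1 : ℤ) ≤ (A : ℤ) := h3.trans h1
    exact_mod_cast h4
  have hf' : f.derivative ≠ 0 := by
    intro h0
    have h1 := derivative_eq_zero.mp h0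
    omega
  have hl : f.derivative.leadingCoeff ≠ 0 := leadingCoeff_ne_zero.mpr hf'
  choose s r hr1 hr2 hr3 using fun j : Fin n => pdv f n A hn hdeg hA j j.2
  set b : ℕ := (n + 1) ^ 2 * A with hb
  have hb1 : 1 ≤ b := Nat.one_le_iff_ne_zero.mpr (by positivity)
  obtain ⟨t, ht0, ht1, ht2⟩ := bsg_siegel n hn (fun i j => (r j).coeff i) (b ^ (n * (n + 1)))
    (Nat.one_le_pow _ _ hb1) (fun i j => by
      have h1 := hr3 j i
      push_cast [hb]
      exact h1)
  have hsum : ∑ j, C (t j) * r j = 0 := by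
    ext i
    rw [finsetSum_coeff, coeff_zero]
    simp only [coeff_C_mul]
    by_cases hi : i < n - 1
    · have h1 := ht1 ⟨i, hi⟩
      rw [← h1]
      exact Finset.sum_congr rfl fun j _ => mul_comm _ _
    · refine Finset.sum_eq_zero fun j _ => ?_
      rw [coeff_eq_zero_of_degree_lt ((hr2 j).trans_le (by exact_mod_cast not_lt.mp hi)), mul_zero]
  have hcoef : ∀ i, (∑ j : Fin n, C (t j) * X ^ (j : ℕ)).coeff i =
      if h : i < n then t ⟨i, h⟩ else 0 := by
    intro i
    rw [finsetSum_coeff]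
    simp only [coeff_C_mul_X_pow]
    split_ifs with h
    · rw [Finset.sum_eq_single ⟨i, h⟩]
      · simp
      · intro j _ hj
        rw [if_neg]
        rintro rfl
        exact hj rfl
      · intro h1
        exact absurd (Finset.mem_univ _) h1
    · refine Finset.sum_eq_zero fun j _ => ?_
      rw [if_neg]
      rintro rfl
      exact h j.2
  refine ⟨∑ j : Fin n, C (t j) * X ^ (j : ℕ), ?_, ?_, ?_, ?_⟩
  · intro h0
    refine ht0 (funext fun j => ?_)
    have h1 := hcoef j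
    rw [h0, coeff_zero, dif_pos j.2] at h1
    rw [Pi.zero_apply]
    exact h1.symm
  · rw [natDegree_le_iff_coeff_eq_zero]
    intro i hi
    rw [hcoef, dif_neg (by omega)]
  · intro i
    rw [hcoef]
    have hbound : (((n * b ^ (n * (n + 1))) ^ (n - 1) : ℕ) : ℤ) ≤
        (((n + 1) ^ 2 * A) ^ ((n + 1) ^ 3) : ℤ) := by
      have h1 : (n * b ^ (n * (n + 1))) ^ (n - 1) ≤ b ^ ((n + 1) ^ 3) := by
        have h2 : n ≤ b := by
          rw [hb]
          have h3 : n ≤ (n + 1) ^ 2 := by nlinarith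
          exact h3.trans (Nat.le_mul_of_pos_right _ hA1)
        calc (n * b ^ (n * (n + 1))) ^ (n - 1)
            ≤ (b * b ^ (n * (n + 1))) ^ (n - 1) :=
              Nat.pow_le_pow_left (Nat.mul_le_mul_right _ h2) _
          _ = b ^ ((n * (n + 1) + 1) * (n - 1)) := by
              rw [← pow_succ', ← pow_mul]
          _ ≤ b ^ ((n + 1) ^ 3) := by
              refine Nat.pow_le_pow_right hb1 ?_
              calc (n * (n + 1) + 1) * (n - 1) ≤ (n * (n + 1) + 1) * (n + 1) :=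
                    Nat.mul_le_mul_left _ (by omega)
                _ ≤ (n + 1) ^ 2 * (n + 1) := Nat.mul_le_mul_right _ (by nlinarith)
                _ = (n + 1) ^ 3 := by ring
      have h4 : (((n * b ^ (n * (n + 1))) ^ (n - 1) : ℕ) : ℤ) ≤ ((b ^ ((n + 1) ^ 3) : ℕ) : ℤ) := by
        exact_mod_cast h1
      refine h4.trans (le_of_eq ?_)
      push_cast [hb]
      ring
    split_ifs with h
    · exact (ht2 _).trans hbound
    · rw [abs_zero]
      positivity
  · intro γ hγ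
    have h1 : ∀ j : Fin n, (f.derivative.leadingCoeff ^ (n ^ 2) : F) * (aeval γ f) ^ (j : ℕ) =
        aeval γ (r j) := by
      intro j
      have h2 := congrArg (aeval γ) (hr1 j)
      rw [map_mul, map_add, map_mul, hγ, mul_zero, zero_add, aeval_C, map_pow (aeval γ) f] at h2
      rw [← h2]
      simp
    have h3 : (f.derivative.leadingCoeff ^ (n ^ 2) : F) *
        aeval (aeval γ f) (∑ j : Fin n, C (t j) * X ^ (j : ℕ)) = 0 := by
      have h4 := congrArg (aeval γ) hsum
      rw [map_zero, map_sum] at h4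
      rw [map_sum, Finset.mul_sum, ← h4]
      refine Finset.sum_congr rfl fun j _ => ?_
      rw [map_mul, map_mul, map_pow, aeval_X, aeval_C, aeval_C, ← h1 j]
      ring
    have h5 : ((f.derivative.leadingCoeff : F) ^ (n ^ 2)) ≠ 0 :=
      pow_ne_zero _ (Int.cast_ne_zero.mpr hl)
    exact (mul_eq_zero.mp h3).resolve_left h5

end Pool.Agent.ESH
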