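import Pool.Agent.ESH.Defs

/-!
# ESH / TWA: arithmetic of the iterated exponential `tw`

All elementary.  `tw c s` is monotone in `c` and `s`; `tw a (tw b s) = tw (a+b) s` by induction on `a`;
for `X ≥ 16` one has `X + X ≤ X * X ≤ 2 ^ X` and `X ^ X ≤ 2 ^ (X * X) ≤ 2 ^ 2 ^ X`
(`X < 2 ^ X`, so `X ^ X ≤ (2 ^ X) ^ X`).
-/

namespace Pool.Agent.ESH

theorem tw_zero (s : ℕ) : tw 0 s = s := rfl

theorem tw_succ (c s : ℕ) : tw (c + 1) s = 2 ^ tw c s := rfl

theorem le_tw (c s : ℕ) : s ≤ tw c s := by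
  induction c with
  | zero => exact le_rfl
  | succ c ih =>
    rw [tw_succ]
    exact ih.trans (Nat.lt_two_pow_self).le

theorem tw_comp (a b s : ℕ) : tw a (tw b s) = tw (a + b) s := by
  induction a with
  | zero => rw [tw_zero, Nat.zero_add]
  | succ a ih => rw [tw_succ, ih, Nat.add_right_comm, tw_succ]

private theorem tw_mono_right (c : ℕ) {s t : ℕ} (h : s ≤ t) : tw c s ≤ tw c t := by
  induction c with
  | zero => exact h
  | succ c ih =>
    rw [tw_succ, tw_succ]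
    exact Nat.pow_le_pow_right (by norm_num) ih

theorem tw_mono {c d s t : ℕ} (h : c ≤ d) (h' : s ≤ t) : tw c s ≤ tw d t := by
  obtain ⟨e, rfl⟩ := Nat.exists_eq_add_of_le h
  rw [Nat.add_comm c e, ← tw_comp]
  exact (tw_mono_right c h').trans (le_tw e _)

private theorem tw_sq (X : ℕ) (h : 16 ≤ X) : X * X ≤ 2 ^ X := by
  induction X, h using Nat.le_induction with
  | base => norm_num
  | succ n hn ih =>
    rw [pow_succ]
    nlinarith

private theorem tw_self (X : ℕ) (h : 16 ≤ X) : X ^ X ≤ 2 ^ 2 ^ X := by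
  calc X ^ X ≤ (2 ^ X) ^ X := Nat.pow_le_pow_left (Nat.lt_two_pow_self).le X
    _ = 2 ^ (X * X) := by rw [pow_mul]
    _ ≤ 2 ^ 2 ^ X := Nat.pow_le_pow_right (by norm_num) (tw_sq X h)

private theorem tw_big (c : ℕ) {s : ℕ} (hs : 16 ≤ s) : 16 ≤ tw c s := hs.trans (le_tw c s)

theorem tw_mul {c s x y : ℕ} (hs : 16 ≤ s) (hx : x ≤ tw c s) (hy : y ≤ tw c s) :
    x * y ≤ tw (c + 1) s :=
  (Nat.mul_le_mul hx hy).trans (tw_sq _ (tw_big c hs))

theorem tw_add {c s x y : ℕ} (hs : 16 ≤ s) (hx : x ≤ tw c s) (hy : y ≤ tw c s) :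
    x + y ≤ tw (c + 1) s := by
  have h1 := tw_big c hs
  have h2 := tw_mul hs (le_refl (tw c s)) (le_refl (tw c s))
  nlinarith

theorem tw_pow {c s x y : ℕ} (hs : 16 ≤ s) (hx : x ≤ tw c s) (hy : y ≤ tw c s) :
    x ^ y ≤ tw (c + 2) s := by
  have h1 := tw_big c hs
  calc x ^ y ≤ (tw c s) ^ y := Nat.pow_le_pow_left hx y
    _ ≤ (tw c s) ^ (tw c s) := Nat.pow_le_pow_right (by omega) hy
    _ ≤ 2 ^ 2 ^ (tw c s) := tw_self _ h1
    _ = tw (c + 2) s := rfl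

theorem tw_fact {c s x : ℕ} (hs : 16 ≤ s) (hx : x ≤ tw c s) : x.factorial ≤ tw (c + 2) s :=
  (Nat.factorial_le_pow x).trans (tw_pow hs hx hx)

/-- six-term version: polynomial expressions of total size at most `2 ^ (X / 2)` -/
theorem tw_poly {c s x y z w : ℕ} (hs : 16 ≤ s) (hx : x ≤ tw c s) (hy : y ≤ tw c s)
    (hz : z ≤ tw c s) (hw : w ≤ tw c s) : x * y * z * w ≤ tw (c + 2) s := by
  have h1 := tw_mul hs hx hy
  have h2 := tw_mul hs hz hw
  have h3 := tw_mul hs h1 h2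
  rw [mul_assoc (x * y) z w]
  exact h3

/-- real exponentials -/
theorem exp_le_tw {c s : ℕ} {x : ℝ} (hs : 16 ≤ s) (hx : x ≤ tw c s) :
    Real.exp x ≤ tw (c + 2) s := by
  have h1 : Real.exp x ≤ (Real.exp 1) ^ (tw c s) := by
    rw [← Real.exp_nat_mul, mul_one]
    exact Real.exp_le_exp.2 hx
  have h2 : (Real.exp 1) ^ (tw c s) ≤ (4 : ℝ) ^ (tw c s) := by
    apply pow_le_pow_left₀ (Real.exp_pos 1).le
    have := Real.exp_one_lt_d9
    linarith
  have h3 : (4 : ℕ) ^ (tw c s) ≤ tw (c + 2) s := by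
    have h4 := tw_big c hs
    exact tw_pow hs (by omega) (le_refl _)
  have h5 : ((4 : ℕ) : ℝ) ^ (tw c s) ≤ ((tw (c + 2) s : ℕ) : ℝ) := by exact_mod_cast h3
  refine h1.trans (h2.trans ?_)
  push_cast at h5
  exact h5

end Pool.Agent.ESH
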