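import Pool.Agent.ESH.BSG
import Pool.Agent.ESH.TWA

/-!
# ESH / BST: first half of Belyi's theorem, effective (reduction to rational points)

Claim: for `P ≠ 0` in `ℤ[X]` of degree `≤ N` with coefficients `≤ A` in absolute value there are `g ∈ ℤ[X]`,
`1 ≤ deg g ≤ N!`, and a finite set `T` of rational numbers, `card T ≤ N + 1`, such that `g(roots of P) ⊆ T` and
`g(roots of g') ⊆ T` (in the field `F`), with numerators and denominators `≤ tw 8 (N + A + 16)`.

Proof.  Fix `N`, `b(A) = (N+1)^2 A`, `E = 2 (N+1)^3 + N!`.  Prove by induction on `n ≤ N`, for all `A ≥ 1` and `P` of degree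
`≤ n`, coefficients `≤ A`: there are `g`, `T` as above with `deg g ≤ n!`, `card T ≤ n + 1`,
numerators, denominators `≤ b(A)^(E^(n+1))`, and `|g(x)| ≤ b(A)^(E^(n+1)) max(1,|x|)^(n!)` for rational `x`.
`deg P ≤ 1`: `g = X`, `T = {- a₀/a₁}` (or `∅` if `P` is constant); `g' = 1`.
`deg P = n ≥ 2` (if `deg P < n` use the induction hypothesis): let `R` be given by BSG for `f = P`, with coefficients
`≤ A' = b(A)^((N+1)^3)` (`(n+1)^2 A ≤ b(A)`), and apply the induction hypothesis to `R` (degree `≤ n - 1`):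
`g₁`, `T₁`.  Put `g = g₁.comp P`, `T = T₁ ∪ {g₁(0)}`.  Roots of `P` go to `g₁(0)`.  If `g'(γ) = g₁'(P(γ)) P'(γ) = 0`
then either `P'(γ) = 0`, `R(P(γ)) = 0`, `g₁(P(γ)) ∈ T₁`, or `g₁'(P(γ)) = 0`, `g₁(P(γ)) ∈ T₁`.  Bounds:
`b(A') ≤ b(A)^(2(N+1)^3)`, `|P(x)| ≤ (n+1) A max(1,|x|)^n ≤ b(A) max(1,|x|)^n`, so
`|g(x)| ≤ b(A')^(E^n) b(A)^((n-1)!) max(1,|x|)^(n!)` and `2 (N+1)^3 E^n + N! ≤ E^(n+1)`.
Finally with TWA: `((N+1)^2 A)^(E^(N+1)) ≤ tw 8 (N + A + 16)` (`A` may be replaced by `max A 1`).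
-/

namespace Pool.Agent.ESH

open Polynomial

private theorem bst_eval (P : ℤ[X]) (n A : ℕ) (hdeg : P.natDegree ≤ n)
    (hA : ∀ i, |P.coeff i| ≤ (A : ℤ)) (x : ℤ) :
    |P.eval x| ≤ ((n + 1) * A : ℕ) * max 1 |x| ^ n := by
  rw [eval_eq_sum_range' (Nat.lt_succ_of_le hdeg)]
  refine (Finset.abs_sum_le_sum_abs _ _).trans ?_
  have h1 : ∀ i ∈ Finset.range n.succ, |P.coeff i * x ^ i| ≤ (A : ℤ) * max 1 |x| ^ n := by
    intro i hi
    rw [Finset.mem_range, Nat.lt_succ_iff] at hi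
    rw [abs_mul, abs_pow]
    refine mul_le_mul (hA i) ?_ (by positivity) (by positivity)
    calc |x| ^ i ≤ max 1 |x| ^ i := pow_le_pow_left₀ (abs_nonneg _) (le_max_right _ _) _
      _ ≤ max 1 |x| ^ n := pow_le_pow_right₀ (le_max_left _ _) hi
  refine (Finset.sum_le_card_nsmul _ _ _ h1).trans (le_of_eq ?_)
  rw [Finset.card_range, nsmul_eq_mul]
  push_cast
  ring

/-- the statement of the induction -/
private def BstC (F : Type*) [Field F] [CharZero F] (P : ℤ[X]) (n K : ℕ) : Prop :=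
  ∃ (g : ℤ[X]) (T : Finset ℚ), 1 ≤ g.natDegree ∧ g.natDegree ≤ n.factorial ∧ T.card ≤ n + 1 ∧
    (∀ q ∈ T, q.num.natAbs ≤ K ∧ q.den ≤ K) ∧
    (∀ x : ℤ, |g.eval x| ≤ (K : ℤ) * max 1 |x| ^ n.factorial) ∧
    (∀ z : F, aeval z P = 0 → ∃ q ∈ T, aeval z g = algebraMap ℚ F q) ∧
    (∀ z : F, aeval z g.derivative = 0 → ∃ q ∈ T, aeval z g = algebraMap ℚ F q)

private theorem bst_mono (F : Type*) [Field F] [CharZero F] (P : ℤ[X]) {n n' K K' : ℕ} (hn : n ≤ n')
    (hK : K ≤ K') (h : BstC F P n K) : BstC F P n' K' := by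
  obtain ⟨g, T, h1, h2, h3, h4, h5, h7, h8⟩ := h
  refine ⟨g, T, h1, h2.trans (Nat.factorial_le hn), h3.trans (by omega),
    fun q hq => ⟨(h4 q hq).1.trans hK, (h4 q hq).2.trans hK⟩, fun x => ?_, h7, h8⟩
  refine (h5 x).trans (mul_le_mul (by exact_mod_cast hK)
    (pow_le_pow_right₀ (le_max_left _ _) (Nat.factorial_le hn)) (by positivity) (by positivity))

private theorem bst_step (F : Type*) [Field F] [CharZero F] (N n A : ℕ) (hn : 1 ≤ n)
    (hN : n + 1 ≤ N) (hA1 : 1 ≤ A) (P : ℤ[X]) (hdeg : P.natDegree = n + 1)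
    (hA : ∀ i, |P.coeff i| ≤ (A : ℤ))
    (ih : ∀ (R : ℤ[X]) (A' : ℕ), 1 ≤ A' → R ≠ 0 → R.natDegree ≤ n → (∀ i, |R.coeff i| ≤ (A' : ℤ)) →
      BstC F R n (((N + 1) ^ 2 * A') ^ ((2 * (N + 1) ^ 3 + N.factorial) ^ (n + 1)))) :
    BstC F P (n + 1) (((N + 1) ^ 2 * A) ^ ((2 * (N + 1) ^ 3 + N.factorial) ^ (n + 2))) := by
  obtain ⟨R, hR0, hR1, hR2, hR3⟩ := bsg F P (n + 1) A (by omega) hdeg hA
  set b : ℕ := (N + 1) ^ 2 * A with hb
  set E : ℕ := 2 * (N + 1) ^ 3 + N.factorial with hE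
  have hb1 : 1 ≤ b := Nat.one_le_iff_ne_zero.mpr (by positivity)
  have hE1 : 1 ≤ E := by
    rw [hE]
    have : 1 ≤ (N + 1) ^ 3 := Nat.one_le_pow _ _ (by omega)
    omega
  obtain ⟨g, T, h1, h2, h3, h4, h5, h7, h8⟩ := ih R (b ^ ((N + 1) ^ 3))
    (Nat.one_le_pow _ _ hb1) hR0 (by simpa using hR1) (by
      intro i
      refine (hR2 i).trans ?_
      have e1 : (n + 1 + 1) ^ 2 * A ≤ b := by
        rw [hb]
        exact Nat.mul_le_mul_right _ (Nat.pow_le_pow_left (by omega) _)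
      have e2 : ((n + 1 + 1) ^ 2 * A) ^ ((n + 1 + 1) ^ 3) ≤ b ^ ((N + 1) ^ 3) :=
        (Nat.pow_le_pow_left e1 _).trans
          (Nat.pow_le_pow_right hb1 (Nat.pow_le_pow_left (by omega) _))
      exact_mod_cast e2)
  set K₁ : ℕ := ((N + 1) ^ 2 * b ^ ((N + 1) ^ 3)) ^ (E ^ (n + 1)) with hK₁
  have hK₁b : K₁ * b ^ n.factorial ≤ b ^ E ^ (n + 2) := by
    have e1 : (N + 1) ^ 2 * b ^ ((N + 1) ^ 3) ≤ b ^ (2 * (N + 1) ^ 3) := by
      rw [two_mul, pow_add]
      refine Nat.mul_le_mul_right _ ?_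
      calc (N + 1) ^ 2 ≤ b := Nat.le_mul_of_pos_right _ hA1
        _ = b ^ 1 := (pow_one _).symm
        _ ≤ b ^ (N + 1) ^ 3 := Nat.pow_le_pow_right hb1 (Nat.one_le_pow _ _ (by omega))
    have e2 : K₁ ≤ b ^ (2 * (N + 1) ^ 3 * E ^ (n + 1)) := by
      rw [hK₁, pow_mul]
      exact Nat.pow_le_pow_left e1 _
    calc K₁ * b ^ n.factorial ≤ b ^ (2 * (N + 1) ^ 3 * E ^ (n + 1)) * b ^ N.factorial :=
          Nat.mul_le_mul e2 (Nat.pow_le_pow_right hb1 (Nat.factorial_le (by omega)))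
      _ = b ^ (2 * (N + 1) ^ 3 * E ^ (n + 1) + N.factorial) := (pow_add _ _ _).symm
      _ ≤ b ^ E ^ (n + 2) := by
          refine Nat.pow_le_pow_right hb1 ?_
          have e3 : N.factorial ≤ N.factorial * E ^ (n + 1) :=
            Nat.le_mul_of_pos_right _ (by positivity)
          calc 2 * (N + 1) ^ 3 * E ^ (n + 1) + N.factorial
              ≤ 2 * (N + 1) ^ 3 * E ^ (n + 1) + N.factorial * E ^ (n + 1) :=
                Nat.add_le_add_left e3 _
            _ = E * E ^ (n + 1) := by rw [hE]; ring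
            _ = E ^ (n + 2) := by ring
  have hbf : 1 ≤ b ^ n.factorial := Nat.one_le_pow _ _ hb1
  have hK₁K : K₁ ≤ b ^ E ^ (n + 2) := (Nat.le_mul_of_pos_right _ hbf).trans hK₁b
  have hK1 : 1 ≤ b ^ E ^ (n + 2) := Nat.one_le_pow _ _ hb1
  refine ⟨g.comp P, insert ((g.eval 0 : ℤ) : ℚ) T, ?_, ?_, ?_, ?_, ?_, ?_, ?_⟩
  · rw [natDegree_comp, hdeg]
    exact Nat.one_le_iff_ne_zero.mpr (by positivity)
  · rw [natDegree_comp, hdeg, Nat.factorial_succ, mul_comm]
    exact Nat.mul_le_mul_left _ h2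
  · exact (Finset.card_insert_le _ _).trans (by omega)
  · intro q hq
    rcases Finset.mem_insert.mp hq with rfl | hq
    · rw [Rat.num_intCast, Rat.den_intCast]
      refine ⟨?_, hK1⟩
      have e1 := h5 0
      rw [abs_zero, max_eq_left (zero_le_one' ℤ), one_pow, mul_one] at e1
      have e2 : (g.eval 0).natAbs ≤ K₁ := by
        rw [Int.abs_eq_natAbs] at e1
        exact_mod_cast e1
      exact e2.trans hK₁K
    · exact ⟨(h4 q hq).1.trans hK₁K, (h4 q hq).2.trans hK₁K⟩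
  · intro x
    rw [eval_comp]
    have e1 : max 1 |P.eval x| ≤ (b : ℤ) * max 1 |x| ^ (n + 1) := by
      have e2 : (1 : ℤ) ≤ max 1 |x| ^ (n + 1) := one_le_pow₀ (le_max_left _ _)
      have e3 : (1 : ℤ) ≤ (b : ℤ) := by exact_mod_cast hb1
      refine max_le ?_ ?_
      · calc (1 : ℤ) = 1 * 1 := (mul_one 1).symm
          _ ≤ (b : ℤ) * max 1 |x| ^ (n + 1) := mul_le_mul e3 e2 (by norm_num) (by positivity)
      · refine (bst_eval P (n + 1) A hdeg.le hA x).trans ?_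
        refine mul_le_mul_of_nonneg_right ?_ (by positivity)
        have e4 : (n + 1 + 1) * A ≤ b := by
          rw [hb]
          refine Nat.mul_le_mul_right _ ?_
          calc n + 1 + 1 ≤ N + 1 := by omega
            _ = (N + 1) ^ 1 := (pow_one _).symm
            _ ≤ (N + 1) ^ 2 := Nat.pow_le_pow_right (by omega) (by norm_num)
        exact_mod_cast e4
    calc |g.eval (P.eval x)| ≤ (K₁ : ℤ) * max 1 |P.eval x| ^ n.factorial := h5 _
      _ ≤ (K₁ : ℤ) * ((b : ℤ) * max 1 |x| ^ (n + 1)) ^ n.factorial :=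
          mul_le_mul_of_nonneg_left (pow_le_pow_left₀ (by positivity) e1 _) (by positivity)
      _ = ((K₁ * b ^ n.factorial : ℕ) : ℤ) * max 1 |x| ^ (n + 1).factorial := by
          rw [mul_pow, ← pow_mul, Nat.factorial_succ]
          push_cast
          ring
      _ ≤ ((b ^ E ^ (n + 2) : ℕ) : ℤ) * max 1 |x| ^ (n + 1).factorial :=
          mul_le_mul_of_nonneg_right (by exact_mod_cast hK₁b) (by positivity)
  · intro z hz
    refine ⟨_, Finset.mem_insert_self _ _, ?_⟩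
    rw [aeval_comp, hz, map_intCast]
    have e1 := aeval_algebraMap_apply F (0 : ℤ) g
    rw [map_zero, coe_aeval_eq_eval] at e1
    rw [e1]
    rfl
  · intro z hz
    rw [derivative_comp, map_mul, aeval_comp] at hz
    rw [aeval_comp]
    rcases mul_eq_zero.mp hz with hz | hz
    · obtain ⟨q, hq, hq'⟩ := h7 _ (hR3 z hz)
      exact ⟨q, Finset.mem_insert_of_mem hq, hq'⟩
    · obtain ⟨q, hq, hq'⟩ := h8 _ hz
      exact ⟨q, Finset.mem_insert_of_mem hq, hq'⟩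

private theorem bst_lin (F : Type*) [Field F] [CharZero F] (K A : ℕ) (hK1 : 1 ≤ K) (hK : A ≤ K)
    (P : ℤ[X]) (hdeg : P.natDegree = 1) (hA : ∀ i, |P.coeff i| ≤ (A : ℤ)) : BstC F P 1 K := by
  have ha : P.coeff 1 ≠ 0 := by
    rw [← hdeg]
    refine leadingCoeff_ne_zero.mpr ?_
    rintro rfl
    rw [natDegree_zero] at hdeg
    omega
  refine ⟨X, {Rat.divInt (-P.coeff 0) (P.coeff 1)}, by rw [natDegree_X], by
    rw [natDegree_X, Nat.factorial_one], by rw [Finset.card_singleton]; omega, ?_, ?_, ?_, ?_⟩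
  · intro q hq
    rw [Finset.mem_singleton] at hq
    subst hq
    constructor
    · refine le_trans ?_ hK
      have e1 := Rat.num_dvd (-P.coeff 0) ha
      rcases eq_or_ne (P.coeff 0) 0 with h0 | h0
      · rw [h0, neg_zero, Rat.zero_divInt]
        simp
      · have e2 := Int.natAbs_dvd_natAbs.mpr e1
        rw [Int.natAbs_neg] at e2
        refine (Nat.le_of_dvd (Int.natAbs_pos.mpr h0) e2).trans ?_
        have e3 := hA 0
        rw [Int.abs_eq_natAbs] at e3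
        exact_mod_cast e3
    · refine le_trans ?_ hK
      have e1 := Rat.den_dvd (-P.coeff 0) (P.coeff 1)
      have e2 := Int.natAbs_dvd_natAbs.mpr e1
      rw [Int.natAbs_natCast] at e2
      refine (Nat.le_of_dvd (Int.natAbs_pos.mpr ha) e2).trans ?_
      have e3 := hA 1
      rw [Int.abs_eq_natAbs] at e3
      exact_mod_cast e3
  · intro x
    rw [eval_X, Nat.factorial_one, pow_one]
    calc |x| ≤ max 1 |x| := le_max_right _ _
      _ = 1 * max 1 |x| := (one_mul _).symm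
      _ ≤ (K : ℤ) * max 1 |x| := mul_le_mul_of_nonneg_right (by exact_mod_cast hK1) (by positivity)
  · intro z hz
    refine ⟨_, Finset.mem_singleton_self _, ?_⟩
    have e1 : (P.coeff 1 : F) ≠ 0 := Int.cast_ne_zero.mpr ha
    have e2 : (P.coeff 1 : F) * z + (P.coeff 0 : F) = 0 := by
      have e3 := eq_X_add_C_of_natDegree_le_one hdeg.le
      rw [e3] at hz
      simpa using hz
    rw [aeval_X, Rat.divInt_eq_div, map_div₀, map_intCast, map_intCast, eq_div_iff e1]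
    push_cast
    linear_combination e2
  · intro z hz
    exfalso
    rw [derivative_X, map_one] at hz
    exact one_ne_zero hz

private theorem bst_all (F : Type*) [Field F] [CharZero F] (N : ℕ) : ∀ n, n ≤ N →
    ∀ (P : ℤ[X]) (A : ℕ), 1 ≤ A → P ≠ 0 → P.natDegree ≤ n → (∀ i, |P.coeff i| ≤ (A : ℤ)) →
      BstC F P n (((N + 1) ^ 2 * A) ^ ((2 * (N + 1) ^ 3 + N.factorial) ^ (n + 1))) := by
  intro n
  induction n with
  | zero =>
    intro _ P A hA1 hP hdeg hA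
    have hb1 : 1 ≤ (N + 1) ^ 2 * A := Nat.one_le_iff_ne_zero.mpr (by positivity)
    refine ⟨X, ∅, by rw [natDegree_X], by rw [natDegree_X, Nat.factorial_zero], by simp, by simp,
      ?_, ?_, ?_⟩
    · intro x
      have e0 : max 1 |x| ^ Nat.factorial 0 = max 1 |x| := by rw [Nat.factorial_zero, pow_one]
      rw [eval_X, e0]
      have hK1 : 1 ≤ ((N + 1) ^ 2 * A) ^ ((2 * (N + 1) ^ 3 + N.factorial) ^ (0 + 1)) :=
        Nat.one_le_pow _ _ hb1
      calc |x| ≤ max 1 |x| := le_max_right _ _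
        _ = 1 * max 1 |x| := (one_mul _).symm
        _ ≤ ((((N + 1) ^ 2 * A) ^ ((2 * (N + 1) ^ 3 + N.factorial) ^ (0 + 1)) : ℕ) : ℤ) *
            max 1 |x| := mul_le_mul_of_nonneg_right (by exact_mod_cast hK1) (by positivity)
    · intro z hz
      exfalso
      have e1 := eq_C_of_natDegree_le_zero hdeg
      have e2 : P.coeff 0 ≠ 0 := fun h0 => hP (by rw [e1, h0, C_0])
      rw [e1, aeval_C] at hz
      exact e2 (by simpa using hz)
    · intro z hz
      exfalso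
      rw [derivative_X, map_one] at hz
      exact one_ne_zero hz
  | succ n ih =>
    intro hnN P A hA1 hP hdeg hA
    have hb1 : 1 ≤ (N + 1) ^ 2 * A := Nat.one_le_iff_ne_zero.mpr (by positivity)
    have hE1 : 1 ≤ 2 * (N + 1) ^ 3 + N.factorial := by
      have : 1 ≤ (N + 1) ^ 3 := Nat.one_le_pow _ _ (by omega)
      omega
    have hmono : ((N + 1) ^ 2 * A) ^ ((2 * (N + 1) ^ 3 + N.factorial) ^ (n + 1)) ≤
        ((N + 1) ^ 2 * A) ^ ((2 * (N + 1) ^ 3 + N.factorial) ^ (n + 1 + 1)) :=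
      Nat.pow_le_pow_right hb1 (Nat.pow_le_pow_right hE1 (by omega))
    rcases Nat.lt_or_ge P.natDegree (n + 1) with hlt | hge
    · exact bst_mono F P (by omega) hmono (ih (by omega) P A hA1 hP (by omega) hA)
    · have hdeg' : P.natDegree = n + 1 := le_antisymm hdeg hge
      rcases Nat.eq_zero_or_pos n with rfl | hn
      · refine bst_lin F _ A (Nat.one_le_pow _ _ hb1) ?_ P hdeg' hA
        calc A ≤ (N + 1) ^ 2 * A := Nat.le_mul_of_pos_left _ (by positivity)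
          _ = ((N + 1) ^ 2 * A) ^ 1 := (pow_one _).symm
          _ ≤ _ := Nat.pow_le_pow_right hb1 (Nat.one_le_pow _ _ hE1)
      · exact bst_step F N n A hn hnN hA1 P hdeg' hA (fun R A' h1 h2 h3 h4 =>
          ih (by omega) R A' h1 h2 h3 h4)

private theorem bst_tw (N A : ℕ) :
    ((N + 1) ^ 2 * max A 1) ^ ((2 * (N + 1) ^ 3 + N.factorial) ^ (N + 1)) ≤ tw 8 (N + A + 16) := by
  set s := N + A + 16 with hs
  have h16 : 16 ≤ s := by omega
  have a0 : N + 1 ≤ tw 0 s := by rw [tw_zero]; omega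
  have a1 : (N + 1) * (N + 1) ≤ tw 1 s := tw_mul h16 a0 a0
  have a0' : N + 1 ≤ tw 1 s := a0.trans (tw_mono (by omega) le_rfl)
  have a2 : (N + 1) * (N + 1) * (N + 1) ≤ tw 2 s := tw_mul h16 a1 a0'
  have a3 : 2 * ((N + 1) * (N + 1) * (N + 1)) ≤ tw 3 s := by
    refine tw_mul h16 ?_ a2
    exact (by omega : 2 ≤ s).trans (le_tw 2 s)
  have a4 : N.factorial ≤ tw 2 s := tw_fact h16 (by rw [tw_zero]; omega)
  have a5 : 2 * (N + 1) ^ 3 + N.factorial ≤ tw 4 s := by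
    have e1 : 2 * (N + 1) ^ 3 = 2 * ((N + 1) * (N + 1) * (N + 1)) := by ring
    rw [e1]
    exact tw_add h16 a3 (a4.trans (tw_mono (by omega) le_rfl))
  have a6 : (2 * (N + 1) ^ 3 + N.factorial) ^ (N + 1) ≤ tw 6 s :=
    tw_pow h16 a5 (a0.trans (tw_mono (by omega) le_rfl))
  have a7 : (N + 1) ^ 2 * max A 1 ≤ tw 2 s := by
    rw [sq]
    refine tw_mul h16 a1 ?_
    exact (max_le (by omega) (by omega) : max A 1 ≤ s).trans (le_tw 1 s)
  exact tw_pow h16 (a7.trans (tw_mono (by omega) le_rfl)) a6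

theorem bst (F : Type*) [Field F] [CharZero F] (P : ℤ[X]) (hP : P ≠ 0) (N A : ℕ)
    (hdeg : P.natDegree ≤ N) (hA : ∀ i, |P.coeff i| ≤ (A : ℤ)) :
    ∃ (g : ℤ[X]) (T : Finset ℚ), 1 ≤ g.natDegree ∧ g.natDegree ≤ N.factorial ∧ T.card ≤ N + 1 ∧
      (∀ q ∈ T, q.num.natAbs ≤ tw 8 (N + A + 16) ∧ q.den ≤ tw 8 (N + A + 16)) ∧
      (∀ z : F, aeval z P = 0 → ∃ q ∈ T, aeval z g = algebraMap ℚ F q) ∧
      (∀ z : F, aeval z g.derivative = 0 → ∃ q ∈ T, aeval z g = algebraMap ℚ F q) := by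
  obtain ⟨g, T, h1, h2, h3, h4, -, h5, h6⟩ := bst_all F N N le_rfl P (max A 1) (le_max_right _ _)
    hP hdeg (fun i => (hA i).trans (by exact_mod_cast le_max_left A 1))
  exact ⟨g, T, h1, h2, h3, fun q hq => ⟨(h4 q hq).1.trans (bst_tw N A),
    (h4 q hq).2.trans (bst_tw N A)⟩, h5, h6⟩

end Pool.Agent.ESH
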