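import Pool.Agent.ESH.BGA

/-!
# ESH / BUQ: uniqueness of `W`

Proof.  Let `V'` be another valuation ring over `W₀` and `V`, so `BExt O K W₀ pts₀ V V'`.  Let `f = a/b`, `a, b` in the `C`-span of `W₀`
(as in `bga_scale`), non-zero.  Write `a = ∑ c_i e_i` with `e` residually independent (BLM), `c_a = c_j` of maximal valuation,
`a' = a/c_a = ∑ (c_i/c_a) e_i`: by BLD for both `W` and `V'`, `a'` is a unit of both.  Same for `b`.  So
`f ∈ W` iff `c_a/c_b ∈ V` iff `f ∈ V'`.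
-/

namespace Pool.Agent.ESH

open Pool.Agent.Helper11

variable {O K F C Φ : Type*} [CommRing O] [IsDomain O] [IsDiscreteValuationRing O] [Field K] [CharZero K]
  [Algebra O K] [IsFractionRing O K] [Field F] [Algebra K F] [Algebra O F] [IsScalarTower O K F]
  [FunField K F] [Field C] [CharZero C] [Algebra K C] [Algebra.IsAlgebraic K C] [IsAlgClosed C] [Field Φ]
  [Algebra F Φ] [Algebra C Φ] [Finite (IsLocalRing.ResidueField O)]

theorem buq_rep {W₀ : ValuationSubring F} {pts₀ : Set (Subring F)} {V : ValuationSubring C}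
    {W V' : ValuationSubring Φ} (E : BExt O K W₀ pts₀ V W) (E' : BExt O K W₀ pts₀ V V') {a : Φ}
    (ha : a ∈ Submodule.span C (Set.range (algebraMap F Φ))) (ha0 : a ≠ 0) :
    ∃ c : C, c ≠ 0 ∧ ∃ u : Φ, u ≠ 0 ∧ u ∈ W ∧ u⁻¹ ∈ W ∧ u ∈ V' ∧ u⁻¹ ∈ V' ∧
      a = algebraMap C Φ c * u := by
  have ha' := rp_span (bga_span E ha)
  obtain ⟨n, e, he, hri, -, ⟨c, hcT, hc1⟩, -⟩ := rp_ri E.mdl E.cmp W₀.toSubring (fun a ha => ha)
    (bga_O E) (fun c _ a _ h => h)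
    (T := (Set.univ : Set C)) (Set.mem_univ _) (fun s hs t ht => Set.mem_univ _)
    (fun t ht o => Set.mem_univ _) ∅ (by simp) ha' ha'
  have hex : ∃ i, c i ≠ 0 := by
    by_contra hcon
    push Not at hcon
    apply ha0
    rw [hc1]
    apply Finset.sum_eq_zero
    intro i _
    rw [hcon i, map_zero, zero_mul]
  obtain ⟨i₀, h0⟩ := hex
  obtain ⟨j, hj0, hj, hdiv, hu, hun, heq⟩ := bga_max E e hri c h0
  have hu' : ∑ i, algebraMap C Φ (c i / c j) * algebraMap F Φ (e i) ∈ V' := by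
    apply sum_mem
    intro i _
    exact mul_mem ((E'.WC _).2 (hdiv i)) ((E'.WF _).2 (hri.1 i))
  have hun' : ∑ i, algebraMap C Φ (c i / c j) * algebraMap F Φ (e i) ∉ V'.nonunits := by
    intro hn
    have h1 := bld E' e hri (fun i => c i / c j) hdiv hn j
    have h2 : V.valuation (c j / c j) < 1 := h1
    rw [div_self hj0, map_one] at h2
    exact lt_irrefl _ h2
  obtain ⟨hx0, hx1⟩ := inv_mem_of_not_nonunit hun
  obtain ⟨-, hx2⟩ := inv_mem_of_not_nonunit hun'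
  exact ⟨c j, hj0, _, hx0, hu, hx1, hu', hx2, by rw [hc1, heq]⟩

theorem buq {W₀ : ValuationSubring F} {pts₀ : Set (Subring F)} {V : ValuationSubring C}
    {W V' : ValuationSubring Φ} (E : BExt O K W₀ pts₀ V W) (E' : BExt O K W₀ pts₀ V V') : V' = W := by
  have key : ∀ f : Φ, f ≠ 0 → ∃ c : C, ∃ u : Φ, u ≠ 0 ∧ u ∈ W ∧ u⁻¹ ∈ W ∧ u ∈ V' ∧ u⁻¹ ∈ V' ∧
      f = algebraMap C Φ c * u := by
    intro f hf
    obtain ⟨a, ha, b, hb, hb0, hab⟩ := E.cmp.gen f
    have ha0 : a ≠ 0 := by rw [← hab]; exact mul_ne_zero hf hb0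
    obtain ⟨c, hc0, u, hu0, hu1, hu2, hu3, hu4, rfl⟩ := buq_rep E E' ha ha0
    obtain ⟨d, hd0, w, hw0, hw1, hw2, hw3, hw4, rfl⟩ := buq_rep E E' hb hb0
    have hdC : algebraMap C Φ d ≠ 0 := by rw [Ne, map_eq_zero]; exact hd0
    refine ⟨c / d, u * w⁻¹, mul_ne_zero hu0 (inv_ne_zero hw0), W.mul_mem _ _ hu1 hw2, ?_,
      V'.mul_mem _ _ hu3 hw4, ?_, ?_⟩
    · rw [mul_inv, inv_inv]; exact W.mul_mem _ _ hu2 hw1
    · rw [mul_inv, inv_inv]; exact V'.mul_mem _ _ hu4 hw3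
    · rw [map_div₀]
      have : f = algebraMap C Φ c * u / (algebraMap C Φ d * w) := by rw [eq_div_iff hb0]; exact hab
      rw [this]
      field_simp
  have h2 : ∀ (X : ValuationSubring Φ), (∀ c : C, algebraMap C Φ c ∈ X ↔ c ∈ V) → ∀ (c : C) (u : Φ),
      u ≠ 0 → u ∈ X → u⁻¹ ∈ X → (algebraMap C Φ c * u ∈ X ↔ c ∈ V) := by
    intro X hX c u hu0 hu hu'
    rw [← hX]
    constructor
    · intro h
      have := X.mul_mem _ _ h hu'
      rwa [mul_assoc, mul_inv_cancel₀ hu0, mul_one] at this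
    · intro h
      exact X.mul_mem _ _ h hu
  ext f
  by_cases hf : f = 0
  · rw [hf]; exact ⟨fun _ => W.zero_mem, fun _ => V'.zero_mem⟩
  obtain ⟨c, u, hu0, hu1, hu2, hu3, hu4, rfl⟩ := key f hf
  rw [h2 W E.WC c u hu0 hu1 hu2, h2 V' E'.WC c u hu0 hu3 hu4]

end Pool.Agent.ESH
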