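import Pool.Agent.ESH.BLM
import Pool.Agent.ESH.BWR

/-!
# ESH / BWE: existence of the valuation ring `W` over `W₀` and `V`

Proof.  Let `R₁ = AV W₀ V` (finite sums `∑ c_i w_i`, `c_i ∈ V`, `w_i ∈ W₀`).  Claim: `1` is not a sum `∑ c_i w_i` with `c_i ∈ V.nonunits`,
`w_i ∈ W₀`.  Otherwise apply BLM (`R = W₀`) to `X = {1} ∪ {w_i}`: `1 = ∑ a_j e_j`, `w_i = ∑ b_ij e_j`, `a, b ∈ O`; the `e_j` are linearly
independent over `K` (`resInd_lin`), so over `C` (`disj`), so `a_j = ∑_i c_i b_ij ∈ V.nonunits`, so `a_j` is in the maximal ideal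
of `O` (`ovr`), and `1 = ∑ a_j e_j ∈ W₀.nonunits`: contradiction.  So the ideal of `R₁` generated by `V.nonunits` is proper;
take a valuation ring `W` of `Φ` containing `R₁` and whose non-units contain `V.nonunits` (dominating the localisation at a
maximal ideal).  `W ∩ C = V`: if `c ∈ W`, `c ∉ V`, then `c⁻¹ ∈ V.nonunits ⊆ W.nonunits`, contradiction.  `W ∩ F = W₀`: if
`f ∈ W ∩ F`, `f ∉ W₀`, then `f = c u`, `c ∈ K`, `c ∉ O`, `u` a unit of `W₀` (`scale`), so `c ∈ W ∩ C = V`, contradiction to `ovr`.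
-/

namespace Pool.Agent.ESH

open Pool.Agent.Helper11

variable {O K F C Φ : Type*} [CommRing O] [IsDomain O] [IsDiscreteValuationRing O] [Field K] [CharZero K]
  [Algebra O K] [IsFractionRing O K] [Field F] [Algebra K F] [Algebra O F] [IsScalarTower O K F]
  [FunField K F] [Field C] [CharZero C] [Algebra K C] [Algebra.IsAlgebraic K C] [IsAlgClosed C] [Field Φ]
  [Algebra F Φ] [Algebra C Φ] [Finite (IsLocalRing.ResidueField O)]

/-- elements of the maximal ideal of `O` are non-units of `W₀` -/
theorem bwe_max {W₀ : ValuationSubring F} {pts₀ : Set (Subring F)} (h : IsBMdl O K W₀ pts₀) {o : O}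
    (ho : o ∈ IsLocalRing.maximalIdeal O) : algebraMap O F o ∈ W₀.nonunits := by
  rw [ValuationSubring.mem_nonunits_iff_or]
  by_cases h0 : o = 0
  · left; rw [h0, map_zero]
  right
  intro hin
  have h1 : algebraMap K F (algebraMap O K o)⁻¹ ∈ W₀ := by
    rw [map_inv₀, ← IsScalarTower.algebraMap_apply]
    exact hin
  rw [h.base] at h1
  obtain ⟨p, hp⟩ := h1
  have h2 : algebraMap O K (o * p) = 1 := by
    rw [map_mul, hp]
    exact mul_inv_cancel₀ (fun hz => h0 ((IsFractionRing.injective O K) (by rw [hz, map_zero])))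
  have h3 : o * p = 1 := IsFractionRing.injective O K (by rw [h2, map_one])
  exact ho (IsUnit.of_mul_eq_one p h3)

theorem bwe_O {V : ValuationSubring C}
    (hV : ∀ x : K, algebraMap K C x ∈ V ↔ x ∈ Set.range (algebraMap O K)) (o : O) :
    algebraMap K C (algebraMap O K o) ∈ V := (hV _).2 ⟨o, rfl⟩

/-- elements of `O` which are non-units of `V` are in the maximal ideal -/
theorem bwe_nonunit {V : ValuationSubring C}
    (hV : ∀ x : K, algebraMap K C x ∈ V ↔ x ∈ Set.range (algebraMap O K)) {o : O}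
    (ho : algebraMap K C (algebraMap O K o) ∈ V.nonunits) : o ∈ IsLocalRing.maximalIdeal O := by
  by_contra hcon
  rw [IsLocalRing.mem_maximalIdeal, mem_nonunits_iff, not_not] at hcon
  obtain ⟨u, rfl⟩ := hcon
  rw [ValuationSubring.mem_nonunits_iff_or] at ho
  rcases ho with h | h
  · have h1 : algebraMap O K u = 0 := by
      apply (algebraMap K C).injective
      rw [h, map_zero]
    have h2 : (u : O) = 0 := IsFractionRing.injective O K (by rw [h1, map_zero])
    exact u.ne_zero h2
  · apply h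
    have h1 := bwe_O hV (↑u⁻¹ : O)
    have h2 : algebraMap K C (algebraMap O K (↑u⁻¹ : O)) = (algebraMap K C (algebraMap O K u))⁻¹ := by
      apply eq_inv_of_mul_eq_one_left
      rw [← map_mul, ← map_mul, Units.inv_mul, map_one, map_one]
    rwa [h2] at h1

/-- `1` is not a sum of products of non-units of `V` with elements of `W₀` -/
theorem bwe_one {W₀ : ValuationSubring F} {pts₀ : Set (Subring F)} (h : IsBMdl O K W₀ pts₀)
    (hc : Cmps K F C Φ) (V : ValuationSubring C)
    (hV : ∀ x : K, algebraMap K C x ∈ V ↔ x ∈ Set.range (algebraMap O K)) :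
    ¬ Rp (V.nonunits : Set C) (W₀.toSubring : Set F) (1 : Φ) := by
  intro h1
  have hO : ∀ c : O, algebraMap O F c ∈ W₀ := fun c => by
    rw [IsScalarTower.algebraMap_apply O K F]
    exact (h.base _).2 ⟨c, rfl⟩
  obtain ⟨n, e, he, hri, hX, ⟨c, hcT, hc1⟩, -⟩ := rp_ri h hc W₀.toSubring (fun a ha => ha) hO
    (fun c _ a _ hac => hac) (T := (V.nonunits : Set C)) (zero_mem V.nonunits)
    (fun s hs t ht => add_mem (S := NonUnitalSubring C) hs ht) (fun t ht o => by
      change V.valuation (t * _) < 1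
      rw [map_mul]
      exact lt_of_le_of_lt (mul_le_of_le_one_right' ((V.valuation_le_one_iff _).2 (bwe_O hV o))) ht)
    {1} (by
      intro x hx
      rw [Finset.mem_singleton.1 hx]
      exact one_mem _) h1 h1
  obtain ⟨a, ha⟩ := hX 1 (Finset.mem_singleton_self 1)
  have hlin := hc.disj n e (resInd_lin h e hri)
  have hsum : ∑ i, (c i - algebraMap K C (algebraMap O K (a i))) • algebraMap F Φ (e i) = 0 := by
    have e1 : (1 : Φ) = ∑ i, algebraMap C Φ (algebraMap K C (algebraMap O K (a i))) *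
        algebraMap F Φ (e i) := by
      have := congrArg (algebraMap F Φ) ha
      rw [map_one, map_sum] at this
      rw [this]
      apply Finset.sum_congr rfl
      intro i _
      rw [map_mul, ← hc.comm, ← IsScalarTower.algebraMap_apply O K F]
    have e2 : ∑ i, (c i - algebraMap K C (algebraMap O K (a i))) • algebraMap F Φ (e i) =
        (∑ i, algebraMap C Φ (c i) * algebraMap F Φ (e i)) -
        ∑ i, algebraMap C Φ (algebraMap K C (algebraMap O K (a i))) * algebraMap F Φ (e i) := by
      rw [← Finset.sum_sub_distrib]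
      apply Finset.sum_congr rfl
      intro i _
      rw [Algebra.smul_def, map_sub]
      ring
    rw [e2, ← e1, ← hc1, sub_self]
  have hzero := Fintype.linearIndependent_iff.1 hlin _ hsum
  have ham : ∀ i, a i ∈ IsLocalRing.maximalIdeal O := by
    intro i
    apply bwe_nonunit hV
    have := hzero i
    rw [sub_eq_zero] at this
    rw [← this]
    exact hcT i
  have h2 : (1 : F) ∈ W₀.nonunits := by
    rw [ha]
    apply sum_mem
    intro i _
    change W₀.valuation (_ * _) < 1
    rw [map_mul]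
    exact lt_of_le_of_lt (mul_le_of_le_one_right' ((W₀.valuation_le_one_iff _).2 (he i)))
      (bwe_max h (ham i))
  have h3 : W₀.valuation 1 < 1 := h2
  rw [map_one] at h3
  exact lt_irrefl _ h3

theorem bwe {W₀ : ValuationSubring F} {pts₀ : Set (Subring F)} (h : IsBMdl O K W₀ pts₀)
    (hc : Cmps K F C Φ) (V : ValuationSubring C)
    (hV : ∀ x : K, algebraMap K C x ∈ V ↔ x ∈ Set.range (algebraMap O K)) :
    ∃ W : ValuationSubring Φ, BExt O K W₀ pts₀ V W := by
  let I : Ideal (AV W₀.toSubring V : Subring Φ) :=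
    { carrier := {x | Rp (V.nonunits : Set C) (W₀.toSubring : Set F) (x : Φ)}
      zero_mem' := rp_zero _ _
      add_mem' := fun ha hb => rp_add ha hb
      smul_mem' := fun x y hy => rp_mul_AV (T := (V.nonunits : Set C))
        (fun t ht => neg_mem (S := NonUnitalSubring C) ht) (fun c hc t ht => by
          change V.valuation (c * t) < 1
          rw [map_mul]
          exact lt_of_le_of_lt (mul_le_of_le_one_left' ((V.valuation_le_one_iff _).2 hc)) ht) x.2 _ hy }
  have hI : I ≠ ⊤ := by
    intro htop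
    have h1 : (1 : (AV W₀.toSubring V : Subring Φ)) ∈ I := by rw [htop]; trivial
    exact bwe_one h hc V hV h1
  obtain ⟨W, hW1, hW2⟩ := Ideal.image_subset_nonunits_valuationSubring I hI
  have hWF : ∀ f ∈ W₀, algebraMap F Φ f ∈ W := fun f hf =>
    hW1 (Subring.subset_closure (Or.inl ⟨f, hf, rfl⟩))
  have hWV : ∀ c ∈ V, algebraMap C Φ c ∈ W := fun c hc =>
    hW1 (Subring.subset_closure (Or.inr ⟨c, hc, rfl⟩))
  have hWN : ∀ c ∈ V.nonunits, algebraMap C Φ c ∈ W.nonunits := by
    intro c hc
    apply hW2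
    refine ⟨⟨algebraMap C Φ c, Subring.subset_closure (Or.inr ⟨c, ValuationSubring.nonunits_subset hc, rfl⟩)⟩,
      ?_, rfl⟩
    change Rp (V.nonunits : Set C) (W₀.toSubring : Set F) (algebraMap C Φ c)
    have := rp_single (Φ := Φ) (T := (V.nonunits : Set C)) (R := (W₀.toSubring : Set F)) hc
      (one_mem W₀.toSubring)
    rwa [map_one, mul_one] at this
  have hWC : ∀ c : C, algebraMap C Φ c ∈ W ↔ c ∈ V := by
    intro c
    refine ⟨fun hcW => ?_, hWV c⟩
    by_contra hcV
    have h1 : c⁻¹ ∈ V.nonunits := V.inv_mem_nonunits_iff.2 (Or.inr hcV)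
    have h2 := hWN _ h1
    rw [map_inv₀, ValuationSubring.inv_mem_nonunits_iff] at h2
    rcases h2 with h2 | h2
    · apply hcV
      have : c = 0 := (algebraMap C Φ).injective (by rw [h2, map_zero])
      rw [this]
      exact V.zero_mem
    · exact h2 hcW
  refine ⟨W, h, hc, hV, fun f => ⟨fun hfW => ?_, hWF f⟩, hWC⟩
  by_cases hf0 : f = 0
  · rw [hf0]; exact W₀.zero_mem
  obtain ⟨c, hc0, hfc, hcf⟩ := h.scale f hf0
  have hcF : algebraMap K F c ≠ 0 := by
    rw [Ne, map_eq_zero]; exact hc0
  have h1 : algebraMap F Φ (algebraMap K F c) ∈ W := by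
    have := W.mul_mem _ _ (hWF _ hcf) hfW
    rwa [← map_mul, div_mul_cancel₀ _ hf0] at this
  rw [hc.comm, hWC, hV, ← h.base] at h1
  have := W₀.mul_mem _ _ hfc h1
  rwa [div_mul_cancel₀ _ hcF] at this

end Pool.Agent.ESH
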