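import Pool.Agent.ESH.MOB

/-!
# ESH / CJC: the number of conjugates of a branch point

`K` a field, `C` an algebraic closure, every `s ∈ Gal(C/K)` has a lift `σ_s` to `Φ` (`hlift`) normalising `Γ`
(`hΓ`).  `x` generator for `G`, with branch points `0, 1, ∞, l`, at most `r` finite branch points.
Claim: `deg (minpoly K l) ≤ 2^M ((r+1) M)^4`, `M = card Γ`.

Proof.  Fix places `P₀, P₁, P₂, P_l` over `0, 1, ∞, l`: they have non-trivial stabilisers in `G` (BRA).  For `s ∈ Gal(C/K)` let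
`G_s = σ_s G σ_s⁻¹ ≤ Γ` (the conjugates `γ'` in `hΓ`), and consider the tuple
`T(s) = (G_s, σ_s P₀, σ_s P₁, σ_s P₂, σ_s P_l)`.  `σ_s x` is a generator for `G_s`, with values `0, 1, ∞, s(l)` at these places.
If `T(s) = T(s')` then `σ_s x = σ_{s'} x` by `mob_uniq` (for the group `G_s`), so
`s l = (σ_s x)(σ_s P_l) = (σ_{s'} x)(σ_{s'} P_l) = s' l`.  So the number of conjugates `s l` is at most the number of tuples.
There are at most `2^M` subgroups `G_s ⊆ Γ`, and for each of them the four places belong to the set of places with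
non-trivial stabiliser in `G_s`, which is the image under `σ_s` of the corresponding set for `G`, of cardinality
`≤ (r + 1) M` (`bra_card`).  Finally `deg (minpoly K l)` = number of roots = number of conjugates (characteristic zero,
`C` algebraically closed and algebraic over `K`: `Gal(C/K)` is transitive on the roots).
-/

namespace Pool.Agent.ESH

open Pool.Agent.Helper11

section CjcPrivate

variable {C Φ : Type*} [Field C] [Field Φ] [Algebra C Φ]

/-- conjugation by a semilinear automorphism -/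
private noncomputable def cjcE (σ : Φ ≃+* Φ) (s : C ≃+* C)
    (hs : ∀ c : C, σ (algebraMap C Φ c) = algebraMap C Φ (s c)) :
    (Φ ≃ₐ[C] Φ) →* (Φ ≃ₐ[C] Φ) where
  toFun γ := AlgEquiv.ofRingEquiv (f := (σ.symm.trans γ.toRingEquiv).trans σ) (by
    intro c
    have h : σ.symm (algebraMap C Φ c) = algebraMap C Φ (s.symm c) := by
      rw [RingEquiv.symm_apply_eq, hs, RingEquiv.apply_symm_apply]
    change σ (γ (σ.symm (algebraMap C Φ c))) = algebraMap C Φ c
    rw [h, AlgEquiv.commutes, hs, RingEquiv.apply_symm_apply])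
  map_one' := by
    ext f
    change σ (σ.symm f) = f
    exact RingEquiv.apply_symm_apply _ _
  map_mul' γ γ' := by
    ext f
    change σ (γ (γ' (σ.symm f))) = σ (γ (σ.symm (σ (γ' (σ.symm f)))))
    rw [RingEquiv.symm_apply_apply]

private theorem cjcE_apply (σ : Φ ≃+* Φ) (s : C ≃+* C)
    (hs : ∀ c : C, σ (algebraMap C Φ c) = algebraMap C Φ (s c)) (γ : Φ ≃ₐ[C] Φ) (f : Φ) :
    cjcE σ s hs γ f = σ (γ (σ.symm f)) := rfl

private theorem cjcE_inj (σ : Φ ≃+* Φ) (s : C ≃+* C)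
    (hs : ∀ c : C, σ (algebraMap C Φ c) = algebraMap C Φ (s c)) (γ : Φ ≃ₐ[C] Φ)
    (h : cjcE σ s hs γ = 1) : γ = 1 := by
  ext f
  have h1 := DFunLike.congr_fun h (σ f)
  rw [cjcE_apply, RingEquiv.symm_apply_apply] at h1
  exact σ.injective h1

private theorem cjc_ord (σ : Φ ≃+* Φ) (s : C ≃+* C)
    (hs : ∀ c : C, σ (algebraMap C Φ c) = algebraMap C Φ (s c)) (P : Place C Φ) (f : Φ) :
    (plMap σ s hs P).ord (σ f) = P.ord f := by
  change P.ord (σ.symm (σ f)) = P.ord f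
  rw [RingEquiv.symm_apply_apply]

private theorem cjc_symm (σ : Φ ≃+* Φ) (s : C ≃+* C)
    (hs : ∀ c : C, σ (algebraMap C Φ c) = algebraMap C Φ (s c)) (c : C) :
    σ.symm (algebraMap C Φ c) = algebraMap C Φ (s.symm c) := by
  rw [RingEquiv.symm_apply_eq, hs, RingEquiv.apply_symm_apply]

private theorem cjc_aeval (σ : Φ ≃+* Φ) (s : C ≃+* C)
    (hs : ∀ c : C, σ (algebraMap C Φ c) = algebraMap C Φ (s c)) (x : Φ) (r : Polynomial C) :
    σ (Polynomial.aeval x r) = Polynomial.aeval (σ x) (r.map (s : C →+* C)) := by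
  rw [Polynomial.aeval_def, Polynomial.aeval_def, Polynomial.eval₂_map]
  have h : (σ : Φ →+* Φ).comp (algebraMap C Φ) = (algebraMap C Φ).comp (s : C →+* C) :=
    RingHom.ext hs
  rw [← h]
  exact Polynomial.hom_eval₂ r (algebraMap C Φ) (σ : Φ →+* Φ) x

private theorem cjc_gen (σ : Φ ≃+* Φ) (s : C ≃+* C)
    (hs : ∀ c : C, σ (algebraMap C Φ c) = algebraMap C Φ (s c)) (G : Subgroup (Φ ≃ₐ[C] Φ))
    (x : Φ) (hx : FixGen G x) : FixGen (G.map (cjcE σ s hs)) (σ x) := by
  constructor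
  · rintro g ⟨γ, hγ, rfl⟩
    rw [cjcE_apply, RingEquiv.symm_apply_apply, hx.1 γ hγ]
  · intro f hf
    have h1 : σ.symm f ∈ IntermediateField.adjoin C {x} := by
      apply hx.2
      intro γ hγ
      have h2 := hf (cjcE σ s hs γ) ⟨γ, hγ, rfl⟩
      rw [cjcE_apply] at h2
      rw [RingEquiv.eq_symm_apply, h2]
    rw [IntermediateField.mem_adjoin_simple_iff] at h1 ⊢
    obtain ⟨r, t, hrt⟩ := h1
    refine ⟨r.map (s : C →+* C), t.map (s : C →+* C), ?_⟩
    rw [← cjc_aeval σ s hs, ← cjc_aeval σ s hs, ← map_div₀, ← hrt, RingEquiv.apply_symm_apply]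

private theorem cjc_br (σ : Φ ≃+* Φ) (s : C ≃+* C)
    (hs : ∀ c : C, σ (algebraMap C Φ c) = algebraMap C Φ (s c)) (x : Φ) (c : C)
    (h : BrF (σ x) c) : BrF x (s.symm c) := by
  obtain ⟨P, hP⟩ := h
  refine ⟨plMap σ.symm s.symm (cjc_symm σ s hs) P, ?_⟩
  change 2 ≤ P.ord (σ (x - algebraMap C Φ (s.symm c)))
  rwa [map_sub, hs, RingEquiv.apply_symm_apply]

/-- a finite set has an injective coding -/
private theorem cjc_code {α : Type*} (S : Set α) (hS : S.Finite) (m : ℕ) (hm : S.ncard ≤ m) :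
    ∃ f : α → ℕ, Set.InjOn f S ∧ ∀ q ∈ S, f q < m := by
  classical
  have : Finite S := hS
  have e : S ≃ Fin (Nat.card S) := Finite.equivFin S
  refine ⟨fun q => if h : q ∈ S then (e ⟨q, h⟩ : ℕ) else 0, ?_, ?_⟩
  · intro a ha b hb hab
    simp only [dif_pos ha, dif_pos hb] at hab
    have h1 := e.injective (Fin.ext hab)
    exact congrArg Subtype.val h1
  · intro q hq
    simp only [dif_pos hq]
    have h1 := (e ⟨q, hq⟩).isLt
    have h2 : Nat.card S = S.ncard := rfl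
    omega

end CjcPrivate

variable {K C Φ : Type*} [Field K] [Field C] [Field Φ] [Algebra K C] [Algebra C Φ] [FunField C Φ]
  [CharZero C] [IsAlgClosed C] [Algebra.IsAlgebraic K C]

theorem cjc (Γ G : Subgroup (Φ ≃ₐ[C] Φ)) [Finite Γ] (hG : G ≤ Γ)
    (lift : (C ≃ₐ[K] C) → (Φ ≃+* Φ))
    (hlift : ∀ (s : C ≃ₐ[K] C) (c : C), lift s (algebraMap C Φ c) = algebraMap C Φ (s c))
    (hΓ : ∀ s : C ≃ₐ[K] C, ∀ γ ∈ Γ, ∃ γ' ∈ Γ, ∀ f, lift s (γ f) = γ' (lift s f))
    (x : Φ) (hx : FixGen G x) (B : Finset C) (hB : ∀ c : C, BrF x c → c ∈ B)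
    (b0 : BrF x (0 : C)) (b1 : BrF x (1 : C)) (bi : BrI C x) (l : C) (l0 : l ≠ 0) (l1 : l ≠ 1) (bl : BrF x l) :
    (minpoly K l).natDegree ≤ 2 ^ Nat.card Γ * ((B.card + 1) * Nat.card Γ) ^ 4 := by
  classical
  have : CharZero K := ((algebraMap K C).charZero_iff (algebraMap K C).injective).2 inferInstance
  have : IsAlgClosure K C := ⟨inferInstance, inferInstance⟩
  have : Finite G := Finite.of_injective _ (Subgroup.inclusion_injective hG)
  obtain ⟨m, hm⟩ : ∃ m, m = (B.card + 1) * Nat.card Γ := ⟨_, rfl⟩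
  rw [← hm]
  -- the conjugate groups
  have hls : ∀ (s : C ≃ₐ[K] C) (c : C), lift s (algebraMap C Φ c) =
      algebraMap C Φ ((s.toRingEquiv : C ≃+* C) c) := hlift
  obtain ⟨Gs, hGs⟩ : ∃ Gs : (C ≃ₐ[K] C) → Subgroup (Φ ≃ₐ[C] Φ), Gs = fun s =>
    G.map (cjcE (lift s) s.toRingEquiv (hls s)) := ⟨_, rfl⟩
  have hGsΓ : ∀ s, Gs s ≤ Γ := by
    intro s g hg
    rw [hGs] at hg
    obtain ⟨γ, hγ, rfl⟩ := hg
    obtain ⟨γ', hγ', h⟩ := hΓ s γ (hG hγ)
    have h1 : cjcE (lift s) s.toRingEquiv (hls s) γ = γ' := by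
      ext f
      rw [cjcE_apply, h, RingEquiv.apply_symm_apply]
    rw [h1]
    exact hγ'
  have hfin : ∀ s, Finite (Gs s) := fun s =>
    Finite.of_injective _ (Subgroup.inclusion_injective (hGsΓ s))
  have hgen : ∀ s, FixGen (Gs s) (lift s x) := by
    intro s
    rw [hGs]
    exact cjc_gen _ _ _ _ _ hx
  have hR : ∀ s, {Q : Place C Φ | ∃ g ∈ Gs s, g ≠ 1 ∧ Fixes g Q}.Finite ∧
      {Q : Place C Φ | ∃ g ∈ Gs s, g ≠ 1 ∧ Fixes g Q}.ncard ≤ m := by
    intro s
    have := hfin s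
    have h1 := bra_card (Gs s) (lift s x) (hgen s) (B.image s) (by
      intro c hc
      rw [Finset.mem_image]
      refine ⟨s.toRingEquiv.symm c, hB _ (cjc_br (lift s) s.toRingEquiv (hls s) x c hc), ?_⟩
      exact s.toRingEquiv.apply_symm_apply c)
    refine ⟨h1.1, h1.2.trans ?_⟩
    rw [hm]
    have h2 : Nat.card (Gs s) ≤ Nat.card Γ :=
      Nat.card_le_card_of_injective _ (Subgroup.inclusion_injective (hGsΓ s))
    have h3 : (B.image s).card ≤ B.card := Finset.card_image_le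
    exact Nat.mul_le_mul (by omega) h2
  -- the coding of the places
  have hcode : ∀ H : Subgroup (Φ ≃ₐ[C] Φ), ∃ f : Place C Φ → ℕ,
      ({Q : Place C Φ | ∃ g ∈ H, g ≠ 1 ∧ Fixes g Q}.Finite ∧
        {Q : Place C Φ | ∃ g ∈ H, g ≠ 1 ∧ Fixes g Q}.ncard ≤ m) →
      Set.InjOn f {Q : Place C Φ | ∃ g ∈ H, g ≠ 1 ∧ Fixes g Q} ∧
        ∀ q ∈ {Q : Place C Φ | ∃ g ∈ H, g ≠ 1 ∧ Fixes g Q}, f q < m := by
    intro H
    by_cases h : ({Q : Place C Φ | ∃ g ∈ H, g ≠ 1 ∧ Fixes g Q}.Finite ∧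
        {Q : Place C Φ | ∃ g ∈ H, g ≠ 1 ∧ Fixes g Q}.ncard ≤ m)
    · obtain ⟨f, hf⟩ := cjc_code _ h.1 m h.2
      exact ⟨f, fun _ => hf⟩
    · exact ⟨fun _ => 0, fun h' => absurd h' h⟩
  choose code hcd using hcode
  -- the four places
  obtain ⟨P₀, hP₀⟩ := b0
  obtain ⟨P₁, hP₁⟩ := b1
  obtain ⟨P₂, hP₂⟩ := bi
  obtain ⟨P₃, hP₃⟩ := bl
  have hst : ∀ (P : Place C Φ), (∃ g ∈ G, g ≠ 1 ∧ Fixes g P) → ∀ s : C ≃ₐ[K] C,
      plMap (lift s) s.toRingEquiv (hls s) P ∈
        {Q : Place C Φ | ∃ g ∈ Gs s, g ≠ 1 ∧ Fixes g Q} := by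
    rintro P ⟨g, hg, hg1, hgP⟩ s
    refine ⟨cjcE (lift s) s.toRingEquiv (hls s) g, ?_, ?_, ?_⟩
    · rw [hGs]
      exact ⟨g, hg, rfl⟩
    · exact fun h => hg1 (cjcE_inj _ _ _ _ h)
    · intro f
      change P.ord ((lift s).symm (lift s (g ((lift s).symm f)))) = P.ord ((lift s).symm f)
      rw [RingEquiv.symm_apply_apply]
      exact hgP _
  have s₀ := hst P₀ (bra_fin G x hx 0 ⟨P₀, hP₀⟩ P₀ (by omega))
  have s₁ := hst P₁ (bra_fin G x hx 1 ⟨P₁, hP₁⟩ P₁ (by omega))
  have s₂ := hst P₂ (bra_inf G x hx ⟨P₂, hP₂⟩ P₂ (by omega))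
  have s₃ := hst P₃ (bra_fin G x hx l ⟨P₃, hP₃⟩ P₃ (by omega))
  -- automorphisms for the roots
  have hroot : ∀ r : (minpoly K l).rootSet C, ∃ s : C ≃ₐ[K] C, s l = r := by
    intro r
    exact minpoly.exists_algEquiv_of_root' (Algebra.IsAlgebraic.isAlgebraic (R := K) l)
      (Polynomial.aeval_eq_zero_of_mem_rootSet r.2)
  choose sr hsr using hroot
  -- the tuple
  obtain ⟨T, hT⟩ : ∃ T : (minpoly K l).rootSet C → Set Γ × (Fin m × Fin m) × (Fin m × Fin m),
    T = fun r => ({γ : Γ | (γ : Φ ≃ₐ[C] Φ) ∈ Gs (sr r)},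
      (⟨code (Gs (sr r)) (plMap (lift (sr r)) (sr r).toRingEquiv (hls (sr r)) P₀),
        (hcd _ (hR (sr r))).2 _ (s₀ (sr r))⟩,
       ⟨code (Gs (sr r)) (plMap (lift (sr r)) (sr r).toRingEquiv (hls (sr r)) P₁),
        (hcd _ (hR (sr r))).2 _ (s₁ (sr r))⟩),
      (⟨code (Gs (sr r)) (plMap (lift (sr r)) (sr r).toRingEquiv (hls (sr r)) P₂),
        (hcd _ (hR (sr r))).2 _ (s₂ (sr r))⟩,
       ⟨code (Gs (sr r)) (plMap (lift (sr r)) (sr r).toRingEquiv (hls (sr r)) P₃),
        (hcd _ (hR (sr r))).2 _ (s₃ (sr r))⟩)) := ⟨_, rfl⟩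
  have hTinj : Function.Injective T := by
    intro r r' hrr
    rw [hT] at hrr
    simp only [Prod.mk.injEq, Fin.mk.injEq] at hrr
    obtain ⟨e0, ⟨e1, e2⟩, e3, e4⟩ := hrr
    have hGG : Gs (sr r) = Gs (sr r') := by
      ext g
      constructor
      · intro hg
        have h1 : (⟨g, hGsΓ _ hg⟩ : Γ) ∈ {γ : Γ | (γ : Φ ≃ₐ[C] Φ) ∈ Gs (sr r)} := hg
        rw [e0] at h1
        exact h1
      · intro hg
        have h1 : (⟨g, hGsΓ _ hg⟩ : Γ) ∈ {γ : Γ | (γ : Φ ≃ₐ[C] Φ) ∈ Gs (sr r')} := hg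
        rw [← e0] at h1
        exact h1
    have hpl : ∀ (P : Place C Φ), (∀ s : C ≃ₐ[K] C, plMap (lift s) s.toRingEquiv (hls s) P ∈
        {Q : Place C Φ | ∃ g ∈ Gs s, g ≠ 1 ∧ Fixes g Q}) →
        code (Gs (sr r)) (plMap (lift (sr r)) (sr r).toRingEquiv (hls (sr r)) P) =
          code (Gs (sr r')) (plMap (lift (sr r')) (sr r').toRingEquiv (hls (sr r')) P) →
        plMap (lift (sr r)) (sr r).toRingEquiv (hls (sr r)) P =
          plMap (lift (sr r')) (sr r').toRingEquiv (hls (sr r')) P := by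
      intro P hP hc
      rw [← hGG] at hc
      refine (hcd _ (hR (sr r))).1 (hP _) ?_ hc
      rw [hGG]
      exact hP _
    have q0 := hpl P₀ s₀ e1
    have q1 := hpl P₁ s₁ e2
    have q2 := hpl P₂ s₂ e3
    have q3 := hpl P₃ s₃ e4
    have hxx : lift (sr r) x = lift (sr r') x := by
      have := hfin (sr r)
      have hg' := hgen (sr r')
      rw [← hGG] at hg'
      refine mob_uniq (Gs (sr r)) _ _ (hgen (sr r)) hg'
        (plMap (lift (sr r)) (sr r).toRingEquiv (hls (sr r)) P₀)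
        (plMap (lift (sr r)) (sr r).toRingEquiv (hls (sr r)) P₁)
        (plMap (lift (sr r)) (sr r).toRingEquiv (hls (sr r)) P₂) ?_ ?_ ?_ ?_ ?_ ?_
      · rw [cjc_ord]
        rw [map_zero, sub_zero] at hP₀
        omega
      · rw [q0, cjc_ord]
        rw [map_zero, sub_zero] at hP₀
        omega
      · have h1 : lift (sr r) x - 1 = lift (sr r) (x - 1) := by rw [map_sub, map_one]
        rw [h1, cjc_ord]
        rw [map_one] at hP₁
        omega
      · have h1 : lift (sr r') x - 1 = lift (sr r') (x - 1) := by rw [map_sub, map_one]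
        rw [q1, h1, cjc_ord]
        rw [map_one] at hP₁
        omega
      · rw [cjc_ord]
        omega
      · rw [q2, cjc_ord]
        omega
    have hl : (sr r) l = (sr r') l := by
      have m1 : lift (sr r) x - algebraMap C Φ ((sr r) l) ∈
          (plMap (lift (sr r)) (sr r).toRingEquiv (hls (sr r)) P₃).ge 1 := by
        have h1 : lift (sr r) x - algebraMap C Φ ((sr r) l) =
            lift (sr r) (x - algebraMap C Φ l) := by rw [map_sub, hlift]
        rw [h1]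
        refine Place.mem_ge_of_le _ ?_
        rw [cjc_ord]
        omega
      have m2 : lift (sr r) x - algebraMap C Φ ((sr r') l) ∈
          (plMap (lift (sr r)) (sr r).toRingEquiv (hls (sr r)) P₃).ge 1 := by
        have h1 : lift (sr r) x - algebraMap C Φ ((sr r') l) =
            lift (sr r') (x - algebraMap C Φ l) := by rw [map_sub, hlift, hxx]
        rw [h1, q3]
        refine Place.mem_ge_of_le _ ?_
        rw [cjc_ord]
        omega
      have m3 : algebraMap C Φ ((sr r') l - (sr r) l) ∈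
          (plMap (lift (sr r)) (sr r).toRingEquiv (hls (sr r)) P₃).ge 1 := by
        have h1 : algebraMap C Φ ((sr r') l - (sr r) l) =
            (lift (sr r) x - algebraMap C Φ ((sr r) l)) -
              (lift (sr r) x - algebraMap C Φ ((sr r') l)) := by
          rw [map_sub]
          ring
        rw [h1]
        exact sub_mem m1 m2
      by_contra hne
      have h2 := Place.le_ord_of_mem _ m3 ((map_ne_zero _).2 (sub_ne_zero.2 (Ne.symm hne)))
      rw [Place.ord_algebraMap] at h2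
      omega
    rw [hsr, hsr] at hl
    exact Subtype.ext hl
  have hint : IsIntegral K l := Algebra.IsIntegral.isIntegral l
  have hcard : Fintype.card ((minpoly K l).rootSet C) = (minpoly K l).natDegree :=
    Polynomial.card_rootSet_eq_natDegree (minpoly.irreducible hint).separable
      (IsAlgClosed.splits _)
  rw [← hcard, ← Nat.card_eq_fintype_card]
  have : Fintype Γ := Fintype.ofFinite Γ
  refine (Nat.card_le_card_of_injective T hTinj).trans (le_of_eq ?_)
  rw [Nat.card_prod, Nat.card_prod, Nat.card_prod, Nat.card_eq_fintype_card (α := Fin m),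
    Fintype.card_fin, Nat.card_eq_fintype_card (α := Set Γ), Fintype.card_set,
    Nat.card_eq_fintype_card (α := Γ)]
  ring

end Pool.Agent.ESH
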