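import Pool.Agent.ESH.DefsE

/-!
# ESH / CNT: counting conjugates

The roots of `minpoly K ρ` in `C` are the `s ρ`, `s ∈ Gal(C/K)` (`C` is normal over `K`, characteristic zero: the degree is the number of roots).  Choose representatives: the roots are contained in
the union over the values `v` of `T` of the sets `{s ρ | T s = v}`, each of cardinality at most `m`.
-/

namespace Pool.Agent.ESH

theorem cnt {K C α : Type*} [Field K] [CharZero K] [Field C] [Algebra K C] [Algebra.IsAlgebraic K C]
    [IsAlgClosed C] (ρ : C) (T : (C ≃ₐ[K] C) → α) (S : Set α) (hS : S.Finite) (hT : ∀ s, T s ∈ S) (m : ℕ)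
    (hm : ∀ v : α, {z : C | ∃ s : C ≃ₐ[K] C, T s = v ∧ s ρ = z}.Finite ∧
      {z : C | ∃ s : C ≃ₐ[K] C, T s = v ∧ s ρ = z}.ncard ≤ m) :
    (minpoly K ρ).natDegree ≤ S.ncard * m := by
  classical
  have hint : IsIntegral K ρ := Algebra.IsIntegral.isIntegral ρ
  have hirr : Irreducible (minpoly K ρ) := minpoly.irreducible hint
  have hsep : (minpoly K ρ).Separable := hirr.separable
  have hcard : ((minpoly K ρ).aroots C).toFinset.card = (minpoly K ρ).natDegree := by
    have h1 := Polynomial.card_rootSet_eq_natDegree (K := C) hsep (IsAlgClosed.splits _)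
    rw [← h1]
    simp_rw [Polynomial.rootSet_def, Finset.coe_sort_coe, Fintype.card_coe]
  rw [← hcard]
  let F : α → Finset C := fun v => (hm v).1.toFinset
  have hsub : ((minpoly K ρ).aroots C).toFinset ⊆ hS.toFinset.biUnion F := by
    intro z hz
    rw [Multiset.mem_toFinset, Polynomial.mem_aroots] at hz
    have h2 : IsConjRoot K ρ z := by
      rw [isConjRoot_iff_aeval_eq_zero hint]
      exact hz.2
    have hcl : IsAlgClosure K C := ⟨inferInstance, inferInstance⟩
    have hno : Normal K C := IsAlgClosure.normal K C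
    obtain ⟨s, hs⟩ := (isConjRoot_iff_exists_algEquiv).mp h2.symm
    rw [Finset.mem_biUnion]
    refine ⟨T s, ?_, ?_⟩
    · rw [Set.Finite.mem_toFinset]
      exact hT s
    · rw [Set.Finite.mem_toFinset]
      exact ⟨s, rfl, hs⟩
  refine (Finset.card_le_card hsub).trans ?_
  rw [Set.ncard_eq_toFinset_card S hS]
  refine Finset.card_biUnion_le_card_mul _ _ _ fun v _ => ?_
  have h3 := (hm v).2
  rwa [Set.ncard_eq_toFinset_card _ (hm v).1] at h3

end Pool.Agent.ESH
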