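import Pool.Agent.ESH.LGT
import Pool.Agent.ESH.EVL

/-!
# ESH / LGU: branch points of x

Suppose `P` is not ramified: `gtb_unr` gives `f` fixed by `G` with `P.ord f = 1`.  Claim: `P.ord f` is a multiple of `e = P.ord (x - c) ≥ 2` for all
non-zero `f ∈ C(x, y)`: contradiction.  `f = (p₁(x) + p₂(x) y)/q(x)` (LGF).  The order of `p(x)`, `p ∈ C[X]`, is a multiple of `e` (factor `p` into linear
factors; only `x - c` contributes).  Dividing `p₁, p₂` by a power of `X - c` we may assume that they do not both vanish at `c`.  The value `b` of `y` at `P`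
is not `0` (`b² = c(c-1)(c-l)`), so `p₁(c) + p₂(c) b` and `p₁(c) - p₂(c) b` are not both `0`; the product
`(p₁ + p₂ y)(p₁ - p₂ y)` is a polynomial in `x`, so of order a multiple of `e`, and one of the two factors has order `0`.
-/

namespace Pool.Agent.ESH

open Pool.Agent.Helper11 Polynomial IntermediateField

variable {C Φ : Type*} [Field C] [Field Φ] [Algebra C Φ] [FunField C Φ] [CharZero C] [IsAlgClosed C]

omit [FunField C Φ] [CharZero C] [IsAlgClosed C] in
private theorem LGU_ge0 (P : Place C Φ) {x : Φ} (hx : x ∈ P.ge 0) (p : C[X]) : aeval x p ∈ P.ge 0 := by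
  induction p using Polynomial.induction_on' with
  | add p q hp hq => rw [map_add]; exact add_mem hp hq
  | monomial n a =>
    rw [aeval_monomial]
    have h1 := P.pow_mem_ge hx n
    have h2 := P.mul_mem_ge (P.algebraMap_mem_ge a) h1
    simpa using h2

omit [FunField C Φ] [CharZero C] [IsAlgClosed C] in
private theorem LGU_ord0 (P : Place C Φ) {z : Φ} (h0 : z ∈ P.ge 0) (h1 : z ∉ P.ge 1) : P.ord z = 0 := by
  have hz : z ≠ 0 := fun h => h1 (by rw [h]; exact zero_mem _)
  have h2 := P.le_ord_of_mem h0 hz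
  by_contra h3
  exact h1 (P.mem_ge_of_le (by omega))

omit [FunField C Φ] [CharZero C] [IsAlgClosed C] in
private theorem LGU_not_mem (P : Place C Φ) {z : Φ} (hz : z ≠ 0) (h : P.ord z = 0) : z ∉ P.ge 1 := by
  intro h1
  have := P.le_ord_of_mem h1 hz
  omega

section
variable (P : Place C Φ) {x : Φ} {c : C} (hxc : 1 ≤ P.ord (x - algebraMap C Φ c))
include hxc

omit [FunField C Φ] [CharZero C] [IsAlgClosed C] in
private theorem LGU_x0 : x ∈ P.ge 0 := by
  have h1 : x = (x - algebraMap C Φ c) + algebraMap C Φ c := by ring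
  rw [h1]
  exact add_mem (P.mem_ge_of_le (by omega)) (P.algebraMap_mem_ge c)

omit [FunField C Φ] [CharZero C] [IsAlgClosed C] in
private theorem LGU_sub (p : C[X]) : aeval x p - algebraMap C Φ (p.eval c) ∈ P.ge 1 := by
  obtain ⟨r, hr⟩ := X_sub_C_dvd_sub_C_eval (a := c) (p := p)
  have h1 : aeval x p - algebraMap C Φ (p.eval c) = (x - algebraMap C Φ c) * aeval x r := by
    have := congrArg (aeval x) hr
    rw [map_sub, map_mul, map_sub, aeval_X, aeval_C, aeval_C] at this
    exact this
  rw [h1]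
  have h2 := P.mul_mem_ge (P.mem_ge_of_le hxc) (LGU_ge0 P (LGU_x0 P hxc) r)
  simpa using h2

omit [FunField C Φ] [CharZero C] [IsAlgClosed C] in
private theorem LGU_eval (p : C[X]) : aeval x p ∈ P.ge 1 ↔ p.eval c = 0 := by
  have h1 := LGU_sub P hxc p
  constructor
  · intro h
    have h2 : algebraMap C Φ (p.eval c) ∈ P.ge 1 := by
      have := sub_mem h h1
      simpa using this
    by_contra h3
    have h4 := P.le_ord_of_mem h2 (by simpa using h3)
    rw [P.ord_algebraMap] at h4
    omega
  · intro h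
    rw [h, map_zero, sub_zero] at h1
    exact h1

omit [FunField C Φ] [CharZero C] [IsAlgClosed C] in
private theorem LGU_poly (hx0 : x - algebraMap C Φ c ≠ 0) :
    ∀ (n : ℕ) (p : C[X]), p.natDegree ≤ n → aeval x p ≠ 0 →
      P.ord (x - algebraMap C Φ c) ∣ P.ord (aeval x p) := by
  intro n
  induction n with
  | zero =>
    intro p hp h0
    obtain ⟨a, rfl⟩ : ∃ a, p = Polynomial.C a := ⟨_, Polynomial.eq_C_of_natDegree_le_zero hp⟩
    rw [aeval_C, P.ord_algebraMap]
    exact dvd_zero _
  | succ n ih =>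
    intro p hp h0
    by_cases hc : p.eval c = 0
    · obtain ⟨r, hr⟩ := dvd_iff_isRoot.2 hc
      have h1 : aeval x p = (x - algebraMap C Φ c) * aeval x r := by
        rw [hr, map_mul, map_sub, aeval_X, aeval_C]
      have hr0 : aeval x r ≠ 0 := fun h => h0 (by rw [h1, h, mul_zero])
      have hrp : r ≠ 0 := fun h => hr0 (by rw [h, map_zero])
      have hd : r.natDegree ≤ n := by
        have h2 : p.natDegree = 1 + r.natDegree := by
          rw [hr, natDegree_mul (X_sub_C_ne_zero c) hrp, natDegree_X_sub_C]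
        omega
      rw [h1, P.ord_mul _ _ hx0 hr0]
      exact dvd_add dvd_rfl (ih r hd hr0)
    · have h1 : P.ord (aeval x p) = 0 := LGU_ord0 P (LGU_ge0 P (LGU_x0 P hxc) p)
        (fun h => hc ((LGU_eval P hxc p).1 h))
      rw [h1]
      exact dvd_zero _
end

private theorem LGU_both (P : Place C Φ) {x y : Φ} {l : C} (hL : Leg x y l) (c : C) (h0 : c ≠ 0) (h1 : c ≠ 1)
    (hl : c ≠ l) (hxc : 1 ≤ P.ord (x - algebraMap C Φ c)) :
    ∀ (n : ℕ) (p₁ p₂ : C[X]), p₁.natDegree + p₂.natDegree ≤ n → (p₁ ≠ 0 ∨ p₂ ≠ 0) →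
      P.ord (x - algebraMap C Φ c) ∣ P.ord (aeval x p₁ + aeval x p₂ * y) := by
  have hx0 : x - algebraMap C Φ c ≠ 0 := P.ne_zero_of_ord_ne_zero (by omega)
  have hxg := LGU_x0 P hxc
  have hN : aeval x (X * (X - Polynomial.C 1) * (X - Polynomial.C l) : C[X]) = y ^ 2 := by
    rw [hL.eq, map_mul, map_mul, map_sub, map_sub, aeval_X, aeval_C, aeval_C, map_one]
  have hy2 : y ^ 2 ∉ P.ge 1 := by
    rw [← hN, LGU_eval P hxc]
    simp only [eval_mul, eval_sub, eval_X, eval_C]
    exact mul_ne_zero (mul_ne_zero h0 (sub_ne_zero.2 h1)) (sub_ne_zero.2 hl)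
  have hy20 : P.ord (y ^ 2) = 0 := LGU_ord0 P (by rw [← hN]; exact LGU_ge0 P hxg _) hy2
  have hy0 : P.ord y = 0 := by
    rw [P.ord_pow] at hy20
    push_cast at hy20
    omega
  have hyn : y ≠ 0 := by
    rintro rfl
    exact hy2 (by rw [zero_pow two_ne_zero]; exact zero_mem _)
  have hyg : y ∈ P.ge 0 := P.mem_ge_of_le (by omega)
  have step : ∀ p₁ p₂ : C[X], (p₁ ≠ 0 ∨ p₂ ≠ 0) → ¬ (p₁.eval c = 0 ∧ p₂.eval c = 0) →
      P.ord (x - algebraMap C Φ c) ∣ P.ord (aeval x p₁ + aeval x p₂ * y) := by
    intro p₁ p₂ hp hc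
    set u := aeval x p₁ + aeval x p₂ * y with hu
    set u' := aeval x p₁ + aeval x (-p₂) * y with hu'
    have hun : u ≠ 0 := by
      intro h
      obtain ⟨a, b⟩ := lgf_uniq hL p₁ p₂ h
      rcases hp with h3 | h3
      · exact h3 a
      · exact h3 b
    have hun' : u' ≠ 0 := by
      intro h
      obtain ⟨a, b⟩ := lgf_uniq hL p₁ (-p₂) h
      rcases hp with h3 | h3
      · exact h3 a
      · exact h3 (neg_eq_zero.1 b)
    have hprod : u * u' = aeval x (p₁ ^ 2 - p₂ ^ 2 * (X * (X - Polynomial.C 1) * (X - Polynomial.C l))) := by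
      rw [map_sub, map_mul, hN, map_pow, map_pow, hu, hu', map_neg]
      ring
    have hdv : P.ord (x - algebraMap C Φ c) ∣ P.ord u + P.ord u' := by
      rw [← P.ord_mul _ _ hun hun', hprod]
      refine LGU_poly P hxc hx0 _ _ le_rfl ?_
      rw [← hprod]
      exact mul_ne_zero hun hun'
    have hug : u ∈ P.ge 0 := by
      have h3 := P.mul_mem_ge (LGU_ge0 P hxg p₂) hyg
      exact add_mem (LGU_ge0 P hxg p₁) (by simpa using h3)
    have hug' : u' ∈ P.ge 0 := by
      have h3 := P.mul_mem_ge (LGU_ge0 P hxg (-p₂)) hyg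
      exact add_mem (LGU_ge0 P hxg p₁) (by simpa using h3)
    by_cases hm : u ∈ P.ge 1
    · by_cases hm' : u' ∈ P.ge 1
      · exfalso
        apply hc
        constructor
        · have h3 : aeval x (2 * p₁) ∈ P.ge 1 := by
            have h4 := add_mem hm hm'
            have h5 : u + u' = aeval x (2 * p₁) := by
              rw [hu, hu', map_mul, map_neg, map_ofNat]
              ring
            rwa [h5] at h4
          rw [LGU_eval P hxc, eval_mul, eval_ofNat] at h3
          exact (mul_eq_zero.1 h3).resolve_left two_ne_zero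
        · have h4 : aeval x (2 * p₂) * y ∈ P.ge 1 := by
            have h4 := sub_mem hm hm'
            have h5 : u - u' = aeval x (2 * p₂) * y := by
              rw [hu, hu', map_mul, map_neg, map_ofNat]
              ring
            rwa [h5] at h4
          have h3 : aeval x (2 * p₂) ∈ P.ge 1 := by
            have h5 := P.mul_mem_ge h4 (P.mem_ge_of_le (x := y⁻¹) (n := 0) (by rw [P.ord_inv]; omega))
            rw [mul_assoc, mul_inv_cancel₀ hyn, mul_one] at h5
            simpa using h5
          rw [LGU_eval P hxc, eval_mul, eval_ofNat] at h3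
          exact (mul_eq_zero.1 h3).resolve_left two_ne_zero
      · rw [LGU_ord0 P hug' hm', add_zero] at hdv
        exact hdv
    · rw [LGU_ord0 P hug hm]
      exact dvd_zero _
  intro n
  induction n with
  | zero =>
    intro p₁ p₂ hd hp
    refine step p₁ p₂ hp ?_
    rintro ⟨a, b⟩
    have e1 := Polynomial.eq_C_of_natDegree_le_zero (p := p₁) (by omega)
    have e2 := Polynomial.eq_C_of_natDegree_le_zero (p := p₂) (by omega)
    rw [e1, eval_C] at a
    rw [e2, eval_C] at b
    rcases hp with h3 | h3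
    · exact h3 (by rw [e1, a, Polynomial.C_0])
    · exact h3 (by rw [e2, b, Polynomial.C_0])
  | succ n ih =>
    intro p₁ p₂ hd hp
    by_cases hc : p₁.eval c = 0 ∧ p₂.eval c = 0
    · obtain ⟨r₁, hr₁⟩ := dvd_iff_isRoot.2 hc.1
      obtain ⟨r₂, hr₂⟩ := dvd_iff_isRoot.2 hc.2
      have hr : r₁ ≠ 0 ∨ r₂ ≠ 0 := by
        rcases hp with h3 | h3
        · left
          rintro rfl
          exact h3 (by rw [hr₁, mul_zero])
        · right
          rintro rfl
          exact h3 (by rw [hr₂, mul_zero])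
      have hdeg : ∀ p r : C[X], p = (X - Polynomial.C c) * r → r.natDegree ≤ p.natDegree ∧
          (r ≠ 0 → r.natDegree + 1 ≤ p.natDegree) := by
        intro p r h
        by_cases hr0 : r = 0
        · subst hr0
          exact ⟨by simp, fun h => absurd rfl h⟩
        · have h2 : p.natDegree = 1 + r.natDegree := by
            rw [h, natDegree_mul (X_sub_C_ne_zero c) hr0, natDegree_X_sub_C]
          exact ⟨by omega, fun _ => by omega⟩
      have hd1 := hdeg _ _ hr₁
      have hd2 := hdeg _ _ hr₂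
      have hdn : r₁.natDegree + r₂.natDegree ≤ n := by
        rcases hr with h3 | h3
        · have := hd1.2 h3
          omega
        · have := hd2.2 h3
          omega
      have heq : aeval x p₁ + aeval x p₂ * y = (x - algebraMap C Φ c) * (aeval x r₁ + aeval x r₂ * y) := by
        rw [hr₁, hr₂, map_mul, map_mul, map_sub, aeval_X, aeval_C]
        ring
      have hn0 : aeval x r₁ + aeval x r₂ * y ≠ 0 := by
        intro h
        obtain ⟨a, b⟩ := lgf_uniq hL r₁ r₂ h
        rcases hr with h3 | h3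
        · exact h3 a
        · exact h3 b
      rw [heq, P.ord_mul _ _ hx0 hn0]
      exact dvd_add dvd_rfl (ih r₁ r₂ hdn hr)
    · exact step p₁ p₂ hp hc

theorem lgu (G : Subgroup (Φ ≃ₐ[C] Φ)) [Finite G] {x y : Φ} {l : C} (h : FixLeg G x y l)
    (P : Place C Φ) (c : C) (h0 : c ≠ 0) (h1 : c ≠ 1) (hl : c ≠ l)
    (hP : 2 ≤ P.ord (x - algebraMap C Φ c)) : Ram G P := by
  by_contra hR
  obtain ⟨f, hf, hf1⟩ := gtb_unr G P hR
  have hf0 : f ≠ 0 := P.ne_zero_of_ord_ne_zero (by omega)
  obtain ⟨p₁, p₂, q, hq, hfq⟩ := lgf h.leg f (h.gen f hf)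
  have hxc : 1 ≤ P.ord (x - algebraMap C Φ c) := by omega
  have hx0 : x - algebraMap C Φ c ≠ 0 := P.ne_zero_of_ord_ne_zero (by omega)
  have hq0 : aeval x q ≠ 0 := by
    intro h2
    exact h.leg.tr ⟨q, hq, h2⟩
  have hp : p₁ ≠ 0 ∨ p₂ ≠ 0 := by
    by_contra h2
    push Not at h2
    rw [h2.1, h2.2, map_zero, zero_mul, add_zero] at hfq
    exact mul_ne_zero hf0 hq0 hfq
  have e1 := LGU_both P h.leg c h0 h1 hl hxc _ p₁ p₂ le_rfl hp
  have e2 := LGU_poly P hxc hx0 _ q le_rfl hq0
  rw [← hfq, P.ord_mul _ _ hf0 hq0, hf1] at e1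
  have e3 := (Int.dvd_add_left e2).1 e1
  have e4 := Int.le_of_dvd one_pos e3
  omega

omit [FunField C Φ] [CharZero C] [IsAlgClosed C] in
private theorem LGU_adj (x : Φ) (b : C) : C⟮x - algebraMap C Φ b⟯ = C⟮x⟯ := by
  apply le_antisymm
  · rw [IntermediateField.adjoin_simple_le_iff]
    exact sub_mem (IntermediateField.mem_adjoin_simple_self C x) (IntermediateField.algebraMap_mem _ b)
  · rw [IntermediateField.adjoin_simple_le_iff]
    have := add_mem (IntermediateField.mem_adjoin_simple_self C (x - algebraMap C Φ b))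
      (IntermediateField.algebraMap_mem _ b)
    rwa [sub_add_cancel] at this

private theorem LGU_count {z : Φ} (hz : Transcendental C z) :
    {Q : Place C Φ | 0 < Q.ord z}.ncard ≤ Module.finrank C⟮z⟯ Φ := by
  classical
  have hfin := finite_pos_ord (k := C) z
  have h1 := finsum_pos_ord hz
  rw [finsum_eq_sum_of_support_subset (s := hfin.toFinset)] at h1
  · have h2 : (hfin.toFinset.card : ℤ) ≤ ∑ v ∈ hfin.toFinset, max 0 (v.ord z) := by
      rw [Finset.card_eq_sum_ones, Nat.cast_sum]
      refine Finset.sum_le_sum fun v hv => ?_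
      have h3 : 0 < v.ord z := by simpa using hv
      rw [Nat.cast_one]
      exact le_max_of_le_right (by omega)
    rw [h1] at h2
    rw [Set.ncard_eq_toFinset_card _ hfin]
    exact_mod_cast h2
  · intro v hv
    rw [Function.mem_support] at hv
    have h3 : 0 < v.ord z := by
      by_contra h4
      exact hv (max_eq_left (not_lt.1 h4))
    simpa using h3

/-- number of ramified places -/
theorem lgu_card (G : Subgroup (Φ ≃ₐ[C] Φ)) [Finite G] {x y : Φ} {l : C} (h : FixLeg G x y l)
    (B : Finset C) (hB : ∀ P : Place C Φ, Ram G P → 0 ≤ P.ord x → ev P x ∈ B) :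
    {Q : Place C Φ | Ram G Q}.Finite ∧
    {Q : Place C Φ | Ram G Q}.ncard ≤ (B.card + 1) * (2 * Nat.card G) := by
  classical
  have hdeg := lgt_deg G h
  have htb : ∀ b : C, Transcendental C (x - algebraMap C Φ b) := by
    intro b hb
    apply h.leg.tr
    have := hb.add (isAlgebraic_algebraMap b)
    rwa [sub_add_cancel] at this
  have hti : Transcendental C x⁻¹ := by
    intro hb
    apply h.leg.tr
    have := hb.inv
    rwa [inv_inv] at this
  have hfb : ∀ b : C, {Q : Place C Φ | 0 < Q.ord (x - algebraMap C Φ b)}.Finite := fun b => finite_pos_ord _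
  have hfi : {Q : Place C Φ | 0 < Q.ord x⁻¹}.Finite := finite_pos_ord _
  have hcb : ∀ b : C, (hfb b).toFinset.card ≤ 2 * Nat.card G := by
    intro b
    have h1 := LGU_count (htb b)
    rw [LGU_adj, hdeg, Set.ncard_eq_toFinset_card _ (hfb b)] at h1
    exact h1
  have hci : hfi.toFinset.card ≤ 2 * Nat.card G := by
    have h1 := LGU_count hti
    rw [adjoin_inv, hdeg, Set.ncard_eq_toFinset_card _ hfi] at h1
    exact h1
  have hsub : {Q : Place C Φ | Ram G Q} ⊆ ((hfi.toFinset ∪ B.biUnion fun b => (hfb b).toFinset : Finset (Place C Φ)) :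
      Set (Place C Φ)) := by
    intro Q hQ
    rw [Finset.coe_union, Set.mem_union]
    by_cases hx : Q.ord x < 0
    · left
      have : 0 < Q.ord x⁻¹ := by rw [Q.ord_inv]; omega
      simpa using this
    · right
      have h1 := hB Q hQ (by omega)
      have h2 := evl_mem Q (Q.mem_ge_of_le (x := x) (n := 0) (by omega))
      have h3 : x - algebraMap C Φ (ev Q x) ≠ 0 := by
        intro h4
        apply htb (ev Q x)
        rw [h4]
        exact isAlgebraic_zero
      have h4 := Q.le_ord_of_mem h2 h3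
      rw [Finset.mem_coe, Finset.mem_biUnion]
      refine ⟨_, h1, ?_⟩
      have h5 : 0 < Q.ord (x - algebraMap C Φ (ev Q x)) := by omega
      simpa using h5
  refine ⟨(Finset.finite_toSet _).subset hsub, ?_⟩
  refine (Set.ncard_le_ncard hsub (Finset.finite_toSet _)).trans ?_
  rw [Set.ncard_coe_finset]
  refine (Finset.card_union_le _ _).trans ?_
  have h6 := Finset.card_biUnion_le_card_mul B (fun b => (hfb b).toFinset) (2 * Nat.card G) (fun b _ => hcb b)
  rw [add_mul, one_mul]
  omega

end Pool.Agent.ESH
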