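import Pool.Agent.ESH.LGE
import Pool.Agent.ESH.LGU
import Pool.Agent.ESH.CNT
import Pool.Agent.ESH.CJC
import Pool.Agent.ESH.EVL

/-!
# ESH / CJB: the number of conjugates of the moduli

As in CJC.  `T(s) = (G_s, σ_s Q)` with `σ_s = lift s`, `G_s = σ_s G σ_s⁻¹ ≤ Γ`: at most `2^M` subgroups, and for each of them the ramified places are the images under `σ_s` of those of
`G`: at most `R = (B.card + 1)(2M)` (LGU).  If `T(s) = T(s')`, then `(σ_s x, σ_s y, s l)` and `(σ_s' x, σ_s' y, s' l)` are both `FixLeg G_s` with the common pole `σ_s Q`, so by LGE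
`σ_s' x = α σ_s x + β` with `α {0, 1, s l} + β = {0, 1, s' l}`: `(α, β)` is determined by the preimages of `0` and `1` in `{0, 1, s l}` (6 choices at most), and then `s' l` is determined: at most `6`
values.  `cjb_rho`: `T(s) = (G_s, σ_s Q, σ_s P)`: `s' a = α s a + β` (values at `σ_s P = σ_s' P`, `evl_map`), `(s' c_j)² = s'(a - e_j) = α s(a - e_{j'})` with `e_j ↦ e_{j'}` the bijection of LGE, so
`s' c_j = ± √α s c_{j'}` and `s' ρ = (± s c_{1'} ± s c_{2'})/(± s c_{1'} ± s c_{3'})`: at most `6 * 8 = 48` values.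
-/

namespace Pool.Agent.ESH

open Pool.Agent.Helper11 Polynomial IntermediateField

section CjbPrivate

variable {C Φ : Type*} [Field C] [Field Φ] [Algebra C Φ]

/-- conjugation by a semilinear automorphism -/
private noncomputable def cjbE (σ : Φ ≃+* Φ) (s : C ≃+* C)
    (hs : ∀ c : C, σ (algebraMap C Φ c) = algebraMap C Φ (s c)) :
    (Φ ≃ₐ[C] Φ) →* (Φ ≃ₐ[C] Φ) where
  toFun γ := AlgEquiv.ofRingEquiv (f := (σ.symm.trans γ.toRingEquiv).trans σ) (by
    intro c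
    have h : σ.symm (algebraMap C Φ c) = algebraMap C Φ (s.symm c) := by
      rw [RingEquiv.symm_apply_eq, hs, RingEquiv.apply_symm_apply]
    change σ (γ (σ.symm (algebraMap C Φ c))) = algebraMap C Φ c
    rw [h, AlgEquiv.commutes, hs, RingEquiv.apply_symm_apply])
  map_one' := by
    ext f
    change σ (σ.symm f) = f
    exact RingEquiv.apply_symm_apply _ _
  map_mul' γ γ' := by
    ext f
    change σ (γ (γ' (σ.symm f))) = σ (γ (σ.symm (σ (γ' (σ.symm f)))))
    rw [RingEquiv.symm_apply_apply]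

private theorem cjbE_apply (σ : Φ ≃+* Φ) (s : C ≃+* C)
    (hs : ∀ c : C, σ (algebraMap C Φ c) = algebraMap C Φ (s c)) (γ : Φ ≃ₐ[C] Φ) (f : Φ) :
    cjbE σ s hs γ f = σ (γ (σ.symm f)) := rfl

private theorem cjbE_inj (σ : Φ ≃+* Φ) (s : C ≃+* C)
    (hs : ∀ c : C, σ (algebraMap C Φ c) = algebraMap C Φ (s c)) (γ : Φ ≃ₐ[C] Φ)
    (h : cjbE σ s hs γ = 1) : γ = 1 := by
  ext f
  have h1 := DFunLike.congr_fun h (σ f)
  rw [cjbE_apply, RingEquiv.symm_apply_apply] at h1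
  exact σ.injective h1

private theorem cjb_ord (σ : Φ ≃+* Φ) (s : C ≃+* C)
    (hs : ∀ c : C, σ (algebraMap C Φ c) = algebraMap C Φ (s c)) (P : Place C Φ) (f : Φ) :
    (plMap σ s hs P).ord (σ f) = P.ord f := by
  change P.ord (σ.symm (σ f)) = P.ord f
  rw [RingEquiv.symm_apply_apply]

private theorem cjb_symm (σ : Φ ≃+* Φ) (s : C ≃+* C)
    (hs : ∀ c : C, σ (algebraMap C Φ c) = algebraMap C Φ (s c)) (c : C) :
    σ.symm (algebraMap C Φ c) = algebraMap C Φ (s.symm c) := by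
  rw [RingEquiv.symm_apply_eq, hs, RingEquiv.apply_symm_apply]

private theorem cjb_aeval (σ : Φ ≃+* Φ) (s : C ≃+* C)
    (hs : ∀ c : C, σ (algebraMap C Φ c) = algebraMap C Φ (s c)) (x : Φ) (r : Polynomial C) :
    σ (Polynomial.aeval x r) = Polynomial.aeval (σ x) (r.map (s : C →+* C)) := by
  rw [Polynomial.aeval_def, Polynomial.aeval_def, Polynomial.eval₂_map]
  have h : (σ : Φ →+* Φ).comp (algebraMap C Φ) = (algebraMap C Φ).comp (s : C →+* C) :=
    RingHom.ext hs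
  rw [← h]
  exact Polynomial.hom_eval₂ r (algebraMap C Φ) (σ : Φ →+* Φ) x

private theorem cjb_adj (σ : Φ ≃+* Φ) (s : C ≃+* C)
    (hs : ∀ c : C, σ (algebraMap C Φ c) = algebraMap C Φ (s c)) (x y : Φ) (z : Φ)
    (hz : z ∈ IntermediateField.adjoin C {x, y}) :
    σ z ∈ IntermediateField.adjoin C {σ x, σ y} := by
  induction hz using IntermediateField.adjoin_induction with
  | mem w hw =>
    apply IntermediateField.subset_adjoin
    rcases hw with rfl | hw
    · exact Set.mem_insert _ _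
    · rw [Set.mem_singleton_iff] at hw
      rw [hw]
      exact Set.mem_insert_of_mem _ rfl
  | algebraMap c =>
    rw [hs]
    exact IntermediateField.algebraMap_mem _ _
  | add a b _ _ ha hb =>
    rw [map_add]
    exact add_mem ha hb
  | inv a _ ha =>
    rw [map_inv₀]
    exact inv_mem ha
  | mul a b _ _ ha hb =>
    rw [map_mul]
    exact mul_mem ha hb

private theorem cjb_leg (σ : Φ ≃+* Φ) (s : C ≃+* C)
    (hs : ∀ c : C, σ (algebraMap C Φ c) = algebraMap C Φ (s c)) (G : Subgroup (Φ ≃ₐ[C] Φ))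
    {x y : Φ} {l : C} (hx : FixLeg G x y l) : FixLeg (G.map (cjbE σ s hs)) (σ x) (σ y) (s l) := by
  refine ⟨⟨?_, ?_, ?_, ?_⟩, ?_, ?_, ?_⟩
  · intro h
    obtain ⟨p, hp, hp0⟩ := h
    apply hx.leg.tr
    refine ⟨p.map (s.symm : C →+* C), ?_, ?_⟩
    · intro h0
      apply hp
      exact (Polynomial.map_eq_zero_iff (f := (s.symm : C →+* C)) s.symm.injective).1 h0
    · apply σ.injective
      rw [cjb_aeval σ s hs, map_zero, Polynomial.map_map]
      have h1 : (s : C →+* C).comp (s.symm : C →+* C) = RingHom.id C := by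
        ext c
        exact s.apply_symm_apply c
      rw [h1, Polynomial.map_id]
      exact hp0
  · rw [← map_pow, hx.leg.eq, map_mul, map_mul, map_sub, map_sub, hs, map_one]
  · intro h
    exact hx.leg.l0 ((map_eq_zero_iff s s.injective).1 h)
  · intro h
    exact hx.leg.l1 (s.injective (by rw [h, map_one]))
  · rintro g ⟨γ, hγ, rfl⟩
    rw [cjbE_apply, RingEquiv.symm_apply_apply, hx.fx γ hγ]
  · rintro g ⟨γ, hγ, rfl⟩
    rw [cjbE_apply, RingEquiv.symm_apply_apply, hx.fy γ hγ]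
  · intro f hf
    have h1 : σ.symm f ∈ IntermediateField.adjoin C {x, y} := by
      apply hx.gen
      intro γ hγ
      have h2 := hf (cjbE σ s hs γ) ⟨γ, hγ, rfl⟩
      rw [cjbE_apply] at h2
      rw [RingEquiv.eq_symm_apply, h2]
    have h2 := cjb_adj σ s hs x y _ h1
    rwa [RingEquiv.apply_symm_apply] at h2

private theorem cjb_ram (σ : Φ ≃+* Φ) (s : C ≃+* C)
    (hs : ∀ c : C, σ (algebraMap C Φ c) = algebraMap C Φ (s c)) (G : Subgroup (Φ ≃ₐ[C] Φ))
    (P : Place C Φ) (h : Ram G P) : Ram (G.map (cjbE σ s hs)) (plMap σ s hs P) := by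
  obtain ⟨g, hg, hg1, hgP⟩ := h
  refine ⟨cjbE σ s hs g, ⟨g, hg, rfl⟩, fun h => hg1 (cjbE_inj _ _ _ _ h), ?_⟩
  intro f
  change P.ord (σ.symm (σ (g (σ.symm f)))) = P.ord (σ.symm f)
  rw [RingEquiv.symm_apply_apply]
  exact hgP _

private theorem cjb_ram' (σ : Φ ≃+* Φ) (s : C ≃+* C)
    (hs : ∀ c : C, σ (algebraMap C Φ c) = algebraMap C Φ (s c)) (G : Subgroup (Φ ≃ₐ[C] Φ))
    (P : Place C Φ) (h : Ram (G.map (cjbE σ s hs)) P) :
    Ram G (plMap σ.symm s.symm (cjb_symm σ s hs) P) := by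
  obtain ⟨g, ⟨γ, hγ, rfl⟩, hg1, hgP⟩ := h
  refine ⟨γ, hγ, ?_, ?_⟩
  · rintro rfl
    exact hg1 (map_one _)
  · intro f
    change P.ord (σ (γ f)) = P.ord (σ f)
    have h1 := hgP (σ f)
    have h2 : (cjbE σ s hs γ) (σ f) = σ (γ f) := by
      rw [cjbE_apply, RingEquiv.symm_apply_apply]
    change P.ord ((cjbE σ s hs γ) (σ f)) = P.ord (σ f) at h1
    rwa [h2] at h1

/-- a finite set has an injective coding -/
private theorem cjb_code {α : Type*} (S : Set α) (hS : S.Finite) (m : ℕ) (hm : S.ncard ≤ m) :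
    ∃ f : α → ℕ, Set.InjOn f S ∧ ∀ q ∈ S, f q < m := by
  classical
  have : Finite S := hS
  have e : S ≃ Fin (Nat.card S) := Finite.equivFin S
  refine ⟨fun q => if h : q ∈ S then (e ⟨q, h⟩ : ℕ) else 0, ?_, ?_⟩
  · intro a ha b hb hab
    simp only [dif_pos ha, dif_pos hb] at hab
    have h1 := e.injective (Fin.ext hab)
    exact congrArg Subtype.val h1
  · intro q hq
    simp only [dif_pos hq]
    have h1 := (e ⟨q, hq⟩).isLt
    have h2 : Nat.card S = S.ncard := rfl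
    omega

end CjbPrivate

variable {C Φ : Type*} [Field C] [Field Φ] [Algebra C Φ] [FunField C Φ] [CharZero C] [IsAlgClosed C]

private theorem cjb_gen {K : Type*} [Field K] [CharZero K] [Algebra K C] [Algebra.IsAlgebraic K C] (Γ G : Subgroup (Φ ≃ₐ[C] Φ)) [Finite Γ] (hG : G ≤ Γ)
    (lift : (C ≃ₐ[K] C) → (Φ ≃+* Φ))
    (hlift : ∀ (s : C ≃ₐ[K] C) (c : C), lift s (algebraMap C Φ c) = algebraMap C Φ ((s.toRingEquiv : C ≃+* C) c))
    (hΓ : ∀ s : C ≃ₐ[K] C, ∀ γ ∈ Γ, ∃ γ' ∈ Γ, ∀ f, lift s (γ f) = γ' (lift s f))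
    {x y : Φ} {l : C} (hx : FixLeg G x y l) (B : Finset C)
    (hB : ∀ P : Place C Φ, Ram G P → 0 ≤ P.ord x → ev P x ∈ B)
    (Q : Place C Φ) (hQr : Ram G Q) (P : Place C Φ) (hP : Ram G P) (ρ : C) (k : ℕ)
    (F : (C ≃ₐ[K] C) → Set C) (hF : ∀ s, (F s).Finite ∧ (F s).ncard ≤ k)
    (hmain : ∀ s s' : C ≃ₐ[K] C,
      G.map (cjbE (lift s) s.toRingEquiv (hlift s)) = G.map (cjbE (lift s') s'.toRingEquiv (hlift s')) →
      plMap (lift s) s.toRingEquiv (hlift s) Q = plMap (lift s') s'.toRingEquiv (hlift s') Q →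
      plMap (lift s) s.toRingEquiv (hlift s) P = plMap (lift s') s'.toRingEquiv (hlift s') P →
      s' ρ ∈ F s) :
    (minpoly K ρ).natDegree ≤ k * (2 ^ Nat.card Γ * ((B.card + 1) * (2 * Nat.card Γ)) ^ 2) := by
  classical
  have : Finite G := Finite.of_injective _ (Subgroup.inclusion_injective hG)
  obtain ⟨m, hm⟩ : ∃ m, m = (B.card + 1) * (2 * Nat.card Γ) := ⟨_, rfl⟩
  rw [← hm]
  obtain ⟨Gs, hGs⟩ : ∃ Gs : (C ≃ₐ[K] C) → Subgroup (Φ ≃ₐ[C] Φ), Gs = fun s =>
    G.map (cjbE (lift s) s.toRingEquiv (hlift s)) := ⟨_, rfl⟩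
  have hGsΓ : ∀ s, Gs s ≤ Γ := by
    intro s g hg
    rw [hGs] at hg
    obtain ⟨γ, hγ, rfl⟩ := hg
    obtain ⟨γ', hγ', h⟩ := hΓ s γ (hG hγ)
    have h1 : cjbE (lift s) s.toRingEquiv (hlift s) γ = γ' := by
      ext f
      rw [cjbE_apply, h, RingEquiv.apply_symm_apply]
    rw [h1]
    exact hγ'
  have hfin : ∀ s, Finite (Gs s) := fun s =>
    Finite.of_injective _ (Subgroup.inclusion_injective (hGsΓ s))
  have hgen : ∀ s, FixLeg (Gs s) (lift s x) (lift s y) (s.toRingEquiv l) := by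
    intro s
    rw [hGs]
    exact cjb_leg _ _ _ _ hx
  have hR : ∀ s, {R : Place C Φ | Ram (Gs s) R}.Finite ∧
      {R : Place C Φ | Ram (Gs s) R}.ncard ≤ m := by
    intro s
    have := hfin s
    have h1 := lgu_card (Gs s) (hgen s) (B.image s) (by
      intro R hR hRx
      rw [Finset.mem_image]
      have hR' : Ram (G.map (cjbE (lift s) s.toRingEquiv (hlift s))) R := by
        rw [hGs] at hR
        exact hR
      have h1 := cjb_ram' (lift s) s.toRingEquiv (hlift s) G R hR'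
      have h2 : lift s x ∈ R.ge 0 := R.mem_ge_of_le hRx
      have h3 := evl_map (lift s).symm s.toRingEquiv.symm (cjb_symm (lift s) s.toRingEquiv (hlift s)) R h2
      rw [RingEquiv.symm_apply_apply] at h3
      refine ⟨_, hB _ h1 ?_, ?_⟩
      · change 0 ≤ R.ord ((lift s) x)
        exact hRx
      · rw [h3]
        exact s.toRingEquiv.apply_symm_apply _)
    refine ⟨h1.1, h1.2.trans ?_⟩
    rw [hm]
    have h2 : Nat.card (Gs s) ≤ Nat.card Γ :=
      Nat.card_le_card_of_injective _ (Subgroup.inclusion_injective (hGsΓ s))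
    have h3 : (B.image s).card ≤ B.card := Finset.card_image_le
    exact Nat.mul_le_mul (by omega) (by omega)
  -- the coding of the places
  have hcode : ∀ H : Subgroup (Φ ≃ₐ[C] Φ), ∃ f : Place C Φ → ℕ,
      ({R : Place C Φ | Ram H R}.Finite ∧ {R : Place C Φ | Ram H R}.ncard ≤ m) →
      Set.InjOn f {R : Place C Φ | Ram H R} ∧
        ∀ q ∈ {R : Place C Φ | Ram H R}, f q < m := by
    intro H
    by_cases h : ({R : Place C Φ | Ram H R}.Finite ∧ {R : Place C Φ | Ram H R}.ncard ≤ m)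
    · obtain ⟨f, hf⟩ := cjb_code _ h.1 m h.2
      exact ⟨f, fun _ => hf⟩
    · exact ⟨fun _ => 0, fun h' => absurd h' h⟩
  choose code hcd using hcode
  have hst : ∀ (R : Place C Φ), Ram G R → ∀ s : C ≃ₐ[K] C,
      plMap (lift s) s.toRingEquiv (hlift s) R ∈ {R : Place C Φ | Ram (Gs s) R} := by
    intro R hR s
    rw [hGs]
    exact cjb_ram _ _ _ _ _ hR
  have s₀ := hst Q hQr
  have s₁ := hst P hP
  obtain ⟨T, hT⟩ : ∃ T : (C ≃ₐ[K] C) → Set Γ × (Fin m × Fin m),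
    T = fun r => ({γ : Γ | (γ : Φ ≃ₐ[C] Φ) ∈ Gs r},
      (⟨code (Gs r) (plMap (lift r) r.toRingEquiv (hlift r) Q), (hcd _ (hR r)).2 _ (s₀ r)⟩,
       ⟨code (Gs r) (plMap (lift r) r.toRingEquiv (hlift r) P), (hcd _ (hR r)).2 _ (s₁ r)⟩)) := ⟨_, rfl⟩
  have hTinj : ∀ s s' : C ≃ₐ[K] C, T s = T s' → s' ρ ∈ F s := by
    intro r r' hrr
    rw [hT] at hrr
    simp only [Prod.mk.injEq, Fin.mk.injEq] at hrr
    obtain ⟨e0, e1, e2⟩ := hrr
    have hGG : Gs r = Gs r' := by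
      ext g
      constructor
      · intro hg
        have h1 : (⟨g, hGsΓ _ hg⟩ : Γ) ∈ {γ : Γ | (γ : Φ ≃ₐ[C] Φ) ∈ Gs r} := hg
        rw [e0] at h1
        exact h1
      · intro hg
        have h1 : (⟨g, hGsΓ _ hg⟩ : Γ) ∈ {γ : Γ | (γ : Φ ≃ₐ[C] Φ) ∈ Gs r'} := hg
        rw [← e0] at h1
        exact h1
    have hpl : ∀ (R : Place C Φ), (∀ s : C ≃ₐ[K] C, plMap (lift s) s.toRingEquiv (hlift s) R ∈
        {R : Place C Φ | Ram (Gs s) R}) →
        code (Gs r) (plMap (lift r) r.toRingEquiv (hlift r) R) =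
          code (Gs r') (plMap (lift r') r'.toRingEquiv (hlift r') R) →
        plMap (lift r) r.toRingEquiv (hlift r) R =
          plMap (lift r') r'.toRingEquiv (hlift r') R := by
      intro R hR' hc
      rw [← hGG] at hc
      refine (hcd _ (hR r)).1 (hR' _) ?_ hc
      rw [hGG]
      exact hR' _
    have hGG' := hGG
    rw [hGs] at hGG'
    exact hmain r r' hGG' (hpl Q s₀ e1) (hpl P s₁ e2)
  have : Fintype Γ := Fintype.ofFinite Γ
  have hfi : (Set.univ : Set (Set Γ × (Fin m × Fin m))).Finite := Set.toFinite _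
  have h1 := cnt ρ T Set.univ hfi (fun _ => Set.mem_univ _) k (by
    intro v
    by_cases hv : ∃ s, T s = v
    · obtain ⟨s, hs⟩ := hv
      have hsub : {z : C | ∃ s : C ≃ₐ[K] C, T s = v ∧ s ρ = z} ⊆ F s := by
        rintro z ⟨s', hs', rfl⟩
        exact hTinj s s' (hs.trans hs'.symm)
      exact ⟨(hF s).1.subset hsub, (Set.ncard_le_ncard hsub (hF s).1).trans (hF s).2⟩
    · have hsub : {z : C | ∃ s : C ≃ₐ[K] C, T s = v ∧ s ρ = z} = ∅ := by
        ext z
        rw [Set.mem_empty_iff_false, iff_false]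
        rintro ⟨s', hs', _⟩
        exact hv ⟨s', hs'⟩
      rw [hsub]
      exact ⟨Set.finite_empty, by simp⟩)
  refine h1.trans (le_of_eq ?_)
  rw [Set.ncard_univ, Nat.card_prod, Nat.card_prod, Nat.card_eq_fintype_card (α := Fin m),
    Fintype.card_fin, Nat.card_eq_fintype_card (α := Set Γ), Fintype.card_set,
    Nat.card_eq_fintype_card (α := Γ)]
  ring

/-- the coordinates for two conjugates -/
private theorem cjb_two {K : Type*} [Field K] [CharZero K] [Algebra K C] [Algebra.IsAlgebraic K C] (G : Subgroup (Φ ≃ₐ[C] Φ)) [Finite G]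
    (lift : (C ≃ₐ[K] C) → (Φ ≃+* Φ))
    (hlift : ∀ (s : C ≃ₐ[K] C) (c : C), lift s (algebraMap C Φ c) = algebraMap C Φ ((s.toRingEquiv : C ≃+* C) c))
    {x y : Φ} {l : C} (hx : FixLeg G x y l)
    (Q : Place C Φ) (hQ : Q.ord x < 0) (s s' : C ≃ₐ[K] C)
    (e0 : G.map (cjbE (lift s) s.toRingEquiv (hlift s)) = G.map (cjbE (lift s') s'.toRingEquiv (hlift s')))
    (e1 : plMap (lift s) s.toRingEquiv (hlift s) Q = plMap (lift s') s'.toRingEquiv (hlift s') Q) :
    ∃ α β : C, α ≠ 0 ∧ lift s' x = algebraMap C Φ α * lift s x + algebraMap C Φ β ∧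
      ∃ j : Equiv.Perm (Fin 3), ∀ i : Fin 3, α * (![0, 1, s l] : Fin 3 → C) (j i) + β = (![0, 1, s' l] : Fin 3 → C) i := by
  have h1 := cjb_leg (lift s) s.toRingEquiv (hlift s) G hx
  have h2 := cjb_leg (lift s') s'.toRingEquiv (hlift s') G hx
  rw [← e0] at h2
  have : Finite (G.map (cjbE (lift s) s.toRingEquiv (hlift s))) := by
    have h3 : ((G.map (cjbE (lift s) s.toRingEquiv (hlift s)) : Subgroup _) : Set (Φ ≃ₐ[C] Φ)).Finite := by
      rw [Subgroup.coe_map]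
      exact Set.Finite.image _ (Set.toFinite (G : Set (Φ ≃ₐ[C] Φ)))
    exact h3
  obtain ⟨α, β, δ, hα, hxx, -, -, -, hb⟩ := lge _ h1 h2 (plMap (lift s) s.toRingEquiv (hlift s) Q)
    (by rw [cjb_ord]; exact hQ) (by rw [e1, cjb_ord]; exact hQ)
  refine ⟨α, β, hα, hxx, ?_⟩
  have hex : ∀ i : Fin 3, ∃ j : Fin 3, α * (![0, 1, s l] : Fin 3 → C) j + β = (![0, 1, s' l] : Fin 3 → C) i := by
    intro i
    obtain ⟨e, he, hee⟩ := hb ((![0, 1, s' l] : Fin 3 → C) i) (by
      fin_cases i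
      · exact Or.inl rfl
      · exact Or.inr (Or.inl rfl)
      · exact Or.inr (Or.inr rfl))
    rcases he with rfl | rfl | rfl
    · exact ⟨0, hee⟩
    · exact ⟨1, hee⟩
    · exact ⟨2, hee⟩
  choose j hj using hex
  have l0' : s' l ≠ 0 := h2.leg.l0
  have l1' : s' l ≠ 1 := h2.leg.l1
  have hinj' : Function.Injective (![0, 1, s' l] : Fin 3 → C) := by
    intro a b hab
    fin_cases a <;> fin_cases b
    · rfl
    · exact absurd (show (0 : C) = 1 from hab) zero_ne_one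
    · exact absurd (show (0 : C) = s' l from hab).symm l0'
    · exact absurd (show (1 : C) = 0 from hab) one_ne_zero
    · rfl
    · exact absurd (show (1 : C) = s' l from hab).symm l1'
    · exact absurd (show s' l = 0 from hab) l0'
    · exact absurd (show s' l = 1 from hab) l1'
    · rfl
  have hinj : Function.Injective j := by
    intro a b hab
    apply hinj'
    rw [← hj a, ← hj b, hab]
  exact ⟨Equiv.ofBijective j (Finite.injective_iff_bijective.1 hinj), fun i => hj i⟩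

theorem cjb_l {K : Type*} [Field K] [CharZero K] [Algebra K C] [Algebra.IsAlgebraic K C] (Γ G : Subgroup (Φ ≃ₐ[C] Φ)) [Finite Γ] (hG : G ≤ Γ)
    (lift : (C ≃ₐ[K] C) → (Φ ≃+* Φ))
    (hlift : ∀ (s : C ≃ₐ[K] C) (c : C), lift s (algebraMap C Φ c) = algebraMap C Φ (s c))
    (hΓ : ∀ s : C ≃ₐ[K] C, ∀ γ ∈ Γ, ∃ γ' ∈ Γ, ∀ f, lift s (γ f) = γ' (lift s f))
    {x y : Φ} {l : C} (hx : FixLeg G x y l) (B : Finset C)
    (hB : ∀ P : Place C Φ, Ram G P → 0 ≤ P.ord x → ev P x ∈ B)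
    (Q : Place C Φ) (hQ : Q.ord x < 0) (hQr : Ram G Q) :
    (minpoly K l).natDegree ≤ 48 * (2 ^ Nat.card Γ * ((B.card + 1) * (2 * Nat.card Γ)) ^ 2) := by
  classical
  have : Finite G := Finite.of_injective _ (Subgroup.inclusion_injective hG)
  refine cjb_gen Γ G hG lift hlift hΓ hx B hB Q hQr Q hQr l 48
    (fun s => Set.range (fun j : Equiv.Perm (Fin 3) =>
      ((![0, 1, s l] : Fin 3 → C) (j 2) - (![0, 1, s l] : Fin 3 → C) (j 0)) /
      ((![0, 1, s l] : Fin 3 → C) (j 1) - (![0, 1, s l] : Fin 3 → C) (j 0)))) ?_ ?_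
  · intro s
    refine ⟨Set.finite_range _, ?_⟩
    have h1 := Set.ncard_image_le (Set.toFinite (Set.univ : Set (Equiv.Perm (Fin 3))))
      (f := fun j : Equiv.Perm (Fin 3) =>
      ((![0, 1, s l] : Fin 3 → C) (j 2) - (![0, 1, s l] : Fin 3 → C) (j 0)) /
      ((![0, 1, s l] : Fin 3 → C) (j 1) - (![0, 1, s l] : Fin 3 → C) (j 0)))
    rw [Set.image_univ, Set.ncard_univ, Nat.card_eq_fintype_card, Fintype.card_perm, Fintype.card_fin] at h1
    exact h1.trans (by decide)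
  · intro s s' e0 e1 _
    obtain ⟨α, β, hα, -, j, hj⟩ := cjb_two G lift hlift hx Q hQ s s' e0 e1
    refine ⟨j, ?_⟩
    have h0 := hj 0
    have h1 := hj 1
    have h2 := hj 2
    simp only [Matrix.cons_val_zero, Matrix.cons_val_one] at h0 h1
    have h2' : α * (![0, 1, s l] : Fin 3 → C) (j 2) + β = s' l := h2
    have h1' : α * (![0, 1, s l] : Fin 3 → C) (j 1) + β = 1 := h1
    have h0' : α * (![0, 1, s l] : Fin 3 → C) (j 0) + β = 0 := h0
    change ((![0, 1, s l] : Fin 3 → C) (j 2) - (![0, 1, s l] : Fin 3 → C) (j 0)) /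
      ((![0, 1, s l] : Fin 3 → C) (j 1) - (![0, 1, s l] : Fin 3 → C) (j 0)) = s' l
    have h3 : α * ((![0, 1, s l] : Fin 3 → C) (j 1) - (![0, 1, s l] : Fin 3 → C) (j 0)) = 1 := by
      linear_combination h1' - h0'
    have h4 : (![0, 1, s l] : Fin 3 → C) (j 1) - (![0, 1, s l] : Fin 3 → C) (j 0) ≠ 0 := by
      intro h5
      rw [h5, mul_zero] at h3
      exact one_ne_zero h3.symm
    rw [div_eq_iff h4, ← h2']
    linear_combination (-((![0, 1, s l] : Fin 3 → C) (j 2)) + (![0, 1, s l] : Fin 3 → C) (j 0)) * h3 -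
      ((![0, 1, s l] : Fin 3 → C) (j 1) - (![0, 1, s l] : Fin 3 → C) (j 0)) * h0'

private def cjbS {C : Type*} [Field C] (b : Bool) : C := if b then 1 else -1

theorem cjb_rho {K : Type*} [Field K] [CharZero K] [Algebra K C] [Algebra.IsAlgebraic K C] (Γ G : Subgroup (Φ ≃ₐ[C] Φ)) [Finite Γ] (hG : G ≤ Γ)
    (lift : (C ≃ₐ[K] C) → (Φ ≃+* Φ))
    (hlift : ∀ (s : C ≃ₐ[K] C) (c : C), lift s (algebraMap C Φ c) = algebraMap C Φ (s c))
    (hΓ : ∀ s : C ≃ₐ[K] C, ∀ γ ∈ Γ, ∃ γ' ∈ Γ, ∀ f, lift s (γ f) = γ' (lift s f))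
    {x y : Φ} {l : C} (hx : FixLeg G x y l) (B : Finset C)
    (hB : ∀ P : Place C Φ, Ram G P → 0 ≤ P.ord x → ev P x ∈ B)
    (Q : Place C Φ) (hQ : Q.ord x < 0) (hQr : Ram G Q)
    (P : Place C Φ) (hP : Ram G P) (hPx : 0 ≤ P.ord x) (c₁ c₂ c₃ : C) (h1 : c₁ ^ 2 = ev P x)
    (h2 : c₂ ^ 2 = ev P x - 1) (h3 : c₃ ^ 2 = ev P x - l) :
    (minpoly K ((c₁ - c₂) / (c₁ - c₃))).natDegree ≤
      48 * (2 ^ Nat.card Γ * ((B.card + 1) * (2 * Nat.card Γ)) ^ 2) := by
  classical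
  have : Finite G := Finite.of_injective _ (Subgroup.inclusion_injective hG)
  obtain ⟨u, hu⟩ : ∃ u : (C ≃ₐ[K] C) → Fin 3 → C, u = fun s => ![s c₁, s c₂, s c₃] := ⟨_, rfl⟩
  refine cjb_gen Γ G hG lift hlift hΓ hx B hB Q hQr P hP _ 48
    (fun s => Set.range (fun j : Equiv.Perm (Fin 3) × (Bool × Bool × Bool) =>
      (cjbS j.2.1 * u s (j.1 0) - cjbS j.2.2.1 * u s (j.1 1)) /
      (cjbS j.2.1 * u s (j.1 0) - cjbS j.2.2.2 * u s (j.1 2)))) ?_ ?_
  · intro s
    refine ⟨Set.finite_range _, ?_⟩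
    have h1 := Set.ncard_image_le (Set.toFinite (Set.univ : Set (Equiv.Perm (Fin 3) × (Bool × Bool × Bool))))
      (f := fun j : Equiv.Perm (Fin 3) × (Bool × Bool × Bool) =>
      ((cjbS j.2.1 : C) * u s (j.1 0) - cjbS j.2.2.1 * u s (j.1 1)) /
      (cjbS j.2.1 * u s (j.1 0) - cjbS j.2.2.2 * u s (j.1 2)))
    rw [Set.image_univ, Set.ncard_univ, Nat.card_eq_fintype_card, Fintype.card_prod, Fintype.card_perm,
      Fintype.card_fin, Fintype.card_prod, Fintype.card_prod, Fintype.card_bool] at h1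
    exact h1.trans (by decide)
  · intro s s' e0 e1 e2
    obtain ⟨α, β, hα, hxx, j, hj⟩ := cjb_two G lift hlift hx Q hQ s s' e0 e1
    obtain ⟨κ, hκ⟩ := IsAlgClosed.exists_pow_nat_eq α (n := 2) (by norm_num)
    have hκ0 : κ ≠ 0 := by
      rintro rfl
      rw [zero_pow two_ne_zero] at hκ
      exact hα hκ.symm
    have hPx' : x ∈ P.ge 0 := P.mem_ge_of_le hPx
    have hv : ev (plMap (lift s) s.toRingEquiv (hlift s) P) (lift s x) = s (ev P x) :=
      evl_map (lift s) s.toRingEquiv (hlift s) P hPx'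
    have hv' : ev (plMap (lift s') s'.toRingEquiv (hlift s') P) (lift s' x) = s' (ev P x) :=
      evl_map (lift s') s'.toRingEquiv (hlift s') P hPx'
    have hmem : lift s x ∈ (plMap (lift s) s.toRingEquiv (hlift s) P).ge 0 :=
      (plMap_ge (lift s) s.toRingEquiv (hlift s) P 0 x).2 hPx'
    have hmc : ∀ c : C, algebraMap C Φ c ∈ (plMap (lift s) s.toRingEquiv (hlift s) P).ge 0 :=
      fun c => Place.algebraMap_mem_ge _ c
    have hmm : algebraMap C Φ α * lift s x ∈ (plMap (lift s) s.toRingEquiv (hlift s) P).ge 0 := by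
      have := Place.mul_mem_ge _ (hmc α) hmem
      rwa [add_zero] at this
    have ha : s' (ev P x) = α * s (ev P x) + β := by
      rw [← hv', ← e2, hxx, evl_add _ hmm (hmc β), evl_mul _ (hmc α) hmem, evl_const, evl_const, hv]
    have husq : ∀ (t : C ≃ₐ[K] C) (i : Fin 3), u t i ^ 2 = t (ev P x) - (![0, 1, t l] : Fin 3 → C) i := by
      intro t i
      rw [hu]
      fin_cases i
      · change t c₁ ^ 2 = t (ev P x) - 0
        rw [← map_pow, h1, sub_zero]
      · change t c₂ ^ 2 = t (ev P x) - 1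
        rw [← map_pow, h2, map_sub, map_one]
      · change t c₃ ^ 2 = t (ev P x) - t l
        rw [← map_pow, h3, map_sub]
    have hsg : ∀ i : Fin 3, ∃ b : Bool, u s' i = κ * (cjbS b * u s (j i)) := by
      intro i
      have hq : u s' i ^ 2 = (κ * u s (j i)) ^ 2 := by
        rw [husq, mul_pow, husq, hκ, ha, ← hj i]
        ring
      rcases sq_eq_sq_iff_eq_or_eq_neg.1 hq with h | h
      · exact ⟨true, by rw [h, cjbS, if_pos rfl, one_mul]⟩
      · exact ⟨false, by rw [h, cjbS, if_neg Bool.false_ne_true]; ring⟩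
    choose b hb using hsg
    refine ⟨(j, (b 0, b 1, b 2)), ?_⟩
    have r0 : s' c₁ = u s' 0 := by rw [hu]; rfl
    have r1 : s' c₂ = u s' 1 := by rw [hu]; rfl
    have r2 : s' c₃ = u s' 2 := by rw [hu]; rfl
    rw [map_div₀, map_sub, map_sub, r0, r1, r2, hb 0, hb 1, hb 2, ← mul_sub, ← mul_sub,
      mul_div_mul_left _ _ hκ0]

end Pool.Agent.ESH
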