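import Mathlib

/-!
# ESH / CLO: Galois closure inside `C`

Proof.  `M = K(all conjugates of x)` (`IntermediateField.adjoin K ((minpoly K x).rootSet C)`), the splitting field
of the separable polynomial `minpoly K x` (characteristic zero): Galois, of degree dividing `(deg)!`
(`Polynomial.IsSplittingField.finrank_dvd_factorial...` or `Gal` embeds in the permutations of the roots).
-/

namespace Pool.Agent.ESH

open Polynomial

theorem clo {K C : Type*} [Field K] [CharZero K] [Field C] [Algebra K C] [Algebra.IsAlgebraic K C]
    [IsAlgClosed C] (x : C) :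
    ∃ M : IntermediateField K C, x ∈ M ∧ FiniteDimensional K M ∧ IsGalois K M ∧
      Module.finrank K M ≤ (minpoly K x).natDegree.factorial ∧
      ∀ σ : C ≃ₐ[K] C, (∀ y ∈ (minpoly K x).rootSet C, σ y = y) → ∀ z ∈ M, σ z = z := by
  classical
  set p := minpoly K x with hp
  have hint : IsIntegral K x := (Algebra.IsAlgebraic.isAlgebraic x).isIntegral
  have hne : p ≠ 0 := minpoly.ne_zero hint
  have hsp : (p.map (algebraMap K C)).Splits := IsAlgClosed.splits _
  have hsep : p.Separable := (minpoly.irreducible hint).separable
  have hSF : p.IsSplittingField K (IntermediateField.adjoin K (p.rootSet C)) :=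
    IntermediateField.adjoin_rootSet_isSplittingField hsp
  have hx : x ∈ p.rootSet C := by
    rw [mem_rootSet]
    exact ⟨hne, minpoly.aeval K x⟩
  refine ⟨IntermediateField.adjoin K (p.rootSet C), IntermediateField.subset_adjoin K _ hx,
    Polynomial.IsSplittingField.finiteDimensional _ p,
    IsGalois.of_separable_splitting_field hsep, ?_, ?_⟩
  · have : Fact ((p.map (algebraMap K C)).Splits) := ⟨hsp⟩
    have e := (IsSplittingField.algEquiv (IntermediateField.adjoin K (p.rootSet C)) p).toLinearEquiv.finrank_eq
    rw [e, ← Polynomial.Gal.card_of_separable hsep]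
    have h1 := Fintype.card_le_of_injective _ (Polynomial.Gal.galActionHom_injective p C)
    have h2 : Fintype.card (p.rootSet C) ≤ p.natDegree := by
      have h3 := Polynomial.card_roots' (p.map (algebraMap K C))
      rw [natDegree_map] at h3
      refine le_trans ?_ h3
      refine le_trans (le_of_eq ?_) (Multiset.toFinset_card_le _)
      rw [← Set.toFinset_card]
      congr 1
      ext y
      rw [Set.mem_toFinset, mem_rootSet, Multiset.mem_toFinset, mem_roots (map_ne_zero hne)]
      simp [hne, aeval_def, IsRoot, eval_map]
    calc Nat.card p.Gal = Fintype.card p.Gal := by rw [Nat.card_eq_fintype_card]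
      _ ≤ Fintype.card (Equiv.Perm (p.rootSet C)) := h1
      _ = (Fintype.card (p.rootSet C)).factorial := Fintype.card_perm
      _ ≤ _ := Nat.factorial_le h2
  · intro σ hσ z hz
    have hle : IntermediateField.adjoin K (p.rootSet C) ≤ IntermediateField.fixedField (Subgroup.zpowers σ) := by
      rw [IntermediateField.adjoin_le_iff]
      intro y hy
      rw [SetLike.mem_coe, IntermediateField.mem_fixedField_iff]
      intro f hf
      obtain ⟨k, rfl⟩ := Subgroup.mem_zpowers_iff.mp hf
      have hmem : σ ∈ MulAction.stabilizer (C ≃ₐ[K] C) y := by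
        rw [MulAction.mem_stabilizer_iff]; exact hσ y hy
      have := Subgroup.zpow_mem _ hmem k
      rw [MulAction.mem_stabilizer_iff] at this
      exact this
    have := hle hz
    rw [IntermediateField.mem_fixedField_iff] at this
    exact this σ (Subgroup.mem_zpowers σ)

end Pool.Agent.ESH
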