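import Mathlib

/-!
# ESH / COL: a matrix with independent rows has a non-zero maximal minor

Proof.  The rows `A i : J → M` are linearly independent, so the rank of `A` is `card I`, so the columns span
`I → M` (`Matrix.rank_eq_finrank_span_cols`, or: if the span of the columns were a proper subspace, some
non-zero linear form `c` would vanish on it, contradiction with `h`).  Extract from the spanning family of
columns a basis of `I → M` (`exists_linearIndependent'`, `Module.Basis`...): an injective `e : I → J` such that
the columns `A · (e i)` are a basis; then the square matrix is invertible.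
-/

namespace Pool.Agent.ESH

theorem exists_minor {M : Type*} [Field M] {I J : Type*} [Fintype I] [DecidableEq I] [Fintype J]
    (A : Matrix I J M) (h : ∀ c : I → M, (∀ j, ∑ i, c i * A i j = 0) → c = 0) :
    ∃ e : I → J, Function.Injective e ∧ (A.submatrix id e).det ≠ 0 := by
  classical
  obtain ⟨v, hv⟩ : ∃ v : J → (I → M), ∀ j, v j = fun i => A i j := ⟨fun j i => A i j, fun _ => rfl⟩
  have htop : Submodule.span M (Set.range v) = ⊤ := by
    by_contra hne
    obtain ⟨f, hf, hle⟩ := Submodule.exists_le_ker_of_lt_top _ (lt_top_iff_ne_top.mpr hne)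
    apply hf
    have hfx : ∀ x : I → M, f x = ∑ i, f (Pi.single i 1) * x i := by
      intro x
      conv_lhs => rw [← Finset.univ_sum_single x]
      rw [map_sum]
      refine Finset.sum_congr rfl fun i _ => ?_
      have h1 : (Pi.single i (x i) : I → M) = x i • Pi.single i (1 : M) := by
        rw [← Pi.single_smul, smul_eq_mul, mul_one]
      rw [h1, map_smul, smul_eq_mul, mul_comm]
    have hc := h (fun i => f (Pi.single i 1)) (fun j => by
      have h1 : v j ∈ LinearMap.ker f := hle (Submodule.subset_span ⟨j, rfl⟩)
      rw [LinearMap.mem_ker, hfx, hv] at h1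
      exact h1)
    refine LinearMap.ext fun x => ?_
    rw [hfx, LinearMap.zero_apply]
    refine Finset.sum_eq_zero fun i _ => ?_
    rw [congrFun hc i, Pi.zero_apply, zero_mul]
  obtain ⟨κ, a, ha, hsp, hli⟩ := exists_linearIndependent' M v
  rw [htop] at hsp
  let b : Module.Basis κ M (I → M) := Module.Basis.mk hli (by rw [hsp])
  have : Fintype κ := Fintype.ofInjective a ha
  have hcard : Fintype.card κ = Fintype.card I := by
    rw [← Module.finrank_eq_card_basis b, Module.finrank_fintype_fun_eq_card]
  obtain ⟨e'⟩ : Nonempty (I ≃ κ) := ⟨Fintype.equivOfCardEq hcard.symm⟩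
  refine ⟨a ∘ e', ha.comp e'.injective, ?_⟩
  rw [← isUnit_iff_ne_zero, ← Matrix.isUnit_iff_isUnit_det,
    ← Matrix.linearIndependent_cols_iff_isUnit]
  have h2 : (A.submatrix id (a ∘ e')).col = (v ∘ a) ∘ e' := by
    funext i j
    simp [Matrix.col, hv]
  rw [h2]
  exact hli.comp _ e'.injective

end Pool.Agent.ESH
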