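import Mathlib

/-!
# ESH / HTD: height of the determinant

Proof.  Let `N = card I`, `a = α⁻¹`.  For an infinite place `w` (Leibniz expansion, `N!` terms)
`w Δ ≤ N! C^N ∏_j (max(w β, 1)^R max(w a, 1)^S)^L`, and the right side is `≥ 1`, so it also bounds
`max (w Δ) 1`; for a finite place `v`, `max (v Δ) 1 ≤ (max(v β, 1)^(R L) max(v a, 1)^(S L))^N` (ultrametric
inequality, `v (n : M) ≤ 1`).  Multiply over all places
(`NumberField.mulHeight₁_eq`, `finprod_le_finprod`, `∑ mult = finrank`, `Height.mulHeight₁_inv`).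
-/

namespace Pool.Agent.ESH

open NumberField Height

private theorem htd_supp {K : Type*} [Field K] [AdmissibleAbsValues K] (x : K) :
    (fun v : AdmissibleAbsValues.nonarchAbsVal (K := K) ↦
      max (v.val x) 1).HasFiniteMulSupport := by
  rcases eq_or_ne x 0 with rfl | hx
  · simp [Function.HasFiniteMulSupport]
  fun_prop

private theorem htd_sum {K : Type*} [Field K] (f : AbsoluteValue K ℝ) (hf : IsNonarchimedean f)
    {ι : Type*} (s : Finset ι) (x : ι → K) (B : ℝ) (hB : 0 ≤ B) (h : ∀ i ∈ s, f (x i) ≤ B) :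
    f (∑ i ∈ s, x i) ≤ B := by
  classical
  induction s using Finset.induction_on with
  | empty => rw [Finset.sum_empty, map_zero]; exact hB
  | insert i s hi ih =>
    rw [Finset.sum_insert hi]
    exact (hf _ _).trans (max_le (h i (Finset.mem_insert_self i s))
      (ih fun j hj => h j (Finset.mem_insert_of_mem hj)))

private theorem htd_comb {K : Type*} [Field K] [AdmissibleAbsValues K] (x β a : K) (W : ℝ)
    (hW : 0 ≤ W) (p q : ℕ)
    (harch : ∀ f : AbsoluteValue K ℝ, max (f x) 1 ≤ W * (max (f β) 1 ^ p * max (f a) 1 ^ q))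
    (hfin : ∀ f : AbsoluteValue K ℝ, IsNonarchimedean f →
      max (f x) 1 ≤ max (f β) 1 ^ p * max (f a) 1 ^ q) :
    mulHeight₁ x ≤ W ^ totalWeight K * (mulHeight₁ β ^ p * mulHeight₁ a ^ q) := by
  have h1 : ((AdmissibleAbsValues.archAbsVal (K := K)).map fun v ↦
      W * (max (v β) 1 ^ p * max (v a) 1 ^ q)).prod = W ^ totalWeight K *
      (((AdmissibleAbsValues.archAbsVal (K := K)).map fun v ↦ max (v β) 1).prod ^ p *
      ((AdmissibleAbsValues.archAbsVal (K := K)).map fun v ↦ max (v a) 1).prod ^ q) := by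
    rw [Multiset.prod_map_mul, Multiset.prod_map_mul, Multiset.prod_map_pow,
      Multiset.prod_map_pow, Multiset.map_const', Multiset.prod_replicate]
    rfl
  have h2 : ∏ᶠ v : AdmissibleAbsValues.nonarchAbsVal (K := K),
      (max (v.val β) 1 ^ p * max (v.val a) 1 ^ q) =
      (∏ᶠ v : AdmissibleAbsValues.nonarchAbsVal (K := K), max (v.val β) 1) ^ p *
      (∏ᶠ v : AdmissibleAbsValues.nonarchAbsVal (K := K), max (v.val a) 1) ^ q := by
    rw [finprod_pow (htd_supp β), finprod_pow (htd_supp a), finprod_mul_distrib]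
    · exact (htd_supp β).pow p
    · exact (htd_supp a).pow q
  have h3 : ((AdmissibleAbsValues.archAbsVal (K := K)).map fun v ↦ max (v x) 1).prod ≤
      ((AdmissibleAbsValues.archAbsVal (K := K)).map fun v ↦
      W * (max (v β) 1 ^ p * max (v a) 1 ^ q)).prod :=
    Multiset.prod_map_le_prod_map₀ _ _ (fun _ _ ↦ by positivity) fun v _ ↦ harch v
  have h4 : ∏ᶠ v : AdmissibleAbsValues.nonarchAbsVal (K := K), max (v.val x) 1 ≤
      ∏ᶠ v : AdmissibleAbsValues.nonarchAbsVal (K := K),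
      (max (v.val β) 1 ^ p * max (v.val a) 1 ^ q) :=
    finprod_le_finprod (htd_supp x) (fun _ ↦ by positivity)
      (((htd_supp β).pow p).mul ((htd_supp a).pow q))
      fun v ↦ hfin v.val (AdmissibleAbsValues.isNonarchimedean _ v.prop)
  calc mulHeight₁ x = ((AdmissibleAbsValues.archAbsVal (K := K)).map fun v ↦ max (v x) 1).prod *
        ∏ᶠ v : AdmissibleAbsValues.nonarchAbsVal (K := K), max (v.val x) 1 := rfl
    _ ≤ ((AdmissibleAbsValues.archAbsVal (K := K)).map fun v ↦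
        W * (max (v β) 1 ^ p * max (v a) 1 ^ q)).prod *
        ∏ᶠ v : AdmissibleAbsValues.nonarchAbsVal (K := K),
        (max (v.val β) 1 ^ p * max (v.val a) 1 ^ q) := by
        refine mul_le_mul h3 h4 (finprod_nonneg fun _ ↦ by positivity)
          (Multiset.prod_map_nonneg fun _ _ ↦ by positivity)
    _ = W ^ totalWeight K * (mulHeight₁ β ^ p * mulHeight₁ a ^ q) := by
        rw [h1, h2, Height.mulHeight₁_eq, Height.mulHeight₁_eq, mul_pow, mul_pow]
        ring

theorem htd {M : Type*} [Field M] [NumberField M] {I : Type*} [Fintype I] [DecidableEq I]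
    (α β : M) (hα : α ≠ 0) (k l z t s : I → ℕ) (C R S L : ℕ) (hC1 : 1 ≤ C)
    (hC : ∀ i j, (z j).choose (k i) ≤ C) (ht : ∀ j, t j ≤ R) (hs : ∀ j, s j ≤ S) (hl : ∀ i, l i ≤ L) :
    mulHeight₁ (Matrix.of fun i j : I =>
        ((z j).choose (k i) : M) * (β ^ (t j) * (α⁻¹) ^ (s j)) ^ (l i)).det
      ≤ (((Fintype.card I).factorial : ℝ) * (C : ℝ) ^ Fintype.card I) ^ (Module.finrank ℚ M) *
        (mulHeight₁ β ^ (L * R) * mulHeight₁ α ^ (L * S)) ^ Fintype.card I := by
  set N := Fintype.card I with hN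
  set Δ := (Matrix.of fun i j : I =>
        ((z j).choose (k i) : M) * (β ^ (t j) * (α⁻¹) ^ (s j)) ^ (l i)).det with hΔ
  have hCr : (1 : ℝ) ≤ C := by exact_mod_cast hC1
  have hent : ∀ (f : AbsoluteValue M ℝ) (i j : I),
      f ((β ^ (t j) * (α⁻¹) ^ (s j)) ^ (l i)) ≤
        max (f β) 1 ^ (L * R) * max (f α⁻¹) 1 ^ (L * S) := by
    intro f i j
    have hB : (1 : ℝ) ≤ max (f β) 1 := le_max_right _ _
    have hA : (1 : ℝ) ≤ max (f α⁻¹) 1 := le_max_right _ _
    rw [map_pow, map_mul, map_pow, map_pow]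
    have h1 : f β ^ t j ≤ max (f β) 1 ^ R :=
      (pow_le_pow_left₀ (apply_nonneg f _) (le_max_left _ _) _).trans
        (pow_le_pow_right₀ hB (ht j))
    have h2 : f α⁻¹ ^ s j ≤ max (f α⁻¹) 1 ^ S :=
      (pow_le_pow_left₀ (apply_nonneg f _) (le_max_left _ _) _).trans
        (pow_le_pow_right₀ hA (hs j))
    have h3 : (1 : ℝ) ≤ max (f β) 1 ^ R * max (f α⁻¹) 1 ^ S :=
      one_le_mul_of_one_le_of_one_le (one_le_pow₀ hB) (one_le_pow₀ hA)
    calc (f β ^ t j * f α⁻¹ ^ s j) ^ l i ≤ (max (f β) 1 ^ R * max (f α⁻¹) 1 ^ S) ^ l i :=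
          pow_le_pow_left₀ (mul_nonneg (pow_nonneg (apply_nonneg f _) _)
            (pow_nonneg (apply_nonneg f _) _))
            (mul_le_mul h1 h2 (pow_nonneg (apply_nonneg f _) _) (by positivity)) _
      _ ≤ (max (f β) 1 ^ R * max (f α⁻¹) 1 ^ S) ^ L := pow_le_pow_right₀ h3 (hl i)
      _ = max (f β) 1 ^ (L * R) * max (f α⁻¹) 1 ^ (L * S) := by
          rw [mul_pow, ← pow_mul, ← pow_mul, mul_comm R, mul_comm S]
  have hge : ∀ (f : AbsoluteValue M ℝ),
      (1 : ℝ) ≤ max (f β) 1 ^ (L * R * N) * max (f α⁻¹) 1 ^ (L * S * N) := fun f =>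
    one_le_mul_of_one_le_of_one_le (one_le_pow₀ (le_max_right _ _))
      (one_le_pow₀ (le_max_right _ _))
  have hpow : ∀ (f : AbsoluteValue M ℝ),
      (max (f β) 1 ^ (L * R) * max (f α⁻¹) 1 ^ (L * S)) ^ N =
      max (f β) 1 ^ (L * R * N) * max (f α⁻¹) 1 ^ (L * S * N) := fun f => by
    rw [mul_pow, ← pow_mul, ← pow_mul]
  have hW1 : (1 : ℝ) ≤ ((N.factorial : ℝ) * (C : ℝ) ^ N) := by
    refine one_le_mul_of_one_le_of_one_le ?_ (one_le_pow₀ hCr)
    exact_mod_cast Nat.factorial_pos N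
  have hmain := htd_comb (K := M) Δ β α⁻¹ ((N.factorial : ℝ) * (C : ℝ) ^ N) (by positivity)
    (L * R * N) (L * S * N) ?_ ?_
  · rw [NumberField.totalWeight_eq_finrank, mulHeight₁_inv] at hmain
    refine hmain.trans (le_of_eq ?_)
    rw [mul_pow (mulHeight₁ β ^ (L * R)), ← pow_mul, ← pow_mul]
  · intro f
    refine max_le ?_ (one_le_mul_of_one_le_of_one_le hW1 (hge f))
    have h1 : ∀ i j : I, f ((Matrix.of fun i j : I =>
        ((z j).choose (k i) : M) * (β ^ (t j) * (α⁻¹) ^ (s j)) ^ (l i)) i j) ≤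
        C * (max (f β) 1 ^ (L * R) * max (f α⁻¹) 1 ^ (L * S)) := by
      intro i j
      rw [Matrix.of_apply, map_mul]
      refine mul_le_mul ?_ (hent f i j) (apply_nonneg f _) (by positivity)
      refine (AbsoluteValue.apply_nat_le_self f _).trans ?_
      exact_mod_cast hC i j
    have h2 := Matrix.det_le h1
    refine h2.trans (le_of_eq ?_)
    rw [nsmul_eq_mul, mul_pow, hpow f, ← mul_assoc]
  · intro f hf
    refine max_le ?_ (hge f)
    rw [hΔ, Matrix.det_apply', ← hpow f]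
    refine htd_sum f hf _ _ _ (by positivity) fun σ _ => ?_
    rw [map_mul, map_prod]
    have h1 : f (((Equiv.Perm.sign σ : ℤˣ) : ℤ) : M) = 1 := by
      rcases Int.units_eq_one_or (Equiv.Perm.sign σ) with h | h <;> rw [h] <;> simp
    rw [h1, one_mul]
    have h2 : ∀ i ∈ (Finset.univ : Finset I), f ((Matrix.of fun i j : I =>
        ((z j).choose (k i) : M) * (β ^ (t j) * (α⁻¹) ^ (s j)) ^ (l i)) (σ i) i) ≤
        max (f β) 1 ^ (L * R) * max (f α⁻¹) 1 ^ (L * S) := by
      intro i _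
      rw [Matrix.of_apply, map_mul]
      calc f ((z i).choose (k (σ i)) : M) * f ((β ^ (t i) * (α⁻¹) ^ (s i)) ^ (l (σ i)))
          ≤ 1 * (max (f β) 1 ^ (L * R) * max (f α⁻¹) 1 ^ (L * S)) :=
            mul_le_mul (IsNonarchimedean.apply_natCast_le_one hf) (hent f _ _)
              (apply_nonneg f _) zero_le_one
        _ = _ := one_mul _
    refine (Finset.prod_le_prod (fun i _ => apply_nonneg f _) h2).trans (le_of_eq ?_)
    rw [Finset.prod_const, Finset.card_univ]

end Pool.Agent.ESH
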