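import Pool.Agent.ESH.ZL
import Pool.Agent.ESH.COL
import Pool.Agent.ESH.HTD

/-!
# ESH / CMB: a non-zero interpolation determinant of small height

Notation: `D = [M:ℚ]`, `R = 96 L H`, `K = 48 H S`, `I = Fin K × Fin L`, `N = card I = K L = 48 H L S = R S / 2`.
Points `(u,s)`, `u < R`, `s < S`, `z = r u + s < r R`.

Proof.  The conditions of ZL (with `y = β`, `a = α⁻¹`) hold: `L ≤ S ≤ r`,
`L (K - 1) < 96 L H (S - L + 1)` because `S - L + 1 ≥ S/2` (`2 L ≤ S`) gives
`96 L H (S-L+1) ≥ 48 L H S = L K > L (K-1)`; so the matrix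
`A (k,l) (u,s) = choose(r u + s, k) (β^u a^s)^l` has independent rows, and COL gives `N` distinct columns with
`Δ ≠ 0`.
Height: by HTD with `C = max_{k<K} choose(rR, k)`: `choose(X,k) ≤ (eX/k)^k ≤ (eX/K)^K` for `1 ≤ k ≤ K ≤ X = rR`
(the function `k log(eX/k)` is increasing on `k ≤ X`; `K ≤ X` since `48 H S ≤ 96 L H r`).  Here
`X / K = 96 L H r/(48 H S) = 2 L r / S ≤ 384 L^2 k₀` (from `r ≤ 192 L k₀ S`), so
`log C ≤ K log(384 e L^2 k₀) ≤ K log(1152 L^2 k₀) = (N/L) log(1152 L^2 k₀) ≤ N/(48 D)` (`hL`).  Hence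
`log H(Δ) ≤ D (N log N + N log C) + N L (R h(β) + S h(α))` and
`D N log N ≤ N^2/48` (`hN`), `D N log C ≤ N^2/48`, `N L R h(β) ≤ N L R S/(96 L) = N R S/96 = N^2/48`,
`N L S h(α) ≤ N L S H = N^2/48`.  Sum `N^2/12`.
The last conclusion is the bound for `choose(rR,k)` just proved.
-/

namespace Pool.Agent.ESH

open NumberField Height

/-- `choose (X, k) ≤ exp (K (1 + log Y))` if `k ≤ K ≤ X` and `X / K ≤ Y` -/
private lemma cmb_choose (X k K : ℕ) (Y : ℝ) (hK : 0 < K) (hk : k ≤ K) (hX : K ≤ X)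
    (hY : (X : ℝ) ≤ Y * K) : (X.choose k : ℝ) ≤ Real.exp (K * (1 + Real.log Y)) := by
  have hK' : (0 : ℝ) < K := by exact_mod_cast hK
  have hX' : (0 : ℝ) < X := by exact_mod_cast hK.trans_le hX
  have hKX : (K : ℝ) ≤ X := by exact_mod_cast hX
  set t : ℝ := K / X with ht
  have ht0 : 0 < t := by positivity
  have ht1 : t ≤ 1 := by rw [ht, div_le_one hX']; exact hKX
  have htX : t * X = K := by rw [ht]; field_simp
  have hinv : t⁻¹ ≤ Y := by
    rw [ht, inv_div, div_le_iff₀ hK']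
    exact hY
  have hinv1 : 1 ≤ t⁻¹ := (one_le_inv₀ ht0).mpr ht1
  -- binomial theorem
  have h1 : (X.choose k : ℝ) * t ^ k ≤ (t + 1) ^ X := by
    rw [add_pow]
    by_cases hkX : k ≤ X
    · refine le_trans (le_of_eq ?_) (Finset.single_le_sum
        (f := fun m => t ^ m * 1 ^ (X - m) * (X.choose m : ℝ)) (fun i _ => by positivity)
        (Finset.mem_range.mpr (Nat.lt_succ_of_le hkX)))
      simp [mul_comm]
    · exact absurd (hk.trans hX) hkX
  have h2 : (t + 1) ^ X ≤ Real.exp K := by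
    calc (t + 1) ^ X ≤ (Real.exp t) ^ X :=
          pow_le_pow_left₀ (by positivity) (Real.add_one_le_exp t) _
      _ = Real.exp (X * t) := by rw [← Real.exp_nat_mul]
      _ = Real.exp K := by rw [mul_comm, htX]
  have h3 : (X.choose k : ℝ) ≤ Real.exp K * (t⁻¹) ^ k := by
    have : (X.choose k : ℝ) * t ^ k * (t⁻¹) ^ k ≤ Real.exp K * (t⁻¹) ^ k :=
      mul_le_mul_of_nonneg_right (h1.trans h2) (by positivity)
    rwa [mul_assoc, ← mul_pow, mul_inv_cancel₀ ht0.ne', one_pow, mul_one] at this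
  have h4 : (t⁻¹) ^ k ≤ Y ^ K :=
    (pow_le_pow_right₀ hinv1 hk).trans (pow_le_pow_left₀ (by positivity) hinv _)
  have hYpos : 0 < Y := lt_of_lt_of_le (by positivity) hinv
  calc (X.choose k : ℝ) ≤ Real.exp K * (t⁻¹) ^ k := h3
    _ ≤ Real.exp K * Y ^ K := mul_le_mul_of_nonneg_left h4 (Real.exp_pos _).le
    _ = Real.exp (K * (1 + Real.log Y)) := by
      rw [mul_add, mul_one, Real.exp_add, Real.exp_nat_mul (Real.log Y), Real.exp_log hYpos]

private lemma cmb_bound (k₀ H r L S : ℕ) (hk : 1 ≤ k₀) (hH : 1 ≤ H) (hL1 : 16 ≤ L)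
    (hS : 2 * L ≤ S) (hSr : S ≤ r) (hrS : r ≤ 192 * L * k₀ * S) :
    ∀ k < 48 * H * S, ((r * (96 * L * H)).choose k : ℝ) ≤
      Real.exp (48 * H * S * Real.log (1152 * (L : ℝ) ^ 2 * k₀)) := by
  intro k hkK
  have hSpos : 0 < S := by omega
  have hKpos : 0 < 48 * H * S := by positivity
  have hrS' : (r : ℝ) ≤ 192 * L * k₀ * S := by exact_mod_cast hrS
  have hLpos : (0 : ℝ) < L := by
    have : 0 < L := by omega
    exact_mod_cast this
  have hkpos : (0 : ℝ) < k₀ := by exact_mod_cast hk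
  have hKX : 48 * H * S ≤ r * (96 * L * H) := by
    calc 48 * H * S = S * (48 * 1 * H) := by ring
      _ ≤ r * (48 * 1 * H) := Nat.mul_le_mul_right _ hSr
      _ ≤ r * (96 * L * H) := by
        apply Nat.mul_le_mul_left
        apply Nat.mul_le_mul_right
        apply Nat.mul_le_mul <;> omega
  have h := cmb_choose (r * (96 * L * H)) k (48 * H * S) (384 * (L : ℝ) ^ 2 * k₀) hKpos hkK.le hKX
    (by
      push_cast
      calc (r : ℝ) * (96 * L * H) ≤ (192 * L * k₀ * S) * (96 * L * H) :=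
            mul_le_mul_of_nonneg_right hrS' (by positivity)
        _ = 384 * (L : ℝ) ^ 2 * k₀ * (48 * H * S) := by ring)
  refine h.trans ?_
  rw [Real.exp_le_exp]
  push_cast
  apply mul_le_mul_of_nonneg_left _ (by positivity)
  have h3 : (1 : ℝ) ≤ Real.log 3 := by
    rw [Real.le_log_iff_exp_le (by norm_num)]
    have := Real.exp_one_lt_d9
    linarith
  have h4 : Real.log (1152 * (L : ℝ) ^ 2 * k₀) = Real.log 3 + Real.log (384 * (L : ℝ) ^ 2 * k₀) := by
    rw [← Real.log_mul (by norm_num) (by positivity)]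
    congr 1
    ring
  rw [h4]
  linarith

private lemma cmb_fact {N : ℕ} (hN : 1 ≤ N) : Real.log (N.factorial : ℝ) ≤ N * Real.log N := by
  have h1 : (N.factorial : ℝ) ≤ (N : ℝ) ^ N := by exact_mod_cast Nat.factorial_le_pow N
  have h2 : (0 : ℝ) < N.factorial := by exact_mod_cast Nat.factorial_pos N
  calc Real.log (N.factorial : ℝ) ≤ Real.log ((N : ℝ) ^ N) := Real.log_le_log h2 h1
    _ = N * Real.log N := Real.log_pow _ _

theorem cmb {M : Type*} [Field M] [NumberField M] (k₀ H r L S : ℕ) (hk : 1 ≤ k₀) (hH : 1 ≤ H)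
    (hL1 : 16 ≤ L)
    (hL : 48 * (Module.finrank ℚ M : ℝ) * Real.log (1152 * (L : ℝ) ^ 2 * k₀) ≤ L)
    (hS : 2 * L ≤ S) (hSr : S ≤ r) (hrS : r ≤ 192 * L * k₀ * S)
    (hN : 48 * (Module.finrank ℚ M : ℝ) * Real.log (48 * H * L * S) ≤ 48 * H * L * S)
    (α β : M) (hα : α ≠ 0) (hβ : β ≠ 0) (hru : ∀ n : ℕ, 0 < n → α ^ n ≠ 1)
    (hhα : logHeight₁ α ≤ H) (hhβ : logHeight₁ β ≤ S / (96 * L)) :
    (∃ t s : Fin (48 * H * S) × Fin L → ℕ, (∀ j, t j < 96 * L * H) ∧ (∀ j, s j < S) ∧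
      (Matrix.of fun i j : Fin (48 * H * S) × Fin L =>
        ((r * t j + s j).choose (i.1 : ℕ) : M) * (β ^ (t j) * (α⁻¹) ^ (s j)) ^ (i.2 : ℕ)).det ≠ 0 ∧
      logHeight₁ (Matrix.of fun i j : Fin (48 * H * S) × Fin L =>
        ((r * t j + s j).choose (i.1 : ℕ) : M) * (β ^ (t j) * (α⁻¹) ^ (s j)) ^ (i.2 : ℕ)).det
        ≤ (48 * H * L * S : ℝ) ^ 2 / 12) ∧
    (∀ k < 48 * H * S, ((r * (96 * L * H)).choose k : ℝ) ≤
      Real.exp (48 * H * S * Real.log (1152 * (L : ℝ) ^ 2 * k₀))) := by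
  have hcb := cmb_bound k₀ H r L S hk hH hL1 hS hSr hrS
  refine ⟨?_, hcb⟩
  have hSpos : 0 < S := by omega
  have hLpos : 0 < L := by omega
  have hKpos : 0 < 48 * H * S := by positivity
  -- columns
  obtain ⟨e, -, he⟩ := exists_minor
    (I := Fin (48 * H * S) × Fin L) (J := Fin (96 * L * H) × Fin S)
    (Matrix.of fun i j =>
      ((r * (j.1 : ℕ) + (j.2 : ℕ)).choose (i.1 : ℕ) : M) *
        (β ^ (j.1 : ℕ) * (α⁻¹) ^ (j.2 : ℕ)) ^ (i.2 : ℕ))
    (by
      intro c hc
      have hz := zl (α⁻¹) β (inv_ne_zero hα) hβ (48 * H * S) L r (96 * L * H) S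
        (by
          intro i _ j _ hij
          by_contra hne
          rcases Nat.lt_or_gt_of_ne hne with hlt | hlt
          · apply hru (j - i) (by omega)
            have h1 : (α⁻¹) ^ i * (α⁻¹) ^ (j - i) = (α⁻¹) ^ i * 1 := by
              rw [← pow_add, Nat.add_sub_cancel' hlt.le, mul_one, hij]
            have h2 := mul_left_cancel₀ (pow_ne_zero i (inv_ne_zero hα)) h1
            rw [inv_pow, inv_eq_one] at h2
            exact h2
          · apply hru (i - j) (by omega)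
            have h1 : (α⁻¹) ^ j * (α⁻¹) ^ (i - j) = (α⁻¹) ^ j * 1 := by
              rw [← pow_add, Nat.add_sub_cancel' hlt.le, mul_one, hij]
            have h2 := mul_left_cancel₀ (pow_ne_zero j (inv_ne_zero hα)) h1
            rw [inv_pow, inv_eq_one] at h2
            exact h2)
        (by omega) (by omega) hSr
        (by
          have h1 : L * (48 * H * S - 1) < L * (48 * H * S) :=
            Nat.mul_lt_mul_of_pos_left (by omega) hLpos
          have h2 : L * (48 * H * S) = 48 * L * H * S := by ring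
          have h3 : 48 * L * H * S ≤ 48 * L * H * (2 * (S - L + 1)) :=
            Nat.mul_le_mul_left _ (by omega)
          have h4 : 48 * L * H * (2 * (S - L + 1)) = 96 * L * H * (S - L + 1) := by ring
          omega)
        (fun k l => c (k, l))
        (by
          intro u hu s hs
          have h1 := hc (⟨u, hu⟩, ⟨s, hs⟩)
          rw [Fintype.sum_prod_type] at h1
          refine Eq.trans ?_ h1
          refine Finset.sum_congr rfl fun k _ => Finset.sum_congr rfl fun l _ => ?_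
          simp only [Matrix.of_apply]
          ring)
      funext p
      exact congrFun (congrFun hz p.1) p.2)
  refine ⟨fun j => ((e j).1 : ℕ), fun j => ((e j).2 : ℕ), fun j => (e j).1.2, fun j => (e j).2.2,
    he, ?_⟩
  -- height
  have hcard : Fintype.card (Fin (48 * H * S) × Fin L) = 48 * H * S * L := by simp
  set N : ℕ := 48 * H * S * L with hNdef
  have hNreal : (48 * H * L * S : ℝ) = N := by
    rw [hNdef]
    push_cast
    ring
  have hNpos : 1 ≤ N := by
    rw [hNdef]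
    exact Nat.one_le_iff_ne_zero.mpr (by positivity)
  have hN0 : (0 : ℝ) < N := by exact_mod_cast hNpos
  set E : ℝ := 48 * H * S * Real.log (1152 * (L : ℝ) ^ 2 * k₀) with hE
  have hL1' : (16 : ℝ) ≤ L := by exact_mod_cast hL1
  have hk' : (1 : ℝ) ≤ k₀ := by exact_mod_cast hk
  have hlog0 : 0 ≤ Real.log (1152 * (L : ℝ) ^ 2 * k₀) := by
    apply Real.log_nonneg
    have h1 : (1 : ℝ) ≤ (L : ℝ) ^ 2 := by nlinarith
    nlinarith
  have hE0 : 0 ≤ E := by positivity
  set C : ℕ := ⌊Real.exp E⌋₊ with hC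
  have hC1 : 1 ≤ C := Nat.le_floor (by
    rw [Nat.cast_one]
    exact Real.one_le_exp hE0)
  have hCle : (C : ℝ) ≤ Real.exp E := Nat.floor_le (Real.exp_pos _).le
  have hC0 : (0 : ℝ) < C := by exact_mod_cast hC1
  have hlogC : Real.log C ≤ E := (Real.log_le_iff_le_exp hC0).mpr hCle
  have hht := htd α β hα (fun i : Fin (48 * H * S) × Fin L => (i.1 : ℕ)) (fun i => (i.2 : ℕ))
    (fun j => r * ((e j).1 : ℕ) + ((e j).2 : ℕ)) (fun j => ((e j).1 : ℕ)) (fun j => ((e j).2 : ℕ))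
    C (96 * L * H) S L hC1
    (by
      intro i j
      apply Nat.le_floor
      refine le_trans ?_ (hcb (i.1 : ℕ) i.1.2)
      have hle : r * ((e j).1 : ℕ) + ((e j).2 : ℕ) ≤ r * (96 * L * H) := by
        have h1 : ((e j).1 : ℕ) + 1 ≤ 96 * L * H := (e j).1.2
        have h2 : ((e j).2 : ℕ) ≤ r := ((e j).2.2.le).trans hSr
        calc r * ((e j).1 : ℕ) + ((e j).2 : ℕ) ≤ r * ((e j).1 : ℕ) + r := by omega
          _ = r * (((e j).1 : ℕ) + 1) := by ring
          _ ≤ r * (96 * L * H) := Nat.mul_le_mul_left _ h1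
      exact_mod_cast Nat.choose_le_choose _ hle)
    (fun j => (e j).1.2.le) (fun j => (e j).2.2.le) (fun i => i.2.2.le)
  rw [hcard] at hht
  have hA1 : (1 : ℝ) ≤ mulHeight₁ α := one_le_mulHeight₁ α
  have hB1 : (1 : ℝ) ≤ mulHeight₁ β := one_le_mulHeight₁ β
  have hA0 : (0 : ℝ) < mulHeight₁ α := by linarith
  have hB0 : (0 : ℝ) < mulHeight₁ β := by linarith
  have hF0 : (0 : ℝ) < (N.factorial : ℝ) := by exact_mod_cast Nat.factorial_pos N
  have hlog : logHeight₁ (Matrix.of fun i j : Fin (48 * H * S) × Fin L =>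
        ((r * ((e j).1 : ℕ) + ((e j).2 : ℕ)).choose (i.1 : ℕ) : M) *
          (β ^ ((e j).1 : ℕ) * (α⁻¹) ^ ((e j).2 : ℕ)) ^ (i.2 : ℕ)).det
      ≤ (Module.finrank ℚ M : ℝ) * (Real.log (N.factorial : ℝ) + N * Real.log C) +
        N * ((L * (96 * L * H) : ℕ) * logHeight₁ β + (L * S : ℕ) * logHeight₁ α) := by
    rw [logHeight₁_eq_log_mulHeight₁]
    refine (Real.log_le_log (lt_of_lt_of_le one_pos (one_le_mulHeight₁ _)) hht).trans
      (le_of_eq ?_)
    rw [Real.log_mul (by positivity) (by positivity), Real.log_pow,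
      Real.log_mul (by positivity) (by positivity), Real.log_pow, Real.log_pow,
      Real.log_mul (by positivity) (by positivity), Real.log_pow, Real.log_pow,
      logHeight₁_eq_log_mulHeight₁, logHeight₁_eq_log_mulHeight₁]
  refine hlog.trans ?_
  have hD0 : (0 : ℝ) ≤ (Module.finrank ℚ M : ℝ) := Nat.cast_nonneg _
  have hfact := cmb_fact hNpos
  rw [hNreal] at hN ⊢
  set D : ℝ := (Module.finrank ℚ M : ℝ) with hDdef
  -- the four terms
  have hL0 : (0 : ℝ) < L := by linarith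
  have hNKL : (N : ℝ) = 48 * H * S * L := by rw [hNdef]; push_cast; ring
  have t1 : D * Real.log (N.factorial : ℝ) ≤ N ^ 2 / 48 := by
    calc D * Real.log (N.factorial : ℝ) ≤ D * (N * Real.log N) :=
          mul_le_mul_of_nonneg_left hfact hD0
      _ = N * (48 * D * Real.log N) / 48 := by ring
      _ ≤ N * N / 48 := by
          apply div_le_div_of_nonneg_right _ (by norm_num)
          exact mul_le_mul_of_nonneg_left hN hN0.le
      _ = _ := by ring
  have t2 : D * (N * Real.log C) ≤ N ^ 2 / 48 := by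
    calc D * (N * Real.log C) ≤ D * (N * E) :=
          mul_le_mul_of_nonneg_left (mul_le_mul_of_nonneg_left hlogC hN0.le) hD0
      _ = N * (48 * H * S) * (48 * D * Real.log (1152 * (L : ℝ) ^ 2 * k₀)) / 48 := by
          rw [hE]; ring
      _ ≤ N * (48 * H * S) * L / 48 := by
          apply div_le_div_of_nonneg_right _ (by norm_num)
          exact mul_le_mul_of_nonneg_left hL (by positivity)
      _ = N * (48 * H * S * L) / 48 := by ring
      _ = N ^ 2 / 48 := by rw [← hNKL]; ring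
  have t3 : (N : ℝ) * ((L * (96 * L * H) : ℕ) * logHeight₁ β) ≤ N ^ 2 / 48 := by
    have h1 : ((L * (96 * L * H) : ℕ) : ℝ) * logHeight₁ β ≤ (L * (96 * L * H) : ℕ) * (S / (96 * L)) :=
      mul_le_mul_of_nonneg_left hhβ (Nat.cast_nonneg _)
    have h2 : ((L * (96 * L * H) : ℕ) : ℝ) * (S / (96 * L)) = N / 48 := by
      rw [hNKL]
      push_cast
      field_simp
    rw [h2] at h1
    calc (N : ℝ) * ((L * (96 * L * H) : ℕ) * logHeight₁ β) ≤ N * (N / 48) :=
          mul_le_mul_of_nonneg_left h1 hN0.le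
      _ = _ := by ring
  have t4 : (N : ℝ) * ((L * S : ℕ) * logHeight₁ α) ≤ N ^ 2 / 48 := by
    have h1 : ((L * S : ℕ) : ℝ) * logHeight₁ α ≤ (L * S : ℕ) * H :=
      mul_le_mul_of_nonneg_left hhα (Nat.cast_nonneg _)
    have h2 : ((L * S : ℕ) : ℝ) * H = N / 48 := by
      rw [hNKL]
      push_cast
      ring
    rw [h2] at h1
    calc (N : ℝ) * ((L * S : ℕ) * logHeight₁ α) ≤ N * (N / 48) :=
          mul_le_mul_of_nonneg_left h1 hN0.le
      _ = _ := by ring
  calc D * (Real.log (N.factorial : ℝ) + N * Real.log C) +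
        N * ((L * (96 * L * H) : ℕ) * logHeight₁ β + (L * S : ℕ) * logHeight₁ α)
      = D * Real.log (N.factorial : ℝ) + D * (N * Real.log C) +
        (N : ℝ) * ((L * (96 * L * H) : ℕ) * logHeight₁ β) + (N : ℝ) * ((L * S : ℕ) * logHeight₁ α) := by
        ring
    _ ≤ N ^ 2 / 48 + N ^ 2 / 48 + N ^ 2 / 48 + N ^ 2 / 48 := by
        exact add_le_add (add_le_add (add_le_add t1 t2) t3) t4
    _ = N ^ 2 / 12 := by ring

end Pool.Agent.ESH
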