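import Pool.Agent.ESH.TUN

/-!
# ESH / CMP: the composite valuation ring of a point

For a point `A`, `B_A = {f ∈ W | ∃ a ∈ A, f - a ∈ W.nonunits}` is a valuation ring of `Φ` (composite of `W` and of the discrete
valuation ring `A/(A ∩ W.nonunits)` of the residue field of `W`), and it is the only valuation ring `V' ≠ W` contained in `W`
which dominates `A`.

Proof.  Valuation ring: let `f ∉ B_A`, `f ∈ Φ`.  If `f ∉ W` then `f⁻¹ ∈ W.nonunits ⊆ B_A`.  If `f ∈ W`, `f ∉ W.nonunits`: by `frac`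
`f s = a`, `a, s ∈ A`, both units of `W`; `dvr`: `a ≡ t^n u`, `s ≡ t^m v` modulo `W.nonunits` (`u, v` units of `A`), and
`t` is a unit of `W` (TUN): if `n ≥ m`, `f ≡ t^(n-m) u v⁻¹ ∈ A`, so `f ∈ B_A`; otherwise `f⁻¹ ≡ t^(m-n) v u⁻¹`, `f⁻¹ ∈ B_A`.
It contains `A`; non-units of `A` are non-units of `B_A`: if `NU A a` and `a⁻¹ ∈ B_A`, then `a` is a unit of `W` and
`a⁻¹ - b ∈ W.nonunits`, `b ∈ A`, so `1 - a b ∈ A ∩ W.nonunits`, a non-unit of `A` (units of `A` are units of `W`), and `a b` is a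
non-unit of `A`, so `1` would be a non-unit (`add`).
Uniqueness: let `V' ≤ W`, `V' ≠ W` dominate `A`.  `W.nonunits ⊆ V'` (as `V' ≤ W`).  So `B_A ⊆ V'`.  Conversely let `f ∈ V' \ B_A`;
then `f` is a unit of `W`, and by the computation `f⁻¹ ≡ t^k u` with `k ≥ 1`, `u` a unit of `A`, so `f⁻¹ ∈ V'.nonunits`
(`t ∈ V'.nonunits`, and `W.nonunits ⊆ V'.nonunits`), contradicting `f ∈ V'`.
-/

namespace Pool.Agent.ESH

open Pool.Agent.Helper11

variable {C Φ : Type*} [Field C] [Field Φ] [Algebra C Φ] [FunField C Φ] [CharZero C] [IsAlgClosed C]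

private lemma cmp_nu_iff (W : ValuationSubring Φ) (x : Φ) :
    x ∈ W.nonunits ↔ x = 0 ∨ x⁻¹ ∉ W := by
  rw [ValuationSubring.mem_nonunits_iff]
  by_cases hx : x = 0
  · subst hx
    simp
  · have hv : W.valuation x ≠ 0 := (Valuation.ne_zero_iff _).mpr hx
    constructor
    · intro h
      right
      rw [← ValuationSubring.valuation_le_one_iff, map_inv₀, not_le]
      exact (one_lt_inv₀ (zero_lt_iff.mpr hv)).mpr h
    · rintro (h | h)
      · exact absurd h hx
      · rw [← ValuationSubring.valuation_le_one_iff, map_inv₀, not_le] at h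
        exact (one_lt_inv₀ (zero_lt_iff.mpr hv)).mp h

private lemma cmp_nu_le (W : ValuationSubring Φ) {x : Φ} (h : x ∈ W.nonunits) : x ∈ W := by
  rw [ValuationSubring.mem_nonunits_iff] at h
  rw [← ValuationSubring.valuation_le_one_iff]
  exact h.le

private lemma cmp_nu_add (W : ValuationSubring Φ) {x y : Φ} (hx : x ∈ W.nonunits)
    (hy : y ∈ W.nonunits) : x + y ∈ W.nonunits := by
  rw [ValuationSubring.mem_nonunits_iff] at *
  exact (W.valuation.map_add x y).trans_lt (max_lt hx hy)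

private lemma cmp_nu_neg (W : ValuationSubring Φ) {x : Φ} (hx : x ∈ W.nonunits) :
    -x ∈ W.nonunits := by
  rw [ValuationSubring.mem_nonunits_iff] at *
  rwa [Valuation.map_neg]

private lemma cmp_nu_sub (W : ValuationSubring Φ) {x y : Φ} (hx : x ∈ W.nonunits)
    (hy : y ∈ W.nonunits) : x - y ∈ W.nonunits := by
  rw [sub_eq_add_neg]
  exact cmp_nu_add W hx (cmp_nu_neg W hy)

private lemma cmp_nu_mul (W : ValuationSubring Φ) {x y : Φ} (hx : x ∈ W)
    (hy : y ∈ W.nonunits) : x * y ∈ W.nonunits := by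
  rw [ValuationSubring.mem_nonunits_iff] at *
  rw [← ValuationSubring.valuation_le_one_iff] at hx
  rw [map_mul]
  exact mul_lt_one_of_nonneg_of_lt_one_right hx zero_le hy

private lemma cmp_zero (W : ValuationSubring Φ) : (0 : Φ) ∈ W.nonunits := by
  rw [cmp_nu_iff]
  exact Or.inl rfl

/-- a unit of `W` -/
private lemma cmp_unit (W : ValuationSubring Φ) {x : Φ} (h : x ∉ W.nonunits) :
    x ≠ 0 ∧ x⁻¹ ∈ W := by
  rw [cmp_nu_iff] at h
  push Not at h
  exact h

private lemma cmp_key {V : ValuationSubring C} {W : ValuationSubring Φ} {pts : Set (Subring Φ)}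
    (h : IsMdl V W pts) {A : Subring Φ} (hA : A ∈ pts) {t : Φ} (ht : IsPar V W A t) (f : Φ)
    (hf : f ∈ W) (hfu : f ∉ W.nonunits) :
    (∃ n : ℕ, ∃ u ∈ A, f - t ^ n * u ∈ W.nonunits) ∨
    (∃ n : ℕ, 1 ≤ n ∧ ∃ u ∈ A, f⁻¹ - t ^ n * u ∈ W.nonunits) := by
  have hp : IsPt V W A := h.pt A hA
  have htW : t ∈ W := hp.le t ht.mem.1
  have htu : t ∉ W.nonunits := by
    have := tun h hA ht 0 V.zero_mem
    simpa using this
  obtain ⟨ht0, htinv⟩ := cmp_unit W htu
  obtain ⟨hf0, hfinv⟩ := cmp_unit W hfu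
  obtain ⟨a, haA, s, hsA, hsu, hfs⟩ := hp.frac f hf
  obtain ⟨hs0, hsinv⟩ := cmp_unit W hsu
  have hau : a ∉ W.nonunits := by
    intro hh
    rw [cmp_nu_iff] at hh
    rcases hh with hh | hh
    · rw [← hfs] at hh
      exact (mul_ne_zero hf0 hs0) hh
    · apply hh
      rw [← hfs, mul_inv]
      exact W.mul_mem _ _ hfinv hsinv
  obtain ⟨n, u, huA, hu0, huinv, hau'⟩ := ht.dvr a haA hau
  obtain ⟨m, v, hvA, hv0, hvinv, hsv'⟩ := ht.dvr s hsA hsu
  rcases le_total m n with hmn | hmn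
  · left
    refine ⟨n - m, u * v⁻¹, A.mul_mem huA hvinv, ?_⟩
    have e : f - t ^ (n - m) * (u * v⁻¹) =
        (v⁻¹ * (t⁻¹) ^ m) * ((a - t ^ n * u) - f * (s - t ^ m * v)) := by
      have e1 : t ^ n = t ^ (n - m) * t ^ m := by rw [← pow_add, Nat.sub_add_cancel hmn]
      have htm : t ^ m ≠ 0 := pow_ne_zero _ ht0
      rw [← hfs, e1, inv_pow]
      field_simp
      ring
    rw [e]
    apply cmp_nu_mul W
    · exact W.mul_mem _ _ (hp.le _ hvinv) (W.toSubring.pow_mem htinv m)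
    · exact cmp_nu_sub W hau' (cmp_nu_mul W hf hsv')
  · by_cases hmn' : m = n
    · left
      subst hmn'
      refine ⟨0, u * v⁻¹, A.mul_mem huA hvinv, ?_⟩
      have e : f - t ^ 0 * (u * v⁻¹) =
          (v⁻¹ * (t⁻¹) ^ m) * ((a - t ^ m * u) - f * (s - t ^ m * v)) := by
        have htm : t ^ m ≠ 0 := pow_ne_zero _ ht0
        rw [← hfs, inv_pow, pow_zero]
        field_simp
        ring
      rw [e]
      apply cmp_nu_mul W
      · exact W.mul_mem _ _ (hp.le _ hvinv) (W.toSubring.pow_mem htinv m)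
      · exact cmp_nu_sub W hau' (cmp_nu_mul W hf hsv')
    · right
      refine ⟨m - n, by omega, v * u⁻¹, A.mul_mem hvA huinv, ?_⟩
      have e : f⁻¹ - t ^ (m - n) * (v * u⁻¹) =
          (u⁻¹ * (t⁻¹) ^ n * f⁻¹) * (f * (s - t ^ m * v) - (a - t ^ n * u)) := by
        have e1 : t ^ m = t ^ (m - n) * t ^ n := by rw [← pow_add, Nat.sub_add_cancel hmn]
        have htm : t ^ n ≠ 0 := pow_ne_zero _ ht0
        rw [← hfs, e1, inv_pow]
        field_simp
        ring
      rw [e]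
      apply cmp_nu_mul W
      · exact W.mul_mem _ _ (W.mul_mem _ _ (hp.le _ huinv) (W.toSubring.pow_mem htinv n)) hfinv
      · exact cmp_nu_sub W (cmp_nu_mul W hf hsv') hau'

theorem cmp_exists {V : ValuationSubring C} {W : ValuationSubring Φ} {pts : Set (Subring Φ)}
    (h : IsMdl V W pts) {A : Subring Φ} (hA : A ∈ pts) :
    ∃ B : ValuationSubring Φ, (∀ f, f ∈ B ↔ f ∈ W ∧ ∃ a ∈ A, f - a ∈ W.nonunits) ∧ Dom A B ∧ B ≠ W := by
  have hp : IsPt V W A := h.pt A hA
  obtain ⟨t, ht⟩ := hp.par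
  have htW : t ∈ W := hp.le t ht.mem.1
  have htu : t ∉ W.nonunits := by
    have := tun h hA ht 0 V.zero_mem
    simpa using this
  obtain ⟨ht0, htinv⟩ := cmp_unit W htu
  let B : ValuationSubring Φ :=
    { carrier := {f | f ∈ W ∧ ∃ a ∈ A, f - a ∈ W.nonunits}
      mul_mem' := by
        rintro x y ⟨hx, a, ha, hxa⟩ ⟨hy, b, hb, hyb⟩
        refine ⟨W.mul_mem _ _ hx hy, a * b, A.mul_mem ha hb, ?_⟩
        have e : x * y - a * b = y * (x - a) + a * (y - b) := by ring
        rw [e]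
        exact cmp_nu_add W (cmp_nu_mul W hy hxa) (cmp_nu_mul W (hp.le a ha) hyb)
      one_mem' := ⟨W.one_mem, 1, A.one_mem, by rw [sub_self]; exact cmp_zero W⟩
      add_mem' := by
        rintro x y ⟨hx, a, ha, hxa⟩ ⟨hy, b, hb, hyb⟩
        refine ⟨W.add_mem _ _ hx hy, a + b, A.add_mem ha hb, ?_⟩
        have e : x + y - (a + b) = (x - a) + (y - b) := by ring
        rw [e]
        exact cmp_nu_add W hxa hyb
      zero_mem' := ⟨W.zero_mem, 0, A.zero_mem, by rw [sub_self]; exact cmp_zero W⟩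
      neg_mem' := by
        rintro x ⟨hx, a, ha, hxa⟩
        refine ⟨W.neg_mem _ hx, -a, A.neg_mem ha, ?_⟩
        have e : -x - -a = -(x - a) := by ring
        rw [e]
        exact cmp_nu_neg W hxa
      mem_or_inv_mem' := by
        intro f
        by_cases hf : f ∈ W
        · by_cases hfu : f ∈ W.nonunits
          · left
            exact ⟨hf, 0, A.zero_mem, by rw [sub_zero]; exact hfu⟩
          · obtain ⟨hf0, hfinv⟩ := cmp_unit W hfu
            rcases cmp_key h hA ht f hf hfu with ⟨n, u, hu, hh⟩ | ⟨n, hn, u, hu, hh⟩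
            · left
              exact ⟨hf, t ^ n * u, A.mul_mem (A.pow_mem ht.mem.1 n) hu, hh⟩
            · right
              exact ⟨hfinv, t ^ n * u, A.mul_mem (A.pow_mem ht.mem.1 n) hu, hh⟩
        · right
          have hinv : f⁻¹ ∈ W.nonunits := by
            rw [cmp_nu_iff]
            right
            rwa [inv_inv]
          exact ⟨cmp_nu_le W hinv, 0, A.zero_mem, by rw [sub_zero]; exact hinv⟩ }
  have hBmem : ∀ f, f ∈ B ↔ f ∈ W ∧ ∃ a ∈ A, f - a ∈ W.nonunits := fun f => Iff.rfl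
  have hAB : ∀ a ∈ A, a ∈ B := by
    intro a ha
    rw [hBmem]
    exact ⟨hp.le a ha, a, ha, by rw [sub_self]; exact cmp_zero W⟩
  have hdom : ∀ a, NU A a → a ∈ B.nonunits := by
    intro a hna
    rw [cmp_nu_iff]
    by_contra hcon
    push Not at hcon
    obtain ⟨ha0, hainv⟩ := hcon
    rw [hBmem] at hainv
    obtain ⟨haW, b, hb, hab⟩ := hainv
    have haA : a ∈ A := hna.1
    have hna' : a⁻¹ ∉ A := by
      rcases hna.2 with h0 | h0
      · exact absurd h0 ha0
      · exact h0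
    have h1 : 1 - a * b ∈ W.nonunits := by
      have e : 1 - a * b = a * (a⁻¹ - b) := by field_simp
      rw [e]
      exact cmp_nu_mul W (hp.le a haA) hab
    have h2 : NU A (1 - a * b) := by
      refine ⟨A.sub_mem A.one_mem (A.mul_mem haA hb), ?_⟩
      by_contra hc
      push Not at hc
      have := (cmp_nu_iff W (1 - a * b)).mp h1
      rcases this with h3 | h3
      · exact hc.1 h3
      · exact h3 (hp.le _ hc.2)
    have h3 : NU A (a * b) := by
      refine ⟨A.mul_mem haA hb, ?_⟩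
      by_contra hc
      push Not at hc
      apply hna'
      have e : a⁻¹ = b * (a * b)⁻¹ := by
        have hb0 : b ≠ 0 := by
          rintro rfl
          exact hc.1 (mul_zero a)
        field_simp
      rw [e]
      exact A.mul_mem hb hc.2
    have h4 := hp.add _ _ h2 h3
    rw [sub_add_cancel] at h4
    rcases h4.2 with h5 | h5
    · exact one_ne_zero h5
    · exact h5 (by rw [inv_one]; exact A.one_mem)
  refine ⟨B, hBmem, ⟨hAB, hdom⟩, ?_⟩
  intro hBW
  have h1 := hdom t ht.mem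
  rw [cmp_nu_iff, hBW] at h1
  rcases h1 with h1 | h1
  · exact ht0 h1
  · exact h1 htinv

theorem cmp_unique {V : ValuationSubring C} {W : ValuationSubring Φ} {pts : Set (Subring Φ)}
    (h : IsMdl V W pts) {A : Subring Φ} (hA : A ∈ pts) (V' : ValuationSubring Φ) (hV' : V' ≤ W)
    (hne : V' ≠ W) (hd : Dom A V') (f : Φ) : f ∈ V' ↔ f ∈ W ∧ ∃ a ∈ A, f - a ∈ W.nonunits := by
  have hp : IsPt V W A := h.pt A hA
  obtain ⟨t, ht⟩ := hp.par
  have hsub : ∀ x ∈ W.nonunits, x ∈ V'.nonunits := by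
    intro x hx
    rw [cmp_nu_iff] at hx ⊢
    rcases hx with hx | hx
    · exact Or.inl hx
    · exact Or.inr fun hh => hx (hV' hh)
  constructor
  · intro hf
    have hfW : f ∈ W := hV' hf
    refine ⟨hfW, ?_⟩
    by_cases hfu : f ∈ W.nonunits
    · exact ⟨0, A.zero_mem, by rw [sub_zero]; exact hfu⟩
    · obtain ⟨hf0, hfinv⟩ := cmp_unit W hfu
      rcases cmp_key h hA ht f hfW hfu with ⟨n, u, hu, hh⟩ | ⟨n, hn, u, hu, hh⟩
      · exact ⟨t ^ n * u, A.mul_mem (A.pow_mem ht.mem.1 n) hu, hh⟩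
      · exfalso
        have h1 : f⁻¹ - t ^ n * u ∈ V'.nonunits := hsub _ hh
        have h2 : t ^ n * u ∈ V'.nonunits := by
          obtain ⟨k, rfl⟩ : ∃ k, n = k + 1 := ⟨n - 1, by omega⟩
          have e : t ^ (k + 1) * u = (t ^ k * u) * t := by ring
          rw [e]
          exact cmp_nu_mul V' (hd.1 _ (A.mul_mem (A.pow_mem ht.mem.1 k) hu)) (hd.2 t ht.mem)
        have h3 := cmp_nu_add V' h1 h2
        rw [sub_add_cancel, cmp_nu_iff, inv_inv] at h3
        rcases h3 with h3 | h3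
        · exact hf0 (inv_eq_zero.mp h3)
        · exact h3 hf
  · rintro ⟨hfW, a, ha, hfa⟩
    have h1 : f - a ∈ V' := cmp_nu_le V' (hsub _ hfa)
    have h2 := V'.add_mem _ _ h1 (hd.1 a ha)
    rwa [sub_add_cancel] at h2

end Pool.Agent.ESH
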