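import Mathlib

/-!
# ESH / NUM: the numerical choices of CORN and CORA

`L = 2^20 D^2 k₀`, `S = r / (96 L k₀)` (natural division), `r ≥ (2^20 L H D k₀)^3`.

(1) `48 D log(1152 L^2 k₀) ≤ L`: `log(1152 * 2^40 D^4 k₀^3) ≤ 35 + 4 log D + 3 log k₀ ≤ 42 D k₀`, times `48 D` is
    `≤ 2016 D^2 k₀ ≤ L`.
(2) `50 log(2^16 L k₀) ≤ L` similarly.
(3) `96 L k₀ S ≤ r ≤ 192 L k₀ S` since `S ≥ 1`; `S ≤ r`; `S ≥ r/(192 L k₀) ≥ 2^50 (L H D k₀)^2 ≥ 400 L`.
(4) `N = 48 H L S`: `48 D log N ≤ N`: `H L ≤ S`, so `log N ≤ log(48 S^2) = log 48 + 2 log S ≤ 6 * S^(1/2)`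
    and `D ≤ S^(1/2)/2^20`.
(5) `100 log(2 X) ≤ N`, `X = 96 r L H ≤ 18432 L^2 k₀ H S`, so `2X ≤ 36864 S^2` (as `L^2 k₀ H ≤ S`), and
    `48 S ≥ 100 (log 36864 + 2 log S)` for `S ≥ 2^50`.
(6) `r/(2^15 L^2 k₀) ≤ S/(96 L)` from `r ≤ 192 L k₀ S` (`192*96 = 18432 ≤ 2^15`).
-/

namespace Pool.Agent.ESH

private lemma num_log_nat {x : ℝ} (hx : 1 ≤ x) : Real.log x ≤ x - 1 :=
  Real.log_le_sub_one_of_pos (by linarith)

private lemma num_log_sqrt {x : ℝ} (hx : 1 ≤ x) : Real.log x ≤ 2 * Real.sqrt x - 2 := by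
  have h0 : 0 < Real.sqrt x := Real.sqrt_pos.mpr (by linarith)
  have h1 := Real.log_le_sub_one_of_pos h0
  have h2 : Real.log (Real.sqrt x) = Real.log x / 2 := Real.log_sqrt (by linarith)
  rw [h2] at h1
  linarith

theorem num_L (D k₀ : ℕ) (hD : 1 ≤ D) (hk : 1 ≤ k₀) :
    48 * (D : ℝ) * Real.log (1152 * ((2 ^ 20 * D ^ 2 * k₀ : ℕ) : ℝ) ^ 2 * k₀)
        ≤ ((2 ^ 20 * D ^ 2 * k₀ : ℕ) : ℝ) ∧
    50 * Real.log (2 ^ 16 * ((2 ^ 20 * D ^ 2 * k₀ : ℕ) : ℝ) * k₀)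
        ≤ ((2 ^ 20 * D ^ 2 * k₀ : ℕ) : ℝ) := by
  have hD' : (1 : ℝ) ≤ D := by exact_mod_cast hD
  have hk' : (1 : ℝ) ≤ k₀ := by exact_mod_cast hk
  have hlD := num_log_nat hD'
  have hlk := num_log_nat hk'
  have hl2 : Real.log 2 < 0.6931471808 := Real.log_two_lt_d9
  have hDk : (1 : ℝ) ≤ (D : ℝ) * k₀ := by nlinarith
  have hDDk : (D : ℝ) * k₀ ≤ (D : ℝ) ^ 2 * k₀ := by nlinarith
  have hDle : (D : ℝ) ≤ (D : ℝ) * k₀ := by nlinarith
  have hkle : (k₀ : ℝ) ≤ (D : ℝ) * k₀ := by nlinarith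
  have hcast : ((2 ^ 20 * D ^ 2 * k₀ : ℕ) : ℝ) = (2 : ℝ) ^ 20 * (D : ℝ) ^ 2 * k₀ := by
    push_cast
    ring
  rw [hcast]
  constructor
  · have h1 : 1152 * ((2 : ℝ) ^ 20 * (D : ℝ) ^ 2 * k₀) ^ 2 * k₀
        ≤ 2 ^ 51 * (D : ℝ) ^ 4 * (k₀ : ℝ) ^ 3 := by
      have : 1152 * ((2 : ℝ) ^ 20 * (D : ℝ) ^ 2 * k₀) ^ 2 * k₀
        = (1152 * 2 ^ 40) * ((D : ℝ) ^ 4 * (k₀ : ℝ) ^ 3) := by ring
      rw [this, mul_assoc ((2 : ℝ) ^ 51)]
      exact mul_le_mul_of_nonneg_right (by norm_num) (by positivity)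
    have h2 : Real.log (1152 * ((2 : ℝ) ^ 20 * (D : ℝ) ^ 2 * k₀) ^ 2 * k₀)
        ≤ 51 * Real.log 2 + 4 * Real.log D + 3 * Real.log k₀ := by
      refine (Real.log_le_log (by positivity) h1).trans (le_of_eq ?_)
      rw [Real.log_mul (by positivity) (by positivity), Real.log_mul (by positivity) (by positivity),
        Real.log_pow, Real.log_pow, Real.log_pow]
      push_cast
      ring
    have h3 : Real.log (1152 * ((2 : ℝ) ^ 20 * (D : ℝ) ^ 2 * k₀) ^ 2 * k₀)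
        ≤ 36 * ((D : ℝ) * k₀) := by linarith
    calc 48 * (D : ℝ) * Real.log (1152 * ((2 : ℝ) ^ 20 * (D : ℝ) ^ 2 * k₀) ^ 2 * k₀)
        ≤ 48 * (D : ℝ) * (36 * ((D : ℝ) * k₀)) :=
          mul_le_mul_of_nonneg_left h3 (by positivity)
      _ = 1728 * ((D : ℝ) ^ 2 * k₀) := by ring
      _ ≤ 2 ^ 20 * ((D : ℝ) ^ 2 * k₀) := mul_le_mul_of_nonneg_right (by norm_num) (by positivity)
      _ = 2 ^ 20 * (D : ℝ) ^ 2 * k₀ := by ring
  · have h1 : (2 : ℝ) ^ 16 * ((2 : ℝ) ^ 20 * (D : ℝ) ^ 2 * k₀) * k₀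
        = 2 ^ 36 * (D : ℝ) ^ 2 * (k₀ : ℝ) ^ 2 := by ring
    have h2 : Real.log ((2 : ℝ) ^ 16 * ((2 : ℝ) ^ 20 * (D : ℝ) ^ 2 * k₀) * k₀)
        = 36 * Real.log 2 + 2 * Real.log D + 2 * Real.log k₀ := by
      rw [h1, Real.log_mul (by positivity) (by positivity), Real.log_mul (by positivity) (by positivity),
        Real.log_pow, Real.log_pow, Real.log_pow]
      push_cast
      ring
    rw [h2]
    nlinarith

theorem num_S (D k₀ H L r : ℕ) (hD : 1 ≤ D) (hk : 1 ≤ k₀) (hH : 1 ≤ H)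
    (hL : L = 2 ^ 20 * D ^ 2 * k₀) (hr : (2 ^ 20 * L * H * D * k₀) ^ 3 ≤ r) :
    400 * L ≤ r / (96 * L * k₀) ∧ r / (96 * L * k₀) ≤ r ∧
    96 * L * k₀ * (r / (96 * L * k₀)) ≤ r ∧ r ≤ 192 * L * k₀ * (r / (96 * L * k₀)) ∧
    48 * (D : ℝ) * Real.log (48 * H * L * ((r / (96 * L * k₀) : ℕ) : ℝ))
        ≤ 48 * H * L * ((r / (96 * L * k₀) : ℕ) : ℝ) ∧
    100 * Real.log (2 * (96 * (r : ℝ) * L * H)) ≤ 48 * H * L * ((r / (96 * L * k₀) : ℕ) : ℝ) ∧
    (r : ℝ) / (2 ^ 15 * (L : ℝ) ^ 2 * k₀) ≤ ((r / (96 * L * k₀) : ℕ) : ℝ) / (96 * L) := by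
  have hL1 : 1 ≤ L := by
    rw [hL]
    exact Nat.one_le_iff_ne_zero.mpr (by positivity)
  have hpos : 0 < 96 * L * k₀ := by positivity
  -- the basic lower bound for `S`
  have hSbig : 2 ^ 50 * (L ^ 2 * H ^ 2 * D ^ 2 * k₀ ^ 2) ≤ r / (96 * L * k₀) := by
    rw [Nat.le_div_iff_mul_le hpos]
    refine le_trans ?_ hr
    have e1 : (2 ^ 20 * L * H * D * k₀) ^ 3
        = 2 ^ 60 * (L ^ 3 * H ^ 2 * D ^ 2 * k₀ ^ 3) * (H * D) := by ring
    have e2 : 2 ^ 50 * (L ^ 2 * H ^ 2 * D ^ 2 * k₀ ^ 2) * (96 * L * k₀)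
        = (2 ^ 50 * 96) * (L ^ 3 * H ^ 2 * D ^ 2 * k₀ ^ 3) := by ring
    rw [e1, e2]
    have hHD : 1 ≤ H * D := Nat.mul_pos hH hD
    calc (2 ^ 50 * 96) * (L ^ 3 * H ^ 2 * D ^ 2 * k₀ ^ 3)
        ≤ 2 ^ 60 * (L ^ 3 * H ^ 2 * D ^ 2 * k₀ ^ 3) := Nat.mul_le_mul_right _ (by norm_num)
      _ = 2 ^ 60 * (L ^ 3 * H ^ 2 * D ^ 2 * k₀ ^ 3) * 1 := by ring
      _ ≤ 2 ^ 60 * (L ^ 3 * H ^ 2 * D ^ 2 * k₀ ^ 3) * (H * D) := Nat.mul_le_mul_left _ hHD
  set S := r / (96 * L * k₀) with hSdef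
  have hP : 1 ≤ L ^ 2 * H ^ 2 * D ^ 2 * k₀ ^ 2 := Nat.one_le_iff_ne_zero.mpr (by positivity)
  have hS1 : 1 ≤ S := by
    refine le_trans ?_ hSbig
    calc 1 ≤ 2 ^ 50 * 1 := by norm_num
      _ ≤ _ := Nat.mul_le_mul_left _ hP
  have h400 : 400 * L ≤ S := by
    refine le_trans ?_ hSbig
    have : L ≤ L ^ 2 * H ^ 2 * D ^ 2 * k₀ ^ 2 := by
      calc L = L * 1 := (mul_one L).symm
        _ ≤ L * (L * H ^ 2 * D ^ 2 * k₀ ^ 2) :=
          Nat.mul_le_mul_left _ (Nat.one_le_iff_ne_zero.mpr (by positivity))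
        _ = _ := by ring
    calc 400 * L ≤ 2 ^ 50 * L := Nat.mul_le_mul_right _ (by norm_num)
      _ ≤ _ := Nat.mul_le_mul_left _ this
  have hle : 96 * L * k₀ * S ≤ r := Nat.mul_div_le r _
  have hge : r ≤ 192 * L * k₀ * S := by
    have h1 : r < 96 * L * k₀ * (S + 1) := by
      rw [mul_comm]
      have := Nat.lt_succ_self S
      exact (Nat.div_lt_iff_lt_mul hpos).mp this
    have h2 : 96 * L * k₀ * (S + 1) ≤ 96 * L * k₀ * (2 * S) := Nat.mul_le_mul_left _ (by omega)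
    calc r ≤ 96 * L * k₀ * (2 * S) := (h1.trans_le h2).le
      _ = 192 * L * k₀ * S := by ring
  -- real versions
  have hD' : (1 : ℝ) ≤ D := by exact_mod_cast hD
  have hk' : (1 : ℝ) ≤ k₀ := by exact_mod_cast hk
  have hH' : (1 : ℝ) ≤ H := by exact_mod_cast hH
  have hL' : (1 : ℝ) ≤ L := by exact_mod_cast hL1
  have hS' : (1 : ℝ) ≤ S := by exact_mod_cast hS1
  have hge' : (r : ℝ) ≤ 192 * L * k₀ * S := by exact_mod_cast hge
  have hsq : Real.sqrt S * Real.sqrt S = S := Real.mul_self_sqrt (by linarith)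
  have hsqrt : (2 : ℝ) ^ 25 * (L * H * D * k₀) ≤ Real.sqrt S := by
    apply Real.le_sqrt_of_sq_le
    have : (2 ^ 50 * (L ^ 2 * H ^ 2 * D ^ 2 * k₀ ^ 2) : ℝ) ≤ S := by exact_mod_cast hSbig
    refine le_trans (le_of_eq ?_) this
    ring
  have hHL1 : (1 : ℝ) ≤ (H : ℝ) * L := by nlinarith
  have hlogS := num_log_sqrt hS'
  have hsD : (D : ℝ) ≤ L * H * D * k₀ := by
    have : (1 : ℝ) ≤ L * H * k₀ := by
      have : (1 : ℝ) ≤ L * H := by nlinarith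
      nlinarith
    nlinarith
  have hLHDk1 : (1 : ℝ) ≤ L * H * D * k₀ := hD'.trans hsD
  have hsqrt1 : (2 : ℝ) ^ 25 ≤ Real.sqrt S := by nlinarith
  have hsqrtD : (2 : ℝ) ^ 25 * D ≤ Real.sqrt S := by nlinarith
  have hSpos : (0 : ℝ) < S := by linarith
  have hHLS : (H : ℝ) * L ≤ S := by
    have h1 : (H : ℝ) * L ≤ L * H * D * k₀ := by
      have : (1 : ℝ) ≤ (D : ℝ) * k₀ := by nlinarith
      nlinarith
    have h2 : (L : ℝ) * H * D * k₀ ≤ Real.sqrt S := by nlinarith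
    have h3 : Real.sqrt S ≤ S := by nlinarith
    linarith
  refine ⟨h400, Nat.div_le_self _ _, hle, hge, ?_, ?_, ?_⟩
  · have h1 : 48 * (H : ℝ) * L * S ≤ 48 * (S : ℝ) ^ 2 := by nlinarith
    have h2 : Real.log (48 * H * L * S) ≤ Real.log 48 + 2 * Real.log S := by
      refine (Real.log_le_log (by positivity) h1).trans (le_of_eq ?_)
      rw [Real.log_mul (by positivity) (by positivity), Real.log_pow]
      push_cast
      ring
    have h48 : Real.log 48 ≤ 6 * Real.log 2 := by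
      have : Real.log 48 ≤ Real.log (2 ^ 6) := Real.log_le_log (by norm_num) (by norm_num)
      rwa [Real.log_pow] at this
    have hl2 : Real.log 2 < 0.6931471808 := Real.log_two_lt_d9
    have h3 : Real.log (48 * H * L * S) ≤ 5 * Real.sqrt S := by linarith
    calc 48 * (D : ℝ) * Real.log (48 * H * L * S)
        ≤ 48 * (D : ℝ) * (5 * Real.sqrt S) := mul_le_mul_of_nonneg_left h3 (by positivity)
      _ = 48 * (5 * (D : ℝ)) * Real.sqrt S := by ring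
      _ ≤ 48 * Real.sqrt S * Real.sqrt S := by
          apply mul_le_mul_of_nonneg_right _ (Real.sqrt_nonneg _)
          nlinarith
      _ = 48 * 1 * S := by rw [mul_assoc, hsq, mul_one]
      _ ≤ 48 * (H * L) * S := by
          apply mul_le_mul_of_nonneg_right _ hSpos.le
          nlinarith
      _ = 48 * H * L * S := by ring
  · have hLk : (L : ℝ) ^ 2 * k₀ * H ≤ S := by
      have h1 : (2 ^ 50 * (L ^ 2 * H ^ 2 * D ^ 2 * k₀ ^ 2) : ℝ) ≤ S := by exact_mod_cast hSbig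
      refine le_trans ?_ h1
      have e : (2 ^ 50 * (L ^ 2 * H ^ 2 * D ^ 2 * k₀ ^ 2) : ℝ)
          = (L ^ 2 * k₀ * H) * (2 ^ 50 * (H * (D * D) * k₀)) := by ring
      rw [e]
      have h2 : (1 : ℝ) ≤ 2 ^ 50 * (H * (D * D) * k₀) := by
        have h3 : (1 : ℝ) ≤ (D : ℝ) * D := by nlinarith
        have h4 : (1 : ℝ) ≤ H * ((D : ℝ) * D) := by nlinarith
        have h5 : (1 : ℝ) ≤ H * ((D : ℝ) * D) * k₀ := by nlinarith
        nlinarith
      have h6 : (0 : ℝ) ≤ (L : ℝ) ^ 2 * k₀ * H := by positivity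
      nlinarith
    have hrpos : (0 : ℝ) < r := by
      have : 0 < r := lt_of_lt_of_le (by positivity) hr
      exact_mod_cast this
    have h1 : 2 * (96 * (r : ℝ) * L * H) ≤ 36864 * (S : ℝ) ^ 2 := by
      calc 2 * (96 * (r : ℝ) * L * H) = 192 * (L * H) * r := by ring
        _ ≤ 192 * (L * H) * (192 * L * k₀ * S) :=
            mul_le_mul_of_nonneg_left hge' (by positivity)
        _ = 36864 * (L ^ 2 * k₀ * H) * S := by ring
        _ ≤ 36864 * S * S := by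
            apply mul_le_mul_of_nonneg_right _ hSpos.le
            linarith
        _ = _ := by ring
    have h2 : Real.log (2 * (96 * (r : ℝ) * L * H)) ≤ Real.log 36864 + 2 * Real.log S := by
      refine (Real.log_le_log (by positivity) h1).trans (le_of_eq ?_)
      rw [Real.log_mul (by positivity) (by positivity), Real.log_pow]
      push_cast
      ring
    have h36 : Real.log 36864 ≤ 16 * Real.log 2 := by
      have : Real.log 36864 ≤ Real.log (2 ^ 16) := Real.log_le_log (by norm_num) (by norm_num)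
      rwa [Real.log_pow] at this
    have hl2 : Real.log 2 < 0.6931471808 := Real.log_two_lt_d9
    have h3 : Real.log (2 * (96 * (r : ℝ) * L * H)) ≤ 12 * Real.sqrt S := by linarith
    calc 100 * Real.log (2 * (96 * (r : ℝ) * L * H))
        ≤ 100 * (12 * Real.sqrt S) := mul_le_mul_of_nonneg_left h3 (by norm_num)
      _ = 48 * 25 * Real.sqrt S := by ring
      _ ≤ 48 * Real.sqrt S * Real.sqrt S := by
          apply mul_le_mul_of_nonneg_right _ (Real.sqrt_nonneg _)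
          linarith
      _ = 48 * 1 * S := by rw [mul_assoc, hsq, mul_one]
      _ ≤ 48 * (H * L) * S := by
          apply mul_le_mul_of_nonneg_right _ hSpos.le
          nlinarith
      _ = 48 * H * L * S := by ring
  · rw [div_le_div_iff₀ (by positivity) (by positivity)]
    calc (r : ℝ) * (96 * L) ≤ (192 * L * k₀ * S) * (96 * L) :=
          mul_le_mul_of_nonneg_right hge' (by positivity)
      _ = 18432 * (S * (L ^ 2 * k₀)) := by ring
      _ ≤ 2 ^ 15 * (S * (L ^ 2 * k₀)) := mul_le_mul_of_nonneg_right (by norm_num) (by positivity)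
      _ = S * (2 ^ 15 * L ^ 2 * k₀) := by ring

end Pool.Agent.ESH
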