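import Pool.Agent.ESH.LIO
import Pool.Agent.ESH.BAR
import Pool.Agent.ESH.CMB
import Pool.Agent.ESH.NUM

/-!
# ESH / CORA: the core estimate at an infinite place

Proof.  `D = [M:ℚ]`, `L = 2^20 D^2 k₀`, `S = r/(96 L k₀)`, `R = 96 L H`, `K = 48 H S`, `N = K L = 48 H L S`,
`X = r R`, `a = α⁻¹`, `ε = 1/(2^16 L k₀)`.  Suppose `nInf w (α^r β - 1) ≤ exp(-(r H/k₀))`.  As `mult ≤ 2`,
`w η ≤ exp(-(r H/(2 k₀))) ≤ exp(-N)` for `η = α^r β - 1` (`N ≤ r H/(2 k₀)` from `96 L k₀ S ≤ r`).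
As in CORN, CMB gives `Δ ≠ 0`, `log H(Δ) ≤ N^2/12`, and `(β^t a^s)^l = (a^l)^z (1+η)^(t l)`, `z = r t + s < X`.
Hypotheses of BAR (with `f = w.val`): `w (a - 1) = w (α - 1)/w α ≤ 2 δ`, `δ = 1/(2^18 L^2 k₀)`, and for
`l ≤ L`, `w (a^l - 1) ≤ (1 + 2δ)^l - 1 ≤ exp(2 δ l) - 1 ≤ 4 δ L = ε` (as `2 δ L ≤ 1`);
`88 ε X ≤ N` since `X = 96 L H r ≤ 96 L H * 192 L k₀ S = 384 L k₀ N` and `88*384 ≤ 2^16`;
`choose(X, k) ≤ exp(K log(1152 L^2 k₀)) ≤ exp(N/48)` (CMB second part and `num_L`; `K = N/L`);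
`200 R L = 19200 L^2 H ≤ 48 H L S` as `S ≥ 400 L`; `N ≥ 1000`.
BAR: `w Δ ≤ (X+N)^N N! ε⁻¹^(Σk) exp(-N^2/5) exp(ε Σk)`, `Σk = L K(K-1)/2 ≤ N^2/(2L)`;
`N log(X+N) + N log N ≤ 2 N log(2X) ≤ N^2/50` (num_S, `N ≤ X`);
`Σk log(2^16 L k₀) ≤ N^2/100` (num_L second part); `ε Σk ≤ N^2/10000`.  So `w Δ ≤ exp(-N^2/8) ≤ 1` and
`nInf w Δ ≤ exp(-N^2/8)`, contradicting LIO: `nInf w Δ ≥ exp(-N^2/12)`.
-/

namespace Pool.Agent.ESH

open NumberField Height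

private lemma cora_pow {M : Type*} [Field M] (f : AbsoluteValue M ℝ) {a : M} {θ : ℝ}
    (h : f (a - 1) ≤ θ) (l : ℕ) : f (a ^ l - 1) ≤ (1 + θ) ^ l - 1 := by
  have hθ : 0 ≤ θ := (f.nonneg _).trans h
  have hfa : f a ≤ 1 + θ := by
    have h3 : a = 1 + (a - 1) := by ring
    rw [h3]
    refine (f.add_le _ _).trans ?_
    rw [f.map_one]
    linarith
  induction l with
  | zero => simp
  | succ l ih =>
    have h1 : a ^ (l + 1) - 1 = a * (a ^ l - 1) + (a - 1) := by ring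
    rw [h1]
    refine (f.add_le _ _).trans ?_
    rw [f.map_mul]
    have h2 : f a * f (a ^ l - 1) ≤ (1 + θ) * ((1 + θ) ^ l - 1) :=
      mul_le_mul hfa ih (f.nonneg _) (by linarith)
    rw [pow_succ]
    nlinarith

private lemma cora_exp {x : ℝ} (h0 : 0 ≤ x) (h1 : x ≤ 1 / 2) : Real.exp x ≤ 1 + 2 * x := by
  have h2 : Real.exp x ≤ 1 / (1 - x) :=
    Real.exp_bound_div_one_sub_of_interval h0 (by linarith)
  refine h2.trans ?_
  rw [div_le_iff₀ (by linarith)]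
  nlinarith

private lemma cora_num {N X ε L k₀ : ℝ} {n σ : ℕ} (hn : (n : ℝ) = N) (hN : 1 ≤ N) (hNX : N ≤ X)
    (hX : 100 * Real.log (2 * X) ≤ N) (hL : 16 ≤ L) (hk : 1 ≤ k₀)
    (hσ : 2 * L * σ ≤ N ^ 2) (hε : ε = 1 / (2 ^ 16 * L * k₀))
    (hLk : 50 * Real.log (2 ^ 16 * L * k₀) ≤ L) :
    (X + N) ^ n * (n.factorial : ℝ) * (ε⁻¹ ^ σ * Real.exp (-N ^ 2 / 5)) * Real.exp (ε * σ) ≤
      Real.exp (-(N ^ 2 / 8)) := by
  have hX0 : 0 < 2 * X := by linarith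
  have hN0 : 0 < N := by linarith
  have hLk0 : 0 < 2 ^ 16 * L * k₀ := by positivity
  have h1 : (X + N) ^ n ≤ Real.exp (N * Real.log (2 * X)) := by
    calc (X + N) ^ n ≤ (2 * X) ^ n := pow_le_pow_left₀ (by linarith) (by linarith) _
      _ = Real.exp (N * Real.log (2 * X)) := by
          rw [← hn, Real.exp_nat_mul, Real.exp_log hX0]
  have h2 : (n.factorial : ℝ) ≤ Real.exp (N * Real.log (2 * X)) := by
    calc (n.factorial : ℝ) ≤ ((n ^ n : ℕ) : ℝ) := by exact_mod_cast Nat.factorial_le_pow n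
      _ = (n : ℝ) ^ n := by push_cast; rfl
      _ ≤ (2 * X) ^ n := pow_le_pow_left₀ (Nat.cast_nonneg _) (by linarith) _
      _ = Real.exp (N * Real.log (2 * X)) := by
          rw [← hn, Real.exp_nat_mul, Real.exp_log hX0]
  have h3 : ε⁻¹ ^ σ = Real.exp (σ * Real.log (2 ^ 16 * L * k₀)) := by
    rw [hε, one_div, inv_inv, Real.exp_nat_mul, Real.exp_log hLk0]
  have hσ0 : (0 : ℝ) ≤ σ := Nat.cast_nonneg _
  have h4 : (σ : ℝ) * Real.log (2 ^ 16 * L * k₀) ≤ N ^ 2 / 100 := by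
    obtain ⟨ℓ, hℓ⟩ : ∃ ℓ, ℓ = Real.log (2 ^ 16 * L * k₀) := ⟨_, rfl⟩
    rw [← hℓ] at hLk ⊢
    have h5 : (σ : ℝ) * (50 * ℓ) ≤ σ * L := mul_le_mul_of_nonneg_left hLk hσ0
    nlinarith
  have h6 : ε * σ ≤ N ^ 2 / 10000 := by
    have h7 : ε ≤ 1 / 10000 := by
      rw [hε]
      refine one_div_le_one_div_of_le (by norm_num) ?_
      nlinarith
    have h8 : (σ : ℝ) ≤ N ^ 2 := by nlinarith
    have h9 : ε * σ ≤ 1 / 10000 * σ := mul_le_mul_of_nonneg_right h7 hσ0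
    linarith
  have h10 : N * Real.log (2 * X) ≤ N ^ 2 / 100 := by nlinarith
  rw [h3]
  calc (X + N) ^ n * (n.factorial : ℝ) *
        (Real.exp (σ * Real.log (2 ^ 16 * L * k₀)) * Real.exp (-N ^ 2 / 5)) * Real.exp (ε * σ)
      ≤ Real.exp (N * Real.log (2 * X)) * Real.exp (N * Real.log (2 * X)) *
        (Real.exp (σ * Real.log (2 ^ 16 * L * k₀)) * Real.exp (-N ^ 2 / 5)) *
          Real.exp (ε * σ) := by
        gcongr
    _ = Real.exp (N * Real.log (2 * X) + N * Real.log (2 * X) +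
        (σ * Real.log (2 ^ 16 * L * k₀) + -N ^ 2 / 5) + ε * σ) := by
        rw [Real.exp_add, Real.exp_add, Real.exp_add, Real.exp_add]
    _ ≤ Real.exp (-(N ^ 2 / 8)) := by
        refine Real.exp_le_exp.2 ?_
        have h11 : 0 ≤ N ^ 2 := sq_nonneg _
        linarith

private lemma cora_facts {H L S r k : ℝ} (hk : 1 ≤ k) (hH : 1 ≤ H) (hL : 2 ^ 20 ≤ L)
    (hS : 400 * L ≤ S) (hSr : S ≤ r) (h3 : 96 * L * k * S ≤ r) (h4 : r ≤ 192 * L * k * S) :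
    1000 ≤ 48 * H * L * S ∧ 48 * H * L * S ≤ r * H / (2 * k) ∧
    88 * (1 / (2 ^ 16 * L * k)) * (96 * r * L * H) ≤ 48 * H * L * S ∧
    48 * H * L * S ≤ 96 * r * L * H := by
  have hL0 : 0 < L := by linarith
  have hS0 : 0 < S := by linarith
  have hk0 : 0 < k := by linarith
  have hH0 : 0 < H := by linarith
  have hr0 : 0 < r := by linarith
  refine ⟨?_, ?_, ?_, ?_⟩
  · have h1 : (1 : ℝ) * 1 ≤ H * L := mul_le_mul hH (by linarith) (by norm_num) hH0.le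
    have h2 : (1 : ℝ) * 400 ≤ (H * L) * S :=
      mul_le_mul (by linarith) (by linarith) (by norm_num) (by positivity)
    linarith
  · rw [le_div_iff₀ (by positivity)]
    have h1 := mul_le_mul_of_nonneg_right h3 hH0.le
    linarith
  · have h1 : 88 * (1 / (2 ^ 16 * L * k)) * (96 * r * L * H) = 8448 / 65536 * (r * H / k) := by
      field_simp
      norm_num
    rw [h1]
    have h2 : r * H / k ≤ 192 * L * S * H := by
      rw [div_le_iff₀ hk0]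
      have h5 := mul_le_mul_of_nonneg_right h4 hH0.le
      linarith
    have h5 : 0 ≤ L * S * H := by positivity
    linarith
  · have h1 : L * H * S ≤ L * H * r := mul_le_mul_of_nonneg_left hSr (by positivity)
    have h2 : 0 ≤ L * H * r := by positivity
    linarith

private lemma cora_eps {L k ε δ : ℝ} (hk : 1 ≤ k) (hL : 2 ^ 20 ≤ L)
    (hε : ε = 1 / (2 ^ 16 * L * k)) (hδ : δ = 1 / (2 ^ 18 * L ^ 2 * k)) :
    0 < ε ∧ ε ≤ 1 ∧ 0 < δ ∧ 4 * δ * L = ε ∧ 2 * δ * L ≤ 1 / 4 ∧ δ ≤ 1 / 2 := by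
  have hL0 : 0 < L := by linarith
  have hk0 : 0 < k := by linarith
  have h1 : (1 : ℝ) * 1 ≤ L * k := mul_le_mul (by linarith) hk (by norm_num) hL0.le
  have h2 : ε ≤ 1 / 2 := by
    rw [hε, div_le_div_iff₀ (by positivity) (by norm_num)]
    linarith
  have h3 : 0 < ε := by rw [hε]; positivity
  have h4 : 0 < δ := by rw [hδ]; positivity
  have h5 : 4 * δ * L = ε := by
    rw [hδ, hε]
    field_simp
    norm_num
  have h6 : δ * 1 ≤ δ * L := mul_le_mul_of_nonneg_left (by linarith) h4.le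
  exact ⟨h3, by linarith, h4, h5, by linarith, by linarith⟩

private lemma cora_eta {M : Type*} [Field M] (w : InfinitePlace M) {η : M} {c : ℝ}
    (hc : 0 ≤ c) (h : nInf w η ≤ Real.exp (-(2 * c))) : w.1 η ≤ Real.exp (-c) := by
  have hmult : w.mult ≤ 2 := by
    unfold InfinitePlace.mult
    split_ifs <;> norm_num
  have hmult1 : w.mult ≠ 0 := InfinitePlace.mult_pos.ne'
  by_contra h2
  rw [not_le] at h2
  have h3 : Real.exp (-c) ^ w.mult < nInf w η := by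
    unfold nInf
    exact pow_lt_pow_left₀ h2 (Real.exp_pos _).le hmult1
  have h4 : Real.exp (-(2 * c)) ≤ Real.exp (-c) ^ w.mult := by
    rw [← Real.exp_nat_mul]
    refine Real.exp_le_exp.2 ?_
    have h5 : (w.mult : ℝ) ≤ 2 := by exact_mod_cast hmult
    nlinarith
  linarith

private lemma cora_sum {K L : ℕ} : 2 * (L : ℝ) * (∑ i : Fin K × Fin L, (i.1 : ℕ) : ℕ) ≤
    ((K : ℝ) * L) ^ 2 := by
  have h1 : ∑ i : Fin K × Fin L, (i.1 : ℕ) = L * ∑ k ∈ Finset.range K, k := by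
    rw [Fintype.sum_prod_type]
    simp only [Finset.sum_const, Finset.card_univ, Fintype.card_fin, smul_eq_mul]
    rw [← Finset.mul_sum, Fin.sum_univ_eq_sum_range (fun k => k)]
  have h2 : (∑ k ∈ Finset.range K, k) * 2 ≤ K * K := by
    rw [Finset.sum_range_id_mul_two]
    exact Nat.mul_le_mul_left _ (Nat.sub_le _ _)
  have h3 : (((∑ k ∈ Finset.range K, k : ℕ) : ℝ)) * 2 ≤ K * K := by exact_mod_cast h2
  rw [h1, Nat.cast_mul]
  calc 2 * (L : ℝ) * (L * ((∑ k ∈ Finset.range K, k : ℕ) : ℝ))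
      = (L : ℝ) ^ 2 * (((∑ k ∈ Finset.range K, k : ℕ) : ℝ) * 2) := by ring
    _ ≤ (L : ℝ) ^ 2 * (K * K) := mul_le_mul_of_nonneg_left h3 (sq_nonneg _)
    _ = ((K : ℝ) * L) ^ 2 := by ring

private lemma cora_log {L k D : ℝ} (hk : 1 ≤ k) (hL : 2 ^ 20 ≤ L) (hD : 1 ≤ D)
    (h : 48 * D * Real.log (1152 * L ^ 2 * k) ≤ L) {H S : ℝ} (hH : 0 ≤ H) (hS : 0 ≤ S) :
    48 * H * S * Real.log (1152 * L ^ 2 * k) ≤ 48 * H * L * S / 16 := by
  have h0 : 0 ≤ Real.log (1152 * L ^ 2 * k) := by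
    refine Real.log_nonneg ?_
    have h1 : (1 : ℝ) ≤ L ^ 2 := one_le_pow₀ (by linarith)
    have h2 : (1 : ℝ) * 1 ≤ L ^ 2 * k := mul_le_mul h1 hk (by norm_num) (by positivity)
    linarith
  obtain ⟨ℓ, hℓ⟩ : ∃ ℓ, ℓ = Real.log (1152 * L ^ 2 * k) := ⟨_, rfl⟩
  rw [← hℓ] at h h0 ⊢
  have h1 : ℓ ≤ D * ℓ := le_mul_of_one_le_left h0 hD
  have h2 : 48 * ℓ ≤ L := by linarith
  have h3 : 0 ≤ H * S := mul_nonneg hH hS
  have h4 := mul_le_mul_of_nonneg_left h2 h3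
  have h5 : 0 ≤ H * S * L := mul_nonneg h3 (by linarith)
  linarith

theorem core_inf {M : Type*} [Field M] [NumberField M] (D k₀ H r L : ℕ)
    (hD : D = Module.finrank ℚ M) (hk : 1 ≤ k₀) (hH : 1 ≤ H) (hL : L = 2 ^ 20 * D ^ 2 * k₀)
    (hr : (2 ^ 20 * L * H * D * k₀) ^ 3 ≤ r)
    (α β : M) (hα : α ≠ 0) (hβ : β ≠ 0) (hru : ∀ n : ℕ, 0 < n → α ^ n ≠ 1)
    (hhα : logHeight₁ α ≤ H) (hhβ : logHeight₁ β ≤ r / (2 ^ 15 * (L : ℝ) ^ 2 * k₀))
    (w : InfinitePlace M) (hw : w (α - 1) ≤ 1 / (2 ^ 18 * (L : ℝ) ^ 2 * k₀)) :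
    Real.exp (-((r : ℝ) * H / k₀)) < nInf w (α ^ r * β - 1) := by
  by_contra hcon
  rw [not_lt] at hcon
  have hD1 : 1 ≤ D := by rw [hD]; exact Module.finrank_pos
  have hLbig : 2 ^ 20 ≤ L := by
    rw [hL]
    calc 2 ^ 20 = 2 ^ 20 * 1 ^ 2 * 1 := by norm_num
      _ ≤ 2 ^ 20 * D ^ 2 * k₀ := by gcongr
  obtain ⟨hn1, hn2⟩ := num_L D k₀ hD1 hk
  rw [← hL] at hn1 hn2
  obtain ⟨hs1, hs2, hs3, hs4, hs5, hs6, hs7⟩ := num_S D k₀ H L r hD1 hk hH hL hr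
  obtain ⟨S, hS⟩ : ∃ S, S = r / (96 * L * k₀) := ⟨_, rfl⟩
  rw [← hS] at hs1 hs2 hs3 hs4 hs5 hs6 hs7
  obtain ⟨⟨t, s, ht, hs, hdet, hht⟩, hch⟩ := cmb k₀ H r L S hk hH (by omega)
    (by rw [← hD]; exact hn1) (by omega) hs2 hs4 (by rw [← hD]; exact hs5) α β hα hβ hru hhα
    (hhβ.trans hs7)
  -- real versions
  have hk' : (1 : ℝ) ≤ k₀ := by exact_mod_cast hk
  have hH' : (1 : ℝ) ≤ H := by exact_mod_cast hH
  have hL' : (2 ^ 20 : ℝ) ≤ L := by exact_mod_cast hLbig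
  have hD' : (1 : ℝ) ≤ D := by exact_mod_cast hD1
  have hS' : 400 * (L : ℝ) ≤ S := by exact_mod_cast hs1
  have hSr' : (S : ℝ) ≤ r := by exact_mod_cast hs2
  have hs3' : 96 * (L : ℝ) * k₀ * S ≤ r := by exact_mod_cast hs3
  have hs4' : (r : ℝ) ≤ 192 * L * k₀ * S := by exact_mod_cast hs4
  have hL0 : (0 : ℝ) < L := by linarith
  have hS0 : (0 : ℝ) < S := by linarith
  have hr0 : (0 : ℝ) < r := by linarith
  have hk0 : (0 : ℝ) < k₀ := by linarith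
  have hH0 : (0 : ℝ) < H := by linarith
  obtain ⟨N, hN⟩ : ∃ N : ℝ, N = 48 * H * L * S := ⟨_, rfl⟩
  have hN0 : 0 < N := by rw [hN]; positivity
  obtain ⟨hN1, hNr, hXε, hNX⟩ := cora_facts hk' hH' hL' hS' hSr' hs3' hs4'
  rw [← hN] at hN1 hNr hXε hNX
  have hcard : Fintype.card (Fin (48 * H * S) × Fin L) = 48 * H * S * L := by simp
  have hcardR : (Fintype.card (Fin (48 * H * S) × Fin L) : ℝ) = N := by
    rw [hcard, hN]
    push_cast
    ring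
  -- the absolute value of η
  obtain ⟨η, hη⟩ : ∃ η, η = α ^ r * β - 1 := ⟨_, rfl⟩
  rw [← hη] at hcon
  have hmult1 : 1 ≤ w.mult := InfinitePlace.mult_pos
  have hηN : w.1 η ≤ Real.exp (-N) := by
    have h7 : (r : ℝ) * H / k₀ = 2 * ((r : ℝ) * H / (2 * k₀)) := by
      field_simp
    rw [h7] at hcon
    refine (cora_eta w (by positivity) hcon).trans (Real.exp_le_exp.2 ?_)
    linarith
  -- the absolute value of a - 1
  obtain ⟨ε, hε⟩ : ∃ ε : ℝ, ε = 1 / (2 ^ 16 * L * k₀) := ⟨_, rfl⟩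
  obtain ⟨δ, hδ⟩ : ∃ δ : ℝ, δ = 1 / (2 ^ 18 * (L : ℝ) ^ 2 * k₀) := ⟨_, rfl⟩
  obtain ⟨hε0, hε1, hδ0, hδε, hLδ, hδ1⟩ := cora_eps hk' hL' hε hδ
  rw [← hδ] at hw
  have hfα : 1 / 2 ≤ w.1 α := by
    have h1 : (1 : ℝ) ≤ w.1 α + w.1 (α - 1) := by
      have h2 : w.1 1 ≤ w.1 α + w.1 (1 - α) := by
        have h3 : (1 : M) = α + (1 - α) := by ring
        nth_rewrite 1 [h3]
        exact w.1.add_le _ _
      rw [w.1.map_one, w.1.map_sub] at h2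
      exact h2
    have h3 : w.1 (α - 1) ≤ δ := hw
    linarith
  have ha1 : w.1 (α⁻¹ - 1) ≤ 2 * δ := by
    have h1 : α⁻¹ - 1 = (1 - α) * α⁻¹ := by
      rw [sub_mul, one_mul, mul_inv_cancel₀ hα]
    rw [h1, w.1.map_mul, w.1.map_sub, map_inv₀]
    have h2 : (w.1 α)⁻¹ ≤ 2 := by
      rw [inv_le_comm₀ (by linarith) (by norm_num)]
      linarith
    have h3 : w.1 (α - 1) ≤ δ := hw
    calc w.1 (α - 1) * (w.1 α)⁻¹ ≤ δ * 2 := mul_le_mul h3 h2 (by positivity) hδ0.le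
      _ = 2 * δ := mul_comm _ _
  have haε : ∀ i : Fin (48 * H * S) × Fin L, w.1 (α⁻¹ ^ (i.2 : ℕ) - 1) ≤ ε := by
    intro i
    have hi : ((i.2 : ℕ) : ℝ) ≤ L := by exact_mod_cast i.2.2.le
    have h1 := cora_pow w.1 ha1 (i.2 : ℕ)
    have h2 : (1 + 2 * δ) ^ (i.2 : ℕ) ≤ Real.exp ((i.2 : ℕ) * (2 * δ)) := by
      rw [Real.exp_nat_mul]
      refine pow_le_pow_left₀ (by positivity) ?_ _
      have := Real.add_one_le_exp (2 * δ)
      linarith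
    have h3 : ((i.2 : ℕ) : ℝ) * (2 * δ) ≤ 2 * δ * L := by
      rw [mul_comm (2 * δ)]
      exact mul_le_mul_of_nonneg_right hi (by positivity)
    have h4 := cora_exp (x := ((i.2 : ℕ) : ℝ) * (2 * δ)) (by positivity) (by linarith)
    linarith
  have hXR : ((r * (96 * L * H) : ℕ) : ℝ) = 96 * (r : ℝ) * L * H := by push_cast; ring
  have hbar := bar w.1 (I := Fin (48 * H * S) × Fin L) (r * (96 * L * H)) (96 * L * H) L
    (fun i => (i.1 : ℕ)) (fun i => (i.2 : ℕ)) (fun j => r * t j + s j) t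
    (by
      intro j
      have h1 := ht j
      have h2 := hs j
      calc r * t j + s j < r * t j + r := by omega
        _ = r * (t j + 1) := by ring
        _ ≤ r * (96 * L * H) := Nat.mul_le_mul_left _ h1)
    (fun j => (ht j).le) (fun i => i.2.2.le) α⁻¹ η (inv_ne_zero hα) ε hε0 hε1 haε
    (by
      have h1 : (1000 : ℝ) ≤ (Fintype.card (Fin (48 * H * S) × Fin L) : ℝ) := by
        rw [hcardR]; exact hN1
      exact_mod_cast h1)
    (by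
      rw [hcardR, hXR, hε]
      exact hXε)
    (by rw [hcardR]; exact hηN)
    (by
      intro i
      rw [hcardR]
      refine (hch (i.1 : ℕ) i.1.2).trans (Real.exp_le_exp.2 ?_)
      rw [hN]
      exact cora_log hk' hL' hD' hn1 hH0.le hS0.le)
    (by
      rw [hcard]
      calc 200 * (96 * L * H * L) = 48 * H * (400 * L) * L := by ring
        _ ≤ 48 * H * S * L := by gcongr)
  -- the two matrices agree
  have hmat : (Matrix.of fun i j : Fin (48 * H * S) × Fin L =>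
        (((r * t j + s j).choose (i.1 : ℕ) : ℕ) : M) * (α⁻¹ ^ (i.2 : ℕ)) ^ (r * t j + s j) *
          (1 + η) ^ (t j * (i.2 : ℕ))) =
      Matrix.of fun i j : Fin (48 * H * S) × Fin L =>
        ((r * t j + s j).choose (i.1 : ℕ) : M) *
          (β ^ (t j) * (α⁻¹) ^ (s j)) ^ (i.2 : ℕ) := by
    ext i j
    simp only [Matrix.of_apply]
    rw [mul_assoc]
    congr 1
    have h1 : 1 + η = α ^ r * β := by rw [hη]; ring
    rw [h1]
    have h2 : (α⁻¹ ^ (i.2 : ℕ)) ^ (r * t j + s j) * (α ^ r * β) ^ (t j * (i.2 : ℕ)) =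
        (α⁻¹ ^ (r * t j * (i.2 : ℕ)) * α ^ (r * t j * (i.2 : ℕ))) *
          (β ^ (t j) * (α⁻¹) ^ (s j)) ^ (i.2 : ℕ) := by
      ring
    rw [h2, ← mul_pow, inv_mul_cancel₀ hα, one_pow, one_mul]
  rw [hmat] at hbar
  obtain ⟨Δ, hΔ⟩ : ∃ Δ, Δ = (Matrix.of fun i j : Fin (48 * H * S) × Fin L =>
        ((r * t j + s j).choose (i.1 : ℕ) : M) *
          (β ^ (t j) * (α⁻¹) ^ (s j)) ^ (i.2 : ℕ)).det := ⟨_, rfl⟩
  rw [← hΔ] at hbar hdet hht
  have hσ : 2 * (L : ℝ) * (∑ i : Fin (48 * H * S) × Fin L, (i.1 : ℕ) : ℕ) ≤ N ^ 2 := by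
    refine (cora_sum (K := 48 * H * S) (L := L)).trans (le_of_eq ?_)
    rw [hN]
    push_cast
    ring
  have hfin := cora_num (n := Fintype.card (Fin (48 * H * S) × Fin L))
    (σ := ∑ i : Fin (48 * H * S) × Fin L, (i.1 : ℕ)) (ε := ε) (L := L) (k₀ := k₀) hcardR
    (by linarith) hNX (by rw [hN]; exact hs6) (by linarith) hk' hσ hε hn2
  rw [hXR, hcardR] at hbar
  have hΔw : w.1 Δ ≤ Real.exp (-(N ^ 2 / 8)) := hbar.trans hfin
  have hlio := lio_inf w Δ hdet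
  have hlow : Real.exp (-(N ^ 2 / 12)) ≤ nInf w Δ := by
    refine le_trans ?_ hlio
    have h1 : (mulHeight₁ Δ)⁻¹ = Real.exp (-logHeight₁ Δ) := by
      rw [Real.exp_neg, logHeight₁_eq_log_mulHeight₁, Real.exp_log (mulHeight₁_pos Δ)]
    rw [h1]
    refine Real.exp_le_exp.2 ?_
    rw [hN]
    linarith
  have hup : nInf w Δ ≤ Real.exp (-(N ^ 2 / 8)) := by
    have h1 : w.1 Δ ≤ 1 := hΔw.trans (Real.exp_le_one_iff.2 (by
      have := sq_nonneg N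
      linarith))
    have h2 : nInf w Δ = w.1 Δ ^ w.mult := rfl
    rw [h2]
    calc w.1 Δ ^ w.mult ≤ w.1 Δ ^ 1 := pow_le_pow_of_le_one (w.1.nonneg _) h1 hmult1
      _ = w.1 Δ := pow_one _
      _ ≤ Real.exp (-(N ^ 2 / 8)) := hΔw
  have h9 := Real.exp_le_exp.1 (hlow.trans hup)
  have h10 : 0 < N ^ 2 := by positivity
  linarith

end Pool.Agent.ESH
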