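import Pool.Agent.ESH.LIO
import Pool.Agent.ESH.BNA
import Pool.Agent.ESH.CMB
import Pool.Agent.ESH.NUM

/-!
# ESH / CORN: the core estimate at a finite place

Proof.  `D = [M:ℚ]`, `L = 2^20 D^2 k₀`, `S = r/(96 L k₀)`, `R = 96 L H`, `N = 48 H L S`, `X = r R`, `a = α⁻¹`.
Suppose `v (α^r β - 1) ≤ exp(-(r H/k₀))`.  By NUM, CMB applies (`hhβ`: NUM (6)); let `Δ ≠ 0` be the
determinant, `log H(Δ) ≤ N^2/12`.  With `η = α^r β - 1` and `z = r t + s`:
`(β^t a^s)^l = (a^l)^z (1+η)^(t l)` because `a^(r t + s) (α^r β)^t = β^t a^s`.  `N ≤ r H/(2 k₀)`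
(from `96 L k₀ S ≤ r`), so `v η ≤ exp(-2N) ≤ (1/4)^N`; `v (a - 1) = v (α - 1) ≤ 1/4` as `v α = 1`.  BNA:
`v Δ ≤ 4^(∑ k_i)/4^(N(N-1)/2)` with `∑ k_i = L K (K-1)/2 ≤ N K/2 = N^2/(2L)`, so, as `L ≥ 16`, `N ≥ 16`,
`v Δ ≤ exp(-N^2/8)`.  But LIO: `v Δ ≥ exp(-N^2/12)`.  Contradiction.
(The absolute value of `v` is `v.val`, non-archimedean by `NumberField.FinitePlace.add_le`.)
-/

namespace Pool.Agent.ESH

open NumberField Height

private lemma corn_final (N Sk l : ℝ) (hl : 1 ≤ l) (hN : 16 ≤ N) (hS : 32 * Sk ≤ N * N)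
    (h : -(N ^ 2 / 12) ≤ Sk * l - N * (N - 1) / 2 * l) : False := by
  have h1 : Sk - N * (N - 1) / 2 ≤ -(7 / 16) * N ^ 2 := by nlinarith
  have h2 : 0 < N ^ 2 := by positivity
  have h3 : (Sk - N * (N - 1) / 2) * l ≤ (-(7 / 16) * N ^ 2) * l :=
    mul_le_mul_of_nonneg_right h1 (by linarith)
  have h4 : (-(7 / 16) * N ^ 2) * l ≤ -(7 / 16) * N ^ 2 := by nlinarith
  have h5 : Sk * l - N * (N - 1) / 2 * l = (Sk - N * (N - 1) / 2) * l := by ring
  rw [h5] at h
  linarith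

theorem core_fin {M : Type*} [Field M] [NumberField M] (D k₀ H r L : ℕ)
    (hD : D = Module.finrank ℚ M) (hk : 1 ≤ k₀) (hH : 1 ≤ H) (hL : L = 2 ^ 20 * D ^ 2 * k₀)
    (hr : (2 ^ 20 * L * H * D * k₀) ^ 3 ≤ r)
    (α β : M) (hα : α ≠ 0) (hβ : β ≠ 0) (hru : ∀ n : ℕ, 0 < n → α ^ n ≠ 1)
    (hhα : logHeight₁ α ≤ H) (hhβ : logHeight₁ β ≤ r / (2 ^ 15 * (L : ℝ) ^ 2 * k₀))
    (v : FinitePlace M) (hv : v (α - 1) ≤ 1 / 4) :
    Real.exp (-((r : ℝ) * H / k₀)) < v (α ^ r * β - 1) := by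
  classical
  by_contra hcon
  push Not at hcon
  have hD1 : 1 ≤ D := by
    rw [hD]
    exact Module.finrank_pos
  have hL16 : 16 ≤ L := by
    rw [hL]
    have : 1 ≤ D ^ 2 * k₀ := Nat.one_le_iff_ne_zero.mpr (by positivity)
    nlinarith
  obtain ⟨hnL1, hnL2⟩ := num_L D k₀ hD1 hk
  rw [← hL] at hnL1 hnL2
  obtain ⟨s1, s2, s3, s4, s5, s6, s7⟩ := num_S D k₀ H L r hD1 hk hH hL hr
  set S : ℕ := r / (96 * L * k₀) with hSdef
  have hSpos : 1 ≤ S := by omega
  have hD' : (Module.finrank ℚ M : ℝ) = (D : ℝ) := by rw [hD]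
  obtain ⟨⟨t, s, ht, hs, hΔ0, hΔh⟩, -⟩ := cmb (M := M) k₀ H r L S hk hH hL16
    (by rw [hD']; exact hnL1) (by omega) s2 s4 (by rw [hD']; exact s5) α β hα hβ hru hhα
    (hhβ.trans s7)
  set Δ := (Matrix.of fun i j : Fin (48 * H * S) × Fin L =>
        ((r * t j + s j).choose (i.1 : ℕ) : M) * (β ^ (t j) * (α⁻¹) ^ (s j)) ^ (i.2 : ℕ)).det with hΔdef
  -- rewrite the determinant
  set η : M := α ^ r * β - 1 with hη
  have h1η : 1 + η = α ^ r * β := by rw [hη]; ring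
  have hΔeq : Δ = (Matrix.of fun i j : Fin (48 * H * S) × Fin L =>
        ((r * t j + s j).choose (i.1 : ℕ) : M) * ((α⁻¹) ^ (i.2 : ℕ)) ^ (r * t j + s j) *
          (1 + η) ^ (t j * (i.2 : ℕ))).det := by
    rw [hΔdef]
    congr 2
    ext i j
    rw [h1η]
    rw [mul_assoc (((r * t j + s j).choose (i.1 : ℕ) : ℕ) : M)]
    congr 1
    rw [mul_pow, mul_pow, ← pow_mul, ← pow_mul, ← pow_mul, ← pow_mul, inv_pow, inv_pow]
    have e1 : α ^ ((i.2 : ℕ) * (r * t j + s j)) = α ^ (r * (t j * (i.2 : ℕ))) * α ^ (s j * (i.2 : ℕ)) := by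
      rw [← pow_add]
      congr 1
      ring
    rw [e1]
    have hα1 : α ^ (r * (t j * (i.2 : ℕ))) ≠ 0 := pow_ne_zero _ hα
    have hα2 : α ^ (s j * (i.2 : ℕ)) ≠ 0 := pow_ne_zero _ hα
    field_simp
  -- the absolute value
  have hnon : IsNonarchimedean (v.val : AbsoluteValue M ℝ) := fun x y => FinitePlace.add_le v x y
  have hvα : v α = 1 := by
    apply le_antisymm
    · have h := FinitePlace.add_le v (α - 1) 1
      rw [sub_add_cancel, map_one] at h
      exact h.trans (max_le (by linarith) le_rfl)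
    · have h := FinitePlace.add_le v (-(α - 1)) α
      have e : -(α - 1) + α = 1 := by ring
      have hneg : v (-(α - 1)) = v (α - 1) := v.val.map_neg _
      rw [e, map_one, hneg] at h
      rcases le_max_iff.mp h with h | h
      · linarith
      · exact h
  have ha : v.val (α⁻¹ - 1) ≤ 1 / 4 := by
    have e : α⁻¹ - 1 = -(α - 1) * α⁻¹ := by field_simp; ring
    have : v (α⁻¹ - 1) ≤ 1 / 4 := by
      rw [e, map_mul, map_inv₀, hvα]
      have hneg : v (-(α - 1)) = v (α - 1) := v.val.map_neg _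
      rw [hneg]
      simpa using hv
    exact this
  have hcard : Fintype.card (Fin (48 * H * S) × Fin L) = 48 * H * S * L := by simp
  have hNr : (0 : ℝ) < 48 * H * S * L := by
    have : 0 < 48 * H * S * L := by positivity
    exact_mod_cast this
  have hkpos : (0 : ℝ) < (k₀ : ℝ) := by exact_mod_cast hk
  have hηle : v.val η ≤ (1 / 4 : ℝ) ^ Fintype.card (Fin (48 * H * S) × Fin L) := by
    rw [hcard]
    have h1 : v η ≤ Real.exp (-((r : ℝ) * H / k₀)) := hcon
    have h2 : Real.exp (-((r : ℝ) * H / k₀)) ≤ (1 / 4 : ℝ) ^ (48 * H * S * L) := by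
      have h3 : (2 : ℝ) * (48 * H * S * L) ≤ (r : ℝ) * H / k₀ := by
        rw [le_div_iff₀ hkpos]
        have h4 : (96 * L * k₀ * S : ℝ) ≤ (r : ℝ) := by exact_mod_cast s3
        have hH0 : (0 : ℝ) ≤ (H : ℝ) := by positivity
        nlinarith
      have h5 : (1 / 4 : ℝ) ^ (48 * H * S * L) = Real.exp (-((48 * H * S * L : ℕ) : ℝ) * Real.log 4) := by
        rw [mul_comm (-((48 * H * S * L : ℕ) : ℝ)) (Real.log 4), Real.exp_mul,
          Real.exp_log (by norm_num), Real.rpow_neg (by norm_num), Real.rpow_natCast]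
        rw [one_div, inv_pow]
      rw [h5]
      apply Real.exp_le_exp.mpr
      have hlog : Real.log 4 ≤ 2 := by
        have : Real.log 4 = 2 * Real.log 2 := by
          rw [show (4 : ℝ) = 2 ^ 2 by norm_num, Real.log_pow]; norm_num
        rw [this]
        linarith [Real.log_two_lt_d9]
      push_cast
      nlinarith
    exact h1.trans h2
  have hz : ∀ j, r * t j + s j < r * (96 * L * H) := by
    intro j
    have h1 := ht j
    have h2 := hs j
    calc r * t j + s j < r * t j + r := by omega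
      _ = r * (t j + 1) := by ring
      _ ≤ r * (96 * L * H) := Nat.mul_le_mul_left _ h1
  have hB := bna (v.val : AbsoluteValue M ℝ) hnon (r * (96 * L * H))
    (fun i : Fin (48 * H * S) × Fin L => (i.1 : ℕ)) (fun i => (i.2 : ℕ)) (fun j => r * t j + s j) t hz
    (α⁻¹) η ha hηle
  rw [← hΔeq, hcard] at hB
  -- Liouville
  have hLio := lio_fin v Δ hΔ0
  have hLio' : Real.exp (-((48 * H * L * S : ℝ) ^ 2 / 12)) ≤ v Δ := by
    refine le_trans ?_ hLio
    have hpos : 0 < mulHeight₁ Δ := mulHeight₁_pos Δ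
    have : mulHeight₁ Δ = Real.exp (logHeight₁ Δ) := by
      rw [logHeight₁, Real.exp_log hpos]
    rw [this, ← Real.exp_neg]
    exact Real.exp_le_exp.mpr (by linarith)
  have hBB : v Δ ≤ 4 ^ (∑ i : Fin (48 * H * S) × Fin L, (i.1 : ℕ)) /
      4 ^ (48 * H * S * L * (48 * H * S * L - 1) / 2) := hB
  set N : ℕ := 48 * H * S * L with hN
  set Sk : ℕ := ∑ i : Fin (48 * H * S) × Fin L, (i.1 : ℕ) with hSk
  have hN16 : 16 ≤ N := by
    rw [hN]
    have h1 : 1 ≤ 48 * H * S := Nat.one_le_iff_ne_zero.mpr (by positivity)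
    calc 16 = 1 * 16 := by norm_num
      _ ≤ 48 * H * S * L := Nat.mul_le_mul h1 hL16
  have hSle : 32 * Sk ≤ N * N := by
    have h1 : Sk ≤ ∑ _i : Fin (48 * H * S) × Fin L, (48 * H * S - 1) := by
      rw [hSk]
      exact Finset.sum_le_sum fun i _ => by have := i.1.2; omega
    have h2 : Sk * 2 ≤ L * ((48 * H * S) * (48 * H * S)) := by
      rw [hSk, Fintype.sum_prod_type]
      simp only [Finset.sum_const, Finset.card_univ, Fintype.card_fin, smul_eq_mul]
      rw [← Finset.mul_sum, mul_assoc, Fin.sum_univ_eq_sum_range (fun i => i) (48 * H * S)]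
      apply Nat.mul_le_mul_left
      rw [Finset.sum_range_id_mul_two]
      exact Nat.mul_le_mul_left _ (Nat.sub_le _ _)
    have h3 : 16 * (L * ((48 * H * S) * (48 * H * S))) ≤ N * N := by
      rw [hN]
      calc 16 * (L * ((48 * H * S) * (48 * H * S))) ≤ L * (L * ((48 * H * S) * (48 * H * S))) :=
            Nat.mul_le_mul_right _ hL16
        _ = 48 * H * S * L * (48 * H * S * L) := by ring
    nlinarith
  have hP : (N : ℝ) * (N - 1) / 2 = ((N * (N - 1) / 2 : ℕ) : ℝ) := by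
    have hdvd : 2 ∣ N * (N - 1) := (Nat.even_mul_pred_self N).two_dvd
    rw [Nat.cast_div hdvd (by norm_num)]
    push_cast [Nat.cast_sub (show 1 ≤ N by omega)]
    ring
  have h4eq : ∀ n : ℕ, (4 : ℝ) ^ n = Real.exp (n * Real.log 4) := by
    intro n
    rw [mul_comm, Real.exp_mul, Real.exp_log (by norm_num), Real.rpow_natCast]
  rw [h4eq, h4eq, ← Real.exp_sub] at hBB
  have hfinal := hLio'.trans hBB
  rw [Real.exp_le_exp, ← hP] at hfinal
  have hlog4 : (1 : ℝ) ≤ Real.log 4 := by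
    have : Real.log 4 = 2 * Real.log 2 := by
      rw [show (4 : ℝ) = 2 ^ 2 by norm_num, Real.log_pow]; norm_num
    rw [this]
    linarith [Real.log_two_gt_d9]
  have hNR : (48 * H * L * S : ℝ) = (N : ℝ) := by
    rw [hN]; push_cast; ring
  rw [hNR] at hfinal
  have hSR : 32 * (Sk : ℝ) ≤ (N : ℝ) * N := by exact_mod_cast hSle
  have hN16R : (16 : ℝ) ≤ (N : ℝ) := by exact_mod_cast hN16
  exact corn_final (N : ℝ) (Sk : ℝ) (Real.log 4) hlog4 hN16R hSR (by linarith)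

end Pool.Agent.ESH
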