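import Pool.Agent.ESH.DefsS

/-!
# ESH / CPA: the special fibre of a chart

`cpa_prime`: `k = ResidueField O`; `k ⊗ B` is a domain (`geo`), and it is isomorphic to `B/πB` (`O/𝔪 ⊗ B`).
`cpa_inj`: `B` is smooth, so flat over `O`, so torsion-free, and it is not zero.  `cpa_noeth`: finite type over a noetherian ring.
`cpl_nu`: in `locP F q`, `b/s` is a unit iff `b ∉ q`.
-/

namespace Pool.Agent.ESH

open Polynomial IsLocalRing

universe u

variable {O B F : Type u} [CommRing O] [IsDomain O] [IsDiscreteValuationRing O] [CommRing B] [IsDomain B]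
  [Field F] [Algebra O B] [Algebra B F] [Algebra O F] {q : Ideal B}


theorem cpa_prime (h : IsChart O B F q) : (sfI O B).IsPrime := by
  have h1 : IsDomain (TensorProduct O (O ⧸ maximalIdeal O) B) := by
    have := h.geo (ResidueField O) (fun c hc => by
      rw [ResidueField.algebraMap_eq, residue_eq_zero_iff]; exact hc)
    exact this
  have e := Algebra.TensorProduct.quotIdealMapEquivQuotTensor B (maximalIdeal O)
  have h2 : IsDomain (B ⧸ sfI O B) := e.toMulEquiv.isDomain _
  exact (Ideal.Quotient.isDomain_iff_prime _).1 h2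

theorem cpa_inj (h : IsChart O B F q) : Function.Injective (algebraMap O B) := by
  have h1 : Algebra.IsStandardSmoothOfRelativeDimension 1 O B := h.smooth
  have h2 : Algebra.IsStandardSmooth O B := Algebra.IsStandardSmoothOfRelativeDimension.isStandardSmooth 1
  have h3 : Module.Flat O B := inferInstance
  exact FaithfulSMul.algebraMap_injective O B

theorem cpa_noeth (h : IsChart O B F q) : IsNoetherianRing B := by
  have h1 : Algebra.IsStandardSmoothOfRelativeDimension 1 O B := h.smooth
  have h2 : Algebra.IsStandardSmooth O B := Algebra.IsStandardSmoothOfRelativeDimension.isStandardSmooth 1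
  have h3 : Algebra.FiniteType O B := inferInstance
  exact Algebra.FiniteType.isNoetherianRing O B

theorem cpl_nu [hq : q.IsPrime] [IsFractionRing B F] (f : F) :
    NU (locP F q) f ↔ ∃ b ∈ q, ∃ s : B, s ∉ q ∧ f * algebraMap B F s = algebraMap B F b := by
  have hinj := IsFractionRing.injective B F
  have h0 : ∀ b : B, b ∉ q → algebraMap B F b ≠ 0 := by
    intro b hb hz
    apply hb
    have : b = 0 := hinj (by rw [hz, map_zero])
    rw [this]
    exact q.zero_mem
  constructor
  · rintro ⟨⟨b, s, hs, hf⟩, h1⟩
    refine ⟨b, ?_, s, hs, hf⟩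
    by_contra hb
    have hf0 : f ≠ 0 := by
      rintro rfl
      rw [zero_mul] at hf
      exact h0 b hb hf.symm
    rcases h1 with h1 | h1
    · exact hf0 h1
    · apply h1
      refine ⟨s, b, hb, ?_⟩
      rw [← hf, inv_mul_cancel_left₀ hf0]
  · rintro ⟨b, hb, s, hs, hf⟩
    refine ⟨⟨b, s, hs, hf⟩, ?_⟩
    by_contra hcon
    rw [not_or, not_not] at hcon
    obtain ⟨hf0, b', s', hs', hf'⟩ := hcon
    have h1 : algebraMap B F (s * s') = algebraMap B F (b * b') := by
      rw [map_mul, map_mul, ← hf, ← hf']
      field_simp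
    have h2 : s * s' = b * b' := hinj h1
    have h3 : s * s' ∈ q := by rw [h2]; exact q.mul_mem_right _ hb
    exact (hq.mem_or_mem h3).elim hs hs'

end Pool.Agent.ESH
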