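import Pool.Agent.ESH.DefsS

/-!
# ESH / CPD: the derivation d/dτ

Regard `B` as an `O[X]`-algebra by `aeval τ`, formally etale.  `KaehlerDifferential.tensorKaehlerEquivOfFormallyEtale`
identifies `B ⊗ Ω[O[X]/O]` with `Ω[B/O]`, and `Ω[O[X]/O]` is free on `dX`; so there is an `O`-derivation `D₀ : B → B` with
`D₀ τ = 1`.  It extends to the fraction field `F` (quotient rule; or: `F` is formally etale over `B`), and it is `K`-linear because
`K` is the fraction field of `O`: for `c ∈ O`, `c ≠ 0`, `D(c⁻¹ f) = c⁻¹ D f`.  (Note `algebraMap O F c ≠ 0` for `c ≠ 0`, as `K → F` is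
injective.)
-/

namespace Pool.Agent.ESH

open Polynomial IsLocalRing

universe u

/-- derivations extend along formally etale maps -/
theorem cpd_ext (R S T : Type*) [CommRing R] [CommRing S] [CommRing T] [Algebra R S] [Algebra R T]
    [Algebra S T] [IsScalarTower R S T] [Algebra.FormallyEtale S T] (D : Derivation R S S) :
    ∃ D' : Derivation R T T, ∀ s : S, D' (algebraMap S T s) = algebraMap S T (D s) := by
  let e := KaehlerDifferential.tensorKaehlerEquivOfFormallyEtale R S T
  let L : Ω[T⁄R] →ₗ[T] T := (TensorProduct.AlgebraTensorModule.rid S T T).toLinearMap ∘ₗ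
    (LinearMap.baseChange T D.liftKaehlerDifferential) ∘ₗ e.symm.toLinearMap
  refine ⟨L.compDer (KaehlerDifferential.D R T), fun s => ?_⟩
  change (TensorProduct.AlgebraTensorModule.rid S T T) ((LinearMap.baseChange T D.liftKaehlerDifferential)
    (e.symm (KaehlerDifferential.D R T (algebraMap S T s)))) = _
  rw [KaehlerDifferential.tensorKaehlerEquivOfFormallyEtale_symm_D_algebraMap, LinearMap.baseChange_tmul,
    Derivation.liftKaehlerDifferential_comp_D]
  simp [Algebra.smul_def]

variable {O B F : Type u} [CommRing O] [IsDomain O] [IsDiscreteValuationRing O] [CommRing B] [IsDomain B]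
  [Field F] [Algebra O B] [Algebra B F] [Algebra O F] {q : Ideal B}

variable {K : Type*} [Field K] [Algebra O K] [IsFractionRing O K] [Algebra K F] [IsScalarTower O K F]

omit [IsDomain O] [IsDiscreteValuationRing O] [IsDomain B] in
theorem cpd_B (τ : B) (hτ : ((aeval τ : O[X] →ₐ[O] B) : O[X] →+* B).Etale) :
    ∃ D : Derivation O B B, D τ = 1 := by
  let φ : O[X] →+* B := ((aeval τ : O[X] →ₐ[O] B) : O[X] →+* B)
  let _ : Algebra O[X] B := φ.toAlgebra
  have hs : IsScalarTower O O[X] B := IsScalarTower.of_algebraMap_eq (fun x => by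
    change _ = aeval τ (C x)
    rw [aeval_C])
  have hE : Algebra.Etale O[X] B := hτ
  have hFE : Algebra.FormallyEtale O[X] B := inferInstance
  obtain ⟨D, hD⟩ := cpd_ext O O[X] B (Polynomial.derivative' : Derivation O O[X] O[X])
  refine ⟨D, ?_⟩
  have h1 := hD X
  have h2 : algebraMap O[X] B X = τ := by
    change aeval τ X = τ
    rw [aeval_X]
  rw [h2] at h1
  rw [h1]
  change algebraMap O[X] B (derivative X) = 1
  rw [derivative_X, map_one]

theorem cpd [IsScalarTower O B F] [IsFractionRing B F] (τ : B)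
    (hτ : ((aeval τ : O[X] →ₐ[O] B) : O[X] →+* B).Etale) :
    ∃ D : Derivation K F F, D (algebraMap B F τ) = 1 ∧
      ∀ b : B, ∃ b' : B, D (algebraMap B F b) = algebraMap B F b' := by
  obtain ⟨D₀, hD₀⟩ := cpd_B (O := O) τ hτ
  have hFE : Algebra.FormallyEtale B F := Algebra.FormallyEtale.of_isLocalization (nonZeroDivisors B)
  obtain ⟨D₁, hD₁⟩ := cpd_ext O B F D₀
  have hO : ∀ c : O, D₁ (algebraMap O F c) = 0 := fun c => D₁.map_algebraMap c
  have hOF : ∀ c : O, c ≠ 0 → algebraMap O F c ≠ 0 := by
    intro c hc hz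
    apply hc
    rw [IsScalarTower.algebraMap_apply O K F, map_eq_zero] at hz
    exact IsFractionRing.injective O K (by rw [hz, map_zero])
  have hK : ∀ c : K, D₁ (algebraMap K F c) = 0 := by
    intro c
    obtain ⟨a, b, hb, rfl⟩ := IsFractionRing.div_surjective (A := O) c
    have hb0 : algebraMap O F b ≠ 0 := hOF b (nonZeroDivisors.ne_zero hb)
    have h1 : algebraMap O F b * algebraMap K F (algebraMap O K a / algebraMap O K b) =
        algebraMap O F a := by
      rw [map_div₀, ← IsScalarTower.algebraMap_apply, ← IsScalarTower.algebraMap_apply,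
        mul_div_cancel₀ _ hb0]
    have h2 := congrArg D₁ h1
    rw [D₁.leibniz, hO, hO, smul_zero, add_zero, smul_eq_mul] at h2
    exact (mul_eq_zero.1 h2).resolve_left hb0
  let L : F →ₗ[K] F :=
    { toFun := D₁
      map_add' := fun x y => map_add D₁ x y
      map_smul' := fun c x => by
        rw [Algebra.smul_def, D₁.leibniz, hK, smul_zero, add_zero, RingHom.id_apply, smul_eq_mul,
          ← Algebra.smul_def] }
  refine ⟨Derivation.mk' L (fun x y => D₁.leibniz x y), ?_, fun b => ⟨D₀ b, ?_⟩⟩
  · change D₁ (algebraMap B F τ) = 1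
    rw [hD₁, hD₀, map_one]
  · exact hD₁ b

end Pool.Agent.ESH
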