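import Pool.Agent.ESH.DefsS

/-!
# ESH / CPE: etale coordinate

`Algebra.IsStandardSmoothOfRelativeDimension.exists_etale_mvPolynomial` with `n = 1`, and `MvPolynomial (Fin 1) O ≃ O[X]`
(composition of an isomorphism with an etale map is etale).
-/

namespace Pool.Agent.ESH

open Polynomial IsLocalRing

universe u

variable {O B F : Type u} [CommRing O] [IsDomain O] [IsDiscreteValuationRing O] [CommRing B] [IsDomain B]
  [Field F] [Algebra O B] [Algebra B F] [Algebra O F] {q : Ideal B}


theorem cpe (h : Algebra.IsStandardSmoothOfRelativeDimension 1 O B) :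
    ∃ τ : B, ((aeval τ : O[X] →ₐ[O] B) : O[X] →+* B).Etale := by
  obtain ⟨g, hg⟩ := Algebra.IsStandardSmoothOfRelativeDimension.exists_etale_mvPolynomial 1 O B
  let e : O[X] ≃ₐ[O] MvPolynomial (Fin 1) O := (MvPolynomial.uniqueAlgEquiv O (Fin 1)).symm
  have he : (e : O[X] →+* MvPolynomial (Fin 1) O).Etale := RingHom.Etale.of_bijective e.bijective
  have h1 := RingHom.Etale.stableUnderComposition _ _ he hg
  refine ⟨g (MvPolynomial.X 0), ?_⟩
  convert h1 using 1
  apply Polynomial.ringHom_ext
  · intro a
    simp [e]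
  · simp [e]

end Pool.Agent.ESH
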