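import Pool.Agent.ESH.CPW

/-!
# ESH / CPG: the residue field of O is algebraically closed in the function field of the special fibre

Let `k = ResidueField O`, `R = B/πB`, `κ` the fraction field of the domain
`R = k ⊗ B`.  Let `f ∈ W₀` be a root modulo
`W₀.nonunits` of a monic polynomial over `O`, so `f̄ ∈ κ` is algebraic over `k`; let `p̄` be its minimal polynomial (irreducible),
`k' = k[X]/(p̄)` (`AdjoinRoot`, same universe).  By `geo` `k' ⊗_O B` is a domain, and `R[X]/(p̄)` embeds into it, so is a domain.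
But `f̄ = b/s`, `p̄ = (X - f̄) h̄` in `κ[X]`; clearing denominators gives two non-zero elements of
`R[X]/(p̄)` with product zero if `deg p̄ ≥ 2`.
-/

namespace Pool.Agent.ESH

open Polynomial IsLocalRing

universe u

private theorem cpg_alg {k R κ : Type*} [Field k] [CommRing R] [IsDomain R] [Field κ] [Algebra R κ]
    [IsFractionRing R κ] (ρ : k →+* R) (b s : R) (hs : s ≠ 0)
    (hint : ∃ p : k[X], p.Monic ∧
      eval₂ ((algebraMap R κ).comp ρ) (algebraMap R κ b / algebraMap R κ s) p = 0)
    (hdom : ∀ p : k[X], Irreducible p → p.Monic → IsDomain (AdjoinRoot (p.map ρ))) :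
    ∃ c : k, b = ρ c * s := by
  classical
  let : Algebra k κ := ((algebraMap R κ).comp ρ).toAlgebra
  set x : κ := algebraMap R κ b / algebraMap R κ s with hx
  have hinj : Function.Injective (algebraMap R κ) := IsFractionRing.injective R κ
  have hs' : algebraMap R κ s ≠ 0 := fun h => hs (hinj (by rw [h, map_zero]))
  have hxi : IsIntegral k x := by
    obtain ⟨p, hp, h⟩ := hint
    exact ⟨p, hp, h⟩
  set P := minpoly k x with hP
  have hPm : P.Monic := minpoly.monic hxi
  have hPi : Irreducible P := minpoly.irreducible hxi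
  have hfin : x ∈ (algebraMap k κ).range → ∃ c : k, b = ρ c * s := by
    rintro ⟨c, hc⟩
    refine ⟨c, hinj ?_⟩
    rw [map_mul]
    change algebraMap R κ b = algebraMap k κ c * _
    rw [hc, hx]
    field_simp
  by_cases hd : P.natDegree = 1
  · exact hfin (minpoly.natDegree_eq_one_iff.1 hd)
  exfalso
  have hd2 : 2 ≤ P.natDegree := by
    have h1 := minpoly.natDegree_pos hxi
    rw [← hP] at h1
    omega
  have hD := hdom P hPi hPm
  set Q : R[X] := P.map ρ with hQ
  have hQm : Q.Monic := hPm.map ρ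
  have hQd : Q.natDegree = P.natDegree := hPm.natDegree_map ρ
  have hQx : eval₂ (algebraMap R κ) x Q = 0 := by
    rw [hQ, eval₂_map]
    exact minpoly.aeval k x
  have hroot : (Q.map (algebraMap R κ)).IsRoot x := by
    rw [IsRoot, eval_map]
    exact hQx
  obtain ⟨h, hh⟩ := dvd_iff_isRoot.2 hroot
  have hQκm : (Q.map (algebraMap R κ)).Monic := hQm.map _
  have hhd : h.natDegree + 1 = Q.natDegree := by
    have h1 : (Q.map (algebraMap R κ)).natDegree = Q.natDegree := hQm.natDegree_map _
    rw [← h1, hh, natDegree_mul (X_sub_C_ne_zero x), natDegree_X_sub_C, add_comm]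
    rintro rfl
    rw [mul_zero] at hh
    exact hQκm.ne_zero hh
  have hh0 : h ≠ 0 := by
    rintro rfl
    rw [mul_zero] at hh
    exact hQκm.ne_zero hh
  obtain ⟨c, hcm, hc⟩ := IsLocalization.integerNormalization_spec (nonZeroDivisors R) h
  set H := IsLocalization.integerNormalization (nonZeroDivisors R) h with hH
  have hc0 : c ≠ 0 := nonZeroDivisors.ne_zero hcm
  have hc' : algebraMap R κ c ≠ 0 := fun h => hc0 (hinj (by rw [h, map_zero]))
  have hHmap : H.map (algebraMap R κ) = C (algebraMap R κ c) * h := by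
    rw [hc, Algebra.smul_def]
    rfl
  have hHd : H.natDegree < Q.natDegree := by
    have h1 : (H.map (algebraMap R κ)).natDegree = H.natDegree := natDegree_map_eq_of_injective hinj _
    rw [← h1, hHmap, natDegree_C_mul hc']
    omega
  have hH0 : H ≠ 0 := by
    rintro h0
    rw [h0, Polynomial.map_zero] at hHmap
    exact mul_ne_zero (C_ne_zero.2 hc') hh0 hHmap.symm
  have key : (C s * X - C b) * H = C (s * c) * Q := by
    apply map_injective (algebraMap R κ) hinj
    rw [Polynomial.map_mul, Polynomial.map_mul, hHmap, hh]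
    simp only [Polynomial.map_sub, Polynomial.map_mul, map_C, map_X, map_mul]
    have h1 : algebraMap R κ b = algebraMap R κ s * x := by
      rw [hx]
      field_simp
    rw [h1, map_mul]
    ring
  have hz : AdjoinRoot.mk Q (C s * X - C b) * AdjoinRoot.mk Q H = 0 := by
    rw [← map_mul, key, AdjoinRoot.mk_eq_zero]
    exact Dvd.intro_left _ rfl
  have h1 : (C s * X - C b : R[X]) ≠ 0 := by
    intro h0
    have := congrArg (fun p => coeff p 1) h0
    simp at this
    exact hs this
  have h2 : (C s * X - C b : R[X]).natDegree < Q.natDegree := by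
    have h3 : (C s * X - C b : R[X]).natDegree ≤ 1 := by
      compute_degree
    omega
  rcases mul_eq_zero.1 hz with h3 | h3
  · rw [AdjoinRoot.mk_eq_zero] at h3
    exact hQm.not_dvd_of_natDegree_lt h1 h2 h3
  · rw [AdjoinRoot.mk_eq_zero] at h3
    exact hQm.not_dvd_of_natDegree_lt hH0 hHd h3

variable {O B F : Type u} [CommRing O] [IsDomain O] [IsDiscreteValuationRing O] [CommRing B] [IsDomain B]
  [Field F] [Algebra O B] [Algebra B F] [Algebra O F] {q : Ideal B}

open scoped TensorProduct in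
private theorem cpg_dom (h : IsChart O B F q) (ρ : ResidueField O →+* B ⧸ sfI O B)
    (hρ : ∀ c : O, ρ (residue O c) = Ideal.Quotient.mk _ (algebraMap O B c))
    (P : (ResidueField O)[X]) (hP : Irreducible P) : IsDomain (AdjoinRoot (P.map ρ)) := by
  classical
  have : Fact (Irreducible P) := ⟨hP⟩
  have hk : ∀ c ∈ maximalIdeal O, algebraMap O (AdjoinRoot P) c = 0 := by
    intro c hc
    rw [AdjoinRoot.algebraMap_eq', RingHom.comp_apply]
    have h1 : algebraMap O (ResidueField O) c = 0 := by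
      rw [ResidueField.algebraMap_eq, residue_eq_zero_iff]
      exact hc
    rw [h1, map_zero]
  have hT : IsDomain (AdjoinRoot P ⊗[O] B) := h.geo (AdjoinRoot P) hk
  let incl : B →+* AdjoinRoot P ⊗[O] B := (Algebra.TensorProduct.includeRight : B →ₐ[O] _).toRingHom
  let i : B ⧸ sfI O B →+* AdjoinRoot P ⊗[O] B := Ideal.Quotient.lift (sfI O B) incl (by
    intro b hb
    have hle : sfI O B ≤ RingHom.ker incl := by
      rw [Ideal.map_le_iff_le_comap]
      intro c hc
      change (1 : AdjoinRoot P) ⊗ₜ[O] (algebraMap O B c) = 0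
      rw [Algebra.algebraMap_eq_smul_one, ← TensorProduct.smul_tmul, ← Algebra.algebraMap_eq_smul_one, hk c hc,
        TensorProduct.zero_tmul]
    exact hle hb)
  have hi : ∀ b, i (Ideal.Quotient.mk _ b) = 1 ⊗ₜ b := fun b => rfl
  have hiρ : i.comp ρ = (Algebra.TensorProduct.includeLeftRingHom : AdjoinRoot P →+* AdjoinRoot P ⊗[O] B).comp
      (AdjoinRoot.of P) := by
    ext c
    obtain ⟨c, rfl⟩ := residue_surjective c
    rw [RingHom.comp_apply, hρ, hi]
    change _ = (AdjoinRoot.of P (residue O c)) ⊗ₜ[O] (1 : B)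
    have h1 : AdjoinRoot.of P (residue O c) = algebraMap O (AdjoinRoot P) c := rfl
    rw [h1, Algebra.algebraMap_eq_smul_one, Algebra.algebraMap_eq_smul_one, TensorProduct.smul_tmul]
  let φ : AdjoinRoot (P.map ρ) →+* AdjoinRoot P ⊗[O] B := AdjoinRoot.lift i (AdjoinRoot.root P ⊗ₜ 1) (by
    rw [eval₂_map, hiρ]
    have h1 := hom_eval₂ P (AdjoinRoot.of P)
      (Algebra.TensorProduct.includeLeftRingHom : AdjoinRoot P →+* AdjoinRoot P ⊗[O] B) (AdjoinRoot.root P)
    rw [AdjoinRoot.eval₂_root, map_zero] at h1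
    exact h1.symm)
  have hu0 : eval₂ ((AdjoinRoot.of (P.map ρ)).comp ρ) (AdjoinRoot.root (P.map ρ)) P = 0 := by
    rw [← eval₂_map, AdjoinRoot.eval₂_root]
  let u : AdjoinRoot P →ₐ[O] AdjoinRoot (P.map ρ) :=
    { AdjoinRoot.lift ((AdjoinRoot.of (P.map ρ)).comp ρ) (AdjoinRoot.root (P.map ρ)) hu0 with
      commutes' := by
        intro c
        change AdjoinRoot.lift _ _ _ (AdjoinRoot.of P (residue O c)) = _
        rw [AdjoinRoot.lift_of, RingHom.comp_apply, hρ]
        rfl }
  let v : B →ₐ[O] AdjoinRoot (P.map ρ) :=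
    { (AdjoinRoot.of (P.map ρ)).comp (Ideal.Quotient.mk (sfI O B)) with
      commutes' := by
        intro c
        rfl }
  let ψ : AdjoinRoot P ⊗[O] B →ₐ[O] AdjoinRoot (P.map ρ) := Algebra.TensorProduct.productMap u v
  have hψφ : ∀ x, ψ (φ x) = x := by
    have h1 : (ψ.toRingHom.comp φ) = RingHom.id _ := by
      refine Ideal.Quotient.ringHom_ext (Polynomial.ringHom_ext ?_ ?_)
      · intro r
        obtain ⟨b, rfl⟩ := Ideal.Quotient.mk_surjective r
        change ψ (φ (AdjoinRoot.of (P.map ρ) (Ideal.Quotient.mk _ b))) = AdjoinRoot.of (P.map ρ) (Ideal.Quotient.mk _ b)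
        rw [AdjoinRoot.lift_of, hi, Algebra.TensorProduct.productMap_apply_tmul, map_one, one_mul]
        rfl
      · change ψ (φ (AdjoinRoot.root (P.map ρ))) = AdjoinRoot.root (P.map ρ)
        rw [AdjoinRoot.lift_root, Algebra.TensorProduct.productMap_apply_tmul, map_one, mul_one]
        exact AdjoinRoot.lift_root hu0
    intro x
    exact congrArg (fun g : AdjoinRoot (P.map ρ) →+* AdjoinRoot (P.map ρ) => g x) h1
  exact (Function.LeftInverse.injective hψφ).isDomain φ

private theorem cpg_hom {O B L : Type*} [CommRing O] [CommRing B] [Algebra O B] [Field L] (g : B →+* L) (b s : B)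
    (hs : g s ≠ 0) (p : O[X]) :
    eval₂ (g.comp (algebraMap O B)) (g b / g s) p * g s ^ p.natDegree =
      g (∑ i ∈ Finset.range (p.natDegree + 1), algebraMap O B (p.coeff i) * b ^ i * s ^ (p.natDegree - i)) := by
  rw [eval₂_eq_sum_range, Finset.sum_mul, map_sum]
  refine Finset.sum_congr rfl fun i hi => ?_
  have hi' : i ≤ p.natDegree := by
    have := Finset.mem_range.1 hi
    omega
  rw [map_mul, map_mul, map_pow, map_pow, RingHom.comp_apply, div_pow]
  have h1 : g s ^ p.natDegree = g s ^ i * g s ^ (p.natDegree - i) := by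
    rw [← pow_add]
    congr 1
    omega
  rw [h1]
  have h2 : g s ^ i ≠ 0 := pow_ne_zero _ hs
  field_simp

theorem cpg (h : IsChart O B F q) [hp : (sfI O B).IsPrime] (W₀ : ValuationSubring F)
    (hW : ∀ f : F, f ∈ W₀ ↔ f ∈ locP F (sfI O B)) (f : F) (hf : f ∈ W₀)
    (hal : ∃ p : O[X], p.Monic ∧ aeval f p ∈ W₀.nonunits) :
    ∃ c : O, f - algebraMap O F c ∈ W₀.nonunits := by
  classical
  obtain ⟨p, hpm, hpn⟩ := hal
  obtain ⟨b, s, hs, hfs⟩ := (hW f).1 hf
  rw [cpw_nu h W₀ hW] at hpn
  obtain ⟨b₁, hb₁, s₁, hs₁, h1⟩ := hpn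
  have htow := h.tower
  have hfrac := h.frac
  have hinj : Function.Injective (algebraMap B F) := IsFractionRing.injective B F
  have hs0 : s ≠ 0 := fun h0 => hs (by rw [h0]; exact Ideal.zero_mem _)
  have hsF : algebraMap B F s ≠ 0 := fun h0 => hs0 (hinj (by rw [h0, map_zero]))
  set T := ∑ i ∈ Finset.range (p.natDegree + 1), algebraMap O B (p.coeff i) * b ^ i * s ^ (p.natDegree - i) with hT
  have hf' : f = algebraMap B F b / algebraMap B F s := by rw [← hfs]; field_simp
  have hTF := cpg_hom (algebraMap B F) b s hsF p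
  rw [← hT, ← hf', ← IsScalarTower.algebraMap_eq O B F] at hTF
  have hTm : T ∈ sfI O B := by
    have h2 : T * s₁ = s ^ p.natDegree * b₁ := by
      apply hinj
      rw [map_mul, map_mul, map_pow, ← h1, ← hTF, aeval_def]
      ring
    have h3 : T * s₁ ∈ sfI O B := by
      rw [h2]
      exact Ideal.mul_mem_left _ _ hb₁
    exact (hp.mem_or_mem h3).resolve_right hs₁
  let ρ : ResidueField O →+* B ⧸ sfI O B := Ideal.Quotient.lift (maximalIdeal O)
    ((Ideal.Quotient.mk (sfI O B)).comp (algebraMap O B)) (by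
      intro c hc
      rw [RingHom.comp_apply, Ideal.Quotient.eq_zero_iff_mem]
      exact Ideal.mem_map_of_mem _ hc)
  have hρ : ∀ c : O, ρ (residue O c) = Ideal.Quotient.mk _ (algebraMap O B c) := fun c => rfl
  have hRd : IsDomain (B ⧸ sfI O B) := Ideal.Quotient.isDomain _
  have hsR : Ideal.Quotient.mk (sfI O B) s ≠ 0 := by
    rw [Ne, Ideal.Quotient.eq_zero_iff_mem]
    exact hs
  let κ := FractionRing (B ⧸ sfI O B)
  have hκi : Function.Injective (algebraMap (B ⧸ sfI O B) κ) := IsFractionRing.injective _ _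
  have hsκ : ((algebraMap (B ⧸ sfI O B) κ).comp (Ideal.Quotient.mk (sfI O B))) s ≠ 0 := by
    rw [RingHom.comp_apply]
    intro h0
    exact hsR (hκi (by rw [h0, map_zero]))
  have hTκ := cpg_hom ((algebraMap (B ⧸ sfI O B) κ).comp (Ideal.Quotient.mk (sfI O B))) b s hsκ p
  rw [← hT] at hTκ
  have hT0 : ((algebraMap (B ⧸ sfI O B) κ).comp (Ideal.Quotient.mk (sfI O B))) T = 0 := by
    rw [RingHom.comp_apply, Ideal.Quotient.eq_zero_iff_mem.2 hTm, map_zero]
  rw [hT0] at hTκ
  have hev := (mul_eq_zero.1 hTκ).resolve_right (pow_ne_zero _ hsκ)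
  obtain ⟨c, hc⟩ := cpg_alg (κ := κ) ρ (Ideal.Quotient.mk _ b) (Ideal.Quotient.mk _ s) hsR
    ⟨p.map (residue O), hpm.map _, by
      rw [eval₂_map]
      exact hev⟩ (fun P hP _ => cpg_dom h ρ hρ P hP)
  obtain ⟨c, rfl⟩ := residue_surjective c
  rw [hρ, ← map_mul, ← sub_eq_zero, ← map_sub, Ideal.Quotient.eq_zero_iff_mem] at hc
  refine ⟨c, ?_⟩
  rw [cpw_nu h W₀ hW]
  refine ⟨_, hc, s, hs, ?_⟩
  rw [map_sub, map_mul, ← hfs, IsScalarTower.algebraMap_apply O B F]
  ring

end Pool.Agent.ESH
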