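import Pool.Agent.ESH.CPW

/-!
# ESH / CPS: elementary properties of the local rings of a chart

`cps_base`: tower.  `cps_le`: `sfI ≤ q`.  `cps_add`: `cpl_nu` (common denominator).  `cps_nub`: `sfI ≤ q`.
`cps_fin`: `B` is of finite type over `O`; `S` the image of a finite set of generators; `a = b/s`, `s ∉ q`.
`cps_frac`: `f ∈ W₀` is `b/s`, `s ∉ πB`, so `s ∉ W₀.nonunits` (`cpw_nu`: if `s = b'/s'`, `b' ∈ πB`, `s' ∉ πB` then `s s' = b' ∈ πB`).
`cps_sat`: `c = π^n unit`, by induction one may divide by `π`: `a = b/s` with `s ∉ q`, and `a/π ∈ W₀`: `b/(π s) = b'/s'`, `s' ∉ πB`,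
`b s' = π s b'`, so `b s' ∈ πB`, `b ∈ πB`, `b = π b''`, `a/π = b''/s ∈ locP F q`.
-/

namespace Pool.Agent.ESH

open Polynomial IsLocalRing

universe u

variable {O B F : Type u} [CommRing O] [IsDomain O] [IsDiscreteValuationRing O] [CommRing B] [IsDomain B]
  [Field F] [Algebra O B] [Algebra B F] [Algebra O F] {q : Ideal B}

variable {K : Type*} [Field K] [Algebra O K] [IsFractionRing O K] [Algebra K F] [IsScalarTower O K F]

private theorem cps_one (hq : q.IsPrime) : (1 : B) ∉ q := fun h' =>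
  hq.ne_top ((Ideal.eq_top_iff_one q).2 h')

private theorem cps_mem [hq : q.IsPrime] (b : B) : algebraMap B F b ∈ locP F q :=
  ⟨b, 1, cps_one hq, by rw [map_one, mul_one]⟩

theorem cps_base (h : IsChart O B F q) [hq : q.IsPrime] (c : O) : algebraMap O F c ∈ locP F q := by
  have := h.tower
  rw [IsScalarTower.algebraMap_apply O B F]
  exact cps_mem _

theorem cps_le (h : IsChart O B F q) [hq : q.IsPrime] [hp : (sfI O B).IsPrime] (W₀ : ValuationSubring F)
    (hW : ∀ f : F, f ∈ W₀ ↔ f ∈ locP F (sfI O B)) (a : F) (ha : a ∈ locP F q) : a ∈ W₀ := by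
  rw [hW]
  obtain ⟨b, s, hs, hbs⟩ := ha
  exact ⟨b, s, fun h' => hs (h.le h'), hbs⟩

theorem cps_add (h : IsChart O B F q) [hq : q.IsPrime] (a b : F) (ha : NU (locP F q) a)
    (hb : NU (locP F q) b) : NU (locP F q) (a + b) := by
  have := h.frac
  rw [cpl_nu] at ha hb ⊢
  obtain ⟨x, hx, s, hs, h1⟩ := ha
  obtain ⟨y, hy, t, ht, h2⟩ := hb
  refine ⟨x * t + y * s, q.add_mem (q.mul_mem_right _ hx) (q.mul_mem_right _ hy), s * t,
    fun h' => (hq.mem_or_mem h').elim hs ht, ?_⟩
  rw [map_add, map_mul, map_mul, map_mul, ← h1, ← h2]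
  ring

theorem cps_nub (h : IsChart O B F q) [hq : q.IsPrime] (c : O) (hc : c ∈ maximalIdeal O) :
    NU (locP F q) (algebraMap O F c) := by
  have := h.tower
  have := h.frac
  rw [cpl_nu]
  refine ⟨algebraMap O B c, h.le (Ideal.mem_map_of_mem _ hc), 1, cps_one hq, ?_⟩
  rw [map_one, mul_one, ← IsScalarTower.algebraMap_apply]

theorem cps_fin (h : IsChart O B F q) [hq : q.IsPrime] :
    ∃ S : Finset F, (∀ x ∈ S, x ∈ locP F q) ∧ ∀ a ∈ locP F q, ∃ b ∈ Algebra.adjoin O (S : Set F),
      ∃ s ∈ Algebra.adjoin O (S : Set F), s ≠ 0 ∧ s⁻¹ ∈ locP F q ∧ a * s = b := by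
  classical
  have := h.tower
  have := h.frac
  have hBF : Function.Injective (algebraMap B F) := IsFractionRing.injective B F
  have hsm := h.smooth
  have h0 : Algebra.IsStandardSmooth O B := Algebra.IsStandardSmoothOfRelativeDimension.isStandardSmooth 1
  have hft : Algebra.FiniteType O B := inferInstance
  obtain ⟨S, hS⟩ := hft.out
  have hadj : ∀ b : B, algebraMap B F b ∈ Algebra.adjoin O ((S.image (algebraMap B F) : Finset F) : Set F) := by
    intro b
    have h1 : b ∈ Algebra.adjoin O (S : Set B) := by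
      rw [hS]
      exact Algebra.mem_top
    have h2 : (IsScalarTower.toAlgHom O B F) b ∈
        (Algebra.adjoin O (S : Set B)).map (IsScalarTower.toAlgHom O B F) :=
      Subalgebra.mem_map.2 ⟨b, h1, rfl⟩
    rw [AlgHom.map_adjoin] at h2
    rw [Finset.coe_image]
    exact h2
  refine ⟨S.image (algebraMap B F), ?_, ?_⟩
  · intro x hx
    obtain ⟨y, -, rfl⟩ := Finset.mem_image.1 hx
    exact cps_mem y
  · rintro a ⟨b, s, hs, hbs⟩
    have hs0 : s ≠ 0 := by
      rintro rfl
      exact hs q.zero_mem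
    have hs0' : algebraMap B F s ≠ 0 := (map_ne_zero_iff _ hBF).2 hs0
    refine ⟨algebraMap B F b, hadj b, algebraMap B F s, hadj s, hs0', ?_, hbs⟩
    exact ⟨1, s, hs, by rw [inv_mul_cancel₀ hs0', map_one]⟩

theorem cps_frac (h : IsChart O B F q) [hq : q.IsPrime] [hp : (sfI O B).IsPrime] (W₀ : ValuationSubring F)
    (hW : ∀ f : F, f ∈ W₀ ↔ f ∈ locP F (sfI O B)) (f : F) (hf : f ∈ W₀) :
    ∃ a ∈ locP F q, ∃ s ∈ locP F q, s ∉ W₀.nonunits ∧ f * s = a := by
  have := h.frac
  have hBF : Function.Injective (algebraMap B F) := IsFractionRing.injective B F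
  rw [hW] at hf
  obtain ⟨b, s, hs, hbs⟩ := hf
  refine ⟨algebraMap B F b, cps_mem b, algebraMap B F s, cps_mem s, ?_, hbs⟩
  rw [cpw_nu h W₀ hW]
  rintro ⟨b', hb', s', hs', h1⟩
  rw [← map_mul] at h1
  rw [← hBF h1] at hb'
  exact (hp.mem_or_mem hb').elim hs hs'

/-- division by a uniformiser -/
private theorem cps_sat_one (h : IsChart O B F q) [hq : q.IsPrime] [hp : (sfI O B).IsPrime]
    (W₀ : ValuationSubring F) (hW : ∀ f : F, f ∈ W₀ ↔ f ∈ locP F (sfI O B)) (p : O)
    (hpi : Irreducible p) (a : F) (ha : a ∈ locP F q) (h1 : a / algebraMap O F p ∈ W₀) :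
    a / algebraMap O F p ∈ locP F q := by
  have := h.tower
  have := h.frac
  have hBF : Function.Injective (algebraMap B F) := IsFractionRing.injective B F
  have hOB : Function.Injective (algebraMap O B) := cpa_inj h
  have hpF : algebraMap O F p ≠ 0 := by
    rw [IsScalarTower.algebraMap_apply O B F]
    exact (map_ne_zero_iff _ hBF).2 ((map_ne_zero_iff _ hOB).2 hpi.ne_zero)
  have hsf : sfI O B = Ideal.span {algebraMap O B p} := by
    change (maximalIdeal O).map (algebraMap O B) = _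
    rw [hpi.maximalIdeal_eq, Ideal.map_span, Set.image_singleton]
  obtain ⟨b, s, hs, hbs⟩ := ha
  rw [hW] at h1
  obtain ⟨b', s', hs', hbs'⟩ := h1
  have h2 : b * s' = algebraMap O B p * (s * b') := by
    apply hBF
    rw [map_mul, map_mul, map_mul, ← hbs, ← hbs', ← IsScalarTower.algebraMap_apply]
    field_simp
  have h3 : b * s' ∈ sfI O B := by
    rw [hsf, h2]
    exact Ideal.mul_mem_right _ _ (Ideal.subset_span rfl)
  have h4 := (hp.mem_or_mem h3).resolve_right hs'
  rw [hsf, Ideal.mem_span_singleton] at h4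
  obtain ⟨b'', rfl⟩ := h4
  refine ⟨b'', s, hs, ?_⟩
  rw [div_mul_eq_mul_div, hbs, map_mul, ← IsScalarTower.algebraMap_apply, mul_div_assoc,
    mul_div_cancel₀ _ hpF]

theorem cps_sat (h : IsChart O B F q) [hq : q.IsPrime] [hp : (sfI O B).IsPrime] (W₀ : ValuationSubring F)
    (hW : ∀ f : F, f ∈ W₀ ↔ f ∈ locP F (sfI O B)) (c : O) (hc : c ≠ 0) (a : F) (ha : a ∈ locP F q)
    (h1 : a / algebraMap O F c ∈ W₀) : a / algebraMap O F c ∈ locP F q := by
  have := h.tower
  have := h.frac
  have hBF : Function.Injective (algebraMap B F) := IsFractionRing.injective B F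
  have hOB : Function.Injective (algebraMap O B) := cpa_inj h
  obtain ⟨p, hpi⟩ := IsDiscreteValuationRing.exists_irreducible O
  have hpF : algebraMap O F p ≠ 0 := by
    rw [IsScalarTower.algebraMap_apply O B F]
    exact (map_ne_zero_iff _ hBF).2 ((map_ne_zero_iff _ hOB).2 hpi.ne_zero)
  have hOW : ∀ d : O, algebraMap O F d ∈ W₀ := fun d =>
    cps_le h W₀ hW _ (cps_base h d)
  have key : ∀ n : ℕ, ∀ a : F, a ∈ locP F q → a / algebraMap O F p ^ n ∈ W₀ →
      a / algebraMap O F p ^ n ∈ locP F q := by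
    intro n
    induction n with
    | zero =>
      intro a ha _
      rwa [pow_zero, div_one]
    | succ n ih =>
      intro a ha h2
      have h3 : a / algebraMap O F p ∈ W₀ := by
        have h4 := W₀.mul_mem _ _ h2 (hOW (p ^ n))
        have h5 : a / algebraMap O F p ^ (n + 1) * algebraMap O F (p ^ n) = a / algebraMap O F p := by
          rw [map_pow, pow_succ]
          field_simp
        rwa [h5] at h4
      have h4 := cps_sat_one h W₀ hW p hpi a ha h3
      have h5 : a / algebraMap O F p ^ (n + 1) = a / algebraMap O F p / algebraMap O F p ^ n := by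
        rw [pow_succ]
        field_simp
      rw [h5] at h2 ⊢
      exact ih _ h4 h2
  obtain ⟨n, u, hu⟩ := IsDiscreteValuationRing.eq_unit_mul_pow_irreducible hc hpi
  have hu1 : algebraMap O F (u : O) * algebraMap O F ((u⁻¹ : Oˣ) : O) = 1 := by
    rw [← map_mul, Units.mul_inv, map_one]
  have hu0 : algebraMap O F (u : O) ≠ 0 := left_ne_zero_of_mul_eq_one hu1
  have hu2 : algebraMap O F ((u⁻¹ : Oˣ) : O) = (algebraMap O F (u : O))⁻¹ :=
    eq_inv_of_mul_eq_one_right hu1
  have hce : algebraMap O F c = algebraMap O F (u : O) * algebraMap O F p ^ n := by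
    rw [hu, map_mul, map_pow]
  have h2 : a / algebraMap O F p ^ n ∈ W₀ := by
    have h3 := W₀.mul_mem _ _ h1 (hOW u)
    have h4 : a / algebraMap O F c * algebraMap O F (u : O) = a / algebraMap O F p ^ n := by
      rw [hce]
      field_simp
    rwa [h4] at h3
  have h3 := key n a ha h2
  have h4 : a / algebraMap O F c = a / algebraMap O F p ^ n * algebraMap O F ((u⁻¹ : Oˣ) : O) := by
    rw [hce, hu2]
    field_simp
  rw [h4]
  exact (locP F q).mul_mem h3 (cps_base h _)

end Pool.Agent.ESH
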