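import Pool.Agent.ESH.CPQ
import Pool.Agent.ESH.CPS
import Pool.Agent.ESH.CPG

/-!
# ESH / CPI: the local ring of a chart at a closed point of the special fibre

`cpi`: assembly of CPS, CPQ, CPR.  `cpi_der`: `D` from CPD for `τ` from CPE; `D ≠ 0` as `D τ = 1`; `D(b/s) = (s D b - b D s)/s²`.
-/

namespace Pool.Agent.ESH

open Polynomial IsLocalRing

universe u

variable {O B F : Type u} [CommRing O] [IsDomain O] [IsDiscreteValuationRing O] [CommRing B] [IsDomain B]
  [Field F] [Algebra O B] [Algebra B F] [Algebra O F] {q : Ideal B}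

variable {K : Type*} [Field K] [Algebra O K] [IsFractionRing O K] [Algebra K F] [IsScalarTower O K F]


theorem cpi [Finite (ResidueField O)] (h : IsChart O B F q) [hq : q.IsPrime] [hp : (sfI O B).IsPrime]
    (hne : q ≠ sfI O B) (W₀ : ValuationSubring F) (hW : ∀ f : F, f ∈ W₀ ↔ f ∈ locP F (sfI O B)) :
    IsBPt O K W₀ (locP F q) where
  base := fun c => cps_base h c
  le := fun a ha => cps_le h W₀ hW a ha
  add := fun a b ha hb => cps_add h a b ha hb
  nub := fun c hc => cps_nub h c hc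
  fin := cps_fin h
  prim := cpq h hne
  frac := fun f hf => cps_frac h W₀ hW f hf
  sat := fun c hc a ha h1 => cps_sat h W₀ hW c hc a ha h1
  par := cpr h hne

theorem cpi_der (h : IsChart O B F q) [hp : (sfI O B).IsPrime] (W₀ : ValuationSubring F)
    (hW : ∀ f : F, f ∈ W₀ ↔ f ∈ locP F (sfI O B)) :
    ∃ D : Derivation K F F, D ≠ 0 ∧ ∀ f ∈ W₀, D f ∈ W₀ := by
  have := h.tower
  have := h.frac
  obtain ⟨τ, hτ⟩ := cpe (O := O) (B := B) h.smooth
  obtain ⟨D, h1, h2⟩ := cpd (K := K) (F := F) τ hτ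
  refine ⟨D, ?_, ?_⟩
  · rintro rfl
    exact one_ne_zero (h1.symm.trans (Derivation.zero_apply _))
  · intro f hf
    rw [hW] at hf ⊢
    obtain ⟨b, s, hs, hfs⟩ := hf
    obtain ⟨b', hb'⟩ := h2 b
    obtain ⟨s', hs'⟩ := h2 s
    have e := congrArg D hfs
    rw [Derivation.leibniz, hb', hs', smul_eq_mul, smul_eq_mul] at e
    refine ⟨b' * s - b * s', s * s, fun h0 => (hp.mem_or_mem h0).elim hs hs, ?_⟩
    rw [map_sub, map_mul, map_mul, map_mul, ← hfs, ← e]
    ring

end Pool.Agent.ESH
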