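import Pool.Agent.ESH.DefsS

/-!
# ESH / CPP: primes of O[X] containing the maximal ideal

`k = ResidueField O` finite.  `q₀` corresponds to a non-zero prime ideal of `k[X]`, generated by a monic irreducible `ḡ`; `g` a monic
lift.  `k` is perfect, so `ḡ` is separable, `ḡ` does not divide `ḡ'` (`ḡ' ≠ 0` has smaller degree), so `g' ∉ q₀`.
`O[X]/q₀ = k[X]/ḡ` is finite.
-/

namespace Pool.Agent.ESH

open Polynomial IsLocalRing

universe u

theorem cpp {O : Type u} [CommRing O] [IsDomain O] [IsDiscreteValuationRing O]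
    [Finite (ResidueField O)] (q₀ : Ideal O[X]) (hq : q₀.IsPrime)
    (hle : (maximalIdeal O).map (C : O →+* O[X]) ≤ q₀) (hne : q₀ ≠ (maximalIdeal O).map (C : O →+* O[X])) :
    Finite (O[X] ⧸ q₀) ∧ ∃ g : O[X], g.Monic ∧ g ∈ q₀ ∧ derivative g ∉ q₀ ∧
      q₀ = (maximalIdeal O).map (C : O →+* O[X]) ⊔ Ideal.span {g} := by
  classical
  obtain ⟨φ, hφ⟩ : ∃ φ : O[X] →+* (ResidueField O)[X], φ = mapRingHom (residue O) := ⟨_, rfl⟩
  have hφs : Function.Surjective φ := by
    rw [hφ]
    exact Polynomial.map_surjective _ residue_surjective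
  have hker : RingHom.ker φ = (maximalIdeal O).map (C : O →+* O[X]) := by
    rw [hφ, ker_mapRingHom, ker_residue]
  have hkle : RingHom.ker φ ≤ q₀ := by rw [hker]; exact hle
  have hcomap : (q₀.map φ).comap φ = q₀ := by
    rw [Ideal.comap_map_of_surjective φ hφs]
    exact sup_eq_left.2 hkle
  have hprime : (q₀.map φ).IsPrime := Ideal.map_isPrime_of_surjective hφs hkle
  have hbot : q₀.map φ ≠ ⊥ := by
    intro h
    rw [h] at hcomap
    exact hne (by rw [← hker, ← hcomap]; rfl)
  obtain ⟨g₀, hg₀⟩ := (IsPrincipalIdealRing.principal (q₀.map φ)).principal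
  have hg₀' : q₀.map φ = Ideal.span {g₀} := hg₀
  have hg₀0 : g₀ ≠ 0 := by
    rintro rfl
    apply hbot
    rw [hg₀', Ideal.span_singleton_eq_bot]
  have hpr : Prime g₀ := (Ideal.span_singleton_prime hg₀0).1 (hg₀' ▸ hprime)
  obtain ⟨gb, hgb⟩ : ∃ gb, gb = normalize g₀ := ⟨_, rfl⟩
  have has : Associated gb g₀ := by rw [hgb]; exact normalize_associated g₀
  have hgm : gb.Monic := by rw [hgb]; exact Polynomial.monic_normalize hg₀0
  have hgi : Irreducible gb := has.symm.irreducible hpr.irreducible
  have hgs : q₀.map φ = Ideal.span {gb} := by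
    rw [hg₀', Ideal.span_singleton_eq_span_singleton]
    exact has.symm
  obtain ⟨g, hg1, -, hg3⟩ := Polynomial.lifts_and_natDegree_eq_and_monic (f := residue O) (p := gb) (by
    rw [Polynomial.mem_lifts]
    obtain ⟨g, hg⟩ := hφs gb
    exact ⟨g, by rw [← hg, hφ]; rfl⟩) hgm
  have hφg : φ g = gb := by rw [hφ]; exact hg1
  have hmem : ∀ f : O[X], f ∈ q₀ ↔ gb ∣ φ f := by
    intro f
    rw [← Ideal.mem_span_singleton, ← hgs]
    conv_lhs => rw [← hcomap]
    rfl
  have hsep : gb.Separable := PerfectField.separable_of_irreducible hgi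
  constructor
  · have hfin : Finite (AdjoinRoot gb) := by
      have h1 : Module.Finite (ResidueField O) (AdjoinRoot gb) := hgm.finite_adjoinRoot
      exact Module.finite_of_finite (ResidueField O)
    have hk : q₀ = RingHom.ker ((AdjoinRoot.mk gb).comp φ) := by
      ext f
      rw [RingHom.mem_ker, RingHom.comp_apply, AdjoinRoot.mk_eq_zero, hmem]
    rw [hk]
    exact Finite.of_injective _ (RingHom.kerLift_injective ((AdjoinRoot.mk gb).comp φ))
  · refine ⟨g, hg3, ?_, ?_, ?_⟩
    · rw [hmem, hφg]
    · rw [hmem]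
      intro h
      have h1 : φ (derivative g) = derivative gb := by
        rw [← hφg, hφ]
        exact (Polynomial.derivative_map g (residue O)).symm
      rw [h1] at h
      exact hgi.not_isUnit (hsep.isUnit_of_dvd h)
    · apply le_antisymm
      · intro f hf
        rw [hmem] at hf
        obtain ⟨h, hh⟩ := hf
        obtain ⟨h', rfl⟩ := hφs h
        have h1 : f - g * h' ∈ RingHom.ker φ := by
          rw [RingHom.mem_ker, map_sub, map_mul, hφg, hh, sub_self]
        rw [hker] at h1
        have h2 : f = (f - g * h') + g * h' := by ring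
        rw [h2]
        exact Submodule.add_mem_sup h1 (Ideal.mul_mem_right _ _ (Ideal.subset_span rfl))
      · refine sup_le hle ?_
        rw [Ideal.span_singleton_le_iff_mem, hmem, hφg]

end Pool.Agent.ESH
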