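import Pool.Agent.ESH.CPR

/-!
# ESH / CPQ: primitive element for the residue field of a point

`κ = B/q` is finite (`cpr_fin`), a field, an extension of the finite field `k = ResidueField O` (the maximal ideal of `O` maps into `q`).
Take `θ ∈ B` whose image generates `κ` over `k` (e.g. a generator of the cyclic group `κ^*`, or primitive element theorem), `p̄` its
minimal polynomial over `k`, separable; `p` a monic lift.  `p(θ) ∈ q`; `p'(θ) ∉ q`; for `a = b/s ∈ locP F q`: `b̄/s̄ ∈ κ` is `q̄(θ̄)`,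
and `a - q(θ) = (b - q(θ)s)/s` with numerator in `q`.
(Here: `θ` generates `κ^*`, and `p = X^N - X`, `N = card κ`, serves as well.)
-/

namespace Pool.Agent.ESH

open Polynomial IsLocalRing

universe u

variable {O B F : Type u} [CommRing O] [IsDomain O] [IsDiscreteValuationRing O] [CommRing B] [IsDomain B]
  [Field F] [Algebra O B] [Algebra B F] [Algebra O F] {q : Ideal B}

/-- a generator of the multiplicative group of a finite field -/
private theorem cpq_fin (κ : Type*) [CommRing κ] [IsDomain κ] [Finite κ] :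
    ∃ N : ℕ, 2 ≤ N ∧ (N : κ) = 0 ∧ (∀ x : κ, x ^ N = x) ∧
      ∃ g : κ, ∀ x : κ, x ≠ 0 → ∃ n : ℕ, x = g ^ n := by
  classical
  have := Fintype.ofFinite κ
  let _ : Field κ := Fintype.fieldOfDomain κ
  obtain ⟨g, hg⟩ := IsCyclic.exists_generator (α := κˣ)
  refine ⟨Fintype.card κ, Fintype.one_lt_card, FiniteField.cast_card_eq_zero κ,
    fun x => FiniteField.pow_card x, (g : κ), fun x hx => ?_⟩
  obtain ⟨n, hn⟩ := (mem_powers_iff_mem_zpowers.2 (hg (Units.mk0 x hx)) : _)
  refine ⟨n, ?_⟩
  have h1 := congrArg Units.val hn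
  simpa using h1.symm

theorem cpq [Finite (ResidueField O)] (h : IsChart O B F q) [hq : q.IsPrime] (hne : q ≠ sfI O B) :
    ∃ θ ∈ locP F q, ∃ p : O[X], p.Monic ∧ NU (locP F q) (aeval θ p) ∧
      ¬ NU (locP F q) (aeval θ (derivative p)) ∧
      ∀ a ∈ locP F q, ∃ r : O[X], NU (locP F q) (a - aeval θ r) := by
  have := h.tower
  have := h.frac
  have hfin : Finite (B ⧸ q) := cpr_fin h hne
  obtain ⟨N, hN2, hN0, hNp, g, hg⟩ := cpq_fin (B ⧸ q)
  obtain ⟨θ, rfl⟩ := Ideal.Quotient.mk_surjective g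
  have hBF : Function.Injective (algebraMap B F) := IsFractionRing.injective B F
  have h1q : (1 : B) ∉ q := fun h' => hq.ne_top ((Ideal.eq_top_iff_one q).2 h')
  have haev : ∀ r : O[X], aeval (algebraMap B F θ) r = algebraMap B F (aeval θ r) := fun r =>
    Polynomial.aeval_algebraMap_apply F θ r
  have hmemq : ∀ b : B, NU (locP F q) (algebraMap B F b) ↔ b ∈ q := by
    intro b
    rw [cpl_nu]
    constructor
    · rintro ⟨b', hb', s, hs, hbs⟩
      rw [← map_mul] at hbs
      have h1 := hBF hbs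
      rw [← h1] at hb'
      exact (hq.mem_or_mem hb').resolve_right hs
    · intro hb
      exact ⟨b, hb, 1, h1q, by rw [map_one, mul_one]⟩
  refine ⟨algebraMap B F θ, ⟨θ, 1, h1q, by rw [map_one, mul_one]⟩, X ^ N - X, ?_, ?_, ?_, ?_⟩
  · exact monic_X_pow_sub (by rw [degree_X]; exact_mod_cast hN2)
  · rw [haev, hmemq, ← Ideal.Quotient.eq_zero_iff_mem]
    simp only [map_sub, map_pow, aeval_X]
    rw [hNp, sub_self]
  · rw [haev, hmemq, ← Ideal.Quotient.eq_zero_iff_mem]
    simp only [derivative_X_pow, derivative_X, map_sub, map_mul, map_pow, aeval_X,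
      map_one, map_natCast]
    rw [hN0, zero_mul, zero_sub]
    exact neg_ne_zero.2 one_ne_zero
  · rintro a ⟨b, s, hs, hbs⟩
    have hs0 : (Ideal.Quotient.mk q s) ≠ 0 := fun h' => hs (Ideal.Quotient.eq_zero_iff_mem.1 h')
    by_cases hb : b ∈ q
    · refine ⟨0, ?_⟩
      rw [map_zero, sub_zero, cpl_nu]
      exact ⟨b, hb, s, hs, hbs⟩
    · obtain ⟨m, hm⟩ := hg _ hs0
      obtain ⟨n, hn⟩ := hg (Ideal.Quotient.mk q b) (fun h' => hb (Ideal.Quotient.eq_zero_iff_mem.1 h'))
      -- `b = s θ^n (s^{-1})`, and `s^{-1} = s^{N-2}`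
      refine ⟨X ^ (n + m * (N - 2)), ?_⟩
      rw [haev, cpl_nu]
      refine ⟨b - θ ^ (n + m * (N - 2)) * s, ?_, s, hs, ?_⟩
      · rw [← Ideal.Quotient.eq_zero_iff_mem, map_sub, map_mul, map_pow, hn, hm]
        have h2 : (Ideal.Quotient.mk q θ) ^ (n + m * (N - 2)) * (Ideal.Quotient.mk q θ) ^ m =
            (Ideal.Quotient.mk q θ) ^ n := by
          have h3 := hNp (Ideal.Quotient.mk q s)
          have h4 : (Ideal.Quotient.mk q s) ^ (N - 2) * (Ideal.Quotient.mk q s) = 1 := by
            have h5 : (Ideal.Quotient.mk q s) * ((Ideal.Quotient.mk q s) ^ (N - 2) *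
                (Ideal.Quotient.mk q s)) = (Ideal.Quotient.mk q s) * 1 := by
              rw [mul_one]
              conv_rhs => rw [← h3]
              rw [← pow_succ, ← pow_succ']
              congr 1
              omega
            exact mul_left_cancel₀ hs0 h5
          rw [hm, ← pow_mul] at h4
          rw [pow_add, mul_assoc, h4, mul_one]
        rw [h2, sub_self]
      · rw [sub_mul, hbs, map_sub, map_mul]
        simp only [map_pow, aeval_X]

end Pool.Agent.ESH
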