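import Pool.Agent.ESH.DefsS

/-!
# ESH / CPU: primes are generated from below in an etale algebra

`B` is an etale `O[X]`-algebra (via `aeval τ`).  Let `q₀ = q ∩ O[X]`.  `Localization.AtPrime q` is formally unramified and essentially
of finite type over `Localization.AtPrime q₀` (local homomorphism), so by `Algebra.FormallyUnramified.map_maximalIdeal` the
maximal ideal of the latter generates the maximal ideal of the former; see Mathlib/RingTheory/Unramified/LocalRing.lean
(`Algebra.isUnramifiedAt_iff_map_eq` or similar).  Clear denominators.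
`cpu_alg`: the residue field of `B` at `q` is finite over the residue field of `O[X]` at `q₀` (same file); so if `O[X]/q₀` is finite
(hence a field) then `B/q`, a subring of the residue field, is finite.
-/

namespace Pool.Agent.ESH

open Polynomial IsLocalRing

universe u

private theorem cpu_unr_gen {R S : Type u} [CommRing R] [CommRing S] [Algebra R S]
    [Algebra.Etale R S] (q : Ideal S) [hq : q.IsPrime] (b : S) (hb : b ∈ q) :
    ∃ s : S, s ∉ q ∧ s * b ∈ (q.comap (algebraMap R S)).map (algebraMap R S) := by
  let _ := Localization.AtPrime.algebraOfLiesOver (q.under R) q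
  have hun : Algebra.IsUnramifiedAt R q :=
    Algebra.FormallyUnramified.comp R S (Localization.AtPrime q)
  have hmap := ((Algebra.isUnramifiedAt_iff_map_eq R (q.under R) q).1 hun).2
  have h1 : algebraMap S (Localization.AtPrime q) b ∈ maximalIdeal (Localization.AtPrime q) := by
    rw [← Localization.AtPrime.map_eq_maximalIdeal]
    exact Ideal.mem_map_of_mem _ hb
  rw [← hmap, IsScalarTower.algebraMap_eq R S (Localization.AtPrime q), ← Ideal.map_map,
    IsLocalization.mem_map_algebraMap_iff q.primeCompl] at h1
  obtain ⟨⟨⟨x, hx⟩, s⟩, h⟩ := h1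
  simp only at h
  rw [← map_mul, IsLocalization.eq_iff_exists q.primeCompl] at h
  obtain ⟨c, hc⟩ := h
  refine ⟨c * s, ?_, ?_⟩
  · intro h
    exact (c * s).2 h
  · have : (c : S) * s * b = c * x := by
      rw [← hc]; ring
    rw [this]
    exact Ideal.mul_mem_left _ _ hx

private theorem cpu_alg_gen {R S : Type u} [CommRing R] [CommRing S] [Algebra R S]
    [Algebra.Etale R S] (q : Ideal S) [hq : q.IsPrime] (hf : Finite (R ⧸ q.comap (algebraMap R S))) :
    Finite (S ⧸ q) := by
  let _ := Localization.AtPrime.algebraOfLiesOver (q.under R) q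
  have hun : Algebra.IsUnramifiedAt R q :=
    Algebra.FormallyUnramified.comp R S (Localization.AtPrime q)
  have h1 : Module.Finite (q.under R).ResidueField q.ResidueField := inferInstance
  have hf' : Finite (R ⧸ q.under R) := hf
  have h2 : Finite (q.under R).ResidueField := inferInstance
  have h3 : Finite q.ResidueField := Module.finite_of_finite (q.under R).ResidueField
  exact Finite.of_injective (algebraMap (S ⧸ q) q.ResidueField)
    (IsFractionRing.injective (S ⧸ q) q.ResidueField)

variable {O B F : Type u} [CommRing O] [IsDomain O] [IsDiscreteValuationRing O] [CommRing B] [IsDomain B]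
  [Field F] [Algebra O B] [Algebra B F] [Algebra O F] {q : Ideal B}


theorem cpu_unr (τ : B) (hτ : ((aeval τ : O[X] →ₐ[O] B) : O[X] →+* B).Etale) (hq : q.IsPrime) (b : B)
    (hb : b ∈ q) :
    ∃ s : B, s ∉ q ∧ s * b ∈ (q.comap ((aeval τ : O[X] →ₐ[O] B) : O[X] →+* B)).map
      ((aeval τ : O[X] →ₐ[O] B) : O[X] →+* B) := by
  let _ : Algebra O[X] B := ((aeval τ : O[X] →ₐ[O] B) : O[X] →+* B).toAlgebra
  have _ : Algebra.Etale O[X] B := hτ
  exact cpu_unr_gen (R := O[X]) (S := B) q b hb

theorem cpu_alg (τ : B) (hτ : ((aeval τ : O[X] →ₐ[O] B) : O[X] →+* B).Etale) (hq : q.IsPrime)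
    (hf : Finite (O[X] ⧸ q.comap ((aeval τ : O[X] →ₐ[O] B) : O[X] →+* B))) : Finite (B ⧸ q) := by
  let _ : Algebra O[X] B := ((aeval τ : O[X] →ₐ[O] B) : O[X] →+* B).toAlgebra
  have _ : Algebra.Etale O[X] B := hτ
  exact cpu_alg_gen (R := O[X]) (S := B) q hf

end Pool.Agent.ESH
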