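import Pool.Agent.ESH.CPW
import Pool.Agent.ESH.CPE
import Pool.Agent.ESH.CPD
import Pool.Agent.ESH.CPU
import Pool.Agent.ESH.CPP

/-!
# ESH / CPR: local parameters at the closed points of the special fibre

`τ` from CPE, `q₀ = q ∩ O[X]`, a prime containing the maximal ideal `(π)` of `O`.  If `q₀ = πO[X]` then by `cpu_unr` for `b ∈ q` there is
`s ∉ q` with `s b ∈ πB`; `πB` is prime (`cpa_prime`) and `s ∉ πB ⊆ q`, so `b ∈ πB`, so `q = πB`: contradiction (`cpr_ne`).
So CPP applies.  `cpr_fin`: `cpu_alg`.  `cpr`: `t = g(τ)`.  `NU`: `g(τ) ∈ q`.  Generation: a non-unit `a = b/s'`, `b ∈ q` (`cpl_nu`);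
`s b ∈ q₀ B = πB + g(τ)B`.  Derivation: `D₀` from CPD, `D₀ t = g'(τ)` (chain rule for polynomials with coefficients in `O`),
`g'(τ) ∉ q` as `g' ∉ q₀`, so a unit of `locP F q`; `D = D₀/g'(τ)`; `D` maps `b/s` to `(s D b - b D s)/s²`.
-/

namespace Pool.Agent.ESH

open Polynomial IsLocalRing

universe u

variable {O B F : Type u} [CommRing O] [IsDomain O] [IsDiscreteValuationRing O] [CommRing B] [IsDomain B]
  [Field F] [Algebra O B] [Algebra B F] [Algebra O F] {q : Ideal B}

variable {K : Type*} [Field K] [Algebra O K] [IsFractionRing O K] [Algebra K F] [IsScalarTower O K F]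


omit [IsDomain O] [IsDiscreteValuationRing O] [IsDomain B] in
private theorem aev_C (τ : B) (a : O) :
    ((aeval τ : O[X] →ₐ[O] B) : O[X] →+* B) (C a) = algebraMap O B a := by
  simp

omit [IsDomain B] in
private theorem map_C_map (τ : B) :
    ((maximalIdeal O).map (Polynomial.C : O →+* O[X])).map ((aeval τ : O[X] →ₐ[O] B) : O[X] →+* B) =
      sfI O B := by
  rw [Ideal.map_map]
  congr 1
  ext a
  exact aev_C τ a

theorem cpr_ne (h : IsChart O B F q) (hne : q ≠ sfI O B) (τ : B)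
    (hτ : ((aeval τ : O[X] →ₐ[O] B) : O[X] →+* B).Etale) :
    q.comap ((aeval τ : O[X] →ₐ[O] B) : O[X] →+* B) ≠ (maximalIdeal O).map (Polynomial.C : O →+* O[X]) := by
  intro heq
  apply hne
  refine le_antisymm ?_ h.le
  intro b hb
  obtain ⟨s, hs, hsb⟩ := cpu_unr τ hτ h.prime b hb
  rw [heq, map_C_map] at hsb
  rcases (cpa_prime h).mem_or_mem hsb with h1 | h1
  · exact absurd (h.le h1) hs
  · exact h1

private theorem cpr_le (h : IsChart O B F q) (τ : B) :
    (maximalIdeal O).map (Polynomial.C : O →+* O[X]) ≤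
      q.comap ((aeval τ : O[X] →ₐ[O] B) : O[X] →+* B) := by
  rw [Ideal.map_le_iff_le_comap]
  intro a ha
  rw [Ideal.mem_comap, Ideal.mem_comap, aev_C]
  exact h.le (Ideal.mem_map_of_mem _ ha)

theorem cpr_fin [Finite (ResidueField O)] (h : IsChart O B F q) (hne : q ≠ sfI O B) : Finite (B ⧸ q) := by
  obtain ⟨τ, hτ⟩ := cpe h.smooth
  have hq := h.prime
  have hq₀ : (q.comap ((aeval τ : O[X] →ₐ[O] B) : O[X] →+* B)).IsPrime := Ideal.IsPrime.comap _
  exact cpu_alg τ hτ hq (cpp _ hq₀ (cpr_le h τ) (cpr_ne h hne τ hτ)).1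

omit [IsDomain B] in
private theorem locP_alg [hq : q.IsPrime] (b : B) : algebraMap B F b ∈ locP F q :=
  ⟨b, 1, fun h1 => hq.ne_top ((Ideal.eq_top_iff_one q).2 h1), by rw [map_one, mul_one]⟩

omit [IsDomain B] in
private theorem locP_inv [hq : q.IsPrime] [IsFractionRing B F] (s : B) (hs : s ∉ q) :
    algebraMap B F s ≠ 0 ∧ (algebraMap B F s)⁻¹ ∈ locP F q := by
  have h0 : algebraMap B F s ≠ 0 := by
    intro h0
    apply hs
    rw [IsFractionRing.injective B F (h0.trans (map_zero _).symm)]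
    exact q.zero_mem
  exact ⟨h0, 1, s, hs, by rw [inv_mul_cancel₀ h0, map_one]⟩

theorem cpr [Finite (ResidueField O)] (h : IsChart O B F q) [hq : q.IsPrime] (hne : q ≠ sfI O B) :
    ∃ t : F, NU (locP F q) t ∧
      (∀ a, NU (locP F q) a → ∃ c ∈ IsLocalRing.maximalIdeal O, ∃ x ∈ locP F q, ∃ y ∈ locP F q,
        a = algebraMap O F c * x + t * y) ∧
      ∃ D : Derivation K F F, D t = 1 ∧ ∀ a ∈ locP F q, D a ∈ locP F q := by
  haveI := h.tower
  haveI := h.frac
  obtain ⟨τ, hτ⟩ := cpe h.smooth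
  have hq₀ : (q.comap ((aeval τ : O[X] →ₐ[O] B) : O[X] →+* B)).IsPrime := Ideal.IsPrime.comap _
  obtain ⟨-, g, -, hg, hg', hgq⟩ := cpp _ hq₀ (cpr_le h τ) (cpr_ne h hne τ hτ)
  have h1q : (1 : B) ∉ q := fun h1 => hq.ne_top ((Ideal.eq_top_iff_one q).2 h1)
  have hgt : aeval τ g ∈ q := hg
  have hgt' : aeval τ (derivative g) ∉ q := hg'
  refine ⟨algebraMap B F (aeval τ g), ?_, ?_, ?_⟩
  · rw [cpl_nu]
    exact ⟨_, hgt, 1, h1q, by rw [map_one, mul_one]⟩
  · intro a ha
    rw [cpl_nu] at ha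
    obtain ⟨b, hb, s', hs', hab⟩ := ha
    obtain ⟨s, hs, hsb⟩ := cpu_unr τ hτ hq b hb
    rw [hgq, Ideal.map_sup, map_C_map, Ideal.map_span, Set.image_singleton] at hsb
    obtain ⟨z, hz, w, hw, hzw⟩ := Submodule.mem_sup.1 hsb
    obtain ⟨p, hp⟩ := IsDiscreteValuationRing.exists_irreducible O
    rw [sfI, hp.maximalIdeal_eq, Ideal.map_span, Set.image_singleton] at hz
    obtain ⟨z', hz'⟩ := Ideal.mem_span_singleton'.1 hz
    obtain ⟨w', hw'⟩ := Ideal.mem_span_singleton'.1 hw
    have hss : s * s' ∉ q := fun h0 => (hq.mem_or_mem h0).elim hs hs'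
    obtain ⟨h0, hinv⟩ := locP_inv (F := F) (s * s') hss
    refine ⟨p, ?_, algebraMap B F z' * (algebraMap B F (s * s'))⁻¹,
      (locP F q).mul_mem (locP_alg z') hinv, algebraMap B F w' * (algebraMap B F (s * s'))⁻¹,
      (locP F q).mul_mem (locP_alg w') hinv, ?_⟩
    · rw [hp.maximalIdeal_eq]
      exact Ideal.mem_span_singleton_self p
    · have h2 : a * algebraMap B F (s * s') = algebraMap B F (s * b) := by
        rw [map_mul, map_mul, ← hab]; ring
      have h3 : algebraMap B F (s * b) =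
          algebraMap O F p * algebraMap B F z' + algebraMap B F (aeval τ g) * algebraMap B F w' := by
        rw [← hzw, ← hz', ← hw', IsScalarTower.algebraMap_apply O B F, ← map_mul, ← map_mul, ← map_add]
        congr 1
        change z' * algebraMap O B p + w' * aeval τ g = _
        ring
      field_simp
      rw [h2, h3]
  · obtain ⟨D₀, hD1, hD2⟩ := cpd (K := K) (F := F) τ hτ
    have hchain : D₀ (algebraMap B F (aeval τ g)) = algebraMap B F (aeval τ (derivative g)) := by
      have e1 : ∀ r : O[X], algebraMap B F (aeval τ r) =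
          aeval (algebraMap B F τ) (r.map (algebraMap O K)) := by
        intro r
        rw [Polynomial.aeval_map_algebraMap, Polynomial.aeval_algebraMap_apply]
      rw [e1, e1, Derivation.map_aeval, hD1, ← Polynomial.derivative_map, smul_eq_mul, mul_one]
    obtain ⟨h0, hinv⟩ := locP_inv (F := F) _ hgt'
    refine ⟨(algebraMap B F (aeval τ (derivative g)))⁻¹ • D₀, ?_, ?_⟩
    · rw [Derivation.smul_apply, hchain, smul_eq_mul, inv_mul_cancel₀ h0]
    · intro a ha
      rw [Derivation.smul_apply, smul_eq_mul]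
      refine (locP F q).mul_mem hinv ?_
      have ha' := ha
      obtain ⟨b, s, hs, hab⟩ := ha
      obtain ⟨hs0, hsinv⟩ := locP_inv (F := F) s hs
      have h4 := congrArg D₀ hab
      rw [Derivation.leibniz, smul_eq_mul, smul_eq_mul] at h4
      obtain ⟨s1, hs1⟩ := hD2 s
      obtain ⟨b1, hb1⟩ := hD2 b
      rw [hs1, hb1] at h4
      have h5 : D₀ a = (algebraMap B F b1 - a * algebraMap B F s1) * (algebraMap B F s)⁻¹ := by
        field_simp
        linear_combination h4
      rw [h5]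
      exact (locP F q).mul_mem ((locP F q).sub_mem (locP_alg b1)
        ((locP F q).mul_mem ha' (locP_alg s1))) hsinv

end Pool.Agent.ESH
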