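import Pool.Agent.ESH.CPA

/-!
# ESH / CPW: the valuation ring of the generic point of the special fibre

Let `π` generate the maximal ideal of `O`; `sfI O B = πB` is prime and `π ≠ 0` in `B` (CPA).  By Krull (`B` a noetherian domain,
`⋂ π^n B = 0`: `Ideal.iInf_pow_eq_bot_of_isDomain`) every `b ≠ 0` in `B` is `π^n b'` with `b' ∉ πB`; so every `f ≠ 0` in `F`
is `π^n u` with `n ∈ ℤ` and `u, u⁻¹ ∈ locP F (πB)` (`cpw_unif`).  So `locP F (πB)` is a valuation ring of `F`.
`cpw_nu`: non-units are the `b/s` with `b ∈ πB` (`cpl_nu`).  `cpw_scale` from `cpw_unif`.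
`cpw_base`: if `x ∈ K` is not in `O` then `x⁻¹ = π y`, `y ∈ O` (`O` is a valuation ring); `x ∈ W₀` would make
`π` a unit of `W₀`, but `π ∈ πB`, contradiction with `cpw_nu`.
-/

namespace Pool.Agent.ESH

open Polynomial IsLocalRing

universe u

variable {O B F : Type u} [CommRing O] [IsDomain O] [IsDiscreteValuationRing O] [CommRing B] [IsDomain B]
  [Field F] [Algebra O B] [Algebra B F] [Algebra O F] {q : Ideal B}

variable {K : Type*} [Field K] [Algebra O K] [IsFractionRing O K] [Algebra K F] [IsScalarTower O K F]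

omit [IsDomain B] in
theorem cpw_span (p : O) (hpi : Irreducible p) : sfI O B = Ideal.span {algebraMap O B p} := by
  rw [sfI, (IsDiscreteValuationRing.irreducible_iff_uniformizer p).1 hpi, Ideal.map_span,
    Set.image_singleton]

theorem cpw_unif (h : IsChart O B F q) [hp : (sfI O B).IsPrime] (p : O) (hpi : Irreducible p) (f : F)
    (hf : f ≠ 0) : ∃ (n : ℤ) (u : F), u ∈ locP F (sfI O B) ∧ u⁻¹ ∈ locP F (sfI O B) ∧
      f = algebraMap O F p ^ n * u := by
  have ht : IsScalarTower O B F := h.tower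
  have hfr : IsFractionRing B F := h.frac
  have hno : IsNoetherianRing B := cpa_noeth h
  have hspan := cpw_span (B := B) p hpi
  have hp0 : algebraMap O B p ≠ 0 := by
    intro h0
    exact hpi.ne_zero (cpa_inj h (by rw [h0, map_zero]))
  have hprime : Prime (algebraMap O B p) := by
    rw [← Ideal.span_singleton_prime hp0, ← hspan]
    exact hp
  have hmem : ∀ b : B, b ∈ sfI O B ↔ algebraMap O B p ∣ b := by
    intro b
    rw [hspan, Ideal.mem_span_singleton]
  obtain ⟨b, s, hs, rfl⟩ := IsFractionRing.div_surjective (A := B) f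
  have hinj := IsFractionRing.injective B F
  have hs0 : s ≠ 0 := nonZeroDivisors.ne_zero hs
  have hb0 : b ≠ 0 := by
    rintro rfl
    apply hf
    rw [map_zero, zero_div]
  obtain ⟨n, c, hc, hbc⟩ := WfDvdMonoid.max_power_factor hb0 hprime.irreducible
  obtain ⟨m, d, hd, hsd⟩ := WfDvdMonoid.max_power_factor hs0 hprime.irreducible
  have hc0 : algebraMap B F c ≠ 0 := by
    intro hz
    apply hc
    have : c = 0 := hinj (by rw [hz, map_zero])
    rw [this]
    exact dvd_zero _
  have hd0 : algebraMap B F d ≠ 0 := by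
    intro hz
    apply hd
    have : d = 0 := hinj (by rw [hz, map_zero])
    rw [this]
    exact dvd_zero _
  have hpF : algebraMap O F p ≠ 0 := by
    rw [IsScalarTower.algebraMap_apply O B F]
    intro hz
    exact hp0 (hinj (by rw [hz, map_zero]))
  refine ⟨(n : ℤ) - m, algebraMap B F c / algebraMap B F d, ?_, ?_, ?_⟩
  · exact ⟨c, d, fun hin => hd ((hmem d).1 hin), div_mul_cancel₀ _ hd0⟩
  · rw [inv_div]
    exact ⟨d, c, fun hin => hc ((hmem c).1 hin), div_mul_cancel₀ _ hc0⟩
  · rw [hbc, hsd, map_mul, map_mul, map_pow, map_pow, ← IsScalarTower.algebraMap_apply,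
      zpow_sub₀ hpF, zpow_natCast, zpow_natCast]
    field_simp

theorem cpw (h : IsChart O B F q) [hp : (sfI O B).IsPrime] :
    ∃ W₀ : ValuationSubring F, ∀ f : F, f ∈ W₀ ↔ f ∈ locP F (sfI O B) := by
  have ht : IsScalarTower O B F := h.tower
  obtain ⟨p, hpi⟩ := IsDiscreteValuationRing.exists_irreducible O
  have hpm : algebraMap O F p ∈ locP F (sfI O B) := by
    refine ⟨algebraMap O B p, 1, ?_, ?_⟩
    · intro h1
      exact hp.ne_top ((Ideal.eq_top_iff_one _).2 h1)
    · rw [map_one, mul_one, ← IsScalarTower.algebraMap_apply]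
  refine ⟨⟨locP F (sfI O B), ?_⟩, fun f => Iff.rfl⟩
  intro f
  by_cases hf : f = 0
  · left; rw [hf]; exact (locP F (sfI O B)).zero_mem
  obtain ⟨n, u, hu, hu', rfl⟩ := cpw_unif h p hpi f hf
  rcases le_total 0 n with hn | hn
  · left
    lift n to ℕ using hn
    rw [zpow_natCast]
    exact (locP F (sfI O B)).mul_mem (pow_mem hpm n) hu
  · right
    obtain ⟨m, rfl⟩ : ∃ m : ℕ, n = -(m : ℤ) := ⟨n.natAbs, by omega⟩
    rw [zpow_neg, mul_inv, inv_inv, zpow_natCast]
    exact (locP F (sfI O B)).mul_mem (pow_mem hpm m) hu'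

theorem cpw_nu (h : IsChart O B F q) [hp : (sfI O B).IsPrime] (W₀ : ValuationSubring F)
    (hW : ∀ f : F, f ∈ W₀ ↔ f ∈ locP F (sfI O B)) (f : F) :
    f ∈ W₀.nonunits ↔ ∃ b ∈ sfI O B, ∃ s : B, s ∉ sfI O B ∧ f * algebraMap B F s = algebraMap B F b := by
  have hfr : IsFractionRing B F := h.frac
  rw [← cpl_nu, ValuationSubring.mem_nonunits_iff_or, NU, ← hW, ← hW]
  constructor
  · intro h1
    refine ⟨?_, h1⟩
    rcases h1 with rfl | h1
    · exact W₀.zero_mem
    · exact (W₀.mem_or_inv_mem f).resolve_right h1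
  · exact fun h1 => h1.2

theorem cpw_scale (h : IsChart O B F q) [hp : (sfI O B).IsPrime] (W₀ : ValuationSubring F)
    (hW : ∀ f : F, f ∈ W₀ ↔ f ∈ locP F (sfI O B)) (f : F) (hf : f ≠ 0) :
    ∃ c : K, c ≠ 0 ∧ f / algebraMap K F c ∈ W₀ ∧ algebraMap K F c / f ∈ W₀ := by
  have ht : IsScalarTower O B F := h.tower
  obtain ⟨p, hpi⟩ := IsDiscreteValuationRing.exists_irreducible O
  obtain ⟨n, u, hu, hu', rfl⟩ := cpw_unif h p hpi f hf
  have hpK : algebraMap O K p ≠ 0 := by
    intro hz
    exact hpi.ne_zero (IsFractionRing.injective O K (by rw [hz, map_zero]))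
  have hc : algebraMap K F (algebraMap O K p ^ n) = algebraMap O F p ^ n := by
    rw [map_zpow₀, ← IsScalarTower.algebraMap_apply]
  have hc0 : algebraMap O F p ^ n ≠ 0 := left_ne_zero_of_mul hf
  have hu0 : u ≠ 0 := right_ne_zero_of_mul hf
  refine ⟨algebraMap O K p ^ n, zpow_ne_zero _ hpK, ?_, ?_⟩
  · rw [hc, mul_div_cancel_left₀ _ hc0, hW]
    exact hu
  · rw [hc, div_mul_cancel_left₀ hc0, hW]
    exact hu'

theorem cpw_base (h : IsChart O B F q) [hp : (sfI O B).IsPrime] (W₀ : ValuationSubring F)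
    (hW : ∀ f : F, f ∈ W₀ ↔ f ∈ locP F (sfI O B)) (x : K) :
    algebraMap K F x ∈ W₀ ↔ x ∈ Set.range (algebraMap O K) := by
  have ht : IsScalarTower O B F := h.tower
  have h1 : (1 : B) ∉ sfI O B := fun h1 => hp.ne_top ((Ideal.eq_top_iff_one _).2 h1)
  constructor
  · intro hx
    by_cases hx0 : x = 0
    · exact ⟨0, by rw [hx0, map_zero]⟩
    rcases ValuationRing.isInteger_or_isInteger O x with ⟨y, hy⟩ | ⟨y, hy⟩
    · exact ⟨y, hy⟩
    by_cases hu : IsUnit y
    · obtain ⟨v, rfl⟩ := hu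
      refine ⟨(↑v⁻¹ : O), ?_⟩
      have h2 : algebraMap O K (v : O) * algebraMap O K (↑v⁻¹ : O) = 1 := by
        rw [← map_mul, Units.mul_inv, map_one]
      rw [hy] at h2
      have h3 : x ≠ 0 := by
        rintro rfl
        rw [inv_zero, zero_mul] at h2
        exact zero_ne_one h2
      have h4 := congrArg (fun z => x * z) h2
      simp only [mul_one, mul_inv_cancel_left₀ h3] at h4
      exact h4
    · exfalso
      have h2 : algebraMap K F x⁻¹ ∈ W₀.nonunits := by
        rw [cpw_nu h W₀ hW]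
        refine ⟨algebraMap O B y, Ideal.mem_map_of_mem _ hu, 1, h1, ?_⟩
        rw [map_one, mul_one, ← hy, ← IsScalarTower.algebraMap_apply, ← IsScalarTower.algebraMap_apply]
      rw [map_inv₀, ValuationSubring.inv_mem_nonunits_iff] at h2
      rcases h2 with h2 | h2
      · exact hx0 (by rwa [map_eq_zero] at h2)
      · exact h2 hx
  · rintro ⟨o, rfl⟩
    rw [hW, ← IsScalarTower.algebraMap_apply]
    exact ⟨algebraMap O B o, 1, h1, by rw [map_one, mul_one, ← IsScalarTower.algebraMap_apply]⟩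

end Pool.Agent.ESH
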