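import Pool.Agent.ESH.Defs2

/-!
# ESH / CVU: valuation rings of an algebraic extension and finite places

Proof of `cvu_exists`.  The image in `C` of the local ring `{x ∈ K | v x ≤ 1}` is a local subring; it is dominated
by a valuation subring `V` of `C` (Zorn; Mathlib `LocalSubring`, `IsMax` gives a valuation ring, or
`exists_le_valuationSubring...`).  `V ∩ K` contains the valuation ring of `v` and dominates it, and a valuation ring
is maximal for domination, so `V ∩ K` is the valuation ring of `v`.
Proof of `cvu_under`.  `𝓞 K ⊆ V` (integral elements).  `𝔭 = {a ∈ 𝓞 K | a ∈ V.nonunits}` is a prime ideal; if it were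
`0`, then `K ⊆ V` (quotients of elements of `𝓞 K`, which are units of `V`) and `C`, being algebraic over `K`, would be
contained in `V` (integrally closed), so `V = ⊤`.  So `𝔭` is a height one prime `v`; the valuation ring of `v`
(fractions `a/s`, `s ∉ 𝔭`) is contained in `V`, and if `v x > 1` then `x⁻¹ ∈ V.nonunits` so `x ∉ V`.
`cvu_unique`: the valuation ring of `v` determines `v`.
`cvu_frac`: elements with `v x ≤ 1` are fractions with denominator prime to `v`
(localization of the Dedekind domain at a prime).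
-/

namespace Pool.Agent.ESH

open NumberField IsDedekindDomain

variable {K C : Type*} [Field K] [NumberField K] [Field C] [Algebra K C]

private lemma cvu_uni (v : HeightOneSpectrum (𝓞 K)) : ∃ x : K, 1 < v.valuation K x := by
  obtain ⟨π, hπ⟩ := v.valuation_exists_uniformizer K
  have h0 : v.valuation K π ≠ 0 := by
    rw [hπ]
    exact WithZero.exp_ne_zero
  refine ⟨π⁻¹, ?_⟩
  rw [map_inv₀, hπ, ← WithZero.exp_neg, ← WithZero.exp_zero, WithZero.exp_lt_exp]
  norm_num

theorem cvu_ne_top (V : ValuationSubring C) (v : HeightOneSpectrum (𝓞 K)) (h : VOver V v) :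
    V ≠ ⊤ := by
  intro hV
  obtain ⟨x, hx⟩ := cvu_uni v
  have : algebraMap K C x ∈ V := by
    rw [hV]
    exact ValuationSubring.mem_top _
  exact absurd ((h x).1 this) (not_le.2 hx)

theorem cvu_exists (v : HeightOneSpectrum (𝓞 K)) :
    ∃ V : ValuationSubring C, V ≠ ⊤ ∧ VOver V v := by
  obtain ⟨V, h, hloc⟩ := IsLocalRing.exists_factor_valuationRing (K := C)
    (R := (v.valuation K).valuationSubring)
    ((algebraMap K C).comp (v.valuation K).valuationSubring.subtype)
  have hV : VOver V v := by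
    intro x
    constructor
    · intro hx
      by_contra hcon
      rw [not_le] at hcon
      have hx0 : x ≠ 0 := by
        rintro rfl
        rw [map_zero] at hcon
        exact absurd hcon (not_lt.2 zero_le)
      have hinv : v.valuation K x⁻¹ < 1 := by
        rw [map_inv₀]
        exact inv_lt_one_of_one_lt₀ hcon
      have hr : x⁻¹ ∈ (v.valuation K).valuationSubring := hinv.le
      have hu : IsUnit (((algebraMap K C).comp (v.valuation K).valuationSubring.subtype).codRestrict
          V.toSubring h ⟨x⁻¹, hr⟩) := by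
        refine isUnit_iff_exists_inv.2 ⟨⟨algebraMap K C x, hx⟩, ?_⟩
        apply Subtype.ext
        change algebraMap K C x⁻¹ * algebraMap K C x = 1
        rw [← map_mul, inv_mul_cancel₀ hx0, map_one]
      have hu2 : IsUnit (⟨x⁻¹, hr⟩ : (v.valuation K).valuationSubring) := hloc.map_nonunit _ hu
      obtain ⟨⟨y, hy⟩, hxy⟩ := isUnit_iff_exists_inv.1 hu2
      have h1 : x⁻¹ * y = 1 := congrArg Subtype.val hxy
      have h2 : y = x := by
        field_simp at h1
        exact h1
      rw [h2] at hy
      exact absurd hy (not_le.2 hcon)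
    · intro hx
      exact h ⟨x, hx⟩
  exact ⟨V, cvu_ne_top V v hV, hV⟩

theorem cvu_under [Algebra.IsAlgebraic K C] (V : ValuationSubring C) (hV : V ≠ ⊤) :
    ∃ v : HeightOneSpectrum (𝓞 K), VOver V v := by
  obtain ⟨W, hW⟩ : ∃ W : ValuationSubring K, W = V.comap (algebraMap K C) := ⟨_, rfl⟩
  have hWm : ∀ x : K, x ∈ W ↔ algebraMap K C x ∈ V := by
    intro x
    rw [hW]
    rfl
  have hWt : W ≠ ⊤ := by
    intro hWt
    apply hV
    rw [_root_.eq_top_iff]
    intro z _
    have hint : IsIntegral K z := Algebra.IsIntegral.isIntegral z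
    have hint2 : IsIntegral V z := by
      obtain ⟨P, hP1, hP2⟩ := hint
      have hmem : ∀ x : K, algebraMap K C x ∈ V.toSubring := by
        intro x
        have : x ∈ W := by rw [hWt]; exact ValuationSubring.mem_top _
        exact (hWm x).1 this
      refine ⟨P.map ((algebraMap K C).codRestrict V.toSubring hmem), hP1.map _, ?_⟩
      rw [Polynomial.eval₂_map]
      exact hP2
    obtain ⟨y, hy⟩ := IsIntegrallyClosed.isIntegral_iff.1 hint2
    rw [← hy]
    exact y.2
  have hO : ∀ a : 𝓞 K, (a : K) ∈ W.toSubring := by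
    intro a
    have hint : IsIntegral W (a : K) := a.2.tower_top
    obtain ⟨y, hy⟩ := IsIntegrallyClosed.isIntegral_iff.1 hint
    rw [← hy]
    exact y.2
  obtain ⟨f, hf⟩ : ∃ f : 𝓞 K →+* W, ∀ a, ((f a : W) : K) = (a : K) :=
    ⟨(algebraMap (𝓞 K) K).codRestrict W.toSubring hO, fun _ => rfl⟩
  obtain ⟨P, hP⟩ : ∃ P : Ideal (𝓞 K), P = (IsLocalRing.maximalIdeal W).comap f := ⟨_, rfl⟩
  have hprime : P.IsPrime := by
    rw [hP]
    exact Ideal.comap_isPrime _ _
  have hPm : ∀ a : 𝓞 K, a ∉ P → IsUnit (f a) := by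
    intro a ha
    rw [hP, Ideal.mem_comap, IsLocalRing.mem_maximalIdeal, mem_nonunits_iff, not_not] at ha
    exact ha
  have hPinv : ∀ a : 𝓞 K, a ∉ P → ((a : K))⁻¹ ∈ W := by
    intro a ha
    obtain ⟨y, hy⟩ := isUnit_iff_exists_inv.1 (hPm a ha)
    have h1 : (a : K) * (y : K) = 1 := by
      rw [← hf a]
      exact congrArg Subtype.val hy
    have h2 : ((a : K))⁻¹ = (y : K) := inv_eq_of_mul_eq_one_right h1
    rw [h2]
    exact y.2
  have hne : P ≠ ⊥ := by
    intro hbot
    apply hWt
    rw [_root_.eq_top_iff]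
    intro x _
    obtain ⟨a, b, hb, rfl⟩ := IsFractionRing.div_surjective (A := 𝓞 K) x
    rw [div_eq_mul_inv]
    refine W.mul_mem _ _ (hO a) (hPinv b ?_)
    rw [hbot, Ideal.mem_bot]
    exact nonZeroDivisors.ne_zero hb
  refine ⟨⟨P, hprime, hne⟩, ?_⟩
  have hle : HeightOneSpectrum.valuationSubringAtPrime K (⟨P, hprime, hne⟩ :
      HeightOneSpectrum (𝓞 K)) ≤ W := by
    rintro x ⟨a, s, hs, rfl⟩
    exact W.mul_mem _ _ (hO a) (hPinv s hs)
  have heq := ValuationSubring.eq_of_le_of_ne_top _ hle hWt
  rw [HeightOneSpectrum.valuationSubringAtPrime_eq_valuationSubring] at heq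
  intro x
  rw [← hWm x, ← heq]
  rfl

theorem cvu_unique (V : ValuationSubring C) (v v' : HeightOneSpectrum (𝓞 K)) (h : VOver V v)
    (h' : VOver V v') : v = v' := by
  refine HeightOneSpectrum.eq_of_valuation_isEquiv_valuation (K := K) ?_
  rw [Valuation.isEquiv_iff_val_le_one]
  intro x
  rw [← h x, ← h' x]

theorem cvu_frac (v : HeightOneSpectrum (𝓞 K)) (x : K) (hx : v.valuation K x ≤ 1) :
    ∃ a s : 𝓞 K, s ∉ v.asIdeal ∧ x * s = a := by
  obtain ⟨a, s, h⟩ := HeightOneSpectrum.exists_primeCompl_mul_eq_of_integer v x hx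
  exact ⟨a, s, s.2, h⟩

/-- residue characteristic: `p ∉ v` means that `p` is a unit of `V` -/
theorem cvu_prime (V : ValuationSubring C) (v : HeightOneSpectrum (𝓞 K)) (h : VOver V v) (a : 𝓞 K) :
    (a ∈ v.asIdeal ↔ algebraMap K C a ∈ V.nonunits) := by
  rw [ValuationSubring.mem_nonunits_iff_or, ← map_inv₀, h]
  rw [← v.valuation_lt_one_iff_mem (K := K)]
  by_cases ha : a = 0
  · subst ha
    simp
  · have ha' : (a : K) ≠ 0 := by
      intro h0
      exact ha (by exact_mod_cast h0)
    have h0 : v.valuation K (a : K) ≠ 0 := (Valuation.ne_zero_iff _).2 ha'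
    constructor
    · intro h1
      right
      rw [not_le, map_inv₀]
      exact (one_lt_inv₀ (zero_lt_iff.2 h0)).2 h1
    · rintro (h1 | h1)
      · exact absurd ((map_eq_zero _).1 h1) ha'
      · rw [not_le, map_inv₀] at h1
        exact (one_lt_inv₀ (zero_lt_iff.2 h0)).1 h1

end Pool.Agent.ESH
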