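import Mathlib

/-!
# ESH / MTX: row diagonally dominant matrices

Proof of (1).  With `s_j = sign(β_j)`: `∑_j |∑_i β_i M_ij| ≥ ∑_j s_j ∑_i β_i M_ij = ∑_i β_i ∑_j s_j M_ij`
`≥ ∑_i |β_i| (M_ii - ∑_{j≠i} |M_ij|) = ∑_i |β_i| ∑_j M_ij ≥ ∑_i |β_i|`, because `β_i s_i = |β_i|` and
`β_i s_j M_ij ≥ - |β_i| |M_ij|`, `|M_ij| = - M_ij` for `i ≠ j`.
(2): by (1) the linear map `β ↦ (∑_i β_i M_ij)_j` is injective, so surjective (finite dimension).
-/

namespace Pool.Agent.ESH

theorem mtx_le {I : Type*} [Fintype I] [DecidableEq I] (A : I → I → ℝ)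
    (hoff : ∀ i j, i ≠ j → A i j ≤ 0) (hrow : ∀ i, 1 ≤ ∑ j, A i j) (β : I → ℝ) :
    ∑ i, |β i| ≤ ∑ j, |∑ i, β i * A i j| := by
  -- the sign function
  obtain ⟨s, hs1, hs2⟩ : ∃ s : I → ℝ, (∀ j, |s j| ≤ 1) ∧ (∀ j, s j * β j = |β j|) := by
    refine ⟨fun j => if 0 ≤ β j then 1 else -1, fun j => ?_, fun j => ?_⟩
    · dsimp only
      split_ifs <;> simp
    · dsimp only
      split_ifs with h
      · rw [one_mul, abs_of_nonneg h]
      · rw [abs_of_neg (not_le.1 h)]
        ring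
  have h1 : ∑ j, s j * ∑ i, β i * A i j ≤ ∑ j, |∑ i, β i * A i j| := by
    refine Finset.sum_le_sum fun j _ => ?_
    calc s j * ∑ i, β i * A i j ≤ |s j * ∑ i, β i * A i j| := le_abs_self _
      _ = |s j| * |∑ i, β i * A i j| := abs_mul _ _
      _ ≤ 1 * |∑ i, β i * A i j| := mul_le_mul_of_nonneg_right (hs1 j) (abs_nonneg _)
      _ = |∑ i, β i * A i j| := one_mul _
  have h2 : ∑ j, s j * ∑ i, β i * A i j = ∑ i, ∑ j, s j * (β i * A i j) := by
    rw [Finset.sum_comm]
    exact Finset.sum_congr rfl fun j _ => Finset.mul_sum _ _ _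
  have h3 : ∀ i, |β i| ≤ ∑ j, s j * (β i * A i j) := by
    intro i
    have h4 : ∀ j, |β i| * A i j ≤ s j * (β i * A i j) := by
      intro j
      by_cases hij : i = j
      · subst hij
        rw [← mul_assoc, hs2]
      · have h5 := hoff i j hij
        have h6 : s j * β i ≤ |β i| := by
          calc s j * β i ≤ |s j * β i| := le_abs_self _
            _ = |s j| * |β i| := abs_mul _ _
            _ ≤ 1 * |β i| := mul_le_mul_of_nonneg_right (hs1 j) (abs_nonneg _)
            _ = |β i| := one_mul _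
        rw [← mul_assoc]
        exact mul_le_mul_of_nonpos_right h6 h5
    calc |β i| = |β i| * 1 := (mul_one _).symm
      _ ≤ |β i| * ∑ j, A i j := mul_le_mul_of_nonneg_left (hrow i) (abs_nonneg _)
      _ = ∑ j, |β i| * A i j := Finset.mul_sum _ _ _
      _ ≤ _ := Finset.sum_le_sum fun j _ => h4 j
  calc ∑ i, |β i| ≤ ∑ i, ∑ j, s j * (β i * A i j) := Finset.sum_le_sum fun i _ => h3 i
    _ = ∑ j, s j * ∑ i, β i * A i j := h2.symm
    _ ≤ _ := h1

theorem mtx_solve {I : Type*} [Fintype I] [DecidableEq I] (A : I → I → ℝ)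
    (hoff : ∀ i j, i ≠ j → A i j ≤ 0) (hrow : ∀ i, 1 ≤ ∑ j, A i j) (u : I → ℝ) :
    ∃ β : I → ℝ, ∀ j, ∑ i, β i * A i j = u j := by
  let L : (I → ℝ) →ₗ[ℝ] (I → ℝ) :=
    { toFun := fun β j => ∑ i, β i * A i j
      map_add' := fun β γ => by
        funext j
        simp only [Pi.add_apply, add_mul, Finset.sum_add_distrib]
      map_smul' := fun r β => by
        funext j
        simp only [Pi.smul_apply, smul_eq_mul, RingHom.id_apply, Finset.mul_sum, mul_assoc] }
  have hinj : Function.Injective L := by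
    rw [← LinearMap.ker_eq_bot, LinearMap.ker_eq_bot']
    intro β hβ
    have h1 := mtx_le A hoff hrow β
    have h2 : ∑ j, |∑ i, β i * A i j| = 0 := by
      refine Finset.sum_eq_zero fun j _ => ?_
      have : ∑ i, β i * A i j = 0 := congrFun hβ j
      rw [this, abs_zero]
    rw [h2] at h1
    have h3 : ∑ i, |β i| = 0 := le_antisymm h1 (Finset.sum_nonneg fun i _ => abs_nonneg _)
    rw [Finset.sum_eq_zero_iff_of_nonneg (fun i _ => abs_nonneg _)] at h3
    funext i
    exact abs_eq_zero.1 (h3 i (Finset.mem_univ i))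
  have hsurj : Function.Surjective L := LinearMap.surjective_of_injective hinj
  obtain ⟨β, hβ⟩ := hsurj u
  exact ⟨β, fun j => congrFun hβ j⟩

end Pool.Agent.ESH
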