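import Pool.Agent.ESH.GAM
import Pool.Agent.ESH.MTX

/-!
# ESH / DEC: effective decomposition of S-units

Proof.  `A = siz M S`.  Fix an infinite place `p₀` and let `P` be the set of the other elements of
`InfinitePlace M ⊕ S`; `n = card P ≤ D + card S ≤ A` (`card S ≤ nrmS S` since each norm is `≥ 2`).  For `p ∈ P` let
`γ_p` be the unit of GAM with `star = p`, and `A p q = log (nn q γ_p)`.  Off-diagonal entries are
`≤ log(1/3) ≤ -1 ≤ 0`, the row sums are `∑_{q ∈ P} log nn q γ_p = - log nn p₀ γ_p ≥ log 3 ≥ 1` (product formula).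
Independence: if `(∏ γ_p^(q_p))^m = 1`, `m > 0`, then `∑_p q_p A p j = 0` for all `j`, so `q = 0` by `mtx_le`.
Decomposition: given `ξ`, put `ℓ_p = log nn p ξ`; `mtx_solve` gives real `β` with `∑_p β_p A p j = ℓ_j` and
`∑ |β_p| ≤ ∑_{p∈P} |ℓ_p| ≤ 2 h(ξ)` (`ht_sunit`).  Put `b_p = round β_p`, `|b_p| ≤ 2 h(ξ) + 1`.  For
`x₀ = ξ ∏ γ_p^(-b_p)`: `log nn j x₀ = ∑_p (β_p - b_p) A p j` for `j ∈ P`, and the same for `j = p₀` by the product
formula.  So `2 h(x₀) = ∑_j |log nn j x₀| ≤ (1/2) ∑_p ∑_j |log nn j γ_p| = ∑_p h(γ_p) ≤ n tw 9 A ≤ tw 10 A`.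
Finally re-index `P` by `Fin n`.
-/

namespace Pool.Agent.ESH

open NumberField Height

private lemma dec_pos {M : Type*} [Field M] [NumberField M] (S : Finset (FinitePlace M))
    (p : InfinitePlace M ⊕ S) {x : M} (hx : x ≠ 0) : 0 < nn S p x := by
  rcases p with w | v
  · change 0 < nInf w x
    unfold nInf
    exact pow_pos (InfinitePlace.pos_iff.2 hx) _
  · change 0 < (v : FinitePlace M) x
    exact FinitePlace.pos_iff.2 hx

private lemma dec_mul {M : Type*} [Field M] [NumberField M] (S : Finset (FinitePlace M))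
    (p : InfinitePlace M ⊕ S) (x y : M) : nn S p (x * y) = nn S p x * nn S p y := by
  rcases p with w | v
  · change nInf w (x * y) = nInf w x * nInf w y
    unfold nInf
    rw [map_mul, mul_pow]
  · change (v : FinitePlace M) (x * y) = (v : FinitePlace M) x * (v : FinitePlace M) y
    exact map_mul _ _ _

private lemma dec_one {M : Type*} [Field M] [NumberField M] (S : Finset (FinitePlace M))
    (p : InfinitePlace M ⊕ S) : nn S p (1 : M) = 1 := by
  have h := dec_mul S p (1 : M) 1
  rw [mul_one] at h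
  have h2 := dec_pos S p (one_ne_zero (α := M))
  exact (mul_eq_left₀ h2.ne').1 h.symm

/-- logarithm of the normalised absolute value -/
private noncomputable def decL {M : Type*} [Field M] [NumberField M] (S : Finset (FinitePlace M))
    (p : InfinitePlace M ⊕ S) (x : M) : ℝ := Real.log (nn S p x)

private lemma decL_mul {M : Type*} [Field M] [NumberField M] (S : Finset (FinitePlace M))
    (p : InfinitePlace M ⊕ S) {x y : M} (hx : x ≠ 0) (hy : y ≠ 0) :
    decL S p (x * y) = decL S p x + decL S p y := by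
  unfold decL
  rw [dec_mul, Real.log_mul (dec_pos S p hx).ne' (dec_pos S p hy).ne']

private lemma decL_one {M : Type*} [Field M] [NumberField M] (S : Finset (FinitePlace M))
    (p : InfinitePlace M ⊕ S) : decL S p (1 : M) = 0 := by
  unfold decL
  rw [dec_one, Real.log_one]

private lemma decL_pow {M : Type*} [Field M] [NumberField M] (S : Finset (FinitePlace M))
    (p : InfinitePlace M ⊕ S) {x : M} (hx : x ≠ 0) (n : ℕ) :
    decL S p (x ^ n) = n * decL S p x := by
  induction n with
  | zero => simp [decL_one]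
  | succ n ih =>
    rw [pow_succ, decL_mul S p (pow_ne_zero _ hx) hx, ih]
    push_cast
    ring

private lemma decL_inv {M : Type*} [Field M] [NumberField M] (S : Finset (FinitePlace M))
    (p : InfinitePlace M ⊕ S) {x : M} (hx : x ≠ 0) : decL S p (x⁻¹) = -decL S p x := by
  have h := decL_mul S p hx (inv_ne_zero hx)
  rw [mul_inv_cancel₀ hx, decL_one] at h
  linarith

private lemma decL_zpow {M : Type*} [Field M] [NumberField M] (S : Finset (FinitePlace M))
    (p : InfinitePlace M ⊕ S) {x : M} (hx : x ≠ 0) (n : ℤ) :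
    decL S p (x ^ n) = n * decL S p x := by
  rcases Int.eq_nat_or_neg n with ⟨k, rfl | rfl⟩
  · rw [zpow_natCast, decL_pow S p hx]
    push_cast
    ring
  · rw [zpow_neg, zpow_natCast, decL_inv S p (pow_ne_zero _ hx), decL_pow S p hx]
    push_cast
    ring

private lemma decL_prod {M : Type*} [Field M] [NumberField M] (S : Finset (FinitePlace M))
    (p : InfinitePlace M ⊕ S) {n : ℕ} (γ : Fin n → M) (hγ : ∀ i, γ i ≠ 0) (q : Fin n → ℤ) :
    decL S p (∏ i, γ i ^ q i) = ∑ i, (q i : ℝ) * decL S p (γ i) := by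
  have h : ∀ s : Finset (Fin n), decL S p (∏ i ∈ s, γ i ^ q i) =
      ∑ i ∈ s, (q i : ℝ) * decL S p (γ i) := by
    intro s
    induction s using Finset.induction_on with
    | empty => simp [decL_one]
    | insert a s ha ih =>
      rw [Finset.prod_insert ha, Finset.sum_insert ha, decL_mul S p (zpow_ne_zero _ (hγ a))
        (Finset.prod_ne_zero_iff.2 fun i _ => zpow_ne_zero _ (hγ i)), ih,
        decL_zpow S p (hγ a)]
  exact h Finset.univ

private lemma dec_sum {M : Type*} [Field M] [NumberField M] (S : Finset (FinitePlace M))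
    (x : M) (hx : x ≠ 0) (hS : IsSUnit S x) : ∑ p, decL S p x = 0 := by
  rw [Fintype.sum_sum_type]
  have h := prod_formula_sunit S x hx hS
  have h1 : ∑ w : InfinitePlace M, decL S (Sum.inl w) x =
      ∑ w : InfinitePlace M, (w.mult : ℝ) * Real.log (w x) := by
    refine Finset.sum_congr rfl fun w _ => ?_
    change Real.log (nInf w x) = _
    unfold nInf
    rw [Real.log_pow]
  have h2 : ∑ v : S, decL S (Sum.inr v) x = ∑ v ∈ S, Real.log (v x) := by
    rw [← Finset.sum_coe_sort S]
    rfl
  rw [h1, h2]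
  exact h

private lemma dec_ht {M : Type*} [Field M] [NumberField M] (S : Finset (FinitePlace M))
    (x : M) (hx : x ≠ 0) (hS : IsSUnit S x) : 2 * logHeight₁ x = ∑ p, |decL S p x| := by
  rw [Fintype.sum_sum_type]
  have h := ht_sunit S x hx hS
  have h1 : ∑ w : InfinitePlace M, |decL S (Sum.inl w) x| =
      ∑ w : InfinitePlace M, |(w.mult : ℝ) * Real.log (w x)| := by
    refine Finset.sum_congr rfl fun w _ => ?_
    change |Real.log (nInf w x)| = _
    unfold nInf
    rw [Real.log_pow]
  have h2 : ∑ v : S, |decL S (Sum.inr v) x| = ∑ v ∈ S, |Real.log (v x)| := by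
    rw [← Finset.sum_coe_sort S]
    rfl
  rw [h1, h2]
  exact h

private lemma dec_card {M : Type*} [Field M] [NumberField M] (S : Finset (FinitePlace M)) :
    Fintype.card (InfinitePlace M ⊕ S) ≤ siz M S := by
  rw [Fintype.card_sum, Fintype.card_coe]
  have h1 : Fintype.card (InfinitePlace M) ≤ Module.finrank ℚ M := by
    have h2 := InfinitePlace.card_add_two_mul_card_eq_rank M
    have h3 := InfinitePlace.card_eq_nrRealPlaces_add_nrComplexPlaces M
    omega
  have h4 : S.card ≤ nrmS S := by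
    have h5 : 2 ^ S.card ≤ nrmS S := by
      unfold nrmS
      rw [← Finset.prod_const]
      refine Finset.prod_le_prod' fun v _ => ?_
      exact NumberField.HeightOneSpectrum.one_lt_absNorm _
    exact (Nat.lt_two_pow_self).le.trans h5
  unfold siz
  omega

private lemma dec_unit_prod {M : Type*} [Field M] [NumberField M] (S : Finset (FinitePlace M))
    {n : ℕ} (γ : Fin n → M) (hγ : ∀ i, IsSUnit S (γ i)) (q : Fin n → ℤ) :
    IsSUnit S (∏ i, γ i ^ q i) := by
  intro v hv
  rw [map_prod]
  refine Finset.prod_eq_one fun i _ => ?_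
  rw [map_zpow₀, hγ i v hv, one_zpow]

theorem dec (M : Type*) [Field M] [NumberField M] (S : Finset (FinitePlace M)) :
    ∃ (n : ℕ) (γ : Fin n → M), n ≤ siz M S ∧ (∀ i, γ i ≠ 0) ∧ (∀ i, IsSUnit S (γ i)) ∧
      (∀ i, logHeight₁ (γ i) ≤ tw 10 (siz M S)) ∧
      (∀ q : Fin n → ℤ, ∀ m : ℕ, 0 < m → (∏ i, γ i ^ q i) ^ m = 1 → q = 0) ∧
      (∀ ξ : M, ξ ≠ 0 → IsSUnit S ξ → ∃ b : Fin n → ℤ,
        logHeight₁ (ξ * ∏ i, γ i ^ (-b i)) ≤ tw 10 (siz M S) ∧
        ∀ i, |(b i : ℝ)| ≤ 2 * logHeight₁ ξ + 1) := by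
  classical
  obtain ⟨p₀⟩ : Nonempty (InfinitePlace M ⊕ S) := ⟨Sum.inl (Classical.arbitrary _)⟩
  let P := {p : InfinitePlace M ⊕ S // p ≠ p₀}
  let e : P ≃ Fin (Fintype.card P) := Fintype.equivFin P
  obtain ⟨n, hn⟩ : ∃ n, n = Fintype.card P := ⟨_, rfl⟩
  obtain ⟨e, -⟩ : ∃ e : P ≃ Fin n, True := by rw [hn]; exact ⟨e, trivial⟩
  obtain ⟨g, hg⟩ : ∃ g : Fin n → InfinitePlace M ⊕ S, ∀ i, g i = (e.symm i).1 :=
    ⟨_, fun _ => rfl⟩
  have hg0 : ∀ i, g i ≠ p₀ := fun i => by rw [hg]; exact (e.symm i).2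
  have hginj : ∀ i j, g i = g j → i = j := fun i j h => by
    rw [hg, hg] at h
    exact e.symm.injective (Subtype.ext h)
  have hsum : ∀ F : InfinitePlace M ⊕ S → ℝ, ∑ p, F p = F p₀ + ∑ i, F (g i) := by
    intro F
    rw [Fintype.sum_eq_add_sum_subtype_ne F p₀]
    congr 1
    rw [← Equiv.sum_comp e.symm]
    exact Finset.sum_congr rfl fun i _ => by rw [hg]
  have hnA : n ≤ siz M S := by
    refine le_trans ?_ (dec_card S)
    rw [hn]
    exact Fintype.card_subtype_le _
  choose γ hγ0 hγS hγ3 hγh using fun i : Fin n => gam M S (g i)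
  have hA16 : 16 ≤ siz M S := by unfold siz; omega
  have hlog3 : Real.log (1 / 3) ≤ -1 := by
    rw [one_div, Real.log_inv]
    have h1 : 1 ≤ Real.log 3 := by
      rw [Real.le_log_iff_exp_le (by norm_num)]
      have := Real.exp_one_lt_d9
      linarith
    linarith
  have hL3 : ∀ i p, p ≠ g i → decL S p (γ i) ≤ -1 := by
    intro i p hp
    refine le_trans ?_ hlog3
    exact Real.log_le_log (dec_pos S p (hγ0 i)) (hγ3 i p hp)
  have hrow0 : ∀ i, ∑ j, decL S (g j) (γ i) = -decL S p₀ (γ i) := by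
    intro i
    have h1 := dec_sum S (γ i) (hγ0 i) (hγS i)
    rw [hsum] at h1
    linarith
  have hoff : ∀ i j, i ≠ j → decL S (g j) (γ i) ≤ 0 := by
    intro i j hij
    have := hL3 i (g j) (fun h => hij (hginj j i h).symm)
    linarith
  have hrow : ∀ i, 1 ≤ ∑ j, decL S (g j) (γ i) := by
    intro i
    rw [hrow0]
    have := hL3 i p₀ (Ne.symm (hg0 i))
    linarith
  refine ⟨n, γ, hnA, hγ0, hγS, ?_, ?_, ?_⟩
  · intro i
    refine (hγh i).trans ?_
    exact_mod_cast tw_mono (by norm_num) le_rfl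
  · intro q m hm h1
    have hprod : ∏ i, γ i ^ q i ≠ 0 :=
      Finset.prod_ne_zero_iff.2 fun i _ => zpow_ne_zero _ (hγ0 i)
    have h2 : ∀ j, ∑ i, (q i : ℝ) * decL S (g j) (γ i) = 0 := by
      intro j
      have h3 : decL S (g j) ((∏ i, γ i ^ q i) ^ m) = 0 := by rw [h1, decL_one]
      rw [decL_pow S (g j) hprod, decL_prod S (g j) γ hγ0] at h3
      have h4 : (m : ℝ) ≠ 0 := by exact_mod_cast hm.ne'
      exact (mul_eq_zero.1 h3).resolve_left h4
    have h5 := mtx_le (fun i j => decL S (g j) (γ i)) hoff hrow (fun i => (q i : ℝ))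
    have h6 : ∑ j, |∑ i, (q i : ℝ) * decL S (g j) (γ i)| = 0 := by
      refine Finset.sum_eq_zero fun j _ => ?_
      rw [h2 j, abs_zero]
    rw [h6] at h5
    funext i
    have h7 : |(q i : ℝ)| ≤ 0 :=
      (Finset.single_le_sum (f := fun i => |(q i : ℝ)|) (fun i _ => abs_nonneg _)
        (Finset.mem_univ i)).trans h5
    have h8 : (q i : ℝ) = 0 := abs_eq_zero.1 (le_antisymm h7 (abs_nonneg _))
    exact_mod_cast h8
  · intro ξ hξ hξS
    obtain ⟨β, hβ⟩ := mtx_solve (fun i j => decL S (g j) (γ i)) hoff hrow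
      (fun j => decL S (g j) ξ)
    have hβsum : ∑ i, |β i| ≤ 2 * logHeight₁ ξ := by
      have h1 := mtx_le (fun i j => decL S (g j) (γ i)) hoff hrow β
      have h2 : ∑ j, |∑ i, β i * decL S (g j) (γ i)| = ∑ j, |decL S (g j) ξ| :=
        Finset.sum_congr rfl fun j _ => by rw [hβ j]
      rw [h2] at h1
      refine h1.trans ?_
      rw [dec_ht S ξ hξ hξS, hsum]
      have := abs_nonneg (decL S p₀ ξ)
      linarith
    refine ⟨fun i => round (β i), ?_, ?_⟩
    · obtain ⟨x, hx⟩ : ∃ x, x = ξ * ∏ i, γ i ^ (-(round (β i))) := ⟨_, rfl⟩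
      rw [← hx]
      have hprod : ∏ i, γ i ^ (-(round (β i))) ≠ 0 :=
        Finset.prod_ne_zero_iff.2 fun i _ => zpow_ne_zero _ (hγ0 i)
      have hx0 : x ≠ 0 := by rw [hx]; exact mul_ne_zero hξ hprod
      have hxS : IsSUnit S x := by
        intro v hv
        rw [hx, map_mul, hξS v hv, dec_unit_prod S γ hγS _ v hv, one_mul]
      have hdx : ∀ p, decL S p x = decL S p ξ - ∑ i, (round (β i) : ℝ) * decL S p (γ i) := by
        intro p
        rw [hx, decL_mul S p hξ hprod, decL_prod S p γ hγ0]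
        have h1 : ∑ i, ((-(round (β i)) : ℤ) : ℝ) * decL S p (γ i) =
            -∑ i, (round (β i) : ℝ) * decL S p (γ i) := by
          rw [← Finset.sum_neg_distrib]
          refine Finset.sum_congr rfl fun i _ => ?_
          push_cast
          ring
        rw [h1]
        ring
      have hdj : ∀ j, decL S (g j) x = ∑ i, (β i - round (β i)) * decL S (g j) (γ i) := by
        intro j
        rw [hdx, ← hβ j, ← Finset.sum_sub_distrib]
        exact Finset.sum_congr rfl fun i _ => by ring
      have hd0 : decL S p₀ x = ∑ i, (β i - round (β i)) * decL S p₀ (γ i) := by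
        have h1 := dec_sum S x hx0 hxS
        rw [hsum] at h1
        have h2 : decL S p₀ x = -∑ j, decL S (g j) x := by linarith
        rw [h2, Finset.sum_congr rfl fun j _ => hdj j, Finset.sum_comm,
          ← Finset.sum_neg_distrib]
        refine Finset.sum_congr rfl fun i _ => ?_
        rw [← Finset.mul_sum, hrow0 i]
        ring
      have hall : ∀ p, decL S p x = ∑ i, (β i - round (β i)) * decL S p (γ i) := by
        intro p
        by_cases hp : p = p₀
        · rw [hp]; exact hd0
        · have h1 : p = g (e ⟨p, hp⟩) := by rw [hg, Equiv.symm_apply_apply]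
          rw [h1]
          exact hdj _
      have hround : ∀ i, |β i - round (β i)| ≤ 1 / 2 := fun i => abs_sub_round _
      have h2h : 2 * logHeight₁ x ≤ ∑ i, logHeight₁ (γ i) := by
        rw [dec_ht S x hx0 hxS]
        calc ∑ p, |decL S p x| ≤ ∑ p, ∑ i, 1 / 2 * |decL S p (γ i)| := by
              refine Finset.sum_le_sum fun p _ => ?_
              rw [hall p]
              refine (Finset.abs_sum_le_sum_abs _ _).trans ?_
              refine Finset.sum_le_sum fun i _ => ?_
              rw [abs_mul]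
              exact mul_le_mul_of_nonneg_right (hround i) (abs_nonneg _)
          _ = ∑ i, 1 / 2 * ∑ p, |decL S p (γ i)| := by
              rw [Finset.sum_comm]
              exact Finset.sum_congr rfl fun i _ => by rw [Finset.mul_sum]
          _ = ∑ i, logHeight₁ (γ i) := by
              refine Finset.sum_congr rfl fun i _ => ?_
              rw [← dec_ht S (γ i) (hγ0 i) (hγS i)]
              ring
      have hsumle : ∑ i, logHeight₁ (γ i) ≤ n * (tw 9 (siz M S) : ℝ) := by
        refine (Finset.sum_le_sum fun i _ => hγh i).trans ?_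
        rw [Finset.sum_const, Finset.card_univ, Fintype.card_fin, nsmul_eq_mul]
      have hmul : n * tw 9 (siz M S) ≤ tw 10 (siz M S) :=
        tw_mul (c := 9) hA16 (hnA.trans (le_tw _ _)) le_rfl
      have hmul' : (n : ℝ) * (tw 9 (siz M S) : ℝ) ≤ tw 10 (siz M S) := by exact_mod_cast hmul
      have hx1 : 0 ≤ logHeight₁ x := zero_le_logHeight₁ x
      linarith
    · intro i
      have h1 : |β i| ≤ 2 * logHeight₁ ξ :=
        (Finset.single_le_sum (f := fun i => |β i|) (fun i _ => abs_nonneg _)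
          (Finset.mem_univ i)).trans hβsum
      have h2 : |(round (β i) : ℝ)| ≤ |β i| + 1 / 2 := by
        have h3 := abs_sub_round (β i)
        have h4 : (round (β i) : ℝ) = β i - (β i - round (β i)) := by ring
        rw [h4]
        refine (abs_sub _ _).trans ?_
        linarith
      linarith

end Pool.Agent.ESH
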