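import Pool.Agent.ESH.HOL
import Pool.Agent.Helper11.Chi

/-!
# ESH / DFR: regular differentials

Proof.  Let `R` be above `A`, `t' = t - ev R t`, `R.ord t' = 1` (ORD), `D t' = D t`.  Helper11: `ordDiff_smul_D`,
`ord_dv_unif'`: `R.ordDiff (u • D t) = R.ord (u * R.dv t) = R.ord u` (`u ≠ 0`; `dv t = dv t'` has order `0`).  So `u ∈ R.ge 0` for
all `R` above `A`, and `u ∈ W`; HOL.
-/

namespace Pool.Agent.ESH

open Pool.Agent.Helper11
open scoped KaehlerDifferential

variable {C Φ : Type*} [Field C] [Field Φ] [Algebra C Φ] [FunField C Φ] [CharZero C] [IsAlgClosed C]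

theorem dfr {V : ValuationSubring C} {W : ValuationSubring Φ} {pts : Set (Subring Φ)}
    (hV : Rk1 V) (h : IsMdl V W pts) {A : Subring Φ} (hA : A ∈ pts) {t : Φ} (ht : IsPar V W A t)
    (u : Φ) (hu : u ∈ W)
    (hω : ∀ R : Place C Φ, Below A R → 0 ≤ R.ordDiff (u • KaehlerDifferential.D C Φ t)) :
    u ∈ A := by
  refine hol hV h hA u hu fun R hR => ?_
  by_cases hu0 : u = 0
  · rw [hu0]
    exact (R.ge 0).zero_mem
  have h1 : R.ord (t - algebraMap C Φ (ev R t)) = 1 := ord_par hV h hA ht R hR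
  obtain ⟨h2, h3⟩ := R.ord_dv_unif' h1
  have h4 : R.dv (t - algebraMap C Φ (ev R t)) = R.dv t := by
    rw [map_sub, Derivation.map_algebraMap, sub_zero]
  rw [h4] at h2 h3
  have h5 := hω R hR
  rw [R.ordDiff_smul_D, R.ord_mul _ _ hu0 h2, h3, add_zero] at h5
  exact Or.inr h5

end Pool.Agent.ESH
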