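import Mathlib

/-!
# ESH / DIF: the different of a Galois extension of number fields

`M/K` Galois of degree `n`, unramified outside the primes above the finite set `T`.  Then the different divides
`n * ∏_{v ∈ T} v`.

Proof.  Compare the exponents at a non-zero prime `w` of `𝓞 M`.  If `w` is not above `T` the exponent of the
different `𝔇` is `0`.  Let `w` be above `v ∈ T`, `e` its ramification index, `d` the exponent of `w` in `𝔇`.  `𝔇` is
invariant under `Gal(M/K)` (trace dual; `map_equiv_traceDual` or directly), which permutes transitively the primes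
above `v`, and `e` is the same for all of them.  Put `m = ⌊d/e⌋`.  Then `v^m 𝓞 M = ∏_{w'|v} w'^(e m)` divides `𝔇`,
i.e. `𝔇 ⊆ v^m 𝓞 M`, i.e. `(v^m 𝓞 M)⁻¹ ⊆ 𝔇⁻¹`, the trace dual, so `Tr((v^m)⁻¹ 𝓞 M) ⊆ 𝓞 K` and
`Tr(𝓞 M) ⊆ v^m` (`differentialIdeal_le_iff`).  So `n = Tr 1 ∈ v^m`, `m ≤ ord_v(n)`, and
`d < e (m + 1) ≤ e (ord_v(n) + 1) ≤ ord_w(n v)`.
-/

namespace Pool.Agent.ESH

open NumberField IsDedekindDomain

private lemma dif_mem (K M : Type*) [Field K] [NumberField K] [Field M] [NumberField M]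
    [Algebra K M] (b : 𝓞 M) : b ∈ differentIdeal (𝓞 K) (𝓞 M) ↔
      ∀ y : M, (∀ c : 𝓞 M, Algebra.trace K M (y * algebraMap (𝓞 M) M c) ∈ (algebraMap (𝓞 K) K).range) →
        ∃ z : 𝓞 M, algebraMap (𝓞 M) M z = algebraMap (𝓞 M) M b * y := by
  have h := coeSubmodule_differentIdeal (𝓞 K) K (L := M) (B := 𝓞 M)
  have h1 : b ∈ differentIdeal (𝓞 K) (𝓞 M) ↔ algebraMap (𝓞 M) M b ∈
      IsLocalization.coeSubmodule M (differentIdeal (𝓞 K) (𝓞 M)) := by
    rw [IsLocalization.mem_coeSubmodule]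
    constructor
    · intro hb
      exact ⟨b, hb, rfl⟩
    · rintro ⟨y, hy, hyb⟩
      rwa [← IsFractionRing.injective (𝓞 M) M hyb]
  rw [h1, h, Submodule.mem_div_iff_forall_mul_mem]
  refine forall_congr' fun y => ?_
  rw [Submodule.mem_traceDual, Submodule.mem_one]
  refine imp_congr ?_ Iff.rfl
  constructor
  · intro hy c
    have := hy (algebraMap (𝓞 M) M c) (Submodule.mem_one.2 ⟨c, rfl⟩)
    rwa [Algebra.traceForm_apply] at this
  · intro hy a ha
    obtain ⟨c, rfl⟩ := Submodule.mem_one.1 ha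
    rw [Algebra.traceForm_apply]
    exact hy c

private lemma dif_gal (K M : Type*) [Field K] [NumberField K] [Field M] [NumberField M]
    [Algebra K M] (σ : M ≃ₐ[K] M) (b : 𝓞 M) (hb : b ∈ differentIdeal (𝓞 K) (𝓞 M)) :
    galRestrict (𝓞 K) K M (𝓞 M) σ b ∈ differentIdeal (𝓞 K) (𝓞 M) := by
  rw [dif_mem] at hb ⊢
  intro y hy
  obtain ⟨z, hz⟩ := hb (σ.symm y) (fun c => by
    have h1 := hy (galRestrict (𝓞 K) K M (𝓞 M) σ c)
    rw [algebraMap_galRestrict_apply] at h1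
    have h2 : σ (σ.symm y * algebraMap (𝓞 M) M c) = y * σ (algebraMap (𝓞 M) M c) := by
      rw [map_mul, AlgEquiv.apply_symm_apply]
    rw [← h2, Algebra.trace_eq_of_algEquiv] at h1
    exact h1)
  refine ⟨galRestrict (𝓞 K) K M (𝓞 M) σ z, ?_⟩
  rw [algebraMap_galRestrict_apply, algebraMap_galRestrict_apply, hz, map_mul,
    AlgEquiv.apply_symm_apply]

/-- a Galois-stable ideal has the same prime powers at conjugate primes -/
private lemma dif_pow {B : Type*} [CommRing B] (e : B ≃+* B) {J w w' : Ideal B}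
    (h1 : ∀ b ∈ J, e b ∈ J) (h2 : ∀ b ∈ J, e.symm b ∈ J) (hw : w'.comap e = w) (k : ℕ) :
    J ≤ w ^ k ↔ J ≤ w' ^ k := by
  have h3 : (w' ^ k).comap e = w ^ k := by
    rw [← hw, ← Ideal.map_symm, ← Ideal.map_symm, Ideal.map_pow]
  constructor
  · intro h b hb
    have h4 := h (h2 b hb)
    rw [← h3, Ideal.mem_comap] at h4
    rwa [RingEquiv.apply_symm_apply] at h4
  · intro h b hb
    rw [← h3, Ideal.mem_comap]
    exact h (h1 b hb)

private lemma dif_trace (K M : Type*) [Field K] [NumberField K] [Field M] [NumberField M]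
    [Algebra K M] (J : Ideal (𝓞 K)) (hJ : J ≠ ⊥)
    (h : differentIdeal (𝓞 K) (𝓞 M) ≤ J.map (algebraMap (𝓞 K) (𝓞 M))) :
    ((Module.finrank K M : ℕ) : 𝓞 K) ∈ J := by
  have hinj : Function.Injective (algebraMap (𝓞 K) (𝓞 M)) :=
    FaithfulSMul.algebraMap_injective (𝓞 K) (𝓞 M)
  have hJ' : J.map (algebraMap (𝓞 K) (𝓞 M)) ≠ ⊥ := by
    rw [ne_eq, Ideal.map_eq_bot_iff_of_injective hinj]
    exact hJ
  have hJf : (J : FractionalIdeal (nonZeroDivisors (𝓞 K)) K) ≠ 0 := by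
    rwa [ne_eq, FractionalIdeal.coeIdeal_eq_zero]
  have hJf' : ((J.map (algebraMap (𝓞 K) (𝓞 M)) : Ideal (𝓞 M)) :
      FractionalIdeal (nonZeroDivisors (𝓞 M)) M) ≠ 0 := by
    rwa [ne_eq, FractionalIdeal.coeIdeal_eq_zero]
  have h1 := (differentialIdeal_le_iff (K := K) (L := M) hJ').1 h
  have hkey : ∀ a : K, a ∈ (J : FractionalIdeal (nonZeroDivisors (𝓞 K)) K)⁻¹ →
      ∃ c : 𝓞 K, algebraMap (𝓞 K) K c = (Module.finrank K M : K) * a := by
    intro a ha
    rw [FractionalIdeal.mem_inv_iff hJf] at ha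
    have h2 : algebraMap K M a ∈ ((J.map (algebraMap (𝓞 K) (𝓞 M)) : Ideal (𝓞 M)) :
        FractionalIdeal (nonZeroDivisors (𝓞 M)) M)⁻¹ := by
      rw [FractionalIdeal.mem_inv_iff hJf']
      intro y hy
      obtain ⟨y', hy', rfl⟩ := (FractionalIdeal.mem_coeIdeal _).1 hy
      have h3 : ∀ z ∈ J.map (algebraMap (𝓞 K) (𝓞 M)), ∃ c : 𝓞 M,
          algebraMap (𝓞 M) M c = algebraMap K M a * algebraMap (𝓞 M) M z := by
        intro z hz
        refine Submodule.span_induction ?_ ?_ ?_ ?_ hz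
        · rintro x ⟨x', hx', rfl⟩
          have h4 := ha (algebraMap (𝓞 K) K x') (FractionalIdeal.mem_coeIdeal_of_mem _ hx')
          obtain ⟨c, hc⟩ := (FractionalIdeal.mem_one_iff _).1 h4
          refine ⟨algebraMap (𝓞 K) (𝓞 M) c, ?_⟩
          rw [← IsScalarTower.algebraMap_apply, ← IsScalarTower.algebraMap_apply,
            IsScalarTower.algebraMap_apply (𝓞 K) K M, IsScalarTower.algebraMap_apply (𝓞 K) K M x',
            hc, map_mul]
        · exact ⟨0, by simp⟩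
        · rintro x y _ _ ⟨c, hc⟩ ⟨d, hd⟩
          exact ⟨c + d, by rw [map_add, map_add, mul_add, hc, hd]⟩
        · rintro r x _ ⟨c, hc⟩
          exact ⟨r * c, by rw [smul_eq_mul, map_mul, map_mul, hc]; ring⟩
      obtain ⟨c, hc⟩ := h3 y' hy'
      exact (FractionalIdeal.mem_one_iff _).2 ⟨c, hc⟩
    have h5 : Algebra.trace K M (algebraMap K M a) ∈ (1 : Submodule (𝓞 K) K) := by
      apply h1
      exact ⟨algebraMap K M a, h2, rfl⟩
    obtain ⟨c, hc⟩ := Submodule.mem_one.1 h5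
    refine ⟨c, ?_⟩
    rw [hc, Algebra.trace_algebraMap, nsmul_eq_mul]
  have h6 : ((Ideal.span {((Module.finrank K M : ℕ) : 𝓞 K)} : Ideal (𝓞 K)) :
      FractionalIdeal (nonZeroDivisors (𝓞 K)) K) *
      (J : FractionalIdeal (nonZeroDivisors (𝓞 K)) K)⁻¹ ≤ 1 := by
    rw [FractionalIdeal.mul_le]
    intro i hi a ha
    obtain ⟨i', hi', rfl⟩ := (FractionalIdeal.mem_coeIdeal _).1 hi
    obtain ⟨r, rfl⟩ := Ideal.mem_span_singleton'.1 hi'
    obtain ⟨c, hc⟩ := hkey a ha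
    refine (FractionalIdeal.mem_one_iff _).2 ⟨r * c, ?_⟩
    rw [map_mul, map_mul, hc, map_natCast]
    ring
  have h7 : ((Ideal.span {((Module.finrank K M : ℕ) : 𝓞 K)} : Ideal (𝓞 K)) :
      FractionalIdeal (nonZeroDivisors (𝓞 K)) K) ≤ J := by
    have h8 : ((Ideal.span {((Module.finrank K M : ℕ) : 𝓞 K)} : Ideal (𝓞 K)) :
        FractionalIdeal (nonZeroDivisors (𝓞 K)) K) *
        (J : FractionalIdeal (nonZeroDivisors (𝓞 K)) K)⁻¹ * J ≤ 1 * J :=
      mul_le_mul_left h6 _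
    rwa [mul_assoc, inv_mul_cancel₀ hJf, mul_one, one_mul] at h8
  have h9 := (FractionalIdeal.coeIdeal_le_coeIdeal K).1 h7
  exact h9 (Ideal.mem_span_singleton_self _)

theorem dif (K M : Type*) [Field K] [NumberField K] [Field M] [NumberField M] [Algebra K M]
    [IsGalois K M] (T : Finset (HeightOneSpectrum (𝓞 K)))
    (hT : ∀ w : Ideal (𝓞 M), w.IsPrime → w ≠ ⊥ → (∀ v ∈ T, ¬ w.LiesOver v.asIdeal) →
      ¬ w ∣ differentIdeal (𝓞 K) (𝓞 M)) :
    differentIdeal (𝓞 K) (𝓞 M) ∣ Ideal.map (algebraMap (𝓞 K) (𝓞 M))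
      (Ideal.span {((Module.finrank K M : ℕ) : 𝓞 K)} * ∏ v ∈ T, v.asIdeal) := by
  classical
  have hinj : Function.Injective (algebraMap (𝓞 K) (𝓞 M)) :=
    FaithfulSMul.algebraMap_injective (𝓞 K) (𝓞 M)
  have hD0 : differentIdeal (𝓞 K) (𝓞 M) ≠ ⊥ := differentIdeal_ne_bot
  have hstable : ∀ σ : M ≃ₐ[K] M, ∀ b ∈ differentIdeal (𝓞 K) (𝓞 M),
      (galRestrict (𝓞 K) K M (𝓞 M) σ).toRingEquiv.symm b ∈ differentIdeal (𝓞 K) (𝓞 M) := by
    intro σ b hb
    have h1 := dif_gal K M σ.symm b hb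
    have h2 : (galRestrict (𝓞 K) K M (𝓞 M) σ).toRingEquiv.symm b =
        galRestrict (𝓞 K) K M (𝓞 M) σ.symm b := by
      rw [RingEquiv.symm_apply_eq]
      apply IsFractionRing.injective (𝓞 M) M
      change _ = algebraMap (𝓞 M) M (galRestrict (𝓞 K) K M (𝓞 M) σ _)
      rw [algebraMap_galRestrict_apply, algebraMap_galRestrict_apply, AlgEquiv.apply_symm_apply]
    rwa [h2]
  have hmaps : ∀ (J : Ideal (𝓞 K)) (e : 𝓞 M ≃ₐ[𝓞 K] 𝓞 M), ∀ b ∈ J.map (algebraMap (𝓞 K) (𝓞 M)),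
      e b ∈ J.map (algebraMap (𝓞 K) (𝓞 M)) := by
    intro J e b hb
    have h1 : e b ∈ (J.map (algebraMap (𝓞 K) (𝓞 M))).map (e : 𝓞 M →+* 𝓞 M) :=
      Ideal.mem_map_of_mem (e : 𝓞 M →+* 𝓞 M) hb
    rw [Ideal.map_map] at h1
    have h2 : (e : 𝓞 M →+* 𝓞 M).comp (algebraMap (𝓞 K) (𝓞 M)) = algebraMap (𝓞 K) (𝓞 M) := by
      ext x
      simp
    rwa [h2] at h1
  rw [UniqueFactorizationMonoid.dvd_iff_emultiplicity_le (by simpa using hD0)]
  intro w hwp
  have hw0 : w ≠ ⊥ := hwp.ne_zero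
  have hw : w.IsPrime := Ideal.isPrime_of_prime hwp
  rw [← ENat.forall_natCast_le_iff_le]
  intro k hk
  rw [← pow_dvd_iff_le_emultiplicity] at hk ⊢
  rcases Nat.eq_zero_or_pos k with hk0 | hk0
  · rw [hk0, pow_zero]
    exact one_dvd _
  have hwD : w ∣ differentIdeal (𝓞 K) (𝓞 M) := (dvd_pow_self w (by omega)).trans hk
  have hex : ∃ v ∈ T, w.LiesOver v.asIdeal := by
    by_contra hcon
    push Not at hcon
    exact hT w hw hw0 hcon hwD
  obtain ⟨v, hvT, hwv⟩ := hex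
  obtain ⟨V, hV⟩ : ∃ V : Ideal (𝓞 M), V = v.asIdeal.map (algebraMap (𝓞 K) (𝓞 M)) := ⟨_, rfl⟩
  have hV0 : V ≠ ⊥ := by
    rw [hV, ne_eq, Ideal.map_eq_bot_iff_of_injective hinj]
    exact v.ne_bot
  have hfin : FiniteMultiplicity w V := FiniteMultiplicity.of_prime_left hwp (by simpa using hV0)
  obtain ⟨e, he⟩ : ∃ e : ℕ, e = multiplicity w V := ⟨_, rfl⟩
  have hee : emultiplicity w V = e := by
    rw [he]
    exact hfin.emultiplicity_eq_multiplicity
  have hwV : w ∣ V := by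
    rw [Ideal.dvd_iff_le, hV, Ideal.map_le_iff_le_comap]
    exact hwv.over.le
  have he1 : 1 ≤ e := by
    have h1 : ((1 : ℕ) : ℕ∞) ≤ emultiplicity w V := by
      rw [← pow_dvd_iff_le_emultiplicity, pow_one]
      exact hwV
    rw [hee] at h1
    exact_mod_cast h1
  obtain ⟨m, hm⟩ : ∃ m : ℕ, m = k / e := ⟨_, rfl⟩
  have hme : m * e ≤ k := by
    rw [hm]
    exact Nat.div_mul_le_self k e
  have hme2 : k ≤ e * (m + 1) := by
    have := Nat.lt_mul_div_succ k (show 0 < e by omega)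
    rw [← hm] at this
    exact this.le
  -- the power of `V` divides the different
  have hVD : V ^ m ∣ differentIdeal (𝓞 K) (𝓞 M) := by
    rw [UniqueFactorizationMonoid.dvd_iff_emultiplicity_le (pow_ne_zero _ (by simpa using hV0))]
    intro w' hwp'
    have hw' : w'.IsPrime := Ideal.isPrime_of_prime hwp'
    rw [← ENat.forall_natCast_le_iff_le]
    intro j hj
    rcases Nat.eq_zero_or_pos j with hj0 | hj0
    · rw [hj0]
      simp
    have hdvd : w' ∣ V ^ m := by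
      rw [← pow_dvd_iff_le_emultiplicity] at hj
      exact (dvd_pow_self w' (by omega)).trans hj
    have hw'V : w' ∣ V := hwp'.dvd_of_dvd_pow hdvd
    have hover : v.asIdeal = w'.under (𝓞 K) := by
      refine v.isMaximal.eq_of_le (Ideal.IsPrime.under _ _).ne_top ?_
      rw [Ideal.dvd_iff_le, hV, Ideal.map_le_iff_le_comap] at hw'V
      exact hw'V
    obtain ⟨σ, hσ⟩ := Ideal.exists_comap_galRestrict_eq (𝓞 K) K M (𝓞 M) (p := v.asIdeal)
      (P₁ := w') (P₂ := w) ⟨hw', ⟨hover⟩⟩ ⟨hw, hwv⟩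
    have hσ' : w'.comap (galRestrict (𝓞 K) K M (𝓞 M) σ).toRingEquiv = w := hσ
    have hVV : emultiplicity w' V = e := by
      rw [← hee]
      refine le_antisymm ?_ ?_
      · rw [← ENat.forall_natCast_le_iff_le]
        intro a ha
        rw [← pow_dvd_iff_le_emultiplicity, Ideal.dvd_iff_le] at ha ⊢
        refine (dif_pow (galRestrict (𝓞 K) K M (𝓞 M) σ).toRingEquiv ?_ ?_ hσ' a).2 ha
        · rw [hV]
          exact hmaps _ _
        · rw [hV]
          exact hmaps _ (galRestrict (𝓞 K) K M (𝓞 M) σ).symm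
      · rw [← ENat.forall_natCast_le_iff_le]
        intro a ha
        rw [← pow_dvd_iff_le_emultiplicity, Ideal.dvd_iff_le] at ha ⊢
        refine (dif_pow (galRestrict (𝓞 K) K M (𝓞 M) σ).toRingEquiv ?_ ?_ hσ' a).1 ha
        · rw [hV]
          exact hmaps _ _
        · rw [hV]
          exact hmaps _ (galRestrict (𝓞 K) K M (𝓞 M) σ).symm
    rw [emultiplicity_pow hwp', hVV] at hj
    have hjm : j ≤ m * e := by exact_mod_cast hj
    rw [← pow_dvd_iff_le_emultiplicity]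
    refine (pow_dvd_pow w' (hjm.trans hme)).trans ?_
    rw [Ideal.dvd_iff_le] at hk ⊢
    exact (dif_pow (galRestrict (𝓞 K) K M (𝓞 M) σ).toRingEquiv (dif_gal K M σ) (hstable σ)
      hσ' k).1 hk
  have hn : v.asIdeal ^ m ∣ Ideal.span {((Module.finrank K M : ℕ) : 𝓞 K)} := by
    rw [Ideal.dvd_iff_le, Ideal.span_singleton_le_iff_mem]
    refine dif_trace K M _ (pow_ne_zero _ v.ne_bot) ?_
    rw [Ideal.map_pow, ← hV, ← Ideal.dvd_iff_le]
    exact hVD
  have hfinal : V ^ (m + 1) ∣ Ideal.map (algebraMap (𝓞 K) (𝓞 M))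
      (Ideal.span {((Module.finrank K M : ℕ) : 𝓞 K)} * ∏ v ∈ T, v.asIdeal) := by
    have h1 : v.asIdeal ^ (m + 1) ∣
        Ideal.span {((Module.finrank K M : ℕ) : 𝓞 K)} * ∏ v ∈ T, v.asIdeal := by
      rw [pow_succ]
      exact mul_dvd_mul hn (Finset.dvd_prod_of_mem (fun v : HeightOneSpectrum (𝓞 K) => v.asIdeal) hvT)
    rw [hV, ← Ideal.map_pow, Ideal.dvd_iff_le]
    rw [Ideal.dvd_iff_le] at h1
    exact Ideal.map_mono h1
  refine (pow_dvd_pow w hme2).trans (dvd_trans ?_ hfinal)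
  rw [pow_mul]
  refine pow_dvd_pow_of_dvd ?_ _
  rw [pow_dvd_iff_le_emultiplicity, hee]


end Pool.Agent.ESH
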