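import Mathlib

/-!
# ESH / DIR: Dirichlet's theorem on simultaneous approximation

Proof.  Pigeonhole: for `0 ≤ J ≤ m^n` consider the vector of fractional parts of `J x_i` in the `m^n` boxes
`∏ [a_i/m, (a_i+1)/m)`; two of them, `J₁ < J₂`, lie in the same box, put `J = J₂ - J₁`,
`q_i = ⌊J₂ x_i⌋ - ⌊J₁ x_i⌋`.
-/

namespace Pool.Agent.ESH

theorem dir {n : ℕ} (x : Fin n → ℝ) (m : ℕ) (hm : 1 ≤ m) :
    ∃ J : ℕ, 1 ≤ J ∧ J ≤ m ^ n ∧ ∃ q : Fin n → ℤ, ∀ i, |J * x i - q i| ≤ 1 / m := by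
  have hm0 : (0 : ℝ) < m := by exact_mod_cast hm
  have hlt : ∀ (J : ℕ) (i : Fin n), ⌊(m : ℝ) * Int.fract ((J : ℝ) * x i)⌋₊ < m := by
    intro J i
    rw [Nat.floor_lt (mul_nonneg hm0.le (Int.fract_nonneg _))]
    calc (m : ℝ) * Int.fract ((J : ℝ) * x i) < m * 1 :=
          mul_lt_mul_of_pos_left (Int.fract_lt_one _) hm0
      _ = m := mul_one _
  let f : ℕ → Fin n → Fin m := fun J i => ⟨⌊(m : ℝ) * Int.fract ((J : ℝ) * x i)⌋₊, hlt J i⟩
  have hcard : (Finset.univ : Finset (Fin n → Fin m)).card < (Finset.range (m ^ n + 1)).card := by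
    rw [Finset.card_univ, Fintype.card_fun, Fintype.card_fin, Fintype.card_fin, Finset.card_range]
    omega
  obtain ⟨J₁, h₁, J₂, h₂, hne, hf⟩ := Finset.exists_ne_map_eq_of_card_lt_of_maps_to hcard
    (f := f) (fun _ _ => Finset.mem_coe.2 (Finset.mem_univ _))
  wlog hJ : J₁ < J₂ generalizing J₁ J₂
  · exact this J₂ h₂ J₁ h₁ (Ne.symm hne) hf.symm (by omega)
  rw [Finset.mem_range] at h₁ h₂
  refine ⟨J₂ - J₁, by omega, by omega, fun i => ⌊(J₂ : ℝ) * x i⌋ - ⌊(J₁ : ℝ) * x i⌋, fun i => ?_⟩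
  have hfl : ⌊(m : ℝ) * Int.fract ((J₁ : ℝ) * x i)⌋₊ = ⌊(m : ℝ) * Int.fract ((J₂ : ℝ) * x i)⌋₊ := by
    have := congrFun hf i
    exact congrArg Fin.val this
  have h1a := Nat.floor_le (mul_nonneg hm0.le (Int.fract_nonneg ((J₁ : ℝ) * x i)))
  have h1b := Nat.lt_floor_add_one ((m : ℝ) * Int.fract ((J₁ : ℝ) * x i))
  have h2a := Nat.floor_le (mul_nonneg hm0.le (Int.fract_nonneg ((J₂ : ℝ) * x i)))
  have h2b := Nat.lt_floor_add_one ((m : ℝ) * Int.fract ((J₂ : ℝ) * x i))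
  rw [← hfl] at h2a h2b
  have h3 : ((J₂ - J₁ : ℕ) : ℝ) * x i - ((⌊(J₂ : ℝ) * x i⌋ - ⌊(J₁ : ℝ) * x i⌋ : ℤ) : ℝ) =
      Int.fract ((J₂ : ℝ) * x i) - Int.fract ((J₁ : ℝ) * x i) := by
    rw [Nat.cast_sub hJ.le, Int.fract, Int.fract]
    push_cast
    ring
  rw [h3, le_div_iff₀ hm0]
  have h4 : |Int.fract ((J₂ : ℝ) * x i) - Int.fract ((J₁ : ℝ) * x i)| * m =
      |(m : ℝ) * Int.fract ((J₂ : ℝ) * x i) - m * Int.fract ((J₁ : ℝ) * x i)| := by
    rw [← mul_sub, abs_mul, abs_of_pos hm0, mul_comm]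
  rw [h4, abs_le]
  constructor <;> linarith

/-- integer version: `b_i = r q_i + ρ_i` with small remainders.  `r = B / J` (natural division),
`B / J = r + φ`, `0 ≤ φ < 1`, `x_i = b_i / B`, `J x_i = q_i + θ_i`, `|θ_i| ≤ 1/m`, so
`b_i - r q_i = φ q_i + (r + φ) θ_i`, of absolute value `≤ (J + 1) + (r + 1)/m ≤ 3 r / m`, because
`r ≥ B/J - 1 ≥ m (J + 1) + 1` by `hB` (`m (m^n + 2) ≥ m(J+1) + 1`).  If `|b_i| = B` for some `i`, then `|q_i| ≥ 1`. -/
theorem dir_int {n : ℕ} (b : Fin n → ℤ) (B m : ℕ) (hm : 2 ≤ m) (hb : ∀ i, |b i| ≤ B)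
    (hB : 2 * m ^ n * (m * (m ^ n + 2)) ≤ B) :
    ∃ (J r : ℕ) (q ρ : Fin n → ℤ), 1 ≤ J ∧ J ≤ m ^ n ∧ r * J ≤ B ∧ B ≤ 2 * J * r ∧
      (∀ i, b i = r * q i + ρ i) ∧ (∀ i, |q i| ≤ J + 1) ∧ (∀ i, |(ρ i : ℝ)| ≤ 3 * r / m) ∧
      (∀ i, m * J * |b i| ≤ B * (m * |q i| + 1)) := by
  have hmn : 1 ≤ m ^ n := Nat.one_le_pow _ _ (by omega)
  have hBpos : 0 < B := by
    have h1 : 0 < 2 * m ^ n * (m * (m ^ n + 2)) := by positivity
    omega
  have hm0 : (0 : ℝ) < m := by exact_mod_cast (by omega : 0 < m)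
  have hm2 : (2 : ℝ) ≤ m := by exact_mod_cast hm
  have hB0 : (0 : ℝ) < B := by exact_mod_cast hBpos
  obtain ⟨J, hJ1, hJ2, q, hq⟩ := dir (fun i => (b i : ℝ) / B) m (by omega)
  have hJ0 : (0 : ℝ) < J := by exact_mod_cast (by omega : 0 < J)
  have hdm := Nat.div_add_mod B J
  have hmod := Nat.mod_lt B (show 0 < J by omega)
  -- lower bound for the quotient
  have hr : 2 * (m * (m ^ n + 2)) ≤ B / J := by
    rw [Nat.le_div_iff_mul_le (by omega)]
    calc 2 * (m * (m ^ n + 2)) * J ≤ 2 * (m * (m ^ n + 2)) * m ^ n := Nat.mul_le_mul_left _ hJ2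
      _ = 2 * m ^ n * (m * (m ^ n + 2)) := by ring
      _ ≤ B := hB
  set r : ℕ := B / J with hrdef
  have hr1 : 1 ≤ r := by
    have : 0 < 2 * (m * (m ^ n + 2)) := by positivity
    omega
  have hrR : 2 * ((m : ℝ) * (J + 2)) ≤ r := by
    have h1 : 2 * (m * (J + 2)) ≤ r := le_trans (by gcongr) hr
    exact_mod_cast h1
  have hbR : ∀ i, |(b i : ℝ)| ≤ B := by
    intro i
    exact_mod_cast hb i
  have hq' : ∀ i, |(q i : ℝ)| ≤ |(J : ℝ) * ((b i : ℝ) / B)| + 1 / m := by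
    intro i
    have h1 := hq i
    have h2 := abs_sub_abs_le_abs_sub (q i : ℝ) ((J : ℝ) * ((b i : ℝ) / B))
    rw [abs_sub_comm] at h2
    linarith
  have hq'' : ∀ i, |(J : ℝ) * ((b i : ℝ) / B)| ≤ |(q i : ℝ)| + 1 / m := by
    intro i
    have h1 := hq i
    have h2 := abs_sub_abs_le_abs_sub ((J : ℝ) * ((b i : ℝ) / B)) (q i : ℝ)
    linarith
  have hJx : ∀ i, |(J : ℝ) * ((b i : ℝ) / B)| ≤ J := by
    intro i
    rw [abs_mul, abs_div, abs_of_pos hJ0, abs_of_pos hB0]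
    have h1 : |(b i : ℝ)| / B ≤ 1 := (div_le_one hB0).2 (hbR i)
    calc (J : ℝ) * (|(b i : ℝ)| / B) ≤ J * 1 := mul_le_mul_of_nonneg_left h1 hJ0.le
      _ = J := mul_one _
  have hinv : 1 / (m : ℝ) ≤ 1 / 2 := one_div_le_one_div_of_le (by norm_num) hm2
  have hqJ : ∀ i, |(q i : ℝ)| ≤ J + 1 := by
    intro i
    have := hq' i
    have := hJx i
    linarith
  refine ⟨J, r, q, fun i => b i - r * q i, hJ1, hJ2, Nat.div_mul_le_self B J, ?_,
    fun i => by ring, ?_, ?_, ?_⟩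
  · have h1 : B ≤ J * r + J := by
      omega
    have h2 : J ≤ J * r := Nat.le_mul_of_pos_right _ (by omega)
    calc B ≤ J * r + J := h1
      _ ≤ J * r + J * r := by omega
      _ = 2 * J * r := by ring
  · intro i
    have h1 := hqJ i
    have h2 : (|q i| : ℤ) ≤ (J : ℤ) + 1 := by
      have h3 : ((|q i| : ℤ) : ℝ) ≤ ((J : ℤ) + 1 : ℤ) := by
        push_cast
        exact h1
      exact_mod_cast h3
    exact h2
  · intro i
    set θ : ℝ := (J : ℝ) * ((b i : ℝ) / B) - q i with hθ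
    set φ : ℝ := (B : ℝ) / J - r with hφ
    have hφ0 : 0 ≤ φ := by
      rw [hφ, sub_nonneg, le_div_iff₀ hJ0]
      exact_mod_cast Nat.div_mul_le_self B J
    have hφ1 : φ ≤ 1 := by
      rw [hφ, sub_le_iff_le_add, div_le_iff₀ hJ0]
      have h1 : B ≤ (1 + r) * J := by
        have : B ≤ J * r + J := by
          omega
        calc B ≤ J * r + J := this
          _ = (1 + r) * J := by ring
      exact_mod_cast h1
    have hθ1 : |θ| ≤ 1 / m := hq i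
    have hρ : ((b i - r * q i : ℤ) : ℝ) = φ * q i + (r + φ) * θ := by
      push_cast
      rw [hθ, hφ]
      field_simp
      ring
    rw [hρ]
    have h1 : |φ * q i + (r + φ) * θ| ≤ (J + 1) + (r + 1) * (1 / m) := by
      have hr0 : (0 : ℝ) ≤ r := Nat.cast_nonneg _
      calc |φ * q i + (r + φ) * θ| ≤ |φ * q i| + |(r + φ) * θ| := abs_add_le _ _
        _ = φ * |(q i : ℝ)| + (r + φ) * |θ| := by
          rw [abs_mul, abs_mul, abs_of_nonneg hφ0, abs_of_nonneg (by linarith : 0 ≤ (r : ℝ) + φ)]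
        _ ≤ 1 * (J + 1) + (r + 1) * (1 / m) :=
          add_le_add (mul_le_mul hφ1 (hqJ i) (abs_nonneg _) zero_le_one)
            (mul_le_mul (by linarith) hθ1 (abs_nonneg _) (by linarith))
        _ = (J + 1) + (r + 1) * (1 / m) := by ring
    refine h1.trans ?_
    rw [← sub_nonneg]
    have h2 : 3 * (r : ℝ) / m - (((J : ℝ) + 1) + (r + 1) * (1 / m)) =
        (2 * r - (m * (J + 1) + 1)) / m := by
      field_simp
      ring
    rw [h2]
    apply div_nonneg _ hm0.le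
    nlinarith [hrR, mul_pos hm0 hJ0]
  · intro i
    have h1 := hq'' i
    rw [abs_mul, abs_div, abs_of_pos hJ0, abs_of_pos hB0] at h1
    have h2 : (m : ℝ) * J * |(b i : ℝ)| ≤ B * (m * |(q i : ℝ)| + 1) := by
      have h3 := mul_le_mul_of_nonneg_left h1 (mul_pos hm0 hB0).le
      have h4 : (m : ℝ) * B * (J * (|(b i : ℝ)| / B)) = m * J * |(b i : ℝ)| := by
        field_simp
      have h5 : (m : ℝ) * B * (|(q i : ℝ)| + 1 / m) = B * (m * |(q i : ℝ)| + 1) := by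
        field_simp
      rw [h4, h5] at h3
      exact h3
    exact_mod_cast h2

end Pool.Agent.ESH
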