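import Pool.Agent.ESH.DIF

/-!
# ESH / DIS: discriminant bound

Proof.  `NumberField.natAbs_discr_eq_absNorm_differentIdeal_mul_natAbs_discr_pow`:
`|d_M| = N(𝔇) |d_K|^n`, and by DIF `N(𝔇) ≤ N(n ∏ v)^n` (norm of an extended ideal: `Ideal.absNorm_algebraMap`;
`N((n)) = n^[K:ℚ]`, `[M:ℚ] = n [K:ℚ]`; norms of divisors divide, and the right side is non-zero).
-/

namespace Pool.Agent.ESH

open NumberField IsDedekindDomain

theorem dis (K M : Type*) [Field K] [NumberField K] [Field M] [NumberField M] [Algebra K M]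
    [IsGalois K M] (T : Finset (HeightOneSpectrum (𝓞 K)))
    (hT : ∀ w : Ideal (𝓞 M), w.IsPrime → w ≠ ⊥ → (∀ v ∈ T, ¬ w.LiesOver v.asIdeal) →
      ¬ w ∣ differentIdeal (𝓞 K) (𝓞 M)) :
    (discr M).natAbs ≤ (discr K).natAbs ^ Module.finrank K M *
      ((Module.finrank K M) ^ Module.finrank ℚ M *
        (∏ v ∈ T, Ideal.absNorm v.asIdeal) ^ Module.finrank K M) := by
  have h1 := dif K M T hT
  have h2 : Ideal.absNorm (differentIdeal (𝓞 K) (𝓞 M)) ∣
      (Module.finrank K M) ^ Module.finrank ℚ M *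
        (∏ v ∈ T, Ideal.absNorm v.asIdeal) ^ Module.finrank K M := by
    have h3 := Ideal.absNorm_dvd_absNorm_of_le (Ideal.dvd_iff_le.1 h1)
    rw [Ideal.absNorm_algebraMap, map_mul, map_prod, Ideal.absNorm_span_natCast,
      RingOfIntegers.rank, ← IsFractionRing.finrank_eq (𝓞 K) K (𝓞 M) M, mul_pow, ← pow_mul,
      Module.finrank_mul_finrank] at h3
    exact h3
  have hn : 0 < Module.finrank K M := Module.finrank_pos
  have h4 : 0 < (Module.finrank K M) ^ Module.finrank ℚ M *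
        (∏ v ∈ T, Ideal.absNorm v.asIdeal) ^ Module.finrank K M := by
    apply Nat.mul_pos (pow_pos hn _)
    apply pow_pos
    apply Finset.prod_pos
    intro v _
    apply Nat.pos_of_ne_zero
    rw [Ne, Ideal.absNorm_eq_zero_iff]
    exact v.ne_bot
  rw [natAbs_discr_eq_absNorm_differentIdeal_mul_natAbs_discr_pow K (𝓞 K) M (𝓞 M), mul_comm]
  exact Nat.mul_le_mul_left _ (Nat.le_of_dvd h4 h2)

end Pool.Agent.ESH
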