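import Pool.Agent.ESH.DefsG
import Pool.Agent.Helper11.Degree

/-!
# ESH / PLV: valuation rings of `Φ/C` are places

Proof of `plv`.  Let `x ∈ V'.nonunits`, `x ≠ 0` (`V' ≠ ⊤`); `x` is transcendental over `C` (constants are units of `V'`).
Let `O` be the integral closure of `C[x]` in `Φ` (Helper11: `Ox C x`, a Dedekind domain with fraction field `Φ`),
`O ⊆ V'` since `V'` is integrally closed and contains `C[x]`.  `𝔭 = O ∩ V'.nonunits` contains `x`, so is a non-zero prime;
`V'` contains the discrete valuation ring `O_𝔭` and is not `Φ`, so is equal to it (a DVR is a maximal proper subring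
which... : overrings of a DVR are itself or the fraction field).  The place `placeOfPrime` of `𝔭` does it.
Proof of `plv_exists`.  `b` is a non-unit of `A`, so it is contained in a maximal ideal of `A`, and there is a valuation
ring `V'` of `Φ` containing `A` with `b ∈ V'.nonunits` (Mathlib: `LocalSubring`/`ValuationSubring` domination); `V' ≠ ⊤` since
`b ≠ 0`.  Apply `plv`.
-/

namespace Pool.Agent.ESH

open Pool.Agent.Helper11

variable {C Φ : Type*} [Field C] [Field Φ] [Algebra C Φ] [FunField C Φ] [CharZero C] [IsAlgClosed C]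

private theorem PLV_integral (V' : ValuationSubring Φ) {R : Type*} [CommRing R] [Algebra R Φ]
    (hR : ∀ r : R, algebraMap R Φ r ∈ V') {a : Φ} (ha : IsIntegral R a) : a ∈ V' := by
  obtain ⟨p, hp, hpa⟩ := ha
  let φ : R →+* V' := (algebraMap R Φ).codRestrict V' hR
  have h1 : IsIntegral V' a := by
    refine ⟨p.map φ, hp.map φ, ?_⟩
    rw [Polynomial.eval₂_map]
    exact hpa
  obtain ⟨y, hy⟩ := (IsIntegrallyClosed.isIntegral_iff (R := V') (K := Φ)).1 h1
  rw [← hy]
  exact y.2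

theorem plv (V' : ValuationSubring Φ) (h : V' ≠ ⊤) (hC : ∀ c : C, algebraMap C Φ c ∈ V') :
    ∃ R : Place C Φ, ∀ f, f ∈ R.ge 0 ↔ f ∈ V' := by
  have h1 : ∃ x : Φ, x ∉ V' := by
    by_contra hcon
    push Not at hcon
    exact h (eq_top_iff.2 fun x _ => hcon x)
  obtain ⟨x', hx'⟩ := h1
  have hx0' : x' ≠ 0 := by
    rintro rfl
    exact hx' V'.zero_mem
  obtain ⟨x, hxdef⟩ : ∃ x, x = x'⁻¹ := ⟨_, rfl⟩
  have hx0 : x ≠ 0 := by
    rw [hxdef]
    exact inv_ne_zero hx0'
  have hxn : V'.valuation x < 1 := by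
    rw [hxdef, map_inv₀]
    rw [← V'.valuation_le_one_iff, not_le] at hx'
    exact inv_lt_one_of_one_lt₀ hx'
  have hxV : x ∈ V' := by
    rw [← V'.valuation_le_one_iff]
    exact hxn.le
  have hxt : Transcendental C x := by
    intro halg
    obtain ⟨c, hc⟩ := mem_range_of_isAlgebraic halg
    apply hx'
    have h2 := hC c⁻¹
    rw [map_inv₀, hc, hxdef, inv_inv] at h2
    exact h2
  have : Fact (Transcendental C x) := ⟨hxt⟩
  have hRx : ∀ r : Rx C x, algebraMap (Rx C x) Φ r ∈ V' := by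
    intro r
    have hle : (Rx C x).toSubring ≤ V'.toSubring := by
      intro a ha
      obtain ⟨p, rfl⟩ := Algebra.adjoin_mem_exists_aeval _ _ ha
      rw [Polynomial.aeval_eq_sum_range]
      refine sum_mem fun i _ => ?_
      rw [Algebra.smul_def]
      exact V'.mul_mem _ _ (hC _) (V'.pow_mem hxV _)
    exact hle r.2
  have hOx : ∀ a : Ox C x, (a : Φ) ∈ V' := fun a => PLV_integral V' hRx a.2
  let ψ : Ox C x →+* V' := (algebraMap (Ox C x) Φ).codRestrict V' hOx
  have hψ : ∀ a : Ox C x, a ∈ (IsLocalRing.maximalIdeal V').comap ψ ↔ V'.valuation (a : Φ) < 1 := by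
    intro a
    rw [Ideal.mem_comap]
    exact V'.valuation_lt_one_iff (ψ a)
  let P : IsDedekindDomain.HeightOneSpectrum (Ox C x) :=
    { asIdeal := (IsLocalRing.maximalIdeal V').comap ψ
      isPrime := Ideal.comap_isPrime _ _
      ne_bot := by
        intro hbot
        have hmem : algebraMap (Rx C x) (Ox C x) (xR C x) ∈ (IsLocalRing.maximalIdeal V').comap ψ := by
          rw [hψ]
          exact hxn
        rw [hbot, Ideal.mem_bot] at hmem
        exact hx0 (congrArg (fun a : Ox C x => (a : Φ)) hmem) }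
  have hle : ∀ f, f ∈ (placeOfPrime P).ge 0 → f ∈ V' := by
    intro f hf
    by_cases hf0 : f = 0
    · rw [hf0]; exact V'.zero_mem
    have h2 : 0 ≤ (placeOfPrime P).ord f := Place.le_ord_of_mem _ hf hf0
    rw [placeOfPrime_ord] at h2
    have hne := (Valuation.ne_zero_iff (P.valuation Φ)).2 hf0
    have h3 : P.valuation Φ f ≤ 1 := by
      rw [← WithZero.log_le_log hne one_ne_zero, WithZero.log_one]
      omega
    obtain ⟨n, d, hnd⟩ := P.exists_primeCompl_mul_eq_of_integer f h3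
    have hd : (d : Ox C x) ∉ (IsLocalRing.maximalIdeal V').comap ψ := d.2
    rw [hψ, not_lt] at hd
    have hd0 : ((d : Ox C x) : Φ) ≠ 0 := by
      intro h0
      rw [h0, map_zero] at hd
      exact absurd hd (not_le.2 zero_lt_one)
    have hdi : ((d : Ox C x) : Φ)⁻¹ ∈ V' := by
      rw [← V'.valuation_le_one_iff, map_inv₀]
      exact inv_le_one_of_one_le₀ hd
    have e : f = ((n : Ox C x) : Φ) * ((d : Ox C x) : Φ)⁻¹ := by
      have h4 : f * ((d : Ox C x) : Φ) = ((n : Ox C x) : Φ) := hnd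
      rw [← h4, mul_assoc, mul_inv_cancel₀ hd0, mul_one]
    rw [e]
    exact V'.mul_mem _ _ (hOx n) hdi
  refine ⟨placeOfPrime P, fun f => ⟨hle f, fun hf => ?_⟩⟩
  by_contra hcon
  apply h
  rw [eq_top_iff]
  intro g _
  set R := placeOfPrime P
  have hf0 : f ≠ 0 := by
    rintro rfl
    exact hcon (zero_mem _)
  have hford : R.ord f < 0 := by
    by_contra h0
    exact hcon (Or.inr (not_lt.1 h0))
  by_cases hg0 : g = 0
  · rw [hg0]; exact V'.zero_mem
  obtain ⟨n, hn⟩ : ∃ n : ℕ, 0 ≤ R.ord g + n := ⟨(R.ord g).natAbs, by omega⟩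
  have h5 : g * (f ^ n)⁻¹ ∈ R.ge 0 := by
    refine R.mem_ge_of_le ?_
    rw [R.ord_mul _ _ hg0 (inv_ne_zero (pow_ne_zero _ hf0)), R.ord_inv, R.ord_pow]
    nlinarith
  have h6 := V'.mul_mem _ _ (hle _ h5) (V'.pow_mem hf n)
  rwa [mul_assoc, inv_mul_cancel₀ (pow_ne_zero _ hf0), mul_one] at h6

theorem plv_exists (A : Subring Φ) (hC : ∀ c : C, algebraMap C Φ c ∈ A) (b : Φ) (hb : NU A b)
    (hb0 : b ≠ 0) : ∃ R : Place C Φ, Below A R ∧ b ∈ R.ge 1 := by
  have hbi : b⁻¹ ∉ A := hb.2.resolve_left hb0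
  have hI : (Ideal.span {(⟨b, hb.1⟩ : A)} : Ideal A) ≠ ⊤ := by
    intro htop
    rw [Ideal.span_singleton_eq_top] at htop
    obtain ⟨u, hu⟩ := htop
    apply hbi
    have h1 : b * ((u⁻¹ : Aˣ) : A) = 1 := by
      have h2 := congrArg (fun a : A => (a : Φ)) (Units.mul_inv u)
      rw [hu] at h2
      exact h2
    rw [inv_eq_of_mul_eq_one_right h1]
    exact ((u⁻¹ : Aˣ) : A).2
  obtain ⟨B, h1, h2⟩ := Ideal.image_subset_nonunits_valuationSubring _ hI
  have hbB : b ∈ B.nonunits := h2 ⟨⟨b, hb.1⟩, Ideal.mem_span_singleton_self _, rfl⟩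
  rw [ValuationSubring.mem_nonunits_iff] at hbB
  have hbiB : b⁻¹ ∉ B := by
    intro h3
    rw [← B.valuation_le_one_iff, map_inv₀] at h3
    have hpos : (0 : B.ValueGroup) < B.valuation b := zero_lt_iff.2 (by
      intro h0
      exact hb0 ((B.valuation.zero_iff).1 h0))
    exact absurd h3 (not_le.2 ((one_lt_inv₀ hpos).2 hbB))
  have hB : B ≠ ⊤ := by
    intro htop
    apply hbiB
    rw [htop]
    trivial
  obtain ⟨R, hR⟩ := plv B hB (fun c => h1 (hC c))
  refine ⟨R, fun a ha => (hR a).2 (h1 ha), ?_⟩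
  refine R.mem_ge_of_le ?_
  by_contra hcon
  apply hbiB
  rw [← hR]
  refine R.mem_ge_of_le ?_
  rw [R.ord_inv]
  omega

/-- a place is determined by its valuation ring -/
theorem plv_ext (R R' : Place C Φ) (h : ∀ f, f ∈ R.ge 0 → f ∈ R'.ge 0) : R = R' := by
  have key0 : ∀ y : Φ, y ≠ 0 → R.ord y = 0 → R'.ord y = 0 := by
    intro y hy0 hy
    have h1 := R'.le_ord_of_mem (h y (R.mem_ge_of_le hy.ge)) hy0
    have h2 := R'.le_ord_of_mem (h y⁻¹ (R.mem_ge_of_le (by rw [R.ord_inv, hy]; simp)))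
      (inv_ne_zero hy0)
    rw [R'.ord_inv] at h2
    omega
  have key1 : ∀ y : Φ, y ≠ 0 → R'.ord y = R.ord y * R'.ord R.unif := by
    intro y hy
    have hne := zpow_ne_zero (-(R.ord y)) R.unif_ne_zero
    have h1 := key0 (y * R.unif ^ (-(R.ord y))) (mul_ne_zero hy hne) (by
      rw [R.ord_mul _ _ hy hne, R.ord_zpow, R.ord_unif]
      ring)
    rw [R'.ord_mul _ _ hy hne, R'.ord_zpow] at h1
    linarith
  have hm : R'.ord R.unif = 1 := by
    have h1 := key1 R'.unif R'.unif_ne_zero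
    rw [R'.ord_unif] at h1
    have h2 : 0 ≤ R'.ord R.unif :=
      R'.le_ord_of_mem (h _ (R.mem_ge_of_le (by rw [R.ord_unif]; decide))) R.unif_ne_zero
    have h3 : R'.ord R.unif ∣ 1 := ⟨_, by rw [h1]; ring⟩
    have h4 := Int.isUnit_iff.1 (isUnit_of_dvd_one h3)
    omega
  ext y
  by_cases hy : y = 0
  · rw [hy, R.ord_zero, R'.ord_zero]
  · rw [key1 y hy, hm, mul_one]

end Pool.Agent.ESH
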