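import Pool.Agent.ESH.DefsE
import Pool.Agent.ESH.PLV

/-!
# ESH / GTA: weak approximation

Let `x` be a function without poles at the finitely many places of `S₁ ∪ S₂` (Helper11 has `exists_frac`, `exists_denominator`; e.g. take for
`x` the inverse of a suitable `y - c`).  The integral closure `O` of `C[x]` in `Φ` (Helper11 `Ox`) is a Dedekind domain and the places in `S₁ ∪ S₂`
correspond to distinct maximal ideals; Chinese remainder theorem.  For the second statement: an element of `𝔭 \ 𝔭²` congruent to `1` modulo the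
other maximal ideals.  (Other proof: induction with the valuation rings, `plv_ext` gives for `P ≠ R` an `f` with
`P.ord f > 0`, `R.ord f < 0`...; or Mathlib's weak approximation for valuations.)
-/

namespace Pool.Agent.ESH

open Pool.Agent.Helper11 Polynomial IntermediateField

variable {C Φ : Type*} [Field C] [Field Φ] [Algebra C Φ] [FunField C Φ] [CharZero C] [IsAlgClosed C]


omit [FunField C Φ] [CharZero C] [IsAlgClosed C] in
private theorem GTA_neg (P : Place C Φ) {x : Φ} (hx : P.ord x < 0) :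
    1 + x ≠ 0 ∧ P.ord (x / (1 + x)) = 0 ∧ P.ord (1 / (1 + x)) = -P.ord x := by
  have hx0 : x ≠ 0 := P.ne_zero_of_ord_ne_zero (by omega)
  obtain ⟨h1, h2⟩ := P.ord_add_eq_right (x := 1) hx0 (Or.inr (by rw [P.ord_one]; exact hx))
  refine ⟨h1, ?_, ?_⟩
  · rw [P.ord_div hx0 h1, h2, sub_self]
  · rw [P.ord_div one_ne_zero h1, h2, P.ord_one]
    ring

omit [FunField C Φ] [CharZero C] [IsAlgClosed C] in
private theorem GTA_pos (P : Place C Φ) {x : Φ} (hx : 0 < P.ord x) :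
    1 + x ≠ 0 ∧ P.ord (x / (1 + x)) = P.ord x ∧ P.ord (1 / (1 + x)) = 0 := by
  have hx0 : x ≠ 0 := P.ne_zero_of_ord_ne_zero (by omega)
  obtain ⟨h1, h2⟩ := P.ord_add_eq_left (y := x) (one_ne_zero (α := Φ))
    (Or.inr (by rw [P.ord_one]; exact hx))
  rw [P.ord_one] at h2
  refine ⟨h1, ?_, ?_⟩
  · rw [P.ord_div hx0 h1, h2, sub_zero]
  · rw [P.ord_div one_ne_zero h1, h2, P.ord_one, sub_zero]

private theorem GTA_sep {P R : Place C Φ} (h : P ≠ R) : ∃ f : Φ, P.ord f < 0 ∧ 0 < R.ord f := by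
  have h1 : ∃ f, f ∈ R.ge 0 ∧ f ∉ P.ge 0 := by
    by_contra hc
    push Not at hc
    exact h (plv_ext R P hc).symm
  have h2 : ∃ f, f ∈ P.ge 0 ∧ f ∉ R.ge 0 := by
    by_contra hc
    push Not at hc
    exact h (plv_ext P R hc)
  obtain ⟨f, hf1, hf2⟩ := h1
  obtain ⟨g, hg1, hg2⟩ := h2
  have hf0 : f ≠ 0 := by
    rintro rfl
    exact hf2 (zero_mem _)
  have hg0 : g ≠ 0 := by
    rintro rfl
    exact hg2 (zero_mem _)
  have a1 := R.le_ord_of_mem hf1 hf0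
  have a2 := P.le_ord_of_mem hg1 hg0
  have a3 : P.ord f < 0 := by
    by_contra hc
    exact hf2 (P.mem_ge_of_le (not_lt.1 hc))
  have a4 : R.ord g < 0 := by
    by_contra hc
    exact hg2 (R.mem_ge_of_le (not_lt.1 hc))
  refine ⟨f / g, ?_, ?_⟩
  · rw [P.ord_div hf0 hg0]
    omega
  · rw [R.ord_div hf0 hg0]
    omega

private theorem GTA_h (P : Place C Φ) (S : Finset (Place C Φ)) (hP : P ∉ S) :
    ∃ h : Φ, P.ord h < 0 ∧ ∀ R ∈ S, 0 < R.ord h := by
  classical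
  induction S using Finset.induction_on with
  | empty =>
    refine ⟨P.unif⁻¹, ?_, fun R hR => absurd hR (Finset.notMem_empty R)⟩
    rw [P.ord_inv, P.ord_unif]
    norm_num
  | insert R S hRS ih =>
    rw [Finset.mem_insert, not_or] at hP
    obtain ⟨h, h1, h2⟩ := ih hP.2
    obtain ⟨g, g1, g2⟩ := GTA_sep hP.1
    have h0 : h ≠ 0 := P.ne_zero_of_ord_ne_zero (by omega)
    have g0 : g ≠ 0 := P.ne_zero_of_ord_ne_zero (by omega)
    obtain ⟨n, hn1, hn⟩ : ∃ n : ℕ, 1 ≤ n ∧ ∀ Q ∈ S, 0 < n * Q.ord h + Q.ord g := by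
      refine ⟨1 + ∑ Q ∈ S, (Q.ord g).natAbs, by omega, fun Q hQ => ?_⟩
      have e1 : (Q.ord g).natAbs ≤ ∑ Q ∈ S, (Q.ord g).natAbs :=
        Finset.single_le_sum (f := fun Q => (Q.ord g).natAbs) (fun _ _ => Nat.zero_le _) hQ
      have e2 := h2 Q hQ
      obtain ⟨N, hN⟩ : ∃ N, N = ∑ Q ∈ S, (Q.ord g).natAbs := ⟨_, rfl⟩
      rw [← hN] at e1 ⊢
      push_cast
      have e3 : (1 + (N : ℤ)) * 1 ≤ (1 + (N : ℤ)) * Q.ord h :=
        mul_le_mul_of_nonneg_left (by omega) (by omega)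
      have e4 : ((Q.ord g).natAbs : ℤ) ≤ N := by exact_mod_cast e1
      omega
    have hpow : ∀ Q : Place C Φ, Q.ord (h ^ n) = n * Q.ord h := fun Q => Q.ord_pow h n
    have hn0 : (0 : ℤ) < n := by exact_mod_cast hn1
    have hn' : h ^ n ≠ 0 := pow_ne_zero _ h0
    rcases lt_trichotomy (R.ord h) 0 with hR | hR | hR
    · have hP' : P.ord (h ^ n) < 0 := by
        rw [hpow]
        exact mul_neg_of_pos_of_neg hn0 h1
      have hR' : R.ord (h ^ n) < 0 := by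
        rw [hpow]
        exact mul_neg_of_pos_of_neg hn0 hR
      obtain ⟨c1, c2, _⟩ := GTA_neg P hP'
      obtain ⟨_, d2, _⟩ := GTA_neg R hR'
      refine ⟨h ^ n / (1 + h ^ n) * g, ?_, fun Q hQ => ?_⟩
      · rw [P.ord_mul _ _ (div_ne_zero hn' c1) g0, c2, zero_add]
        exact g1
      · rw [Q.ord_mul _ _ (div_ne_zero hn' c1) g0]
        rcases Finset.mem_insert.1 hQ with rfl | hQ'
        · rw [d2, zero_add]
          exact g2
        · have hQ'' : 0 < Q.ord (h ^ n) := by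
            rw [hpow]
            exact mul_pos hn0 (h2 Q hQ')
          rw [(GTA_pos Q hQ'').2.1, hpow]
          exact hn Q hQ'
    · refine ⟨h ^ n * g, ?_, fun Q hQ => ?_⟩
      · rw [P.ord_mul _ _ hn' g0, hpow]
        have := mul_neg_of_pos_of_neg hn0 h1
        omega
      · rw [Q.ord_mul _ _ hn' g0, hpow]
        rcases Finset.mem_insert.1 hQ with rfl | hQ'
        · rw [hR, mul_zero, zero_add]
          exact g2
        · exact hn Q hQ'
    · refine ⟨h, h1, fun Q hQ => ?_⟩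
      rcases Finset.mem_insert.1 hQ with rfl | hQ'
      · exact hR
      · exact h2 Q hQ'

private theorem GTA_e (P : Place C Φ) (S : Finset (Place C Φ)) (hP : P ∉ S) :
    ∃ e : Φ, e - 1 ∈ P.ge 1 ∧ e ≠ 0 ∧ 1 - e ≠ 0 ∧ P.ord e = 0 ∧
      ∀ R ∈ S, e ∈ R.ge 1 ∧ R.ord (1 - e) = 0 := by
  obtain ⟨h, h1, h2⟩ := GTA_h P S hP
  have h0 : h ≠ 0 := P.ne_zero_of_ord_ne_zero (by omega)
  obtain ⟨c1, c2, c3⟩ := GTA_neg P h1
  have he : 1 - h / (1 + h) = 1 / (1 + h) := by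
    field_simp
    ring
  refine ⟨h / (1 + h), ?_, div_ne_zero h0 c1, ?_, c2, fun R hR => ⟨?_, ?_⟩⟩
  · have e1 : h / (1 + h) - 1 = -(1 / (1 + h)) := by rw [← he]; ring
    rw [e1]
    refine P.mem_ge_of_le ?_
    rw [P.ord_neg, c3]
    omega
  · rw [he]
    exact one_div_ne_zero c1
  · refine R.mem_ge_of_le ?_
    rw [(GTA_pos R (h2 R hR)).2.1]
    have := h2 R hR
    omega
  · rw [he]
    exact (GTA_pos R (h2 R hR)).2.2

theorem gta (S₁ S₂ : Finset (Place C Φ)) (hd : Disjoint S₁ S₂) :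
    ∃ f : Φ, (∀ P ∈ S₁, f ∈ P.ge 1) ∧ ∀ R ∈ S₂, f - 1 ∈ R.ge 1 := by
  classical
  have key : ∀ R : Place C Φ, ∃ e : Φ, e - 1 ∈ R.ge 1 ∧ ∀ Q ∈ (S₁ ∪ S₂).erase R, e ∈ Q.ge 1 := by
    intro R
    obtain ⟨e, h1, _, _, _, h2⟩ := GTA_e R ((S₁ ∪ S₂).erase R) (Finset.notMem_erase R _)
    exact ⟨e, h1, fun Q hQ => (h2 Q hQ).1⟩
  choose e he1 he2 using key
  refine ⟨∑ R ∈ S₂, e R, fun P hP => ?_, fun R hR => ?_⟩
  · refine sum_mem fun R hR => he2 R P ?_
    rw [Finset.mem_erase]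
    refine ⟨?_, Finset.mem_union_left _ hP⟩
    rintro rfl
    exact Finset.disjoint_left.1 hd hP hR
  · rw [← Finset.add_sum_erase S₂ e hR, add_sub_right_comm]
    refine add_mem (he1 R) (sum_mem fun Q hQ => he2 Q R ?_)
    rw [Finset.mem_erase] at hQ ⊢
    exact ⟨hQ.1.symm, Finset.mem_union_right _ hR⟩

theorem gta_one (P : Place C Φ) (S : Finset (Place C Φ)) (hP : P ∉ S) :
    ∃ f : Φ, P.ord f = 1 ∧ ∀ R ∈ S, R.ord f = 0 := by
  classical
  obtain ⟨e, h1, h2, h3, h4, h5⟩ := GTA_e P S hP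
  obtain ⟨p, hp⟩ : ∃ p, p = P.unif := ⟨_, rfl⟩
  have hp1 : P.ord p = 1 := by rw [hp, P.ord_unif]
  have hp0 : p ≠ 0 := P.ne_zero_of_ord_ne_zero (by omega)
  obtain ⟨n, hn⟩ : ∃ n : ℕ, ∀ Q ∈ S, 0 < n * Q.ord e + Q.ord p := by
    refine ⟨1 + ∑ Q ∈ S, (Q.ord p).natAbs, fun Q hQ => ?_⟩
    have e1 : (Q.ord p).natAbs ≤ ∑ Q ∈ S, (Q.ord p).natAbs :=
      Finset.single_le_sum (f := fun Q => (Q.ord p).natAbs) (fun _ _ => Nat.zero_le _) hQ
    have e2 := Q.le_ord_of_mem (h5 Q hQ).1 h2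
    obtain ⟨N, hN⟩ : ∃ N, N = ∑ Q ∈ S, (Q.ord p).natAbs := ⟨_, rfl⟩
    rw [← hN] at e1 ⊢
    push_cast
    have e3 : (1 + (N : ℤ)) * 1 ≤ (1 + (N : ℤ)) * Q.ord e :=
      mul_le_mul_of_nonneg_left (by omega) (by omega)
    have e4 : ((Q.ord p).natAbs : ℤ) ≤ N := by exact_mod_cast e1
    omega
  have hx0 : p * e ^ n ≠ 0 := mul_ne_zero hp0 (pow_ne_zero _ h2)
  have hy0 : (1 - e) ^ 2 ≠ 0 := pow_ne_zero _ h3
  have hx : ∀ Q : Place C Φ, Q.ord (p * e ^ n) = n * Q.ord e + Q.ord p := by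
    intro Q
    rw [Q.ord_mul _ _ hp0 (pow_ne_zero _ h2), Q.ord_pow]
    ring
  refine ⟨p * e ^ n + (1 - e) ^ 2, ?_, fun R hR => ?_⟩
  · have h6 : 1 ≤ P.ord (1 - e) := by
      have h7 := P.le_ord_of_mem h1 (by
        intro h0
        apply h3
        rw [← neg_sub, h0, neg_zero])
      rwa [← neg_sub, P.ord_neg] at h7
    rw [(P.ord_add_eq_left hx0 (Or.inr ?_)).2, hx, h4, hp1]
    · ring
    · rw [hx, h4, hp1, P.ord_pow]
      push_cast
      omega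
  · have h6 := (h5 R hR).2
    rw [(R.ord_add_eq_right hy0 (Or.inr ?_)).2, R.ord_pow, h6, mul_zero]
    rw [R.ord_pow, h6, mul_zero, hx]
    exact hn R hR

end Pool.Agent.ESH
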