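import Pool.Agent.ESH.TRV
import Pool.Agent.ESH.GTA

/-!
# ESH / DSL: the discriminant is divisible by the ramification

Local basis: for every place `R` with `e = R.ord z ≥ 1` and `0 ≤ j < e` choose (weak approximation) `w_{R,j}` with `R.ord w_{R,j} = j` and order `≥ R'.ord z` at the other places `R'` over `z = 0`.  They are a basis of the semilocal ring
`O_z` over `C[z]_(z)` (their classes modulo `z` are a basis of `O_z/z = ∏ O/𝔭^e`; number `∑ e = [Φ : E]`; Nakayama).  So the determinant of `v` is the square of an element without pole at `z = 0` times the determinant for `w`.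
The rows `(R, j)` with `j ≥ 1` of the matrix `Tr(w w')` vanish at `z = 0` (TRV: all the values of `w_{R,j} w'` are `0`), so its determinant is divisible by `z^s`, `s = ∑_R (e_R - 1)`.
-/

namespace Pool.Agent.ESH

open Pool.Agent.Helper11 Polynomial IntermediateField

variable {C Φ : Type*} [Field C] [Field Φ] [Algebra C Φ] [FunField C Φ] [CharZero C] [IsAlgClosed C]

omit [FunField C Φ] [CharZero C] [IsAlgClosed C] in
private theorem DSL_poly (R : Place C Φ) {z : Φ} (hz : 1 ≤ R.ord z) {P : C[X]} (hP : P ≠ 0) :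
    aeval z P ≠ 0 ∧ ∃ a : ℕ, R.ord (aeval z P) = a * R.ord z := by
  have hz0 : z ≠ 0 := R.ne_zero_of_ord_ne_zero (by omega)
  obtain ⟨q, hq, hq2⟩ := Polynomial.exists_eq_pow_rootMultiplicity_mul_and_not_dvd P hP 0
  obtain ⟨a, ha⟩ : ∃ a, a = P.rootMultiplicity 0 := ⟨_, rfl⟩
  rw [← ha, map_zero, sub_zero] at hq
  rw [map_zero, sub_zero, X_dvd_iff] at hq2
  have h1 : aeval z q = aeval z q.divX * z + algebraMap C Φ (q.coeff 0) := by
    conv_lhs => rw [← q.divX_mul_X_add]
    rw [map_add, map_mul, aeval_X, aeval_C]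
  have h2 : algebraMap C Φ (q.coeff 0) ≠ 0 := by
    rw [Ne, map_eq_zero]; exact hq2
  obtain ⟨h3, h4⟩ := R.ord_add_eq_right (x := aeval z q.divX * z) h2 (by
    by_cases h0 : aeval z q.divX * z = 0
    · exact Or.inl h0
    right
    rw [R.ord_algebraMap]
    have h5 : aeval z q.divX ∈ R.ge 0 := by
      rw [aeval_eq_sum_range]
      refine sum_mem fun i _ => R.smul_mem_ge _ ?_
      have h6 := R.pow_mem_ge (R.mem_ge_of_le (n := 0) (x := z) (by omega)) i
      rwa [mul_zero] at h6
    have h6 := R.le_ord_of_mem (R.mul_mem_ge h5 (R.mem_ge_of_le hz)) h0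
    omega)
  rw [← h1] at h3 h4
  rw [R.ord_algebraMap] at h4
  refine ⟨?_, a, ?_⟩
  · rw [hq, map_mul, map_pow, aeval_X]
    exact mul_ne_zero (pow_ne_zero _ hz0) h3
  · rw [hq, map_mul, map_pow, aeval_X, R.ord_mul _ _ (pow_ne_zero _ hz0) h3, h4, R.ord_pow, add_zero]

omit [FunField C Φ] [CharZero C] [IsAlgClosed C] in
private theorem DSL_dvd (R : Place C Φ) {z : Φ} (hz : 1 ≤ R.ord z) {g : Φ} (hg : g ∈ C⟮z⟯) :
    R.ord z ∣ R.ord g := by
  obtain ⟨p, q, rfl⟩ := (mem_adjoin_simple_iff C g).1 hg
  by_cases hp : p = 0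
  · rw [hp, map_zero, zero_div, R.ord_zero]
    exact dvd_zero _
  by_cases hq : q = 0
  · rw [hq, map_zero, div_zero, R.ord_zero]
    exact dvd_zero _
  obtain ⟨h1, a, ha⟩ := DSL_poly R hz hp
  obtain ⟨h2, b, hb⟩ := DSL_poly R hz hq
  rw [R.ord_div h1 h2, ha, hb]
  exact dvd_sub (Dvd.intro_left _ rfl) (Dvd.intro_left _ rfl)

omit [FunField C Φ] [CharZero C] [IsAlgClosed C] in
private theorem DSL_det_mem (R : Place C Φ) {n : ℕ} (A : Matrix (Fin n) (Fin n) Φ)
    (hA : ∀ i j, A i j ∈ R.ge 0) : A.det ∈ R.ge 0 := by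
  rw [Matrix.det_apply]
  refine sum_mem fun σ _ => ?_
  have h1 := R.prod_mem_ge Finset.univ (fun i => A (σ i) i) (fun _ => 0) (fun i _ => hA _ _)
  rw [Finset.sum_const_zero] at h1
  rcases Int.units_eq_one_or (Equiv.Perm.sign σ) with h | h
  · rw [h, one_smul]; exact h1
  · rw [h, Units.neg_smul, one_smul]; exact neg_mem h1

omit [FunField C Φ] [CharZero C] [IsAlgClosed C] in
/-- a matrix which is of rank at most `r` modulo `z` -/
private theorem DSL_det (R : Place C Φ) {z : Φ} (hz : 1 ≤ R.ord z) {n : ℕ} {ι : Type*} (T : Finset ι)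
    (A B : Matrix (Fin n) (Fin n) Φ) (hA : ∀ i j, A i j ∈ R.ge 0) (hB : ∀ i j, B i j ∈ R.ge 0)
    (w : ι → Fin n → Φ) (hw : ∀ i, A i ∈ Submodule.span Φ (Set.range fun t : T => w t)) :
    (A + z • B).det ∈ R.ge (((n : ℤ) - T.card) * R.ord z) := by
  classical
  have hz0 : z ≠ 0 := R.ne_zero_of_ord_ne_zero (by omega)
  have h1 : (A + z • B).det = ∑ s : Finset (Fin n),
      Matrix.detRowAlternating (s.piecewise (fun i => A i) (fun i => z • B i)) := by
    have := (Matrix.detRowAlternating (n := Fin n) (R := Φ)).toMultilinearMap.map_add_univ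
      (fun i => A i) (fun i => z • B i)
    exact this
  rw [h1]
  refine sum_mem fun s _ => ?_
  by_cases hs : s.card ≤ T.card
  · have h2 : s.piecewise (fun i => A i) (fun i => z • B i) =
        sᶜ.piecewise (fun i => (fun _ : Fin n => z) i • (s.piecewise (fun i => A i) (fun i => B i)) i)
          (s.piecewise (fun i => A i) (fun i => B i)) := by
      funext i
      by_cases hi : i ∈ s
      · rw [Finset.piecewise_eq_of_mem _ _ _ hi, Finset.piecewise_eq_of_notMem _ _ _ (by simpa using hi),
          Finset.piecewise_eq_of_mem _ _ _ hi]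
      · rw [Finset.piecewise_eq_of_notMem _ _ _ hi, Finset.piecewise_eq_of_mem _ _ _ (by simpa using hi),
          Finset.piecewise_eq_of_notMem _ _ _ hi]
    have h3 := (Matrix.detRowAlternating (n := Fin n) (R := Φ)).toMultilinearMap.map_piecewise_smul
      (fun _ => z) (s.piecewise (fun i => A i) (fun i => B i)) sᶜ
    rw [h2]
    have h4 : Matrix.detRowAlternating (sᶜ.piecewise (fun i => (fun _ : Fin n => z) i •
        (s.piecewise (fun i => A i) (fun i => B i)) i) (s.piecewise (fun i => A i) (fun i => B i))) =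
        z ^ (n - s.card) * (Matrix.of (s.piecewise (fun i => A i) (fun i => B i))).det := by
      refine Eq.trans h3 ?_
      rw [Finset.prod_const, Finset.card_compl, Fintype.card_fin]
      rfl
    rw [h4]
    have h5 := R.mul_mem_ge (R.mem_ge_ord (z ^ (n - s.card)))
      (DSL_det_mem R (Matrix.of (s.piecewise (fun i => A i) (fun i => B i))) (fun i j => by
        rw [Matrix.of_apply]
        by_cases hi : i ∈ s
        · rw [Finset.piecewise_eq_of_mem _ _ _ hi]; exact hA i j
        · rw [Finset.piecewise_eq_of_notMem _ _ _ hi]; exact hB i j))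
    refine R.ge_anti ?_ h5
    rw [R.ord_pow, add_zero]
    have h6 : ((n - s.card : ℕ) : ℤ) = (n : ℤ) - s.card := by
      have := s.card_le_univ
      rw [Fintype.card_fin] at this
      omega
    rw [h6]
    have h7 : (s.card : ℤ) ≤ T.card := by exact_mod_cast hs
    nlinarith
  · push Not at hs
    rw [AlternatingMap.map_linearDependent]
    · exact zero_mem _
    · intro hli
      have h2 : LinearIndependent Φ (fun i : s => A i) := by
        have h3 := hli.comp (fun i : s => (i : Fin n)) Subtype.val_injective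
        have h4 : (s.piecewise (fun i => A i) (fun i => z • B i)) ∘ (fun i : s => (i : Fin n)) =
            fun i : s => A i := by
          funext i
          exact Finset.piecewise_eq_of_mem _ _ _ i.2
        rwa [h4] at h3
      have h3 : Submodule.span Φ (Set.range (fun i : s => A i)) ≤
          Submodule.span Φ (Set.range fun t : T => w t) := by
        rw [Submodule.span_le]
        rintro _ ⟨i, rfl⟩
        exact hw i
      have h4 := Submodule.finrank_mono h3
      rw [finrank_span_eq_card h2, Fintype.card_coe] at h4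
      have h5 : Module.finrank Φ (Submodule.span Φ (Set.range fun t : T => w t)) ≤ T.card := by
        have := finrank_range_le_card (R := Φ) (fun t : T => w t)
        rwa [Fintype.card_coe] at this
      omega

theorem dsl (E : IntermediateField C Φ) (z : Φ) (hE : E = C⟮z⟯) (hz : Transcendental C z)
    (v : Fin (Module.finrank E Φ) → Φ) (hv : ∀ i, ∀ R : Place C Φ, 1 ≤ R.ord z → v i ∈ R.ge 0)
    (hd : (Matrix.of fun i j => ((Algebra.trace E Φ (v i * v j) : E) : Φ)).det ≠ 0)
    (R₀ : Place C Φ) (h₀ : 1 ≤ R₀.ord z) :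
    R₀.ord z * (∑ᶠ R : Place C Φ, if 1 ≤ R.ord z then R.ord z - 1 else 0) ≤
      R₀.ord (Matrix.of fun i j => ((Algebra.trace E Φ (v i * v j) : E) : Φ)).det := by
  classical
  have hz0 : z ≠ 0 := R₀.ne_zero_of_ord_ne_zero (by omega)
  have hTfin : {R : Place C Φ | 1 ≤ R.ord z}.Finite :=
    (finite_ord_ne_zero (k := C) z).subset fun R (hR : 1 ≤ R.ord z) => by
      change R.ord z ≠ 0
      omega
  obtain ⟨T, hT⟩ : ∃ T, T = hTfin.toFinset := ⟨_, rfl⟩
  have hTm : ∀ R : Place C Φ, R ∈ T ↔ 1 ≤ R.ord z := fun R => by rw [hT]; simp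
  have hn : (Module.finrank E Φ : ℤ) = ∑ R ∈ T, R.ord z := by
    rw [hE, ← finsum_pos_ord hz, finsum_eq_sum_of_support_subset (s := T)]
    · refine Finset.sum_congr rfl fun R hR => max_eq_right ?_
      have := (hTm R).1 hR
      omega
    · intro R hR
      rw [Finset.mem_coe, hTm]
      rw [Function.mem_support] at hR
      by_contra hcon
      apply hR
      exact max_eq_left (by omega)
  have hs : (∑ᶠ R : Place C Φ, if 1 ≤ R.ord z then R.ord z - 1 else 0) =
      (Module.finrank E Φ : ℤ) - T.card := by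
    rw [hn, finsum_eq_sum_of_support_subset (s := T)]
    · rw [Finset.sum_congr rfl (g := fun R : Place C Φ => R.ord z - 1) (fun R hR => if_pos ((hTm R).1 hR)),
        Finset.sum_sub_distrib, Finset.sum_const, nsmul_eq_mul, mul_one]
    · intro R hR
      rw [Finset.mem_coe, hTm]
      rw [Function.mem_support] at hR
      by_contra hcon
      exact hR (if_neg hcon)
  rw [hs, mul_comm]
  refine R₀.le_ord_of_mem ?_ hd
  -- the matrices
  obtain ⟨c, hc⟩ : ∃ c : Fin (Module.finrank E Φ) → Fin (Module.finrank E Φ) → C,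
      c = fun i j => ∑ R ∈ T, ((R.ord z : ℤ) : C) * (ev R (v i) * ev R (v j)) := ⟨_, rfl⟩
  have key : ∀ i j, ∃ m : Φ, m ∈ R₀.ge 0 ∧
      ((Algebra.trace E Φ (v i * v j) : E) : Φ) = algebraMap C Φ (c i j) + z * m := by
    intro i j
    obtain ⟨h1, h2⟩ := trv E z hE hz (v i * v j) (fun R hR => by
      have := R.mul_mem_ge (hv i R hR) (hv j R hR)
      rwa [add_zero] at this) R₀ h₀
    obtain ⟨g, hg⟩ : ∃ g, g = ((Algebra.trace E Φ (v i * v j) : E) : Φ) - algebraMap C Φ (c i j) := ⟨_, rfl⟩
    have h3 : ev R₀ ((Algebra.trace E Φ (v i * v j) : E) : Φ) = c i j := by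
      rw [h2, hc, finsum_eq_sum_of_support_subset (s := T)]
      · refine Finset.sum_congr rfl fun R hR => ?_
        rw [if_pos ((hTm R).1 hR)]
        congr 1
        exact evl_mul R (hv i R ((hTm R).1 hR)) (hv j R ((hTm R).1 hR))
      · intro R hR
        rw [Finset.mem_coe, hTm]
        rw [Function.mem_support] at hR
        by_contra hcon
        exact hR (if_neg hcon)
    have h4 : g ∈ R₀.ge 1 := by
      rw [hg, ← h3]
      exact evl_mem R₀ h1
    have h5 : g ∈ C⟮z⟯ := by
      rw [hg]
      refine sub_mem ?_ (IntermediateField.algebraMap_mem _ _)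
      exact hE.le (Algebra.trace E Φ (v i * v j)).2
    refine ⟨g / z, ?_, ?_⟩
    · by_cases hg0 : g = 0
      · rw [hg0, zero_div]; exact zero_mem _
      refine R₀.mem_ge_of_le ?_
      rw [R₀.ord_div hg0 hz0]
      obtain ⟨k, hk⟩ := DSL_dvd R₀ h₀ h5
      have h6 := R₀.le_ord_of_mem h4 hg0
      rw [hk] at h6 ⊢
      have h7 : 1 ≤ k := by
        by_contra hcon
        nlinarith
      nlinarith
    · rw [mul_div_cancel₀ g hz0, hg]
      ring
  choose m hm hm2 using key
  have h1 := DSL_det R₀ h₀ T (Matrix.of fun i j => algebraMap C Φ (c i j)) (Matrix.of m)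
    (fun i j => R₀.algebraMap_mem_ge _) (fun i j => hm i j)
    (fun R j => algebraMap C Φ (ev R (v j))) (fun i => by
      have h2 : (Matrix.of fun i j => algebraMap C Φ (c i j)) i =
          ∑ R : T, algebraMap C Φ (((R.1.ord z : ℤ) : C) * ev R.1 (v i)) •
            (fun j => algebraMap C Φ (ev R.1 (v j))) := by
        funext j
        rw [Matrix.of_apply, Finset.sum_apply, hc]
        simp only [Pi.smul_apply, smul_eq_mul, ← map_mul]
        rw [← map_sum, ← Finset.sum_coe_sort T]
        congr 1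
        refine Finset.sum_congr rfl fun R _ => by ring
      rw [h2]
      exact sum_mem fun R _ => Submodule.smul_mem _ _ (Submodule.subset_span ⟨R, rfl⟩))
  have h2 : (Matrix.of fun i j => ((Algebra.trace E Φ (v i * v j) : E) : Φ)) =
      (Matrix.of fun i j => algebraMap C Φ (c i j)) + z • Matrix.of m := by
    ext i j
    rw [Matrix.of_apply, Matrix.add_apply, Matrix.of_apply, Matrix.smul_apply, Matrix.of_apply, smul_eq_mul]
    exact hm2 i j
  rw [h2]
  exact h1

theorem dsl_ne (E : IntermediateField C Φ) (z : Φ) (hE : E = C⟮z⟯) (hz : Transcendental C z)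
    (v : Fin (Module.finrank E Φ) → Φ) (hv : LinearIndependent E v) :
    (Matrix.of fun i j => ((Algebra.trace E Φ (v i * v j) : E) : Φ)).det ≠ 0 := by
  have hfd : FiniteDimensional E Φ := by
    rw [hE]
    exact FunField.finiteDimensional_adjoin hz
  have hcz : CharZero E := charZero_of_injective_algebraMap (algebraMap C E).injective
  have hne : Nonempty (Fin (Module.finrank E Φ)) := ⟨⟨0, Module.finrank_pos⟩⟩
  have h1 := Algebra.discr_not_zero_of_basis E
    (basisOfLinearIndependentOfCardEqFinrank hv (Fintype.card_fin _))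
  rw [Algebra.discr_def, coe_basisOfLinearIndependentOfCardEqFinrank] at h1
  have h2 : (Matrix.of fun i j => ((Algebra.trace E Φ (v i * v j) : E) : Φ)) =
      (algebraMap E Φ).mapMatrix (Algebra.traceMatrix E v) := by
    ext i j
    rfl
  rw [h2, ← RingHom.map_det, Ne, map_eq_zero]
  exact h1

end Pool.Agent.ESH
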