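import Pool.Agent.ESH.TRV
import Pool.Agent.ESH.GTA

/-!
# ESH / DUR: the complementary module

Suppose `R.ord h ≤ - e`, `e = R.ord z`.  Weak approximation: `a` with `R.ord a = -e - R.ord h ≥ 0` and of order `≥ 1 - e_{R'} - R'.ord h` and `≥ 0` at the other places `R'` over `z = 0`.  Then `z h a` has order `0` at `R`, value `y ≠ 0`, and order
`≥ 1` at the others; by TRV `Tr(z h a) = z Tr(h a)` has the value `e y ≠ 0` at `z = 0`, so `Tr (h a)` has a pole there, contradicting the hypothesis.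
-/

namespace Pool.Agent.ESH

open Pool.Agent.Helper11 Polynomial IntermediateField

variable {C Φ : Type*} [Field C] [Field Φ] [Algebra C Φ] [FunField C Φ] [CharZero C] [IsAlgClosed C]


theorem dur (E : IntermediateField C Φ) (z : Φ) (hE : E = C⟮z⟯) (hz : Transcendental C z) (h : Φ)
    (hh : ∀ f : Φ, (∀ R : Place C Φ, 1 ≤ R.ord z → f ∈ R.ge 0) → ∀ R₀ : Place C Φ, 1 ≤ R₀.ord z →
      ((Algebra.trace E Φ (h * f) : E) : Φ) ∈ R₀.ge 0) (R : Place C Φ) (hR : 1 ≤ R.ord z) :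
    h ∈ R.ge (1 - R.ord z) := by
  classical
  by_contra hcon
  have hz0 : z ≠ 0 := R.ne_zero_of_ord_ne_zero (by omega)
  have h0 : h ≠ 0 := by
    rintro rfl
    exact hcon (zero_mem _)
  have h1 : R.ord h ≤ -R.ord z := by
    by_contra hc
    exact hcon (R.mem_ge_of_le (by omega))
  -- the other places over `z = 0`
  obtain ⟨S, hS⟩ : ∃ S : Finset (Place C Φ), ∀ Q, Q ∈ S ↔ Q ≠ R ∧ 1 ≤ Q.ord z := by
    refine ⟨(finite_pos_ord (k := C) z).toFinset.erase R, fun Q => ?_⟩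
    rw [Finset.mem_erase, Set.Finite.mem_toFinset]
    exact Iff.rfl
  have hRS : R ∉ S := fun hc => ((hS R).1 hc).1 rfl
  obtain ⟨f₁, a1, a2⟩ := gta_one R S hRS
  obtain ⟨f₂, b1, b2⟩ := gta S {R} (Finset.disjoint_singleton_right.2 hRS)
  have b3 := b2 R (Finset.mem_singleton_self R)
  have hf1 : f₁ ≠ 0 := R.ne_zero_of_ord_ne_zero (by omega)
  have hf2 : f₂ ≠ 0 := by
    rintro rfl
    rw [zero_sub] at b3
    have b4 := R.le_ord_of_mem b3 (by simp)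
    rw [R.ord_neg, R.ord_one] at b4
    omega
  have hf2R : R.ord f₂ = 0 := by
    have h2 : f₂ ∈ R.ge 0 := by
      have := add_mem (R.ge_anti (by norm_num : (0 : ℤ) ≤ 1) b3) R.one_mem_ge
      rwa [sub_add_cancel] at this
    have h3 : ev R f₂ = 1 := evl_eq R (by rwa [map_one])
    have h4 : f₂ ∉ R.ge 1 := by
      intro hc
      rw [← evl_zero_iff R h2, h3] at hc
      exact one_ne_zero hc
    have h5 := R.le_ord_of_mem h2 hf2
    have h6 : ¬ 1 ≤ R.ord f₂ := fun hc => h4 (R.mem_ge_of_le hc)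
    omega
  obtain ⟨N, hN⟩ : ∃ N : ℕ, ∀ Q ∈ S, 1 - Q.ord z - Q.ord h ≤ N := by
    refine ⟨∑ Q ∈ S, (1 - Q.ord z - Q.ord h).natAbs, fun Q hQ => ?_⟩
    have e1 : (1 - Q.ord z - Q.ord h).natAbs ≤ ∑ Q ∈ S, (1 - Q.ord z - Q.ord h).natAbs :=
      Finset.single_le_sum (f := fun Q => (1 - Q.ord z - Q.ord h).natAbs) (fun _ _ => Nat.zero_le _) hQ
    have e2 : ((1 - Q.ord z - Q.ord h).natAbs : ℤ) ≤ (∑ Q ∈ S, (1 - Q.ord z - Q.ord h).natAbs : ℕ) := by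
      exact_mod_cast e1
    omega
  obtain ⟨m, hm⟩ : ∃ m : ℕ, (m : ℤ) = -R.ord z - R.ord h := ⟨(-R.ord z - R.ord h).toNat, by omega⟩
  have ha0 : f₁ ^ m * f₂ ^ N ≠ 0 := mul_ne_zero (pow_ne_zero _ hf1) (pow_ne_zero _ hf2)
  have haR : R.ord (f₁ ^ m * f₂ ^ N) = m := by
    rw [R.ord_mul _ _ (pow_ne_zero _ hf1) (pow_ne_zero _ hf2), R.ord_pow, R.ord_pow, a1, hf2R]
    ring
  have haS : ∀ Q ∈ S, (N : ℤ) ≤ Q.ord (f₁ ^ m * f₂ ^ N) := by
    intro Q hQ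
    rw [Q.ord_mul _ _ (pow_ne_zero _ hf1) (pow_ne_zero _ hf2), Q.ord_pow, Q.ord_pow, a2 Q hQ]
    have e1 := Q.le_ord_of_mem (b1 Q hQ) hf2
    have e2 : (N : ℤ) * 1 ≤ N * Q.ord f₂ := mul_le_mul_of_nonneg_left e1 (by omega)
    omega
  obtain ⟨a, ha⟩ : ∃ a, a = f₁ ^ m * f₂ ^ N := ⟨_, rfl⟩
  rw [← ha] at ha0 haR haS
  have hw0 : z * (h * a) ≠ 0 := mul_ne_zero hz0 (mul_ne_zero h0 ha0)
  have hw : ∀ Q : Place C Φ, Q.ord (z * (h * a)) = Q.ord z + Q.ord h + Q.ord a := by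
    intro Q
    rw [Q.ord_mul _ _ hz0 (mul_ne_zero h0 ha0), Q.ord_mul _ _ h0 ha0]
    ring
  have hwR : R.ord (z * (h * a)) = 0 := by
    rw [hw, haR]
    omega
  have hwS : ∀ Q ∈ S, z * (h * a) ∈ Q.ge 1 := by
    intro Q hQ
    apply Q.mem_ge_of_le
    rw [hw]
    have := haS Q hQ
    have := hN Q hQ
    omega
  have hw1 : ∀ Q : Place C Φ, 1 ≤ Q.ord z → z * (h * a) ∈ Q.ge 0 := by
    intro Q hQ
    by_cases hQR : Q = R
    · rw [hQR]
      exact R.mem_ge_of_le hwR.symm.le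
    · exact Q.ge_anti (by norm_num : (0 : ℤ) ≤ 1) (hwS Q ((hS Q).2 ⟨hQR, hQ⟩))
  have haa : ∀ Q : Place C Φ, 1 ≤ Q.ord z → a ∈ Q.ge 0 := by
    intro Q hQ
    apply Q.mem_ge_of_le
    by_cases hQR : Q = R
    · rw [hQR, haR]
      omega
    · have := haS Q ((hS Q).2 ⟨hQR, hQ⟩)
      omega
  obtain ⟨c1, c2⟩ := trv E z hE hz (z * (h * a)) hw1 R hR
  have hev : ev R (z * (h * a)) ≠ 0 := by
    intro hc
    rw [evl_zero_iff R (hw1 R hR)] at hc
    have := R.le_ord_of_mem hc hw0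
    omega
  have c3 : ∑ᶠ Q : Place C Φ, (if 1 ≤ Q.ord z then ((Q.ord z : ℤ) : C) * ev Q (z * (h * a)) else 0) =
      ((R.ord z : ℤ) : C) * ev R (z * (h * a)) := by
    rw [finsum_eq_single _ R, if_pos hR]
    intro Q hQ
    split_ifs with hQ1
    · rw [(evl_zero_iff Q (hw1 Q hQ1)).2 (hwS Q ((hS Q).2 ⟨hQ, hQ1⟩)), mul_zero]
    · rfl
  rw [c3] at c2
  have c4 : ((Algebra.trace E Φ (z * (h * a)) : E) : Φ) = z * ((Algebra.trace E Φ (h * a) : E) : Φ) := by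
    have hzE : z ∈ E := by
      rw [hE]
      exact mem_adjoin_simple_self C z
    have h4 : z * (h * a) = (⟨z, hzE⟩ : E) • (h * a) := rfl
    rw [h4, map_smul]
    rfl
  have c5 := R.mul_mem_ge (R.mem_ge_of_le hR) (hh a haa R hR)
  rw [add_zero, ← c4, ← evl_zero_iff R c1, c2] at c5
  rcases mul_eq_zero.1 c5 with c6 | c6
  · have c7 : (R.ord z : ℤ) = 0 := by exact_mod_cast c6
    omega
  · exact hev c6

end Pool.Agent.ESH
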