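import Mathlib

/-!
# ESH: common definitions
-/

namespace Pool.Agent.ESH

open NumberField IsDedekindDomain

/-- the iterated exponential: `tw 0 s = s`, `tw (c+1) s = 2 ^ tw c s` -/
def tw : ℕ → ℕ → ℕ
  | 0, s => s
  | c + 1, s => 2 ^ tw c s

/-- normalised absolute value at an infinite place -/
noncomputable def nInf {M : Type*} [Field M] (w : InfinitePlace M) (x : M) : ℝ := (w x) ^ w.mult

/-- S-unit: absolute value one at all finite places outside `S` -/
def IsSUnit {M : Type*} [Field M] [NumberField M] (S : Finset (FinitePlace M)) (x : M) : Prop :=
  ∀ v : FinitePlace M, v ∉ S → v x = 1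

/-- norm of the prime ideal of a finite place -/
noncomputable def nrm {M : Type*} [Field M] [NumberField M] (v : FinitePlace M) : ℕ :=
  Ideal.absNorm v.maximalIdeal.asIdeal

/-- product of the norms of the places in `S` -/
noncomputable def nrmS {M : Type*} [Field M] [NumberField M] (S : Finset (FinitePlace M)) : ℕ :=
  ∏ v ∈ S, nrm v

/-- size of the data (number field, finite set of places) -/
noncomputable def siz (M : Type*) [Field M] [NumberField M] (S : Finset (FinitePlace M)) : ℕ :=
  Module.finrank ℚ M + (discr M).natAbs + nrmS S + 16

/-- normalised absolute values at the places of `S ∪ {infinite places}` -/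
noncomputable def nn {M : Type*} [Field M] [NumberField M] (S : Finset (FinitePlace M)) :
    (InfinitePlace M ⊕ S) → M → ℝ :=
  Sum.elim (fun w x => nInf w x) (fun v x => (v : FinitePlace M) x)

/-- base of the geometric progressions: `2 ^ mult` at infinite places, the norm at finite places -/
noncomputable def bd {M : Type*} [Field M] [NumberField M] (S : Finset (FinitePlace M)) :
    (InfinitePlace M ⊕ S) → ℝ :=
  Sum.elim (fun w => 2 ^ w.mult) (fun v => (nrm (v : FinitePlace M) : ℝ))

end Pool.Agent.ESH
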