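import Mathlib
import Pool.Agent.ESH.Defs

/-!
# ESH: definitions for parts III and I (valuation rings of an algebraic closure)
-/

namespace Pool.Agent.ESH

open NumberField IsDedekindDomain

/-- the valuation ring `V` of `C` lies over the finite place `v` of `K` -/
def VOver {K C : Type*} [Field K] [NumberField K] [Field C] [Algebra K C] (V : ValuationSubring C)
    (v : HeightOneSpectrum (𝓞 K)) : Prop :=
  ∀ x : K, algebraMap K C x ∈ V ↔ v.valuation K x ≤ 1

/-- `σ` belongs to the inertia group of `V` -/
def Inert {K C : Type*} [Field K] [Field C] [Algebra K C] (V : ValuationSubring C)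
    (σ : C ≃ₐ[K] C) : Prop :=
  ∀ z ∈ V, σ z - z ∈ V.nonunits

/-- `V` is a non-trivial valuation ring of `C`, not above `T`, of residue characteristic `> m` -/
structure GoodV {K C : Type*} [Field K] [NumberField K] [Field C] [Algebra K C]
    (T : Finset (HeightOneSpectrum (𝓞 K))) (m : ℕ) (V : ValuationSubring C) : Prop where
  ne_top : V ≠ ⊤
  not_over : ∀ v ∈ T, ¬ VOver V v
  res_char : ∀ p : ℕ, p.Prime → p ≤ m → V.valuation (p : C) = 1

/-- size of the data `(K, T)` -/
noncomputable def szK (K : Type*) [Field K] [NumberField K] (T : Finset (HeightOneSpectrum (𝓞 K))) : ℕ :=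
  Module.finrank ℚ K + (discr K).natAbs + ∏ v ∈ T, Ideal.absNorm v.asIdeal + 16

end Pool.Agent.ESH
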