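import Mathlib
import Pool.Agent.Helper11.Place

/-!
# ESH: definitions for the geometric part

`C` is an algebraically closed field of characteristic zero, `Φ/C` a function field of one variable
(`Pool.Agent.Helper11.FunField`), `Place C Φ` the set of points of the smooth projective model.
`V` is a valuation ring of `C`.  A smooth proper model of `Φ` over `V` is described by the valuation ring `W` of
the generic point of the special fibre, and by the set `pts` of the local rings at the closed points of the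
special fibre (subrings of `Φ`).
-/

namespace Pool.Agent.ESH

open Pool.Agent.Helper11
open scoped KaehlerDifferential

variable {C Φ : Type*} [Field C] [Field Φ] [Algebra C Φ]

/-- `a` is a non-unit of the subring `A` -/
def NU (A : Subring Φ) (a : Φ) : Prop := a ∈ A ∧ (a = 0 ∨ a⁻¹ ∉ A)

/-- the local ring of the place `R` contains `A` (the point `R` of the generic fibre specialises to the
closed point with local ring `A`) -/
def Below (A : Subring Φ) (R : Place C Φ) : Prop := ∀ a ∈ A, a ∈ R.ge 0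

/-- the valuation ring `V'` dominates the local ring `A` -/
def Dom (A : Subring Φ) (V' : ValuationSubring Φ) : Prop :=
  (∀ a ∈ A, a ∈ V') ∧ ∀ a, NU A a → a ∈ V'.nonunits

/-- the value of `f` at the place `R` (`0` if there is none) -/
noncomputable def ev (R : Place C Φ) (f : Φ) : C :=
  open Classical in
  if h : ∃ c : C, f - algebraMap C Φ c ∈ R.ge 1 then h.choose else 0

/-- `t` is a parameter at the closed point with local ring `A` -/
structure IsPar (V : ValuationSubring C) (W : ValuationSubring Φ) (A : Subring Φ) (t : Φ) : Prop where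
  mem : NU A t
  gen : ∀ a, NU A a → ∃ c ∈ V.nonunits, ∃ x ∈ A, ∃ y ∈ A, a = algebraMap C Φ c * x + t * y
  dvr : ∀ a ∈ A, a ∉ W.nonunits → ∃ n : ℕ, ∃ u ∈ A, u ≠ 0 ∧ u⁻¹ ∈ A ∧ a - t ^ n * u ∈ W.nonunits
  der : ∃ D : Derivation C Φ Φ, D t = 1 ∧ ∀ a ∈ A, D a ∈ A
  zero : ∀ R : Place C Φ, Below A R → ∀ c : C, t - algebraMap C Φ c ∈ R.ge 1 →
    ∀ a ∈ A, a ∈ R.ge 1 → ∃ b ∈ A, a = (t - algebraMap C Φ c) * b

/-- `A` is the local ring of a smooth model at a closed point of the special fibre -/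
structure IsPt (V : ValuationSubring C) (W : ValuationSubring Φ) (A : Subring Φ) : Prop where
  base : ∀ c ∈ V, algebraMap C Φ c ∈ A
  le : ∀ a ∈ A, a ∈ W
  add : ∀ a b, NU A a → NU A b → NU A (a + b)
  res : ∀ a ∈ A, ∃ c ∈ V, NU A (a - algebraMap C Φ c)
  nub : ∀ c ∈ V.nonunits, NU A (algebraMap C Φ c)
  frac : ∀ f ∈ W, ∃ a ∈ A, ∃ s ∈ A, s ∉ W.nonunits ∧ f * s = a
  sat : ∀ c ∈ V, c ≠ 0 → ∀ a ∈ A, a / algebraMap C Φ c ∈ W → a / algebraMap C Φ c ∈ A
  par : ∃ t : Φ, IsPar V W A t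

/-- `(W, pts)` is a smooth proper model of `Φ` over `V` -/
structure IsMdl (V : ValuationSubring C) (W : ValuationSubring Φ) (pts : Set (Subring Φ)) : Prop where
  base : ∀ c : C, algebraMap C Φ c ∈ W ↔ c ∈ V
  scale : ∀ f : Φ, f ≠ 0 → ∃ c : C, c ≠ 0 ∧ f / algebraMap C Φ c ∈ W ∧ algebraMap C Φ c / f ∈ W
  trans : ∀ f : Φ, (∀ c : C, f ≠ algebraMap C Φ c) → ∃ a c : C, c ≠ 0 ∧
    (f - algebraMap C Φ a) / algebraMap C Φ c ∈ W ∧
    ∀ b ∈ V, (f - algebraMap C Φ a) / algebraMap C Φ c - algebraMap C Φ b ∉ W.nonunits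
  pt : ∀ A ∈ pts, IsPt V W A
  centre : ∀ V' : ValuationSubring Φ, (∀ c : C, algebraMap C Φ c ∈ V' ↔ c ∈ V) → V' ≠ W →
    ∃ A ∈ pts, Dom A V'
  sep : ∀ V' : ValuationSubring Φ, ∀ A ∈ pts, ∀ B ∈ pts, Dom A V' → Dom B V' → A = B

/-- `V` is a non-trivial valuation ring of rank one -/
def Rk1 (V : ValuationSubring C) : Prop :=
  V ≠ ⊤ ∧ ∀ x c : C, c ∈ V.nonunits → c ≠ 0 → ∃ n : ℕ, c ^ n * x ∈ V

/-- `Φ` has a non-zero regular differential, i.e. positive genus -/
def PosGenus (C Φ : Type*) [Field C] [Field Φ] [Algebra C Φ] : Prop :=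
  ∃ ω : Ω[Φ⁄C], ω ≠ 0 ∧ ∀ R : Place C Φ, 0 ≤ R.ordDiff ω

/-- image of a place under a ring automorphism `σ` of `Φ` inducing an automorphism `s` of `C` -/
noncomputable def plMap (σ : Φ ≃+* Φ) (s : C ≃+* C)
    (hs : ∀ c : C, σ (algebraMap C Φ c) = algebraMap C Φ (s c)) (P : Place C Φ) : Place C Φ where
  ord f := P.ord (σ.symm f)
  ord_zero := by rw [map_zero]; exact P.ord_zero
  ord_mul x y hx hy := by
    rw [map_mul]
    exact P.ord_mul _ _ (by simpa using hx) (by simpa using hy)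
  ord_add x y hx hy hxy := by
    rw [map_add]
    exact P.ord_add _ _ (by simpa using hx) (by simpa using hy)
      (fun h => hxy (by
        have h' := congrArg σ h
        rwa [map_add, RingEquiv.apply_symm_apply, RingEquiv.apply_symm_apply, map_zero] at h'))
  ord_algebraMap c := by
    have h : σ.symm (algebraMap C Φ c) = algebraMap C Φ (s.symm c) := by
      rw [RingEquiv.symm_apply_eq, hs, RingEquiv.apply_symm_apply]
    rw [h]
    exact P.ord_algebraMap _
  exists_ord_eq_one := by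
    obtain ⟨x, hx⟩ := P.exists_ord_eq_one
    exact ⟨σ x, by rw [RingEquiv.symm_apply_apply]; exact hx⟩

/-- the automorphism `γ` fixes the place `P` -/
def Fixes (γ : Φ ≃ₐ[C] Φ) (P : Place C Φ) : Prop := ∀ f : Φ, P.ord (γ f) = P.ord f

/-- `γ` preserves the valuation ring `W` -/
def Pres (γ : Φ ≃+* Φ) (W : ValuationSubring Φ) : Prop := ∀ f : Φ, γ f ∈ W ↔ f ∈ W

/-- `γ` maps the subring `A` onto itself -/
def PresA (γ : Φ ≃+* Φ) (A : Subring Φ) : Prop := ∀ f : Φ, γ f ∈ A ↔ f ∈ A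

/-- the fixed field of `G` is `C(x)` -/
def FixGen (G : Subgroup (Φ ≃ₐ[C] Φ)) (x : Φ) : Prop :=
  (∀ g ∈ G, g x = x) ∧ ∀ f : Φ, (∀ g ∈ G, g f = f) → f ∈ IntermediateField.adjoin C {x}

/-- `c` is a finite branch point of `x : Φ → ℙ¹` -/
def BrF (x : Φ) (c : C) : Prop := ∃ P : Place C Φ, 2 ≤ P.ord (x - algebraMap C Φ c)

/-- `∞` is a branch point of `x` -/
def BrI (C : Type*) {Φ : Type*} [Field C] [Field Φ] [Algebra C Φ] (x : Φ) : Prop :=
  ∃ P : Place C Φ, P.ord x ≤ -2

/-- `β` is a Belyi function of `Φ/C`: the corresponding covering of the projective line is unramified outside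
`0, 1, ∞` -/
def IsBelyi (C : Type*) {Φ : Type*} [Field C] [Field Φ] [Algebra C Φ] (β : Φ) : Prop :=
  Transcendental C β ∧ ∀ P : Place C Φ, ∀ c : C, c ≠ 0 → c ≠ 1 → P.ord (β - algebraMap C Φ c) ≤ 1

end Pool.Agent.ESH
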