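import Mathlib
import Pool.Agent.ESH.DefsG

/-!
# ESH: base models (before extension of the constants)

`O` is a discrete valuation ring with fraction field `K` and finite residue field, `F/K` a function field.
`(W₀, pts₀)` describes a smooth proper model of `F` over `O` with geometrically integral special fibre.
-/

namespace Pool.Agent.ESH

open Pool.Agent.Helper11 Polynomial

/-- `A` is the local ring, at a closed point of the special fibre, of a smooth curve over `O` -/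
structure IsBPt (O K : Type*) {F : Type*} [CommRing O] [IsDomain O] [IsDiscreteValuationRing O] [Field K]
    [Field F] [Algebra O K] [Algebra K F] [Algebra O F] (W₀ : ValuationSubring F) (A : Subring F) :
    Prop where
  base : ∀ c : O, algebraMap O F c ∈ A
  le : ∀ a ∈ A, a ∈ W₀
  add : ∀ a b, NU A a → NU A b → NU A (a + b)
  nub : ∀ c ∈ IsLocalRing.maximalIdeal O, NU A (algebraMap O F c)
  fin : ∃ S : Finset F, (∀ x ∈ S, x ∈ A) ∧ ∀ a ∈ A, ∃ b ∈ Algebra.adjoin O (S : Set F),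
    ∃ s ∈ Algebra.adjoin O (S : Set F), s ≠ 0 ∧ s⁻¹ ∈ A ∧ a * s = b
  prim : ∃ θ ∈ A, ∃ p : O[X], p.Monic ∧ NU A (aeval θ p) ∧ ¬ NU A (aeval θ (derivative p)) ∧
    ∀ a ∈ A, ∃ q : O[X], NU A (a - aeval θ q)
  frac : ∀ f ∈ W₀, ∃ a ∈ A, ∃ s ∈ A, s ∉ W₀.nonunits ∧ f * s = a
  sat : ∀ c : O, c ≠ 0 → ∀ a ∈ A, a / algebraMap O F c ∈ W₀ → a / algebraMap O F c ∈ A
  par : ∃ t : F, NU A t ∧
    (∀ a, NU A a → ∃ c ∈ IsLocalRing.maximalIdeal O, ∃ x ∈ A, ∃ y ∈ A,
      a = algebraMap O F c * x + t * y) ∧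
    ∃ D : Derivation K F F, D t = 1 ∧ ∀ a ∈ A, D a ∈ A

/-- `(W₀, pts₀)` is a smooth proper model of `F` over `O` with geometrically integral special fibre -/
structure IsBMdl (O K : Type*) {F : Type*} [CommRing O] [IsDomain O] [IsDiscreteValuationRing O] [Field K]
    [Field F] [Algebra O K] [Algebra K F] [Algebra O F] (W₀ : ValuationSubring F)
    (pts₀ : Set (Subring F)) : Prop where
  base : ∀ x : K, algebraMap K F x ∈ W₀ ↔ x ∈ Set.range (algebraMap O K)
  scale : ∀ f : F, f ≠ 0 → ∃ c : K, c ≠ 0 ∧ f / algebraMap K F c ∈ W₀ ∧ algebraMap K F c / f ∈ W₀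
  geom : ∀ f ∈ W₀, (∃ p : O[X], p.Monic ∧ aeval f p ∈ W₀.nonunits) →
    ∃ c : O, f - algebraMap O F c ∈ W₀.nonunits
  der : ∃ D : Derivation K F F, D ≠ 0 ∧ ∀ f ∈ W₀, D f ∈ W₀
  pt : ∀ A ∈ pts₀, IsBPt O K W₀ A
  centre : ∀ V₀ : ValuationSubring F, (∀ x : K, algebraMap K F x ∈ V₀ ↔ x ∈ Set.range (algebraMap O K)) →
    V₀ ≠ W₀ → ∃ A ∈ pts₀, Dom A V₀
  sep : ∀ V₀ : ValuationSubring F, ∀ A ∈ pts₀, ∀ B ∈ pts₀, Dom A V₀ → Dom B V₀ → A = B

/-- `Φ` is the compositum of `F` and `C`, linearly disjoint over `K`: the fraction field of the domain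
`C ⊗ F`, i.e. the function field of the curve obtained by extension of the constants from `K` to `C` -/
structure Cmps (K F C Φ : Type*) [Field K] [Field F] [Field C] [Field Φ] [Algebra K F] [Algebra K C]
    [Algebra F Φ] [Algebra C Φ] : Prop where
  comm : ∀ x : K, algebraMap F Φ (algebraMap K F x) = algebraMap C Φ (algebraMap K C x)
  disj : ∀ (n : ℕ) (e : Fin n → F), LinearIndependent K e →
    LinearIndependent C (fun i => algebraMap F Φ (e i))
  gen : ∀ f : Φ, ∃ a ∈ Submodule.span C (Set.range (algebraMap F Φ)),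
    ∃ b ∈ Submodule.span C (Set.range (algebraMap F Φ)), b ≠ 0 ∧ f * b = a

/-- a finite family of elements of `W₀`, linearly independent modulo the maximal ideals -/
def ResInd (O : Type*) {F : Type*} [CommRing O] [Field F] [Algebra O F] [IsLocalRing O]
    (W₀ : ValuationSubring F) {n : ℕ} (e : Fin n → F) : Prop :=
  (∀ i, e i ∈ W₀) ∧ ∀ c : Fin n → O, ∑ i, algebraMap O F (c i) * e i ∈ W₀.nonunits →
    ∀ i, c i ∈ IsLocalRing.maximalIdeal O

/-- the subring generated by `A ⊆ F` and `V ⊆ C` -/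
def AV {F C Φ : Type*} [Field F] [Field C] [Field Φ] [Algebra F Φ] [Algebra C Φ] (A : Subring F)
    (V : ValuationSubring C) : Subring Φ :=
  Subring.closure ((algebraMap F Φ) '' (A : Set F) ∪ (algebraMap C Φ) '' (V : Set C))

/-- localisation of the subring `S` at the elements which are units of the valuation ring `V'` -/
def locA {Φ : Type*} [Field Φ] (S : Subring Φ) (V' : ValuationSubring Φ) : Subring Φ where
  carrier := {f | ∃ b ∈ S, ∃ s ∈ S, s ≠ 0 ∧ s ∈ V' ∧ s⁻¹ ∈ V' ∧ f * s = b}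
  mul_mem' := by
    rintro f g ⟨b, hb, s, hs, h0, h1, h2, h3⟩ ⟨b', hb', s', hs', h0', h1', h2', h3'⟩
    refine ⟨b * b', S.mul_mem hb hb', s * s', S.mul_mem hs hs', mul_ne_zero h0 h0',
      V'.mul_mem _ _ h1 h1', ?_, ?_⟩
    · rw [mul_inv]; exact V'.mul_mem _ _ h2 h2'
    · rw [← h3, ← h3']; ring
  one_mem' := ⟨1, S.one_mem, 1, S.one_mem, one_ne_zero, V'.one_mem, by rw [inv_one]; exact V'.one_mem,
    by ring⟩
  add_mem' := by
    rintro f g ⟨b, hb, s, hs, h0, h1, h2, h3⟩ ⟨b', hb', s', hs', h0', h1', h2', h3'⟩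
    refine ⟨b * s' + b' * s, S.add_mem (S.mul_mem hb hs') (S.mul_mem hb' hs), s * s',
      S.mul_mem hs hs', mul_ne_zero h0 h0', V'.mul_mem _ _ h1 h1', ?_, ?_⟩
    · rw [mul_inv]; exact V'.mul_mem _ _ h2 h2'
    · rw [← h3, ← h3']; ring
  zero_mem' := ⟨0, S.zero_mem, 1, S.one_mem, one_ne_zero, V'.one_mem,
    by rw [inv_one]; exact V'.one_mem, by ring⟩
  neg_mem' := by
    rintro f ⟨b, hb, s, hs, h0, h1, h2, h3⟩
    exact ⟨-b, S.neg_mem hb, s, hs, h0, h1, h2, by rw [← h3]; ring⟩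

/-- the points of the model after extension of the constants -/
def ptsC {F C Φ : Type*} [Field F] [Field C] [Field Φ] [Algebra F Φ] [Algebra C Φ]
    (pts₀ : Set (Subring F)) (V : ValuationSubring C) : Set (Subring Φ) :=
  {A | ∃ A₀ ∈ pts₀, ∃ V' : ValuationSubring Φ, (∀ c : C, algebraMap C Φ c ∈ V' ↔ c ∈ V) ∧
    Dom A₀ (V'.comap (algebraMap F Φ)) ∧ A = locA (AV A₀ V) V'}

/-- the situation after extension of the constants: `V` lies over `O`, `W` lies over `W₀` and `V` -/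
structure BExt (O K : Type*) {F C Φ : Type*} [CommRing O] [IsDomain O] [IsDiscreteValuationRing O] [Field K]
    [Field F] [Field C] [Field Φ] [Algebra O K] [Algebra K F] [Algebra O F] [Algebra K C] [Algebra F Φ]
    [Algebra C Φ] (W₀ : ValuationSubring F) (pts₀ : Set (Subring F)) (V : ValuationSubring C)
    (W : ValuationSubring Φ) : Prop where
  mdl : IsBMdl O K W₀ pts₀
  cmp : Cmps K F C Φ
  ovr : ∀ x : K, algebraMap K C x ∈ V ↔ x ∈ Set.range (algebraMap O K)
  WF : ∀ f : F, algebraMap F Φ f ∈ W ↔ f ∈ W₀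
  WC : ∀ c : C, algebraMap C Φ c ∈ W ↔ c ∈ V

end Pool.Agent.ESH
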