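import Mathlib
import Pool.Agent.ESH.DefsG

/-!
# ESH: definitions for the genus one quotients
-/

namespace Pool.Agent.ESH

open Pool.Agent.Helper11

variable {C Φ : Type*} [Field C] [Field Φ] [Algebra C Φ]

/-- Legendre coordinates: `y² = x (x - 1) (x - l)` -/
structure Leg (x y : Φ) (l : C) : Prop where
  tr : Transcendental C x
  eq : y ^ 2 = x * (x - 1) * (x - algebraMap C Φ l)
  l0 : l ≠ 0
  l1 : l ≠ 1

/-- `x, y` are Legendre coordinates on the quotient of the curve by `G`, which has genus one -/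
structure FixLeg (G : Subgroup (Φ ≃ₐ[C] Φ)) (x y : Φ) (l : C) : Prop where
  leg : Leg x y l
  fx : ∀ g ∈ G, g x = x
  fy : ∀ g ∈ G, g y = y
  gen : ∀ f : Φ, (∀ g ∈ G, g f = f) → f ∈ IntermediateField.adjoin C {x, y}

/-- the place `P` has a non-trivial stabiliser in `G`, i.e. the quotient map is ramified at `P` -/
def Ram (G : Subgroup (Φ ≃ₐ[C] Φ)) (P : Place C Φ) : Prop := ∃ g ∈ G, g ≠ 1 ∧ Fixes g P

/-- total order of `f` on the residue disc of the closed point `A` -/
noncomputable def nA (C : Type*) {Φ : Type*} [Field C] [Field Φ] [Algebra C Φ] (A : Subring Φ) (f : Φ) : ℤ :=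
  ∑ᶠ R : {R : Place C Φ // Below A R}, R.1.ord f

/-- order at infinity of `p₁(x) + p₂(x) y` in units of half the order of `x` -/
noncomputable def lM {C : Type*} [Field C] (p₁ p₂ : Polynomial C) : ℤ :=
  open Classical in
  if p₂ = 0 then 2 * p₁.natDegree else if p₁ = 0 then 2 * p₂.natDegree + 3
    else max (2 * (p₁.natDegree : ℤ)) (2 * p₂.natDegree + 3)

end Pool.Agent.ESH
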