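import Mathlib
import Pool.Agent.ESH.DefsB

/-!
# ESH: smooth curves over a discrete valuation ring, charts
-/

namespace Pool.Agent.ESH

open CategoryTheory AlgebraicGeometry Polynomial
open scoped TensorProduct

universe u

/-- the local ring of `B` at the prime ideal `q`, as a subring of the fraction field `F` -/
def locP (F : Type*) {B : Type*} [CommRing B] [Field F] [Algebra B F] (q : Ideal B) [hq : q.IsPrime] :
    Subring F where
  carrier := {f | ∃ b s : B, s ∉ q ∧ f * algebraMap B F s = algebraMap B F b}
  mul_mem' := by
    rintro f g ⟨b, s, hs, h⟩ ⟨b', s', hs', h'⟩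
    refine ⟨b * b', s * s', fun h0 => (hq.mem_or_mem h0).elim hs hs', ?_⟩
    rw [map_mul, map_mul, ← h, ← h']; ring
  one_mem' := ⟨1, 1, fun h => hq.ne_top ((Ideal.eq_top_iff_one q).2 h), by rw [one_mul]⟩
  add_mem' := by
    rintro f g ⟨b, s, hs, h⟩ ⟨b', s', hs', h'⟩
    refine ⟨b * s' + b' * s, s * s', fun h0 => (hq.mem_or_mem h0).elim hs hs', ?_⟩
    rw [map_add, map_mul, map_mul, map_mul, ← h, ← h']; ring
  zero_mem' := ⟨0, 1, fun h => hq.ne_top ((Ideal.eq_top_iff_one q).2 h), by rw [map_zero, zero_mul]⟩
  neg_mem' := by
    rintro f ⟨b, s, hs, h⟩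
    exact ⟨-b, s, hs, by rw [map_neg, ← h]; ring⟩

/-- the ideal of the special fibre -/
abbrev sfI (O B : Type*) [CommRing O] [IsLocalRing O] [CommRing B] [Algebra O B] : Ideal B :=
  (IsLocalRing.maximalIdeal O).map (algebraMap O B)

/-- `B` is a smooth affine curve over the discrete valuation ring `O`, with geometrically integral special
fibre and function field `F`; `q` is a point of the special fibre -/
structure IsChart (O B F : Type u) [CommRing O] [IsLocalRing O] [CommRing B] [IsDomain B] [Field F]
    [Algebra O B] [Algebra B F] [Algebra O F] (q : Ideal B) : Prop where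
  tower : IsScalarTower O B F
  frac : IsFractionRing B F
  smooth : Algebra.IsStandardSmoothOfRelativeDimension 1 O B
  prime : q.IsPrime
  le : sfI O B ≤ q
  geo : ∀ (k : Type u) [Field k] [Algebra O k], (∀ c ∈ IsLocalRing.maximalIdeal O, algebraMap O k c = 0) →
    IsDomain (k ⊗[O] B)

/-- the constants in the function field of an integral scheme over `Spec R` -/
noncomputable def constMap {R : Type u} [CommRing R] {X : Scheme.{u}} [IsIntegral X]
    (f : X ⟶ Spec (.of R)) : R →+* X.functionField :=
  (X.presheaf.germ ⊤ (genericPoint X) trivial).hom.comp ((Scheme.Hom.appTop f).hom.comp (Scheme.ΓSpecIso (.of R)).inv.hom)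

/-- the local ring of the point `x` of the integral scheme `X`, as a subring of a field `F` isomorphic to the
function field of `X` -/
noncomputable def stk {X : Scheme.{u}} [IsIntegral X] {F : Type*} [Field F] (e : X.functionField ≃+* F)
    (x : X) : Subring F :=
  ((e : X.functionField →+* F).comp (algebraMap (X.presheaf.stalk x) X.functionField)).range

end Pool.Agent.ESH
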