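import Mathlib
import Pool.Agent.ESH.Defs2
import Pool.Agent.ESH.DefsS

/-!
# ESH: definitions for the final statements
-/

namespace Pool.Agent.ESH

open CategoryTheory AlgebraicGeometry NumberField IsDedekindDomain

universe u

/-- the curve `X` over the number field `K` has good reduction at the finite place `v`: it extends to a
smooth proper curve (with geometrically integral fibres) over the local ring of `K` at `v` -/
def GoodRed {K : Type u} [Field K] [NumberField K] {X : Scheme.{u}} (f : X ⟶ Spec (.of K))
    (v : HeightOneSpectrum (𝓞 K)) : Prop :=
  ∃ (Y : Scheme.{u}) (p : Y ⟶ Spec (.of (v.valuation K).valuationSubring)) (g : X ⟶ Y),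
    IsProper p ∧ SmoothOfRelativeDimension 1 p ∧ GeometricallyIntegral p ∧
      IsPullback g f p (Spec.map (CommRingCat.ofHom (algebraMap (v.valuation K).valuationSubring K)))

end Pool.Agent.ESH
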