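import Mathlib
import Pool.Agent.ESH.DefsE

/-!
# ESH: definitions for the genus form
-/

namespace Pool.Agent.ESH

open Pool.Agent.Helper11

/-- order of the stabiliser of the place `R` in `Γ` -/
noncomputable def sO {C Φ : Type*} [Field C] [Field Φ] [Algebra C Φ] (Γ : Subgroup (Φ ≃ₐ[C] Φ))
    (R : Place C Φ) : ℕ := Nat.card {g : Φ ≃ₐ[C] Φ // g ∈ Γ ∧ Fixes g R}

end Pool.Agent.ESH
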