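import Pool.Agent.ESH.DefsG

/-!
# ESH / EIG: eigenfunctions of automorphisms of finite order

Proof.  `γ^n = 1`; for `f ∈ Φ` and `ζ ∈ μ_n(C)` (`n` roots of unity, `C` algebraically closed of characteristic `0`) put
`f_ζ = (1/n) ∑_{j<n} ζ^(-j) γ^j f`; then `γ f_ζ = ζ f_ζ` and `∑_ζ f_ζ = f`.  If `f_ζ = 0` for all `ζ ≠ 1` and all `f` then
`f = f_1` is fixed by `γ` for all `f`, so `γ = 1`.  (Alternatively: the `C`-linear operator `γ` is annihilated by the
separable split polynomial `X^n - 1`, so `Φ` is the sum of the eigenspaces.)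
-/

namespace Pool.Agent.ESH

variable {C Φ : Type*} [Field C] [Field Φ] [Algebra C Φ] [CharZero C] [IsAlgClosed C]

omit [CharZero C] [IsAlgClosed C] in
open Polynomial in
private theorem eig_aux (T : Module.End C Φ) (s : Multiset C) :
    ∀ g : Φ, g ≠ 0 → aeval T (s.map (fun a => X - Polynomial.C a)).prod g = 0 →
      ∃ a ∈ s, ∃ g' : Φ, g' ≠ 0 ∧ T g' = a • g' := by
  induction s using Multiset.induction_on with
  | empty =>
    intro g hg h
    rw [Multiset.map_zero, Multiset.prod_zero, map_one] at h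
    exact absurd h hg
  | cons a s ih =>
    intro g hg h
    by_cases h1 : aeval T (s.map (fun a => X - Polynomial.C a)).prod g = 0
    · obtain ⟨b, hb, g', hg', h2⟩ := ih g hg h1
      exact ⟨b, Multiset.mem_cons_of_mem hb, g', hg', h2⟩
    · refine ⟨a, Multiset.mem_cons_self a s, _, h1, ?_⟩
      rw [Multiset.map_cons, Multiset.prod_cons, map_mul, Module.End.mul_apply, map_sub, aeval_X,
        aeval_C, LinearMap.sub_apply, Module.algebraMap_end_apply] at h
      exact sub_eq_zero.1 h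

open Polynomial in
theorem eig (γ : Φ ≃ₐ[C] Φ) (n : ℕ) (hn : 0 < n) (h : γ ^ n = 1) (hγ : γ ≠ 1) :
    ∃ ζ : C, ζ ^ n = 1 ∧ ζ ≠ 1 ∧ ∃ f : Φ, f ≠ 0 ∧ γ f = algebraMap C Φ ζ * f := by
  classical
  -- a function which is not fixed
  obtain ⟨f, hf⟩ : ∃ f : Φ, γ f ≠ f := by
    by_contra hcon
    push Not at hcon
    exact hγ (AlgEquiv.ext hcon)
  let T : Module.End C Φ := γ.toLinearMap
  have hT : ∀ y : Φ, T y = γ y := fun y => rfl
  have hTpow : ∀ (j : ℕ) (y : Φ), (T ^ j) y = (γ ^ j) y := by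
    intro j
    induction j with
    | zero => intro y; simp
    | succ j ih =>
      intro y
      rw [pow_succ, pow_succ, Module.End.mul_apply, AlgEquiv.mul_apply, ih, hT]
  let G : Polynomial C := ∑ i ∈ Finset.range n, X ^ i
  have hG1 : G * (X - 1) = X ^ n - 1 := by
    show (∑ i ∈ Finset.range n, X ^ i) * (X - 1) = X ^ n - 1
    exact geom_sum_mul X n
  have hG0 : G ≠ 0 := by
    intro h0
    rw [h0, zero_mul] at hG1
    exact X_pow_sub_C_ne_zero hn (1 : C) (by rw [Polynomial.C_1]; exact hG1.symm)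
  have hg0 : γ f - f ≠ 0 := sub_ne_zero.2 hf
  have hsum : aeval T (G * (X - 1)) f = 0 := by
    rw [hG1, map_sub, map_pow, aeval_X, map_one, LinearMap.sub_apply, hTpow, h]
    simp
  have hGg : aeval T G (γ f - f) = 0 := by
    rw [map_mul, Module.End.mul_apply, map_sub, aeval_X, map_one, LinearMap.sub_apply, hT] at hsum
    simpa using hsum
  have hsplit := (IsAlgClosed.splits G).eq_prod_roots
  have hlc : G.leadingCoeff ≠ 0 := leadingCoeff_ne_zero.2 hG0
  have hprod : aeval T (G.roots.map (fun a => X - Polynomial.C a)).prod (γ f - f) = 0 := by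
    rw [hsplit, map_mul, Module.End.mul_apply, Polynomial.aeval_C] at hGg
    have h2 : G.leadingCoeff • (aeval T (G.roots.map (fun a => X - Polynomial.C a)).prod (γ f - f)) = 0 := by
      simpa using hGg
    rcases smul_eq_zero.1 h2 with h3 | h3
    · exact absurd h3 hlc
    · exact h3
  obtain ⟨ζ, hζ, g, hg, hgζ⟩ := eig_aux T G.roots (γ f - f) hg0 hprod
  have hroot : G.eval ζ = 0 := (mem_roots hG0).1 hζ
  refine ⟨ζ, ?_, ?_, g, hg, ?_⟩
  · have h2 := congrArg (fun P : Polynomial C => P.eval ζ) hG1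
    simp only [eval_mul, hroot, zero_mul, eval_sub, eval_pow, eval_X, eval_one] at h2
    exact (sub_eq_zero.1 h2.symm)
  · rintro rfl
    have h2 : G.eval 1 = (n : C) := by
      show (∑ i ∈ Finset.range n, X ^ i : Polynomial C).eval 1 = n
      rw [eval_finsetSum]
      simp
    rw [h2] at hroot
    exact hn.ne' (Nat.cast_eq_zero.1 hroot)
  · rw [← hT, hgζ, Algebra.smul_def]

/-- if `n` is a unit of `V`, then `1 - ζ` is a unit of `V` for `ζ^n = 1`, `ζ ≠ 1`: it divides
`n = ∏_{ζ' ≠ 1} (1 - ζ')` (value at `1` of `(X^n - 1)/(X - 1)`) in `V` -/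
theorem eig_unit (V : ValuationSubring C) (n : ℕ) (hn : V.valuation (n : C) = 1) (ζ : C)
    (h : ζ ^ n = 1) (h1 : ζ ≠ 1) : V.valuation (1 - ζ) = 1 := by
  have hn0 : n ≠ 0 := by
    rintro rfl
    rw [Nat.cast_zero, map_zero] at hn
    exact zero_ne_one hn
  have hζ : ζ ∈ V := by
    rw [← ValuationSubring.valuation_le_one_iff]
    by_contra hlt
    push Not at hlt
    have h2 : 1 < V.valuation ζ ^ n := one_lt_pow₀ hlt hn0
    rw [← map_pow, h, map_one] at h2
    exact lt_irrefl _ h2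
  have hG : ∑ i ∈ Finset.range n, ζ ^ i = 0 := by
    have h2 := geom_sum_mul ζ n
    rw [h, sub_self, mul_eq_zero] at h2
    rcases h2 with h2 | h2
    · exact h2
    · exact absurd (sub_eq_zero.1 h2) h1
  have hs : ∃ s ∈ V, (n : C) = (1 - ζ) * s := by
    refine ⟨∑ i ∈ Finset.range n, ∑ j ∈ Finset.range i, ζ ^ j, ?_, ?_⟩
    · exact sum_mem fun i _ => sum_mem fun j _ => pow_mem hζ j
    · rw [Finset.mul_sum]
      have h2 : ∀ i ∈ Finset.range n, (1 - ζ) * ∑ j ∈ Finset.range i, ζ ^ j = 1 - ζ ^ i := by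
        intro i _
        have h3 := geom_sum_mul ζ i
        linear_combination (-1 : C) * h3
      rw [Finset.sum_congr rfl h2, Finset.sum_sub_distrib, hG, sub_zero]
      simp
  obtain ⟨s, hsV, hs⟩ := hs
  have h2 : V.valuation (1 - ζ) ≤ 1 :=
    (ValuationSubring.valuation_le_one_iff V _).2 (sub_mem (one_mem _) hζ)
  have h3 : V.valuation s ≤ 1 := (ValuationSubring.valuation_le_one_iff V _).2 hsV
  rw [hs, map_mul] at hn
  refine le_antisymm h2 ?_
  calc (1 : V.ValueGroup) = V.valuation (1 - ζ) * V.valuation s := hn.symm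
    _ ≤ V.valuation (1 - ζ) * 1 := mul_le_mul_right h3 _
    _ = V.valuation (1 - ζ) := mul_one _

end Pool.Agent.ESH
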