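import Mathlib

/-!
# ESH / ENT: expansion of the entries

`choose(z,k) * b^z = b^k * ∑_{n<X} choose(n,k) * (b-1)^(n-k) * choose(z,n)` for `z < X`.

Proof.  If `z < k` both sides vanish (`choose(z,n) = 0` for `n > z`, `choose(n,k) = 0` for `n < k`).  If
`k ≤ z`: `b^(z-k) = ((b-1)+1)^(z-k) = ∑_m choose(z-k,m) (b-1)^m`, and
`choose(z,k) choose(z-k,m) = choose(z,k+m) choose(k+m,k)` (`Nat.choose_mul`).
-/

namespace Pool.Agent.ESH

theorem ent {M : Type*} [CommRing M] (b : M) (k z X : ℕ) (hz : z < X) :
    (z.choose k : M) * b ^ z =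
      b ^ k * ∑ n ∈ Finset.range X, (n.choose k : M) * (b - 1) ^ (n - k) * (z.choose n : M) := by
  have h1 : ∑ n ∈ Finset.range X, (n.choose k : M) * (b - 1) ^ (n - k) * (z.choose n : M) =
      ∑ n ∈ Finset.Ico k (z + 1), (n.choose k : M) * (b - 1) ^ (n - k) * (z.choose n : M) := by
    symm
    refine Finset.sum_subset ?_ ?_
    · intro n hn
      rw [Finset.mem_Ico] at hn
      rw [Finset.mem_range]
      omega
    · intro n _ hn
      rw [Finset.mem_Ico] at hn
      by_cases h : n < k
      · rw [Nat.choose_eq_zero_of_lt h]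
        simp
      · rw [Nat.choose_eq_zero_of_lt (show z < n by omega)]
        simp
  rw [h1]
  by_cases hk : k ≤ z
  · have h2 : b ^ z = b ^ k * b ^ (z - k) := by
      rw [← pow_add]
      congr 1
      omega
    have h3 : b ^ (z - k) = ∑ m ∈ Finset.range (z - k + 1),
        (b - 1) ^ m * ((z - k).choose m : M) := by
      conv_lhs => rw [show b = (b - 1) + 1 by ring]
      rw [add_pow]
      exact Finset.sum_congr rfl fun m _ => by rw [one_pow, mul_one]
    rw [h2, h3, mul_left_comm, Finset.mul_sum, Finset.sum_Ico_eq_sum_range,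
      show z + 1 - k = z - k + 1 by omega]
    congr 1
    refine Finset.sum_congr rfl fun m hm => ?_
    rw [Finset.mem_range] at hm
    have h4 : z.choose (k + m) * (k + m).choose k = z.choose k * (z - k).choose (k + m - k) :=
      Nat.choose_mul (by omega)
    rw [show k + m - k = m by omega] at h4 ⊢
    have h5 : ((z.choose (k + m) : ℕ) : M) * (((k + m).choose k : ℕ) : M) =
        ((z.choose k : ℕ) : M) * (((z - k).choose m : ℕ) : M) := by
      exact_mod_cast congrArg (Nat.cast : ℕ → M) h4
    linear_combination (-(b - 1) ^ m) * h5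
  · rw [Nat.choose_eq_zero_of_lt (show z < k by omega), Finset.Ico_eq_empty (by omega)]
    simp

end Pool.Agent.ESH
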