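import Pool.Agent.ESH.DefsH

/-!
# ESH / HCO: the combinatorial lemma of Hurwitz

Let `S = ∑ (1 - 1/e_i)`, `r` the number of terms, each `1/2 ≤ 1 - 1/e_i < 1`.  If `χ ≥ 0`: `χ + S ≥ 1/2` or `≥ 1` as it is positive.  `χ = -1`: `r ≥ 2`; `r ≥ 3`: `≥ 1/2`; `r = 2`: not both `2`, so
`≥ 1/2 + 2/3 - 1 = 1/6`.  `χ = -2`: `r ≥ 3`; `r ≥ 5`: `≥ 1/2`; `r = 4`: not all `2`: `≥ 3/2 + 2/3 - 2 = 1/6`; `r = 3`, `a ≤ b ≤ c`: `1/a + 1/b + 1/c < 1`: `a ≥ 4`: `≥ 1/4`; `a = 3`: `c ≥ 4`: `≥ 1/12`;
`a = 2`: `b ≥ 3`; `b = 3`: `c ≥ 7`: `1/42`; `b = 4`: `c ≥ 5`: `1/20`; `b ≥ 5`: `1/10`.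
-/

namespace Pool.Agent.ESH

private theorem hco_inv {m n : ℕ} (hm : 0 < m) (h : m ≤ n) : 1 / (n : ℚ) ≤ 1 / (m : ℚ) := by
  apply one_div_le_one_div_of_le
  · exact_mod_cast hm
  · exact_mod_cast h

private theorem hco_pos {n : ℕ} (h : 2 ≤ n) : 0 < 1 / (n : ℚ) := by
  have : (0 : ℚ) < n := by exact_mod_cast (by omega : 0 < n)
  positivity

private theorem hco_sorted (a b c : ℕ) (ha : 2 ≤ a) (hab : a ≤ b) (hbc : b ≤ c)
    (h : 1 / (a : ℚ) + 1 / (b : ℚ) + 1 / (c : ℚ) < 1) :
    1 / (a : ℚ) + 1 / (b : ℚ) + 1 / (c : ℚ) ≤ 41 / 42 := by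
  by_cases h4 : 4 ≤ a
  · have h1 := hco_inv (by norm_num) h4
    have h2 := hco_inv (by norm_num) (h4.trans hab)
    have h3 := hco_inv (by norm_num) (h4.trans (hab.trans hbc))
    norm_num at h1 h2 h3 ⊢
    linarith
  by_cases h3 : a = 3
  · subst h3
    have hc : 4 ≤ c := by
      by_contra hc
      have hc3 : c = 3 := by omega
      have hb3 : b = 3 := by omega
      subst hc3
      subst hb3
      norm_num at h
    have h2 := hco_inv (by norm_num) hab
    have h3 := hco_inv (by norm_num) hc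
    norm_num at h2 h3 ⊢
    linarith
  have ha2 : a = 2 := by omega
  subst ha2
  have hc0 := hco_pos (n := c) (by omega)
  have hb : 3 ≤ b := by
    by_contra hb
    have hb2 : b = 2 := by omega
    subst hb2
    norm_num at h hc0
    linarith
  by_cases hb3 : b = 3
  · subst hb3
    have hc : 7 ≤ c := by
      by_contra hc
      have h6 := hco_inv (m := c) (n := 6) (by omega) (by omega)
      norm_num at h h6
      linarith
    have h7 := hco_inv (by norm_num) hc
    norm_num at h7 ⊢
    linarith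
  by_cases hb4 : b = 4
  · subst hb4
    have hc : 5 ≤ c := by
      by_contra hc
      have hc4 : c = 4 := by omega
      subst hc4
      norm_num at h
    have h7 := hco_inv (by norm_num) hc
    norm_num at h7 ⊢
    linarith
  have h5 := hco_inv (m := 5) (n := b) (by norm_num) (by omega)
  have h6 := hco_inv (m := 5) (n := c) (by norm_num) (by omega)
  norm_num at h5 h6 ⊢
  linarith

private theorem hco_three (a b c : ℕ) (ha : 2 ≤ a) (hb : 2 ≤ b) (hc : 2 ≤ c)
    (h : 1 / (a : ℚ) + 1 / (b : ℚ) + 1 / (c : ℚ) < 1) :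
    1 / (a : ℚ) + 1 / (b : ℚ) + 1 / (c : ℚ) ≤ 41 / 42 := by
  rcases le_total a b with h1 | h1 <;> rcases le_total b c with h2 | h2 <;>
    rcases le_total a c with h3 | h3
  · exact hco_sorted a b c ha h1 h2 h
  · exact hco_sorted a b c ha h1 h2 h
  · have := hco_sorted a c b ha h3 h2 (by linarith)
    linarith
  · have := hco_sorted c a b hc h3 h1 (by linarith)
    linarith
  · have := hco_sorted b a c hb h1 h3 (by linarith)
    linarith
  · have := hco_sorted b c a hb h2 h3 (by linarith)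
    linarith
  · have := hco_sorted c b a hc h2 h1 (by linarith)
    linarith
  · have := hco_sorted c b a hc h2 h1 (by linarith)
    linarith

theorem hco {ι : Type*} (s : Finset ι) (e : ι → ℕ) (he : ∀ i ∈ s, 2 ≤ e i) (χ : ℤ) (hχ : -2 ≤ χ)
    (h : 0 < (χ : ℚ) + ∑ i ∈ s, (1 - 1 / (e i : ℚ))) :
    1 / 42 ≤ (χ : ℚ) + ∑ i ∈ s, (1 - 1 / (e i : ℚ)) := by
  classical
  have hge : ∀ i ∈ s, (1 / 2 : ℚ) ≤ 1 - 1 / (e i : ℚ) := by
    intro i hi
    have := hco_inv (by norm_num) (he i hi)
    norm_num at this ⊢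
    linarith
  have hsum : (s.card : ℚ) * (1 / 2) ≤ ∑ i ∈ s, (1 - 1 / (e i : ℚ)) := by
    have := Finset.sum_le_sum hge
    rwa [Finset.sum_const, nsmul_eq_mul] at this
  have hlt : s.Nonempty → ∑ i ∈ s, (1 - 1 / (e i : ℚ)) < s.card := by
    intro hs
    have h1 : ∀ i ∈ s, 1 - 1 / (e i : ℚ) < 1 := by
      intro i hi
      have := hco_pos (he i hi)
      linarith
    have := Finset.sum_lt_sum_of_nonempty hs h1
    rwa [Finset.sum_const, nsmul_eq_mul, mul_one] at this
  by_cases h0 : s = ∅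
  · subst h0
    simp only [Finset.sum_empty, add_zero] at h ⊢
    have h1 : (0 : ℤ) < χ := by exact_mod_cast h
    have h2 : (1 : ℚ) ≤ χ := by exact_mod_cast h1
    linarith
  have hne : s.Nonempty := Finset.nonempty_iff_ne_empty.2 h0
  have hlt' := hlt hne
  have hcard1 : 1 ≤ s.card := Finset.card_pos.2 hne
  rcases (by omega : χ = -2 ∨ χ = -1 ∨ 0 ≤ χ) with hx | hx | hx
  · subst hx
    push_cast at h ⊢
    have h3 : 3 ≤ s.card := by
      have : (2 : ℚ) < s.card := by linarith
      exact_mod_cast this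
    by_cases h5 : 5 ≤ s.card
    · have : (5 : ℚ) ≤ s.card := by exact_mod_cast h5
      linarith
    rcases (by omega : s.card = 3 ∨ s.card = 4) with hc | hc
    · obtain ⟨a, b, c, hab, hac, hbc, rfl⟩ := Finset.card_eq_three.1 hc
      rw [Finset.sum_insert (by simp [hab, hac]), Finset.sum_insert (by simp [hbc]),
        Finset.sum_singleton] at h ⊢
      have := hco_three (e a) (e b) (e c) (he a (by simp)) (he b (by simp)) (he c (by simp))
        (by linarith)
      linarith
    · have hex : ∃ i ∈ s, 3 ≤ e i := by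
        by_contra hcon
        push Not at hcon
        have h2 : ∀ i ∈ s, 1 - 1 / (e i : ℚ) = 1 / 2 := by
          intro i hi
          have h1 := he i hi
          have h2 := hcon i hi
          have h3 : e i = 2 := by omega
          rw [h3]
          norm_num
        rw [Finset.sum_congr rfl h2, Finset.sum_const, hc] at h
        norm_num at h
      obtain ⟨i, hi, hi3⟩ := hex
      rw [← Finset.add_sum_erase s _ hi]
      have h1 : ((s.erase i).card : ℚ) * (1 / 2) ≤ ∑ j ∈ s.erase i, (1 - 1 / (e j : ℚ)) := by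
        have := Finset.sum_le_sum (s := s.erase i) (fun j hj => hge j (Finset.mem_of_mem_erase hj))
        rwa [Finset.sum_const, nsmul_eq_mul] at this
      rw [Finset.card_erase_of_mem hi, hc] at h1
      have h2 := hco_inv (by norm_num) hi3
      norm_num at h1 h2 ⊢
      linarith
  · subst hx
    push_cast at h ⊢
    have h3 : 2 ≤ s.card := by
      have : (1 : ℚ) < s.card := by linarith
      exact_mod_cast this
    by_cases h5 : 3 ≤ s.card
    · have : (3 : ℚ) ≤ s.card := by exact_mod_cast h5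
      linarith
    have hc : s.card = 2 := by omega
    have hex : ∃ i ∈ s, 3 ≤ e i := by
      by_contra hcon
      push Not at hcon
      have h2 : ∀ i ∈ s, 1 - 1 / (e i : ℚ) = 1 / 2 := by
        intro i hi
        have h1 := he i hi
        have h2 := hcon i hi
        have h3 : e i = 2 := by omega
        rw [h3]
        norm_num
      rw [Finset.sum_congr rfl h2, Finset.sum_const, hc] at h
      norm_num at h
    obtain ⟨i, hi, hi3⟩ := hex
    rw [← Finset.add_sum_erase s _ hi]
    have h1 : ((s.erase i).card : ℚ) * (1 / 2) ≤ ∑ j ∈ s.erase i, (1 - 1 / (e j : ℚ)) := by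
      have := Finset.sum_le_sum (s := s.erase i) (fun j hj => hge j (Finset.mem_of_mem_erase hj))
      rwa [Finset.sum_const, nsmul_eq_mul] at this
    rw [Finset.card_erase_of_mem hi, hc] at h1
    have h2 := hco_inv (by norm_num) hi3
    norm_num at h1 h2 ⊢
    linarith
  · have h1 : (0 : ℚ) ≤ χ := by exact_mod_cast hx
    have h2 : (1 : ℚ) ≤ s.card := by exact_mod_cast hcard1
    linarith

end Pool.Agent.ESH
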