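import Pool.Agent.ESH.RHG
import Pool.Agent.ESH.HCO

/-!
# ESH / HUR: the theorem of Hurwitz

RHG and HCO: `chi = card Γ * μ` with `μ > 0`, so `μ ≥ 1/42`.
-/

namespace Pool.Agent.ESH

open Pool.Agent.Helper11 Polynomial IntermediateField

variable {C Φ : Type*} [Field C] [Field Φ] [Algebra C Φ] [FunField C Φ] [CharZero C] [IsAlgClosed C]


theorem hur (h : 0 < chi C Φ) (Γ : Subgroup (Φ ≃ₐ[C] Φ)) [Finite Γ] :
    (Nat.card Γ : ℤ) ≤ 42 * chi C Φ := by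
  obtain ⟨χ, s, hχ, hs, heq⟩ := rhg Γ
  have hpos : (0 : ℚ) < Nat.card Γ := by exact_mod_cast (Nat.card_pos : 0 < Nat.card Γ)
  have hchi : (0 : ℚ) < chi C Φ := by exact_mod_cast h
  rw [heq] at hchi
  have hmu := (mul_pos_iff_of_pos_left hpos).1 hchi
  have h42 := hco s (fun R => sO Γ R) hs χ hχ hmu
  have h1 : (Nat.card Γ : ℚ) * (1 / 42) ≤ chi C Φ := by
    rw [heq]
    exact mul_le_mul_of_nonneg_left h42 hpos.le
  have h2 : (Nat.card Γ : ℚ) ≤ 42 * chi C Φ := by linarith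
  exact_mod_cast h2

end Pool.Agent.ESH
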