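import Pool.Agent.ESH.EIG
import Pool.Agent.ESH.EVL

/-!
# ESH / FXR: automorphisms of finite order fixing a place act faithfully on its cotangent space

Proof of `fxr`.  `γ τ / τ` has order `0`; suppose its value is `1`.  Take `ζ ≠ 1`, `f ≠ 0` with `γ f = ζ f` (EIG).  Write
`f = τ^m y`, `R.ord y = 0`, `m ∈ ℤ`.  Then `ζ = γ f / f = (γ τ/τ)^m (γ y / y)`.  `γ` fixes `R` and is `C`-linear, so
`ev R (γ y) = ev R y` (`y - c` of order `≥ 1` implies `γ y - c` of order `≥ 1`), and the value of the right side is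
`1`: contradiction.
`fxr_ord`: let `γ x = x`; if `R.ord (x - c) = 1` then `τ = x - c` contradicts `fxr`; and `R.ord x ≠ -1` (`τ = x⁻¹`).
-/

namespace Pool.Agent.ESH

open Pool.Agent.Helper11

variable {C Φ : Type*} [Field C] [Field Φ] [Algebra C Φ] [FunField C Φ] [CharZero C] [IsAlgClosed C]

omit [FunField C Φ] [CharZero C] [IsAlgClosed C] in
private theorem fxr_ge (γ : Φ ≃ₐ[C] Φ) (R : Place C Φ) (hR : Fixes γ R) (n : ℤ) {f : Φ}
    (hf : f ∈ R.ge n) : γ f ∈ R.ge n := by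
  rcases (R.mem_ge).1 hf with h | h
  · rw [h, map_zero]
    exact zero_mem _
  · exact R.mem_ge_of_le (by rw [hR f]; exact h)

private theorem fxr_pow (R : Place C Φ) {u : Φ} (hu : u ∈ R.ge 0) (h1 : ev R u = 1) (n : ℕ) :
    u ^ n ∈ R.ge 0 ∧ ev R (u ^ n) = 1 := by
  induction n with
  | zero =>
    refine ⟨by rw [pow_zero]; exact R.one_mem_ge, ?_⟩
    have h := evl_const R (1 : C)
    rw [map_one] at h
    rw [pow_zero, h]
  | succ n ih =>
    refine ⟨?_, ?_⟩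
    · have h := R.mul_mem_ge ih.1 hu
      rw [add_zero] at h
      rw [pow_succ]
      exact h
    · rw [pow_succ, evl_mul R ih.1 hu, ih.2, h1, one_mul]

private theorem fxr_zpow (R : Place C Φ) {u : Φ} (hu : u ∈ R.ge 0) (h1 : ev R u = 1) (n : ℤ) :
    u ^ n ∈ R.ge 0 ∧ ev R (u ^ n) = 1 := by
  rcases n with n | n
  · rw [Int.ofNat_eq_natCast, zpow_natCast]
    exact fxr_pow R hu h1 n
  · rw [zpow_negSucc]
    have h := fxr_pow R hu h1 (n + 1)
    have h2 := evl_inv R h.1 (by rw [h.2]; exact one_ne_zero)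
    exact ⟨h2.1, by rw [h2.2, h.2, inv_one]⟩

theorem fxr_ev (γ : Φ ≃ₐ[C] Φ) (R : Place C Φ) (hR : Fixes γ R) {y : Φ} (hy : y ∈ R.ge 0) :
    γ y ∈ R.ge 0 ∧ ev R (γ y) = ev R y := by
  refine ⟨fxr_ge γ R hR 0 hy, ?_⟩
  refine evl_eq R ?_
  have h := fxr_ge γ R hR 1 (evl_mem R hy)
  rw [map_sub, AlgEquiv.commutes] at h
  exact h

theorem fxr (γ : Φ ≃ₐ[C] Φ) (n : ℕ) (hn : 0 < n) (h : γ ^ n = 1) (hγ : γ ≠ 1) (R : Place C Φ)
    (hR : Fixes γ R) (τ : Φ) (hτ : R.ord τ = 1) : ev R (γ τ / τ) ≠ 1 := by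
  intro hev
  obtain ⟨ζ, _, hζ1, f, hf0, hf⟩ := eig γ n hn h hγ
  have hτ0 : τ ≠ 0 := by
    intro h0
    rw [h0, R.ord_zero] at hτ
    exact zero_ne_one hτ
  have hγτ0 : γ τ ≠ 0 := by
    rw [Ne, map_eq_zero_iff γ γ.injective]
    exact hτ0
  have hγf0 : γ f ≠ 0 := by
    rw [Ne, map_eq_zero_iff γ γ.injective]
    exact hf0
  set m : ℤ := R.ord f with hm
  set y : Φ := f / τ ^ m with hy
  have hτm : τ ^ m ≠ 0 := zpow_ne_zero m hτ0
  have hy0 : y ≠ 0 := div_ne_zero hf0 hτm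
  have hoy : R.ord y = 0 := by
    rw [hy, R.ord_div hf0 hτm, R.ord_zpow, hτ, mul_one, ← hm, sub_self]
  have hyge : y ∈ R.ge 0 := R.mem_ge_of_le (le_of_eq hoy.symm)
  have hcy : ev R y ≠ 0 := by
    rw [Ne, evl_zero_iff R hyge]
    intro h1
    have h2 := R.le_ord_of_mem h1 hy0
    rw [hoy] at h2
    exact absurd h2 (by norm_num)
  have hu : γ τ / τ ∈ R.ge 0 := by
    refine R.mem_ge_of_le ?_
    rw [R.ord_div hγτ0 hτ0, hR τ, sub_self]
  have h1 := fxr_zpow R hu hev m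
  have h2 := fxr_ev γ R hR hyge
  have h3 := evl_inv R hyge hcy
  have h4 : ev R (γ y * y⁻¹) = 1 := by
    rw [evl_mul R h2.1 h3.1, h2.2, h3.2, mul_inv_cancel₀ hcy]
  have h5 : γ y * y⁻¹ ∈ R.ge 0 := by
    have h := R.mul_mem_ge h2.1 h3.1
    rw [add_zero] at h
    exact h
  have h6 : ev R ((γ τ / τ) ^ m * (γ y * y⁻¹)) = 1 := by
    rw [evl_mul R h1.1 h5, h1.2, h4, one_mul]
  have h7 : (γ τ / τ) ^ m * (γ y * y⁻¹) = algebraMap C Φ ζ := by
    have e1 : γ y = γ f / (γ τ) ^ m := by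
      rw [hy, map_div₀, map_zpow₀]
    have hgm : (γ τ) ^ m ≠ 0 := zpow_ne_zero m hγτ0
    rw [e1, hf, div_zpow, hy]
    field_simp
  rw [h7, evl_const] at h6
  exact hζ1 h6

theorem fxr_ord (γ : Φ ≃ₐ[C] Φ) (n : ℕ) (hn : 0 < n) (h : γ ^ n = 1) (hγ : γ ≠ 1) (R : Place C Φ)
    (hR : Fixes γ R) (x : Φ) (hx : γ x = x) :
    (∀ c : C, R.ord (x - algebraMap C Φ c) ≠ 1) ∧ R.ord x ≠ -1 := by
  have h1 : ev R (1 : Φ) = 1 := by
    have h := evl_const R (1 : C)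
    rw [map_one] at h
    exact h
  have hne : ∀ τ : Φ, R.ord τ = 1 → τ ≠ 0 := by
    intro τ hτ h0
    rw [h0, R.ord_zero] at hτ
    exact zero_ne_one hτ
  constructor
  · intro c hc
    refine fxr γ n hn h hγ R hR _ hc ?_
    rw [map_sub, AlgEquiv.commutes, hx, div_self (hne _ hc)]
    exact h1
  · intro hc
    have hc' : R.ord x⁻¹ = 1 := by
      rw [R.ord_inv, hc, neg_neg]
    refine fxr γ n hn h hγ R hR _ hc' ?_
    rw [map_inv₀, hx, div_self (hne _ hc')]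
    exact h1

end Pool.Agent.ESH
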