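import Pool.Agent.ESH.RIE
import Pool.Agent.ESH.FXR
import Pool.Agent.ESH.EVL
import Pool.Agent.Helper11.Chi
import Pool.Agent.Helper11.FinsumTools

/-!
# ESH / SEM: the eigenvalue of an automorphism at a fixed place is a root of unity

`ζ = ev P (γ τ/τ)`, not a root of unity.  Let `f` be a function whose only pole is `P`, of minimal order `n ≥ 1` (RIE,
`sem_min`).  Functions with only pole `P`, of order `< n`, are constant; so `γ f = a f + b` with constants `a, b`, and
`a = ζ^(-n)` is not a root of unity.  Subtracting a constant we may assume `b = 0`.  If `f - c` (`c ≠ 0`) has a zero of order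
`≥ 2` at a place `v` then `f - a^k c` has such a zero at `v ∘ γ^k`: infinitely many ramified places, contradicting
`finite_ord_dv_ne_zero` (`sem_inf`).  So `v.ord (v.dv f) ≤ v.ord f` for all `v`, and `chi ≤ 0` (`finsum_ord_dv`, `finsum_ord`).
-/

namespace Pool.Agent.ESH

open Pool.Agent.Helper11 Polynomial IntermediateField

variable {C Φ : Type*} [Field C] [Field Φ] [Algebra C Φ]

/-- the place `v ∘ γ` -/
def semPl (γ : Φ ≃ₐ[C] Φ) (v : Place C Φ) : Place C Φ where
  ord f := v.ord (γ f)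
  ord_zero := by rw [map_zero]; exact v.ord_zero
  ord_mul x y hx hy := by
    rw [map_mul]
    exact v.ord_mul _ _ (by simpa using hx) (by simpa using hy)
  ord_add x y hx hy hxy := by
    rw [map_add]
    refine v.ord_add _ _ (by simpa using hx) (by simpa using hy) ?_
    rw [← map_add, Ne, EmbeddingLike.map_eq_zero_iff]
    exact hxy
  ord_algebraMap c := by
    rw [AlgEquiv.commutes]
    exact v.ord_algebraMap _
  exists_ord_eq_one := by
    obtain ⟨x, hx⟩ := v.exists_ord_eq_one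
    exact ⟨γ.symm x, by rw [AlgEquiv.apply_symm_apply]; exact hx⟩

theorem semPl_ord (γ : Φ ≃ₐ[C] Φ) (v : Place C Φ) (f : Φ) : (semPl γ v).ord f = v.ord (γ f) := rfl

theorem semPl_ge (γ : Φ ≃ₐ[C] Φ) (v : Place C Φ) (n : ℤ) (f : Φ) :
    f ∈ (semPl γ v).ge n ↔ γ f ∈ v.ge n := by
  rw [Place.mem_ge, Place.mem_ge, semPl_ord, EmbeddingLike.map_eq_zero_iff]

theorem semPl_ne (γ : Φ ≃ₐ[C] Φ) (P : Place C Φ) (hP : Fixes γ P) (v : Place C Φ) (hv : v ≠ P) :
    semPl γ v ≠ P := by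
  intro h
  apply hv
  ext f
  have h1 : (semPl γ v).ord (γ.symm f) = P.ord (γ.symm f) := by rw [h]
  rw [semPl_ord, AlgEquiv.apply_symm_apply] at h1
  rw [h1, ← hP, AlgEquiv.apply_symm_apply]

theorem sem_fixes_pow (γ : Φ ≃ₐ[C] Φ) (P : Place C Φ) (hP : Fixes γ P) (k : ℕ) : Fixes (γ ^ k) P := by
  induction k with
  | zero => intro f; rw [pow_zero]; rfl
  | succ k ih =>
    intro f
    rw [pow_succ, AlgEquiv.mul_apply, ih, hP]

variable [FunField C Φ] [CharZero C] [IsAlgClosed C]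

/-- a regular function is constant -/
theorem sem_const (f : Φ) (h : ∀ v : Place C Φ, f ∈ v.ge 0) : ∃ c : C, algebraMap C Φ c = f := by
  by_contra hcon
  have hf : Transcendental C f := fun halg => hcon (mem_range_of_isAlgebraic halg)
  have hfd := FunField.finiteDimensional_adjoin hf
  have h1 := finsum_neg_ord hf
  have h2 : ∀ v : Place C Φ, max 0 (-v.ord f) = 0 := by
    intro v
    have hf0 : f ≠ 0 := by
      rintro rfl
      exact hf (isAlgebraic_zero)
    have := v.le_ord_of_mem (h v) hf0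
    exact max_eq_left (by omega)
  rw [finsum_congr h2, finsum_zero] at h1
  have h3 : 0 < Module.finrank C⟮f⟯ Φ := Module.finrank_pos
  omega

/-- a function with a single pole of minimal order -/
theorem sem_min (P : Place C Φ) : ∃ n : ℕ, ∃ f : Φ, 1 ≤ n ∧ P.ord f = -(n : ℤ) ∧
    (∀ Q : Place C Φ, Q ≠ P → f ∈ Q.ge 0) ∧
    ∀ g : Φ, (∀ Q : Place C Φ, Q ≠ P → g ∈ Q.ge 0) → g ∈ P.ge (1 - (n : ℤ)) →
      ∃ c : C, algebraMap C Φ c = g := by
  classical
  have hex : ∃ n : ℕ, 1 ≤ n ∧ ∃ f : Φ, P.ord f = -(n : ℤ) ∧ (∀ Q : Place C Φ, Q ≠ P → f ∈ Q.ge 0) := by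
    obtain ⟨f, hf, hQ⟩ := rie P
    have hneg : P.ord f < 0 := by
      by_contra hcon
      push Not at hcon
      have : ∀ v : Place C Φ, f ∈ v.ge 0 := by
        intro v
        by_cases hv : v = P
        · rw [hv]; exact P.mem_ge_of_le hcon
        · exact hQ v hv
      obtain ⟨c, hc⟩ := sem_const f this
      exact hf (hc ▸ isAlgebraic_algebraMap c)
    refine ⟨(-P.ord f).toNat, by omega, f, by omega, hQ⟩
  set n := Nat.find hex with hn
  obtain ⟨h1, f, hf, hQ⟩ := Nat.find_spec hex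
  refine ⟨n, f, h1, hf, hQ, ?_⟩
  intro g hg hgP
  apply sem_const
  intro v
  by_cases hv : v = P
  · subst hv
    by_contra hcon
    have hg0 : g ≠ 0 := by
      rintro rfl
      exact hcon (zero_mem _)
    have h2 := v.le_ord_of_mem hgP hg0
    have h3 : v.ord g < 0 := by
      by_contra h4
      exact hcon (v.mem_ge_of_le (not_lt.1 h4))
    have h5 := Nat.find_min hex (m := (-v.ord g).toNat) (by omega)
    exact h5 ⟨by omega, g, by omega, hg⟩
  · exact hg v hv

/-- infinitely many ramified places are impossible -/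
theorem sem_inf (f : Φ) (hf : Transcendental C f) (v : ℕ → Place C Φ) (c : ℕ → C)
    (hc : Function.Injective c) (h2 : ∀ k, 2 ≤ (v k).ord (f - algebraMap C Φ (c k))) : False := by
  have hne : ∀ d : C, f - algebraMap C Φ d ≠ 0 := by
    intro d hd
    apply hf
    have : f = algebraMap C Φ d := by linear_combination hd
    rw [this]
    exact isAlgebraic_algebraMap d
  have hinj : Function.Injective v := by
    intro k l hkl
    apply hc
    by_contra hcon
    have e1 := (v k).mem_ge_of_le (h2 k)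
    have e2 := (v l).mem_ge_of_le (h2 l)
    rw [← hkl] at e2
    have e3 := sub_mem e1 e2
    have e4 : f - algebraMap C Φ (c k) - (f - algebraMap C Φ (c l)) = algebraMap C Φ (c l - c k) := by
      rw [map_sub]; ring
    rw [e4] at e3
    have e5 := (v k).le_ord_of_mem e3 (by
      rw [Ne, map_eq_zero, sub_eq_zero]
      exact fun h => hcon h.symm)
    rw [Place.ord_algebraMap] at e5
    omega
  have hfin := finite_ord_dv_ne_zero (k := C) hf
  apply (Set.infinite_range_of_injective hinj) (hfin.subset _)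
  rintro _ ⟨k, rfl⟩
  change (v k).ord ((v k).dv f) ≠ 0
  have h3 := (v k).ord_dv (y := f - algebraMap C Φ (c k)) (by have := h2 k; omega)
  rw [map_sub, Derivation.map_algebraMap, sub_zero] at h3
  have := h2 k
  omega


private theorem sem_pow (R : Place C Φ) {u : Φ} (hu : u ∈ R.ge 0) (n : ℕ) :
    u ^ n ∈ R.ge 0 ∧ ev R (u ^ n) = ev R u ^ n := by
  induction n with
  | zero =>
    refine ⟨by rw [pow_zero]; exact R.one_mem_ge, ?_⟩
    have h := evl_const R (1 : C)
    rw [map_one] at h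
    rw [pow_zero, pow_zero, h]
  | succ n ih =>
    refine ⟨?_, ?_⟩
    · have h := R.mul_mem_ge ih.1 hu
      rw [add_zero] at h
      rw [pow_succ]
      exact h
    · rw [pow_succ, evl_mul R ih.1 hu, ih.2, pow_succ]


private theorem sem_zpow (R : Place C Φ) {u : Φ} (hu : u ∈ R.ge 0) (h1 : ev R u ≠ 0) (n : ℤ) :
    u ^ n ∈ R.ge 0 ∧ ev R (u ^ n) = ev R u ^ n := by
  rcases n with n | n
  · rw [Int.ofNat_eq_natCast, zpow_natCast, zpow_natCast]
    exact sem_pow R hu n
  · rw [zpow_negSucc, zpow_negSucc]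
    have h := sem_pow R hu (n + 1)
    have h2 := evl_inv R h.1 (by rw [h.2]; exact pow_ne_zero _ h1)
    exact ⟨h2.1, by rw [h2.2, h.2]⟩


private theorem sem_unit (R : Place C Φ) {u : Φ} (hu0 : u ≠ 0) (hu : R.ord u = 0) :
    u ∈ R.ge 0 ∧ ev R u ≠ 0 := by
  have h1 : u ∈ R.ge 0 := R.mem_ge_of_le hu.ge
  refine ⟨h1, ?_⟩
  rw [Ne, evl_zero_iff R h1]
  intro h2
  have := R.le_ord_of_mem h2 hu0
  omega


/-- the value of `γ f / f` -/
theorem sem_val (γ : Φ ≃ₐ[C] Φ) (P : Place C Φ) (hP : Fixes γ P) (τ : Φ) (hτ : P.ord τ = 1)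
    (f : Φ) (hf : f ≠ 0) : γ f / f ∈ P.ge 0 ∧ ev P (γ f / f) = ev P (γ τ / τ) ^ P.ord f ∧
      ev P (γ τ / τ) ≠ 0 := by
  have hτ0 : τ ≠ 0 := P.ne_zero_of_ord_ne_zero (by rw [hτ]; decide)
  have hγ : ∀ g : Φ, g ≠ 0 → γ g ≠ 0 := by
    intro g hg
    rw [Ne, EmbeddingLike.map_eq_zero_iff]
    exact hg
  have hu := sem_unit P (u := γ τ / τ) (div_ne_zero (hγ τ hτ0) hτ0)
    (by rw [P.ord_div (hγ τ hτ0) hτ0, hP]; ring)
  have hw := sem_unit P (u := γ f / f) (div_ne_zero (hγ f hf) hf)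
    (by rw [P.ord_div (hγ f hf) hf, hP]; ring)
  set m : ℤ := P.ord f with hm
  set y : Φ := f / τ ^ m with hy
  have hτm : τ ^ m ≠ 0 := zpow_ne_zero m hτ0
  have hy0 : y ≠ 0 := div_ne_zero hf hτm
  have hoy : P.ord y = 0 := by
    rw [hy, P.ord_div hf hτm, P.ord_zpow, hτ, mul_one, ← hm, sub_self]
  have hyu := sem_unit P hy0 hoy
  have h1 := sem_zpow P hu.1 hu.2 m
  have h2 := fxr_ev γ P hP hyu.1
  have h3 := evl_inv P hyu.1 hyu.2
  have h4 : ev P (γ y * y⁻¹) = 1 := by
    rw [evl_mul P h2.1 h3.1, h2.2, h3.2, mul_inv_cancel₀ hyu.2]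
  have h5 : γ y * y⁻¹ ∈ P.ge 0 := by
    have h := P.mul_mem_ge h2.1 h3.1
    rw [add_zero] at h
    exact h
  have h6 : ev P ((γ τ / τ) ^ m * (γ y * y⁻¹)) = ev P (γ τ / τ) ^ m := by
    rw [evl_mul P h1.1 h5, h1.2, h4, mul_one]
  have h7 : (γ τ / τ) ^ m * (γ y * y⁻¹) = γ f / f := by
    have e1 : γ y = γ f / (γ τ) ^ m := by
      rw [hy, map_div₀, map_zpow₀]
    have hgm : (γ τ) ^ m ≠ 0 := zpow_ne_zero m (hγ τ hτ0)
    rw [e1, div_zpow, hy]
    field_simp
  rw [h7] at h6
  exact ⟨hw.1, h6, hu.2⟩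

/-- the action on a function with a single pole of minimal order -/
theorem sem_act (γ : Φ ≃ₐ[C] Φ) (P : Place C Φ) (hP : Fixes γ P) (τ : Φ) (hτ : P.ord τ = 1) :
    ∃ n : ℕ, ∃ f : Φ, 1 ≤ n ∧ P.ord f = -(n : ℤ) ∧ (∀ Q : Place C Φ, Q ≠ P → f ∈ Q.ge 0) ∧
      ∃ b : C, γ f = algebraMap C Φ (ev P (γ τ / τ) ^ (-(n : ℤ))) * f + algebraMap C Φ b := by
  obtain ⟨n, f, hn, hf, hQ, hmin⟩ := sem_min P
  have hf0 : f ≠ 0 := P.ne_zero_of_ord_ne_zero (by omega)
  obtain ⟨h0, h1, h2⟩ := sem_val γ P hP τ hτ f hf0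
  rw [hf] at h1
  refine ⟨n, f, hn, hf, hQ, ?_⟩
  obtain ⟨b, hb⟩ := hmin (γ f - algebraMap C Φ (ev P (γ τ / τ) ^ (-(n : ℤ))) * f) (by
    intro Q hQP
    refine sub_mem ?_ ?_
    · rw [← semPl_ge]
      exact hQ _ (semPl_ne γ P hP Q hQP)
    · have := Q.mul_mem_ge (Q.algebraMap_mem_ge (ev P (γ τ / τ) ^ (-(n : ℤ)))) (hQ Q hQP)
      rwa [add_zero] at this) (by
    have h3 := evl_mem P h0
    rw [h1] at h3
    have h4 := P.mul_mem_ge h3 (P.mem_ge_ord f)
    rw [hf, sub_mul, div_mul_cancel₀ _ hf0] at h4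
    rw [sub_eq_add_neg (1 : ℤ)]
    exact h4)
  exact ⟨b, by rw [hb]; ring⟩

theorem sem (h : 0 < chi C Φ) (γ : Φ ≃ₐ[C] Φ) (P : Place C Φ) (hP : Fixes γ P) (τ : Φ)
    (hτ : P.ord τ = 1) : ∃ n : ℕ, 1 ≤ n ∧ ev P (γ τ / τ) ^ n = 1 := by
  by_contra hcon
  push Not at hcon
  obtain ⟨n, f, hn, hf, hQ, b, hb⟩ := sem_act γ P hP τ hτ
  set z := ev P (γ τ / τ) with hz
  have hz0 : z ≠ 0 := (sem_val γ P hP τ hτ τ (P.ne_zero_of_ord_ne_zero (by omega))).2.2
  set a : C := z ^ (-(n : ℤ)) with ha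
  have hak : ∀ k : ℕ, 1 ≤ k → a ^ k ≠ 1 := by
    intro k hk h1
    apply hcon (n * k) (Nat.mul_pos hn hk)
    rw [ha, ← zpow_natCast, ← zpow_mul, neg_mul, zpow_neg, inv_eq_one] at h1
    exact_mod_cast h1
  have ha0 : a ≠ 0 := zpow_ne_zero _ hz0
  have ha1 : a - 1 ≠ 0 := by
    intro h1
    exact hak 1 le_rfl (by rw [pow_one]; linear_combination h1)
  set F : Φ := f + algebraMap C Φ (b / (a - 1)) with hF
  have hγF : γ F = algebraMap C Φ a * F := by
    rw [hF, map_add, AlgEquiv.commutes, hb, mul_add, add_assoc, ← map_add, ← map_mul]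
    congr 2
    field_simp
    ring
  have hγk : ∀ k : ℕ, (γ ^ k) F = algebraMap C Φ (a ^ k) * F := by
    intro k
    induction k with
    | zero => rw [pow_zero, pow_zero, map_one, one_mul]; rfl
    | succ k ih =>
      rw [pow_succ, AlgEquiv.mul_apply, hγF, map_mul, AlgEquiv.commutes, ih, ← mul_assoc, ← map_mul,
        pow_succ, mul_comm a]
  have hFP : P.ord F = -(n : ℤ) := by
    have h1 := P.ord_add_eq_left (x := f) (y := algebraMap C Φ (b / (a - 1)))
      (P.ne_zero_of_ord_ne_zero (by omega)) (Or.inr (by rw [P.ord_algebraMap]; omega))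
    rw [hF, h1.2, hf]
  have hFQ : ∀ Q : Place C Φ, Q ≠ P → F ∈ Q.ge 0 := fun Q hQP =>
    add_mem (hQ Q hQP) (Q.algebraMap_mem_ge _)
  have hFtr : Transcendental C F := P.transcendental_of_ord_ne_zero (by omega)
  have hne : ∀ d : C, F - algebraMap C Φ d ≠ 0 := by
    intro d hd
    apply hFtr
    have : F = algebraMap C Φ d := by linear_combination hd
    rw [this]
    exact isAlgebraic_algebraMap d
  have hram : ∀ v : Place C Φ, v ≠ P → ∀ c : C, c ≠ 0 → ¬ 2 ≤ v.ord (F - algebraMap C Φ c) := by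
    intro v hv c hc h2
    refine sem_inf F hFtr (fun k => semPl (γ ^ k) v) (fun k => a ^ k * c) ?_ ?_
    · intro k l hkl
      have h3 : a ^ k = a ^ l := mul_right_cancel₀ hc hkl
      by_contra hne'
      rcases lt_or_gt_of_ne hne' with hlt | hlt
      · apply hak (l - k) (by omega)
        have : a ^ l = a ^ k * a ^ (l - k) := by rw [← pow_add]; congr 1; omega
        rw [this] at h3
        exact (mul_eq_left₀ (pow_ne_zero _ ha0)).1 h3.symm
      · apply hak (k - l) (by omega)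
        have : a ^ k = a ^ l * a ^ (k - l) := by rw [← pow_add]; congr 1; omega
        rw [this] at h3
        exact (mul_eq_left₀ (pow_ne_zero _ ha0)).1 h3
    · intro k
      rw [semPl_ord, map_sub, hγk, AlgEquiv.commutes, map_mul, ← mul_sub,
        v.ord_mul _ _ (by simpa using pow_ne_zero k ha0) (hne c), v.ord_algebraMap, zero_add]
      exact h2
  have hle : ∀ v : Place C Φ, v.ord (v.dv F) ≤ v.ord F := by
    intro v
    by_cases h0 : v.ord F = 0
    · have hv : v ≠ P := by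
        rintro rfl
        omega
      have h1 := sem_unit v (by simpa using hne 0) h0
      have h2 := hram v hv _ h1.2
      have h3 := v.le_ord_of_mem (evl_mem v h1.1) (hne _)
      have h4 := v.ord_dv (y := F - algebraMap C Φ (ev v F)) (by omega)
      rw [map_sub, Derivation.map_algebraMap, sub_zero] at h4
      omega
    · have h1 := v.ord_dv h0
      omega
  have h1 := finsum_ord_dv hFtr
  have h2 := finsum_ord (k := C) F
  have h3 : ∑ᶠ v : Place C Φ, v.ord (v.dv F) ≤ ∑ᶠ v : Place C Φ, v.ord F :=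
    fs_mono (finite_ord_dv_ne_zero hFtr) (finite_ord_ne_zero F) hle
  omega

end Pool.Agent.ESH
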