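import Pool.Agent.ESH.SEM

/-!
# ESH / UNI: unipotent automorphisms

Let `f` be a function whose only pole is `P`, of minimal order `n ≥ 1`; by `sem_act`, `γ f = f + b` with `b` a constant.
If `b = 0` then `γ` is an automorphism of the finite extension `Φ/C(f)`, so of finite order, and `γ = 1` by FXR.
If `b ≠ 0` then a ramified place `v ≠ P` of `f` gives infinitely many ramified places `v ∘ γ^k` (`sem_inf`).  So
`v.ord (v.dv f) = 0` for all `v ≠ P`, and `P.ord (P.dv f) = -n - 1`, so `chi = -n - 1 < 0`.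
-/

namespace Pool.Agent.ESH

open Pool.Agent.Helper11 Polynomial IntermediateField

variable {C Φ : Type*} [Field C] [Field Φ] [Algebra C Φ] [FunField C Φ] [CharZero C] [IsAlgClosed C]

/-- an automorphism fixing a transcendental element has finite order -/
private theorem uni_fin (γ : Φ ≃ₐ[C] Φ) (f : Φ) (hf : Transcendental C f) (h : γ f = f) :
    ∃ n : ℕ, 0 < n ∧ γ ^ n = 1 := by
  have hfd := FunField.finiteDimensional_adjoin hf
  have hfix : ∀ x : C⟮f⟯, γ (x : Φ) = x := by
    intro x
    obtain ⟨r, s, hrs⟩ := (IntermediateField.mem_adjoin_simple_iff C (x : Φ)).1 x.2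
    rw [hrs, map_div₀]
    have h1 : ∀ p : C[X], γ (aeval f p) = aeval f p := by
      intro p
      have := Polynomial.aeval_algHom_apply (γ : Φ →ₐ[C] Φ) f p
      rw [AlgEquiv.coe_algHom] at this
      rw [← this, h]
    rw [h1, h1]
  let g : Φ ≃ₐ[C⟮f⟯] Φ := AlgEquiv.ofRingEquiv (f := (γ : Φ ≃+* Φ)) (fun x => hfix x)
  have hg : ∀ x, g x = γ x := fun x => rfl
  have hfin : Finite (Φ ≃ₐ[C⟮f⟯] Φ) := inferInstance
  obtain ⟨n, hn, h1⟩ := isOfFinOrder_iff_pow_eq_one.1 (isOfFinOrder_of_finite g)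
  refine ⟨n, hn, ?_⟩
  have hk : ∀ k : ℕ, ∀ x, (g ^ k) x = (γ ^ k) x := by
    intro k
    induction k with
    | zero => intro x; rfl
    | succ k ih =>
      intro x
      rw [pow_succ, pow_succ, AlgEquiv.mul_apply, AlgEquiv.mul_apply, ih, hg]
  ext x
  rw [← hk, h1]
  rfl

theorem uni (h : 0 < chi C Φ) (γ : Φ ≃ₐ[C] Φ) (P : Place C Φ) (hP : Fixes γ P) (τ : Φ)
    (hτ : P.ord τ = 1) (h1 : ev P (γ τ / τ) = 1) : γ = 1 := by
  obtain ⟨n, f, hn, hf, hQ, b, hb⟩ := sem_act γ P hP τ hτ
  rw [h1, one_zpow, map_one, one_mul] at hb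
  have hftr : Transcendental C f := P.transcendental_of_ord_ne_zero (by omega)
  by_cases hb0 : b = 0
  · rw [hb0, map_zero, add_zero] at hb
    obtain ⟨m, hm, h2⟩ := uni_fin γ f hftr hb
    by_contra hγ
    exact fxr γ m hm h2 hγ P hP τ hτ h1
  exfalso
  have hγk : ∀ k : ℕ, (γ ^ k) f = f + algebraMap C Φ (k * b) := by
    intro k
    induction k with
    | zero => rw [pow_zero, Nat.cast_zero, zero_mul, map_zero, add_zero]; rfl
    | succ k ih =>
      rw [pow_succ, AlgEquiv.mul_apply, hb, map_add, AlgEquiv.commutes, ih, add_assoc, ← map_add]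
      push_cast
      ring_nf
  have hne : ∀ d : C, f - algebraMap C Φ d ≠ 0 := by
    intro d hd
    apply hftr
    have : f = algebraMap C Φ d := by linear_combination hd
    rw [this]
    exact isAlgebraic_algebraMap d
  have hram : ∀ v : Place C Φ, ∀ c : C, ¬ 2 ≤ v.ord (f - algebraMap C Φ c) := by
    intro v c h2
    refine sem_inf f hftr (fun k => semPl (γ ^ k) v) (fun k => c + k * b) ?_ ?_
    · intro k l hkl
      have h3 : (k : C) * b = l * b := add_left_cancel hkl
      exact_mod_cast mul_right_cancel₀ hb0 h3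
    · intro k
      rw [semPl_ord, map_sub, hγk, AlgEquiv.commutes, map_add, add_sub_add_right_eq_sub]
      exact h2
  have hdv : ∀ v : Place C Φ, v ≠ P → v.ord (v.dv f) = 0 := by
    intro v hv
    have h0 := hQ v hv
    have h2 := hram v (ev v f)
    have h3 := v.le_ord_of_mem (evl_mem v h0) (hne _)
    have h4 := v.ord_dv (y := f - algebraMap C Φ (ev v f)) (by omega)
    rw [map_sub, Derivation.map_algebraMap, sub_zero] at h4
    omega
  have h2 := finsum_ord_dv hftr
  rw [finsum_eq_single _ P hdv] at h2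
  have h3 := P.ord_dv (y := f) (by omega)
  omega

end Pool.Agent.ESH
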