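import Pool.Agent.ESH.WPT
import Pool.Agent.ESH.UNI
import Pool.Agent.ESH.SEM
import Pool.Agent.ESH.HUR

/-!
# ESH / FAU: the automorphism group of a curve of genus at least two is finite

`Z` from WPT.  `Aut` acts on the finite set `Z`; the stabiliser `H` of a point `P ∈ Z` has finite index (orbit-stabiliser; the action is `P ↦ plMap`).  `χ : H → C^*`, `γ ↦ ev P (γτ/τ)`, is an injective homomorphism (UNI;
`fxr_ev` for the multiplicativity), so `H` is commutative, and every element has finite order (SEM and UNI).  A finitely generated subgroup of `H` is finite, so of order `≤ 42 chi` (HUR); a commutative torsion group all of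
whose finite subgroups have bounded order is finite.
-/

namespace Pool.Agent.ESH

open Pool.Agent.Helper11 Polynomial IntermediateField

variable {C Φ : Type*} [Field C] [Field Φ] [Algebra C Φ] [FunField C Φ] [CharZero C] [IsAlgClosed C]


omit [FunField C Φ] [CharZero C] [IsAlgClosed C] in
private theorem fau_fmul {P : Place C Φ} {a b : Φ ≃ₐ[C] Φ} (ha : Fixes a P) (hb : Fixes b P) :
    Fixes (a * b) P := by
  intro f
  rw [AlgEquiv.mul_apply, ha, hb]

omit [FunField C Φ] [CharZero C] [IsAlgClosed C] in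
private theorem fau_fone (P : Place C Φ) : Fixes (1 : Φ ≃ₐ[C] Φ) P := by
  intro f
  rw [AlgEquiv.one_apply]

omit [FunField C Φ] [CharZero C] [IsAlgClosed C] in
private theorem fau_finv {P : Place C Φ} {a : Φ ≃ₐ[C] Φ} (ha : Fixes a P) : Fixes a⁻¹ P := by
  intro f
  have h := ha (a.symm f)
  rw [AlgEquiv.apply_symm_apply] at h
  exact h.symm

private theorem fau_u {P : Place C Φ} {g : Φ ≃ₐ[C] Φ} (hg : Fixes g P) :
    g P.unif / P.unif ∈ P.ge 0 ∧ g P.unif ≠ 0 := by
  have h0 : g P.unif ≠ 0 := by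
    rw [Ne, map_eq_zero_iff g g.injective]
    exact P.unif_ne_zero
  refine ⟨P.mem_ge_of_le ?_, h0⟩
  rw [P.ord_div h0 P.unif_ne_zero, hg, sub_self]

private theorem fau_one (P : Place C Φ) :
    ev P ((1 : Φ ≃ₐ[C] Φ) P.unif / P.unif) = 1 := by
  rw [AlgEquiv.one_apply, div_self P.unif_ne_zero]
  have h := evl_const P (1 : C)
  rwa [map_one] at h

private theorem fau_mul {P : Place C Φ} {g h : Φ ≃ₐ[C] Φ} (hg : Fixes g P) (hh : Fixes h P) :
    ev P ((g * h) P.unif / P.unif) = ev P (g P.unif / P.unif) * ev P (h P.unif / P.unif) := by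
  have hg' := fau_u hg
  have hh' := fau_u hh
  have h1 := fxr_ev g P hg hh'.1
  have h2 : (g * h) P.unif / P.unif = g (h P.unif / P.unif) * (g P.unif / P.unif) := by
    rw [AlgEquiv.mul_apply, map_div₀]
    have := hg'.2
    field_simp
  rw [h2, evl_mul P h1.1 hg'.1, h1.2, mul_comm]

private theorem fau_inj (h : 0 < chi C Φ) {P : Place C Φ} {a b : Φ ≃ₐ[C] Φ} (ha : Fixes a P)
    (hb : Fixes b P) (hab : ev P (a P.unif / P.unif) = ev P (b P.unif / P.unif)) : a = b := by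
  have hbi := fau_finv hb
  have h1 := fau_mul ha hbi
  have h2 := fau_mul hb hbi
  rw [mul_inv_cancel, fau_one] at h2
  rw [hab, ← h2] at h1
  have h3 := uni h (a * b⁻¹) P (fau_fmul ha hbi) P.unif P.ord_unif h1
  exact mul_inv_eq_one.1 h3

private theorem fau_stab (h : 0 < chi C Φ) (P : Place C Φ) :
    {γ : Φ ≃ₐ[C] Φ | Fixes γ P}.Finite := by
  classical
  by_contra hinf
  obtain ⟨S, hS, hcard⟩ := Set.Infinite.exists_subset_card_eq hinf ((42 * chi C Φ).toNat + 1)
  have hsem : ∀ γ : Φ ≃ₐ[C] Φ, ∃ n : ℕ, 1 ≤ n ∧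
      (Fixes γ P → ev P (γ P.unif / P.unif) ^ n = 1) := by
    intro γ
    by_cases hγ : Fixes γ P
    · obtain ⟨n, hn, h1⟩ := sem h γ P hγ P.unif P.ord_unif
      exact ⟨n, hn, fun _ => h1⟩
    · exact ⟨1, le_rfl, fun h => absurd h hγ⟩
  choose n hn1 hn2 using hsem
  obtain ⟨N, hN⟩ : ∃ N, N = ∏ γ ∈ S, n γ := ⟨_, rfl⟩
  have hN0 : 0 < N := by
    rw [hN]
    exact Finset.prod_pos fun γ _ => hn1 γ
  let Γ : Subgroup (Φ ≃ₐ[C] Φ) :=
    { carrier := {γ | Fixes γ P ∧ ev P (γ P.unif / P.unif) ^ N = 1}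
      mul_mem' := by
        rintro a b ⟨ha, ha'⟩ ⟨hb, hb'⟩
        refine ⟨fau_fmul ha hb, ?_⟩
        rw [fau_mul ha hb, mul_pow, ha', hb', mul_one]
      one_mem' := ⟨fau_fone P, by rw [fau_one, one_pow]⟩
      inv_mem' := by
        rintro a ⟨ha, ha'⟩
        refine ⟨fau_finv ha, ?_⟩
        have h1 := fau_mul ha (fau_finv ha)
        rw [mul_inv_cancel, fau_one] at h1
        have h2 := congrArg (fun z => z ^ N) h1
        simp only [mul_pow, one_pow] at h2
        rw [ha', one_mul] at h2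
        exact h2.symm }
  have hΓ : ∀ γ, γ ∈ Γ ↔ Fixes γ P ∧ ev P (γ P.unif / P.unif) ^ N = 1 := fun γ => Iff.rfl
  have hfin : Finite Γ := by
    have h1 : {z : C | z ^ N = 1}.Finite := by
      refine (Polynomial.nthRootsFinset N (1 : C)).finite_toSet.subset fun z hz => ?_
      rw [Finset.mem_coe, Polynomial.mem_nthRootsFinset hN0]
      exact hz
    have : Finite {z : C | z ^ N = 1} := h1.to_subtype
    refine Finite.of_injective
      (fun g : Γ => (⟨ev P (g.1 P.unif / P.unif), ((hΓ g.1).1 g.2).2⟩ : {z : C | z ^ N = 1})) ?_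
    intro a b hab
    have h2 := congrArg Subtype.val hab
    exact Subtype.ext (fau_inj h ((hΓ a.1).1 a.2).1 ((hΓ b.1).1 b.2).1 h2)
  have h1 := hur h Γ
  have h2 : S.card ≤ Nat.card Γ := by
    have h3 : ∀ γ ∈ S, γ ∈ Γ := by
      intro γ hγ
      have h4 : Fixes γ P := hS hγ
      refine (hΓ γ).2 ⟨h4, ?_⟩
      have h5 : n γ ∣ N := by
        rw [hN]
        exact Finset.dvd_prod_of_mem n hγ
      obtain ⟨m, hm⟩ := h5
      rw [hm, pow_mul, hn2 γ h4, one_pow]
    have h6 : Nat.card S ≤ Nat.card Γ :=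
      Nat.card_le_card_of_injective (fun g : S => (⟨g.1, h3 g.1 g.2⟩ : Γ)) fun a b hab =>
        Subtype.ext (congrArg (fun z : Γ => z.1) hab)
    rwa [Nat.card_eq_fintype_card, Fintype.card_coe] at h6
  omega

theorem fau (hg : PosGenus C Φ) (h : 0 < chi C Φ) : Finite (Φ ≃ₐ[C] Φ) := by
  obtain ⟨Z, hZf, ⟨P, hP⟩, hZ⟩ := wpt hg h
  have hHfin := fau_stab h P
  have hpl : ∀ γ : Φ ≃ₐ[C] Φ, ∃ Q : Place C Φ, ∀ f, Q.ord (γ f) = P.ord f := by
    intro γ
    refine ⟨plMap (γ : Φ ≃+* Φ) (RingEquiv.refl C) (fun c => γ.commutes c) P, fun f => ?_⟩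
    change P.ord (γ.symm (γ f)) = _
    rw [AlgEquiv.symm_apply_apply]
  choose pl hpl using hpl
  rw [← Set.finite_univ_iff]
  refine Set.Finite.of_finite_fibers (f := pl) (hZf.subset ?_) ?_
  · rintro _ ⟨γ, -, rfl⟩
    exact hZ γ P (pl γ) (hpl γ) hP
  · rintro _ ⟨γ0, -, rfl⟩
    refine (hHfin.image (fun g => γ0 * g)).subset ?_
    rintro γ ⟨-, hγ⟩
    refine ⟨γ0⁻¹ * γ, fun f => ?_, mul_inv_cancel_left γ0 γ⟩
    have h1 := hpl γ0 ((γ0⁻¹ * γ) f)
    have h2 : γ0 ((γ0⁻¹ * γ) f) = γ f := γ0.apply_symm_apply (γ f)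
    have h3 : pl γ = pl γ0 := hγ
    rw [h2, ← h3, hpl γ] at h1
    exact h1.symm

end Pool.Agent.ESH
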