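import Mathlib

/-!
# ESH / POL: integral polynomials with small coefficients

Proof.  `D = [M:ℚ]`, `H = mulHeight₁ x`.  `NumberField.exists_nat_le_mulHeight₁`: `n ≠ 0`, `n ≤ H`, `y = n x` integral.
The characteristic polynomial `χ` of `y` over `ℚ` has integral coefficients and `χ = ∏_σ (X - σ y)` over the
embeddings `σ : M → ℂ`, so `|χ_i| ≤ ∏_σ (1 + |σ y|) ≤ (2n)^D ∏_σ max(|σ x|, 1) ≤ (2n)^D H`.  Put
`P(X) = χ(n X)`: `P x = 0`, `|P_i| ≤ (2n)^D H n^D ≤ (2H)^(3D)`.
-/

namespace Pool.Agent.ESH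

open NumberField Height Polynomial

private theorem infinitePlace_le_mulHeight₁ (M : Type*) [Field M] [NumberField M] (x : M)
    (v : InfinitePlace M) : v x ≤ mulHeight₁ x := by
  classical
  rw [NumberField.mulHeight₁_eq]
  have h1 : (1 : ℝ) ≤ ∏ᶠ v : FinitePlace M, max (v x) 1 := one_le_finprod fun w => le_max_right _ _
  have h2 : ∀ w : InfinitePlace M, (1 : ℝ) ≤ max (w x) 1 ^ w.mult := fun w => one_le_pow₀ (le_max_right _ _)
  have h3 : v x ≤ ∏ v : InfinitePlace M, max (v x) 1 ^ v.mult := by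
    rw [← Finset.mul_prod_erase _ _ (Finset.mem_univ v)]
    have h4 : (1 : ℝ) ≤ ∏ w ∈ Finset.univ.erase v, max (w x) 1 ^ w.mult :=
      Finset.one_le_prod fun w _ => h2 w
    calc v x ≤ max (v x) 1 := le_max_left _ _
      _ ≤ max (v x) 1 ^ v.mult := le_self_pow₀ (le_max_right _ _) v.mult_pos.ne'
      _ = max (v x) 1 ^ v.mult * 1 := (mul_one _).symm
      _ ≤ _ := by gcongr
  calc v x ≤ (∏ v : InfinitePlace M, max (v x) 1 ^ v.mult) * 1 := by rw [mul_one]; exact h3
    _ ≤ _ := by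
      gcongr

theorem pol (M : Type*) [Field M] [NumberField M] (x : M) :
    ∃ P : ℤ[X], P ≠ 0 ∧ P.natDegree ≤ Module.finrank ℚ M ∧ aeval x P = 0 ∧
      ∀ i, |(P.coeff i : ℝ)| ≤ (2 * mulHeight₁ x) ^ (3 * Module.finrank ℚ M) := by
  classical
  obtain ⟨n, hn0, hnH, hint⟩ := NumberField.exists_nat_le_mulHeight₁ x
  set D := Module.finrank ℚ M with hD
  set H := mulHeight₁ x with hH
  have hH1 : 1 ≤ H := one_le_mulHeight₁ x
  set p := minpoly ℤ ((n : M) * x) with hp
  have hmon : p.Monic := minpoly.monic hint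
  have hmap : minpoly ℚ ((n : M) * x) = p.map (algebraMap ℤ ℚ) :=
    minpoly.isIntegrallyClosed_eq_field_fractions' ℚ hint
  have hpdeg : p.natDegree ≤ D := by
    have := minpoly.natDegree_le (A := ℚ) ((n : M) * x)
    rwa [hmap, hmon.natDegree_map] at this
  have hnZ : (n : ℤ) ≠ 0 := by exact_mod_cast hn0
  have hbd : ∀ φ : M →+* ℂ, ‖φ ((n : M) * x)‖ ≤ H * H := by
    intro φ
    rw [map_mul, norm_mul, map_natCast, Complex.norm_natCast]
    have h1 : ‖φ x‖ ≤ H := infinitePlace_le_mulHeight₁ M x (InfinitePlace.mk φ)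
    gcongr
  have hcoef : ∀ i, |(p.coeff i : ℝ)| ≤ (H * H) ^ D * 2 ^ D := by
    intro i
    have h1 := NumberField.Embeddings.coeff_bdd_of_norm_le hbd i
    rw [hmap, coeff_map] at h1
    have h2 : max (H * H) 1 = H * H := max_eq_left (by nlinarith)
    rw [h2] at h1
    have h3 : ((Module.finrank ℚ M).choose (Module.finrank ℚ M / 2) : ℝ) ≤ 2 ^ D := by
      exact_mod_cast Nat.choose_le_two_pow _ _
    have h4 : ‖(algebraMap ℤ ℚ) (p.coeff i)‖ = |(p.coeff i : ℝ)| := by
      rw [eq_intCast, Int.norm_cast_rat, Int.norm_eq_abs]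
    rw [h4] at h1
    refine h1.trans ?_
    gcongr
  refine ⟨p.comp (C (n : ℤ) * X), ?_, ?_, ?_, ?_⟩
  · intro h0
    have h1 := congrArg (fun q => q.coeff p.natDegree) h0
    simp only [comp_C_mul_X_coeff, coeff_zero] at h1
    rw [hmon.coeff_natDegree, one_mul] at h1
    exact pow_ne_zero _ hnZ h1
  · refine (natDegree_comp_le).trans ?_
    have : (C (n : ℤ) * X : ℤ[X]).natDegree ≤ 1 :=
      (natDegree_C_mul_le _ _).trans (natDegree_X_le)
    calc p.natDegree * (C (n : ℤ) * X : ℤ[X]).natDegree ≤ p.natDegree * 1 := by gcongr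
      _ ≤ D := by rw [mul_one]; exact hpdeg
  · rw [aeval_comp]
    have : (aeval x) (C (n : ℤ) * X : ℤ[X]) = (n : M) * x := by simp
    rw [this]
    exact minpoly.aeval _ _
  · intro i
    rw [comp_C_mul_X_coeff]
    by_cases hi : i ≤ D
    · push_cast
      rw [abs_mul]
      have h5 : |((n : ℝ)) ^ i| ≤ H ^ D := by
        rw [abs_of_nonneg (by positivity)]
        calc (n : ℝ) ^ i ≤ H ^ i := by gcongr
          _ ≤ H ^ D := pow_le_pow_right₀ hH1 hi
      calc |(p.coeff i : ℝ)| * |((n : ℝ)) ^ i| ≤ ((H * H) ^ D * 2 ^ D) * H ^ D := by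
            have := hcoef i
            gcongr
        _ ≤ ((H * H) ^ D * 2 ^ (3 * D)) * H ^ D := by
            gcongr
            · norm_num
            · omega
        _ = (2 * H) ^ (3 * D) := by ring
    · have : p.coeff i = 0 := coeff_eq_zero_of_natDegree_lt (by omega)
      rw [this]
      simp only [zero_mul, Int.cast_zero, abs_zero]
      positivity

end Pool.Agent.ESH
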