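import Pool.Agent.ESH.DEC
import Pool.Agent.ESH.DIR
import Pool.Agent.ESH.CORA
import Pool.Agent.ESH.TWA

/-!
# ESH / RAR: S-units close to one at an infinite place have bounded height

Proof.  `A = siz M S + k₁`, `D = [M:ℚ]`, `h = logHeight₁ ξ`; we may assume `h ≥ 4 k₁`, so
`w (ξ - 1) ≤ 1/2` (`nInf = w^mult`, `mult ∈ {1,2}`, `exp(-4) ≤ 1/4`).  Let `φ = w.embedding : M →+* ℂ`, `‖φ x‖ = w x`.  DEC:
`n ≤ A`, `γ_i`, `b`, `x₀`, heights `≤ C₁ = tw 10 A`.  Put `ζ_i = log φ(γ_i)`, `ζ₀ = log φ(x₀)` (principal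
logarithms), `‖ζ‖ ≤ C₁ + 4` (`abs_log_inf_le`, `|arg| ≤ π`), and `λ = log φ(ξ)`, `‖λ‖ ≤ 1`.
Since `exp(ζ₀ + ∑ b_i ζ_i - λ) = 1` there is `b₀ ∈ ℤ` with `ζ₀ + ∑ b_i ζ_i - λ = 2 π i b₀`.  Let
`B₁ = max_i |b_i|`; if `B₁ = 0` then `h ≤ C₁`.  For `B₁ ≥ 1`:
`|b₀| ≤ (C₁ + 4 + n B₁ (C₁+4) + 1) ≤ C₄ B₁`, `C₄ := (n+1)(C₁+5)`; `B = max(B₁, |b₀|) ≤ C₄ B₁`.
Constants: `k₀ = 8 n C₁ k₁ C₄`, `L = 2^20 D^2 k₀`, `m = 2^24 L^2 k₀ C₁ (n+1) (C₁ + 11) + C₄ + 2`,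
`Hmax = 2 n m^(n+1) C₁`,
`B* = 2 m^(n+1) (m (m^(n+1)+2)) + 2 m^(n+1) ((2^20 L Hmax D k₀)^3 + 2^22 L^2 k₀ (C₁+5)) + 8`.
If `B₁ < B*`: `h ≤ C₁ + n B* C₁ ≤ tw 60 A`.
Suppose `B₁ ≥ B*`, apply `dir_int` to the `n + 1` integers `b₀, b₁, ..., b_n` with bound `B`: `J ≤ m^(n+1)`, `r`,
`q`, `ρ`.  Some `q_i ≠ 0` with `i ≥ 1`: else (last clause) `m J |b_i| ≤ B` for all `i ≥ 1`, so
`m B₁ ≤ B ≤ C₄ B₁ < m B₁`.  `α = ∏ γ_i^(q_i)` (`i ≥ 1`), `β = x₀ ∏ γ_i^(ρ_i)`, `α^r β = ξ`.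
`h(α) ≤ H := 2 n J C₁`, `h(β) ≤ C₁ + n (3r/m) C₁ ≤ r/(2^15 L^2 k₀)`.
`θ := ∑ q_i ζ_i - 2π i q₀ = (1/r) (λ - ζ₀ - ∑ ρ_i ζ_i + 2 π i ρ₀)`,
`‖θ‖ ≤ (C₁+5)/r + (3/m)(n (C₁+4) + 7) ≤ 1/(2^20 L^2 k₀)`, `φ α = exp θ`, so
`w (α - 1) = ‖exp θ - 1‖ ≤ 2 ‖θ‖ ≤ 1/(2^18 L^2 k₀)`.  CORA: `exp(-(r H/k₀)) < nInf w (ξ - 1) ≤ exp(-h/k₁)`.  But
`r H/k₀ = 2 n C₁ r J/(8 n C₁ k₁ C₄) ≤ B/(4 k₁ C₄) ≤ B₁/(4 k₁)` and `h ≥ (B₁-1)/2 ≥ B₁/4`: contradiction.
-/

namespace Pool.Agent.ESH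

open NumberField Height

/-- all the tower estimates of RAR -/
private theorem rar_tower (A n D k₁ : ℕ) (hA : 16 ≤ A) (hn : n ≤ A) (hD : D ≤ A) (hk₁ : k₁ ≤ A) :
    let C₁ := tw 10 A
    let C₄ := (n + 1) * (C₁ + 5)
    let k₀ := 8 * n * C₁ * k₁ * C₄
    let L := 2 ^ 20 * D ^ 2 * k₀
    let m := 2 ^ 24 * L ^ 2 * k₀ * C₁ * (n + 1) * (C₁ + 11) + C₄ + 2
    let Hmax := 2 * n * m ^ (n + 1) * C₁
    let Bs := 2 * m ^ (n + 1) * (m * (m ^ (n + 1) + 2)) +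
      2 * m ^ (n + 1) * ((2 ^ 20 * L * Hmax * D * k₀) ^ 3 + 2 ^ 22 * L ^ 2 * k₀ * (C₁ + 5)) + 8
    C₁ + n * Bs * C₁ ≤ tw 60 A := by
  intro C₁ C₄ k₀ L m Hmax Bs
  have up : ∀ {a b x : ℕ}, x ≤ tw a A → a ≤ b → x ≤ tw b A :=
    fun h h' => h.trans (tw_mono h' le_rfl)
  have sm : ∀ {x : ℕ}, x ≤ 16 → x ≤ tw 0 A := fun h => h.trans hA
  have hC₁ : C₁ ≤ tw 10 A := le_rfl
  have hn0 : n ≤ tw 0 A := hn
  have hn1 : n + 1 ≤ tw 1 A := tw_add hA hn0 (sm (by norm_num))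
  have hC5 : C₁ + 5 ≤ tw 11 A := tw_add hA hC₁ (up (sm (by norm_num)) (by norm_num))
  have hC11 : C₁ + 11 ≤ tw 11 A := tw_add hA hC₁ (up (sm (by norm_num)) (by norm_num))
  have hC₄ : C₄ ≤ tw 12 A := tw_mul hA (up hn1 (by norm_num)) hC5
  have hk0 : k₀ ≤ tw 13 A :=
    tw_mul hA (tw_poly hA (up (sm (by norm_num)) (by norm_num)) (up hn0 (by norm_num)) hC₁
      (up (show k₁ ≤ tw 0 A from hk₁) (by norm_num))) hC₄
  have h24 : 2 ^ 24 ≤ tw 2 A := by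
    have h1 : 24 ≤ tw 1 A := by
      have h2 : (2 : ℕ) ^ 16 ≤ 2 ^ A := Nat.pow_le_pow_right (by norm_num) hA
      calc 24 ≤ 2 ^ 16 := by norm_num
        _ ≤ tw 1 A := h2
    exact Nat.pow_le_pow_right (by norm_num) h1
  have h20 : 2 ^ 20 ≤ tw 2 A := le_trans (by norm_num) h24
  have h22 : 2 ^ 22 ≤ tw 2 A := le_trans (by norm_num) h24
  have hD0 : D ≤ tw 0 A := hD
  have hD2 : D ^ 2 ≤ tw 1 A := by rw [pow_two]; exact tw_mul hA hD0 hD0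
  have hL : L ≤ tw 15 A := by
    have h1 := tw_mul hA h20 (up hD2 (by norm_num) : D ^ 2 ≤ tw 2 A)
    exact up (tw_mul hA (up h1 (by norm_num) : _ ≤ tw 13 A) hk0) (by norm_num)
  have hL2 : L ^ 2 ≤ tw 16 A := by rw [pow_two]; exact tw_mul hA hL hL
  have hm : m ≤ tw 22 A := by
    have h1 : 2 ^ 24 * L ^ 2 * k₀ * C₁ ≤ tw 18 A :=
      tw_poly hA (up h24 (by norm_num)) hL2 (up hk0 (by norm_num)) (up hC₁ (by norm_num))
    have h2 := tw_mul hA h1 (up hn1 (by norm_num))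
    have h3 := tw_mul hA h2 (up hC11 (by norm_num))
    have h4 := tw_add hA h3 (up hC₄ (by norm_num))
    exact tw_add hA h4 (up (sm (by norm_num)) (by norm_num))
  have hmn : m ^ (n + 1) ≤ tw 24 A := tw_pow hA hm (up hn1 (by norm_num))
  have hH : Hmax ≤ tw 26 A :=
    tw_poly hA (up (sm (by norm_num)) (by norm_num)) (up hn0 (by norm_num)) hmn (up hC₁ (by norm_num))
  have h2m : 2 * m ^ (n + 1) ≤ tw 25 A :=
    tw_mul hA (up (sm (by norm_num)) (by norm_num) : 2 ≤ tw 24 A) hmn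
  have hB1 : 2 * m ^ (n + 1) * (m * (m ^ (n + 1) + 2)) ≤ tw 27 A := by
    have h1 := tw_add hA hmn (up (sm (by norm_num)) (by norm_num) : 2 ≤ tw 24 A)
    have h2 := tw_mul hA (up hm (by norm_num) : m ≤ tw 25 A) h1
    exact tw_mul hA (up h2m (by norm_num)) h2
  have hX : (2 ^ 20 * L * Hmax * D * k₀) ^ 3 ≤ tw 31 A := by
    have h1 : 2 ^ 20 * L * Hmax * D ≤ tw 28 A :=
      tw_poly hA (up h20 (by norm_num)) (up hL (by norm_num)) hH (up hD0 (by norm_num))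
    have h2 := tw_mul hA h1 (up hk0 (by norm_num) : k₀ ≤ tw 28 A)
    exact tw_pow hA h2 (up (sm (by norm_num)) (by norm_num))
  have hY : 2 ^ 22 * L ^ 2 * k₀ * (C₁ + 5) ≤ tw 18 A :=
    tw_poly hA (up h22 (by norm_num)) hL2 (up hk0 (by norm_num)) (up hC5 (by norm_num))
  have hXY := tw_add hA hX (up hY (by norm_num))
  have hB2 : 2 * m ^ (n + 1) * ((2 ^ 20 * L * Hmax * D * k₀) ^ 3 + 2 ^ 22 * L ^ 2 * k₀ * (C₁ + 5))
      ≤ tw 33 A :=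
    tw_mul hA (up h2m (by norm_num)) hXY
  have hBs : Bs ≤ tw 35 A :=
    tw_add hA (tw_add hA (up hB1 (by norm_num)) hB2) (up (sm (by norm_num)) (by norm_num))
  have h4 := tw_mul hA (up hn0 (by norm_num) : n ≤ tw 35 A) hBs
  have h5 := tw_mul hA h4 (up hC₁ (by norm_num))
  have h6 := tw_add hA (up hC₁ (by norm_num)) h5
  exact up h6 (by norm_num)

private theorem norm_log_le {M : Type*} [Field M] [NumberField M] (w : InfinitePlace M) (x : M)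
    (hx : x ≠ 0) (C : ℝ) (hC : logHeight₁ x ≤ C) : ‖Complex.log (w.embedding x)‖ ≤ C + 4 := by
  have h1 := Complex.norm_le_abs_re_add_abs_im (Complex.log (w.embedding x))
  rw [Complex.log_re, Complex.log_im, InfinitePlace.norm_embedding_eq] at h1
  have h2 := abs_log_inf_le w x hx
  have h3 := Complex.abs_arg_le_pi (w.embedding x)
  have h4 := Real.pi_le_four
  linarith

theorem rar (M : Type*) [Field M] [NumberField M] (S : Finset (FinitePlace M)) (w : InfinitePlace M)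
    (k₁ : ℕ) (hk₁ : 1 ≤ k₁) (ξ : M) (hξ : ξ ≠ 0) (hS : IsSUnit S ξ)
    (h : nInf w (ξ - 1) ≤ Real.exp (-(logHeight₁ ξ / k₁))) :
    logHeight₁ ξ ≤ tw 60 (siz M S + k₁) := by
  classical
  set A := siz M S + k₁ with hAdef
  have hk1pos : (0 : ℝ) < k₁ := by exact_mod_cast hk₁
  have hA : 16 ≤ A := by rw [hAdef, siz]; omega
  have hk₁A : k₁ ≤ A := by omega
  rcases le_or_gt (logHeight₁ ξ) (4 * k₁) with hle | hgt
  · refine hle.trans ?_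
    have h1 : 4 * k₁ ≤ tw 1 A := tw_mul (by omega) (show 4 ≤ tw 0 A by exact le_trans (by norm_num) hA)
      (show k₁ ≤ tw 0 A from hk₁A)
    have h2 : 4 * k₁ ≤ tw 60 A := h1.trans (tw_mono (by norm_num) le_rfl)
    exact_mod_cast h2
  have hhpos : 0 < logHeight₁ ξ := by linarith
  have hsmall : w (ξ - 1) ≤ 1 / 2 := by
    have h1 : nInf w (ξ - 1) ≤ 1 / 4 := by
      refine h.trans ?_
      have h2 : (4 : ℝ) < logHeight₁ ξ / k₁ := by rw [lt_div_iff₀ hk1pos]; linarith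
      have h3 : Real.exp (-(logHeight₁ ξ / k₁)) ≤ Real.exp (-4) := Real.exp_le_exp.2 (by linarith)
      refine h3.trans ?_
      rw [Real.exp_neg, one_div]
      apply inv_anti₀ (by norm_num)
      have := Real.add_one_le_exp (4 : ℝ)
      linarith
    have h0 : 0 ≤ w (ξ - 1) := apply_nonneg w _
    rw [nInf, InfinitePlace.mult] at h1
    split_ifs at h1
    · rw [pow_one] at h1; linarith
    · nlinarith
  obtain ⟨n, γ, hn, hγ0, hγS, hγh, hind, hdec⟩ := dec M S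
  obtain ⟨b, hb, hbb⟩ := hdec ξ hξ hS
  have hnA : n ≤ A := hn.trans (by omega)
  set C₁ := tw 10 A with hC₁
  have hC₁le : ((tw 10 (siz M S) : ℕ) : ℝ) ≤ (C₁ : ℝ) := by
    exact_mod_cast tw_mono le_rfl (by omega)
  have hγh' : ∀ i, logHeight₁ (γ i) ≤ C₁ := fun i => (hγh i).trans hC₁le
  set x₀ := ξ * ∏ i, γ i ^ (-b i) with hx₀
  have hx₀h : logHeight₁ x₀ ≤ C₁ := hb.trans hC₁le
  have hξeq : ξ = x₀ * ∏ i, γ i ^ b i := by
    rw [hx₀, mul_assoc, ← Finset.prod_mul_distrib]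
    rw [Finset.prod_eq_one, mul_one]
    intro i _
    rw [← zpow_add₀ (hγ0 i), neg_add_cancel, zpow_zero]
  have hx₀0 : x₀ ≠ 0 :=
    mul_ne_zero hξ (Finset.prod_ne_zero_iff.2 (fun i _ => zpow_ne_zero _ (hγ0 i)))
  have hD : Module.finrank ℚ M ≤ A := by
    have : Module.finrank ℚ M ≤ siz M S := by rw [siz]; omega
    omega
  have htower := rar_tower A n (Module.finrank ℚ M) k₁ hA hnA hD hk₁A
  simp only at htower
  have hC₁1 : 1 ≤ C₁ := le_trans (by omega) (le_tw 10 A)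
  set D := Module.finrank ℚ M with hDdef
  have hDpos : 0 < D := Module.finrank_pos
  rw [← hC₁] at htower
  set C₄ := (n + 1) * (C₁ + 5) with hC₄
  set k₀ := 8 * n * C₁ * k₁ * C₄ with hk₀
  set L := 2 ^ 20 * D ^ 2 * k₀ with hL
  set m := 2 ^ 24 * L ^ 2 * k₀ * C₁ * (n + 1) * (C₁ + 11) + C₄ + 2 with hm
  set Hmax := 2 * n * m ^ (n + 1) * C₁ with hHmax
  set Bs := 2 * m ^ (n + 1) * (m * (m ^ (n + 1) + 2)) +
      2 * m ^ (n + 1) * ((2 ^ 20 * L * Hmax * D * k₀) ^ 3 + 2 ^ 22 * L ^ 2 * k₀ * (C₁ + 5)) + 8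
      with hBs
  clear_value Bs Hmax m L k₀ C₄ D x₀ C₁
  clear hdec hb hγh hC₁le hC₁
  generalize tw 60 A = T at htower ⊢
  have hC₁0 : (0 : ℝ) ≤ C₁ := Nat.cast_nonneg _
  -- the bound when all `|b_i| ≤ B`
  have hbound : ∀ Bq : ℕ, (∀ i, |b i| ≤ Bq) → logHeight₁ ξ ≤ C₁ + n * Bq * C₁ := by
    intro Bq hBq
    have h1 : logHeight₁ ξ ≤ logHeight₁ x₀ + logHeight₁ (∏ i, γ i ^ b i) := by
      conv_lhs => rw [hξeq]
      exact ht_mul _ _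
    have h2 : logHeight₁ (∏ i, γ i ^ b i) ≤ n * (Bq : ℝ) * C₁ := by
      refine ht_prod_zpow γ b C₁ Bq hγh' (fun i => ?_) (Nat.cast_nonneg _)
      have := hBq i
      rw [← Int.cast_abs]
      exact_mod_cast this
    linarith
  set B₁ : ℕ := Finset.univ.sup (fun i => (b i).natAbs) with hB₁
  have hbB₁ : ∀ i, |b i| ≤ (B₁ : ℤ) := by
    intro i
    have h1 : (b i).natAbs ≤ B₁ := Finset.le_sup (f := fun i => (b i).natAbs) (Finset.mem_univ i)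
    rw [Int.abs_eq_natAbs]
    exact_mod_cast h1
  rcases lt_or_ge B₁ Bs with hBlt | hBge
  · have h1 := hbound B₁ hbB₁
    have h2 : C₁ + n * B₁ * C₁ ≤ C₁ + n * Bs * C₁ := by
      have : n * B₁ * C₁ ≤ n * Bs * C₁ := Nat.mul_le_mul_right _ (Nat.mul_le_mul_left _ hBlt.le)
      omega
    have h3 : C₁ + n * B₁ * C₁ ≤ T := h2.trans htower
    refine h1.trans ?_
    exact_mod_cast h3
  exfalso
  have hBpos : 8 ≤ B₁ := by omega
  -- an index where the maximum is attained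
  obtain ⟨i₀, hi₀⟩ : ∃ i, (b i).natAbs = B₁ := by
    rcases Nat.eq_zero_or_pos n with h0 | hnp
    · exfalso
      subst h0
      have : B₁ = 0 := by
        rw [hB₁]
        simp
      omega
    · have : Nonempty (Fin n) := ⟨⟨0, hnp⟩⟩
      obtain ⟨i, _, hi⟩ := Finset.exists_mem_eq_sup Finset.univ Finset.univ_nonempty
        (fun i => (b i).natAbs)
      exact ⟨i, hi.symm⟩
  clear_value B₁
  have hnpos : 0 < n := Fin.pos i₀
  have hC₄1 : 1 ≤ C₄ := by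
    rw [hC₄]
    exact Nat.mul_pos (by omega) (by omega)
  have hk₀1 : 1 ≤ k₀ := by
    rw [hk₀]
    exact Nat.mul_pos (Nat.mul_pos (Nat.mul_pos (Nat.mul_pos (by norm_num) hnpos) hC₁1) hk₁) hC₄1
  have hm2 : 2 ≤ m := by rw [hm]; omega
  have hmC₄ : C₄ < m := by rw [hm]; omega
  -- logarithms
  set φ := w.embedding with hφ
  set ζ : Fin n → ℂ := fun i => Complex.log (φ (γ i)) with hζ
  set ζ₀ : ℂ := Complex.log (φ x₀) with hζ₀
  set lam : ℂ := Complex.log (φ ξ) with hlam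
  have hζn : ∀ i, ‖ζ i‖ ≤ C₁ + 4 := fun i => norm_log_le w (γ i) (hγ0 i) C₁ (hγh' i)
  have hζ₀n : ‖ζ₀‖ ≤ C₁ + 4 := norm_log_le w x₀ hx₀0 C₁ hx₀h
  have hlamn : ‖lam‖ ≤ 1 := by
    have h1 : ‖φ ξ - 1‖ ≤ 1 / 2 := by
      have : φ ξ - 1 = φ (ξ - 1) := by rw [map_sub, map_one]
      rw [this, hφ, InfinitePlace.norm_embedding_eq]
      exact hsmall
    have h2 := Complex.norm_log_one_add_half_le_self h1
    rw [add_sub_cancel] at h2
    linarith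
  have hexpζ : ∀ i, Complex.exp (ζ i) = φ (γ i) := fun i =>
    Complex.exp_log ((map_ne_zero φ).2 (hγ0 i))
  have hexpζ₀ : Complex.exp ζ₀ = φ x₀ := Complex.exp_log ((map_ne_zero φ).2 hx₀0)
  have hexplam : Complex.exp lam = φ ξ := Complex.exp_log ((map_ne_zero φ).2 hξ)
  have hφξ : φ ξ ≠ 0 := (map_ne_zero φ).2 hξ
  clear_value ζ ζ₀ lam
  have hexpsum : ∀ q : Fin n → ℤ, Complex.exp (∑ i, (q i : ℂ) * ζ i) = φ (∏ i, γ i ^ q i) := by
    intro q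
    rw [Complex.exp_sum, map_prod]
    refine Finset.prod_congr rfl (fun i _ => ?_)
    rw [Complex.exp_int_mul, hexpζ, map_zpow₀]
  obtain ⟨b₀, hb₀⟩ : ∃ b₀ : ℤ, ζ₀ + ∑ i, (b i : ℂ) * ζ i - lam = b₀ * (2 * Real.pi * Complex.I) := by
    rw [← Complex.exp_eq_one_iff, Complex.exp_sub, Complex.exp_add, hexpsum, hexpζ₀, hexplam,
      ← map_mul, ← hξeq, div_self hφξ]
  have h2pi : ‖(2 * Real.pi * Complex.I : ℂ)‖ = 2 * Real.pi := by
    rw [norm_mul, Complex.norm_I, mul_one, norm_mul, Complex.norm_real, Real.norm_eq_abs,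
      abs_of_pos Real.pi_pos, Complex.norm_ofNat]
  have hsumle : ∀ (q : Fin n → ℤ) (X : ℝ), (∀ i, |(q i : ℝ)| ≤ X) → 0 ≤ X →
      ‖∑ i, (q i : ℂ) * ζ i‖ ≤ n * X * (C₁ + 4) := by
    intro q X hX hX0
    refine (norm_sum_le _ _).trans ?_
    have h1 : ∀ i ∈ (Finset.univ : Finset (Fin n)), ‖(q i : ℂ) * ζ i‖ ≤ X * (C₁ + 4) := by
      intro i _
      rw [norm_mul, Complex.norm_intCast]
      exact mul_le_mul (hX i) (hζn i) (norm_nonneg _) hX0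
    refine (Finset.sum_le_card_nsmul _ _ _ h1).trans (le_of_eq ?_)
    rw [Finset.card_univ, Fintype.card_fin, nsmul_eq_mul]
    ring
  have hpi3 := Real.pi_gt_three
  have hpi4 := Real.pi_le_four
  have hB₁r : (8 : ℝ) ≤ B₁ := by exact_mod_cast hBpos
  have hnr : (0 : ℝ) < n := by exact_mod_cast hnpos
  have hb₀B : b₀.natAbs ≤ C₄ * B₁ := by
    have h1 : |(b₀ : ℝ)| * (2 * Real.pi) ≤ n * (B₁ : ℝ) * (C₁ + 4) + (C₁ + 4) + 1 := by
      have h2 : ‖(b₀ : ℂ) * (2 * Real.pi * Complex.I)‖ = |(b₀ : ℝ)| * (2 * Real.pi) := by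
        rw [norm_mul, h2pi, Complex.norm_intCast]
      rw [← h2, ← hb₀]
      have h3 := hsumle b B₁ (fun i => by
        have := hbB₁ i
        rw [← Int.cast_abs]
        exact_mod_cast this) (by positivity)
      have h4 := norm_sub_le (ζ₀ + ∑ i, (b i : ℂ) * ζ i) lam
      have h5 := norm_add_le ζ₀ (∑ i, (b i : ℂ) * ζ i)
      linarith
    have h2 : |(b₀ : ℝ)| ≤ C₄ * B₁ := by
      have h3 : |(b₀ : ℝ)| ≤ |(b₀ : ℝ)| * (2 * Real.pi) := by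
        have := abs_nonneg (b₀ : ℝ)
        nlinarith
      have h4 : n * (B₁ : ℝ) * (C₁ + 4) + (C₁ + 4) + 1 ≤ (n + 1) * (C₁ + 5) * B₁ := by
        have h5 : (C₁ : ℝ) + 5 ≤ (C₁ + 5) * B₁ := by nlinarith
        have h6 : n * (B₁ : ℝ) * (C₁ + 4) ≤ n * (B₁ : ℝ) * (C₁ + 5) := by
          apply mul_le_mul_of_nonneg_left _ (by positivity)
          linarith
        have h7 : ((n : ℝ) + 1) * (C₁ + 5) * B₁ = n * (B₁ : ℝ) * (C₁ + 5) + (C₁ + 5) * B₁ := by ring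
        linarith
      have h8 : (C₄ : ℝ) = (n + 1) * (C₁ + 5) := by rw [hC₄]; push_cast; ring
      rw [h8]
      linarith
    have h3 : ((b₀.natAbs : ℕ) : ℝ) ≤ ((C₄ * B₁ : ℕ) : ℝ) := by
      rw [Nat.cast_natAbs, Int.cast_abs]
      push_cast
      exact h2
    exact_mod_cast h3
  -- the bound `B`
  obtain ⟨B, hBB₁, hBb₀, hBC⟩ : ∃ B : ℕ, B₁ ≤ B ∧ b₀.natAbs ≤ B ∧ B ≤ C₄ * B₁ :=
    ⟨max B₁ b₀.natAbs, le_max_left _ _, le_max_right _ _,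
      max_le (Nat.le_mul_of_pos_left _ hC₄1) hb₀B⟩
  have hb' : ∀ i, |(Fin.cons b₀ b : Fin (n + 1) → ℤ) i| ≤ (B : ℤ) := by
    intro i
    refine Fin.cases ?_ (fun j => ?_) i
    · rw [Fin.cons_zero, Int.abs_eq_natAbs]
      exact_mod_cast hBb₀
    · rw [Fin.cons_succ]
      exact (hbB₁ j).trans (by exact_mod_cast hBB₁)
  obtain ⟨J, r, q', ρ', hJ1, hJm, hrJ, hBJr, hbq', hq', hρ', hlast⟩ :=
    dir_int (Fin.cons b₀ b : Fin (n + 1) → ℤ) B m hm2 hb' (by omega)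
  have hmn0 : 0 < m ^ (n + 1) := pow_pos (by omega) _
  have hXr : (2 ^ 20 * L * Hmax * D * k₀) ^ 3 + 2 ^ 22 * L ^ 2 * k₀ * (C₁ + 5) ≤ r := by
    have h1 : 2 * m ^ (n + 1) * ((2 ^ 20 * L * Hmax * D * k₀) ^ 3 +
        2 ^ 22 * L ^ 2 * k₀ * (C₁ + 5)) ≤ 2 * m ^ (n + 1) * r := by
      calc _ ≤ B := by omega
        _ ≤ 2 * J * r := hBJr
        _ ≤ 2 * m ^ (n + 1) * r := Nat.mul_le_mul_right _ (Nat.mul_le_mul_left _ hJm)
    exact Nat.le_of_mul_le_mul_left h1 (by omega)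
  obtain ⟨q, hqdef⟩ : ∃ q : Fin n → ℤ, ∀ i, q i = q' i.succ := ⟨fun i => q' i.succ, fun _ => rfl⟩
  obtain ⟨ρ, hρdef⟩ : ∃ ρ : Fin n → ℤ, ∀ i, ρ i = ρ' i.succ := ⟨fun i => ρ' i.succ, fun _ => rfl⟩
  have hbq : ∀ i, b i = r * q i + ρ i := by
    intro i
    have := hbq' i.succ
    rw [Fin.cons_succ] at this
    rw [this, hqdef, hρdef]
  have hbq0 : b₀ = r * q' 0 + ρ' 0 := by
    have := hbq' 0
    rw [Fin.cons_zero] at this
    exact this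
  have hq : ∀ i, |(q i : ℝ)| ≤ (J : ℝ) + 1 := by
    intro i
    have := hq' i.succ
    rw [hqdef, ← Int.cast_abs]
    exact_mod_cast this
  have hρ : ∀ i, |(ρ i : ℝ)| ≤ 3 * (r : ℝ) / m := by
    intro i
    rw [hρdef]
    exact hρ' i.succ
  set α := ∏ i, γ i ^ q i with hα
  set β := x₀ * ∏ i, γ i ^ ρ i with hβ
  have hα0 : α ≠ 0 := Finset.prod_ne_zero_iff.2 (fun i _ => zpow_ne_zero _ (hγ0 i))
  have hβ0 : β ≠ 0 := mul_ne_zero hx₀0 (Finset.prod_ne_zero_iff.2 (fun i _ => zpow_ne_zero _ (hγ0 i)))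
  clear_value α β
  have hαβ : α ^ r * β = ξ := by
    rw [hξeq, hα, hβ, mul_left_comm]
    congr 1
    rw [← Finset.prod_pow, ← Finset.prod_mul_distrib]
    refine Finset.prod_congr rfl (fun i _ => ?_)
    rw [hbq i, zpow_add₀ (hγ0 i), mul_comm (r : ℤ) (q i), zpow_mul, zpow_natCast]
  obtain ⟨H, hH⟩ : ∃ H, H = 2 * n * J * C₁ := ⟨_, rfl⟩
  have hH1 : 1 ≤ H := by
    rw [hH]
    exact Nat.mul_pos (Nat.mul_pos (Nat.mul_pos (by norm_num) hnpos) hJ1) hC₁1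
  have hHHmax : H ≤ Hmax := by
    rw [hH, hHmax]
    exact Nat.mul_le_mul_right _ (Nat.mul_le_mul_left _ hJm)
  have hL1 : 1 ≤ L := by
    rw [hL]
    exact Nat.mul_pos (Nat.mul_pos (by norm_num) (pow_pos hDpos 2)) hk₀1
  have hr3 : (2 ^ 20 * L * H * D * k₀) ^ 3 ≤ r := by
    have h1 : 2 ^ 20 * L * H * D * k₀ ≤ 2 ^ 20 * L * Hmax * D * k₀ :=
      Nat.mul_le_mul_right k₀ (Nat.mul_le_mul_right D (Nat.mul_le_mul_left (2 ^ 20 * L) hHHmax))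
    have h2 : (2 ^ 20 * L * H * D * k₀) ^ 3 ≤ (2 ^ 20 * L * Hmax * D * k₀) ^ 3 :=
      Nat.pow_le_pow_left h1 3
    omega
  have hJr1 : (1 : ℝ) ≤ J := by exact_mod_cast hJ1
  have hLr : (0 : ℝ) < L := by exact_mod_cast hL1
  have hk0r : (0 : ℝ) < k₀ := by exact_mod_cast hk₀1
  have hLk : (0 : ℝ) < (L : ℝ) ^ 2 * k₀ := by positivity
  have hmr : (0 : ℝ) < m := by exact_mod_cast (by omega : 0 < m)
  have hC₁r : (1 : ℝ) ≤ C₁ := by exact_mod_cast hC₁1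
  have hrr : (2 ^ 22 * ((L : ℝ) ^ 2 * k₀)) * (C₁ + 5) ≤ r := by
    have h1 : 2 ^ 22 * L ^ 2 * k₀ * (C₁ + 5) ≤ r := le_trans (Nat.le_add_left _ _) hXr
    have h2 : ((2 ^ 22 * L ^ 2 * k₀ * (C₁ + 5) : ℕ) : ℝ) ≤ (r : ℝ) := by exact_mod_cast h1
    push_cast at h2
    linarith
  have hrpos : (0 : ℝ) < r := lt_of_lt_of_le (by positivity) hrr
  have hmm : (2 ^ 24 * ((L : ℝ) ^ 2 * k₀)) * (C₁ * ((n + 1) * (C₁ + 11))) ≤ m := by
    have h1 : 2 ^ 24 * L ^ 2 * k₀ * C₁ * (n + 1) * (C₁ + 11) ≤ m := by rw [hm]; omega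
    have h2 : ((2 ^ 24 * L ^ 2 * k₀ * C₁ * (n + 1) * (C₁ + 11) : ℕ) : ℝ) ≤ (m : ℝ) := by
      exact_mod_cast h1
    push_cast at h2
    linarith
  obtain ⟨U, hU⟩ : ∃ U : ℝ, U = (L : ℝ) ^ 2 * k₀ := ⟨_, rfl⟩
  rw [← hU] at hLk hrr hmm
  -- height of alpha
  have hhα : logHeight₁ α ≤ (H : ℝ) := by
    have h1 : logHeight₁ α ≤ n * ((J : ℝ) + 1) * C₁ := by
      rw [hα]
      exact ht_prod_zpow γ q (C₁ : ℝ) ((J : ℝ) + 1) hγh' hq (by positivity)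
    refine h1.trans ?_
    rw [hH]
    push_cast
    have h2 : (n : ℝ) * C₁ * (J + 1) ≤ n * C₁ * (2 * J) := by
      apply mul_le_mul_of_nonneg_left _ (by positivity)
      linarith
    linarith
  -- height of beta
  have hhβ : logHeight₁ β ≤ r / (2 ^ 15 * (L : ℝ) ^ 2 * k₀) := by
    have h1 : logHeight₁ β ≤ C₁ + n * (3 * (r : ℝ) / m) * C₁ := by
      rw [hβ]
      refine (ht_mul _ _).trans ?_
      have h2 : logHeight₁ (∏ i, γ i ^ ρ i) ≤ n * (3 * (r : ℝ) / m) * C₁ :=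
        ht_prod_zpow γ ρ C₁ _ hγh' hρ (by positivity)
      linarith
    have e : 2 ^ 15 * (L : ℝ) ^ 2 * k₀ = 2 ^ 15 * U := by rw [hU]; ring
    rw [e]
    refine h1.trans ?_
    have h3 : (C₁ : ℝ) ≤ r / (2 ^ 16 * U) := by
      rw [le_div_iff₀ (by positivity)]
      have h4 : (C₁ : ℝ) * (2 ^ 16 * U) ≤ (2 ^ 22 * U) * (C₁ + 5) := by
        have : 0 ≤ U * C₁ := by positivity
        nlinarith
      linarith
    have h4 : n * (3 * (r : ℝ) / m) * C₁ ≤ r / (2 ^ 16 * U) := by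
      have e : n * (3 * (r : ℝ) / m) * C₁ = r * (3 * n * C₁) / m := by ring
      rw [e, div_le_div_iff₀ hmr (by positivity)]
      have h5 : (3 * n * C₁) * (2 ^ 16 * U) ≤ (m : ℝ) := by
        refine le_trans ?_ hmm
        have h6 : (n : ℝ) * 1 ≤ (n + 1) * (C₁ + 11) := by
          apply mul_le_mul _ _ (by norm_num) (by positivity)
          · linarith
          · linarith
        have h7 : (3 * n * C₁) * (2 ^ 16 * U) ≤ (2 ^ 24 * U * C₁) * ((n : ℝ) * 1) := by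
          have : 0 ≤ n * U * C₁ := by positivity
          nlinarith
        have h8 : (2 ^ 24 * U * C₁) * ((n : ℝ) * 1) ≤ (2 ^ 24 * U * C₁) * ((n + 1) * (C₁ + 11)) :=
          mul_le_mul_of_nonneg_left h6 (by positivity)
        linarith
      have h7 := mul_le_mul_of_nonneg_left h5 hrpos.le
      linarith [h7]
    have h5 : (r : ℝ) / (2 ^ 15 * U) = r / (2 ^ 16 * U) + r / (2 ^ 16 * U) := by
      field_simp
      ring
    rw [h5]
    linarith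
  -- alpha is not a root of unity
  have hru : ∀ n' : ℕ, 0 < n' → α ^ n' ≠ 1 := by
    intro n' hn' he
    rw [hα] at he
    have hq0 := hind q n' hn' he
    have h1 := hlast i₀.succ
    rw [← hqdef, hq0, Fin.cons_succ, Int.abs_eq_natAbs, hi₀] at h1
    simp only [Pi.zero_apply, abs_zero, mul_zero, zero_add, mul_one] at h1
    have h2 : m * J * B₁ ≤ B := by exact_mod_cast h1
    have h3 : m * B₁ ≤ m * J * B₁ := Nat.mul_le_mul_right _ (Nat.le_mul_of_pos_right _ hJ1)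
    have h4 : C₄ * B₁ < m * B₁ := Nat.mul_lt_mul_of_pos_right hmC₄ (by omega)
    omega
  -- alpha is close to one
  set θ : ℂ := ∑ i, (q i : ℂ) * ζ i - (q' 0 : ℂ) * (2 * Real.pi * Complex.I) with hθ
  have hrθ : (r : ℂ) * θ = lam - ζ₀ - ∑ i, (ρ i : ℂ) * ζ i +
      (ρ' 0 : ℂ) * (2 * Real.pi * Complex.I) := by
    have h1 : ∑ i, (b i : ℂ) * ζ i = (r : ℂ) * ∑ i, (q i : ℂ) * ζ i + ∑ i, (ρ i : ℂ) * ζ i := by
      rw [Finset.mul_sum, ← Finset.sum_add_distrib]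
      refine Finset.sum_congr rfl (fun i _ => ?_)
      rw [hbq i]
      push_cast
      ring
    have h2 : (b₀ : ℂ) = r * (q' 0 : ℂ) + (ρ' 0 : ℂ) := by
      have := congrArg (Int.cast : ℤ → ℂ) hbq0
      push_cast at this
      exact this
    rw [h1, h2] at hb₀
    rw [hθ]
    linear_combination hb₀
  have hρ0 : |(ρ' 0 : ℝ)| ≤ 3 * (r : ℝ) / m := hρ' 0
  have hθn : (r : ℝ) * ‖θ‖ ≤ 1 + (C₁ + 4) + n * (3 * (r : ℝ) / m) * (C₁ + 4) +
      3 * (r : ℝ) / m * 8 := by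
    have h0 : (r : ℝ) * ‖θ‖ = ‖(r : ℂ) * θ‖ := by
      rw [norm_mul, Complex.norm_natCast]
    rw [h0, hrθ]
    have h1 := norm_add_le (lam - ζ₀ - ∑ i, (ρ i : ℂ) * ζ i) ((ρ' 0 : ℂ) * (2 * Real.pi * Complex.I))
    have h2 := norm_sub_le (lam - ζ₀) (∑ i, (ρ i : ℂ) * ζ i)
    have h3 := norm_sub_le lam ζ₀
    have h4 := hsumle ρ (3 * (r : ℝ) / m) hρ (by positivity)
    have h5 : ‖(ρ' 0 : ℂ) * (2 * Real.pi * Complex.I)‖ ≤ 3 * (r : ℝ) / m * 8 := by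
      rw [norm_mul, h2pi, Complex.norm_intCast]
      apply mul_le_mul hρ0 (by linarith) (by positivity) (by positivity)
    linarith
  have hθU : ‖θ‖ ≤ 1 / (2 ^ 20 * U) := by
    have h1 : ‖θ‖ ≤ (C₁ + 5) / r + 3 / m * ((n + 1) * (C₁ + 11)) := by
      have h2 : (r : ℝ) * ‖θ‖ ≤ r * ((C₁ + 5) / r + 3 / m * ((n + 1) * (C₁ + 11))) := by
        refine hθn.trans ?_
        have e1 : (r : ℝ) * ((C₁ + 5) / r + 3 / m * ((n + 1) * (C₁ + 11))) =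
            (C₁ + 5) + 3 * r / m * ((n + 1) * (C₁ + 11)) := by
          field_simp
        rw [e1]
        have h3 : n * (3 * (r : ℝ) / m) * (C₁ + 4) + 3 * (r : ℝ) / m * 8 =
            3 * r / m * (n * (C₁ + 4) + 8) := by ring
        have h4 : 3 * (r : ℝ) / m * (n * (C₁ + 4) + 8) ≤ 3 * r / m * ((n + 1) * (C₁ + 11)) := by
          apply mul_le_mul_of_nonneg_left _ (by positivity)
          have : 0 ≤ (n : ℝ) * C₁ := by positivity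
          nlinarith
        linarith
      exact le_of_mul_le_mul_left h2 hrpos
    have h2 : ((C₁ : ℝ) + 5) / r ≤ 1 / (2 ^ 22 * U) := by
      rw [div_le_div_iff₀ hrpos (by positivity)]
      linarith
    have h3 : 3 / (m : ℝ) * ((n + 1) * (C₁ + 11)) ≤ 1 / (2 ^ 22 * U) := by
      rw [div_mul_eq_mul_div, div_le_div_iff₀ hmr (by positivity)]
      have h4 : (2 ^ 24 * U) * ((n + 1) * ((C₁ : ℝ) + 11)) ≤
          (2 ^ 24 * U) * (C₁ * ((n + 1) * (C₁ + 11))) := by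
        apply mul_le_mul_of_nonneg_left _ (by positivity)
        apply le_mul_of_one_le_left (by positivity) hC₁r
      have h5 : 0 ≤ U * ((n + 1) * ((C₁ : ℝ) + 11)) := by positivity
      linarith
    have h4 : 1 / (2 ^ 20 * U) = 1 / (2 ^ 22 * U) + 1 / (2 ^ 22 * U) + 2 / (2 ^ 22 * U) := by
      field_simp
      ring
    have h5 : 0 ≤ 2 / (2 ^ 22 * U) := by positivity
    linarith
  have hU1 : 1 ≤ U := by
    rw [hU]
    have h1 : 1 ≤ L ^ 2 * k₀ := Nat.mul_pos (pow_pos hL1 2) hk₀1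
    exact_mod_cast h1
  have hθ1 : ‖θ‖ ≤ 1 := by
    refine hθU.trans ?_
    rw [div_le_one (by positivity)]
    linarith
  have hφα : φ α = Complex.exp θ := by
    rw [hθ, Complex.exp_sub, hexpsum, Complex.exp_int_mul_two_pi_mul_I, div_one, hα]
  have hw : w (α - 1) ≤ 1 / (2 ^ 18 * (L : ℝ) ^ 2 * k₀) := by
    have e : 2 ^ 18 * (L : ℝ) ^ 2 * k₀ = 2 ^ 18 * U := by rw [hU]; ring
    rw [e, ← InfinitePlace.norm_embedding_eq, map_sub, map_one, ← hφ, hφα]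
    have h1 := Complex.norm_exp_sub_one_le hθ1
    have h2 : 1 / (2 ^ 18 * U) = 2 * (1 / (2 ^ 20 * U)) + 2 * (1 / (2 ^ 20 * U)) := by
      field_simp
      ring
    have h3 : 0 ≤ 1 / (2 ^ 20 * U) := by positivity
    linarith
  have hcore := core_inf D k₀ H r L hDdef hk₀1 hH1 hL hr3 α β hα0 hβ0 hru hhα hhβ w hw
  rw [hαβ] at hcore
  have hcmp := lt_of_lt_of_le hcore h
  rw [Real.exp_lt_exp] at hcmp
  -- final comparison
  have hC₄r : (0 : ℝ) < C₄ := by exact_mod_cast hC₄1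
  have h1 : (r : ℝ) * H / k₀ = r * J / (4 * k₁ * C₄) := by
    have hC₁' : (0 : ℝ) < C₁ := by linarith
    rw [div_eq_div_iff hk0r.ne' (by positivity)]
    rw [hH, hk₀]
    push_cast
    ring
  have h2 : (r : ℝ) * J ≤ C₄ * B₁ := by exact_mod_cast hrJ.trans hBC
  have h3 : (B₁ : ℝ) ≤ 2 * logHeight₁ ξ + 1 := by
    have := hbb i₀
    rw [← Int.cast_abs, Int.abs_eq_natAbs, hi₀] at this
    exact_mod_cast this
  have h5 : logHeight₁ ξ / k₁ < r * J / (4 * k₁ * C₄) := by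
    rw [← h1]
    linarith
  have h6 : (r : ℝ) * J / (4 * k₁ * C₄) ≤ B₁ / (4 * k₁) := by
    rw [div_le_div_iff₀ (by positivity) (by positivity)]
    have := mul_le_mul_of_nonneg_right h2 (by positivity : (0 : ℝ) ≤ 4 * k₁)
    linarith
  have h7 := lt_of_lt_of_le h5 h6
  rw [div_lt_div_iff₀ hk1pos (by positivity)] at h7
  have h8 : (B₁ : ℝ) ≤ 4 * logHeight₁ ξ := by linarith
  have h9 : (B₁ : ℝ) * k₁ ≤ (4 * logHeight₁ ξ) * k₁ := mul_le_mul_of_nonneg_right h8 hk1pos.le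
  linarith

end Pool.Agent.ESH
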