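import Pool.Agent.ESH.RNA
import Pool.Agent.ESH.RAR

/-!
# ESH / SUN: the effective S-unit theorem

Proof.  `A = siz M S`.  `2 h(x) = ∑_p |log nn p x|` and `∑_p log nn p x = 0`, so `h(x) = ∑_p max(log nn p x, 0)` over at
most `A` places `p` of `InfinitePlace M ⊕ S`; some `p` has `log nn p x ≥ h(x)/A`.  Put `ξ = -y/x`, an S-unit,
`ξ - 1 = -1/x`, `nn p (ξ - 1) = (nn p x)⁻¹ ≤ exp(-h(x)/A)`.  `h(ξ) ≤ h(x) + h(y) ≤ 2 h(x) + D log 2` (`ht_sub_one`).
If `h(x) < D` we are done.  Otherwise `h(ξ) ≤ 3 h(x)`, so `nn p (ξ - 1) ≤ exp(-h(ξ)/(3A))` and RNA or RAR with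
`k₁ = 3 A` gives `h(ξ) ≤ tw 60 (4 A) ≤ tw 62 A`; and `h(x) = h(1/x) = h(1 - ξ) ≤ h(ξ) + D log 2 ≤ tw 70 A`.
-/

namespace Pool.Agent.ESH

open NumberField Height

private lemma sun_nrm {M : Type*} [Field M] [NumberField M] (v : FinitePlace M) : 2 ≤ nrm v := by
  have h1 : Ideal.absNorm v.maximalIdeal.asIdeal ≠ 1 := by
    rw [Ne, Ideal.absNorm_eq_one_iff]
    exact v.maximalIdeal.isPrime.ne_top
  have h0 : Ideal.absNorm v.maximalIdeal.asIdeal ≠ 0 := by
    rw [Ne, Ideal.absNorm_eq_zero_iff]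
    exact v.maximalIdeal.ne_bot
  unfold nrm
  omega

private lemma sun_cardS {M : Type*} [Field M] [NumberField M] (S : Finset (FinitePlace M)) :
    S.card ≤ nrmS S := by
  have h1 : 2 ^ S.card ≤ nrmS S := by
    unfold nrmS
    exact Finset.pow_card_le_prod S _ 2 (fun v _ => sun_nrm v)
  exact (Nat.lt_two_pow_self.le).trans h1

private lemma sun_cardInf (M : Type*) [Field M] [NumberField M] :
    Fintype.card (InfinitePlace M) ≤ Module.finrank ℚ M := by
  rw [← InfinitePlace.sum_mult_eq (K := M), ← Finset.card_univ, Finset.card_eq_sum_ones]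
  exact Finset.sum_le_sum fun w _ => InfinitePlace.mult_pos

private lemma sun_card {M : Type*} [Field M] [NumberField M] (S : Finset (FinitePlace M)) :
    Fintype.card (InfinitePlace M) + S.card + 16 ≤ siz M S := by
  have h1 := sun_cardS S
  have h2 := sun_cardInf M
  unfold siz
  omega

private lemma sun_max (t : ℝ) : max t 0 = (|t| + t) / 2 := by
  rcases le_total 0 t with h | h
  · rw [max_eq_left h, abs_of_nonneg h]; ring
  · rw [max_eq_right h, abs_of_nonpos h]; ring

/-- a place where an S-unit is large -/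
private lemma sun_place {M : Type*} [Field M] [NumberField M] (S : Finset (FinitePlace M)) (x : M)
    (hx : x ≠ 0) (hSx : IsSUnit S x) (hh : 0 < logHeight₁ x) :
    (∃ w : InfinitePlace M, logHeight₁ x / siz M S ≤ (w.mult : ℝ) * Real.log (w x)) ∨
    (∃ v ∈ S, logHeight₁ x / siz M S ≤ Real.log (v x)) := by
  by_contra hcon
  rw [not_or] at hcon
  obtain ⟨h1, h2⟩ := hcon
  have hA : (0 : ℝ) < siz M S := by
    have := sun_card S
    have : 0 < siz M S := by omega
    exact_mod_cast this
  set q : ℝ := logHeight₁ x / siz M S with hq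
  have hq0 : 0 < q := div_pos hh hA
  have h1' : ∀ w : InfinitePlace M, max ((w.mult : ℝ) * Real.log (w x)) 0 ≤ q := fun w =>
    max_le (le_of_lt (lt_of_not_ge fun hc => h1 ⟨w, hc⟩)) hq0.le
  have h2' : ∀ v ∈ S, max (Real.log (v x)) 0 ≤ q := fun v hv =>
    max_le (le_of_lt (lt_of_not_ge fun hc => h2 ⟨v, hv, hc⟩)) hq0.le
  have e1 := prod_formula_sunit S x hx hSx
  have e2 := ht_sunit S x hx hSx
  have e3 : logHeight₁ x = ∑ w : InfinitePlace M, max ((w.mult : ℝ) * Real.log (w x)) 0 +
      ∑ v ∈ S, max (Real.log (v x)) 0 := by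
    have f1 : ∑ w : InfinitePlace M, max ((w.mult : ℝ) * Real.log (w x)) 0 =
        (∑ w : InfinitePlace M, |(w.mult : ℝ) * Real.log (w x)| +
          ∑ w : InfinitePlace M, (w.mult : ℝ) * Real.log (w x)) / 2 := by
      rw [← Finset.sum_add_distrib, Finset.sum_div]
      exact Finset.sum_congr rfl fun w _ => sun_max _
    have f2 : ∑ v ∈ S, max (Real.log (v x)) 0 =
        (∑ v ∈ S, |Real.log (v x)| + ∑ v ∈ S, Real.log (v x)) / 2 := by
      rw [← Finset.sum_add_distrib, Finset.sum_div]
      exact Finset.sum_congr rfl fun v _ => sun_max _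
    rw [f1, f2]
    linarith
  have e4 : ∑ w : InfinitePlace M, max ((w.mult : ℝ) * Real.log (w x)) 0 ≤
      Fintype.card (InfinitePlace M) * q := by
    have := Finset.sum_le_card_nsmul (Finset.univ : Finset (InfinitePlace M))
      (fun w => max ((w.mult : ℝ) * Real.log (w x)) 0) q (fun w _ => h1' w)
    rwa [nsmul_eq_mul, Finset.card_univ] at this
  have e5 : ∑ v ∈ S, max (Real.log (v x)) 0 ≤ S.card * q := by
    have := Finset.sum_le_card_nsmul S (fun v => max (Real.log (v x)) 0) q h2'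
    rwa [nsmul_eq_mul] at this
  have e6 : (Fintype.card (InfinitePlace M) : ℝ) + S.card + 16 ≤ siz M S := by
    exact_mod_cast sun_card S
  have e7 : logHeight₁ x = q * siz M S := by
    rw [hq]; field_simp
  nlinarith

theorem sunit (M : Type*) [Field M] [NumberField M] (S : Finset (FinitePlace M)) (x y : M)
    (hx : x ≠ 0) (hy : y ≠ 0) (hxy : x + y = 1) (hSx : IsSUnit S x) (hSy : IsSUnit S y) :
    logHeight₁ x ≤ tw 70 (siz M S) := by
  have hA16 : 16 ≤ siz M S := by
    have := sun_card S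
    omega
  set A := siz M S with hAdef
  have hDA : (Module.finrank ℚ M : ℝ) ≤ A := by
    have : Module.finrank ℚ M ≤ A := by
      rw [hAdef]
      unfold siz
      omega
    exact_mod_cast this
  have hD1 : (1 : ℝ) ≤ Module.finrank ℚ M := by
    have : 0 < Module.finrank ℚ M := Module.finrank_pos
    exact_mod_cast this
  have hl2 : Real.log 2 < 0.6931471808 := Real.log_two_lt_d9
  have hl2' : 0 < Real.log 2 := Real.log_pos (by norm_num)
  have hDlog : (Module.finrank ℚ M : ℝ) * Real.log 2 ≤ Module.finrank ℚ M := by nlinarith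
  rcases le_or_gt (logHeight₁ x) (Module.finrank ℚ M) with hsmall | hbig
  · refine hsmall.trans (hDA.trans ?_)
    exact_mod_cast le_tw 70 A
  -- the S-unit `ξ`
  have hA0 : (0 : ℝ) < A := by linarith
  set ξ : M := -y / x with hξdef
  have hξ0 : ξ ≠ 0 := div_ne_zero (neg_ne_zero.mpr hy) hx
  have hSξ : IsSUnit S ξ := by
    intro v hv
    rw [hξdef, map_div₀, hSx v hv, div_one]
    have : v (-y) = v y := by
      rw [FinitePlace.coe_apply, FinitePlace.coe_apply]
      exact map_neg_eq_map _ _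
    rw [this, hSy v hv]
  have hξ1 : ξ - 1 = -x⁻¹ := by
    rw [hξdef]
    have : y = 1 - x := by rw [← hxy]; ring
    rw [this]
    field_simp
    ring
  have hy1 : y = 1 - x := by rw [← hxy]; ring
  have hhy : logHeight₁ y ≤ logHeight₁ x + Module.finrank ℚ M * Real.log 2 := by
    rw [hy1]
    exact ht_sub_one x
  have hhξ : logHeight₁ ξ ≤ 3 * logHeight₁ x := by
    have h1 : logHeight₁ ξ ≤ logHeight₁ (-y) + logHeight₁ x⁻¹ := by
      rw [hξdef, div_eq_mul_inv]
      exact ht_mul _ _
    rw [logHeight₁_neg, logHeight₁_inv] at h1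
    linarith
  have hmain : logHeight₁ ξ / ((3 * A : ℕ) : ℝ) ≤ logHeight₁ x / A := by
    push_cast
    rw [div_le_div_iff₀ (by positivity) hA0]
    nlinarith
  have hk1 : 1 ≤ 3 * A := by omega
  have hξbound : logHeight₁ ξ ≤ tw 60 (A + 3 * A) := by
    rcases sun_place S x hx hSx (by linarith) with ⟨w, hw⟩ | ⟨v, hv, hvx⟩
    · apply rar M S w (3 * A) hk1 ξ hξ0 hSξ
      have hwx : 0 < w x := by
        rw [InfinitePlace.pos_iff]
        exact hx
      have e : nInf w (ξ - 1) = Real.exp (-((w.mult : ℝ) * Real.log (w x))) := by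
        unfold nInf
        rw [hξ1]
        have : w (-x⁻¹) = (w x)⁻¹ := by
          rw [InfinitePlace.coe_apply, InfinitePlace.coe_apply]
          rw [map_neg_eq_map, map_inv₀]
        rw [this, Real.exp_neg, Real.exp_nat_mul, Real.exp_log hwx, inv_pow]
      rw [e, Real.exp_le_exp]
      have := hmain.trans hw
      linarith
    · refine (rna M S v hv (3 * A) hk1 ξ hξ0 hSξ ?_).trans ?_
      · have hvx0 : 0 < v x := by
          rw [FinitePlace.pos_iff]
          exact hx
        have e : v (ξ - 1) = Real.exp (-(Real.log (v x))) := by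
          rw [hξ1]
          have : v (-x⁻¹) = (v x)⁻¹ := by
            rw [FinitePlace.coe_apply, FinitePlace.coe_apply]
            rw [map_neg_eq_map, map_inv₀]
          rw [this, Real.exp_neg, Real.exp_log hvx0]
        rw [e, Real.exp_le_exp]
        have := hmain.trans hvx
        linarith
      · exact_mod_cast tw_mono (by norm_num) le_rfl
  have h4A : A + 3 * A ≤ tw 1 A := by
    have h1 : 4 * A ≤ tw (0 + 1) A := tw_mul (c := 0) hA16 (by rw [tw_zero]; omega) (by rw [tw_zero])
    have h2 : A + 3 * A = 4 * A := by ring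
    rw [h2]
    exact h1
  have h61 : tw 60 (A + 3 * A) ≤ tw 61 A := by
    calc tw 60 (A + 3 * A) ≤ tw 60 (tw 1 A) := tw_mono le_rfl h4A
      _ = tw 61 A := tw_comp 60 1 A
  have h62 : tw 61 A + A ≤ tw 62 A := tw_add hA16 le_rfl (le_tw 61 A)
  have h70 : tw 61 A + A ≤ tw 70 A := h62.trans (tw_mono (by norm_num) le_rfl)
  have hxξ : logHeight₁ x ≤ logHeight₁ ξ + Module.finrank ℚ M * Real.log 2 := by
    have h1 : logHeight₁ (1 - ξ) = logHeight₁ x := by
      have : 1 - ξ = x⁻¹ := by
        have := hξ1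
        linear_combination -this
      rw [this, logHeight₁_inv]
    rw [← h1]
    exact ht_sub_one ξ
  have h61' : (tw 60 (A + 3 * A) : ℝ) ≤ tw 61 A := by exact_mod_cast h61
  have h70' : (tw 61 A : ℝ) + A ≤ tw 70 A := by exact_mod_cast h70
  linarith

end Pool.Agent.ESH
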