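import Pool.Agent.ESH.Defs2

/-!
# ESH / TPL: counting places above a finite set

`tpl`: `S` = the finite places of `M` above `T`; `N(w) = N(v)^(f_w)` and `∑_{w|v} f_w ≤ ∑ e_w f_w = n`
(`Ideal.sum_ramification_inertia`), so `∏_{w|v} N(w) ≤ N(v)^n`.
`tpm`: `T'` = `T` and the places above the primes `p ≤ m`; `∏_{v|p} N(v) ≤ p^[K:ℚ]`, `∏_{p ≤ m} p ≤ m!`.
-/

namespace Pool.Agent.ESH

open NumberField IsDedekindDomain

section aux

variable {R S : Type*} [CommRing R] [IsDedekindDomain R] [Module.Free ℤ R] [CommRing S]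
  [IsDedekindDomain S] [Module.Free ℤ S] [Algebra R S] [Module.Finite R S]
  [Module.IsTorsionFree R S]

omit [Module.Free ℤ R] [Module.Free ℤ S] [Module.Finite R S] in
private theorem tpl_finite (p : Ideal R) [p.IsMaximal] (hp0 : p ≠ ⊥) :
    {v : HeightOneSpectrum S | v.asIdeal.LiesOver p}.Finite := by
  classical
  have hinj : Set.InjOn (fun v : HeightOneSpectrum S => v.asIdeal) {v | v.asIdeal.LiesOver p} := by
    intro a _ b _ h
    exact HeightOneSpectrum.ext h
  refine Set.Finite.of_finite_image ?_ hinj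
  refine Set.Finite.subset (IsDedekindDomain.primesOverFinset p S).finite_toSet ?_
  rintro P ⟨v, hv, rfl⟩
  have hv' : v.asIdeal.LiesOver p := hv
  rw [Finset.mem_coe, IsDedekindDomain.mem_primesOverFinset_iff hp0]
  exact ⟨v.isPrime, hv'⟩

private theorem tpl_prod (K L : Type*) [Field K] [Field L] [Algebra R K] [IsFractionRing R K]
    [Algebra S L] [IsFractionRing S L] [Algebra K L] [Algebra R L] [IsScalarTower R S L]
    [IsScalarTower R K L] (p : Ideal R) [p.IsMaximal] (hp0 : p ≠ ⊥)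
    (A : Finset (HeightOneSpectrum S)) (hA : ∀ v ∈ A, v.asIdeal.LiesOver p)
    (hpN : 1 ≤ Ideal.absNorm p) :
    ∏ v ∈ A, Ideal.absNorm v.asIdeal ≤ Ideal.absNorm p ^ Module.finrank K L := by
  classical
  have h1 : ∏ v ∈ A, Ideal.absNorm v.asIdeal
      = Ideal.absNorm p ^ (∑ v ∈ A, p.inertiaDeg' v.asIdeal) := by
    rw [← Finset.prod_pow_eq_pow_sum]
    refine Finset.prod_congr rfl fun v hv => ?_
    have := hA v hv
    exact Ideal.absNorm_eq_pow_inertiaDeg'_of_liesOver v.asIdeal p inferInstance hp0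
  rw [h1, ← Ideal.sum_ramification_inertia S K L hp0]
  refine Nat.pow_le_pow_right hpN ?_
  have h2 : ∑ v ∈ A, p.inertiaDeg' v.asIdeal
      = ∑ P ∈ A.image (fun v => v.asIdeal), p.inertiaDeg' P := by
    rw [Finset.sum_image]
    intro a _ b _ h
    exact HeightOneSpectrum.ext h
  rw [h2]
  have h3 : A.image (fun v => v.asIdeal) ⊆ IsDedekindDomain.primesOverFinset p S := by
    intro P hP
    obtain ⟨v, hv, rfl⟩ := Finset.mem_image.mp hP
    rw [IsDedekindDomain.mem_primesOverFinset_iff hp0]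
    exact ⟨v.isPrime, hA v hv⟩
  refine (Finset.sum_le_sum_of_subset h3).trans ?_
  refine Finset.sum_le_sum fun P hP => ?_
  have hP' := (IsDedekindDomain.mem_primesOverFinset_iff hp0 _).mp hP
  have : P.IsPrime := hP'.1
  have : P.LiesOver p := hP'.2
  exact Nat.le_mul_of_pos_left _
    (Nat.pos_iff_ne_zero.mpr (Ideal.IsDedekindDomain.ramificationIdx'_ne_zero_of_liesOver _ hp0))

end aux

theorem tpl (K M : Type*) [Field K] [NumberField K] [Field M] [NumberField M] [Algebra K M]
    (T : Finset (HeightOneSpectrum (𝓞 K))) :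
    ∃ S : Finset (FinitePlace M),
      (∀ w : FinitePlace M, w ∈ S ↔ ∃ v ∈ T, w.maximalIdeal.asIdeal.LiesOver v.asIdeal) ∧
      nrmS S ≤ (∏ v ∈ T, Ideal.absNorm v.asIdeal) ^ Module.finrank K M := by
  classical
  have hfin : ∀ v : HeightOneSpectrum (𝓞 K),
      {w : FinitePlace M | w.maximalIdeal.asIdeal.LiesOver v.asIdeal}.Finite := by
    intro v
    have := v.isMaximal
    exact Set.Finite.preimage (f := fun w : FinitePlace M => w.maximalIdeal)
      FinitePlace.maximalIdeal_injective.injOn (tpl_finite (S := 𝓞 M) v.asIdeal v.ne_bot)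
  set f : HeightOneSpectrum (𝓞 K) → Finset (FinitePlace M) := fun v => (hfin v).toFinset with hf
  have hmem : ∀ v w, w ∈ f v ↔ w.maximalIdeal.asIdeal.LiesOver v.asIdeal := by
    intro v w
    simp [hf]
  have hdisj : Set.PairwiseDisjoint (T : Set (HeightOneSpectrum (𝓞 K))) f := by
    intro a _ b _ hab
    rw [Function.onFun, Finset.disjoint_left]
    intro w hwa hwb
    rw [hmem] at hwa hwb
    apply hab
    apply HeightOneSpectrum.ext
    rw [hwa.over, hwb.over]
  refine ⟨T.biUnion f, ?_, ?_⟩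
  · intro w
    simp only [Finset.mem_biUnion, hmem]
  · rw [nrmS, Finset.prod_biUnion hdisj, ← Finset.prod_pow]
    refine Finset.prod_le_prod' fun v _ => ?_
    have := v.isMaximal
    have h1 : ∏ w ∈ f v, nrm w
        = ∏ u ∈ (f v).image (fun w => w.maximalIdeal), Ideal.absNorm u.asIdeal := by
      rw [Finset.prod_image]
      · rfl
      · intro a _ b _ h
        exact FinitePlace.maximalIdeal_injective h
    rw [h1]
    refine tpl_prod K M v.asIdeal v.ne_bot _ ?_ ?_
    · intro u hu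
      obtain ⟨w, hw, rfl⟩ := Finset.mem_image.mp hu
      exact (hmem v w).mp hw
    · exact Nat.pos_of_ne_zero (by rw [Ne, Ideal.absNorm_eq_zero_iff]; exact v.ne_bot)

theorem tpm (K : Type*) [Field K] [NumberField K] (T : Finset (HeightOneSpectrum (𝓞 K))) (m : ℕ) :
    ∃ T' : Finset (HeightOneSpectrum (𝓞 K)),
      (∀ v : HeightOneSpectrum (𝓞 K), v ∈ T' ↔
        v ∈ T ∨ ∃ p : ℕ, p.Prime ∧ p ≤ m ∧ ((p : ℕ) : 𝓞 K) ∈ v.asIdeal) ∧
      ∏ v ∈ T', Ideal.absNorm v.asIdeal ≤
        (∏ v ∈ T, Ideal.absNorm v.asIdeal) * (m.factorial) ^ Module.finrank ℚ K := by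
  classical
  have hone : ∀ v : HeightOneSpectrum (𝓞 K), 1 ≤ Ideal.absNorm v.asIdeal := fun v =>
    Nat.pos_of_ne_zero (by rw [Ne, Ideal.absNorm_eq_zero_iff]; exact v.ne_bot)
  have hover : ∀ p : ℕ, p.Prime → ∀ v : HeightOneSpectrum (𝓞 K), ((p : ℕ) : 𝓞 K) ∈ v.asIdeal →
      v.asIdeal.LiesOver (Ideal.span {(p : ℤ)}) := by
    intro p hp v hv
    have hmax : (Ideal.span {(p : ℤ)}).IsMaximal :=
      PrincipalIdealRing.isMaximal_of_irreducible (Nat.prime_iff_prime_int.mp hp).irreducible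
    refine ⟨hmax.eq_of_le ?_ ?_⟩
    · have := v.isPrime
      exact Ideal.IsPrime.ne_top (Ideal.IsPrime.under ℤ v.asIdeal)
    · rw [Ideal.span_singleton_le_iff_mem, Ideal.mem_under]
      simpa using hv
  have hfin : ∀ p : ℕ, p.Prime → {v : HeightOneSpectrum (𝓞 K) | ((p : ℕ) : 𝓞 K) ∈ v.asIdeal}.Finite := by
    intro p hp
    have hmax : (Ideal.span {(p : ℤ)}).IsMaximal :=
      PrincipalIdealRing.isMaximal_of_irreducible (Nat.prime_iff_prime_int.mp hp).irreducible
    refine (tpl_finite (R := ℤ) (S := 𝓞 K) (Ideal.span {(p : ℤ)}) ?_).subset ?_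
    · simpa using hp.ne_zero
    · intro v hv
      exact hover p hp v hv
  set f : ℕ → Finset (HeightOneSpectrum (𝓞 K)) := fun p =>
    if h : p.Prime then (hfin p h).toFinset else ∅ with hf
  have hmem : ∀ p : ℕ, p.Prime → ∀ v, v ∈ f p ↔ ((p : ℕ) : 𝓞 K) ∈ v.asIdeal := by
    intro p hp v
    simp only [hf, hp, dif_pos, Set.Finite.mem_toFinset, Set.mem_ofPred_eq]
  set Q := (Finset.range (m + 1)).filter Nat.Prime with hQ
  refine ⟨T ∪ Q.biUnion f, ?_, ?_⟩
  · intro v
    rw [Finset.mem_union, Finset.mem_biUnion]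
    refine or_congr_right ?_
    constructor
    · rintro ⟨p, hp, hv⟩
      rw [hQ, Finset.mem_filter, Finset.mem_range] at hp
      exact ⟨p, hp.2, by omega, (hmem p hp.2 v).mp hv⟩
    · rintro ⟨p, hp, hpm, hv⟩
      refine ⟨p, ?_, (hmem p hp v).mpr hv⟩
      rw [hQ, Finset.mem_filter, Finset.mem_range]
      exact ⟨by omega, hp⟩
  · have h1 : ∏ v ∈ T ∪ Q.biUnion f, Ideal.absNorm v.asIdeal ≤
        (∏ v ∈ T, Ideal.absNorm v.asIdeal) * ∏ v ∈ Q.biUnion f, Ideal.absNorm v.asIdeal := by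
      rw [← Finset.prod_union_inter]
      refine Nat.le_mul_of_pos_right _ ?_
      exact Finset.prod_pos fun v _ => hone v
    refine h1.trans (Nat.mul_le_mul_left _ ?_)
    have hdisj : Set.PairwiseDisjoint (Q : Set ℕ) f := by
      intro a ha b hb hab
      rw [Function.onFun, Finset.disjoint_left]
      intro w hwa hwb
      have ha' : a.Prime := (Finset.mem_filter.mp ha).2
      have hb' : b.Prime := (Finset.mem_filter.mp hb).2
      rw [hmem a ha'] at hwa
      rw [hmem b hb'] at hwb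
      have h1 := hover a ha' w hwa
      have h2 := hover b hb' w hwb
      have h3 : Ideal.span {(a : ℤ)} = Ideal.span {(b : ℤ)} := by rw [h1.over, h2.over]
      rw [Ideal.span_singleton_eq_span_singleton, Int.associated_iff_natAbs] at h3
      exact hab (by simpa using h3)
    rw [Finset.prod_biUnion hdisj]
    have h2 : ∀ p ∈ Q, ∏ v ∈ f p, Ideal.absNorm v.asIdeal ≤ p ^ Module.finrank ℚ K := by
      intro p hp
      have hp' : p.Prime := (Finset.mem_filter.mp hp).2
      have hmax : (Ideal.span {(p : ℤ)}).IsMaximal :=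
        PrincipalIdealRing.isMaximal_of_irreducible (Nat.prime_iff_prime_int.mp hp').irreducible
      have h3 : Ideal.absNorm (Ideal.span {(p : ℤ)}) = p := by simp
      have h4 := tpl_prod (R := ℤ) (S := 𝓞 K) ℚ K (Ideal.span {(p : ℤ)})
        (by simpa using hp'.ne_zero) (f p) (fun v hv => hover p hp' v ((hmem p hp' v).mp hv))
        (by rw [h3]; exact hp'.one_lt.le)
      rwa [h3] at h4
    refine (Finset.prod_le_prod' h2).trans ?_
    rw [Finset.prod_pow]
    refine Nat.pow_le_pow_left ?_ _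
    have h5 : ∏ i ∈ Finset.Icc 1 m, i = m.factorial := by
      rw [← Finset.prod_range_add_one_eq_factorial, ← Finset.Ico_add_one_right_eq_Icc,
        Finset.prod_Ico_eq_prod_range]
      refine Finset.prod_congr (by simp) fun i _ => by omega
    rw [← h5]
    refine Finset.prod_le_prod_of_subset_of_one_le' ?_ ?_
    · intro p hp
      rw [hQ, Finset.mem_filter, Finset.mem_range] at hp
      rw [Finset.mem_Icc]
      exact ⟨hp.2.one_lt.le, by omega⟩
    · intro i hi _
      exact (Finset.mem_Icc.mp hi).1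

end Pool.Agent.ESH
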