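import Pool.Agent.ESH.Defs2

/-!
# ESH / GIN: Galois invariance of the notions of Defs2

Proof.  `V.comap τ = {z | τ z ∈ V}`.  `τ` fixes `K`, so `VOver` is unchanged; `V.comap τ = ⊤` iff `V = ⊤`; the element
`p` is a unit of `V.comap τ` iff it is one of `V` (`V.valuation x = 1` iff `x ∈ V` and `x⁻¹ ∈ V`, for `x ≠ 0`).
If `σ` is inertial for `V`, then for `τ z ∈ V`: `τ ((τ⁻¹ σ τ) z - z) = σ (τ z) - τ z ∈ V.nonunits`.
-/

namespace Pool.Agent.ESH

open NumberField IsDedekindDomain

variable {K C : Type*} [Field K] [NumberField K] [Field C] [Algebra K C]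

theorem gin_over (V : ValuationSubring C) (v : HeightOneSpectrum (𝓞 K)) (τ : C ≃ₐ[K] C) :
    VOver (V.comap (τ : C →+* C)) v ↔ VOver V v := by
  unfold VOver
  refine forall_congr' fun x => ?_
  rw [ValuationSubring.mem_comap]
  have : (τ : C →+* C) (algebraMap K C x) = algebraMap K C x := τ.commutes x
  rw [this]

private lemma gin_val (V : ValuationSubring C) (x : C) :
    V.valuation x = 1 ↔ x ≠ 0 ∧ x ∈ V ∧ x⁻¹ ∈ V := by
  constructor
  · intro h
    have h0 : x ≠ 0 := by
      rintro rfl
      rw [map_zero] at h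
      exact zero_ne_one h
    refine ⟨h0, V.mem_of_valuation_le_one _ h.le, V.mem_of_valuation_le_one _ ?_⟩
    rw [map_inv₀, h, inv_one]
  · rintro ⟨h0, h1, h2⟩
    have h3 := (V.valuation_le_one_iff x).2 h1
    have h4 := (V.valuation_le_one_iff x⁻¹).2 h2
    refine le_antisymm h3 ?_
    have h5 : V.valuation x * V.valuation x⁻¹ = 1 := by
      rw [← map_mul, mul_inv_cancel₀ h0, map_one]
    calc (1 : V.ValueGroup) = V.valuation x * V.valuation x⁻¹ := h5.symm
      _ ≤ V.valuation x * 1 := mul_le_mul_right h4 _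
      _ = V.valuation x := mul_one _

theorem gin_good (T : Finset (HeightOneSpectrum (𝓞 K))) (m : ℕ) (V : ValuationSubring C)
    (τ : C ≃ₐ[K] C) (h : GoodV T m V) : GoodV T m (V.comap (τ : C →+* C)) := by
  refine ⟨?_, ?_, ?_⟩
  · intro ht
    apply h.ne_top
    rw [_root_.eq_top_iff]
    intro z _
    have : τ.symm z ∈ V.comap (τ : C →+* C) := by
      rw [ht]
      exact ValuationSubring.mem_top _
    rw [ValuationSubring.mem_comap] at this
    have h2 : (τ : C →+* C) (τ.symm z) = z := τ.apply_symm_apply z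
    rwa [h2] at this
  · intro v hv hov
    exact h.not_over v hv ((gin_over V v τ).1 hov)
  · intro p hp hpm
    have h1 := (gin_val V _).1 (h.res_char p hp hpm)
    refine (gin_val _ _).2 ⟨h1.1, ?_, ?_⟩
    · rw [ValuationSubring.mem_comap, map_natCast]
      exact h1.2.1
    · rw [ValuationSubring.mem_comap, map_inv₀, map_natCast]
      exact h1.2.2

theorem gin_inert (V : ValuationSubring C) (σ τ : C ≃ₐ[K] C) (h : Inert V σ) :
    Inert (V.comap (τ : C →+* C)) ((τ.trans σ).trans τ.symm) := by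
  intro z hz
  have h1 : τ z ∈ V := hz
  have h2 := h (τ z) h1
  rw [ValuationSubring.mem_nonunits_iff_or] at h2 ⊢
  have h3 : τ (((τ.trans σ).trans τ.symm) z - z) = σ (τ z) - τ z := by
    rw [map_sub]
    simp
  rcases h2 with h2 | h2
  · left
    rw [← h3] at h2
    exact (map_eq_zero_iff τ τ.injective).1 h2
  · right
    intro h4
    apply h2
    rw [ValuationSubring.mem_comap] at h4
    have h5 : (τ : C →+* C) (((τ.trans σ).trans τ.symm) z - z)⁻¹ = (σ (τ z) - τ z)⁻¹ := by
      rw [← h3]
      exact map_inv₀ τ _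
    rwa [h5] at h4

end Pool.Agent.ESH
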