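import Pool.Agent.ESH.CVU
import Pool.Agent.ESH.GIN

/-!
# ESH / UNR: unramified from the triviality of the action of the inertia groups of `C`

`C` is an algebraic closure of the number field `K`, `M ⊆ C` finite Galois over `K`, `v` a finite place of `K`,
and all elements of all inertia groups `I_V`, `V` over `v`, fix `M`.  Then `M/K` is unramified over `v`.

Proof.  Let `w` be a prime of `𝓞 M` over `v`.  By `dvd_differentIdeal_iff` / `not_dvd_differentIdeal_iff` it is enough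
that `w` is unramified, and by `Ideal.card_inertia_eq_ramificationIdxIn` (residue fields are finite, so perfect) that
the inertia group of `w` in `Gal(M/K)` is trivial.  Let `τ` be in it.  Let `B` be the integral closure of
`𝓞 K` (or `ℤ`) in `C`, with the action of the profinite group `G = Gal(C/K)` (discrete topology on `B`,
`Algebra.IsInvariant (𝓞 K) B G`; Mathlib.RingTheory.Invariant.Profinite).
Choose `V` over `w` by `cvu_exists` (for `M`), so over `v`, and `Q = B ∩ V.nonunits`, a prime of `B` over `w`.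
Lift `τ` to `σ₀ ∈ G`.  `σ₀ Q` lies over `τ w = w`, so by `Algebra.IsInvariant.exists_smul_of_under_eq_of_profinite` for
`Gal(C/M)` there is `ρ ∈ Gal(C/M)` with `ρ σ₀ Q = Q`; replace `σ₀` by `ρ σ₀` (it still restricts to `τ`).  The action of
`σ₀` on `B/Q` is trivial on `𝓞 M/w` since `τ` is inertial, so by
`Ideal.Quotient.stabilizerHom_surjective_of_profinite` for `Gal(C/M)` there is `ρ' ∈ Gal(C/M)` stabilising `Q` with the
same action on `B/Q`; put `σ = ρ'⁻¹ σ₀`: it restricts to `τ`, and `σ b - b ∈ Q` for all `b ∈ B`.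
`Inert V σ`: let `z ∈ V`.  The field `K' = K(z)` is a number field, `V ∩ K'` is the valuation ring of a finite place
of `K'` (`cvu_under` for `K'`; if `V ∩ K' = K'`.. impossible as `V` lies over `v`), so by `cvu_frac`
`z s = a` with `a, s ∈ 𝓞 K' ⊆ B`, `s ∉ Q`; then `σ z - z = ((σ a - a) s - a (σ s - s)) / (s σ s)` is in
`V.nonunits` (`σ s ∉ Q`).  So by hypothesis `σ` is trivial on `M`, `τ = 1`.
-/

namespace Pool.Agent.ESH

open NumberField IsDedekindDomain
open scoped Pointwise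

private theorem UNR_a {K M : Type*} [Field K] [NumberField K] [Field M] [NumberField M] [Algebra K M]
    [IsGalois K M] (w : Ideal (𝓞 M)) [hw : w.IsPrime] (hw0 : w ≠ ⊥)
    (h : ∀ τ : M ≃ₐ[K] M, τ ∈ w.inertia (M ≃ₐ[K] M) → τ = 1) :
    ¬ w ∣ differentIdeal (𝓞 K) (𝓞 M) := by
  have hG : IsGaloisGroup (M ≃ₐ[K] M) (𝓞 K) (𝓞 M) := IsGaloisGroup.of_isFractionRing _ _ _ K M
  rw [not_dvd_differentIdeal_iff]
  have hne : w.under (𝓞 K) ≠ ⊥ := mt Ideal.eq_bot_of_comap_eq_bot hw0
  have hmax : (w.under (𝓞 K)).IsMaximal := Ideal.IsPrime.isMaximal inferInstance hne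
  have hfin : Finite (𝓞 K ⧸ w.under (𝓞 K)) := Ideal.finiteQuotientOfFreeOfNeBot _ hne
  have hfin2 : Finite (w.under (𝓞 K)).ResidueField :=
    Finite.of_surjective _ (Ideal.bijective_algebraMap_quotient_residueField _).2
  have hperf : PerfectField (w.under (𝓞 K)).ResidueField := inferInstance
  have h1 := Ideal.card_inertia_eq_ramificationIdxIn (G := M ≃ₐ[K] M) (w.under (𝓞 K)) w
  have h2 : w.inertia (M ≃ₐ[K] M) = ⊥ := by
    rw [eq_bot_iff]
    intro τ hτ
    exact h τ hτ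
  rw [h2] at h1
  rw [Ideal.ramificationIdxIn_eq_ramificationIdx (w.under (𝓞 K)) w (M ≃ₐ[K] M)] at h1
  rw [Nat.card_unique] at h1
  exact Ideal.ramificationIdx_eq_one_iff.mp h1.symm

private theorem UNR_int {C : Type*} [Field C] (V : ValuationSubring C) (b : C)
    (hb : IsIntegral ℤ b) : b ∈ V := by
  have hint : IsIntegral V b := hb.tower_top
  obtain ⟨y, hy⟩ := IsIntegrallyClosed.isIntegral_iff.1 hint
  rw [← hy]
  exact y.2

/-- the prime of the ring of all algebraic integers defined by `V` -/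
private noncomputable def UNR_Q {C : Type*} [Field C] (V : ValuationSubring C) : Ideal (𝓞 C) where
  carrier := {b | algebraMap (𝓞 C) C b ∈ V.nonunits}
  add_mem' := by
    intro a b ha hb
    simp only [Set.mem_ofPred_eq, ValuationSubring.mem_nonunits_iff, map_add] at *
    exact Valuation.map_add_lt _ ha hb
  zero_mem' := by
    simp only [Set.mem_ofPred_eq, ValuationSubring.mem_nonunits_iff, map_zero]
    exact zero_lt_one
  smul_mem' := by
    intro c a ha
    simp only [Set.mem_ofPred_eq, ValuationSubring.mem_nonunits_iff, smul_eq_mul, map_mul] at *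
    have h1 : V.valuation (algebraMap (𝓞 C) C c) ≤ 1 :=
      (V.valuation_le_one_iff _).2 (UNR_int V _ (RingOfIntegers.isIntegral_coe c))
    exact (mul_le_of_le_one_left' h1).trans_lt ha

private theorem UNR_Q_mem {C : Type*} [Field C] (V : ValuationSubring C) (b : 𝓞 C) :
    b ∈ UNR_Q V ↔ algebraMap (𝓞 C) C b ∈ V.nonunits := Iff.rfl

private theorem UNR_Q_prime {C : Type*} [Field C] (V : ValuationSubring C) :
    (UNR_Q V).IsPrime := by
  constructor
  · intro h
    have : (1 : 𝓞 C) ∈ UNR_Q V := by rw [h]; trivial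
    rw [UNR_Q_mem, map_one, ValuationSubring.mem_nonunits_iff, map_one] at this
    exact lt_irrefl _ this
  · intro a b hab
    rw [UNR_Q_mem, UNR_Q_mem]
    rw [UNR_Q_mem] at hab
    rw [ValuationSubring.mem_nonunits_iff] at *
    rw [ValuationSubring.mem_nonunits_iff]
    rw [map_mul, map_mul] at hab
    by_contra hcon
    push Not at hcon
    have h1 : V.valuation (algebraMap (𝓞 C) C a) = 1 := le_antisymm
      ((V.valuation_le_one_iff _).2 (UNR_int V _ (RingOfIntegers.isIntegral_coe a))) hcon.1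
    have h2 : V.valuation (algebraMap (𝓞 C) C b) = 1 := le_antisymm
      ((V.valuation_le_one_iff _).2 (UNR_int V _ (RingOfIntegers.isIntegral_coe b))) hcon.2
    rw [h1, h2, mul_one] at hab
    exact lt_irrefl _ hab

private theorem UNR_gal {M C : Type*} [Field M] [NumberField M] [Field C] [Algebra M C]
    [Algebra.IsAlgebraic M C] [IsAlgClosed C] : IsGaloisGroup (C ≃ₐ[M] C) (𝓞 M) (𝓞 C) := by
  have : CharZero C := charZero_of_injective_algebraMap (algebraMap M C).injective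
  have : IsAlgClosure M C := ⟨inferInstance, inferInstance⟩
  have hgal : IsGalois M C := inferInstance
  have : Algebra.IsAlgebraic ℚ C := Algebra.IsAlgebraic.trans ℚ M C
  have : Algebra.IsAlgebraic ℤ C :=
    (IsFractionRing.comap_isAlgebraic_iff (A := ℤ) (K := ℚ) (C := C)).2 this
  have : IsFractionRing (𝓞 C) C :=
    integralClosure.isFractionRing_of_algebraic (A := ℤ) (L := C) (fun x hx => by simpa using hx)
  have : Algebra.IsIntegral (𝓞 M) (𝓞 C) := by
    constructor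
    intro x
    have : IsIntegral ℤ x := by
      have := RingOfIntegers.isIntegral x
      exact this
    exact this.tower_top
  exact IsGaloisGroup.of_isFractionRing _ _ _ M C


private theorem UNR_coe_smul {K C : Type*} [Field K] [Field C] [Algebra K C] (σ : C ≃ₐ[K] C)
    (b : 𝓞 C) : algebraMap (𝓞 C) C (σ • b) = σ (algebraMap (𝓞 C) C b) := rfl

private theorem UNR_b {K M C : Type*} [Field K] [NumberField K] [Field M] [NumberField M] [Field C]
    [Algebra K M] [Algebra M C] [Algebra K C] [IsScalarTower K M C] [Algebra.IsAlgebraic K C]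
    [IsAlgClosed C] (w : Ideal (𝓞 M)) [w.IsPrime] (V : ValuationSubring C)
    (hVw : ∀ a : 𝓞 M, a ∈ w ↔ algebraMap M C a ∈ V.nonunits)
    (τ : M ≃ₐ[K] M) (hτ : ∀ a : 𝓞 M, τ • a - a ∈ w) :
    ∃ σ : C ≃ₐ[K] C, (∀ x : M, σ (algebraMap M C x) = algebraMap M C (τ x)) ∧
      ∀ b : C, IsIntegral ℤ b → σ b - b ∈ V.nonunits := by
  have : Algebra.IsAlgebraic M C := Algebra.IsAlgebraic.tower_top (K := K) M
  have hG : IsGaloisGroup (C ≃ₐ[M] C) (𝓞 M) (𝓞 C) := UNR_gal
  have : CharZero C := charZero_of_injective_algebraMap (algebraMap M C).injective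
  have : IsAlgClosure M C := ⟨inferInstance, inferInstance⟩
  have : IsAlgClosure K C := ⟨inferInstance, inferInstance⟩
  have hgal : IsGalois M C := inferInstance
  let _ : TopologicalSpace (𝓞 C) := ⊥
  have : DiscreteTopology (𝓞 C) := ⟨rfl⟩
  have : ContinuousSMul (C ≃ₐ[M] C) (𝓞 C) := by
    rw [continuousSMul_iff_stabilizer_isOpen]
    intro x
    have h1 := stabilizer_isOpen_of_isIntegral (K := M) (L := C) (algebraMap (𝓞 C) C x)
    convert h1 using 1
    ext g
    simp only [SetLike.mem_coe, MulAction.mem_stabilizer_iff]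
    constructor
    · intro hg
      have := congrArg (algebraMap (𝓞 C) C) hg
      exact this
    · intro hg
      exact RingOfIntegers.ext hg
  have hQp : (UNR_Q V).IsPrime := UNR_Q_prime V
  have hal : ∀ a : 𝓞 M, algebraMap (𝓞 C) C (algebraMap (𝓞 M) (𝓞 C) a) = algebraMap M C a :=
    fun a => rfl
  have hQw : w = (UNR_Q V).under (𝓞 M) := by
    ext a
    rw [hVw, Ideal.mem_comap, UNR_Q_mem, hal]
  have hQl : (UNR_Q V).LiesOver w := ⟨hQw⟩
  set σ₀ : C ≃ₐ[K] C := τ.liftNormal C with hσ₀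
  have hσ₀τ : ∀ x : M, σ₀ (algebraMap M C x) = algebraMap M C (τ x) := fun x =>
    τ.liftNormal_commutes C x
  have hinvτ : ∀ a : 𝓞 M, σ₀⁻¹ • (algebraMap (𝓞 M) (𝓞 C) a) =
      algebraMap (𝓞 M) (𝓞 C) (τ⁻¹ • a) := by
    intro a
    rw [inv_smul_eq_iff]
    apply RingOfIntegers.ext
    show algebraMap M C (a : M) = σ₀ (algebraMap M C ((τ⁻¹ • a : 𝓞 M) : M))
    rw [hσ₀τ]
    congr 1
    have : τ • (τ⁻¹ • a) = a := smul_inv_smul τ a
    exact (congrArg (algebraMap (𝓞 M) M) this).symm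
  have hwτ : ∀ a : 𝓞 M, τ⁻¹ • a ∈ w ↔ a ∈ w := by
    intro a
    have h1 := hτ (τ⁻¹ • a)
    rw [smul_inv_smul] at h1
    constructor
    · intro h2
      have := w.add_mem h1 h2
      rwa [sub_add_cancel] at this
    · intro h2
      have := w.sub_mem h2 h1
      rwa [sub_sub_cancel] at this
  have hunder : (σ₀ • UNR_Q V).under (𝓞 M) = (UNR_Q V).under (𝓞 M) := by
    rw [← hQw]
    ext a
    rw [Ideal.mem_comap, Ideal.mem_pointwise_smul_iff_inv_smul_mem, hinvτ, ← Ideal.mem_comap]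
    have : Ideal.comap (algebraMap (𝓞 M) (𝓞 C)) (UNR_Q V) = w := hQw.symm
    rw [this, hwτ]
  obtain ⟨g, hg⟩ := Algebra.IsInvariant.exists_smul_of_under_eq_of_profinite (A := 𝓞 M)
    (G := C ≃ₐ[M] C) (σ₀ • UNR_Q V) (UNR_Q V) hunder
  set σ₁ : C ≃ₐ[K] C := (g.restrictScalars K) * σ₀ with hσ₁
  have hσ₁b : ∀ b : 𝓞 C, σ₁ • b = g • (σ₀ • b) := fun b => rfl
  have hσ₁Q : ∀ b : 𝓞 C, σ₁ • b ∈ UNR_Q V ↔ b ∈ UNR_Q V := by
    intro b
    rw [hσ₁b]
    conv_lhs => rw [hg]
    rw [Ideal.smul_mem_pointwise_smul_iff, Ideal.smul_mem_pointwise_smul_iff]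
  have hσ₁τ : ∀ x : M, σ₁ (algebraMap M C x) = algebraMap M C (τ x) := by
    intro x
    show g (σ₀ (algebraMap M C x)) = _
    rw [hσ₀τ]
    exact g.commutes _
  have hmap : UNR_Q V = (UNR_Q V).map
      ((MulSemiringAction.toRingEquiv (C ≃ₐ[K] C) (𝓞 C) σ₁ : 𝓞 C ≃+* 𝓞 C) : 𝓞 C →+* 𝓞 C) := by
    apply le_antisymm
    · intro b hb
      have h1 : σ₁⁻¹ • b ∈ UNR_Q V := by
        rw [← hσ₁Q, smul_inv_smul]
        exact hb
      have h2 := Ideal.mem_map_of_mem
        ((MulSemiringAction.toRingEquiv (C ≃ₐ[K] C) (𝓞 C) σ₁ : 𝓞 C ≃+* 𝓞 C) : 𝓞 C →+* 𝓞 C) h1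
      have h3 : ((MulSemiringAction.toRingEquiv (C ≃ₐ[K] C) (𝓞 C) σ₁ : 𝓞 C ≃+* 𝓞 C) :
          𝓞 C →+* 𝓞 C) (σ₁⁻¹ • b) = b := smul_inv_smul σ₁ b
      rwa [h3] at h2
    · rw [Ideal.map_le_iff_le_comap]
      intro b hb
      rw [Ideal.mem_comap]
      exact (hσ₁Q b).2 hb
  let e : (𝓞 C ⧸ UNR_Q V) ≃+* (𝓞 C ⧸ UNR_Q V) := Ideal.quotientEquiv (UNR_Q V) (UNR_Q V)
    (MulSemiringAction.toRingEquiv (C ≃ₐ[K] C) (𝓞 C) σ₁) hmap
  have he : ∀ b : 𝓞 C, e (Ideal.Quotient.mk _ b) = Ideal.Quotient.mk _ (σ₁ • b) := fun b => rfl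
  let e' : (𝓞 C ⧸ UNR_Q V) ≃ₐ[𝓞 M ⧸ w] (𝓞 C ⧸ UNR_Q V) := AlgEquiv.ofRingEquiv (f := e) (by
    intro r
    obtain ⟨a, rfl⟩ := Ideal.Quotient.mk_surjective r
    show e (Ideal.Quotient.mk _ (algebraMap (𝓞 M) (𝓞 C) a)) =
      Ideal.Quotient.mk _ (algebraMap (𝓞 M) (𝓞 C) a)
    rw [he, Ideal.Quotient.eq]
    have h1 : σ₁ • (algebraMap (𝓞 M) (𝓞 C) a) - algebraMap (𝓞 M) (𝓞 C) a =
        algebraMap (𝓞 M) (𝓞 C) (τ • a - a) := by
      apply RingOfIntegers.ext
      show σ₁ (algebraMap M C (a : M)) - algebraMap M C (a : M) = algebraMap M C (τ (a : M) - a)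
      rw [hσ₁τ, map_sub]
    rw [h1, ← Ideal.mem_comap]
    have h2 : Ideal.comap (algebraMap (𝓞 M) (𝓞 C)) (UNR_Q V) = w := hQw.symm
    rw [h2]
    exact hτ a)
  obtain ⟨⟨h, hh⟩, hs⟩ := Ideal.Quotient.stabilizerHom_surjective_of_profinite
    (G := C ≃ₐ[M] C) w (UNR_Q V) e'
  have hs' : ∀ b : 𝓞 C, h • b - σ₁ • b ∈ UNR_Q V := by
    intro b
    rw [← Ideal.Quotient.eq]
    have h1 := congrArg (fun f => f (Ideal.Quotient.mk (UNR_Q V) b)) hs
    exact h1
  refine ⟨(h⁻¹.restrictScalars K) * σ₁, ?_, ?_⟩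
  · intro x
    show h⁻¹ (σ₁ (algebraMap M C x)) = _
    rw [hσ₁τ]
    exact h⁻¹.commutes _
  · intro b hb
    obtain ⟨b', rfl⟩ : ∃ b' : 𝓞 C, algebraMap (𝓞 C) C b' = b := ⟨⟨b, hb⟩, rfl⟩
    have h1 := hs' b'
    have h2 : h⁻¹ • (h • b' - σ₁ • b') ∈ UNR_Q V := by
      have h3 : h⁻¹ • UNR_Q V = UNR_Q V := by
        rw [inv_smul_eq_iff]
        exact hh.symm
      rw [← h3]
      exact Ideal.smul_mem_pointwise_smul _ _ _ h1
    rw [smul_sub, inv_smul_smul] at h2
    have h4 := (UNR_Q V).neg_mem h2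
    rw [neg_sub, UNR_Q_mem, map_sub] at h4
    exact h4

private theorem UNR_frac {K C : Type*} [Field K] [NumberField K] [Field C] [Algebra K C]
    [Algebra.IsAlgebraic K C] (V : ValuationSubring C) (hV : V ≠ ⊤) (z : C) (hz : z ∈ V) :
    ∃ a s : C, IsIntegral ℤ a ∧ IsIntegral ℤ s ∧ z * s = a ∧ V.valuation s = 1 := by
  have hint : IsIntegral K z := Algebra.IsIntegral.isIntegral z
  have hfd : FiniteDimensional K (IntermediateField.adjoin K {z}) :=
    IntermediateField.adjoin.finiteDimensional hint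
  have hnf : NumberField (IntermediateField.adjoin K {z}) := NumberField.of_module_finite K _
  obtain ⟨v', hv'⟩ := cvu_under (K := IntermediateField.adjoin K {z}) V hV
  have hz' : v'.valuation (IntermediateField.adjoin K {z})
      (IntermediateField.AdjoinSimple.gen K z) ≤ 1 := by
    rw [← hv']
    exact hz
  obtain ⟨a, s, hs, has⟩ := cvu_frac v' _ hz'
  refine ⟨algebraMap (IntermediateField.adjoin K {z}) C a,
    algebraMap (IntermediateField.adjoin K {z}) C s,
    (RingOfIntegers.isIntegral_coe a).algebraMap, (RingOfIntegers.isIntegral_coe s).algebraMap,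
    ?_, ?_⟩
  · rw [← has, map_mul]
    rfl
  · have h1 := (cvu_prime V v' hv' s).not.1 hs
    rw [ValuationSubring.mem_nonunits_iff, not_lt] at h1
    refine le_antisymm ?_ h1
    rw [ValuationSubring.valuation_le_one_iff]
    exact UNR_int V _ (RingOfIntegers.isIntegral_coe s).algebraMap

private theorem UNR_c {K C : Type*} [Field K] [NumberField K] [Field C] [Algebra K C]
    [Algebra.IsAlgebraic K C] (V : ValuationSubring C) (hV : V ≠ ⊤) (σ : C ≃ₐ[K] C)
    (h : ∀ b : C, IsIntegral ℤ b → σ b - b ∈ V.nonunits) : Inert V σ := by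
  intro z hz
  obtain ⟨a, s, ha, hs, hzs, hs1⟩ := UNR_frac (K := K) V hV z hz
  have ha1 : V.valuation a ≤ 1 := (V.valuation_le_one_iff a).2 (UNR_int V a ha)
  have hda := h a ha
  have hds := h s hs
  rw [ValuationSubring.mem_nonunits_iff] at hda hds ⊢
  have hσs : V.valuation (σ s) = 1 := by
    have h1 : σ s = s + (σ s - s) := by ring
    rw [h1, Valuation.map_add_eq_of_lt_left _ (by rw [hs1]; exact hds), hs1]
  have hs0 : s ≠ 0 := by
    rintro rfl
    rw [map_zero] at hs1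
    exact zero_ne_one hs1
  have hσs0 : σ s ≠ 0 := by
    intro h0
    rw [h0, map_zero] at hσs
    exact zero_ne_one hσs
  have hσ : σ z * σ s = σ a := by rw [← hzs, map_mul]
  have key : (σ z - z) * (s * σ s) = (σ a - a) * s - a * (σ s - s) := by
    rw [← hσ, ← hzs]
    ring
  have h2 : V.valuation (σ z - z) = V.valuation ((σ a - a) * s - a * (σ s - s)) := by
    rw [← key, map_mul, map_mul, hs1, hσs, mul_one, mul_one]
  rw [h2]
  apply Valuation.map_sub_lt
  · rw [map_mul, hs1, mul_one]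
    exact hda
  · rw [map_mul]
    exact (mul_le_of_le_one_left' ha1).trans_lt hds

theorem unr {K C : Type*} [Field K] [NumberField K] [Field C] [Algebra K C] [Algebra.IsAlgebraic K C]
    [IsAlgClosed C] (M : IntermediateField K C) [FiniteDimensional K M] [IsGalois K M] [NumberField M]
    (v : HeightOneSpectrum (𝓞 K))
    (h : ∀ V : ValuationSubring C, VOver V v → ∀ σ : C ≃ₐ[K] C, Inert V σ → ∀ x ∈ M, σ x = x)
    (w : Ideal (𝓞 M)) (hw : w.IsPrime) (hw0 : w ≠ ⊥) (hv : w.LiesOver v.asIdeal) :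
    ¬ w ∣ differentIdeal (𝓞 K) (𝓞 M) := by
  apply UNR_a w hw0
  intro τ hτ
  obtain ⟨V, hVt, hVw⟩ := cvu_exists (K := M) (C := C) (⟨w, hw, hw0⟩ : HeightOneSpectrum (𝓞 M))
  have hVw' : ∀ a : 𝓞 M, a ∈ w ↔ algebraMap M C a ∈ V.nonunits := fun a =>
    cvu_prime V (⟨w, hw, hw0⟩ : HeightOneSpectrum (𝓞 M)) hVw a
  obtain ⟨σ, hσ1, hσ2⟩ := UNR_b w V hVw' τ (fun a => hτ a)
  have hin := UNR_c V hVt σ hσ2
  have hover : VOver V v := by
    obtain ⟨v', hv'⟩ := cvu_under (K := K) V hVt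
    have hvv : v' = v := by
      apply HeightOneSpectrum.ext
      ext a
      rw [cvu_prime V v' hv' a, hv.over, Ideal.mem_comap, hVw']
      rfl
    rwa [← hvv]
  ext x
  have h1 := hσ1 x
  have h2 := h V hover σ hin (algebraMap M C x) x.2
  rw [h2] at h1
  exact congrArg _ ((algebraMap M C).injective h1.symm)

end Pool.Agent.ESH
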