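import Pool.Agent.ESH.TWA
import Pool.Agent.ESH.UNR
import Pool.Agent.ESH.DIS
import Pool.Agent.ESH.TPL
import Pool.Agent.ESH.POL
import Pool.Agent.ESH.CLO
import Pool.Agent.ESH.SUN

/-!
# ESH / HTL: bounded equations for exceptional units with unramified field of definition

Proof.  `s = szK K T + m + D ≥ 16`.  `M` = the Galois closure of `K(x)` (CLO), `n = [M:K] ≤ D!`, a number field.
`T'` from `tpm`.  Let `v ∉ T'`, `V` over `v`: then `GoodV T m V` (`cvu_ne_top`, `cvu_unique`, `cvu_prime`).  Every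
`σ` inertial for `V` fixes all conjugates `τ x` (`τ ∈ Gal(C/K)`, transitive on the roots of `minpoly K x`):
`τ⁻¹ σ τ` is inertial for `V.comap τ`, which is `GoodV` (GIN), so fixes `x` by `hi`.  So `σ` fixes `M` (CLO), and UNR
gives: the primes of `𝓞 M` not above `T'` do not divide the different.  DIS:
`|d_M| ≤ |d_K|^n n^[M:ℚ] (∏_{T'} N v)^n`, `∏_{T'} N v ≤ (∏_T N v) (m!)^[K:ℚ]`.  `tpl` for `T'`: `S`,
`nrmS S ≤ (∏_{T'} N v)^n`.  With TWA: `siz M S ≤ tw 12 s`.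
`x` and `1 - x` are `S`-units of `M`: for a finite place `w ∉ S` of `M` choose `V` over `w` (`cvu_exists` for `M`); it
lies over the place `v` of `K` below `w`, `v ∉ T'`, `GoodV`, so by `hu` `x, x⁻¹, 1-x, (1-x)⁻¹ ∈ V`, i.e. `w x = 1`,
`w (1-x) = 1` (`VOver V w`; `FinitePlace` versus `HeightOneSpectrum.valuation`: `w x ≤ 1 ↔ valuation ≤ 1`).
SUN: `logHeight₁ x ≤ tw 70 (tw 12 s) = tw 82 s`.  POL and TWA (`exp_le_tw`): coefficients `≤ tw 90 s`.
-/

namespace Pool.Agent.ESH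

open NumberField IsDedekindDomain Polynomial

private theorem htl_le_one {M : Type*} [Field M] [NumberField M] (w : FinitePlace M) (y : M) :
    w y ≤ 1 ↔ w.maximalIdeal.valuation M y ≤ 1 := by
  rw [← FinitePlace.norm_embedding_eq w y, FinitePlace.norm_embedding']
  have h1 := HeightOneSpectrum.one_lt_absNorm_nnreal w.maximalIdeal
  rw [← WithZeroMulInt.toNNReal_le_one_iff h1]
  exact NNReal.coe_le_one

/-- a valuation ring over a finite place outside the enlarged set is good -/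
private theorem htl_good {K C : Type*} [Field K] [NumberField K] [Field C] [Algebra K C]
    (T T' : Finset (HeightOneSpectrum (𝓞 K))) (m : ℕ)
    (hT' : ∀ v : HeightOneSpectrum (𝓞 K), v ∈ T' ↔
        v ∈ T ∨ ∃ p : ℕ, p.Prime ∧ p ≤ m ∧ ((p : ℕ) : 𝓞 K) ∈ v.asIdeal)
    (V : ValuationSubring C) (v : HeightOneSpectrum (𝓞 K)) (hv : v ∉ T') (hV : VOver V v) :
    GoodV T m V := by
  refine ⟨cvu_ne_top V v hV, fun v' hv' h' => ?_, fun p hp hpm => ?_⟩
  · rw [cvu_unique V v v' hV h'] at hv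
    exact hv ((hT' v').mpr (Or.inl hv'))
  · have h1 : ((p : ℕ) : 𝓞 K) ∉ v.asIdeal := fun h2 => hv ((hT' v).mpr (Or.inr ⟨p, hp, hpm, h2⟩))
    rw [cvu_prime V v hV] at h1
    have h3 : algebraMap K C ((p : 𝓞 K) : K) = (p : C) := by
      simp
    rw [h3, ValuationSubring.mem_nonunits_iff, not_lt] at h1
    exact le_antisymm ((V.valuation_le_one_iff _).mpr (natCast_mem V p)) h1

private theorem htl_fix {K C : Type*} [Field K] [NumberField K] [Field C] [Algebra K C]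
    [Algebra.IsAlgebraic K C] [IsAlgClosed C] (T : Finset (HeightOneSpectrum (𝓞 K))) (m : ℕ) (x : C)
    (hi : ∀ V : ValuationSubring C, GoodV T m V → ∀ σ : C ≃ₐ[K] C, Inert V σ → σ x = x)
    (V : ValuationSubring C) (hV : GoodV T m V) (σ : C ≃ₐ[K] C) (hσ : Inert V σ) :
    ∀ y ∈ (minpoly K x).rootSet C, σ y = y := by
  intro y hy
  have hnorm : Normal K C :=
    { toIsAlgebraic := inferInstance
      splits' := fun _ => IsAlgClosed.splits _ }
  obtain ⟨τ, hτ⟩ := minpoly.exists_algEquiv_of_root' (K := K) (L := C) (x := y) (y := x)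
    (Algebra.IsAlgebraic.isAlgebraic x) (mem_rootSet.mp hy).2
  have h1 := hi _ (gin_good T m V τ hV) _ (gin_inert V σ τ hσ)
  rw [AlgEquiv.trans_apply, AlgEquiv.trans_apply, hτ, AlgEquiv.symm_apply_eq, hτ] at h1
  exact h1

private theorem htl_below {K M : Type*} [Field K] [NumberField K] [Field M] [NumberField M]
    [Algebra K M] (w : Ideal (𝓞 M)) (hw : w.IsPrime) (hw0 : w ≠ ⊥) :
    ∃ v : HeightOneSpectrum (𝓞 K), w.LiesOver v.asIdeal := by
  refine ⟨⟨w.under (𝓞 K), inferInstance, Ideal.IsIntegral.comap_ne_bot (𝓞 K) hw0⟩, ?_⟩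
  exact ⟨rfl⟩

/-- elements which are units at all good valuation rings are S-units -/
private theorem htl_sunit {K C : Type*} [Field K] [NumberField K] [Field C] [Algebra K C]
    [Algebra.IsAlgebraic K C] (T T' : Finset (HeightOneSpectrum (𝓞 K))) (m : ℕ)
    (hT' : ∀ v : HeightOneSpectrum (𝓞 K), v ∈ T' ↔
        v ∈ T ∨ ∃ p : ℕ, p.Prime ∧ p ≤ m ∧ ((p : ℕ) : 𝓞 K) ∈ v.asIdeal)
    (M : IntermediateField K C) [NumberField M] (S : Finset (FinitePlace M))
    (hS : ∀ w : FinitePlace M, w ∈ S ↔ ∃ v ∈ T', w.maximalIdeal.asIdeal.LiesOver v.asIdeal)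
    (y : M) (hy : ∀ V : ValuationSubring C, GoodV T m V → V.valuation (y : C) = 1) :
    IsSUnit S y := by
  intro w hw
  obtain ⟨V, hVt, hVw⟩ := cvu_exists (K := M) (C := C) w.maximalIdeal
  obtain ⟨v, hv⟩ := cvu_under (K := K) V hVt
  have hover : w.maximalIdeal.asIdeal.LiesOver v.asIdeal := by
    refine ⟨?_⟩
    ext a
    rw [cvu_prime V v hv a, Ideal.mem_comap, cvu_prime V w.maximalIdeal hVw]
    rfl
  have hvT : v ∉ T' := fun h => hw ((hS w).mpr ⟨v, h, hover⟩)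
  have h1 := hy V (htl_good T T' m hT' V v hvT hv)
  have h2 : w y ≤ 1 := by
    rw [htl_le_one, ← hVw y, ← V.valuation_le_one_iff]
    exact h1.le
  have h3 : w y⁻¹ ≤ 1 := by
    rw [htl_le_one, ← hVw y⁻¹, ← V.valuation_le_one_iff, map_inv₀, map_inv₀]
    have h4 : V.valuation ((algebraMap M C) y) = 1 := h1
    rw [h4, inv_one]
  have hy0 : y ≠ 0 := by
    rintro rfl
    rw [ZeroMemClass.coe_zero, map_zero] at h1
    exact zero_ne_one h1
  have h5 : 0 < w y := FinitePlace.pos_iff.mpr hy0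
  rw [map_inv₀] at h3
  refine le_antisymm h2 ?_
  exact (inv_le_one₀ h5).mp h3

private theorem htl_siz (s a d NT m D n nM NT' dM NS : ℕ) (hs : 16 ≤ s) (ha : a ≤ s) (hd : d ≤ s)
    (hNT : NT ≤ s) (hm : m ≤ s) (hD : D ≤ s) (hn : n ≤ D.factorial) (hnM : nM = a * n)
    (hNT' : NT' ≤ NT * m.factorial ^ a) (hdM : dM ≤ d ^ n * (n ^ nM * NT' ^ n))
    (hNS : NS ≤ NT' ^ n) :
    nM ≤ tw 3 s ∧ nM + dM + NS + 16 ≤ tw 12 s := by
  have up : ∀ {c e x : ℕ}, c ≤ e → x ≤ tw c s → x ≤ tw e s := fun h h' =>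
    h'.trans (tw_mono h le_rfl)
  have lt : ∀ {x : ℕ} (c : ℕ), x ≤ s → x ≤ tw c s := fun c h => h.trans (le_tw c s)
  have e1 : n ≤ tw 2 s := hn.trans (tw_fact hs (c := 0) (lt 0 hD))
  have e2 : nM ≤ tw 3 s := by
    rw [hnM]
    exact tw_mul hs (lt 2 ha) e1
  have e3 : m.factorial ≤ tw 2 s := tw_fact hs (c := 0) (lt 0 hm)
  have e4 : m.factorial ^ a ≤ tw 4 s := tw_pow hs e3 (lt 2 ha)
  have e5 : NT' ≤ tw 5 s := hNT'.trans (tw_mul hs (lt 4 hNT) e4)
  have e6 : NT' ^ n ≤ tw 7 s := tw_pow hs e5 (up (by omega) e1)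
  have e7 : n ^ nM ≤ tw 5 s := tw_pow hs (up (by omega) e1) e2
  have e8 : d ^ n ≤ tw 4 s := tw_pow hs (lt 2 hd) e1
  have e9 : n ^ nM * NT' ^ n ≤ tw 8 s := tw_mul hs (up (by omega) e7) e6
  have e10 : dM ≤ tw 9 s := hdM.trans (tw_mul hs (up (by omega) e8) e9)
  have e11 : nM + dM ≤ tw 10 s := tw_add hs (up (by omega) e2) e10
  have e12 : nM + dM + NS ≤ tw 11 s := tw_add hs e11 (up (by omega) (hNS.trans e6))
  exact ⟨e2, tw_add hs e12 (lt 11 hs)⟩

private theorem htl_coef (s nM : ℕ) (h : ℝ) (H : ℝ) (c : ℤ) (hs : 16 ≤ s) (hnM : nM ≤ tw 3 s)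
    (hH : H = Real.exp h) (hh : h ≤ tw 82 s) (hc : |(c : ℝ)| ≤ (2 * H) ^ (3 * nM)) :
    |c| ≤ (tw 90 s : ℤ) := by
  have e1 : H ≤ (tw 84 s : ℝ) := by
    rw [hH]
    exact exp_le_tw hs hh
  have hH0 : 0 ≤ H := by
    rw [hH]
    exact (Real.exp_pos _).le
  have e2 : 2 * tw 84 s ≤ tw 85 s := tw_mul hs ((by omega : 2 ≤ s).trans (le_tw 84 s)) le_rfl
  have e3 : 3 * nM ≤ tw 4 s := tw_mul hs ((by omega : 3 ≤ s).trans (le_tw 3 s)) hnM
  have e4 : (2 * tw 84 s) ^ (3 * nM) ≤ tw 87 s :=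
    tw_pow hs e2 (e3.trans (tw_mono (by omega) le_rfl))
  have e5 : (2 * tw 84 s) ^ (3 * nM) ≤ tw 90 s := e4.trans (tw_mono (by omega) le_rfl)
  have e6 : |(c : ℝ)| ≤ (((2 * tw 84 s) ^ (3 * nM) : ℕ) : ℝ) := by
    refine hc.trans ?_
    push_cast
    exact pow_le_pow_left₀ (by positivity) (by linarith) _
  have e7 : ((|c| : ℤ) : ℝ) ≤ ((tw 90 s : ℤ) : ℝ) := by
    rw [Int.cast_abs]
    refine e6.trans ?_
    exact_mod_cast e5
  exact_mod_cast e7

theorem htl {K C : Type*} [Field K] [NumberField K] [Field C] [Algebra K C] [Algebra.IsAlgebraic K C]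
    [IsAlgClosed C] (T : Finset (HeightOneSpectrum (𝓞 K))) (m D : ℕ) (x : C) (hx0 : x ≠ 0) (hx1 : x ≠ 1)
    (hD : (minpoly K x).natDegree ≤ D)
    (hu : ∀ V : ValuationSubring C, GoodV T m V → V.valuation x = 1 ∧ V.valuation (1 - x) = 1)
    (hi : ∀ V : ValuationSubring C, GoodV T m V → ∀ σ : C ≃ₐ[K] C, Inert V σ → σ x = x) :
    ∃ P : ℤ[X], P ≠ 0 ∧ P.natDegree ≤ tw 5 (szK K T + m + D) ∧ aeval x P = 0 ∧
      ∀ i, |P.coeff i| ≤ (tw 90 (szK K T + m + D) : ℤ) := by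
  classical
  obtain ⟨M, hxM, hfd, hgal, hdegM, hfixM⟩ := clo (K := K) x
  have hNM : NumberField M := NumberField.of_module_finite K M
  obtain ⟨T', hT', hNT'⟩ := tpm K T m
  obtain ⟨S, hS, hNS⟩ := tpl K M T'
  have hdis := dis K M T' (fun w hw hw0 hwT => by
    obtain ⟨v, hv⟩ := htl_below (K := K) w hw hw0
    have hvT : v ∉ T' := fun h => hwT v h hv
    refine unr M v (fun V hV σ hσ y hy => ?_) w hw hw0 hv
    exact hfixM σ (htl_fix T m x hi V (htl_good T T' m hT' V v hvT hV) σ hσ) y hy)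
  set s : ℕ := szK K T + m + D with hs
  have hs' : s = Module.finrank ℚ K + (discr K).natAbs + ∏ v ∈ T, Ideal.absNorm v.asIdeal + 16 +
      m + D := rfl
  have hs16 : 16 ≤ s := by omega
  obtain ⟨hnM, hsiz⟩ := htl_siz s (Module.finrank ℚ K) (discr K).natAbs
    (∏ v ∈ T, Ideal.absNorm v.asIdeal) m D (Module.finrank K M) (Module.finrank ℚ M)
    (∏ v ∈ T', Ideal.absNorm v.asIdeal) (discr M).natAbs (nrmS S) hs16 (by omega) (by omega)
    (by omega) (by omega) (by omega) (hdegM.trans (Nat.factorial_le hD))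
    (Module.finrank_mul_finrank ℚ K M).symm hNT' hdis hNS
  set x' : M := ⟨x, hxM⟩ with hx'
  have hx'0 : x' ≠ 0 := fun h => hx0 (congrArg Subtype.val h)
  have hx'1 : 1 - x' ≠ 0 := fun h => by
    rw [sub_eq_zero] at h
    exact hx1 (congrArg Subtype.val h).symm
  have h1 : IsSUnit S x' := htl_sunit T T' m hT' M S hS x' (fun V hV => (hu V hV).1)
  have h2 : IsSUnit S (1 - x') := htl_sunit T T' m hT' M S hS (1 - x') (fun V hV => (hu V hV).2)
  have h3 := sunit M S x' (1 - x') hx'0 hx'1 (by ring) h1 h2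
  have h4 : Height.logHeight₁ x' ≤ (tw 82 s : ℝ) := by
    refine h3.trans ?_
    have h5 : tw 70 (siz M S) ≤ tw 82 s := by
      have h6 : tw 70 (siz M S) ≤ tw 70 (tw 12 s) := tw_mono le_rfl hsiz
      rwa [tw_comp] at h6
    exact_mod_cast h5
  obtain ⟨P, hP0, hPd, hPx, hPc⟩ := pol M x'
  refine ⟨P, hP0, hPd.trans (hnM.trans (tw_mono (by omega) le_rfl)), ?_, fun i => ?_⟩
  · have h5 := congrArg (algebraMap M C) hPx
    rw [← aeval_algebraMap_apply, map_zero] at h5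
    exact h5
  · refine htl_coef s (Module.finrank ℚ M) (Height.logHeight₁ x') (Height.mulHeight₁ x') _ hs16 hnM
      ?_ h4 (hPc i)
    rw [Height.logHeight₁_eq_log_mulHeight₁, Real.exp_log (Height.mulHeight₁_pos _)]

end Pool.Agent.ESH
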