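import Mathlib

/-!
# ESH / PRB: product of integral polynomials with bounds

`Q = X (X - 1) ∏_{i ∈ S} P i`; the sum of the absolute values of the coefficients is submultiplicative, it is
`2` for `X (X - 1)` and at most `(d + 1) A` for `P i`.
-/

namespace Pool.Agent.ESH

open Polynomial

private theorem prb_mul (p q : ℤ[X]) (a b : ℤ)
    (hp : ∀ N : ℕ, ∑ i ∈ Finset.range N, |p.coeff i| ≤ a)
    (hq : ∀ N : ℕ, ∑ i ∈ Finset.range N, |q.coeff i| ≤ b) (N : ℕ) :
    ∑ i ∈ Finset.range N, |(p * q).coeff i| ≤ a * b := by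
  have h1 : ∑ i ∈ Finset.range N, |(p * q).coeff i| ≤
      ∑ i ∈ Finset.range N, ∑ x ∈ Finset.HasAntidiagonal.antidiagonal i, |p.coeff x.1| * |q.coeff x.2| := by
    refine Finset.sum_le_sum (fun i _ => ?_)
    rw [coeff_mul]
    refine (Finset.abs_sum_le_sum_abs _ _).trans (le_of_eq ?_)
    exact Finset.sum_congr rfl (fun x _ => abs_mul _ _)
  have h2 : ∑ i ∈ Finset.range N, ∑ x ∈ Finset.HasAntidiagonal.antidiagonal i, |p.coeff x.1| * |q.coeff x.2| =
      ∑ x ∈ (Finset.range N).biUnion Finset.HasAntidiagonal.antidiagonal, |p.coeff x.1| * |q.coeff x.2| := by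
    rw [Finset.sum_biUnion]
    intro i _ j _ hij
    rw [Function.onFun, Finset.disjoint_left]
    intro x hx hx'
    rw [Finset.HasAntidiagonal.mem_antidiagonal] at hx hx'
    exact hij (hx.symm.trans hx')
  have h3 : ∑ x ∈ (Finset.range N).biUnion Finset.HasAntidiagonal.antidiagonal, |p.coeff x.1| * |q.coeff x.2| ≤
      ∑ x ∈ Finset.range N ×ˢ Finset.range N, |p.coeff x.1| * |q.coeff x.2| := by
    refine Finset.sum_le_sum_of_subset_of_nonneg ?_ (fun x _ _ => by positivity)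
    intro x hx
    rw [Finset.mem_biUnion] at hx
    obtain ⟨i, hi, hx⟩ := hx
    rw [Finset.mem_range] at hi
    rw [Finset.HasAntidiagonal.mem_antidiagonal] at hx
    rw [Finset.mem_product, Finset.mem_range, Finset.mem_range]
    omega
  have h4 : ∑ x ∈ Finset.range N ×ˢ Finset.range N, |p.coeff x.1| * |q.coeff x.2| =
      (∑ i ∈ Finset.range N, |p.coeff i|) * ∑ i ∈ Finset.range N, |q.coeff i| := by
    rw [Finset.sum_product, Finset.sum_mul_sum]
  have h5 : (∑ i ∈ Finset.range N, |p.coeff i|) * ∑ i ∈ Finset.range N, |q.coeff i| ≤ a * b := by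
    have ha : 0 ≤ ∑ i ∈ Finset.range N, |p.coeff i| := Finset.sum_nonneg (fun i _ => abs_nonneg _)
    have hb : 0 ≤ ∑ i ∈ Finset.range N, |q.coeff i| := Finset.sum_nonneg (fun i _ => abs_nonneg _)
    exact mul_le_mul (hp N) (hq N) hb (ha.trans (hp N))
  rw [h2] at h1
  rw [h4] at h3
  exact h1.trans (h3.trans h5)

private theorem prb_one (p : ℤ[X]) (d A : ℕ) (hd : p.natDegree ≤ d)
    (hA : ∀ j, |p.coeff j| ≤ (A : ℤ)) (N : ℕ) :
    ∑ i ∈ Finset.range N, |p.coeff i| ≤ (((d + 1) * A : ℕ) : ℤ) := by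
  have h1 : ∑ i ∈ Finset.range N, |p.coeff i| ≤ ∑ i ∈ Finset.range (N + (d + 1)), |p.coeff i| :=
    Finset.sum_le_sum_of_subset_of_nonneg (Finset.range_mono (by omega))
      (fun i _ _ => abs_nonneg _)
  have h2 : ∑ i ∈ Finset.range (d + 1), |p.coeff i| =
      ∑ i ∈ Finset.range (N + (d + 1)), |p.coeff i| := by
    refine Finset.sum_subset (Finset.range_mono (by omega)) (fun i _ hi => ?_)
    rw [Finset.mem_range, not_lt] at hi
    rw [coeff_eq_zero_of_natDegree_lt (by omega), abs_zero]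
  have h3 : ∑ i ∈ Finset.range (d + 1), |p.coeff i| ≤ (Finset.range (d + 1)).card • (A : ℤ) :=
    Finset.sum_le_card_nsmul _ _ _ (fun i _ => hA i)
  rw [Finset.card_range, nsmul_eq_mul] at h3
  push_cast at h3 ⊢
  rw [← h2] at h1
  exact h1.trans h3

private theorem prb_base (N : ℕ) :
    ∑ i ∈ Finset.range N, |((X * (X - 1) : ℤ[X])).coeff i| ≤ 2 := by
  have h0 : (X * (X - 1) : ℤ[X]) = X ^ 2 - X := by ring
  have h1 : ∀ i, |((X * (X - 1) : ℤ[X])).coeff i| ≤
      (if i = 2 then (1 : ℤ) else 0) + (if i = 1 then 1 else 0) := by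
    intro i
    rw [h0, coeff_sub, coeff_X_pow, coeff_X]
    split_ifs <;> first | omega | simp
  refine (Finset.sum_le_sum (fun i _ => h1 i)).trans ?_
  rw [Finset.sum_add_distrib, Finset.sum_ite_eq', Finset.sum_ite_eq']
  split_ifs <;> norm_num

theorem prb {ι : Type*} (S : Finset ι) (P : ι → ℤ[X]) (d A : ℕ) (hP : ∀ i ∈ S, P i ≠ 0)
    (hd : ∀ i ∈ S, (P i).natDegree ≤ d) (hA : ∀ i ∈ S, ∀ j, |(P i).coeff j| ≤ (A : ℤ)) :
    ∃ Q : ℤ[X], Q ≠ 0 ∧ Q.natDegree ≤ S.card * d + 2 ∧
      (∀ j, |Q.coeff j| ≤ ((2 * ((d + 1) * A) ^ S.card : ℕ) : ℤ)) ∧ (∀ i ∈ S, P i ∣ Q) ∧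
      X * (X - 1) ∣ Q := by
  classical
  have key : ∀ T : Finset ι, T ⊆ S → ∃ Q : ℤ[X], Q ≠ 0 ∧ Q.natDegree ≤ T.card * d + 2 ∧
      (∀ N : ℕ, ∑ j ∈ Finset.range N, |Q.coeff j| ≤ ((2 * ((d + 1) * A) ^ T.card : ℕ) : ℤ)) ∧
      (∀ i ∈ T, P i ∣ Q) ∧ X * (X - 1) ∣ Q := by
    intro T
    induction T using Finset.induction_on with
    | empty =>
      intro _
      refine ⟨X * (X - 1), ?_, ?_, ?_, ?_, dvd_rfl⟩
      · refine mul_ne_zero X_ne_zero ?_
        have h := X_sub_C_ne_zero (1 : ℤ)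
        rwa [C_1] at h
      · refine natDegree_mul_le.trans ?_
        have h := natDegree_X_sub_C (1 : ℤ)
        rw [C_1] at h
        rw [h, natDegree_X]
        omega
      · intro N
        rw [Finset.card_empty, pow_zero, mul_one]
        exact prb_base N
      · intro i hi
        exact absurd hi (Finset.notMem_empty i)
    | insert i T hi ih =>
      intro hT
      have hiS : i ∈ S := hT (Finset.mem_insert_self i T)
      obtain ⟨Q, h1, h2, h3, h4, h5⟩ := ih (fun x hx => hT (Finset.mem_insert_of_mem hx))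
      refine ⟨P i * Q, mul_ne_zero (hP i hiS) h1, ?_, ?_, ?_, h5.mul_left _⟩
      · refine natDegree_mul_le.trans ?_
        have := hd i hiS
        rw [Finset.card_insert_of_notMem hi, add_mul, one_mul]
        omega
      · intro N
        refine (prb_mul (P i) Q _ _ (prb_one (P i) d A (hd i hiS) (hA i hiS)) h3 N).trans ?_
        rw [Finset.card_insert_of_notMem hi]
        push_cast
        apply le_of_eq
        ring
      · intro j hj
        rcases Finset.mem_insert.1 hj with rfl | hj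
        · exact dvd_mul_right _ _
        · exact (h4 j hj).mul_left _
  obtain ⟨Q, h1, h2, h3, h4, h5⟩ := key S (Finset.Subset.refl S)
  refine ⟨Q, h1, h2, fun j => ?_, h4, h5⟩
  refine le_trans ?_ (h3 (j + 1))
  exact Finset.single_le_sum (f := fun i => |Q.coeff i|) (fun i _ => abs_nonneg _)
    (Finset.mem_range.2 (Nat.lt_succ_self j))

end Pool.Agent.ESH
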