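import Pool.Agent.ESH.CVU
import Pool.Agent.ESH.DefsG

/-!
# ESH / RKO: non-trivial valuation rings of an algebraic closure of a number field have rank one

Proof.  Let `c ∈ V.nonunits`, `c ≠ 0`, `x ∈ C`.  `K' = K(c, x)` is a number field and `V ∩ K'` is the valuation ring of a finite
place `w` of `K'` (`cvu_under` for the number field `K'`), `w c < 1`, so `w (c^n x) ≤ 1` for large `n`.
`rko_card`: a natural number `n` with `1 ≤ n ≤ m` is a product of primes `≤ m`, which are units of `V`.
-/

namespace Pool.Agent.ESH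

open NumberField IsDedekindDomain

theorem rko {K C : Type*} [Field K] [NumberField K] [Field C] [Algebra K C] [Algebra.IsAlgebraic K C]
    (V : ValuationSubring C) (hV : V ≠ ⊤) : Rk1 V := by
  refine ⟨hV, fun x c hc hc0 => ?_⟩
  let M := IntermediateField.adjoin K {c, x}
  have hfd : FiniteDimensional K M := by
    apply IntermediateField.finiteDimensional_adjoin
    intro y _
    exact (Algebra.IsAlgebraic.isAlgebraic y).isIntegral
  have hNM : NumberField M := NumberField.of_module_finite K M
  have hMC : Algebra.IsAlgebraic M C := Algebra.IsAlgebraic.tower_top (K := K) M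
  obtain ⟨w, hw⟩ := cvu_under (K := M) V hV
  have hcM : c ∈ M := IntermediateField.subset_adjoin K _ (by simp)
  have hxM : x ∈ M := IntermediateField.subset_adjoin K _ (by simp)
  let c' : M := ⟨c, hcM⟩
  let x' : M := ⟨x, hxM⟩
  have hc'0 : c' ≠ 0 := fun h => hc0 (congrArg Subtype.val h)
  have hc'v : w.valuation M c' ≠ 0 := (Valuation.ne_zero_iff _).mpr hc'0
  have h1 : w.valuation M c' < 1 := by
    by_contra h
    have h2 : w.valuation M c'⁻¹ ≤ 1 := by
      rw [map_inv₀]
      exact inv_le_one_of_one_le₀ (not_lt.mp h)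
    have h3 : c⁻¹ ∈ V := (hw c'⁻¹).mpr h2
    rw [ValuationSubring.mem_nonunits_iff] at hc
    have h4 : V.valuation c⁻¹ ≤ 1 := (V.valuation_le_one_iff _).mpr h3
    rw [map_inv₀] at h4
    have h5 : V.valuation c ≠ 0 := (Valuation.ne_zero_iff _).mpr hc0
    exact absurd ((inv_le_one₀ (zero_lt_iff.mpr h5)).mp h4) (not_le.mpr hc)
  have h2 : 1 < (w.valuation M c')⁻¹ := (one_lt_inv₀ (zero_lt_iff.mpr hc'v)).mpr h1
  obtain ⟨n, hn⟩ := MulArchimedean.arch (w.valuation M x') h2
  refine ⟨n, ?_⟩
  have h3 : w.valuation M (c' ^ n * x') ≤ 1 := by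
    rw [map_mul, map_pow]
    calc w.valuation M c' ^ n * w.valuation M x' ≤ w.valuation M c' ^ n * (w.valuation M c')⁻¹ ^ n :=
          mul_le_mul_right hn _
      _ = 1 := by rw [← mul_pow, mul_inv_cancel₀ hc'v, one_pow]
  exact (hw (c' ^ n * x')).mpr h3

theorem rko_card {K C : Type*} [Field K] [NumberField K] [Field C] [Algebra K C]
    (T : Finset (HeightOneSpectrum (𝓞 K))) (m : ℕ) (V : ValuationSubring C) (h : GoodV T m V) (n : ℕ)
    (hn : 1 ≤ n) (hnm : n ≤ m) : V.valuation (n : C) = 1 := by
  induction n using Nat.strong_induction_on with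
  | _ n ih =>
    rcases Nat.eq_or_lt_of_le hn with h1 | h1
    · rw [← h1]
      simp
    · have hp : n.minFac.Prime := Nat.minFac_prime (by omega)
      obtain ⟨k, hk⟩ := Nat.minFac_dvd n
      have hk0 : k ≠ 0 := by
        rintro rfl
        omega
      have hkn : k < n := by
        rw [hk]
        have := hp.two_le
        nlinarith [Nat.pos_of_ne_zero hk0]
      have h2 := ih k hkn (Nat.pos_of_ne_zero hk0) (by omega)
      have h3 := h.res_char n.minFac hp ((Nat.minFac_le (by omega)).trans hnm)
      rw [hk, Nat.cast_mul, map_mul, h2, h3, mul_one]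

/-- an inertial automorphism preserves `V` -/
theorem rko_inert {K C : Type*} [Field K] [NumberField K] [Field C] [Algebra K C]
    [Algebra.IsAlgebraic K C] (V : ValuationSubring C) (s : C ≃ₐ[K] C) (h : Inert V s) (c : C) :
    s c ∈ V ↔ c ∈ V := by
  have key : ∀ z ∈ V, s z ∈ V := by
    intro z hz
    have h1 : s z - z ∈ V := ValuationSubring.nonunits_subset (h z hz)
    have h2 := V.add_mem _ _ h1 hz
    rwa [sub_add_cancel] at h2
  refine ⟨fun hs => ?_, key c⟩
  by_contra hc
  rw [← V.valuation_le_one_iff, not_le] at hc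
  have hcV : c⁻¹ ∈ V := by
    rw [← V.valuation_le_one_iff, map_inv₀]
    exact inv_le_one_of_one_le₀ hc.le
  have h1 := h _ hcV
  rw [ValuationSubring.mem_nonunits_iff] at h1
  have h2 : V.valuation c⁻¹ < 1 := by
    rw [map_inv₀]
    exact inv_lt_one_of_one_lt₀ hc
  have h3 : V.valuation (s c⁻¹) < 1 := by
    have h4 := V.valuation.map_add_lt h1 h2
    rwa [sub_add_cancel] at h4
  have h5 : V.valuation (s c) ≤ 1 := (V.valuation_le_one_iff _).mpr hs
  have hs0 : s c ≠ 0 := by
    intro h0
    rw [map_inv₀, h0, inv_zero, map_zero] at h3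
    have hc0 : c = 0 := by
      rw [← map_zero s] at h0
      exact s.injective h0
    rw [hc0, map_zero] at hc
    exact absurd hc (not_lt.mpr zero_le_one)
  rw [map_inv₀, map_inv₀] at h3
  have h6 : V.valuation (s c) ≠ 0 := (Valuation.ne_zero_iff _).mpr hs0
  exact absurd h5 (not_le.mpr ((inv_lt_one₀ (zero_lt_iff.mpr h6)).mp h3))

end Pool.Agent.ESH
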