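import Pool.Agent.ESH.BLP
import Pool.Agent.ESH.PRB
import Pool.Agent.ESH.HTL
import Pool.Agent.ESH.RKO
import Pool.Agent.ESH.ALO
import Pool.Agent.ESH.CJC

/-!
# ESH / GMA: effective Belyi functions for Galois covers of the line with good models

Proof.  `N = card G ≤ card Γ ≤ m` (`bra_deg`).  If `x` has at most two finite branch points: `mob_few`, and `β = x'`
(`IsBelyi`: a finite branch point is `0` or `1`), degree `N ≤ m ≤ tw ..`.
Otherwise choose three of them and `mob_norm`: replace `x` by `x'` with branch points `0, 1, ∞` and at most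
`B.card + 1` finite branch points (`B'`).  For every finite branch point `l ≠ 0, 1` of `x'`: for `V` with `GoodV T m V`: `Rk1 V`
(`rko`), `V.valuation (card Γ) = 1` (`rko_card`), the model of `hmod`, ALO gives `V.valuation l = V.valuation (1-l) = 1` and
`ain` gives `s l = l` for `Inert V s` (with `σ = lift s`).  CJC: the degree of `l` over `K` is at most
`D = 2^m ((B.card + 2) m)^4`.  HTL: `P_l`, of degree `≤ tw 5 (szK K T + m + D)` and coefficients `≤ tw 90 (szK K T + m + D)`;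
with `s = szK K T + m + B.card`, `szK K T + m + D ≤ tw 7 s`.  PRB for the finite set of these `l`: `Q`; BLP.  TWA:
the degree is `≤ tw 130 s`.
-/

namespace Pool.Agent.ESH

open Pool.Agent.Helper11 NumberField IsDedekindDomain IntermediateField

private theorem gma_tw (s z m b D d A L N g : ℕ) (hs : 16 ≤ s) (hz : z ≤ s) (hm : m ≤ s)
    (hb : b ≤ s) (hzm : z + m ≤ s) (hD : D = 2 ^ m * ((b + 2) * m) ^ 4)
    (hd : d = tw 5 (z + m + D)) (hA : A = tw 90 (z + m + D)) (hL : L ≤ b + 1)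
    (hN : N = g * tw 20 ((L * d + 2) + 2 * ((d + 1) * A) ^ L + 16)) (hg : g ≤ m) :
    N ≤ tw 130 s := by
  have up : ∀ {c e x : ℕ}, c ≤ e → x ≤ tw c s → x ≤ tw e s := fun h h' =>
    h'.trans (tw_mono h le_rfl)
  have lt : ∀ {x : ℕ} (c : ℕ), x ≤ s → x ≤ tw c s := fun c h => h.trans (le_tw c s)
  have e1 : b + 2 ≤ tw 1 s := tw_add hs (c := 0) (lt 0 hb) (lt 0 (by omega))
  have e2 : (b + 2) * m ≤ tw 2 s := tw_mul hs e1 (lt 1 hm)
  have e3 : ((b + 2) * m) ^ 4 ≤ tw 4 s := tw_pow hs e2 (lt 2 (by omega))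
  have e4 : 2 ^ m ≤ tw 2 s := tw_pow hs (c := 0) (lt 0 (by omega)) (lt 0 hm)
  have e5 : D ≤ tw 5 s := by
    rw [hD]
    exact tw_mul hs (up (by omega) e4) e3
  have e6 : z + m + D ≤ tw 6 s := tw_add hs (lt 5 hzm) e5
  have e7 : d ≤ tw 11 s := by
    rw [hd]
    have h1 := tw_mono (le_refl 5) e6
    rwa [tw_comp] at h1
  have e8 : A ≤ tw 96 s := by
    rw [hA]
    have h1 := tw_mono (le_refl 90) e6
    rwa [tw_comp] at h1
  have e9 : L ≤ tw 1 s := by omega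
  have e10 : L * d + 2 ≤ tw 13 s :=
    tw_add hs (tw_mul hs (up (by omega) e9) e7) (lt 12 (by omega))
  have e11 : d + 1 ≤ tw 12 s := tw_add hs e7 (lt 11 (by omega))
  have e12 : (d + 1) * A ≤ tw 97 s := tw_mul hs (up (by omega) e11) e8
  have e13 : ((d + 1) * A) ^ L ≤ tw 99 s := tw_pow hs e12 (up (by omega) e9)
  have e14 : 2 * ((d + 1) * A) ^ L ≤ tw 100 s := tw_mul hs (lt 99 (by omega)) e13
  have e15 : (L * d + 2) + 2 * ((d + 1) * A) ^ L ≤ tw 101 s := tw_add hs (up (by omega) e10) e14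
  have e16 : (L * d + 2) + 2 * ((d + 1) * A) ^ L + 16 ≤ tw 102 s := tw_add hs e15 (lt 101 hs)
  have e17 : tw 20 ((L * d + 2) + 2 * ((d + 1) * A) ^ L + 16) ≤ tw 122 s := by
    have h1 := tw_mono (le_refl 20) e16
    rwa [tw_comp] at h1
  rw [hN]
  exact up (by omega) (tw_mul hs (lt 122 (hg.trans hm)) e17)

theorem gma {K C Φ : Type*} [Field K] [NumberField K] [Field C] [Algebra K C]
    [Algebra.IsAlgebraic K C] [IsAlgClosed C] [CharZero C] [Field Φ] [Algebra C Φ] [FunField C Φ]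
    (T : Finset (HeightOneSpectrum (𝓞 K))) (m : ℕ) (hg : PosGenus C Φ)
    (Γ G : Subgroup (Φ ≃ₐ[C] Φ)) [Finite Γ] (hG : G ≤ Γ) (hm : Nat.card Γ ≤ m)
    (x : Φ) (hx : FixGen G x) (B : Finset C) (hB : ∀ c : C, BrF x c → c ∈ B)
    (lift : (C ≃ₐ[K] C) → (Φ ≃+* Φ))
    (hlift : ∀ (s : C ≃ₐ[K] C) (c : C), lift s (algebraMap C Φ c) = algebraMap C Φ (s c))
    (hΓ : ∀ s : C ≃ₐ[K] C, ∀ γ ∈ Γ, ∃ γ' ∈ Γ, ∀ f, lift s (γ f) = γ' (lift s f))
    (hmod : ∀ V : ValuationSubring C, GoodV T m V → ∃ (W : ValuationSubring Φ) (pts : Set (Subring Φ)),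
      IsMdl V W pts ∧ ∀ s : C ≃ₐ[K] C, Inert V s →
        (∀ f ∈ W, lift s f - f ∈ W.nonunits) ∧ ∀ A ∈ pts, PresA (lift s) A) :
    ∃ β : Φ, IsBelyi C β ∧ Module.finrank C⟮β⟯ Φ ≤ tw 130 (szK K T + m + B.card) := by
  classical
  have hGfin : Finite G := Finite.of_injective _ (Subgroup.inclusion_injective hG)
  have hGm : Nat.card G ≤ m := (Subgroup.card_le_of_le hG).trans hm
  have hΓpos : 0 < Nat.card Γ := Nat.card_pos
  have hsz : 16 ≤ szK K T := by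
    unfold szK
    omega
  by_cases hfew : ∃ c₀ c₁ : C, ∀ c : C, BrF x c → c = c₀ ∨ c = c₁
  · obtain ⟨x', hx', hB'⟩ := mob_few G x hx hfew
    obtain ⟨htr, hdeg⟩ := bra_deg G x' hx'
    refine ⟨x', ⟨htr, fun P c h0 h1 => ?_⟩, ?_⟩
    · by_contra hc
      rcases hB' c ⟨P, by omega⟩ with h2 | h2
      · exact h0 h2
      · exact h1 h2
    · rw [hdeg]
      exact (hGm.trans (by omega)).trans (le_tw 130 _)
  · obtain ⟨c₀, hc₀⟩ : ∃ c₀, BrF x c₀ := by
      by_contra hno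
      exact hfew ⟨0, 0, fun c hc => absurd ⟨c, hc⟩ hno⟩
    obtain ⟨c₁, hc₁, h01⟩ : ∃ c₁, BrF x c₁ ∧ c₁ ≠ c₀ := by
      by_contra hno
      refine hfew ⟨c₀, c₀, fun c hc => Or.inl ?_⟩
      by_contra hne
      exact hno ⟨c, hc, hne⟩
    obtain ⟨c₂, hc₂, h02, h12⟩ : ∃ c₂, BrF x c₂ ∧ c₂ ≠ c₀ ∧ c₂ ≠ c₁ := by
      by_contra hno
      refine hfew ⟨c₀, c₁, fun c hc => ?_⟩
      by_contra hne
      rw [not_or] at hne
      exact hno ⟨c, hc, hne.1, hne.2⟩
    obtain ⟨x', hx', b0, b1, bi, B', hB'c, hB'⟩ :=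
      mob_norm G x hx B hB c₀ c₁ c₂ h01.symm h02.symm h12.symm hc₀ hc₁ hc₂
    set D : ℕ := 2 ^ m * ((B.card + 2) * m) ^ 4 with hD
    set L : Finset C := B'.filter (fun l => BrF x' l ∧ l ≠ 0 ∧ l ≠ 1) with hL
    have hLmem : ∀ l ∈ L, BrF x' l ∧ l ≠ 0 ∧ l ≠ 1 := fun l hl => (Finset.mem_filter.mp hl).2
    have key : ∀ l ∈ L, ∃ P : Polynomial ℤ, P ≠ 0 ∧ P.natDegree ≤ tw 5 (szK K T + m + D) ∧
        Polynomial.aeval l P = 0 ∧ ∀ i, |P.coeff i| ≤ (tw 90 (szK K T + m + D) : ℤ) := by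
      intro l hl
      obtain ⟨bl, l0, l1⟩ := hLmem l hl
      refine htl T m D l l0 l1 ?_ ?_ ?_
      · refine (cjc Γ G hG lift hlift hΓ x' hx' B' hB' b0 b1 bi l l0 l1 bl).trans ?_
        rw [hD]
        refine Nat.mul_le_mul (Nat.pow_le_pow_right (by norm_num) hm) ?_
        exact Nat.pow_le_pow_left (Nat.mul_le_mul (by omega) hm) 4
      · intro V hV
        obtain ⟨W, pts, hmdl, -⟩ := hmod V hV
        exact alo (rko (K := K) V hV.ne_top) hmdl hg Γ G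
          (rko_card T m V hV _ hΓpos hm) hG x' hx' b0 b1 bi l l0 l1 bl
      · intro V hV s hs
        obtain ⟨W, pts, hmdl, hmdl'⟩ := hmod V hV
        obtain ⟨hW, hA⟩ := hmdl' s hs
        exact ain (rko (K := K) V hV.ne_top) hmdl hg Γ G
          (rko_card T m V hV _ hΓpos hm) hG x' hx' b0 b1 bi l l0 l1 bl (lift s) (s : C ≃+* C)
          (hlift s) hW hA (hΓ s)
    choose! P hP0 hPd hPr hPc using key
    obtain ⟨Q, hQ0, hQd, hQc, hPQ, hXQ⟩ := prb L P (tw 5 (szK K T + m + D))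
      (tw 90 (szK K T + m + D)) hP0 hPd hPc
    obtain ⟨htr, hdeg⟩ := bra_deg G x' hx'
    obtain ⟨β, hβ, hβd⟩ := blp x' htr Q hQ0 _ _ hQd hQc (by
      intro c hc
      by_cases hc0 : c = 0
      · obtain ⟨R, hR⟩ := hXQ
        rw [hR, hc0]
        simp
      by_cases hc1 : c = 1
      · obtain ⟨R, hR⟩ := hXQ
        rw [hR, hc1]
        simp
      have hcL : c ∈ L := Finset.mem_filter.mpr ⟨hB' c hc, hc, hc0, hc1⟩
      obtain ⟨R, hR⟩ := hPQ c hcL
      rw [hR, map_mul, hPr c hcL, zero_mul])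
    refine ⟨β, hβ, hβd.trans ?_⟩
    rw [hdeg]
    refine gma_tw (szK K T + m + B.card) (szK K T) m B.card D _ _ L.card _ (Nat.card G)
      (by omega) (by omega) (by omega) (by omega) (by omega) hD rfl rfl ?_ rfl hGm
    exact (Finset.card_filter_le _ _).trans hB'c

end Pool.Agent.ESH
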