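import Pool.Agent.ESH.DefsE
import Pool.Agent.Helper11.Chi

/-!
# ESH / LGR: the regular differential dx/y

Helper11: `ordDiff_smul_D`, `ord_dv`, `ord_dv_unif'`, `derivation_mem_ge`.  For a place `R` and `g` with `R.ord g ≠ 0`: `R.ord (R.dv g) = R.ord g - 1`.
(1) `R.ord x = -2k < 0`: `R.ord y = -3k`, `R.ord (dv x) = -2k-1`: total `k - 1 ≥ 0`.  (2) `x` has a value `c` at `R`, `c ∈ {0, 1, l}`: with `e = R.ord (x-c)`, `2 R.ord y = e`, so
`e = 2k`, `R.ord (dv x) = 2k-1`, total `k - 1`.  (3) `c ∉ {0,1,l}`: `R.ord y = 0`, `R.ord (dv x) = e - 1 ≥ 0`.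
-/

namespace Pool.Agent.ESH

open Pool.Agent.Helper11 Polynomial IntermediateField

variable {C Φ : Type*} [Field C] [Field Φ] [Algebra C Φ] [FunField C Φ] [CharZero C] [IsAlgClosed C]


open scoped KaehlerDifferential

omit [FunField C Φ] [CharZero C] [IsAlgClosed C] in
private theorem LGR_sub_ne {x : Φ} (hx : Transcendental C x) (c : C) : x - algebraMap C Φ c ≠ 0 := by
  intro h
  apply hx
  rw [sub_eq_zero] at h
  rw [h]
  exact isAlgebraic_algebraMap c

omit [FunField C Φ] [CharZero C] [IsAlgClosed C] in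
private theorem LGR_y {x y : Φ} {l : C} (hL : Leg x y l) (R : Place C Φ) :
    y ≠ 0 ∧ 2 * R.ord y = R.ord (x - algebraMap C Φ 0) + R.ord (x - algebraMap C Φ 1)
      + R.ord (x - algebraMap C Φ l) := by
  have h0 := LGR_sub_ne hL.tr 0
  have h1 := LGR_sub_ne hL.tr 1
  have h2 := LGR_sub_ne hL.tr l
  have he : y ^ 2 = (x - algebraMap C Φ 0) * (x - algebraMap C Φ 1) * (x - algebraMap C Φ l) := by
    rw [map_zero, map_one, sub_zero]
    exact hL.eq
  have hy : y ≠ 0 := by
    rintro rfl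
    have : (x - algebraMap C Φ 0) * (x - algebraMap C Φ 1) * (x - algebraMap C Φ l) = 0 := by
      rw [← he]
      ring
    exact mul_ne_zero (mul_ne_zero h0 h1) h2 this
  refine ⟨hy, ?_⟩
  have h3 := congrArg R.ord he
  rw [R.ord_pow, R.ord_mul _ _ (mul_ne_zero h0 h1) h2, R.ord_mul _ _ h0 h1] at h3
  rw [Nat.cast_ofNat] at h3
  exact h3

omit [FunField C Φ] [CharZero C] [IsAlgClosed C] in
private theorem LGR_other {x : Φ} (R : Place C Φ) {c : C}
    (hc : 1 ≤ R.ord (x - algebraMap C Φ c)) {b : C} (hb : b ≠ c) :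
    R.ord (x - algebraMap C Φ b) = 0 := by
  have e : x - algebraMap C Φ b = algebraMap C Φ (c - b) + (x - algebraMap C Φ c) := by
    rw [map_sub]
    ring
  have h1 : algebraMap C Φ (c - b) ≠ 0 := by
    rw [Ne, map_eq_zero, sub_eq_zero]
    exact fun h => hb h.symm
  rw [e]
  have := (R.ord_add_eq_left (x := algebraMap C Φ (c - b)) (y := x - algebraMap C Φ c) h1
    (Or.inr (by rw [R.ord_algebraMap]; omega))).2
  rw [this, R.ord_algebraMap]

theorem lgr {x y : Φ} {l : C} (hL : Leg x y l) (R : Place C Φ) :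
    0 ≤ R.ordDiff (y⁻¹ • KaehlerDifferential.D C Φ x) := by
  obtain ⟨hy, hy2⟩ := LGR_y hL R
  have hdv := R.dv_ne_zero hL.tr
  rw [R.ordDiff_smul_D, R.ord_mul _ _ (inv_ne_zero hy) hdv, R.ord_inv]
  have hdvc : ∀ c : C, R.dv (x - algebraMap C Φ c) = R.dv x := by
    intro c
    rw [map_sub, Derivation.map_algebraMap, sub_zero]
  by_cases hx : R.ord x < 0
  · have hs : ∀ c : C, R.ord (x - algebraMap C Φ c) = R.ord x := by
      intro c
      have hx0 : x ≠ 0 := R.ne_zero_of_ord_ne_zero hx.ne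
      rw [sub_eq_add_neg, ← map_neg]
      exact (R.ord_add_eq_left hx0 (Or.inr (by rw [R.ord_algebraMap]; exact hx))).2
    rw [hs, hs, hs] at hy2
    have h1 := (R.ord_dv (y := x) hx.ne).2
    rw [h1]
    omega
  · push Not at hx
    obtain ⟨c, hc⟩ := R.exists_residue (y := x) (R.mem_ge_of_le hx)
    have hc1 := R.le_ord_of_mem hc (LGR_sub_ne hL.tr c)
    have hd := (R.ord_dv (y := x - algebraMap C Φ c) (by omega)).2
    rw [hdvc] at hd
    rw [hd]
    have h01 : (0 : C) ≠ 1 := zero_ne_one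
    by_cases c0 : c = 0
    · subst c0
      rw [LGR_other R hc1 h01.symm, LGR_other R hc1 hL.l0] at hy2
      omega
    by_cases c1 : c = 1
    · subst c1
      rw [LGR_other R hc1 h01, LGR_other R hc1 hL.l1] at hy2
      omega
    by_cases cl : c = l
    · subst cl
      rw [LGR_other R hc1 (Ne.symm c0), LGR_other R hc1 (Ne.symm c1)] at hy2
      omega
    rw [LGR_other R hc1 (Ne.symm c0), LGR_other R hc1 (Ne.symm c1),
      LGR_other R hc1 (Ne.symm cl)] at hy2
    omega

theorem lgr_pos {x y : Φ} {l : C} (hL : Leg x y l) : PosGenus C Φ := by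
  refine ⟨y⁻¹ • KaehlerDifferential.D C Φ x, ?_, lgr hL⟩
  have hy : y ≠ 0 := by
    rintro rfl
    have h0 := LGR_sub_ne hL.tr 0
    have h1 := LGR_sub_ne hL.tr 1
    have h2 := LGR_sub_ne hL.tr l
    have he := hL.eq
    rw [map_zero, sub_zero] at h0
    rw [map_one] at h1
    exact mul_ne_zero (mul_ne_zero h0 h1) h2 (by rw [← he]; ring)
  exact smul_ne_zero (inv_ne_zero hy) (D_ne_zero hL.tr)

end Pool.Agent.ESH
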