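import Pool.Agent.ESH.DefsE
import Pool.Agent.Helper11.Height

/-!
# ESH / OSD: orders on residue discs are bounded by the degree

`nA f = ∑_{R above A} R.ord f ≤ ∑_R max 0 (R.ord f) = [Φ : C(f)]` (Helper11 `finsum_pos_ord`, `finsum_neg_ord`).  (If `f` is constant both sides: `nA f = 0`.)
-/

namespace Pool.Agent.ESH

open Pool.Agent.Helper11 Polynomial IntermediateField

variable {C Φ : Type*} [Field C] [Field Φ] [Algebra C Φ] [FunField C Φ] [CharZero C] [IsAlgClosed C]

omit [FunField C Φ] [CharZero C] [IsAlgClosed C] in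
private theorem osd_aux (A : Subring Φ) (f : Φ) :
    nA C A f = ∑ᶠ R : Place C Φ, {R : Place C Φ | Below A R}.indicator (fun R => R.ord f) R := by
  unfold nA
  rw [← finsum_mem_def]
  exact finsum_set_coe_eq_finsum_mem (f := fun R : Place C Φ => R.ord f) {R : Place C Φ | Below A R}

theorem osd (A : Subring Φ) (f : Φ) (hf : Transcendental C f) :
    nA C A f ≤ Module.finrank C⟮f⟯ Φ ∧ -(Module.finrank C⟮f⟯ Φ : ℤ) ≤ nA C A f := by
  have hsupp : {R : Place C Φ | {R : Place C Φ | Below A R}.indicator (fun R => R.ord f) R ≠ 0}.Finite := by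
    apply (supp_ord (k := C) f).subset
    intro R hR h
    apply hR
    by_cases hb : R ∈ {R : Place C Φ | Below A R}
    · rw [Set.indicator_of_mem hb]; exact h
    · rw [Set.indicator_of_notMem hb]
  constructor
  · rw [osd_aux, ← finsum_pos_ord hf]
    refine fs_mono hsupp (supp_pospart f) ?_
    intro R
    by_cases hb : R ∈ {R : Place C Φ | Below A R}
    · rw [Set.indicator_of_mem hb]; exact le_max_right _ _
    · rw [Set.indicator_of_notMem hb]; exact le_max_left _ _
  · rw [osd_aux, ← finsum_neg_ord hf, ← fs_neg]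
    refine fs_mono ?_ hsupp ?_
    · apply (supp_negpart (k := C) f).subset
      intro R hR h
      exact hR (by rw [h]; rfl)
    intro R
    have h1 : 0 ≤ max 0 (-R.ord f) := le_max_left _ _
    have h2 : -R.ord f ≤ max 0 (-R.ord f) := le_max_right _ _
    by_cases hb : R ∈ {R : Place C Φ | Below A R}
    · rw [Set.indicator_of_mem hb]; omega
    · rw [Set.indicator_of_notMem hb]; omega

end Pool.Agent.ESH
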