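import Pool.Agent.ESH.OSB

/-!
# ESH / OSE: orders on residue discs: derivatives

`D` with `D t = 1`, `D(A) ⊆ A`, so `D(W) ⊆ W` (`ord_derW`), and `D(W.nonunits) ⊆ W.nonunits`: `w = c w'`, `c ∈ V.nonunits`, `w' ∈ W` (`scale`).
`f ≡ t^n u`: `D f ≡ n t^(n-1) u + t^n D u = t^(n-1)(n u + t D u)`, and `n u + t D u` is a unit of `A` (`n` a unit of `V`, `t` a non-unit).  `osb_eq`.
-/

namespace Pool.Agent.ESH

open Pool.Agent.Helper11 Polynomial IntermediateField

variable {C Φ : Type*} [Field C] [Field Φ] [Algebra C Φ] [FunField C Φ] [CharZero C] [IsAlgClosed C]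

private lemma OSE_mul {W : ValuationSubring Φ} {x y : Φ} (hx : x ∈ W.nonunits)
    (hy : y ∈ W) : x * y ∈ W.nonunits := by
  rw [ValuationSubring.mem_nonunits_iff] at hx ⊢
  rw [← W.valuation_le_one_iff] at hy
  rw [map_mul]
  exact mul_lt_one_of_lt_of_le hx hy

private lemma OSE_nu_neg {A : Subring Φ} {a : Φ} (h : NU A a) : NU A (-a) := by
  refine ⟨A.neg_mem h.1, ?_⟩
  rcases h.2 with h2 | h2
  · left; rw [h2, neg_zero]
  · right
    intro h3
    apply h2
    have := A.neg_mem h3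
    rwa [inv_neg, neg_neg] at this

private lemma OSE_nu_mul {A : Subring Φ} {a b : Φ} (h : NU A a) (hb : b ∈ A) : NU A (a * b) := by
  refine ⟨A.mul_mem h.1 hb, ?_⟩
  by_cases h0 : a * b = 0
  · exact Or.inl h0
  · right
    intro h3
    have ha0 : a ≠ 0 := left_ne_zero_of_mul h0
    have hb0 : b ≠ 0 := right_ne_zero_of_mul h0
    rcases h.2 with h2 | h2
    · exact ha0 h2
    · apply h2
      have := A.mul_mem hb h3
      rwa [mul_inv_rev, ← mul_assoc, mul_inv_cancel₀ hb0, one_mul] at this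

/-- derivatives of non-units -/
theorem ose_nu {V : ValuationSubring C} {W : ValuationSubring Φ} {pts : Set (Subring Φ)}
    (hV : Rk1 V) (h : IsMdl V W pts) {A : Subring Φ} (hA : A ∈ pts) (D : Derivation C Φ Φ)
    (hDA : ∀ a ∈ A, D a ∈ A) (f : Φ) (hf : f ∈ W.nonunits) : D f ∈ W.nonunits := by
  by_cases h0 : f = 0
  · rw [h0, map_zero, ← h0]
    exact hf
  · obtain ⟨c, hc, h1, h2⟩ := h.scale f h0
    have hc0 : algebraMap C Φ c ≠ 0 := by
      rw [Ne, map_eq_zero]
      exact hc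
    have h3 : algebraMap C Φ c ∈ W.nonunits := by
      have := OSE_mul hf h2
      rwa [mul_div_cancel₀ _ h0] at this
    have h4 : D f = algebraMap C Φ c * D (f / algebraMap C Φ c) := by
      have e : f = c • (f / algebraMap C Φ c) := by
        rw [Algebra.smul_def, mul_div_cancel₀ _ hc0]
      conv_lhs => rw [e]
      rw [D.map_smul, Algebra.smul_def]
    rw [h4]
    exact OSE_mul h3 (ord_derW (h.pt A hA) D hDA _ h1)

theorem ose {V : ValuationSubring C} {W : ValuationSubring Φ} {pts : Set (Subring Φ)}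
    (hV : Rk1 V) (h : IsMdl V W pts) {A : Subring Φ} (hA : A ∈ pts) {t : Φ} (ht : IsPar V W A t)
    (D : Derivation C Φ Φ) (hD : D t = 1) (hDA : ∀ a ∈ A, D a ∈ A) (f : Φ) (hf : f ∈ W)
    (hfW : f ∉ W.nonunits) (hn : V.valuation ((nA C A f : ℤ) : C) = 1) :
    D f ∈ W ∧ D f ∉ W.nonunits ∧ nA C A (D f) = nA C A f - 1 := by
  obtain ⟨u, hu, hu0, hu', he⟩ := osa hV h hA ht f hf hfW
  have hP := h.pt A hA
  generalize nA C A f = n at hn he ⊢
  have ht0 : t ≠ 0 := by
    rintro rfl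
    rw [map_zero] at hD
    exact zero_ne_one hD
  have hv : (n : Φ) * u + t * D u ∈ A :=
    A.add_mem (A.mul_mem (intCast_mem A n) hu) (A.mul_mem ht.mem.1 (hDA u hu))
  have hnC : (n : C) ≠ 0 := by
    intro h0
    rw [h0, map_zero] at hn
    exact zero_ne_one hn
  have hcast : (n : Φ) = algebraMap C Φ (n : C) := (map_intCast _ n).symm
  have hn' : ((n : Φ))⁻¹ ∈ A := by
    rw [hcast, ← map_inv₀]
    refine hP.base _ ?_
    rw [← V.valuation_le_one_iff, map_inv₀, hn, inv_one]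
  have hnu : ¬ NU A ((n : Φ) * u) := by
    rintro ⟨-, h1 | h1⟩
    · rcases mul_eq_zero.1 h1 with h2 | h2
      · rw [hcast, map_eq_zero] at h2
        exact hnC h2
      · exact hu0 h2
    · apply h1
      rw [mul_inv]
      exact A.mul_mem hn' hu'
  have hvn : ¬ NU A ((n : Φ) * u + t * D u) := by
    intro h1
    apply hnu
    have h2 := hP.add _ _ h1 (OSE_nu_neg (OSE_nu_mul ht.mem (hDA u hu)))
    have e : (n : Φ) * u + t * D u + -(t * D u) = (n : Φ) * u := by ring
    rwa [e] at h2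
  have hv2 : (n : Φ) * u + t * D u ≠ 0 ∧ ((n : Φ) * u + t * D u)⁻¹ ∈ A := by
    constructor
    · intro h1
      exact hvn ⟨hv, Or.inl h1⟩
    · by_contra h1
      exact hvn ⟨hv, Or.inr h1⟩
  refine osb_eq hV h hA ht (D f) (n - 1) ((n : Φ) * u + t * D u) hv hv2.1 hv2.2 ?_
  have h3 := ose_nu hV h hA D hDA _ he
  have e : D (f - t ^ n * u) = D f - t ^ (n - 1) * ((n : Φ) * u + t * D u) := by
    rw [map_sub, D.leibniz, Derivation.leibniz_zpow, hD]
    simp only [smul_eq_mul, zsmul_eq_mul, mul_one]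
    have e2 : t ^ n = t ^ (n - 1) * t := by
      rw [← zpow_add_one₀ ht0, sub_add_cancel]
    rw [e2]
    ring
  rwa [e] at h3

end Pool.Agent.ESH
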