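import Pool.Agent.ESH.OSC
import Pool.Agent.ESH.OSD
import Pool.Agent.ESH.OSE
import Pool.Agent.ESH.LGR
import Pool.Agent.ESH.DFR

/-!
# ESH / LGA: good reduction of the genus one quotient

`e₁ = 0, e₂ = 1, e₃ = l`.  By `trans` there are `a, γ ∈ C`, `γ ≠ 0`, such that `X = (x - a)/γ ∈ W` is not congruent to an element of `V`.  `e'_j = (e_j - a)/γ`, `x - e_j = γ (X - e'_j)`.
For `e'_j ∉ V`: `X - e'_j = -e'_j (1 - X/e'_j)` with `1 - X/e'_j ≡ 1`.  So `y² = γ³ ∏_{e'_j ∉ V} (-e'_j) * ∏_{e'_j ∈ V} (X - e'_j) * (unit ≡ 1)`; choose `δ ∈ C` with `δ²` the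
constant and `Y = y/δ`: `Y² ≡ ∏_{e'_j ∈ V} (X - e'_j)` up to a factor `≡ 1`; `Y` is a unit of `W`.  `d` = number of `j` with `e'_j ∈ V`.
The differential `Y⁻¹ dX` is a constant multiple of `y⁻¹ dx`, so regular (LGR).  `N ≥ [Φ : C(x)] = [Φ : C(X)]`.
(1) OSC: `A` with `nA X = -k < 0`, `k ≤ N` (OSD).  `t`, `D` at `A`.  OSE: `D X` is a unit of `W`, `nA (D X) = -k-1`.  `2 nA Y = ∑_{e'_j ∈ V} nA (X - e'_j) = -d k` (`osb_shift`; factors `≡ 1` have
`nA = 0`, `osb_congr`).  `f = D X / Y` is a unit of `W` and `f dt = Y⁻¹ dX`; DFR: `f ∈ A`, so `0 ≤ nA f = -k - 1 + d k/2`, so `d = 3`.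
(2) All `e'_j ∈ V`.  Suppose `e'_i - e'_j ∈ V.nonunits`, `i ≠ j`.  `osc_pos`: `A` with `k = nA (X - e'_i) > 0`, `k ≤ N`.  `X - e'_j ≡ X - e'_i`: same order `k`; the third root `e'_r`: order `k` if
congruent to `e'_i` and `0` otherwise (`osb_pos`).  So `2 nA Y ∈ {2k, 3k}`, `nA (D X) = k - 1`, and `0 ≤ nA (D X / Y) ≤ k - 1 - k = -1`: contradiction.
(3) So the differences of the `e'_j` are units of `V`: `1/γ = e'_2 - e'_1`, `l = (e'_3 - e'_1)/(e'_2 - e'_1)`, `1 - l = (e'_2 - e'_3)/(e'_2 - e'_1)`; `γ` is a unit, `a = -γ e'_1 ∈ V`, `x = γ X + a`.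
-/

namespace Pool.Agent.ESH

open Pool.Agent.Helper11 Polynomial IntermediateField

variable {C Φ : Type*} [Field C] [Field Φ] [Algebra C Φ] [FunField C Φ] [CharZero C] [IsAlgClosed C]

private theorem lga_unit {L : Type*} [Field L] (W : ValuationSubring L) (z : L) :
    W.valuation z = 1 ↔ z ∈ W ∧ z ∉ W.nonunits := by
  rw [ValuationSubring.mem_nonunits_iff, ← W.valuation_le_one_iff]
  constructor
  · intro h
    exact ⟨h.le, by rw [h]; exact lt_irrefl _⟩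
  · rintro ⟨h1, h2⟩
    exact le_antisymm h1 (not_lt.1 h2)

omit [FunField C Φ] [CharZero C] [IsAlgClosed C] in
private theorem lga_nu {V : ValuationSubring C} {W : ValuationSubring Φ}
    (hb : ∀ c : C, algebraMap C Φ c ∈ W ↔ c ∈ V) (c : C) :
    algebraMap C Φ c ∈ W.nonunits ↔ c ∈ V.nonunits := by
  rw [ValuationSubring.mem_nonunits_iff_or, ValuationSubring.mem_nonunits_iff_or, ← map_inv₀, hb]
  simp

omit [FunField C Φ] [CharZero C] [IsAlgClosed C] in
private theorem lga_one {V : ValuationSubring C} {W : ValuationSubring Φ}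
    (hb : ∀ c : C, algebraMap C Φ c ∈ W ↔ c ∈ V) (c : C) :
    W.valuation (algebraMap C Φ c) = 1 ↔ V.valuation c = 1 := by
  rw [lga_unit, lga_unit, lga_nu hb, hb]

/-- a derivation in terms of the derivation of a place -/
private theorem lga_der (D : Derivation C Φ Φ) {t : Φ} (hD : D t = 1) (R : Place C Φ) (z : Φ) :
    D z * R.dv t = R.dv z := by
  have h1 : KaehlerDifferential.D C Φ t = R.dv t • KaehlerDifferential.D C Φ R.unif :=
    D_eq_der_smul R.transcendental_unif t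
  have h2 : KaehlerDifferential.D C Φ z = R.dv z • KaehlerDifferential.D C Φ R.unif :=
    D_eq_der_smul R.transcendental_unif z
  have h3 := congrArg D.liftKaehlerDifferential h1
  have h4 := congrArg D.liftKaehlerDifferential h2
  rw [map_smul, Derivation.liftKaehlerDifferential_comp_D, Derivation.liftKaehlerDifferential_comp_D,
    smul_eq_mul] at h3 h4
  rw [hD] at h3
  rw [h4, mul_assoc, mul_comm (D _), ← h3, mul_one]

private theorem lga_core {V : ValuationSubring C} {W : ValuationSubring Φ} {pts : Set (Subring Φ)}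
    (hV : Rk1 V) (h : IsMdl V W pts) {x y : Φ} {l : C} (hL : Leg x y l) {A : Subring Φ}
    (hA : A ∈ pts) (a γ δ : C) (hγ : γ ≠ 0) (hδ : δ ≠ 0) (Z Y : Φ)
    (hZx : x = algebraMap C Φ γ * Z + algebraMap C Φ a) (hYy : y = algebraMap C Φ δ * Y)
    (hZ : Z ∈ W) (hZ' : Z ∉ W.nonunits) (hY : Y ∈ W) (hY' : Y ∉ W.nonunits)
    (hn : V.valuation ((nA C A Z : ℤ) : C) = 1) : nA C A Y ≤ nA C A Z - 1 := by
  obtain ⟨t, ht⟩ := (h.pt A hA).par
  obtain ⟨D, hD, hDA⟩ := ht.der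
  obtain ⟨h1, h2, h3⟩ := ose hV h hA ht D hD hDA Z hZ hZ' hn
  have hDZ0 : D Z ≠ 0 := by
    intro h0
    exact h2 (by rw [h0]; exact W.nonunits.zero_mem)
  have hY0 : Y ≠ 0 := by
    intro h0
    exact hY' (by rw [h0]; exact W.nonunits.zero_mem)
  have hγ' : algebraMap C Φ γ ≠ 0 := (_root_.map_ne_zero _).2 hγ
  have hδ' : algebraMap C Φ δ ≠ 0 := (_root_.map_ne_zero _).2 hδ
  have hvY := (lga_unit W Y).2 ⟨hY, hY'⟩
  have hvD := (lga_unit W (D Z)).2 ⟨h1, h2⟩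
  have hfW : D Z * Y⁻¹ ∈ W := by
    rw [← W.valuation_le_one_iff, map_mul, map_inv₀, hvY, hvD, inv_one, mul_one]
  have hfA : D Z * Y⁻¹ ∈ A := by
    refine dfr hV h hA ht _ hfW fun R _ => ?_
    have h4 := lgr hL R
    rw [R.ordDiff_smul_D] at h4 ⊢
    have h5 : R.dv x = algebraMap C Φ γ * R.dv Z := by
      rw [hZx, map_add, Derivation.map_algebraMap, add_zero, Derivation.leibniz,
        Derivation.map_algebraMap, smul_zero, add_zero, smul_eq_mul]
    have h6 : y⁻¹ * R.dv x = algebraMap C Φ (γ / δ) * (D Z * Y⁻¹ * R.dv t) := by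
      have h7 : D Z * Y⁻¹ * R.dv t = Y⁻¹ * R.dv Z := by
        rw [← lga_der D hD R Z]; ring
      rw [h7, h5, hYy, map_div₀]
      field_simp
    rw [h6] at h4
    by_cases hz : D Z * Y⁻¹ * R.dv t = 0
    · rw [hz, R.ord_zero]
    · rw [R.ord_mul _ _ ((_root_.map_ne_zero _).2 (div_ne_zero hγ hδ)) hz, R.ord_algebraMap, zero_add] at h4
      exact h4
  have h8 := osb_nonneg (C := C) A _ hfA
  rw [osb_mul A _ _ hDZ0 (inv_ne_zero hY0), osb_inv, h3] at h8
  omega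

omit [FunField C Φ] [CharZero C] [IsAlgClosed C] in
private theorem lga_adj {x Z : Φ} {a γ : C} (hγ : γ ≠ 0)
    (hZx : x = algebraMap C Φ γ * Z + algebraMap C Φ a) : C⟮Z⟯ = C⟮x⟯ := by
  have hγ' : algebraMap C Φ γ ≠ 0 := (_root_.map_ne_zero _).2 hγ
  apply le_antisymm
  · rw [IntermediateField.adjoin_simple_le_iff]
    have h1 : Z = (algebraMap C Φ γ)⁻¹ * (x - algebraMap C Φ a) := by
      rw [hZx]; field_simp; ring
    rw [h1]
    exact mul_mem (inv_mem (_root_.algebraMap_mem _ _))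
      (sub_mem (IntermediateField.mem_adjoin_simple_self C x) (_root_.algebraMap_mem _ _))
  · rw [IntermediateField.adjoin_simple_le_iff, hZx]
    exact add_mem (mul_mem (_root_.algebraMap_mem _ _) (IntermediateField.mem_adjoin_simple_self C Z))
      (_root_.algebraMap_mem _ _)

private theorem lga_bound {V : ValuationSubring C} {x Z : Φ} {a γ : C} (hx : Transcendental C x) (hγ : γ ≠ 0)
    (hZx : x = algebraMap C Φ γ * Z + algebraMap C Φ a) (N : ℕ) (hN : Module.finrank C⟮x⟯ Φ ≤ N)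
    (hVN : ∀ k : ℕ, 1 ≤ k → k ≤ N → V.valuation (k : C) = 1) (A : Subring Φ)
    (hne : nA C A Z ≠ 0) : V.valuation ((nA C A Z : ℤ) : C) = 1 := by
  have hZ : Transcendental C Z := by
    intro hZ
    apply hx
    rw [hZx]
    exact ((isAlgebraic_algebraMap γ).mul hZ).add (isAlgebraic_algebraMap a)
  obtain ⟨h1, h2⟩ := osd A Z hZ
  rw [lga_adj hγ hZx] at h1 h2
  have h3 : (nA C A Z).natAbs ≤ N := by omega
  have h4 := hVN (nA C A Z).natAbs (by omega) h3
  have h6 : (((nA C A Z).natAbs : ℕ) : C) = (((nA C A Z).natAbs : ℤ) : C) := by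
    rw [Int.cast_natCast]
  rcases Int.natAbs_eq (nA C A Z) with h5 | h5
  · rw [h5, ← h6]; exact h4
  · rw [h5, Int.cast_neg, Valuation.map_neg, ← h6]
    exact h4

private theorem lga_sep {V : ValuationSubring C} {W : ValuationSubring Φ} {pts : Set (Subring Φ)}
    (hV : Rk1 V) (h : IsMdl V W pts) {x y : Φ} {l : C} (hL : Leg x y l) (N : ℕ)
    (hN : Module.finrank C⟮x⟯ Φ ≤ N)
    (hVN : ∀ k : ℕ, 1 ≤ k → k ≤ N → V.valuation (k : C) = 1)
    (a γ δ : C) (hγ : γ ≠ 0) (hδ : δ ≠ 0) (X Y : Φ)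
    (hXx : x = algebraMap C Φ γ * X + algebraMap C Φ a) (hYy : y = algebraMap C Φ δ * Y)
    (hX : X ∈ W) (hX' : ∀ b ∈ V, X - algebraMap C Φ b ∉ W.nonunits) (hY : Y ∈ W) (hY' : Y ∉ W.nonunits)
    (b₁ b₂ b₃ : C) (hb₁ : b₁ ∈ V) (hb₂ : b₂ ∈ V) (hb₃ : b₃ ∈ V)
    (h2 : ∀ A ∈ pts, 2 * nA C A Y = nA C A (X - algebraMap C Φ b₁) + nA C A (X - algebraMap C Φ b₂) +
      nA C A (X - algebraMap C Φ b₃)) : V.valuation (b₁ - b₂) = 1 := by
  by_contra hcon
  have hmem : b₁ - b₂ ∈ V := sub_mem hb₁ hb₂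
  have hnu : b₁ - b₂ ∈ V.nonunits := by
    by_contra h0
    exact hcon ((lga_unit V _).2 ⟨hmem, h0⟩)
  obtain ⟨A, hA, hk⟩ := osc_pos hV h X hX hX' b₁ hb₁
  set Z : Φ := X - algebraMap C Φ b₁ with hZ
  have hZW : Z ∈ W := sub_mem hX ((h.base b₁).2 hb₁)
  have hZW' : Z ∉ W.nonunits := hX' b₁ hb₁
  have hZx : x = algebraMap C Φ γ * Z + algebraMap C Φ (a + γ * b₁) := by
    rw [hXx, hZ, map_add, map_mul]; ring
  have hval := lga_bound hL.tr hγ hZx N hN hVN A hk.ne'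
  have hcore := lga_core hV h hL hA (a + γ * b₁) γ δ hγ hδ Z Y hZx hYy hZW hZW' hY hY' hval
  have key : ∀ b ∈ V, 0 ≤ nA C A (X - algebraMap C Φ b) ∧
      (b₁ - b ∈ V.nonunits → nA C A (X - algebraMap C Φ b) = nA C A Z) := by
    intro b hb
    have e1 : X - algebraMap C Φ b = Z + algebraMap C Φ (b₁ - b) := by
      rw [hZ, map_sub]; ring
    by_cases hbn : b₁ - b ∈ V.nonunits
    · have e2 : nA C A Z = nA C A (X - algebraMap C Φ b) := by
        apply osb_congr hV h hA Z _ hZW hZW'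
        rw [e1]
        have e3 : Z - (Z + algebraMap C Φ (b₁ - b)) = algebraMap C Φ (-(b₁ - b)) := by
          rw [map_neg]; ring
        rw [e3, lga_nu h.base]
        exact neg_mem hbn
      refine ⟨?_, fun _ => e2.symm⟩
      rw [← e2]; exact hk.le
    · have e4 : V.valuation (b₁ - b) = 1 := (lga_unit V _).2 ⟨sub_mem hb₁ hb, hbn⟩
      have e5 := (osb_pos hV h hA Z hZW hZW' hk (b₁ - b) e4).2
      rw [← e1] at e5
      exact ⟨e5.ge, fun h0 => absurd h0 hbn⟩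
  have e6 := h2 A hA
  have e7 := (key b₂ hb₂).2 hnu
  have e8 := (key b₃ hb₃).1
  rw [e7] at e6
  omega

theorem lga {V : ValuationSubring C} {W : ValuationSubring Φ} {pts : Set (Subring Φ)}
    (hV : Rk1 V) (h : IsMdl V W pts) {x y : Φ} {l : C} (hL : Leg x y l) (N : ℕ) (hN : Module.finrank C⟮x⟯ Φ ≤ N)
    (hVN : ∀ k : ℕ, 1 ≤ k → k ≤ N → V.valuation (k : C) = 1) :
    V.valuation l = 1 ∧ V.valuation (1 - l) = 1 ∧ x ∈ W ∧
      ∀ b ∈ V, x - algebraMap C Φ b ∉ W.nonunits := by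
  obtain ⟨a, γ, hγ, hXW, hXr⟩ := h.trans x (fun c hc => hL.tr (by rw [hc]; exact isAlgebraic_algebraMap c))
  set X : Φ := (x - algebraMap C Φ a) / algebraMap C Φ γ with hXdef
  have hγ' : algebraMap C Φ γ ≠ 0 := (_root_.map_ne_zero _).2 hγ
  have hXx : x = algebraMap C Φ γ * X + algebraMap C Φ a := by
    rw [hXdef]; field_simp; ring
  have hXu : ∀ b ∈ V, W.valuation (X - algebraMap C Φ b) = 1 := fun b hb =>
    (lga_unit W _).2 ⟨sub_mem hXW ((h.base b).2 hb), hXr b hb⟩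
  have hX0 : X ∉ W.nonunits := by
    have := hXr 0 V.zero_mem
    rwa [map_zero, sub_zero] at this
  -- the factors
  have hfac : ∀ e : C, ∃ κ : C, κ ≠ 0 ∧ ∃ f : Φ, x - algebraMap C Φ e = algebraMap C Φ (γ * κ) * f ∧
      W.valuation f = 1 ∧ ((e - a) / γ ∈ V → κ = 1 ∧ f = X - algebraMap C Φ ((e - a) / γ)) ∧
      ((e - a) / γ ∉ V → f - 1 ∈ W.nonunits) := by
    intro e
    set e' := (e - a) / γ with he'
    have e1 : x - algebraMap C Φ e = algebraMap C Φ γ * (X - algebraMap C Φ e') := by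
      have e2 : algebraMap C Φ e = algebraMap C Φ γ * algebraMap C Φ e' + algebraMap C Φ a := by
        rw [← map_mul, ← map_add, he']
        congr 1
        field_simp
        ring
      rw [e2, hXx]
      ring
    by_cases hV' : e' ∈ V
    · exact ⟨1, one_ne_zero, X - algebraMap C Φ e', by rw [mul_one, e1], hXu e' hV',
        fun _ => ⟨rfl, rfl⟩, fun h0 => absurd hV' h0⟩
    · have he0 : e' ≠ 0 := by
        intro h0
        exact hV' (by rw [h0]; exact V.zero_mem)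
      have he0' : algebraMap C Φ e' ≠ 0 := (_root_.map_ne_zero _).2 he0
      have hnu : e'⁻¹ ∈ V.nonunits := (ValuationSubring.inv_mem_nonunits_iff V).2 (Or.inr hV')
      have hnu' : W.valuation (algebraMap C Φ e'⁻¹) < 1 :=
        (ValuationSubring.mem_nonunits_iff _).1 ((lga_nu h.base _).2 hnu)
      have hv : W.valuation (X * algebraMap C Φ e'⁻¹) < 1 := by
        rw [map_mul]
        exact mul_lt_one_of_nonneg_of_lt_one_right ((W.valuation_le_one_iff X).2 hXW) zero_le hnu'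
      refine ⟨-e', neg_ne_zero.2 he0, 1 - X * algebraMap C Φ e'⁻¹, ?_, ?_, fun h0 => absurd h0 hV',
        fun _ => ?_⟩
      · rw [e1, map_mul, map_neg, map_inv₀]
        field_simp
        ring
      · exact Valuation.map_one_sub_of_lt _ hv
      · rw [ValuationSubring.mem_nonunits_iff]
        have e3 : 1 - X * algebraMap C Φ e'⁻¹ - 1 = -(X * algebraMap C Φ e'⁻¹) := by ring
        rw [e3, Valuation.map_neg]
        exact hv
  obtain ⟨κ₀, hκ₀, f₀, hf₀, hu₀, hi₀, ho₀⟩ := hfac 0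
  obtain ⟨κ₁, hκ₁, f₁, hf₁, hu₁, hi₁, ho₁⟩ := hfac 1
  obtain ⟨κ₂, hκ₂, f₂, hf₂, hu₂, hi₂, ho₂⟩ := hfac l
  obtain ⟨δ, hδ⟩ := IsAlgClosed.exists_pow_nat_eq (γ ^ 3 * κ₀ * κ₁ * κ₂) (n := 2) (by norm_num)
  have hδ0 : δ ≠ 0 := by
    intro h0
    rw [h0] at hδ
    have : γ ^ 3 * κ₀ * κ₁ * κ₂ ≠ 0 := by positivity
    exact this (by rw [← hδ]; ring)
  have hδ' : algebraMap C Φ δ ≠ 0 := (_root_.map_ne_zero _).2 hδ0
  set Y : Φ := y / algebraMap C Φ δ with hYdef
  have hYy : y = algebraMap C Φ δ * Y := by rw [hYdef]; field_simp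
  have hY2 : Y * Y = f₀ * f₁ * f₂ := by
    have e1 : y ^ 2 = algebraMap C Φ (γ * κ₀) * f₀ * (algebraMap C Φ (γ * κ₁) * f₁) *
        (algebraMap C Φ (γ * κ₂) * f₂) := by
      rw [hL.eq, ← hf₀, ← hf₁, ← hf₂, map_zero, map_one, sub_zero]
    have e2 : algebraMap C Φ δ ^ 2 = algebraMap C Φ (γ ^ 3 * κ₀ * κ₁ * κ₂) := by
      rw [← map_pow, hδ]
    rw [hYy] at e1
    have e3 : algebraMap C Φ δ ^ 2 * (Y * Y) = algebraMap C Φ δ ^ 2 * (f₀ * f₁ * f₂) := by
      rw [e2]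
      have e4 : algebraMap C Φ (γ ^ 3 * κ₀ * κ₁ * κ₂) * (Y * Y) = (algebraMap C Φ δ * Y) ^ 2 := by
        rw [← e2]; ring
      rw [e4, e1]
      simp only [map_mul, map_pow]
      ring
    exact mul_left_cancel₀ (pow_ne_zero 2 hδ') e3
  have hYv : W.valuation Y = 1 := by
    have e1 : W.valuation Y * W.valuation Y = 1 := by
      rw [← map_mul, hY2, map_mul, map_mul, hu₀, hu₁, hu₂, one_mul, one_mul]
    rw [← pow_two] at e1
    exact (pow_eq_one_iff.1 e1).resolve_right (by norm_num)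
  obtain ⟨hYW, hYW'⟩ := (lga_unit W Y).1 hYv
  have hne : ∀ f : Φ, W.valuation f = 1 → f ≠ 0 := by
    intro f hf h0
    rw [h0, map_zero] at hf
    exact zero_ne_one hf
  have hsum : ∀ A : Subring Φ, 2 * nA C A Y = nA C A f₀ + nA C A f₁ + nA C A f₂ := by
    intro A
    have e1 := osb_mul (C := C) A Y Y (hne Y hYv) (hne Y hYv)
    rw [hY2, osb_mul A _ _ (mul_ne_zero (hne _ hu₀) (hne _ hu₁)) (hne _ hu₂),
      osb_mul A _ _ (hne _ hu₀) (hne _ hu₁)] at e1
    omega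
  have hone : ∀ A ∈ pts, ∀ f : Φ, W.valuation f = 1 → f - 1 ∈ W.nonunits → nA C A f = 0 := by
    intro A hA f hf hf1
    obtain ⟨e1, e2⟩ := (lga_unit W f).1 hf
    have e3 := osb_congr hV h hA f 1 e1 e2 hf1
    have e4 := osb_const (C := C) A 1
    rw [map_one] at e4
    rw [e3, e4]
  -- (1) all the roots are integral
  obtain ⟨A, hA, hkA⟩ := osc hV h X hXW hXr
  have hval := lga_bound hL.tr hγ hXx N hN hVN A hkA.ne
  have hcore := lga_core hV h hL hA a γ δ hγ hδ0 X Y hXx hYy hXW hX0 hYW hYW' hval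
  have hnf : ∀ e : C, ∀ f : Φ, W.valuation f = 1 →
      ((e - a) / γ ∈ V → f = X - algebraMap C Φ ((e - a) / γ)) →
      ((e - a) / γ ∉ V → f - 1 ∈ W.nonunits) →
      nA C A X ≤ nA C A f ∧ ((e - a) / γ ∉ V → nA C A f = 0) := by
    intro e f hf hi ho
    by_cases hV' : (e - a) / γ ∈ V
    · refine ⟨?_, fun h0 => absurd hV' h0⟩
      rw [hi hV', (osb_shift hV h hA X hXW hX0 hkA _ hV').2.2]
    · have e1 := hone A hA f hf (ho hV')
      exact ⟨by rw [e1]; exact hkA.le, fun _ => e1⟩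
  have h₀ := hnf 0 f₀ hu₀ (fun h0 => (hi₀ h0).2) ho₀
  have h₁ := hnf 1 f₁ hu₁ (fun h0 => (hi₁ h0).2) ho₁
  have h₂ := hnf l f₂ hu₂ (fun h0 => (hi₂ h0).2) ho₂
  have hsA := hsum A
  have hb₀ : (0 - a) / γ ∈ V := by
    by_contra h0
    have := h₀.2 h0
    have := h₁.1
    have := h₂.1
    omega
  have hb₁ : (1 - a) / γ ∈ V := by
    by_contra h0
    have := h₁.2 h0
    have := h₀.1
    have := h₂.1
    omega
  have hb₂ : (l - a) / γ ∈ V := by
    by_contra h0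
    have := h₂.2 h0
    have := h₀.1
    have := h₁.1
    omega
  have hF₀ := (hi₀ hb₀).2
  have hF₁ := (hi₁ hb₁).2
  have hF₂ := (hi₂ hb₂).2
  rw [hF₀, hF₁, hF₂] at hsum
  -- (2) the differences are units
  have hd₁ : V.valuation ((1 - a) / γ - (0 - a) / γ) = 1 :=
    lga_sep hV h hL N hN hVN a γ δ hγ hδ0 X Y hXx hYy hXW hXr hYW hYW' _ _ _ hb₁ hb₀ hb₂
      (fun A _ => by rw [hsum A]; ring)
  have hd₂ : V.valuation ((l - a) / γ - (0 - a) / γ) = 1 :=
    lga_sep hV h hL N hN hVN a γ δ hγ hδ0 X Y hXx hYy hXW hXr hYW hYW' _ _ _ hb₂ hb₀ hb₁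
      (fun A _ => by rw [hsum A]; ring)
  have hd₃ : V.valuation ((1 - a) / γ - (l - a) / γ) = 1 :=
    lga_sep hV h hL N hN hVN a γ δ hγ hδ0 X Y hXx hYy hXW hXr hYW hYW' _ _ _ hb₁ hb₂ hb₀
      (fun A _ => by rw [hsum A]; ring)
  have e₁ : (1 - a) / γ - (0 - a) / γ = γ⁻¹ := by field_simp; ring
  have e₂ : (l - a) / γ - (0 - a) / γ = l * γ⁻¹ := by field_simp; ring
  have e₃ : (1 - a) / γ - (l - a) / γ = (1 - l) * γ⁻¹ := by field_simp; ring
  rw [e₁] at hd₁
  rw [e₂, map_mul, hd₁, mul_one] at hd₂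
  rw [e₃, map_mul, hd₁, mul_one] at hd₃
  have hγ1 : V.valuation γ = 1 := by
    rw [map_inv₀, inv_eq_one] at hd₁
    exact hd₁
  have haV : a ∈ V := by
    have e4 : a = -((0 - a) / γ * γ) := by field_simp; ring
    rw [e4]
    exact neg_mem (mul_mem hb₀ ((V.valuation_le_one_iff γ).1 hγ1.le))
  refine ⟨hd₂, hd₃, ?_, ?_⟩
  · rw [hXx]
    exact add_mem (mul_mem ((h.base γ).2 ((V.valuation_le_one_iff γ).1 hγ1.le)) hXW) ((h.base a).2 haV)
  · intro b hb
    have e5 : x - algebraMap C Φ b = algebraMap C Φ γ * (X - algebraMap C Φ ((b - a) / γ)) := by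
      have e6 : algebraMap C Φ b = algebraMap C Φ γ * algebraMap C Φ ((b - a) / γ) + algebraMap C Φ a := by
        rw [← map_mul, ← map_add]
        congr 1
        field_simp
        ring
      rw [e6, hXx]
      ring
    have hb' : (b - a) / γ ∈ V := by
      rw [div_eq_mul_inv]
      exact mul_mem (sub_mem hb haV) ((V.valuation_le_one_iff _).1 (by rw [map_inv₀, hγ1, inv_one]))
    have e7 : W.valuation (x - algebraMap C Φ b) = 1 := by
      rw [e5, map_mul, hXu _ hb', mul_one, lga_one h.base]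
      exact hγ1
    exact ((lga_unit W _).1 e7).2

end Pool.Agent.ESH
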