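import Pool.Agent.ESH.LGE
import Pool.Agent.ESH.LGA
import Pool.Agent.ESH.INR

/-!
# ESH / LGI: inertia fixes the Legendre coordinates

`σ` commutes with `G` (`inr_comm`), so `(σ x, σ y, s l)` satisfies `FixLeg G`.  `Q` is a pole of `x` with non-trivial stabiliser: `plMap σ s hs Q = Q` (`inr_fix`), so `Q` is a pole of
`σ x`.  LGE: `σ x = α x + β`, `σ y = δ y`.  `σ x - x = (α - 1) x + β ∈ W.nonunits` and `x` is residually transcendental: so `α - 1, β ∈ V.nonunits` (if `β/(α-1) ∈ V`,
`x + β/(α-1) ∉ W.nonunits`; otherwise `(α-1)/β ∈ V.nonunits`...).  `s c ≡ c` modulo `V.nonunits` for `c ∈ V` (`σ` on constants).  For `e ∈ {0, 1, l}`, `s e ∈ {0, 1, s l}` so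
`s e = α e'' + β` with `e'' ∈ {0, 1, l}`, and `e'' ≡ s e ≡ e`; the elements `0, 1, l` are pairwise incongruent (`lga`), so `e'' = e`: `e = 0`: `β = 0`; `e = 1`: `α = 1`; `e = l`:
`s l = l`.  `δ² = 1`, `σ y = ±y`; `y` is a unit of `W` (`y² = x(x-1)(x-l)`), `2` is a unit, `σ y ≡ y`: `σ y = y`.
Values: `plMap σ s hs P = P` (`inr_fix`), `evl_map`: `ev P x = ev (σP) (σ x) = s (ev P x)`.
-/

namespace Pool.Agent.ESH

open Pool.Agent.Helper11 Polynomial IntermediateField

variable {C Φ : Type*} [Field C] [Field Φ] [Algebra C Φ] [FunField C Φ] [CharZero C] [IsAlgClosed C]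

private theorem LGI_nu {K : Type*} [Field K] (A : ValuationSubring K) (a : K) :
    a ∈ A.nonunits ↔ a = 0 ∨ a⁻¹ ∉ A := by
  rw [ValuationSubring.mem_nonunits_iff]
  by_cases ha : a = 0
  · subst ha
    simp
  · have h1 : A.valuation a ≠ 0 := (Valuation.ne_zero_iff _).2 ha
    rw [← ValuationSubring.valuation_le_one_iff, map_inv₀, inv_le_one₀ (zero_lt_iff.2 h1), not_le]
    simp [ha]

private theorem LGI_addn {K : Type*} [Field K] {A : ValuationSubring K} {a b : K}
    (ha : a ∈ A.nonunits) (hb : b ∈ A.nonunits) : a + b ∈ A.nonunits := by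
  rw [ValuationSubring.mem_nonunits_iff] at ha hb ⊢
  exact A.valuation.map_add_lt ha hb

private theorem LGI_muln {K : Type*} [Field K] {A : ValuationSubring K} {a b : K}
    (ha : a ∈ A.nonunits) (hb : b ∈ A) : a * b ∈ A.nonunits := by
  rw [ValuationSubring.mem_nonunits_iff] at ha ⊢
  rw [← A.valuation_le_one_iff] at hb
  rw [map_mul]
  exact mul_lt_one_of_lt_of_le ha hb

private theorem LGI_negn {K : Type*} [Field K] {A : ValuationSubring K} {a : K}
    (ha : a ∈ A.nonunits) : -a ∈ A.nonunits := by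
  rw [ValuationSubring.mem_nonunits_iff] at ha ⊢
  rwa [Valuation.map_neg]

private theorem LGI_inv {K : Type*} [Field K] {A : ValuationSubring K} {a : K}
    (ha : a ∉ A.nonunits) : a⁻¹ ∈ A := by
  rw [LGI_nu, not_or, not_not] at ha
  exact ha.2

private theorem LGI_one {K : Type*} [Field K] (A : ValuationSubring K) : (1 : K) ∉ A.nonunits := by
  rw [LGI_nu]
  rintro (h | h)
  · exact one_ne_zero h
  · apply h
    rw [inv_one]
    exact one_mem A

private theorem LGI_basen {V : ValuationSubring C} {W : ValuationSubring Φ}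
    (hb : ∀ c : C, algebraMap C Φ c ∈ W ↔ c ∈ V) (c : C) :
    algebraMap C Φ c ∈ W.nonunits ↔ c ∈ V.nonunits := by
  rw [LGI_nu, LGI_nu, ← map_inv₀, hb, map_eq_zero]

/-- Legendre coordinates are mapped to Legendre coordinates -/
theorem LGI_leg (G : Subgroup (Φ ≃ₐ[C] Φ)) {x y : Φ} {l : C} (hx : FixLeg G x y l)
    (σ : Φ ≃+* Φ) (s : C ≃+* C) (hs : ∀ c : C, σ (algebraMap C Φ c) = algebraMap C Φ (s c))
    (hc : ∀ γ ∈ G, ∀ f, σ (γ f) = γ (σ f)) : FixLeg G (σ x) (σ y) (s l) := by
  refine ⟨⟨?_, ?_, ?_, ?_⟩, ?_, ?_, ?_⟩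
  · intro halg
    obtain ⟨c, hcx⟩ := mem_range_of_isAlgebraic halg
    apply hx.leg.tr
    have h1 : x = algebraMap C Φ (s.symm c) := by
      apply σ.injective
      rw [hs, RingEquiv.apply_symm_apply, hcx]
    rw [h1]
    exact isAlgebraic_algebraMap _
  · rw [← map_pow, hx.leg.eq, map_mul, map_mul, map_sub, map_sub, map_one, hs]
  · intro h0
    apply hx.leg.l0
    apply s.injective
    rw [h0, map_zero]
  · intro h0
    apply hx.leg.l1
    apply s.injective
    rw [h0, map_one]
  · intro g hg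
    rw [← hc g hg, hx.fx g hg]
  · intro g hg
    rw [← hc g hg, hx.fy g hg]
  · intro f hf
    have h1 : σ.symm f ∈ IntermediateField.adjoin C {x, y} := by
      apply hx.gen
      intro g hg
      apply σ.injective
      rw [hc g hg, RingEquiv.apply_symm_apply, hf g hg]
    have h2 : ∀ z ∈ IntermediateField.adjoin C {x, y}, σ z ∈ IntermediateField.adjoin C {σ x, σ y} := by
      intro z hz
      induction hz using IntermediateField.adjoin_induction with
      | mem z hz =>
        rcases hz with rfl | rfl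
        · exact IntermediateField.subset_adjoin _ _ (Or.inl rfl)
        · exact IntermediateField.subset_adjoin _ _ (Or.inr rfl)
      | algebraMap c =>
        rw [hs]
        exact IntermediateField.algebraMap_mem _ _
      | add a b ha hb iha ihb =>
        rw [map_add]
        exact add_mem iha ihb
      | inv a ha iha =>
        rw [map_inv₀]
        exact inv_mem iha
      | mul a b ha hb iha ihb =>
        rw [map_mul]
        exact mul_mem iha ihb
    have h3 := h2 _ h1
    rwa [RingEquiv.apply_symm_apply] at h3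

theorem lgi {V : ValuationSubring C} {W : ValuationSubring Φ} {pts : Set (Subring Φ)}
    (hV : Rk1 V) (h : IsMdl V W pts) (hg : PosGenus C Φ) (Γ G : Subgroup (Φ ≃ₐ[C] Φ)) [Finite Γ]
    (hΓ : V.valuation (Nat.card Γ : C) = 1) (hG : G ≤ Γ) {x y : Φ} {l : C} (hx : FixLeg G x y l)
    (h2 : ∀ k : ℕ, 1 ≤ k → k ≤ 2 * Nat.card G → V.valuation (k : C) = 1)
    (Q : Place C Φ) (hQ : Q.ord x < 0) (hQr : Ram G Q)
    (σ : Φ ≃+* Φ) (s : C ≃+* C) (hs : ∀ c : C, σ (algebraMap C Φ c) = algebraMap C Φ (s c))
    (hσW : ∀ f ∈ W, σ f - f ∈ W.nonunits) (hσA : ∀ A ∈ pts, PresA σ A)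
    (hσΓ : ∀ γ ∈ Γ, ∃ γ' ∈ Γ, ∀ f, σ (γ f) = γ' (σ f)) :
    σ x = x ∧ σ y = y ∧ s l = l ∧
      ∀ P : Place C Φ, Ram G P → 0 ≤ P.ord x → s (ev P x) = ev P x ∧ s (ev P y) = ev P y := by
  have hfG : Finite G := Finite.of_injective (Subgroup.inclusion hG) (Subgroup.inclusion_injective hG)
  have hcG : 1 ≤ Nat.card G := Nat.card_pos
  obtain ⟨hl, hl1, hxW, hxt⟩ := lga hV h hx.leg (2 * Nat.card G) (lgt_deg G hx).le h2
  have hcomm := inr_comm hV h hg Γ hΓ σ hσW hσΓ
  have hx' := LGI_leg G hx σ s hs fun γ hγ => hcomm γ (hG hγ)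
  have hfix : ∀ P : Place C Φ, Ram G P → plMap σ s hs P = P := by
    rintro P ⟨g, hg1, hg2, hg3⟩
    exact inr_fix hV h hg Γ hΓ σ s hs hσA hcomm P ⟨g, hG hg1, hg2, hg3⟩
  have hQ' : Q.ord (σ x) < 0 := by
    have h1 : (plMap σ s hs Q).ord (σ x) = Q.ord x := by
      show Q.ord (σ.symm (σ x)) = Q.ord x
      rw [RingEquiv.symm_apply_apply]
    rw [hfix Q hQr] at h1
    rw [h1]
    exact hQ
  obtain ⟨α, β, δ, hα, hx1, hδ, hy1, -, hroots⟩ := lge G hx hx' Q hQ hQ'
  have hbn := LGI_basen h.base
  -- `α - 1` and `β` are in `V.nonunits`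
  have hd : algebraMap C Φ (α - 1) * x + algebraMap C Φ β ∈ W.nonunits := by
    have h1 := hσW x hxW
    have e : σ x - x = algebraMap C Φ (α - 1) * x + algebraMap C Φ β := by
      rw [hx1, map_sub, map_one]; ring
    rwa [e] at h1
  have hαβ : α - 1 ∈ V.nonunits ∧ β ∈ V.nonunits := by
    by_cases hα1 : α - 1 = 0
    · rw [hα1]
      refine ⟨by rw [LGI_nu]; left; rfl, ?_⟩
      rw [hα1, map_zero, zero_mul, zero_add, hbn] at hd
      exact hd
    · by_cases hr : β / (α - 1) ∈ V
      · have h1 := hxt (-(β / (α - 1))) (neg_mem hr)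
        have h3 := LGI_inv h1
        have h4 := LGI_muln hd h3
        have hz : x - algebraMap C Φ (-(β / (α - 1))) ≠ 0 := by
          intro hz
          rw [hz] at h1
          apply h1
          rw [LGI_nu]; left; rfl
        have e : (algebraMap C Φ (α - 1) * x + algebraMap C Φ β) *
            (x - algebraMap C Φ (-(β / (α - 1))))⁻¹ = algebraMap C Φ (α - 1) := by
          rw [mul_inv_eq_iff_eq_mul₀ hz, map_neg, sub_neg_eq_add, mul_add, ← map_mul,
            mul_div_cancel₀ _ hα1]
        rw [e, hbn] at h4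
        refine ⟨h4, ?_⟩
        have h5 := LGI_muln h4 hr
        rwa [mul_div_cancel₀ _ hα1] at h5
      · have hβ0 : β ≠ 0 := by
          rintro rfl
          apply hr
          rw [zero_div]
          exact zero_mem V
        have hr' : (α - 1) / β ∈ V.nonunits := by
          rw [LGI_nu]
          right
          rwa [inv_div]
        have h1 : algebraMap C Φ ((α - 1) / β) * x ∈ W.nonunits := LGI_muln ((hbn _).2 hr') hxW
        have h3 : 1 + algebraMap C Φ ((α - 1) / β) * x ∉ W.nonunits := by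
          intro h4
          have h5 := LGI_addn h4 (LGI_negn h1)
          rw [add_neg_cancel_right] at h5
          exact LGI_one W h5
        have h4 := LGI_muln hd (LGI_inv h3)
        have hz : 1 + algebraMap C Φ ((α - 1) / β) * x ≠ 0 := by
          intro hz
          rw [hz] at h3
          apply h3
          rw [LGI_nu]; left; rfl
        have e : (algebraMap C Φ (α - 1) * x + algebraMap C Φ β) *
            (1 + algebraMap C Φ ((α - 1) / β) * x)⁻¹ = algebraMap C Φ β := by
          rw [mul_inv_eq_iff_eq_mul₀ hz, mul_add, mul_one, ← mul_assoc, ← map_mul,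
            mul_div_cancel₀ _ hβ0, add_comm]
        rw [e, hbn] at h4
        refine ⟨?_, h4⟩
        have h5 := LGI_muln h4 (V.nonunits_subset hr')
        rwa [mul_div_cancel₀ _ hβ0] at h5
  obtain ⟨hα1, hβ1⟩ := hαβ
  -- `s` is congruent to the identity
  have hsc : ∀ c ∈ V, s c - c ∈ V.nonunits := by
    intro c hc
    have h1 := hσW _ ((h.base c).2 hc)
    rwa [hs, ← map_sub, hbn] at h1
  have hlV : l ∈ V := by
    rw [← V.valuation_le_one_iff]
    exact hl.le
  have hln : l ∉ V.nonunits := by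
    rw [ValuationSubring.mem_nonunits_iff, hl]
    exact lt_irrefl _
  have hl1n : l - 1 ∉ V.nonunits := by
    intro h1
    have h3 := LGI_negn h1
    rw [neg_sub, ValuationSubring.mem_nonunits_iff, hl1] at h3
    exact lt_irrefl _ h3
  have hmem : ∀ e : C, (e = 0 ∨ e = 1 ∨ e = l) → e ∈ V := by
    rintro e (rfl | rfl | rfl)
    · exact zero_mem V
    · exact one_mem V
    · exact hlV
  have hcong : ∀ e e' : C, (e = 0 ∨ e = 1 ∨ e = l) → α * e + β = e' → e - e' ∈ V.nonunits := by
    intro e e' he hee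
    have h1 := LGI_addn (LGI_muln hα1 (hmem e he)) hβ1
    have e1 : e - e' = -((α - 1) * e + β) := by
      rw [← hee]; ring
    rw [e1]
    exact LGI_negn h1
  have hβ0 : β = 0 := by
    obtain ⟨e, he, hee⟩ := hroots 0 (Or.inl rfl)
    have h1 := hcong e 0 he hee
    rw [sub_zero] at h1
    rcases he with rfl | rfl | rfl
    · rwa [mul_zero, zero_add] at hee
    · exact absurd h1 (LGI_one V)
    · exact absurd h1 hln
  have hα1' : α = 1 := by
    obtain ⟨e, he, hee⟩ := hroots 1 (Or.inr (Or.inl rfl))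
    have h1 := hcong e 1 he hee
    rcases he with rfl | rfl | rfl
    · exfalso
      have h3 := LGI_negn h1
      rw [neg_sub, sub_zero] at h3
      exact LGI_one V h3
    · rwa [hβ0, mul_one, add_zero] at hee
    · exact absurd h1 hl1n
  have hsl : s l = l := by
    obtain ⟨e, he, hee⟩ := hroots (s l) (Or.inr (Or.inr rfl))
    have h1 := hcong e (s l) he hee
    have h3 := LGI_addn h1 (hsc l hlV)
    rw [sub_add_sub_cancel] at h3
    rw [hα1', hβ0, one_mul, add_zero] at hee
    rcases he with rfl | rfl | rfl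
    · exfalso
      have h4 := LGI_negn h3
      rw [neg_sub, sub_zero] at h4
      exact hln h4
    · exfalso
      have h4 := LGI_negn h3
      rw [neg_sub] at h4
      exact hl1n h4
    · exact hee.symm
  have hσx : σ x = x := by
    rw [hx1, hα1', hβ0, map_one, map_zero, one_mul, add_zero]
  have hσy : σ y = y := by
    rw [hα1', one_pow] at hδ
    have hδ' : δ = 1 ∨ δ = -1 := by
      have h3 : (δ - 1) * (δ + 1) = 0 := by linear_combination hδ
      rcases mul_eq_zero.1 h3 with h4 | h4
      · left; exact sub_eq_zero.1 h4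
      · right; exact eq_neg_of_add_eq_zero_left h4
    rcases hδ' with h1 | h1
    · rw [hy1, h1, map_one, one_mul]
    · exfalso
      have hval : ∀ b ∈ V, W.valuation (x - algebraMap C Φ b) = 1 := by
        intro b hb
        have h3 : x - algebraMap C Φ b ∈ W := sub_mem hxW ((h.base b).2 hb)
        have h4 := hxt b hb
        rw [ValuationSubring.mem_nonunits_iff, not_lt] at h4
        exact le_antisymm (by rwa [W.valuation_le_one_iff]) h4
      have hv0 := hval 0 (zero_mem V)
      rw [map_zero, sub_zero] at hv0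
      have hv1 := hval 1 (one_mem V)
      rw [map_one] at hv1
      have hvl := hval l hlV
      have hy2 : W.valuation y ^ 2 = 1 := by
        rw [← map_pow, hx.leg.eq, map_mul, map_mul, hv0, hv1, hvl, one_mul, one_mul]
      have hyv : W.valuation y = 1 := by
        rcases lt_trichotomy (W.valuation y) 1 with h3 | h3 | h3
        · exact absurd hy2 (pow_lt_one₀ (zero_le) h3 two_ne_zero).ne
        · exact h3
        · exact absurd hy2 (one_lt_pow₀ h3 two_ne_zero).ne'
      have hyW : y ∈ W := by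
        rw [← W.valuation_le_one_iff]
        exact hyv.le
      have h3 := hσW y hyW
      have e : σ y - y = -(algebraMap C Φ 2 * y) := by
        rw [hy1, h1, map_neg, map_one, map_ofNat]; ring
      rw [e] at h3
      have h4 := LGI_negn h3
      rw [neg_neg] at h4
      have hyn : y ∉ W.nonunits := by
        rw [ValuationSubring.mem_nonunits_iff, hyv]
        exact lt_irrefl _
      have hy0 : y ≠ 0 := by
        rintro rfl
        apply hyn
        rw [LGI_nu]; left; rfl
      have h5 := LGI_muln h4 (LGI_inv hyn)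
      rw [mul_assoc, mul_inv_cancel₀ hy0, mul_one, hbn, ValuationSubring.mem_nonunits_iff] at h5
      have h6 := h2 2 (by norm_num) (by omega)
      rw [Nat.cast_ofNat] at h6
      rw [h6] at h5
      exact lt_irrefl _ h5
  refine ⟨hσx, hσy, hsl, fun P hP hPx => ?_⟩
  have hxP : x ∈ P.ge 0 := P.mem_ge_of_le hPx
  have hyP : y ∈ P.ge 0 := by
    by_cases hy0 : y = 0
    · rw [hy0]
      exact zero_mem _
    · apply P.mem_ge_of_le
      have h1 : y ^ 2 ∈ P.ge 0 := by
        rw [hx.leg.eq]
        have h3 := P.mul_mem_ge (P.mul_mem_ge hxP (sub_mem hxP P.one_mem_ge))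
          (sub_mem hxP (P.algebraMap_mem_ge l))
        simpa using h3
      have h3 := P.le_ord_of_mem h1 (pow_ne_zero 2 hy0)
      rw [P.ord_pow] at h3
      push_cast at h3
      omega
  have h3 := evl_map σ s hs P hxP
  have h4 := evl_map σ s hs P hyP
  rw [hfix P hP] at h3 h4
  rw [hσx] at h3
  rw [hσy] at h4
  exact ⟨h3.symm, h4.symm⟩

end Pool.Agent.ESH
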