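import Pool.Agent.ESH.TWA

/-!
# ESH / PLQ: integral polynomials of a rational function of two algebraic numbers

Proof (different from the determinant proof): `d₁, d₂` the degrees, `α₁, α₂` the leading coefficients, `β = α₁ α₂`, `D = d₁ d₂`.
The `D + 1` numbers `β^(2D) (r₁ + r₂)^(2k) (r₁ r₂)^(D - k)`, `k ≤ D`, are integral combinations of the `r₁^i r₂^j`, `i < d₁`, `j < d₂`,
with coefficients of absolute value at most `(16 A⁴)^D`.  The lemma of Siegel gives an integral relation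
`∑ t_k (r₁ + r₂)^(2k) (r₁ r₂)^(D - k) = 0`, and `(r₁ + r₂)² = 4 a r₁ r₂`, so `∑ t_k (4 a)^k = 0`.
-/

namespace Pool.Agent.ESH

open Polynomial

attribute [local instance] Matrix.seminormedAddCommGroup

/-- integral combinations of the monomials -/
private def PLQRep {C : Type*} [Field C] (r₁ r₂ : C) (d₁ d₂ : ℕ) (B : ℤ) (x : C) : Prop :=
  ∃ c : ℕ → ℕ → ℤ, (∀ i j, |c i j| ≤ B) ∧
    x = ∑ i ∈ Finset.range d₁, ∑ j ∈ Finset.range d₂, (c i j : C) * r₁ ^ i * r₂ ^ j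

section

variable {C : Type*} [Field C]

private theorem plqRep_swap {r₁ r₂ : C} {d₁ d₂ : ℕ} {B : ℤ} {x : C}
    (h : PLQRep r₁ r₂ d₁ d₂ B x) : PLQRep r₂ r₁ d₂ d₁ B x := by
  obtain ⟨c, hc, rfl⟩ := h
  refine ⟨fun i j => c j i, fun i j => hc j i, ?_⟩
  rw [Finset.sum_comm]
  refine Finset.sum_congr rfl fun i _ => Finset.sum_congr rfl fun j _ => ?_
  ring

private theorem plqRep_mono {r₁ r₂ : C} {d₁ d₂ : ℕ} {B B' : ℤ} {x : C} (hB : B ≤ B')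
    (h : PLQRep r₁ r₂ d₁ d₂ B x) : PLQRep r₁ r₂ d₁ d₂ B' x := by
  obtain ⟨c, hc, rfl⟩ := h
  exact ⟨c, fun i j => (hc i j).trans hB, rfl⟩

private theorem plqRep_add {r₁ r₂ : C} {d₁ d₂ : ℕ} {B B' : ℤ} {x y : C}
    (h : PLQRep r₁ r₂ d₁ d₂ B x) (h' : PLQRep r₁ r₂ d₁ d₂ B' y) :
    PLQRep r₁ r₂ d₁ d₂ (B + B') (x + y) := by
  obtain ⟨c, hc, rfl⟩ := h
  obtain ⟨c', hc', rfl⟩ := h'
  refine ⟨fun i j => c i j + c' i j, fun i j => (abs_add_le _ _).trans (add_le_add (hc i j) (hc' i j)), ?_⟩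
  rw [← Finset.sum_add_distrib]
  refine Finset.sum_congr rfl fun i _ => ?_
  rw [← Finset.sum_add_distrib]
  refine Finset.sum_congr rfl fun j _ => ?_
  push_cast
  ring

private theorem plqRep_smul {r₁ r₂ : C} {d₁ d₂ : ℕ} {B A m : ℤ} {x : C} (hA : |m| ≤ A)
    (h : PLQRep r₁ r₂ d₁ d₂ B x) : PLQRep r₁ r₂ d₁ d₂ (A * B) (m * x) := by
  obtain ⟨c, hc, rfl⟩ := h
  refine ⟨fun i j => m * c i j, fun i j => ?_, ?_⟩
  · rw [abs_mul]
    exact mul_le_mul hA (hc i j) (abs_nonneg _) ((abs_nonneg _).trans hA)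
  rw [Finset.mul_sum]
  refine Finset.sum_congr rfl fun i _ => ?_
  rw [Finset.mul_sum]
  refine Finset.sum_congr rfl fun j _ => ?_
  push_cast
  ring

private theorem plqRep_one {r₁ r₂ : C} {d₁ d₂ : ℕ} (h1 : 1 ≤ d₁) (h2 : 1 ≤ d₂) :
    PLQRep r₁ r₂ d₁ d₂ 1 1 := by
  refine ⟨fun i j => if i = 0 ∧ j = 0 then 1 else 0, fun i j => ?_, ?_⟩
  · show |(if i = 0 ∧ j = 0 then (1 : ℤ) else 0)| ≤ 1
    split_ifs <;> simp
  · rw [Finset.sum_eq_single 0, Finset.sum_eq_single 0]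
    · simp
    · intro j _ hj
      simp [hj]
    · intro h
      exact absurd (Finset.mem_range.2 (by omega)) h
    · intro i _ hi
      refine Finset.sum_eq_zero fun j _ => ?_
      simp [hi]
    · intro h
      exact absurd (Finset.mem_range.2 (by omega)) h

private theorem plq_line (e : ℕ) (P : ℤ[X]) (r : C) (hd : P.natDegree = e + 1)
    (hr : aeval r P = 0) (c : ℕ → ℤ) :
    ∑ i ∈ Finset.range (e + 1), ((P.coeff (e + 1) * c i : ℤ) : C) * r ^ (i + 1) =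
      ∑ i ∈ Finset.range (e + 1),
        (((if i = 0 then 0 else P.coeff (e + 1) * c (i - 1)) - P.coeff i * c e : ℤ) : C) * r ^ i := by
  have h1 : ∑ i ∈ Finset.range (e + 1), (P.coeff i : C) * r ^ i = - ((P.coeff (e + 1) : C) * r ^ (e + 1)) := by
    rw [aeval_eq_sum_range, hd, Finset.sum_range_succ] at hr
    simp only [zsmul_eq_mul] at hr
    linear_combination hr
  have h2 : ∑ i ∈ Finset.range (e + 1),
        (((if i = 0 then 0 else P.coeff (e + 1) * c (i - 1)) - P.coeff i * c e : ℤ) : C) * r ^ i =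
      ∑ i ∈ Finset.range (e + 1), (((if i = 0 then 0 else P.coeff (e + 1) * c (i - 1)) : ℤ) : C) * r ^ i
        - c e * ∑ i ∈ Finset.range (e + 1), (P.coeff i : C) * r ^ i := by
    rw [Finset.mul_sum, ← Finset.sum_sub_distrib]
    refine Finset.sum_congr rfl fun i _ => ?_
    push_cast
    ring
  rw [h2, h1, Finset.sum_range_succ, Finset.sum_range_succ' _ e]
  simp only [Nat.add_eq_zero_iff, one_ne_zero, and_false, if_false, Nat.add_sub_cancel, if_true]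
  push_cast
  ring

private theorem plqRep_mul {r₁ r₂ : C} {d₂ e : ℕ} {B A : ℤ} {x : C} (P : ℤ[X])
    (hd : P.natDegree = e + 1) (hr : aeval r₁ P = 0) (hA : ∀ i, |P.coeff i| ≤ A)
    (h : PLQRep r₁ r₂ (e + 1) d₂ B x) :
    PLQRep r₁ r₂ (e + 1) d₂ (2 * A * B) (P.coeff (e + 1) * (r₁ * x)) := by
  obtain ⟨c, hc, rfl⟩ := h
  have hA0 : 0 ≤ A := (abs_nonneg _).trans (hA 0)
  have hB0 : 0 ≤ B := (abs_nonneg _).trans (hc 0 0)
  refine ⟨fun i j => (if i = 0 then 0 else P.coeff (e + 1) * c (i - 1) j) - P.coeff i * c e j,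
    fun i j => ?_, ?_⟩
  · have h1 : |(if i = 0 then 0 else P.coeff (e + 1) * c (i - 1) j)| ≤ A * B := by
      split_ifs
      · rw [abs_zero]; positivity
      · rw [abs_mul]
        exact mul_le_mul (hA _) (hc _ _) (abs_nonneg _) hA0
    have h2 : |P.coeff i * c e j| ≤ A * B := by
      rw [abs_mul]
      exact mul_le_mul (hA _) (hc _ _) (abs_nonneg _) hA0
    have h3 := abs_sub (if i = 0 then 0 else P.coeff (e + 1) * c (i - 1) j) (P.coeff i * c e j)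
    linarith
  · rw [Finset.sum_comm, Finset.sum_comm (s := Finset.range (e + 1)), Finset.mul_sum, Finset.mul_sum]
    refine Finset.sum_congr rfl fun j _ => ?_
    have h4 := plq_line e P r₁ hd hr (fun i => c i j)
    have h5 : ∑ i ∈ Finset.range (e + 1),
        (((if i = 0 then 0 else P.coeff (e + 1) * c (i - 1) j) - P.coeff i * c e j : ℤ) : C) *
          r₁ ^ i * r₂ ^ j = (∑ i ∈ Finset.range (e + 1),
        (((if i = 0 then 0 else P.coeff (e + 1) * c (i - 1) j) - P.coeff i * c e j : ℤ) : C) *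
          r₁ ^ i) * r₂ ^ j := by
      rw [Finset.sum_mul]
    rw [h5, ← h4, Finset.sum_mul, Finset.mul_sum, Finset.mul_sum]
    refine Finset.sum_congr rfl fun i _ => ?_
    push_cast
    ring

private theorem plqRep_mul' {r₁ r₂ : C} {d₁ e : ℕ} {B A : ℤ} {x : C} (P : ℤ[X])
    (hd : P.natDegree = e + 1) (hr : aeval r₂ P = 0) (hA : ∀ i, |P.coeff i| ≤ A)
    (h : PLQRep r₁ r₂ d₁ (e + 1) B x) :
    PLQRep r₁ r₂ d₁ (e + 1) (2 * A * B) (P.coeff (e + 1) * (r₂ * x)) :=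
  plqRep_swap (plqRep_mul P hd hr hA (plqRep_swap h))

end

private theorem plq_bound (D s A : ℕ) (hs : 16 ≤ s) (hD : D ≤ s ^ 2) (hA : A ≤ s) :
    ((D + 1) * (16 * A ^ 4) ^ D) ^ D * 4 ^ D ≤ tw 3 s := by
  have h1 : s < 2 ^ s := Nat.lt_two_pow_self
  have h2 : 16 * A ^ 4 ≤ 2 ^ (5 * s) := by
    calc 16 * A ^ 4 ≤ 2 ^ s * (2 ^ s) ^ 4 := by
          apply Nat.mul_le_mul
          · omega
          · exact Nat.pow_le_pow_left (by omega) 4
      _ = 2 ^ (5 * s) := by rw [← pow_mul, ← pow_add]; ring_nf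
  have h3 : D + 1 ≤ 2 ^ D := Nat.lt_two_pow_self
  have h4 : (D + 1) * (16 * A ^ 4) ^ D ≤ 2 ^ (6 * s * D) := by
    calc (D + 1) * (16 * A ^ 4) ^ D ≤ 2 ^ D * (2 ^ (5 * s)) ^ D :=
          Nat.mul_le_mul h3 (Nat.pow_le_pow_left h2 D)
      _ = 2 ^ (D + 5 * s * D) := by rw [← pow_mul, ← pow_add]
      _ ≤ 2 ^ (6 * s * D) := by
          apply Nat.pow_le_pow_right (by norm_num)
          nlinarith
  have h5 : ((D + 1) * (16 * A ^ 4) ^ D) ^ D * 4 ^ D ≤ 2 ^ (6 * s * D * D + 2 * D) := by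
    calc ((D + 1) * (16 * A ^ 4) ^ D) ^ D * 4 ^ D ≤ (2 ^ (6 * s * D)) ^ D * (2 ^ 2) ^ D :=
          Nat.mul_le_mul (Nat.pow_le_pow_left h4 D) (by norm_num)
      _ = 2 ^ (6 * s * D * D + 2 * D) := by rw [← pow_mul, ← pow_mul, ← pow_add]
  have h6 : 6 * s * D * D + 2 * D ≤ 8 * s ^ 5 := by
    have e1 : D * D ≤ s ^ 2 * s ^ 2 := Nat.mul_le_mul hD hD
    have e2 : 6 * s * D * D ≤ 6 * s * (s ^ 2 * s ^ 2) := by
      rw [mul_assoc (6 * s)]
      exact Nat.mul_le_mul_left _ e1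
    have e3 : s ^ 2 ≤ s ^ 5 := Nat.pow_le_pow_right (by omega) (by norm_num)
    have e4 : 6 * s * (s ^ 2 * s ^ 2) = 6 * s ^ 5 := by ring
    omega
  have h7 : 8 * s ^ 5 ≤ 2 ^ (3 + 5 * s) := by
    calc 8 * s ^ 5 ≤ 2 ^ 3 * (2 ^ s) ^ 5 := Nat.mul_le_mul (by norm_num) (Nat.pow_le_pow_left h1.le 5)
      _ = 2 ^ (3 + 5 * s) := by rw [← pow_mul, ← pow_add]; ring_nf
  have h8 : 3 + 5 * s ≤ 2 ^ s := by
    have key : ∀ n : ℕ, 16 ≤ n → 3 + 5 * n ≤ 2 ^ n := by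
      intro n hn
      induction n, hn using Nat.le_induction with
      | base => norm_num
      | succ n hn ih => rw [pow_succ]; omega
    exact key s hs
  calc ((D + 1) * (16 * A ^ 4) ^ D) ^ D * 4 ^ D ≤ 2 ^ (6 * s * D * D + 2 * D) := h5
    _ ≤ 2 ^ (2 ^ (2 ^ s)) := Nat.pow_le_pow_right (by norm_num)
        (h6.trans (h7.trans (Nat.pow_le_pow_right (by norm_num) h8)))
    _ = tw 3 s := by rw [tw_succ, tw_succ, tw_succ, tw_zero]

theorem plq {C : Type*} [Field C] [CharZero C] (r₁ r₂ a : C) (h1 : r₁ ≠ 0) (h2 : r₂ ≠ 0)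
    (ha : 4 * a = r₂ / r₁ + 2 + r₁ / r₂) (P₁ P₂ : ℤ[X]) (hP₁ : P₁ ≠ 0) (hP₂ : P₂ ≠ 0) (N A : ℕ)
    (hd₁ : P₁.natDegree ≤ N) (hd₂ : P₂.natDegree ≤ N) (hA₁ : ∀ i, |P₁.coeff i| ≤ (A : ℤ))
    (hA₂ : ∀ i, |P₂.coeff i| ≤ (A : ℤ)) (hr₁ : aeval r₁ P₁ = 0) (hr₂ : aeval r₂ P₂ = 0) :
    ∃ Q : ℤ[X], Q ≠ 0 ∧ Q.natDegree ≤ N ^ 2 ∧ aeval a Q = 0 ∧
      ∀ i, |Q.coeff i| ≤ (tw 3 (N + A + 16) : ℤ) := by
  have hpos : ∀ (P : ℤ[X]) (r : C), P ≠ 0 → aeval r P = 0 → ∃ e, P.natDegree = e + 1 := by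
    intro P r hP hr
    refine Nat.exists_eq_succ_of_ne_zero fun h0 => ?_
    have e0 := eq_C_of_natDegree_eq_zero h0
    have e1 : ((P.coeff 0 : ℤ) : C) = 0 := by
      have e2 : aeval r P = aeval r (Polynomial.C (P.coeff 0)) := congrArg _ e0
      rw [hr, aeval_C] at e2
      exact e2.symm
    have e3 : P.coeff 0 = 0 := by exact_mod_cast e1
    exact hP (by rw [e0, e3, C_0])
  obtain ⟨e₁, he₁⟩ := hpos P₁ r₁ hP₁ hr₁
  obtain ⟨e₂, he₂⟩ := hpos P₂ r₂ hP₂ hr₂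
  set α₁ : ℤ := P₁.coeff (e₁ + 1) with hα₁
  set α₂ : ℤ := P₂.coeff (e₂ + 1) with hα₂
  have hα₁0 : α₁ ≠ 0 := by
    rw [hα₁, ← he₁]
    exact leadingCoeff_ne_zero.2 hP₁
  have hα₂0 : α₂ ≠ 0 := by
    rw [hα₂, ← he₂]
    exact leadingCoeff_ne_zero.2 hP₂
  have hA0 : (0 : ℤ) ≤ A := Nat.cast_nonneg A
  have hA1 : (1 : ℤ) ≤ A := (Int.one_le_abs hα₁0).trans (hA₁ _)
  set G : ℤ := 16 * A ^ 4 with hG
  have hG1 : 1 ≤ G := by
    rw [hG]
    have : (1 : ℤ) ≤ (A : ℤ) ^ 4 := one_le_pow₀ hA1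
    omega
  set D : ℕ := (e₁ + 1) * (e₂ + 1) with hD
  -- the two multiplications
  have hS : ∀ B x, 0 ≤ B → PLQRep r₁ r₂ (e₁ + 1) (e₂ + 1) B x →
      PLQRep r₁ r₂ (e₁ + 1) (e₂ + 1) (4 * A ^ 2 * B) ((α₁ * α₂ : C) * (r₁ + r₂) * x) := by
    intro B x hB h
    have e1 := plqRep_smul (hA₂ (e₂ + 1)) (plqRep_mul P₁ he₁ hr₁ hA₁ h)
    have e2 := plqRep_smul (hA₁ (e₁ + 1)) (plqRep_mul' P₂ he₂ hr₂ hA₂ h)
    have e3 := plqRep_add e1 e2
    have e4 : (α₁ * α₂ : C) * (r₁ + r₂) * x =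
      (P₂.coeff (e₂ + 1) : C) * ((P₁.coeff (e₁ + 1) : C) * (r₁ * x)) +
      (P₁.coeff (e₁ + 1) : C) * ((P₂.coeff (e₂ + 1) : C) * (r₂ * x)) := by
      rw [← hα₁, ← hα₂]; ring
    rw [e4]
    refine plqRep_mono (le_of_eq ?_) e3
    ring
  have hT : ∀ B x, 0 ≤ B → PLQRep r₁ r₂ (e₁ + 1) (e₂ + 1) B x →
      PLQRep r₁ r₂ (e₁ + 1) (e₂ + 1) (G * B) ((α₁ * α₂ : C) ^ 2 * (r₁ * r₂) * x) := by
    intro B x hB h
    have e1 := plqRep_smul (hA₂ (e₂ + 1)) (plqRep_mul P₁ he₁ hr₁ hA₁ h)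
    have e2 := plqRep_smul (hA₁ (e₁ + 1)) (plqRep_mul' P₂ he₂ hr₂ hA₂ e1)
    have e4 : (α₁ * α₂ : C) ^ 2 * (r₁ * r₂) * x =
      (P₁.coeff (e₁ + 1) : C) * ((P₂.coeff (e₂ + 1) : C) * (r₂ *
        ((P₂.coeff (e₂ + 1) : C) * ((P₁.coeff (e₁ + 1) : C) * (r₁ * x))))) := by
      rw [← hα₁, ← hα₂]; ring
    rw [e4]
    refine plqRep_mono ?_ e2
    rw [hG]
    have : (0 : ℤ) ≤ (A : ℤ) ^ 4 * B := by positivity
    linarith
  have hS2 : ∀ B x, 0 ≤ B → PLQRep r₁ r₂ (e₁ + 1) (e₂ + 1) B x →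
      PLQRep r₁ r₂ (e₁ + 1) (e₂ + 1) (G * B) ((α₁ * α₂ : C) ^ 2 * (r₁ + r₂) ^ 2 * x) := by
    intro B x hB h
    have e1 := hS _ _ (by positivity) (hS B x hB h)
    have e4 : (α₁ * α₂ : C) ^ 2 * (r₁ + r₂) ^ 2 * x =
      (α₁ * α₂ : C) * (r₁ + r₂) * ((α₁ * α₂ : C) * (r₁ + r₂) * x) := by ring
    rw [e4]
    refine plqRep_mono (le_of_eq ?_) e1
    rw [hG]; ring
  have hG0 : ∀ n, (0 : ℤ) ≤ G ^ n := fun n => pow_nonneg (by omega) n
  have hP : ∀ k l : ℕ, PLQRep r₁ r₂ (e₁ + 1) (e₂ + 1) (G ^ (k + l))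
      (((α₁ * α₂ : C) ^ 2 * (r₁ + r₂) ^ 2) ^ k * ((α₁ * α₂ : C) ^ 2 * (r₁ * r₂)) ^ l) := by
    intro k l
    induction l with
    | zero =>
      induction k with
      | zero =>
        simp only [Nat.add_zero, pow_zero, mul_one]
        exact plqRep_one (by omega) (by omega)
      | succ k ih =>
        have e1 := hS2 _ _ (hG0 _) ih
        rw [pow_zero, mul_one] at e1 ⊢
        have e2 : ((α₁ * α₂ : C) ^ 2 * (r₁ + r₂) ^ 2) ^ (k + 1) =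
          (α₁ * α₂ : C) ^ 2 * (r₁ + r₂) ^ 2 * ((α₁ * α₂ : C) ^ 2 * (r₁ + r₂) ^ 2) ^ k := by ring
        rw [e2]
        refine plqRep_mono (le_of_eq ?_) e1
        ring
    | succ l ih =>
      have e1 := hT _ _ (hG0 _) ih
      have e2 : ((α₁ * α₂ : C) ^ 2 * (r₁ + r₂) ^ 2) ^ k * ((α₁ * α₂ : C) ^ 2 * (r₁ * r₂)) ^ (l + 1) =
        (α₁ * α₂ : C) ^ 2 * (r₁ * r₂) * (((α₁ * α₂ : C) ^ 2 * (r₁ + r₂) ^ 2) ^ k *
          ((α₁ * α₂ : C) ^ 2 * (r₁ * r₂)) ^ l) := by ring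
      rw [e2]
      refine plqRep_mono (le_of_eq ?_) e1
      ring
  -- Siegel
  have hex : ∀ k : Fin (D + 1), ∃ c : ℕ → ℕ → ℤ, (∀ i j, |c i j| ≤ G ^ D) ∧
      (((α₁ * α₂ : C) ^ 2 * (r₁ + r₂) ^ 2) ^ (k : ℕ) *
        ((α₁ * α₂ : C) ^ 2 * (r₁ * r₂)) ^ (D - k : ℕ)) =
      ∑ i ∈ Finset.range (e₁ + 1), ∑ j ∈ Finset.range (e₂ + 1), (c i j : C) * r₁ ^ i * r₂ ^ j := by
    intro k
    have hk : (k : ℕ) + (D - k : ℕ) = D := by
      have := k.2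
      omega
    have := hP k (D - k)
    rw [hk] at this
    exact this
  choose c hc hcx using hex
  let M : Matrix (Fin (e₁ + 1) × Fin (e₂ + 1)) (Fin (D + 1)) ℤ := fun p k => c k p.1 p.2
  have hcard1 : Fintype.card (Fin (e₁ + 1) × Fin (e₂ + 1)) = D := by
    rw [Fintype.card_prod, Fintype.card_fin, Fintype.card_fin]
  have hcard2 : Fintype.card (Fin (D + 1)) = D + 1 := Fintype.card_fin _
  have hDpos : 0 < D := by rw [hD]; positivity
  obtain ⟨t, ht0, htM, htn⟩ := Int.Matrix.exists_ne_zero_int_vec_norm_le M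
    (by rw [hcard1, hcard2]; omega) (by rw [hcard1]; exact hDpos)
  rw [hcard1, hcard2] at htn
  have hMn : ‖M‖ ≤ ((G ^ D : ℤ) : ℝ) := by
    rw [Matrix.norm_le_iff (by exact_mod_cast hG0 D)]
    intro i j
    rw [Int.norm_eq_abs]
    exact_mod_cast hc j i.1 i.2
  have htb : ∀ k, |t k| ≤ ((D + 1 : ℕ) * G ^ D : ℤ) ^ D := by
    intro k
    have e1 : ‖t k‖ ≤ ‖t‖ := norm_le_pi_norm t k
    rw [Int.norm_eq_abs] at e1
    have e2 : (((D : ℕ) : ℝ) / (((D + 1 : ℕ) : ℝ) - (D : ℝ))) = ((D : ℕ) : ℝ) := by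
      push_cast
      rw [add_sub_cancel_left, div_one]
    rw [e2, Real.rpow_natCast] at htn
    have e3 : max 1 ‖M‖ ≤ ((G ^ D : ℤ) : ℝ) := by
      refine max_le ?_ hMn
      exact_mod_cast one_le_pow₀ hG1
    have e4 : (((D + 1 : ℕ) : ℝ) * max 1 ‖M‖) ^ D ≤ (((D + 1 : ℕ) : ℝ) * ((G ^ D : ℤ) : ℝ)) ^ D := by
      apply pow_le_pow_left₀
      · exact mul_nonneg (Nat.cast_nonneg _) (zero_le_one.trans (le_max_left _ _))
      · exact mul_le_mul_of_nonneg_left e3 (Nat.cast_nonneg _)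
    have e5 := e1.trans (htn.trans e4)
    exact_mod_cast e5
  -- the relation
  have hrel : ∑ k : Fin (D + 1), (t k : C) * ((((α₁ * α₂ : C) ^ 2 * (r₁ + r₂) ^ 2) ^ (k : ℕ) *
        ((α₁ * α₂ : C) ^ 2 * (r₁ * r₂)) ^ (D - k : ℕ))) = 0 := by
    have e1 : ∀ k : Fin (D + 1), (t k : C) * ((((α₁ * α₂ : C) ^ 2 * (r₁ + r₂) ^ 2) ^ (k : ℕ) *
        ((α₁ * α₂ : C) ^ 2 * (r₁ * r₂)) ^ (D - k : ℕ))) =
        ∑ i ∈ Finset.range (e₁ + 1), ∑ j ∈ Finset.range (e₂ + 1),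
          ((c k i j * t k : ℤ) : C) * r₁ ^ i * r₂ ^ j := by
      intro k
      rw [hcx k, Finset.mul_sum]
      refine Finset.sum_congr rfl fun i _ => ?_
      rw [Finset.mul_sum]
      refine Finset.sum_congr rfl fun j _ => ?_
      push_cast
      ring
    rw [Finset.sum_congr rfl fun k _ => e1 k, Finset.sum_comm]
    refine Finset.sum_eq_zero fun i hi => ?_
    rw [Finset.sum_comm]
    refine Finset.sum_eq_zero fun j hj => ?_
    have e2 : ∑ k : Fin (D + 1), c k i j * t k = 0 := by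
      have := congrFun htM (⟨i, Finset.mem_range.1 hi⟩, ⟨j, Finset.mem_range.1 hj⟩)
      exact this
    have e3 : ∑ k : Fin (D + 1), ((c k i j * t k : ℤ) : C) * r₁ ^ i * r₂ ^ j =
        ((∑ k : Fin (D + 1), c k i j * t k : ℤ) : C) * (r₁ ^ i * r₂ ^ j) := by
      rw [Int.cast_sum, Finset.sum_mul]
      refine Finset.sum_congr rfl fun k _ => ?_
      ring
    rw [e3, e2, Int.cast_zero, zero_mul]
  have h4a : (r₁ + r₂) ^ 2 = 4 * a * (r₁ * r₂) := by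
    rw [ha]
    field_simp
    ring
  have hα₁C : (α₁ : C) ≠ 0 := Int.cast_ne_zero.2 hα₁0
  have hα₂C : (α₂ : C) ≠ 0 := Int.cast_ne_zero.2 hα₂0
  have hrel2 : ∑ k : Fin (D + 1), (t k : C) * (4 * a) ^ (k : ℕ) = 0 := by
    have e1 : ∀ k : Fin (D + 1), (t k : C) * ((((α₁ * α₂ : C) ^ 2 * (r₁ + r₂) ^ 2) ^ (k : ℕ) *
        ((α₁ * α₂ : C) ^ 2 * (r₁ * r₂)) ^ (D - k : ℕ))) =
        ((α₁ * α₂ : C) ^ 2 * (r₁ * r₂)) ^ D * ((t k : C) * (4 * a) ^ (k : ℕ)) := by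
      intro k
      have hk : (k : ℕ) + (D - k : ℕ) = D := by
        have := k.2
        omega
      rw [h4a]
      have e2 : ((α₁ * α₂ : C) ^ 2 * (r₁ * r₂)) ^ D = ((α₁ * α₂ : C) ^ 2 * (r₁ * r₂)) ^ (k : ℕ) *
          ((α₁ * α₂ : C) ^ 2 * (r₁ * r₂)) ^ (D - k : ℕ) := by rw [← pow_add, hk]
      rw [e2]
      have e3 : ((α₁ * α₂ : C) ^ 2 * (4 * a * (r₁ * r₂))) ^ (k : ℕ) =
          (4 * a) ^ (k : ℕ) * ((α₁ * α₂ : C) ^ 2 * (r₁ * r₂)) ^ (k : ℕ) := by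
        rw [← mul_pow]; congr 1; ring
      rw [e3]
      ring
    rw [Finset.sum_congr rfl fun k _ => e1 k, ← Finset.mul_sum] at hrel
    refine (mul_eq_zero.1 hrel).resolve_left ?_
    positivity
  let t' : ℕ → ℤ := fun m => if h : m < D + 1 then t ⟨m, h⟩ * 4 ^ m else 0
  let Q : ℤ[X] := ∑ m ∈ Finset.range (D + 1), monomial m (t' m)
  have hQ : ∀ m, Q.coeff m = t' m := by
    intro m
    simp only [Q, finsetSum_coeff, coeff_monomial]
    rw [Finset.sum_ite_eq' (Finset.range (D + 1)) m]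
    split_ifs with h
    · rfl
    · rw [Finset.mem_range] at h
      simp only [t']
      rw [dif_neg h]
  refine ⟨Q, ?_, ?_, ?_, ?_⟩
  · intro h0
    apply ht0
    funext k
    have e1 := hQ k
    rw [h0, coeff_zero] at e1
    simp only [t'] at e1
    rw [dif_pos k.2] at e1
    have e2 : t k * 4 ^ (k : ℕ) = 0 := e1.symm
    exact (mul_eq_zero.1 e2).resolve_right (by positivity)
  · refine (natDegree_le_iff_coeff_eq_zero.2 fun m hm => ?_ : Q.natDegree ≤ D).trans ?_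
    · rw [hQ]
      simp only [t']
      rw [dif_neg (by omega)]
    · rw [hD, sq]
      exact Nat.mul_le_mul (by omega) (by omega)
  · have e1 : aeval a Q = ∑ m ∈ Finset.range (D + 1), (t' m : C) * a ^ m := by
      simp only [Q, map_sum, aeval_monomial, algebraMap_int_eq, eq_intCast]
    rw [e1, Finset.sum_range, ← hrel2]
    refine Finset.sum_congr rfl fun k _ => ?_
    simp only [t']
    rw [dif_pos k.2, mul_pow]
    push_cast
    ring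
  · intro m
    rw [hQ]
    simp only [t']
    have hb := plq_bound D (N + A + 16) A (by omega) (by
      rw [hD, sq]
      exact Nat.mul_le_mul (by omega) (by omega)) (by omega)
    split_ifs with h
    · rw [abs_mul, abs_of_nonneg (by positivity : (0 : ℤ) ≤ 4 ^ m)]
      have e1 : (4 : ℤ) ^ m ≤ 4 ^ D := pow_le_pow_right₀ (by norm_num) (by omega)
      have e2 : |t ⟨m, h⟩| * 4 ^ m ≤ ((D + 1 : ℕ) * G ^ D : ℤ) ^ D * 4 ^ D := by
        refine mul_le_mul (htb _) e1 (by positivity) ?_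
        exact pow_nonneg (mul_nonneg (Nat.cast_nonneg _) (hG0 D)) D
      refine e2.trans ?_
      rw [hG]
      generalize tw 3 (N + A + 16) = T at hb ⊢
      have hb' : ((((D + 1) * (16 * A ^ 4) ^ D) ^ D * 4 ^ D : ℕ) : ℤ) ≤ (T : ℤ) := Int.ofNat_le.2 hb
      push_cast at hb' ⊢
      exact hb'
    · rw [abs_zero]
      exact Nat.cast_nonneg _

end Pool.Agent.ESH
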