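import Pool.Agent.ESH.DefsE

/-!
# ESH / RHO: exceptional units from a point on the Legendre curve

`c₁² = a`, `c₂² = a - 1`, `c₃² = a - l`: `(c₁-c₂)(c₁+c₂) = 1`, `(c₁-c₃)(c₁+c₃) = l`, `(c₂-c₃)(c₂+c₃) = l - 1`, and `c_j ∈ V` (`a, l ∈ V`; `V` integrally closed), so all these
sums and differences are units.  `ρ = (c₁-c₂)/(c₁-c₃)`, `1 - ρ = (c₂-c₃)/(c₁-c₃)`.
`rho_inert`: `s(c_j)² = c_j²`, so `s(c_j) = ± c_j`; if `c_j` is a unit, `s c_j ≡ c_j` and `2` is a unit, so `s c_j = c_j`.  At most one `c_j` is not a unit (differences of squares are units); the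
product `c₁c₂c₃ = ± b` is fixed, and if the two others are fixed then so is the third (if it is `0`, clear).
-/

namespace Pool.Agent.ESH

variable {C : Type*} [Field C] [CharZero C]

omit [CharZero C] in
private lemma rho_mem {V : ValuationSubring C} {a c : C} (ha : a ∈ V) (h : c ^ 2 = a) : c ∈ V := by
  rw [← V.valuation_le_one_iff] at ha ⊢
  rw [← h, map_pow] at ha
  exact (pow_le_one_iff (by norm_num)).mp ha

omit [CharZero C] in
private lemma rho_mul {V : ValuationSubring C} {x y : C} (hx : x ∈ V) (hy : y ∈ V)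
    (h : V.valuation (x * y) = 1) : V.valuation x = 1 ∧ V.valuation y = 1 := by
  rw [← V.valuation_le_one_iff] at hx hy
  rw [map_mul] at h
  constructor
  · refine le_antisymm hx ?_
    calc (1 : V.ValueGroup) = V.valuation x * V.valuation y := h.symm
      _ ≤ V.valuation x * 1 := mul_le_mul_right hy _
      _ = V.valuation x := mul_one _
  · refine le_antisymm hy ?_
    calc (1 : V.ValueGroup) = V.valuation x * V.valuation y := h.symm
      _ ≤ 1 * V.valuation y := mul_le_mul_left hx _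
      _ = V.valuation y := one_mul _

theorem rho_unit (V : ValuationSubring C) (l a c₁ c₂ c₃ : C) (hl : V.valuation l = 1)
    (hl1 : V.valuation (1 - l) = 1) (ha : a ∈ V) (h1 : c₁ ^ 2 = a) (h2 : c₂ ^ 2 = a - 1) (h3 : c₃ ^ 2 = a - l) :
    V.valuation ((c₁ - c₂) / (c₁ - c₃)) = 1 ∧ V.valuation (1 - (c₁ - c₂) / (c₁ - c₃)) = 1 := by
  have hlm : l ∈ V := (V.valuation_le_one_iff l).mp hl.le
  have m1 : c₁ ∈ V := rho_mem ha h1
  have m2 : c₂ ∈ V := rho_mem (V.toSubring.sub_mem ha V.one_mem) h2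
  have m3 : c₃ ∈ V := rho_mem (V.toSubring.sub_mem ha hlm) h3
  have e12 : (c₁ - c₂) * (c₁ + c₂) = 1 := by
    have : (c₁ - c₂) * (c₁ + c₂) = c₁ ^ 2 - c₂ ^ 2 := by ring
    rw [this, h1, h2]; ring
  have e13 : (c₁ - c₃) * (c₁ + c₃) = l := by
    have : (c₁ - c₃) * (c₁ + c₃) = c₁ ^ 2 - c₃ ^ 2 := by ring
    rw [this, h1, h3]; ring
  have e23 : (c₂ - c₃) * (c₂ + c₃) = -(1 - l) := by
    have : (c₂ - c₃) * (c₂ + c₃) = c₂ ^ 2 - c₃ ^ 2 := by ring
    rw [this, h2, h3]; ring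
  have v12 := rho_mul (V.toSubring.sub_mem m1 m2) (V.toSubring.add_mem m1 m2) (by rw [e12, map_one])
  have v13 := rho_mul (V.toSubring.sub_mem m1 m3) (V.toSubring.add_mem m1 m3) (by rw [e13, hl])
  have v23 := rho_mul (V.toSubring.sub_mem m2 m3) (V.toSubring.add_mem m2 m3)
    (by rw [e23, Valuation.map_neg, hl1])
  have hne : c₁ - c₃ ≠ 0 := by
    intro h0
    have := v13.1
    rw [h0, map_zero] at this
    exact zero_ne_one this
  have e1 : 1 - (c₁ - c₂) / (c₁ - c₃) = (c₂ - c₃) / (c₁ - c₃) := by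
    field_simp
    ring
  rw [e1, map_div₀, map_div₀, v12.1, v13.1, v23.1]
  simp

theorem rho_inert (V : ValuationSubring C) (l a b c₁ c₂ c₃ : C) (hl : V.valuation l = 1)
    (hl1 : V.valuation (1 - l) = 1) (h20 : V.valuation (2 : C) = 1) (ha : a ∈ V) (h1 : c₁ ^ 2 = a)
    (h2 : c₂ ^ 2 = a - 1) (h3 : c₃ ^ 2 = a - l) (hb : b ^ 2 = a * (a - 1) * (a - l)) (s : C ≃+* C)
    (hs : ∀ z ∈ V, s z - z ∈ V.nonunits) (hsl : s l = l) (hsa : s a = a) (hsb : s b = b) :
    s c₁ = c₁ ∧ s c₂ = c₂ ∧ s c₃ = c₃ := by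
  have hlm : l ∈ V := (V.valuation_le_one_iff l).mp hl.le
  have m1 : c₁ ∈ V := rho_mem ha h1
  have m2 : c₂ ∈ V := rho_mem (V.toSubring.sub_mem ha V.one_mem) h2
  have m3 : c₃ ∈ V := rho_mem (V.toSubring.sub_mem ha hlm) h3
  have key : ∀ c ∈ V, s (c ^ 2) = c ^ 2 → s c ≠ c → V.valuation c < 1 := by
    intro c hc hsc hne
    have h4 : (s c - c) * (s c + c) = 0 := by
      have : (s c - c) * (s c + c) = (s c) ^ 2 - c ^ 2 := by ring
      rw [this, ← map_pow, hsc, sub_self]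
    have h5 : s c = -c := by
      rcases mul_eq_zero.mp h4 with h | h
      · exact absurd (sub_eq_zero.mp h) hne
      · exact eq_neg_of_add_eq_zero_left h
    have h6 := hs c hc
    rw [h5, ValuationSubring.mem_nonunits_iff] at h6
    have h7 : -c - c = -(2 * c) := by ring
    rw [h7, Valuation.map_neg, map_mul, h20, one_mul] at h6
    exact h6
  have s1 : s (c₁ ^ 2) = c₁ ^ 2 := by rw [h1, hsa]
  have s2 : s (c₂ ^ 2) = c₂ ^ 2 := by rw [h2, map_sub, hsa, map_one]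
  have s3 : s (c₃ ^ 2) = c₃ ^ 2 := by rw [h3, map_sub, hsa, hsl]
  have two : ∀ x y : C, V.valuation x < 1 → V.valuation y < 1 → V.valuation (x ^ 2 - y ^ 2) < 1 := by
    intro x y hx hy
    refine lt_of_le_of_lt (V.valuation.map_sub _ _) (max_lt ?_ ?_)
    · rw [map_pow]; exact pow_lt_one₀ zero_le hx (by norm_num)
    · rw [map_pow]; exact pow_lt_one₀ zero_le hy (by norm_num)
  have n12 : V.valuation c₁ < 1 → V.valuation c₂ < 1 → False := by
    intro hx hy
    have := two _ _ hx hy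
    rw [h1, h2, sub_sub_cancel, map_one] at this
    exact lt_irrefl _ this
  have n13 : V.valuation c₁ < 1 → V.valuation c₃ < 1 → False := by
    intro hx hy
    have := two _ _ hx hy
    rw [h1, h3, sub_sub_cancel, hl] at this
    exact lt_irrefl _ this
  have n23 : V.valuation c₂ < 1 → V.valuation c₃ < 1 → False := by
    intro hx hy
    have := two _ _ hx hy
    have e : a - 1 - (a - l) = -(1 - l) := by ring
    rw [h2, h3, e, Valuation.map_neg, hl1] at this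
    exact lt_irrefl _ this
  have hprod : s (c₁ * c₂ * c₃) = c₁ * c₂ * c₃ := by
    have h8 : (c₁ * c₂ * c₃) ^ 2 = b ^ 2 := by
      rw [hb, mul_pow, mul_pow, h1, h2, h3]
    rcases sq_eq_sq_iff_eq_or_eq_neg.mp h8 with h9 | h9
    · rw [h9, hsb]
    · rw [h9, map_neg, hsb]
  have hu : ∀ x y z : C, s (x * y * z) = x * y * z → s y = y → s z = z → ¬ V.valuation y < 1 →
      ¬ V.valuation z < 1 → s x = x := by
    intro x y z h10 h11 h12 h13 h14
    have hy : y ≠ 0 := by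
      rintro rfl
      rw [map_zero] at h13
      exact h13 zero_lt_one
    have hz : z ≠ 0 := by
      rintro rfl
      rw [map_zero] at h14
      exact h14 zero_lt_one
    rw [map_mul, map_mul, h11, h12] at h10
    exact mul_right_cancel₀ hy (mul_right_cancel₀ hz h10)
  refine ⟨?_, ?_, ?_⟩
  · by_contra hne
    have v1 := key c₁ m1 s1 hne
    have h2' : s c₂ = c₂ := by
      by_contra h; exact n12 v1 (key c₂ m2 s2 h)
    have h3' : s c₃ = c₃ := by
      by_contra h; exact n13 v1 (key c₃ m3 s3 h)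
    exact hne (hu c₁ c₂ c₃ hprod h2' h3' (fun h => n12 v1 h) (fun h => n13 v1 h))
  · by_contra hne
    have v2 := key c₂ m2 s2 hne
    have h1' : s c₁ = c₁ := by
      by_contra h; exact n12 (key c₁ m1 s1 h) v2
    have h3' : s c₃ = c₃ := by
      by_contra h; exact n23 v2 (key c₃ m3 s3 h)
    refine hne (hu c₂ c₁ c₃ ?_ h1' h3' (fun h => n12 h v2) (fun h => n23 v2 h))
    rw [mul_comm c₂ c₁]; exact hprod
  · by_contra hne
    have v3 := key c₃ m3 s3 hne
    have h1' : s c₁ = c₁ := by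
      by_contra h; exact n13 (key c₁ m1 s1 h) v3
    have h2' : s c₂ = c₂ := by
      by_contra h; exact n23 (key c₂ m2 s2 h) v3
    refine hne (hu c₃ c₁ c₂ ?_ h1' h2' (fun h => n13 h v3) (fun h => n23 h v3))
    have e : c₃ * c₁ * c₂ = c₁ * c₂ * c₃ := by ring
    rw [e]; exact hprod

/-- recovering the point from two exceptional units -/
theorem rho_rec (l a c₁ c₂ c₃ : C) (h1 : c₁ ^ 2 = a) (h2 : c₂ ^ 2 = a - 1) (h3 : c₃ ^ 2 = a - l)
    (hl : l ≠ 0) :
    (c₁ - c₂) / (c₁ - c₃) ≠ 0 ∧ (c₁ + c₂) / (c₁ - c₃) ≠ 0 ∧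
      4 * a = ((c₁ + c₂) / (c₁ - c₃)) / ((c₁ - c₂) / (c₁ - c₃)) + 2 +
        ((c₁ - c₂) / (c₁ - c₃)) / ((c₁ + c₂) / (c₁ - c₃)) := by
  have e12 : (c₁ - c₂) * (c₁ + c₂) = 1 := by
    have : (c₁ - c₂) * (c₁ + c₂) = c₁ ^ 2 - c₂ ^ 2 := by ring
    rw [this, h1, h2]; ring
  have e13 : (c₁ - c₃) * (c₁ + c₃) = l := by
    have : (c₁ - c₃) * (c₁ + c₃) = c₁ ^ 2 - c₃ ^ 2 := by ring
    rw [this, h1, h3]; ring
  have n1 : c₁ - c₂ ≠ 0 := left_ne_zero_of_mul (by rw [e12]; exact one_ne_zero)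
  have n2 : c₁ + c₂ ≠ 0 := right_ne_zero_of_mul (by rw [e12]; exact one_ne_zero)
  have n3 : c₁ - c₃ ≠ 0 := left_ne_zero_of_mul (by rw [e13]; exact hl)
  refine ⟨div_ne_zero n1 n3, div_ne_zero n2 n3, ?_⟩
  rw [div_div_div_cancel_right₀ n3, div_div_div_cancel_right₀ n3]
  have f1 : (c₁ + c₂) / (c₁ - c₂) = (c₁ + c₂) ^ 2 := by
    rw [div_eq_iff n1]
    calc c₁ + c₂ = (c₁ + c₂) * ((c₁ - c₂) * (c₁ + c₂)) := by rw [e12, mul_one]
      _ = _ := by ring
  have f2 : (c₁ - c₂) / (c₁ + c₂) = (c₁ - c₂) ^ 2 := by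
    rw [div_eq_iff n2]
    calc c₁ - c₂ = (c₁ - c₂) * ((c₁ - c₂) * (c₁ + c₂)) := by rw [e12, mul_one]
      _ = _ := by ring
  rw [f1, f2]
  linear_combination -2 * h1 + (-2) * h2

end Pool.Agent.ESH
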