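import Pool.Agent.ESH.LGB
import Pool.Agent.ESH.LGI
import Pool.Agent.ESH.RHO
import Pool.Agent.ESH.CJB
import Pool.Agent.ESH.PLQ
import Pool.Agent.ESH.HTL
import Pool.Agent.ESH.PRB
import Pool.Agent.ESH.BLP
import Pool.Agent.ESH.RKO

/-!
# ESH / GMB: effective Belyi functions for Galois covers of genus one curves with good models

`hg`: `lgr_pos`.  `V` with `GoodV T m V`: `Rk1 V` (`rko`), all `k ≤ m` are units of `V` (`rko_card`), the model of `hmod`.  LGA (`[Φ : C(x)] = 2 card G ≤ m`, `lgt_deg`): `l`, `1 - l` units; all poles of `x` are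
ramified (`lgt_ram`); LGB: `a = ev P x ∈ V` for the ramified places `P` with `0 ≤ P.ord x`.  LGI for `Inert V s`, `σ = lift s`: `s l = l`, `s a = a`, `s b = b`, `b = ev P y` (`y ∈ P.ge 0`, `b² = a(a-1)(a-l)`
by `evl_mul`).  Choose `c₁, c₂, c₃` with `c₁² = a`, `c₂² = a - 1`, `c₃² = a - l`.  RHO: `ρ₁ = (c₁-c₂)/(c₁-c₃)` and `ρ₂ = (c₁+c₂)/(c₁-c₃)` (replace `c₂` by `-c₂`) are exceptional units fixed by
inertia, different from `0, 1`; degree bound CJB: `D = 48 * (2^M ((B.card+1) 2M)^2)`.  HTL for `l`, `ρ₁`, `ρ₂`: polynomials of degree `≤ tw 5 (szK K T + m + D)`, coefficients `≤ tw 90 (..)`.  `rho_rec`, PLQ: polynomial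
for `a`.  PRB: product `Q` of the polynomials of `l` and of all `a ∈ B` that occur (choose for each such `a` a place), times `X(X-1)`.  By LGU a finite branch point `c` of `x` is `0, 1, l` or
`ev P x` with `P` ramified.  BLP: degree `≤ [Φ : C(x)] * tw 20 (N + A + 16)`.  TWA: with `s = szK K T + m + B.card`: everything `≤ tw 130 s`.
-/

namespace Pool.Agent.ESH

open Pool.Agent.Helper11 NumberField IsDedekindDomain IntermediateField

private theorem gmb_tw (s z m b D N A d A' L g n : ℕ) (hs : 16 ≤ s) (hm : m ≤ s)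
    (hb : b ≤ s) (hzm : z + m ≤ s) (hD : D = 48 * (2 ^ m * ((b + 1) * m) ^ 2))
    (hN : N = tw 5 (z + m + D)) (hA : A = tw 90 (z + m + D)) (hd : d = N ^ 2)
    (hA' : A' = tw 3 (N + A + 16)) (hL : L ≤ b + 1)
    (hn : n ≤ g * tw 20 ((L * d + 2) + 2 * ((d + 1) * A') ^ L + 16)) (hg : g ≤ m) :
    n ≤ tw 130 s := by
  have up : ∀ {c e x : ℕ}, c ≤ e → x ≤ tw c s → x ≤ tw e s := fun h h' =>
    h'.trans (tw_mono h le_rfl)
  have lt : ∀ {x : ℕ} (c : ℕ), x ≤ s → x ≤ tw c s := fun c h => h.trans (le_tw c s)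
  have e1 : b + 1 ≤ tw 1 s := tw_add hs (c := 0) (lt 0 hb) (lt 0 (by omega))
  have e2 : (b + 1) * m ≤ tw 2 s := tw_mul hs e1 (lt 1 hm)
  have e3 : ((b + 1) * m) ^ 2 ≤ tw 4 s := tw_pow hs e2 (lt 2 (by omega))
  have e4 : 2 ^ m ≤ tw 2 s := tw_pow hs (c := 0) (lt 0 (by omega)) (lt 0 hm)
  have e5 : 2 ^ m * ((b + 1) * m) ^ 2 ≤ tw 5 s := tw_mul hs (up (by omega) e4) e3
  have e48 : 48 ≤ tw 5 s := by
    have h1 : (48 : ℕ) ≤ tw 1 16 := by norm_num [tw]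
    exact h1.trans (tw_mono (by omega) hs)
  have e6 : D ≤ tw 6 s := by
    rw [hD]
    exact tw_mul hs e48 e5
  have e7 : z + m + D ≤ tw 7 s := tw_add hs (lt 6 hzm) e6
  have e8 : N ≤ tw 12 s := by
    rw [hN]
    have h1 := tw_mono (le_refl 5) e7
    rwa [tw_comp] at h1
  have e9 : A ≤ tw 97 s := by
    rw [hA]
    have h1 := tw_mono (le_refl 90) e7
    rwa [tw_comp] at h1
  have e10 : d ≤ tw 14 s := by
    rw [hd]
    exact tw_pow hs e8 (lt 12 (by omega))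
  have e11 : N + A ≤ tw 98 s := tw_add hs (up (by omega) e8) e9
  have e12 : N + A + 16 ≤ tw 99 s := tw_add hs e11 (lt 98 hs)
  have e13 : A' ≤ tw 102 s := by
    rw [hA']
    have h1 := tw_mono (le_refl 3) e12
    rwa [tw_comp] at h1
  have e14 : L ≤ tw 1 s := hL.trans e1
  have e15 : L * d + 2 ≤ tw 16 s :=
    tw_add hs (tw_mul hs (up (by omega) e14) e10) (lt 15 (by omega))
  have e16 : d + 1 ≤ tw 15 s := tw_add hs e10 (lt 14 (by omega))
  have e17 : (d + 1) * A' ≤ tw 103 s := tw_mul hs (up (by omega) e16) e13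
  have e18 : ((d + 1) * A') ^ L ≤ tw 105 s := tw_pow hs e17 (up (by omega) e14)
  have e19 : 2 * ((d + 1) * A') ^ L ≤ tw 106 s := tw_mul hs (lt 105 (by omega)) e18
  have e20 : (L * d + 2) + 2 * ((d + 1) * A') ^ L ≤ tw 107 s := tw_add hs (up (by omega) e15) e19
  have e21 : (L * d + 2) + 2 * ((d + 1) * A') ^ L + 16 ≤ tw 108 s := tw_add hs e20 (lt 107 hs)
  have e22 : tw 20 ((L * d + 2) + 2 * ((d + 1) * A') ^ L + 16) ≤ tw 128 s := by
    have h1 := tw_mono (le_refl 20) e21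
    rwa [tw_comp] at h1
  exact hn.trans (up (by omega) (tw_mul hs (lt 128 (hg.trans hm)) e22))

private theorem gmb_val {C Φ : Type*} [Field C] [Field Φ] [Algebra C Φ] [FunField C Φ]
    [CharZero C] [IsAlgClosed C] {x y : Φ} {l : C} (hL : Leg x y l) (P : Place C Φ)
    (hP : 0 ≤ P.ord x) : ev P y ^ 2 = ev P x * (ev P x - 1) * (ev P x - l) := by
  have hx : x ∈ P.ge 0 := P.mem_ge_of_le hP
  have h1 : (1 : Φ) ∈ P.ge 0 := P.one_mem_ge
  have hl : algebraMap C Φ l ∈ P.ge 0 := P.algebraMap_mem_ge l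
  have hx1 : x - 1 ∈ P.ge 0 := sub_mem hx h1
  have hxl : x - algebraMap C Φ l ∈ P.ge 0 := sub_mem hx hl
  have hxx : x * (x - 1) ∈ P.ge 0 := by
    have := P.mul_mem_ge hx hx1
    simpa using this
  have hr : x * (x - 1) * (x - algebraMap C Φ l) ∈ P.ge 0 := by
    have := P.mul_mem_ge hxx hxl
    simpa using this
  have hy : y ∈ P.ge 0 := by
    by_cases hy0 : y = 0
    · rw [hy0]
      exact zero_mem _
    · apply P.mem_ge_of_le
      rw [← hL.eq, sq] at hr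
      have h2 := P.le_ord_of_mem hr (mul_ne_zero hy0 hy0)
      rw [P.ord_mul _ _ hy0 hy0] at h2
      omega
  have e1 : ev P (1 : Φ) = 1 := by
    have := evl_const (C := C) P (1 : C)
    rwa [map_one] at this
  have h3 : ev P (y ^ 2) = ev P (x * (x - 1) * (x - algebraMap C Φ l)) := by rw [hL.eq]
  rw [sq, evl_mul P hy hy, evl_mul P hxx hxl, evl_mul P hx hx1, evl_sub P hx h1, evl_sub P hx hl,
    e1, evl_const] at h3
  rw [sq]
  exact h3

theorem gmb {K C Φ : Type*} [Field K] [NumberField K] [Field C] [Algebra K C]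
    [Algebra.IsAlgebraic K C] [IsAlgClosed C] [CharZero C] [Field Φ] [Algebra C Φ] [FunField C Φ]
    (T : Finset (HeightOneSpectrum (𝓞 K))) (m : ℕ)
    (Γ G : Subgroup (Φ ≃ₐ[C] Φ)) [Finite Γ] (hG : G ≤ Γ) (hm : 2 * Nat.card Γ ≤ m)
    {x y : Φ} {l : C} (hx : FixLeg G x y l) (hO : ∃ Q : Place C Φ, Q.ord x < 0 ∧ Ram G Q)
    (B : Finset C) (hB : ∀ P : Place C Φ, Ram G P → 0 ≤ P.ord x → ev P x ∈ B)
    (lift : (C ≃ₐ[K] C) → (Φ ≃+* Φ))
    (hlift : ∀ (s : C ≃ₐ[K] C) (c : C), lift s (algebraMap C Φ c) = algebraMap C Φ (s c))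
    (hΓ : ∀ s : C ≃ₐ[K] C, ∀ γ ∈ Γ, ∃ γ' ∈ Γ, ∀ f, lift s (γ f) = γ' (lift s f))
    (hmod : ∀ V : ValuationSubring C, GoodV T m V → ∃ (W : ValuationSubring Φ) (pts : Set (Subring Φ)),
      IsMdl V W pts ∧ ∀ s : C ≃ₐ[K] C, Inert V s →
        (∀ f ∈ W, lift s f - f ∈ W.nonunits) ∧ ∀ A ∈ pts, PresA (lift s) A) :
    ∃ β : Φ, IsBelyi C β ∧ Module.finrank C⟮β⟯ Φ ≤ tw 130 (szK K T + m + B.card) := by
  classical
  have hGfin : Finite G := Finite.of_injective _ (Subgroup.inclusion_injective hG)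
  have hGΓ : Nat.card G ≤ Nat.card Γ := Subgroup.card_le_of_le hG
  have hGm : 2 * Nat.card G ≤ m := by omega
  have hΓpos : 0 < Nat.card Γ := Nat.card_pos
  have hsz : 16 ≤ szK K T := by
    unfold szK
    omega
  have hg : PosGenus C Φ := lgr_pos hx.leg
  obtain ⟨Q, hQ, hQr⟩ := hO
  have hdeg : Module.finrank C⟮x⟯ Φ = 2 * Nat.card G := lgt_deg G hx
  have hramΓ : ∀ P : Place C Φ, Ram G P → Ram Γ P := fun P ⟨g, hgG, h1, h2⟩ =>
    ⟨g, hG hgG, h1, h2⟩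
  obtain ⟨D, hD⟩ : ∃ D, D = 48 * (2 ^ m * ((B.card + 1) * m) ^ 2) := ⟨_, rfl⟩
  have hDle : 48 * (2 ^ Nat.card Γ * ((B.card + 1) * (2 * Nat.card Γ)) ^ 2) ≤ D := by
    rw [hD]
    refine Nat.mul_le_mul_left _ (Nat.mul_le_mul (Nat.pow_le_pow_right (by norm_num) (by omega))
      (Nat.pow_le_pow_left (Nat.mul_le_mul_left _ hm) 2))
  -- units
  have hV1 : ∀ V : ValuationSubring C, GoodV T m V → V.valuation l = 1 ∧ V.valuation (1 - l) = 1 ∧
      ∀ P : Place C Φ, Ram G P → 0 ≤ P.ord x → ev P x ∈ V := by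
    intro V hV
    obtain ⟨W, pts, hmdl, -⟩ := hmod V hV
    have hrk := rko (K := K) V hV.ne_top
    obtain ⟨h1, h2, h3, -⟩ := lga hrk hmdl hx.leg m (by rw [hdeg]; exact hGm)
      (fun k hk hkm => rko_card T m V hV k hk hkm)
    refine ⟨h1, h2, fun P hP hPx => ?_⟩
    refine lgb hrk hmdl hg Γ (rko_card T m V hV _ hΓpos (by omega)) x h3 ?_ P (hramΓ P hP) hPx
    intro R hR
    exact hramΓ R (lgt_ram G hx Q R hQ hR hQr)
  have hV2 : ∀ V : ValuationSubring C, GoodV T m V → ∀ s : C ≃ₐ[K] C, Inert V s →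
      s l = l ∧ ∀ P : Place C Φ, Ram G P → 0 ≤ P.ord x →
        s (ev P x) = ev P x ∧ s (ev P y) = ev P y := by
    intro V hV s hs
    obtain ⟨W, pts, hmdl, hmdl'⟩ := hmod V hV
    obtain ⟨hW, hA⟩ := hmdl' s hs
    obtain ⟨-, -, h3, h4⟩ := lgi (rko (K := K) V hV.ne_top) hmdl hg Γ G
      (rko_card T m V hV _ hΓpos (by omega)) hG hx
      (fun k hk hkm => rko_card T m V hV k hk (hkm.trans hGm)) Q hQ hQr (lift s) (s : C ≃+* C)
      (hlift s) hW hA (hΓ s)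
    exact ⟨h3, h4⟩
  -- the polynomial of l
  obtain ⟨N, hN⟩ : ∃ N, N = tw 5 (szK K T + m + D) := ⟨_, rfl⟩
  obtain ⟨A, hA⟩ : ∃ A, A = tw 90 (szK K T + m + D) := ⟨_, rfl⟩
  have hpl : ∃ P : Polynomial ℤ, P ≠ 0 ∧ P.natDegree ≤ N ∧ Polynomial.aeval l P = 0 ∧
      ∀ i, |P.coeff i| ≤ (A : ℤ) := by
    rw [hN, hA]
    refine htl T m D l hx.leg.l0 hx.leg.l1 ?_ ?_ ?_
    · exact (cjb_l Γ G hG lift hlift hΓ hx B hB Q hQ hQr).trans hDle
    · exact fun V hV => ⟨(hV1 V hV).1, (hV1 V hV).2.1⟩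
    · exact fun V hV s hs => (hV2 V hV s hs).1
  -- the exceptional units
  have hrho : ∀ P : Place C Φ, Ram G P → 0 ≤ P.ord x → ∀ c₁ c₂ c₃ : C, c₁ ^ 2 = ev P x →
      c₂ ^ 2 = ev P x - 1 → c₃ ^ 2 = ev P x - l →
      ∃ R : Polynomial ℤ, R ≠ 0 ∧ R.natDegree ≤ N ∧
        Polynomial.aeval ((c₁ - c₂) / (c₁ - c₃)) R = 0 ∧ ∀ i, |R.coeff i| ≤ (A : ℤ) := by
    intro P hP hPx c₁ c₂ c₃ h1 h2 h3
    have hr0 := (rho_rec l (ev P x) c₁ c₂ c₃ h1 h2 h3 hx.leg.l0).1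
    have hr1 : (c₁ - c₂) / (c₁ - c₃) ≠ 1 := by
      intro h
      have h4 : c₁ - c₃ ≠ 0 := by
        intro h4
        rw [h4, div_zero] at hr0
        exact hr0 rfl
      rw [div_eq_one_iff_eq h4] at h
      have h5 : c₂ = c₃ := sub_right_injective h
      rw [h5, h3] at h2
      exact hx.leg.l1 (sub_right_injective h2)
    rw [hN, hA]
    refine htl T m D _ hr0 hr1 ?_ ?_ ?_
    · exact (cjb_rho Γ G hG lift hlift hΓ hx B hB Q hQ hQr P hP hPx c₁ c₂ c₃ h1 h2 h3).trans hDle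
    · intro V hV
      obtain ⟨u1, u2, u3⟩ := hV1 V hV
      exact rho_unit V l (ev P x) c₁ c₂ c₃ u1 u2 (u3 P hP hPx) h1 h2 h3
    · intro V hV s hs
      obtain ⟨u1, u2, u3⟩ := hV1 V hV
      obtain ⟨v1, v2⟩ := hV2 V hV s hs
      obtain ⟨w1, w2⟩ := v2 P hP hPx
      have h20 : V.valuation (2 : C) = 1 := by
        have := rko_card T m V hV 2 (by norm_num) (by omega)
        simpa using this
      obtain ⟨t1, t2, t3⟩ := rho_inert V l (ev P x) (ev P y) c₁ c₂ c₃ u1 u2 h20 (u3 P hP hPx)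
        h1 h2 h3 (gmb_val hx.leg P hPx) (s : C ≃+* C) hs v1 w1 w2
      have t1' : s c₁ = c₁ := t1
      have t2' : s c₂ = c₂ := t2
      have t3' : s c₃ = c₃ := t3
      rw [map_div₀, map_sub, map_sub, t1', t2', t3']
  obtain ⟨d, hd⟩ : ∃ d, d = N ^ 2 := ⟨_, rfl⟩
  obtain ⟨A', hA'⟩ : ∃ A', A' = tw 3 (N + A + 16) := ⟨_, rfl⟩
  have hNd : N ≤ d := by
    rw [hd]
    exact Nat.le_self_pow (by norm_num) N
  have hAA' : A ≤ A' := by
    rw [hA']
    exact (by omega : A ≤ N + A + 16).trans (le_tw 3 _)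
  have hpa : ∀ P : Place C Φ, Ram G P → 0 ≤ P.ord x →
      ∃ R : Polynomial ℤ, R ≠ 0 ∧ R.natDegree ≤ d ∧ Polynomial.aeval (ev P x) R = 0 ∧
        ∀ i, |R.coeff i| ≤ (A' : ℤ) := by
    intro P hP hPx
    obtain ⟨c₁, h1⟩ := IsAlgClosed.exists_pow_nat_eq (ev P x) (n := 2) (by norm_num)
    obtain ⟨c₂, h2⟩ := IsAlgClosed.exists_pow_nat_eq (ev P x - 1) (n := 2) (by norm_num)
    obtain ⟨c₃, h3⟩ := IsAlgClosed.exists_pow_nat_eq (ev P x - l) (n := 2) (by norm_num)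
    obtain ⟨R₁, p1, p2, p3, p4⟩ := hrho P hP hPx c₁ c₂ c₃ h1 h2 h3
    obtain ⟨R₂, q1, q2, q3, q4⟩ := hrho P hP hPx c₁ (-c₂) c₃ h1 (by rw [neg_sq]; exact h2) h3
    rw [sub_neg_eq_add] at q3
    obtain ⟨r1, r2, r3⟩ := rho_rec l (ev P x) c₁ c₂ c₃ h1 h2 h3 hx.leg.l0
    obtain ⟨R, s1, s2, s3, s4⟩ := plq _ _ (ev P x) r1 r2 r3 R₁ R₂ p1 q1 N A p2 q2 p4 q4 p3 q3
    refine ⟨R, s1, by rw [hd]; exact s2, s3, ?_⟩
    rw [hA']
    exact s4
  set S : Finset C := insert l (B.filter (fun b => ∃ P : Place C Φ, Ram G P ∧ 0 ≤ P.ord x ∧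
    ev P x = b)) with hS
  have key : ∀ b ∈ S, ∃ R : Polynomial ℤ, R ≠ 0 ∧ R.natDegree ≤ d ∧
      Polynomial.aeval b R = 0 ∧ ∀ i, |R.coeff i| ≤ (A' : ℤ) := by
    intro b hb
    rw [hS, Finset.mem_insert, Finset.mem_filter] at hb
    rcases hb with rfl | ⟨-, P, hP, hPx, rfl⟩
    · obtain ⟨R, r1, r2, r3, r4⟩ := hpl
      exact ⟨R, r1, r2.trans hNd, r3, fun i => (r4 i).trans (by exact_mod_cast hAA')⟩
    · exact hpa P hP hPx
  choose! R hR0 hRd hRr hRc using key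
  obtain ⟨Z, hZ0, hZd, hZc, hPZ, hXZ⟩ := prb S R d A' hR0 hRd hRc
  obtain ⟨β, hβ, hβd⟩ := blp x hx.leg.tr Z hZ0 _ _ hZd hZc (by
    intro c hc
    obtain ⟨P, hP⟩ := hc
    by_cases hc0 : c = 0
    · obtain ⟨Y, hY⟩ := hXZ
      rw [hY, hc0]
      simp
    by_cases hc1 : c = 1
    · obtain ⟨Y, hY⟩ := hXZ
      rw [hY, hc1]
      simp
    have hcS : c ∈ S := by
      rw [hS, Finset.mem_insert, Finset.mem_filter]
      by_cases hcl : c = l
      · exact Or.inl hcl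
      · right
        have hr : Ram G P := lgu G hx P c hc0 hc1 hcl hP
        have h1 : x - algebraMap C Φ c ∈ P.ge 1 := P.mem_ge_of_le (by omega)
        have h0 : x ∈ P.ge 0 := by
          have h2 : x - algebraMap C Φ c ∈ P.ge 0 := P.ge_anti (by norm_num) h1
          have h3 := add_mem h2 (P.algebraMap_mem_ge c)
          simpa using h3
        have hx0 : x ≠ 0 := by
          intro h
          apply hx.leg.tr
          rw [h]
          exact isAlgebraic_zero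
        have hPx : 0 ≤ P.ord x := P.le_ord_of_mem h0 hx0
        have hev : ev P x = c := evl_eq P h1
        refine ⟨?_, P, hr, hPx, hev⟩
        rw [← hev]
        exact hB P hr hPx
    obtain ⟨Y, hY⟩ := hPZ c hcS
    rw [hY, map_mul, hRr c hcS, zero_mul])
  refine ⟨β, hβ, ?_⟩
  refine gmb_tw (szK K T + m + B.card) (szK K T) m B.card D N A d A' S.card
    (Module.finrank C⟮x⟯ Φ) _ (by omega) (by omega) (by omega) (by omega) hD hN hA hd hA' ?_ hβd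
    (by rw [hdeg]; exact hGm)
  rw [hS]
  exact (Finset.card_insert_le _ _).trans (Nat.add_le_add_right (Finset.card_filter_le _ _) 1)

end Pool.Agent.ESH
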