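import Pool.Agent.ESH.SGM
import Pool.Agent.ESH.GMB
import Pool.Agent.ESH.FNA

/-!
# ESH / FNB: effective Shafarevich for curves geometrically Galois over a genus one curve

As FNA, with `gmb` and `m = 2 * Nat.card Γ`.
-/

namespace Pool.Agent.ESH

open CategoryTheory AlgebraicGeometry Pool.Agent.Helper11 NumberField IsDedekindDomain IntermediateField

universe u

theorem fnb {K F : Type u} {C Φ : Type*} [Field K] [NumberField K] [Field F] [Algebra K F] [Field C]
    [Algebra K C] [Algebra.IsAlgebraic K C] [IsAlgClosed C] [Field Φ] [Algebra C Φ] [Algebra F Φ]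
    (hc : Cmps K F C Φ) {X : Scheme.{u}} [IsIntegral X] (f : X ⟶ Spec (.of K)) [IsProper f]
    [SmoothOfRelativeDimension 1 f] [GeometricallyIntegral f]
    (e : X.functionField ≃+* F) (he : ∀ c : K, e (constMap f c) = algebraMap K F c)
    (T : Finset (HeightOneSpectrum (𝓞 K))) (hT : ∀ v : HeightOneSpectrum (𝓞 K), v ∉ T → GoodRed f v)
    (Γ G : Subgroup (Φ ≃ₐ[C] Φ)) [Finite Γ] (hG : G ≤ Γ)
    (hΓ : ∀ σ : Φ ≃+* Φ, (∀ y : F, σ (algebraMap F Φ y) = algebraMap F Φ y) → ∀ γ ∈ Γ, ∀ γ' : Φ ≃ₐ[C] Φ,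
      (∀ z : Φ, σ (γ z) = γ' (σ z)) → γ' ∈ Γ)
    {x y : Φ} {l : C} (hx : FixLeg G x y l) (hO : ∃ Q : Place C Φ, Q.ord x < 0 ∧ Ram G Q)
    (B : Finset C) (hB : ∀ P : Place C Φ, Ram G P → 0 ≤ P.ord x → ev P x ∈ B) :
    ∃ β : Φ, IsBelyi C β ∧ Module.finrank C⟮β⟯ Φ ≤ tw 130 (szK K T + 2 * Nat.card Γ + B.card) := by
  have : CharZero C := charZero_of_injective_algebraMap (algebraMap K C).injective
  have : FunField K F := sff f e he
  have : FunField C Φ := ffc hc
  choose lift hlift hliftF using fun s : C ≃ₐ[K] C => lft hc s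
  refine gmb T (2 * Nat.card Γ) Γ G hG le_rfl hx hO B hB lift hlift ?_ ?_
  · intro s γ hγ
    have hsymm : ∀ c : C, (lift s).symm (algebraMap C Φ c) = algebraMap C Φ (s.symm c) := by
      intro c
      rw [RingEquiv.symm_apply_eq, hlift, AlgEquiv.apply_symm_apply]
    have hcomm0 : ∀ c : C, (((lift s).symm.trans (γ : Φ ≃+* Φ)).trans (lift s))
        (algebraMap C Φ c) = algebraMap C Φ c := by
      intro c
      change lift s (γ ((lift s).symm (algebraMap C Φ c))) = algebraMap C Φ c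
      rw [hsymm, AlgEquiv.commutes, hlift, AlgEquiv.apply_symm_apply]
    have hcomm : ∀ z : Φ, lift s (γ z) =
        AlgEquiv.ofRingEquiv (f := ((lift s).symm.trans (γ : Φ ≃+* Φ)).trans (lift s)) hcomm0
          (lift s z) := by
      intro z
      change lift s (γ z) = lift s (γ ((lift s).symm (lift s z)))
      rw [RingEquiv.symm_apply_apply]
    exact ⟨_, hΓ (lift s) (hliftF s) γ hγ _ hcomm, hcomm⟩
  · intro V hV
    exact sgm hc f e he T (2 * Nat.card Γ) hT lift hlift hliftF V hV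

end Pool.Agent.ESH
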