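import Pool.Agent.ESH.BRA
import Pool.Agent.Helper11.Chi

/-!
# ESH / RHB: the number of branch points of a Galois cover of the line

`n = card G = [Φ : C(x)]` (`bra_deg`).  `chi = ∑_R R.ord (R.dv x)` (`finsum_ord_dv`), and `R.ord (R.dv x) = R.ord (x - c) - 1 ≥ 0` if `x` has the value `c` at `R`, and `= R.ord x - 1` if `R` is a pole (`ord_dv`).
Poles: `∑ (R.ord x - 1) ≥ - 2 n` (there are at most `n`).  For `c ∈ B`: all `R` over `c` have a non-trivial stabiliser (`bra_fin`), so `R.ord (x - c) ≥ 2` (`fxr_ord`), so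
`R.ord (x - c) - 1 ≥ R.ord (x - c)/2`, and the sum over the `R` over `c` is at least `n/2`.  So `chi ≥ B.card n/2 - 2n`, `B.card ≤ 4 + 2 chi / n ≤ 4 + chi`.
(`n ≥ 2`: if `n = 1` then `Φ = C(x)`, `chi = -2`.)
-/

namespace Pool.Agent.ESH

open Pool.Agent.Helper11 Polynomial IntermediateField

variable {C Φ : Type*} [Field C] [Field Φ] [Algebra C Φ] [FunField C Φ] [CharZero C] [IsAlgClosed C]


private theorem rhb_tr {x : Φ} (hx : Transcendental C x) (c : C) :
    Transcendental C (x - algebraMap C Φ c) := by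
  intro h
  apply hx
  have h1 := h.add (isAlgebraic_algebraMap (R := C) (A := Φ) c)
  rwa [sub_add_cancel] at h1

private theorem rhb_dv (R : Place C Φ) (x : Φ) (c : C) :
    R.dv (x - algebraMap C Φ c) = R.dv x := by
  rw [map_sub, Derivation.map_algebraMap, sub_zero]

/-- two different constants cannot both be values of `x` -/
private theorem rhb_val (R : Place C Φ) (x : Φ) (c d : C) (hc : 1 ≤ R.ord (x - algebraMap C Φ c))
    (hd : 1 ≤ R.ord (x - algebraMap C Φ d)) : c = d := by
  by_contra hne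
  have h1 := sub_mem (R.mem_ge_of_le hd) (R.mem_ge_of_le hc)
  have h2 : x - algebraMap C Φ d - (x - algebraMap C Φ c) = algebraMap C Φ (c - d) := by
    rw [map_sub]; ring
  rw [h2] at h1
  have h3 := R.le_ord_of_mem h1 (by
    rw [Ne, map_eq_zero]
    exact sub_ne_zero.2 hne)
  rw [R.ord_algebraMap] at h3
  omega

theorem rhb (G : Subgroup (Φ ≃ₐ[C] Φ)) [Finite G] (x : Φ) (hx : FixGen G x) (h : 0 ≤ chi C Φ)
    (B : Finset C) (hB : ∀ c ∈ B, BrF x c) : (B.card : ℤ) ≤ chi C Φ + 4 := by
  classical
  obtain ⟨htr, hdeg⟩ := bra_deg G x hx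
  have hht : ht C x = (Nat.card G : ℤ) := by rw [ht_eq_finrank htr, hdeg]
  have hhtc : ∀ c : C, ht C (x - algebraMap C Φ c) = (Nat.card G : ℤ) := by
    intro c
    have h1 := ht_add_const x (-c)
    rw [map_neg, ← sub_eq_add_neg] at h1
    rw [h1, hht]
  -- the value is taken with multiplicity at least two
  have hmul : ∀ c ∈ B, ∀ R : Place C Φ, 1 ≤ R.ord (x - algebraMap C Φ c) →
      2 ≤ R.ord (x - algebraMap C Φ c) := by
    intro c hc R hR
    obtain ⟨g, hg, hg1, hgR⟩ := bra_fin G x hx c (hB c hc) R hR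
    have hpow : g ^ Nat.card G = 1 := by
      have := pow_card_eq_one' (x := (⟨g, hg⟩ : G))
      exact congrArg Subtype.val this
    have h1 := (fxr_ord g (Nat.card G) Nat.card_pos hpow hg1 R hgR x (hx.1 g hg)).1 c
    omega
  -- local inequality
  have hloc : ∀ R : Place C Φ, ∑ c ∈ B, max 0 (R.ord (x - algebraMap C Φ c)) ≤
      2 * R.ord (R.dv x) + 4 * max 0 (-R.ord x) := by
    intro R
    by_cases hp : R.ord x < 0
    · have h1 := (R.ord_dv (y := x) (by omega)).2
      have h2 : ∑ c ∈ B, max 0 (R.ord (x - algebraMap C Φ c)) = 0 := by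
        refine Finset.sum_eq_zero fun c _ => ?_
        apply max_eq_left
        have hx0 : x ≠ 0 := R.ne_zero_of_ord_ne_zero (by omega)
        have h3 := R.ord_add_eq_left (x := x) (y := -algebraMap C Φ c) hx0 (by
          right
          rw [R.ord_neg, R.ord_algebraMap]
          exact hp)
        rw [← sub_eq_add_neg] at h3
        rw [h3.2]
        omega
      rw [h1, h2, max_eq_right (by omega)]
      omega
    · have hx0 : x ∈ R.ge 0 := R.mem_ge_of_le (by omega)
      have h1 := R.le_ord_of_mem (R.dv_mem_ge_zero hx0) (R.dv_ne_zero htr)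
      have h4 : max 0 (-R.ord x) = 0 := max_eq_left (by omega)
      rw [h4]
      by_cases hex : ∃ c ∈ B, 1 ≤ R.ord (x - algebraMap C Φ c)
      · obtain ⟨c, hc, hcR⟩ := hex
        have h2 := hmul c hc R hcR
        rw [Finset.sum_eq_single_of_mem c hc]
        · have h3 := (R.ord_dv (y := x - algebraMap C Φ c) (by omega)).2
          rw [rhb_dv] at h3
          rw [h3, max_eq_right (by omega)]
          omega
        · intro d _ hdc
          apply max_eq_left
          by_contra hcon
          exact hdc (rhb_val R x d c (by omega) hcR)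
      · push Not at hex
        rw [Finset.sum_eq_zero]
        · omega
        · intro c hc
          apply max_eq_left
          have := hex c hc
          omega
  -- summation
  have hfin1 : ∀ c ∈ B, {R : Place C Φ | max 0 (R.ord (x - algebraMap C Φ c)) ≠ 0}.Finite :=
    fun c _ => supp_pospart _
  have hsum := fs_mono (supp_sum B (fun c (R : Place C Φ) => max 0 (R.ord (x - algebraMap C Φ c))) hfin1)
    (supp_add (supp_const_mul 2 (finite_ord_dv_ne_zero (k := C) htr))
      (supp_const_mul 4 (supp_negpart (k := C) x))) hloc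
  rw [fs_sum B (fun c (R : Place C Φ) => max 0 (R.ord (x - algebraMap C Φ c))) hfin1,
    fs_add (supp_const_mul 2 (finite_ord_dv_ne_zero (k := C) htr))
      (supp_const_mul 4 (supp_negpart (k := C) x)), fs_const_mul, fs_const_mul,
    finsum_ord_dv htr] at hsum
  have h1 : ∑ c ∈ B, ∑ᶠ R : Place C Φ, max 0 (R.ord (x - algebraMap C Φ c)) =
      B.card * (Nat.card G : ℤ) := by
    rw [Finset.sum_congr rfl (g := fun _ => (Nat.card G : ℤ))]
    · rw [Finset.sum_const, nsmul_eq_mul]
    · intro c _
      rw [← ht_eq_pos, hhtc]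
  have h2 : ∑ᶠ R : Place C Φ, max 0 (-R.ord x) = (Nat.card G : ℤ) := hht
  rw [h1, h2] at hsum
  by_cases hB4 : B.card ≤ 4
  · omega
  have hBne : B.Nonempty := Finset.card_pos.1 (by omega)
  obtain ⟨c, hc⟩ := hBne
  obtain ⟨P, hP⟩ := hB c hc
  obtain ⟨g, hg, hg1, -⟩ := bra_fin G x hx c ⟨P, hP⟩ P (by omega)
  have hn : 2 ≤ Nat.card G := by
    have : Nontrivial G := ⟨⟨⟨g, hg⟩, 1, fun h => hg1 (congrArg Subtype.val h)⟩⟩
    exact Finite.one_lt_card
  have hn' : (2 : ℤ) ≤ Nat.card G := by exact_mod_cast hn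
  have hb' : (0 : ℤ) ≤ (B.card : ℤ) - 4 := by omega
  nlinarith [mul_le_mul_of_nonneg_right hn' hb']

theorem rhb_fin (x : Φ) (hx : Transcendental C x) : {c : C | BrF x c}.Finite := by
  classical
  rcases isEmpty_or_nonempty (Place C Φ) with hem | hem
  · refine Set.finite_empty.subset ?_
    rintro c ⟨P, -⟩
    exact hem.elim P
  have hch : ∀ c : C, BrF x c → ∃ P : Place C Φ, 2 ≤ P.ord (x - algebraMap C Φ c) := fun c h => h
  choose! P hP using hch
  refine Set.Finite.of_finite_image (f := P) ?_ ?_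
  · refine (finite_ord_dv_ne_zero (k := C) hx).subset ?_
    rintro R ⟨c, hc, rfl⟩
    have h1 := hP c hc
    have h2 := ((P c).ord_dv (y := x - algebraMap C Φ c) (by omega)).2
    rw [rhb_dv] at h2
    change (P c).ord ((P c).dv x) ≠ 0
    rw [h2]
    omega
  · intro c hc d hd hcd
    have h1 := hP c hc
    have h2 := hP d hd
    have hcd' : P c = P d := hcd
    rw [← hcd'] at h2
    exact rhb_val (P c) x c d (by omega) (by omega)

end Pool.Agent.ESH
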