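import Pool.Agent.ESH.FNA
import Pool.Agent.ESH.FAU
import Pool.Agent.ESH.RHB

/-!
# ESH / FNC: effective Shafarevich for curves of genus g which are geometrically Galois over the line

`FNA` with `Γ = ⊤` (finite by FAU), `Nat.card ⊤ ≤ 42 (2g-2)` (HUR), `B` = the set of the finite branch points (`rhb_fin`), `B.card ≤ 2g + 2` (RHB).  `tw_mono`.  `FunField C Φ` by `sff`, `ffc`.
-/

namespace Pool.Agent.ESH

open CategoryTheory AlgebraicGeometry Pool.Agent.Helper11 NumberField IsDedekindDomain IntermediateField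

universe u

theorem fnc {K F : Type u} {C Φ : Type*} [Field K] [NumberField K] [Field F] [Algebra K F] [Field C]
    [Algebra K C] [Algebra.IsAlgebraic K C] [IsAlgClosed C] [Field Φ] [Algebra C Φ] [Algebra F Φ]
    (hc : Cmps K F C Φ) {X : Scheme.{u}} [IsIntegral X] (f : X ⟶ Spec (.of K)) [IsProper f]
    [SmoothOfRelativeDimension 1 f] [GeometricallyIntegral f]
    (e : X.functionField ≃+* F) (he : ∀ c : K, e (constMap f c) = algebraMap K F c)
    (T : Finset (HeightOneSpectrum (𝓞 K))) (hT : ∀ v : HeightOneSpectrum (𝓞 K), v ∉ T → GoodRed f v)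
    (g : ℕ) (hg : 2 ≤ g) (hchi : chi C Φ = 2 * g - 2) (hpos : PosGenus C Φ)
    (G : Subgroup (Φ ≃ₐ[C] Φ)) (x : Φ) (hx : FixGen G x) :
    ∃ β : Φ, IsBelyi C β ∧ Module.finrank C⟮β⟯ Φ ≤ tw 130 (szK K T + 86 * g) := by
  have : CharZero C := charZero_of_injective_algebraMap (algebraMap K C).injective
  have : FunField K F := sff f e he
  have : FunField C Φ := ffc hc
  have hchi0 : 0 < chi C Φ := by omega
  have hfin : Finite (Φ ≃ₐ[C] Φ) := fau hpos hchi0
  have hxt := (bra_deg G x hx).1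
  have hB := rhb_fin x hxt
  have h1 := rhb G x hx hchi0.le hB.toFinset (fun c hc => hB.mem_toFinset.1 hc)
  have h2 := hur hchi0 (⊤ : Subgroup (Φ ≃ₐ[C] Φ))
  obtain ⟨β, hβ, hd⟩ := fna hc f e he T hT hpos ⊤ G le_top
    (fun _ _ _ _ _ _ => Subgroup.mem_top _) x hx hB.toFinset (fun c hc => hB.mem_toFinset.2 hc)
  refine ⟨β, hβ, hd.trans (tw_mono le_rfl ?_)⟩
  rw [hchi] at h1 h2
  omega

end Pool.Agent.ESH
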