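import Pool.Agent.ESH.LGF

/-!
# ESH / LGP: orders at the poles of x

`R.ord x = -d < 0`: `R.ord (x - c) = -d` for all `c`, so `2 R.ord y = -3 d`, `d = 2k`, `R.ord y = -3k`.  `R.ord (p(x)) = -2k deg p`.  The orders `-2k deg p₁` and
`-k (2 deg p₂ + 3)` are different multiples of `k` (parity), so the order of the sum is the smaller one.
-/

namespace Pool.Agent.ESH

open Pool.Agent.Helper11 Polynomial IntermediateField

variable {C Φ : Type*} [Field C] [Field Φ] [Algebra C Φ] [FunField C Φ] [CharZero C] [IsAlgClosed C]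

private theorem poly_aux {x : Φ} (R : Place C Φ) (hR : R.ord x < 0) (n : ℕ) : ∀ p : C[X], p ≠ 0 →
    p.natDegree = n → aeval x p ≠ 0 ∧ R.ord (aeval x p) = R.ord x * n := by
  have hx : x ≠ 0 := R.ne_zero_of_ord_ne_zero hR.ne
  induction n using Nat.strong_induction_on with
  | _ n ih =>
    intro p hp hn
    have hlc : algebraMap C Φ p.leadingCoeff ≠ 0 := by
      rw [Ne, map_eq_zero]
      exact leadingCoeff_ne_zero.2 hp
    have hmon : aeval x (monomial p.natDegree p.leadingCoeff) =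
        algebraMap C Φ p.leadingCoeff * x ^ n := by
      rw [aeval_monomial, hn]
    have hm0 : algebraMap C Φ p.leadingCoeff * x ^ n ≠ 0 := mul_ne_zero hlc (pow_ne_zero _ hx)
    have hmo : R.ord (algebraMap C Φ p.leadingCoeff * x ^ n) = R.ord x * n := by
      rw [R.ord_mul _ _ hlc (pow_ne_zero _ hx), R.ord_algebraMap, R.ord_pow]
      ring
    have he : aeval x p = aeval x p.eraseLead + algebraMap C Φ p.leadingCoeff * x ^ n := by
      rw [← hmon, ← map_add, eraseLead_add_monomial_natDegree_leadingCoeff]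
    rw [he, ← hmo]
    refine R.ord_add_eq_right hm0 ?_
    by_cases h0 : p.eraseLead = 0
    · left
      rw [h0, map_zero]
    · right
      have hlt : p.eraseLead.natDegree < n := by
        rw [← hn]
        exact (eraseLead_natDegree_lt_or_eraseLead_eq_zero p).resolve_right h0
      rw [(ih _ hlt p.eraseLead h0 rfl).2, hmo]
      have : (p.eraseLead.natDegree : ℤ) < n := by exact_mod_cast hlt
      nlinarith

theorem lgp_poly {x : Φ} (R : Place C Φ) (hR : R.ord x < 0) (p : C[X]) (hp : p ≠ 0) :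
    R.ord (aeval x p) = R.ord x * p.natDegree :=
  (poly_aux R hR _ p hp rfl).2

private theorem ord_sub {x : Φ} (R : Place C Φ) (hR : R.ord x < 0) (c : C) :
    x - algebraMap C Φ c ≠ 0 ∧ R.ord (x - algebraMap C Φ c) = R.ord x := by
  have hx : x ≠ 0 := R.ne_zero_of_ord_ne_zero hR.ne
  rw [sub_eq_add_neg]
  refine R.ord_add_eq_left hx ?_
  right
  rw [R.ord_neg, R.ord_algebraMap]
  exact hR

theorem lgp {x y : Φ} {l : C} (hL : Leg x y l) (R : Place C Φ) (hR : R.ord x < 0) :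
    ∃ k : ℤ, 1 ≤ k ∧ R.ord x = -(2 * k) ∧ R.ord y = -(3 * k) ∧
      ∀ p₁ p₂ : C[X], (p₁ ≠ 0 ∨ p₂ ≠ 0) → R.ord (aeval x p₁ + aeval x p₂ * y) = -(k * lM p₁ p₂) := by
  have hx : x ≠ 0 := R.ne_zero_of_ord_ne_zero hR.ne
  obtain ⟨a1, a2⟩ := ord_sub R hR 1
  obtain ⟨b1, b2⟩ := ord_sub R hR l
  rw [map_one] at a1 a2
  have h1 := congrArg R.ord hL.eq
  rw [R.ord_pow, R.ord_mul _ _ (mul_ne_zero hx a1) b1, R.ord_mul _ _ hx a1, a2, b2] at h1
  push_cast at h1
  obtain ⟨k, hk⟩ : ∃ k, R.ord x = -(2 * k) := ⟨-(R.ord x / 2), by omega⟩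
  have hy : R.ord y = -(3 * k) := by omega
  have hk1 : 1 ≤ k := by omega
  have hy0 : y ≠ 0 := R.ne_zero_of_ord_ne_zero (by omega)
  refine ⟨k, hk1, hk, hy, fun p₁ p₂ hp => ?_⟩
  unfold lM
  by_cases h2 : p₂ = 0
  · have h3 : p₁ ≠ 0 := hp.resolve_right (fun h => h h2)
    rw [if_pos h2, h2, map_zero, zero_mul, add_zero, lgp_poly R hR p₁ h3, hk]
    ring
  · rw [if_neg h2]
    obtain ⟨c1, c2⟩ := poly_aux R hR _ p₂ h2 rfl
    have e2 : R.ord (aeval x p₂ * y) = -(k * (2 * p₂.natDegree + 3)) := by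
      rw [R.ord_mul _ _ c1 hy0, c2, hk, hy]
      ring
    have n2 : aeval x p₂ * y ≠ 0 := mul_ne_zero c1 hy0
    by_cases h1 : p₁ = 0
    · rw [if_pos h1, h1, map_zero, zero_add, e2]
    · rw [if_neg h1]
      obtain ⟨d1, d2⟩ := poly_aux R hR _ p₁ h1 rfl
      have e1 : R.ord (aeval x p₁) = -(k * (2 * p₁.natDegree)) := by
        rw [d2, hk]
        ring
      rcases lt_or_ge (2 * (p₁.natDegree : ℤ)) (2 * p₂.natDegree + 3) with h5 | h5
      · rw [max_eq_right h5.le, ← e2]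
        refine (R.ord_add_eq_right n2 (Or.inr ?_)).2
        rw [e1, e2]
        nlinarith
      · have h6 : (2 * (p₂.natDegree : ℤ) + 3) < 2 * p₁.natDegree := by omega
        rw [max_eq_left h5, ← e1]
        refine (R.ord_add_eq_left d1 (Or.inr ?_)).2
        rw [e1, e2]
        nlinarith

end Pool.Agent.ESH
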