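import Pool.Agent.ESH.LGR
import Pool.Agent.ESH.FXR
import Pool.Agent.ESH.LGP
import Pool.Agent.ESH.EVL
import Pool.Agent.Helper11.Chi
import Pool.Agent.Helper11.FinsumTools

/-!
# ESH / RHE: the number of ramified places of a Galois cover of a genus one curve

`chi = ∑_R R.ordDiff (y⁻¹ dx)` (`finsum_ordDiff`), all terms `≥ 0` (LGR).  For a ramified place `R` the term is `≥ 1`: (1) pole: `R.ord x = -2k`, `R.ord y = -3k`, the `G`-invariant function `x/y` has order `k ≠ 1`
(`fxr_ord` with `c = 0`), term `k - 1`.  (2) `x` has the value `c ∈ {0, 1, l}`: `R.ord (x - c) = 2k`, `R.ord y = k ≠ 1` (`fxr_ord` for `y`), term `k - 1`.  (3) otherwise `R.ord (x - c) ≥ 2` (`fxr_ord`), term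
`R.ord (x - c) - 1`.
-/

namespace Pool.Agent.ESH

open Pool.Agent.Helper11 Polynomial IntermediateField

variable {C Φ : Type*} [Field C] [Field Φ] [Algebra C Φ] [FunField C Φ] [CharZero C] [IsAlgClosed C]


private theorem rhe_sub_ne {x : Φ} (hx : Transcendental C x) (c : C) : x - algebraMap C Φ c ≠ 0 := by
  intro h
  apply hx
  rw [sub_eq_zero] at h
  rw [h]
  exact isAlgebraic_algebraMap c

private theorem rhe_y {x y : Φ} {l : C} (hL : Leg x y l) (R : Place C Φ) :
    y ≠ 0 ∧ 2 * R.ord y = R.ord (x - algebraMap C Φ 0) + R.ord (x - algebraMap C Φ 1)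
      + R.ord (x - algebraMap C Φ l) := by
  have h0 := rhe_sub_ne hL.tr 0
  have h1 := rhe_sub_ne hL.tr 1
  have h2 := rhe_sub_ne hL.tr l
  have he : y ^ 2 = (x - algebraMap C Φ 0) * (x - algebraMap C Φ 1) * (x - algebraMap C Φ l) := by
    rw [map_zero, map_one, sub_zero]
    exact hL.eq
  have hy : y ≠ 0 := by
    rintro rfl
    have : (x - algebraMap C Φ 0) * (x - algebraMap C Φ 1) * (x - algebraMap C Φ l) = 0 := by
      rw [← he]
      ring
    exact mul_ne_zero (mul_ne_zero h0 h1) h2 this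
  refine ⟨hy, ?_⟩
  have h3 := congrArg R.ord he
  rw [R.ord_pow, R.ord_mul _ _ (mul_ne_zero h0 h1) h2, R.ord_mul _ _ h0 h1] at h3
  rw [Nat.cast_ofNat] at h3
  exact h3

private theorem rhe_other {x : Φ} (R : Place C Φ) {c : C}
    (hc : 1 ≤ R.ord (x - algebraMap C Φ c)) {b : C} (hb : b ≠ c) :
    R.ord (x - algebraMap C Φ b) = 0 := by
  have e : x - algebraMap C Φ b = algebraMap C Φ (c - b) + (x - algebraMap C Φ c) := by
    rw [map_sub]
    ring
  have h1 : algebraMap C Φ (c - b) ≠ 0 := by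
    rw [Ne, map_eq_zero, sub_eq_zero]
    exact fun h => hb h.symm
  rw [e]
  have := (R.ord_add_eq_left (x := algebraMap C Φ (c - b)) (y := x - algebraMap C Φ c) h1
    (Or.inr (by rw [R.ord_algebraMap]; omega))).2
  rw [this, R.ord_algebraMap]

open scoped KaehlerDifferential in
private theorem rhe_loc (G : Subgroup (Φ ≃ₐ[C] Φ)) [Finite G] {x y : Φ} {l : C} (h : FixLeg G x y l)
    (R : Place C Φ) (hR : Ram G R) : 1 ≤ R.ordDiff (y⁻¹ • KaehlerDifferential.D C Φ x) := by
  obtain ⟨g, hg, hg1, hgR⟩ := hR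
  have hpow : g ^ Nat.card G = 1 := by
    have := pow_card_eq_one' (x := (⟨g, hg⟩ : G))
    exact congrArg Subtype.val this
  have hL := h.leg
  obtain ⟨hy, hy2⟩ := rhe_y hL R
  have hdv := R.dv_ne_zero hL.tr
  have hfx := fxr_ord g (Nat.card G) Nat.card_pos hpow hg1 R hgR x (h.fx g hg)
  have hfy := fxr_ord g (Nat.card G) Nat.card_pos hpow hg1 R hgR y (h.fy g hg)
  rw [R.ordDiff_smul_D, R.ord_mul _ _ (inv_ne_zero hy) hdv, R.ord_inv]
  by_cases hx : R.ord x < 0
  · obtain ⟨k, hk1, hkx, hky, -⟩ := lgp hL R hx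
    have hx0 : x ≠ 0 := R.ne_zero_of_ord_ne_zero hx.ne
    have h1 := (R.ord_dv (y := x) (by omega)).2
    have h2 := (fxr_ord g (Nat.card G) Nat.card_pos hpow hg1 R hgR (x / y) (by
      rw [map_div₀, h.fx g hg, h.fy g hg])).1 0
    rw [map_zero, sub_zero, R.ord_div hx0 hy, hkx, hky] at h2
    rw [h1, hkx, hky]
    omega
  · obtain ⟨c, hc⟩ := R.exists_residue (R.mem_ge_of_le (by omega : (0 : ℤ) ≤ R.ord x))
    have hc1 := R.le_ord_of_mem hc (rhe_sub_ne hL.tr c)
    have hc2 := hfx.1 c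
    have hy3 := hfy.1 0
    rw [map_zero, sub_zero] at hy3
    have h3 := (R.ord_dv (y := x - algebraMap C Φ c) (by omega)).2
    rw [map_sub, Derivation.map_algebraMap, sub_zero] at h3
    rw [h3]
    have h01 : (0 : C) ≠ 1 := zero_ne_one
    by_cases c0 : c = 0
    · subst c0
      rw [rhe_other R hc1 (b := 1) h01.symm, rhe_other R hc1 (b := l) hL.l0] at hy2
      omega
    by_cases c1 : c = 1
    · subst c1
      rw [rhe_other R hc1 (b := 0) h01, rhe_other R hc1 (b := l) hL.l1] at hy2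
      omega
    by_cases cl : c = l
    · subst cl
      rw [rhe_other R hc1 (b := 0) (fun e => c0 e.symm),
        rhe_other R hc1 (b := 1) (fun e => c1 e.symm)] at hy2
      omega
    · rw [rhe_other R hc1 (b := 0) (fun e => c0 e.symm),
        rhe_other R hc1 (b := 1) (fun e => c1 e.symm),
        rhe_other R hc1 (b := l) (fun e => cl e.symm)] at hy2
      omega

open scoped KaehlerDifferential in
theorem rhe (G : Subgroup (Φ ≃ₐ[C] Φ)) [Finite G] {x y : Φ} {l : C} (h : FixLeg G x y l) :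
    {Q : Place C Φ | Ram G Q}.Finite ∧ ({Q : Place C Φ | Ram G Q}.ncard : ℤ) ≤ chi C Φ := by
  classical
  have hL := h.leg
  set ω : Ω[Φ⁄C] := y⁻¹ • KaehlerDifferential.D C Φ x with hω
  have hsupp := finite_ordDiff_ne_zero (k := C) ω
  have hfin : {Q : Place C Φ | Ram G Q}.Finite := by
    refine hsupp.subset ?_
    intro R hR
    have h1 := rhe_loc G h R hR
    rw [← hω] at h1
    change R.ordDiff ω ≠ 0
    omega
  refine ⟨hfin, ?_⟩
  have hω0 : ω ≠ 0 := by
    have hy : y ≠ 0 := by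
      rintro rfl
      have he := hL.eq
      have h0 := rhe_sub_ne hL.tr 0
      have h1 := rhe_sub_ne hL.tr 1
      have h2 := rhe_sub_ne hL.tr l
      rw [map_zero, sub_zero] at h0
      rw [map_one] at h1
      apply mul_ne_zero (mul_ne_zero h0 h1) h2
      rw [← he]
      ring
    exact smul_ne_zero (inv_ne_zero hy) (D_ne_zero hL.tr)
  rw [← finsum_ordDiff hω0, ← fs_ind hfin]
  refine fs_mono (supp_ind hfin) hsupp ?_
  intro R
  split_ifs with hR
  · exact rhe_loc G h R hR
  · exact lgr hL R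

end Pool.Agent.ESH
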