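import Pool.Agent.ESH.FNB
import Pool.Agent.ESH.FAU
import Pool.Agent.ESH.RHE

/-!
# ESH / FND: effective Shafarevich for curves of genus g which are geometrically Galois over a genus one curve

`FNB` with `Γ = ⊤` (finite by FAU with `lgr_pos`), `Nat.card ⊤ ≤ 42 (2g-2)`, `B` = the image of the ramified places with finite `x` under `ev . x`, `B.card ≤ chi = 2g - 2` (RHE).
-/

namespace Pool.Agent.ESH

open CategoryTheory AlgebraicGeometry Pool.Agent.Helper11 NumberField IsDedekindDomain IntermediateField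

universe u

theorem fnd {K F : Type u} {C Φ : Type*} [Field K] [NumberField K] [Field F] [Algebra K F] [Field C]
    [Algebra K C] [Algebra.IsAlgebraic K C] [IsAlgClosed C] [Field Φ] [Algebra C Φ] [Algebra F Φ]
    (hc : Cmps K F C Φ) {X : Scheme.{u}} [IsIntegral X] (f : X ⟶ Spec (.of K)) [IsProper f]
    [SmoothOfRelativeDimension 1 f] [GeometricallyIntegral f]
    (e : X.functionField ≃+* F) (he : ∀ c : K, e (constMap f c) = algebraMap K F c)
    (T : Finset (HeightOneSpectrum (𝓞 K))) (hT : ∀ v : HeightOneSpectrum (𝓞 K), v ∉ T → GoodRed f v)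
    (g : ℕ) (hg : 2 ≤ g) (hchi : chi C Φ = 2 * g - 2)
    (G : Subgroup (Φ ≃ₐ[C] Φ)) {x y : Φ} {l : C} (hx : FixLeg G x y l)
    (hO : ∃ Q : Place C Φ, Q.ord x < 0 ∧ Ram G Q) :
    ∃ β : Φ, IsBelyi C β ∧ Module.finrank C⟮β⟯ Φ ≤ tw 130 (szK K T + 170 * g) := by
  classical
  have : CharZero C := charZero_of_injective_algebraMap (algebraMap K C).injective
  have : FunField K F := sff f e he
  have : FunField C Φ := ffc hc
  have hchi0 : 0 < chi C Φ := by omega
  have hfin : Finite (Φ ≃ₐ[C] Φ) := fau (lgr_pos hx.leg) hchi0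
  obtain ⟨hB, h1⟩ := rhe G hx
  have h2 := hur hchi0 (⊤ : Subgroup (Φ ≃ₐ[C] Φ))
  have h3 : (hB.toFinset.image (fun Q : Place C Φ => ev Q x)).card ≤
      {Q : Place C Φ | Ram G Q}.ncard := by
    refine Finset.card_image_le.trans ?_
    rw [Set.ncard_eq_toFinset_card _ hB]
  obtain ⟨β, hβ, hd⟩ := fnb hc f e he T hT ⊤ G le_top
    (fun _ _ _ _ _ _ => Subgroup.mem_top _) hx hO
    (hB.toFinset.image (fun Q : Place C Φ => ev Q x))
    (fun P hP _ => Finset.mem_image.2 ⟨P, hB.mem_toFinset.2 hP, rfl⟩)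
  refine ⟨β, hβ, hd.trans (tw_mono le_rfl ?_)⟩
  rw [hchi] at h1 h2
  omega

end Pool.Agent.ESH
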