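import Pool.Agent.ESH.Defs

/-!
# ESH / IDC: explicit bound for the number of ideals of bounded norm

Proof.  If `absNorm I = n ≥ 1` then `n ∈ I` (`Ideal.absNorm_mem`), so `I ⊇ (n)` and `I` is determined by its
image in the finite ring `𝓞 M ⧸ (n)`, which has `n^D` elements (`Ideal.absNorm_span_natCast`, `RingOfIntegers.rank`);
so there are at most `2^(n^D)` ideals of norm `n` (subsets of that ring).  Take the union over `n ≤ B`.
(The finset: `Ideal.finite_setOf_absNorm_le` or build it as the image of the comap maps.)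
-/

namespace Pool.Agent.ESH

open NumberField

private lemma IDC_one (M : Type*) [Field M] [NumberField M] (n : ℕ) (hn : 0 < n) :
    ∃ T : Finset (Ideal (𝓞 M)), (∀ I : Ideal (𝓞 M), Ideal.absNorm I = n → I ∈ T) ∧
      T.card ≤ 2 ^ (n ^ Module.finrank ℚ M) := by
  classical
  set J : Ideal (𝓞 M) := Ideal.span {(n : 𝓞 M)} with hJ
  have hJn : Ideal.absNorm J = n ^ Module.finrank ℚ M := by
    rw [hJ, Ideal.absNorm_span_natCast, RingOfIntegers.rank]
  have hJ0 : Ideal.absNorm J ≠ 0 := by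
    rw [hJn]
    exact pow_ne_zero _ hn.ne'
  haveI hfin : Finite (𝓞 M ⧸ J) := (Ideal.absNorm_ne_zero_iff J).1 hJ0
  have hcard : Nat.card (𝓞 M ⧸ J) = n ^ Module.finrank ℚ M := by
    rw [← hJn, Ideal.absNorm_apply]
    rfl
  have hinj : Function.Injective (fun I : Ideal (𝓞 M ⧸ J) => (I : Set (𝓞 M ⧸ J))) :=
    SetLike.coe_injective
  haveI : Finite (Ideal (𝓞 M ⧸ J)) := Finite.of_injective _ hinj
  haveI : Fintype (Ideal (𝓞 M ⧸ J)) := Fintype.ofFinite _
  haveI : Fintype (𝓞 M ⧸ J) := Fintype.ofFinite _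
  refine ⟨Finset.univ.image (fun K : Ideal (𝓞 M ⧸ J) => K.comap (Ideal.Quotient.mk J)), ?_, ?_⟩
  · intro I hI
    rw [Finset.mem_image]
    refine ⟨I.map (Ideal.Quotient.mk J), Finset.mem_univ _, ?_⟩
    have hle : J ≤ I := by
      rw [hJ, ← hI]
      exact Ideal.span_singleton_absNorm_le I
    rw [Ideal.comap_map_of_surjective' _ Ideal.Quotient.mk_surjective, Ideal.mk_ker]
    exact sup_eq_left.2 hle
  · refine Finset.card_image_le.trans ?_
    rw [Finset.card_univ, ← hcard, Nat.card_eq_fintype_card, ← Fintype.card_set]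
    exact Fintype.card_le_of_injective _ hinj

theorem idc (M : Type*) [Field M] [NumberField M] (B : ℕ) :
    ∃ T : Finset (Ideal (𝓞 M)), (∀ I : Ideal (𝓞 M), I ≠ ⊥ → Ideal.absNorm I ≤ B → I ∈ T) ∧
      T.card ≤ (B + 1) * 2 ^ ((B + 1) ^ Module.finrank ℚ M) := by
  classical
  have h : ∀ n : ℕ, ∃ T : Finset (Ideal (𝓞 M)),
      (∀ I : Ideal (𝓞 M), I ≠ ⊥ → Ideal.absNorm I = n → I ∈ T) ∧
      (n ≤ B → T.card ≤ 2 ^ ((B + 1) ^ Module.finrank ℚ M)) := by
    intro n
    rcases Nat.eq_zero_or_pos n with rfl | hn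
    · refine ⟨∅, fun I hI h0 => ?_, fun _ => by simp⟩
      exact absurd (Ideal.absNorm_eq_zero_iff.1 h0) hI
    · obtain ⟨T, h1, h2⟩ := IDC_one M n hn
      refine ⟨T, fun I _ h0 => h1 I h0, fun hnB => h2.trans ?_⟩
      exact Nat.pow_le_pow_right (by norm_num) (Nat.pow_le_pow_left (by omega) _)
  choose T hT1 hT2 using h
  refine ⟨(Finset.range (B + 1)).biUnion T, fun I hI hIB => ?_, ?_⟩
  · rw [Finset.mem_biUnion]
    exact ⟨Ideal.absNorm I, Finset.mem_range.2 (by omega), hT1 _ I hI rfl⟩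
  · refine Finset.card_biUnion_le.trans ?_
    refine (Finset.sum_le_sum fun n hn => hT2 n (by
      have := Finset.mem_range.1 hn
      omega)).trans ?_
    rw [Finset.sum_const, Finset.card_range, smul_eq_mul]

end Pool.Agent.ESH
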