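import Pool.Agent.ESH.Defs

/-!
# ESH / LIO: Liouville inequality and basic height lemmas

Proof of the first two: `mulHeight₁ x = mulHeight₁ x⁻¹` is a product of factors `max (·) 1 ≥ 1`, one of which is
`max (v x⁻¹) 1 ≥ (v x)⁻¹` (resp. `(max (w x⁻¹) 1)^mult`).
`ht_sunit`: for an S-unit `x` with `ℓ_w = mult * log (w x)` (`w` infinite), `ℓ_v = log (v x)` (`v ∈ S`) the product
formula says `∑ ℓ = 0` (`NumberField.prod_abs_eq_one`), and `logHeight₁ x = ∑ max(ℓ, 0)`, so
`2 * logHeight₁ x = ∑ |ℓ|`.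
`ht_sub_one`: `max |1 - x| 1 ≤ 2 max |x| 1` at infinite places, `≤ max |x| 1` at finite places.
`ht_prod_zpow`: `logHeight₁ (x*y) ≤ logHeight₁ x + logHeight₁ y`, `logHeight₁ (x^n) = |n| logHeight₁ x`.
-/

namespace Pool.Agent.ESH

open NumberField Height

variable {M : Type*} [Field M] [NumberField M]

private theorem LIO_prod_ge {α : Type*} [DecidableEq α] (s : Finset α) (g : α → ℝ) (h : ∀ a, 1 ≤ g a)
    (a : α) (ha : a ∈ s) : g a ≤ ∏ b ∈ s, g b := by
  rw [← Finset.mul_prod_erase s g ha]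
  have h1 : 1 ≤ ∏ b ∈ s.erase a, g b :=
    Finset.prod_induction _ (fun t => 1 ≤ t) (fun a b ha hb => one_le_mul_of_one_le_of_one_le ha hb)
      le_rfl (fun b _ => h b)
  have h2 : 0 ≤ g a := zero_le_one.trans (h a)
  nlinarith

private theorem LIO_one_le {α : Type*} (s : Finset α) (g : α → ℝ) (h : ∀ a, 1 ≤ g a) :
    1 ≤ ∏ b ∈ s, g b :=
  Finset.prod_induction _ (fun t => 1 ≤ t) (fun a b ha hb => one_le_mul_of_one_le_of_one_le ha hb)
      le_rfl (fun b _ => h b)

private theorem LIO_eq (x : M) (T : Finset (FinitePlace M)) (hT : ∀ v, v ∉ T → v x = 1) :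
    mulHeight₁ x = (∏ w : InfinitePlace M, max (w x) 1 ^ w.mult) * ∏ v ∈ T, max (v x) 1 := by
  rw [NumberField.mulHeight₁_eq]
  congr 1
  refine finprod_eq_prod_of_mulSupport_subset _ fun v hv => ?_
  by_contra hvT
  apply hv
  change max (v x) 1 = 1
  rw [hT v hvT]
  exact max_self 1

private theorem LIO_fin_le (v : FinitePlace M) (x : M) (hx : x ≠ 0) : v x ≤ mulHeight₁ x := by
  classical
  have hfin : (Function.mulSupport fun v : FinitePlace M => v x).Finite :=
    FinitePlace.hasFiniteMulSupport hx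
  have h1 := LIO_eq x (insert v hfin.toFinset) (fun u hu => by
    by_contra hne
    exact hu (Finset.mem_insert_of_mem (hfin.mem_toFinset.mpr hne)))
  rw [h1]
  have h2 := LIO_one_le Finset.univ (fun w : InfinitePlace M => max (w x) 1 ^ w.mult)
    (fun w => one_le_pow₀ (le_max_right _ _))
  have h3 := LIO_prod_ge (insert v hfin.toFinset) (fun u : FinitePlace M => max (u x) 1)
    (fun u => le_max_right _ _) v (Finset.mem_insert_self _ _)
  have h4 : v x ≤ max (v x) 1 := le_max_left _ _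
  have h5 : (0 : ℝ) ≤ max (v x) 1 := zero_le_one.trans (le_max_right _ _)
  have h6 : 0 ≤ ∏ u ∈ insert v hfin.toFinset, max (u x) 1 := h5.trans h3
  calc v x ≤ ∏ u ∈ insert v hfin.toFinset, max (u x) 1 := h4.trans h3
    _ = 1 * ∏ u ∈ insert v hfin.toFinset, max (u x) 1 := (one_mul _).symm
    _ ≤ _ := mul_le_mul_of_nonneg_right h2 h6

private theorem LIO_inf_le (w : InfinitePlace M) (x : M) (hx : x ≠ 0) :
    max (w x) 1 ^ w.mult ≤ mulHeight₁ x := by
  classical
  have hfin : (Function.mulSupport fun v : FinitePlace M => v x).Finite :=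
    FinitePlace.hasFiniteMulSupport hx
  have h1 := LIO_eq x hfin.toFinset (fun u hu => by
    by_contra hne
    exact hu (hfin.mem_toFinset.mpr hne))
  rw [h1]
  have h2 := LIO_prod_ge Finset.univ (fun w : InfinitePlace M => max (w x) 1 ^ w.mult)
    (fun w => one_le_pow₀ (le_max_right _ _)) w (Finset.mem_univ w)
  have h3 := LIO_one_le hfin.toFinset (fun u : FinitePlace M => max (u x) 1)
    (fun u => le_max_right _ _)
  have h5 : (0 : ℝ) ≤ max (w x) 1 ^ w.mult := by
    have : (0 : ℝ) ≤ max (w x) 1 := zero_le_one.trans (le_max_right _ _)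
    positivity
  calc max (w x) 1 ^ w.mult ≤ ∏ w : InfinitePlace M, max (w x) 1 ^ w.mult := h2
    _ = (∏ w : InfinitePlace M, max (w x) 1 ^ w.mult) * 1 := (mul_one _).symm
    _ ≤ _ := mul_le_mul_of_nonneg_left h3 (h5.trans h2)

theorem lio_fin (v : FinitePlace M) (x : M) (hx : x ≠ 0) : (mulHeight₁ x)⁻¹ ≤ v x := by
  have h1 := LIO_fin_le v x⁻¹ (inv_ne_zero hx)
  rw [mulHeight₁_inv, map_inv₀] at h1
  have hv : 0 < v x := FinitePlace.pos_iff.mpr hx
  rw [inv_le_comm₀ (mulHeight₁_pos x) hv]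
  exact h1

theorem lio_inf (w : InfinitePlace M) (x : M) (hx : x ≠ 0) : (mulHeight₁ x)⁻¹ ≤ nInf w x := by
  have h1 := LIO_inf_le w x⁻¹ (inv_ne_zero hx)
  rw [mulHeight₁_inv] at h1
  have hw : 0 < w x := InfinitePlace.pos_iff.mpr hx
  have h2 : (w x⁻¹) ^ w.mult ≤ max (w x⁻¹) 1 ^ w.mult :=
    pow_le_pow_left₀ (apply_nonneg _ _) (le_max_left _ _) _
  have h3 := h2.trans h1
  rw [map_inv₀, inv_pow] at h3
  unfold nInf
  rw [inv_le_comm₀ (mulHeight₁_pos x) (by positivity)]
  exact h3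

/-- `|log (w x)| ≤ logHeight₁ x` -/
theorem abs_log_inf_le (w : InfinitePlace M) (x : M) (hx : x ≠ 0) :
    |Real.log (w x)| ≤ logHeight₁ x := by
  have key : ∀ y : M, y ≠ 0 → Real.log (w y) ≤ logHeight₁ y := by
    intro y hy
    have hw : 0 < w y := InfinitePlace.pos_iff.mpr hy
    have h1 := LIO_inf_le w y hy
    have h2 : w y ≤ max (w y) 1 ^ w.mult :=
      (le_max_left _ _).trans (le_self_pow₀ (le_max_right _ _) w.mult_ne_zero)
    rw [logHeight₁_eq_log_mulHeight₁]
    exact Real.log_le_log hw (h2.trans h1)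
  rw [abs_le]
  constructor
  · have h1 := key x⁻¹ (inv_ne_zero hx)
    rw [logHeight₁_inv, map_inv₀, Real.log_inv] at h1
    linarith
  · exact key x hx

theorem prod_formula_sunit (S : Finset (FinitePlace M)) (x : M) (hx : x ≠ 0) (hS : IsSUnit S x) :
    ∑ w : InfinitePlace M, (w.mult : ℝ) * Real.log (w x) + ∑ v ∈ S, Real.log (v x) = 0 := by
  have h1 := prod_abs_eq_one hx
  have h2 : ∏ᶠ v : FinitePlace M, v x = ∏ v ∈ S, v x := by
    refine finprod_eq_prod_of_mulSupport_subset _ fun v hv => ?_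
    by_contra hvS
    exact hv (hS v hvS)
  rw [h2] at h1
  have hw : ∀ w : InfinitePlace M, w x ≠ 0 := fun w => (InfinitePlace.pos_iff.mpr hx).ne'
  have hv : ∀ v : FinitePlace M, v x ≠ 0 := fun v => (FinitePlace.pos_iff.mpr hx).ne'
  have h3 := congrArg Real.log h1
  rw [Real.log_one, Real.log_mul (Finset.prod_ne_zero_iff.mpr fun w _ => pow_ne_zero _ (hw w))
    (Finset.prod_ne_zero_iff.mpr fun v _ => hv v), Real.log_prod (fun w _ => pow_ne_zero _ (hw w)),
    Real.log_prod (fun v _ => hv v)] at h3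
  simp only [Real.log_pow] at h3
  exact h3

theorem ht_sunit (S : Finset (FinitePlace M)) (x : M) (hx : x ≠ 0) (hS : IsSUnit S x) :
    2 * logHeight₁ x =
      ∑ w : InfinitePlace M, |(w.mult : ℝ) * Real.log (w x)| + ∑ v ∈ S, |Real.log (v x)| := by
  have h1 := prod_formula_sunit S x hx hS
  have h2 : (∑ᶠ v : FinitePlace M, Real.posLog (v x)) = ∑ v ∈ S, Real.posLog (v x) := by
    refine finsum_eq_sum_of_support_subset _ fun v hv => ?_
    by_contra hvS
    apply hv
    change Real.posLog (v x) = 0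
    rw [hS v hvS]
    simp
  have h3 : ∀ t : ℝ, 2 * Real.posLog t = Real.log t + |Real.log t| := by
    intro t
    rw [← Real.half_mul_log_add_log_abs]
    ring
  rw [NumberField.logHeight₁_eq, h2, mul_add, Finset.mul_sum, Finset.mul_sum]
  have h4 : ∀ w : InfinitePlace M, 2 * ((w.mult : ℝ) * Real.posLog (w x)) =
      (w.mult : ℝ) * Real.log (w x) + |(w.mult : ℝ) * Real.log (w x)| := by
    intro w
    rw [abs_mul, Nat.abs_cast, ← mul_add, ← h3]
    ring
  rw [Finset.sum_congr rfl (fun w _ => h4 w), Finset.sum_congr rfl (fun v _ => h3 _),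
    Finset.sum_add_distrib, Finset.sum_add_distrib]
  linarith

theorem ht_sub_one (x : M) :
    logHeight₁ (1 - x) ≤ logHeight₁ x + Module.finrank ℚ M * Real.log 2 := by
  have h := logHeight₁_sub_le (1 : M) x
  rw [logHeight₁_one, NumberField.totalWeight_eq_finrank] at h
  linarith

theorem ht_mul (x y : M) : logHeight₁ (x * y) ≤ logHeight₁ x + logHeight₁ y :=
  logHeight₁_mul_le x y

theorem ht_zpow (x : M) (n : ℤ) : logHeight₁ (x ^ n) = |(n : ℝ)| * logHeight₁ x := by
  rw [logHeight₁_zpow, Nat.cast_natAbs, Int.cast_abs]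

theorem ht_prod_zpow {n : ℕ} (γ : Fin n → M) (q : Fin n → ℤ) (C Q : ℝ)
    (hC : ∀ i, logHeight₁ (γ i) ≤ C) (hQ : ∀ i, |(q i : ℝ)| ≤ Q) (hQ0 : 0 ≤ Q) :
    logHeight₁ (∏ i, γ i ^ q i) ≤ n * Q * C := by
  refine (logHeight₁_prod_le _ _).trans ?_
  have h1 : ∀ i ∈ (Finset.univ : Finset (Fin n)), logHeight₁ (γ i ^ q i) ≤ Q * C := by
    intro i _
    rw [ht_zpow]
    calc |(q i : ℝ)| * logHeight₁ (γ i) ≤ Q * logHeight₁ (γ i) :=
          mul_le_mul_of_nonneg_right (hQ i) (zero_le_logHeight₁ _)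
      _ ≤ Q * C := mul_le_mul_of_nonneg_left (hC i) hQ0
  refine (Finset.sum_le_sum h1).trans ?_
  rw [Finset.sum_const, Finset.card_univ, Fintype.card_fin, nsmul_eq_mul, mul_assoc]

end Pool.Agent.ESH
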