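import Pool.Agent.ESH.SEQ
import Pool.Agent.ESH.IDC
import Pool.Agent.ESH.TWA
import Pool.Agent.ESH.LIO

/-!
# ESH / GAM: S-units of bounded height, small at all places but one

Proof.  `A = siz M S`, `B = 2 |d| nrmS S` (natural), `c = 3 B`.  Let `x_k` be given by SEQ for `k ≤ T`,
`T` the cardinality in IDC for `B`.  Facts:
(1) product formula: `∏_{p} nn p x_k = ∏_{v ∉ S} (v x_k)⁻¹ ≥ 1` (finite product over the places where it is
    not `1`), and `∏_p nn p x_k ≤ B` by the bounds of SEQ.  So for `p ≠ star`,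
    `nn p x_k ≥ (B (bd p)^(k c))⁻¹` (divide by the other factors).
(2) the integral ideal `J_k = ∏_{v ∉ S} 𝔭_v^(ord_v x_k)` has norm `∏_{v ∉ S} (v x_k)⁻¹ ≤ B`; by pigeonhole
    (`T + 1` indices) there are `j < k ≤ T` with `J_j = J_k`, so `v x_j = v x_k` for all `v ∉ S` and
    `γ = x_k / x_j` is an S-unit.
(3) for `p ≠ star`: `nn p γ ≤ (bd p)^(-k c) * B (bd p)^(j c) ≤ B (bd p)^(-c) ≤ B 2^(-c) ≤ 1/3` (`2^(3B) ≥ 3 B`).
(4) `mulHeight₁ x_k ≤ ∏_p max(nn p x_k, 1) ≤ B ∏_{p≠star} (bd p)^(k c) ≤ B (2^D nrmS S)^(T c)`, so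
    `logHeight₁ γ ≤ 2 (log B + T c (D log 2 + log nrmS S))`; and with TWA (`16 ≤ A`): `B ≤ tw 2 A`,
    `(B+1)^D ≤ tw 4 A`, `T ≤ tw 6 A`, so `logHeight₁ γ ≤ tw 8 A` (crude; `log x ≤ x`).
-/

namespace Pool.Agent.ESH

open NumberField Height IsDedekindDomain

private theorem gam_nrm {M : Type*} [Field M] [NumberField M] (v : FinitePlace M) : 1 < nrm v :=
  HeightOneSpectrum.one_lt_absNorm v.maximalIdeal

private theorem gam_exp {M : Type*} [Field M] [NumberField M] (v : FinitePlace M) (x : M) (hx : x ≠ 0)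
    (h : v x ≤ 1) : ∃ e : ℕ, v x * (nrm v : ℝ) ^ e = 1 := by
  obtain ⟨a, b, hb, rfl⟩ := IsFractionRing.div_surjective (A := 𝓞 M) x
  have hb0 : b ≠ 0 := nonZeroDivisors.ne_zero hb
  have ha0 : a ≠ 0 := by
    rintro rfl
    simp at hx
  have h1 := FinitePlace.apply_mul_absNorm_pow_eq_one v ha0
  have h2 := FinitePlace.apply_mul_absNorm_pow_eq_one v hb0
  set ma := multiplicity v.maximalIdeal.asIdeal (Ideal.span {a})
  set mb := multiplicity v.maximalIdeal.asIdeal (Ideal.span {b})
  have hN : (1 : ℝ) < (nrm v : ℝ) := by exact_mod_cast gam_nrm v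
  have hN' : (nrm v : ℝ) = (Ideal.absNorm v.maximalIdeal.asIdeal : ℝ) := rfl
  rw [← hN'] at h1 h2
  have hva : v (algebraMap (𝓞 M) M a) = ((nrm v : ℝ) ^ ma)⁻¹ := eq_inv_of_mul_eq_one_left h1
  have hvb : v (algebraMap (𝓞 M) M b) = ((nrm v : ℝ) ^ mb)⁻¹ := eq_inv_of_mul_eq_one_left h2
  rw [map_div₀, hva, hvb] at h
  have hle : mb ≤ ma := by
    by_contra hlt
    push Not at hlt
    have h3 : (nrm v : ℝ) ^ ma < (nrm v : ℝ) ^ mb := pow_lt_pow_right₀ hN hlt
    have hpa : (0 : ℝ) < (nrm v : ℝ) ^ ma := by positivity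
    have hpb : (0 : ℝ) < (nrm v : ℝ) ^ mb := by positivity
    rw [div_le_one (by positivity), inv_le_inv₀ hpa hpb] at h
    linarith
  refine ⟨ma - mb, ?_⟩
  rw [map_div₀, hva, hvb]
  have hpa : (nrm v : ℝ) ^ ma ≠ 0 := by positivity
  have hpb : (nrm v : ℝ) ^ mb ≠ 0 := by positivity
  have : (nrm v : ℝ) ^ ma = (nrm v : ℝ) ^ (ma - mb) * (nrm v : ℝ) ^ mb := by
    rw [← pow_add, Nat.sub_add_cancel hle]
  rw [this]
  have hpc : (nrm v : ℝ) ^ (ma - mb) ≠ 0 := by positivity
  field_simp

private theorem gam_prod {M : Type*} [Field M] [NumberField M] (S F : Finset (FinitePlace M))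
    (x : M) (hx : x ≠ 0) (hF : ∀ v, v ∉ S → v ∉ F → v x = 1) (hd : ∀ v ∈ F, v ∉ S) :
    (∏ p, nn S p x) * ∏ v ∈ F, v x = 1 := by
  classical
  have h1 := prod_abs_eq_one hx
  have h2 : ∏ᶠ w : FinitePlace M, w x = ∏ v ∈ S ∪ F, v x := by
    apply finprod_eq_prod_of_mulSupport_subset
    intro v hv
    rw [Function.mem_mulSupport] at hv
    by_contra hv2
    simp only [Finset.coe_union, Set.mem_union, Finset.mem_coe, not_or] at hv2
    exact hv (hF v hv2.1 hv2.2)
  have hdis : Disjoint S F := Finset.disjoint_left.mpr fun v hv hv2 => hd v hv2 hv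
  rw [h2, Finset.prod_union hdis] at h1
  have h3 : ∏ p, nn S p x = (∏ w : InfinitePlace M, w x ^ w.mult) * ∏ v ∈ S, v x := by
    rw [Fintype.prod_sum_type]
    congr 1
    simp only [nn, Sum.elim_inr]
    exact Finset.prod_coe_sort S (fun v => v x)
  rw [h3, mul_assoc]
  exact h1

private theorem gam_inj {M : Type*} [Field M] [NumberField M] (F : Finset (FinitePlace M))
    (e e' : FinitePlace M → ℕ)
    (h : ∏ v ∈ F, v.maximalIdeal.asIdeal ^ e v = ∏ v ∈ F, v.maximalIdeal.asIdeal ^ e' v) :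
    ∀ v ∈ F, e v = e' v := by
  classical
  intro v hv
  have hp : Prime v.maximalIdeal.asIdeal := v.maximalIdeal.prime
  have key : ∀ f : FinitePlace M → ℕ, emultiplicity v.maximalIdeal.asIdeal
      (∏ w ∈ F, w.maximalIdeal.asIdeal ^ f w) = (f v : ℕ∞) := by
    intro f
    rw [Finset.emultiplicity_prod hp, Finset.sum_eq_single v]
    · rw [emultiplicity_pow_self hp.ne_zero hp.not_isUnit]
    · intro w hw hne
      rw [emultiplicity_eq_zero]
      intro hdvd
      have h1 := hp.dvd_of_dvd_pow hdvd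
      have h2 : w.maximalIdeal.asIdeal ≤ v.maximalIdeal.asIdeal := Ideal.dvd_iff_le.mp h1
      have h3 : w.maximalIdeal.asIdeal = v.maximalIdeal.asIdeal :=
        w.maximalIdeal.isMaximal.eq_of_le v.maximalIdeal.isPrime.ne_top h2
      exact hne (FinitePlace.maximalIdeal_injective (HeightOneSpectrum.ext h3))
    · intro h; exact absurd hv h
  have h1 := key e
  rw [h, key e'] at h1
  exact_mod_cast h1.symm

private theorem gam_nn_pos {M : Type*} [Field M] [NumberField M] (S : Finset (FinitePlace M))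
    (x : M) (hx : x ≠ 0) (p : InfinitePlace M ⊕ S) : 0 < nn S p x := by
  rcases p with w | v
  · simp only [nn, Sum.elim_inl, nInf]
    exact pow_pos (InfinitePlace.pos_iff.mpr hx) _
  · simp only [nn, Sum.elim_inr]
    exact FinitePlace.pos_iff.mpr hx

private theorem gam_nn_div {M : Type*} [Field M] [NumberField M] (S : Finset (FinitePlace M))
    (x y : M) (p : InfinitePlace M ⊕ S) : nn S p (x / y) = nn S p x / nn S p y := by
  rcases p with w | v
  · simp only [nn, Sum.elim_inl, nInf, map_div₀, div_pow]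
  · simp only [nn, Sum.elim_inr, map_div₀]

private theorem gam_two_le_bd {M : Type*} [Field M] [NumberField M] (S : Finset (FinitePlace M))
    (p : InfinitePlace M ⊕ S) : 2 ≤ bd S p := by
  rcases p with w | v
  · simp only [bd, Sum.elim_inl]
    have : 1 ≤ w.mult := InfinitePlace.mult_pos
    calc (2 : ℝ) = 2 ^ 1 := by norm_num
      _ ≤ 2 ^ w.mult := pow_le_pow_right₀ (by norm_num) this
  · simp only [bd, Sum.elim_inr]
    exact_mod_cast gam_nrm (v : FinitePlace M)

private theorem gam_nrm_le {M : Type*} [Field M] [NumberField M] (S : Finset (FinitePlace M))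
    (v : FinitePlace M) (hv : v ∈ S) : nrm v ≤ nrmS S := by
  unfold nrmS
  exact Finset.single_le_prod' (f := fun v => nrm v) (fun w _ => (gam_nrm w).le) hv

private theorem gam_card_le {M : Type*} [Field M] [NumberField M] (S : Finset (FinitePlace M)) :
    S.card ≤ nrmS S := by
  have h : 2 ^ S.card ≤ nrmS S := by
    unfold nrmS
    exact Finset.pow_card_le_prod S _ _ (fun w _ => gam_nrm w)
  exact (Nat.lt_two_pow_self).le.trans h

private theorem gam_bd_le {M : Type*} [Field M] [NumberField M] (S : Finset (FinitePlace M))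
    (p : InfinitePlace M ⊕ S) : bd S p ≤ (siz M S : ℝ) := by
  rcases p with w | v
  · simp only [bd, Sum.elim_inl]
    have h : w.mult ≤ 2 := by
      unfold InfinitePlace.mult
      split_ifs <;> norm_num
    have h1 : (2 : ℝ) ^ w.mult ≤ 2 ^ 2 := pow_le_pow_right₀ (by norm_num) h
    have h2 : (16 : ℝ) ≤ (siz M S : ℝ) := by
      have : 16 ≤ siz M S := by unfold siz; omega
      exact_mod_cast this
    linarith
  · simp only [bd, Sum.elim_inr]
    have h1 := gam_nrm_le S v v.2
    have h2 : nrm (v : FinitePlace M) ≤ siz M S := by unfold siz; omega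
    exact_mod_cast h2

private theorem gam_card {M : Type*} [Field M] [NumberField M] (S : Finset (FinitePlace M)) :
    Fintype.card (InfinitePlace M ⊕ S) ≤ siz M S := by
  rw [Fintype.card_sum, Fintype.card_coe]
  have h1 : Fintype.card (InfinitePlace M) ≤ Module.finrank ℚ M := by
    rw [← InfinitePlace.sum_mult_eq, Fintype.card_eq_sum_ones]
    exact Finset.sum_le_sum fun w _ => InfinitePlace.mult_pos
  have h2 := gam_card_le S
  unfold siz
  omega

private theorem gam_nums {M : Type*} [Field M] [NumberField M] (S : Finset (FinitePlace M))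
    (B T : ℕ) (hB : B = 2 * (discr M).natAbs * nrmS S)
    (hT : T ≤ (B + 1) * 2 ^ ((B + 1) ^ Module.finrank ℚ M)) :
    siz M S * (B + T * (3 * B) * siz M S) ≤ tw 9 (siz M S) := by
  set A := siz M S with hA
  have h16 : 16 ≤ A := by rw [hA]; unfold siz; omega
  have hD : Module.finrank ℚ M ≤ A := by rw [hA]; unfold siz; omega
  have hd : (discr M).natAbs + nrmS S ≤ A := by rw [hA]; unfold siz; omega
  have hB1 : B + 1 ≤ A * A := by
    rw [hB]
    have h1 : 0 < Module.finrank ℚ M := Module.finrank_pos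
    have h2 : (discr M).natAbs + nrmS S + 1 ≤ A := by rw [hA]; unfold siz; omega
    nlinarith [Nat.zero_le (discr M).natAbs, Nat.zero_le (nrmS S), h2,
      sq_nonneg ((discr M).natAbs - nrmS S : ℤ)]
  have hA0 : A ≤ tw 0 A := le_tw 0 A
  have hB2 : B + 1 ≤ tw 1 A := hB1.trans (tw_mul h16 hA0 hA0)
  have h2 : (B + 1) ^ Module.finrank ℚ M ≤ tw 3 A := tw_pow h16 hB2 (hD.trans (le_tw 1 A))
  have h3 : 2 ^ ((B + 1) ^ Module.finrank ℚ M) ≤ tw 4 A := by
    rw [tw_succ 3 A]
    exact Nat.pow_le_pow_right (by norm_num) h2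
  have h4 : T ≤ tw 5 A := by
    refine hT.trans (tw_mul h16 (hB2.trans (tw_mono (by norm_num) le_rfl)) h3)
  have h5 : T * (3 * B) ≤ tw 6 A := by
    refine tw_mul h16 h4 ?_
    have h6 : 3 * B ≤ tw 2 A := by
      refine tw_mul h16 ?_ ((Nat.le_succ B).trans hB2)
      exact le_trans (by omega) (le_tw 1 A)
    exact h6.trans (tw_mono (by norm_num) le_rfl)
  have h6 : T * (3 * B) * A ≤ tw 7 A := tw_mul h16 h5 (le_tw 6 A)
  have h7 : B + T * (3 * B) * A ≤ tw 8 A := by
    refine tw_add h16 ?_ h6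
    exact (Nat.le_succ B).trans (hB2.trans (tw_mono (by norm_num) le_rfl))
  exact tw_mul h16 (le_tw 8 A) h7

theorem gam (M : Type*) [Field M] [NumberField M] (S : Finset (FinitePlace M))
    (star : InfinitePlace M ⊕ S) :
    ∃ γ : M, γ ≠ 0 ∧ IsSUnit S γ ∧ (∀ p, p ≠ star → nn S p γ ≤ 1 / 3) ∧
      logHeight₁ γ ≤ tw 9 (siz M S) := by
  classical
  set A := siz M S with hA
  set B : ℕ := 2 * (discr M).natAbs * nrmS S with hB
  obtain ⟨T, hT1, hT2⟩ := idc M B
  choose x hx0 hx1 hx2 hx3 using fun k : ℕ => seq M S star (3 * B) k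
  have hBR : (B : ℝ) = 2 * ((discr M).natAbs : ℝ) * nrmS S := by rw [hB]; push_cast; ring
  rw [← hBR] at hx3
  have hexp : ∀ (k : ℕ) (v : FinitePlace M), v ∉ S → ∃ e : ℕ, v (x k) * (nrm v : ℝ) ^ e = 1 :=
    fun k v hv => gam_exp v (x k) (hx0 k) (hx1 k v hv)
  let e : ℕ → FinitePlace M → ℕ := fun k v => if h : v ∉ S then (hexp k v h).choose else 0
  have he : ∀ k v, v ∉ S → v (x k) * (nrm v : ℝ) ^ e k v = 1 := by
    intro k v hv
    simp only [e, dif_pos hv]
    exact (hexp k v hv).choose_spec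
  have hfin : ∀ k, {v : FinitePlace M | v (x k) ≠ 1}.Finite :=
    fun k => FinitePlace.hasFiniteMulSupport (hx0 k)
  let F : Finset (FinitePlace M) :=
    ((Finset.range (T.card + 1)).biUnion fun k => (hfin k).toFinset).filter (fun v => v ∉ S)
  have hF : ∀ k, k ≤ T.card → ∀ v, v ∉ S → v ∉ F → v (x k) = 1 := by
    intro k hk v hv hvF
    by_contra hne
    apply hvF
    rw [Finset.mem_filter, Finset.mem_biUnion]
    exact ⟨⟨k, Finset.mem_range.mpr (by omega), (hfin k).mem_toFinset.mpr hne⟩, hv⟩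
  have hFS : ∀ v ∈ F, v ∉ S := fun v hv => (Finset.mem_filter.mp hv).2
  let J : ℕ → Ideal (𝓞 M) := fun k => ∏ v ∈ F, v.maximalIdeal.asIdeal ^ e k v
  have hJ0 : ∀ k, J k ≠ ⊥ := by
    intro k
    exact Finset.prod_ne_zero_iff.mpr fun v _ => pow_ne_zero _ v.maximalIdeal.ne_bot
  have hJn : ∀ k, k ≤ T.card → ∏ p, nn S p (x k) = (Ideal.absNorm (J k) : ℝ) := by
    intro k hk
    have h1 := gam_prod S F (x k) (hx0 k) (hF k hk) hFS
    have h2 : (Ideal.absNorm (J k) : ℝ) * ∏ v ∈ F, v (x k) = 1 := by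
      simp only [J, map_prod, map_pow]
      push_cast
      rw [← Finset.prod_mul_distrib]
      apply Finset.prod_eq_one
      intro v hv
      rw [mul_comm]
      exact he k v (hFS v hv)
    have h3 : ∏ v ∈ F, v (x k) ≠ 0 := by
      intro h0
      rw [h0, mul_zero] at h2
      exact zero_ne_one h2
    exact mul_right_cancel₀ h3 (h1.trans h2.symm)
  have hnnpos : ∀ k p, 0 < nn S p (x k) := fun k p => gam_nn_pos S (x k) (hx0 k) p
  have hbd2 : ∀ p, 2 ≤ bd S p := gam_two_le_bd S
  have hbdpos : ∀ p (n : ℕ), 0 < bd S p ^ n := fun p n => pow_pos (by linarith [hbd2 p]) n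
  have hlow : ∀ j, j ≤ T.card → ∀ p, p ≠ star → 1 ≤ nn S p (x j) * (B * bd S p ^ (j * (3 * B))) := by
    intro j hj p hp
    have h1 : (1 : ℝ) ≤ ∏ q, nn S q (x j) := by
      rw [hJn j hj]
      have : Ideal.absNorm (J j) ≠ 0 := by
        intro h0
        exact hJ0 j (Ideal.absNorm_eq_zero_iff.mp h0)
      exact_mod_cast Nat.one_le_iff_ne_zero.mpr this
    refine h1.trans ?_
    have hpm : p ∈ Finset.univ.erase star := Finset.mem_erase.mpr ⟨hp, Finset.mem_univ _⟩
    rw [← Finset.mul_prod_erase Finset.univ (fun q => nn S q (x j)) (Finset.mem_univ star),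
      ← Finset.mul_prod_erase (Finset.univ.erase star) (fun q => nn S q (x j)) hpm]
    have h2 := hx3 j
    rw [← Finset.mul_prod_erase (Finset.univ.erase star) (fun q => bd S q ^ (j * (3 * B))) hpm] at h2
    have h3 : ∏ q ∈ (Finset.univ.erase star).erase p, nn S q (x j) ≤
        ∏ q ∈ (Finset.univ.erase star).erase p, (bd S q ^ (j * (3 * B)))⁻¹ := by
      refine Finset.prod_le_prod (fun q _ => (hnnpos j q).le) fun q hq => ?_
      exact hx2 j q (Finset.ne_of_mem_erase (Finset.mem_of_mem_erase hq))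
    rw [Finset.prod_inv_distrib] at h3
    set R : ℝ := ∏ q ∈ (Finset.univ.erase star).erase p, bd S q ^ (j * (3 * B)) with hR
    have hRpos : 0 < R := Finset.prod_pos fun q _ => hbdpos q _
    calc nn S star (x j) * (nn S p (x j) * ∏ q ∈ (Finset.univ.erase star).erase p, nn S q (x j))
        ≤ (B * (bd S p ^ (j * (3 * B)) * R)) * (nn S p (x j) * R⁻¹) := by
          have := (hnnpos j p).le
          have := (hbdpos p (j * (3 * B))).le
          have h5 : 0 ≤ ∏ q ∈ (Finset.univ.erase star).erase p, nn S q (x j) :=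
            Finset.prod_nonneg fun q _ => (hnnpos j q).le
          gcongr
      _ = nn S p (x j) * (B * bd S p ^ (j * (3 * B))) := by
          field_simp
  have hJB : ∀ k, k ≤ T.card → Ideal.absNorm (J k) ≤ B := by
    intro k hk
    have h1 : ∏ q, nn S q (x k) ≤ B := by
      rw [← Finset.mul_prod_erase Finset.univ (fun q => nn S q (x k)) (Finset.mem_univ star)]
      have h3 : ∏ q ∈ Finset.univ.erase star, nn S q (x k) ≤
          ∏ q ∈ Finset.univ.erase star, (bd S q ^ (k * (3 * B)))⁻¹ := by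
        refine Finset.prod_le_prod (fun q _ => (hnnpos k q).le) fun q hq => ?_
        exact hx2 k q (Finset.ne_of_mem_erase hq)
      rw [Finset.prod_inv_distrib] at h3
      have h2 := hx3 k
      set R : ℝ := ∏ q ∈ Finset.univ.erase star, bd S q ^ (k * (3 * B)) with hR
      have hRpos : 0 < R := Finset.prod_pos fun q _ => hbdpos q _
      have h5 : 0 ≤ ∏ q ∈ Finset.univ.erase star, nn S q (x k) :=
        Finset.prod_nonneg fun q _ => (hnnpos k q).le
      calc nn S star (x k) * ∏ q ∈ Finset.univ.erase star, nn S q (x k)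
          ≤ (B * R) * R⁻¹ := by gcongr
        _ = B := by field_simp
    rw [hJn k hk] at h1
    exact_mod_cast h1
  -- pigeonhole
  obtain ⟨j, k, hj, hk, hjk, hJJ⟩ : ∃ j k, j ≤ T.card ∧ k ≤ T.card ∧ j < k ∧ J j = J k := by
    obtain ⟨a, ha, b, hb, hab, hJab⟩ := Finset.exists_ne_map_eq_of_card_lt_of_maps_to
      (s := Finset.range (T.card + 1)) (t := T) (f := J) (by rw [Finset.card_range]; omega)
      (fun k hk => hT1 (J k) (hJ0 k) (hJB k (by have := Finset.mem_range.mp hk; omega)))
    have ha' := Finset.mem_range.mp ha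
    have hb' := Finset.mem_range.mp hb
    rcases lt_or_gt_of_ne hab with h | h
    · exact ⟨a, b, by omega, by omega, h, hJab⟩
    · exact ⟨b, a, by omega, by omega, h, hJab.symm⟩
  have hee := gam_inj F (e j) (e k) hJJ
  have hγ0 : x k / x j ≠ 0 := div_ne_zero (hx0 k) (hx0 j)
  have hSU : IsSUnit S (x k / x j) := by
    intro v hv
    rw [map_div₀]
    by_cases hvF : v ∈ F
    · have h1 := he j v hv
      have h2 := he k v hv
      rw [hee v hvF] at h1
      have h3 : (nrm v : ℝ) ^ e k v ≠ 0 := by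
        intro h0
        rw [h0, mul_zero] at h2
        exact zero_ne_one h2
      have h4 : v (x k) = v (x j) := mul_right_cancel₀ h3 (h2.trans h1.symm)
      rw [h4]
      exact div_self (FinitePlace.pos_iff.mpr (hx0 j)).ne'
    · rw [hF k hk v hv hvF, hF j hj v hv hvF, div_one]
  have hB1 : 1 ≤ B := by
    by_contra h0
    have h0' : B = 0 := by omega
    have h1 := hJB j hj
    rw [h0'] at h1
    exact hJ0 j (Ideal.absNorm_eq_zero_iff.mp (Nat.le_zero.mp h1))
  have hBpos : (0 : ℝ) < B := by exact_mod_cast hB1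
  have hthird : ∀ p, p ≠ star → nn S p (x k / x j) ≤ 1 / 3 := by
    intro p hp
    rw [gam_nn_div]
    have h1 := hx2 k p hp
    have h2 := hlow j hj p hp
    have h3 : bd S p ^ (k * (3 * B)) ≥ bd S p ^ (j * (3 * B)) * (3 * B) := by
      have h4 : bd S p ^ (k * (3 * B)) ≥ bd S p ^ (j * (3 * B) + 3 * B) := by
        apply pow_le_pow_right₀ (by linarith [hbd2 p])
        nlinarith
      rw [pow_add] at h4
      have h5 : (3 * B : ℝ) ≤ bd S p ^ (3 * B) := by
        have h6 : ((3 * B : ℕ) : ℝ) ≤ 2 ^ (3 * B) := by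
          exact_mod_cast (Nat.lt_two_pow_self).le
        have h7 : (2 : ℝ) ^ (3 * B) ≤ bd S p ^ (3 * B) := pow_le_pow_left₀ (by norm_num) (hbd2 p) _
        push_cast at h6
        linarith
      have := hbdpos p (j * (3 * B))
      calc bd S p ^ (j * (3 * B)) * (3 * B) ≤ bd S p ^ (j * (3 * B)) * bd S p ^ (3 * B) := by gcongr
        _ ≤ _ := h4
    rw [div_le_iff₀ (hnnpos j p)]
    have hpk := hbdpos p (k * (3 * B))
    have hpj := hbdpos p (j * (3 * B))
    calc nn S p (x k) ≤ (bd S p ^ (k * (3 * B)))⁻¹ := h1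
      _ ≤ (bd S p ^ (j * (3 * B)) * (3 * B))⁻¹ := by
          apply inv_anti₀ (by positivity) h3
      _ ≤ (bd S p ^ (j * (3 * B)) * (3 * B))⁻¹ * (nn S p (x j) * (B * bd S p ^ (j * (3 * B)))) := by
          apply le_mul_of_one_le_right (by positivity) h2
      _ = 1 / 3 * nn S p (x j) := by
          field_simp
  refine ⟨x k / x j, hγ0, hSU, hthird, ?_⟩
  -- height
  set γ := x k / x j with hγ
  have hγpos : ∀ p, 0 < nn S p γ := fun p => gam_nn_pos S γ hγ0 p
  have hsum0 : ∑ p, Real.log (nn S p γ) = 0 := by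
    have h1 := prod_formula_sunit S γ hγ0 hSU
    rw [Fintype.sum_sum_type, ← h1]
    congr 1
    · apply Finset.sum_congr rfl
      intro w _
      simp only [nn, Sum.elim_inl, nInf, Real.log_pow]
    · simp only [nn, Sum.elim_inr]
      exact Finset.sum_coe_sort S (fun v => Real.log (v γ))
  have hht : 2 * logHeight₁ γ = ∑ p, |Real.log (nn S p γ)| := by
    rw [ht_sunit S γ hγ0 hSU, Fintype.sum_sum_type]
    congr 1
    · apply Finset.sum_congr rfl
      intro w _
      simp only [nn, Sum.elim_inl, nInf, Real.log_pow]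
    · simp only [nn, Sum.elim_inr]
      exact (Finset.sum_coe_sort S (fun v => |Real.log (v γ)|)).symm
  rw [← Finset.add_sum_erase Finset.univ _ (Finset.mem_univ star)] at hsum0 hht
  have hneg : ∀ p ∈ Finset.univ.erase star, Real.log (nn S p γ) ≤ 0 := by
    intro p hp
    exact Real.log_nonpos (hγpos p).le (by linarith [hthird p (Finset.ne_of_mem_erase hp)])
  have habs : ∑ p ∈ Finset.univ.erase star, |Real.log (nn S p γ)| =
      -∑ p ∈ Finset.univ.erase star, Real.log (nn S p γ) := by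
    rw [← Finset.sum_neg_distrib]
    exact Finset.sum_congr rfl fun p hp => abs_of_nonpos (hneg p hp)
  have hsumneg : ∑ p ∈ Finset.univ.erase star, Real.log (nn S p γ) ≤ 0 := Finset.sum_nonpos hneg
  have hstar : |Real.log (nn S star γ)| = -∑ p ∈ Finset.univ.erase star, Real.log (nn S p γ) := by
    rw [abs_of_nonneg (by linarith)]
    linarith
  rw [habs, hstar] at hht
  have hlogle : ∀ p ∈ Finset.univ.erase star,
      -Real.log (nn S p γ) ≤ (B + T.card * (3 * B) * A : ℕ) := by
    intro p hp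
    have hp' := Finset.ne_of_mem_erase hp
    have h1 : nn S p (x k) ≤ nn S p γ := by
      rw [hγ, gam_nn_div, le_div_iff₀ (hnnpos j p)]
      have h2 : nn S p (x j) ≤ 1 := by
        refine (hx2 j p hp').trans ?_
        apply inv_le_one_of_one_le₀
        exact one_le_pow₀ (by linarith [hbd2 p])
      exact mul_le_of_le_one_right (hnnpos k p).le h2
    have h2 := hlow k hk p hp'
    have h3 : (B * bd S p ^ (k * (3 * B)))⁻¹ ≤ nn S p γ := by
      refine le_trans ?_ h1
      rw [inv_le_iff_one_le_mul₀ (by have := hbdpos p (k * (3 * B)); positivity)]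
      exact h2
    have hpk := hbdpos p (k * (3 * B))
    have h4 : -Real.log (nn S p γ) ≤ Real.log (B * bd S p ^ (k * (3 * B))) := by
      have := Real.log_le_log (by positivity) h3
      rw [Real.log_inv] at this
      linarith
    rw [Real.log_mul hBpos.ne' hpk.ne', Real.log_pow] at h4
    have h5 : Real.log B ≤ B := (Real.log_le_sub_one_of_pos hBpos).trans (by linarith)
    have h6 : Real.log (bd S p) ≤ A :=
      ((Real.log_le_sub_one_of_pos (by linarith [hbd2 p])).trans (by linarith)).trans (gam_bd_le S p)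
    have h7 : ((k * (3 * B) : ℕ) : ℝ) ≤ ((T.card * (3 * B) : ℕ) : ℝ) := by
      exact_mod_cast Nat.mul_le_mul_right _ hk
    have h8 : 0 ≤ Real.log (bd S p) := Real.log_nonneg (by linarith [hbd2 p])
    have h9 : ((k * (3 * B) : ℕ) : ℝ) * Real.log (bd S p) ≤ ((T.card * (3 * B) : ℕ) : ℝ) * A := by
      gcongr
    push_cast at *
    linarith
  have hfinal : logHeight₁ γ ≤ (A * (B + T.card * (3 * B) * A) : ℕ) := by
    have h1 : -∑ p ∈ Finset.univ.erase star, Real.log (nn S p γ) ≤
        ∑ p ∈ Finset.univ.erase star, ((B + T.card * (3 * B) * A : ℕ) : ℝ) := by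
      rw [← Finset.sum_neg_distrib]
      exact Finset.sum_le_sum hlogle
    rw [Finset.sum_const, nsmul_eq_mul] at h1
    have h2 : (Finset.univ.erase star).card ≤ A :=
      (Finset.card_le_univ _).trans (gam_card S)
    have h3 : ((Finset.univ.erase star).card : ℝ) ≤ A := by exact_mod_cast h2
    have h4 : ((Finset.univ.erase star).card : ℝ) * ((B + T.card * (3 * B) * A : ℕ) : ℝ) ≤
        A * ((B + T.card * (3 * B) * A : ℕ) : ℝ) := by gcongr
    push_cast at *
    linarith
  exact hfinal.trans (by exact_mod_cast gam_nums S B T.card hB hT2)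

end Pool.Agent.ESH
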