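import Pool.Agent.ESH.GTA

/-!
# ESH / GTB: places of a Galois extension

For `g ∈ G` put `g P = plMap g 1 ..` (`(g P).ord f = P.ord (g⁻¹ f)`).
`gtb_conj`: if `R` is not of the form `g P`, the finite sets `{g P}` and `{g R}` are disjoint; `f` from `gta` (`f` in `(g P).ge 1`, `f - 1` in `(g R).ge 1`
for all `g`).  The norm `N = ∏ g f` is fixed by `G`, `N ∈ P.ge 1` and `N - 1 ∈ R.ge 1` (all factors `g f` have the value `1` at `R`), contradiction with the hypothesis.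
`gtb_unr`: `P ∉ {g P | g ≠ 1}`; `f` from `gta_one` with `P.ord f = 1`, `(g P).ord f = 0` for `g ≠ 1`: the norm has order `1` at `P`.
-/

namespace Pool.Agent.ESH

open Pool.Agent.Helper11 Polynomial IntermediateField

variable {C Φ : Type*} [Field C] [Field Φ] [Algebra C Φ] [FunField C Φ] [CharZero C] [IsAlgClosed C]


omit [FunField C Φ] [CharZero C] [IsAlgClosed C] in
private theorem GTB_hs (g : Φ ≃ₐ[C] Φ) :
    ∀ c : C, (g : Φ ≃+* Φ) (algebraMap C Φ c) = algebraMap C Φ ((RingEquiv.refl C) c) := by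
  intro c
  exact g.commutes c

private noncomputable def GTB_gp (g : Φ ≃ₐ[C] Φ) (P : Place C Φ) : Place C Φ :=
  plMap (g : Φ ≃+* Φ) (RingEquiv.refl C) (GTB_hs g) P

omit [FunField C Φ] [CharZero C] [IsAlgClosed C] in
private theorem GTB_ord (g : Φ ≃ₐ[C] Φ) (P : Place C Φ) (f : Φ) :
    (GTB_gp g P).ord f = P.ord (g.symm f) := rfl

omit [FunField C Φ] [CharZero C] [IsAlgClosed C] in
private theorem GTB_ord' (g : Φ ≃ₐ[C] Φ) (P : Place C Φ) (f : Φ) :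
    (GTB_gp g⁻¹ P).ord f = P.ord (g f) := rfl

omit [FunField C Φ] [CharZero C] [IsAlgClosed C] in
private theorem GTB_ge (g : Φ ≃ₐ[C] Φ) (P : Place C Φ) (n : ℤ) (f : Φ) :
    f ∈ (GTB_gp g⁻¹ P).ge n ↔ g f ∈ P.ge n := by
  rw [Place.mem_ge, Place.mem_ge, GTB_ord', map_eq_zero_iff g g.injective]

omit [FunField C Φ] [CharZero C] [IsAlgClosed C] in
private theorem GTB_prod (R : Place C Φ) {ι : Type*} (s : Finset ι) (u : ι → Φ)
    (hu : ∀ i ∈ s, u i - 1 ∈ R.ge 1) : ∏ i ∈ s, u i - 1 ∈ R.ge 1 := by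
  classical
  induction s using Finset.induction_on with
  | empty =>
    rw [Finset.prod_empty, sub_self]
    exact zero_mem _
  | insert a s ha ih =>
    rw [Finset.prod_insert ha]
    have h1 := ih fun i hi => hu i (Finset.mem_insert_of_mem hi)
    have h2 := hu a (Finset.mem_insert_self a s)
    have h3 : u a ∈ R.ge 0 := by
      have h4 := add_mem (R.ge_anti (by norm_num : (0 : ℤ) ≤ 1) h2) R.one_mem_ge
      rwa [sub_add_cancel] at h4
    have h4 := R.mul_mem_ge h3 h1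
    rw [zero_add] at h4
    have h5 : u a * ∏ i ∈ s, u i - 1 = u a * (∏ i ∈ s, u i - 1) + (u a - 1) := by ring
    rw [h5]
    exact add_mem h4 h2

omit [FunField C Φ] [CharZero C] [IsAlgClosed C] in
private theorem GTB_inv (G : Subgroup (Φ ≃ₐ[C] Φ)) [Fintype G] (f : Φ) (k : Φ ≃ₐ[C] Φ)
    (hk : k ∈ G) : k (∏ g : G, (g : Φ ≃ₐ[C] Φ) f) = ∏ g : G, (g : Φ ≃ₐ[C] Φ) f := by
  rw [map_prod]
  refine Fintype.prod_equiv (Equiv.mulLeft (⟨k, hk⟩ : G)) _ _ fun g => ?_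
  rfl

theorem gtb_conj (G : Subgroup (Φ ≃ₐ[C] Φ)) [Finite G] (P R : Place C Φ)
    (h : ∀ f : Φ, (∀ g ∈ G, g f = f) → f ∈ P.ge 1 → f ∈ R.ge 1) :
    ∃ g ∈ G, ∀ f : Φ, R.ord (g f) = P.ord f := by
  classical
  have := Fintype.ofFinite G
  by_contra hcon
  push Not at hcon
  have hd : Disjoint (Finset.univ.image fun g : G => GTB_gp ((g : Φ ≃ₐ[C] Φ)⁻¹) P)
      (Finset.univ.image fun g : G => GTB_gp ((g : Φ ≃ₐ[C] Φ)⁻¹) R) := by
    rw [Finset.disjoint_left]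
    intro Q hQ hQ'
    rw [Finset.mem_image] at hQ hQ'
    obtain ⟨g, _, rfl⟩ := hQ
    obtain ⟨k, _, hk⟩ := hQ'
    obtain ⟨f, hf⟩ := hcon ((k : Φ ≃ₐ[C] Φ) * (g : Φ ≃ₐ[C] Φ)⁻¹)
      (G.mul_mem k.2 (G.inv_mem g.2))
    apply hf
    have h1 := congrArg (fun Q : Place C Φ => Q.ord ((g : Φ ≃ₐ[C] Φ)⁻¹ f)) hk
    simp only [GTB_ord'] at h1
    have h2 : (g : Φ ≃ₐ[C] Φ) ((g : Φ ≃ₐ[C] Φ)⁻¹ f) = f := by
      rw [← AlgEquiv.mul_apply, mul_inv_cancel]
      rfl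
    rw [h2] at h1
    rw [← h1]
    rfl
  obtain ⟨f, hf1, hf2⟩ := gta _ _ hd
  have hP : ∀ g : G, (g : Φ ≃ₐ[C] Φ) f ∈ P.ge 1 := by
    intro g
    rw [← GTB_ge]
    exact hf1 _ (Finset.mem_image_of_mem _ (Finset.mem_univ g))
  have hR : ∀ g : G, (g : Φ ≃ₐ[C] Φ) f - 1 ∈ R.ge 1 := by
    intro g
    have h1 := hf2 _ (Finset.mem_image_of_mem _ (Finset.mem_univ g))
    rw [GTB_ge, map_sub, map_one] at h1
    exact h1
  have h1 : ∏ g : G, (g : Φ ≃ₐ[C] Φ) f ∈ P.ge 1 := by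
    have h2 := P.prod_mem_ge Finset.univ (fun g : G => (g : Φ ≃ₐ[C] Φ) f) (fun _ => 1)
      (fun g _ => hP g)
    refine P.ge_anti ?_ h2
    rw [Finset.sum_const, Finset.card_univ, nsmul_eq_mul, mul_one]
    have : 0 < Fintype.card G := Fintype.card_pos
    exact_mod_cast this
  have h2 := h _ (fun k hk => GTB_inv G f k hk) h1
  have h3 := GTB_prod R Finset.univ (fun g : G => (g : Φ ≃ₐ[C] Φ) f) fun g _ => hR g
  have h4 := sub_mem h2 h3
  rw [sub_sub_cancel] at h4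
  have h5 := R.le_ord_of_mem h4 one_ne_zero
  rw [R.ord_one] at h5
  omega

theorem gtb_unr (G : Subgroup (Φ ≃ₐ[C] Φ)) [Finite G] (P : Place C Φ) (hP : ¬ Ram G P) :
    ∃ f : Φ, (∀ g ∈ G, g f = f) ∧ P.ord f = 1 := by
  classical
  have := Fintype.ofFinite G
  have hnot : P ∉ ((Finset.univ : Finset G).erase 1).image
      fun g : G => GTB_gp ((g : Φ ≃ₐ[C] Φ)⁻¹) P := by
    intro hmem
    rw [Finset.mem_image] at hmem
    obtain ⟨g, hg, hgP⟩ := hmem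
    apply hP
    refine ⟨g, g.2, ?_, fun f => ?_⟩
    · intro h1
      exact (Finset.mem_erase.1 hg).1 (Subtype.ext h1)
    · have h1 := congrArg (fun Q : Place C Φ => Q.ord f) hgP
      exact h1
  obtain ⟨f, hf1, hf2⟩ := gta_one P _ hnot
  have hf0 : f ≠ 0 := P.ne_zero_of_ord_ne_zero (by omega)
  refine ⟨∏ g : G, (g : Φ ≃ₐ[C] Φ) f, fun k hk => GTB_inv G f k hk, ?_⟩
  rw [P.ord_prod _ _ (fun g _ => by rw [Ne, map_eq_zero_iff _ (AlgEquiv.injective _)]; exact hf0),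
    ← Finset.add_sum_erase Finset.univ (fun g : G => P.ord ((g : Φ ≃ₐ[C] Φ) f))
      (Finset.mem_univ 1)]
  rw [Finset.sum_eq_zero]
  · rw [add_zero]
    exact hf1
  · intro g hg
    rw [← GTB_ord']
    exact hf2 _ (Finset.mem_image_of_mem _ hg)

/-- conjugate places: one is ramified iff the other is -/
theorem gtb_ram (G : Subgroup (Φ ≃ₐ[C] Φ)) (P R : Place C Φ) (g : Φ ≃ₐ[C] Φ) (hg : g ∈ G)
    (h : ∀ f : Φ, R.ord (g f) = P.ord f) (hP : Ram G P) : Ram G R := by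
  obtain ⟨k, hk, hk1, hkP⟩ := hP
  refine ⟨g * k * g⁻¹, G.mul_mem (G.mul_mem hg hk) (G.inv_mem hg), ?_, fun f => ?_⟩
  · intro h1
    apply hk1
    have h2 : g * k = g := by
      rw [mul_inv_eq_one] at h1
      exact h1
    exact mul_eq_left.1 h2
  · have h1 : (g * k * g⁻¹) f = g (k (g⁻¹ f)) := rfl
    have h2 : g (g⁻¹ f) = f := by
      rw [← AlgEquiv.mul_apply, mul_inv_cancel]
      rfl
    rw [h1, h, hkP, ← h, h2]

end Pool.Agent.ESH
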