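import Pool.Agent.ESH.SPC

/-!
# ESH / ZER: existence of zeros specialising to a given point

Let `A` be a point, `b ∈ A` a non-unit of `A` which is not in `W.nonunits`.  Then some place `R` above `A` is a zero of `b`.

Proof.  Let `c₀ ≠ 0` be in `V.nonunits` and `A' = {f | ∃ n, c₀^n f ∈ A}` (a subring: `A[1/c₀]`); it contains `C` (rank one: for
`x ∈ C` some `c₀^n x ∈ V ⊆ A`).  `b` is not a unit of `A'`: otherwise `b⁻¹ ∈ A'`, `c₀^n b⁻¹ = a ∈ A`; `b⁻¹ = a / c₀^n ∈ W`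
(`b` is a unit of `W`: `b ∈ A ⊆ W` and `b ∉ W.nonunits`), so by `sat` `b⁻¹ ∈ A`, contradiction.  `b ≠ 0`.  Apply
`plv_exists` to `A'`.
-/

namespace Pool.Agent.ESH

open Pool.Agent.Helper11

variable {C Φ : Type*} [Field C] [Field Φ] [Algebra C Φ] [FunField C Φ] [CharZero C] [IsAlgClosed C]

private theorem ZER_exc {V : ValuationSubring C} (hV : V ≠ ⊤) : ∃ c : C, c ≠ 0 ∧ c ∈ V.nonunits := by
  have h1 : ∃ x : C, x ∉ V := by
    by_contra hcon
    push Not at hcon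
    exact hV (eq_top_iff.2 fun x _ => hcon x)
  obtain ⟨x, hx⟩ := h1
  have hx0 : x ≠ 0 := by
    rintro rfl
    exact hx V.zero_mem
  refine ⟨x⁻¹, inv_ne_zero hx0, ?_⟩
  rw [ValuationSubring.mem_nonunits_iff, map_inv₀]
  rw [← V.valuation_le_one_iff, not_le] at hx
  exact inv_lt_one_of_one_lt₀ hx

/-- the ring `A[1/c₀]` -/
private def ZER_ring (A : Subring Φ) (c : Φ) (hc : c ∈ A) : Subring Φ where
  carrier := {f | ∃ n : ℕ, c ^ n * f ∈ A}
  mul_mem' := by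
    rintro f g ⟨n, hn⟩ ⟨m, hm⟩
    refine ⟨n + m, ?_⟩
    have h := A.mul_mem hn hm
    rw [pow_add]
    have e : c ^ n * f * (c ^ m * g) = c ^ n * c ^ m * (f * g) := by ring
    rwa [e] at h
  one_mem' := ⟨0, by rw [pow_zero, one_mul]; exact A.one_mem⟩
  add_mem' := by
    rintro f g ⟨n, hn⟩ ⟨m, hm⟩
    refine ⟨n + m, ?_⟩
    have h1 := A.mul_mem (A.pow_mem hc m) hn
    have h2 := A.mul_mem (A.pow_mem hc n) hm
    have e : c ^ (n + m) * (f + g) = c ^ m * (c ^ n * f) + c ^ n * (c ^ m * g) := by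
      rw [pow_add]; ring
    rw [e]
    exact A.add_mem h1 h2
  zero_mem' := ⟨0, by rw [mul_zero]; exact A.zero_mem⟩
  neg_mem' := by
    rintro f ⟨n, hn⟩
    exact ⟨n, by rw [mul_neg]; exact A.neg_mem hn⟩

theorem zer {V : ValuationSubring C} {W : ValuationSubring Φ} {A : Subring Φ}
    (hV : Rk1 V) (hA : IsPt V W A) (b : Φ) (hb : NU A b) (hbW : b ∉ W.nonunits) :
    ∃ R : Place C Φ, Below A R ∧ b ∈ R.ge 1 := by
  obtain ⟨c₀, hc0, hcn⟩ := ZER_exc hV.1
  have hcV : c₀ ∈ V := V.nonunits_subset hcn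
  have hcA : algebraMap C Φ c₀ ∈ A := hA.base _ hcV
  have hcΦ : algebraMap C Φ c₀ ≠ 0 := by simpa using hc0
  have hb0 : b ≠ 0 := by
    rintro rfl
    apply hbW
    rw [ValuationSubring.mem_nonunits_iff, map_zero]
    exact zero_lt_one
  have hC : ∀ c : C, algebraMap C Φ c ∈ ZER_ring A (algebraMap C Φ c₀) hcA := by
    intro c
    obtain ⟨n, hn⟩ := hV.2 c c₀ hcn hc0
    refine ⟨n, ?_⟩
    rw [← map_pow, ← map_mul]
    exact hA.base _ hn
  have hnu : NU (ZER_ring A (algebraMap C Φ c₀) hcA) b := by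
    refine ⟨⟨0, by rw [pow_zero, one_mul]; exact hb.1⟩, Or.inr ?_⟩
    rintro ⟨n, hn⟩
    rcases hb.2 with h | h
    · exact hb0 h
    · apply h
      have hW : b⁻¹ ∈ W := by
        rw [← W.valuation_le_one_iff, map_inv₀]
        rw [ValuationSubring.mem_nonunits_iff, not_lt] at hbW
        exact inv_le_one_of_one_le₀ hbW
      have e : algebraMap C Φ c₀ ^ n * b⁻¹ / algebraMap C Φ (c₀ ^ n) = b⁻¹ := by
        rw [map_pow, mul_comm, mul_div_assoc, div_self (pow_ne_zero _ hcΦ), mul_one]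
      have h2 := hA.sat (c₀ ^ n) (V.pow_mem hcV n) (pow_ne_zero _ hc0) _ hn (by rw [e]; exact hW)
      rwa [e] at h2
  obtain ⟨R, h1, h2⟩ := plv_exists _ hC b hnu hb0
  exact ⟨R, fun a ha => h1 a ⟨0, by rw [pow_zero, one_mul]; exact ha⟩, h2⟩

end Pool.Agent.ESH
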