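import Pool.Agent.ESH.ORD
import Pool.Agent.ESH.ZER

/-!
# ESH / HOL: functions without poles specialising to a point are in its local ring

Proof.  Let `f ∈ W` have no pole at the places above `A`.  By `frac` `f s = a` with `a, s ∈ A`, `s ∉ W.nonunits`.  Induct on
`n(s) = ∑_{R above A} R.ord s` (finite sum of non-negative integers: `finite_ord_ne_zero`, `s ≠ 0`).  If `s` is a unit of
`A`, `f = a s⁻¹ ∈ A`.  Otherwise (ZER) some `R` above `A` has `ev R s = 0`; then `ev R a = ev R f * ev R s = 0`, and with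
`t' = t - ev R t` (`zero`), `s = t' s₁`, `a = t' a₁`, `s₁, a₁ ∈ A`, `f s₁ = a₁`; `s₁ ∉ W.nonunits` (`t' ∈ W`, so
`s₁ ∈ W.nonunits` would give `s ∈ W.nonunits`), and `n(s₁) < n(s)` since `t' ∈ A` has order `≥ 0` at all places above
`A` and `1` at `R`.
-/

namespace Pool.Agent.ESH

open Pool.Agent.Helper11

variable {C Φ : Type*} [Field C] [Field Φ] [Algebra C Φ] [FunField C Φ] [CharZero C] [IsAlgClosed C]

omit [FunField C Φ] [CharZero C] [IsAlgClosed C] in
private theorem ord_nn {A : Subring Φ} {R : Place C Φ} (hR : Below A R) {a : Φ} (ha : a ∈ A) :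
    0 ≤ R.ord a := by
  rcases hR a ha with h | h
  · rw [h, R.ord_zero]
  · exact h

private theorem hol_aux {V : ValuationSubring C} {W : ValuationSubring Φ} {A : Subring Φ}
    (hV : Rk1 V) (hA : IsPt V W A) {t : Φ} (ht : IsPar V W A t) (f : Φ)
    (hp : ∀ R : Place C Φ, Below A R → f ∈ R.ge 0) (T : Finset (Place C Φ)) :
    ∀ N : ℕ, ∀ s ∈ A, s ∉ W.nonunits → f * s ∈ A →
      (∀ R : Place C Φ, Below A R → R ∉ T → R.ord s = 0) →
      (∀ R ∈ T, Below A R) → ∑ R ∈ T, R.ord s ≤ N → f ∈ A := by
  intro N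
  induction N with
  | zero =>
    intro s hs hsW hfs hT hTB hN
    have hs0 : s ≠ 0 := by
      rintro rfl
      exact hsW (by rw [ValuationSubring.mem_nonunits_iff]; simp)
    by_cases hu : s⁻¹ ∈ A
    · have := A.mul_mem hfs hu
      rwa [mul_assoc, mul_inv_cancel₀ hs0, mul_one] at this
    · exfalso
      obtain ⟨R, hR, hs1⟩ := zer hV hA s ⟨hs, Or.inr hu⟩ hsW
      have h1 : 1 ≤ R.ord s := R.le_ord_of_mem hs1 hs0
      have hRT : R ∈ T := by
        by_contra h
        have := hT R hR h
        omega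
      have h2 : R.ord s ≤ ∑ R ∈ T, R.ord s :=
        Finset.single_le_sum (f := fun R : Place C Φ => R.ord s) (fun R' h => ord_nn (hTB R' h) hs) hRT
      have : ((0 : ℕ) : ℤ) = 0 := rfl
      omega
  | succ N ih =>
    intro s hs hsW hfs hT hTB hN
    have hs0 : s ≠ 0 := by
      rintro rfl
      exact hsW (by rw [ValuationSubring.mem_nonunits_iff]; simp)
    by_cases hu : s⁻¹ ∈ A
    · have := A.mul_mem hfs hu
      rwa [mul_assoc, mul_inv_cancel₀ hs0, mul_one] at this
    · obtain ⟨R, hR, hs1⟩ := zer hV hA s ⟨hs, Or.inr hu⟩ hsW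
      have h1 : 1 ≤ R.ord s := R.le_ord_of_mem hs1 hs0
      have hRT : R ∈ T := by
        by_contra h
        have := hT R hR h
        omega
      have htA : t ∈ A := ht.mem.1
      have htm := evl_mem R (hR t htA)
      set c := ev R t with hc
      have hcV : c ∈ V := (spc_ev hV hA R hR t htA).1
      have ht'A : t - algebraMap C Φ c ∈ A := A.sub_mem htA (hA.base c hcV)
      obtain ⟨s1, hs1A, hs1e⟩ := ht.zero R hR c htm s hs hs1
      have hfs1 : f * s ∈ R.ge 1 := by
        have := R.mul_mem_ge (hp R hR) hs1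
        rwa [zero_add] at this
      obtain ⟨a1, ha1A, ha1e⟩ := ht.zero R hR c htm (f * s) hfs hfs1
      have ht'0 : t - algebraMap C Φ c ≠ 0 := by
        intro h
        rw [h, zero_mul] at hs1e
        exact hs0 hs1e
      have hs10 : s1 ≠ 0 := by
        intro h
        rw [h, mul_zero] at hs1e
        exact hs0 hs1e
      have hfs1A : f * s1 ∈ A := by
        have : f * s1 = a1 := by
          apply mul_left_cancel₀ ht'0
          rw [← ha1e, hs1e]
          ring
        rw [this]
        exact ha1A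
      have hs1W : s1 ∉ W.nonunits := by
        intro h
        apply hsW
        rw [ValuationSubring.mem_nonunits_iff] at h ⊢
        rw [hs1e, map_mul]
        have h2 : W.valuation (t - algebraMap C Φ c) ≤ 1 :=
          (W.valuation_le_one_iff _).2 (hA.le _ ht'A)
        exact mul_lt_one_of_nonneg_of_lt_one_right h2 zero_le h
      have hord : ∀ R' : Place C Φ, R'.ord s = R'.ord (t - algebraMap C Φ c) + R'.ord s1 := by
        intro R'
        rw [hs1e, R'.ord_mul _ _ ht'0 hs10]
      refine ih s1 hs1A hs1W hfs1A ?_ hTB ?_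
      · intro R' hR' hR'T
        have h3 := hT R' hR' hR'T
        have h4 := hord R'
        have h5 := ord_nn hR' ht'A
        have h6 := ord_nn hR' hs1A
        omega
      · have h7 : ∑ R ∈ T, R.ord s1 + 1 ≤ ∑ R ∈ T, R.ord s := by
          have h8 : ∑ R ∈ T, R.ord s = ∑ R ∈ T, R.ord (t - algebraMap C Φ c) + ∑ R ∈ T, R.ord s1 := by
            rw [← Finset.sum_add_distrib]
            exact Finset.sum_congr rfl fun R' _ => hord R'
          have h9 : R.ord (t - algebraMap C Φ c) ≤ ∑ R ∈ T, R.ord (t - algebraMap C Φ c) :=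
            Finset.single_le_sum (f := fun R : Place C Φ => R.ord (t - algebraMap C Φ c))
              (fun R' h => ord_nn (hTB R' h) ht'A) hRT
          have h10 : 1 ≤ R.ord (t - algebraMap C Φ c) := R.le_ord_of_mem htm ht'0
          omega
        push_cast at hN
        omega

theorem hol {V : ValuationSubring C} {W : ValuationSubring Φ} {pts : Set (Subring Φ)}
    (hV : Rk1 V) (h : IsMdl V W pts) {A : Subring Φ} (hA : A ∈ pts) (f : Φ) (hf : f ∈ W)
    (hp : ∀ R : Place C Φ, Below A R → f ∈ R.ge 0) : f ∈ A := by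
  classical
  have hA' := h.pt A hA
  obtain ⟨t, ht⟩ := hA'.par
  obtain ⟨a, ha, s, hs, hsW, hfs⟩ := hA'.frac f hf
  have hfin : {R : Place C Φ | R.ord s ≠ 0}.Finite := finite_ord_ne_zero s
  set T := hfin.toFinset.filter (fun R => Below A R) with hT
  refine hol_aux hV hA' ht f hp T (∑ R ∈ T, R.ord s).toNat s hs hsW (hfs ▸ ha) ?_ ?_ ?_
  · intro R hR hRT
    by_contra hne
    apply hRT
    rw [hT, Finset.mem_filter, Set.Finite.mem_toFinset]
    exact ⟨hne, hR⟩
  · intro R hR
    rw [hT, Finset.mem_filter] at hR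
    exact hR.2
  · exact Int.self_le_toNat _

end Pool.Agent.ESH
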