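import Pool.Agent.ESH.RRB

/-!
# ESH / RIE: a function whose only pole is `P`

Proof (Riemann).  Fix a transcendental `x`, `n = [Φ:C(x)]`, `c` from RRB, `D_m = m (x)_∞`, of degree `m n`
(`finsum_neg_ord`).  Let `N = c + 2` and `m` with `m n ≥ N + c + 1`.  By `rra_le` (or `rra_step`, `N` times)
`dim LL (D_m - N P) ≥ m n - c - N ≥ 1`: let `g ≠ 0` be in it.  Put `A' v = v.ord g + D_m v`, so `A' ≥ N P`,
and multiplication by `g` is an isomorphism `LL A' ≅ LL D_m`; `∑ A' = m n` (`finsum_ord`).  By `rra_le`:
`dim LL (N P) ≥ dim LL A' - (m n - N) ≥ N - c = 2`.  So `LL (N P)` contains a non-constant `f`; it is transcendental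
(`C` algebraically closed) and `f ∈ Q.ge 0` for `Q ≠ P`.
-/

namespace Pool.Agent.ESH

open Pool.Agent.Helper11 IntermediateField

variable {C Φ : Type*} [Field C] [Field Φ] [Algebra C Φ] [FunField C Φ] [CharZero C] [IsAlgClosed C]

omit [FunField C Φ] [CharZero C] [IsAlgClosed C] in
theorem rie_mem (D : Place C Φ → ℤ) (f : Φ) : f ∈ LL D ↔ ∀ v : Place C Φ, f ∈ v.ge (-D v) := Iff.rfl

open scoped Classical in
theorem rie (P : Place C Φ) : ∃ f : Φ, Transcendental C f ∧ ∀ Q : Place C Φ, Q ≠ P → f ∈ Q.ge 0 := by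
  obtain ⟨x, hx1⟩ := P.exists_ord_eq_one
  have hx : Transcendental C x := P.transcendental_of_ord_ne_zero (by rw [hx1]; decide)
  obtain ⟨c, hc⟩ := rrb x hx
  have hfd := FunField.finiteDimensional_adjoin hx
  have hn : 0 < Module.finrank C⟮x⟯ Φ := Module.finrank_pos
  have hdeg := finsum_neg_ord hx
  set n : ℕ := Module.finrank C⟮x⟯ Φ with hndef
  have hm := hc (2 * c + 3)
  set m : ℕ := 2 * c + 3 with hmdef
  set Dm : Place C Φ → ℤ := fun v => (m : ℤ) * max 0 (-v.ord x) with hDm
  have hmn : (m : ℤ) ≤ m * n := by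
    have : (1 : ℤ) ≤ n := by exact_mod_cast hn
    nlinarith [Int.natCast_nonneg m]
  -- supports
  have hfx := finite_ord_ne_zero (k := C) x
  have hfD : {v | Dm v ≠ 0}.Finite := by
    apply hfx.subset
    intro v hv
    change v.ord x ≠ 0
    intro h0
    apply hv
    change (m : ℤ) * max 0 (-v.ord x) = 0
    rw [h0]
    simp
  set N : ℤ := (c : ℤ) + 2 with hN
  set E : Place C Φ → ℤ := fun v => if v = P then N else 0 with hE
  have hfE : {v | E v ≠ 0}.Finite := by
    apply (Set.finite_singleton P).subset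
    intro v hv
    by_contra hne
    apply hv
    exact if_neg (fun h => hne (Set.mem_singleton_iff.mpr h))
  have hsE : ∑ᶠ v, E v = N := by
    rw [finsum_eq_single E P (fun v hv => if_neg hv)]
    exact if_pos rfl
  have hsD : ∑ᶠ v, Dm v = m * n := by
    rw [hDm, ← mul_finsum, hdeg]
  have hE0 : ∀ v, 0 ≤ E v := by
    intro v
    change 0 ≤ (if v = P then N else 0)
    split_ifs <;> omega
  -- the function g
  have h1 := rra_le (fun v => Dm v - E v) Dm ((hfD.union hfE).subset (by
    intro v hv
    by_contra hne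
    rw [Set.mem_union, not_or] at hne
    apply hv
    have a1 : Dm v = 0 := by by_contra h; exact hne.1 h
    have a2 : E v = 0 := by by_contra h; exact hne.2 h
    change Dm v - E v = 0
    rw [a1, a2]; rfl)) hfD (fun v => by
      have := hE0 v
      change Dm v - E v ≤ Dm v
      omega)
  have h1' : ∑ᶠ v, (Dm v - (Dm v - E v)) = N := by
    rw [← hsE]
    apply finsum_congr
    intro v
    ring
  rw [h1'] at h1
  have h2 : 0 < Module.finrank C (LL (fun v => Dm v - E v)) := by
    have : (0 : ℤ) < Module.finrank C (LL (fun v => Dm v - E v)) := by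
      have hm2 : (m : ℤ) = 2 * c + 3 := by rw [hmdef]; push_cast; ring
      linarith
    exact_mod_cast this
  have h3 : Nontrivial (LL (fun v => Dm v - E v)) := Module.nontrivial_of_finrank_pos h2
  obtain ⟨⟨g, hg⟩, hg0⟩ := exists_ne (0 : LL (fun v => Dm v - E v))
  have hg0' : g ≠ 0 := fun h => hg0 (Subtype.ext h)
  have hg1 : ∀ v : Place C Φ, E v - Dm v ≤ v.ord g := by
    intro v
    have := v.le_ord_of_mem (hg v) hg0'
    have h' : -(Dm v - E v) ≤ v.ord g := this
    linarith
  set A : Place C Φ → ℤ := fun v => v.ord g + Dm v with hA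
  have hfg := finite_ord_ne_zero (k := C) g
  have hfA : {v | A v ≠ 0}.Finite := by
    apply (hfg.union hfD).subset
    intro v hv
    by_contra hne
    rw [Set.mem_union, not_or] at hne
    apply hv
    have a1 : v.ord g = 0 := by by_contra h; exact hne.1 h
    have a2 : Dm v = 0 := by by_contra h; exact hne.2 h
    change v.ord g + Dm v = 0
    rw [a1, a2]; rfl
  have hsA : ∑ᶠ v, A v = m * n := by
    rw [hA, finsum_add_distrib hfg hfD, finsum_ord, hsD, zero_add]
  -- the isomorphism
  have hiso : Module.finrank C (LL Dm) = Module.finrank C (LL A) := by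
    have hmem : ∀ f : Φ, f ∈ LL A ↔ g * f ∈ LL Dm := by
      intro f
      rw [rie_mem, rie_mem]
      apply forall_congr'
      intro v
      rw [v.mem_ge, v.mem_ge]
      by_cases hf : f = 0
      · simp [hf]
      · have hgf : g * f ≠ 0 := mul_ne_zero hg0' hf
        rw [v.ord_mul g f hg0' hf]
        simp only [hf, hgf, false_or]
        change -(v.ord g + Dm v) ≤ v.ord f ↔ _
        constructor <;> intro h <;> linarith
    let φ : LL A →ₗ[C] LL Dm :=
      { toFun := fun f => ⟨g * f.1, (hmem f.1).1 f.2⟩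
        map_add' := fun a b => Subtype.ext (mul_add _ _ _)
        map_smul' := fun a b => Subtype.ext (mul_smul_comm _ _ _) }
    have hinj : Function.Injective φ := by
      intro a b h
      have := congrArg Subtype.val h
      exact Subtype.ext (mul_left_cancel₀ hg0' this)
    have hsurj : Function.Surjective φ := by
      intro b
      have e1 : g * (g⁻¹ * b.1) = b.1 := mul_inv_cancel_left₀ hg0' b.1
      refine ⟨⟨g⁻¹ * b.1, (hmem _).2 (by rw [e1]; exact b.2)⟩, Subtype.ext e1⟩
    exact (LinearEquiv.ofBijective φ ⟨hinj, hsurj⟩).finrank_eq.symm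
  have h4 := rra_le E A hfE hfA (fun v => by
    have := hg1 v
    change E v ≤ v.ord g + Dm v
    linarith)
  have h5 : ∑ᶠ v, (A v - E v) = m * n - N := by
    rw [finsum_sub_distrib hfA hfE, hsA, hsE]
  rw [h5] at h4
  have h6 : 2 ≤ Module.finrank C (LL E) := by
    have : (2 : ℤ) ≤ Module.finrank C (LL E) := by
      rw [← hiso] at h4
      linarith
    exact_mod_cast this
  have hex : ∃ f ∈ LL E, f ∉ Set.range (algebraMap C Φ) := by
    by_contra hcon
    push Not at hcon
    have hle : LL E ≤ Submodule.span C {(1 : Φ)} := by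
      intro f hf
      obtain ⟨a, ha⟩ := hcon f hf
      rw [Submodule.mem_span_singleton]
      exact ⟨a, by rw [← ha, Algebra.smul_def, mul_one]⟩
    have h7 := Submodule.finrank_mono hle
    have h8 := finrank_span_singleton (K := C) (one_ne_zero : (1 : Φ) ≠ 0)
    omega
  obtain ⟨f, hf, hfn⟩ := hex
  refine ⟨f, ?_, ?_⟩
  · intro halg
    exact hfn (by
      obtain ⟨a, ha⟩ := mem_range_of_isAlgebraic halg
      exact ⟨a, ha⟩)
  · intro Q hQ
    have h9 := hf Q
    have : E Q = 0 := if_neg hQ
    rw [this] at h9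
    simpa using h9

end Pool.Agent.ESH
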