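import Pool.Agent.ESH.CMP
import Pool.Agent.ESH.HOL
import Pool.Agent.ESH.RIE

/-!
# ESH / SWP: two models with the same special valuation ring have the same points

Proof.  (1) Let `P` be a place, `A ∈ pts`, `A' ∈ pts'` the points below `P` (`spc_exists`).  There is a valuation ring
`V'' ≤ W`, `V'' ≠ W`, which dominates both `A` and `A'`.  Indeed let `f` be a function with only pole `P` (RIE); by `trans`
`f₁ = (f - a)/c ∈ W` with residue not in the residue field of `V`; this residue is transcendental over the residue field of `V`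
(which is algebraically closed because `C` is), so there is a valuation ring of the residue field of `W`, containing
the residue field of `V` and not containing the residue of `f₁` (choose one in which the inverse is a non-unit: it is not
invertible in the polynomial ring it generates).  Let `V'' ⊆ W` be its inverse image in `W` (composite): it is a valuation
ring of `Φ`, `V'' ∩ C = V`, `f₁ ∈ W \ V''`.  By `centre` some `A₁ ∈ pts` is dominated by `V''`; if `A₁ ≠ A`, then no pole of
`f₁` (only `P`) is above `A₁` (`spc_unique`), so `f₁ ∈ A₁ ⊆ V''` (HOL), contradiction; so `A₁ = A`.  Same for `A'`.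
(2) Let `A ∈ pts`.  Take a place `P` above `A` (ZER applied to a parameter, TUN), `A' ∈ pts'` below `P`, `V''` as in (1).
Claim `A ⊆ A'`: let `a ∈ A`, `a ∈ W`; let `R` be a place above `A'`, `A_R ∈ pts` below `R`, and `V''_R` as in (1) for `R`,
dominating `A_R` and `A'`.  By `cmp_unique` for `A'`, `V''_R = V''`.  So `V''` dominates `A` and `A_R`, so `A = A_R` (`sep`) and
`a ∈ R.ge 0`.  By HOL for the second model `a ∈ A'`.  By symmetry `A' ⊆ A` (the same `V''`).  So `A = A' ∈ pts'`; symmetric.
-/

namespace Pool.Agent.ESH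

open Pool.Agent.Helper11

variable {C Φ : Type*} [Field C] [Field Φ] [Algebra C Φ] [FunField C Φ] [CharZero C] [IsAlgClosed C]

private lemma SWP_add {W : ValuationSubring Φ} {x y : Φ} (hx : x ∈ W.nonunits)
    (hy : y ∈ W.nonunits) : x + y ∈ W.nonunits := by
  rw [ValuationSubring.mem_nonunits_iff] at hx hy ⊢
  exact W.valuation.map_add_lt hx hy

private lemma SWP_neg {W : ValuationSubring Φ} {x : Φ} (hx : x ∈ W.nonunits) :
    -x ∈ W.nonunits := by
  rw [ValuationSubring.mem_nonunits_iff] at hx ⊢
  rwa [Valuation.map_neg]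

private lemma SWP_mul {W : ValuationSubring Φ} {x y : Φ} (hx : x ∈ W.nonunits)
    (hy : y ∈ W) : x * y ∈ W.nonunits := by
  rw [ValuationSubring.mem_nonunits_iff] at hx ⊢
  rw [← W.valuation_le_one_iff] at hy
  rw [map_mul]
  exact mul_lt_one_of_lt_of_le hx hy

private lemma SWP_zero {W : ValuationSubring Φ} : (0 : Φ) ∈ W.nonunits := by
  rw [ValuationSubring.mem_nonunits_iff, map_zero]
  exact zero_lt_one

private lemma SWP_sum {W : ValuationSubring Φ} (n : ℕ) (f : ℕ → Φ)
    (hf : ∀ i ∈ Finset.range n, f i ∈ W.nonunits) : ∑ i ∈ Finset.range n, f i ∈ W.nonunits := by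
  induction n with
  | zero => simpa using SWP_zero
  | succ n ih =>
    rw [Finset.sum_range_succ]
    exact SWP_add (ih fun i hi => hf i (Finset.mem_range.2 (by
      have := Finset.mem_range.1 hi; omega))) (hf n (Finset.mem_range.2 (by omega)))

open Polynomial in
/-- a monic polynomial over `V` at an element with non-constant residue is a unit -/
private lemma SWP_monic {V : ValuationSubring C} {W : ValuationSubring Φ}
    (hb : ∀ c : C, algebraMap C Φ c ∈ W ↔ c ∈ V) {f : Φ} (hf : f ∈ W)
    (hf2 : ∀ b ∈ V, f - algebraMap C Φ b ∉ W.nonunits) (Q : Polynomial V) (hQ : Q.Monic) :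
    W.valuation (aeval f (Q.map (algebraMap V C))) = 1 := by
  have hm : (Q.map (algebraMap V C)).Monic := hQ.map _
  have hs : (Q.map (algebraMap V C)).Splits := IsAlgClosed.splits _
  have hroot : ∀ α ∈ (Q.map (algebraMap V C)).roots, α ∈ V := by
    intro α hα
    have h1 : IsIntegral V α := by
      refine ⟨Q, hQ, ?_⟩
      have h2 := (mem_roots hm.ne_zero).1 hα
      rw [IsRoot.def, eval_map] at h2
      exact h2
    obtain ⟨y, hy⟩ := (IsIntegrallyClosed.isIntegral_iff (R := V) (K := C)).1 h1
    rw [← hy]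
    exact y.2
  have h3 := hs.eq_prod_roots_of_monic hm
  rw [h3, map_multiset_prod, map_multiset_prod, Multiset.map_map, Multiset.map_map]
  refine Multiset.prod_eq_one ?_
  intro x hx
  rw [Multiset.mem_map] at hx
  obtain ⟨α, hα, rfl⟩ := hx
  have hαV := hroot α hα
  simp only [Function.comp_apply, map_sub, aeval_X, aeval_C]
  have h4 := hf2 α hαV
  rw [ValuationSubring.mem_nonunits_iff, not_lt] at h4
  refine le_antisymm ?_ h4
  rw [W.valuation_le_one_iff]
  exact W.toSubring.sub_mem hf ((hb α).2 hαV)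

open Polynomial in
/-- a valuation ring between `V + W.nonunits` and `W` not containing `f` -/
private lemma SWP_ex {V : ValuationSubring C} {W : ValuationSubring Φ}
    (hb : ∀ c : C, algebraMap C Φ c ∈ W ↔ c ∈ V) {f : Φ} (hf : f ∈ W)
    (hf2 : ∀ b ∈ V, f - algebraMap C Φ b ∉ W.nonunits) :
    ∃ V'' : ValuationSubring Φ, V'' ≤ W ∧ V'' ≠ W ∧ (∀ c : C, algebraMap C Φ c ∈ V'' ↔ c ∈ V) ∧
      f ∉ V'' := by
  classical
  set s : Set Φ := {x | ∃ c ∈ V, x - algebraMap C Φ c ∈ W.nonunits} with hs
  -- the subring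
  let R : Subring Φ :=
    { carrier := s
      zero_mem' := ⟨0, V.zero_mem, by rw [map_zero, sub_zero]; exact SWP_zero⟩
      one_mem' := ⟨1, V.one_mem, by rw [map_one, sub_self]; exact SWP_zero⟩
      add_mem' := by
        rintro x y ⟨c, hc, hx⟩ ⟨d, hd, hy⟩
        refine ⟨c + d, V.add_mem _ _ hc hd, ?_⟩
        have := SWP_add hx hy
        rw [map_add]
        convert this using 1
        ring
      neg_mem' := by
        rintro x ⟨c, hc, hx⟩
        refine ⟨-c, V.neg_mem _ hc, ?_⟩
        have := SWP_neg hx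
        rw [map_neg]
        convert this using 1
        ring
      mul_mem' := by
        rintro x y ⟨c, hc, hx⟩ ⟨d, hd, hy⟩
        refine ⟨c * d, V.mul_mem _ _ hc hd, ?_⟩
        have hcW := (hb c).2 hc
        have hdW := (hb d).2 hd
        have hxW : x ∈ W := by
          have := W.add_mem _ _ (W.nonunits_subset hx) hcW
          rwa [sub_add_cancel] at this
        have h1 := SWP_add (SWP_mul hx hdW) (SWP_mul hy hxW)
        rw [map_mul]
        convert h1 using 1
        ring }
  have hcl : Subring.closure s = R := Subring.closure_eq R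
  have hnot : f ∉ (integralClosure (Subring.closure s) Φ).toSubring := by
    rintro ⟨P, hP, hPf⟩
    have hsub : ∀ i : ℕ, ∃ c : V, ((P.coeff i : Subring.closure s) : Φ) - algebraMap C Φ (c : C) ∈
        W.nonunits := by
      intro i
      have h1 : ((P.coeff i : Subring.closure s) : Φ) ∈ R := hcl.le (P.coeff i).2
      obtain ⟨c, hc, h2⟩ := h1
      exact ⟨⟨c, hc⟩, h2⟩
    choose c hc using hsub
    set n := P.natDegree with hn
    set Q : Polynomial V := X ^ n + ∑ i ∈ Finset.range n, Polynomial.C (c i) * X ^ i with hQ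
    have hQm : Q.Monic := by
      refine monic_X_pow_add ?_
      refine lt_of_le_of_lt (degree_sum_le _ _) ?_
      rw [Finset.sup_lt_iff (by exact WithBot.bot_lt_coe n)]
      intro i hi
      refine lt_of_le_of_lt (degree_C_mul_X_pow_le _ _) ?_
      exact_mod_cast Finset.mem_range.1 hi
    have hv := SWP_monic hb hf hf2 Q hQm
    have hPf2 : f ^ n + ∑ i ∈ Finset.range n, ((P.coeff i : Subring.closure s) : Φ) * f ^ i = 0 := by
      have h1 : eval₂ (algebraMap (Subring.closure s) Φ) f P = 0 := hPf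
      rw [eval₂_eq_sum_range, Finset.sum_range_succ, ← hn] at h1
      have h2 : P.coeff n = 1 := hP.coeff_natDegree
      rw [h2, map_one, one_mul, add_comm] at h1
      exact h1
    have hQf : aeval f (Q.map (algebraMap V C)) =
        f ^ n + ∑ i ∈ Finset.range n, algebraMap C Φ (c i : C) * f ^ i := by
      rw [hQ]
      simp only [Polynomial.map_add, Polynomial.map_pow, map_X, Polynomial.map_sum,
        Polynomial.map_mul, map_C, map_add, map_pow, aeval_X, map_sum, map_mul, aeval_C]
      rfl
    have hmem : aeval f (Q.map (algebraMap V C)) ∈ W.nonunits := by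
      have h3 : aeval f (Q.map (algebraMap V C)) =
          ∑ i ∈ Finset.range n, -(((P.coeff i : Subring.closure s) : Φ) -
            algebraMap C Φ (c i : C)) * f ^ i := by
        rw [hQf]
        have h4 : f ^ n = - ∑ i ∈ Finset.range n, ((P.coeff i : Subring.closure s) : Φ) * f ^ i := by
          linear_combination hPf2
        rw [h4, ← Finset.sum_neg_distrib, ← Finset.sum_add_distrib]
        refine Finset.sum_congr rfl fun i _ => ?_
        ring
      rw [h3]
      exact SWP_sum n _ fun i _ => SWP_mul (SWP_neg (hc i)) (pow_mem hf i)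
    rw [ValuationSubring.mem_nonunits_iff, hv] at hmem
    exact lt_irrefl _ hmem
  rw [← iInf_valuationSubring_superset, Subring.mem_iInf] at hnot
  push Not at hnot
  obtain ⟨⟨V'', hV''s⟩, hV''f⟩ := hnot
  have hf'' : f ∉ V'' := hV''f
  have hmem : ∀ x ∈ W.nonunits, x ∈ V'' := by
    intro x hx
    refine hV''s ⟨0, V.zero_mem, ?_⟩
    rwa [map_zero, sub_zero]
  have hle : V'' ≤ W := by
    intro x hx
    by_contra hxW
    have hx0 : x ≠ 0 := by
      rintro rfl
      exact hxW W.zero_mem
    have h1 : x⁻¹ ∈ W.nonunits := W.inv_mem_nonunits_iff.2 (Or.inr hxW)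
    have h2 := hmem _ (SWP_mul h1 hf)
    have h3 := V''.mul_mem _ _ hx h2
    rw [← mul_assoc, mul_inv_cancel₀ hx0, one_mul] at h3
    exact hf'' h3
  refine ⟨V'', hle, ?_, ?_, hf''⟩
  · rintro rfl
    exact hf'' hf
  · intro c
    constructor
    · intro h1
      exact (hb c).1 (hle h1)
    · intro h1
      exact hV''s ⟨c, h1, by rw [sub_self]; exact SWP_zero⟩

theorem swp_one {V : ValuationSubring C} {W : ValuationSubring Φ} {pts : Set (Subring Φ)}
    (hV : Rk1 V) (h : IsMdl V W pts) (P : Place C Φ) :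
    ∃ V'' : ValuationSubring Φ, V'' ≤ W ∧ V'' ≠ W ∧ (∀ c : C, algebraMap C Φ c ∈ V'' ↔ c ∈ V) ∧
      ∀ pts' : Set (Subring Φ), IsMdl V W pts' → ∀ A ∈ pts', Below A P → Dom A V'' := by
  obtain ⟨f, hf, hfP⟩ := rie P
  have hfc : ∀ c : C, f ≠ algebraMap C Φ c := by
    rintro c rfl
    exact hf (isAlgebraic_algebraMap c)
  obtain ⟨a, c, hc0, h1, h2⟩ := h.trans f hfc
  obtain ⟨V'', h3, h4, h5, h6⟩ := SWP_ex h.base h1 h2
  refine ⟨V'', h3, h4, h5, ?_⟩
  intro pts' h' A hA hAP
  obtain ⟨A₁, hA₁, hd⟩ := h'.centre V'' h5 h4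
  by_cases heq : A₁ = A
  · rw [← heq]; exact hd
  · exfalso
    apply h6
    apply hd.1
    refine hol hV h' hA₁ _ h1 ?_
    intro R hR
    have hRP : R ≠ P := by
      rintro rfl
      exact heq (spc_unique hV h' R hA₁ hA hR hAP)
    have h7 : f - algebraMap C Φ a ∈ R.ge 0 :=
      (R.ge 0).sub_mem (hfP R hRP) (R.algebraMap_mem_ge a)
    have h8 := R.mul_mem_ge h7 (R.algebraMap_mem_ge c⁻¹)
    rw [map_inv₀, add_zero] at h8
    rw [div_eq_mul_inv]
    exact h8

private lemma SWP_le {V : ValuationSubring C} {W : ValuationSubring Φ} {pts pts' : Set (Subring Φ)}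
    (hV : Rk1 V) (h : IsMdl V W pts) (h' : IsMdl V W pts') (P : Place C Φ) {A A' : Subring Φ}
    (hA : A ∈ pts) (hA' : A' ∈ pts') (hAP : Below A P) (hAP' : Below A' P) : A ≤ A' := by
  intro a ha
  obtain ⟨V'', h1, h2, h3, h4⟩ := swp_one hV h P
  have hd := h4 pts h A hA hAP
  have hd' := h4 pts' h' A' hA' hAP'
  refine hol hV h' hA' a ((h.pt A hA).le a ha) ?_
  intro R hR
  obtain ⟨AR, hAR, hARR⟩ := spc_exists hV h R
  obtain ⟨VR, k1, k2, k3, k4⟩ := swp_one hV h R
  have kd := k4 pts h AR hAR hARR
  have kd' := k4 pts' h' A' hA' hR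
  have heq : VR = V'' := by
    ext f
    rw [cmp_unique h' hA' VR k1 k2 kd' f, cmp_unique h' hA' V'' h1 h2 hd' f]
  rw [heq] at kd
  have hAA := h.sep V'' A hA AR hAR hd kd
  rw [← hAA] at hARR
  exact hARR a ha

private lemma SWP_sub {V : ValuationSubring C} {W : ValuationSubring Φ} {pts pts' : Set (Subring Φ)}
    (hV : Rk1 V) (h : IsMdl V W pts) (h' : IsMdl V W pts') : pts ⊆ pts' := by
  intro A hA
  obtain ⟨t, ht⟩ := (h.pt A hA).par
  have htW : t ∉ W.nonunits := by
    have := tun h hA ht 0 V.zero_mem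
    rwa [map_zero, sub_zero] at this
  obtain ⟨P, hP, _⟩ := zer hV (h.pt A hA) t ht.mem htW
  obtain ⟨A', hA', hP'⟩ := spc_exists hV h' P
  have h1 := SWP_le hV h h' P hA hA' hP hP'
  have h2 := SWP_le hV h' h P hA' hA hP' hP
  rw [le_antisymm h1 h2]
  exact hA'

theorem swp {V : ValuationSubring C} {W : ValuationSubring Φ} {pts pts' : Set (Subring Φ)}
    (hV : Rk1 V) (h : IsMdl V W pts) (h' : IsMdl V W pts') : pts = pts' := Set.Subset.antisymm (SWP_sub hV h h') (SWP_sub hV h' h)

end Pool.Agent.ESH
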