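import Pool.Agent.ESH.DFR
import Pool.Agent.Helper11.Diff

/-!
# ESH / UNW: uniqueness of the special fibre in positive genus

Proof.  Let `ω ≠ 0` be a regular differential.  `Ω[Φ⁄C]` is one-dimensional over `Φ`, generated by `D t` for every
transcendental `t` (Helper11 `kaehler_bijective`, `der`).  For a model `(W, pts)` and `A ∈ pts` with parameter `t` and
derivation `δ` (`der` field of `IsPar`), `D g = δ(g) • D t`, `δ(W) ⊆ W` (`ord_derW`).  If `t₀` is a parameter of another point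
then `D t₀ = δ(t₀) • D t` and `D t = δ₀(t) • D t₀`, so `δ(t₀)` is a unit of `W`.  So, writing `ω = u_t • D t`, the
class of `u_t` modulo units of `W` does not depend on the point; and `pts` is not empty (`spc_exists`; there are
places).  Scale: there is `c ∈ C`, `c ≠ 0`, with `u_t/c` a unit of `W` for all points.
(*) If `W' ≠ W` is the valuation ring of another model, `ω₁ = c⁻¹ ω = u • D t` (`u = u_t/c` a unit of `W`): `W' ∩ C = V`, so
`centre` gives `A ∈ pts` with `Dom A W'`, `t` a parameter of `A`; by DFR `u ∈ A ⊆ W'`; `t ∈ W'.nonunits`; by `scale` for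
`W'`, `t = γ y`, `γ ∈ V.nonunits`, `y` a unit of `W'`; `D t = γ D y = γ δ'(y) • D t'` for a parameter `t'` of the
second model, so `ω₁ = u' • D t'` with `u' ∈ γ W'`.  Scaling, `u' = c' (unit of W')` with `c' ∈ V.nonunits`.
Apply (*) with the two models exchanged to `ω₂ = ω₁/c'`: `ω₂ = u'' • D t` with `u'' ∈ γ'' W`, `γ'' ∈ V.nonunits`.  But
`u'' = u/c'`, so `u = c' u'' ∈ W.nonunits`: contradiction.
-/

namespace Pool.Agent.ESH

open Pool.Agent.Helper11
open scoped KaehlerDifferential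

variable {C Φ : Type*} [Field C] [Field Φ] [Algebra C Φ] [FunField C Φ] [CharZero C] [IsAlgClosed C]

private theorem unw_place : Nonempty (Place C Φ) := by
  obtain ⟨x, hx⟩ := FunField.exists_transcendental (k := C) (L := Φ)
  by_contra hcon
  have h2 : IsEmpty (Place C Φ) := not_nonempty_iff.1 hcon
  have h1 := finsum_pos_ord (k := C) hx
  have := FunField.finiteDimensional_adjoin hx
  rw [finsum_of_isEmpty] at h1
  have h3 : 0 < Module.finrank (IntermediateField.adjoin C {x}) Φ := Module.finrank_pos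
  omega

omit [IsAlgClosed C] in
private theorem unw_der {t : Φ} (ht : Transcendental C t) (D : Derivation C Φ Φ) (hD : D t = 1)
    (f : Φ) : der ht f = D f := by
  have h1 : D f = D.liftKaehlerDifferential (KaehlerDifferential.D C Φ f) := by simp
  rw [h1, D_eq_der_smul ht f, map_smul]
  simp [hD]

/-- the derivation with respect to a parameter preserves W -/
private theorem unw_derW {V : ValuationSubring C} {W : ValuationSubring Φ} {A : Subring Φ}
    (hA : IsPt V W A) {t : Φ} (ht : IsPar V W A t) (htt : Transcendental C t) (f : Φ) (hf : f ∈ W) :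
    der htt f ∈ W := by
  obtain ⟨D, hD, hDA⟩ := ht.der
  rw [unw_der htt D hD]
  exact ord_derW hA D hDA f hf

/-- coefficient of a differential -/
private noncomputable def cf {t : Φ} (ht : Transcendental C t) (ω : Ω[Φ⁄C]) : Φ :=
  (kaehlerEquiv ht).symm ω

omit [IsAlgClosed C] in
private theorem cf_smul_D {t : Φ} (ht : Transcendental C t) (ω : Ω[Φ⁄C]) :
    cf ht ω • KaehlerDifferential.D C Φ t = ω := by
  unfold cf
  rw [← kaehlerEquiv_apply ht]
  exact (kaehlerEquiv ht).apply_symm_apply ω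

omit [IsAlgClosed C] in
private theorem cf_eq {t : Φ} (ht : Transcendental C t) {ω : Ω[Φ⁄C]} {u : Φ}
    (h : u • KaehlerDifferential.D C Φ t = ω) : cf ht ω = u := by
  unfold cf
  rw [LinearEquiv.symm_apply_eq, kaehlerEquiv_apply, h]

omit [IsAlgClosed C] in
private theorem cf_smul {t : Φ} (ht : Transcendental C t) (g : Φ) (ω : Ω[Φ⁄C]) :
    cf ht (g • ω) = g * cf ht ω := by
  unfold cf
  rw [map_smul, smul_eq_mul]

omit [IsAlgClosed C] in
private theorem cf_change {t s : Φ} (ht : Transcendental C t) (hs : Transcendental C s)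
    (ω : Ω[Φ⁄C]) : cf ht ω = cf hs ω * der ht s := by
  apply cf_eq
  rw [mul_smul, ← D_eq_der_smul ht s, cf_smul_D]

/-- the step (*) -/
private theorem unw_step {V : ValuationSubring C} {W W' : ValuationSubring Φ}
    {pts pts' : Set (Subring Φ)} (hV : Rk1 V) (h : IsMdl V W pts) (h' : IsMdl V W' pts')
    (hne : W' ≠ W) (ω : Ω[Φ⁄C]) (hreg : ∀ R : Place C Φ, 0 ≤ R.ordDiff ω)
    (hint : ∀ A ∈ pts, ∀ t, IsPar V W A t → ∀ ht : Transcendental C t, cf ht ω ∈ W) :
    ∃ γ ∈ V.nonunits, γ ≠ 0 ∧ ∀ A ∈ pts', ∀ t, IsPar V W' A t → ∀ ht : Transcendental C t,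
      cf ht ω / algebraMap C Φ γ ∈ W' := by
  obtain ⟨A, hA, hdom⟩ := h.centre W' h'.base hne
  obtain ⟨t, ht⟩ := (h.pt A hA).par
  have htt := tun_trans h hA ht
  have ht0 : t ≠ 0 := by
    rintro rfl
    exact htt (isAlgebraic_zero)
  set u := cf htt ω with hu
  have huA : u ∈ A := by
    apply dfr hV h hA ht u (hint A hA t ht htt)
    intro R _
    rw [hu, cf_smul_D]
    exact hreg R
  have huW' : u ∈ W' := hdom.1 u huA
  have htW' : t ∈ W'.nonunits := hdom.2 t ht.mem
  obtain ⟨c, hc0, hc1, hc2⟩ := h'.scale t ht0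
  have hcΦ : algebraMap C Φ c ≠ 0 := by simpa using hc0
  have hcn : algebraMap C Φ c ∈ W'.nonunits := by
    rw [ValuationSubring.mem_nonunits_iff] at htW' ⊢
    have h1 : algebraMap C Φ c = t * (algebraMap C Φ c / t) := by field_simp
    rw [h1, map_mul]
    have h2 : W'.valuation (algebraMap C Φ c / t) ≤ 1 := (W'.valuation_le_one_iff _).2 hc2
    exact mul_lt_one_of_lt_of_le htW' h2
  have hcV : c ∈ V.nonunits := by
    rw [ValuationSubring.mem_nonunits_iff_or] at hcn ⊢
    right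
    intro h4
    rcases hcn with h5 | h5
    · exact hcΦ h5
    · exact h5 (by rw [← map_inv₀]; exact (h'.base _).2 h4)
  refine ⟨c, hcV, hc0, ?_⟩
  intro A' hA' t' ht' htt'
  have h3 : cf htt' ω / algebraMap C Φ c = u * der htt' (t / algebraMap C Φ c) := by
    rw [cf_change htt' htt ω, ← hu, mul_div_assoc]
    congr 1
    have : t / algebraMap C Φ c = (c⁻¹ : C) • t := by
      rw [Algebra.smul_def, map_inv₀]
      field_simp
    rw [this, Derivation.map_smul, Algebra.smul_def, map_inv₀]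
    field_simp
  rw [h3]
  exact W'.mul_mem _ _ huW' (unw_derW (h'.pt A' hA') ht' htt' _ hc1)

/-- all coefficients are W-proportional -/
private theorem unw_prop {V : ValuationSubring C} {W : ValuationSubring Φ}
    {pts : Set (Subring Φ)} (h : IsMdl V W pts) (ω : Ω[Φ⁄C]) {A B : Subring Φ} (hA : A ∈ pts)
    (hB : B ∈ pts) {t s : Φ} (ht : IsPar V W A t) (hs : IsPar V W B s) (htt : Transcendental C t)
    (hss : Transcendental C s) : ∃ x ∈ W, cf htt ω = cf hss ω * x :=
  ⟨der htt s, unw_derW (h.pt A hA) ht htt s ((h.pt B hB).le s hs.mem.1), cf_change htt hss ω⟩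

/-- normalisation: after scaling, all coefficients are in W and one is a unit -/
private theorem unw_norm {V : ValuationSubring C} {W : ValuationSubring Φ}
    {pts : Set (Subring Φ)} (hV : Rk1 V) (h : IsMdl V W pts) (ω : Ω[Φ⁄C]) (hω : ω ≠ 0) :
    ∃ c : C, c ≠ 0 ∧ (∀ A ∈ pts, ∀ t, IsPar V W A t → ∀ ht : Transcendental C t,
      cf ht ω / algebraMap C Φ c ∈ W) ∧ ∃ A ∈ pts, ∃ t, ∃ ht : Transcendental C t,
        IsPar V W A t ∧ algebraMap C Φ c / cf ht ω ∈ W := by
  obtain ⟨R⟩ := unw_place (C := C) (Φ := Φ)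
  obtain ⟨A, hA, _⟩ := spc_exists hV h R
  obtain ⟨t, ht⟩ := (h.pt A hA).par
  have htt := tun_trans h hA ht
  have hu0 : cf htt ω ≠ 0 := by
    intro h0
    have := cf_smul_D htt ω
    rw [h0, zero_smul] at this
    exact hω this.symm
  obtain ⟨c, hc0, hc1, hc2⟩ := h.scale _ hu0
  refine ⟨c, hc0, ?_, A, hA, t, htt, ht, hc2⟩
  intro B hB s hs hss
  obtain ⟨x, hx, hxe⟩ := unw_prop h ω hB hA hs ht hss htt
  rw [hxe, mul_div_right_comm]
  exact W.mul_mem _ _ hc1 hx

private theorem ordDiff_const (R : Place C Φ) {ω : Ω[Φ⁄C]} (hω : ω ≠ 0) {c : C} (hc : c ≠ 0) :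
    R.ordDiff (algebraMap C Φ c • ω) = R.ordDiff ω := by
  rw [R.ordDiff_smul (by simpa using hc) hω, R.ord_algebraMap, zero_add]

theorem unw {V : ValuationSubring C} {W W' : ValuationSubring Φ} {pts pts' : Set (Subring Φ)}
    (hV : Rk1 V) (h : IsMdl V W pts) (h' : IsMdl V W' pts') (hg : PosGenus C Φ) : W = W' := by
  by_contra hne
  obtain ⟨ω, hω, hreg⟩ := hg
  -- first model
  obtain ⟨c, hc0, hc1, A, hA, t, htt, ht, hc2⟩ := unw_norm hV h ω hω
  have hcΦ : algebraMap C Φ c ≠ 0 := by simpa using hc0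
  set ω₁ : Ω[Φ⁄C] := algebraMap C Φ c⁻¹ • ω with hω₁
  have hω₁0 : ω₁ ≠ 0 := by
    rw [hω₁]
    exact smul_ne_zero (by simpa using hc0) hω
  have hreg₁ : ∀ R : Place C Φ, 0 ≤ R.ordDiff ω₁ := by
    intro R
    rw [hω₁, ordDiff_const R hω (inv_ne_zero hc0)]
    exact hreg R
  have hcf₁ : ∀ {t : Φ} (ht : Transcendental C t), cf ht ω₁ = cf ht ω / algebraMap C Φ c := by
    intro t ht
    rw [hω₁, cf_smul, map_inv₀]
    field_simp
  obtain ⟨γ, hγ, hγ0, hγ1⟩ := unw_step hV h h' (Ne.symm hne) ω₁ hreg₁ (by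
    intro A hA t ht htt
    rw [hcf₁]
    exact hc1 A hA t ht htt)
  have hγΦ : algebraMap C Φ γ ≠ 0 := by simpa using hγ0
  -- second model
  obtain ⟨c', hc'0, hc'1, A', hA', t', htt', ht', hc'2⟩ := unw_norm hV h' ω₁ hω₁0
  have hc'Φ : algebraMap C Φ c' ≠ 0 := by simpa using hc'0
  have hv0 : cf htt' ω₁ ≠ 0 := by
    intro h0
    have := cf_smul_D htt' ω₁
    rw [h0, zero_smul] at this
    exact hω₁0 this.symm
  have hc'V : c' / γ ∈ V := by
    rw [← h'.base, map_div₀]
    have : algebraMap C Φ c' / algebraMap C Φ γ =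
        algebraMap C Φ c' / cf htt' ω₁ * (cf htt' ω₁ / algebraMap C Φ γ) := by
      field_simp
    rw [this]
    exact W'.mul_mem _ _ hc'2 (hγ1 A' hA' t' ht' htt')
  set ω₂ : Ω[Φ⁄C] := algebraMap C Φ c'⁻¹ • ω₁ with hω₂
  have hreg₂ : ∀ R : Place C Φ, 0 ≤ R.ordDiff ω₂ := by
    intro R
    rw [hω₂, ordDiff_const R hω₁0 (inv_ne_zero hc'0)]
    exact hreg₁ R
  have hcf₂ : ∀ {t : Φ} (ht : Transcendental C t), cf ht ω₂ = cf ht ω₁ / algebraMap C Φ c' := by
    intro t ht
    rw [hω₂, cf_smul, map_inv₀]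
    field_simp
  obtain ⟨δ, hδ, hδ0, hδ1⟩ := unw_step hV h' h hne ω₂ hreg₂ (by
    intro A hA t ht htt
    rw [hcf₂]
    exact hc'1 A hA t ht htt)
  have hδΦ : algebraMap C Φ δ ≠ 0 := by simpa using hδ0
  have h1 := hδ1 A hA t ht htt
  rw [hcf₂, hcf₁] at h1
  -- c / u * (u / c / c' / δ) = 1 / (c' δ)
  have hu0 : cf htt ω ≠ 0 := by
    intro h0
    have := cf_smul_D htt ω
    rw [h0, zero_smul] at this
    exact hω this.symm
  have h2 : algebraMap C Φ (1 / (c' * δ)) ∈ W := by
    have : algebraMap C Φ (1 / (c' * δ)) = algebraMap C Φ c / cf htt ω *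
        (cf htt ω / algebraMap C Φ c / algebraMap C Φ c' / algebraMap C Φ δ) := by
      rw [map_div₀, map_mul, map_one]
      field_simp
    rw [this]
    exact W.mul_mem _ _ hc2 h1
  rw [h.base] at h2
  have h3 : δ * γ * (c' / γ) * (1 / (c' * δ)) = 1 := by
    field_simp
  have h4 := (V.mem_nonunits_iff).1 hδ
  have h5 := (V.mem_nonunits_iff).1 hγ
  have h6 : V.valuation (δ * γ * (c' / γ) * (1 / (c' * δ))) < 1 := by
    rw [map_mul, map_mul, map_mul]
    have h7 : V.valuation (c' / γ) ≤ 1 := (V.valuation_le_one_iff _).2 hc'V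
    have h8 : V.valuation (1 / (c' * δ)) ≤ 1 := (V.valuation_le_one_iff _).2 h2
    exact mul_lt_one_of_lt_of_le (mul_lt_one_of_lt_of_le (mul_lt_one_of_lt_of_le h4 h5.le) h7) h8
  rw [h3, map_one] at h6
  exact lt_irrefl _ h6

end Pool.Agent.ESH
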