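import Pool.Agent.ESH.TRP
import Pool.Agent.ESH.UNW
import Pool.Agent.ESH.SWP

/-!
# ESH / INV: automorphisms preserve the model (positive genus)

Proof.  TRP, then UNW: `W.comap σ⁻¹ = W`, then SWP: the two sets of points are equal.
`inv_below`: if `A` is below `P` then `A.comap σ` is below `plMap σ⁻¹ ... P`; here stated for `C`-automorphisms:
if `γ` fixes the place `P` and `A ∈ pts` is below `P`, then `γ` preserves `A` (`spc_unique`).
-/

namespace Pool.Agent.ESH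

open Pool.Agent.Helper11

variable {C Φ : Type*} [Field C] [Field Φ] [Algebra C Φ] [FunField C Φ] [CharZero C] [IsAlgClosed C]

theorem inv_W {V : ValuationSubring C} {W : ValuationSubring Φ} {pts : Set (Subring Φ)}
    (hV : Rk1 V) (h : IsMdl V W pts) (hg : PosGenus C Φ) (σ : Φ ≃+* Φ) (s : C ≃+* C)
    (hs : ∀ c : C, σ (algebraMap C Φ c) = algebraMap C Φ (s c)) (hsV : ∀ c : C, s c ∈ V ↔ c ∈ V)
    (f : Φ) : σ f ∈ W ↔ f ∈ W := by
  have h1 : W = W.comap (σ.symm : Φ →+* Φ) := unw hV h (trp h σ s hs hsV) hg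
  have h2 : σ f ∈ W ↔ σ f ∈ W.comap (σ.symm : Φ →+* Φ) := by rw [← h1]
  rw [h2, ValuationSubring.mem_comap]
  simp

theorem inv_pts {V : ValuationSubring C} {W : ValuationSubring Φ} {pts : Set (Subring Φ)}
    (hV : Rk1 V) (h : IsMdl V W pts) (hg : PosGenus C Φ) (σ : Φ ≃+* Φ) (s : C ≃+* C)
    (hs : ∀ c : C, σ (algebraMap C Φ c) = algebraMap C Φ (s c)) (hsV : ∀ c : C, s c ∈ V ↔ c ∈ V)
    (A : Subring Φ) : A.comap (σ : Φ →+* Φ) ∈ pts ↔ A ∈ pts := by
  have h0 := trp h σ s hs hsV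
  have h1 : W = W.comap (σ.symm : Φ →+* Φ) := unw hV h h0 hg
  rw [← h1] at h0
  have h2 : pts = {A : Subring Φ | A.comap (σ : Φ →+* Φ) ∈ pts} := swp hV h h0
  have h3 : A ∈ pts ↔ A ∈ {A : Subring Φ | A.comap (σ : Φ →+* Φ) ∈ pts} := by rw [← h2]
  exact h3.symm

theorem inv_fix {V : ValuationSubring C} {W : ValuationSubring Φ} {pts : Set (Subring Φ)}
    (hV : Rk1 V) (h : IsMdl V W pts) (hg : PosGenus C Φ) (γ : Φ ≃ₐ[C] Φ) (P : Place C Φ)
    (hP : Fixes γ P) {A : Subring Φ} (hA : A ∈ pts) (hAP : Below A P) :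
    PresA (γ : Φ ≃+* Φ) A := by
  have hs : ∀ c : C, (γ : Φ ≃+* Φ) (algebraMap C Φ c) = algebraMap C Φ (RingEquiv.refl C c) := by
    intro c
    exact γ.commutes c
  have h1 : A.comap ((γ : Φ ≃+* Φ) : Φ →+* Φ) ∈ pts :=
    (inv_pts hV h hg (γ : Φ ≃+* Φ) (RingEquiv.refl C) hs (fun c => Iff.rfl) A).2 hA
  have h2 : Below (A.comap ((γ : Φ ≃+* Φ) : Φ →+* Φ)) P := by
    intro a ha
    have h3 : γ a ∈ A := ha
    have h4 := hAP _ h3
    rw [Place.mem_ge] at h4 ⊢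
    rw [hP a] at h4
    rcases h4 with h4 | h4
    · left
      simpa using h4
    · exact Or.inr h4
  have h5 := spc_unique hV h P h1 hA h2 hAP
  intro f
  have h6 : f ∈ A.comap ((γ : Φ ≃+* Φ) : Φ →+* Φ) ↔ f ∈ A := by rw [h5]
  exact h6

end Pool.Agent.ESH
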