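import Pool.Agent.ESH.DefsB
import Pool.Agent.Helper11.FunFieldBasic

/-!
# ESH / LFT: lifting automorphisms of the constants

The `C`-span `E` of `F` in `Φ` is isomorphic to `C ⊗ F` (`disj`: a `K`-basis of `F` is a `C`-basis of `E`).  `s ⊗ id` is a ring automorphism of
`E` (multiplicative: check on products `c f`), with inverse `s⁻¹ ⊗ id`; `Φ` is the fraction field of `E` (`gen`), so it extends uniquely.
`lft_mul`: uniqueness.
`ffc`: `Φ` is essentially of finite type over `C` (generated as a field by generators of `F/K`); if `τ ∈ F` is transcendental over `K` its powers are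
linearly independent over `K`, so over `C` (`disj`), so `τ` is transcendental over `C`; `Φ` is algebraic over `C(τ)`, as
`F` is algebraic over `K(τ)`.
-/

namespace Pool.Agent.ESH

open Pool.Agent.Helper11
open scoped TensorProduct

section

variable (K F C Φ : Type*) [Field K] [Field F] [Field C] [Field Φ] [Algebra K F] [Algebra K C]
  [Algebra F Φ] [Algebra C Φ]

/-- `Φ` as a `K`-algebra -/
abbrev lftAlg : Algebra K Φ := ((algebraMap F Φ).comp (algebraMap K F)).toAlgebra

end

section

variable {K F C Φ : Type*} [Field K] [Field F] [Field C] [Field Φ] [Algebra K F] [Algebra K C]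
  [Algebra F Φ] [Algebra C Φ] [Algebra K Φ] [IsScalarTower K F Φ] [IsScalarTower K C Φ]

/-- the product map -/
noncomputable def lftMu : C ⊗[K] F →ₐ[C] Φ :=
  Algebra.TensorProduct.lift (Algebra.ofId C Φ) (IsScalarTower.toAlgHom K F Φ) (fun _ _ => Commute.all _ _)

theorem lftMu_tmul (c : C) (f : F) : (lftMu (c ⊗ₜ[K] f) : Φ) = algebraMap C Φ c * algebraMap F Φ f := by
  unfold lftMu
  rw [Algebra.TensorProduct.lift_tmul]
  rfl

theorem lftMu_inj (h : Cmps K F C Φ) : Function.Injective (lftMu : C ⊗[K] F →ₐ[C] Φ) := by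
  classical
  rw [injective_iff_map_eq_zero]
  intro z hz
  let b := Module.Basis.ofVectorSpace K F
  let b' := Algebra.TensorProduct.basis C b
  have hb' : ∀ i, (lftMu (b' i) : Φ) = algebraMap F Φ (b i) := by
    intro i
    rw [Algebra.TensorProduct.basis_apply, lftMu_tmul, map_one, one_mul]
  -- finite subfamilies
  have hlin : LinearIndependent C (fun i => algebraMap F Φ (b i)) := by
    rw [linearIndependent_iff_finset_linearIndependent]
    intro s
    let e := s.equivFin
    have h1 := h.disj s.card (fun i => b (e.symm i)) (b.linearIndependent.comp _ (by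
      intro i j hij
      exact e.symm.injective (Subtype.ext hij)))
    have h2 := h1.comp e e.injective
    convert h2 using 1
    ext i
    simp
  have h3 : (b'.repr z).sum (fun i c => c • algebraMap F Φ (b i)) = 0 := by
    rw [← hz]
    conv_rhs => rw [← b'.linearCombination_repr z]
    rw [Finsupp.linearCombination_apply, Finsupp.sum, Finsupp.sum, map_sum]
    apply Finset.sum_congr rfl
    intro i _
    rw [map_smul, hb']
  have h4 : b'.repr z = 0 := by
    rw [linearIndependent_iff] at hlin
    exact hlin _ h3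
  exact b'.repr.map_eq_zero_iff.1 h4

theorem lft_frac (h : Cmps K F C Φ) : @IsFractionRing (C ⊗[K] F) _ Φ _ (lftMu : C ⊗[K] F →ₐ[C] Φ).toRingHom.toAlgebra := by
  let _ : Algebra (C ⊗[K] F) Φ := (lftMu : C ⊗[K] F →ₐ[C] Φ).toRingHom.toAlgebra
  have hf : FaithfulSMul (C ⊗[K] F) Φ := by
    rw [faithfulSMul_iff_algebraMap_injective]
    exact lftMu_inj h
  apply IsFractionRing.of_field
  intro z
  obtain ⟨a, ha, b, hb, hb0, hab⟩ := h.gen z
  have hr : ∀ y ∈ Submodule.span C (Set.range (algebraMap F Φ)), ∃ x : C ⊗[K] F, lftMu x = y := by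
    intro y hy
    have : Submodule.span C (Set.range (algebraMap F Φ)) ≤
        LinearMap.range (lftMu : C ⊗[K] F →ₐ[C] Φ).toLinearMap := by
      rw [Submodule.span_le]
      rintro _ ⟨f, rfl⟩
      exact ⟨(1 : C) ⊗ₜ[K] f, by
        change lftMu ((1 : C) ⊗ₜ[K] f) = _
        rw [lftMu_tmul, map_one, one_mul]⟩
    exact this hy
  obtain ⟨x, hx⟩ := hr a ha
  obtain ⟨y, hy⟩ := hr b hb
  refine ⟨x, y, ?_⟩
  change z = lftMu x / lftMu y
  rw [hx, hy, eq_div_iff hb0, hab]

end

variable {K F C Φ : Type*} [Field K] [Field F] [Field C] [Field Φ] [Algebra K F] [Algebra K C]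
  [Algebra F Φ] [Algebra C Φ]

theorem lft (h : Cmps K F C Φ) (s : C ≃ₐ[K] C) :
    ∃ σ : Φ ≃+* Φ, (∀ c : C, σ (algebraMap C Φ c) = algebraMap C Φ (s c)) ∧
      ∀ f : F, σ (algebraMap F Φ f) = algebraMap F Φ f := by
  let _ : Algebra K Φ := ((algebraMap F Φ).comp (algebraMap K F)).toAlgebra
  have h1 : IsScalarTower K F Φ := IsScalarTower.of_algebraMap_eq (fun _ => rfl)
  have h2 : IsScalarTower K C Φ := IsScalarTower.of_algebraMap_eq (fun x => h.comm x)
  let _ : Algebra (C ⊗[K] F) Φ := (lftMu : C ⊗[K] F →ₐ[C] Φ).toRingHom.toAlgebra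
  have h3 : IsFractionRing (C ⊗[K] F) Φ := lft_frac h
  let S : C ⊗[K] F ≃ₐ[K] C ⊗[K] F := Algebra.TensorProduct.congr s AlgEquiv.refl
  have hS : ∀ (c : C) (f : F), S (c ⊗ₜ f) = s c ⊗ₜ f := fun c f => by
    simp [S]
  refine ⟨IsFractionRing.ringEquivOfRingEquiv S.toRingEquiv, ?_, ?_⟩
  · intro c
    have e1 : algebraMap C Φ c = algebraMap (C ⊗[K] F) Φ (c ⊗ₜ 1) := by
      change _ = lftMu (c ⊗ₜ[K] (1 : F))
      rw [lftMu_tmul, map_one, mul_one]
    rw [e1, IsFractionRing.ringEquivOfRingEquiv_algebraMap]
    change lftMu (S (c ⊗ₜ 1)) = _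
    rw [hS, lftMu_tmul, map_one, mul_one]
  · intro f
    have e1 : algebraMap F Φ f = algebraMap (C ⊗[K] F) Φ (1 ⊗ₜ f) := by
      change _ = lftMu ((1 : C) ⊗ₜ[K] f)
      rw [lftMu_tmul, map_one, one_mul]
    rw [e1, IsFractionRing.ringEquivOfRingEquiv_algebraMap]
    change lftMu (S (1 ⊗ₜ f)) = lftMu ((1 : C) ⊗ₜ[K] f)
    rw [hS, map_one]

/-- transcendental elements stay transcendental -/
theorem ffc_tr (h : Cmps K F C Φ) {τ : F} (hτ : Transcendental K τ) :
    Transcendental C (algebraMap F Φ τ) := by
  intro halg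
  obtain ⟨p, hp0, hp⟩ := halg
  set n := p.natDegree + 1 with hn
  have h1 : LinearIndependent K (fun i : Fin n => τ ^ (i : ℕ)) := by
    rw [Fintype.linearIndependent_iff]
    intro g hg i
    by_contra hi
    apply hτ
    refine ⟨∑ j : Fin n, Polynomial.monomial (j : ℕ) (g j), ?_, ?_⟩
    · intro hz
      apply hi
      have h2 := congrArg (fun q => Polynomial.coeff q (i : ℕ)) hz
      simp only [Polynomial.finsetSum_coeff, Polynomial.coeff_monomial, Polynomial.coeff_zero] at h2
      rw [Finset.sum_eq_single i] at h2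
      · simpa using h2
      · intro j _ hj
        rw [if_neg]
        intro hji
        exact hj (Fin.ext hji)
      · intro h3
        exact absurd (Finset.mem_univ i) h3
    · rw [map_sum, ← hg]
      apply Finset.sum_congr rfl
      intro j _
      rw [Polynomial.aeval_monomial, Algebra.smul_def]
  have h2 := h.disj n _ h1
  rw [Fintype.linearIndependent_iff] at h2
  have h3 := h2 (fun i => p.coeff i) (by
    rw [Polynomial.aeval_eq_sum_range, Finset.sum_range] at hp
    rw [← hp]
    apply Finset.sum_congr rfl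
    intro i _
    rw [map_pow])
  apply hp0
  ext i
  rw [Polynomial.coeff_zero]
  by_cases hi : i < n
  · exact h3 ⟨i, hi⟩
  · exact Polynomial.coeff_eq_zero_of_natDegree_lt (by omega)

theorem ffc (h : Cmps K F C Φ) [FunField K F] : FunField C Φ := by
  let _ : Algebra K Φ := ((algebraMap F Φ).comp (algebraMap K F)).toAlgebra
  have h1 : IsScalarTower K F Φ := IsScalarTower.of_algebraMap_eq (fun _ => rfl)
  have h2 : IsScalarTower K C Φ := IsScalarTower.of_algebraMap_eq (fun x => h.comm x)
  refine ⟨?_, ?_⟩
  · let _ : Algebra (C ⊗[K] F) Φ := (lftMu : C ⊗[K] F →ₐ[C] Φ).toRingHom.toAlgebra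
    have h3 : IsFractionRing (C ⊗[K] F) Φ := lft_frac h
    have h4 : IsScalarTower C (C ⊗[K] F) Φ := IsScalarTower.of_algebraMap_eq (fun c => by
      change _ = lftMu (algebraMap C (C ⊗[K] F) c)
      rw [AlgHom.commutes])
    have h5 : Algebra.EssFiniteType K F := FunField.fg
    have h6 : Algebra.EssFiniteType C (C ⊗[K] F) := inferInstance
    have h7 : Algebra.EssFiniteType (C ⊗[K] F) Φ :=
      Algebra.EssFiniteType.of_isLocalization Φ (nonZeroDivisors (C ⊗[K] F))
    exact Algebra.EssFiniteType.comp C (C ⊗[K] F) Φ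
  · obtain ⟨τ, hτ⟩ := FunField.exists_transcendental (k := K) (L := F)
    have ha : AlgebraicIndependent K (fun _ : Unit => τ) := by
      rwa [algebraicIndependent_unique_type_iff]
    have hb : IsTranscendenceBasis K (fun _ : Unit => τ) := by
      apply ha.isTranscendenceBasis_of_lift_trdeg_le_of_finite
      rw [FunField.trdeg (k := K) (L := F)]
      simp
    have hc := ha.isTranscendenceBasis_iff_isAlgebraic.1 hb
    have ha' : AlgebraicIndependent C (fun _ : Unit => algebraMap F Φ τ) := by
      rw [algebraicIndependent_unique_type_iff]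
      exact ffc_tr h hτ
    have hb' : IsTranscendenceBasis C (fun _ : Unit => algebraMap F Φ τ) := by
      rw [ha'.isTranscendenceBasis_iff_isAlgebraic]
      set S := Algebra.adjoin C (Set.range fun _ : Unit => algebraMap F Φ τ) with hS
      set R := Algebra.adjoin K (Set.range fun _ : Unit => τ) with hR
      have hmap : ∀ x ∈ R, algebraMap F Φ x ∈ S := by
        intro x hx
        induction hx using Algebra.adjoin_induction with
        | mem x hx =>
          obtain ⟨_, rfl⟩ := hx
          exact Algebra.subset_adjoin ⟨(), rfl⟩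
        | algebraMap r =>
          rw [h.comm]
          exact Subalgebra.algebraMap_mem S _
        | add x y _ _ hx hy => rw [map_add]; exact S.add_mem hx hy
        | mul x y _ _ hx hy => rw [map_mul]; exact S.mul_mem hx hy
      let φ : R →+* S := (algebraMap F Φ).restrict R S hmap
      have hφ : Function.Injective φ := by
        intro x y hxy
        have h5 : algebraMap F Φ x = algebraMap F Φ y := congrArg Subtype.val hxy
        exact Subtype.ext ((algebraMap F Φ).injective h5)
      have hF : ∀ f : F, IsAlgebraic S (algebraMap F Φ f) := by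
        intro f
        exact (hc.isAlgebraic f).ringHom_of_comp_eq φ (algebraMap F Φ) hφ (by
          ext x
          rfl)
      have hspan : ∀ y ∈ Submodule.span C (Set.range (algebraMap F Φ)), IsAlgebraic S y := by
        intro y hy
        induction hy using Submodule.span_induction with
        | mem x hx => obtain ⟨f, rfl⟩ := hx; exact hF f
        | zero => exact isAlgebraic_zero
        | add x y _ _ hx hy => exact hx.add hy
        | smul c x _ hx =>
          rw [Algebra.smul_def, IsScalarTower.algebraMap_apply C S Φ]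
          exact (isAlgebraic_algebraMap _).mul hx
      refine ⟨fun z => ?_⟩
      obtain ⟨a, ha, b, hb, hb0, hab⟩ := h.gen z
      have : z = a * b⁻¹ := by rw [← hab, mul_inv_cancel_right₀ hb0]
      rw [this]
      exact (hspan a ha).mul (hspan b hb).inv
    have hd := hb'.lift_cardinalMk_eq_trdeg
    simpa using hd.symm

end Pool.Agent.ESH
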