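import Pool.Agent.ESH.EIG
import Pool.Agent.ESH.CMP

/-!
# ESH / STC: tame stabilisers of points of the special fibre are commutative

Proof.  Let `t` be a parameter of `A`.  For `h ∈ H`, `h t` is a non-unit of `A` (`h` preserves `A`) and a unit of `W`; by `dvr`
(and `gen`) `h t - t u_h ∈ W.nonunits` with `u_h` a unit of `A`: `dvr` gives `h t ≡ t^n u`, `n ≥ 1`; and `n = 1` because
the same applied to `h⁻¹` gives `t ≡ (h⁻¹... )`: `t = h⁻¹(h t) ≡ (h⁻¹ t)^n h⁻¹(u) ≡ (t^m v)^n (unit)`, so `n m = 1`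
(residues in the discrete valuation ring of CMP; `t^a ≡ t^b unit` implies `a = b`, since `t` is not a unit).
Let `χ(h)` be the residue of `u_h` in `A/(non-units) = V/(non-units of V)` (`res`).  `χ(g h) = χ(g) χ(h)`, because
elements of `H` act trivially on the residue field of `A` (`a = c + non-unit`, `c ∈ V`).
Let `c = g h g⁻¹ h⁻¹`, so `χ(c) = 1`, and suppose `c ≠ 1`; `c ^ card H = 1`.  EIG: `ζ ≠ 1`, `f ≠ 0`, `c f = ζ f`, and we may assume
that `f` is a unit of `W`.  Replacing `f` by `f⁻¹` if needed (then `ζ` by `ζ⁻¹`), by the proof of CMP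
`f ≡ t^m y` modulo `W.nonunits` with `m ≥ 0` and `y` a unit of `A`.  Then `ζ t^m y ≡ c(f) ≡ (t u_c)^m c(y)`, so modulo
`W.nonunits`, `ζ y ≡ u_c^m c(y)` (`t` is a unit of `W`), an identity between elements of `A`, so it holds modulo the
non-units of `A` (elements of `A ∩ W.nonunits` are non-units of `A`): `ζ ȳ = χ(c)^m ȳ = ȳ` in the residue field, `ȳ ≠ 0`, so
`ζ - 1` is a non-unit of `V`, contradicting `eig_unit`.
-/

namespace Pool.Agent.ESH

open Pool.Agent.Helper11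

variable {C Φ : Type*} [Field C] [Field Φ] [Algebra C Φ] [FunField C Φ] [CharZero C] [IsAlgClosed C]

private lemma STC_add {W : ValuationSubring Φ} {x y : Φ} (hx : x ∈ W.nonunits)
    (hy : y ∈ W.nonunits) : x + y ∈ W.nonunits := by
  rw [ValuationSubring.mem_nonunits_iff] at hx hy ⊢
  exact W.valuation.map_add_lt hx hy

private lemma STC_neg {W : ValuationSubring Φ} {x : Φ} (hx : x ∈ W.nonunits) :
    -x ∈ W.nonunits := by
  rw [ValuationSubring.mem_nonunits_iff] at hx ⊢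
  rwa [Valuation.map_neg]

private lemma STC_mul {W : ValuationSubring Φ} {x y : Φ} (hx : x ∈ W.nonunits)
    (hy : y ∈ W) : x * y ∈ W.nonunits := by
  rw [ValuationSubring.mem_nonunits_iff] at hx ⊢
  rw [← W.valuation_le_one_iff] at hy
  rw [map_mul]
  exact mul_lt_one_of_lt_of_le hx hy

private lemma STC_cmul {W : ValuationSubring Φ} {x x' y y' : Φ} (hx : x ∈ W) (hy' : y' ∈ W)
    (h1 : x - x' ∈ W.nonunits) (h2 : y - y' ∈ W.nonunits) : x * y - x' * y' ∈ W.nonunits := by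
  have : x * y - x' * y' = (y - y') * x + (x - x') * y' := by ring
  rw [this]
  exact STC_add (STC_mul h2 hx) (STC_mul h1 hy')

private lemma STC_cpow {W : ValuationSubring Φ} {x x' : Φ} (hx : x ∈ W) (hx' : x' ∈ W)
    (h1 : x - x' ∈ W.nonunits) (n : ℕ) : x ^ n - x' ^ n ∈ W.nonunits := by
  induction n with
  | zero => rw [pow_zero, pow_zero, sub_self, ValuationSubring.mem_nonunits_iff, map_zero]
            exact zero_lt_one
  | succ n ih =>
    rw [pow_succ, pow_succ]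
    exact STC_cmul (pow_mem hx n) hx' ih h1

private lemma STC_trans {W : ValuationSubring Φ} {x y z : Φ}
    (h1 : x - y ∈ W.nonunits) (h2 : y - z ∈ W.nonunits) : x - z ∈ W.nonunits := by
  have := STC_add h1 h2
  rwa [sub_add_sub_cancel] at this

private lemma STC_symm {W : ValuationSubring Φ} {x y : Φ}
    (h1 : x - y ∈ W.nonunits) : y - x ∈ W.nonunits := by
  have := STC_neg h1
  rwa [neg_sub] at this

private lemma STC_refl {W : ValuationSubring Φ} (x : Φ) : x - x ∈ W.nonunits := by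
  rw [sub_self, ValuationSubring.mem_nonunits_iff, map_zero]
  exact zero_lt_one

private lemma STC_nu_neg {A : Subring Φ} {a : Φ} (h : NU A a) : NU A (-a) := by
  refine ⟨A.neg_mem h.1, ?_⟩
  rcases h.2 with h2 | h2
  · left; rw [h2, neg_zero]
  · right
    intro h3
    apply h2
    have := A.neg_mem h3
    rwa [inv_neg, neg_neg] at this

private lemma STC_nu_mul {A : Subring Φ} {a b : Φ} (h : NU A a) (hb : b ∈ A) : NU A (a * b) := by
  refine ⟨A.mul_mem h.1 hb, ?_⟩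
  by_cases h0 : a * b = 0
  · exact Or.inl h0
  · right
    intro h3
    have ha0 : a ≠ 0 := left_ne_zero_of_mul h0
    have hb0 : b ≠ 0 := right_ne_zero_of_mul h0
    rcases h.2 with h2 | h2
    · exact ha0 h2
    · apply h2
      have := A.mul_mem hb h3
      rwa [mul_inv_rev, ← mul_assoc, mul_inv_cancel₀ hb0, one_mul] at this

/-- an element of `A` in `W.nonunits` is a non-unit of `A` -/
private lemma STC_nu {V : ValuationSubring C} {W : ValuationSubring Φ} {A : Subring Φ}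
    (hA : IsPt V W A) {a : Φ} (ha : a ∈ A) (haW : a ∈ W.nonunits) : NU A a := by
  refine ⟨ha, ?_⟩
  by_contra hcon
  push Not at hcon
  have h1 := hA.le _ hcon.2
  rw [ValuationSubring.mem_nonunits_iff] at haW
  rw [← W.valuation_le_one_iff, map_inv₀] at h1
  have hpos : (0 : W.ValueGroup) < W.valuation a := zero_lt_iff.2 (by
    intro h0'
    exact hcon.1 ((W.valuation.zero_iff).1 h0'))
  exact absurd h1 (not_le.2 ((one_lt_inv₀ hpos).2 haW))

private def STC_U (A : Subring Φ) (a : Φ) : Prop := a ∈ A ∧ a ≠ 0 ∧ a⁻¹ ∈ A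

private lemma STC_U_mul {A : Subring Φ} {a b : Φ} (ha : STC_U A a) (hb : STC_U A b) :
    STC_U A (a * b) := by
  refine ⟨A.mul_mem ha.1 hb.1, mul_ne_zero ha.2.1 hb.2.1, ?_⟩
  rw [mul_inv]
  exact A.mul_mem ha.2.2 hb.2.2

private lemma STC_U_pow {A : Subring Φ} {a : Φ} (ha : STC_U A a) (n : ℕ) :
    STC_U A (a ^ n) := by
  refine ⟨A.pow_mem ha.1 n, pow_ne_zero n ha.2.1, ?_⟩
  rw [← inv_pow]
  exact A.pow_mem ha.2.2 n

private lemma STC_U_nu {A : Subring Φ} {a : Φ} (ha : STC_U A a) : ¬ NU A a := by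
  rintro ⟨_, h2 | h2⟩
  · exact ha.2.1 h2
  · exact h2 ha.2.2

private lemma STC_one_nu {A : Subring Φ} : ¬ NU A (1 : Φ) :=
  STC_U_nu ⟨A.one_mem, one_ne_zero, by rw [inv_one]; exact A.one_mem⟩

/-- the ideal of non-units of `A` -/
private def STC_I {V : ValuationSubring C} {W : ValuationSubring Φ} {A : Subring Φ}
    (hA : IsPt V W A) : Ideal A where
  carrier := {a | NU A (a : Φ)}
  add_mem' := fun {a b} h1 h2 => hA.add _ _ h1 h2
  zero_mem' := ⟨A.zero_mem, Or.inl rfl⟩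
  smul_mem' := fun c x hx => by
    have h1 : NU A ((x : Φ) * (c : Φ)) := STC_nu_mul hx c.2
    rw [mul_comm] at h1
    exact h1

theorem stc {V : ValuationSubring C} {W : ValuationSubring Φ} {pts : Set (Subring Φ)}
    (h : IsMdl V W pts) {A : Subring Φ} (hA : A ∈ pts) (H : Subgroup (Φ ≃ₐ[C] Φ)) [Finite H]
    (hV : V.valuation (Nat.card H : C) = 1)
    (hH : ∀ g ∈ H, PresA (g : Φ ≃+* Φ) A ∧ Pres (g : Φ ≃+* Φ) W) :
    ∀ g ∈ H, ∀ g' ∈ H, g * g' = g' * g := by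
  have hpt := h.pt A hA
  obtain ⟨t, ht⟩ := hpt.par
  have htA : t ∈ A := ht.mem.1
  have htWm : t ∈ W := hpt.le t htA
  have htW : t ∉ W.nonunits := by
    have := tun h hA ht 0 V.zero_mem
    rwa [map_zero, sub_zero] at this
  have hvt : W.valuation t = 1 := by
    refine le_antisymm ((W.valuation_le_one_iff t).2 htWm) ?_
    rw [ValuationSubring.mem_nonunits_iff, not_lt] at htW
    exact htW
  have hcancel : ∀ (k : ℕ) (x : Φ), t ^ k * x ∈ W.nonunits → x ∈ W.nonunits := by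
    intro k x hx
    rw [ValuationSubring.mem_nonunits_iff] at hx ⊢
    rwa [map_mul, map_pow, hvt, one_pow, one_mul] at hx
  have hgA : ∀ g ∈ H, ∀ f : Φ, g f ∈ A ↔ f ∈ A := fun g hg f => (hH g hg).1 f
  have hgW : ∀ g ∈ H, ∀ f : Φ, g f ∈ W ↔ f ∈ W := fun g hg f => (hH g hg).2 f
  have hgm : ∀ g ∈ H, ∀ f : Φ, f ∈ W.nonunits → g f ∈ W.nonunits := by
    intro g hg f hf
    rw [ValuationSubring.mem_nonunits_iff_or] at hf ⊢
    rcases hf with hf | hf
    · left; rw [hf, map_zero]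
    · right
      rwa [← map_inv₀, hgW g hg]
  have hgN : ∀ g ∈ H, ∀ f : Φ, NU A f → NU A (g f) := by
    intro g hg f hf
    refine ⟨(hgA g hg f).2 hf.1, ?_⟩
    rcases hf.2 with h2 | h2
    · left; rw [h2, map_zero]
    · right
      rwa [← map_inv₀, hgA g hg]
  have hgU : ∀ g ∈ H, ∀ f : Φ, STC_U A f → STC_U A (g f) := by
    intro g hg f hf
    refine ⟨(hgA g hg f).2 hf.1, ?_, ?_⟩
    · simpa using hf.2.1
    · rw [← map_inv₀, hgA g hg]
      exact hf.2.2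
  set r := Ideal.Quotient.mk (STC_I hpt) with hr
  have hreq : ∀ a b : A, r a = r b ↔ NU A ((a : Φ) - b) := by
    intro a b
    rw [hr, Ideal.Quotient.eq]
    exact Iff.rfl
  have hru : ∀ (u : Φ) (hu : STC_U A u), IsUnit (r ⟨u, hu.1⟩) := by
    intro u hu
    refine IsUnit.map r ?_
    refine IsUnit.of_mul_eq_one ⟨u⁻¹, hu.2.2⟩ ?_
    apply Subtype.ext
    exact mul_inv_cancel₀ hu.2.1
  -- trivial action on residues
  have hrg : ∀ g ∈ H, ∀ (a : Φ) (ha : a ∈ A) (ha' : g a ∈ A), r ⟨g a, ha'⟩ = r ⟨a, ha⟩ := by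
    intro g hg a ha ha'
    rw [hreq]
    obtain ⟨c, hc, hca⟩ := hpt.res a ha
    have h1 := hgN g hg _ hca
    rw [map_sub, AlgEquiv.commutes] at h1
    have h2 := hpt.add _ _ h1 (STC_nu_neg hca)
    have h3 : g a - algebraMap C Φ c + -(a - algebraMap C Φ c) = g a - a := by ring
    rwa [h3] at h2
  -- the character
  have hn1 : ∀ g ∈ H, ∀ (n : ℕ) (u : Φ), STC_U A u → g t - t ^ n * u ∈ W.nonunits → n ≠ 0 := by
    rintro g hg n u hu h1 rfl
    rw [pow_zero, one_mul] at h1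
    have h2 : NU A (g t - u) := STC_nu hpt (A.sub_mem ((hgA g hg t).2 htA) hu.1) h1
    have h3 : NU A (g t) := hgN g hg t ht.mem
    have h4 := hpt.add _ _ h3 (STC_nu_neg h2)
    have h5 : g t + -(g t - u) = u := by ring
    rw [h5] at h4
    exact STC_U_nu hu h4
  have hdv : ∀ g ∈ H, ∃ (n : ℕ) (u : Φ), STC_U A u ∧ g t - t ^ n * u ∈ W.nonunits := by
    intro g hg
    have h1 : g t ∉ W.nonunits := by
      intro h2
      have h3 := hgm g⁻¹ (H.inv_mem hg) _ h2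
      rw [← AlgEquiv.mul_apply, inv_mul_cancel, AlgEquiv.one_apply] at h3
      exact htW h3
    obtain ⟨n, u, hu1, hu2, hu3, hu4⟩ := ht.dvr (g t) ((hgA g hg t).2 htA) h1
    exact ⟨n, u, ⟨hu1, hu2, hu3⟩, hu4⟩
  have hchi : ∀ g ∈ H, ∃ u : Φ, STC_U A u ∧ g t - t * u ∈ W.nonunits := by
    intro g hg
    obtain ⟨n, u, hu, h1⟩ := hdv g hg
    obtain ⟨m, w, hw, h2⟩ := hdv g⁻¹ (H.inv_mem hg)
    have hn := hn1 g hg n u hu h1
    have hm := hn1 g⁻¹ (H.inv_mem hg) m w hw h2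
    have h3 := hgm g hg _ h2
    rw [map_sub, ← AlgEquiv.mul_apply, mul_inv_cancel, AlgEquiv.one_apply, map_mul, map_pow] at h3
    have hgw := hgU g hg w hw
    have hgt : g t ∈ W := (hgW g hg t).2 htWm
    have htn : t ^ n * u ∈ W := W.mul_mem _ _ (pow_mem htWm n) (hpt.le u hu.1)
    have h4 : g t ^ m * g w - (t ^ n * u) ^ m * g w ∈ W.nonunits :=
      STC_cmul (pow_mem hgt m) (hpt.le _ hgw.1) (STC_cpow hgt htn h1 m) (STC_refl _)
    have h5 := STC_trans h3 h4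
    have h6 : n * m = 1 := by
      by_contra hne
      have hpos : 0 < n * m := Nat.mul_pos (Nat.pos_of_ne_zero hn) (Nat.pos_of_ne_zero hm)
      obtain ⟨k, hk⟩ : ∃ k, n * m = k + 2 := ⟨n * m - 2, by omega⟩
      have h7 : t - (t ^ n * u) ^ m * g w = t ^ 1 * (1 - t * (t ^ k * (u ^ m * g w))) := by
        rw [mul_pow, ← pow_mul, hk]
        ring
      rw [h7] at h5
      have h8 := hcancel 1 _ h5
      have h9 : t ^ k * (u ^ m * g w) ∈ A :=
        A.mul_mem (A.pow_mem htA k) (A.mul_mem (A.pow_mem hu.1 m) hgw.1)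
      have h10 : NU A (t * (t ^ k * (u ^ m * g w))) := STC_nu_mul ht.mem h9
      have h11 : NU A (1 - t * (t ^ k * (u ^ m * g w))) :=
        STC_nu hpt (A.sub_mem A.one_mem h10.1) h8
      have h12 := hpt.add _ _ h11 h10
      rw [sub_add_cancel] at h12
      exact STC_one_nu h12
    have h7 : n = 1 := Nat.eq_one_of_mul_eq_one_right h6
    rw [h7, pow_one] at h1
    exact ⟨u, hu, h1⟩
  have hchim : ∀ g ∈ H, ∀ g' ∈ H, ∀ u w : Φ, STC_U A u → STC_U A w →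
      g t - t * u ∈ W.nonunits → g' t - t * w ∈ W.nonunits →
      (g * g') t - t * (u * g w) ∈ W.nonunits := by
    intro g hg g' hg' u w hu hw h1 h2
    have h3 := hgm g hg _ h2
    rw [map_sub, map_mul, ← AlgEquiv.mul_apply] at h3
    have hgt : g t ∈ W := (hgW g hg t).2 htWm
    have hgw := hgU g hg w hw
    have h4 : g t * g w - t * u * g w ∈ W.nonunits :=
      STC_cmul hgt (hpt.le _ hgw.1) h1 (STC_refl _)
    have h5 := STC_trans h3 h4
    rwa [mul_assoc] at h5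
  have hchiu : ∀ (x : Φ) (u w : Φ) (hu : STC_U A u) (hw : STC_U A w),
      x - t * u ∈ W.nonunits → x - t * w ∈ W.nonunits → r ⟨u, hu.1⟩ = r ⟨w, hw.1⟩ := by
    intro x u w hu hw h1 h2
    rw [hreq]
    have h3 := STC_trans (STC_symm h1) h2
    have h4 : t * u - t * w = t ^ 1 * (u - w) := by ring
    rw [h4] at h3
    exact STC_nu hpt (A.sub_mem hu.1 hw.1) (hcancel 1 _ h3)
  have hone : STC_U A (1 : Φ) := ⟨A.one_mem, one_ne_zero, by rw [inv_one]; exact A.one_mem⟩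
  have hmulr : ∀ (a b : Φ) (ha : a ∈ A) (hb : b ∈ A), r ⟨a * b, A.mul_mem ha hb⟩ =
      r ⟨a, ha⟩ * r ⟨b, hb⟩ := by
    intro a b ha hb
    rw [← map_mul]
    rfl
  have hpowr : ∀ (a : Φ) (ha : a ∈ A) (n : ℕ), r ⟨a ^ n, A.pow_mem ha n⟩ = r ⟨a, ha⟩ ^ n := by
    intro a ha n
    rw [← map_pow]
    rfl
  have hinvr : ∀ g ∈ H, ∀ (u u' : Φ) (hu : STC_U A u) (hu' : STC_U A u'),
      g t - t * u ∈ W.nonunits → g⁻¹ t - t * u' ∈ W.nonunits →
      r ⟨u, hu.1⟩ * r ⟨u', hu'.1⟩ = 1 := by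
    intro g hg u u' hu hu' h1 h2
    have h3 := hchim g hg g⁻¹ (H.inv_mem hg) u u' hu hu' h1 h2
    rw [mul_inv_cancel, AlgEquiv.one_apply] at h3
    have h4 : t - t * 1 ∈ W.nonunits := by rw [mul_one]; exact STC_refl t
    have hgu := hgU g hg u' hu'
    have h5 := hchiu t _ _ (STC_U_mul hu hgu) hone h3 h4
    rw [hmulr u (g u') hu.1 hgu.1, hrg g hg u' hu'.1] at h5
    rw [h5]
    exact map_one r
  intro g hg g' hg'
  by_contra hne
  obtain ⟨u, hu, hu1⟩ := hchi g hg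
  obtain ⟨w, hw, hw1⟩ := hchi g' hg'
  obtain ⟨u', hu', hu1'⟩ := hchi g⁻¹ (H.inv_mem hg)
  obtain ⟨w', hw', hw1'⟩ := hchi g'⁻¹ (H.inv_mem hg')
  have hc1 := hchim g⁻¹ (H.inv_mem hg) g'⁻¹ (H.inv_mem hg') u' w' hu' hw' hu1' hw1'
  have hU1 := STC_U_mul hu' (hgU g⁻¹ (H.inv_mem hg) w' hw')
  have hm1 : g⁻¹ * g'⁻¹ ∈ H := H.mul_mem (H.inv_mem hg) (H.inv_mem hg')
  have hc2 := hchim g' hg' _ hm1 w _ hw hU1 hw1 hc1
  have hU2 := STC_U_mul hw (hgU g' hg' _ hU1)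
  have hm2 : g' * (g⁻¹ * g'⁻¹) ∈ H := H.mul_mem hg' hm1
  have hc3 := hchim g hg _ hm2 u _ hu hU2 hu1 hc2
  have hU3 := STC_U_mul hu (hgU g hg _ hU2)
  have hm3 : g * (g' * (g⁻¹ * g'⁻¹)) ∈ H := H.mul_mem hg hm2
  set γ := g * (g' * (g⁻¹ * g'⁻¹)) with hγ
  set uc := u * g (w * g' (u' * g⁻¹ w')) with huc
  have hγ1 : γ ≠ 1 := by
    intro h1
    apply hne
    have h2 : γ * (g' * g) = g * g' := by rw [hγ]; group
    rw [← h2, h1, one_mul]
  have hrc : r ⟨uc, hU3.1⟩ = 1 := by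
    have e1 : r ⟨uc, hU3.1⟩ = r ⟨u, hu.1⟩ * r ⟨g (w * g' (u' * g⁻¹ w')), (hgU g hg _ hU2).1⟩ :=
      hmulr _ _ _ _
    have e2 : r ⟨g (w * g' (u' * g⁻¹ w')), (hgU g hg _ hU2).1⟩ =
        r ⟨w * g' (u' * g⁻¹ w'), hU2.1⟩ := hrg g hg _ _ _
    have e3 : r ⟨w * g' (u' * g⁻¹ w'), hU2.1⟩ =
        r ⟨w, hw.1⟩ * r ⟨g' (u' * g⁻¹ w'), (hgU g' hg' _ hU1).1⟩ := hmulr _ _ _ _
    have e4 : r ⟨g' (u' * g⁻¹ w'), (hgU g' hg' _ hU1).1⟩ = r ⟨u' * g⁻¹ w', hU1.1⟩ :=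
      hrg g' hg' _ _ _
    have e5 : r ⟨u' * g⁻¹ w', hU1.1⟩ =
        r ⟨u', hu'.1⟩ * r ⟨g⁻¹ w', (hgU g⁻¹ (H.inv_mem hg) w' hw').1⟩ := hmulr _ _ _ _
    have e6 : r ⟨g⁻¹ w', (hgU g⁻¹ (H.inv_mem hg) w' hw').1⟩ = r ⟨w', hw'.1⟩ :=
      hrg g⁻¹ (H.inv_mem hg) _ _ _
    have e7 := hinvr g hg u u' hu hu' hu1 hu1'
    have e8 := hinvr g' hg' w w' hw hw' hw1 hw1'
    rw [e1, e2, e3, e4, e5, e6]
    calc r ⟨u, hu.1⟩ * (r ⟨w, hw.1⟩ * (r ⟨u', hu'.1⟩ * r ⟨w', hw'.1⟩))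
        = (r ⟨u, hu.1⟩ * r ⟨u', hu'.1⟩) * (r ⟨w, hw.1⟩ * r ⟨w', hw'.1⟩) := by ring
      _ = 1 := by rw [e7, e8, one_mul]
  have hpow : γ ^ Nat.card H = 1 := by
    have h1 : (⟨γ, hm3⟩ : H) ^ Nat.card H = 1 := pow_card_eq_one'
    have h2 : ((⟨γ, hm3⟩ : H) ^ Nat.card H : H).1 = (1 : H).1 := by rw [h1]
    rw [Subgroup.coe_pow] at h2
    exact h2
  obtain ⟨ζ, hζ, hζ1, f, hf0, hf⟩ := eig γ (Nat.card H) Nat.card_pos hpow hγ1
  have hζu := eig_unit V (Nat.card H) hV ζ hζ hζ1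
  have hζV : ζ ∈ V := by
    have h1 : (1 : C) - (1 - ζ) ∈ V := V.toSubring.sub_mem V.one_mem
      ((V.valuation_le_one_iff _).1 hζu.le)
    rwa [sub_sub_cancel] at h1
  obtain ⟨c, hc0, hc1', hc2'⟩ := h.scale f hf0
  have hcΦ : algebraMap C Φ c ≠ 0 := by simpa using hc0
  set f' := f / algebraMap C Φ c with hf'
  have hγf : γ f' = algebraMap C Φ ζ * f' := by
    rw [hf', map_div₀, hf, AlgEquiv.commutes, mul_div_assoc]
  obtain ⟨a, ha, s, hs, hsW, hfs⟩ := hpt.frac f' hc1'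
  have haW : a ∉ W.nonunits := by
    intro h1
    apply hsW
    have h2 := STC_mul h1 hc2'
    have h3 : a * (algebraMap C Φ c / f) = s := by
      rw [← hfs, hf']
      field_simp
    rwa [h3] at h2
  obtain ⟨n, x, hx1, hx2, hx3, hx4⟩ := ht.dvr a ha haW
  obtain ⟨m, y, hy1, hy2, hy3, hy4⟩ := ht.dvr s hs hsW
  have hx : STC_U A x := ⟨hx1, hx2, hx3⟩
  have hy : STC_U A y := ⟨hy1, hy2, hy3⟩
  have hγx := hgU γ hm3 x hx
  have hγy := hgU γ hm3 y hy
  have hγt : γ t ∈ W := (hgW γ hm3 t).2 htWm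
  have htu : t * uc ∈ W := W.mul_mem _ _ htWm (hpt.le _ hU3.1)
  have key : algebraMap C Φ ζ * a * γ s = γ a * s := by
    have h1 : γ a = algebraMap C Φ ζ * f' * γ s := by rw [← hfs, map_mul, hγf]
    rw [h1, ← hfs]
    ring
  -- congruences
  have hγa : γ a - (t * uc) ^ n * γ x ∈ W.nonunits := by
    have h1 := hgm γ hm3 _ hx4
    rw [map_sub, map_mul, map_pow] at h1
    exact STC_trans h1 (STC_cmul (pow_mem hγt n) (hpt.le _ hγx.1) (STC_cpow hγt htu hc3 n)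
      (STC_refl _))
  have hγs : γ s - (t * uc) ^ m * γ y ∈ W.nonunits := by
    have h1 := hgm γ hm3 _ hy4
    rw [map_sub, map_mul, map_pow] at h1
    exact STC_trans h1 (STC_cmul (pow_mem hγt m) (hpt.le _ hγy.1) (STC_cpow hγt htu hc3 m)
      (STC_refl _))
  have hζW : algebraMap C Φ ζ ∈ W := (h.base ζ).2 hζV
  have hγaW : γ a ∈ W := (hgW γ hm3 a).2 (hpt.le a ha)
  have h1 : algebraMap C Φ ζ * a * γ s -
      algebraMap C Φ ζ * (t ^ n * x) * ((t * uc) ^ m * γ y) ∈ W.nonunits := by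
    refine STC_cmul (W.mul_mem _ _ hζW (hpt.le a ha)) ?_ ?_ hγs
    · exact W.mul_mem _ _ (pow_mem htu m) (hpt.le _ hγy.1)
    · exact STC_cmul hζW (W.mul_mem _ _ (pow_mem htWm n) (hpt.le x hx1)) (STC_refl _) hx4
  have h2 : γ a * s - (t * uc) ^ n * γ x * (t ^ m * y) ∈ W.nonunits :=
    STC_cmul hγaW (W.mul_mem _ _ (pow_mem htWm m) (hpt.le y hy1)) hγa hy4
  rw [key] at h1
  have h3 := STC_trans (STC_symm h1) h2
  have h4 : algebraMap C Φ ζ * (t ^ n * x) * ((t * uc) ^ m * γ y) -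
      (t * uc) ^ n * γ x * (t ^ m * y) =
      t ^ (n + m) * (algebraMap C Φ ζ * x * (uc ^ m * γ y) - uc ^ n * γ x * y) := by
    rw [mul_pow, mul_pow, pow_add]
    ring
  rw [h4] at h3
  have h5 := hcancel _ _ h3
  have hζA : algebraMap C Φ ζ ∈ A := hpt.base ζ hζV
  have hL1 : algebraMap C Φ ζ * x ∈ A := A.mul_mem hζA hx1
  have hL2 : uc ^ m * γ y ∈ A := A.mul_mem (A.pow_mem hU3.1 m) hγy.1
  have hR1 : uc ^ n * γ x ∈ A := A.mul_mem (A.pow_mem hU3.1 n) hγx.1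
  have h6 : r ⟨algebraMap C Φ ζ * x * (uc ^ m * γ y), A.mul_mem hL1 hL2⟩ =
      r ⟨uc ^ n * γ x * y, A.mul_mem hR1 hy1⟩ := by
    rw [hreq]
    exact STC_nu hpt (A.sub_mem (A.mul_mem hL1 hL2) (A.mul_mem hR1 hy1)) h5
  rw [hmulr _ _ hL1 hL2, hmulr _ _ hζA hx1, hmulr _ _ (A.pow_mem hU3.1 m) hγy.1,
    hmulr _ _ hR1 hy1, hmulr _ _ (A.pow_mem hU3.1 n) hγx.1, hpowr _ hU3.1, hpowr _ hU3.1, hrc,
    one_pow, one_pow, one_mul, one_mul, hrg γ hm3 x hx1, hrg γ hm3 y hy1] at h6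
  have hxu := hru x hx
  have hyu := hru y hy
  have h7 : r ⟨algebraMap C Φ ζ, hζA⟩ = r 1 := by
    rw [map_one]
    have h8 : r ⟨algebraMap C Φ ζ, hζA⟩ * (r ⟨x, hx1⟩ * r ⟨y, hy1⟩) =
        1 * (r ⟨x, hx1⟩ * r ⟨y, hy1⟩) := by
      rw [one_mul, ← mul_assoc, h6]
    exact (hxu.mul hyu).mul_right_cancel h8
  rw [hreq] at h7
  have h8 : NU A (algebraMap C Φ (ζ - 1)) := by
    rw [map_sub, map_one]
    exact h7
  rcases h8.2 with h9 | h9
  · have : ζ - 1 = 0 := (map_eq_zero _).1 h9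
    exact hζ1 (by linear_combination this)
  · apply h9
    rw [← map_inv₀]
    apply hpt.base
    rw [← V.valuation_le_one_iff, map_inv₀, ← neg_sub, Valuation.map_neg, hζu, inv_one]

end Pool.Agent.ESH
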