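import Pool.Agent.ESH.INV
import Pool.Agent.ESH.STC
import Pool.Agent.ESH.NCL

/-!
# ESH / NRM: ramified places have distinct specialisations

Let `Γ` be a finite group of `C`-automorphisms of `Φ` of order prime to the residue characteristic.  Two places with
non-trivial stabilisers in `Γ` which specialise to the same point are equal.

Proof.  Let `γ ≠ 1` fix `P` and `γ' ≠ 1` fix `Q`.  `γ` and `γ'` preserve `A` (`inv_fix`).  Let `H ≤ Γ` be the subgroup of the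
elements preserving `A`; all elements preserve `W` (`inv_W` with `s = 1`).  `card H` divides `card Γ`, so is a unit of `V`.  STC:
`γ γ' = γ' γ`.  Let `P' = γ' P` (`plMap`): fixed by `γ` (`γ γ' = γ' γ`), above `A` (`γ'` preserves `A`).  NCL for `γ`
(of order dividing `card Γ`): `P' = P`, so `γ'` fixes `P`.  NCL for `γ'`: `P = Q`.
-/

namespace Pool.Agent.ESH

open Pool.Agent.Helper11

variable {C Φ : Type*} [Field C] [Field Φ] [Algebra C Φ] [FunField C Φ] [CharZero C] [IsAlgClosed C]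

/-- the elements of `Γ` preserving `A` -/
private def nrmH (Γ : Subgroup (Φ ≃ₐ[C] Φ)) (A : Subring Φ) : Subgroup (Φ ≃ₐ[C] Φ) where
  carrier := {g | g ∈ Γ ∧ ∀ f : Φ, g f ∈ A ↔ f ∈ A}
  one_mem' := ⟨Γ.one_mem, fun _ => Iff.rfl⟩
  mul_mem' := by
    rintro g g' ⟨h1, h2⟩ ⟨h3, h4⟩
    refine ⟨Γ.mul_mem h1 h3, fun f => ?_⟩
    rw [AlgEquiv.mul_apply, h2, h4]
  inv_mem' := by
    rintro g ⟨h1, h2⟩
    refine ⟨Γ.inv_mem h1, fun f => ?_⟩
    have h3 := h2 (g⁻¹ f)
    rw [← AlgEquiv.mul_apply, mul_inv_cancel, AlgEquiv.one_apply] at h3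
    exact h3.symm

omit [FunField C Φ] [CharZero C] [IsAlgClosed C] in
private theorem nrm_card {V : ValuationSubring C} (Γ H : Subgroup (Φ ≃ₐ[C] Φ)) [Finite Γ]
    (hΓ : V.valuation (Nat.card Γ : C) = 1) (hle : H ≤ Γ) : V.valuation (Nat.card H : C) = 1 := by
  obtain ⟨k, hk⟩ := Subgroup.card_dvd_of_le hle
  rw [hk, Nat.cast_mul, map_mul] at hΓ
  have h1 : V.valuation (Nat.card H : C) ≤ 1 := (V.valuation_le_one_iff _).mpr (natCast_mem V _)
  have h2 : V.valuation (k : C) ≤ 1 := (V.valuation_le_one_iff _).mpr (natCast_mem V _)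
  by_contra h
  have h3 : V.valuation (Nat.card H : C) < 1 := lt_of_le_of_ne h1 h
  have h4 : V.valuation (Nat.card H : C) * V.valuation (k : C) < 1 := by
    calc V.valuation (Nat.card H : C) * V.valuation (k : C)
        ≤ V.valuation (Nat.card H : C) * 1 := mul_le_mul_right h2 _
      _ = V.valuation (Nat.card H : C) := mul_one _
      _ < 1 := h3
  rw [hΓ] at h4
  exact lt_irrefl _ h4

theorem nrm_eq {V : ValuationSubring C} {W : ValuationSubring Φ} {pts : Set (Subring Φ)}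
    (hV : Rk1 V) (h : IsMdl V W pts) (hg : PosGenus C Φ) (Γ : Subgroup (Φ ≃ₐ[C] Φ)) [Finite Γ]
    (hΓ : V.valuation (Nat.card Γ : C) = 1) {A : Subring Φ} (hA : A ∈ pts) (P Q : Place C Φ)
    (hP : Below A P) (hQ : Below A Q) (hPf : ∃ γ ∈ Γ, γ ≠ 1 ∧ Fixes γ P)
    (hQf : ∃ γ ∈ Γ, γ ≠ 1 ∧ Fixes γ Q) : P = Q := by
  obtain ⟨γ, hγ, hγ1, hγP⟩ := hPf
  obtain ⟨γ', hγ', hγ'1, hγ'Q⟩ := hQf
  have hγA : PresA (γ : Φ ≃+* Φ) A := inv_fix hV h hg γ P hγP hA hP
  have hγ'A : PresA (γ' : Φ ≃+* Φ) A := inv_fix hV h hg γ' Q hγ'Q hA hQ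
  have hle : nrmH Γ A ≤ Γ := fun g hg => hg.1
  have hfin : Finite (nrmH Γ A) := Finite.of_injective _ (Subgroup.inclusion_injective hle)
  have hs : ∀ (g : Φ ≃ₐ[C] Φ) (c : C), (g : Φ ≃+* Φ) (algebraMap C Φ c) =
      algebraMap C Φ ((RingEquiv.refl C) c) := fun g c => g.commutes c
  have hcomm : γ * γ' = γ' * γ := by
    refine stc h hA (nrmH Γ A) (nrm_card Γ _ hΓ hle) ?_ γ ⟨hγ, hγA⟩ γ' ⟨hγ', hγ'A⟩
    intro g hg'
    exact ⟨hg'.2, inv_W hV h hg (g : Φ ≃+* Φ) (RingEquiv.refl C) (hs g) (fun _ => Iff.rfl)⟩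
  have hcard : 0 < Nat.card Γ := Nat.card_pos
  have hpow : ∀ g ∈ Γ, g ^ Nat.card Γ = 1 := by
    intro g hg'
    have h1 := pow_card_eq_one' (G := Γ) (x := ⟨g, hg'⟩)
    exact congrArg Subtype.val h1
  -- the place `γ' P`
  set P' := plMap (γ' : Φ ≃+* Φ) (RingEquiv.refl C) (hs γ') P with hP'
  have hord : ∀ f, P'.ord f = P.ord (γ'.symm f) := fun f => rfl
  have hcomm' : ∀ f, γ'.symm (γ f) = γ (γ'.symm f) := by
    intro f
    have h1 := congrArg (fun g : Φ ≃ₐ[C] Φ => g (γ'.symm f)) hcomm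
    simp only [AlgEquiv.mul_apply, AlgEquiv.apply_symm_apply] at h1
    rw [h1, AlgEquiv.symm_apply_apply]
  have hP'fix : Fixes γ P' := by
    intro f
    rw [hord, hord, hcomm', hγP]
  have hP'A : Below A P' := by
    intro a ha
    have h1 : γ'.symm a ∈ A := by
      have h2 := hγ'A (γ'.symm a)
      have h3 : (γ' : Φ ≃+* Φ) (γ'.symm a) = a := γ'.apply_symm_apply a
      rw [h3] at h2
      exact h2.mp ha
    rcases hP _ h1 with h4 | h4
    · left
      rw [← γ'.apply_symm_apply a, h4, map_zero]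
    · right
      rw [hord]
      exact h4
  have h1 : P = P' := ncl hV h hA γ (Nat.card Γ) hcard (hpow γ hγ) hΓ hγ1 hγA P P' hP hP'A hγP hP'fix
  have h2 : Fixes γ' P := by
    intro f
    have h3 := hord (γ' f)
    rw [← h1, AlgEquiv.symm_apply_apply] at h3
    exact h3
  exact ncl hV h hA γ' (Nat.card Γ) hcard (hpow γ' hγ') hΓ hγ'1 hγ'A P Q hP hQ h2 hγ'Q

end Pool.Agent.ESH
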