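import Pool.Agent.ESH.EVL
import Pool.Agent.ESH.PLV

/-!
# ESH / SPC: specialisation of places

`spc_exists`: the ring `V'` of `evl_vr` satisfies `V' ∩ C = V`; `V' ≠ W`: let `τ` with `R.ord τ = 1`, `c₀` a non-zero element of
`V.nonunits` (rank one, `V ≠ ⊤`), and `c` with `τ/c` a unit of `W` (`scale`); then `τ/(c c₀) ∈ V'` (order `1`, value `0`)
but `τ/(c c₀) ∉ W`.  So `centre` gives `A ∈ pts` dominated by `V'`, and `A ⊆ V' ⊆ R.ge 0`.
`spc_ev`: let `A ∈ pts` be contained in `R.ge 0`.  The image of `A` under `ev R` is a subring of `C` containing `V`.  Let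
`a ∈ A` and suppose `ev R a ∉ V`; put `c₀ ≠ 0` in `V.nonunits`.  By rank one, with `y = (ev R a)⁻¹ ∈ V.nonunits`, there is `n` with
`y^n c₀⁻¹ ∈ V`, i.e. `y^n = c₀ d`, `d ∈ V`; then `b = 1 - d a^n c₀ ∈ A` has value `0` at `R`; but `c₀ d a^n` is a
non-unit of `A` (`nub`, and multiples of non-units are non-units), so `b` is a unit of `A` (`add`), so its value is not `0`:
contradiction.  So `ev R a ∈ V`.  If `NU A a`: `a = c + (non-unit)`... precisely if `ev R a` were a unit `c` of `V`, then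
`a - c` has value `0`, `a - c ∈ A` is a non-unit (a unit has non-zero value), so `c = a - (a - c)` would be a
non-unit of `A` (`add`), but `c⁻¹ ∈ A`.  Conversely if `ev R a ∈ V.nonunits` and `a` were a unit of `A`, then
`ev R a⁻¹ = (ev R a)⁻¹ ∈ V`: contradiction.
`spc_unique`: if `A, B ∈ pts` are both below `R`, then by `spc_ev` the ring `V'` of `evl_vr` dominates both; `sep`.
-/

namespace Pool.Agent.ESH

open Pool.Agent.Helper11

variable {C Φ : Type*} [Field C] [Field Φ] [Algebra C Φ] [FunField C Φ] [CharZero C] [IsAlgClosed C]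

private lemma SPC_exc {V : ValuationSubring C} (hV : V ≠ ⊤) : ∃ c : C, c ≠ 0 ∧ c ∈ V.nonunits := by
  have h1 : ∃ x : C, x ∉ V := by
    by_contra hcon
    push Not at hcon
    exact hV (eq_top_iff.2 fun x _ => hcon x)
  obtain ⟨x, hx⟩ := h1
  have hx0 : x ≠ 0 := by
    rintro rfl
    exact hx V.zero_mem
  refine ⟨x⁻¹, inv_ne_zero hx0, ?_⟩
  rw [ValuationSubring.mem_nonunits_iff, map_inv₀]
  rw [← V.valuation_le_one_iff, not_le] at hx
  exact inv_lt_one_of_one_lt₀ hx

private lemma SPC_nu_neg {A : Subring Φ} {a : Φ} (h : NU A a) : NU A (-a) := by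
  refine ⟨A.neg_mem h.1, ?_⟩
  rcases h.2 with h2 | h2
  · left; rw [h2, neg_zero]
  · right
    intro h3
    apply h2
    have := A.neg_mem h3
    rwa [inv_neg, neg_neg] at this

private lemma SPC_nu_mul {A : Subring Φ} {a b : Φ} (h : NU A a) (hb : b ∈ A) : NU A (a * b) := by
  refine ⟨A.mul_mem h.1 hb, ?_⟩
  by_cases h0 : a * b = 0
  · exact Or.inl h0
  · right
    intro h3
    have ha0 : a ≠ 0 := left_ne_zero_of_mul h0
    have hb0 : b ≠ 0 := right_ne_zero_of_mul h0
    rcases h.2 with h2 | h2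
    · exact ha0 h2
    · apply h2
      have := A.mul_mem hb h3
      rwa [mul_inv_rev, ← mul_assoc, mul_inv_cancel₀ hb0, one_mul] at this

private lemma SPC_unit {A : Subring Φ} {R : Place C Φ} (hR : Below A R) {a : Φ}
    (h0 : a ≠ 0) (h1 : a ∈ A) (h2 : a⁻¹ ∈ A) : ev R a * ev R a⁻¹ = 1 := by
  rw [← evl_mul R (hR a h1) (hR _ h2), mul_inv_cancel₀ h0]
  have := evl_const R (1 : C)
  rwa [map_one] at this

theorem spc_exists {V : ValuationSubring C} {W : ValuationSubring Φ} {pts : Set (Subring Φ)}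
    (hV : Rk1 V) (h : IsMdl V W pts) (R : Place C Φ) : ∃ A ∈ pts, Below A R := by
  obtain ⟨V', h1, h2⟩ := evl_vr V R
  have hC : ∀ c : C, algebraMap C Φ c ∈ V' ↔ c ∈ V := by
    intro c
    rw [h1, evl_const]
    exact ⟨fun h => h.2, fun h => ⟨R.algebraMap_mem_ge c, h⟩⟩
  have hne : V' ≠ W := by
    intro heq
    obtain ⟨c, hc0, h3, h4⟩ := h.scale R.unif R.unif_ne_zero
    obtain ⟨c₀, hc₀, hc₀n⟩ := SPC_exc hV.1
    have hcΦ : algebraMap C Φ c ≠ 0 := by simpa using hc0
    have hc₀Φ : algebraMap C Φ c₀ ≠ 0 := by simpa using hc₀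
    have h5 : R.unif / algebraMap C Φ (c * c₀) ∈ R.ge 1 := by
      refine R.mem_ge_of_le ?_
      rw [R.ord_div R.unif_ne_zero (by rw [map_mul]; exact mul_ne_zero hcΦ hc₀Φ),
        R.ord_unif, R.ord_algebraMap]
      omega
    have h6 : R.unif / algebraMap C Φ (c * c₀) ∈ R.ge 0 := R.ge_anti (by omega) h5
    have h7 : ev R (R.unif / algebraMap C Φ (c * c₀)) = 0 := (evl_zero_iff R h6).2 h5
    have h8 : R.unif / algebraMap C Φ (c * c₀) ∈ V' := by
      rw [h1, h7]
      exact ⟨h6, V.zero_mem⟩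
    rw [heq] at h8
    have h9 := W.mul_mem _ _ h4 h8
    have h10 : algebraMap C Φ c / R.unif * (R.unif / algebraMap C Φ (c * c₀)) =
        algebraMap C Φ c₀⁻¹ := by
      have := R.unif_ne_zero
      rw [map_mul, map_inv₀]
      field_simp
    rw [h10, h.base] at h9
    rw [ValuationSubring.mem_nonunits_iff] at hc₀n
    rw [← V.valuation_le_one_iff, map_inv₀] at h9
    have hpos : (0 : V.ValueGroup) < V.valuation c₀ := zero_lt_iff.2 (by
      intro h0
      exact hc₀ ((V.valuation.zero_iff).1 h0))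
    exact absurd h9 (not_le.2 ((one_lt_inv₀ hpos).2 hc₀n))
  obtain ⟨A, hA, hd⟩ := h.centre V' hC hne
  exact ⟨A, hA, fun a ha => ((h1 a).1 (hd.1 a ha)).1⟩

private lemma SPC_ev1 {V : ValuationSubring C} {W : ValuationSubring Φ} {A : Subring Φ}
    (hV : Rk1 V) (hA : IsPt V W A) (R : Place C Φ) (hR : Below A R) (a : Φ) (ha : a ∈ A) :
    ev R a ∈ V := by
  by_contra hcon
  have he0 : ev R a ≠ 0 := by
    intro h0
    rw [h0] at hcon
    exact hcon V.zero_mem
  have hy : (ev R a)⁻¹ ∈ V.nonunits := by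
    rw [ValuationSubring.mem_nonunits_iff, map_inv₀]
    rw [← V.valuation_le_one_iff, not_le] at hcon
    exact inv_lt_one_of_one_lt₀ hcon
  obtain ⟨c₀, hc₀, hc₀n⟩ := SPC_exc hV.1
  obtain ⟨n, hn⟩ := hV.2 c₀⁻¹ _ hy (inv_ne_zero he0)
  set d := (ev R a)⁻¹ ^ n * c₀⁻¹ with hd
  have hc₀V : c₀ ∈ V := V.nonunits_subset hc₀n
  have hxA : algebraMap C Φ d * a ^ n ∈ A := A.mul_mem (hA.base d hn) (A.pow_mem ha n)
  have hnu : NU A (algebraMap C Φ c₀ * (algebraMap C Φ d * a ^ n)) :=
    SPC_nu_mul (hA.nub c₀ hc₀n) hxA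
  have hb : ¬ NU A (1 - algebraMap C Φ c₀ * (algebraMap C Φ d * a ^ n)) := by
    intro hb
    have h1 := hA.add _ _ hb hnu
    rw [sub_add_cancel] at h1
    rcases h1.2 with h2 | h2
    · exact one_ne_zero h2
    · exact h2 (by rw [inv_one]; exact A.one_mem)
  have hbA : (1 - algebraMap C Φ c₀ * (algebraMap C Φ d * a ^ n)) ∈ A :=
    A.sub_mem A.one_mem hnu.1
  have hb2 : (1 - algebraMap C Φ c₀ * (algebraMap C Φ d * a ^ n)) ≠ 0 ∧
      (1 - algebraMap C Φ c₀ * (algebraMap C Φ d * a ^ n))⁻¹ ∈ A := by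
    constructor
    · intro h0
      exact hb ⟨hbA, Or.inl h0⟩
    · by_contra h0
      exact hb ⟨hbA, Or.inr h0⟩
  have hu := SPC_unit hR hb2.1 hbA hb2.2
  have hpow : ∀ m : ℕ, ev R (a ^ m) = ev R a ^ m := by
    intro m
    induction m with
    | zero =>
      have := evl_const R (1 : C)
      rw [map_one] at this
      simpa using this
    | succ m ih => rw [pow_succ, evl_mul R (hR _ (A.pow_mem ha m)) (hR a ha), ih, pow_succ]
  have hone : ev R (1 : Φ) = 1 := by
    have := evl_const R (1 : C)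
    rwa [map_one] at this
  have hev : ev R (1 - algebraMap C Φ c₀ * (algebraMap C Φ d * a ^ n)) = 0 := by
    rw [evl_sub R (hR _ A.one_mem) (hR _ hnu.1), hone,
      evl_mul R (R.algebraMap_mem_ge c₀) (hR _ hxA), evl_const,
      evl_mul R (R.algebraMap_mem_ge d) (hR _ (A.pow_mem ha n)), evl_const, hpow, hd]
    rw [inv_pow]
    field_simp
    ring
  rw [hev, zero_mul] at hu
  exact zero_ne_one hu

theorem spc_ev {V : ValuationSubring C} {W : ValuationSubring Φ} {A : Subring Φ}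
    (hV : Rk1 V) (hA : IsPt V W A) (R : Place C Φ) (hR : Below A R) (a : Φ) (ha : a ∈ A) :
    ev R a ∈ V ∧ (NU A a ↔ ev R a ∈ V.nonunits) := by
  refine ⟨SPC_ev1 hV hA R hR a ha, fun hnu => ?_, fun hn => ?_⟩
  · by_contra hcon
    have hcV := SPC_ev1 hV hA R hR a ha
    rw [ValuationSubring.mem_nonunits_iff, not_lt] at hcon
    have hc0 : ev R a ≠ 0 := by
      intro h0
      rw [h0, map_zero] at hcon
      exact absurd hcon (not_le.2 zero_lt_one)
    have hcinv : (ev R a)⁻¹ ∈ V := by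
      rw [← V.valuation_le_one_iff, map_inv₀]
      exact inv_le_one_of_one_le₀ hcon
    have hcA : algebraMap C Φ (ev R a) ∈ A := hA.base _ hcV
    have hsA : a - algebraMap C Φ (ev R a) ∈ A := A.sub_mem ha hcA
    have hs : NU A (a - algebraMap C Φ (ev R a)) := by
      refine ⟨hsA, ?_⟩
      by_contra h0
      push Not at h0
      have hu := SPC_unit hR h0.1 hsA h0.2
      have : ev R (a - algebraMap C Φ (ev R a)) = 0 := by
        rw [evl_sub R (hR a ha) (R.algebraMap_mem_ge _), evl_const, sub_self]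
      rw [this, zero_mul] at hu
      exact zero_ne_one hu
    have h1 := hA.add _ _ hnu (SPC_nu_neg hs)
    have h2 : a + -(a - algebraMap C Φ (ev R a)) = algebraMap C Φ (ev R a) := by ring
    rw [h2] at h1
    rcases h1.2 with h3 | h3
    · exact hc0 (by simpa using h3)
    · apply h3
      rw [← map_inv₀]
      exact hA.base _ hcinv
  · refine ⟨ha, ?_⟩
    by_contra h0
    push Not at h0
    have hu := SPC_unit hR h0.1 ha h0.2
    have h1 := SPC_ev1 hV hA R hR _ h0.2
    rw [ValuationSubring.mem_nonunits_iff] at hn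
    rw [← V.valuation_le_one_iff] at h1
    have h2 : V.valuation (ev R a) * V.valuation (ev R a⁻¹) = 1 := by
      rw [← map_mul, hu, map_one]
    have h3 : V.valuation (ev R a) * V.valuation (ev R a⁻¹) < 1 :=
      mul_lt_one_of_lt_of_le hn h1
    exact absurd h2 h3.ne

theorem spc_unique {V : ValuationSubring C} {W : ValuationSubring Φ} {pts : Set (Subring Φ)}
    (hV : Rk1 V) (h : IsMdl V W pts) (R : Place C Φ) {A B : Subring Φ} (hA : A ∈ pts) (hB : B ∈ pts)
    (hAR : Below A R) (hBR : Below B R) : A = B := by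
  obtain ⟨V', h1, h2⟩ := evl_vr V R
  refine h.sep V' A hA B hB ?_ ?_
  · refine ⟨fun a ha => ?_, fun a ha => ?_⟩
    · rw [h1]
      exact ⟨hAR a ha, (spc_ev hV (h.pt A hA) R hAR a ha).1⟩
    · rw [h2]
      exact ⟨hAR a ha.1, (spc_ev hV (h.pt A hA) R hAR a ha.1).2.1 ha⟩
  · refine ⟨fun a ha => ?_, fun a ha => ?_⟩
    · rw [h1]
      exact ⟨hBR a ha, (spc_ev hV (h.pt B hB) R hBR a ha).1⟩
    · rw [h2]
      exact ⟨hBR a ha.1, (spc_ev hV (h.pt B hB) R hBR a ha.1).2.1 ha⟩

end Pool.Agent.ESH
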