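import Pool.Agent.ESH.LGA
import Pool.Agent.ESH.NRM
import Pool.Agent.ESH.SPC
import Pool.Agent.ESH.HOL

/-!
# ESH / LGB: the branch points do not reduce to the origin

`A ∈ pts` below `P` (`spc_exists`).  If a pole `R` of `x` is above `A` then it has a non-trivial stabiliser, so `R = P` (NRM), contradiction to `0 ≤ P.ord x`.  So `x` has no
pole above `A`, `x ∈ W`, so `x ∈ A` (HOL) and `ev P x ∈ V` (`spc_ev`).
-/

namespace Pool.Agent.ESH

open Pool.Agent.Helper11 Polynomial IntermediateField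

variable {C Φ : Type*} [Field C] [Field Φ] [Algebra C Φ] [FunField C Φ] [CharZero C] [IsAlgClosed C]


theorem lgb {V : ValuationSubring C} {W : ValuationSubring Φ} {pts : Set (Subring Φ)}
    (hV : Rk1 V) (h : IsMdl V W pts) (hg : PosGenus C Φ) (Γ : Subgroup (Φ ≃ₐ[C] Φ)) [Finite Γ]
    (hΓ : V.valuation (Nat.card Γ : C) = 1) (x : Φ) (hx : x ∈ W)
    (hp : ∀ R : Place C Φ, R.ord x < 0 → Ram Γ R) (P : Place C Φ) (hP : Ram Γ P) (hPx : 0 ≤ P.ord x) :
    ev P x ∈ V := by
  obtain ⟨A, hA, hAP⟩ := spc_exists hV h P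
  have hxA : x ∈ A := by
    refine hol hV h hA x hx fun R hR => ?_
    by_contra hcon
    have hneg : R.ord x < 0 := by
      by_contra h0
      exact hcon (Or.inr (not_lt.1 h0))
    have hRP : R = P := nrm_eq hV h hg Γ hΓ hA R P hR hAP (hp R hneg) hP
    rw [hRP] at hneg
    omega
  exact (spc_ev hV (h.pt A hA) P hAP x hxA).1

end Pool.Agent.ESH
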