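import Pool.Agent.ESH.LGT

/-!
# ESH / LGE: uniqueness of Legendre coordinates

`x'` is in `C(x, y)` (`gen`), and all its poles are poles of `x`: they are conjugate under `G` to `P` (LGT for `x'`), and `x` is `G`-invariant.  So `x'` is integral over `C[x]`
(it has no pole over finite values of `x`; Helper11 `mem_Rx`/integral closure, or: its minimal polynomial over `C(x)` has coefficients without finite poles), and `x' = p₁(x) + p₂(x) y`
with `p₁, p₂ ∈ C[X]`: writing `x' = u + v y`, `u, v ∈ C(x)`, trace `2u ∈ C[x]` and norm give `v² x(x-1)(x-l) ∈ C[x]`, squarefree, so `v ∈ C[x]`.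
Poles: `∑_R (-R.ord x) = 2 card G = ∑_R (-R.ord x')` (LGT degree, `finsum_neg_ord`), `R.ord x = -2 k_R`, `R.ord x' = -k_R lM p₁ p₂` (LGP) for all poles `R` of `x`: so
`lM p₁ p₂ = 2`: `p₂ = 0`, `deg p₁ = 1`: `x' = α x + β`.
Roots: `y' ∈ C(x, y)`, `y'² ∈ C(x)`; by `lgf_sq` `y' ∈ C(x)` or `y' = v y`; the first is impossible (`y'²` is a cubic polynomial in `x`).  So `v² x(x-1)(x-l) = (αx+β)(αx+β-1)(αx+β-l')`,
both squarefree cubics (`l' ≠ 0, 1`), so `v² = α³` and the roots agree: `{αe + β} = {0, 1, l'}` for `e ∈ {0, 1, l}`.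
-/

namespace Pool.Agent.ESH

open Pool.Agent.Helper11 Polynomial IntermediateField

variable {C Φ : Type*} [Field C] [Field Φ] [Algebra C Φ] [FunField C Φ] [CharZero C] [IsAlgClosed C]


open scoped IntermediateField.algebraAdjoinAdjoin
open IsDedekindDomain

/-- functions without poles at finite values of `x` are integral over `C[x]` -/
private theorem LGE_int {x : Φ} [Fact (Transcendental C x)] {f : Φ}
    (h : ∀ R : Place C Φ, R.ord f < 0 → R.ord x < 0) : IsIntegral (Rx C x) f := by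
  by_cases hf0 : f = 0
  · rw [hf0]; exact isIntegral_zero
  have hval : ∀ P : HeightOneSpectrum (Ox C x), P.valuation Φ f ≤ 1 := by
    intro P
    have hne := (Valuation.ne_zero_iff (P.valuation Φ)).2 hf0
    have hx0 : x ≠ 0 := by
      rintro rfl
      exact (Fact.out : Transcendental C (0 : Φ)) isAlgebraic_zero
    have hxne := (Valuation.ne_zero_iff (P.valuation Φ)).2 hx0
    have h1 : 0 ≤ (placeOfPrime P).ord x := by
      rw [placeOfPrime_ord]
      have h2 : P.valuation Φ (algebraMap (Ox C x) Φ (algebraMap (Rx C x) (Ox C x) (xR C x))) ≤ 1 :=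
        P.valuation_le_one _
      have h3 : algebraMap (Ox C x) Φ (algebraMap (Rx C x) (Ox C x) (xR C x)) = x := rfl
      rw [h3, ← WithZero.log_le_log hxne one_ne_zero, WithZero.log_one] at h2
      omega
    have h2 : 0 ≤ (placeOfPrime P).ord f := by
      by_contra hc
      have := h _ (not_le.1 hc)
      omega
    rw [placeOfPrime_ord] at h2
    rw [← WithZero.log_le_log hne one_ne_zero, WithZero.log_one]
    omega
  obtain ⟨a, ha⟩ := HeightOneSpectrum.mem_integers_of_valuation_le_one Φ f hval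
  rw [← ha]
  exact a.2

/-- integral elements of `C(x)` are polynomials in `x` -/
private theorem LGE_cx {x : Φ} [hxF : Fact (Transcendental C x)] {g : Φ} (hg : g ∈ C⟮x⟯)
    (hi : IsIntegral (Rx C x) g) : ∃ p : C[X], g = aeval x p := by
  have h1 : IsIntegral (Rx C x) (⟨g, hg⟩ : C⟮x⟯) := by
    have h2 : algebraMap C⟮x⟯ Φ ⟨g, hg⟩ = g := rfl
    rw [← h2] at hi
    exact (isIntegral_algebraMap_iff (algebraMap C⟮x⟯ Φ).injective).1 hi
  obtain ⟨a, ha⟩ := (IsIntegrallyClosed.isIntegral_iff (R := Rx C x) (K := C⟮x⟯)).1 h1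
  have h3 : (a : Φ) = g := congrArg (fun t : C⟮x⟯ => (t : Φ)) ha
  obtain ⟨a, ha'⟩ := a
  obtain ⟨p, hp⟩ := Algebra.adjoin_mem_exists_aeval _ _ ha'
  exact ⟨p, by rw [← h3]; exact hp.symm⟩

/-- the cubic -/
private noncomputable def LGE_D (l : C) : C[X] := X * (X - 1) * (X - Polynomial.C l)

omit [FunField C Φ] [CharZero C] [IsAlgClosed C] in
private theorem LGE_aD {x y : Φ} {l : C} (h : Leg x y l) : aeval x (LGE_D l) = y ^ 2 := by
  rw [h.eq, LGE_D, map_mul, map_mul, map_sub, map_sub, aeval_X, map_one, aeval_C]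

omit [FunField C Φ] [CharZero C] [IsAlgClosed C] in
private theorem LGE_eval (l t : C) : (LGE_D l).eval t = t * (t - 1) * (t - l) := by
  rw [LGE_D]
  simp

omit [CharZero C] [IsAlgClosed C] in
private theorem LGE_sqf {l : C} (l0 : l ≠ 0) (l1 : l ≠ 1) (c : C) : ¬ (X - Polynomial.C c) ^ 2 ∣ LGE_D l := by
  rintro ⟨E, hE⟩
  have h1 := congrArg (Polynomial.eval c) hE
  have h2 := congrArg (fun p => (Polynomial.derivative p).eval c) hE
  rw [LGE_eval] at h1
  simp only [LGE_D, derivative_mul, derivative_X, derivative_sub, derivative_one, derivative_C,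
    derivative_pow, eval_add, eval_mul, eval_sub, eval_X, eval_one, eval_C, eval_pow, eval_zero,
    sub_self] at h1 h2
  have h3 : c * (c - 1) * (c - l) = 0 := by
    rw [h1]
    ring
  have h4 : (c - 1) * (c - l) + c * (c - l) + c * (c - 1) = 0 := by
    have h5 : (c - 1) * (c - l) + c * (c - l) + c * (c - 1) =
      (1 * (c - 1) + c * (1 - 0)) * (c - l) + c * (c - 1) * (1 - 0) := by ring
    rw [h5, h2]
    simp
  rcases mul_eq_zero.1 h3 with h5 | h5
  · rcases mul_eq_zero.1 h5 with h6 | h6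
    · rw [h6] at h4
      apply l0
      linear_combination h4
    · have h7 : c = 1 := by linear_combination h6
      rw [h7] at h4
      apply l1
      linear_combination (-1 : C) * h4
  · have h7 : c = l := by linear_combination h5
    rw [h7] at h4
    have h8 : l * (l - 1) = 0 := by linear_combination h4
    rcases mul_eq_zero.1 h8 with h9 | h9
    · exact l0 h9
    · apply l1
      linear_combination h9

/-- `y` is not in `C(x)` -/
private theorem LGE_y {x y : Φ} {l : C} (h : Leg x y l) : y ∉ C⟮x⟯ := by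
  intro hy
  rw [IntermediateField.mem_adjoin_simple_iff] at hy
  obtain ⟨r, s, hrs⟩ := hy
  by_cases hs : aeval x s = 0
  · rw [hs, div_zero] at hrs
    have h1 := LGE_aD h
    rw [hrs] at h1
    have h2 : aeval x (LGE_D l) + aeval x (0 : C[X]) * y = 0 := by
      rw [h1, map_zero]
      ring
    have h3 := (lgf_uniq h _ _ h2).1
    have h4 := LGE_eval l 2
    have h5 := LGE_eval l 3
    rw [h3, eval_zero] at h4 h5
    have h6 : (2 : C) - l = 0 := by
      have h7 : (2 : C) * (2 - 1) ≠ 0 := by norm_num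
      exact (mul_eq_zero.1 h4.symm).resolve_left h7
    have h8 : (3 : C) - l = 0 := by
      have h7 : (3 : C) * (3 - 1) ≠ 0 := by norm_num
      exact (mul_eq_zero.1 h5.symm).resolve_left h7
    have h9 : (1 : C) = 0 := by linear_combination h8 - h6
    exact one_ne_zero h9
  · have h2 : aeval x (-r) + aeval x s * y = 0 := by
      rw [hrs, map_neg]
      field_simp
      ring
    have h3 := (lgf_uniq h _ _ h2).2
    apply hs
    rw [h3, map_zero]

private theorem LGE_zero {x y : Φ} {l : C} (h : Leg x y l) {A B : Φ} (hA : A ∈ C⟮x⟯)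
    (hB : B ∈ C⟮x⟯) (h0 : A + B * y = 0) : A = 0 ∧ B = 0 := by
  have hB0 : B = 0 := by
    by_contra hne
    apply LGE_y h
    have h1 : y = -A / B := by
      field_simp
      linear_combination h0
    rw [h1]
    exact div_mem (neg_mem hA) hB
  rw [hB0, zero_mul, add_zero] at h0
  exact ⟨h0, hB0⟩

/-- evaluation of polynomials at conjugate elements -/
private theorem LGE_conj {x y : Φ} {l : C} (h : Leg x y l) {u v : Φ} (hu : u ∈ C⟮x⟯)
    (hv : v ∈ C⟮x⟯) (p : (Rx C x)[X]) : ∃ A ∈ C⟮x⟯, ∃ B ∈ C⟮x⟯,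
      aeval (u + v * y) p = A + B * y ∧ aeval (u - v * y) p = A - B * y := by
  have hD : y ^ 2 ∈ C⟮x⟯ := by
    rw [← LGE_aD h]
    exact IntermediateField.algebra_adjoin_le_adjoin C _
      (Polynomial.aeval_mem_adjoin_singleton C x)
  induction p using Polynomial.induction_on with
  | C a =>
    refine ⟨(a : Φ), IntermediateField.algebra_adjoin_le_adjoin C _ a.2, 0, zero_mem _, ?_, ?_⟩
    · rw [aeval_C, zero_mul, add_zero]
      rfl
    · rw [aeval_C, zero_mul, sub_zero]
      rfl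
  | add p q hp hq =>
    obtain ⟨A, hA, B, hB, h1, h2⟩ := hp
    obtain ⟨A', hA', B', hB', h1', h2'⟩ := hq
    refine ⟨A + A', add_mem hA hA', B + B', add_mem hB hB', ?_, ?_⟩
    · rw [map_add, h1, h1']
      ring
    · rw [map_add, h2, h2']
      ring
  | monomial n a ih =>
    obtain ⟨A, hA, B, hB, h1, h2⟩ := ih
    refine ⟨A * u + B * v * y ^ 2, add_mem (mul_mem hA hu) (mul_mem (mul_mem hB hv) hD),
      A * v + B * u, add_mem (mul_mem hA hv) (mul_mem hB hu), ?_, ?_⟩
    · rw [pow_succ, ← mul_assoc, map_mul, h1, aeval_X]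
      ring
    · rw [pow_succ, ← mul_assoc, map_mul, h2, aeval_X]
      ring

private theorem LGE_root {a : C[X]} {l : C} (l0 : l ≠ 0) (l1 : l ≠ 1) (h : a ^ 2 ∣ LGE_D l) :
    a.natDegree = 0 := by
  by_contra hne
  obtain ⟨c, hc⟩ := IsAlgClosed.exists_root a (by
    intro h0
    exact hne (natDegree_eq_zero_iff_degree_le_zero.2 h0.le))
  obtain ⟨b, hb⟩ := dvd_iff_isRoot.2 hc
  apply LGE_sqf l0 l1 c
  refine dvd_trans ?_ h
  rw [hb, mul_pow]
  exact dvd_mul_right _ _

/-- a rational function whose square times the cubic is a polynomial -/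
private theorem LGE_rat {x y : Φ} {l : C} (h : Leg x y l) {v : Φ} (hv : v ∈ C⟮x⟯) (w : C[X])
    (hw : v ^ 2 * y ^ 2 = aeval x w) : ∃ p : C[X], v = aeval x p := by
  classical
  have hinj : Function.Injective (aeval x : C[X] →ₐ[C] Φ) :=
    transcendental_iff_injective.1 h.tr
  rw [IntermediateField.mem_adjoin_simple_iff] at hv
  obtain ⟨r, s, hrs⟩ := hv
  by_cases hs : aeval x s = 0
  · exact ⟨0, by rw [hrs, hs, div_zero, map_zero]⟩
  have hs0 : s ≠ 0 := by
    rintro rfl
    exact hs (map_zero _)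
  obtain ⟨g, hg⟩ : ∃ g, g = EuclideanDomain.gcd r s := ⟨_, rfl⟩
  have hg0 : g ≠ 0 := by
    intro h0
    rw [h0] at hg
    exact hs0 (EuclideanDomain.gcd_eq_zero_iff.1 hg.symm).2
  obtain ⟨r', hr'⟩ := EuclideanDomain.gcd_dvd_left r s
  obtain ⟨s', hs'⟩ := EuclideanDomain.gcd_dvd_right r s
  have hab := EuclideanDomain.gcd_eq_gcd_ab r s
  rw [← hg] at hr' hs' hab
  obtain ⟨a, ha⟩ : ∃ a, a = EuclideanDomain.gcdA r s := ⟨_, rfl⟩
  obtain ⟨b, hb⟩ : ∃ b, b = EuclideanDomain.gcdB r s := ⟨_, rfl⟩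
  rw [← ha, ← hb] at hab
  have hcop : IsCoprime r' s' := by
    refine ⟨a, b, ?_⟩
    apply mul_left_cancel₀ hg0
    calc g * (a * r' + b * s') = (g * r') * a + (g * s') * b := by ring
      _ = r * a + s * b := by rw [← hr', ← hs']
      _ = g * 1 := by rw [← hab, mul_one]
  have hgx : aeval x g ≠ 0 := by
    intro h0
    apply hg0
    apply hinj
    rw [h0, map_zero]
  have hs'x : aeval x s' ≠ 0 := by
    intro h0
    apply hs
    rw [hs', map_mul, h0, mul_zero]
  have hv' : v * aeval x s' = aeval x r' := by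
    rw [hrs, hr', hs', map_mul, map_mul]
    field_simp
  have h1 : r' ^ 2 * LGE_D l = w * s' ^ 2 := by
    apply hinj
    rw [map_mul, map_mul, map_pow, map_pow, LGE_aD h, ← hw, ← hv']
    ring
  have h2 : s' ^ 2 ∣ LGE_D l := by
    have h3 : IsCoprime (s' ^ 2) (r' ^ 2) := hcop.symm.pow
    exact h3.dvd_of_dvd_mul_left ⟨w, by rw [h1]; ring⟩
  have h3 := LGE_root h.l0 h.l1 h2
  rw [natDegree_eq_zero] at h3
  obtain ⟨e, he⟩ := h3
  have he0 : e ≠ 0 := by
    rintro rfl
    apply hs'x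
    rw [← he, map_zero, map_zero]
  refine ⟨Polynomial.C e⁻¹ * r', ?_⟩
  rw [map_mul, ← hv', ← he, aeval_C, aeval_C]
  have : algebraMap C Φ e ≠ 0 := by simpa using he0
  rw [map_inv₀]
  field_simp

private theorem LGE_struct {x y : Φ} {l : C} (h : Leg x y l) {f : Φ}
    (hf : f ∈ IntermediateField.adjoin C {x, y})
    (hR : ∀ R : Place C Φ, R.ord f < 0 → R.ord x < 0) :
    ∃ p₁ p₂ : C[X], f = aeval x p₁ + aeval x p₂ * y := by
  have hxF : Fact (Transcendental C x) := ⟨h.tr⟩
  obtain ⟨q₁, q₂, q, hq, hfq⟩ := lgf h f hf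
  have hinj : Function.Injective (aeval x : C[X] →ₐ[C] Φ) :=
    transcendental_iff_injective.1 h.tr
  have hqx : aeval x q ≠ 0 := by
    intro h0
    apply hq
    apply hinj
    rw [h0, map_zero]
  have hmem : ∀ p : C[X], aeval x p ∈ C⟮x⟯ := fun p =>
    IntermediateField.algebra_adjoin_le_adjoin C _ (Polynomial.aeval_mem_adjoin_singleton C x)
  obtain ⟨u, hu⟩ : ∃ u, u = aeval x q₁ / aeval x q := ⟨_, rfl⟩
  obtain ⟨v, hv⟩ : ∃ v, v = aeval x q₂ / aeval x q := ⟨_, rfl⟩
  have hum : u ∈ C⟮x⟯ := by rw [hu]; exact div_mem (hmem _) (hmem _)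
  have hvm : v ∈ C⟮x⟯ := by rw [hv]; exact div_mem (hmem _) (hmem _)
  have hfe : f = u + v * y := by
    rw [hu, hv]
    field_simp
    exact hfq
  have hi1 : IsIntegral (Rx C x) f := LGE_int hR
  have hi2 : IsIntegral (Rx C x) (u - v * y) := by
    obtain ⟨p, hp, hpf⟩ := hi1
    refine ⟨p, hp, ?_⟩
    obtain ⟨A, hA, B, hB, h1, h2⟩ := LGE_conj h hum hvm p
    have h3 : aeval (u + v * y) p = 0 := by rw [← hfe]; exact hpf
    rw [h3] at h1
    obtain ⟨hA0, hB0⟩ := LGE_zero h hA hB h1.symm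
    rw [hA0, hB0, zero_mul, sub_zero] at h2
    exact h2
  have h2u : IsIntegral (Rx C x) (2 * u) := by
    have e : 2 * u = f + (u - v * y) := by rw [hfe]; ring
    rw [e]
    exact hi1.add hi2
  have hnm : IsIntegral (Rx C x) (u ^ 2 - v ^ 2 * y ^ 2) := by
    have e : u ^ 2 - v ^ 2 * y ^ 2 = f * (u - v * y) := by rw [hfe]; ring
    rw [e]
    exact hi1.mul hi2
  have hD : y ^ 2 ∈ C⟮x⟯ := by
    rw [← LGE_aD h]
    exact hmem _
  have h2m : (2 : Φ) ∈ C⟮x⟯ := by
    have := hmem (2 : C[X])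
    rwa [map_ofNat] at this
  obtain ⟨p, hp⟩ := LGE_cx (mul_mem h2m hum) h2u
  obtain ⟨w, hw⟩ := LGE_cx (sub_mem (pow_mem hum 2) (mul_mem (pow_mem hvm 2) hD)) hnm
  have hc0 : CharZero Φ := charZero_of_injective_algebraMap (algebraMap C Φ).injective
  have hup : u = aeval x (Polynomial.C (2 : C)⁻¹ * p) := by
    rw [map_mul, ← hp, aeval_C, map_inv₀, map_ofNat]
    field_simp
  obtain ⟨p₂, hp₂⟩ := LGE_rat h hvm ((Polynomial.C (2 : C)⁻¹ * p) ^ 2 - w) (by
    rw [map_sub, map_pow, ← hup, ← hw]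
    ring)
  exact ⟨_, p₂, by rw [← hup, ← hp₂]; exact hfe⟩

omit [CharZero C] [IsAlgClosed C] in
private theorem LGE_lM2 {p₁ p₂ : C[X]} (h : lM p₁ p₂ = 2) : p₂ = 0 ∧ p₁.natDegree = 1 := by
  unfold lM at h
  split_ifs at h with h1 h2
  · exact ⟨h1, by omega⟩
  · omega
  · exfalso
    have := le_max_right (2 * (p₁.natDegree : ℤ)) (2 * p₂.natDegree + 3)
    omega

omit [CharZero C] [IsAlgClosed C] in
private theorem LGE_lM3 {p₁ p₂ : C[X]} (h : lM p₁ p₂ = 3) : p₂ ≠ 0 ∧ p₂.natDegree = 0 := by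
  unfold lM at h
  split_ifs at h with h1 h2
  · omega
  · exact ⟨h1, by omega⟩
  · refine ⟨h1, ?_⟩
    have := le_max_right (2 * (p₁.natDegree : ℤ)) (2 * p₂.natDegree + 3)
    omega

theorem lge (G : Subgroup (Φ ≃ₐ[C] Φ)) [Finite G] {x y x' y' : Φ} {l l' : C} (h : FixLeg G x y l)
    (h' : FixLeg G x' y' l') (P : Place C Φ) (hP : P.ord x < 0) (hP' : P.ord x' < 0) :
    ∃ α β δ : C, α ≠ 0 ∧ x' = algebraMap C Φ α * x + algebraMap C Φ β ∧ δ ^ 2 = α ^ 3 ∧
      y' = algebraMap C Φ δ * y ∧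
      (∀ e : C, (e = 0 ∨ e = 1 ∨ e = l) → (α * e + β = 0 ∨ α * e + β = 1 ∨ α * e + β = l')) ∧
      ∀ e' : C, (e' = 0 ∨ e' = 1 ∨ e' = l') → ∃ e : C, (e = 0 ∨ e = 1 ∨ e = l) ∧ α * e + β = e' := by
  -- poles
  have hpole1 : ∀ R : Place C Φ, R.ord x' < 0 → R.ord x = P.ord x ∧ R.ord x' = P.ord x' := by
    intro R hR
    obtain ⟨g, hg, hgf⟩ := lgt G h' P R hP' hR
    have h1 := hgf x
    have h2 := hgf x'
    rw [h.fx g hg] at h1
    rw [h'.fx g hg] at h2
    exact ⟨h1, h2⟩
  have hpole2 : ∀ R : Place C Φ, R.ord x < 0 → R.ord x = P.ord x ∧ R.ord x' = P.ord x' := by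
    intro R hR
    obtain ⟨g, hg, hgf⟩ := lgt G h P R hP hR
    have h1 := hgf x
    have h2 := hgf x'
    rw [h.fx g hg] at h1
    rw [h'.fx g hg] at h2
    exact ⟨h1, h2⟩
  -- the orders agree
  have hord : P.ord x' = P.ord x := by
    have hs1 := finsum_neg_ord (k := C) (L := Φ) h.leg.tr
    have hs2 := finsum_neg_ord (k := C) (L := Φ) h'.leg.tr
    rw [lgt_deg G h] at hs1
    rw [lgt_deg G h'] at hs2
    have hm1 := mul_finsum (fun v : Place C Φ => max 0 (-v.ord x)) (-P.ord x')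
    have hm2 := mul_finsum (fun v : Place C Φ => max 0 (-v.ord x')) (-P.ord x)
    rw [hs1] at hm1
    rw [hs2] at hm2
    have heq : ∀ v : Place C Φ, -P.ord x' * max 0 (-v.ord x) = -P.ord x * max 0 (-v.ord x') := by
      intro v
      rcases lt_or_ge (v.ord x) 0 with h1 | h1
      · obtain ⟨h2, h3⟩ := hpole2 v h1
        rw [h2, h3, max_eq_right (by omega), max_eq_right (by omega)]
        ring
      · have h2 : 0 ≤ v.ord x' := by
          by_contra hc
          obtain ⟨h3, _⟩ := hpole1 v (not_le.1 hc)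
          omega
        rw [max_eq_left (by omega), max_eq_left (by omega)]
        ring
    rw [finsum_congr heq] at hm1
    rw [← hm2] at hm1
    have hG : (0 : ℤ) < ((2 * Nat.card G : ℕ) : ℤ) := by
      have : 0 < Nat.card G := Nat.card_pos
      exact_mod_cast (by omega : 0 < 2 * Nat.card G)
    have := mul_right_cancel₀ hG.ne' hm1
    omega
  obtain ⟨k, hk1, hkx, _, hk⟩ := lgp h.leg P hP
  obtain ⟨k', hk1', hkx', hky', _⟩ := lgp h'.leg P hP'
  have hkk : k' = k := by omega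
  subst hkk
  -- x'
  obtain ⟨p₁, p₂, hx'⟩ := LGE_struct h.leg (h.gen x' h'.fx) (fun R hR => by
    have := (hpole1 R hR).1
    omega)
  have hne : p₁ ≠ 0 ∨ p₂ ≠ 0 := by
    by_contra hc
    push Not at hc
    rw [hc.1, hc.2, map_zero, zero_mul, add_zero] at hx'
    rw [hx', P.ord_zero] at hP'
    omega
  have h2 := hk p₁ p₂ hne
  rw [← hx', hord, hkx] at h2
  have h3 : lM p₁ p₂ = 2 := by
    have : k' * lM p₁ p₂ = k' * 2 := by linarith
    exact mul_left_cancel₀ (by omega) this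
  obtain ⟨hp₂, hp₁⟩ := LGE_lM2 h3
  rw [hp₂, map_zero, zero_mul, add_zero] at hx'
  obtain ⟨α, hα⟩ : ∃ α, α = p₁.coeff 1 := ⟨_, rfl⟩
  obtain ⟨β, hβ⟩ : ∃ β, β = p₁.coeff 0 := ⟨_, rfl⟩
  have hα0 : α ≠ 0 := by
    rw [hα, ← hp₁, Ne, ← Polynomial.leadingCoeff, leadingCoeff_eq_zero]
    rintro rfl
    simp at hp₁
  have hx'' : x' = algebraMap C Φ α * x + algebraMap C Φ β := by
    rw [hx', Polynomial.eq_X_add_C_of_natDegree_le_one hp₁.le, ← hα, ← hβ, map_add, map_mul,
      aeval_C, aeval_C, aeval_X]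
  -- y'
  have hypole : ∀ R : Place C Φ, R.ord y' < 0 → R.ord x < 0 := by
    intro R hR
    by_contra hc
    have h4 : 0 ≤ R.ord x' := by
      by_contra hc'
      have := (hpole1 R (not_le.1 hc')).1
      omega
    have h5 : x' ∈ R.ge 0 := R.mem_ge_of_le h4
    have h6 : y' ^ 2 ∈ R.ge 0 := by
      rw [h'.leg.eq]
      have := R.mul_mem_ge (R.mul_mem_ge h5 (sub_mem h5 R.one_mem_ge))
        (sub_mem h5 (R.algebraMap_mem_ge l'))
      simpa using this
    have hy0 : y' ≠ 0 := R.ne_zero_of_ord_ne_zero (by omega)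
    have h7 := R.le_ord_of_mem h6 (pow_ne_zero _ hy0)
    rw [R.ord_pow] at h7
    push_cast at h7
    omega
  obtain ⟨r₁, r₂, hy'⟩ := LGE_struct h.leg (h.gen y' h'.fy) hypole
  have hne' : r₁ ≠ 0 ∨ r₂ ≠ 0 := by
    by_contra hc
    push Not at hc
    rw [hc.1, hc.2, map_zero, zero_mul, add_zero] at hy'
    rw [hy', P.ord_zero] at hky'
    omega
  have h4 := hk r₁ r₂ hne'
  rw [← hy', hky'] at h4
  have h5 : lM r₁ r₂ = 3 := by
    have : k' * lM r₁ r₂ = k' * 3 := by linarith
    exact mul_left_cancel₀ (by omega) this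
  obtain ⟨hr0, hr₂⟩ := LGE_lM3 h5
  rw [natDegree_eq_zero] at hr₂
  obtain ⟨δ, hδ⟩ := hr₂
  have hδ0 : δ ≠ 0 := by
    rintro rfl
    exact hr0 (by rw [← hδ, map_zero])
  rw [← hδ, aeval_C] at hy'
  -- the equation
  obtain ⟨M, hM⟩ : ∃ M : C[X], M = (LGE_D l').comp (Polynomial.C α * X + Polynomial.C β) := ⟨_, rfl⟩
  have hMx : aeval x M = y' ^ 2 := by
    rw [hM, aeval_comp, map_add, map_mul, aeval_C, aeval_C, aeval_X, ← hx'']
    exact LGE_aD h'.leg
  have h6 : aeval x (r₁ ^ 2 + Polynomial.C (δ ^ 2) * LGE_D l - M) +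
      aeval x (2 * Polynomial.C δ * r₁) * y = 0 := by
    rw [map_sub, map_add, map_mul, map_mul, map_mul, map_pow, aeval_C, aeval_C, LGE_aD h.leg, hMx,
      hy', map_pow, map_ofNat]
    ring
  obtain ⟨h7, h8⟩ := lgf_uniq h.leg _ _ h6
  have hr₁ : r₁ = 0 := by
    rcases mul_eq_zero.1 h8 with h9 | h9
    · exfalso
      rcases mul_eq_zero.1 h9 with h10 | h10
      · have : (2 : C[X]) ≠ 0 := two_ne_zero
        exact this h10
      · exact hδ0 (Polynomial.C_eq_zero.1 h10)
    · exact h9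
  rw [hr₁, map_zero, zero_add] at hy'
  rw [hr₁] at h7
  have hkey : ∀ t : C, δ ^ 2 * (t * (t - 1) * (t - l)) =
      (α * t + β) * (α * t + β - 1) * (α * t + β - l') := by
    intro t
    have h9 := congrArg (Polynomial.eval t) h7
    rw [hM] at h9
    simp only [eval_add, eval_sub, eval_mul, eval_C, eval_comp, eval_X, eval_pow, eval_zero,
      LGE_eval] at h9
    linear_combination h9
  refine ⟨α, β, δ, hα0, hx'', ?_, hy', ?_, ?_⟩
  · have k0 := hkey 0
    have k1 := hkey 1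
    have k2 := hkey 2
    have k3 := hkey 3
    have h6 : (6 : C) * (δ ^ 2 - α ^ 3) = 0 := by
      linear_combination k3 - 3 * k2 + 3 * k1 - k0
    have h60 : (6 : C) ≠ 0 := by norm_num
    have h61 := (mul_eq_zero.1 h6).resolve_left h60
    linear_combination h61
  · intro e he
    have h9 := hkey e
    have h10 : e * (e - 1) * (e - l) = 0 := by
      rcases he with rfl | rfl | rfl <;> ring
    rw [h10, mul_zero] at h9
    rcases mul_eq_zero.1 h9.symm with h11 | h11
    · rcases mul_eq_zero.1 h11 with h12 | h12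
      · exact Or.inl h12
      · exact Or.inr (Or.inl (by linear_combination h12))
    · exact Or.inr (Or.inr (by linear_combination h11))
  · intro e' he'
    have he1 : α * ((e' - β) / α) + β = e' := by
      field_simp
      ring
    refine ⟨(e' - β) / α, ?_, he1⟩
    have h9 := hkey ((e' - β) / α)
    rw [he1] at h9
    have h10 : e' * (e' - 1) * (e' - l') = 0 := by
      rcases he' with rfl | rfl | rfl <;> ring
    rw [h10] at h9
    have h11 := (mul_eq_zero.1 h9).resolve_left (pow_ne_zero 2 hδ0)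
    rcases mul_eq_zero.1 h11 with h12 | h12
    · rcases mul_eq_zero.1 h12 with h13 | h13
      · exact Or.inl h13
      · exact Or.inr (Or.inl (by linear_combination h13))
    · exact Or.inr (Or.inr (by linear_combination h12))

end Pool.Agent.ESH
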