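import Pool.Agent.ESH.DefsE

/-!
# ESH / LGF: the function field C(x, y)

`lgf`: the set of the elements of this form is a subfield containing `C, x, y`: sums and products by `y² = x(x-1)(x-l)`; inverse: multiply by the conjugate,
`(p₁ + p₂ y)(p₁ - p₂ y) = p₁² - p₂² x(x-1)(x-l)`, a non-zero polynomial in `x` (`lgf_uniq`).  `aeval x` is injective (`tr`).
`lgf_uniq`: otherwise `p₁² = p₂² X(X-1)(X-l)` in `C[X]` with `p₂ ≠ 0`; the degrees have different parities.
-/

namespace Pool.Agent.ESH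

open Pool.Agent.Helper11 Polynomial IntermediateField

variable {C Φ : Type*} [Field C] [Field Φ] [Algebra C Φ] [FunField C Φ] [CharZero C] [IsAlgClosed C]

private noncomputable def gg (l : C) : C[X] := X * (X - 1) * (X - Polynomial.C l)

omit [CharZero C] [IsAlgClosed C] in
private theorem gg_natDegree (l : C) : (gg l).natDegree = 3 := by
  unfold gg
  have h1 : (X - 1 : C[X]) = X - Polynomial.C 1 := by rw [map_one]
  rw [h1, natDegree_mul (mul_ne_zero X_ne_zero (X_sub_C_ne_zero 1)) (X_sub_C_ne_zero l),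
    natDegree_mul X_ne_zero (X_sub_C_ne_zero 1), natDegree_X, natDegree_X_sub_C,
    natDegree_X_sub_C]

omit [CharZero C] [IsAlgClosed C] in
private theorem gg_ne (l : C) : gg l ≠ 0 := by
  intro h
  have := gg_natDegree l
  rw [h, natDegree_zero] at this
  omega

omit [FunField C Φ] [CharZero C] [IsAlgClosed C] in
private theorem y_sq {x y : Φ} {l : C} (hL : Leg x y l) : y ^ 2 = aeval x (gg l) := by
  rw [hL.eq]
  unfold gg
  rw [map_mul, map_mul, map_sub, map_sub, aeval_X, aeval_C, map_one]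

omit [FunField C Φ] [CharZero C] [IsAlgClosed C] in
private theorem norm_zero {l : C} (p₁ p₂ : C[X]) (h : p₁ ^ 2 = p₂ ^ 2 * gg l) :
    p₁ = 0 ∧ p₂ = 0 := by
  by_cases h2 : p₂ = 0
  · rw [h2] at h
    refine ⟨?_, h2⟩
    have : p₁ ^ 2 = 0 := by rw [h]; ring
    exact pow_eq_zero_iff (two_ne_zero) |>.1 this
  · exfalso
    have h3 := congrArg natDegree h
    rw [natDegree_pow, natDegree_mul (pow_ne_zero 2 h2) (gg_ne l), natDegree_pow,
      gg_natDegree] at h3
    omega

theorem lgf_uniq {x y : Φ} {l : C} (hL : Leg x y l) (p₁ p₂ : C[X])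
    (h0 : aeval x p₁ + aeval x p₂ * y = 0) : p₁ = 0 ∧ p₂ = 0 := by
  apply norm_zero (l := l)
  apply (transcendental_iff_injective.1 hL.tr)
  rw [map_pow, map_mul, map_pow, ← y_sq hL]
  have : aeval x p₁ = - (aeval x p₂ * y) := eq_neg_of_add_eq_zero_left h0
  rw [this]
  ring

theorem lgf {x y : Φ} {l : C} (hL : Leg x y l) (f : Φ) (hf : f ∈ IntermediateField.adjoin C {x, y}) :
    ∃ p₁ p₂ q : C[X], q ≠ 0 ∧ f * aeval x q = aeval x p₁ + aeval x p₂ * y := by
  have hy := y_sq hL
  have hinj := transcendental_iff_injective.1 hL.tr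
  induction hf using IntermediateField.adjoin_induction with
  | mem z hz =>
    rcases hz with rfl | hz
    · refine ⟨X, 0, 1, one_ne_zero, ?_⟩
      rw [map_one, aeval_X, map_zero]
      ring
    · rw [Set.mem_singleton_iff] at hz
      refine ⟨0, 1, 1, one_ne_zero, ?_⟩
      rw [map_one, map_zero, hz]
      ring
  | algebraMap c =>
    refine ⟨Polynomial.C c, 0, 1, one_ne_zero, ?_⟩
    rw [map_one, aeval_C, map_zero]
    ring
  | add a b ha hb iha ihb =>
    obtain ⟨p₁, p₂, q, hq, h1⟩ := iha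
    obtain ⟨p₁', p₂', q', hq', h1'⟩ := ihb
    refine ⟨p₁ * q' + p₁' * q, p₂ * q' + p₂' * q, q * q', mul_ne_zero hq hq', ?_⟩
    simp only [map_add, map_mul]
    linear_combination (aeval x q') * h1 + (aeval x q) * h1'
  | inv a ha iha =>
    obtain ⟨p₁, p₂, q, hq, h1⟩ := iha
    by_cases h0 : a = 0
    · refine ⟨0, 0, 1, one_ne_zero, ?_⟩
      rw [h0, map_one, map_zero]
      simp
    · refine ⟨q * p₁, - (q * p₂), p₁ ^ 2 - p₂ ^ 2 * gg l, ?_, ?_⟩
      · intro hN
        obtain ⟨e1, e2⟩ := norm_zero p₁ p₂ (sub_eq_zero.1 hN)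
        rw [e1, e2, map_zero, zero_mul, add_zero] at h1
        rcases mul_eq_zero.1 h1 with h2 | h2
        · exact h0 h2
        · exact hq (hinj (h2.trans (map_zero _).symm))
      · have e : aeval x (p₁ ^ 2 - p₂ ^ 2 * gg l) =
            a * aeval x q * (aeval x p₁ - aeval x p₂ * y) := by
          rw [map_sub, map_mul, map_pow, map_pow, ← hy, h1]
          ring
        rw [e, map_neg, map_mul, map_mul]
        field_simp
        ring
  | mul a b ha hb iha ihb =>
    obtain ⟨p₁, p₂, q, hq, h1⟩ := iha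
    obtain ⟨p₁', p₂', q', hq', h1'⟩ := ihb
    refine ⟨p₁ * p₁' + p₂ * p₂' * gg l, p₁ * p₂' + p₂ * p₁', q * q', mul_ne_zero hq hq', ?_⟩
    have e : a * b * aeval x (q * q') = (a * aeval x q) * (b * aeval x q') := by
      rw [map_mul]
      ring
    rw [e, h1, h1']
    simp only [map_add, map_mul]
    rw [← hy]
    ring

private theorem mem_C {x f : Φ} {p q : C[X]} (hx : Transcendental C x) (hq : q ≠ 0)
    (h : f * aeval x q = aeval x p) : f ∈ C⟮x⟯ := by
  have hinj := transcendental_iff_injective.1 hx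
  have h0 : aeval x q ≠ 0 := fun h2 => hq (hinj (h2.trans (map_zero _).symm))
  rw [IntermediateField.mem_adjoin_simple_iff]
  refine ⟨p, q, ?_⟩
  rw [← h, mul_div_assoc, div_self h0, mul_one]

/-- an element of `C(x, y)` whose square is in `C(x)` is in `C(x)` or in `C(x) y` -/
theorem lgf_sq {x y : Φ} {l : C} (hL : Leg x y l) (f : Φ) (hf : f ∈ IntermediateField.adjoin C {x, y})
    (h2 : f ^ 2 ∈ C⟮x⟯) : f ∈ C⟮x⟯ ∨ f / y ∈ C⟮x⟯ := by
  obtain ⟨p₁, p₂, q, hq, h1⟩ := lgf hL f hf
  have hy := y_sq hL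
  rw [IntermediateField.mem_adjoin_simple_iff] at h2
  obtain ⟨r, s, hrs⟩ := h2
  by_cases hs : aeval x s = 0
  · left
    rw [hs, div_zero] at hrs
    rw [pow_eq_zero_iff two_ne_zero |>.1 hrs]
    exact zero_mem _
  · have hs0 : s ≠ 0 := by
      rintro rfl
      exact hs (map_zero _)
    rw [eq_div_iff hs] at hrs
    have h3 : aeval x ((p₁ ^ 2 + p₂ ^ 2 * gg l) * s - r * q ^ 2) +
        aeval x (2 * p₁ * p₂ * s) * y = 0 := by
      simp only [map_add, map_mul, map_sub, map_pow, map_ofNat]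
      rw [← hy, ← hrs]
      linear_combination (- (aeval x s) * (f * aeval x q + aeval x p₁ + aeval x p₂ * y)) * h1
    obtain ⟨-, h4⟩ := lgf_uniq hL _ _ h3
    have h5 : p₁ * p₂ = 0 := by
      have h6 : (2 : C[X]) ≠ 0 := two_ne_zero
      have h7 : 2 * (p₁ * p₂) * s = 0 := by rw [← h4]; ring
      rcases mul_eq_zero.1 h7 with h8 | h8
      · exact (mul_eq_zero.1 h8).resolve_left h6
      · exact absurd h8 hs0
    rcases mul_eq_zero.1 h5 with h6 | h6
    · right
      by_cases hy0 : y = 0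
      · rw [hy0, div_zero]
        exact zero_mem _
      · refine mem_C (p := p₂) hL.tr hq ?_
        rw [h6, map_zero, zero_add] at h1
        rw [div_mul_eq_mul_div, h1, mul_div_assoc, div_self hy0, mul_one]
    · left
      refine mem_C (p := p₁) hL.tr hq ?_
      rw [h1, h6, map_zero, zero_mul, add_zero]

end Pool.Agent.ESH
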