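import Pool.Agent.ESH.LGP
import Pool.Agent.ESH.GTB

/-!
# ESH / LGT: the places over the origin are conjugate

Let `P, R` be poles of `x` and `f` fixed by `G` with `f ∈ P.ge 1`, `f ≠ 0`.  By `gen` and LGF `f = (p₁(x) + p₂(x) y)/q(x)`, and by LGP
`P.ord f = -k_P (lM p₁ p₂ - 2 deg q)`, `R.ord f = -k_R (lM p₁ p₂ - 2 deg q)`, of the same sign.  So `f ∈ R.ge 1`; GTB.
`lgt_deg`: Artin: `[Φ : C(x, y)] = card G` and `[C(x, y) : C(x)] = 2`.
-/

namespace Pool.Agent.ESH

open Pool.Agent.Helper11 Polynomial IntermediateField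

variable {C Φ : Type*} [Field C] [Field Φ] [Algebra C Φ] [FunField C Φ] [CharZero C] [IsAlgClosed C]

private theorem lgt_ord {x y : Φ} {l : C} (hL : Leg x y l) (R : Place C Φ) (hR : R.ord x < 0) {f : Φ} (hf : f ≠ 0)
    {p₁ p₂ q : C[X]} (hq : q ≠ 0) (e : f * aeval x q = aeval x p₁ + aeval x p₂ * y) (hp : p₁ ≠ 0 ∨ p₂ ≠ 0) :
    ∃ k : ℤ, 1 ≤ k ∧ R.ord f = -(k * (lM p₁ p₂ - 2 * q.natDegree)) := by
  obtain ⟨k, hk, h1, -, h3⟩ := lgp hL R hR
  refine ⟨k, hk, ?_⟩
  have hq' : aeval x q ≠ 0 := by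
    intro h0
    exact hq ((transcendental_iff.1 hL.tr) q h0)
  have h4 := h3 p₁ p₂ hp
  rw [← e, R.ord_mul _ _ hf hq', lgp_poly R hR q hq, h1] at h4
  linarith

theorem lgt (G : Subgroup (Φ ≃ₐ[C] Φ)) [Finite G] {x y : Φ} {l : C} (h : FixLeg G x y l)
    (P R : Place C Φ) (hP : P.ord x < 0) (hR : R.ord x < 0) : ∃ g ∈ G, ∀ f : Φ, R.ord (g f) = P.ord f := by
  apply gtb_conj G P R
  intro f hfix hf
  rw [Place.mem_ge] at hf ⊢
  rcases hf with hf | hf
  · exact Or.inl hf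
  by_cases hf0 : f = 0
  · exact Or.inl hf0
  right
  obtain ⟨p₁, p₂, q, hq, e⟩ := lgf h.leg f (h.gen f hfix)
  have hq' : aeval x q ≠ 0 := by
    intro h0
    exact hq ((transcendental_iff.1 h.leg.tr) q h0)
  have hp : p₁ ≠ 0 ∨ p₂ ≠ 0 := by
    by_contra hcon
    push Not at hcon
    rw [hcon.1, hcon.2] at e
    simp only [map_zero, zero_mul, add_zero] at e
    rcases mul_eq_zero.1 e with h0 | h0
    · exact hf0 h0
    · exact hq' h0
  obtain ⟨k, hk, h1⟩ := lgt_ord h.leg P hP hf0 hq e hp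
  obtain ⟨k', hk', h2⟩ := lgt_ord h.leg R hR hf0 hq e hp
  rw [h1] at hf
  rw [h2]
  have h3 : lM p₁ p₂ - 2 * q.natDegree < 0 := by
    by_contra hcon
    have h4 : 0 ≤ lM p₁ p₂ - 2 * q.natDegree := not_lt.1 hcon
    have h5 : 0 ≤ k * (lM p₁ p₂ - 2 * q.natDegree) := mul_nonneg (by linarith) h4
    linarith
  nlinarith

theorem lgt_ram (G : Subgroup (Φ ≃ₐ[C] Φ)) [Finite G] {x y : Φ} {l : C} (h : FixLeg G x y l)
    (P R : Place C Φ) (hP : P.ord x < 0) (hR : R.ord x < 0) (hr : Ram G P) : Ram G R := by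
  obtain ⟨g, hg, hgf⟩ := lgt G h P R hP hR
  exact gtb_ram G P R g hg hgf hr

omit [FunField C Φ] [CharZero C] [IsAlgClosed C] in
private theorem lgt_mem_simple {x y : Φ} (hx : Transcendental C x) (hy : y ∈ C⟮x⟯) :
    ∃ p q : C[X], q ≠ 0 ∧ y * aeval x q = aeval x p := by
  rw [IntermediateField.mem_adjoin_simple_iff] at hy
  obtain ⟨r, s, hrs⟩ := hy
  by_cases hs : aeval x s = 0
  · refine ⟨0, 1, one_ne_zero, ?_⟩
    rw [hrs, hs]
    simp
  · refine ⟨r, s, ?_, ?_⟩
    · intro h0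
      rw [h0, map_zero] at hs
      exact hs rfl
    · rw [hrs]
      field_simp

private theorem lgt_two {x y : Φ} {l : C} (hL : Leg x y l) : Module.finrank C⟮x⟯ (C⟮x⟯⟮y⟯) = 2 := by
  have hmem : x ∈ C⟮x⟯ := IntermediateField.mem_adjoin_simple_self C x
  let t : C⟮x⟯ := ⟨x, hmem⟩
  let c : C⟮x⟯ := t * (t - 1) * (t - algebraMap C C⟮x⟯ l)
  have hc : algebraMap C⟮x⟯ Φ c = y ^ 2 := by
    rw [hL.eq]
    rfl
  let P : C⟮x⟯[X] := X ^ 2 - Polynomial.C c
  have hPm : P.Monic := monic_X_pow_sub_C c two_ne_zero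
  have hPd : P.natDegree = 2 := natDegree_X_pow_sub_C
  have hP0 : aeval y P = 0 := by
    simp only [P, map_sub, map_pow, aeval_X, aeval_C, hc, sub_self]
  have hint : IsIntegral C⟮x⟯ y := ⟨P, hPm, by rw [← aeval_def]; exact hP0⟩
  rw [IntermediateField.adjoin.finrank hint]
  have hle : (minpoly C⟮x⟯ y).natDegree ≤ 2 := by
    rw [← hPd]
    exact natDegree_le_of_dvd (minpoly.dvd _ _ hP0) hPm.ne_zero
  have hpos : 0 < (minpoly C⟮x⟯ y).natDegree := minpoly.natDegree_pos hint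
  have hne : (minpoly C⟮x⟯ y).natDegree ≠ 1 := by
    intro h1
    rw [minpoly.natDegree_eq_one_iff] at h1
    obtain ⟨z, hz⟩ := h1
    have hz' : y ∈ C⟮x⟯ := by
      rw [← hz]
      exact z.2
    obtain ⟨p, q, hq, e⟩ := lgt_mem_simple hL.tr hz'
    have h2 : aeval x (-p) + aeval x q * y = 0 := by
      rw [map_neg, ← e]
      ring
    exact hq (lgf_uniq hL (-p) q h2).2
  omega

theorem lgt_deg (G : Subgroup (Φ ≃ₐ[C] Φ)) [Finite G] {x y : Φ} {l : C} (h : FixLeg G x y l) :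
    Module.finrank C⟮x⟯ Φ = 2 * Nat.card G := by
  have hfin := FunField.finiteDimensional_adjoin (k := C) (L := Φ) h.leg.tr
  rw [← Module.finrank_mul_finrank C⟮x⟯ (C⟮x⟯⟮y⟯) Φ, lgt_two h.leg]
  congr 1
  have : Fintype G := Fintype.ofFinite G
  rw [Nat.card_eq_fintype_card, ← FixedPoints.finrank_eq_card G Φ]
  have hs : (C⟮x⟯⟮y⟯).toSubfield = FixedPoints.subfield G Φ := by
    apply le_antisymm
    · intro z hz
      have hz2 : z ∈ C⟮x⟯⟮y⟯ := hz
      have hx : ∀ w ∈ C⟮x⟯, ∀ g ∈ G, g w = w := by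
        intro w hw g hg
        induction hw using IntermediateField.adjoin_induction with
        | mem a ha => rw [Set.mem_singleton_iff] at ha; rw [ha]; exact h.fx g hg
        | algebraMap a => exact g.commutes a
        | add a b _ _ ha hb => rw [map_add, ha, hb]
        | inv a _ ha => rw [map_inv₀, ha]
        | mul a b _ _ ha hb => rw [map_mul, ha, hb]
      intro g
      change (g : Φ ≃ₐ[C] Φ) z = z
      induction hz2 using IntermediateField.adjoin_induction with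
      | mem a ha => rw [Set.mem_singleton_iff] at ha; rw [ha]; exact h.fy g g.2
      | algebraMap a => exact hx a a.2 g g.2
      | add a b ha' hb' ha hb => rw [map_add, ha ha', hb hb']
      | inv a ha' ha => rw [map_inv₀, ha ha']
      | mul a b ha' hb' ha hb => rw [map_mul, ha ha', hb hb']
    · intro z hz
      have h1 : z ∈ IntermediateField.adjoin C {x, y} := by
        apply h.gen
        intro g hg
        exact hz ⟨g, hg⟩
      have h2 : IntermediateField.adjoin C {x, y} ≤ restrictScalars C (C⟮x⟯⟮y⟯) := by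
        rw [IntermediateField.adjoin_simple_adjoin_simple]
      exact h2 h1
  have key : ∀ S T : Subfield Φ, S = T → Module.finrank S Φ = Module.finrank T Φ := by
    intro S T hST
    rw [hST]
  exact key _ _ hs

end Pool.Agent.ESH
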