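import Pool.Agent.ESH.Defs

/-!
# ESH / MKS: Minkowski's theorem with conditions at finitely many places

Proof.  Let `I = ∏_{v ∈ S} 𝔭_v ^ (m v)`, a unit of the group of fractional ideals, of norm
`∏ (nrm v)^(m v)` (`FractionalIdeal.absNorm` is multiplicative).  Mathlib
`NumberField.mixedEmbedding.exists_ne_zero_mem_ideal_lt` gives `x ∈ I`, `x ≠ 0`, `w x < f w`, provided
`minkowskiBound M I < volume (convexBodyLT M f)`.  By `volume_fundamentalDomain_fractionalIdealLatticeBasis`,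
`NumberField.mixedEmbedding.volume_fundamentalDomain_latticeBasis` (`= 2⁻¹ ^ r₂ * sqrt |d|`) and
`convexBodyLT_volume` (`= 2^r₁ π^r₂ ∏ f w ^ mult`) the condition is
`2^(D - r₂) sqrt|d| N(I) < 2^r₁ π^r₂ ∏ f^mult`, that is `(2/π)^r₂ sqrt|d| N(I) < ∏ f^mult` (`D = r₁ + 2 r₂`),
which follows from `h` since `sqrt|d| ≤ |d|` (`|d| ≥ 1`).
`x ∈ I` means `v x ≤ (nrm v)^(- m v)` for `v ∈ S` and `v x ≤ 1` for `v ∉ S`: the valuation of `x` is at least
the exponent of `I` (`FractionalIdeal.count`).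
-/

namespace Pool.Agent.ESH

open NumberField IsDedekindDomain NumberField.InfinitePlace NumberField.mixedEmbedding nonZeroDivisors

private lemma mks_one_lt_nrm {M : Type*} [Field M] [NumberField M] (v : FinitePlace M) :
    (1 : ℝ) < (nrm v : ℝ) := by
  have := HeightOneSpectrum.one_lt_absNorm v.maximalIdeal
  unfold nrm
  exact_mod_cast this

private lemma mks_val_int {M : Type*} [Field M] [NumberField M] (v : FinitePlace M) {x : 𝓞 M}
    (hx : x ≠ 0) :
    v (x : M) = (nrm v : ℝ) ^ (-(FractionalIdeal.count M v.maximalIdeal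
      (FractionalIdeal.spanSingleton (𝓞 M)⁰ (x : M)))) := by
  classical
  have h1 : (FractionalIdeal.spanSingleton (𝓞 M)⁰ (x : M)) =
      ((Ideal.span {x} : Ideal (𝓞 M)) : FractionalIdeal (𝓞 M)⁰ M) := by
    rw [FractionalIdeal.coeIdeal_span_singleton]
  have h2 : (Ideal.span {x} : Ideal (𝓞 M)) ≠ 0 := by
    simpa using hx
  rw [h1, FractionalIdeal.count_coe M v.maximalIdeal h2]
  have h3 := HeightOneSpectrum.embedding_mul_absNorm M v.maximalIdeal hx
  rw [FinitePlace.norm_embedding_eq, HeightOneSpectrum.maxPowDividing, map_pow, Nat.cast_pow] at h3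
  have h4 : (0 : ℝ) < (nrm v : ℝ) := lt_trans one_pos (mks_one_lt_nrm v)
  rw [zpow_neg, zpow_natCast]
  exact eq_inv_of_mul_eq_one_left h3

private lemma mks_val {M : Type*} [Field M] [NumberField M] (v : FinitePlace M) {x : M}
    (hx : x ≠ 0) :
    v x = (nrm v : ℝ) ^ (-(FractionalIdeal.count M v.maximalIdeal
      (FractionalIdeal.spanSingleton (𝓞 M)⁰ x))) := by
  obtain ⟨n, d, hd, rfl⟩ := IsFractionRing.div_surjective (A := 𝓞 M) x
  have hd0 : d ≠ 0 := nonZeroDivisors.ne_zero hd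
  have hn0 : n ≠ 0 := by
    rintro rfl
    simp at hx
  have hdM : (algebraMap (𝓞 M) M d) ≠ 0 := by simpa using hd0
  have hv : (0 : ℝ) < v (algebraMap (𝓞 M) M d) := FinitePlace.pos_iff.mpr hdM
  have h4 : (0 : ℝ) < (nrm v : ℝ) := lt_trans one_pos (mks_one_lt_nrm v)
  have e1 : v (algebraMap (𝓞 M) M n / algebraMap (𝓞 M) M d) * v (algebraMap (𝓞 M) M d) =
      v (algebraMap (𝓞 M) M n) := by
    rw [← map_mul, div_mul_cancel₀ _ hdM]
  have e2 : FractionalIdeal.count M v.maximalIdeal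
      (FractionalIdeal.spanSingleton (𝓞 M)⁰ (algebraMap (𝓞 M) M n / algebraMap (𝓞 M) M d)) +
      FractionalIdeal.count M v.maximalIdeal
      (FractionalIdeal.spanSingleton (𝓞 M)⁰ (algebraMap (𝓞 M) M d)) =
      FractionalIdeal.count M v.maximalIdeal
      (FractionalIdeal.spanSingleton (𝓞 M)⁰ (algebraMap (𝓞 M) M n)) := by
    rw [← FractionalIdeal.count_mul M v.maximalIdeal, FractionalIdeal.spanSingleton_mul_spanSingleton,
      div_mul_cancel₀ _ hdM]
    · exact FractionalIdeal.spanSingleton_ne_zero_iff.mpr hx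
    · exact FractionalIdeal.spanSingleton_ne_zero_iff.mpr hdM
  have e3 := mks_val_int v hn0
  have e4 := mks_val_int v hd0
  change v (algebraMap (𝓞 M) M n) = _ at e3
  change v (algebraMap (𝓞 M) M d) = _ at e4
  apply mul_right_cancel₀ hv.ne'
  rw [e1, e3, e4, ← zpow_add₀ h4.ne']
  congr 1
  have : ((n : M)) = algebraMap (𝓞 M) M n := rfl
  have : ((d : M)) = algebraMap (𝓞 M) M d := rfl
  simp only [*]
  omega

theorem mks (M : Type*) [Field M] [NumberField M] (S : Finset (FinitePlace M))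
    (m : FinitePlace M → ℤ) (f : InfinitePlace M → ℝ) (hf : ∀ w, 0 < f w)
    (h : ((discr M).natAbs : ℝ) * ∏ v ∈ S, (nrm v : ℝ) ^ (m v) < ∏ w : InfinitePlace M, f w ^ w.mult) :
    ∃ x : M, x ≠ 0 ∧ (∀ v : FinitePlace M, v ∉ S → v x ≤ 1) ∧
      (∀ v ∈ S, v x ≤ (nrm v : ℝ) ^ (-m v)) ∧ ∀ w : InfinitePlace M, w x < f w := by
  classical
  set I0 : FractionalIdeal (𝓞 M)⁰ M :=
    ∏ v ∈ S, ((v.maximalIdeal.asIdeal : FractionalIdeal (𝓞 M)⁰ M)) ^ (m v) with hI0
  have hne : ∀ v : FinitePlace M, ((v.maximalIdeal.asIdeal : FractionalIdeal (𝓞 M)⁰ M)) ≠ 0 := by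
    intro v
    exact FractionalIdeal.coeIdeal_ne_zero.mpr v.maximalIdeal.ne_bot
  have hI0ne : I0 ≠ 0 := Finset.prod_ne_zero_iff.mpr fun v _ => zpow_ne_zero _ (hne v)
  set I : (FractionalIdeal (𝓞 M)⁰ M)ˣ := Units.mk0 I0 hI0ne with hI
  have hnorm : (FractionalIdeal.absNorm I0 : ℚ) = ∏ v ∈ S, (nrm v : ℚ) ^ (m v) := by
    rw [hI0, map_prod]
    refine Finset.prod_congr rfl fun v _ => ?_
    rw [map_zpow₀, FractionalIdeal.coeIdeal_absNorm]
    rfl
  have hnormR : ((FractionalIdeal.absNorm I0 : ℚ) : ℝ) = ∏ v ∈ S, (nrm v : ℝ) ^ (m v) := by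
    rw [hnorm]
    push_cast
    rfl
  have hprodpos : (0 : ℝ) < ∏ v ∈ S, (nrm v : ℝ) ^ (m v) :=
    Finset.prod_pos fun v _ => zpow_pos (lt_trans one_pos (mks_one_lt_nrm v)) _
  set g : InfinitePlace M → NNReal := fun w => ⟨f w, (hf w).le⟩ with hg
  have hvol : minkowskiBound M I < MeasureTheory.volume (convexBodyLT M g) := by
    have hfin1 : minkowskiBound M I ≠ ⊤ := (minkowskiBound_lt_top M I).ne
    have hfin2 : MeasureTheory.volume (convexBodyLT M g) ≠ ⊤ := by
      rw [convexBodyLT_volume]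
      exact ENNReal.mul_ne_top ENNReal.coe_ne_top ENNReal.coe_ne_top
    rw [← ENNReal.toReal_lt_toReal hfin1 hfin2, convexBodyLT_volume]
    have e1 : (minkowskiBound M I).toReal =
        (∏ v ∈ S, (nrm v : ℝ) ^ (m v)) * ((2 : ℝ)⁻¹ ^ nrComplexPlaces M * √|(discr M : ℝ)|) *
          2 ^ (nrRealPlaces M + 2 * nrComplexPlaces M) := by
      rw [minkowskiBound, volume_fundamentalDomain_fractionalIdealLatticeBasis,
        volume_fundamentalDomain_latticeBasis, mixedEmbedding.finrank]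
      have hfr : Module.finrank ℚ M = nrRealPlaces M + 2 * nrComplexPlaces M :=
        (card_add_two_mul_card_eq_rank M).symm
      rw [hfr]
      rw [ENNReal.toReal_mul, ENNReal.toReal_mul, ENNReal.toReal_mul, ENNReal.toReal_pow,
        ENNReal.toReal_pow, ENNReal.toReal_inv, ENNReal.toReal_ofNat, ENNReal.coe_toReal,
        Real.coe_sqrt, coe_nnnorm, Int.norm_eq_abs,
        ENNReal.toReal_ofReal (Rat.cast_nonneg.mpr (FractionalIdeal.absNorm_nonneg I.val))]
      rw [← hnormR]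
      rfl
    have e2 : ((convexBodyLTFactor M : ENNReal) * ((∏ w, (g w) ^ (mult w) : NNReal) : ENNReal)).toReal =
        2 ^ nrRealPlaces M * Real.pi ^ nrComplexPlaces M * ∏ w : InfinitePlace M, f w ^ w.mult := by
      rw [ENNReal.toReal_mul, ENNReal.coe_toReal, ENNReal.coe_toReal, convexBodyLTFactor]
      push_cast
      rfl
    rw [e1, e2]
    have hd1 : (1 : ℝ) ≤ |(discr M : ℝ)| := by
      have : 1 ≤ |discr M| := Int.one_le_abs (discr_ne_zero M)
      exact_mod_cast this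
    have hsq : √|(discr M : ℝ)| ≤ |(discr M : ℝ)| := by
      rw [Real.sqrt_le_left (by linarith)]
      nlinarith
    have hnat : ((discr M).natAbs : ℝ) = |(discr M : ℝ)| := by
      rw [← Int.cast_abs, Nat.cast_natAbs]
    rw [hnat] at h
    have hpi : (2 : ℝ) ^ nrComplexPlaces M ≤ Real.pi ^ nrComplexPlaces M :=
      pow_le_pow_left₀ (by norm_num) (by linarith [Real.pi_gt_three]) _
    have hpow : (2 : ℝ)⁻¹ ^ nrComplexPlaces M * 2 ^ (nrRealPlaces M + 2 * nrComplexPlaces M) =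
        2 ^ nrRealPlaces M * 2 ^ nrComplexPlaces M := by
      rw [pow_add, two_mul, pow_add]
      have : (2 : ℝ)⁻¹ ^ nrComplexPlaces M * 2 ^ nrComplexPlaces M = 1 := by
        rw [← mul_pow]; norm_num
      calc _ = ((2 : ℝ)⁻¹ ^ nrComplexPlaces M * 2 ^ nrComplexPlaces M) *
            (2 ^ nrRealPlaces M * 2 ^ nrComplexPlaces M) := by ring
        _ = _ := by rw [this, one_mul]
    have h2r : (0 : ℝ) < 2 ^ nrRealPlaces M := by positivity
    calc (∏ v ∈ S, (nrm v : ℝ) ^ (m v)) * ((2 : ℝ)⁻¹ ^ nrComplexPlaces M * √|(discr M : ℝ)|) *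
          2 ^ (nrRealPlaces M + 2 * nrComplexPlaces M)
        = (√|(discr M : ℝ)| * ∏ v ∈ S, (nrm v : ℝ) ^ (m v)) *
          ((2 : ℝ)⁻¹ ^ nrComplexPlaces M * 2 ^ (nrRealPlaces M + 2 * nrComplexPlaces M)) := by ring
      _ = (√|(discr M : ℝ)| * ∏ v ∈ S, (nrm v : ℝ) ^ (m v)) *
          (2 ^ nrRealPlaces M * 2 ^ nrComplexPlaces M) := by rw [hpow]
      _ ≤ (|(discr M : ℝ)| * ∏ v ∈ S, (nrm v : ℝ) ^ (m v)) *
          (2 ^ nrRealPlaces M * Real.pi ^ nrComplexPlaces M) := by
          gcongr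
      _ < (∏ w : InfinitePlace M, f w ^ w.mult) *
          (2 ^ nrRealPlaces M * Real.pi ^ nrComplexPlaces M) := by
          have : (0 : ℝ) < 2 ^ nrRealPlaces M * Real.pi ^ nrComplexPlaces M := by positivity
          exact mul_lt_mul_of_pos_right h this
      _ = _ := by ring
  obtain ⟨x, hxI, hx0, hxw⟩ := exists_ne_zero_mem_ideal_lt M I hvol
  have hle : FractionalIdeal.spanSingleton (𝓞 M)⁰ x ≤ I0 :=
    FractionalIdeal.spanSingleton_le_iff_mem.mpr hxI
  have hcnt : ∀ v : FinitePlace M, FractionalIdeal.count M v.maximalIdeal I0 ≤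
      FractionalIdeal.count M v.maximalIdeal (FractionalIdeal.spanSingleton (𝓞 M)⁰ x) := by
    intro v
    exact FractionalIdeal.count_mono M v.maximalIdeal (FractionalIdeal.spanSingleton_ne_zero_iff.mpr hx0) hle
  have hcI : ∀ v : FinitePlace M, FractionalIdeal.count M v.maximalIdeal I0 =
      if v ∈ S then m v else 0 := by
    intro v
    rw [hI0, FractionalIdeal.count_prod M v.maximalIdeal S _ (fun i _ => zpow_ne_zero _ (hne i))]
    have : ∀ i ∈ S, FractionalIdeal.count M v.maximalIdeal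
        ((i.maximalIdeal.asIdeal : FractionalIdeal (𝓞 M)⁰ M) ^ (m i)) = if i = v then m i else 0 := by
      intro i _
      rw [FractionalIdeal.count_zpow, FractionalIdeal.count_maximal]
      by_cases hiv : i = v
      · subst hiv; simp
      · have : i.maximalIdeal ≠ v.maximalIdeal := fun hh => hiv (FinitePlace.maximalIdeal_injective hh)
        simp [hiv, this]
    rw [Finset.sum_congr rfl this, Finset.sum_ite_eq' S v m]
  have hval : ∀ v : FinitePlace M, v x ≤ (nrm v : ℝ) ^ (-(if v ∈ S then m v else 0)) := by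
    intro v
    rw [mks_val v hx0]
    have h1 := hcnt v
    rw [hcI v] at h1
    exact zpow_le_zpow_right₀ (mks_one_lt_nrm v).le (by omega)
  refine ⟨x, hx0, ?_, ?_, ?_⟩
  · intro v hv
    have := hval v
    simpa [hv] using this
  · intro v hv
    have := hval v
    simpa [hv] using this
  · intro w
    have := hxw w
    exact_mod_cast this

end Pool.Agent.ESH
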