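import Pool.Agent.ESH.SPC

/-!
# ESH / TUN: a parameter is residually non-constant

`tun`: for a point `A` with parameter `t`, `t - c` is a unit of `W` for every `c ∈ V`.
Proof.  (1) `t ∉ W.nonunits`: otherwise by `gen` every non-unit of `A` is in `W.nonunits` (`V.nonunits` maps into
`W.nonunits` by `base`), so elements of `A` outside `W.nonunits` are units of `A`, and by `frac` `W ⊆ A`, so by `res` every
element of `W` is congruent to an element of `V` modulo non-units of `A`, which are in `W.nonunits`.  This contradicts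
`trans` for any non-constant `f` (`Φ ≠ C` since `FunField`).  (2) If `c ∈ V.nonunits`: `c ∈ W.nonunits`, `t ∉ W.nonunits`, so
`t - c ∉ W.nonunits`.  (3) If `c` is a unit of `V`: if `t - c` were in `W.nonunits` then it is a non-unit of `A`
(a unit of `A` is a unit of `W`), so `c = t - (t - c)` would be a non-unit of `A` (`add`), but `c⁻¹ ∈ A`.
`tun_trans`: a parameter is transcendental over `C`: it is not a constant, since for `t = c ∈ C`, `c ∈ V` by
`base`, and `t - c = 0 ∈ W.nonunits`.
`tun_res`: if `f ∈ W` is residually a constant for `A`... (used in CMP): every `a ∈ A` which is not in `W.nonunits` and is a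
non-unit has `n ≥ 1` in `dvr`.
-/

namespace Pool.Agent.ESH

open Pool.Agent.Helper11

variable {C Φ : Type*} [Field C] [Field Φ] [Algebra C Φ] [FunField C Φ] [CharZero C] [IsAlgClosed C]

private lemma TUN_base {V : ValuationSubring C} {W : ValuationSubring Φ}
    (hb : ∀ c : C, algebraMap C Φ c ∈ W ↔ c ∈ V) {c : C} (hc : c ∈ V.nonunits) :
    algebraMap C Φ c ∈ W.nonunits := by
  rw [ValuationSubring.mem_nonunits_iff] at hc ⊢
  by_contra hcon
  rw [not_lt] at hcon
  have h1 : (algebraMap C Φ c)⁻¹ ∈ W := by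
    rw [← W.valuation_le_one_iff, map_inv₀]
    exact inv_le_one_of_one_le₀ hcon
  rw [← map_inv₀, hb, ← V.valuation_le_one_iff, map_inv₀] at h1
  by_cases h0 : c = 0
  · rw [h0, map_zero, map_zero] at hcon
    exact absurd hcon (not_le.2 zero_lt_one)
  · have hpos : (0 : V.ValueGroup) < V.valuation c := zero_lt_iff.2 (by
      intro h0'
      exact h0 ((V.valuation.zero_iff).1 h0'))
    exact absurd h1 (not_le.2 ((one_lt_inv₀ hpos).2 hc))

private lemma TUN_nu_neg {A : Subring Φ} {a : Φ} (h : NU A a) : NU A (-a) := by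
  refine ⟨A.neg_mem h.1, ?_⟩
  rcases h.2 with h2 | h2
  · left; rw [h2, neg_zero]
  · right
    intro h3
    apply h2
    have := A.neg_mem h3
    rwa [inv_neg, neg_neg] at this

/-- an element of `A` in `W.nonunits` is a non-unit of `A` -/
private lemma TUN_nu {V : ValuationSubring C} {W : ValuationSubring Φ} {A : Subring Φ}
    (hA : IsPt V W A) {a : Φ} (ha : a ∈ A) (haW : a ∈ W.nonunits) : NU A a := by
  refine ⟨ha, ?_⟩
  by_contra hcon
  push Not at hcon
  have h1 := hA.le _ hcon.2
  rw [ValuationSubring.mem_nonunits_iff] at haW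
  rw [← W.valuation_le_one_iff, map_inv₀] at h1
  have hpos : (0 : W.ValueGroup) < W.valuation a := zero_lt_iff.2 (by
    intro h0'
    exact hcon.1 ((W.valuation.zero_iff).1 h0'))
  exact absurd h1 (not_le.2 ((one_lt_inv₀ hpos).2 haW))

theorem tun {V : ValuationSubring C} {W : ValuationSubring Φ} {pts : Set (Subring Φ)}
    (h : IsMdl V W pts) {A : Subring Φ} (hA : A ∈ pts) {t : Φ} (ht : IsPar V W A t) (c : C)
    (hc : c ∈ V) : t - algebraMap C Φ c ∉ W.nonunits := by
  have hpt := h.pt A hA
  have hadd : ∀ x y : Φ, x ∈ W.nonunits → y ∈ W.nonunits → x + y ∈ W.nonunits := by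
    intro x y hx hy
    rw [ValuationSubring.mem_nonunits_iff] at hx hy ⊢
    exact W.valuation.map_add_lt hx hy
  have hmul : ∀ x y : Φ, x ∈ W.nonunits → y ∈ W → x * y ∈ W.nonunits := by
    intro x y hx hy
    rw [ValuationSubring.mem_nonunits_iff] at hx ⊢
    rw [← W.valuation_le_one_iff] at hy
    rw [map_mul]
    exact mul_lt_one_of_lt_of_le hx hy
  have htW : t ∉ W.nonunits := by
    intro htn
    have hnu : ∀ a, NU A a → a ∈ W.nonunits := by
      intro a ha
      obtain ⟨c, hc, x, hx, y, hy, rfl⟩ := ht.gen a ha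
      exact hadd _ _ (hmul _ _ (TUN_base h.base hc) (hpt.le x hx)) (hmul _ _ htn (hpt.le y hy))
    have hWA : ∀ f ∈ W, f ∈ A := by
      intro f hf
      obtain ⟨a, ha, s, hs, hsW, hfs⟩ := hpt.frac f hf
      have hs2 : ¬ NU A s := fun hs3 => hsW (hnu s hs3)
      have hs3 : s ≠ 0 ∧ s⁻¹ ∈ A := by
        constructor
        · intro h0
          exact hs2 ⟨hs, Or.inl h0⟩
        · by_contra h0
          exact hs2 ⟨hs, Or.inr h0⟩
      have : f = a * s⁻¹ := by
        rw [← hfs, mul_assoc, mul_inv_cancel₀ hs3.1, mul_one]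
      rw [this]
      exact A.mul_mem ha hs3.2
    obtain ⟨x, hx⟩ := FunField.exists_transcendental (k := C) (L := Φ)
    have hxc : ∀ c : C, x ≠ algebraMap C Φ c := by
      rintro c rfl
      exact hx (isAlgebraic_algebraMap c)
    obtain ⟨a, c, hc0, h1, h2⟩ := h.trans x hxc
    obtain ⟨b, hb, hb2⟩ := hpt.res _ (hWA _ h1)
    exact h2 b hb (hnu _ hb2)
  intro hcon
  by_cases hcn : c ∈ V.nonunits
  · apply htW
    have := hadd _ _ hcon (TUN_base h.base hcn)
    rwa [sub_add_cancel] at this
  · have hc0 : c ≠ 0 := by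
      rintro rfl
      apply hcn
      rw [ValuationSubring.mem_nonunits_iff, map_zero]
      exact zero_lt_one
    rw [ValuationSubring.mem_nonunits_iff, not_lt] at hcn
    have hcinv : c⁻¹ ∈ V := by
      rw [← V.valuation_le_one_iff, map_inv₀]
      exact inv_le_one_of_one_le₀ hcn
    have h1 : NU A (t - algebraMap C Φ c) :=
      TUN_nu hpt (A.sub_mem ht.mem.1 (hpt.base c hc)) hcon
    have h2 := hpt.add _ _ ht.mem (TUN_nu_neg h1)
    have h3 : t + -(t - algebraMap C Φ c) = algebraMap C Φ c := by ring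
    rw [h3] at h2
    rcases h2.2 with h4 | h4
    · exact hc0 (by simpa using h4)
    · apply h4
      rw [← map_inv₀]
      exact hpt.base _ hcinv

theorem tun_trans {V : ValuationSubring C} {W : ValuationSubring Φ} {pts : Set (Subring Φ)}
    (h : IsMdl V W pts) {A : Subring Φ} (hA : A ∈ pts) {t : Φ} (ht : IsPar V W A t) :
    Transcendental C t := by
  intro halg
  obtain ⟨c, hc⟩ := mem_range_of_isAlgebraic halg
  have hcV : c ∈ V := by
    rw [← h.base, hc]
    exact (h.pt A hA).le _ ht.mem.1
  apply tun h hA ht c hcV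
  rw [← hc, sub_self, ValuationSubring.mem_nonunits_iff, map_zero]
  exact zero_lt_one

end Pool.Agent.ESH
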