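import Pool.Agent.ESH.DefsE
import Pool.Agent.ESH.ZER
import Pool.Agent.ESH.TUN
import Pool.Agent.ESH.ORD

/-!
# ESH / OSA: orders on residue discs: factorisation

`osa_elem`: let `a ∈ A \ W.nonunits`.  Induction on `n(a) = nA C A a` (a finite sum of non-negative integers, as `A ⊆ R.ge 0`).  If `a` is a unit of `A` all orders
are `0`.  Otherwise (ZER) there is `R` above `A` with `ev R a = 0`; `a = (t - c) b`, `c = ev R t ∈ V.nonunits` (`spc_ev`), `b ∈ A` (`zero`); `b ∉ W.nonunits`.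
`R.ord (t - c) = 1` (`ord_par`) and `R'.ord (t - c) = 0` for the other places above `A` (`ord_inj`; the value of `t - c` at `R'` is not `0`).
So `nA a = 1 + nA b`; and `t - c` is congruent to `t` modulo `W.nonunits`.  Result: `a ≡ t^n u`, `n = nA a`.
`osa`: `f ∈ W \ W.nonunits`: `f = a/s` with `a, s ∈ A \ W.nonunits` (`frac`).
`osa_uniq`: `t^n u ≡ t^m v` modulo `W.nonunits`, `n > m`, gives (`t` is a unit of `W`) `t^(n-m) u v⁻¹ - 1 ∈ W.nonunits ∩ A`, a non-unit of `A`, so `1` would be a non-unit of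
`A` (`add`).
-/

namespace Pool.Agent.ESH

open Pool.Agent.Helper11 Polynomial IntermediateField

variable {C Φ : Type*} [Field C] [Field Φ] [Algebra C Φ] [FunField C Φ] [CharZero C] [IsAlgClosed C]

private theorem OSA_nu {K : Type*} [Field K] (A : ValuationSubring K) (a : K) :
    a ∈ A.nonunits ↔ a = 0 ∨ a⁻¹ ∉ A := by
  rw [ValuationSubring.mem_nonunits_iff]
  by_cases ha : a = 0
  · subst ha
    simp
  · have h1 : A.valuation a ≠ 0 := (Valuation.ne_zero_iff _).2 ha
    rw [← ValuationSubring.valuation_le_one_iff, map_inv₀, inv_le_one₀ (zero_lt_iff.2 h1), not_le]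
    simp [ha]

private theorem OSA_addn {K : Type*} [Field K] {A : ValuationSubring K} {a b : K}
    (ha : a ∈ A.nonunits) (hb : b ∈ A.nonunits) : a + b ∈ A.nonunits := by
  rw [ValuationSubring.mem_nonunits_iff] at ha hb ⊢
  exact A.valuation.map_add_lt ha hb

private theorem OSA_muln {K : Type*} [Field K] {A : ValuationSubring K} {a b : K}
    (ha : a ∈ A.nonunits) (hb : b ∈ A) : a * b ∈ A.nonunits := by
  rw [ValuationSubring.mem_nonunits_iff] at ha ⊢
  rw [← A.valuation_le_one_iff] at hb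
  rw [map_mul]
  exact mul_lt_one_of_lt_of_le ha hb

private theorem OSA_negn {K : Type*} [Field K] {A : ValuationSubring K} {a : K}
    (ha : a ∈ A.nonunits) : -a ∈ A.nonunits := by
  rw [ValuationSubring.mem_nonunits_iff] at ha ⊢
  rwa [Valuation.map_neg]

private theorem OSA_basen {V : ValuationSubring C} {W : ValuationSubring Φ}
    (hb : ∀ c : C, algebraMap C Φ c ∈ W ↔ c ∈ V) {c : C} (hc : c ∈ V.nonunits) :
    algebraMap C Φ c ∈ W.nonunits := by
  rw [OSA_nu] at hc ⊢
  rcases hc with rfl | hc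
  · left; rw [map_zero]
  · right
    rw [← map_inv₀, hb]
    exact hc

/-- `nA` as a finite sum -/
private theorem OSA_fin (A : Subring Φ) (f : Φ) :
    (Function.support fun R : {R : Place C Φ // Below A R} => R.1.ord f).Finite := by
  have h := finite_ord_ne_zero (k := C) f
  have h1 := h.preimage (f := fun R : {R : Place C Φ // Below A R} => R.1)
    (Subtype.val_injective.injOn)
  exact h1.subset fun R hR => hR

theorem OSA_mul (A : Subring Φ) {f g : Φ} (hf : f ≠ 0) (hg : g ≠ 0) :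
    nA C A (f * g) = nA C A f + nA C A g := by
  unfold nA
  rw [← finsum_add_distrib (OSA_fin A f) (OSA_fin A g)]
  exact finsum_congr fun R => R.1.ord_mul f g hf hg

theorem OSA_unit (A : Subring Φ) {u : Φ} (hu0 : u ≠ 0) (hu : u ∈ A) (hu' : u⁻¹ ∈ A) :
    nA C A u = 0 := by
  unfold nA
  rw [finsum_congr (g := fun _ => (0 : ℤ)), finsum_zero]
  intro R
  have h1 := R.1.le_ord_of_mem (R.2 u hu) hu0
  have h2 := R.1.le_ord_of_mem (R.2 u⁻¹ hu') (inv_ne_zero hu0)
  rw [R.1.ord_inv] at h2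
  omega

theorem OSA_nonneg (A : Subring Φ) {a : Φ} (ha0 : a ≠ 0) (ha : a ∈ A) : 0 ≤ nA C A a := by
  unfold nA
  exact finsum_nonneg fun R => R.1.le_ord_of_mem (R.2 a ha) ha0

theorem OSA_lin {V : ValuationSubring C} {W : ValuationSubring Φ} {pts : Set (Subring Φ)}
    (hV : Rk1 V) (h : IsMdl V W pts) {A : Subring Φ} (hA : A ∈ pts) {t : Φ} (ht : IsPar V W A t)
    (R : Place C Φ) (hR : Below A R) : nA C A (t - algebraMap C Φ (ev R t)) = 1 := by
  unfold nA
  rw [finsum_eq_single _ (⟨R, hR⟩ : {R : Place C Φ // Below A R}), ord_par hV h hA ht R hR]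
  rintro ⟨R', hR'⟩ hne
  show R'.ord (t - algebraMap C Φ (ev R t)) = 0
  have h1 : t - algebraMap C Φ (ev R t) ∈ R'.ge 0 :=
    sub_mem (hR' t ht.mem.1) (R'.algebraMap_mem_ge _)
  have h2 : ev R' (t - algebraMap C Φ (ev R t)) ≠ 0 := by
    rw [evl_sub R' (hR' t ht.mem.1) (R'.algebraMap_mem_ge _), evl_const]
    intro h3
    apply hne
    have h4 := ord_inj hV h hA ht R R' hR hR' (sub_eq_zero.1 h3).symm
    exact Subtype.ext h4.symm
  have h3 : t - algebraMap C Φ (ev R t) ≠ 0 := by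
    intro h4
    rw [h4] at h2
    apply h2
    rw [evl_zero_iff R' (zero_mem _)]
    exact zero_mem _
  have h4 := (evl_inv R' h1 h2).1
  have h5 := R'.le_ord_of_mem h1 h3
  have h6 := R'.le_ord_of_mem h4 (inv_ne_zero h3)
  rw [R'.ord_inv] at h6
  omega

theorem osa_elem {V : ValuationSubring C} {W : ValuationSubring Φ} {pts : Set (Subring Φ)}
    (hV : Rk1 V) (h : IsMdl V W pts) {A : Subring Φ} (hA : A ∈ pts) {t : Φ} (ht : IsPar V W A t)
    (a : Φ) (ha : a ∈ A) (haW : a ∉ W.nonunits) :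
    0 ≤ nA C A a ∧ ∃ u ∈ A, u ≠ 0 ∧ u⁻¹ ∈ A ∧ a - t ^ (nA C A a) * u ∈ W.nonunits := by
  have hpt := h.pt A hA
  have htW : t ∈ W := hpt.le t ht.mem.1
  have h0n : (0 : Φ) ∈ W.nonunits := by
    rw [OSA_nu]; left; rfl
  have key : ∀ n : ℕ, ∀ a ∈ A, a ∉ W.nonunits → nA C A a ≤ n → ∃ m : ℕ, nA C A a = m ∧
      ∃ u ∈ A, u ≠ 0 ∧ u⁻¹ ∈ A ∧ a - t ^ m * u ∈ W.nonunits := by
    intro n
    induction n with
    | zero =>
      intro a ha haW hn
      have ha0 : a ≠ 0 := by
        rintro rfl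
        exact haW h0n
      by_cases hu : a⁻¹ ∈ A
      · refine ⟨0, by rw [OSA_unit A ha0 ha hu]; rfl, a, ha, ha0, hu, ?_⟩
        rw [pow_zero, one_mul, sub_self]
        exact h0n
      · exfalso
        obtain ⟨R, hR, hRa⟩ := zer hV hpt a ⟨ha, Or.inr hu⟩ haW
        obtain ⟨b, hb, hab⟩ := ht.zero R hR (ev R t) (evl_mem R (hR t ht.mem.1)) a ha hRa
        have hb0 : b ≠ 0 := by
          rintro rfl
          rw [mul_zero] at hab
          exact ha0 hab
        have hl0 : t - algebraMap C Φ (ev R t) ≠ 0 := by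
          intro h1
          rw [h1, zero_mul] at hab
          exact ha0 hab
        rw [hab, OSA_mul A hl0 hb0, OSA_lin hV h hA ht R hR] at hn
        have := OSA_nonneg (C := C) A hb0 hb
        simp at hn
        omega
    | succ n ih =>
      intro a ha haW hn
      have ha0 : a ≠ 0 := by
        rintro rfl
        exact haW h0n
      by_cases hu : a⁻¹ ∈ A
      · refine ⟨0, by rw [OSA_unit A ha0 ha hu]; rfl, a, ha, ha0, hu, ?_⟩
        rw [pow_zero, one_mul, sub_self]
        exact h0n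
      · obtain ⟨R, hR, hRa⟩ := zer hV hpt a ⟨ha, Or.inr hu⟩ haW
        obtain ⟨b, hb, hab⟩ := ht.zero R hR (ev R t) (evl_mem R (hR t ht.mem.1)) a ha hRa
        have hb0 : b ≠ 0 := by
          rintro rfl
          rw [mul_zero] at hab
          exact ha0 hab
        have hl0 : t - algebraMap C Φ (ev R t) ≠ 0 := by
          intro h1
          rw [h1, zero_mul] at hab
          exact ha0 hab
        have hs := spc_ev hV hpt R hR t ht.mem.1
        have hcn : algebraMap C Φ (ev R t) ∈ W.nonunits := OSA_basen h.base (hs.2.1 ht.mem)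
        have hcW : algebraMap C Φ (ev R t) ∈ W := W.nonunits_subset hcn
        have hbW : b ∉ W.nonunits := by
          intro h1
          apply haW
          rw [hab, mul_comm]
          exact OSA_muln h1 (sub_mem htW hcW)
        have hn' : nA C A a = 1 + nA C A b := by
          rw [hab, OSA_mul A hl0 hb0, OSA_lin hV h hA ht R hR]
        obtain ⟨m, hm, u, hu, hu0, hu', hmem⟩ := ih b hb hbW (by
          rw [hn'] at hn
          push_cast at hn
          omega)
        refine ⟨m + 1, by rw [hn', hm]; push_cast; ring, u, hu, hu0, hu', ?_⟩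
        have e : a - t ^ (m + 1) * u = (b - t ^ m * u) * t + -(algebraMap C Φ (ev R t) * b) := by
          rw [hab]; ring
        rw [e]
        exact OSA_addn (OSA_muln hmem htW) (OSA_negn (OSA_muln hcn (hpt.le b hb)))
  obtain ⟨m, hm, hres⟩ := key (nA C A a).toNat a ha haW (Int.self_le_toNat _)
  rw [hm]
  refine ⟨Int.natCast_nonneg m, ?_⟩
  simpa only [zpow_natCast] using hres

theorem osa {V : ValuationSubring C} {W : ValuationSubring Φ} {pts : Set (Subring Φ)}
    (hV : Rk1 V) (h : IsMdl V W pts) {A : Subring Φ} (hA : A ∈ pts) {t : Φ} (ht : IsPar V W A t)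
    (f : Φ) (hf : f ∈ W) (hfW : f ∉ W.nonunits) :
    ∃ u ∈ A, u ≠ 0 ∧ u⁻¹ ∈ A ∧ f - t ^ (nA C A f) * u ∈ W.nonunits := by
  have hpt := h.pt A hA
  have h0n : (0 : Φ) ∈ W.nonunits := by
    rw [OSA_nu]; left; rfl
  have inv_of : ∀ x : Φ, x ∉ W.nonunits → x⁻¹ ∈ W := by
    intro x hx
    rw [OSA_nu, not_or, not_not] at hx
    exact hx.2
  obtain ⟨a, ha, s, hs, hsW, e⟩ := hpt.frac f hf
  have hs0 : s ≠ 0 := by
    rintro rfl
    exact hsW h0n
  have hf0 : f ≠ 0 := by
    rintro rfl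
    exact hfW h0n
  have haW : a ∉ W.nonunits := by
    intro h1
    apply hfW
    have e1 : f = a * s⁻¹ := by
      rw [← e]; field_simp
    rw [e1]
    exact OSA_muln h1 (inv_of s hsW)
  obtain ⟨-, u, hu, hu0, hu', h1⟩ := osa_elem hV h hA ht a ha haW
  obtain ⟨-, v, hv, hv0, hv', h2⟩ := osa_elem hV h hA ht s hs hsW
  have htn : t ∉ W.nonunits := by
    have := tun h hA ht 0 (zero_mem V)
    rwa [map_zero, sub_zero] at this
  have ht0 : t ≠ 0 := by
    rintro rfl
    exact htn h0n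
  have htW : t ∈ W := hpt.le t ht.mem.1
  have htW' : t⁻¹ ∈ W := inv_of t htn
  have htz : ∀ n : ℤ, t ^ n ∈ W := by
    intro n
    rcases n with n | n
    · rw [Int.ofNat_eq_natCast, zpow_natCast]
      exact pow_mem htW n
    · rw [zpow_negSucc, ← inv_pow]
      exact pow_mem htW' (n + 1)
  have hn : nA C A f = nA C A a - nA C A s := by
    rw [← e, OSA_mul A hf0 hs0]
    ring
  refine ⟨u * v⁻¹, mul_mem hu hv', mul_ne_zero hu0 (inv_ne_zero hv0), ?_, ?_⟩
  · rw [mul_inv, inv_inv]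
    exact mul_mem hu' hv
  · have e2 : f - t ^ (nA C A f) * (u * v⁻¹) =
        (a - t ^ (nA C A a) * u) * s⁻¹ +
        -((s - t ^ (nA C A s) * v) * (t ^ (nA C A a - nA C A s) * u * v⁻¹ * s⁻¹)) := by
      rw [hn, zpow_sub₀ ht0, ← e]
      have := zpow_ne_zero (nA C A s) ht0
      field_simp
      ring
    rw [e2]
    refine OSA_addn (OSA_muln h1 (inv_of s hsW)) (OSA_negn (OSA_muln h2 ?_))
    exact mul_mem (mul_mem (mul_mem (htz _) (hpt.le u hu)) (hpt.le _ hv')) (inv_of s hsW)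

private theorem OSA_uniq_lt {V : ValuationSubring C} {W : ValuationSubring Φ} {pts : Set (Subring Φ)}
    (h : IsMdl V W pts) {A : Subring Φ} (hA : A ∈ pts) {t : Φ} (ht : IsPar V W A t)
    (n m : ℤ) (u v : Φ) (hu : u ∈ A) (hv0 : v ≠ 0) (hv' : v⁻¹ ∈ A)
    (he : t ^ n * u - t ^ m * v ∈ W.nonunits) (hlt : m < n) : False := by
  have hpt := h.pt A hA
  have h0n : (0 : Φ) ∈ W.nonunits := by
    rw [OSA_nu]; left; rfl
  have inv_of : ∀ x : Φ, x ∉ W.nonunits → x⁻¹ ∈ W := by
    intro x hx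
    rw [OSA_nu, not_or, not_not] at hx
    exact hx.2
  have htn : t ∉ W.nonunits := by
    have := tun h hA ht 0 (zero_mem V)
    rwa [map_zero, sub_zero] at this
  have ht0 : t ≠ 0 := by
    rintro rfl
    exact htn h0n
  have htW : t ∈ W := hpt.le t ht.mem.1
  have htW' : t⁻¹ ∈ W := inv_of t htn
  have htz : ∀ n : ℤ, t ^ n ∈ W := by
    intro n
    rcases n with n | n
    · rw [Int.ofNat_eq_natCast, zpow_natCast]
      exact pow_mem htW n
    · rw [zpow_negSucc, ← inv_pow]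
      exact pow_mem htW' (n + 1)
  obtain ⟨k, hk⟩ : ∃ k : ℕ, n = m + (k + 1 : ℕ) := by
    refine ⟨(n - m - 1).toNat, ?_⟩
    push_cast
    rw [Int.toNat_of_nonneg (by omega)]
    ring
  have h1 : t ^ (k + 1) * u * v⁻¹ - 1 ∈ W.nonunits := by
    have e : t ^ (k + 1) * u * v⁻¹ - 1 = (t ^ n * u - t ^ m * v) * (t ^ (-m) * v⁻¹) := by
      rw [hk, zpow_add₀ ht0, zpow_natCast, zpow_neg]
      have := zpow_ne_zero m ht0
      field_simp
    rw [e]
    exact OSA_muln he (mul_mem (htz _) (hpt.le _ hv'))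
  have h2 : NU A (t ^ (k + 1) * u * v⁻¹) := by
    have hm : t ^ k * u * v⁻¹ ∈ A := mul_mem (mul_mem (pow_mem ht.mem.1 k) hu) hv'
    have e : t ^ (k + 1) * u * v⁻¹ = t * (t ^ k * u * v⁻¹) := by ring
    rw [e]
    refine ⟨mul_mem ht.mem.1 hm, ?_⟩
    by_cases hz : t * (t ^ k * u * v⁻¹) = 0
    · left; exact hz
    · right
      intro h3
      rcases ht.mem.2 with h4 | h4
      · exact ht0 h4
      · apply h4
        have h5 := mul_mem hm h3
        have e5 : t ^ k * u * v⁻¹ * (t * (t ^ k * u * v⁻¹))⁻¹ = t⁻¹ := by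
          have h6 : t ^ k * u * v⁻¹ ≠ 0 := fun h6 => hz (by rw [h6, mul_zero])
          rw [mul_inv, mul_comm t⁻¹, ← mul_assoc, mul_inv_cancel₀ h6, one_mul]
        rwa [e5] at h5
  have h3 : NU A (1 - t ^ (k + 1) * u * v⁻¹) := by
    refine ⟨sub_mem (one_mem A) h2.1, ?_⟩
    by_contra hcon
    push Not at hcon
    have h4 := OSA_negn h1
    rw [neg_sub, OSA_nu] at h4
    rcases h4 with h4 | h4
    · exact hcon.1 h4
    · exact h4 (hpt.le _ hcon.2)
  have h4 := hpt.add _ _ h3 h2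
  rw [sub_add_cancel] at h4
  rcases h4.2 with h5 | h5
  · exact one_ne_zero h5
  · apply h5
    rw [inv_one]
    exact one_mem A

theorem osa_uniq {V : ValuationSubring C} {W : ValuationSubring Φ} {pts : Set (Subring Φ)}
    (hV : Rk1 V) (h : IsMdl V W pts) {A : Subring Φ} (hA : A ∈ pts) {t : Φ} (ht : IsPar V W A t)
    (n m : ℤ) (u v : Φ) (hu : u ∈ A) (hu0 : u ≠ 0) (hu' : u⁻¹ ∈ A) (hv : v ∈ A) (hv0 : v ≠ 0) (hv' : v⁻¹ ∈ A)
    (he : t ^ n * u - t ^ m * v ∈ W.nonunits) : n = m := by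
  rcases lt_trichotomy n m with h1 | h1 | h1
  · exfalso
    refine OSA_uniq_lt h hA ht m n v u hv hu0 hu' ?_ h1
    have := OSA_negn he
    rwa [neg_sub] at this
  · exact h1
  · exfalso
    exact OSA_uniq_lt h hA ht n m u v hu hv0 hv' he h1

end Pool.Agent.ESH
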