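import Pool.Agent.ESH.OSA

/-!
# ESH / OSB: orders on residue discs: properties

`osb_mul`: finite sums (`finite_ord_ne_zero`).  `osb_congr`: `osa` for `f` and `g` and `osa_uniq`.  `osb_eq`: same.  `osb_nonneg`: `A ⊆ R.ge 0`.
`osb_const`: constants have order `0`.  `osb_shift`: `n = nA f < 0`, `f ≡ t^n u`, so `f - b ≡ t^n (u - b t^(-n))`, and `u - b t^(-n)` is a unit of `A` (`u` is a unit and
`b t^(-n)` a non-unit); `f - b ∉ W.nonunits` because it is `t^n` times a unit of `W` up to `W.nonunits`.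
`osb_pos`: if `nA f > 0` then `f ≡ t^n u`; for a unit `b` of `V`, `f + b ≡ b + t^n u`, a unit of `A`: `nA (f + b) = 0`.
-/

namespace Pool.Agent.ESH

open Pool.Agent.Helper11 Polynomial IntermediateField

variable {C Φ : Type*} [Field C] [Field Φ] [Algebra C Φ] [FunField C Φ] [CharZero C] [IsAlgClosed C]


private theorem osb_add {W : ValuationSubring Φ} {x y : Φ} (hx : x ∈ W.nonunits)
    (hy : y ∈ W.nonunits) : x + y ∈ W.nonunits := by
  rw [ValuationSubring.mem_nonunits_iff] at hx hy ⊢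
  exact W.valuation.map_add_lt hx hy

private theorem osb_neg {W : ValuationSubring Φ} {x : Φ} (hx : x ∈ W.nonunits) :
    -x ∈ W.nonunits := by
  rw [ValuationSubring.mem_nonunits_iff] at hx ⊢
  rwa [Valuation.map_neg]

private theorem osb_vmul {W : ValuationSubring Φ} {a x : Φ} (ha : a ∈ W.nonunits) (hx : x ∈ W) :
    a * x ∈ W.nonunits := by
  rw [ValuationSubring.mem_nonunits_iff] at ha ⊢
  rw [map_mul]
  exact mul_lt_one_of_lt_of_le ha ((W.valuation_le_one_iff x).mpr hx)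

private theorem osb_one {W : ValuationSubring Φ} : (1 : Φ) ∉ W.nonunits := by
  rw [ValuationSubring.mem_nonunits_iff, map_one]
  exact lt_irrefl _

private theorem osb_inv_mem {W : ValuationSubring Φ} {x : Φ} (hx : x ∉ W.nonunits) : x⁻¹ ∈ W := by
  rw [ValuationSubring.mem_nonunits_iff, not_lt] at hx
  rw [← W.valuation_le_one_iff, map_inv₀]
  exact inv_le_one_of_one_le₀ hx

private theorem osb_unit_not {W : ValuationSubring Φ} {x : Φ} (hx0 : x ≠ 0) (hx : x⁻¹ ∈ W) :
    x ∉ W.nonunits := by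
  intro h
  have := osb_vmul h hx
  rw [mul_inv_cancel₀ hx0] at this
  exact osb_one this

private theorem osb_NU_mul {A : Subring Φ} {a t : Φ} (ha : a ∈ A) (ht : NU A t) : NU A (a * t) := by
  refine ⟨A.mul_mem ha ht.1, ?_⟩
  by_cases h0 : a * t = 0
  · exact Or.inl h0
  · right
    intro hinv
    have ha0 : a ≠ 0 := left_ne_zero_of_mul h0
    have ht0 : t ≠ 0 := right_ne_zero_of_mul h0
    rcases ht.2 with h | h
    · exact ht0 h
    · apply h
      have : t⁻¹ = a * (a * t)⁻¹ := by field_simp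
      rw [this]
      exact A.mul_mem ha hinv

private theorem osb_fin (A : Subring Φ) (f : Φ) :
    (Function.support fun R : {R : Place C Φ // Below A R} => R.1.ord f).Finite :=
  (finite_ord_ne_zero (k := C) f).preimage Subtype.val_injective.injOn

theorem osb_mul (A : Subring Φ) (f g : Φ) (hf : f ≠ 0) (hg : g ≠ 0) :
    nA C A (f * g) = nA C A f + nA C A g := by
  unfold nA
  rw [← finsum_add_distrib (osb_fin A f) (osb_fin A g)]
  exact finsum_congr fun R => R.1.ord_mul f g hf hg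

theorem osb_inv (A : Subring Φ) (f : Φ) : nA C A f⁻¹ = - nA C A f := by
  unfold nA
  rw [← finsum_neg_distrib]
  exact finsum_congr fun R => R.1.ord_inv f

theorem osb_const (A : Subring Φ) (c : C) : nA C A (algebraMap C Φ c) = 0 := by
  unfold nA
  rw [finsum_congr fun R => R.1.ord_algebraMap c, finsum_zero]

theorem osb_nonneg (A : Subring Φ) (f : Φ) (hf : f ∈ A) : 0 ≤ nA C A f := by
  unfold nA
  apply finsum_nonneg
  intro R
  rcases R.2 f hf with h | h
  · rw [h, R.1.ord_zero]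
  · exact h

theorem osb_congr {V : ValuationSubring C} {W : ValuationSubring Φ} {pts : Set (Subring Φ)}
    (hV : Rk1 V) (h : IsMdl V W pts) {A : Subring Φ} (hA : A ∈ pts) (f g : Φ) (hf : f ∈ W)
    (hfW : f ∉ W.nonunits) (he : f - g ∈ W.nonunits) : nA C A f = nA C A g := by
  obtain ⟨t, ht⟩ := (h.pt A hA).par
  have hg : g ∈ W := by
    have : g = f - (f - g) := by ring
    rw [this]
    exact sub_mem hf (W.nonunits_subset he)
  have hgW : g ∉ W.nonunits := by
    intro hg'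
    apply hfW
    have : f = (f - g) + g := by ring
    rw [this]
    exact osb_add he hg'
  obtain ⟨u, hu, hu0, hu', hue⟩ := osa hV h hA ht f hf hfW
  obtain ⟨v, hv, hv0, hv', hve⟩ := osa hV h hA ht g hg hgW
  apply osa_uniq hV h hA ht _ _ u v hu hu0 hu' hv hv0 hv'
  have : t ^ nA C A f * u - t ^ nA C A g * v =
      -(f - t ^ nA C A f * u) + ((f - g) + (g - t ^ nA C A g * v)) := by ring
  rw [this]
  exact osb_add (osb_neg hue) (osb_add he hve)

theorem osb_eq {V : ValuationSubring C} {W : ValuationSubring Φ} {pts : Set (Subring Φ)}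
    (hV : Rk1 V) (h : IsMdl V W pts) {A : Subring Φ} (hA : A ∈ pts) {t : Φ} (ht : IsPar V W A t)
    (f : Φ) (n : ℤ) (u : Φ) (hu : u ∈ A) (hu0 : u ≠ 0) (hu' : u⁻¹ ∈ A) (he : f - t ^ n * u ∈ W.nonunits) :
    f ∈ W ∧ f ∉ W.nonunits ∧ nA C A f = n := by
  have hpt := h.pt A hA
  have htW : t ∈ W := hpt.le t ht.mem.1
  have htn : t ∉ W.nonunits := by
    have := tun h hA ht 0 V.zero_mem
    rwa [map_zero, sub_zero] at this
  have ht0 : t ≠ 0 := by
    intro h0
    apply htn
    rw [h0, ValuationSubring.mem_nonunits_iff, map_zero]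
    exact zero_lt_one
  have htW' : t⁻¹ ∈ W := osb_inv_mem htn
  have hzpow : ∀ m : ℤ, t ^ m ∈ W := by
    intro m
    rcases m with m | m
    · rw [Int.ofNat_eq_natCast, zpow_natCast]
      exact pow_mem htW m
    · rw [zpow_negSucc, ← inv_pow]
      exact pow_mem htW' (m + 1)
  have h1 : t ^ n * u ∈ W := W.mul_mem _ _ (hzpow n) (hpt.le u hu)
  have h2 : t ^ n * u ∉ W.nonunits := by
    apply osb_unit_not (mul_ne_zero (zpow_ne_zero _ ht0) hu0)
    rw [mul_inv, ← zpow_neg]
    exact W.mul_mem _ _ (hzpow (-n)) (hpt.le _ hu')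
  have hf : f ∈ W := by
    have : f = (f - t ^ n * u) + t ^ n * u := by ring
    rw [this]
    exact W.add_mem _ _ (W.nonunits_subset he) h1
  have hfW : f ∉ W.nonunits := by
    intro hf'
    apply h2
    have : t ^ n * u = f + -(f - t ^ n * u) := by ring
    rw [this]
    exact osb_add hf' (osb_neg he)
  refine ⟨hf, hfW, ?_⟩
  obtain ⟨v, hv, hv0, hv', hve⟩ := osa hV h hA ht f hf hfW
  apply osa_uniq hV h hA ht _ _ v u hv hv0 hv' hu hu0 hu'
  have : t ^ nA C A f * v - t ^ n * u = -(f - t ^ nA C A f * v) + (f - t ^ n * u) := by ring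
  rw [this]
  exact osb_add (osb_neg hve) he

theorem osb_shift {V : ValuationSubring C} {W : ValuationSubring Φ} {pts : Set (Subring Φ)}
    (hV : Rk1 V) (h : IsMdl V W pts) {A : Subring Φ} (hA : A ∈ pts) (f : Φ) (hf : f ∈ W)
    (hfW : f ∉ W.nonunits) (hn : nA C A f < 0) (b : C) (hb : b ∈ V) :
    f - algebraMap C Φ b ∈ W ∧ f - algebraMap C Φ b ∉ W.nonunits ∧ nA C A (f - algebraMap C Φ b) = nA C A f := by
  have hpt := h.pt A hA
  obtain ⟨t, ht⟩ := hpt.par
  obtain ⟨u, hu, hu0, hu', hue⟩ := osa hV h hA ht f hf hfW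
  have htn : t ∉ W.nonunits := by
    have := tun h hA ht 0 V.zero_mem
    rwa [map_zero, sub_zero] at this
  have ht0 : t ≠ 0 := by
    intro h0
    apply htn
    rw [h0, ValuationSubring.mem_nonunits_iff, map_zero]
    exact zero_lt_one
  obtain ⟨m, hm⟩ : ∃ m : ℕ, nA C A f = -((m : ℤ) + 1) := by
    refine ⟨(-nA C A f - 1).toNat, ?_⟩
    rw [Int.toNat_of_nonneg (by omega)]
    ring
  have hbA : algebraMap C Φ b ∈ A := hpt.base b hb
  have hNU : NU A (algebraMap C Φ b * t ^ m * t) :=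
    osb_NU_mul (A.mul_mem hbA (pow_mem ht.mem.1 m)) ht.mem
  have hu2 : u - algebraMap C Φ b * t ^ m * t ∈ A := A.sub_mem hu hNU.1
  have hnot : ¬ NU A (u - algebraMap C Φ b * t ^ m * t) := by
    intro hN
    have h3 := hpt.add _ _ hN hNU
    rw [sub_add_cancel] at h3
    rcases h3.2 with h4 | h4
    · exact hu0 h4
    · exact h4 hu'
  have hw0 : u - algebraMap C Φ b * t ^ m * t ≠ 0 := fun h0 => hnot ⟨hu2, Or.inl h0⟩
  have hw' : (u - algebraMap C Φ b * t ^ m * t)⁻¹ ∈ A := by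
    by_contra h0
    exact hnot ⟨hu2, Or.inr h0⟩
  refine osb_eq hV h hA ht _ (nA C A f) _ hu2 hw0 hw' ?_
  have e : t ^ nA C A f * (algebraMap C Φ b * t ^ m * t) = algebraMap C Φ b := by
    rw [hm, zpow_neg, show ((m : ℤ) + 1) = ((m + 1 : ℕ) : ℤ) by push_cast; ring, zpow_natCast,
      pow_succ]
    field_simp
  have e2 : f - algebraMap C Φ b - t ^ nA C A f * (u - algebraMap C Φ b * t ^ m * t) =
      f - t ^ nA C A f * u := by
    rw [mul_sub, e]
    ring
  rw [e2]
  exact hue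

theorem osb_pos {V : ValuationSubring C} {W : ValuationSubring Φ} {pts : Set (Subring Φ)}
    (hV : Rk1 V) (h : IsMdl V W pts) {A : Subring Φ} (hA : A ∈ pts) (f : Φ) (hf : f ∈ W)
    (hfW : f ∉ W.nonunits) (hn : 0 < nA C A f) (b : C) (hb : V.valuation b = 1) :
    f + algebraMap C Φ b ∉ W.nonunits ∧ nA C A (f + algebraMap C Φ b) = 0 := by
  have hpt := h.pt A hA
  obtain ⟨t, ht⟩ := hpt.par
  obtain ⟨u, hu, hu0, hu', hue⟩ := osa hV h hA ht f hf hfW
  obtain ⟨m, hm⟩ : ∃ m : ℕ, nA C A f = (m : ℤ) + 1 := by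
    refine ⟨(nA C A f - 1).toNat, ?_⟩
    rw [Int.toNat_of_nonneg (by omega)]
    ring
  have hbV : b ∈ V := (V.valuation_le_one_iff b).mp hb.le
  have hb0 : b ≠ 0 := by
    intro h0
    rw [h0, map_zero] at hb
    exact zero_ne_one hb
  have hbV' : b⁻¹ ∈ V := by
    rw [← V.valuation_le_one_iff, map_inv₀, hb, inv_one]
  have hbA : algebraMap C Φ b ∈ A := hpt.base b hbV
  have hbA' : (algebraMap C Φ b)⁻¹ ∈ A := by
    rw [← map_inv₀]
    exact hpt.base _ hbV'
  have hNU : NU A (-u * t ^ m * t) :=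
    osb_NU_mul (A.mul_mem (A.neg_mem hu) (pow_mem ht.mem.1 m)) ht.mem
  have hw : algebraMap C Φ b - (-u * t ^ m * t) ∈ A := A.sub_mem hbA hNU.1
  have hnot : ¬ NU A (algebraMap C Φ b - (-u * t ^ m * t)) := by
    intro hN
    have h3 := hpt.add _ _ hN hNU
    rw [sub_add_cancel] at h3
    rcases h3.2 with h4 | h4
    · exact hb0 ((map_eq_zero _).mp h4)
    · exact h4 hbA'
  have hw0 : algebraMap C Φ b - (-u * t ^ m * t) ≠ 0 := fun h0 => hnot ⟨hw, Or.inl h0⟩
  have hw' : (algebraMap C Φ b - (-u * t ^ m * t))⁻¹ ∈ A := by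
    by_contra h0
    exact hnot ⟨hw, Or.inr h0⟩
  have hfin := osb_eq hV h hA ht (f + algebraMap C Φ b) 0 _ hw hw0 hw' (by
    rw [zpow_zero, one_mul]
    have e : f + algebraMap C Φ b - (algebraMap C Φ b - (-u * t ^ m * t)) =
        f - t ^ nA C A f * u := by
      rw [hm, show ((m : ℤ) + 1) = ((m + 1 : ℕ) : ℤ) by push_cast; ring, zpow_natCast, pow_succ]
      ring
    rw [e]
    exact hue)
  exact ⟨hfin.2.1, hfin.2.2⟩

end Pool.Agent.ESH
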