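import Pool.Agent.ESH.OSB
import Pool.Agent.ESH.HOL

/-!
# ESH / OSC: a residually non-constant function has a pole on the special fibre

As in SWP (1): the residue of `f` in the residue field of `W` is transcendental over the (algebraically closed) residue field of `V`, so there is a valuation ring
`V'' ⊆ W`, `V'' ∩ C = V`, `V'' ≠ W`, with `f ∉ V''` (`f⁻¹ ∈ V''.nonunits`).  `centre`: `A ∈ pts` dominated by `V''`.  If `nA f ≥ 0` then `f ≡ t^n u` modulo `W.nonunits ⊆ V''`
(OSA), `t^n u ∈ A ⊆ V''`, so `f ∈ V''`: contradiction.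
-/

namespace Pool.Agent.ESH

open Pool.Agent.Helper11 Polynomial IntermediateField

variable {C Φ : Type*} [Field C] [Field Φ] [Algebra C Φ] [FunField C Φ] [CharZero C] [IsAlgClosed C]


private lemma OSC_add {W : ValuationSubring Φ} {x y : Φ} (hx : x ∈ W.nonunits)
    (hy : y ∈ W.nonunits) : x + y ∈ W.nonunits := by
  rw [ValuationSubring.mem_nonunits_iff] at hx hy ⊢
  exact W.valuation.map_add_lt hx hy

private lemma OSC_neg {W : ValuationSubring Φ} {x : Φ} (hx : x ∈ W.nonunits) :
    -x ∈ W.nonunits := by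
  rw [ValuationSubring.mem_nonunits_iff] at hx ⊢
  rwa [Valuation.map_neg]

private lemma OSC_mul {W : ValuationSubring Φ} {x y : Φ} (hx : x ∈ W.nonunits)
    (hy : y ∈ W) : x * y ∈ W.nonunits := by
  rw [ValuationSubring.mem_nonunits_iff] at hx ⊢
  rw [← W.valuation_le_one_iff] at hy
  rw [map_mul]
  exact mul_lt_one_of_lt_of_le hx hy

private lemma OSC_zero {W : ValuationSubring Φ} : (0 : Φ) ∈ W.nonunits := by
  rw [ValuationSubring.mem_nonunits_iff, map_zero]
  exact zero_lt_one

private lemma OSC_sum {W : ValuationSubring Φ} (n : ℕ) (f : ℕ → Φ)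
    (hf : ∀ i ∈ Finset.range n, f i ∈ W.nonunits) : ∑ i ∈ Finset.range n, f i ∈ W.nonunits := by
  induction n with
  | zero => simp [OSC_zero]
  | succ n ih =>
    rw [Finset.sum_range_succ]
    exact OSC_add (ih fun i hi => hf i (Finset.mem_range.2 (by
      have := Finset.mem_range.1 hi; omega))) (hf n (Finset.mem_range.2 (by omega)))

open Polynomial in
/-- a monic polynomial over `V` at an element with non-constant residue is a unit -/
private lemma OSC_monic {V : ValuationSubring C} {W : ValuationSubring Φ}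
    (hb : ∀ c : C, algebraMap C Φ c ∈ W ↔ c ∈ V) {f : Φ} (hf : f ∈ W)
    (hf2 : ∀ b ∈ V, f - algebraMap C Φ b ∉ W.nonunits) (Q : Polynomial V) (hQ : Q.Monic) :
    W.valuation (aeval f (Q.map (algebraMap V C))) = 1 := by
  have hm : (Q.map (algebraMap V C)).Monic := hQ.map _
  have hs : (Q.map (algebraMap V C)).Splits := IsAlgClosed.splits _
  have hroot : ∀ α ∈ (Q.map (algebraMap V C)).roots, α ∈ V := by
    intro α hα
    have h1 : IsIntegral V α := by
      refine ⟨Q, hQ, ?_⟩
      have h2 := (mem_roots hm.ne_zero).1 hα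
      rw [IsRoot.def, eval_map] at h2
      exact h2
    obtain ⟨y, hy⟩ := (IsIntegrallyClosed.isIntegral_iff (R := V) (K := C)).1 h1
    rw [← hy]
    exact y.2
  have h3 := hs.eq_prod_roots_of_monic hm
  rw [h3, map_multiset_prod, map_multiset_prod, Multiset.map_map, Multiset.map_map]
  refine Multiset.prod_eq_one ?_
  intro x hx
  rw [Multiset.mem_map] at hx
  obtain ⟨α, hα, rfl⟩ := hx
  have hαV := hroot α hα
  simp only [Function.comp_apply, map_sub, aeval_X, aeval_C]
  have h4 := hf2 α hαV
  rw [ValuationSubring.mem_nonunits_iff, not_lt] at h4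
  refine le_antisymm ?_ h4
  rw [W.valuation_le_one_iff]
  exact W.toSubring.sub_mem hf ((hb α).2 hαV)

open Polynomial in
/-- a valuation ring between `V + W.nonunits` and `W` not containing `f` -/
private lemma OSC_ex {V : ValuationSubring C} {W : ValuationSubring Φ}
    (hb : ∀ c : C, algebraMap C Φ c ∈ W ↔ c ∈ V) {f : Φ} (hf : f ∈ W)
    (hf2 : ∀ b ∈ V, f - algebraMap C Φ b ∉ W.nonunits) :
    ∃ V'' : ValuationSubring Φ, V'' ≤ W ∧ V'' ≠ W ∧ (∀ c : C, algebraMap C Φ c ∈ V'' ↔ c ∈ V) ∧
      f ∉ V'' := by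
  classical
  set s : Set Φ := {x | ∃ c ∈ V, x - algebraMap C Φ c ∈ W.nonunits} with hs
  -- the subring
  let R : Subring Φ :=
    { carrier := s
      zero_mem' := ⟨0, V.zero_mem, by rw [map_zero, sub_zero]; exact OSC_zero⟩
      one_mem' := ⟨1, V.one_mem, by rw [map_one, sub_self]; exact OSC_zero⟩
      add_mem' := by
        rintro x y ⟨c, hc, hx⟩ ⟨d, hd, hy⟩
        refine ⟨c + d, V.add_mem _ _ hc hd, ?_⟩
        have := OSC_add hx hy
        rw [map_add]
        convert this using 1
        ring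
      neg_mem' := by
        rintro x ⟨c, hc, hx⟩
        refine ⟨-c, V.neg_mem _ hc, ?_⟩
        have := OSC_neg hx
        rw [map_neg]
        convert this using 1
        ring
      mul_mem' := by
        rintro x y ⟨c, hc, hx⟩ ⟨d, hd, hy⟩
        refine ⟨c * d, V.mul_mem _ _ hc hd, ?_⟩
        have hcW := (hb c).2 hc
        have hdW := (hb d).2 hd
        have hxW : x ∈ W := by
          have := W.add_mem _ _ (W.nonunits_subset hx) hcW
          rwa [sub_add_cancel] at this
        have h1 := OSC_add (OSC_mul hx hdW) (OSC_mul hy hxW)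
        rw [map_mul]
        convert h1 using 1
        ring }
  have hcl : Subring.closure s = R := Subring.closure_eq R
  have hnot : f ∉ (integralClosure (Subring.closure s) Φ).toSubring := by
    rintro ⟨P, hP, hPf⟩
    have hsub : ∀ i : ℕ, ∃ c : V, ((P.coeff i : Subring.closure s) : Φ) - algebraMap C Φ (c : C) ∈
        W.nonunits := by
      intro i
      have h1 : ((P.coeff i : Subring.closure s) : Φ) ∈ R := hcl.le (P.coeff i).2
      obtain ⟨c, hc, h2⟩ := h1
      exact ⟨⟨c, hc⟩, h2⟩
    choose c hc using hsub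
    set n := P.natDegree with hn
    set Q : Polynomial V := X ^ n + ∑ i ∈ Finset.range n, Polynomial.C (c i) * X ^ i with hQ
    have hQm : Q.Monic := by
      refine monic_X_pow_add ?_
      refine lt_of_le_of_lt (degree_sum_le _ _) ?_
      rw [Finset.sup_lt_iff (by exact WithBot.bot_lt_coe n)]
      intro i hi
      refine lt_of_le_of_lt (degree_C_mul_X_pow_le _ _) ?_
      exact_mod_cast Finset.mem_range.1 hi
    have hv := OSC_monic hb hf hf2 Q hQm
    have hPf2 : f ^ n + ∑ i ∈ Finset.range n, ((P.coeff i : Subring.closure s) : Φ) * f ^ i = 0 := by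
      have h1 : eval₂ (algebraMap (Subring.closure s) Φ) f P = 0 := hPf
      rw [eval₂_eq_sum_range, Finset.sum_range_succ, ← hn] at h1
      have h2 : P.coeff n = 1 := hP.coeff_natDegree
      rw [h2, map_one, one_mul, add_comm] at h1
      exact h1
    have hQf : aeval f (Q.map (algebraMap V C)) =
        f ^ n + ∑ i ∈ Finset.range n, algebraMap C Φ (c i : C) * f ^ i := by
      rw [hQ]
      simp only [Polynomial.map_add, Polynomial.map_pow, map_X, Polynomial.map_sum,
        Polynomial.map_mul, map_C, map_add, map_pow, aeval_X, map_sum, map_mul, aeval_C]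
      rfl
    have hmem : aeval f (Q.map (algebraMap V C)) ∈ W.nonunits := by
      have h3 : aeval f (Q.map (algebraMap V C)) =
          ∑ i ∈ Finset.range n, -(((P.coeff i : Subring.closure s) : Φ) -
            algebraMap C Φ (c i : C)) * f ^ i := by
        rw [hQf]
        have h4 : f ^ n = - ∑ i ∈ Finset.range n, ((P.coeff i : Subring.closure s) : Φ) * f ^ i := by
          linear_combination hPf2
        rw [h4, ← Finset.sum_neg_distrib, ← Finset.sum_add_distrib]
        refine Finset.sum_congr rfl fun i _ => ?_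
        ring
      rw [h3]
      exact OSC_sum n _ fun i _ => OSC_mul (OSC_neg (hc i)) (pow_mem hf i)
    rw [ValuationSubring.mem_nonunits_iff, hv] at hmem
    exact lt_irrefl _ hmem
  rw [← iInf_valuationSubring_superset, Subring.mem_iInf] at hnot
  push Not at hnot
  obtain ⟨⟨V'', hV''s⟩, hV''f⟩ := hnot
  have hf'' : f ∉ V'' := hV''f
  have hmem : ∀ x ∈ W.nonunits, x ∈ V'' := by
    intro x hx
    refine hV''s ⟨0, V.zero_mem, ?_⟩
    rwa [map_zero, sub_zero]
  have hle : V'' ≤ W := by
    intro x hx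
    by_contra hxW
    have hx0 : x ≠ 0 := by
      rintro rfl
      exact hxW W.zero_mem
    have h1 : x⁻¹ ∈ W.nonunits := W.inv_mem_nonunits_iff.2 (Or.inr hxW)
    have h2 := hmem _ (OSC_mul h1 hf)
    have h3 := V''.mul_mem _ _ hx h2
    rw [← mul_assoc, mul_inv_cancel₀ hx0, one_mul] at h3
    exact hf'' h3
  refine ⟨V'', hle, ?_, ?_, hf''⟩
  · rintro rfl
    exact hf'' hf
  · intro c
    constructor
    · intro h1
      exact (hb c).1 (hle h1)
    · intro h1
      exact hV''s ⟨c, h1, by rw [sub_self]; exact OSC_zero⟩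

theorem osc {V : ValuationSubring C} {W : ValuationSubring Φ} {pts : Set (Subring Φ)}
    (hV : Rk1 V) (h : IsMdl V W pts) (f : Φ) (hf : f ∈ W) (hr : ∀ b ∈ V, f - algebraMap C Φ b ∉ W.nonunits) :
    ∃ A ∈ pts, nA C A f < 0 := by
  obtain ⟨V'', h1, h2, h3, h4⟩ := OSC_ex h.base hf hr
  obtain ⟨A, hA, hd⟩ := h.centre V'' h3 h2
  refine ⟨A, hA, ?_⟩
  by_contra hn
  rw [not_lt] at hn
  obtain ⟨t, ht⟩ := (h.pt A hA).par
  have hfW : f ∉ W.nonunits := by
    have := hr 0 V.zero_mem
    rwa [map_zero, sub_zero] at this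
  obtain ⟨u, hu, hu0, hu', he⟩ := osa hV h hA ht f hf hfW
  apply h4
  obtain ⟨n, hn2⟩ := Int.eq_ofNat_of_zero_le hn
  rw [hn2, zpow_natCast] at he
  have h5 : t ^ n * u ∈ V'' := hd.1 _ (A.mul_mem (A.pow_mem ht.mem.1 n) hu)
  have h6 : ∀ x ∈ W.nonunits, x ∈ V'' := by
    intro x hx
    by_contra hxV
    have h7 : x⁻¹ ∈ V'' := (V''.mem_or_inv_mem x).resolve_left hxV
    have h8 := OSC_mul hx (h1 h7)
    have hx0 : x ≠ 0 := by
      rintro rfl
      exact hxV V''.zero_mem
    rw [mul_inv_cancel₀ hx0, ValuationSubring.mem_nonunits_iff, map_one] at h8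
    exact lt_irrefl _ h8
  have h9 := V''.toSubring.add_mem (h6 _ he) h5
  rwa [sub_add_cancel] at h9

theorem osc_pos {V : ValuationSubring C} {W : ValuationSubring Φ} {pts : Set (Subring Φ)}
    (hV : Rk1 V) (h : IsMdl V W pts) (f : Φ) (hf : f ∈ W) (hr : ∀ b ∈ V, f - algebraMap C Φ b ∉ W.nonunits) (b : C)
    (hb : b ∈ V) : ∃ A ∈ pts, 0 < nA C A (f - algebraMap C Φ b) := by
  set g := f - algebraMap C Φ b with hg
  have hbW : algebraMap C Φ b ∈ W := (h.base b).2 hb
  have hgW : g ∈ W := W.toSubring.sub_mem hf hbW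
  have hgn : g ∉ W.nonunits := hr b hb
  have hg0 : g ≠ 0 := by
    intro h0
    rw [h0] at hgn
    exact hgn OSC_zero
  have hgi : g⁻¹ ∈ W := by
    by_contra hc
    exact hgn (W.inv_mem_nonunits_iff.2 (Or.inr hc) |> fun hx => by simpa using hx)
  have hgi2 : ∀ c ∈ V, g⁻¹ - algebraMap C Φ c ∉ W.nonunits := by
    intro c hc hcon
    have h1 := OSC_mul hcon hgW
    rw [sub_mul, inv_mul_cancel₀ hg0] at h1
    by_cases hcu : c ∈ V.nonunits
    · have h2 : algebraMap C Φ c ∈ W.nonunits := by
        by_cases hc0 : c = 0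
        · rw [hc0, map_zero]; exact OSC_zero
        · have h5 : c⁻¹ ∉ V := (V.mem_nonunits_iff_or.1 hcu).resolve_left hc0
          refine W.mem_nonunits_iff_or.2 (Or.inr fun h6 => h5 ?_)
          rw [← map_inv₀] at h6
          exact (h.base _).1 h6
      have h3 := OSC_add hcon h2
      rw [sub_add_cancel] at h3
      have h4 := OSC_mul h3 hgW
      rw [inv_mul_cancel₀ hg0, ValuationSubring.mem_nonunits_iff, map_one] at h4
      exact lt_irrefl _ h4
    · have hc0 : c ≠ 0 := by
        rintro rfl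
        apply hcu
        rw [ValuationSubring.mem_nonunits_iff, map_zero]
        exact zero_lt_one
      have hci : c⁻¹ ∈ V := by
        by_contra hci
        exact hcu (V.inv_mem_nonunits_iff.2 (Or.inr hci) |> fun hx => by simpa using hx)
      have h2 := OSC_mul h1 ((h.base c⁻¹).2 hci)
      have h3 := OSC_neg h2
      refine hr (b + c⁻¹) (V.toSubring.add_mem hb hci) ?_
      convert h3 using 1
      have hc1 : algebraMap C Φ c ≠ 0 := by
        rw [Ne, map_eq_zero]; exact hc0
      rw [map_add, map_inv₀, hg]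
      field_simp
      ring
  obtain ⟨A, hA, hn⟩ := osc hV h g⁻¹ hgi hgi2
  refine ⟨A, hA, ?_⟩
  rw [osb_inv] at hn
  omega

end Pool.Agent.ESH
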