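import Mathlib

/-!
# ESH / PDV: pseudo-division with explicit bounds

`f ∈ ℤ[X]`, `deg f = n ≥ 2`, `|coefficients| ≤ A`, `f'` of degree `n - 1` with leading coefficient `ℓ`, `|ℓ| ≤ n A`.  For
`j < n`: `ℓ^(n^2) f^j = s f' + r` with `deg r < n - 1` (i.e. `degree r < n - 1`) and
`|coefficients of r| ≤ ((n+1)^2 A)^(n (n+1))`.

Proof.  Let `‖·‖` be the sum of the absolute values of the coefficients: `‖f^j‖ ≤ ((n+1) A)^j ≤ ((n+1)A)^n`
(submultiplicative).  One step of pseudo-division: if `deg g ≥ n - 1`, `g ↦ ℓ g - lead(g) X^(deg g - n + 1) f'`,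
of smaller degree and norm `≤ n A ‖g‖ + ‖g‖ n (n+1) A ≤ (n+1)^2 A ‖g‖` (`‖f'‖ ≤ n (n+1) A`).  As
`deg f^j ≤ n (n-1)`, at most `n^2` steps are needed; multiply by the missing powers of `ℓ` at the end
(each multiplies the norm by at most `n A ≤ (n+1)^2 A`).
Total `≤ ((n+1)A)^n ((n+1)^2 A)^(n^2) ≤ ((n+1)^2 A)^(n^2+n)`.
-/

namespace Pool.Agent.ESH

open Polynomial

/-- sum of the absolute values of the coefficients -/
private noncomputable def nrm (g : ℤ[X]) : ℤ := ∑ i ∈ g.support, |g.coeff i|

private theorem nrm_eq {g : ℤ[X]} {s : Finset ℕ} (hs : g.support ⊆ s) :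
    nrm g = ∑ i ∈ s, |g.coeff i| := by
  unfold nrm
  apply Finset.sum_subset hs
  intro i _ hi
  rw [notMem_support_iff.1 hi, abs_zero]

private theorem nrm_nonneg (g : ℤ[X]) : 0 ≤ nrm g := Finset.sum_nonneg fun _ _ => abs_nonneg _

private theorem coeff_le_nrm (g : ℤ[X]) (i : ℕ) : |g.coeff i| ≤ nrm g := by
  by_cases hi : i ∈ g.support
  · exact Finset.single_le_sum (f := fun i => |g.coeff i|) (fun _ _ => abs_nonneg _) hi
  · rw [notMem_support_iff.1 hi, abs_zero]
    exact nrm_nonneg g

private theorem nrm_le_of_coeff {g : ℤ[X]} {M : ℕ} {K : ℤ} (hM : ∀ i, M ≤ i → g.coeff i = 0)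
    (hK : ∀ i, |g.coeff i| ≤ K) : nrm g ≤ M * K := by
  have hs : g.support ⊆ Finset.range M := by
    intro i hi
    rw [Finset.mem_range]
    by_contra h
    exact (mem_support_iff.1 hi) (hM i (not_lt.1 h))
  rw [nrm_eq hs]
  calc ∑ i ∈ Finset.range M, |g.coeff i| ≤ ∑ _i ∈ Finset.range M, K :=
        Finset.sum_le_sum fun i _ => hK i
    _ = M * K := by simp

private theorem nrm_sub (g h : ℤ[X]) : nrm (g - h) ≤ nrm g + nrm h := by
  classical
  have h1 : (g - h).support ⊆ g.support ∪ h.support := by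
    intro i hi
    by_contra hc
    rw [Finset.mem_union, not_or, notMem_support_iff, notMem_support_iff] at hc
    apply mem_support_iff.1 hi
    rw [coeff_sub, hc.1, hc.2, sub_zero]
  rw [nrm_eq h1, nrm_eq (Finset.subset_union_left (s₁ := g.support) (s₂ := h.support)),
    nrm_eq (Finset.subset_union_right (s₁ := g.support) (s₂ := h.support)),
    ← Finset.sum_add_distrib]
  exact Finset.sum_le_sum fun i _ => by rw [coeff_sub]; exact abs_sub _ _

/-- absolute values of the coefficients -/
private noncomputable def absP (g : ℤ[X]) : ℤ[X] := ∑ i ∈ g.support, monomial i |g.coeff i|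

private theorem coeff_absP (g : ℤ[X]) (i : ℕ) : (absP g).coeff i = |g.coeff i| := by
  unfold absP
  rw [finsetSum_coeff]
  simp only [coeff_monomial]
  rw [Finset.sum_ite_eq' g.support i]
  split_ifs with h
  · rfl
  · rw [notMem_support_iff.1 h, abs_zero]

private theorem eval_absP (g : ℤ[X]) : (absP g).eval 1 = nrm g := by
  unfold absP nrm
  rw [eval_finsetSum]
  simp

private theorem nrm_mul (g h : ℤ[X]) : nrm (g * h) ≤ nrm g * nrm h := by
  have h1 : ∀ k, |(g * h).coeff k| ≤ (absP g * absP h).coeff k := by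
    intro k
    rw [coeff_mul, coeff_mul]
    refine (Finset.abs_sum_le_sum_abs _ _).trans (Finset.sum_le_sum fun x _ => ?_)
    rw [coeff_absP, coeff_absP, abs_mul]
  have h0 : ∀ k, 0 ≤ (absP g * absP h).coeff k := fun k => (abs_nonneg _).trans (h1 k)
  have h2 : nrm (g * h) ≤ ∑ k ∈ Finset.range ((absP g * absP h).natDegree + 1),
      (absP g * absP h).coeff k := by
    have hs : (g * h).support ⊆ Finset.range ((absP g * absP h).natDegree + 1) := by
      intro k hk
      rw [Finset.mem_range]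
      by_contra hc
      have h3 : (absP g * absP h).coeff k = 0 :=
        coeff_eq_zero_of_natDegree_lt (by omega)
      have h4 := h1 k
      rw [h3] at h4
      exact (mem_support_iff.1 hk) (abs_nonpos_iff.1 h4)
    rw [nrm_eq hs]
    exact Finset.sum_le_sum fun k _ => h1 k
  refine h2.trans ?_
  rw [← eval_absP, ← eval_absP, ← eval_mul, eval_eq_sum_range]
  simp

private theorem nrm_C (a : ℤ) : nrm (C a) ≤ |a| := by
  have h := nrm_le_of_coeff (g := C a) (M := 1) (K := |a|)
    (fun i hi => by rw [coeff_C, if_neg (by omega)])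
    (fun i => by
      rw [coeff_C]
      split_ifs
      · exact le_rfl
      · simp)
  simpa using h

private theorem nrm_X_pow (k : ℕ) : nrm (X ^ k : ℤ[X]) ≤ 1 := by
  have hs : (X ^ k : ℤ[X]).support ⊆ {k} := by
    intro i hi
    rw [Finset.mem_singleton]
    by_contra h
    apply mem_support_iff.1 hi
    rw [coeff_X_pow, if_neg h]
  rw [nrm_eq hs]
  simp

private theorem nrm_pow (g : ℤ[X]) {K : ℤ} (hK : nrm g ≤ K) (j : ℕ) : nrm (g ^ j) ≤ K ^ j := by
  have hK0 : 0 ≤ K := (nrm_nonneg g).trans hK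
  induction j with
  | zero => simpa using nrm_C 1
  | succ j ih =>
    rw [pow_succ, pow_succ]
    exact (nrm_mul _ _).trans (mul_le_mul ih hK (nrm_nonneg _) (pow_nonneg hK0 _))

/-- pseudo-division by a polynomial `d` with `d.coeff e = ℓ` the top coefficient -/
private theorem pd_aux (d : ℤ[X]) (e : ℕ) (hd : ∀ i, e < i → d.coeff i = 0) {L N : ℤ}
    (hL : |d.coeff e| ≤ L) (hN : nrm d ≤ N) :
    ∀ (m : ℕ) (g : ℤ[X]) (K : ℤ), (∀ i, e + m ≤ i → g.coeff i = 0) → nrm g ≤ K →
      ∃ s r : ℤ[X], C (d.coeff e ^ m) * g = s * d + r ∧ (∀ i, e ≤ i → r.coeff i = 0) ∧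
        nrm r ≤ (L + N) ^ m * K := by
  intro m
  induction m with
  | zero =>
    intro g K hg hK
    exact ⟨0, g, by simp, hg, by simpa using hK⟩
  | succ m ih =>
    intro g K hg hK
    have hK0 : 0 ≤ K := (nrm_nonneg g).trans hK
    set a := g.coeff (e + m) with ha
    obtain ⟨s, r, h1, h2, h3⟩ := ih (C (d.coeff e) * g - C a * X ^ m * d) ((L + N) * K)
      (by
        intro i hi
        rcases Nat.eq_or_lt_of_le hi with rfl | hi
        · rw [coeff_sub, coeff_C_mul, mul_assoc, coeff_C_mul, coeff_X_pow_mul]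
          ring
        · rw [coeff_sub, coeff_C_mul, hg i (by omega), mul_assoc, coeff_C_mul, coeff_X_pow_mul',
            if_pos (by omega), hd (i - m) (by omega)]
          ring)
      (by
        refine (nrm_sub _ _).trans ?_
        have e1 : nrm (C (d.coeff e) * g) ≤ L * K := by
          refine (nrm_mul _ _).trans ?_
          exact mul_le_mul ((nrm_C _).trans hL) hK (nrm_nonneg _) ((abs_nonneg _).trans hL)
        have e2 : nrm (C a * X ^ m * d) ≤ K * 1 * N := by
          refine (nrm_mul _ _).trans ?_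
          refine mul_le_mul ?_ hN (nrm_nonneg _) (by positivity)
          refine (nrm_mul _ _).trans ?_
          exact mul_le_mul ((nrm_C _).trans ((coeff_le_nrm g _).trans hK)) (nrm_X_pow m)
            (nrm_nonneg _) hK0
        linarith)
    refine ⟨s + C (d.coeff e ^ m) * C a * X ^ m, r, ?_, h2, ?_⟩
    · have h4 : C (d.coeff e ^ (m + 1)) * g =
          C (d.coeff e ^ m) * (C (d.coeff e) * g - C a * X ^ m * d) +
            C (d.coeff e ^ m) * C a * X ^ m * d := by
        rw [pow_succ, C_mul]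
        ring
      rw [h4, h1]
      ring
    · calc nrm r ≤ (L + N) ^ m * ((L + N) * K) := h3
        _ = (L + N) ^ (m + 1) * K := by ring

theorem pdv (f : ℤ[X]) (n A : ℕ) (hn : 2 ≤ n) (hdeg : f.natDegree = n)
    (hA : ∀ i, |f.coeff i| ≤ (A : ℤ)) (j : ℕ) (hj : j < n) :
    ∃ s r : ℤ[X], C (f.derivative.leadingCoeff ^ (n ^ 2)) * f ^ j = s * f.derivative + r ∧
      r.degree < (n - 1 : ℕ) ∧ ∀ i, |r.coeff i| ≤ (((n + 1) ^ 2 * A) ^ (n * (n + 1)) : ℤ) := by
  have hf0 : f ≠ 0 := by
    rintro rfl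
    simp at hdeg
    omega
  have hlead : f.coeff n ≠ 0 := by
    rw [← hdeg]
    exact leadingCoeff_ne_zero.2 hf0
  have hA1 : (1 : ℤ) ≤ A := by
    have := hA n
    have h2 : 0 < |f.coeff n| := abs_pos.2 hlead
    omega
  have hdd : f.derivative.natDegree = n - 1 := by
    exact natDegree_eq_of_degree_eq_some (by
      rw [degree_derivative_eq f (by omega), hdeg])
  have hlc : f.derivative.leadingCoeff = f.derivative.coeff (n - 1) := by
    rw [leadingCoeff, hdd]
  have hdc : ∀ i, |f.derivative.coeff i| ≤ (n : ℤ) * A := by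
    intro i
    rw [coeff_derivative, abs_mul]
    by_cases hi : i + 1 ≤ n
    · have h1 : |((i : ℤ) + 1)| ≤ n := by
        rw [abs_of_nonneg (by positivity)]
        exact_mod_cast hi
      calc |f.coeff (i + 1)| * |((i : ℤ) + 1)| ≤ A * n :=
            mul_le_mul (hA _) h1 (abs_nonneg _) (by positivity)
        _ = n * A := mul_comm _ _
    · rw [coeff_eq_zero_of_natDegree_lt (by omega), abs_zero, zero_mul]
      positivity
  have hdnrm : nrm f.derivative ≤ n * (n * A) := by
    refine nrm_le_of_coeff ?_ hdc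
    intro i hi
    exact coeff_eq_zero_of_natDegree_lt (by omega)
  have hfnrm : nrm f ≤ (n + 1) * A := by
    have h := nrm_le_of_coeff (g := f) (M := n + 1) (K := A)
      (fun i hi => coeff_eq_zero_of_natDegree_lt (by omega)) hA
    push_cast at h
    exact h
  have hj1 : nrm (f ^ j) ≤ ((n + 1) * A) ^ n := by
    refine (nrm_pow f hfnrm j).trans ?_
    apply pow_le_pow_right₀ _ hj.le
    have : (0 : ℤ) ≤ n := by positivity
    nlinarith
  obtain ⟨s, r, h1, h2, h3⟩ := pd_aux f.derivative (n - 1)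
    (fun i hi => coeff_eq_zero_of_natDegree_lt (by omega)) (hdc (n - 1)) hdnrm (n ^ 2) (f ^ j)
    (((n + 1) * A) ^ n)
    (by
      intro i hi
      apply coeff_eq_zero_of_natDegree_lt
      have h4 : (f ^ j).natDegree ≤ j * n := by
        rw [← hdeg]
        exact natDegree_pow_le
      have h5 : j * n ≤ (n - 1) * n := Nat.mul_le_mul_right _ (by omega)
      have h6 : (n - 1) * n + n = n ^ 2 := by
        obtain ⟨k, rfl⟩ : ∃ k, n = k + 1 := ⟨n - 1, by omega⟩
        simp only [Nat.add_sub_cancel]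
        ring
      omega)
    hj1
  rw [← hlc] at h1
  refine ⟨s, r, h1, ?_, ?_⟩
  · rw [degree_lt_iff_coeff_zero]
    intro i hi
    exact h2 i (by exact_mod_cast hi)
  · intro i
    refine (coeff_le_nrm r i).trans (h3.trans ?_)
    have hnn : (0 : ℤ) ≤ n := by positivity
    have e1 : (n : ℤ) * A + n * (n * A) ≤ (n + 1) ^ 2 * A := by nlinarith
    have e2 : ((n : ℤ) + 1) * A ≤ (n + 1) ^ 2 * A := by nlinarith
    have e3 : (0 : ℤ) ≤ (n : ℤ) * A + n * (n * A) := by positivity
    calc ((n : ℤ) * A + n * (n * A)) ^ n ^ 2 * ((n + 1) * A) ^ n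
        ≤ ((n + 1) ^ 2 * A) ^ n ^ 2 * ((n + 1) ^ 2 * A) ^ n :=
          mul_le_mul (pow_le_pow_left₀ e3 e1 _) (pow_le_pow_left₀ (by positivity) e2 _)
            (by positivity) (by positivity)
      _ = ((n + 1) ^ 2 * A) ^ (n * (n + 1)) := by
          rw [← pow_add]
          congr 1
          ring

end Pool.Agent.ESH
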