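import Pool.Agent.ESH.RRA

/-!
# ESH / RRB: lower bound for the multiples of the divisor of poles of `x`

Proof.  Let `n = [Φ : C(x)]` and `u_1, ..., u_n` a basis of `Φ/C(x)` whose elements are integral over `C[x]` (multiply a basis
by a common denominator).  An element integral over `C[x]` has all its poles among the poles of `x`, so
`u_i ∈ LL (m_i (x)_∞)` for some `m_i ∈ ℕ` (`(x)_∞ v = max 0 (-v.ord x)`).  For `m ≥ 0` the elements `x^j u_i`, `j + m_i ≤ m`, belong to
`LL (m (x)_∞)` and are linearly independent over `C`; there are at least `∑_i (m - m_i) = n m - c` of them.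
-/

namespace Pool.Agent.ESH

open Pool.Agent.Helper11 IntermediateField

open scoped IntermediateField.algebraAdjoinAdjoin

variable {C Φ : Type*} [Field C] [Field Φ] [Algebra C Φ] [FunField C Φ] [CharZero C] [IsAlgClosed C]

private theorem rrb_pow {K : Type*} [Field K] [Algebra C K] {y : K} (hy : Transcendental C y) :
    LinearIndependent C (fun j : ℕ => y ^ j) := by
  have h := (Polynomial.basisMonomials C).linearIndependent.map' (Polynomial.aeval y).toLinearMap
    (LinearMap.ker_eq_bot.2 (transcendental_iff_injective.1 hy))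
  have h2 : (fun j : ℕ => y ^ j) = (Polynomial.aeval y).toLinearMap ∘ (Polynomial.basisMonomials C) := by
    funext j
    simp
  rw [h2]
  exact h

private theorem rrb_bound (u : Φ) : ∃ m : ℕ, ∀ v : Place C Φ, -v.ord u ≤ m := by
  classical
  have h := finite_ord_ne_zero (k := C) u
  refine ⟨∑ v ∈ h.toFinset, (v.ord u).natAbs, fun v => ?_⟩
  by_cases hv : v.ord u = 0
  · rw [hv]; positivity
  · have h1 : (v.ord u).natAbs ≤ ∑ v ∈ h.toFinset, (v.ord u).natAbs :=
      Finset.single_le_sum (f := fun v : Place C Φ => (v.ord u).natAbs) (fun _ _ => Nat.zero_le _)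
        (h.mem_toFinset.2 hv)
    omega

theorem rrb (x : Φ) (hx : Transcendental C x) :
    ∃ c : ℕ, ∀ m : ℕ, (m : ℤ) * Module.finrank C⟮x⟯ Φ - c ≤
      Module.finrank C (LL (fun v : Place C Φ => (m : ℤ) * max 0 (-v.ord x))) := by
  classical
  have hF : Fact (Transcendental C x) := ⟨hx⟩
  have hfd := FunField.finiteDimensional_adjoin hx
  have hcz : CharZero C⟮x⟯ := charZero_of_injective_algebraMap (algebraMap C C⟮x⟯).injective
  obtain ⟨s, b, hb⟩ := FiniteDimensional.exists_is_basis_integral (Rx C x) C⟮x⟯ Φ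
  choose f hf using fun i : s => rrb_bound (C := C) (b i)
  set M : ℕ := ∑ i, f i with hM
  have hfM : ∀ i, f i ≤ M := fun i => Finset.single_le_sum (f := f) (fun _ _ => Nat.zero_le _)
    (Finset.mem_univ i)
  have hn : Module.finrank C⟮x⟯ Φ = Fintype.card s := Module.finrank_eq_card_basis b
  have hbi : ∀ (i : s) (v : Place C Φ), b i ∈ v.ge (-((M : ℤ) * max 0 (-v.ord x))) := by
    intro i v
    rcases le_or_gt 0 (v.ord x) with h | h
    · rw [max_eq_left (by omega), mul_zero, neg_zero]
      exact v.mem_ge_of_mem_Ox (v.mem_ge_of_le h) ⟨b i, hb i⟩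
    · apply v.mem_ge_of_le
      rw [max_eq_right (by omega)]
      have h1 := hf i v
      have h2 : (f i : ℤ) ≤ M := by exact_mod_cast hfM i
      nlinarith
  have hxp : ∀ (j : ℕ) (v : Place C Φ), x ^ j ∈ v.ge (-((j : ℤ) * max 0 (-v.ord x))) := by
    intro j v
    apply v.mem_ge_of_le
    rw [v.ord_pow]
    have h1 : -v.ord x ≤ max 0 (-v.ord x) := le_max_right _ _
    nlinarith [Nat.cast_nonneg (α := ℤ) j]
  refine ⟨Module.finrank C⟮x⟯ Φ * M, fun m => ?_⟩
  have hfin : FiniteDimensional C (LL (fun v : Place C Φ => (m : ℤ) * max 0 (-v.ord x))) := by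
    apply rra_fin
    apply (finite_ord_ne_zero x).subset
    intro v hv hv'
    apply hv
    rw [hv']
    simp
  rcases lt_or_ge m M with hmM | hmM
  · have h1 : (m : ℤ) ≤ M := by exact_mod_cast hmM.le
    have h2 : (0 : ℤ) ≤ Module.finrank C⟮x⟯ Φ := Nat.cast_nonneg _
    have h3 : (0 : ℤ) ≤ Module.finrank C (LL (fun v : Place C Φ => (m : ℤ) * max 0 (-v.ord x))) :=
      Nat.cast_nonneg _
    push_cast
    nlinarith
  · set N := m - M + 1 with hN
    let y : C⟮x⟯ := ⟨x, IntermediateField.mem_adjoin_simple_self C x⟩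
    have hy : Transcendental C y := by
      intro h
      exact hx (h.algHom (IntermediateField.val C⟮x⟯))
    have h1 : LinearIndependent C (fun j : Fin N => y ^ (j : ℕ)) :=
      (rrb_pow hy).comp (fun j : Fin N => (j : ℕ)) Fin.val_injective
    have h2 : LinearIndependent C (fun p : Fin N × s => y ^ (p.1 : ℕ) • b p.2) :=
      linearIndependent_smul h1 b.linearIndependent
    have h3 : ∀ p : Fin N × s, y ^ (p.1 : ℕ) • b p.2 ∈
        LL (fun v : Place C Φ => (m : ℤ) * max 0 (-v.ord x)) := by
      rintro ⟨j, i⟩ v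
      have h4 : (y ^ (j : ℕ) • b i : Φ) = x ^ (j : ℕ) * b i := by
        rw [IntermediateField.smul_def]
        rfl
      simp only []
      rw [h4]
      have h5 := v.mul_mem_ge (hxp j v) (hbi i v)
      refine v.ge_anti ?_ h5
      have h6 : (j : ℕ) + M ≤ m := by have := j.2; omega
      have h7 : ((j : ℕ) : ℤ) + M ≤ m := by exact_mod_cast h6
      have h8 : (0 : ℤ) ≤ max 0 (-v.ord x) := le_max_left _ _
      nlinarith
    have h9 : LinearIndependent C (fun p : Fin N × s =>
        (⟨y ^ (p.1 : ℕ) • b p.2, h3 p⟩ : LL (fun v : Place C Φ => (m : ℤ) * max 0 (-v.ord x)))) := by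
      apply LinearIndependent.of_comp (Submodule.subtype _)
      exact h2
    have h10 := h9.fintype_card_le_finrank
    rw [Fintype.card_prod, Fintype.card_fin, ← hn] at h10
    have h11 : ((N * Module.finrank C⟮x⟯ Φ : ℕ) : ℤ) ≤
        Module.finrank C (LL (fun v : Place C Φ => (m : ℤ) * max 0 (-v.ord x))) := by
      exact_mod_cast h10
    have h12 : (N : ℤ) = m - M + 1 := by rw [hN]; push_cast [Nat.cast_sub hmM]; ring
    push_cast at h11 ⊢
    rw [h12] at h11
    have h13 : (0 : ℤ) ≤ Module.finrank C⟮x⟯ Φ := Nat.cast_nonneg _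
    nlinarith

end Pool.Agent.ESH
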