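import Pool.Agent.ESH.RRA
import Pool.Agent.ESH.RRB
import Pool.Agent.Helper11.Height

/-!
# ESH / RDB: reduced bases

`A` = the elements without poles at finite values of `x` = the integral closure of `C[x]` in `Φ` (Helper11 `Ox`), a free `C[x]`-module of rank `n = [Φ : C(x)]`.  `A_m = LL (m (x)_∞)`, `⋃ A_m = A`.  For a basis `u` of `A` let `d_i` be the
smallest `d ≥ 0` with `u_i ∈ A_d`, and choose a basis with `∑ d_i` minimal.  Claim: if `∑ a_i u_i ∈ A_m`, `a_i ∈ C[x]`, then `deg a_i ≤ m - d_i` for `a_i ≠ 0`.  Otherwise `M = max (deg a_i + d_i) > m`; let `I` be the set of the `i`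
where the maximum is attained, `λ_i` the leading coefficients, `i₀ ∈ I` with `d_{i₀}` maximal; subtracting elements of `A_{M-1}`: `∑_{i ∈ I} λ_i x^(M - d_i) u_i ∈ A_{M-1}`, so `u' = ∑_{i ∈ I} λ_i x^(d_{i₀} - d_i) u_i` satisfies
`x^(M - d_{i₀}) u' ∈ A_{M-1}`, so `u' ∈ A_{d_{i₀} - 1}` (orders at the poles of `x`); replacing `u_{i₀}` by `u'` gives a basis with smaller `∑ d_i`.
Consequences: the `x^(-d_i) u_i` span the ring of the elements regular at the poles of `x` over its subring in `C(x)`: given `f`, multiply by a polynomial `q(x)` to get an element of `A` (the denominators at finite places), of order at infinity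
`≥ - deg q` i.e. in `A_{deg q}`; expand: `q f = ∑ a_i u_i`, `deg a_i + d_i ≤ deg q`; `b_i = a_i x^(d_i)/q`.
`A_0 = C` is one-dimensional: exactly one `d_i` is `0`.
-/

namespace Pool.Agent.ESH

open Pool.Agent.Helper11 Polynomial IntermediateField

open scoped IntermediateField.algebraAdjoinAdjoin

variable {C Φ : Type*} [Field C] [Field Φ] [Algebra C Φ] [FunField C Φ] [CharZero C] [IsAlgClosed C]

/-- no poles at the finite places -/
private def RDB_A (C : Type*) {Φ : Type*} [Field C] [Field Φ] [Algebra C Φ] (x f : Φ) : Prop :=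
  ∀ R : Place C Φ, 0 ≤ R.ord x → f ∈ R.ge 0

omit [IsAlgClosed C] in
private theorem RDB_int {x : Φ} (hx : Transcendental C x) {f : Φ} (hf : RDB_A C x f) : f ∈ Ox C x := by
  have hF : Fact (Transcendental C x) := ⟨hx⟩
  obtain ⟨a, ha⟩ := IsDedekindDomain.HeightOneSpectrum.mem_integers_of_valuation_le_one
    (R := Ox C x) Φ f (fun P => by
      by_cases hf0 : f = 0
      · rw [hf0, map_zero]; exact zero_le_one
      have h1 : 0 ≤ (placeOfPrime P).ord x := by
        rw [placeOfPrime_ord]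
        have h2 : P.valuation Φ (algebraMap (Ox C x) Φ (algebraMap (Rx C x) (Ox C x) (xR C x))) ≤ 1 :=
          P.valuation_le_one _
        have h3 : algebraMap (Ox C x) Φ (algebraMap (Rx C x) (Ox C x) (xR C x)) = x := rfl
        rw [h3] at h2
        have hx0 : x ≠ 0 := by
          rintro rfl
          exact hx isAlgebraic_zero
        have h4 : P.valuation Φ x ≠ 0 := (Valuation.ne_zero_iff _).2 hx0
        have h5 := (WithZero.log_le_log h4 one_ne_zero).2 h2
        rw [WithZero.log_one] at h5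
        omega
      have h6 := (placeOfPrime P).le_ord_of_mem (hf _ h1) hf0
      rw [placeOfPrime_ord] at h6
      have h4 : P.valuation Φ f ≠ 0 := (Valuation.ne_zero_iff _).2 hf0
      refine (WithZero.log_le_log h4 one_ne_zero).1 ?_
      rw [WithZero.log_one]
      omega)
  rw [← ha]
  exact a.2

omit [IsAlgClosed C] in
private theorem RDB_mul {x : Φ} (hx : Transcendental C x) (f : Φ) :
    ∃ q : C[X], q ≠ 0 ∧ RDB_A C x (aeval x q * f) := by
  have hF : Fact (Transcendental C x) := ⟨hx⟩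
  have hfd := FunField.finiteDimensional_adjoin hx
  obtain ⟨y, hy, hyf⟩ := exists_integral_multiples (Rx C x) C⟮x⟯ ({f} : Finset Φ)
  obtain ⟨q, hq⟩ := Algebra.adjoin_mem_exists_aeval _ _ y.2
  refine ⟨q, ?_, fun R hR => ?_⟩
  · rintro rfl
    rw [map_zero] at hq
    exact hy (Subtype.ext hq.symm)
  · have h1 := hyf f (Finset.mem_singleton_self f)
    have h2 : aeval x q * f = y • f := by
      rw [hq]
      rfl
    rw [h2]
    exact R.mem_ge_of_mem_Ox (R.mem_ge_of_le hR) ⟨y • f, h1⟩

private theorem RDB_const {x : Φ} {f : Φ} (hf : RDB_A C x f)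
    (hf2 : ∀ R : Place C Φ, R.ord x < 0 → f ∈ R.ge 0) : ∃ c : C, f = algebraMap C Φ c := by
  have h0 : ∀ R : Place C Φ, f ∈ R.ge 0 := fun R => by
    rcases le_or_gt 0 (R.ord x) with h | h
    · exact hf R h
    · exact hf2 R h
  have h1 : ¬ Transcendental C f := by
    intro htr
    have h2 := ht_pos (k := C) htr
    unfold ht at h2
    rw [finsum_congr (g := fun _ => (0 : ℤ)), finsum_zero] at h2
    · exact lt_irrefl _ h2
    · intro R
      by_cases hf0 : f = 0
      · rw [hf0, R.ord_zero]; rfl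
      · have := R.le_ord_of_mem (h0 R) hf0
        rw [max_eq_left (by omega)]
  have h2 : IsAlgebraic C f := not_not.1 h1
  obtain ⟨c, hc⟩ := mem_range_of_isAlgebraic h2
  exact ⟨c, hc.symm⟩

private theorem RDB_pole {x : Φ} (hx : Transcendental C x) : ∃ R : Place C Φ, R.ord x < 0 := by
  by_contra hcon
  push Not at hcon
  have h2 := ht_pos (k := C) hx
  unfold ht at h2
  rw [finsum_congr (g := fun _ => (0 : ℤ)), finsum_zero] at h2
  · exact lt_irrefl _ h2
  · intro R
    have := hcon R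
    rw [max_eq_left (by omega)]

private theorem RDB_zero {x : Φ} (hx : Transcendental C x) {f : Φ} (hf : RDB_A C x f)
    (hf2 : ∀ R : Place C Φ, R.ord x < 0 → f ∈ R.ge 1) : f = 0 := by
  obtain ⟨c, rfl⟩ := RDB_const hf (fun R hR => R.ge_anti zero_le_one (hf2 R hR))
  obtain ⟨R, hR⟩ := RDB_pole hx
  by_contra hne
  have h1 := R.le_ord_of_mem (hf2 R hR) hne
  rw [R.ord_algebraMap] at h1
  omega

/-- adapted generating families -/
private structure RDB_P {n : ℕ} (C : Type*) {Φ : Type*} [Field C] [Field Φ] [Algebra C Φ] (x : Φ)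
    (u : Fin n → Φ) (d : Fin n → ℕ) : Prop where
  fin : ∀ i, RDB_A C x (u i)
  inf : ∀ i, ∀ R : Place C Φ, R.ord x < 0 → u i ∈ R.ge (d i * R.ord x)
  gen : ∀ f : Φ, RDB_A C x f → ∃ p : Fin n → C[X], f = ∑ i, aeval x (p i) * u i

private theorem RDB_exists {x : Φ} (hx : Transcendental C x) :
    ∃ (u : Fin (Module.finrank C⟮x⟯ Φ) → Φ) (d : Fin (Module.finrank C⟮x⟯ Φ) → ℕ), RDB_P C x u d := by
  have hF : Fact (Transcendental C x) := ⟨hx⟩
  have hfd := FunField.finiteDimensional_adjoin hx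
  have hcz : CharZero C⟮x⟯ := charZero_of_injective_algebraMap (algebraMap C C⟮x⟯).injective
  have hpr := isPrincipalIdealRing_Rx C hx
  have hfree : Module.Free (Rx C x) (Ox C x) := IsIntegralClosure.module_free (Rx C x) C⟮x⟯ Φ (Ox C x)
  have hrank : Module.finrank (Rx C x) (Ox C x) = Module.finrank C⟮x⟯ Φ :=
    IsIntegralClosure.rank (Rx C x) C⟮x⟯ Φ (Ox C x)
  have b := Module.finBasisOfFinrankEq (Rx C x) (Ox C x) hrank
  have hd : ∀ i, ∃ m : ℕ, ∀ R : Place C Φ, -R.ord (b i : Φ) ≤ m := by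
    intro i
    have h := finite_ord_ne_zero (k := C) (b i : Φ)
    refine ⟨∑ v ∈ h.toFinset, (v.ord (b i : Φ)).natAbs, fun v => ?_⟩
    by_cases hv : v.ord (b i : Φ) = 0
    · rw [hv]; positivity
    · have h1 : (v.ord (b i : Φ)).natAbs ≤ ∑ v ∈ h.toFinset, (v.ord (b i : Φ)).natAbs :=
        Finset.single_le_sum (f := fun v : Place C Φ => (v.ord (b i : Φ)).natAbs)
          (fun _ _ => Nat.zero_le _) (h.mem_toFinset.2 hv)
      omega
  choose d hd using hd
  refine ⟨fun i => (b i : Φ), d, ?_, ?_, ?_⟩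
  · intro i R hR
    exact R.mem_ge_of_mem_Ox (R.mem_ge_of_le hR) (b i)
  · intro i R hR
    refine R.mem_ge_of_le ?_
    have h1 := hd i R
    have h2 : (d i : ℤ) * R.ord x ≤ d i * (-1) := mul_le_mul_of_nonneg_left (by omega) (by positivity)
    linarith
  · intro f hf
    have h1 := RDB_int hx hf
    have h2 := b.sum_repr ⟨f, h1⟩
    have h3 : ∀ i, ∃ q : C[X], aeval x q = ((b.repr ⟨f, h1⟩ i : Rx C x) : Φ) := fun i =>
      Algebra.adjoin_mem_exists_aeval _ _ (b.repr ⟨f, h1⟩ i).2
    choose p hp using h3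
    refine ⟨p, ?_⟩
    have h4 := congrArg (fun y : Ox C x => (y : Φ)) h2
    simp only [AddSubmonoidClass.coe_finsetSum] at h4
    rw [← h4]
    refine Finset.sum_congr rfl fun i _ => ?_
    rw [hp i]
    rfl

omit [FunField C Φ] [CharZero C] [IsAlgClosed C] in
private theorem RDB_am (x : Φ) (q : C[X]) : aeval x q ∈ C⟮x⟯ :=
  IntermediateField.algebra_adjoin_le_adjoin C {x} (aeval_mem_adjoin_singleton C x)

private theorem RDB_red {x : Φ} (hx : Transcendental C x) {n : ℕ} {u : Fin n → Φ} {d : Fin n → ℕ}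
    (h : RDB_P C x u d) (hli : LinearIndependent C⟮x⟯ u)
    (hmin : ∀ (u' : Fin n → Φ) (d' : Fin n → ℕ), RDB_P C x u' d' → ∑ i, d i ≤ ∑ i, d' i)
    (p : Fin n → C[X]) (m : ℤ)
    (hm : ∀ R : Place C Φ, R.ord x < 0 → (∑ i, aeval x (p i) * u i) ∈ R.ge (m * R.ord x))
    (i : Fin n) (hi : p i ≠ 0) : ((p i).natDegree : ℤ) + d i ≤ m := by
  classical
  by_contra hcon
  push Not at hcon
  have hx0 : x ≠ 0 := by
    rintro rfl
    exact hx isAlgebraic_zero
  obtain ⟨j, hj, hjmax⟩ := Finset.exists_max_image (Finset.univ.filter fun i => p i ≠ 0)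
    (fun i => (p i).natDegree + d i) ⟨i, by simpa using hi⟩
  obtain ⟨M, hM⟩ : ∃ M, M = (p j).natDegree + d j := ⟨_, rfl⟩
  have hle : ∀ i, p i ≠ 0 → (p i).natDegree + d i ≤ M := fun i hi => by
    rw [hM]
    exact hjmax i (by simpa using hi)
  have hmM : m + 1 ≤ M := by
    have := hle i hi
    have h2 : ((p i).natDegree : ℤ) + d i ≤ M := by exact_mod_cast this
    omega
  obtain ⟨I, hI⟩ : ∃ I, I = Finset.univ.filter fun i => p i ≠ 0 ∧ (p i).natDegree + d i = M := ⟨_, rfl⟩
  have hI' : ∀ i, i ∈ I ↔ p i ≠ 0 ∧ (p i).natDegree + d i = M := fun i => by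
    rw [hI]; simp
  have hjI : j ∈ I := (hI' j).2 ⟨by simpa using hj, hM.symm⟩
  obtain ⟨i₀, hi₀, hmax⟩ := Finset.exists_max_image I d ⟨j, hjI⟩
  obtain ⟨hp₀, hM₀⟩ := (hI' i₀).1 hi₀
  obtain ⟨w, hw⟩ : ∃ w : Fin n → C[X], w = fun i => if i ∈ I then
    Polynomial.C (p i).leadingCoeff * X ^ (d i₀ - d i) else 0 := ⟨_, rfl⟩
  obtain ⟨u', hu'⟩ : ∃ u', u' = ∑ i, aeval x (w i) * u i := ⟨_, rfl⟩
  have hw₀ : w i₀ = Polynomial.C (p i₀).leadingCoeff := by
    rw [hw]
    simp [hi₀]
  have hl₀ : (p i₀).leadingCoeff ≠ 0 := leadingCoeff_ne_zero.2 hp₀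
  -- `u'` has no poles at finite places
  have hfin : RDB_A C x u' := by
    intro R hR
    rw [hu']
    refine sum_mem fun i _ => ?_
    have h1 := R.mul_mem_ge (R.aeval_mem_ge_zero (R.mem_ge_of_le hR) (w i)) (h.fin i R hR)
    rwa [add_zero] at h1
  -- order at the poles
  have hinf : ∀ R : Place C Φ, R.ord x < 0 → u' ∈ R.ge (((d i₀ : ℤ) - 1) * R.ord x) := by
    intro R hR
    obtain ⟨q, hq⟩ : ∃ q : Fin n → C[X], q = fun i => if i ∈ I then (p i).eraseLead else p i := ⟨_, rfl⟩
    have hd₀ : d i₀ ≤ M := by omega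
    have e1 : x ^ (M - d i₀) * u' = (∑ i, aeval x (p i) * u i) - ∑ i, aeval x (q i) * u i := by
      rw [hu', Finset.mul_sum, ← Finset.sum_sub_distrib]
      refine Finset.sum_congr rfl fun i _ => ?_
      rw [← mul_assoc, ← sub_mul]
      congr 1
      by_cases hiI : i ∈ I
      · obtain ⟨hpi, hMi⟩ := (hI' i).1 hiI
        have hdi := hmax i hiI
        have e2 : M - d i₀ + (d i₀ - d i) = (p i).natDegree := by omega
        rw [hw, hq]
        simp only [if_pos hiI]
        rw [map_mul, aeval_C, map_pow, aeval_X]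
        have e3 : aeval x (p i) = aeval x (p i).eraseLead +
            algebraMap C Φ (p i).leadingCoeff * x ^ (p i).natDegree := by
          conv_lhs => rw [← (p i).eraseLead_add_C_mul_X_pow]
          rw [map_add, map_mul, aeval_C, map_pow, aeval_X]
        rw [e3, ← e2, pow_add]
        ring
      · rw [hw, hq]
        simp only [if_neg hiI]
        rw [map_zero, mul_zero, sub_self]
    have h2 : (∑ i, aeval x (q i) * u i) ∈ R.ge (((M : ℤ) - 1) * R.ord x) := by
      refine sum_mem fun i _ => ?_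
      have hqi : q i = 0 ∨ (q i).natDegree + d i + 1 ≤ M := by
        by_cases hiI : i ∈ I
        · obtain ⟨hpi, hMi⟩ := (hI' i).1 hiI
          have e4 : q i = (p i).eraseLead := by rw [hq]; simp [hiI]
          rw [e4]
          by_cases hd : (p i).natDegree = 0
          · left
            rw [eq_C_of_natDegree_eq_zero hd, eraseLead_C]
          · right
            have := (p i).eraseLead_natDegree_le
            omega
        · have e4 : q i = p i := by rw [hq]; simp [hiI]
          rw [e4]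
          by_cases hpi : p i = 0
          · exact Or.inl hpi
          · right
            have h3 := hle i hpi
            have h4 : (p i).natDegree + d i ≠ M := fun hc => hiI ((hI' i).2 ⟨hpi, hc⟩)
            omega
      rcases hqi with h0 | h0
      · rw [h0, map_zero, zero_mul]
        exact zero_mem _
      · have h3 := R.mul_mem_ge (R.aeval_mem_ge hR.le (q i) le_rfl) (h.inf i R hR)
        refine R.ge_anti ?_ h3
        have h4 : ((q i).natDegree : ℤ) + d i + 1 ≤ M := by exact_mod_cast h0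
        nlinarith
    have h3 : (∑ i, aeval x (p i) * u i) ∈ R.ge (((M : ℤ) - 1) * R.ord x) := by
      refine R.ge_anti ?_ (hm R hR)
      nlinarith
    have h4 : x ^ (M - d i₀) * u' ∈ R.ge (((M : ℤ) - 1) * R.ord x) := by
      rw [e1]
      exact sub_mem h3 h2
    have h5 := R.mul_mem_ge (R.mem_ge_ord (x⁻¹ ^ (M - d i₀))) h4
    have e5 : x⁻¹ ^ (M - d i₀) * (x ^ (M - d i₀) * u') = u' := by
      rw [← mul_assoc, ← mul_pow, inv_mul_cancel₀ hx0, one_pow, one_mul]
    rw [e5, R.ord_pow, R.ord_inv] at h5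
    refine R.ge_anti (le_of_eq ?_) h5
    have e6 : ((M - d i₀ : ℕ) : ℤ) = (M : ℤ) - d i₀ := by omega
    rw [e6]
    ring
  rcases Nat.eq_zero_or_pos (d i₀) with hd₀ | hd₀
  · have hz : u' = 0 := by
      refine RDB_zero hx hfin fun R hR => R.ge_anti ?_ (hinf R hR)
      rw [hd₀]
      push_cast
      omega
    rw [hz] at hu'
    have h1 := Fintype.linearIndependent_iff.1 hli
      (fun i => ⟨aeval x (w i), RDB_am x (w i)⟩) (by
        rw [hu']
        exact Finset.sum_congr rfl fun i _ => rfl) i₀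
    have h2 : aeval x (w i₀) = 0 := congrArg (fun y : C⟮x⟯ => (y : Φ)) h1
    rw [hw₀, aeval_C, map_eq_zero] at h2
    exact hl₀ h2
  · have hnew : RDB_P C x (Function.update u i₀ u') (Function.update d i₀ (d i₀ - 1)) := by
      refine ⟨fun i => ?_, fun i R hR => ?_, fun f hf => ?_⟩
      · by_cases hi : i = i₀
        · rw [hi, Function.update_self]
          exact hfin
        · rw [Function.update_of_ne hi]
          exact h.fin i
      · by_cases hi : i = i₀
        · rw [hi, Function.update_self, Function.update_self]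
          have e6 : ((d i₀ - 1 : ℕ) : ℤ) = (d i₀ : ℤ) - 1 := by omega
          rw [e6]
          exact hinf R hR
        · rw [Function.update_of_ne hi, Function.update_of_ne hi]
          exact h.inf i R hR
      · obtain ⟨r, hr⟩ := h.gen f hf
        obtain ⟨c, hc⟩ : ∃ c : C[X], c = Polynomial.C (p i₀).leadingCoeff⁻¹ * r i₀ := ⟨_, rfl⟩
        refine ⟨fun i => if i = i₀ then c else r i - c * w i, ?_⟩
        rw [← Finset.add_sum_erase Finset.univ _ (Finset.mem_univ i₀)]
        beta_reduce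
        rw [if_pos rfl, Function.update_self]
        have e7 : ∑ i ∈ Finset.univ.erase i₀, aeval x (if i = i₀ then c else r i - c * w i) *
            Function.update u i₀ u' i =
            ∑ i ∈ Finset.univ.erase i₀, (aeval x (r i) * u i - aeval x c * (aeval x (w i) * u i)) := by
          refine Finset.sum_congr rfl fun i hi => ?_
          rw [if_neg (Finset.ne_of_mem_erase hi), Function.update_of_ne (Finset.ne_of_mem_erase hi),
            map_sub, map_mul]
          ring
        rw [e7, Finset.sum_sub_distrib, ← Finset.mul_sum, hr,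
          ← Finset.add_sum_erase Finset.univ (fun i => aeval x (r i) * u i) (Finset.mem_univ i₀)]
        have e8 : u' = aeval x (w i₀) * u i₀ + ∑ i ∈ Finset.univ.erase i₀, aeval x (w i) * u i := by
          rw [hu', ← Finset.add_sum_erase Finset.univ _ (Finset.mem_univ i₀)]
        have e9 : aeval x c * aeval x (w i₀) = aeval x (r i₀) := by
          rw [← map_mul, hc, hw₀]
          congr 1
          rw [mul_right_comm, ← C_mul, inv_mul_cancel₀ hl₀, C_1, one_mul]
        rw [← e9]
        conv_rhs => rw [e8]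
        ring
    have h1 := hmin _ _ hnew
    rw [← Finset.add_sum_erase Finset.univ d (Finset.mem_univ i₀),
      ← Finset.add_sum_erase Finset.univ (Function.update d i₀ (d i₀ - 1)) (Finset.mem_univ i₀),
      Function.update_self] at h1
    have h2 : ∑ i ∈ Finset.univ.erase i₀, Function.update d i₀ (d i₀ - 1) i =
        ∑ i ∈ Finset.univ.erase i₀, d i := by
      refine Finset.sum_congr rfl fun i hi => ?_
      rw [Function.update_of_ne (Finset.ne_of_mem_erase hi)]
    rw [h2] at h1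
    omega

theorem rdb (x : Φ) (hx : Transcendental C x) :
    ∃ (u : Fin (Module.finrank C⟮x⟯ Φ) → Φ) (d : Fin (Module.finrank C⟮x⟯ Φ) → ℕ),
      LinearIndependent C⟮x⟯ u ∧ (∀ i, ∀ R : Place C Φ, 0 ≤ R.ord x → u i ∈ R.ge 0) ∧
      (∀ i, ∀ R : Place C Φ, R.ord x < 0 → u i ∈ R.ge (d i * R.ord x)) ∧
      (∀ f : Φ, (∀ R : Place C Φ, 0 ≤ R.ord x → f ∈ R.ge 0) →
        ∃ p : Fin (Module.finrank C⟮x⟯ Φ) → C[X], f = ∑ i, aeval x (p i) * u i) ∧
      (∀ f : Φ, (∀ R : Place C Φ, R.ord x < 0 → f ∈ R.ge 0) →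
        ∃ b : Fin (Module.finrank C⟮x⟯ Φ) → C⟮x⟯, (∀ i, ∀ R : Place C Φ, R.ord x < 0 → (b i : Φ) ∈ R.ge 0) ∧
          f = ∑ i, (b i : Φ) * (x⁻¹ ^ d i * u i)) ∧
      ∃ i₀, d i₀ = 0 ∧ ∀ i, i ≠ i₀ → 1 ≤ d i := by
  classical
  have hfd := FunField.finiteDimensional_adjoin hx
  have hx0 : x ≠ 0 := by
    rintro rfl
    exact hx isAlgebraic_zero
  -- a minimal adapted family
  obtain ⟨u, d, h, hmin⟩ : ∃ (u : Fin (Module.finrank C⟮x⟯ Φ) → Φ) (d : Fin (Module.finrank C⟮x⟯ Φ) → ℕ),
      RDB_P C x u d ∧ ∀ u' d', RDB_P C x u' d' → ∑ i, d i ≤ ∑ i, d' i := by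
    have hex : ∃ s : ℕ, ∃ (u : Fin (Module.finrank C⟮x⟯ Φ) → Φ) (d : Fin (Module.finrank C⟮x⟯ Φ) → ℕ),
        RDB_P C x u d ∧ ∑ i, d i = s := by
      obtain ⟨u, d, h⟩ := RDB_exists hx
      exact ⟨_, u, d, h, rfl⟩
    obtain ⟨u, d, h, hs⟩ := Nat.find_spec hex
    refine ⟨u, d, h, fun u' d' h' => ?_⟩
    rw [hs]
    exact Nat.find_min' hex ⟨u', d', h', rfl⟩
  have hspan : ⊤ ≤ Submodule.span C⟮x⟯ (Set.range u) := by
    intro f _
    obtain ⟨q, hq0, hq⟩ := RDB_mul hx f
    obtain ⟨p, hp⟩ := h.gen _ hq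
    have hq1 : aeval x q ≠ 0 := fun hc => hq0 ((transcendental_iff.1 hx) q hc)
    have e1 : f = ∑ i, (⟨(aeval x q)⁻¹ * aeval x (p i), mul_mem (inv_mem (RDB_am x q))
        (RDB_am x (p i))⟩ : C⟮x⟯) • u i := by
      have e2 : f = (aeval x q)⁻¹ * (aeval x q * f) := by
        rw [← mul_assoc, inv_mul_cancel₀ hq1, one_mul]
      rw [e2, hp, Finset.mul_sum]
      refine Finset.sum_congr rfl fun i _ => ?_
      rw [IntermediateField.smul_def]
      simp only
      rw [smul_eq_mul, mul_assoc]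
    rw [e1]
    exact sum_mem fun i _ => Submodule.smul_mem _ _ (Submodule.subset_span ⟨i, rfl⟩)
  have hli : LinearIndependent C⟮x⟯ u :=
    linearIndependent_of_top_le_span_of_card_eq_finrank hspan (Fintype.card_fin _)
  refine ⟨u, d, hli, h.fin, h.inf, h.gen, fun f hf => ?_, ?_⟩
  · obtain ⟨q, hq0, hq⟩ := RDB_mul hx f
    obtain ⟨p, hp⟩ := h.gen _ hq
    have hq1 : aeval x q ≠ 0 := fun hc => hq0 ((transcendental_iff.1 hx) q hc)
    have hred : ∀ i, p i ≠ 0 → ((p i).natDegree : ℤ) + d i ≤ q.natDegree := fun i hi =>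
      RDB_red hx h hli hmin p q.natDegree (fun R hR => by
        rw [← hp]
        have h1 := R.mul_mem_ge (R.aeval_mem_ge hR.le q le_rfl) (hf R hR)
        rwa [add_zero] at h1) i hi
    refine ⟨fun i => ⟨aeval x (p i) * x ^ d i * (aeval x q)⁻¹, mul_mem (mul_mem
      (RDB_am x (p i)) (pow_mem (mem_adjoin_simple_self C x) _))
      (inv_mem (RDB_am x q))⟩, fun i R hR => ?_, ?_⟩
    · by_cases hpi : p i = 0
      · simp only [hpi, map_zero, zero_mul]
        exact zero_mem _
      · have h1 := R.mul_mem_ge (R.mul_mem_ge (R.aeval_mem_ge hR.le (p i) le_rfl)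
          (R.mem_ge_ord (x ^ d i))) (R.mem_ge_ord (aeval x q)⁻¹)
        rw [R.ord_inv, (R.ord_aeval hR hq0).2, R.ord_pow] at h1
        refine R.ge_anti ?_ h1
        have h2 := hred i hpi
        nlinarith
    · have e2 : f = (aeval x q)⁻¹ * (aeval x q * f) := by
        rw [← mul_assoc, inv_mul_cancel₀ hq1, one_mul]
      rw [e2, hp, Finset.mul_sum]
      refine Finset.sum_congr rfl fun i _ => ?_
      simp only
      have e3 : x ^ d i * x⁻¹ ^ d i = 1 := by
        rw [← mul_pow, mul_inv_cancel₀ hx0, one_pow]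
      linear_combination (-(aeval x (p i) * (aeval x q)⁻¹ * u i)) * e3
  · obtain ⟨p, hp⟩ := h.gen 1 (fun R _ => R.one_mem_ge)
    have hex : ∃ i₀, p i₀ ≠ 0 := by
      by_contra hcon
      push Not at hcon
      rw [Finset.sum_eq_zero (fun i _ => by rw [hcon i, map_zero, zero_mul])] at hp
      exact one_ne_zero hp
    obtain ⟨i₀, hi₀⟩ := hex
    have h0 := RDB_red hx h hli hmin p 0 (fun R hR => by
      rw [← hp, zero_mul]
      exact R.one_mem_ge) i₀ hi₀
    have hd₀ : d i₀ = 0 := by omega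
    refine ⟨i₀, hd₀, fun i hi => ?_⟩
    by_contra hcon
    have hdi : d i = 0 := by omega
    obtain ⟨c, hc⟩ := RDB_const (h.fin i) (fun R hR => by
      have := h.inf i R hR
      rwa [hdi, Nat.cast_zero, zero_mul] at this)
    obtain ⟨c₀, hc₀⟩ := RDB_const (h.fin i₀) (fun R hR => by
      have := h.inf i₀ R hR
      rwa [hd₀, Nat.cast_zero, zero_mul] at this)
    have h1 := linearIndependent_iff'.1 hli {i, i₀}
      (fun j => if j = i then algebraMap C C⟮x⟯ c₀ else -algebraMap C C⟮x⟯ c) (by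
        rw [Finset.sum_pair hi, if_pos rfl, if_neg (Ne.symm hi), hc, hc₀, IntermediateField.smul_def,
          IntermediateField.smul_def]
        change algebraMap C Φ c₀ * algebraMap C Φ c + -(algebraMap C Φ c) * algebraMap C Φ c₀ = 0
        ring) i (Finset.mem_insert_self _ _)
    rw [if_pos rfl, map_eq_zero] at h1
    rw [h1, map_zero] at hc₀
    exact hli.ne_zero i₀ hc₀

end Pool.Agent.ESH
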