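import Pool.Agent.ESH.DSL
import Pool.Agent.ESH.DUR
import Pool.Agent.ESH.RDB
import Pool.Agent.Helper11.Chi

/-!
# ESH / PGN: a curve with canonical divisor of positive degree has a regular differential

`x` transcendental, `E = C(x)`, `n = [Φ : E]`, `u`, `d` from RDB.
(1) `∑_R (e_R - 1) ≤ 2 ∑ d_i`, `e_R` the ramification index over the `x`-line.  `D = det Tr(u_i u_j) ≠ 0` (`dsl_ne`).  For `c ∈ C` DSL with `z = x - c` (`C(x - c) = C(x)`) gives `R₀.ord D ≥ e_{R₀} s_c`, `s_c = ∑_{R | c} (e_R - 1)`; sum over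
the places over `c`: `≥ n s_c`.  At infinity DSL with `z = x⁻¹` and `v_i = x^(-d_i) u_i`: determinant `x^(-2∑d) D`: sum over the poles of `x`: `∑ R.ord D ≥ n s_∞ - 2 n ∑ d_i`.  Total `0 = ∑ R.ord D` (`finsum_ord`).
(2) `chi = ∑ R.ord (R.dv x) = ∑ (e_R - 1) - 2 n` (`finsum_ord_dv`, `ord_dv`; at a pole `-e-1 = (e - 1) - 2e`).  So if all `d_i ≤ 1`, `chi ≤ 2(n - 1) - 2n = -2`: contradiction.  So `d_i ≥ 2` for some `i`.
(3) `h` = the dual basis element of `u_i` for the trace form of `Φ/C(x)`: `Tr(h u_j) = δ_ij`.  For `f` without poles at finite `x`, `Tr(h f) = p_i(x)` has no finite pole: DUR for `z = x - c`: `R.ord h ≥ 1 - e_R`, so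
`R.ordDiff (h dx) = R.ord h + e_R - 1 ≥ 0`.  At infinity: for `f` regular there, `f = ∑ b_j x^(-d_j) u_j`, `Tr(h x² f) = b_i x^(2-d_i)` is regular: DUR with `z = x⁻¹` for `h x²`: `R.ord (h x²) ≥ 1 - e_R`, and
`R.ordDiff (h dx) = R.ord h - e_R - 1 = R.ord (h x²) + 2 e_R - e_R - 1 ≥ 0`.  (Helper11: `ordDiff_smul_D`, `ord_dv`.)
-/

namespace Pool.Agent.ESH

open Pool.Agent.Helper11 Polynomial IntermediateField

variable {C Φ : Type*} [Field C] [Field Φ] [Algebra C Φ] [FunField C Φ] [CharZero C] [IsAlgClosed C]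


/-- value of a polynomial in `z` at a zero of `z` -/
private theorem PGN_poly (R : Place C Φ) {z : Φ} (h : 1 ≤ R.ord z) (q : C[X]) :
    aeval z q ∈ R.ge 0 ∧ ev R (aeval z q) = q.coeff 0 := by
  have hz1 : z ∈ R.ge 1 := R.mem_ge_of_le h
  have hz0 : z ∈ R.ge 0 := R.ge_anti zero_le_one hz1
  have h1 : ∀ p : C[X], aeval z p ∈ R.ge 0 := fun p =>
    R.mem_ge_of_mem_Rx hz0 ⟨_, Polynomial.aeval_mem_adjoin_singleton C z⟩
  refine ⟨h1 q, evl_eq R ?_⟩
  obtain ⟨p, hp⟩ := X_dvd_sub_C (p := q)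
  have h2 : aeval z q - algebraMap C Φ (q.coeff 0) = z * aeval z p := by
    have := congrArg (aeval z) hp
    rwa [map_sub, aeval_C, map_mul, aeval_X] at this
  rw [h2]
  have h3 := R.mul_mem_ge hz1 (h1 p)
  rwa [add_zero] at h3

/-- common denominators away from `z = 0` -/
private theorem PGN_den {z : Φ} (hzne : z ≠ 0) (f : Φ) (hf : ∀ R : Place C Φ, 1 ≤ R.ord z → f ∈ R.ge 0) :
    ∃ q : C[X], q.coeff 0 ≠ 0 ∧ ∀ R : Place C Φ, 0 ≤ R.ord z → aeval z q * f ∈ R.ge 0 := by
  classical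
  have hfin := finite_pos_ord (k := C) f⁻¹
  let S : Finset (Place C Φ) := hfin.toFinset.filter fun R => R.ord z = 0 ∧ ev R z ≠ 0
  refine ⟨∏ R ∈ S, (X - Polynomial.C (ev R z)) ^ (R.ord f).natAbs, ?_, ?_⟩
  · rw [coeff_zero_eq_eval_zero, eval_prod, Finset.prod_ne_zero_iff]
    intro R hR
    rw [eval_pow, eval_sub, eval_X, eval_C, zero_sub]
    exact pow_ne_zero _ (neg_ne_zero.2 (Finset.mem_filter.1 hR).2.2)
  · intro R hR
    have hz0 : z ∈ R.ge 0 := R.mem_ge_of_le hR
    have h1 : ∀ p : C[X], aeval z p ∈ R.ge 0 := fun p =>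
      R.mem_ge_of_mem_Rx hz0 ⟨_, Polynomial.aeval_mem_adjoin_singleton C z⟩
    by_cases hfR : f ∈ R.ge 0
    · have h3 := R.mul_mem_ge (h1 (∏ R ∈ S, (X - Polynomial.C (ev R z)) ^ (R.ord f).natAbs)) hfR
      rwa [add_zero] at h3
    · have h2 : R.ord f < 0 := by
        by_contra hc
        exact hfR (R.mem_ge_of_le (not_lt.1 hc))
      have h3 : ¬ 1 ≤ R.ord z := fun hc => hfR (hf R hc)
      have h4 : R.ord z = 0 := by omega
      have h5 : ev R z ≠ 0 := by
        intro hc
        rw [evl_zero_iff R hz0] at hc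
        rcases hc with hc | hc
        · exact hzne hc
        · omega
      have h6 : R ∈ S := by
        rw [Finset.mem_filter, Set.Finite.mem_toFinset]
        refine ⟨?_, h4, h5⟩
        show 0 < R.ord f⁻¹
        rw [R.ord_inv]
        omega
      rw [← Finset.mul_prod_erase S _ h6, map_mul, map_pow, map_sub, aeval_X, aeval_C]
      have h7 := R.pow_mem_ge (evl_mem R hz0) (R.ord f).natAbs
      have h8 := R.mul_mem_ge (R.mul_mem_ge h7 (h1 (∏ R ∈ S.erase R, (X - Polynomial.C (ev R z)) ^ (R.ord f).natAbs))) (R.mem_ge_ord f)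
      refine R.ge_anti ?_ h8
      omega

private theorem PGN_tr_sub {x : Φ} (hx : Transcendental C x) (c : C) :
    Transcendental C (x - algebraMap C Φ c) ∧ C⟮x - algebraMap C Φ c⟯ = C⟮x⟯ := by
  have h1 : C⟮x - algebraMap C Φ c⟯ = C⟮x⟯ := by
    apply le_antisymm
    · rw [IntermediateField.adjoin_simple_le_iff]
      exact sub_mem (mem_adjoin_simple_self C x) (IntermediateField.algebraMap_mem _ c)
    · rw [IntermediateField.adjoin_simple_le_iff]
      have := add_mem (mem_adjoin_simple_self C (x - algebraMap C Φ c)) (IntermediateField.algebraMap_mem C⟮x - algebraMap C Φ c⟯ c)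
      rwa [sub_add_cancel] at this
  refine ⟨fun h => hx ?_, h1⟩
  have := h.add (isAlgebraic_algebraMap (R := C) (A := Φ) c)
  rwa [sub_add_cancel] at this

private theorem PGN_tr_inv {x : Φ} (hx : Transcendental C x) : Transcendental C x⁻¹ := by
  intro h
  apply hx
  have := h.inv
  rwa [inv_inv] at this

private theorem PGN_sum {z : Φ} (hz : Transcendental C z) :
    ∑ R ∈ (finite_pos_ord (k := C) z).toFinset, R.ord z = (Module.finrank C⟮z⟯ Φ : ℤ) := by
  rw [← finsum_pos_ord hz, finsum_eq_sum_of_support_subset (s := (finite_pos_ord (k := C) z).toFinset)]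
  · refine Finset.sum_congr rfl fun R hR => ?_
    rw [Set.Finite.mem_toFinset] at hR
    have : 0 < R.ord z := hR
    rw [max_eq_right this.le]
  · intro R hR
    rw [Set.Finite.coe_toFinset]
    rw [Function.mem_support] at hR
    show 0 < R.ord z
    by_contra hc
    exact hR (max_eq_left (not_lt.1 hc))

/-- fibre inequality -/
private theorem PGN_fib (E : IntermediateField C Φ) (z : Φ) (hE : E = C⟮z⟯) (hz : Transcendental C z)
    (v : Fin (Module.finrank E Φ) → Φ) (hv : ∀ i, ∀ R : Place C Φ, 1 ≤ R.ord z → v i ∈ R.ge 0)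
    (hv' : LinearIndependent E v) :
    (Module.finrank E Φ : ℤ) * (∑ R ∈ (finite_pos_ord (k := C) z).toFinset, (R.ord z - 1)) ≤
      ∑ R ∈ (finite_pos_ord (k := C) z).toFinset,
        R.ord (Matrix.of fun i j => ((Algebra.trace E Φ (v i * v j) : E) : Φ)).det := by
  have h1 := dsl_ne E z hE hz v hv'
  have h2 : ∑ᶠ R : Place C Φ, (if 1 ≤ R.ord z then R.ord z - 1 else 0) =
      ∑ R ∈ (finite_pos_ord (k := C) z).toFinset, (R.ord z - 1) := by
    rw [finsum_eq_sum_of_support_subset (s := (finite_pos_ord (k := C) z).toFinset)]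
    · refine Finset.sum_congr rfl fun R hR => ?_
      rw [Set.Finite.mem_toFinset] at hR
      have : 0 < R.ord z := hR
      rw [if_pos (by omega)]
    · intro R hR
      rw [Set.Finite.coe_toFinset]
      rw [Function.mem_support] at hR
      show 0 < R.ord z
      by_contra hc
      exact hR (if_neg (by omega))
  have h3 := PGN_sum hz
  rw [← hE] at h3
  rw [← h3, Finset.sum_mul]
  refine Finset.sum_le_sum fun R hR => ?_
  rw [Set.Finite.mem_toFinset] at hR
  have h4 : 0 < R.ord z := hR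
  have h5 := dsl E z hE hz v hv h1 R (by omega)
  rwa [h2] at h5

private theorem PGN_det {n : ℕ} (E : IntermediateField C Φ) (a : Fin n → E) (u : Fin n → Φ) :
    (Matrix.of fun i j => ((Algebra.trace E Φ (((a i : Φ) * u i) * ((a j : Φ) * u j)) : E) : Φ)).det =
      (∏ i, (a i : Φ)) ^ 2 * (Matrix.of fun i j => ((Algebra.trace E Φ (u i * u j) : E) : Φ)).det := by
  have h1 : (Matrix.of fun i j => ((Algebra.trace E Φ (((a i : Φ) * u i) * ((a j : Φ) * u j)) : E) : Φ)) =
      Matrix.of fun i j => (a i : Φ) * (Matrix.of fun i j => (a j : Φ) *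
        (Matrix.of fun i j => ((Algebra.trace E Φ (u i * u j) : E) : Φ)) i j) i j := by
    ext i j
    rw [Matrix.of_apply, Matrix.of_apply, Matrix.of_apply, Matrix.of_apply]
    have h2 : ((a i : Φ) * u i) * ((a j : Φ) * u j) = (a i * a j) • (u i * u j) := by
      rw [Algebra.smul_def, map_mul]
      show _ = (a i : Φ) * (a j : Φ) * (u i * u j)
      ring
    rw [h2, map_smul, smul_eq_mul]
    show (a i : Φ) * (a j : Φ) * _ = _
    ring
  rw [h1, Matrix.det_mul_column, Matrix.det_mul_row]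
  ring

private theorem PGN_w (R : Place C Φ) {x : Φ} (c : C) (h : 0 < R.ord (x - algebraMap C Φ c)) :
    R.ord (R.dv x) = R.ord (x - algebraMap C Φ c) - 1 := by
  have h1 := (R.ord_dv (y := x - algebraMap C Φ c) (by omega)).2
  rwa [map_sub, Derivation.map_algebraMap, sub_zero] at h1

/-- the coordinate at a point of the line -/
private noncomputable def PGN_z (x : Φ) : Option C → Φ
  | none => x⁻¹
  | some c => x - algebraMap C Φ c

private noncomputable def PGN_val (x : Φ) (R : Place C Φ) : Option C :=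
  open Classical in if R.ord x < 0 then none else some (ev R x)

private theorem PGN_val_iff {x : Φ} (hx : Transcendental C x) (R : Place C Φ) (b : Option C) :
    0 < R.ord (PGN_z x b) ↔ PGN_val x R = b := by
  unfold PGN_val
  have hx0 : x ≠ 0 := by
    intro h
    exact hx (by rw [h]; exact isAlgebraic_zero)
  cases b with
  | none =>
    show 0 < R.ord x⁻¹ ↔ _
    rw [R.ord_inv]
    split_ifs with h
    · simp only [iff_true]
      omega
    · simp only [iff_false]
      omega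
  | some c =>
    show 0 < R.ord (x - algebraMap C Φ c) ↔ _
    have hxc : x - algebraMap C Φ c ≠ 0 := by
      intro h
      apply hx
      rw [sub_eq_zero.1 h]
      exact isAlgebraic_algebraMap c
    constructor
    · intro h
      have h1 : x - algebraMap C Φ c ∈ R.ge 1 := R.mem_ge_of_le (by omega)
      have h2 := add_mem (R.ge_anti (by norm_num : (0 : ℤ) ≤ 1) h1) (R.algebraMap_mem_ge c)
      rw [sub_add_cancel] at h2
      have h3 := R.le_ord_of_mem h2 hx0
      rw [if_neg (by omega), evl_eq R h1]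
    · intro h
      split_ifs at h with h1
      rw [Option.some.injEq] at h
      have h2 := evl_mem R (R.mem_ge_of_le (not_lt.1 h1))
      rw [h] at h2
      have := R.le_ord_of_mem h2 hxc
      omega

private theorem PGN_bound {x : Φ} (hx : Transcendental C x)
    (u : Fin (Module.finrank C⟮x⟯ Φ) → Φ) (d : Fin (Module.finrank C⟮x⟯ Φ) → ℕ)
    (hu : LinearIndependent C⟮x⟯ u) (hb : ∀ i, ∀ R : Place C Φ, 0 ≤ R.ord x → u i ∈ R.ge 0)
    (hc : ∀ i, ∀ R : Place C Φ, R.ord x < 0 → u i ∈ R.ge (d i * R.ord x)) :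
    chi C Φ ≤ 2 * (∑ i, d i : ℕ) - 2 * (Module.finrank C⟮x⟯ Φ : ℤ) := by
  classical
  have hx0 : x ≠ 0 := by
    intro h
    exact hx (by rw [h]; exact isAlgebraic_zero)
  have hx' := PGN_tr_inv hx
  have hfd := FunField.finiteDimensional_adjoin hx
  obtain ⟨D, hD⟩ : ∃ D, D = (Matrix.of fun i j => ((Algebra.trace C⟮x⟯ Φ (u i * u j) : C⟮x⟯) : Φ)).det := ⟨_, rfl⟩
  have hD0 : D ≠ 0 := by
    rw [hD]
    exact dsl_ne C⟮x⟯ x rfl hx u hu
  obtain ⟨n, hn⟩ : ∃ n : ℤ, n = (Module.finrank C⟮x⟯ Φ : ℤ) := ⟨_, rfl⟩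
  obtain ⟨s, hs⟩ : ∃ s : ℕ, s = ∑ i, d i := ⟨_, rfl⟩
  have hnpos : 0 < n := by
    rw [hn]
    exact_mod_cast Module.finrank_pos
  obtain ⟨κ, hκ⟩ : ∃ κ : Option C → ℤ, κ = fun b => if b = none then 2 * n - 2 * s else 0 := ⟨_, rfl⟩
  obtain ⟨F, hF⟩ : ∃ F : Option C → Finset (Place C Φ), F = fun b => (finite_pos_ord (k := C) (PGN_z x b)).toFinset := ⟨_, rfl⟩
  have hmF : ∀ b R, R ∈ F b ↔ PGN_val x R = b := by
    intro b R
    rw [hF, ← PGN_val_iff hx R b, Set.Finite.mem_toFinset]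
    rfl
  -- the fibres
  have key : ∀ b, n * ((∑ R ∈ F b, R.ord (R.dv x)) + κ b) ≤ ∑ R ∈ F b, R.ord D := by
    intro b
    cases b with
    | some c =>
      obtain ⟨h1, h2⟩ := PGN_tr_sub hx c
      have h3 := PGN_fib C⟮x⟯ (x - algebraMap C Φ c) h2.symm h1 u (by
        intro i R hR
        have h4 : x - algebraMap C Φ c ∈ R.ge 1 := R.mem_ge_of_le hR
        have h5 := add_mem (R.ge_anti (by norm_num : (0 : ℤ) ≤ 1) h4) (R.algebraMap_mem_ge c)
        rw [sub_add_cancel] at h5
        exact hb i R (R.le_ord_of_mem h5 hx0)) hu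
      rw [← hD, ← hn] at h3
      rw [hκ]
      have h6 : F (some c) = (finite_pos_ord (k := C) (x - algebraMap C Φ c)).toFinset := by
        rw [hF]
        rfl
      rw [← h6] at h3
      refine le_trans (le_of_eq ?_) h3
      simp only [reduceCtorEq, if_false, add_zero]
      congr 1
      refine Finset.sum_congr rfl fun R hR => ?_
      rw [h6, Set.Finite.mem_toFinset] at hR
      exact PGN_w R c hR
    | none =>
      obtain ⟨a, ha⟩ : ∃ a : Fin (Module.finrank C⟮x⟯ Φ) → C⟮x⟯, ∀ i, (a i : Φ) = x⁻¹ ^ d i :=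
        ⟨fun i => ⟨x⁻¹ ^ d i, pow_mem (inv_mem (mem_adjoin_simple_self C x)) _⟩, fun i => rfl⟩
      have ha0 : ∀ i, a i ≠ 0 := by
        intro i h
        have h1 := ha i
        rw [h] at h1
        exact pow_ne_zero (d i) (inv_ne_zero hx0) h1.symm
      have h3 := PGN_fib C⟮x⟯ x⁻¹ (adjoin_inv x).symm hx' (fun i => (a i : Φ) * u i) (by
        intro i R hR
        rw [ha]
        have h5 : R.ord x < 0 := by
          rw [R.ord_inv] at hR
          omega
        have h4 := R.mul_mem_ge (R.pow_mem_ge (R.mem_ge_ord x⁻¹) (d i)) (hc i R h5)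
        rw [R.ord_inv] at h4
        refine R.ge_anti ?_ h4
        nlinarith) (by
        have h4 := hu.units_smul (fun i => Units.mk0 (a i) (ha0 i))
        exact h4)
      rw [PGN_det, ← hD, ← hn] at h3
      have h6 : F none = (finite_pos_ord (k := C) x⁻¹).toFinset := by
        rw [hF]
        rfl
      rw [← h6] at h3
      have hprod : (∏ i, (a i : Φ)) = x⁻¹ ^ s := by
        rw [Finset.prod_congr rfl fun i _ => ha i, Finset.prod_pow_eq_pow_sum, hs]
      have h7 : ∀ R : Place C Φ, R.ord ((∏ i, (a i : Φ)) ^ 2 * D) = 2 * s * R.ord x⁻¹ + R.ord D := by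
        intro R
        rw [hprod, R.ord_mul _ _ (pow_ne_zero _ (pow_ne_zero _ (inv_ne_zero hx0))) hD0, R.ord_pow, R.ord_pow]
        push_cast
        ring
      rw [Finset.sum_congr rfl fun R _ => h7 R, Finset.sum_add_distrib, ← Finset.mul_sum] at h3
      have h8 := PGN_sum (C := C) hx'
      rw [adjoin_inv, ← hn, ← h6] at h8
      rw [h8, Finset.sum_sub_distrib, h8] at h3
      have h9 : ∑ R ∈ F none, R.ord (R.dv x) = ∑ R ∈ F none, (-R.ord x⁻¹ - 1) := by
        refine Finset.sum_congr rfl fun R hR => ?_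
        rw [h6, Set.Finite.mem_toFinset] at hR
        have h10 : 0 < R.ord x⁻¹ := hR
        rw [R.ord_inv] at h10 ⊢
        rw [(R.ord_dv (y := x) (by omega)).2]
        ring
      rw [h9, Finset.sum_sub_distrib, Finset.sum_neg_distrib, h8, hκ]
      simp only [if_true]
      nlinarith
  -- sum over all the fibres
  have hfin1 := finite_ord_ne_zero (k := C) D
  have hfin2 := finite_ord_dv_ne_zero (k := C) hx
  obtain ⟨B, hB⟩ : ∃ B : Finset (Option C), B = insert none ((hfin1.toFinset ∪ hfin2.toFinset).image (PGN_val x)) := ⟨_, rfl⟩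
  have hdisj : (B : Set (Option C)).PairwiseDisjoint F := by
    intro b _ b' _ hbb
    rw [Function.onFun, Finset.disjoint_left]
    intro R h1 h2
    rw [hmF] at h1 h2
    exact hbb (h1.symm.trans h2)
  have hT : ∀ g : Place C Φ → ℤ, (∀ R, g R ≠ 0 → PGN_val x R ∈ B) → ∑ᶠ R, g R = ∑ b ∈ B, ∑ R ∈ F b, g R := by
    intro g hg
    rw [← Finset.sum_biUnion hdisj, finsum_eq_sum_of_support_subset]
    intro R hR
    rw [Finset.mem_coe, Finset.mem_biUnion]
    exact ⟨_, hg R hR, (hmF _ _).2 rfl⟩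
  have e1 := hT (fun R => R.ord D) (by
    intro R hR
    rw [hB]
    refine Finset.mem_insert_of_mem (Finset.mem_image_of_mem _ (Finset.mem_union_left _ ?_))
    rw [Set.Finite.mem_toFinset]
    exact hR)
  have e2 := hT (fun R => R.ord (R.dv x)) (by
    intro R hR
    rw [hB]
    refine Finset.mem_insert_of_mem (Finset.mem_image_of_mem _ (Finset.mem_union_right _ ?_))
    rw [Set.Finite.mem_toFinset]
    exact hR)
  rw [finsum_ord] at e1
  rw [finsum_ord_dv hx] at e2
  have e3 : ∑ b ∈ B, n * ((∑ R ∈ F b, R.ord (R.dv x)) + κ b) ≤ 0 := by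
    rw [e1]
    exact Finset.sum_le_sum fun b _ => key b
  rw [← Finset.mul_sum, Finset.sum_add_distrib, ← e2] at e3
  have e4 : ∑ b ∈ B, κ b = 2 * n - 2 * s := by
    rw [Finset.sum_eq_single none, hκ]
    · simp only [if_true]
    · intro b _ hb
      rw [hκ]
      exact if_neg hb
    · intro h
      exact absurd (by rw [hB]; exact Finset.mem_insert_self _ _) h
  rw [e4] at e3
  rw [← hn, ← hs]
  by_contra hcon
  have e5 : 0 < chi C Φ + (2 * n - 2 * s) := by omega
  have e6 := mul_pos hnpos e5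
  omega

private theorem PGN_expand {n : ℕ} (E : IntermediateField C Φ) (h : Φ) (u : Fin n → Φ) (i : Fin n)
    (hh : ∀ j, Algebra.trace E Φ (h * u j) = if j = i then 1 else 0) (b : Fin n → E) :
    Algebra.trace E Φ (h * ∑ j, (b j : Φ) * u j) = b i := by
  classical
  have h1 : h * ∑ j, (b j : Φ) * u j = ∑ j, b j • (h * u j) := by
    rw [Finset.mul_sum]
    refine Finset.sum_congr rfl fun j _ => ?_
    rw [Algebra.smul_def]
    show h * ((b j : Φ) * u j) = (b j : Φ) * (h * u j)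
    ring
  rw [h1, map_sum, Finset.sum_eq_single i]
  · rw [map_smul, hh, if_pos rfl, smul_eq_mul, mul_one]
  · intro j _ hj
    rw [map_smul, hh, if_neg hj, smul_zero]
  · intro h
    exact absurd (Finset.mem_univ i) h

theorem pgn (h : 0 < chi C Φ) : PosGenus C Φ := by
  classical
  obtain ⟨x, hx⟩ := FunField.exists_transcendental (k := C) (L := Φ)
  obtain ⟨u, d, hu, hb, hc, hd, he, i₀, hi0, hi1⟩ := rdb x hx
  have hfd := FunField.finiteDimensional_adjoin hx
  have hx0 : x ≠ 0 := by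
    intro h
    exact hx (by rw [h]; exact isAlgebraic_zero)
  have hchar : CharZero C⟮x⟯ := charZero_of_injective_algebraMap (algebraMap C C⟮x⟯).injective
  have bound := PGN_bound hx u d hu hb hc
  obtain ⟨i, hi⟩ : ∃ i, 2 ≤ d i := by
    by_contra hcon
    push Not at hcon
    have h2 : ∑ j, d j ≤ ∑ j ∈ Finset.univ.erase i₀, 1 := by
      rw [← Finset.add_sum_erase _ _ (Finset.mem_univ i₀), hi0, zero_add]
      exact Finset.sum_le_sum fun j _ => by have := hcon j; omega
    rw [Finset.sum_const, smul_eq_mul, mul_one, Finset.card_erase_of_mem (Finset.mem_univ _), Finset.card_univ,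
      Fintype.card_fin] at h2
    have h3 : 0 < Module.finrank C⟮x⟯ Φ := Module.finrank_pos
    omega
  obtain ⟨g, hg⟩ : ∃ g : Φ, ∀ j, Algebra.trace C⟮x⟯ Φ (g * u j) = if j = i then 1 else 0 := by
    have : Nonempty (Fin (Module.finrank C⟮x⟯ Φ)) := ⟨i⟩
    let b := basisOfLinearIndependentOfCardEqFinrank hu (by rw [Fintype.card_fin])
    refine ⟨(Algebra.traceForm C⟮x⟯ Φ).dualBasis (traceForm_nondegenerate C⟮x⟯ Φ) b i, fun j => ?_⟩
    have h1 := (Algebra.traceForm C⟮x⟯ Φ).apply_dualBasis_left (traceForm_nondegenerate C⟮x⟯ Φ) b i j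
    rw [Algebra.traceForm_apply, coe_basisOfLinearIndependentOfCardEqFinrank] at h1
    exact h1
  have hg0 : g ≠ 0 := by
    rintro rfl
    have h1 := hg i
    rw [zero_mul, map_zero, if_pos rfl] at h1
    exact zero_ne_one h1
  refine ⟨g • KaehlerDifferential.D C Φ x, smul_ne_zero hg0 (D_ne_zero hx), fun R => ?_⟩
  rw [R.ordDiff_smul_D, R.ord_mul _ _ hg0 (R.dv_ne_zero hx)]
  by_cases hR : R.ord x < 0
  · -- at infinity
    have h1 : g * x ^ 2 ∈ R.ge (1 - R.ord x⁻¹) := by
      apply dur C⟮x⟯ x⁻¹ (adjoin_inv x).symm (PGN_tr_inv hx) (g * x ^ 2) _ R (by rw [R.ord_inv]; omega)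
      intro f hf R₀ hR₀
      obtain ⟨b, hb1, hb2⟩ := he f (fun Q hQ => hf Q (by rw [Q.ord_inv]; omega))
      have h2 : ∃ a : Fin (Module.finrank C⟮x⟯ Φ) → C⟮x⟯, ∀ j, (a j : Φ) = x ^ 2 * ((b j : Φ) * x⁻¹ ^ d j) :=
        ⟨fun j => ⟨x ^ 2 * ((b j : Φ) * x⁻¹ ^ d j), mul_mem (pow_mem (mem_adjoin_simple_self C x) _)
          (mul_mem (b j).2 (pow_mem (inv_mem (mem_adjoin_simple_self C x)) _))⟩, fun j => rfl⟩
      obtain ⟨a, ha⟩ := h2
      have h3 : g * x ^ 2 * f = g * ∑ j, (a j : Φ) * u j := by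
        rw [hb2, mul_assoc, Finset.mul_sum]
        congr 1
        refine Finset.sum_congr rfl fun j _ => ?_
        rw [ha]
        ring
      rw [h3, PGN_expand C⟮x⟯ g u i hg a, ha]
      have h4 : R₀.ord x < 0 := by
        rw [R₀.ord_inv] at hR₀
        omega
      have h5 := R₀.mul_mem_ge (R₀.mem_ge_ord (x ^ 2)) (R₀.mul_mem_ge (hb1 i R₀ h4) (R₀.mem_ge_ord (x⁻¹ ^ d i)))
      rw [R₀.ord_pow, R₀.ord_pow, R₀.ord_inv] at h5
      refine R₀.ge_anti ?_ h5
      have h6 : (2 : ℤ) ≤ d i := by exact_mod_cast hi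
      push_cast
      nlinarith
    have h2 := R.le_ord_of_mem h1 (mul_ne_zero hg0 (pow_ne_zero _ hx0))
    rw [R.ord_mul _ _ hg0 (pow_ne_zero _ hx0), R.ord_pow, R.ord_inv] at h2
    rw [(R.ord_dv (y := x) (by omega)).2]
    push_cast at h2
    omega
  · -- at a finite value
    have hxR : x ∈ R.ge 0 := R.mem_ge_of_le (not_lt.1 hR)
    obtain ⟨c, hcc⟩ : ∃ c, c = ev R x := ⟨_, rfl⟩
    have h1 := evl_mem R hxR
    rw [← hcc] at h1
    obtain ⟨h2, h3⟩ := PGN_tr_sub hx c
    have hz0 : x - algebraMap C Φ c ≠ 0 := by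
      intro h
      exact h2 (by rw [h]; exact isAlgebraic_zero)
    have h4 := R.le_ord_of_mem h1 hz0
    have h5 : g ∈ R.ge (1 - R.ord (x - algebraMap C Φ c)) := by
      apply dur C⟮x⟯ (x - algebraMap C Φ c) h3.symm h2 g _ R h4
      intro f hf R₀ hR₀
      obtain ⟨q, hq1, hq2⟩ := PGN_den hz0 f hf
      obtain ⟨p, hp⟩ := hd (aeval (x - algebraMap C Φ c) q * f) (by
        intro Q hQ
        apply hq2 Q
        have h6 := sub_mem (Q.mem_ge_of_le hQ) (Q.algebraMap_mem_ge c)
        exact Q.le_ord_of_mem h6 hz0)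
      have h7 : ∃ a : Fin (Module.finrank C⟮x⟯ Φ) → C⟮x⟯, ∀ j, (a j : Φ) = aeval x (p j) :=
        ⟨fun j => ⟨aeval x (p j), by
          have := aeval_mem_adjoin_singleton C x (p := p j)
          exact algebra_adjoin_le_adjoin C {x} this⟩, fun j => rfl⟩
      obtain ⟨a, ha⟩ := h7
      obtain ⟨e, he'⟩ : ∃ e : C⟮x⟯, (e : Φ) = aeval (x - algebraMap C Φ c) q := by
        refine ⟨⟨aeval (x - algebraMap C Φ c) q, ?_⟩, rfl⟩
        rw [← h3]
        exact algebra_adjoin_le_adjoin C _ (aeval_mem_adjoin_singleton C _)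
      have h8 : e • (g * f) = g * ∑ j, (a j : Φ) * u j := by
        rw [Algebra.smul_def]
        show (e : Φ) * (g * f) = _
        rw [he', Finset.sum_congr rfl fun j _ => by rw [ha j], ← hp]
        ring
      have h9 := PGN_expand C⟮x⟯ g u i hg a
      rw [← h8, map_smul, smul_eq_mul] at h9
      have h10 : (e : Φ) * ((Algebra.trace C⟮x⟯ Φ (g * f) : C⟮x⟯) : Φ) = (a i : Φ) := by
        rw [← h9]
        rfl
      obtain ⟨h11, h12⟩ := PGN_poly R₀ hR₀ q
      have h13 : ev R₀ (aeval (x - algebraMap C Φ c) q) ≠ 0 := by rwa [h12]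
      obtain ⟨h14, _⟩ := evl_inv R₀ h11 h13
      have h15 : (e : Φ) ≠ 0 := by
        rw [he']
        intro h
        apply h13
        rw [h]
        have := evl_const R₀ (0 : C)
        rwa [map_zero] at this
      rw [← he'] at h14
      have h16 : ((Algebra.trace C⟮x⟯ Φ (g * f) : C⟮x⟯) : Φ) = (e : Φ)⁻¹ * (a i : Φ) := by
        rw [← h10, inv_mul_cancel_left₀ h15]
      rw [h16]
      have hx1 : x ∈ R₀.ge 0 := by
        have h17 := add_mem (R₀.ge_anti (by norm_num : (0 : ℤ) ≤ 1) (R₀.mem_ge_of_le hR₀)) (R₀.algebraMap_mem_ge c)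
        rwa [sub_add_cancel] at h17
      have h18 : (a i : Φ) ∈ R₀.ge 0 := by
        rw [ha]
        exact R₀.mem_ge_of_mem_Rx hx1 ⟨_, Polynomial.aeval_mem_adjoin_singleton C x⟩
      have h19 := R₀.mul_mem_ge h14 h18
      rwa [add_zero] at h19
    have h6 := R.le_ord_of_mem h5 hg0
    rw [PGN_w R c (by omega)]
    omega

end Pool.Agent.ESH
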