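import Pool.Agent.ESH.Defs

/-!
# ESH / PWR: a power of every v-unit is close to one

Proof.  Let `𝔭` be the prime ideal of `v`, `Q = card (𝓞 M ⧸ 𝔭^2)ˣ`, `0 < Q ≤ nrm v ^ 2`.  If `v u = 1`, write
`u = a / b` with `a, b ∈ 𝓞 M` both outside `𝔭` (the localization of `𝓞 M` at `𝔭` is the valuation ring of `v`).
Then `a^Q ≡ b^Q ≡ 1 mod 𝔭^2`, so `v (a^Q - b^Q) ≤ (nrm v)^(-2) ≤ 1/4` and `v (u^Q - 1) = v (a^Q - b^Q) ≤ 1/4`.
-/

namespace Pool.Agent.ESH

open NumberField IsDedekindDomain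

private lemma PWR_notMem {M : Type*} [Field M] [NumberField M] (v : FinitePlace M) (a : 𝓞 M) :
    v (algebraMap (𝓞 M) M a) = 1 ↔ a ∉ v.maximalIdeal.asIdeal := by
  rw [← FinitePlace.norm_embedding_eq v, FinitePlace.norm_eq_one_iff_notMem]

/-- elements of the square of the prime ideal are small -/
private lemma PWR_small {M : Type*} [Field M] [NumberField M] (v : FinitePlace M) {a : 𝓞 M}
    (ha : a ∈ v.maximalIdeal.asIdeal ^ 2) : v (algebraMap (𝓞 M) M a) ≤ 1 / 4 := by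
  by_cases h0 : a = 0
  · rw [h0, map_zero, map_zero]
    norm_num
  · have h1 := FinitePlace.apply_mul_absNorm_pow_eq_one v h0
    have hN : 1 < v.maximalIdeal.asIdeal.absNorm := HeightOneSpectrum.one_lt_absNorm v.maximalIdeal
    have hfin : FiniteMultiplicity v.maximalIdeal.asIdeal (Ideal.span {a}) :=
      FiniteMultiplicity.of_prime_left v.maximalIdeal.prime
        (mt Submodule.span_singleton_eq_bot.mp h0)
    have h2 : 2 ≤ multiplicity v.maximalIdeal.asIdeal (Ideal.span {a}) :=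
      hfin.le_multiplicity_of_pow_dvd (Ideal.dvd_span_singleton.2 ha)
    set N : ℝ := (v.maximalIdeal.asIdeal.absNorm : ℝ) with hNdef
    have hN2 : (2 : ℝ) ≤ N := by
      rw [hNdef]
      exact_mod_cast hN
    have h3 : (4 : ℝ) ≤ N ^ multiplicity v.maximalIdeal.asIdeal (Ideal.span {a}) := by
      calc (4 : ℝ) = 2 ^ 2 := by norm_num
        _ ≤ N ^ 2 := pow_le_pow_left₀ (by norm_num) hN2 2
        _ ≤ _ := pow_le_pow_right₀ (by linarith) h2
    have h4 : 0 ≤ v (algebraMap (𝓞 M) M a) := apply_nonneg v _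
    have h5 := mul_le_mul_of_nonneg_left h3 h4
    have h6 : v (algebraMap (𝓞 M) M a) * N ^ multiplicity v.maximalIdeal.asIdeal (Ideal.span {a})
        = 1 := h1
    rw [h6] at h5
    linarith

/-- elements outside the prime ideal are units modulo the square -/
private lemma PWR_unit {M : Type*} [Field M] [NumberField M] (v : FinitePlace M) {a : 𝓞 M}
    (ha : a ∉ v.maximalIdeal.asIdeal) :
    IsUnit (Ideal.Quotient.mk (v.maximalIdeal.asIdeal ^ 2) a) := by
  have hmax : v.maximalIdeal.asIdeal.IsMaximal := v.maximalIdeal.isMaximal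
  obtain ⟨y, i, hi, h1⟩ := hmax.exists_inv ha
  refine IsUnit.of_mul_eq_one (Ideal.Quotient.mk _ (y ^ 2 * a + 2 * y * i)) ?_
  rw [← map_mul, ← map_one (Ideal.Quotient.mk (v.maximalIdeal.asIdeal ^ 2)), Ideal.Quotient.eq]
  have h2 : a * (y ^ 2 * a + 2 * y * i) - 1 = - (i ^ 2) := by
    have h3 : (y * a + i) ^ 2 = 1 := by rw [h1, one_pow]
    linear_combination h3
  rw [h2]
  exact neg_mem (Ideal.pow_mem_pow hi 2)

private lemma PWR_frac {M : Type*} [Field M] [NumberField M] (v : FinitePlace M) {u : M}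
    (hu : v u = 1) : ∃ n d : 𝓞 M, n ∉ v.maximalIdeal.asIdeal ∧ d ∉ v.maximalIdeal.asIdeal ∧
      u * algebraMap (𝓞 M) M d = algebraMap (𝓞 M) M n := by
  have h1 : v.maximalIdeal.valuation M u ≤ 1 := by
    have h2 := FinitePlace.norm_embedding_eq v u
    rw [FinitePlace.norm_embedding', hu] at h2
    have h3 : WithZeroMulInt.toNNReal (HeightOneSpectrum.absNorm_ne_zero v.maximalIdeal)
        (v.maximalIdeal.valuation M u) = 1 := by exact_mod_cast h2
    by_contra hcon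
    rw [not_le] at hcon
    have h4 := WithZeroMulInt.toNNReal_strictMono
      (HeightOneSpectrum.one_lt_absNorm_nnreal v.maximalIdeal) hcon
    rw [map_one, h3] at h4
    exact lt_irrefl _ h4
  obtain ⟨n, ⟨d, hd⟩, hnd⟩ := v.maximalIdeal.exists_primeCompl_mul_eq_of_integer u h1
  have hd' : d ∉ v.maximalIdeal.asIdeal := hd
  refine ⟨n, d, ?_, hd', hnd⟩
  rw [← PWR_notMem, ← hnd, map_mul, hu, one_mul, PWR_notMem]
  exact hd'

theorem pwr (M : Type*) [Field M] [NumberField M] (v : FinitePlace M) :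
    ∃ Q : ℕ, 0 < Q ∧ Q ≤ nrm v ^ 2 ∧ ∀ u : M, v u = 1 → v (u ^ Q - 1) ≤ 1 / 4 := by
  set I : Ideal (𝓞 M) := v.maximalIdeal.asIdeal ^ 2 with hI
  have hIn : Ideal.absNorm I = nrm v ^ 2 := by
    rw [hI, map_pow]
    rfl
  have hN : 1 < v.maximalIdeal.asIdeal.absNorm := HeightOneSpectrum.one_lt_absNorm v.maximalIdeal
  have hI0 : Ideal.absNorm I ≠ 0 := by
    rw [hIn]
    exact pow_ne_zero _ (by
      have : nrm v = v.maximalIdeal.asIdeal.absNorm := rfl
      omega)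
  have hfin : Finite (𝓞 M ⧸ I) := (Ideal.absNorm_ne_zero_iff I).1 hI0
  have hcard : Nat.card (𝓞 M ⧸ I) = nrm v ^ 2 := by
    rw [← hIn, Ideal.absNorm_apply]
    rfl
  refine ⟨Nat.card (𝓞 M ⧸ I)ˣ, Nat.card_pos, ?_, ?_⟩
  · rw [← hcard]
    exact Nat.card_le_card_of_injective (fun x : (𝓞 M ⧸ I)ˣ => (x : 𝓞 M ⧸ I)) Units.val_injective
  · intro u hu
    obtain ⟨n, d, hn, hd, hnd⟩ := PWR_frac v hu
    set Q := Nat.card (𝓞 M ⧸ I)ˣ with hQ
    have hone : ∀ a : 𝓞 M, a ∉ v.maximalIdeal.asIdeal →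
        Ideal.Quotient.mk I (a ^ Q) = 1 := by
      intro a ha
      obtain ⟨x, hx⟩ := PWR_unit v ha
      rw [map_pow, ← hx, ← Units.val_pow_eq_pow_val, hQ, pow_card_eq_one', Units.val_one]
    have hmem : n ^ Q - d ^ Q ∈ I := by
      rw [← Ideal.Quotient.eq, hone n hn, hone d hd]
    have h1 := PWR_small v hmem
    have hvd : v (algebraMap (𝓞 M) M d) = 1 := (PWR_notMem v d).2 hd
    have h2 : (u ^ Q - 1) * (algebraMap (𝓞 M) M d) ^ Q = algebraMap (𝓞 M) M (n ^ Q - d ^ Q) := by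
      rw [map_sub, map_pow, map_pow, ← hnd, mul_pow]
      ring
    have h3 : v (u ^ Q - 1) = v (algebraMap (𝓞 M) M (n ^ Q - d ^ Q)) := by
      rw [← h2, map_mul, map_pow, hvd, one_pow, mul_one]
    rw [h3]
    exact h1

end Pool.Agent.ESH
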