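import Pool.Agent.ESH.WRA
import Pool.Agent.ESH.RRB

/-!
# ESH / WRB: the degree of the canonical divisor is at least -2

`n = [Φ : C(x)]`, `D_m = m (x)_∞` of degree `m n` (`finsum_neg_ord`), `l = dim LL D_m ≥ m n - c` (RRB).  WRA for a basis of `LL D_m` with `e = -D_m R`; sum over all `R`: `∑ R.ord (Wr) = 0`
(`finsum_ord`), `∑ R.ord (R.dv x) = chi` (`finsum_ord_dv`): `0 ≥ - 2 l m n - l (l - 1) chi`, so `(l - 1)(-chi) ≤ 2 m n`.  If `chi ≤ -3`, `3 (m n - c - 1) ≤ 2 m n` for all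
large `m`: contradiction.
-/

namespace Pool.Agent.ESH

open Pool.Agent.Helper11 Polynomial IntermediateField

variable {C Φ : Type*} [Field C] [Field Φ] [Algebra C Φ] [FunField C Φ] [CharZero C] [IsAlgClosed C]


theorem wrb : -2 ≤ chi C Φ := by
  by_contra hcon
  have hchi : chi C Φ ≤ -3 := by omega
  obtain ⟨x, hx⟩ := FunField.exists_transcendental (k := C) (L := Φ)
  obtain ⟨c, hc⟩ := rrb (C := C) x hx
  have hF : Fact (Transcendental C x) := ⟨hx⟩
  have hfd := FunField.finiteDimensional_adjoin hx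
  obtain ⟨N, hN⟩ : ∃ N : ℕ, N = Module.finrank C⟮x⟯ Φ := ⟨_, rfl⟩
  have hN0 : 1 ≤ N := by
    rw [hN]
    exact Module.finrank_pos
  obtain ⟨m, hm⟩ : ∃ m : ℕ, m = 3 * c + 4 := ⟨_, rfl⟩
  have hcm := hc m
  rw [← hN] at hcm
  obtain ⟨D, hD⟩ : ∃ D : Place C Φ → ℤ, D = fun v => (m : ℤ) * max 0 (-v.ord x) := ⟨_, rfl⟩
  rw [← hD] at hcm
  have hsuppM : {v : Place C Φ | max 0 (-v.ord x) ≠ 0}.Finite := by
    apply (finite_ord_ne_zero (k := C) x).subset
    intro v hv h0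
    apply hv
    rw [h0]
    simp
  have hDf : {v : Place C Φ | D v ≠ 0}.Finite := by
    rw [hD]
    exact supp_const_mul _ hsuppM
  have hfin : FiniteDimensional C (LL D) := rra_fin D hDf
  obtain ⟨l, hl⟩ : ∃ l : ℕ, l = Module.finrank C (LL D) := ⟨_, rfl⟩
  rw [← hl] at hcm
  let b := Module.finBasisOfFinrankEq C (LL D) hl.symm
  let f : Fin l → Φ := fun j => (b j : Φ)
  have hf : LinearIndependent C f :=
    b.linearIndependent.map' (LL D).subtype (Submodule.ker_subtype _)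
  obtain ⟨W, hW⟩ : ∃ W : Φ, W = (Matrix.of fun i j : Fin l => (⇑(der hx))^[(i : ℕ)] (f j)).det :=
    ⟨_, rfl⟩
  have hR : ∀ R : Place C Φ, 2 * (l : ℤ) * (-D R) - (l : ℤ) * ((l : ℤ) - 1) * R.ord (R.dv x) ≤
      2 * R.ord W := by
    intro R
    rw [hW]
    exact wra hx f hf R (-D R) (fun j => (b j).2 R)
  have hs1 : {v : Place C Φ | 2 * (l : ℤ) * (-D v) ≠ 0}.Finite := by
    refine supp_const_mul _ ?_
    apply hDf.subset
    intro v hv h0
    apply hv
    rw [h0, neg_zero]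
  have hs2 : {v : Place C Φ | (l : ℤ) * ((l : ℤ) - 1) * v.ord (v.dv x) ≠ 0}.Finite :=
    supp_const_mul _ (finite_ord_dv_ne_zero hx)
  have hs3 : {v : Place C Φ | 2 * v.ord W ≠ 0}.Finite :=
    supp_const_mul _ (finite_ord_ne_zero (k := C) W)
  have hsum := fs_mono (supp_sub hs1 hs2) hs3 hR
  rw [fs_sub hs1 hs2, fs_const_mul, fs_const_mul, fs_const_mul, fs_neg, finsum_ord,
    finsum_ord_dv hx, hD, fs_const_mul, finsum_neg_ord hx, ← hN] at hsum
  have hm' : (m : ℤ) = 3 * c + 4 := by exact_mod_cast hm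
  have hN' : (1 : ℤ) ≤ N := by exact_mod_cast hN0
  have hmN : (m : ℤ) ≤ m * N := by nlinarith
  have hl1 : (1 : ℤ) ≤ l := by
    have : (0 : ℤ) ≤ c := Nat.cast_nonneg _
    linarith
  have h1 : ((l : ℤ) - 1) * (-(chi C Φ)) ≤ 2 * (m * N) := by
    have h2 : (l : ℤ) * (((l : ℤ) - 1) * (-(chi C Φ))) ≤ (l : ℤ) * (2 * (m * N)) := by
      linarith
    exact le_of_mul_le_mul_left h2 (by linarith)
  have h3 : 3 * ((l : ℤ) - 1) ≤ ((l : ℤ) - 1) * (-(chi C Φ)) := by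
    have : 0 ≤ (l : ℤ) - 1 := by linarith
    nlinarith
  linarith

end Pool.Agent.ESH
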