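import Pool.Agent.ESH.RST
import Pool.Agent.ESH.WRB
import Pool.Agent.Helper11.Ext
import Pool.Agent.Helper11.ExtChi
import Pool.Agent.Helper11.Chi

/-!
# ESH / RHG: Riemann-Hurwitz for a finite group of automorphisms

`F = fixedField Γ` (a function field: `[Φ : F] = card Γ`), `χ = chi C F ≥ -2` (WRB).  For a place `R` of `Φ` with restriction `v = R.res F`: `e_R = R.ram F = sO Γ R` (RST).  Let `x ∈ F` be transcendental.
`R.ord (R.dv x) = e_R * v.ord (v.dv x) + e_R - 1` (Helper11 `ord_dv_algebraMap`).  `∑_R R.ord (R.dv x) = chi C Φ` (`finsum_ord_dv`).  For every `v` the places above `v` are the conjugates of one of them (GTB),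
`card Γ / e_v` of them, all with the same index `e_v`; so `∑_{R | v} e_R = card Γ`.  So `chi C Φ = card Γ * chi C F + ∑_v (card Γ / e_v)(e_v - 1)`.  `s` = set of representatives of the places `v` with `e_v ≥ 2`
(finitely many: `R.ord (R.dv x) ≠ 0` or ... ).
-/

namespace Pool.Agent.ESH

open Pool.Agent.Helper11 Polynomial IntermediateField

variable {C Φ : Type*} [Field C] [Field Φ] [Algebra C Φ] [FunField C Φ] [CharZero C] [IsAlgClosed C]


private theorem rhg_fd (Γ : Subgroup (Φ ≃ₐ[C] Φ)) [Finite Γ] :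
    Module.finrank (fixedField Γ) Φ = Nat.card Γ ∧ FiniteDimensional (fixedField Γ) Φ := by
  have hfr : Module.finrank (IntermediateField.fixedField Γ) Φ = Nat.card Γ := by
    have := Fintype.ofFinite Γ
    rw [Nat.card_eq_fintype_card]
    exact FixedPoints.finrank_eq_card Γ Φ
  refine ⟨hfr, ?_⟩
  apply FiniteDimensional.of_finrank_pos
  rw [hfr]
  exact Nat.card_pos

/-- a field over which a function field is finite is a function field -/
private theorem rhg_ff (F : IntermediateField C Φ) [FiniteDimensional F Φ] : FunField C F := by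
  have halg : Algebra.IsAlgebraic F Φ := inferInstance
  have hex : ∃ x : F, Transcendental C x := by
    by_contra hcon
    push Not at hcon
    have h1 : Algebra.IsAlgebraic C F := ⟨fun x => by
      have := hcon x
      rwa [Transcendental, not_not] at this⟩
    have h2 : Algebra.IsAlgebraic C Φ := Algebra.IsAlgebraic.trans C F Φ
    obtain ⟨y, hy⟩ := FunField.exists_transcendental (k := C) (L := Φ)
    exact hy (h2.isAlgebraic y)
  obtain ⟨x, hx⟩ := hex
  have hx' : Transcendental C (x : Φ) := by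
    intro h
    exact hx ((isAlgebraic_algHom_iff F.val F.val.injective).1 h)
  have hfd := FunField.finiteDimensional_adjoin hx'
  have h1 : (C⟮x⟯).map F.val = C⟮(x : Φ)⟯ := by
    rw [IntermediateField.adjoin_map]
    simp
  have hfd2 : FiniteDimensional ((C⟮x⟯).map F.val) Φ := by rw [h1]; exact hfd
  have hfd3 : Module.Finite C⟮x⟯ Φ := by
    refine Module.Finite.of_equiv_equiv (A₁ := (C⟮x⟯).map F.val) (B₁ := Φ) (A₂ := C⟮x⟯) (B₂ := Φ)
      (equivMap C⟮x⟯ F.val).symm.toRingEquiv (RingEquiv.refl Φ) ?_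
    ext a
    obtain ⟨b, rfl⟩ := (equivMap C⟮x⟯ F.val).surjective a
    simp
    rfl
  have hfd4 : FiniteDimensional C⟮x⟯ F := FiniteDimensional.left C⟮x⟯ F Φ
  refine ⟨?_, ?_⟩
  · have h2 : Algebra.EssFiniteType C C⟮x⟯ := by
      rw [IntermediateField.essFiniteType_iff]
      exact ⟨{x}, by simp⟩
    exact Algebra.EssFiniteType.comp C C⟮x⟯ F
  · have h3 := lift_trdeg_add_eq C F Φ
    rw [trdeg_eq_zero (R := F) (A := Φ), FunField.trdeg (k := C) (L := Φ)] at h3
    simpa using h3

private theorem rhg_mem (Γ : Subgroup (Φ ≃ₐ[C] Φ)) (f : fixedField Γ) (g : Φ ≃ₐ[C] Φ) (hg : g ∈ Γ) :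
    g (algebraMap (fixedField Γ) Φ f) = algebraMap (fixedField Γ) Φ f := by
  have := f.2
  rw [IntermediateField.mem_fixedField_iff] at this
  exact this g hg

private theorem rhg_sO_pos (Γ : Subgroup (Φ ≃ₐ[C] Φ)) [Finite Γ] (R : Place C Φ) : 0 < sO Γ R := by
  unfold sO
  have h1 : Finite {g : Φ ≃ₐ[C] Φ // g ∈ Γ ∧ Fixes g R} := by
    refine Finite.of_injective (β := Γ) (fun g => ⟨g.1, g.2.1⟩) ?_
    intro a b hab
    have h := congrArg Subtype.val hab
    exact Subtype.ext h
  have h2 : Nonempty {g : Φ ≃ₐ[C] Φ // g ∈ Γ ∧ Fixes g R} := ⟨⟨1, Γ.one_mem, fun f => rfl⟩⟩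
  exact Nat.card_pos

private theorem rhg_ram (Γ : Subgroup (Φ ≃ₐ[C] Φ)) [Finite Γ] [FunField C (fixedField Γ)]
    [FiniteDimensional (fixedField Γ) Φ]
    (R : Place C Φ) : R.ram (fixedField Γ) = sO Γ R := by
  apply Nat.dvd_antisymm
  · obtain ⟨f, hf, hfo⟩ := rst_ex Γ R
    have h1 := R.ord_restrict (F := fixedField Γ) ⟨f, by
      rw [IntermediateField.mem_fixedField_iff]; exact hf⟩
    have h2 : R.ord (algebraMap (fixedField Γ) Φ ⟨f, by
      rw [IntermediateField.mem_fixedField_iff]; exact hf⟩) = sO Γ R := hfo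
    rw [h2] at h1
    exact Int.natCast_dvd_natCast.1 ⟨_, h1⟩
  · have h1 := rst_dvd Γ R (algebraMap (fixedField Γ) Φ (R.res (fixedField Γ)).unif) (by
      rw [Ne, map_eq_zero]
      exact (R.res (fixedField Γ)).unif_ne_zero) (fun g hg => rhg_mem Γ _ g hg)
    rw [R.ord_unif_res] at h1
    exact Int.natCast_dvd_natCast.1 h1

/-- the translate of a place -/
private noncomputable def rhg_pl (g : Φ ≃ₐ[C] Φ) (Q : Place C Φ) : Place C Φ :=
  plMap (g : Φ ≃+* Φ) (RingEquiv.refl C) (fun c => g.commutes c) Q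

private theorem rhg_pl_ord (g : Φ ≃ₐ[C] Φ) (Q : Place C Φ) (f : Φ) :
    (rhg_pl g Q).ord f = Q.ord (g⁻¹ f) := rfl

private theorem rhg_ext {R Q : Place C Φ} (h : ∀ f : Φ, R.ord f = Q.ord f) : R = Q :=
  Place.ext (funext h)

private theorem rhg_res_pl (Γ : Subgroup (Φ ≃ₐ[C] Φ)) [Finite Γ] [FunField C (fixedField Γ)]
    [FiniteDimensional (fixedField Γ) Φ]
    (R : Place C Φ) (g : Φ ≃ₐ[C] Φ) (hg : g ∈ Γ) :
    (rhg_pl g R).res (fixedField Γ) = R.res (fixedField Γ) := by
  let F := fixedField Γ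
  have h0 : ∀ f : F, (rhg_pl g R).ord (algebraMap F Φ f) = R.ord (algebraMap F Φ f) := by
    intro f
    rw [rhg_pl_ord, rhg_mem Γ f g⁻¹ (Γ.inv_mem hg)]
  have h1 := (rhg_pl g R).ord_restrict (F := F)
  have h2 := R.ord_restrict (F := F)
  have h3 : (rhg_pl g R).ram F = R.ram F := by
    apply Nat.dvd_antisymm
    · have h4 := R.ord_unif_res (F := F)
      rw [← h0, h1] at h4
      exact Int.natCast_dvd_natCast.1 ⟨_, h4.symm⟩
    · have h4 := (rhg_pl g R).ord_unif_res (F := F)
      rw [h0, h2] at h4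
      exact Int.natCast_dvd_natCast.1 ⟨_, h4.symm⟩
  refine Place.ext (funext fun f => ?_)
  have h5 := h0 f
  rw [h1, h2, h3] at h5
  have h6 : (R.ram F : ℤ) ≠ 0 := by
    have := R.ram_pos F
    omega
  exact mul_left_cancel₀ h6 h5

private theorem rhg_conj (Γ : Subgroup (Φ ≃ₐ[C] Φ)) [Finite Γ] [FunField C (fixedField Γ)]
    [FiniteDimensional (fixedField Γ) Φ]
    (P R : Place C Φ) (h : P.res (fixedField Γ) = R.res (fixedField Γ)) :
    ∃ g ∈ Γ, rhg_pl g P = R := by
  obtain ⟨g, hg, hgR⟩ := gtb_conj Γ P R (by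
    intro f hf hfP
    rcases hfP with h0 | h1
    · exact Or.inl h0
    · right
      have hfF : f ∈ fixedField Γ := by
        rw [IntermediateField.mem_fixedField_iff]; exact hf
      have h2 : P.ord f = P.ram (fixedField Γ) * (P.res (fixedField Γ)).ord ⟨f, hfF⟩ :=
        P.ord_restrict (F := fixedField Γ) ⟨f, hfF⟩
      have h3 : R.ord f = R.ram (fixedField Γ) * (R.res (fixedField Γ)).ord ⟨f, hfF⟩ :=
        R.ord_restrict (F := fixedField Γ) ⟨f, hfF⟩
      rw [h2, h] at h1
      have h4 := P.ram_pos (fixedField Γ)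
      have h5 := R.ram_pos (fixedField Γ)
      have h6 : 0 < (R.res (fixedField Γ)).ord ⟨f, hfF⟩ := by
        by_contra hcon
        push Not at hcon
        have : (P.ram (fixedField Γ) : ℤ) * (R.res (fixedField Γ)).ord ⟨f, hfF⟩ ≤ 0 :=
          mul_nonpos_of_nonneg_of_nonpos (by omega) hcon
        omega
      rw [h3]
      have h7 : (0 : ℤ) < R.ram (fixedField Γ) := by omega
      have := mul_pos h7 h6
      omega)
  refine ⟨g, hg, ?_⟩
  apply rhg_ext
  intro f
  rw [rhg_pl_ord, ← hgR]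
  congr 1
  rw [← AlgEquiv.mul_apply, mul_inv_cancel, AlgEquiv.one_apply]

/-- the sum of the ramification indices over a place of the fixed field -/
private theorem rhg_count (Γ : Subgroup (Φ ≃ₐ[C] Φ)) [Finite Γ] [FunField C (fixedField Γ)]
    [FiniteDimensional (fixedField Γ) Φ] (R : Place C Φ) :
    ∑ Q ∈ (finite_res_fiber (k := C) (L := Φ) (R.res (fixedField Γ))).toFinset, sO Γ Q
      = Nat.card Γ := by
  classical
  have := Fintype.ofFinite Γ
  set S := (finite_res_fiber (k := C) (L := Φ) (R.res (fixedField Γ))).toFinset with hS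
  have hmaps : ∀ g ∈ (Finset.univ : Finset Γ), rhg_pl (g : Φ ≃ₐ[C] Φ) R ∈ S := by
    intro g _
    rw [hS, Set.Finite.mem_toFinset]
    exact rhg_res_pl Γ R g g.2
  rw [Nat.card_eq_fintype_card, ← Finset.card_univ,
    Finset.card_eq_sum_card_fiberwise hmaps]
  refine Finset.sum_congr rfl fun Q hQ => ?_
  rw [hS, Set.Finite.mem_toFinset] at hQ
  have hQ' : Q.res (fixedField Γ) = R.res (fixedField Γ) := hQ
  obtain ⟨g₀, hg₀, hg₀Q⟩ := rhg_conj Γ R Q hQ'.symm
  have hfix : ∀ h : Φ ≃ₐ[C] Φ, Fixes h Q ↔ rhg_pl h Q = Q := by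
    intro h
    constructor
    · intro hh
      apply rhg_ext
      intro f
      rw [rhg_pl_ord, ← hh (h⁻¹ f)]
      congr 1
      rw [← AlgEquiv.mul_apply, mul_inv_cancel, AlgEquiv.one_apply]
    · intro hh f
      have h1 : (rhg_pl h Q).ord (h f) = Q.ord f := by
        rw [rhg_pl_ord]
        congr 1
        rw [← AlgEquiv.mul_apply, inv_mul_cancel, AlgEquiv.one_apply]
      rw [hh] at h1
      exact h1
  have hmul : ∀ g h : Φ ≃ₐ[C] Φ, rhg_pl (g * h) R = rhg_pl g (rhg_pl h R) := by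
    intro g h
    apply rhg_ext
    intro f
    rw [rhg_pl_ord, rhg_pl_ord, rhg_pl_ord, mul_inv_rev, AlgEquiv.mul_apply]
  rw [← Fintype.card_subtype, ← Nat.card_eq_fintype_card]
  unfold sO
  refine Nat.card_congr
    { toFun := fun h => ⟨⟨h.1 * g₀, Γ.mul_mem h.2.1 hg₀⟩, ?_⟩
      invFun := fun a => ⟨a.1.1 * g₀⁻¹, Γ.mul_mem a.1.2 (Γ.inv_mem hg₀), ?_⟩
      left_inv := ?_
      right_inv := ?_ }
  · change rhg_pl (h.1 * g₀) R = Q
    rw [hmul, hg₀Q]
    exact (hfix h.1).1 h.2.2
  · rw [hfix]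
    have h1 : rhg_pl (a.1.1 * g₀⁻¹ * g₀) R = Q := by
      rw [inv_mul_cancel_right]
      exact a.2
    rw [hmul, hg₀Q] at h1
    exact h1
  · intro h
    apply Subtype.ext
    change h.1 * g₀ * g₀⁻¹ = h.1
    rw [mul_inv_cancel_right]
  · intro a
    apply Subtype.ext
    apply Subtype.ext
    change a.1.1 * g₀⁻¹ * g₀ = a.1.1
    rw [inv_mul_cancel_right]

/-- summation over the fibres of the restriction map -/
private theorem rhg_fib (Γ : Subgroup (Φ ≃ₐ[C] Φ)) [Finite Γ] [FunField C (fixedField Γ)]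
    [FiniteDimensional (fixedField Γ) Φ] (u : Place C Φ → ℤ) (h : Place C (fixedField Γ) → ℚ)
    (hu : ∀ R : Place C Φ, (u R : ℚ) = sO Γ R * h (R.res (fixedField Γ)))
    (T : Finset (Place C (fixedField Γ))) (hT : ∀ v ∉ T, h v = 0) :
    ((∑ᶠ R : Place C Φ, u R : ℤ) : ℚ) = ∑ v ∈ T, h v *
      ((∑ Q ∈ (finite_res_fiber (k := C) (L := Φ) v).toFinset, sO Γ Q : ℕ) : ℚ) := by
  classical
  have hsub : Function.support u ⊆ ((T.biUnion fun v =>
      (finite_res_fiber (k := C) (L := Φ) v).toFinset : Finset (Place C Φ)) : Set (Place C Φ)) := by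
    intro R hR
    rw [Finset.mem_coe, Finset.mem_biUnion]
    refine ⟨R.res (fixedField Γ), ?_, ?_⟩
    · by_contra hcon
      apply hR
      have h1 := hu R
      rw [hT _ hcon, mul_zero] at h1
      exact_mod_cast h1
    · rw [Set.Finite.mem_toFinset]
      rfl
  rw [finsum_eq_sum_of_support_subset u hsub, Finset.sum_biUnion]
  · push_cast
    refine Finset.sum_congr rfl fun v _ => ?_
    rw [Finset.mul_sum]
    refine Finset.sum_congr rfl fun R hR => ?_
    rw [Set.Finite.mem_toFinset] at hR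
    have hR' : R.res (fixedField Γ) = v := hR
    rw [hu R, hR', mul_comm]
  · intro v _ w _ hvw
    rw [Function.onFun, Finset.disjoint_left]
    intro R h1 h2
    rw [Set.Finite.mem_toFinset] at h1 h2
    have h1' : R.res (fixedField Γ) = v := h1
    have h2' : R.res (fixedField Γ) = w := h2
    exact hvw (h1'.symm.trans h2')

/-- the restriction of places to the fixed field is surjective -/
private theorem rhg_surj (Γ : Subgroup (Φ ≃ₐ[C] Φ)) [Finite Γ] [FunField C (fixedField Γ)]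
    [FiniteDimensional (fixedField Γ) Φ] (v : Place C (fixedField Γ)) :
    ∃ R : Place C Φ, R.res (fixedField Γ) = v := by
  classical
  by_contra hcon
  push Not at hcon
  have hcount : ∀ w : Place C (fixedField Γ),
      (∑ Q ∈ (finite_res_fiber (k := C) (L := Φ) w).toFinset, sO Γ Q) ≤ Nat.card Γ := by
    intro w
    by_cases hw : ∃ R : Place C Φ, R.res (fixedField Γ) = w
    · obtain ⟨R, rfl⟩ := hw
      exact (rhg_count Γ R).le
    · rw [Finset.sum_eq_zero]
      · exact Nat.zero_le _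
      · intro Q hQ
        rw [Set.Finite.mem_toFinset] at hQ
        exact absurd ⟨Q, hQ⟩ hw
  have hfin := supp_pospart (k := C) v.unif
  set T := hfin.toFinset with hT
  have hmain := rhg_fib Γ (fun R => max 0 (R.ord (algebraMap (fixedField Γ) Φ v.unif)))
    (fun w => ((max 0 (w.ord v.unif) : ℤ) : ℚ)) (by
      intro R
      rw [R.ord_restrict, rhg_ram]
      have h1 : (0 : ℤ) ≤ (sO Γ R : ℤ) := by positivity
      have h2 : max 0 ((sO Γ R : ℤ) * (R.res (fixedField Γ)).ord v.unif) =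
          (sO Γ R : ℤ) * max 0 ((R.res (fixedField Γ)).ord v.unif) := by
        rw [mul_max_of_nonneg _ _ h1, mul_zero]
      rw [h2]
      push_cast
      rfl) T (by
      intro w hw
      rw [hT, Set.Finite.mem_toFinset, Set.mem_ofPred_eq, not_not] at hw
      rw [hw, Int.cast_zero])
  have hht := ht_ext (k := C) (L := Φ) v.unif
  rw [ht_eq_pos, ht_eq_pos, (rhg_fd Γ).1] at hht
  have hR : ∑ᶠ w : Place C (fixedField Γ), max 0 (w.ord v.unif) = ∑ w ∈ T, max 0 (w.ord v.unif) := by
    apply finsum_eq_sum_of_support_subset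
    intro w hw
    rw [hT, Set.Finite.coe_toFinset]
    exact hw
  rw [hR] at hht
  rw [hht] at hmain
  push_cast at hmain
  rw [Finset.mul_sum] at hmain
  have hvT : v ∈ T := by
    rw [hT, Set.Finite.mem_toFinset, Set.mem_ofPred_eq, v.ord_unif]
    norm_num
  have hpos : (0 : ℚ) < Nat.card Γ := by exact_mod_cast (Nat.card_pos : 0 < Nat.card Γ)
  have hlt : ∑ w ∈ T, max (0 : ℚ) (w.ord v.unif) *
      (∑ Q ∈ (finite_res_fiber (k := C) (L := Φ) w).toFinset, (sO Γ Q : ℚ)) <
      ∑ w ∈ T, (Nat.card Γ : ℚ) * max (0 : ℚ) (w.ord v.unif) := by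
    refine Finset.sum_lt_sum ?_ ⟨v, hvT, ?_⟩
    · intro w _
      have h1 := hcount w
      have h2 : (∑ Q ∈ (finite_res_fiber (k := C) (L := Φ) w).toFinset, (sO Γ Q : ℚ)) ≤
          (Nat.card Γ : ℚ) := by exact_mod_cast h1
      have h3 : (0 : ℚ) ≤ max (0 : ℚ) (w.ord v.unif) := le_max_left _ _
      rw [mul_comm]
      exact mul_le_mul_of_nonneg_right h2 h3
    · have h1 : (∑ Q ∈ (finite_res_fiber (k := C) (L := Φ) v).toFinset, (sO Γ Q : ℚ)) = 0 := by
        refine Finset.sum_eq_zero fun Q hQ => ?_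
        rw [Set.Finite.mem_toFinset] at hQ
        exact absurd hQ (hcon Q)
      rw [h1, mul_zero, v.ord_unif]
      push_cast
      have : (0 : ℚ) < max 0 1 := by norm_num
      exact mul_pos hpos this
  exact absurd hmain hlt.ne'

theorem rhg (Γ : Subgroup (Φ ≃ₐ[C] Φ)) [Finite Γ] :
    ∃ (χ : ℤ) (s : Finset (Place C Φ)), -2 ≤ χ ∧ (∀ R ∈ s, 2 ≤ sO Γ R) ∧
      (chi C Φ : ℚ) = Nat.card Γ * (χ + ∑ R ∈ s, (1 - 1 / (sO Γ R : ℚ))) := by
  classical
  obtain ⟨hfr, hfd⟩ := rhg_fd Γ
  have hff : FunField C (fixedField Γ) := rhg_ff (fixedField Γ)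
  obtain ⟨x, hx⟩ := FunField.exists_transcendental (k := C) (L := (fixedField Γ))
  have hxΦ : Transcendental C (algebraMap (fixedField Γ) Φ x) := transcendental_algebraMap (L := Φ) hx
  choose ρ hρ using rhg_surj Γ
  -- the ramification index only depends on the restriction
  have hdep : ∀ R : Place C Φ, sO Γ (ρ (R.res (fixedField Γ))) = sO Γ R := by
    intro R
    have h1 := hρ (R.res (fixedField Γ))
    obtain ⟨g, hg, hgR⟩ := rhg_conj Γ (ρ (R.res (fixedField Γ))) R h1
    have h2 : ∀ f : (fixedField Γ), R.ord (algebraMap (fixedField Γ) Φ f) = (ρ (R.res (fixedField Γ))).ord (algebraMap (fixedField Γ) Φ f) := by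
      intro f
      have h := congrArg (fun Q : Place C Φ => Q.ord (algebraMap (fixedField Γ) Φ f)) hgR
      beta_reduce at h
      rw [rhg_pl_ord, rhg_mem Γ f g⁻¹ (Γ.inv_mem hg)] at h
      exact h.symm
    have h3 := h2 (R.res (fixedField Γ)).unif
    rw [R.ord_unif_res, (ρ (R.res (fixedField Γ))).ord_restrict, h1, (R.res (fixedField Γ)).ord_unif, mul_one,
      rhg_ram, rhg_ram] at h3
    exact_mod_cast h3.symm
  have hsup1 := finite_ord_dv_ne_zero (k := C) hx
  have hsup2 := finite_ord_dv_ne_zero (k := C) hxΦ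
  have hord : ∀ R : Place C Φ, R.ord (R.dv (algebraMap (fixedField Γ) Φ x)) =
      (sO Γ R : ℤ) - 1 + sO Γ R * (R.res (fixedField Γ)).ord ((R.res (fixedField Γ)).dv x) := by
    intro R
    rw [R.ord_dv_algebraMap hx, rhg_ram]
  have hsup3 : {w : Place C (fixedField Γ) | sO Γ (ρ w) ≠ 1}.Finite := by
    have hsub : {w : Place C (fixedField Γ) | sO Γ (ρ w) ≠ 1} ⊆
        {w : Place C (fixedField Γ) | w.ord (w.dv x) ≠ 0} ∪
        (fun R : Place C Φ => R.res (fixedField Γ)) '' {R : Place C Φ | R.ord (R.dv (algebraMap (fixedField Γ) Φ x)) ≠ 0} := by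
      intro w hw
      by_cases h0 : w.ord (w.dv x) = 0
      · right
        refine ⟨ρ w, ?_, hρ w⟩
        rw [Set.mem_ofPred_eq, hord, hρ w, h0, mul_zero, add_zero]
        intro h1
        apply hw
        omega
      · left
        exact h0
    exact (hsup1.union (hsup2.image _)).subset hsub
  set T := (hsup1.union hsup3).toFinset with hT
  have hmain := rhg_fib Γ (fun R => R.ord (R.dv (algebraMap (fixedField Γ) Φ x)))
    (fun w => (1 - 1 / (sO Γ (ρ w) : ℚ)) + (w.ord (w.dv x) : ℚ)) (by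
      intro R
      rw [hord, hdep]
      have h1 : (sO Γ R : ℚ) ≠ 0 := by
        have := rhg_sO_pos Γ R
        exact_mod_cast this.ne'
      push_cast
      field_simp) T (by
      intro w hw
      rw [hT, Set.Finite.mem_toFinset, Set.mem_union, not_or] at hw
      obtain ⟨h1, h2⟩ := hw
      simp only [Set.mem_ofPred_eq, not_not] at h1 h2
      rw [h1, h2]
      norm_num)
  rw [finsum_ord_dv hxΦ] at hmain
  have hchiF : chi C (fixedField Γ) = ∑ w ∈ T, w.ord (w.dv x) := by
    rw [← finsum_ord_dv hx]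
    apply finsum_eq_sum_of_support_subset
    intro w hw
    rw [hT, Set.Finite.coe_toFinset]
    exact Or.inl hw
  refine ⟨chi C (fixedField Γ), (T.filter fun w => 2 ≤ sO Γ (ρ w)).image ρ, wrb, ?_, ?_⟩
  · intro R hR
    rw [Finset.mem_image] at hR
    obtain ⟨w, hw, rfl⟩ := hR
    exact (Finset.mem_filter.1 hw).2
  · rw [hmain]
    have hinj : Set.InjOn ρ ((T.filter fun w => 2 ≤ sO Γ (ρ w) : Finset (Place C (fixedField Γ))) : Set (Place C (fixedField Γ))) := by
      intro a _ b _ hab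
      rw [← hρ a, ← hρ b, hab]
    rw [Finset.sum_image hinj, Finset.sum_filter]
    have h1 : ∑ w ∈ T, (if 2 ≤ sO Γ (ρ w) then (1 - 1 / (sO Γ (ρ w) : ℚ)) else 0) =
        ∑ w ∈ T, (1 - 1 / (sO Γ (ρ w) : ℚ)) := by
      refine Finset.sum_congr rfl fun w _ => ?_
      split_ifs with h2
      · rfl
      · have h3 := rhg_sO_pos Γ (ρ w)
        have h4 : sO Γ (ρ w) = 1 := by omega
        rw [h4]
        norm_num
    rw [h1, hchiF]
    push_cast
    rw [← Finset.sum_add_distrib, Finset.mul_sum]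
    refine Finset.sum_congr rfl fun w _ => ?_
    have h5 := rhg_count Γ (ρ w)
    rw [hρ w] at h5
    have h6 : (∑ Q ∈ (finite_res_fiber (k := C) (L := Φ) w).toFinset, (sO Γ Q : ℚ)) =
        (Nat.card Γ : ℚ) := by exact_mod_cast h5
    rw [h6]
    ring

end Pool.Agent.ESH
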