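import Pool.Agent.ESH.DEC
import Pool.Agent.ESH.PWR
import Pool.Agent.ESH.DIR
import Pool.Agent.ESH.CORN
import Pool.Agent.ESH.TWA

/-!
# ESH / RNA: S-units close to one at a finite place have bounded height

Proof.  `A = siz M S + k₁ ≥ 16`, `D = [M:ℚ]`, `h = logHeight₁ ξ`; we may assume `h > 2 k₁`, so `v (ξ - 1) < 1`,
`v ξ = 1`, and `ξ` is an `S'`-unit with `S' = S.erase v` (`siz M S' ≤ siz M S`).  DEC for `S'`: `n ≤ A`, `γ_i`
(all `v γ_i = 1`), `b`, `x₀ = ξ ∏ γ_i^(-b_i)` (`v x₀ = 1`), heights `≤ C₁ := tw 10 A`.  PWR: `Q ≤ nrm v^2 ≤ A^2`.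
Put `γ'_i = γ_i^Q`, `x₀' = x₀^Q`, heights `≤ C₂ := A^2 C₁`, `v (γ'_i - 1) ≤ 1/4`.  Natural numbers:
`k₀ = 8 n C₂ k₁`, `L = 2^20 D^2 k₀`, `m = 3 n C₂ 2^16 L^2 k₀ + 2`, `Hmax = 2 n m^n C₂`,
`B* = 2 m^n (m (m^n+2)) + 2 m^n ((2^20 L Hmax D k₀)^3 + 2^16 L^2 k₀ C₂) + 8`.  Let `B = max |b_i|`
(if `n = 0`, then `h ≤ C₁`).
If `B < B*` then `h ≤ h(x₀) + ∑ |b_i| h(γ_i) ≤ C₁ + n B* C₁ ≤ tw 50 A`.
Suppose `B ≥ B*`.  `dir_int`: `J ≤ m^n`, `r`, `q`, `ρ`; `r ≥ B/(2J) ≥ B/(2 m^n)`.  Put `α = ∏ γ'_i^(q_i)`,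
`β = x₀' ∏ γ'_i^(ρ_i)`; `α^r β = ξ^Q`.  `h(α) ≤ n (J+1) C₂ ≤ H := 2 n J C₂ ≤ Hmax`;
`h(β) ≤ C₂ + n (3r/m) C₂ ≤ r/(2^15 L^2 k₀)`; `v (α - 1) ≤ 1/4` (products, powers and inverses of elements `u`
with `v (u-1) ≤ 1/4` have the same property); some `q_i ≠ 0` (last clause of `dir_int` at the index with
`|b_i| = B > 0`: otherwise `m J B ≤ B`), so `α` is not a root of unity (DEC).  CORN gives
`exp(-(r H/k₀)) < v (ξ^Q - 1) ≤ v (ξ - 1) ≤ exp(-h/k₁)` (`ξ^Q - 1 = (ξ-1) ∑ ξ^i`).  But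
`r H/k₀ = 2 n C₂ r J/(8 n C₂ k₁) ≤ B/(4 k₁)` and `h ≥ (B - 1)/2 ≥ B/4` (last clause of DEC): contradiction.
-/

namespace Pool.Agent.ESH

open NumberField Height

private theorem one_le_nrm {M : Type*} [Field M] [NumberField M] (v : FinitePlace M) : 1 ≤ nrm v :=
  (HeightOneSpectrum.one_lt_absNorm v.maximalIdeal).le

private theorem nrm_mul_erase {M : Type*} [Field M] [NumberField M] (S : Finset (FinitePlace M))
    [DecidableEq (FinitePlace M)] {v : FinitePlace M} (hv : v ∈ S) :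
    nrm v * nrmS (S.erase v) = nrmS S := by
  rw [nrmS, nrmS]
  exact Finset.mul_prod_erase S _ hv

private theorem one_le_nrmS {M : Type*} [Field M] [NumberField M] (S : Finset (FinitePlace M)) :
    1 ≤ nrmS S := by
  rw [nrmS]
  exact Finset.one_le_prod' (fun v _ => one_le_nrm v)

/-- all the tower estimates of RNA -/
private theorem rna_tower (A n D k₁ : ℕ) (hA : 16 ≤ A) (hn : n ≤ A) (hD : D ≤ A) (hk₁ : k₁ ≤ A) :
    let C₁ := tw 10 A
    let C₂ := A ^ 2 * C₁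
    let k₀ := 8 * n * C₂ * k₁
    let L := 2 ^ 20 * D ^ 2 * k₀
    let m := 3 * n * C₂ * 2 ^ 16 * L ^ 2 * k₀ + 2
    let Hmax := 2 * n * m ^ n * C₂
    let Bs := 2 * m ^ n * (m * (m ^ n + 2)) +
      2 * m ^ n * ((2 ^ 20 * L * Hmax * D * k₀) ^ 3 + 2 ^ 16 * L ^ 2 * k₀ * C₂) + 8
    C₁ + n * Bs * C₁ ≤ tw 50 A := by
  intro C₁ C₂ k₀ L m Hmax Bs
  have up : ∀ {a b x : ℕ}, x ≤ tw a A → a ≤ b → x ≤ tw b A :=
    fun h h' => h.trans (tw_mono h' le_rfl)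
  have sm : ∀ {x : ℕ}, x ≤ 16 → x ≤ tw 0 A := fun h => h.trans hA
  have hA0 : A ≤ tw 0 A := le_rfl
  have hC₁ : C₁ ≤ tw 10 A := le_rfl
  have hA2 : A ^ 2 ≤ tw 1 A := by rw [pow_two]; exact tw_mul hA hA0 hA0
  have hC₂ : C₂ ≤ tw 11 A := tw_mul hA (up hA2 (by norm_num)) hC₁
  have hn0 : n ≤ tw 0 A := hn
  have hk0 : k₀ ≤ tw 13 A :=
    tw_poly hA (up (sm (by norm_num)) (by norm_num)) (up hn0 (by norm_num)) hC₂ (up (show k₁ ≤ tw 0 A from hk₁) (by norm_num))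
  have h20 : 2 ^ 20 ≤ tw 2 A := by
    have h1 : 20 ≤ tw 1 A := by
      have h2 : (2 : ℕ) ^ 16 ≤ 2 ^ A := Nat.pow_le_pow_right (by norm_num) hA
      calc 20 ≤ 2 ^ 16 := by norm_num
        _ ≤ tw 1 A := h2
    exact Nat.pow_le_pow_right (by norm_num) h1
  have h16 : 2 ^ 16 ≤ tw 2 A := le_trans (by norm_num) h20
  have hD0 : D ≤ tw 0 A := hD
  have hD2 : D ^ 2 ≤ tw 1 A := by rw [pow_two]; exact tw_mul hA hD0 hD0
  have hL : L ≤ tw 15 A := by
    have h1 := tw_mul hA h20 (up hD2 (by norm_num) : D ^ 2 ≤ tw 2 A)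
    exact up (tw_mul hA (up h1 (by norm_num) : _ ≤ tw 13 A) hk0) (by norm_num)
  have hL2 : L ^ 2 ≤ tw 16 A := by rw [pow_two]; exact tw_mul hA hL hL
  have hm : m ≤ tw 19 A := by
    have h1 : 3 * n * C₂ * 2 ^ 16 ≤ tw 13 A :=
      tw_poly hA (up (sm (by norm_num)) (by norm_num)) (up hn0 (by norm_num)) hC₂ (up h16 (by norm_num))
    have h2 := tw_mul hA (up h1 (by norm_num) : _ ≤ tw 16 A) hL2
    have h3 := tw_mul hA h2 (up hk0 (by norm_num) : k₀ ≤ tw 17 A)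
    exact tw_add hA h3 (up (sm (by norm_num)) (by norm_num))
  have hmn : m ^ n ≤ tw 21 A := tw_pow hA hm (up hn0 (by norm_num))
  have hH : Hmax ≤ tw 23 A :=
    tw_poly hA (up (sm (by norm_num)) (by norm_num)) (up hn0 (by norm_num)) hmn (up hC₂ (by norm_num))
  have hB1 : 2 * m ^ n * (m * (m ^ n + 2)) ≤ tw 25 A := by
    have h1 := tw_add hA hmn (up (sm (by norm_num)) (by norm_num) : 2 ≤ tw 21 A)
    have h2 := tw_mul hA (up hm (by norm_num) : m ≤ tw 22 A) h1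
    have h3 := tw_mul hA (up (sm (by norm_num)) (by norm_num) : 2 ≤ tw 21 A) hmn
    exact up (tw_mul hA (up h3 (by norm_num)) h2) (by norm_num)
  have hX : (2 ^ 20 * L * Hmax * D * k₀) ^ 3 ≤ tw 28 A := by
    have h1 : 2 ^ 20 * L * Hmax * D ≤ tw 25 A :=
      tw_poly hA (up h20 (by norm_num)) (up hL (by norm_num)) hH (up hD0 (by norm_num))
    have h2 := tw_mul hA h1 (up hk0 (by norm_num) : k₀ ≤ tw 25 A)
    exact tw_pow hA h2 (up (sm (by norm_num)) (by norm_num))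
  have hY : 2 ^ 16 * L ^ 2 * k₀ * C₂ ≤ tw 18 A :=
    tw_poly hA (up h16 (by norm_num)) hL2 (up hk0 (by norm_num)) (up hC₂ (by norm_num))
  have hXY := tw_add hA hX (up hY (by norm_num))
  have hB2 : 2 * m ^ n * ((2 ^ 20 * L * Hmax * D * k₀) ^ 3 + 2 ^ 16 * L ^ 2 * k₀ * C₂) ≤ tw 30 A := by
    have h3 := tw_mul hA (up (sm (by norm_num)) (by norm_num) : 2 ≤ tw 21 A) hmn
    exact tw_mul hA (up h3 (by norm_num)) hXY
  have hBs : Bs ≤ tw 32 A :=
    tw_add hA (tw_add hA (up hB1 (by norm_num)) hB2) (up (sm (by norm_num)) (by norm_num))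
  have h4 := tw_mul hA (up hn0 (by norm_num) : n ≤ tw 32 A) hBs
  have h5 := tw_mul hA h4 (up hC₁ (by norm_num))
  have h6 := tw_add hA (up hC₁ (by norm_num)) h5
  exact up h6 (by norm_num)

private theorem abv_pow_sub_one {M : Type*} [Field M] [NumberField M] (v : FinitePlace M) {ξ : M}
    (h1 : v ξ = 1) (q : ℕ) : v (ξ ^ q - 1) ≤ v (ξ - 1) := by
  induction q with
  | zero =>
    rw [pow_zero, sub_self, map_zero]
    exact apply_nonneg v _
  | succ q ih =>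
    have e : ξ ^ (q + 1) - 1 = ξ ^ q * (ξ - 1) + (ξ ^ q - 1) := by ring
    rw [e]
    refine (FinitePlace.add_le v _ _).trans (max_le ?_ ih)
    rw [map_mul, map_pow, h1, one_pow, one_mul]

theorem rna (M : Type*) [Field M] [NumberField M] (S : Finset (FinitePlace M)) (v : FinitePlace M)
    (hv : v ∈ S) (k₁ : ℕ) (hk₁ : 1 ≤ k₁) (ξ : M) (hξ : ξ ≠ 0) (hS : IsSUnit S ξ)
    (h : v (ξ - 1) ≤ Real.exp (-(logHeight₁ ξ / k₁))) :
    logHeight₁ ξ ≤ tw 50 (siz M S + k₁) := by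
  classical
  set A := siz M S + k₁ with hAdef
  have hk1pos : (0 : ℝ) < k₁ := by exact_mod_cast hk₁
  have hA : 16 ≤ A := by rw [hAdef, siz]; omega
  have hk₁A : k₁ ≤ A := by omega
  rcases le_or_gt (logHeight₁ ξ) (2 * k₁) with hle | hgt
  · refine hle.trans ?_
    have h1 : 2 * k₁ ≤ tw 1 A := tw_mul (by omega) (show 2 ≤ tw 0 A by exact le_trans (by norm_num) hA)
      (show k₁ ≤ tw 0 A from hk₁A)
    have h2 : 2 * k₁ ≤ tw 50 A := h1.trans (tw_mono (by norm_num) le_rfl)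
    exact_mod_cast h2
  have hhpos : 0 < logHeight₁ ξ := by linarith
  have hlt : v (ξ - 1) < 1 := by
    refine lt_of_le_of_lt h ?_
    rw [Real.exp_lt_one_iff]
    have : 0 < logHeight₁ ξ / k₁ := div_pos hhpos hk1pos
    linarith
  have hv1 : v ξ = 1 := by
    apply le_antisymm
    · have := FinitePlace.add_le v (ξ - 1) 1
      rw [sub_add_cancel, map_one] at this
      exact this.trans (max_le hlt.le le_rfl)
    · by_contra hc
      push Not at hc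
      have h2 := FinitePlace.add_le v (-(ξ - 1)) ξ
      have e : -(ξ - 1) + ξ = 1 := by ring
      rw [e, map_one] at h2
      have h3 : v (-(ξ - 1)) = v (ξ - 1) := by
        rw [FinitePlace.coe_apply, FinitePlace.coe_apply, AbsoluteValue.map_neg]
      rw [h3] at h2
      exact absurd h2 (not_le.2 (max_lt hlt hc))
  set S' := S.erase v with hS'
  have hSu : IsSUnit S' ξ := by
    intro u hu
    rcases eq_or_ne u v with rfl | hne
    · exact hv1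
    · exact hS u (fun hm => hu (Finset.mem_erase.2 ⟨hne, hm⟩))
  have hnrm := nrm_mul_erase S hv
  have hnS' := one_le_nrmS S'
  have hnv := one_le_nrm v
  have hle' : nrmS S' ≤ nrmS S := by rw [← hnrm]; exact Nat.le_mul_of_pos_left _ hnv
  have hnvS : nrm v ≤ nrmS S := by rw [← hnrm]; exact Nat.le_mul_of_pos_right _ hnS'
  have hsiz' : siz M S' ≤ siz M S := by rw [siz, siz]; omega
  have hsizA : siz M S' ≤ A := hsiz'.trans (by omega)
  have hnvA : nrm v ≤ A := by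
    have : nrmS S ≤ siz M S := by rw [siz]; omega
    omega
  obtain ⟨n, γ, hn, hγ0, hγS, hγh, hind, hdec⟩ := dec M S'
  obtain ⟨b, hb, hbb⟩ := hdec ξ hξ hSu
  have hnA : n ≤ A := hn.trans hsizA
  set C₁ := tw 10 A with hC₁
  have hC₁le : ((tw 10 (siz M S') : ℕ) : ℝ) ≤ (C₁ : ℝ) := by
    exact_mod_cast tw_mono le_rfl hsizA
  have hγh' : ∀ i, logHeight₁ (γ i) ≤ C₁ := fun i => (hγh i).trans hC₁le
  set x₀ := ξ * ∏ i, γ i ^ (-b i) with hx₀
  have hx₀h : logHeight₁ x₀ ≤ C₁ := hb.trans hC₁le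
  have hγv : ∀ i, v (γ i) = 1 := fun i => hγS i v (Finset.notMem_erase v S)
  have hprodv : ∀ q : Fin n → ℤ, v (∏ i, γ i ^ q i) = 1 := by
    intro q
    rw [map_prod]
    refine Finset.prod_eq_one (fun i _ => ?_)
    rw [map_zpow₀, hγv, one_zpow]
  have hξeq : ξ = x₀ * ∏ i, γ i ^ b i := by
    rw [hx₀, mul_assoc, ← Finset.prod_mul_distrib]
    rw [Finset.prod_eq_one, mul_one]
    intro i _
    rw [← zpow_add₀ (hγ0 i), neg_add_cancel, zpow_zero]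
  have hx₀v : v x₀ = 1 := by
    rw [hx₀, map_mul, hv1, one_mul]
    exact hprodv (fun i => -b i)
  have hx₀0 : x₀ ≠ 0 := by
    intro h0
    rw [h0, map_zero] at hx₀v
    exact zero_ne_one hx₀v
  have hD : Module.finrank ℚ M ≤ A := by
    have : Module.finrank ℚ M ≤ siz M S := by rw [siz]; omega
    omega
  have htower := rna_tower A n (Module.finrank ℚ M) k₁ hA hnA hD hk₁A
  simp only at htower
  have hC₁1 : 1 ≤ C₁ := le_trans (by omega) (le_tw 10 A)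
  set D := Module.finrank ℚ M with hDdef
  have hDpos : 0 < D := Module.finrank_pos
  rw [← hC₁] at htower
  set C₂ := A ^ 2 * C₁ with hC₂
  set k₀ := 8 * n * C₂ * k₁ with hk₀
  set L := 2 ^ 20 * D ^ 2 * k₀ with hL
  set m := 3 * n * C₂ * 2 ^ 16 * L ^ 2 * k₀ + 2 with hm
  set Hmax := 2 * n * m ^ n * C₂ with hHmax
  set Bs := 2 * m ^ n * (m * (m ^ n + 2)) +
      2 * m ^ n * ((2 ^ 20 * L * Hmax * D * k₀) ^ 3 + 2 ^ 16 * L ^ 2 * k₀ * C₂) + 8 with hBs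
  clear_value Bs Hmax m L k₀ C₂ D C₁
  clear hdec hb hγh hC₁le hC₁
  generalize tw 50 A = T at htower ⊢
  have hC₁0 : (0 : ℝ) ≤ C₁ := Nat.cast_nonneg _
  -- the bound when all `|b_i| ≤ B`
  have hbound : ∀ Bq : ℕ, (∀ i, |b i| ≤ Bq) → logHeight₁ ξ ≤ C₁ + n * Bq * C₁ := by
    intro Bq hBq
    have h1 : logHeight₁ ξ ≤ logHeight₁ x₀ + logHeight₁ (∏ i, γ i ^ b i) := by
      conv_lhs => rw [hξeq]
      exact ht_mul _ _
    have h2 : logHeight₁ (∏ i, γ i ^ b i) ≤ n * (Bq : ℝ) * C₁ := by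
      refine ht_prod_zpow γ b C₁ Bq hγh' (fun i => ?_) (Nat.cast_nonneg _)
      have := hBq i
      rw [← Int.cast_abs]
      exact_mod_cast this
    linarith
  set B : ℕ := Finset.univ.sup (fun i => (b i).natAbs) with hB
  have hbB : ∀ i, |b i| ≤ (B : ℤ) := by
    intro i
    have h1 : (b i).natAbs ≤ B := Finset.le_sup (f := fun i => (b i).natAbs) (Finset.mem_univ i)
    rw [Int.abs_eq_natAbs]
    exact_mod_cast h1
  rcases lt_or_ge B Bs with hBlt | hBge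
  · have h1 := hbound B hbB
    have h2 : C₁ + n * B * C₁ ≤ C₁ + n * Bs * C₁ := by
      have : n * B * C₁ ≤ n * Bs * C₁ := Nat.mul_le_mul_right _ (Nat.mul_le_mul_left _ hBlt.le)
      omega
    have h3 : C₁ + n * B * C₁ ≤ T := h2.trans htower
    refine h1.trans ?_
    exact_mod_cast h3
  exfalso
  have hBpos : 8 ≤ B := by omega
  -- an index where the maximum is attained
  obtain ⟨i₀, hi₀⟩ : ∃ i, (b i).natAbs = B := by
    rcases Nat.eq_zero_or_pos n with h0 | hnp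
    · exfalso
      subst h0
      have : B = 0 := by
        rw [hB]
        simp
      omega
    · have : Nonempty (Fin n) := ⟨⟨0, hnp⟩⟩
      obtain ⟨i, _, hi⟩ := Finset.exists_mem_eq_sup Finset.univ Finset.univ_nonempty
        (fun i => (b i).natAbs)
      exact ⟨i, hi.symm⟩
  have hnpos : 0 < n := Fin.pos i₀
  have hC₂1 : 1 ≤ C₂ := by
    rw [hC₂]
    exact Nat.mul_pos (pow_pos (by omega) 2) hC₁1
  have hk₀1 : 1 ≤ k₀ := by
    rw [hk₀]
    exact Nat.mul_pos (Nat.mul_pos (Nat.mul_pos (by norm_num) hnpos) hC₂1) hk₁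
  have hm2 : 2 ≤ m := by rw [hm]; omega
  obtain ⟨J, r, q, ρ, hJ1, hJm, hrJ, hBJr, hbq, hq, hρ, hlast⟩ := dir_int b B m hm2 hbB (by omega)
  have hmn0 : 0 < m ^ n := pow_pos (by omega) n
  have hXr : (2 ^ 20 * L * Hmax * D * k₀) ^ 3 + 2 ^ 16 * L ^ 2 * k₀ * C₂ ≤ r := by
    have h1 : 2 * m ^ n * ((2 ^ 20 * L * Hmax * D * k₀) ^ 3 + 2 ^ 16 * L ^ 2 * k₀ * C₂) ≤
        2 * m ^ n * r := by
      calc _ ≤ B := by omega
        _ ≤ 2 * J * r := hBJr
        _ ≤ 2 * m ^ n * r := Nat.mul_le_mul_right _ (Nat.mul_le_mul_left _ hJm)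
    exact Nat.le_of_mul_le_mul_left h1 (by omega)
  obtain ⟨Q, hQ0, hQ, hpw⟩ := pwr M v
  have hQA : Q ≤ A ^ 2 := hQ.trans (Nat.pow_le_pow_left hnvA 2)
  have hQC : (Q : ℝ) * C₁ ≤ C₂ := by
    have : Q * C₁ ≤ C₂ := by rw [hC₂]; exact Nat.mul_le_mul_right _ hQA
    exact_mod_cast this
  set u := ∏ i, γ i ^ q i with hu
  set w := x₀ * ∏ i, γ i ^ ρ i with hw
  have huv : v u = 1 := hprodv q
  clear_value u w
  have hu0 : u ≠ 0 := by
    intro h0
    rw [h0, map_zero] at huv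
    exact zero_ne_one huv
  have hw0 : w ≠ 0 := by
    rw [hw]
    exact mul_ne_zero hx₀0 (Finset.prod_ne_zero_iff.2 (fun i _ => zpow_ne_zero _ (hγ0 i)))
  have huw : u ^ r * w = ξ := by
    rw [hξeq, hw, hu, mul_left_comm]
    congr 1
    rw [← Finset.prod_pow, ← Finset.prod_mul_distrib]
    refine Finset.prod_congr rfl (fun i _ => ?_)
    rw [hbq i, zpow_add₀ (hγ0 i), mul_comm (r : ℤ) (q i), zpow_mul, zpow_natCast]
  set H := 2 * n * J * C₂ with hH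
  have hH1 : 1 ≤ H := by
    rw [hH]
    exact Nat.mul_pos (Nat.mul_pos (Nat.mul_pos (by norm_num) hnpos) hJ1) hC₂1
  have hHHmax : H ≤ Hmax := by
    rw [hH, hHmax]
    exact Nat.mul_le_mul_right _ (Nat.mul_le_mul_left _ hJm)
  clear_value H
  have hL1 : 1 ≤ L := by
    rw [hL]
    exact Nat.mul_pos (Nat.mul_pos (by norm_num) (pow_pos hDpos 2)) hk₀1
  have hr3 : (2 ^ 20 * L * H * D * k₀) ^ 3 ≤ r := by
    have h1 : 2 ^ 20 * L * H * D * k₀ ≤ 2 ^ 20 * L * Hmax * D * k₀ :=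
      Nat.mul_le_mul_right k₀ (Nat.mul_le_mul_right D (Nat.mul_le_mul_left (2 ^ 20 * L) hHHmax))
    have h2 : (2 ^ 20 * L * H * D * k₀) ^ 3 ≤ (2 ^ 20 * L * Hmax * D * k₀) ^ 3 :=
      Nat.pow_le_pow_left h1 3
    omega
  have hnr : (0 : ℝ) < n := by exact_mod_cast hnpos
  have hJr1 : (1 : ℝ) ≤ J := by exact_mod_cast hJ1
  have hQr : (0 : ℝ) ≤ Q := Nat.cast_nonneg _
  -- height of alpha
  have hhα : logHeight₁ (u ^ Q) ≤ (H : ℝ) := by
    rw [logHeight₁_pow]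
    have hq' : ∀ i, |(q i : ℝ)| ≤ (J : ℝ) + 1 := by
      intro i
      have := hq i
      rw [← Int.cast_abs]
      exact_mod_cast this
    have h1 : logHeight₁ u ≤ n * ((J : ℝ) + 1) * C₁ := by
      rw [hu]
      exact ht_prod_zpow γ q (C₁ : ℝ) ((J : ℝ) + 1) hγh' hq' (by positivity)
    calc (Q : ℝ) * logHeight₁ u ≤ Q * (n * ((J : ℝ) + 1) * C₁) := mul_le_mul_of_nonneg_left h1 hQr
      _ = n * ((J : ℝ) + 1) * (Q * C₁) := by ring
      _ ≤ n * ((J : ℝ) + 1) * C₂ := mul_le_mul_of_nonneg_left hQC (by positivity)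
      _ ≤ n * (2 * (J : ℝ)) * C₂ := by
          have : (0 : ℝ) ≤ C₂ := Nat.cast_nonneg _
          apply mul_le_mul_of_nonneg_right _ this
          apply mul_le_mul_of_nonneg_left _ hnr.le
          linarith
      _ = (H : ℝ) := by rw [hH]; push_cast; ring
  -- height of beta
  have hLk : (0 : ℝ) < 2 ^ 16 * (L : ℝ) ^ 2 * k₀ := by
    have h1 : (0 : ℝ) < L := by exact_mod_cast hL1
    have h2 : (0 : ℝ) < k₀ := by exact_mod_cast hk₀1
    positivity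
  have hhβ : logHeight₁ (w ^ Q) ≤ r / (2 ^ 15 * (L : ℝ) ^ 2 * k₀) := by
    rw [logHeight₁_pow]
    have h1 : logHeight₁ w ≤ C₁ + n * (3 * (r : ℝ) / m) * C₁ := by
      rw [hw]
      refine (ht_mul _ _).trans ?_
      have h2 : logHeight₁ (∏ i, γ i ^ ρ i) ≤ n * (3 * (r : ℝ) / m) * C₁ :=
        ht_prod_zpow γ ρ C₁ _ hγh' hρ (by positivity)
      linarith
    have h2 : (Q : ℝ) * logHeight₁ w ≤ C₂ + n * (3 * (r : ℝ) / m) * C₂ := by
      calc (Q : ℝ) * logHeight₁ w ≤ Q * (C₁ + n * (3 * (r : ℝ) / m) * C₁) :=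
            mul_le_mul_of_nonneg_left h1 hQr
        _ = (1 + n * (3 * (r : ℝ) / m)) * (Q * C₁) := by ring
        _ ≤ (1 + n * (3 * (r : ℝ) / m)) * C₂ := mul_le_mul_of_nonneg_left hQC (by positivity)
        _ = C₂ + n * (3 * (r : ℝ) / m) * C₂ := by ring
    have h3 : (C₂ : ℝ) ≤ r / (2 ^ 16 * (L : ℝ) ^ 2 * k₀) := by
      rw [le_div_iff₀ hLk]
      have : 2 ^ 16 * L ^ 2 * k₀ * C₂ ≤ r := le_trans (Nat.le_add_left _ _) hXr
      have h4 : (((2 ^ 16 * L ^ 2 * k₀ * C₂ : ℕ)) : ℝ) ≤ (r : ℝ) := by exact_mod_cast this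
      push_cast at h4
      linarith
    have hmr : (0 : ℝ) < m := by exact_mod_cast (by omega : 0 < m)
    have h4 : n * (3 * (r : ℝ) / m) * C₂ ≤ r / (2 ^ 16 * (L : ℝ) ^ 2 * k₀) := by
      have e : n * (3 * (r : ℝ) / m) * C₂ = r * (3 * n * C₂) / m := by ring
      rw [e, div_le_div_iff₀ hmr hLk]
      have h5 : 3 * n * C₂ * 2 ^ 16 * L ^ 2 * k₀ ≤ m := by rw [hm]; omega
      have h6 : (((3 * n * C₂ * 2 ^ 16 * L ^ 2 * k₀ : ℕ)) : ℝ) ≤ (m : ℝ) := by exact_mod_cast h5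
      push_cast at h6
      have h7 := mul_le_mul_of_nonneg_left h6 (Nat.cast_nonneg r : (0 : ℝ) ≤ (r : ℝ))
      linarith [h7]
    have h5 : (r : ℝ) / (2 ^ 15 * (L : ℝ) ^ 2 * k₀) =
        r / (2 ^ 16 * (L : ℝ) ^ 2 * k₀) + r / (2 ^ 16 * (L : ℝ) ^ 2 * k₀) := by
      have h1 : (0 : ℝ) < L := by exact_mod_cast hL1
      have h2 : (0 : ℝ) < k₀ := by exact_mod_cast hk₀1
      field_simp
      ring
    rw [h5]
    linarith
  -- alpha is not a root of unity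
  have hru : ∀ n' : ℕ, 0 < n' → (u ^ Q) ^ n' ≠ 1 := by
    intro n' hn' he
    rw [← pow_mul, hu] at he
    have hq0 := hind q (Q * n') (Nat.mul_pos hQ0 hn') he
    have h1 := hlast i₀
    rw [hq0, Int.abs_eq_natAbs, hi₀] at h1
    simp only [Pi.zero_apply, abs_zero, mul_zero, zero_add, mul_one] at h1
    have h2 : m * J * B ≤ B := by exact_mod_cast h1
    have h3 : 2 * 1 ≤ m * J := Nat.mul_le_mul hm2 hJ1
    have h4 : 2 * 1 * B ≤ m * J * B := Nat.mul_le_mul_right _ h3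
    omega
  have hcore := core_fin D k₀ H r L hDdef hk₀1 hH1 hL hr3 (u ^ Q) (w ^ Q) (pow_ne_zero _ hu0)
    (pow_ne_zero _ hw0) hru hhα hhβ v (hpw u huv)
  have e1 : (u ^ Q) ^ r * w ^ Q = ξ ^ Q := by
    rw [← pow_mul, mul_comm Q r, pow_mul, ← mul_pow, huw]
  rw [e1] at hcore
  have hcmp := lt_of_lt_of_le hcore ((abv_pow_sub_one v hv1 Q).trans h)
  rw [Real.exp_lt_exp] at hcmp
  -- final comparison
  have hk0r : (0 : ℝ) < k₀ := by exact_mod_cast hk₀1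
  have hC₂r : (0 : ℝ) < C₂ := by exact_mod_cast hC₂1
  have h1 : (r : ℝ) * H / k₀ = r * J / (4 * k₁) := by
    rw [div_eq_div_iff hk0r.ne' (by positivity)]
    rw [hH, hk₀]
    push_cast
    ring
  have h2 : (r : ℝ) * J ≤ B := by exact_mod_cast hrJ
  have h3 : (B : ℝ) ≤ 2 * logHeight₁ ξ + 1 := by
    have := hbb i₀
    rw [← Int.cast_abs, Int.abs_eq_natAbs, hi₀] at this
    exact_mod_cast this
  have h4 : (8 : ℝ) ≤ B := by exact_mod_cast hBpos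
  have h5 : logHeight₁ ξ / k₁ < r * J / (4 * k₁) := by
    rw [← h1]
    linarith
  rw [div_lt_div_iff₀ hk1pos (by positivity)] at h5
  have h7 : (r : ℝ) * J ≤ 4 * logHeight₁ ξ := by linarith
  have h8 : ((r : ℝ) * J) * k₁ ≤ (4 * logHeight₁ ξ) * k₁ :=
    mul_le_mul_of_nonneg_right h7 hk1pos.le
  linarith

end Pool.Agent.ESH
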