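import Pool.Agent.ESH.DefsG
import Pool.Agent.Helper11.Degree
import Pool.Agent.Helper11.FinsumTools

/-!
# ESH / RRA: Riemann-Roch spaces, upper bounds

`LL D = {f | ∀ v, f ∈ v.ge (- D v)}`.
`rra_step`: choose `π` with `v₀.ord π = 1`; for `f ∈ LL (D + v₀)` the element `f π^(D v₀ + 1)` is in `v₀.ge 0`; its residue
(`exists_residue`) is a linear functional on `LL (D + v₀)` with kernel `LL D`.
`rra_fin`: for `D` finitely supported: compare with `D' = min(D, 0) - v₀` for which `LL D' = 0` (a non-zero `f ∈ LL D'` would have all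
orders `≥ 0` and one `> 0`, contradicting `finsum_ord`), and apply `rra_step` finitely many times.
`rra_le`: if `D ≤ D'`, both finitely supported, then `dim LL D' ≤ dim LL D + ∑ (D' - D)`.
-/

namespace Pool.Agent.ESH

open Pool.Agent.Helper11

variable {C Φ : Type*} [Field C] [Field Φ] [Algebra C Φ]

/-- the Riemann-Roch space of the divisor `D` -/
def LL (D : Place C Φ → ℤ) : Submodule C Φ where
  carrier := {f | ∀ v : Place C Φ, f ∈ v.ge (-D v)}
  zero_mem' := fun v => zero_mem _
  add_mem' := fun ha hb v => add_mem (ha v) (hb v)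
  smul_mem' := fun c _ ha v => v.smul_mem_ge c (ha v)

variable [FunField C Φ] [CharZero C] [IsAlgClosed C]

private theorem RRA_mem (D : Place C Φ → ℤ) (f : Φ) :
    f ∈ LL D ↔ ∀ v : Place C Φ, f ∈ v.ge (-D v) := Iff.rfl

open scoped Classical in
theorem rra_step (D : Place C Φ → ℤ) (v₀ : Place C Φ) [FiniteDimensional C (LL D)] :
    FiniteDimensional C (LL (fun v => D v + if v = v₀ then 1 else 0)) ∧
    Module.finrank C (LL (fun v => D v + if v = v₀ then 1 else 0)) ≤ Module.finrank C (LL D) + 1 := by
  set E := LL (fun v => D v + if v = v₀ then 1 else 0) with hE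
  have key : ∃ f₀ : Φ, E ≤ LL D ⊔ Submodule.span C {f₀} := by
    by_cases hcase : ∃ f₀ ∈ E, f₀ ∉ LL D
    · obtain ⟨f₀, hf₀, hf₀D⟩ := hcase
      refine ⟨f₀, fun g hg => ?_⟩
      set π := v₀.unif with hπ
      have hπ0 : π ≠ 0 := v₀.unif_ne_zero
      have hge : ∀ f ∈ E, f * π ^ (D v₀ + 1) ∈ v₀.ge 0 := by
        intro f hf
        have h1 := hf v₀
        simp only [if_true] at h1
        have h2 := v₀.mul_mem_ge h1 (v₀.mem_ge_ord (π ^ (D v₀ + 1)))
        rw [v₀.ord_zpow, hπ, v₀.ord_unif] at h2
        have e : -(D v₀ + 1) + (D v₀ + 1) * 1 = 0 := by ring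
        rwa [e] at h2
      have hback : ∀ f ∈ E, f * π ^ (D v₀ + 1) ∈ v₀.ge 1 → f ∈ LL D := by
        intro f hf h1 v
        by_cases hv : v = v₀
        · rw [hv]
          have h2 := v₀.mul_mem_ge h1 (v₀.mem_ge_ord (π ^ (-(D v₀ + 1))))
          rw [v₀.ord_zpow, hπ, v₀.ord_unif, mul_assoc, ← zpow_add₀ (by rw [← hπ]; exact hπ0)] at h2
          rw [add_neg_cancel, zpow_zero, mul_one, mul_one] at h2
          have e : 1 + -(D v₀ + 1) = -D v₀ := by ring
          rwa [e] at h2
        · have h2 := hf v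
          simp only [if_neg hv, add_zero] at h2
          exact h2
      obtain ⟨α, hα⟩ := v₀.exists_residue (hge f₀ hf₀)
      obtain ⟨β, hβ⟩ := v₀.exists_residue (hge g hg)
      have hα0 : α ≠ 0 := by
        rintro rfl
        rw [map_zero, sub_zero] at hα
        exact hf₀D (hback f₀ hf₀ hα)
      have hmem : g - (β / α) • f₀ ∈ LL D := by
        refine hback _ (E.sub_mem hg (E.smul_mem _ hf₀)) ?_
        have h1 := sub_mem hβ (v₀.smul_mem_ge (β / α) hα)
        have e : g * π ^ (D v₀ + 1) - algebraMap C Φ β -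
            (β / α) • (f₀ * π ^ (D v₀ + 1) - algebraMap C Φ α) =
            (g - (β / α) • f₀) * π ^ (D v₀ + 1) := by
          rw [Algebra.smul_def, Algebra.smul_def, map_div₀]
          have hα' : algebraMap C Φ α ≠ 0 := by simpa using hα0
          field_simp
          ring
        rwa [e] at h1
      have e : g = (g - (β / α) • f₀) + (β / α) • f₀ := by rw [sub_add_cancel]
      rw [e]
      exact Submodule.add_mem_sup hmem
        (Submodule.smul_mem _ _ (Submodule.mem_span_singleton_self f₀))
    · push Not at hcase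
      exact ⟨0, fun g hg => Submodule.mem_sup_left (hcase g hg)⟩
  obtain ⟨f₀, hf₀⟩ := key
  have hfin : FiniteDimensional C (Submodule.span C {f₀} : Submodule C Φ) := inferInstance
  have hfin2 : FiniteDimensional C (LL D ⊔ Submodule.span C {f₀} : Submodule C Φ) := inferInstance
  refine ⟨Submodule.finiteDimensional_of_le hf₀, ?_⟩
  refine (Submodule.finrank_mono hf₀).trans ?_
  refine (Submodule.finrank_add_le_finrank_add_finrank _ _).trans ?_
  have h1 : Module.finrank C (Submodule.span C {f₀} : Submodule C Φ) ≤ 1 := by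
    have := finrank_span_le_card (R := C) ({f₀} : Set Φ)
    simpa using this
  omega

open scoped Classical in
private theorem RRA_many : ∀ (n : ℕ) (D D' : Place C Φ → ℤ), {v | D v ≠ 0}.Finite →
    {v | D' v ≠ 0}.Finite → (∀ v, D v ≤ D' v) → ∑ᶠ v, (D' v - D v) = n →
    FiniteDimensional C (LL D) →
    FiniteDimensional C (LL D') ∧ Module.finrank C (LL D') ≤ Module.finrank C (LL D) + n := by
  intro n
  induction n with
  | zero =>
    intro D D' hD hD' h hs hfin
    have heq : D' = D := by
      funext v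
      by_contra hne
      have h1 : 0 < D' v - D v := by
        have := h v
        omega
      have h2 := fs_pos (supp_sub hD' hD) (fun v => sub_nonneg.2 (h v)) h1
      rw [hs] at h2
      exact absurd h2 (by simp)
    rw [heq]
    exact ⟨hfin, le_rfl⟩
  | succ n ih =>
    intro D D' hD hD' h hs hfin
    have hex : ∃ v₀, D v₀ < D' v₀ := by
      by_contra hcon
      push Not at hcon
      have h1 : ∀ v, D' v - D v = 0 := fun v => by
        have := h v
        have := hcon v
        omega
      rw [finsum_congr h1, finsum_zero] at hs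
      push_cast at hs
      omega
    obtain ⟨v₀, hv₀⟩ := hex
    obtain ⟨h1, h2⟩ := rra_step D v₀
    have hind : {v : Place C Φ | (if v = v₀ then (1 : ℤ) else 0) ≠ 0}.Finite :=
      (Set.finite_singleton v₀).subset fun v hv => by
        by_contra hne
        exact hv (if_neg hne)
    have hD1 := supp_add hD hind
    have hle : ∀ v, (D v + if v = v₀ then (1 : ℤ) else 0) ≤ D' v := by
      intro v
      by_cases hv : v = v₀
      · rw [hv, if_pos rfl]; omega
      · rw [if_neg hv, add_zero]; exact h v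
    have hsum : ∑ᶠ v, (D' v - (D v + if v = v₀ then (1 : ℤ) else 0)) = n := by
      have e : ∀ v, D' v - (D v + if v = v₀ then (1 : ℤ) else 0) =
          (D' v - D v) - (if v = v₀ then (1 : ℤ) else 0) := fun v => by ring
      rw [finsum_congr e, fs_sub (supp_sub hD' hD) hind, hs]
      have e2 : ∑ᶠ v : Place C Φ, (if v = v₀ then (1 : ℤ) else 0) = 1 := by
        rw [finsum_eq_single _ v₀ (fun v hv => if_neg hv), if_pos rfl]
      rw [e2]
      push_cast
      ring
    obtain ⟨h3, h4⟩ := ih _ D' hD1 hD' hle hsum h1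
    exact ⟨h3, by omega⟩

private theorem RRA_place : Nonempty (Place C Φ) := by
  obtain ⟨x, hx⟩ := FunField.exists_transcendental (k := C) (L := Φ)
  by_contra hemp
  rw [not_nonempty_iff] at hemp
  have h1 := finsum_pos_ord hx
  rw [finsum_of_isEmpty] at h1
  have := FunField.finiteDimensional_adjoin hx
  have h2 : 0 < Module.finrank (IntermediateField.adjoin C {x}) Φ := Module.finrank_pos
  omega

theorem rra_fin (D : Place C Φ → ℤ) (hD : {v | D v ≠ 0}.Finite) : FiniteDimensional C (LL D) := by
  classical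
  obtain ⟨v₁⟩ := RRA_place (C := C) (Φ := Φ)
  have hind : {v : Place C Φ | (if v = v₁ then (1 : ℤ) else 0) ≠ 0}.Finite :=
    (Set.finite_singleton v₁).subset fun v hv => by
      by_contra hne
      exact hv (if_neg hne)
  have hmin : {v : Place C Φ | min (D v) 0 ≠ 0}.Finite := by
    refine hD.subset fun v hv h0 => hv ?_
    rw [h0, min_self]
  have hD2 := supp_sub hmin hind
  have hbot : LL (fun v => min (D v) 0 - if v = v₁ then (1 : ℤ) else 0) = ⊥ := by
    rw [eq_bot_iff]
    intro f hf
    rw [Submodule.mem_bot]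
    by_contra hf0
    have h1 : ∀ v : Place C Φ, (if v = v₁ then (1 : ℤ) else 0) ≤ v.ord f := by
      intro v
      have h2 := v.le_ord_of_mem (hf v) hf0
      have h3 := min_le_right (D v) 0
      linarith
    have h2 := fs_pos (finite_ord_ne_zero f) (fun v => le_trans (by split_ifs <;> simp) (h1 v))
      (a := v₁) (lt_of_lt_of_le (by rw [if_pos rfl]; exact one_pos) (h1 v₁))
    rw [finsum_ord] at h2
    exact lt_irrefl _ h2
  have hle : ∀ v, (min (D v) 0 - if v = v₁ then (1 : ℤ) else 0) ≤ D v := by
    intro v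
    have h3 := min_le_left (D v) 0
    split_ifs <;> omega
  have hnn : 0 ≤ ∑ᶠ v, (D v - (min (D v) 0 - if v = v₁ then (1 : ℤ) else 0)) :=
    fs_nonneg fun v => sub_nonneg.2 (hle v)
  obtain ⟨n, hn⟩ := Int.eq_ofNat_of_zero_le hnn
  exact (RRA_many n _ D hD2 hD hle hn (by rw [hbot]; infer_instance)).1

theorem rra_le (D D' : Place C Φ → ℤ) (hD : {v | D v ≠ 0}.Finite) (hD' : {v | D' v ≠ 0}.Finite)
    (h : ∀ v, D v ≤ D' v) :
    (Module.finrank C (LL D') : ℤ) ≤ Module.finrank C (LL D) + ∑ᶠ v, (D' v - D v) := by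
  have hnn : 0 ≤ ∑ᶠ v, (D' v - D v) := fs_nonneg fun v => sub_nonneg.2 (h v)
  obtain ⟨n, hn⟩ := Int.eq_ofNat_of_zero_le hnn
  have h1 := (RRA_many n D D' hD hD' h hn (rra_fin D hD)).2
  rw [hn]
  exact_mod_cast h1

end Pool.Agent.ESH
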