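import Pool.Agent.ESH.RRA
import Pool.Agent.ESH.RRB
import Pool.Agent.ESH.RIE

/-!
# ESH / RRN: functions with a single pole of every large order

As in RIE: there is `c'` with `dim LL (n P) ≥ n - c'` for all `n ≥ 0` (for given `n` choose `m` with `m [Φ:C(x)] ≥ n + c + 1`, a non-zero `g ∈ LL (D_m - (..)P)`, and compare; or: if `f₀` has its only pole at
`P`, of order `r`, then RRB for `x = f₀` gives `dim LL (m r P) ≥ m r - c`, and `dim LL (n P) ≥ dim LL (m r P)` for `m r ≤ n < (m+1) r`).  `dim LL (n P) - dim LL ((n-1) P) ∈ {0, 1}` (`rra_step`), `dim LL 0 = 1`;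
the number of `n` with difference `0` is bounded, so for large `n` the difference is `1` and there is `f` with `P.ord f = -n`.
-/

namespace Pool.Agent.ESH

open Pool.Agent.Helper11 Polynomial IntermediateField

variable {C Φ : Type*} [Field C] [Field Φ] [Algebra C Φ] [FunField C Φ] [CharZero C] [IsAlgClosed C]


private theorem rrn_num (d : ℕ → ℕ) (c : ℕ) (h1 : ∀ k, d k ≤ d (k + 1)) (h2 : ∀ k, d (k + 1) ≤ d k + 1)
    (h3 : ∀ k, k ≤ d k + c) : ∃ N, ∀ n, N ≤ n → d n < d (n + 1) := by
  have hle : ∀ k, d (k + 1) + c - (k + 1) ≤ d k + c - k := by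
    intro k
    have := h2 k
    have := h3 k
    have := h3 (k + 1)
    omega
  have hmono : ∀ a b, a ≤ b → d b + c - b ≤ d a + c - a := by
    intro a b hab
    induction b, hab using Nat.le_induction with
    | base => exact le_rfl
    | succ b _ ih => exact (hle b).trans ih
  obtain ⟨N, -, hN⟩ := WellFounded.has_min (measure (fun k => d k + c - k)).wf Set.univ
    ⟨0, Set.mem_univ _⟩
  refine ⟨N, fun n hn => ?_⟩
  have a1 := hmono N n hn
  have a2 := hmono N (n + 1) (by omega)
  have a3 : ¬ (d (n + 1) + c - (n + 1) < d N + c - N) := hN (n + 1) (Set.mem_univ _)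
  have a4 : ¬ (d n + c - n < d N + c - N) := hN n (Set.mem_univ _)
  have := h3 n
  have := h3 (n + 1)
  omega

open scoped Classical in
private noncomputable def rrnE (P : Place C Φ) (k : ℕ) : Place C Φ → ℤ := fun v => if v = P then (k : ℤ) else 0

private theorem rrnE_self (P : Place C Φ) (k : ℕ) : rrnE P k P = k := if_pos rfl

private theorem rrnE_ne (P : Place C Φ) (k : ℕ) {v : Place C Φ} (h : v ≠ P) : rrnE P k v = 0 := if_neg h

private theorem rrnE_fin (P : Place C Φ) (k : ℕ) : {v | rrnE P k v ≠ 0}.Finite := by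
  apply (Set.finite_singleton P).subset
  intro v hv
  by_contra hne
  exact hv (rrnE_ne P k (fun h => hne (Set.mem_singleton_iff.mpr h)))

open scoped Classical in
private theorem rrnE_succ (P : Place C Φ) (k : ℕ) :
    (fun v => rrnE P k v + if v = P then (1 : ℤ) else 0) = rrnE P (k + 1) := by
  funext v
  by_cases hv : v = P
  · rw [hv, rrnE_self, rrnE_self, if_pos rfl]
    push_cast
    ring
  · rw [rrnE_ne P k hv, rrnE_ne P (k + 1) hv, if_neg hv, add_zero]

private theorem rrn_mono (P : Place C Φ) {k l : ℕ} (h : k ≤ l) : LL (rrnE P k) ≤ LL (rrnE P l) := by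
  intro f hf v
  refine v.ge_anti ?_ (hf v)
  by_cases hv : v = P
  · rw [hv, rrnE_self, rrnE_self]
    omega
  · rw [rrnE_ne P k hv, rrnE_ne P l hv]

theorem rrn (P : Place C Φ) : ∃ N : ℕ, ∀ n : ℕ, N ≤ n → ∃ f : Φ, P.ord f = -(n : ℤ) ∧
    ∀ Q : Place C Φ, Q ≠ P → f ∈ Q.ge 0 := by
  classical
  obtain ⟨x, hx, hxQ⟩ := rie P
  have hfd := FunField.finiteDimensional_adjoin hx
  have hn : 0 < Module.finrank C⟮x⟯ Φ := Module.finrank_pos
  have hx0 : x ≠ 0 := by
    rintro rfl
    exact hx isAlgebraic_zero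
  have hQ : ∀ Q : Place C Φ, Q ≠ P → max 0 (-Q.ord x) = 0 := by
    intro Q hQ
    have h1 := Q.le_ord_of_mem (hxQ Q hQ) hx0
    exact max_eq_left (by omega)
  have hdeg := finsum_neg_ord hx
  rw [finsum_eq_single _ P hQ] at hdeg
  obtain ⟨r, hr⟩ : ∃ r, r = Module.finrank C⟮x⟯ Φ := ⟨_, rfl⟩
  rw [← hr] at hdeg hn
  obtain ⟨c, hc⟩ := rrb x hx
  rw [← hr] at hc
  have hfinE : ∀ k, FiniteDimensional C (LL (rrnE P k)) := fun k => rra_fin _ (rrnE_fin P k)
  have hEm : ∀ m : ℕ, (fun v : Place C Φ => (m : ℤ) * max 0 (-v.ord x)) = rrnE P (m * r) := by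
    intro m
    funext v
    by_cases hv : v = P
    · rw [hv, rrnE_self, hdeg]
      push_cast
      ring
    · rw [rrnE_ne P _ hv, hQ v hv, mul_zero]
  obtain ⟨N, hN⟩ := rrn_num (fun k => Module.finrank C (LL (rrnE P k))) (r + c)
    (fun k => by
      have := hfinE (k + 1)
      exact Submodule.finrank_mono (rrn_mono P (Nat.le_succ k)))
    (fun k => by
      have := hfinE k
      have h1 := (rra_step (rrnE P k) P).2
      rwa [rrnE_succ] at h1)
    (fun k => by
      have h1 := hc (k / r)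
      rw [hEm] at h1
      have := hfinE k
      have h2 : Module.finrank C (LL (rrnE P (k / r * r))) ≤ Module.finrank C (LL (rrnE P k)) :=
        Submodule.finrank_mono (rrn_mono P (Nat.div_mul_le_self k r))
      have h3 := Nat.div_add_mod k r
      have h4 := Nat.mod_lt k hn
      have h5 : ((k / r * r : ℕ) : ℤ) - c ≤ Module.finrank C (LL (rrnE P (k / r * r))) := by
        push_cast
        exact_mod_cast h1
      rw [mul_comm] at h3
      omega)
  refine ⟨N + 1, fun n hn' => ?_⟩
  obtain ⟨m, rfl⟩ : ∃ m, n = m + 1 := ⟨n - 1, by omega⟩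
  have h1 := hN m (by omega)
  have hex : ∃ f ∈ LL (rrnE P (m + 1)), f ∉ LL (rrnE P m) := by
    by_contra hcon
    push Not at hcon
    have := hfinE m
    have h2 : Module.finrank C (LL (rrnE P (m + 1))) ≤ Module.finrank C (LL (rrnE P m)) :=
      Submodule.finrank_mono hcon
    omega
  obtain ⟨f, hf, hf'⟩ := hex
  have hfQ : ∀ Q : Place C Φ, Q ≠ P → f ∈ Q.ge 0 := by
    intro Q hQ
    have h2 := hf Q
    rwa [rrnE_ne P _ hQ, neg_zero] at h2
  refine ⟨f, ?_, hfQ⟩
  have h3 : f ∉ P.ge (-(m : ℤ)) := by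
    intro h4
    apply hf'
    intro v
    by_cases hv : v = P
    · rw [hv, rrnE_self]
      exact h4
    · rw [rrnE_ne P _ hv, neg_zero]
      exact hfQ v hv
  have h5 := hf P
  rw [rrnE_self] at h5
  have hf0 : f ≠ 0 := by
    rintro rfl
    exact h3 (zero_mem _)
  have h6 := P.le_ord_of_mem h5 hf0
  have h7 : ¬ (-(m : ℤ)) ≤ P.ord f := fun h => h3 (P.mem_ge_of_le h)
  push_cast at h6 ⊢
  omega

end Pool.Agent.ESH
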