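import Pool.Agent.ESH.DefsH
import Pool.Agent.ESH.GTB
import Pool.Agent.ESH.FXR

/-!
# ESH / RST: ramification index and stabiliser

`χ(g)` = value at `R` of `g τ/τ`, `τ` with `R.ord τ = 1`: a homomorphism of the stabiliser `S` into `C^*` (independent of `τ`), injective (`fxr`: elements of finite order); so `S` is cyclic of order `s`.
`rst_dvd`: `f = τ^e y`, `y` of order `0`, `g f = f` gives `χ(g)^e = 1` for all `g ∈ S`, so `s ∣ e`.
`rst_ex`: `gta_one`: `f` with `R.ord f = 1` and `R.ord (g f) = 0` for `g ∈ Γ \ S` (order `0` at the conjugates of `R` different from `R`); the norm `∏_{g ∈ Γ} g f` has order `s` at `R`.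
-/

namespace Pool.Agent.ESH

open Pool.Agent.Helper11 Polynomial IntermediateField

variable {C Φ : Type*} [Field C] [Field Φ] [Algebra C Φ] [FunField C Φ] [CharZero C] [IsAlgClosed C]


/-- the stabiliser of the place -/
private def rstS (Γ : Subgroup (Φ ≃ₐ[C] Φ)) (R : Place C Φ) : Subgroup (Φ ≃ₐ[C] Φ) where
  carrier := {g | g ∈ Γ ∧ Fixes g R}
  mul_mem' := by
    rintro a b ⟨ha, ha'⟩ ⟨hb, hb'⟩
    refine ⟨Γ.mul_mem ha hb, fun f => ?_⟩
    rw [AlgEquiv.mul_apply, ha', hb']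
  one_mem' := ⟨Γ.one_mem, fun f => by rw [AlgEquiv.one_apply]⟩
  inv_mem' := by
    rintro a ⟨ha, ha'⟩
    refine ⟨Γ.inv_mem ha, fun f => ?_⟩
    have h := ha' (a.symm f)
    rw [AlgEquiv.apply_symm_apply] at h
    exact h.symm

private theorem rst_u (R : Place C Φ) {g : Φ ≃ₐ[C] Φ} (hg : Fixes g R) :
    g R.unif / R.unif ∈ R.ge 0 ∧ g R.unif ≠ 0 := by
  have h0 : g R.unif ≠ 0 := by
    rw [Ne, map_eq_zero_iff g g.injective]
    exact R.unif_ne_zero
  refine ⟨R.mem_ge_of_le ?_, h0⟩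
  rw [R.ord_div h0 R.unif_ne_zero, hg, sub_self]

private theorem rst_one (R : Place C Φ) : ev R (1 : Φ) = 1 := by
  have h := evl_const R (1 : C)
  rwa [map_one] at h

/-- the character of the stabiliser -/
private noncomputable def rstX (Γ : Subgroup (Φ ≃ₐ[C] Φ)) (R : Place C Φ) : rstS Γ R →* C where
  toFun g := ev R (g.1 R.unif / R.unif)
  map_one' := by
    rw [OneMemClass.coe_one, AlgEquiv.one_apply, div_self R.unif_ne_zero]
    exact rst_one R
  map_mul' g h := by
    have hg := rst_u R g.2.2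
    have hh := rst_u R h.2.2
    have h1 := fxr_ev g.1 R g.2.2 hh.1
    have h2 : (g * h).1 R.unif / R.unif =
        g.1 (h.1 R.unif / R.unif) * (g.1 R.unif / R.unif) := by
      rw [Subgroup.coe_mul, AlgEquiv.mul_apply, map_div₀]
      have := hg.2
      field_simp
    rw [h2, evl_mul R h1.1 hg.1, h1.2, mul_comm]

private theorem rst_fin (Γ : Subgroup (Φ ≃ₐ[C] Φ)) [Finite Γ] (R : Place C Φ) :
    Finite (rstS Γ R) :=
  Finite.of_injective (fun g : rstS Γ R => (⟨g.1, g.2.1⟩ : Γ)) fun a b h =>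
    Subtype.ext (congrArg (fun z : Γ => z.1) h)

private theorem rst_inj (Γ : Subgroup (Φ ≃ₐ[C] Φ)) [Finite Γ] (R : Place C Φ) :
    Function.Injective (rstX Γ R) := by
  have hf := rst_fin Γ R
  have key : ∀ g : rstS Γ R, rstX Γ R g = 1 → g = 1 := by
    intro g hg
    by_contra hne
    have h1 : (g.1 : Φ ≃ₐ[C] Φ) ≠ 1 := fun h => hne (Subtype.ext h)
    have h2 : (g.1 : Φ ≃ₐ[C] Φ) ^ Nat.card (rstS Γ R) = 1 := by
      have := pow_card_eq_one' (x := g)
      exact congrArg Subtype.val this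
    exact fxr g.1 _ Nat.card_pos h2 h1 R g.2.2 R.unif R.ord_unif hg
  intro a b hab
  have h1 : rstX Γ R (a * b⁻¹) = 1 := by
    have h2 : rstX Γ R (b * b⁻¹) = 1 := by rw [mul_inv_cancel, map_one]
    rw [map_mul, hab, ← map_mul, h2]
  have h3 := key _ h1
  exact mul_inv_eq_one.1 h3

theorem rst_dvd (Γ : Subgroup (Φ ≃ₐ[C] Φ)) [Finite Γ] (R : Place C Φ) (f : Φ) (hf : f ≠ 0)
    (h : ∀ g ∈ Γ, g f = f) : (sO Γ R : ℤ) ∣ R.ord f := by
  have hfin := rst_fin Γ R
  have hinj := rst_inj Γ R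
  have hcyc : IsCyclic (rstS Γ R) := isCyclic_of_injective_ringHom (rstX Γ R) hinj
  obtain ⟨g0, hg0⟩ := hcyc.exists_generator
  have hord : orderOf g0 = Nat.card (rstS Γ R) := orderOf_eq_card_of_forall_mem_zpowers hg0
  have hinj' : Function.Injective (rstX Γ R).toHomUnits := by
    intro a b hab
    apply hinj
    have := congrArg (fun u : Cˣ => (u : C)) hab
    exact this
  have h1 : orderOf ((rstX Γ R).toHomUnits g0) = Nat.card (rstS Γ R) := by
    rw [orderOf_injective _ hinj', hord]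
  have h2 : ((rstX Γ R).toHomUnits g0) ^ (R.ord f) = 1 := by
    have hτ := R.unif_ne_zero
    have hu := rst_u R g0.2.2
    obtain ⟨e, he⟩ : ∃ e, e = R.ord f := ⟨_, rfl⟩
    obtain ⟨y, hy⟩ : ∃ y, y = f / R.unif ^ e := ⟨_, rfl⟩
    have hτe : R.unif ^ e ≠ 0 := zpow_ne_zero _ hτ
    have hy0 : y ≠ 0 := by rw [hy]; exact div_ne_zero hf hτe
    have hoy : R.ord y = 0 := by
      rw [hy, R.ord_div hf hτe, R.ord_zpow, R.ord_unif, mul_one, he, sub_self]
    have hyge : y ∈ R.ge 0 := R.mem_ge_of_le hoy.ge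
    have hcy : ev R y ≠ 0 := by
      rw [Ne, evl_zero_iff R hyge]
      intro h3
      have h4 := R.le_ord_of_mem h3 hy0
      rw [hoy] at h4
      omega
    have h3 := fxr_ev g0.1 R g0.2.2 hyge
    have h5 : (g0.1 R.unif / R.unif) ^ e * g0.1 y = y := by
      have h6 : g0.1 y = f / (g0.1 R.unif) ^ e := by
        rw [hy, map_div₀, map_zpow₀, h g0.1 g0.2.1]
      have h7 : g0.1 R.unif ^ e ≠ 0 := zpow_ne_zero _ hu.2
      rw [h6, hy, div_zpow]
      field_simp
    have h8 : ∀ n : ℤ, (g0.1 R.unif / R.unif) ^ n ∈ R.ge 0 ∧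
        ev R ((g0.1 R.unif / R.unif) ^ n) = (ev R (g0.1 R.unif / R.unif)) ^ n := by
      have hev : ev R (g0.1 R.unif / R.unif) ≠ 0 := by
        have := ((rstX Γ R).toHomUnits g0).ne_zero
        exact this
      have hnat : ∀ n : ℕ, (g0.1 R.unif / R.unif) ^ n ∈ R.ge 0 ∧
          ev R ((g0.1 R.unif / R.unif) ^ n) = (ev R (g0.1 R.unif / R.unif)) ^ n := by
        intro n
        induction n with
        | zero =>
          rw [pow_zero, pow_zero]
          exact ⟨R.one_mem_ge, rst_one R⟩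
        | succ n ih =>
          refine ⟨?_, ?_⟩
          · have h9 := R.mul_mem_ge ih.1 hu.1
            rw [add_zero] at h9
            rw [pow_succ]
            exact h9
          · rw [pow_succ, evl_mul R ih.1 hu.1, ih.2, pow_succ]
      intro n
      rcases n with n | n
      · rw [Int.ofNat_eq_natCast, zpow_natCast, zpow_natCast]
        exact hnat n
      · rw [zpow_negSucc, zpow_negSucc]
        have h9 := hnat (n + 1)
        have h10 := evl_inv R h9.1 (by rw [h9.2]; exact pow_ne_zero _ hev)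
        exact ⟨h10.1, by rw [h10.2, h9.2]⟩
    have h9 : (ev R (g0.1 R.unif / R.unif)) ^ e * ev R y = ev R y := by
      have h10 := congrArg (ev R) h5
      rw [evl_mul R (h8 e).1 h3.1, (h8 e).2, h3.2] at h10
      exact h10
    have h11 : (ev R (g0.1 R.unif / R.unif)) ^ e = 1 := by
      have h12 : (ev R (g0.1 R.unif / R.unif)) ^ e * ev R y = 1 * ev R y := by rw [h9, one_mul]
      exact mul_right_cancel₀ hcy h12
    rw [← he]
    apply Units.ext
    rw [Units.val_zpow_eq_zpow_val, Units.val_one]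
    exact h11
  have h3 := orderOf_dvd_iff_zpow_eq_one.2 h2
  rw [h1] at h3
  exact h3

theorem rst_ex (Γ : Subgroup (Φ ≃ₐ[C] Φ)) [Finite Γ] (R : Place C Φ) :
    ∃ f : Φ, (∀ g ∈ Γ, g f = f) ∧ R.ord f = sO Γ R := by
  classical
  have := Fintype.ofFinite Γ
  have hpl : ∀ g : Φ ≃ₐ[C] Φ, ∃ P : Place C Φ, ∀ f, P.ord f = R.ord (g f) := by
    intro g
    refine ⟨plMap (g.symm : Φ ≃+* Φ) (RingEquiv.refl C) (fun c => g.symm.commutes c) R,
      fun f => rfl⟩
  choose pl hpl using hpl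
  obtain ⟨S, hS⟩ : ∃ S : Finset (Place C Φ), S =
      ((Finset.univ : Finset Γ).filter (fun g => ¬ Fixes g.1 R)).image (fun g => pl g.1) :=
    ⟨_, rfl⟩
  have hR : R ∉ S := by
    rw [hS, Finset.mem_image]
    rintro ⟨g, hg, hgR⟩
    rw [Finset.mem_filter] at hg
    apply hg.2
    intro f
    rw [← hpl, hgR]
  obtain ⟨f, hf1, hf2⟩ := gta_one R S hR
  have hf0 : f ≠ 0 := R.ne_zero_of_ord_ne_zero (by rw [hf1]; norm_num)
  refine ⟨∏ g : Γ, g.1 f, ?_, ?_⟩
  · intro g hg
    rw [map_prod]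
    refine Fintype.prod_bijective (fun a : Γ => (⟨g, hg⟩ : Γ) * a)
      (Group.mulLeft_bijective (⟨g, hg⟩ : Γ)) _ _ fun a => ?_
    rfl
  · rw [R.ord_prod _ _ (fun g _ => by
      rw [Ne, map_eq_zero_iff g.1 g.1.injective]
      exact hf0)]
    have h1 : ∀ g : Γ, R.ord (g.1 f) = if Fixes g.1 R then 1 else 0 := by
      intro g
      split_ifs with h
      · rw [h f, hf1]
      · rw [← hpl]
        apply hf2
        rw [hS]
        exact Finset.mem_image.2 ⟨g, Finset.mem_filter.2 ⟨Finset.mem_univ _, h⟩, rfl⟩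
    rw [Finset.sum_congr rfl fun g _ => h1 g, Finset.sum_boole]
    have h2 : sO Γ R = ((Finset.univ : Finset Γ).filter (fun g => Fixes g.1 R)).card := by
      unfold sO
      rw [← Fintype.card_subtype, ← Nat.card_eq_fintype_card]
      refine Nat.card_congr ⟨fun g => ⟨⟨g.1, g.2.1⟩, g.2.2⟩, fun g => ⟨g.1.1, g.1.2, g.2⟩, ?_, ?_⟩
      · intro g
        rfl
      · intro g
        rfl
    rw [h2]

end Pool.Agent.ESH
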