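import Pool.Agent.ESH.DefsS

/-!
# ESH / SCA: standard smooth affine neighbourhoods over O

`SmoothOfRelativeDimension` gives affine opens `U ⊆ Spec O`, `V ⊆ X` with `x ∈ V`, `V ≤ f⁻¹ U`, standard smooth of relative dimension `1`.
`U` contains the closed point of the local scheme `Spec O`, so `U = ⊤`.  Compose with the isomorphism `ΓSpecIso`.
-/

namespace Pool.Agent.ESH

open CategoryTheory AlgebraicGeometry IsLocalRing
open scoped TensorProduct

universe u

variable {O : Type u} [CommRing O] [IsDomain O] [IsDiscreteValuationRing O] {X : Scheme.{u}}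
  (f : X ⟶ Spec (.of O))


/-- the structure map of the sections over `V` -/
noncomputable def secMap (V : X.Opens) : O →+* Γ(X, V) :=
  (X.presheaf.map (homOfLE (le_top : V ≤ ⊤)).op).hom.comp
    ((Scheme.Hom.appTop f).hom.comp (Scheme.ΓSpecIso (.of O)).inv.hom)

theorem sca [SmoothOfRelativeDimension 1 f] (x : X) (hx : f x = closedPoint O) :
    ∃ V : X.Opens, IsAffineOpen V ∧ x ∈ V ∧ (secMap f V).IsStandardSmoothOfRelativeDimension 1 := by
  obtain ⟨U, hU, V, hV, hxV, e, hf⟩ :=
    SmoothOfRelativeDimension.exists_isStandardSmoothOfRelativeDimension (n := 1) (f := f) x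
  have hxU : (closedPoint O) ∈ U := by
    rw [← hx]
    exact e hxV
  have hUt : U = ⊤ := (IsLocalRing.closed_point_mem_iff (R := O)).1 hxU
  subst hUt
  refine ⟨V, hV, hxV, ?_⟩
  have h1 : secMap f V = (f.appLE ⊤ V e).hom.comp (Scheme.ΓSpecIso (.of O)).inv.hom := rfl
  rw [h1]
  have h2 : (Scheme.ΓSpecIso (.of O)).inv.hom =
      ((Scheme.ΓSpecIso (.of O)).symm.commRingCatIsoToRingEquiv : O →+* _) := rfl
  rw [h2]
  exact hf.comp (RingHom.IsStandardSmoothOfRelativeDimension.equiv _)

end Pool.Agent.ESH
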