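import Pool.Agent.ESH.SCA

/-!
# ESH / SCB: local rings in an affine chart

`X.presheaf.stalk x` is the localization of `Γ(X, V)` at the prime ideal of `x` (`IsAffineOpen.isLocalization_stalk`), and the map
`Γ(X, V) → X.functionField` factors through the stalk (`functionField_isScalarTower`).  `scb_frac`:
`functionField_isFractionRing_of_isAffineOpen`.  `scb_le`: the point `f x` corresponds to the preimage of the prime of `x` in `O`.
`scb_const`: naturality of germs.
-/

namespace Pool.Agent.ESH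

open CategoryTheory AlgebraicGeometry IsLocalRing
open scoped TensorProduct

universe u

variable {O : Type u} [CommRing O] [IsDomain O] [IsDiscreteValuationRing O] {X : Scheme.{u}}
  (f : X ⟶ Spec (.of O))


/-- sections over `V` as elements of `F` -/
noncomputable def secF [IsIntegral X] {F : Type*} [Field F] (e : X.functionField ≃+* F) (V : X.Opens) (x : X)
    (hx : x ∈ V) : Γ(X, V) →+* F :=
  (e : X.functionField →+* F).comp
    ((algebraMap (X.presheaf.stalk x) X.functionField).comp (X.presheaf.germ V x hx).hom)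

private theorem SCB_secF [IsIntegral X] {F : Type*} [Field F] (e : X.functionField ≃+* F)
    (V : X.Opens) (x : X) (hx : x ∈ V) (y : X) (hy : y ∈ V) (b : Γ(X, V)) :
    secF e V x hx b = e (algebraMap (X.presheaf.stalk y) X.functionField
      (X.presheaf.germ V y hy b)) := by
  have : Nonempty V := ⟨⟨x, hx⟩⟩
  rw [Scheme.algebraMap_germ_eq_germToFunctionField X hy,
    ← Scheme.algebraMap_germ_eq_germToFunctionField X hx]
  rfl

theorem scb_stk [IsIntegral X] {F : Type*} [Field F] (e : X.functionField ≃+* F) (V : X.Opens)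
    (hV : IsAffineOpen V) (x : X) (hx : x ∈ V) (y : X) (hy : y ∈ V) (g : F) :
    g ∈ stk e y ↔ ∃ b s : Γ(X, V), s ∉ (hV.primeIdealOf ⟨y, hy⟩).asIdeal ∧
      g * secF e V x hx s = secF e V x hx b := by
  let _ := X.presheaf.algebra_section_stalk (⟨y, hy⟩ : V)
  have hloc := hV.isLocalization_stalk ⟨y, hy⟩
  have halg : ∀ b : Γ(X, V), algebraMap Γ(X, V) (X.presheaf.stalk y) b =
      X.presheaf.germ V y hy b := fun b => rfl
  constructor
  · rintro ⟨t, rfl⟩
    obtain ⟨⟨b, s⟩, hbs⟩ := IsLocalization.surj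
      (M := (hV.primeIdealOf ⟨y, hy⟩).asIdeal.primeCompl) t
    refine ⟨b, s, s.2, ?_⟩
    rw [SCB_secF e V x hx y hy, SCB_secF e V x hx y hy, ← halg, ← halg]
    show e (algebraMap _ _ t) * _ = _
    rw [← map_mul, ← map_mul, hbs]
  · rintro ⟨b, s, hs, h⟩
    obtain ⟨u, hu⟩ := IsLocalization.map_units (X.presheaf.stalk y)
      (⟨s, hs⟩ : (hV.primeIdealOf ⟨y, hy⟩).asIdeal.primeCompl)
    rw [SCB_secF e V x hx y hy, SCB_secF e V x hx y hy, ← halg, ← halg] at h
    refine ⟨algebraMap Γ(X, V) (X.presheaf.stalk y) b * ((u⁻¹ : (X.presheaf.stalk y)ˣ) :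
      X.presheaf.stalk y), ?_⟩
    show e (algebraMap _ _ _) = g
    rw [map_mul, map_mul, ← h, ← hu, mul_assoc, ← map_mul, ← map_mul, Units.mul_inv, map_one,
      map_one, mul_one]

theorem scb_frac [IsIntegral X] {F : Type*} [Field F] (e : X.functionField ≃+* F) (V : X.Opens)
    (hV : IsAffineOpen V) (x : X) (hx : x ∈ V) :
    letI := (secF e V x hx).toAlgebra
    IsFractionRing Γ(X, V) F := by
  letI := (secF e V x hx).toAlgebra
  have : Nonempty V := ⟨⟨x, hx⟩⟩
  have h1 := functionField_isFractionRing_of_isAffineOpen X V hV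
  let e' : X.functionField ≃ₐ[Γ(X, V)] F := AlgEquiv.ofRingEquiv (f := e) (by
    intro b
    show e (X.germToFunctionField V b) = secF e V x hx b
    rw [SCB_secF e V x hx x hx, Scheme.algebraMap_germ_eq_germToFunctionField X hx])
  exact IsLocalization.isLocalization_of_algEquiv _ e'

theorem scb_le (V : X.Opens) (hV : IsAffineOpen V) (y : X) (hy : y ∈ V) (hyc : f y = closedPoint O) (c : O)
    (hc : c ∈ maximalIdeal O) : secMap f V c ∈ (hV.primeIdealOf ⟨y, hy⟩).asIdeal := by
  let _ := X.presheaf.algebra_section_stalk (⟨y, hy⟩ : V)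
  have hloc := hV.isLocalization_stalk ⟨y, hy⟩
  by_contra hcon
  have hu : IsUnit (X.presheaf.germ V y hy (secMap f V c)) :=
    IsLocalization.map_units (X.presheaf.stalk y)
      (⟨secMap f V c, hcon⟩ : (hV.primeIdealOf ⟨y, hy⟩).asIdeal.primeCompl)
  have h1 : y ∈ X.basicOpen (secMap f V c) := (Scheme.mem_basicOpen X _ y hy).2 hu
  have h2 : secMap f V c = f.appLE ⊤ V le_top ((Scheme.ΓSpecIso (.of O)).inv c) := rfl
  rw [h2, Scheme.basicOpen_appLE] at h1
  have h3 : f y ∈ (Spec (.of O)).basicOpen ((Scheme.ΓSpecIso (.of O)).inv c) := h1.2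
  rw [hyc, basicOpen_eq_of_affine] at h3
  exact h3 hc

theorem scb_const [IsIntegral X] {F : Type*} [Field F] (e : X.functionField ≃+* F) (V : X.Opens) (x : X)
    (hx : x ∈ V) (c : O) : secF e V x hx (secMap f V c) = e (constMap f c) := by
  have : Nonempty V := ⟨⟨x, hx⟩⟩
  rw [SCB_secF e V x hx x hx, Scheme.algebraMap_germ_eq_germToFunctionField X hx]
  congr 1
  show X.presheaf.germ V _ _ (X.presheaf.map (homOfLE (le_top : V ≤ ⊤)).op _) = _
  rw [X.presheaf.germ_res_apply]
  rfl

end Pool.Agent.ESH
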