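import Pool.Agent.ESH.SCB

/-!
# ESH / SCD: geometric integrality of the special fibre in a chart

Let `k` be a field over `O` killing the maximal ideal and `y ∈ V` a point of the special fibre.  The pullback of `X` along `Spec k → Spec O` is
integral; the pullback of the affine open `V` (isomorphic to `Spec Γ(X, V)`, whose structure map to `Spec O` is given by `secMap`) is
an open subscheme of it, and is isomorphic to `Spec (k ⊗ Γ(X, V))`.  It is not empty: `Γ(X, V)/𝔪Γ(X, V) ≠ 0` as
the prime of `y` contains `𝔪` (`scb_le`), and `k ⊗_O Γ(X, V) = k ⊗_{O/𝔪} Γ(X, V)/𝔪Γ(X, V)` is faithfully flat over it.  So it is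
integral and `k ⊗ Γ(X, V)` is a domain.
-/

namespace Pool.Agent.ESH

open CategoryTheory AlgebraicGeometry IsLocalRing Limits
open scoped TensorProduct

universe u

variable {O : Type u} [CommRing O] [IsDomain O] [IsDiscreteValuationRing O] {X : Scheme.{u}}
  (f : X ⟶ Spec (.of O))

private theorem fromSpec_comp (V : X.Opens) (hV : IsAffineOpen V) :
    hV.fromSpec ≫ f = Spec.map (CommRingCat.ofHom (secMap f V)) := by
  apply ext_of_isAffine
  have key : ∀ {R S : CommRingCat.{u}} (φ : R ⟶ S), (Spec.map φ).appTop =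
      (Scheme.ΓSpecIso R).hom ≫ φ ≫ (Scheme.ΓSpecIso S).inv := by
    intro R S φ
    rw [Scheme.ΓSpecIso_inv_naturality φ, Iso.hom_inv_id_assoc]
  have h1 : (Spec.map (CommRingCat.ofHom (secMap f V))).appTop =
      (Scheme.ΓSpecIso (.of O)).hom ≫ CommRingCat.ofHom (secMap f V) ≫ (Scheme.ΓSpecIso Γ(X, V)).inv :=
    key (S := Γ(X, V)) (CommRingCat.ofHom (secMap f V))
  rw [h1, Scheme.Hom.comp_appTop]
  have h2 : hV.fromSpec.appTop = X.presheaf.map (homOfLE (le_top : V ≤ ⊤)).op ≫
      (Scheme.ΓSpecIso Γ(X, V)).inv := by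
    have := hV.fromSpec_app_of_le ⊤ le_top
    rw [Scheme.Hom.appTop, this]
    congr 1
  rw [h2]
  have h3 : CommRingCat.ofHom (secMap f V) = (Scheme.ΓSpecIso (.of O)).inv ≫ f.appTop ≫
    X.presheaf.map (homOfLE (le_top : V ≤ ⊤)).op := rfl
  rw [h3, Category.assoc, Category.assoc, Iso.hom_inv_id_assoc]

theorem scd [GeometricallyIntegral f] (V : X.Opens) (hV : IsAffineOpen V) (y : X) (hy : y ∈ V)
    (hyc : f y = closedPoint O) (k : Type u) [Field k] [Algebra O k]
    (hk : ∀ c ∈ maximalIdeal O, algebraMap O k c = 0) :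
    letI := (secMap f V).toAlgebra
    IsDomain (k ⊗[O] Γ(X, V)) := by
  let _ := (secMap f V).toAlgebra
  let g : Spec (.of k) ⟶ Spec (.of O) := Spec.map (CommRingCat.ofHom (algebraMap O k))
  have hZ : IsIntegral (pullback g f) :=
    pullback_of_geometrically' (GeometricallyIntegral.geometrically_isIntegral (f := f)) k g
  let j : pullback g (hV.fromSpec ≫ f) ⟶ pullback g f :=
    pullback.map g (hV.fromSpec ≫ f) g f (𝟙 _) hV.fromSpec (𝟙 _) (by simp) (by simp)
  have hj : IsOpenImmersion j := inferInstance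
  have hne : Nonempty ↥(pullback g (hV.fromSpec ≫ f)) := by
    have hx : g (closedPoint k) = closedPoint O := by
      apply PrimeSpectrum.ext
      change Ideal.comap (algebraMap O k) (maximalIdeal k) = maximalIdeal O
      refine ((maximalIdeal.isMaximal O).eq_of_le (Ideal.IsPrime.ne_top inferInstance) ?_).symm
      intro c hc
      rw [Ideal.mem_comap, hk c hc]
      exact zero_mem _
    have hy' : (hV.fromSpec ≫ f) (hV.primeIdealOf ⟨y, hy⟩) = closedPoint O := by
      have := hV.fromSpec_primeIdealOf ⟨y, hy⟩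
      exact (congrArg f this).trans hyc
    obtain ⟨z, -⟩ := Scheme.Pullback.exists_preimage_pullback (f := g) (g := hV.fromSpec ≫ f) _ _ (hx.trans hy'.symm)
    exact ⟨z⟩
  have hW : IsIntegral (pullback g (hV.fromSpec ≫ f)) := isIntegral_of_isOpenImmersion j
  have e : pullback g (hV.fromSpec ≫ f) ≅ Spec (.of (k ⊗[O] Γ(X, V))) := by
    rw [fromSpec_comp]
    exact pullbackSpecIso O k Γ(X, V)
  have : Nonempty (Spec (.of (k ⊗[O] Γ(X, V)))) := ⟨e.hom hne.some⟩
  have : IsIntegral (Spec (.of (k ⊗[O] Γ(X, V)))) := isIntegral_of_isOpenImmersion e.inv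
  exact (affine_isIntegral_iff _).1 this

end Pool.Agent.ESH
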