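import Pool.Agent.ESH.SCD
import Pool.Agent.ESH.CPA

/-!
# ESH / SCE: the prime ideal of the generic point of the special fibre

`η ∈ V` because `η ⤳ x` and `V` is open.  The prime of `η` contains the maximal ideal of `O` (`scb_le`).  Conversely the ideal
`sfI O Γ(X, V)` is prime (SCD with `k = ResidueField O`: `k ⊗ Γ(X, V) = Γ(X, V)/sfI`); it is the prime of a point `y ∈ V`
(`hV.fromSpec`), and `f y` is the closed point (its prime ideal in `O` contains, so equals, the maximal ideal), so `η ⤳ y`, i.e.
the prime of `η` is contained in that of `y` (`IsAffineOpen.primeIdealOf` respects specialization; `PrimeSpectrum.le_iff_specializes`).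
-/

namespace Pool.Agent.ESH

open CategoryTheory AlgebraicGeometry IsLocalRing
open scoped TensorProduct

universe u

variable {O : Type u} [CommRing O] [IsDomain O] [IsDiscreteValuationRing O] {X : Scheme.{u}}
  (f : X ⟶ Spec (.of O))

/-- the point `f y` of `Spec O` is the preimage of the prime ideal of `y` -/
private theorem sce_pt (V : X.Opens) (hV : IsAffineOpen V) (y : X) (hy : y ∈ V) :
    (f y : PrimeSpectrum O) = PrimeSpectrum.comap (secMap f V) (hV.primeIdealOf ⟨y, hy⟩) := by
  have h1 := IsAffineOpen.comap_primeIdealOf_appLE (f := f) (x := y) ⊤ (isAffineOpen_top (Spec (.of O))) V hV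
    le_top hy
  have h2 := (isAffineOpen_top (Spec (.of O))).fromSpec_primeIdealOf ⟨f y, trivial⟩
  rw [← h1, IsAffineOpen.fromSpec_top, Scheme.isoSpec_Spec_inv] at h2
  change _ = f y at h2
  rw [← h2]
  change PrimeSpectrum.comap _ (PrimeSpectrum.comap _ _) = _
  rw [← PrimeSpectrum.comap_comp_apply]
  rfl

/-- the ideal of the special fibre is prime -/
private theorem sce_prime {B : Type u} [CommRing B] (g : O →+* B)
    (h : letI := g.toAlgebra; IsDomain (ResidueField O ⊗[O] B)) : ((maximalIdeal O).map g).IsPrime := by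
  let : Algebra O B := g.toAlgebra
  have hd : IsDomain (ResidueField O ⊗[O] B) := h
  set J : Ideal B := (maximalIdeal O).map g with hJ
  have hJk : ∀ b ∈ J, (1 : ResidueField O) ⊗ₜ[O] b = 0 := by
    intro b hb
    have hle : J ≤ RingHom.ker (Algebra.TensorProduct.includeRight : B →ₐ[O] ResidueField O ⊗[O] B) := by
      rw [hJ, Ideal.map_le_iff_le_comap]
      intro c hc
      change (1 : ResidueField O) ⊗ₜ[O] (algebraMap O B c) = 0
      rw [Algebra.algebraMap_eq_smul_one, ← TensorProduct.smul_tmul, ← Algebra.algebraMap_eq_smul_one,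
        ResidueField.algebraMap_eq, (residue_eq_zero_iff c).2 hc, TensorProduct.zero_tmul]
    exact hle hb
  let u : ResidueField O →ₐ[O] B ⧸ J :=
    { Ideal.Quotient.lift (maximalIdeal O) ((Ideal.Quotient.mk J).comp g) (by
        intro c hc
        rw [RingHom.comp_apply, Ideal.Quotient.eq_zero_iff_mem]
        exact Ideal.mem_map_of_mem _ hc) with
      commutes' := fun c => rfl }
  let v : B →ₐ[O] B ⧸ J := { Ideal.Quotient.mk J with commutes' := fun c => rfl }
  let ψ : ResidueField O ⊗[O] B →ₐ[O] B ⧸ J := Algebra.TensorProduct.productMap u v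
  have hψ : ∀ b : B, (1 : ResidueField O) ⊗ₜ[O] b = 0 → b ∈ J := by
    intro b hb
    have h1 : ψ ((1 : ResidueField O) ⊗ₜ[O] b) = Ideal.Quotient.mk J b := by
      rw [Algebra.TensorProduct.productMap_apply_tmul, map_one, one_mul]
      rfl
    rw [hb, map_zero] at h1
    exact Ideal.Quotient.eq_zero_iff_mem.1 h1.symm
  refine ⟨?_, ?_⟩
  · intro ht
    have h1 := hJk 1 (by rw [ht]; trivial)
    exact one_ne_zero h1
  · intro x y hxy
    have h1 := hJk _ hxy
    have h2 : (1 : ResidueField O) ⊗ₜ[O] (x * y) = (1 ⊗ₜ x) * (1 ⊗ₜ y) := by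
      rw [Algebra.TensorProduct.tmul_mul_tmul, one_mul]
    rw [h2] at h1
    rcases mul_eq_zero.1 h1 with h3 | h3
    · exact Or.inl (hψ _ h3)
    · exact Or.inr (hψ _ h3)

theorem sce [GeometricallyIntegral f] (η : X) (hη : f η = closedPoint O)
    (hs : ∀ x : X, f x = closedPoint O → η ⤳ x) (V : X.Opens) (hV : IsAffineOpen V) (x : X) (hx : x ∈ V)
    (hxc : f x = closedPoint O) :
    ∃ hηV : η ∈ V, (hV.primeIdealOf ⟨η, hηV⟩).asIdeal = (maximalIdeal O).map (secMap f V) := by
  have hηV : η ∈ V := (hs x hxc).mem_open V.2 hx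
  refine ⟨hηV, le_antisymm ?_ ?_⟩
  · have hp : ((maximalIdeal O).map (secMap f V)).IsPrime := sce_prime (secMap f V)
      (scd f V hV x hx hxc (ResidueField O) (fun c hc => by
        rw [ResidueField.algebraMap_eq, (residue_eq_zero_iff c).2 hc]))
    set P : PrimeSpectrum Γ(X, V) := ⟨_, hp⟩ with hP
    set y : X := hV.fromSpec P with hy
    have hyV : y ∈ V := by
      have h1 : y ∈ Set.range hV.fromSpec := ⟨P, rfl⟩
      rw [hV.range_fromSpec] at h1
      exact h1
    have hinj : Function.Injective hV.fromSpec := hV.fromSpec.isOpenEmbedding.injective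
    have hyP : hV.primeIdealOf ⟨y, hyV⟩ = P := hinj (hV.fromSpec_primeIdealOf ⟨y, hyV⟩)
    have hyc : f y = closedPoint O := by
      have h1 := sce_pt f V hV y hyV
      rw [hyP] at h1
      rw [h1]
      have h2 : (maximalIdeal O) ≤ (PrimeSpectrum.comap (secMap f V) P).asIdeal := by
        intro c hc
        exact Ideal.mem_map_of_mem _ hc
      have h3 := (maximalIdeal.isMaximal O).eq_of_le (PrimeSpectrum.comap (secMap f V) P).2.ne_top h2
      exact PrimeSpectrum.ext h3.symm
    have hsp := hs y hyc
    have h1 : hV.primeIdealOf ⟨η, hηV⟩ ⤳ P := by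
      refine hV.fromSpec.isOpenEmbedding.isInducing.specializes_iff.1 ?_
      rw [hV.fromSpec_primeIdealOf]
      exact hsp
    exact (PrimeSpectrum.le_iff_specializes _ _).2 h1
  · rw [Ideal.map_le_iff_le_comap]
    intro c hc
    exact scb_le f V hV η hηV hη c hc

end Pool.Agent.ESH
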