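import Pool.Agent.ESH.SCE

/-!
# ESH / SCT: charts at the points of the special fibre

`V` from SCA; `B = Γ(X, V)` with the algebra structures `secMap f V` and `secF e V x hx`; `q` the prime of `x`.  `IsChart`: tower = `scb_const`
and `he`; frac = `scb_frac`; le = `scb_le`; geo = `scd`.  The local rings: `scb_stk`; for `η` with SCE.  Injectivity: if the primes of
`x` and `η` agree then `x = η` (`hV.primeIdealOf` is injective: `fromSpec_primeIdealOf`).
-/

namespace Pool.Agent.ESH

open CategoryTheory AlgebraicGeometry IsLocalRing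
open scoped TensorProduct

universe u

variable {O : Type u} [CommRing O] [IsDomain O] [IsDiscreteValuationRing O] {X : Scheme.{u}}
  (f : X ⟶ Spec (.of O))


theorem sct [SmoothOfRelativeDimension 1 f] [GeometricallyIntegral f] [IsIntegral X] {F : Type u}
    [Field F] [Algebra O F] (e : X.functionField ≃+* F) (he : ∀ c : O, e (constMap f c) = algebraMap O F c)
    (η : X) (hη : f η = closedPoint O) (hs : ∀ x : X, f x = closedPoint O → η ⤳ x) (x : X)
    (hx : f x = closedPoint O) :
    ∃ (B : Type u) (_ : CommRing B) (_ : IsDomain B) (_ : Algebra O B) (_ : Algebra B F) (q : Ideal B)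
      (_ : q.IsPrime) (_ : (sfI O B).IsPrime),
      IsChart O B F q ∧ stk e x = locP F q ∧ stk e η = locP F (sfI O B) ∧ (q = sfI O B → x = η) := by
  obtain ⟨V, hV, hxV, hsm⟩ := sca f x hx
  obtain ⟨hηV, hηq⟩ := sce f η hη hs V hV x hxV hx
  haveI hne : Nonempty V := ⟨⟨x, hxV⟩⟩
  have hdom : IsDomain Γ(X, V) := inferInstance
  have hprime : ((maximalIdeal O).map (secMap f V)).IsPrime := by
    rw [← hηq]
    exact (hV.primeIdealOf ⟨η, hηV⟩).isPrime
  refine ⟨Γ(X, V), inferInstance, hdom, (secMap f V).toAlgebra, (secF e V x hxV).toAlgebra,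
    (hV.primeIdealOf ⟨x, hxV⟩).asIdeal, (hV.primeIdealOf ⟨x, hxV⟩).isPrime, hprime, ?_, ?_, ?_, ?_⟩
  · letI i1 : Algebra O Γ(X, V) := (secMap f V).toAlgebra
    letI i2 : Algebra Γ(X, V) F := (secF e V x hxV).toAlgebra
    refine @IsChart.mk O Γ(X, V) F _ _ _ _ _ i1 i2 _ _ ?_ ?_ ?_ ?_ ?_ ?_
    · refine IsScalarTower.of_algebraMap_eq fun c => ?_
      change algebraMap O F c = secF e V x hxV (secMap f V c)
      rw [scb_const f e V x hxV, he]
    · exact scb_frac e V hV x hxV
    · exact hsm
    · exact (hV.primeIdealOf ⟨x, hxV⟩).isPrime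
    · change (maximalIdeal O).map (secMap f V) ≤ _
      rw [Ideal.map_le_iff_le_comap]
      intro c hc
      exact scb_le f V hV x hxV hx c hc
    · intro k _ _ hk
      exact scd f V hV x hxV hx k hk
  · ext g
    exact scb_stk e V hV x hxV x hxV g
  · have hηq' : @sfI O Γ(X, V) _ _ _ (secMap f V).toAlgebra = (hV.primeIdealOf ⟨η, hηV⟩).asIdeal := hηq.symm
    ext g
    rw [scb_stk e V hV x hxV η hηV g]
    constructor
    · rintro ⟨b, s, hs', h⟩
      refine ⟨b, s, ?_, h⟩
      intro h2
      apply hs'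
      rw [← hηq']
      exact h2
    · rintro ⟨b, s, hs', h⟩
      refine ⟨b, s, ?_, h⟩
      intro h2
      apply hs'
      rw [← hηq'] at h2
      exact h2
  · intro h
    have h1 : hV.primeIdealOf ⟨x, hxV⟩ = hV.primeIdealOf ⟨η, hηV⟩ := by
      apply PrimeSpectrum.ext
      rw [hηq]
      exact h
    have h2 := hV.fromSpec_primeIdealOf ⟨x, hxV⟩
    have h3 := hV.fromSpec_primeIdealOf ⟨η, hηV⟩
    rw [h1] at h2
    exact h2.symm.trans h3

end Pool.Agent.ESH
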