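import Pool.Agent.ESH.DefsS

/-!
# ESH / SCV: centres of valuation rings

`scv_centre`: `V₀` contains the image of `O`, so there is a commutative square `Spec F → X` (the generic point, via `e`:
`Spec.map e.. ≫ X.fromSpecStalk (genericPoint X)`), `Spec V₀ → Spec O`; commutativity: `he`.  `UniversallyClosed.eq_valuativeCriterion` gives a lift
`l : Spec V₀ → X`; let `x` be the image of the closed point.  `Scheme.stalkClosedPointTo l : stalk x → V₀` is a local homomorphism, and composed with
`V₀ ⊆ F` it is `e ∘ algebraMap` (both give the generic point: compare with `SpecToEquivOfLocalRing`, or germs).  So `stk e x ⊆ V₀` and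
non-units of the stalk map to non-units of `V₀`.
`scv_sep`: if `Dom (stk e x) V₀`, the local homomorphism `stalk x → V₀` gives a lift `Spec V₀ → Spec (stalk x) → X` of the same square,
sending the closed point to `x`; the same for `y`; the lifts agree (`IsSeparated.valuativeCriterion`), so `x = y`.
`scv_closed`: the map `O → stalk x → F` is the structure map; the point `f x` is the prime of `c ∈ O` mapping into the maximal ideal of the
stalk; `c ∈ 𝔪` maps into `V₀.nonunits`, so its image in the stalk is not a unit (a unit of the stalk is a unit of `V₀`).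
-/

namespace Pool.Agent.ESH

open CategoryTheory AlgebraicGeometry IsLocalRing
open scoped TensorProduct

universe u

variable {O : Type u} [CommRing O] [IsDomain O] [IsDiscreteValuationRing O] {X : Scheme.{u}}
  (f : X ⟶ Spec (.of O))


private noncomputable def cst (x : X) : CommRingCat.of O ⟶ X.presheaf.stalk x :=
  (Scheme.ΓSpecIso (.of O)).inv ≫ f.appTop ≫ X.presheaf.germ ⊤ x trivial

private theorem fromSpecStalk_comp' (x : X) : X.fromSpecStalk x ≫ f = Spec.map (cst f x) := by
  rw [← cancel_mono (Spec (.of O)).toSpecΓ, Category.assoc, Scheme.toSpecΓ_naturality,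
    ← Category.assoc, Scheme.fromSpecStalk_toSpecΓ, ← SpecMap_ΓSpecIso_hom, ← Spec.map_comp,
    ← Spec.map_comp]
  congr 1
  simp [cst]

private theorem cst_alg [IsIntegral X] (x : X) (c : O) :
    algebraMap (X.presheaf.stalk x) X.functionField ((cst f x).hom c) = constMap f c := by
  have h : cst f x ≫ X.presheaf.stalkSpecializes ((genericPoint_spec X).specializes trivial) =
      cst f (genericPoint X) := by
    simp only [cst, Category.assoc, TopCat.Presheaf.germ_stalkSpecializes]
  have h2 := congrArg (fun g => g.hom c) h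
  exact h2

section dom

variable [IsIntegral X] {F : Type u} [Field F] (e : X.functionField ≃+* F)

/-- the local ring of a point in the field `F` -/
private noncomputable def stkHom (x : X) : X.presheaf.stalk x →+* F :=
  (e : X.functionField →+* F).comp (algebraMap (X.presheaf.stalk x) X.functionField)

private theorem stkHom_inj (x : X) : Function.Injective (stkHom e x) := by
  intro a b hab
  have h1 : e (algebraMap (X.presheaf.stalk x) X.functionField a) =
      e (algebraMap (X.presheaf.stalk x) X.functionField b) := hab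
  exact IsFractionRing.injective (X.presheaf.stalk x) X.functionField (e.injective h1)

private theorem stkHom_mem (x : X) (a : X.presheaf.stalk x) : stkHom e x a ∈ stk e x := ⟨a, rfl⟩

private theorem isUnit_of_inv_mem (x : X) (s : X.presheaf.stalk x) (h0 : stkHom e x s ≠ 0)
    (h : (stkHom e x s)⁻¹ ∈ stk e x) : IsUnit s := by
  obtain ⟨s', hs'⟩ := h
  have h1 : stkHom e x (s * s') = stkHom e x 1 := by
    rw [map_mul, map_one]
    change stkHom e x s * stkHom e x s' = 1
    have : stkHom e x s' = (stkHom e x s)⁻¹ := hs'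
    rw [this, mul_inv_cancel₀ h0]
  exact IsUnit.of_mul_eq_one s' (stkHom_inj e x h1)

private theorem nonunit_of_dom {V₀ : ValuationSubring F} {x : X} (hx : Dom (stk e x) V₀)
    (s : X.presheaf.stalk x) (hs : ¬ IsUnit s) : stkHom e x s ∈ V₀.nonunits := by
  apply hx.2
  refine ⟨stkHom_mem e x s, ?_⟩
  by_cases h0 : stkHom e x s = 0
  · exact Or.inl h0
  · right
    intro h
    exact hs (isUnit_of_inv_mem e x s h0 h)

end dom

section lifts

variable [IsIntegral X] {F : Type u} [Field F] [Algebra O F] (e : X.functionField ≃+* F)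
  (V₀ : ValuationSubring F)

/-- the generic point with values in `F` -/
private noncomputable def gpt : Spec (.of F) ⟶ X :=
  Spec.map (CommRingCat.ofHom (e : X.functionField →+* F)) ≫ X.fromSpecStalk (genericPoint X)

private theorem gpt_eq (x : X) : gpt e = Spec.map (CommRingCat.ofHom (stkHom e x)) ≫ X.fromSpecStalk x := by
  rw [gpt, ← Scheme.SpecMap_stalkSpecializes_fromSpecStalk
    ((genericPoint_spec X).specializes (trivial : x ∈ (⊤ : Set X))), ← Category.assoc,
    ← Spec.map_comp]
  rfl

/-- the structure map to the valuation ring -/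
private def kap (hV : ∀ c : O, algebraMap O F c ∈ V₀) : O →+* V₀ :=
  (algebraMap O F).codRestrict V₀ hV

private theorem sq (he : ∀ c : O, e (constMap f c) = algebraMap O F c)
    (hV : ∀ c : O, algebraMap O F c ∈ V₀) :
    CommSq (gpt e) (Spec.map (CommRingCat.ofHom (algebraMap V₀ F))) f
      (Spec.map (CommRingCat.ofHom (kap V₀ hV))) := by
  refine ⟨?_⟩
  rw [gpt, Category.assoc, fromSpecStalk_comp', ← Spec.map_comp, ← Spec.map_comp]
  congr 1
  ext c
  exact he c

/-- the valuative square -/
private noncomputable def vsq (he : ∀ c : O, e (constMap f c) = algebraMap O F c)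
    (hV : ∀ c : O, algebraMap O F c ∈ V₀) : ValuativeCommSq f :=
  { R := V₀, K := F, i₁ := gpt e, i₂ := Spec.map (CommRingCat.ofHom (kap V₀ hV)),
    commSq := sq f e V₀ he hV }

/-- the map from the stalk to a dominating valuation ring -/
private noncomputable def dhom {x : X} (hx : Dom (stk e x) V₀) : X.presheaf.stalk x →+* V₀ :=
  (stkHom e x).codRestrict V₀ (fun a => hx.1 _ (stkHom_mem e x a))

private theorem dhom_local {x : X} (hx : Dom (stk e x) V₀) : IsLocalHom (dhom e V₀ hx) := by
  refine ⟨fun s hs => ?_⟩
  by_contra hn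
  have h1 := nonunit_of_dom e hx s hn
  rw [ValuationSubring.mem_nonunits_iff_exists_mem_maximalIdeal] at h1
  obtain ⟨h2, h3⟩ := h1
  exact h3 hs

private noncomputable def lft {x : X} (hx : Dom (stk e x) V₀) : Spec (.of V₀) ⟶ X :=
  Spec.map (CommRingCat.ofHom (dhom e V₀ hx)) ≫ X.fromSpecStalk x

private theorem lft_pt {x : X} (hx : Dom (stk e x) V₀) : lft e V₀ hx (closedPoint V₀) = x := by
  have := dhom_local e V₀ hx
  have : IsLocalHom (CommRingCat.ofHom (dhom e V₀ hx)).hom := this
  rw [lft, Scheme.Hom.comp_apply, Spec_closedPoint, Scheme.fromSpecStalk_closedPoint]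

private noncomputable def lftS (he : ∀ c : O, e (constMap f c) = algebraMap O F c)
    (hV : ∀ c : O, algebraMap O F c ∈ V₀) {x : X} (hx : Dom (stk e x) V₀) :
    (vsq f e V₀ he hV).commSq.LiftStruct where
  l := lft e V₀ hx
  fac_left := by
    change Spec.map (CommRingCat.ofHom (algebraMap V₀ F)) ≫ lft e V₀ hx = gpt e
    rw [gpt_eq e x, lft, ← Category.assoc, ← Spec.map_comp]
    rfl
  fac_right := by
    change lft e V₀ hx ≫ f = Spec.map (CommRingCat.ofHom (kap V₀ hV))
    rw [lft, Category.assoc, fromSpecStalk_comp', ← Spec.map_comp]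
    congr 1
    ext c
    change e (algebraMap (X.presheaf.stalk x) X.functionField ((cst f x).hom c)) = algebraMap O F c
    rw [cst_alg, he]

end lifts

theorem scv_centre [IsIntegral X] [IsProper f] {F : Type u} [Field F] [Algebra O F]
    (e : X.functionField ≃+* F) (he : ∀ c : O, e (constMap f c) = algebraMap O F c)
    (V₀ : ValuationSubring F) (hV : ∀ c : O, algebraMap O F c ∈ V₀) : ∃ x : X, Dom (stk e x) V₀ := by
  have huc : UniversallyClosed f := inferInstance
  rw [UniversallyClosed.eq_valuativeCriterion] at huc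
  obtain ⟨l, hl₁, hl₂⟩ := (huc.1 (vsq f e V₀ he hV)).exists_lift
  change Spec (.of V₀) ⟶ X at l
  change Spec.map (CommRingCat.ofHom (algebraMap V₀ F)) ≫ l = gpt e at hl₁
  refine ⟨l (closedPoint V₀), ?_⟩
  set x : X := l (closedPoint V₀) with hx
  let φ : X.presheaf.stalk x ⟶ .of V₀ := Scheme.stalkClosedPointTo l
  have hφ : Spec.map φ ≫ X.fromSpecStalk x = l := Scheme.Spec_stalkClosedPointTo_fromSpecStalk l
  have hloc : IsLocalHom φ.hom := Scheme.isLocalHom_stalkClosedPointTo l
  have hcomp : φ ≫ CommRingCat.ofHom (algebraMap V₀ F) = CommRingCat.ofHom (stkHom e x) := by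
    apply Spec.map_injective
    rw [← cancel_mono (X.fromSpecStalk x), Spec.map_comp, Category.assoc, hφ, hl₁, gpt_eq e x]
  have hval : ∀ s : X.presheaf.stalk x, ((φ.hom s : V₀) : F) = stkHom e x s := fun s =>
    congrArg (fun g => g.hom s) hcomp
  refine ⟨?_, ?_⟩
  · rintro a ⟨s, rfl⟩
    change stkHom e x s ∈ V₀
    rw [← hval s]
    exact (φ.hom s : V₀).2
  · rintro a ⟨⟨s, rfl⟩, ha⟩
    change stkHom e x s = 0 ∨ (stkHom e x s)⁻¹ ∉ stk e x at ha
    change stkHom e x s ∈ V₀.nonunits
    rw [ValuationSubring.mem_nonunits_iff_exists_mem_maximalIdeal]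
    refine ⟨by rw [← hval s]; exact (φ.hom s : V₀).2, ?_⟩
    intro hu
    have hu' : IsUnit (φ.hom s) := by
      convert hu using 1
      exact Subtype.ext (hval s)
    have hs : IsUnit s := hloc.map_nonunit s hu'
    obtain ⟨s', hs'⟩ := hs.exists_right_inv
    have h1 : stkHom e x s * stkHom e x s' = 1 := by rw [← map_mul, hs', map_one]
    rcases ha with h0 | h0
    · rw [h0, zero_mul] at h1
      exact zero_ne_one h1
    · apply h0
      rw [inv_eq_of_mul_eq_one_right h1]
      exact stkHom_mem e x s'

theorem scv_sep [IsIntegral X] [IsProper f] {F : Type u} [Field F] [Algebra O F]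
    (e : X.functionField ≃+* F) (he : ∀ c : O, e (constMap f c) = algebraMap O F c)
    (V₀ : ValuationSubring F) (hV : ∀ c : O, algebraMap O F c ∈ V₀) (x y : X) (hx : Dom (stk e x) V₀)
    (hy : Dom (stk e y) V₀) : x = y := by
  have hs := IsSeparated.valuativeCriterion f (vsq f e V₀ he hV)
  have h1 : lftS f e V₀ he hV hx = lftS f e V₀ he hV hy := Subsingleton.elim _ _
  have h2 : lft e V₀ hx = lft e V₀ hy := congrArg CommSq.LiftStruct.l h1
  rw [← lft_pt e V₀ hx, ← lft_pt e V₀ hy, h2]

theorem scv_closed [IsIntegral X] {F : Type u} [Field F] [Algebra O F]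
    (e : X.functionField ≃+* F) (he : ∀ c : O, e (constMap f c) = algebraMap O F c)
    (V₀ : ValuationSubring F) (hV : ∀ c ∈ maximalIdeal O, algebraMap O F c ∈ V₀.nonunits) (x : X)
    (hx : Dom (stk e x) V₀) : f x = closedPoint O := by
  have h0 : f x = Spec.map (cst f x) (closedPoint (X.presheaf.stalk x)) := by
    rw [← fromSpecStalk_comp', Scheme.Hom.comp_apply, Scheme.fromSpecStalk_closedPoint]
  have hle : maximalIdeal O ≤ (closedPoint (X.presheaf.stalk x)).asIdeal.comap (cst f x).hom := by
    intro c hc
    change ¬ IsUnit ((cst f x).hom c)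
    intro hu
    obtain ⟨s', hs'⟩ := hu.exists_right_inv
    have hval : stkHom e x ((cst f x).hom c) = algebraMap O F c := by
      change e (algebraMap (X.presheaf.stalk x) X.functionField ((cst f x).hom c)) = _
      rw [cst_alg, he]
    have h1 : algebraMap O F c * stkHom e x s' = 1 := by
      rw [← hval, ← map_mul, hs', map_one]
    have h2 := hV c hc
    rw [ValuationSubring.mem_nonunits_iff_exists_mem_maximalIdeal] at h2
    obtain ⟨h3, h4⟩ := h2
    apply h4
    refine IsUnit.of_mul_eq_one ⟨stkHom e x s', hx.1 _ (stkHom_mem e x s')⟩ ?_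
    exact Subtype.ext h1
  rw [h0]
  apply PrimeSpectrum.ext
  change (closedPoint (X.presheaf.stalk x)).asIdeal.comap (cst f x).hom = maximalIdeal O
  refine ((IsLocalRing.maximalIdeal.isMaximal O).eq_of_le ?_ hle).symm
  exact (Ideal.IsPrime.comap (cst f x).hom (K := (closedPoint (X.presheaf.stalk x)).asIdeal)).ne_top

end Pool.Agent.ESH
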