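import Pool.Agent.ESH.MKS

/-!
# ESH / SEQ: S-integers which are small at all places of `S ∪ ∞` but one

Proof.  Case `star = inl w₁`: apply MKS with `m v = k c` (`v ∈ S`), `f w = 2^(-k c)` for `w ≠ w₁` and `f w₁ > 0`
chosen with `f w₁ ^ mult = 2 |d| (∏_{v ∈ S} nrm v^(k c)) ∏_{w ≠ w₁} 2^(k c mult w)` (a root).
Case `star = inr v₁`: `f w = 2^(-k c)` for all `w`, `m v = k c` for `v ∈ S`, `v ≠ v₁`, `m v₁ = - m₁` with `m₁` the
least natural number such that `nrm v₁ ^ m₁ > P := |d| (∏_{v ∈ S, v ≠ v₁} nrm v^(k c)) 2^(k c D)`; then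
MKS applies (`∑ mult = D`) and `v₁ x ≤ nrm v₁ ^ m₁ ≤ nrm v₁ * P` by minimality (if `m₁ = 0` then
`nrm v₁ ^ m₁ = 1 ≤ nrm v₁ P` as `P ≥ 1`); note `nrm v₁ ≤ nrmS S`.
-/

namespace Pool.Agent.ESH

open NumberField

section aux

variable {M : Type*} [Field M] [NumberField M]

private lemma SEQ_nrm (v : FinitePlace M) : 1 < nrm v :=
  HeightOneSpectrum.one_lt_absNorm v.maximalIdeal

private lemma SEQ_nrmS (S : Finset (FinitePlace M)) : 1 ≤ nrmS S :=
  Finset.one_le_prod' fun v _ => (SEQ_nrm v).le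

private lemma SEQ_le_nrmS {S : Finset (FinitePlace M)} {v : FinitePlace M} (hv : v ∈ S) :
    nrm v ≤ nrmS S :=
  Finset.single_le_prod' (fun v _ => (SEQ_nrm v).le) hv

private lemma SEQ_bd_pos (S : Finset (FinitePlace M)) (p : InfinitePlace M ⊕ S) :
    1 ≤ bd S p := by
  rcases p with w | v
  · exact one_le_pow₀ (by norm_num)
  · have := SEQ_nrm (v : FinitePlace M)
    change (1 : ℝ) ≤ (nrm (v : FinitePlace M) : ℝ)
    exact_mod_cast this.le

private lemma SEQ_d : (1 : ℝ) ≤ ((discr M).natAbs : ℝ) := by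
  have : 1 ≤ (discr M).natAbs := Nat.one_le_iff_ne_zero.2 (Int.natAbs_ne_zero.2 (discr_ne_zero M))
  exact_mod_cast this

open scoped Classical in
/-- the product over all places but one -/
private lemma SEQ_prod (S : Finset (FinitePlace M)) (star : InfinitePlace M ⊕ S) (K : ℕ) :
    (bd S star) ^ K * ∏ p ∈ Finset.univ.erase star, (bd S p) ^ K =
      (∏ w : InfinitePlace M, ((2 : ℝ) ^ w.mult) ^ K) * ∏ v ∈ S, (nrm v : ℝ) ^ K := by
  rw [Finset.mul_prod_erase Finset.univ (fun p => (bd S p) ^ K) (Finset.mem_univ star),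
    Fintype.prod_sum_type]
  congr 1
  exact Finset.prod_coe_sort S (fun v => (nrm v : ℝ) ^ K)

end aux

open scoped Classical in
private theorem SEQ_inl (M : Type*) [Field M] [NumberField M] (S : Finset (FinitePlace M))
    (w₁ : InfinitePlace M) (K : ℕ) :
    ∃ x : M, x ≠ 0 ∧ (∀ v : FinitePlace M, v ∉ S → v x ≤ 1) ∧
      (∀ p, p ≠ (Sum.inl w₁ : InfinitePlace M ⊕ S) → nn S p x ≤ ((bd S p) ^ K)⁻¹) ∧
      nn S (Sum.inl w₁ : InfinitePlace M ⊕ S) x ≤ 2 * ((discr M).natAbs : ℝ) * nrmS S *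
        ∏ p ∈ Finset.univ.erase (Sum.inl w₁ : InfinitePlace M ⊕ S), (bd S p) ^ K := by
  set E : ℝ := ∏ p ∈ Finset.univ.erase (Sum.inl w₁ : InfinitePlace M ⊕ S), (bd S p) ^ K with hE
  have hE1 : 0 < E := Finset.prod_pos fun p _ =>
    pow_pos (lt_of_lt_of_le one_pos (SEQ_bd_pos S p)) _
  have hd := SEQ_d (M := M)
  have hd0 : (0 : ℝ) < ((discr M).natAbs : ℝ) := lt_of_lt_of_le one_pos hd
  have hprod := SEQ_prod S (Sum.inl w₁ : InfinitePlace M ⊕ S) K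
  rw [← hE] at hprod
  set X : ℝ := 2 * ((discr M).natAbs : ℝ) * E with hX
  have hX0 : 0 < X := by positivity
  have hm : w₁.mult ≠ 0 := InfinitePlace.mult_ne_zero
  obtain ⟨F, hF0, hF⟩ : ∃ F : ℝ, 0 < F ∧ F ^ w₁.mult = X := by
    refine ⟨X ^ ((w₁.mult : ℝ)⁻¹), Real.rpow_pos_of_pos hX0 _, ?_⟩
    rw [Real.rpow_inv_natCast_pow hX0.le hm]
  set f : InfinitePlace M → ℝ := fun w => if w = w₁ then F else ((2 : ℝ) ^ K)⁻¹ with hf
  have hf0 : ∀ w, 0 < f w := by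
    intro w
    rw [hf]
    dsimp only
    split_ifs
    · exact hF0
    · positivity
  have hfp : ∏ w : InfinitePlace M, f w ^ w.mult =
      X * (((2 : ℝ) ^ w₁.mult) ^ K) * (∏ w : InfinitePlace M, ((2 : ℝ) ^ w.mult) ^ K)⁻¹ := by
    rw [← Finset.mul_prod_erase Finset.univ (fun w => f w ^ w.mult) (Finset.mem_univ w₁),
      ← Finset.mul_prod_erase Finset.univ (fun w : InfinitePlace M => ((2 : ℝ) ^ w.mult) ^ K)
        (Finset.mem_univ w₁)]
    have h1 : ∏ w ∈ Finset.univ.erase w₁, f w ^ w.mult =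
        (∏ w ∈ Finset.univ.erase w₁, ((2 : ℝ) ^ w.mult) ^ K)⁻¹ := by
      rw [← Finset.prod_inv_distrib]
      refine Finset.prod_congr rfl fun w hw => ?_
      have hne : w ≠ w₁ := Finset.ne_of_mem_erase hw
      rw [hf]
      dsimp only
      rw [if_neg hne, inv_pow, ← pow_mul, ← pow_mul, mul_comm]
    have h2 : f w₁ ^ w₁.mult = X := by
      rw [hf]
      dsimp only
      rw [if_pos rfl, hF]
    rw [h1, h2]
    have h3 : ((2 : ℝ) ^ w₁.mult) ^ K ≠ 0 := by positivity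
    rw [mul_inv, mul_assoc X, mul_inv_cancel_left₀ h3]
  have hW0 : 0 < ∏ w : InfinitePlace M, ((2 : ℝ) ^ w.mult) ^ K :=
    Finset.prod_pos fun w _ => by positivity
  have hN0 : 0 < ∏ v ∈ S, (nrm v : ℝ) ^ K := Finset.prod_pos fun v _ => by
    have := SEQ_nrm v
    have h2 : (0 : ℝ) < nrm v := by exact_mod_cast (by omega : 0 < nrm v)
    positivity
  have hbd : bd S (Sum.inl w₁ : InfinitePlace M ⊕ S) = 2 ^ w₁.mult := rfl
  rw [hbd] at hprod
  have hcond : ((discr M).natAbs : ℝ) * ∏ v ∈ S, (nrm v : ℝ) ^ ((fun _ => (K : ℤ)) v) <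
      ∏ w : InfinitePlace M, f w ^ w.mult := by
    rw [hfp]
    have e : X * (((2 : ℝ) ^ w₁.mult) ^ K) * (∏ w : InfinitePlace M, ((2 : ℝ) ^ w.mult) ^ K)⁻¹ =
        2 * ((discr M).natAbs : ℝ) * ∏ v ∈ S, (nrm v : ℝ) ^ K := by
      rw [hX]
      calc 2 * ((discr M).natAbs : ℝ) * E * (((2 : ℝ) ^ w₁.mult) ^ K) *
            (∏ w : InfinitePlace M, ((2 : ℝ) ^ w.mult) ^ K)⁻¹
          = 2 * ((discr M).natAbs : ℝ) * ((((2 : ℝ) ^ w₁.mult) ^ K) * E) *
            (∏ w : InfinitePlace M, ((2 : ℝ) ^ w.mult) ^ K)⁻¹ := by ring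
        _ = 2 * ((discr M).natAbs : ℝ) * ((∏ w : InfinitePlace M, ((2 : ℝ) ^ w.mult) ^ K) *
            ∏ v ∈ S, (nrm v : ℝ) ^ K) *
            (∏ w : InfinitePlace M, ((2 : ℝ) ^ w.mult) ^ K)⁻¹ := by rw [hprod]
        _ = 2 * ((discr M).natAbs : ℝ) * (∏ v ∈ S, (nrm v : ℝ) ^ K) *
            ((∏ w : InfinitePlace M, ((2 : ℝ) ^ w.mult) ^ K) *
            (∏ w : InfinitePlace M, ((2 : ℝ) ^ w.mult) ^ K)⁻¹) := by ring
        _ = _ := by rw [mul_inv_cancel₀ hW0.ne', mul_one]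
    rw [e]
    simp only [zpow_natCast]
    have := mul_pos hd0 hN0
    linarith
  obtain ⟨x, hx0, hx1, hx2, hx3⟩ := mks M S (fun _ => (K : ℤ)) f hf0 hcond
  refine ⟨x, hx0, hx1, ?_, ?_⟩
  · rintro (w | v) hp
    · have hne : w ≠ w₁ := fun h => hp (by rw [h])
      change (w x) ^ w.mult ≤ (((2 : ℝ) ^ w.mult) ^ K)⁻¹
      have h1 := hx3 w
      rw [hf] at h1
      dsimp only at h1
      rw [if_neg hne] at h1
      refine (pow_le_pow_left₀ (apply_nonneg w x) h1.le _).trans (le_of_eq ?_)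
      rw [inv_pow, ← pow_mul, ← pow_mul, mul_comm]
    · change (v : FinitePlace M) x ≤ ((nrm (v : FinitePlace M) : ℝ) ^ K)⁻¹
      refine (hx2 v v.2).trans (le_of_eq ?_)
      rw [zpow_neg, zpow_natCast]
  · change (w₁ x) ^ w₁.mult ≤ _
    have h1 := hx3 w₁
    rw [hf] at h1
    dsimp only at h1
    rw [if_pos rfl] at h1
    have h2 := pow_le_pow_left₀ (apply_nonneg w₁ x) h1.le w₁.mult
    rw [hF, hX] at h2
    refine h2.trans ?_
    have h3 : (1 : ℝ) ≤ nrmS S := by exact_mod_cast SEQ_nrmS S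
    have h4 : 2 * ((discr M).natAbs : ℝ) * 1 ≤ 2 * ((discr M).natAbs : ℝ) * (nrmS S : ℝ) :=
      mul_le_mul_of_nonneg_left h3 (by positivity)
    calc 2 * ((discr M).natAbs : ℝ) * E = 2 * ((discr M).natAbs : ℝ) * 1 * E := by ring
      _ ≤ 2 * ((discr M).natAbs : ℝ) * (nrmS S : ℝ) * E := mul_le_mul_of_nonneg_right h4 hE1.le

open scoped Classical in
private theorem SEQ_inr (M : Type*) [Field M] [NumberField M] (S : Finset (FinitePlace M))
    (v₁ : S) (K : ℕ) :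
    ∃ x : M, x ≠ 0 ∧ (∀ v : FinitePlace M, v ∉ S → v x ≤ 1) ∧
      (∀ p, p ≠ (Sum.inr v₁ : InfinitePlace M ⊕ S) → nn S p x ≤ ((bd S p) ^ K)⁻¹) ∧
      nn S (Sum.inr v₁ : InfinitePlace M ⊕ S) x ≤ 2 * ((discr M).natAbs : ℝ) * nrmS S *
        ∏ p ∈ Finset.univ.erase (Sum.inr v₁ : InfinitePlace M ⊕ S), (bd S p) ^ K := by
  set E : ℝ := ∏ p ∈ Finset.univ.erase (Sum.inr v₁ : InfinitePlace M ⊕ S), (bd S p) ^ K with hE
  have hE1 : 1 ≤ E := by
    calc (1 : ℝ) = ∏ _p ∈ Finset.univ.erase (Sum.inr v₁ : InfinitePlace M ⊕ S), (1 : ℝ) := by simp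
      _ ≤ E := Finset.prod_le_prod (fun _ _ => zero_le_one)
        fun p _ => one_le_pow₀ (SEQ_bd_pos S p)
  have hd := SEQ_d (M := M)
  have hd0 : (0 : ℝ) < ((discr M).natAbs : ℝ) := lt_of_lt_of_le one_pos hd
  have hprod := SEQ_prod S (Sum.inr v₁ : InfinitePlace M ⊕ S) K
  rw [← hE] at hprod
  set N₁ : ℝ := (nrm (v₁ : FinitePlace M) : ℝ) with hN₁
  have hN1 : 1 < N₁ := by
    have := SEQ_nrm (v₁ : FinitePlace M)
    rw [hN₁]
    exact_mod_cast this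
  have hN0 : 0 < N₁ := lt_trans one_pos hN1
  set P : ℝ := ((discr M).natAbs : ℝ) * E with hP
  have hP1 : 1 ≤ P := by
    rw [hP]
    exact one_le_mul_of_one_le_of_one_le hd hE1
  obtain ⟨m₁, hm1, hm2⟩ : ∃ m₁ : ℕ, P < N₁ ^ m₁ ∧ N₁ ^ m₁ ≤ N₁ * P := by
    have hex : ∃ m : ℕ, P < N₁ ^ m := pow_unbounded_of_one_lt P hN1
    refine ⟨Nat.find hex, Nat.find_spec hex, ?_⟩
    rcases Nat.eq_zero_or_pos (Nat.find hex) with h0 | hpos
    · rw [h0, pow_zero]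
      exact one_le_mul_of_one_le_of_one_le hN1.le hP1
    · obtain ⟨j, hj⟩ : ∃ j, Nat.find hex = j + 1 := ⟨Nat.find hex - 1, by omega⟩
      have h1 : ¬ P < N₁ ^ j := Nat.find_min hex (by omega)
      rw [hj, pow_succ, mul_comm]
      exact mul_le_mul_of_nonneg_left (not_lt.1 h1) hN0.le
  set W : ℝ := ∏ w : InfinitePlace M, ((2 : ℝ) ^ w.mult) ^ K with hW
  have hW0 : 0 < W := Finset.prod_pos fun w _ => by positivity
  set N' : ℝ := ∏ v ∈ S.erase (v₁ : FinitePlace M), (nrm v : ℝ) ^ K with hN'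
  have hsplit : ∏ v ∈ S, (nrm v : ℝ) ^ K = N₁ ^ K * N' :=
    (Finset.mul_prod_erase S (fun v => (nrm v : ℝ) ^ K) v₁.2).symm
  have hEW : E = W * N' := by
    have h1 : N₁ ^ K * E = N₁ ^ K * (W * N') := by
      have h2 : bd S (Sum.inr v₁ : InfinitePlace M ⊕ S) = N₁ := rfl
      rw [h2, hsplit] at hprod
      rw [hprod]
      ring
    exact mul_left_cancel₀ (pow_pos hN0 K).ne' h1
  set m : FinitePlace M → ℤ := fun v => if v = (v₁ : FinitePlace M) then -(m₁ : ℤ) else (K : ℤ)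
    with hm
  have hcond : ((discr M).natAbs : ℝ) * ∏ v ∈ S, (nrm v : ℝ) ^ (m v) <
      ∏ w : InfinitePlace M, ((2 : ℝ) ^ K)⁻¹ ^ w.mult := by
    have h1 : ∏ w : InfinitePlace M, ((2 : ℝ) ^ K)⁻¹ ^ w.mult = W⁻¹ := by
      rw [hW, ← Finset.prod_inv_distrib]
      refine Finset.prod_congr rfl fun w _ => ?_
      rw [inv_pow, ← pow_mul, ← pow_mul, mul_comm]
    have h2 : ∏ v ∈ S, (nrm v : ℝ) ^ (m v) = (N₁ ^ m₁)⁻¹ * N' := by
      rw [← Finset.mul_prod_erase S (fun v => (nrm v : ℝ) ^ (m v)) v₁.2]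
      congr 1
      · rw [hm]
        dsimp only
        rw [if_pos rfl, zpow_neg, zpow_natCast]
      · refine Finset.prod_congr rfl fun v hv => ?_
        rw [hm]
        dsimp only
        rw [if_neg (Finset.ne_of_mem_erase hv), zpow_natCast]
    have hN'0 : 0 < N' := by
      by_contra hcon
      have h4 : E ≤ 0 := by
        rw [hEW]
        exact mul_nonpos_of_nonneg_of_nonpos hW0.le (not_lt.1 hcon)
      linarith
    have hT : 0 < N₁ ^ m₁ := pow_pos hN0 _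
    have h6 : ((discr M).natAbs : ℝ) * N' * W = P := by
      rw [hP, hEW]
      ring
    rw [h1, h2]
    have h5 : ((discr M).natAbs : ℝ) * ((N₁ ^ m₁)⁻¹ * N') = P * (N₁ ^ m₁)⁻¹ * W⁻¹ := by
      rw [← h6]
      calc ((discr M).natAbs : ℝ) * ((N₁ ^ m₁)⁻¹ * N')
          = ((discr M).natAbs : ℝ) * N' * (N₁ ^ m₁)⁻¹ * 1 := by ring
        _ = ((discr M).natAbs : ℝ) * N' * (N₁ ^ m₁)⁻¹ * (W * W⁻¹) := by
            rw [mul_inv_cancel₀ hW0.ne']
        _ = _ := by ring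
    have h7 : P * (N₁ ^ m₁)⁻¹ < 1 := by
      rw [mul_inv_lt_iff₀ hT, one_mul]
      exact hm1
    rw [h5]
    calc P * (N₁ ^ m₁)⁻¹ * W⁻¹ < 1 * W⁻¹ := mul_lt_mul_of_pos_right h7 (inv_pos.2 hW0)
      _ = W⁻¹ := one_mul _
  obtain ⟨x, hx0, hx1, hx2, hx3⟩ := mks M S m (fun _ => ((2 : ℝ) ^ K)⁻¹)
    (fun _ => by positivity) hcond
  refine ⟨x, hx0, hx1, ?_, ?_⟩
  · rintro (w | v) hp
    · change (w x) ^ w.mult ≤ (((2 : ℝ) ^ w.mult) ^ K)⁻¹
      refine (pow_le_pow_left₀ (apply_nonneg w x) (hx3 w).le _).trans (le_of_eq ?_)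
      rw [inv_pow, ← pow_mul, ← pow_mul, mul_comm]
    · have hne : (v : FinitePlace M) ≠ v₁ := fun h => hp (by rw [Subtype.ext h])
      change (v : FinitePlace M) x ≤ ((nrm (v : FinitePlace M) : ℝ) ^ K)⁻¹
      refine (hx2 v v.2).trans (le_of_eq ?_)
      rw [hm]
      dsimp only
      rw [if_neg hne, zpow_neg, zpow_natCast]
  · change (v₁ : FinitePlace M) x ≤ _
    have h1 := hx2 v₁ v₁.2
    rw [hm] at h1
    dsimp only at h1
    rw [if_pos rfl, neg_neg, zpow_natCast] at h1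
    refine (h1.trans hm2).trans ?_
    have h3 : N₁ ≤ nrmS S := by
      rw [hN₁]
      exact_mod_cast SEQ_le_nrmS v₁.2
    have h4 : N₁ * P ≤ nrmS S * P := mul_le_mul_of_nonneg_right h3 (by linarith)
    have h5 : (0 : ℝ) ≤ nrmS S * P := le_trans (by positivity) h4
    calc N₁ * P ≤ nrmS S * P := h4
      _ ≤ 2 * (nrmS S * P) := by linarith
      _ = _ := by rw [hP]; ring

open scoped Classical in
theorem seq (M : Type*) [Field M] [NumberField M] (S : Finset (FinitePlace M))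
    (star : InfinitePlace M ⊕ S) (c k : ℕ) :
    ∃ x : M, x ≠ 0 ∧ (∀ v : FinitePlace M, v ∉ S → v x ≤ 1) ∧
      (∀ p, p ≠ star → nn S p x ≤ ((bd S p) ^ (k * c))⁻¹) ∧
      nn S star x ≤ 2 * ((discr M).natAbs : ℝ) * nrmS S *
        ∏ p ∈ Finset.univ.erase star, (bd S p) ^ (k * c) := by
  rcases star with w₁ | v₁
  · exact SEQ_inl M S w₁ (k * c)
  · exact SEQ_inr M S v₁ (k * c)

end Pool.Agent.ESH
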