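import Pool.Agent.ESH.DefsS

/-!
# ESH / SET: the generic point of the special fibre

The fibre `f.fiber s` over the closed point `s` is an integral scheme (`GeometricallyIntegral`), in particular irreducible, and it is
homeomorphic to `f⁻¹ s` (`Scheme.Hom.fiberι`, `range_fiberι`).  Let `η` be the image of its generic point.
-/

namespace Pool.Agent.ESH

open CategoryTheory AlgebraicGeometry IsLocalRing
open scoped TensorProduct

universe u

variable {O : Type u} [CommRing O] [IsDomain O] [IsDiscreteValuationRing O] {X : Scheme.{u}}
  (f : X ⟶ Spec (.of O))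


theorem set_eta [GeometricallyIntegral f] :
    ∃ η : X, f η = closedPoint O ∧ ∀ x : X, f x = closedPoint O → η ⤳ x := by
  refine ⟨f.fiberι (closedPoint O) (genericPoint (f.fiber (closedPoint O))), ?_, ?_⟩
  · have h : f.fiberι (closedPoint O) (genericPoint (f.fiber (closedPoint O))) ∈
        Set.range (f.fiberι (closedPoint O)) := ⟨_, rfl⟩
    rw [Scheme.Hom.range_fiberι] at h
    exact h
  · intro x hx
    have h : x ∈ Set.range (f.fiberι (closedPoint O)) := by
      rw [Scheme.Hom.range_fiberι]
      exact hx
    obtain ⟨y, rfl⟩ := h
    exact (genericPoint_specializes y).map (f.fiberι (closedPoint O)).continuous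

end Pool.Agent.ESH
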