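import Pool.Agent.ESH.DefsS

/-!
# ESH / SFF: the function field of a smooth curve

Take a point `x ∈ X` and the affine open `V` of `SmoothOfRelativeDimension` (`U = ⊤` in `Spec K`, one point): `B = Γ(X, V)` is standard smooth
of relative dimension one over `K` with fraction field `F`; it is a finitely generated `K`-algebra, so `F` is essentially of
finite type over `K`.  `K[X] → B` etale (as in CPE), `B ≠ 0` a domain, flat over `K[X]`, so `K[X] → B` is injective, and
`B ⊗ K(X)` is etale over the field `K(X)`, so a finite product of finite extensions; it is contained in `F` (localization of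
`B`), so `F` is finite over `K(X)`: transcendence degree one.
-/

namespace Pool.Agent.ESH

open CategoryTheory AlgebraicGeometry Pool.Agent.Helper11

universe u

private theorem sff_alg {K B F : Type u} [Field K] [CommRing B] [IsDomain B] [Field F] [Algebra K B]
    [Algebra B F] [Algebra K F] [IsScalarTower K B F] [IsFractionRing B F]
    [Algebra.IsStandardSmoothOfRelativeDimension 1 K B] : FunField K F := by
  have hess : Algebra.EssFiniteType B F := Algebra.EssFiniteType.of_isLocalization F (nonZeroDivisors B)
  have hss : Algebra.IsStandardSmooth K B :=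
    Algebra.IsStandardSmoothOfRelativeDimension.isStandardSmooth 1
  have hfp : Algebra.EssFiniteType K B := inferInstance
  refine ⟨Algebra.EssFiniteType.comp K B F, ?_⟩
  obtain ⟨g, hg⟩ := Algebra.IsStandardSmoothOfRelativeDimension.exists_etale_mvPolynomial 1 K B
  let R := MvPolynomial (Fin 1) K
  let _ : Algebra R B := g.toRingHom.toAlgebra
  have _ : Algebra.Etale R B := hg
  have _ : IsScalarTower K R B := IsScalarTower.of_algebraMap_eq' g.comp_algebraMap.symm
  let _ : Algebra R F := ((algebraMap B F).comp (algebraMap R B)).toAlgebra
  have _ : IsScalarTower R B F := IsScalarTower.of_algebraMap_eq' rfl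
  have _ : IsScalarTower K R F := IsScalarTower.of_algebraMap_eq' (by
    rw [IsScalarTower.algebraMap_eq R B F, RingHom.comp_assoc, ← IsScalarTower.algebraMap_eq K R B,
      ← IsScalarTower.algebraMap_eq K B F])
  have hflat : Module.Flat R B := inferInstance
  have hinjB : Function.Injective (algebraMap R B) := by
    rw [injective_iff_map_eq_zero]
    intro r hr
    by_contra h0
    have hreg : IsSMulRegular B r := Module.Flat.isSMulRegular_of_isRegular (IsRegular.of_ne_zero h0)
    have : (1 : B) = 0 := hreg (by
      change r • (1 : B) = r • (0 : B)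
      rw [Algebra.smul_def, hr, zero_mul, smul_zero])
    exact one_ne_zero this
  have hinj : Function.Injective (algebraMap R F) := by
    rw [IsScalarTower.algebraMap_eq R B F]
    exact (IsFractionRing.injective B F).comp hinjB
  have hfs : FaithfulSMul R F := (faithfulSMul_iff_algebraMap_injective R F).2 hinj
  have hun : Algebra.FormallyUnramified R F := by
    have : Algebra.FormallyUnramified B F := Algebra.FormallyUnramified.of_isLocalization (nonZeroDivisors B)
    exact Algebra.FormallyUnramified.comp R B F
  have halg : Algebra.IsAlgebraic R F := by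
    let L := FractionRing R
    let _ : Algebra L F := FractionRing.liftAlgebra R F
    have _ : IsScalarTower R L F := inferInstance
    have h1 : Algebra.FormallyUnramified L F := Algebra.FormallyUnramified.of_restrictScalars R L F
    have h2 : Algebra.EssFiniteType R F := Algebra.EssFiniteType.comp R B F
    have h3 : Algebra.EssFiniteType L F := Algebra.EssFiniteType.of_comp R L F
    have h4 : Module.Finite L F := Algebra.FormallyUnramified.finite_of_free L F
    exact (IsFractionRing.comap_isAlgebraic_iff (A := R) (K := L) (C := F)).2 inferInstance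
  have h := trdeg_add_eq K R (A := F)
  rw [trdeg_eq_zero (R := R) (A := F), MvPolynomial.trdeg_of_isDomain] at h
  rw [← h]
  simp

theorem sff {K F : Type u} [Field K] [Field F] [Algebra K F] {X : Scheme.{u}} [IsIntegral X]
    (f : X ⟶ Spec (.of K)) [SmoothOfRelativeDimension 1 f] (e : X.functionField ≃+* F)
    (he : ∀ c : K, e (constMap f c) = algebraMap K F c) : FunField K F := by
  obtain ⟨x⟩ : Nonempty X := inferInstance
  obtain ⟨U, hU, V, hV, hxV, hVU, hsm⟩ :=
    SmoothOfRelativeDimension.exists_isStandardSmoothOfRelativeDimension (n := 1) (f := f) x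
  have hUtop : U = ⊤ := by
    have hsub : Subsingleton (Spec (CommRingCat.of K)) :=
      inferInstanceAs (Subsingleton (PrimeSpectrum K))
    refine TopologicalSpace.Opens.ext (Set.eq_univ_of_forall fun z => ?_)
    rw [Subsingleton.elim z (f x)]
    exact hVU hxV
  subst hUtop
  let ψ : K →+* Γ(X, V) := (f.appLE ⊤ V hVU).hom.comp ((Scheme.ΓSpecIso (.of K)).symm.commRingCatIsoToRingEquiv : K ≃+* _).toRingHom
  have hψ : ψ.IsStandardSmoothOfRelativeDimension 1 :=
    (RingHom.isStandardSmoothOfRelativeDimension_respectsIso (n := 1)).2 _ _ hsm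
  have hne : Nonempty V := ⟨⟨x, hxV⟩⟩
  let _ : Algebra K Γ(X, V) := ψ.toAlgebra
  have _ : Algebra.IsStandardSmoothOfRelativeDimension 1 K Γ(X, V) := hψ
  let _ : Algebra Γ(X, V) F := ((e : X.functionField →+* F).comp (algebraMap Γ(X, V) X.functionField)).toAlgebra
  have hfrac : IsFractionRing Γ(X, V) X.functionField := functionField_isFractionRing_of_isAffineOpen X V hV
  have hfracF : IsFractionRing Γ(X, V) F :=
    IsLocalization.isLocalization_of_algEquiv (nonZeroDivisors Γ(X, V))
      (AlgEquiv.ofRingEquiv (f := e) (fun r => rfl))
  have htower : IsScalarTower K Γ(X, V) F := by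
    refine IsScalarTower.of_algebraMap_eq fun c => ?_
    rw [← he c]
    change e (constMap f c) = e (algebraMap Γ(X, V) X.functionField (ψ c))
    congr 1
    change (X.presheaf.germ ⊤ (genericPoint X) trivial).hom
        ((Scheme.Hom.appTop f).hom ((Scheme.ΓSpecIso (.of K)).inv.hom c)) =
      (X.germToFunctionField V).hom ((f.appLE ⊤ V hVU).hom ((Scheme.ΓSpecIso (.of K)).inv.hom c))
    have h1 : f.appLE ⊤ V hVU = f.appTop ≫ X.presheaf.map (homOfLE (le_top : V ≤ ⊤)).op := rfl
    rw [h1]
    have h2 : X.presheaf.map (homOfLE (le_top : V ≤ ⊤)).op ≫ X.germToFunctionField V =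
        X.presheaf.germ ⊤ (genericPoint X) trivial := by
      exact X.presheaf.germ_res _ _ _
    rw [← h2]
    rfl
  exact sff_alg (K := K) (B := Γ(X, V)) (F := F)

end Pool.Agent.ESH
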