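import Pool.Agent.ESH.SIN

/-!
# ESH / SGF: the function field of the generic fibre

`Spec K → Spec O` is an open immersion (`K = O[1/π]`), so `g : X → Y` is an open immersion (base change), and
`g (genericPoint X) = genericPoint Y` (`genericPoint_eq_of_isOpenImmersion`), so the stalk map of `g` at the generic point is an isomorphism
`Y.functionField ≃ X.functionField`; compose with `e`.  Compatibility: naturality of germs and the commutative square.
-/

namespace Pool.Agent.ESH

open CategoryTheory AlgebraicGeometry IsLocalRing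

universe u

private theorem SGF_away {O : Type*} [CommRing O] [IsDomain O] [IsDiscreteValuationRing O] {K : Type*} [Field K]
    [Algebra O K] [IsFractionRing O K] : ∃ π : O, IsLocalization.Away π K := by
  obtain ⟨π, hπ⟩ := IsDiscreteValuationRing.exists_irreducible O
  refine ⟨π, ?_⟩
  have hle : Submonoid.powers π ≤ nonZeroDivisors O := powers_le_nonZeroDivisors_of_noZeroDivisors hπ.ne_zero
  have h := IsLocalization.iff_of_le_of_exists_dvd (S := K) (Submonoid.powers π) (nonZeroDivisors O) hle (by
    intro b hb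
    obtain ⟨n, u, rfl⟩ := IsDiscreteValuationRing.eq_unit_mul_pow_irreducible
      (nonZeroDivisors.ne_zero hb) hπ
    exact ⟨π ^ n, ⟨n, rfl⟩, ⟨((u⁻¹ : Oˣ) : O), by
      rw [mul_comm, ← mul_assoc, Units.inv_mul, one_mul]⟩⟩)
  exact h.2 inferInstance

theorem sgf {O : Type u} [CommRing O] [IsDomain O] [IsDiscreteValuationRing O] {K F : Type u} [Field K]
    [Algebra O K] [IsFractionRing O K] [Field F] [Algebra K F] [Algebra O F] [IsScalarTower O K F]
    {X Y : Scheme.{u}} [IsIntegral X] [IsIntegral Y] (f : X ⟶ Spec (.of K)) (p : Y ⟶ Spec (.of O)) (g : X ⟶ Y)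
    (hp : IsPullback g f p (Spec.map (CommRingCat.ofHom (algebraMap O K)))) (e : X.functionField ≃+* F)
    (he : ∀ c : K, e (constMap f c) = algebraMap K F c) :
    ∃ e' : Y.functionField ≃+* F, ∀ c : O, e' (constMap p c) = algebraMap O F c := by
  obtain ⟨π, hπ⟩ := SGF_away (O := O) (K := K)
  have h1 : IsOpenImmersion (Spec.map (CommRingCat.ofHom (algebraMap O K))) :=
    IsOpenImmersion.of_isLocalization π
  have hg : IsOpenImmersion g :=
    MorphismProperty.of_isPullback (P := @IsOpenImmersion) hp.flip h1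
  have hgen : g (genericPoint X) = genericPoint Y := genericPoint_eq_of_isOpenImmersion g
  let φ : Y.functionField ≅ X.functionField :=
    Y.presheaf.stalkCongr (.of_eq hgen.symm) ≪≫ asIso (g.stalkMap (genericPoint X))
  have hφ : Y.presheaf.germ ⊤ (genericPoint Y) trivial ≫ φ.hom =
      g.appTop ≫ X.presheaf.germ ⊤ (genericPoint X) trivial := by
    have h2 : φ.hom = Y.presheaf.stalkSpecializes (specializes_of_eq hgen) ≫
      g.stalkMap (genericPoint X) := rfl
    rw [h2, TopCat.Presheaf.germ_stalkSpecializes_assoc, Scheme.Hom.germ_stalkMap]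
    rfl
  have hcomm : CommRingCat.ofHom (algebraMap O K) ≫ (Scheme.ΓSpecIso (.of K)).inv ≫ f.appTop =
      (Scheme.ΓSpecIso (.of O)).inv ≫ p.appTop ≫ g.appTop := by
    rw [Scheme.ΓSpecIso_inv_naturality_assoc, ← Scheme.Hom.comp_appTop, ← Scheme.Hom.comp_appTop,
      hp.w]
  refine ⟨φ.commRingCatIsoToRingEquiv.trans e, fun c => ?_⟩
  rw [RingEquiv.trans_apply, IsScalarTower.algebraMap_apply O K F, ← he]
  congr 1
  have h3 := congrArg (fun k => k.hom c) (congrArg (fun k => k ≫ X.presheaf.germ ⊤ (genericPoint X) trivial) hcomm)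
  have h4 := congrArg (fun k => k.hom (p.appTop.hom ((Scheme.ΓSpecIso (.of O)).inv.hom c))) hφ
  exact h4.trans h3.symm

end Pool.Agent.ESH
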