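import Pool.Agent.ESH.SIN
import Pool.Agent.ESH.SET
import Pool.Agent.ESH.SCT
import Pool.Agent.ESH.SCV
import Pool.Agent.ESH.CPI

/-!
# ESH / SMD: the base model of a smooth proper curve

`η` from SET.  `W₀` from `cpw` applied to the chart (SCT) at `x = η`; `hW : f ∈ W₀ ↔ f ∈ stk e η` holds in all charts since
`stk e η = locP F (sfI O B)`.  `pts₀ = {stk e x | f x = closedPoint, x ≠ η}`.  `base`, `scale`: CPW.  `geom`: CPG.  `der`: `cpi_der`.
`pt`: `cpi` with `q ≠ sfI` (last part of SCT).  `centre`: `V₀ ∩ K = O`; `scv_centre` gives `x`, `scv_closed` (`c ∈ 𝔪`: `c⁻¹ ∉ O` so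
`c⁻¹ ∉ V₀` or `c = 0`) `f x = closedPoint`; if `x = η` then `V₀` dominates `W₀`, and valuation rings are maximal for domination,
so `V₀ = W₀`.  `sep`: `scv_sep` (if `V₀` dominates `stk e x`, `f x` the closed point, then `V₀` contains the image of `O`).
-/

namespace Pool.Agent.ESH

open CategoryTheory AlgebraicGeometry IsLocalRing
open scoped TensorProduct

universe u

variable {O : Type u} [CommRing O] [IsDomain O] [IsDiscreteValuationRing O] {X : Scheme.{u}}
  (f : X ⟶ Spec (.of O))


theorem smd [IsProper f] [SmoothOfRelativeDimension 1 f] [GeometricallyIntegral f] [IsIntegral X]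
    [Finite (ResidueField O)] {K F : Type u} [Field K] [Algebra O K] [IsFractionRing O K] [Field F]
    [Algebra K F] [Algebra O F] [IsScalarTower O K F] (e : X.functionField ≃+* F)
    (he : ∀ c : O, e (constMap f c) = algebraMap O F c) :
    ∃ (W₀ : ValuationSubring F) (pts₀ : Set (Subring F)), IsBMdl O K W₀ pts₀ := by
  obtain ⟨η, hη, hs⟩ := set_eta f
  obtain ⟨B, iB, iD, iOB, iBF, q, hq, hp, hch, hst, hsη, -⟩ := sct f e he η hη hs η hη
  obtain ⟨W₀, hW⟩ := cpw (O := O) (B := B) (F := F) (q := q) hch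
  have hWη : ∀ g : F, g ∈ W₀ ↔ g ∈ stk e η := by
    intro g
    rw [hW, hsη]
  -- the points of the special fibre
  have hpt : ∀ x : X, f x = closedPoint O → x ≠ η → IsBPt O K W₀ (stk e x) := by
    intro x hx hne
    obtain ⟨B', iB', iD', iOB', iBF', q', hq', hp', hch', hst', hsη', hq0⟩ :=
      sct f e he η hη hs x hx
    have hW' : ∀ g : F, g ∈ W₀ ↔ g ∈ locP F (sfI O B') := by
      intro g
      rw [hWη, hsη']
    rw [hst']
    exact cpi hch' (fun h => hne (hq0 h)) W₀ hW'
  have hKO : ∀ c : O, algebraMap K F (algebraMap O K c) = algebraMap O F c := fun c =>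
    (IsScalarTower.algebraMap_apply O K F c).symm
  refine ⟨W₀, {A | ∃ x : X, f x = closedPoint O ∧ x ≠ η ∧ A = stk e x}, ?_⟩
  refine ⟨cpw_base hch W₀ hW, cpw_scale hch W₀ hW, cpg hch W₀ hW, cpi_der hch W₀ hW, ?_, ?_, ?_⟩
  · rintro A ⟨x, hx, hne, rfl⟩
    exact hpt x hx hne
  · intro V₀ hV hVW
    have hVO : ∀ c : O, algebraMap O F c ∈ V₀ := by
      intro c
      rw [← hKO]
      exact (hV _).mpr ⟨c, rfl⟩
    obtain ⟨x, hx⟩ := scv_centre f e he V₀ hVO
    have hnu : ∀ c ∈ maximalIdeal O, algebraMap O F c ∈ V₀.nonunits := by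
      intro c hc
      rw [ValuationSubring.mem_nonunits_iff_or]
      by_cases hc0 : c = 0
      · left
        rw [hc0, map_zero]
      · right
        intro hinv
        rw [← hKO, ← map_inv₀, hV] at hinv
        obtain ⟨d, hd⟩ := hinv
        have h0 : algebraMap O K c ≠ 0 := by
          intro h0
          exact hc0 (IsFractionRing.injective O K (by rw [h0, map_zero]))
        have h1 : c * d = 1 := by
          apply IsFractionRing.injective O K
          rw [map_mul, hd, map_one, mul_inv_cancel₀ h0]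
        exact hc (IsUnit.of_mul_eq_one _ h1)
    have hxc := scv_closed f e he V₀ hnu x hx
    refine ⟨stk e x, ⟨x, hxc, ?_, rfl⟩, hx⟩
    rintro rfl
    apply hVW
    apply le_antisymm
    · intro a ha
      by_contra hna
      have ha0 : a ≠ 0 := by
        rintro rfl
        exact hna (zero_mem _)
      have hinv : a⁻¹ ∈ W₀ := (W₀.mem_or_inv_mem a).resolve_left hna
      have hNU : NU (stk e x) a⁻¹ := by
        refine ⟨(hWη _).mp hinv, Or.inr ?_⟩
        rw [inv_inv]
        intro h
        exact hna ((hWη _).mpr h)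
      have h1 := hx.2 _ hNU
      rw [ValuationSubring.mem_nonunits_iff_or, inv_inv] at h1
      rcases h1 with h1 | h1
      · exact ha0 (inv_eq_zero.mp h1)
      · exact h1 ha
    · intro a ha
      exact hx.1 a ((hWη a).mp ha)
  · rintro V₀ A ⟨x, hx, hxne, rfl⟩ A' ⟨y, hy, hyne, rfl⟩ hdx hdy
    have hVO : ∀ c : O, algebraMap O F c ∈ V₀ := fun c =>
      hdx.1 _ ((hpt x hx hxne).base c)
    rw [scv_sep f e he V₀ hVO x y hdx hdy]

end Pool.Agent.ESH
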