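import Pool.Agent.ESH.Defs2
import Pool.Agent.ESH.DefsB

/-!
# ESH / VDV: the valuation ring of a finite place

`O = (v.valuation K).valuationSubring` is the localization of `𝓞 K` at `v`: a discrete valuation ring (the valuation has value group `ℤ`:
`v.valuation_exists_uniformizer`) with residue field `𝓞 K / v`, finite.  (Every `x ∈ O` is congruent modulo the maximal ideal to an
element of `𝓞 K`: `x = a/b` with `b ∉ v`, and `b` is invertible modulo `v`.)  `vdv_over`: `VOver V v` says `V ∩ K = O`.
-/

namespace Pool.Agent.ESH

open NumberField IsDedekindDomain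

theorem vdv_dvr {K : Type*} [Field K] [NumberField K] (v : HeightOneSpectrum (𝓞 K)) :
    IsDiscreteValuationRing (v.valuation K).valuationSubring :=
  (v.valuation K).valuationSubring_isDiscreteValuationRing

theorem vdv_fin {K : Type*} [Field K] [NumberField K] (v : HeightOneSpectrum (𝓞 K)) :
    Finite (IsLocalRing.ResidueField (v.valuation K).valuationSubring) := by
  rw [← HeightOneSpectrum.valuationSubringAtPrime_eq_valuationSubring]
  have : v.asIdeal.IsMaximal := v.isMaximal
  have h1 : Finite (𝓞 K ⧸ v.asIdeal) := inferInstance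
  exact Finite.of_equiv _ (IsLocalization.AtPrime.equivQuotMaximalIdeal v.asIdeal
    (HeightOneSpectrum.valuationSubringAtPrime K v)).toEquiv

theorem vdv_over {K C : Type*} [Field K] [NumberField K] [Field C] [Algebra K C] (V : ValuationSubring C)
    (v : HeightOneSpectrum (𝓞 K)) (h : VOver V v) (x : K) :
    algebraMap K C x ∈ V ↔ x ∈ Set.range (algebraMap (v.valuation K).valuationSubring K) := by
  rw [h x]
  constructor
  · intro hx
    exact ⟨⟨x, (Valuation.mem_valuationSubring_iff _ _).2 hx⟩, rfl⟩
  · rintro ⟨y, rfl⟩
    exact (Valuation.mem_valuationSubring_iff _ _).1 y.2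

end Pool.Agent.ESH
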