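import Pool.Agent.ESH.DefsF
import Pool.Agent.ESH.SMD
import Pool.Agent.ESH.SGF
import Pool.Agent.ESH.SFF
import Pool.Agent.ESH.VDV
import Pool.Agent.ESH.LFT
import Pool.Agent.ESH.BMD
import Pool.Agent.ESH.RKO

/-!
# ESH / SGM: good models over the algebraic closure

`V` is `GoodV`.  It lies over a unique place `v` of `K` (CVU: `V` non-trivial) not in `T`, so `GoodRed f v`: `Y`, `p`, `g`.  `O` = the valuation ring of
`v` (VDV); `sin_int` for `p`; `sgf`: `e'`; `smd`: `IsBMdl O K W₀ pts₀`; `bmd` (`Rk1 V`: RKO; `ffc`) gives the model of `Φ` and the last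
clause, with `σ = lift s`.
-/

namespace Pool.Agent.ESH

open CategoryTheory AlgebraicGeometry Pool.Agent.Helper11 NumberField IsDedekindDomain

universe u

theorem sgm {K F : Type u} {C Φ : Type*} [Field K] [NumberField K] [Field F] [Algebra K F] [Field C]
    [Algebra K C] [Algebra.IsAlgebraic K C] [IsAlgClosed C] [CharZero C] [Field Φ] [Algebra C Φ] [Algebra F Φ]
    [FunField K F] [FunField C Φ] (hc : Cmps K F C Φ) {X : Scheme.{u}} [IsIntegral X] (f : X ⟶ Spec (.of K))
    (e : X.functionField ≃+* F) (he : ∀ c : K, e (constMap f c) = algebraMap K F c)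
    (T : Finset (HeightOneSpectrum (𝓞 K))) (m : ℕ) (hT : ∀ v : HeightOneSpectrum (𝓞 K), v ∉ T → GoodRed f v)
    (lift : (C ≃ₐ[K] C) → (Φ ≃+* Φ))
    (hlift : ∀ (s : C ≃ₐ[K] C) (c : C), lift s (algebraMap C Φ c) = algebraMap C Φ (s c))
    (hliftF : ∀ (s : C ≃ₐ[K] C) (y : F), lift s (algebraMap F Φ y) = algebraMap F Φ y)
    (V : ValuationSubring C) (hV : GoodV T m V) :
    ∃ (W : ValuationSubring Φ) (pts : Set (Subring Φ)), IsMdl V W pts ∧ ∀ s : C ≃ₐ[K] C, Inert V s →
      (∀ y ∈ W, lift s y - y ∈ W.nonunits) ∧ ∀ A ∈ pts, PresA (lift s) A := by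
  obtain ⟨v, hv⟩ := cvu_under (K := K) V hV.ne_top
  have hvT : v ∉ T := fun h => hV.not_over v h hv
  obtain ⟨Y, p, g, hp1, hp2, hp3, hp⟩ := hT v hvT
  have hdvr : IsDiscreteValuationRing (v.valuation K).valuationSubring := vdv_dvr v
  have hfin : Finite (IsLocalRing.ResidueField (v.valuation K).valuationSubring) := vdv_fin v
  have hint : IsIntegral Y := sin_int p
  letI : Algebra (v.valuation K).valuationSubring F :=
    ((algebraMap K F).comp (algebraMap (v.valuation K).valuationSubring K)).toAlgebra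
  have htow : IsScalarTower (v.valuation K).valuationSubring K F :=
    IsScalarTower.of_algebraMap_eq' rfl
  obtain ⟨e', he'⟩ := sgf f p g hp e he
  obtain ⟨W₀, pts₀, hB⟩ := smd (K := K) p e' he'
  obtain ⟨W, pts, hM, hlast⟩ := bmd hB hc V (rko (K := K) V hV.ne_top) (vdv_over V v hv)
  refine ⟨W, pts, hM, fun s hs => ?_⟩
  exact hlast (lift s) (s : C ≃+* C) (hlift s) (hliftF s) hs

end Pool.Agent.ESH
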