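import Pool.Agent.ESH.DefsS

/-!
# ESH / SIN: the model is an integral scheme

`f` is smooth (`SmoothOfRelativeDimension.smooth`), so flat, locally of finite presentation and universally open; `Spec O` is integral and
locally noetherian: `GeometricallyIntegral.isIntegral_of_isLocallyNoetherian`.
-/

namespace Pool.Agent.ESH

open CategoryTheory AlgebraicGeometry IsLocalRing
open scoped TensorProduct

universe u

variable {O : Type u} [CommRing O] [IsDomain O] [IsDiscreteValuationRing O] {X : Scheme.{u}}
  (f : X ⟶ Spec (.of O))


theorem sin_int [SmoothOfRelativeDimension 1 f] [GeometricallyIntegral f] : IsIntegral X := by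
  have : Smooth f := SmoothOfRelativeDimension.smooth 1 f
  have : IsNoetherianRing (CommRingCat.of O) := inferInstanceAs (IsNoetherianRing O)
  have : IsDomain (CommRingCat.of O) := inferInstanceAs (IsDomain O)
  exact GeometricallyIntegral.isIntegral_of_isLocallyNoetherian f

end Pool.Agent.ESH
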