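import Pool.Agent.ESH.EVL

/-!
# ESH / TRP: transport of a model by an automorphism

Let `σ` be a ring automorphism of `Φ` inducing `s` on `C`, with `s(V) = V`.  The image of a model is a model:
`W₁ = {f | σ⁻¹ f ∈ W}`, `pts₁ = {A | σ⁻¹(A) ∈ pts}` where `σ⁻¹(A) = A.comap σ`.  Everything is transported
verbatim; a parameter of `A` is `σ t` for a parameter `t` of `A.comap σ`; the derivation is `σ ∘ D ∘ σ⁻¹`
(`C`-linear, because `σ` maps `C` onto `C` and `D` is `C`-linear); a place `R` is above `A` iff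
`plMap σ⁻¹ s⁻¹ _ R` is above `A.comap σ`.
-/

namespace Pool.Agent.ESH

open Pool.Agent.Helper11

variable {C Φ : Type*} [Field C] [Field Φ] [Algebra C Φ] [FunField C Φ] [CharZero C] [IsAlgClosed C]

private theorem trp_nu {K : Type*} [Field K] (A : ValuationSubring K) (a : K) :
    a ∈ A.nonunits ↔ a = 0 ∨ a⁻¹ ∉ A := by
  rw [ValuationSubring.mem_nonunits_iff]
  by_cases ha : a = 0
  · subst ha
    simp
  · have h1 : A.valuation a ≠ 0 := (Valuation.ne_zero_iff _).2 ha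
    rw [← ValuationSubring.valuation_le_one_iff, map_inv₀, inv_le_one₀ (zero_lt_iff.2 h1), not_le]
    simp [ha]

private theorem trp_symm {σ : Φ ≃+* Φ} {s : C ≃+* C}
    (hs : ∀ c : C, σ (algebraMap C Φ c) = algebraMap C Φ (s c)) (c : C) :
    σ.symm (algebraMap C Φ c) = algebraMap C Φ (s.symm c) := by
  rw [RingEquiv.symm_apply_eq, hs, RingEquiv.apply_symm_apply]

/-- non-units of a valuation ring and ring automorphisms -/
private theorem trp_nonunits {K : Type*} [Field K] (A B : ValuationSubring K) (τ : K ≃+* K)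
    (h : ∀ x, x ∈ A ↔ τ x ∈ B) (x : K) : x ∈ A.nonunits ↔ τ x ∈ B.nonunits := by
  rw [trp_nu, trp_nu, h, map_inv₀, EmbeddingLike.map_eq_zero_iff]

private theorem trp_NU (A B : Subring Φ) (τ : Φ ≃+* Φ) (h : ∀ x, x ∈ A ↔ τ x ∈ B) (x : Φ) :
    NU A x ↔ NU B (τ x) := by
  unfold NU
  rw [h, h, map_inv₀, EmbeddingLike.map_eq_zero_iff]

private noncomputable def trp_der (σ : Φ ≃+* Φ) (s : C ≃+* C)
    (hs : ∀ c : C, σ (algebraMap C Φ c) = algebraMap C Φ (s c)) (D : Derivation C Φ Φ) :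
    Derivation C Φ Φ :=
  Derivation.mk'
    { toFun := fun x => σ (D (σ.symm x))
      map_add' := fun x y => by rw [map_add, map_add, map_add]
      map_smul' := fun c x => by
        rw [Algebra.smul_def, map_mul, trp_symm hs, ← Algebra.smul_def, D.map_smul, Algebra.smul_def,
          map_mul, hs, RingEquiv.apply_symm_apply, Algebra.smul_def]
        rfl }
    (fun a b => by
      show σ (D (σ.symm (a * b))) = a * σ (D (σ.symm b)) + b * σ (D (σ.symm a))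
      rw [map_mul, D.leibniz, map_add, smul_eq_mul, smul_eq_mul, map_mul, map_mul,
        RingEquiv.apply_symm_apply, RingEquiv.apply_symm_apply])

private theorem trp_der_apply (σ : Φ ≃+* Φ) (s : C ≃+* C)
    (hs : ∀ c : C, σ (algebraMap C Φ c) = algebraMap C Φ (s c)) (D : Derivation C Φ Φ) (x : Φ) :
    trp_der σ s hs D x = σ (D (σ.symm x)) := rfl

private theorem trp_par {V : ValuationSubring C} {W W₁ : ValuationSubring Φ} (σ : Φ ≃+* Φ)
    (s : C ≃+* C) (hs : ∀ c : C, σ (algebraMap C Φ c) = algebraMap C Φ (s c))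
    (hsV : ∀ c : C, s c ∈ V ↔ c ∈ V) (hW : ∀ x, x ∈ W ↔ σ x ∈ W₁) {A B : Subring Φ}
    (hAB : ∀ x, x ∈ A ↔ σ x ∈ B) {t : Φ} (ht : IsPar V W A t) : IsPar V W₁ B (σ t) := by
  have hV' : ∀ c, c ∈ V ↔ s c ∈ V := fun c => (hsV c).symm
  have hB : ∀ x, x ∈ B ↔ σ.symm x ∈ A := fun x => by rw [hAB, RingEquiv.apply_symm_apply]
  have hWs : ∀ x, x ∈ W₁ ↔ σ.symm x ∈ W := fun x => by rw [hW, RingEquiv.apply_symm_apply]
  have hs' := trp_symm hs
  constructor
  · exact (trp_NU A B σ hAB t).1 ht.mem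
  · intro a ha
    obtain ⟨c, hc, x, hx, y, hy, h⟩ := ht.gen (σ.symm a) ((trp_NU B A σ.symm hB a).1 ha)
    refine ⟨s c, (trp_nonunits V V s hV' c).1 hc, σ x, (hAB x).1 hx, σ y, (hAB y).1 hy, ?_⟩
    have h1 := congrArg σ h
    rwa [RingEquiv.apply_symm_apply, map_add, map_mul, map_mul, hs] at h1
  · intro a ha hn
    obtain ⟨n, u, hu, hu0, hui, h⟩ := ht.dvr (σ.symm a) ((hB a).1 ha)
      (fun h => hn ((trp_nonunits W₁ W σ.symm hWs a).2 h))
    refine ⟨n, σ u, (hAB u).1 hu, fun h => hu0 ((EmbeddingLike.map_eq_zero_iff).1 h), ?_, ?_⟩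
    · rw [← map_inv₀]
      exact (hAB _).1 hui
    · rw [trp_nonunits W₁ W σ.symm hWs]
      simpa using h
  · obtain ⟨D, hD1, hD2⟩ := ht.der
    refine ⟨trp_der σ s hs D, ?_, ?_⟩
    · rw [trp_der_apply, RingEquiv.symm_apply_apply, hD1, map_one]
    · intro a ha
      rw [trp_der_apply]
      exact (hAB _).1 (hD2 _ ((hB a).1 ha))
  · intro R hR c hc a ha haR
    have hge : ∀ (n : ℤ) (f : Φ), σ.symm f ∈ (plMap σ.symm s.symm hs' R).ge n ↔ f ∈ R.ge n :=
      fun n f => plMap_ge σ.symm s.symm hs' R n f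
    obtain ⟨b, hb, h⟩ := ht.zero (plMap σ.symm s.symm hs' R) (by
      intro x hx
      have h1 := (hge 0 (σ x)).2 (hR (σ x) ((hAB x).1 hx))
      rwa [RingEquiv.symm_apply_apply] at h1) (s.symm c) (by
      have h1 := (hge 1 (σ t - algebraMap C Φ c)).2 hc
      rwa [map_sub, RingEquiv.symm_apply_apply, hs'] at h1) (σ.symm a) ((hB a).1 ha)
      ((hge 1 a).2 haR)
    refine ⟨σ b, (hAB b).1 hb, ?_⟩
    have h1 := congrArg σ h
    rwa [RingEquiv.apply_symm_apply, map_mul, map_sub, hs, RingEquiv.apply_symm_apply] at h1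

private theorem trp_pt {V : ValuationSubring C} {W W₁ : ValuationSubring Φ} (σ : Φ ≃+* Φ)
    (s : C ≃+* C) (hs : ∀ c : C, σ (algebraMap C Φ c) = algebraMap C Φ (s c))
    (hsV : ∀ c : C, s c ∈ V ↔ c ∈ V) (hW : ∀ x, x ∈ W ↔ σ x ∈ W₁) {A B : Subring Φ}
    (hAB : ∀ x, x ∈ A ↔ σ x ∈ B) (h : IsPt V W A) : IsPt V W₁ B := by
  have hV' : ∀ c, c ∈ V ↔ s c ∈ V := fun c => (hsV c).symm
  have hVs : ∀ c, c ∈ V ↔ s.symm c ∈ V := fun c => by rw [hV' (s.symm c), RingEquiv.apply_symm_apply]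
  have hB : ∀ x, x ∈ B ↔ σ.symm x ∈ A := fun x => by rw [hAB, RingEquiv.apply_symm_apply]
  have hWs : ∀ x, x ∈ W₁ ↔ σ.symm x ∈ W := fun x => by rw [hW, RingEquiv.apply_symm_apply]
  have hs' := trp_symm hs
  constructor
  · intro c hc
    rw [hB, hs']
    exact h.base _ ((hVs c).1 hc)
  · intro a ha
    rw [hWs]
    exact h.le _ ((hB a).1 ha)
  · intro a b ha hb
    rw [trp_NU B A σ.symm hB] at ha hb ⊢
    rw [map_add]
    exact h.add _ _ ha hb
  · intro a ha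
    obtain ⟨c, hc, h1⟩ := h.res (σ.symm a) ((hB a).1 ha)
    refine ⟨s c, (hV' c).1 hc, ?_⟩
    rw [trp_NU B A σ.symm hB, map_sub, hs', RingEquiv.symm_apply_apply]
    exact h1
  · intro c hc
    rw [trp_NU B A σ.symm hB, hs']
    exact h.nub _ ((trp_nonunits V V s.symm hVs c).1 hc)
  · intro f hf
    obtain ⟨a, ha, u, hu, hun, h1⟩ := h.frac (σ.symm f) ((hWs f).1 hf)
    refine ⟨σ a, (hAB a).1 ha, σ u, (hAB u).1 hu, fun h2 => hun ((trp_nonunits W W₁ σ hW u).2 h2), ?_⟩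
    have h2 := congrArg σ h1
    rwa [map_mul, RingEquiv.apply_symm_apply] at h2
  · intro c hc hc0 a ha haW
    have h1 : σ.symm (a / algebraMap C Φ c) = σ.symm a / algebraMap C Φ (s.symm c) := by
      rw [map_div₀, hs']
    rw [hB, h1]
    rw [hWs, h1] at haW
    exact h.sat _ ((hVs c).1 hc) (fun h2 => hc0 ((EmbeddingLike.map_eq_zero_iff).1 h2)) _ ((hB a).1 ha) haW
  · obtain ⟨t, ht⟩ := h.par
    exact ⟨σ t, trp_par σ s hs hsV hW hAB ht⟩

theorem trp {V : ValuationSubring C} {W : ValuationSubring Φ} {pts : Set (Subring Φ)}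
    (h : IsMdl V W pts) (σ : Φ ≃+* Φ) (s : C ≃+* C)
    (hs : ∀ c : C, σ (algebraMap C Φ c) = algebraMap C Φ (s c)) (hsV : ∀ c : C, s c ∈ V ↔ c ∈ V) :
    IsMdl V (W.comap (σ.symm : Φ →+* Φ)) {A : Subring Φ | A.comap (σ : Φ →+* Φ) ∈ pts} := by
  have hV' : ∀ c, c ∈ V ↔ s c ∈ V := fun c => (hsV c).symm
  have hVs : ∀ c, c ∈ V ↔ s.symm c ∈ V := fun c => by rw [hV' (s.symm c), RingEquiv.apply_symm_apply]
  have hs' := trp_symm hs
  have hWs : ∀ x, x ∈ W.comap (σ.symm : Φ →+* Φ) ↔ σ.symm x ∈ W := fun x => Iff.rfl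
  have hW : ∀ x, x ∈ W ↔ σ x ∈ W.comap (σ.symm : Φ →+* Φ) := fun x => by
    rw [hWs, RingEquiv.symm_apply_apply]
  constructor
  · intro c
    rw [hWs, hs', h.base, ← hVs]
  · intro f hf
    obtain ⟨c, hc, h1, h2⟩ := h.scale (σ.symm f) (fun h2 => hf ((EmbeddingLike.map_eq_zero_iff).1 h2))
    refine ⟨s c, fun h3 => hc ((EmbeddingLike.map_eq_zero_iff).1 h3), ?_, ?_⟩
    · rw [hWs, map_div₀, hs', RingEquiv.symm_apply_apply]
      exact h1
    · rw [hWs, map_div₀, hs', RingEquiv.symm_apply_apply]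
      exact h2
  · intro f hf
    obtain ⟨a, c, hc, h1, h2⟩ := h.trans (σ.symm f) (by
      intro c hc
      apply hf (s c)
      rw [← hs, ← hc, RingEquiv.apply_symm_apply])
    refine ⟨s a, s c, fun h3 => hc ((EmbeddingLike.map_eq_zero_iff).1 h3), ?_, ?_⟩
    · rw [hWs, map_div₀, map_sub, hs', hs', RingEquiv.symm_apply_apply, RingEquiv.symm_apply_apply]
      exact h1
    · intro b hb h3
      rw [trp_nonunits _ W σ.symm hWs, map_sub, map_div₀, map_sub, hs', hs', hs',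
        RingEquiv.symm_apply_apply, RingEquiv.symm_apply_apply] at h3
      exact h2 _ ((hVs b).1 hb) h3
  · intro A hA
    exact trp_pt σ s hs hsV hW (A := A.comap (σ : Φ →+* Φ)) (B := A) (fun x => Iff.rfl) (h.pt _ hA)
  · intro V' hV1 hV2
    obtain ⟨A, hA, hD⟩ := h.centre (V'.comap (σ : Φ →+* Φ)) (by
      intro c
      have h1 : algebraMap C Φ c ∈ V'.comap (σ : Φ →+* Φ) ↔ σ (algebraMap C Φ c) ∈ V' := Iff.rfl
      rw [h1, hs, hV1, hsV]) (by
      intro h1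
      apply hV2
      ext x
      rw [hWs, ← h1]
      have h2 : σ.symm x ∈ V'.comap (σ : Φ →+* Φ) ↔ σ (σ.symm x) ∈ V' := Iff.rfl
      rw [h2, RingEquiv.apply_symm_apply])
    have hAB : ∀ x, x ∈ A.comap (σ.symm : Φ →+* Φ) ↔ σ.symm x ∈ A := fun x => Iff.rfl
    have hVV : ∀ x, x ∈ V' ↔ σ.symm x ∈ V'.comap (σ : Φ →+* Φ) := fun x => by
      have h2 : σ.symm x ∈ V'.comap (σ : Φ →+* Φ) ↔ σ (σ.symm x) ∈ V' := Iff.rfl
      rw [h2, RingEquiv.apply_symm_apply]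
    refine ⟨A.comap (σ.symm : Φ →+* Φ), ?_, ?_, ?_⟩
    · show (A.comap (σ.symm : Φ →+* Φ)).comap (σ : Φ →+* Φ) ∈ pts
      have h1 : (A.comap (σ.symm : Φ →+* Φ)).comap (σ : Φ →+* Φ) = A := by
        ext x
        have h2 : x ∈ (A.comap (σ.symm : Φ →+* Φ)).comap (σ : Φ →+* Φ) ↔ σ.symm (σ x) ∈ A := Iff.rfl
        rw [h2, RingEquiv.symm_apply_apply]
      rw [h1]
      exact hA
    · intro a ha
      rw [hVV]
      exact hD.1 _ ((hAB a).1 ha)
    · intro a ha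
      rw [trp_nonunits V' _ σ.symm hVV]
      exact hD.2 _ ((trp_NU _ A σ.symm hAB a).1 ha)
  · intro V' A hA B hB hDA hDB
    have hVV : ∀ x, x ∈ V'.comap (σ : Φ →+* Φ) ↔ σ x ∈ V' := fun x => Iff.rfl
    have key : ∀ A : Subring Φ, Dom A V' → Dom (A.comap (σ : Φ →+* Φ)) (V'.comap (σ : Φ →+* Φ)) := by
      intro A hD
      refine ⟨fun a ha => hD.1 _ ha, fun a ha => ?_⟩
      rw [trp_nonunits _ V' σ hVV]
      exact hD.2 _ ((trp_NU _ A σ (fun x => Iff.rfl) a).1 ha)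
    have h1 := h.sep (V'.comap (σ : Φ →+* Φ)) _ hA _ hB (key A hDA) (key B hDB)
    ext x
    have h2 : x ∈ A ↔ σ.symm x ∈ A.comap (σ : Φ →+* Φ) := by
      have h3 : σ.symm x ∈ A.comap (σ : Φ →+* Φ) ↔ σ (σ.symm x) ∈ A := Iff.rfl
      rw [h3, RingEquiv.apply_symm_apply]
    have h4 : x ∈ B ↔ σ.symm x ∈ B.comap (σ : Φ →+* Φ) := by
      have h3 : σ.symm x ∈ B.comap (σ : Φ →+* Φ) ↔ σ (σ.symm x) ∈ B := Iff.rfl
      rw [h3, RingEquiv.apply_symm_apply]
    rw [h2, h4, h1]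

end Pool.Agent.ESH
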