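import Pool.Agent.ESH.DefsE
import Pool.Agent.ESH.EVL
import Pool.Agent.Helper11.Degree

/-!
# ESH / TRV: value of the trace

Let `R = C[z]`, `O` the integral closure of `R` in `Φ` (Helper11 `Rx`, `Ox`), both localised at `z`: `O_z` is a free module of rank `[Φ : C(z)]` over the discrete valuation ring `C[z]_(z)`, its maximal ideals are the
places `R` with `1 ≤ R.ord z`, and `f ∈ O_z`.  The value at `z = 0` of the trace of `f` is the trace of the multiplication by `f` on the `C`-algebra `O_z/z = ∏_R O/𝔭_R^(e_R)`, `e_R = R.ord z`; on `O/𝔭^e`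
(dimension `e`, filtration by the powers of `𝔭`, multiplication by `f` is the scalar `f(R)` on the quotients) the trace is `e f(R)`.
(Mathlib: `Algebra.trace_quotient_eq_of_isDedekindDomain`, `Algebra.trace_quotient_mk`; or use the characteristic polynomial: the norm of `f - c` has order `∑_R R.ord (f - c)` at `z = 0`.)
-/

namespace Pool.Agent.ESH

open Pool.Agent.Helper11 Polynomial IntermediateField IsDedekindDomain

open scoped IntermediateField.algebraAdjoinAdjoin

variable {C Φ : Type*} [Field C] [Field Φ] [Algebra C Φ] [FunField C Φ] [CharZero C] [IsAlgClosed C]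

private theorem TRV_pi {K ι : Type*} [Field K] [Fintype ι] {A : ι → Type*} [∀ i, CommRing (A i)]
    [∀ i, Algebra K (A i)] [∀ i, FiniteDimensional K (A i)] (x : ∀ i, A i) :
    Algebra.trace K (∀ i, A i) x = ∑ i, Algebra.trace K (A i) (x i) := by
  classical
  let b := fun i => Module.finBasis K (A i)
  rw [Algebra.trace_eq_matrix_trace (Pi.basis b) x, Matrix.trace, Fintype.sum_sigma]
  refine Finset.sum_congr rfl fun i _ => ?_
  rw [Algebra.trace_eq_matrix_trace (b i) (x i), Matrix.trace]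
  refine Finset.sum_congr rfl fun j _ => ?_
  rw [Matrix.diag_apply, Matrix.diag_apply, Algebra.leftMulMatrix_eq_repr_mul, Algebra.leftMulMatrix_eq_repr_mul, Pi.basis_repr, Pi.mul_apply,
    Pi.basis_apply, Pi.single_eq_same]

private theorem TRV_nil {K A : Type*} [Field K] [CommRing A] [Algebra K A] [FiniteDimensional K A]
    (c : K) (x : A) (h : IsNilpotent (x - algebraMap K A c)) :
    Algebra.trace K A x = (Module.finrank K A : K) * c := by
  have h1 := Algebra.isNilpotent_trace_of_isNilpotent (R := K) h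
  rw [map_sub, Algebra.trace_algebraMap, isNilpotent_iff_eq_zero, sub_eq_zero] at h1
  rw [h1, nsmul_eq_mul]

private theorem TRV_gen {R S : Type*} [CommRing R] [CommRing S] [Algebra R S] [IsDedekindDomain R]
    [IsDedekindDomain S] [Module.Finite R S] [Module.IsTorsionFree R S] (p : Ideal R) [p.IsMaximal]
    (hp : Ideal.map (algebraMap R S) p ≠ ⊥) (g : S)
    (c : (UniqueFactorizationMonoid.factors (Ideal.map (algebraMap R S) p)).toFinset → R)
    (hc : ∀ P : (UniqueFactorizationMonoid.factors (Ideal.map (algebraMap R S) p)).toFinset,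
      g - algebraMap R S (c P) ∈ P.1) :
    Algebra.intTrace R S g - ∑ P : (UniqueFactorizationMonoid.factors (Ideal.map (algebraMap R S) p)).toFinset,
      ((Ideal.ramificationIdx' p P.1 * Ideal.inertiaDeg' p P.1 : ℕ) : R) * c P ∈ p := by
  classical
  rw [← Ideal.Quotient.eq, ← Algebra.trace_quotient_eq_of_isDedekindDomain S p g]
  let _ : Field (R ⧸ p) := Ideal.Quotient.field _
  let e : (S ⧸ Ideal.map (algebraMap R S) p) ≃ₐ[R ⧸ p]
      ∀ P : (UniqueFactorizationMonoid.factors (Ideal.map (algebraMap R S) p)).toFinset,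
        S ⧸ (P : Ideal S) ^ Ideal.ramificationIdx' p P.1 :=
    AlgEquiv.ofRingEquiv (f := Ideal.Factors.piQuotientEquiv _ hp) (by
      intro r
      obtain ⟨r, rfl⟩ := Ideal.Quotient.mk_surjective r
      rfl)
  have h2 := Algebra.trace_eq_of_algEquiv e (Ideal.Quotient.mk _ g)
  rw [← h2, TRV_pi, map_sum]
  refine Finset.sum_congr rfl fun P _ => ?_
  have h9 : IsNilpotent (e (Ideal.Quotient.mk _ g) P - algebraMap (R ⧸ p)
      (S ⧸ (P : Ideal S) ^ Ideal.ramificationIdx' p P.1) (Ideal.Quotient.mk _ (c P))) := by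
    refine ⟨Ideal.ramificationIdx' p P.1, ?_⟩
    have h10 : e (Ideal.Quotient.mk _ g) P - algebraMap (R ⧸ p)
      (S ⧸ (P : Ideal S) ^ Ideal.ramificationIdx' p P.1) (Ideal.Quotient.mk _ (c P)) =
      Ideal.Quotient.mk _ (g - algebraMap R S (c P)) := by
      rw [map_sub]
      rfl
    rw [h10, ← map_pow, Ideal.Quotient.eq_zero_iff_mem]
    exact Ideal.pow_mem_pow (hc P) _
  rw [TRV_nil _ _ h9, Ideal.Factors.finrank_pow_ramificationIdx, map_mul, map_natCast]

section

variable {z : Φ} [hz : Fact (Transcendental C z)]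

/-- membership in the prime of a place -/
private theorem TRV_mem (P : HeightOneSpectrum (Ox C z)) (s : Ox C z)
    (h6 : (s : Φ) ∈ (placeOfPrime P).ge 1) : s ∈ P.asIdeal := by
  by_contra hcon
  have h7 := (P.valuation_eq_one_iff_notMem (K := Φ)).2 hcon
  have h8 : (placeOfPrime P).ord (s : Φ) = 0 := by
    rw [placeOfPrime_ord]
    have : P.valuation Φ (s : Φ) = 1 := h7
    rw [this]; simp
  rcases h6 with h6 | h6
  · apply hcon
    have : s = 0 := Subtype.ext h6
    rw [this]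
    exact zero_mem _
  · omega

/-- integral elements -/
private theorem TRV_int (g : Φ) (h : ∀ R : Place C Φ, 0 ≤ R.ord z → g ∈ R.ge 0) :
    ∃ s : Ox C z, (s : Φ) = g := by
  obtain ⟨s, hs⟩ := HeightOneSpectrum.mem_integers_of_valuation_le_one (R := Ox C z) Φ g (by
    intro P
    by_cases hg : g = 0
    · rw [hg, map_zero]
      exact zero_le
    have h1 : 0 ≤ (placeOfPrime P).ord z := by
      have h2 : P.valuation Φ (algebraMap (Ox C z) Φ (algebraMap (Rx C z) (Ox C z) (xR C z))) ≤ 1 :=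
        P.valuation_le_one _
      have h3 : z ≠ 0 := fun h => (irreducible_xR (k := C) (x := z)).ne_zero (Subtype.ext h)
      have h4 : P.valuation Φ z ≠ 0 := (Valuation.ne_zero_iff _).2 h3
      have h5 : P.valuation Φ z ≤ 1 := h2
      rw [← WithZero.log_le_log h4 one_ne_zero, WithZero.log_one] at h5
      rw [placeOfPrime_ord]
      omega
    have h2 := (placeOfPrime P).le_ord_of_mem (h _ h1) hg
    rw [placeOfPrime_ord] at h2
    have h4 : P.valuation Φ g ≠ 0 := (Valuation.ne_zero_iff _).2 hg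
    rw [← WithZero.log_le_log h4 one_ne_zero, WithZero.log_one]
    omega)
  exact ⟨s, hs⟩

private theorem TRV_A (g : Ox C z) :
    ∃ t : Rx C z, ((Algebra.trace C⟮z⟯ Φ (g : Φ) : C⟮z⟯) : Φ) = (t : Φ) ∧
      t - algebraMap C (Rx C z) (∑ P : primesX C Φ z, ((placeX P).ord z : C) * ev (placeX P) (g : Φ)) ∈
        (Ideal.span {xR C z} : Ideal (Rx C z)) := by
  classical
  have hmax := isMaximal_span_xR (k := C) (x := z)
  have hfd := FunField.finiteDimensional_adjoin hz.out
  have hinj : Function.Injective (algebraMap (Rx C z) (Ox C z)) := by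
    intro a b hab
    have h3 : ((algebraMap (Rx C z) (Ox C z) a : Ox C z) : Φ) =
      ((algebraMap (Rx C z) (Ox C z) b : Ox C z) : Φ) := by rw [hab]
    exact Subtype.ext h3
  have hp : Ideal.map (algebraMap (Rx C z) (Ox C z)) (Ideal.span {xR C z}) ≠ ⊥ := by
    rw [Ne, Ideal.map_eq_bot_iff_le_ker, (RingHom.injective_iff_ker_eq_bot _).mp hinj, le_bot_iff]
    exact span_xR_ne_bot
  refine ⟨Algebra.intTrace (Rx C z) (Ox C z) g, ?_, ?_⟩
  · have h1 := Algebra.algebraMap_intTrace (A := Rx C z) (B := Ox C z) (K := C⟮z⟯) (L := Φ) g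
    have h2 : ((algebraMap (Rx C z) C⟮z⟯ (Algebra.intTrace (Rx C z) (Ox C z) g) : C⟮z⟯) : Φ) =
      ((Algebra.intTrace (Rx C z) (Ox C z) g : Rx C z) : Φ) := rfl
    rw [← h2, h1]
    rfl
  · have key : ∀ P : primesX C Φ z, 
        (g - algebraMap (Rx C z) (Ox C z) (algebraMap C (Rx C z) (ev (placeX P) (g : Φ)))) ∈ P.1 ∧
        (Ideal.span {xR C z} : Ideal (Rx C z)).inertiaDeg' P.1 = 1 := by
      intro P
      have h4 := (mem_primesX (k := C) (L := Φ) (x := z) P.1).1 P.2
      have h40 := h4.1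
      have h41 := h4.2
      have h5 := placeX_ord P
      have h6 : z ∈ (placeX P).ge 0 := by
        apply Place.mem_ge_of_le
        rw [h5]
        exact Int.natCast_nonneg _
      have h7 := evl_mem _ (Place.mem_ge_of_mem_Ox _ h6 g)
      exact ⟨TRV_mem ⟨P.1, h40, Ideal.ne_bot_of_liesOver_of_ne_bot (span_xR_ne_bot (k := C) (x := z)) P.1⟩ _ h7,
        @inertiaDeg_eq_one C Φ _ _ _ _ _ z _ _ ⟨P.1, h40,
          Ideal.ne_bot_of_liesOver_of_ne_bot (span_xR_ne_bot (k := C) (x := z)) P.1⟩ h41⟩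
    have h1 := TRV_gen (Ideal.span {xR C z} : Ideal (Rx C z)) hp g
      (fun P : primesX C Φ z => algebraMap C (Rx C z) (ev (placeX P) (g : Φ))) fun P => (key P).1
    convert h1 using 2
    rw [map_sum]
    refine Finset.sum_congr rfl fun P _ => ?_
    rw [(key P).2, mul_one, placeX_ord, Int.cast_natCast, map_mul, map_natCast]

private theorem TRV_B (g : Ox C z) (R₀ : Place C Φ) (h₀ : 1 ≤ R₀.ord z) :
    ((Algebra.trace C⟮z⟯ Φ (g : Φ) : C⟮z⟯) : Φ) ∈ R₀.ge 0 ∧
      ev R₀ ((Algebra.trace C⟮z⟯ Φ (g : Φ) : C⟮z⟯) : Φ) =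
        ∑ᶠ R : Place C Φ, if 1 ≤ R.ord z then ((R.ord z : ℤ) : C) * ev R (g : Φ) else 0 := by
  classical
  obtain ⟨t, ht, ht'⟩ := TRV_A g
  rw [mem_Rx_iff_ord R₀ (by omega)] at ht'
  set c := ∑ P : primesX C Φ z, ((placeX P).ord z : C) * ev (placeX P) (g : Φ) with hc
  have h1 : (t : Φ) - algebraMap C Φ c ∈ R₀.ge 1 := ht'
  rw [ht]
  refine ⟨?_, ?_⟩
  · have h2 := add_mem (R₀.ge_anti (by norm_num : (0 : ℤ) ≤ 1) h1) (R₀.algebraMap_mem_ge c)
    rwa [sub_add_cancel] at h2
  rw [evl_eq R₀ h1, hc]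
  rw [finsum_eq_sum_of_support_subset (s := Finset.univ.image (placeX (k := C) (L := Φ) (x := z))),
    Finset.sum_image (fun a _ b _ h => placeX_injective h)]
  · refine Finset.sum_congr rfl fun P _ => ?_
    split_ifs with hP
    · rfl
    · have h3 : (placeX P).ord z = 0 := by
        have h5 := placeX_ord P
        have h6 : 0 ≤ (placeX P).ord z := by
          rw [h5]
          exact Int.natCast_nonneg _
        omega
      rw [h3, Int.cast_zero, zero_mul]
  · intro v hv
    rw [Function.mem_support] at hv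
    have h6 : 0 < v.ord z := by
      by_contra h
      exact hv (if_neg (by omega))
    obtain ⟨P, hP⟩ := exists_placeX v h6
    rw [Finset.coe_image, Finset.coe_univ, Set.image_univ]
    exact ⟨P, hP⟩

end

/-- value of a polynomial in `z` at a zero of `z` -/
private theorem TRV_poly (R : Place C Φ) {z : Φ} (h : 1 ≤ R.ord z) (q : C[X]) :
    aeval z q ∈ R.ge 0 ∧ ev R (aeval z q) = q.coeff 0 := by
  have hz1 : z ∈ R.ge 1 := R.mem_ge_of_le h
  have hz0 : z ∈ R.ge 0 := R.ge_anti zero_le_one hz1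
  have h1 : ∀ p : C[X], aeval z p ∈ R.ge 0 := fun p =>
    R.mem_ge_of_mem_Rx hz0 ⟨_, Polynomial.aeval_mem_adjoin_singleton C z⟩
  refine ⟨h1 q, evl_eq R ?_⟩
  obtain ⟨p, hp⟩ := X_dvd_sub_C (p := q)
  have h2 : aeval z q - algebraMap C Φ (q.coeff 0) = z * aeval z p := by
    have := congrArg (aeval z) hp
    rwa [map_sub, aeval_C, map_mul, aeval_X] at this
  rw [h2]
  have h3 := R.mul_mem_ge hz1 (h1 p)
  rwa [add_zero] at h3

/-- common denominators away from `z = 0` -/
private theorem TRV_den {z : Φ} (hzne : z ≠ 0) (f : Φ) (hf : ∀ R : Place C Φ, 1 ≤ R.ord z → f ∈ R.ge 0) :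
    ∃ q : C[X], q.coeff 0 ≠ 0 ∧ ∀ R : Place C Φ, 0 ≤ R.ord z → aeval z q * f ∈ R.ge 0 := by
  classical
  have hfin := finite_pos_ord (k := C) f⁻¹
  let S : Finset (Place C Φ) := hfin.toFinset.filter fun R => R.ord z = 0 ∧ ev R z ≠ 0
  refine ⟨∏ R ∈ S, (X - Polynomial.C (ev R z)) ^ (R.ord f).natAbs, ?_, ?_⟩
  · rw [coeff_zero_eq_eval_zero, eval_prod, Finset.prod_ne_zero_iff]
    intro R hR
    rw [eval_pow, eval_sub, eval_X, eval_C, zero_sub]
    exact pow_ne_zero _ (neg_ne_zero.2 (Finset.mem_filter.1 hR).2.2)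
  · intro R hR
    have hz0 : z ∈ R.ge 0 := R.mem_ge_of_le hR
    have h1 : ∀ p : C[X], aeval z p ∈ R.ge 0 := fun p =>
      R.mem_ge_of_mem_Rx hz0 ⟨_, Polynomial.aeval_mem_adjoin_singleton C z⟩
    by_cases hfR : f ∈ R.ge 0
    · have h3 := R.mul_mem_ge (h1 (∏ R ∈ S, (X - Polynomial.C (ev R z)) ^ (R.ord f).natAbs)) hfR
      rwa [add_zero] at h3
    · have h2 : R.ord f < 0 := by
        by_contra hc
        exact hfR (R.mem_ge_of_le (not_lt.1 hc))
      have h3 : ¬ 1 ≤ R.ord z := fun hc => hfR (hf R hc)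
      have h4 : R.ord z = 0 := by omega
      have h5 : ev R z ≠ 0 := by
        intro hc
        rw [evl_zero_iff R hz0] at hc
        rcases hc with hc | hc
        · exact hzne hc
        · omega
      have h6 : R ∈ S := by
        rw [Finset.mem_filter, Set.Finite.mem_toFinset]
        refine ⟨?_, h4, h5⟩
        show 0 < R.ord f⁻¹
        rw [R.ord_inv]
        omega
      rw [← Finset.mul_prod_erase S _ h6, map_mul, map_pow, map_sub, aeval_X, aeval_C]
      have h7 := R.pow_mem_ge (evl_mem R hz0) (R.ord f).natAbs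
      have h8 := R.mul_mem_ge (R.mul_mem_ge h7 (h1 (∏ R ∈ S.erase R, (X - Polynomial.C (ev R z)) ^ (R.ord f).natAbs))) (R.mem_ge_ord f)
      refine R.ge_anti ?_ h8
      omega

theorem trv (E : IntermediateField C Φ) (z : Φ) (hE : E = C⟮z⟯) (hz : Transcendental C z) (f : Φ)
    (hf : ∀ R : Place C Φ, 1 ≤ R.ord z → f ∈ R.ge 0) (R₀ : Place C Φ) (h₀ : 1 ≤ R₀.ord z) :
    ((Algebra.trace E Φ f : E) : Φ) ∈ R₀.ge 0 ∧
      ev R₀ ((Algebra.trace E Φ f : E) : Φ) =
        ∑ᶠ R : Place C Φ, if 1 ≤ R.ord z then ((R.ord z : ℤ) : C) * ev R f else 0 := by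
  classical
  subst hE
  have hF : Fact (Transcendental C z) := ⟨hz⟩
  obtain ⟨q, hq, hq'⟩ := TRV_den (fun h : z = 0 => hz (by rw [h]; exact isAlgebraic_zero)) f hf
  obtain ⟨g, hg⟩ := TRV_int _ hq'
  obtain ⟨h1, h2⟩ := TRV_B g R₀ h₀
  rw [hg] at h1 h2
  have h3 : ((Algebra.trace C⟮z⟯ Φ (aeval z q * f) : C⟮z⟯) : Φ) =
      aeval z q * ((Algebra.trace C⟮z⟯ Φ f : C⟮z⟯) : Φ) := by
    have h4 : aeval z q * f = (aeval (AdjoinSimple.gen C z) q) • f := by
      rw [Algebra.smul_def, ← aeval_algebraMap_apply, AdjoinSimple.algebraMap_gen]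
    rw [h4, map_smul, smul_eq_mul]
    show ((aeval (AdjoinSimple.gen C z) q : C⟮z⟯) : Φ) * _ = _
    congr 1
    have h5 := aeval_algebraMap_apply Φ (AdjoinSimple.gen C z) q
    rw [AdjoinSimple.algebraMap_gen] at h5
    exact h5.symm
  rw [h3] at h1 h2
  obtain ⟨h5, h6⟩ := TRV_poly R₀ h₀ q
  have h7 : ev R₀ (aeval z q) ≠ 0 := by rwa [h6]
  obtain ⟨h8, h9⟩ := evl_inv R₀ h5 h7
  have h10 : aeval z q ≠ 0 := by
    intro hc
    apply h7
    rw [hc]
    have := evl_const R₀ (0 : C)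
    rwa [map_zero] at this
  have h11 : ((Algebra.trace C⟮z⟯ Φ f : C⟮z⟯) : Φ) =
      (aeval z q)⁻¹ * (aeval z q * ((Algebra.trace C⟮z⟯ Φ f : C⟮z⟯) : Φ)) := by
    rw [inv_mul_cancel_left₀ h10]
  rw [h11]
  refine ⟨?_, ?_⟩
  · have := R₀.mul_mem_ge h8 h1
    rwa [add_zero] at this
  rw [evl_mul R₀ h8 h1, h9, h6, h2]
  have h12 : ∀ R : Place C Φ, (if 1 ≤ R.ord z then ((R.ord z : ℤ) : C) * ev R (aeval z q * f) else 0) =
      q.coeff 0 * (if 1 ≤ R.ord z then ((R.ord z : ℤ) : C) * ev R f else 0) := by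
    intro R
    split_ifs with hR
    · obtain ⟨h13, h14⟩ := TRV_poly R hR q
      rw [evl_mul R h13 (hf R hR), h14]
      ring
    · rw [mul_zero]
  rw [finsum_congr h12, ← mul_finsum, inv_mul_cancel_left₀ hq]

end Pool.Agent.ESH
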