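import Pool.Agent.ESH.WRA
import Pool.Agent.ESH.RRA
import Pool.Agent.Helper11.FinsumTools

/-!
# ESH / WPT: a finite non-empty set of places stable under all automorphisms

`H = {f ∈ Φ | f dx is regular} = LL (div dx)` is finite-dimensional (RRA) and not zero (`hg`); basis `f_1, ..., f_n`, `w = Wr_D(f)`, `D = der hx`.  Define `m(R) = 2 R.ord w + n (n + 1) R.ord (R.dv x)`.
By WRA applied with the local basis (with `f_j ∈ R.ge (- R.ord (R.dv x))`): `2 R.ord w ≥ -2n R.ord(dv x) - n(n-1) R.ord(dv x)`, so `m(R) ≥ 0`, and `∑ m(R) = n (n+1) chi > 0`; so `Z = {R | m(R) > 0}` is not empty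
and finite.  Invariance: for an automorphism `γ`, `x' = γ x`, `D' = der hx' = γ D γ⁻¹`; `f_j' = γ f_j` is a basis of `H' = {f | f dx' regular}`, and `H' = θ⁻¹ H`, where `dx' = θ dx` (`θ = D x'`); so with `D' = θ⁻¹ D`
and `f'_j = θ⁻¹ ∑ a_ij f_i` (`a` invertible constant matrix): `γ w = Wr_{D'}(f') = θ^(-n(n-1)/2) θ^(-n) det(a) w` (WRL).  So `m(γR) = m(R)`.
-/

namespace Pool.Agent.ESH

open Pool.Agent.Helper11 Polynomial IntermediateField

variable {C Φ : Type*} [Field C] [Field Φ] [Algebra C Φ] [FunField C Φ] [CharZero C] [IsAlgClosed C]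


omit [FunField C Φ] [CharZero C] [IsAlgClosed C] in
private theorem wpt_tr (γ : Φ ≃ₐ[C] Φ) {x : Φ} (hx : Transcendental C x) :
    Transcendental C (γ x) := by
  intro h
  apply hx
  have h1 := h.algHom (γ.symm : Φ →ₐ[C] Φ)
  have h2 : (γ.symm : Φ →ₐ[C] Φ) (γ x) = x := γ.symm_apply_apply x
  rwa [h2] at h1

private theorem wpt_der {x : Φ} (hx : Transcendental C x) (γ : Φ ≃ₐ[C] Φ)
    (hx' : Transcendental C (γ x)) (f : Φ) : der hx' (γ f) = γ (der hx f) := by
  obtain ⟨δ, hδ⟩ : ∃ δ : Derivation C Φ Φ, ∀ y, δ y = γ (der hx (γ.symm y)) := by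
    refine ⟨Derivation.mk' (γ.toLinearMap ∘ₗ (der hx : Derivation C Φ Φ).toLinearMap ∘ₗ
      γ.symm.toLinearMap) ?_, fun y => rfl⟩
    intro a b
    change γ (der hx (γ.symm (a * b))) =
      a • γ (der hx (γ.symm b)) + b • γ (der hx (γ.symm a))
    rw [map_mul, Derivation.leibniz, map_add, smul_eq_mul, smul_eq_mul, map_mul, map_mul,
      AlgEquiv.apply_symm_apply, AlgEquiv.apply_symm_apply, smul_eq_mul, smul_eq_mul]
  have h1 : ∀ y, δ y = der hx' y * δ (γ x) := by
    intro y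
    have h2 := congrArg δ.liftKaehlerDifferential (D_eq_der_smul hx' y)
    rw [Derivation.liftKaehlerDifferential_comp_D, map_smul,
      Derivation.liftKaehlerDifferential_comp_D, smul_eq_mul] at h2
    exact h2
  have h3 : δ (γ x) = 1 := by
    rw [hδ, AlgEquiv.symm_apply_apply, der_self, map_one]
  have h4 := h1 (γ f)
  rw [h3, mul_one, hδ, AlgEquiv.symm_apply_apply] at h4
  exact h4.symm

private theorem wpt_dv {x : Φ} (hx : Transcendental C x) (γ : Φ ≃ₐ[C] Φ) {P Q : Place C Φ}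
    (hPQ : ∀ f : Φ, Q.ord (γ f) = P.ord f) : Q.ord (Q.dv (γ x)) = P.ord (P.dv x) := by
  have hπ := P.transcendental_unif
  have hπ' : Transcendental C (γ P.unif) := wpt_tr γ hπ
  have h1 : Q.dv (γ x) = Q.dv (γ P.unif) * der hπ' (γ x) :=
    der_chain Q.transcendental_unif hπ' (γ x)
  have h2 : der hπ' (γ x) = γ (P.dv x) := wpt_der hπ γ hπ' x
  have h3 : Q.ord (γ P.unif) = 1 := by rw [hPQ, P.ord_unif]
  obtain ⟨h4, h5⟩ := Q.ord_dv_unif' h3
  have h6 : P.dv x ≠ 0 := P.dv_ne_zero hx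
  have h7 : γ (P.dv x) ≠ 0 := by
    rw [Ne, map_eq_zero_iff γ γ.injective]
    exact h6
  rw [h1, h2, Q.ord_mul _ _ h4 h7, h5, zero_add, hPQ]

omit [FunField C Φ] [CharZero C] [IsAlgClosed C] in
private theorem wpt_iter (D : Derivation C Φ Φ) {n : ℕ} (c : Fin n → C) (f : Fin n → Φ) (r : ℕ) :
    (⇑D)^[r] (∑ i, c i • f i) = ∑ i, c i • (⇑D)^[r] (f i) := by
  induction r with
  | zero => rfl
  | succ r ih =>
    rw [Function.iterate_succ_apply', ih, map_sum]
    refine Finset.sum_congr rfl fun i _ => ?_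
    rw [Derivation.map_smul, Function.iterate_succ_apply']

theorem wpt (hg : PosGenus C Φ) (h : 0 < chi C Φ) :
    ∃ Z : Set (Place C Φ), Z.Finite ∧ Z.Nonempty ∧
      ∀ (γ : Φ ≃ₐ[C] Φ) (P Q : Place C Φ), (∀ f : Φ, Q.ord (γ f) = P.ord f) → P ∈ Z → Q ∈ Z := by
  obtain ⟨x, hx⟩ := FunField.exists_transcendental (k := C) (L := Φ)
  obtain ⟨k, hk⟩ : ∃ k : Place C Φ → ℤ, ∀ v, k v = v.ord (v.dv x) := ⟨_, fun v => rfl⟩
  have hkf : {v | k v ≠ 0}.Finite := by
    have h1 := finite_ord_dv_ne_zero (k := C) hx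
    refine h1.subset fun v hv => ?_
    have hv' : k v ≠ 0 := hv
    rw [hk] at hv'
    exact hv'
  have hfd := rra_fin k hkf
  obtain ⟨n, hn⟩ : ∃ n, n = Module.finrank C (LL k) := ⟨_, rfl⟩
  let b := Module.finBasis C (LL k)
  rw [← hn] at b
  have hn0 : n ≠ 0 := by
    intro h0
    rw [h0] at hn
    have h1 : LL k = ⊥ := Submodule.finrank_eq_zero.1 hn.symm
    obtain ⟨ω, hω0, hω⟩ := hg
    obtain ⟨g, hg⟩ := (kaehlerEquiv hx).surjective ω
    rw [kaehlerEquiv_apply] at hg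
    have hg0 : g ≠ 0 := by
      rintro rfl
      rw [zero_smul] at hg
      exact hω0 hg.symm
    have h2 : g ∈ LL k := by
      intro v
      refine v.mem_ge_of_le ?_
      have h3 := hω v
      rw [← hg, v.ordDiff_smul_D, v.ord_mul _ _ hg0 (v.dv_ne_zero hx), ← hk] at h3
      linarith
    rw [h1, Submodule.mem_bot] at h2
    exact hg0 h2
  obtain ⟨f, hfdef⟩ : ∃ f : Fin n → Φ, ∀ j, f j = (b j : Φ) := ⟨_, fun j => rfl⟩
  have hf : LinearIndependent C f := by
    have h1 : LinearIndependent C (fun j => (b j : Φ)) :=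
      b.linearIndependent.map' (LL k).subtype (Submodule.ker_subtype _)
    have h2 : f = fun j => (b j : Φ) := funext hfdef
    rw [h2]
    exact h1
  obtain ⟨w, hw⟩ : ∃ w, w = (Matrix.of fun i j : Fin n => (⇑(der hx))^[(i : ℕ)] (f j)).det :=
    ⟨_, rfl⟩
  have hw0 : w ≠ 0 := by
    rw [hw]
    exact wra_ne hx f hf
  obtain ⟨m, hm⟩ : ∃ m : Place C Φ → ℤ, ∀ v, m v = 2 * v.ord w + ((n : ℤ) * (n + 1)) * k v :=
    ⟨_, fun v => rfl⟩
  have hinv : ∀ (γ : Φ ≃ₐ[C] Φ) (P Q : Place C Φ), (∀ f : Φ, Q.ord (γ f) = P.ord f) →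
      m P = m Q := by
    intro γ P Q hPQ
    have hx' := wpt_tr γ hx
    obtain ⟨θ, hθ⟩ : ∃ θ, θ = der hx' x := ⟨_, rfl⟩
    have hθ0 : θ ≠ 0 := by rw [hθ]; exact der_ne_zero hx' hx
    have hD : ∀ y : Φ, der hx' y = θ * der hx y := by
      intro y
      rw [hθ]
      exact der_chain hx' hx y
    have hkv : ∀ v : Place C Φ, k v = v.ord (v.dv (γ x)) + v.ord θ := by
      intro v
      have h1 : v.dv x = v.dv (γ x) * der hx' x := der_chain v.transcendental_unif hx' x
      rw [hk, h1, ← hθ, v.ord_mul _ _ (v.dv_ne_zero hx') hθ0]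
    have hmem : ∀ j, θ⁻¹ * γ (f j) ∈ LL k := by
      intro j v
      obtain ⟨P', hP'⟩ : ∃ P' : Place C Φ, ∀ g, v.ord (γ g) = P'.ord g :=
        ⟨plMap (γ.symm : Φ ≃+* Φ) (RingEquiv.refl C) (fun c => γ.symm.commutes c) v,
          fun g => rfl⟩
      have h1 : f j ∈ P'.ge (-k P') := by
        rw [hfdef]
        exact (b j).2 P'
      have h2 : γ (f j) ∈ v.ge (-k P') := by
        rcases (P'.mem_ge).1 h1 with h3 | h3
        · rw [h3, map_zero]
          exact zero_mem _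
        · refine v.mem_ge_of_le ?_
          rw [hP']
          exact h3
      have h3 : v.ord (v.dv (γ x)) = k P' := by
        rw [hk]
        exact wpt_dv hx γ hP'
      have h4 := v.mul_mem_ge (v.mem_ge_ord θ⁻¹) h2
      rw [v.ord_inv] at h4
      have h5 : -v.ord θ + -k P' = -k v := by
        rw [hkv v, h3]
        ring
      rwa [h5] at h4
    obtain ⟨a, ha⟩ : ∃ a : Matrix (Fin n) (Fin n) C, ∀ j, θ⁻¹ * γ (f j) = ∑ i, a i j • f i := by
      refine ⟨Matrix.of fun i j => b.repr ⟨θ⁻¹ * γ (f j), hmem j⟩ i, fun j => ?_⟩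
      have h1 := b.sum_repr ⟨θ⁻¹ * γ (f j), hmem j⟩
      have h2 := congrArg (fun z : LL k => (z : Φ)) h1
      simp only [Submodule.coe_sum, Submodule.coe_smul] at h2
      rw [← h2]
      refine Finset.sum_congr rfl fun i _ => ?_
      exact congrArg (fun z : Φ => b.repr ⟨θ⁻¹ * γ (f j), hmem j⟩ i • z) (hfdef i).symm
    have hiter : ∀ (r : ℕ) (y : Φ), (⇑(der hx'))^[r] (γ y) = γ ((⇑(der hx))^[r] y) := by
      intro r y
      induction r with
      | zero => rfl
      | succ r ih =>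
        rw [Function.iterate_succ_apply', ih, wpt_der hx γ hx', Function.iterate_succ_apply']
    have e1 : γ w = (Matrix.of fun i j : Fin n => (⇑(der hx'))^[(i : ℕ)] (γ (f j))).det := by
      rw [hw]
      have h1 := (γ : Φ →+* Φ).map_det (Matrix.of fun i j : Fin n => (⇑(der hx))^[(i : ℕ)] (f j))
      have h2 : (γ : Φ →+* Φ).mapMatrix
          (Matrix.of fun i j : Fin n => (⇑(der hx))^[(i : ℕ)] (f j)) =
          Matrix.of fun i j : Fin n => (⇑(der hx'))^[(i : ℕ)] (γ (f j)) := by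
        ext i j
        rw [Matrix.of_apply, hiter]
        rfl
      rw [h2] at h1
      exact h1
    have e2 := wrl_chain (der hx) (der hx') θ hD (fun j => γ (f j))
    have e3 := wrl_scale (der hx) θ (fun j => θ⁻¹ * γ (f j))
    have e4 : (Matrix.of fun i j : Fin n => (⇑(der hx))^[(i : ℕ)] (θ⁻¹ * γ (f j))).det =
        w * algebraMap C Φ a.det := by
      have h1 : (Matrix.of fun i j : Fin n => (⇑(der hx))^[(i : ℕ)] (θ⁻¹ * γ (f j))) =
          (Matrix.of fun i j : Fin n => (⇑(der hx))^[(i : ℕ)] (f j)) *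
            (algebraMap C Φ).mapMatrix a := by
        ext i j
        rw [Matrix.of_apply, ha, wpt_iter, Matrix.mul_apply]
        refine Finset.sum_congr rfl fun l _ => ?_
        rw [Matrix.of_apply, RingHom.mapMatrix_apply, Matrix.map_apply, Algebra.smul_def, mul_comm]
      rw [h1, Matrix.det_mul, ← hw, ← RingHom.map_det]
    have e5 : (fun j => θ * (θ⁻¹ * γ (f j))) = fun j => γ (f j) := by
      funext j
      rw [mul_inv_cancel_left₀ hθ0]
    have e6 : (Matrix.of fun i j : Fin n => (⇑(der hx))^[(i : ℕ)] (γ (f j))).det =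
        θ ^ n * (w * algebraMap C Φ a.det) := by
      rw [← e4, ← e3]
      congr 2
      ext i j
      rw [mul_inv_cancel_left₀ hθ0]
    have e7 : γ w = θ ^ (n * (n - 1) / 2) * (θ ^ n * (w * algebraMap C Φ a.det)) := by
      rw [e1, e2, e6]
    have hγw : γ w ≠ 0 := by
      rw [Ne, map_eq_zero_iff γ γ.injective]
      exact hw0
    have ha0 : algebraMap C Φ a.det ≠ 0 := by
      intro h0
      rw [h0, mul_zero, mul_zero, mul_zero] at e7
      exact hγw e7
    have e8 : P.ord w = ((n * (n - 1) / 2 : ℕ) : ℤ) * Q.ord θ + (n * Q.ord θ + (Q.ord w + 0)) := by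
      rw [← hPQ, e7, Q.ord_mul _ _ (pow_ne_zero _ hθ0)
        (mul_ne_zero (pow_ne_zero _ hθ0) (mul_ne_zero hw0 ha0)), Q.ord_pow,
        Q.ord_mul _ _ (pow_ne_zero _ hθ0) (mul_ne_zero hw0 ha0), Q.ord_pow,
        Q.ord_mul _ _ hw0 ha0, Q.ord_algebraMap]
    have e9 : (2 : ℤ) * ((n * (n - 1) / 2 : ℕ) : ℤ) = n * (n - 1) := by
      have h1 : 2 * (n * (n - 1) / 2) = n * (n - 1) :=
        Nat.mul_div_cancel' (even_iff_two_dvd.1 (Nat.even_mul_pred_self n))
      have h2 : ((n - 1 : ℕ) : ℤ) = n - 1 := by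
        rw [Nat.cast_sub (Nat.one_le_iff_ne_zero.2 hn0), Nat.cast_one]
      have h3 := congrArg (fun z : ℕ => (z : ℤ)) h1
      simp only [Nat.cast_mul, Nat.cast_ofNat] at h3
      rw [h2] at h3
      exact h3
    have e10 : k P = Q.ord (Q.dv (γ x)) := by
      rw [hk]
      exact (wpt_dv hx γ hPQ).symm
    have e11 := hkv Q
    rw [hm, hm, e8, e10, e11]
    linear_combination Q.ord θ * e9
  refine ⟨{v | m v ≠ 0}, ?_, ?_, ?_⟩
  · refine ((finite_ord_ne_zero (k := C) w).union hkf).subset ?_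
    intro v hv
    by_contra hcon
    rw [Set.mem_union, not_or] at hcon
    have h1 : v.ord w = 0 := by
      by_contra h2
      exact hcon.1 h2
    have h2 : k v = 0 := by
      by_contra h2
      exact hcon.2 h2
    apply hv
    rw [hm, h1, h2]
    ring
  · by_contra hcon
    rw [Set.not_nonempty_iff_eq_empty] at hcon
    have h1 : ∀ v, m v = 0 := by
      intro v
      by_contra h2
      have h3 : v ∈ {v | m v ≠ 0} := h2
      rw [hcon] at h3
      exact h3
    have h2 : ∑ᶠ v, m v = 0 := by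
      rw [finsum_congr h1, finsum_zero]
    have h3 : ∑ᶠ v, m v = 2 * ∑ᶠ v : Place C Φ, v.ord w + ((n : ℤ) * (n + 1)) * ∑ᶠ v, k v := by
      rw [← fs_const_mul, ← fs_const_mul, ← fs_add]
      · exact finsum_congr hm
      · refine (finite_ord_ne_zero (k := C) w).subset fun v hv h0 => hv ?_
        rw [h0, mul_zero]
      · refine hkf.subset fun v hv h0 => hv ?_
        rw [h0, mul_zero]
    have h4 : ∑ᶠ v, k v = chi C Φ := by
      rw [finsum_congr hk]
      exact finsum_ord_dv hx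
    rw [h3, finsum_ord, h4, mul_zero, zero_add] at h2
    have h5 : (0 : ℤ) < n := by exact_mod_cast Nat.pos_of_ne_zero hn0
    have h6 : (0 : ℤ) < ((n : ℤ) * (n + 1)) * chi C Φ := by positivity
    exact h6.ne' h2
  · intro γ P Q hPQ hP
    have h1 : m P ≠ 0 := hP
    rw [hinv γ P Q hPQ] at h1
    exact h1

end Pool.Agent.ESH
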