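import Pool.Agent.ESH.WRL
import Pool.Agent.ESH.WRN
import Pool.Agent.Helper11.Chi

/-!
# ESH / WRA: order of a Wronskian at a place

`D = der hx`, `δ = R.dv` (`δ π = 1`, `π = R.unif`).  `D = θ δ`, `θ = (δ x)⁻¹` (`dv_self_mul`, `der_chain`).  `wra_ne`: WRN, the constants of `D` are `C` (`der_eq_zero_iff`).
`f_j = π^e g_j`, `g_j ∈ R.ge 0`, `δ(R.ge 0) ⊆ R.ge 0` (`dv_mem_ge_zero`), so `Wr_δ(g) ∈ R.ge 0`; `wrl_scale`, `wrl_chain`:
`Wr_D(f) = θ^(n(n-1)/2) π^(n e) Wr_δ(g)`.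
-/

namespace Pool.Agent.ESH

open Pool.Agent.Helper11 Polynomial IntermediateField

variable {C Φ : Type*} [Field C] [Field Φ] [Algebra C Φ] [FunField C Φ] [CharZero C] [IsAlgClosed C]


theorem wra_ne {x : Φ} (hx : Transcendental C x) {n : ℕ} (f : Fin n → Φ) (hf : LinearIndependent C f) :
    (Matrix.of fun i j : Fin n => (⇑(der hx))^[(i : ℕ)] (f j)).det ≠ 0 :=
  wrn (der hx) (fun g hg => by
    obtain ⟨c, hc⟩ := (der_eq_zero_iff hx).1 hg
    exact ⟨c, hc⟩) f hf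

omit [FunField C Φ] [CharZero C] [IsAlgClosed C] in
private theorem WRA_det (R : Place C Φ) {n : ℕ} (M : Matrix (Fin n) (Fin n) Φ)
    (h : ∀ i j, M i j ∈ R.ge 0) : M.det ∈ R.ge 0 := by
  rw [Matrix.det_apply]
  refine AddSubgroup.sum_mem _ (fun σ _ => ?_)
  have h1 := R.prod_mem_ge Finset.univ (fun i => M (σ i) i) (fun _ => 0) (fun i _ => h _ _)
  rw [Finset.sum_const_zero] at h1
  rcases Int.units_eq_one_or (Equiv.Perm.sign σ) with h2 | h2
  · rw [h2, one_smul]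
    exact h1
  · rw [h2, Units.neg_smul, one_smul]
    exact neg_mem h1

private theorem WRA_iter (R : Place C Φ) (i : ℕ) {g : Φ} (hg : g ∈ R.ge 0) :
    (⇑(R.dv))^[i] g ∈ R.ge 0 := by
  induction i with
  | zero => exact hg
  | succ i ih =>
    rw [Function.iterate_succ_apply']
    exact R.dv_mem_ge_zero ih

theorem wra {x : Φ} (hx : Transcendental C x) {n : ℕ} (f : Fin n → Φ) (hf : LinearIndependent C f)
    (R : Place C Φ) (e : ℤ) (he : ∀ j, f j ∈ R.ge e) :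
    2 * n * e - n * (n - 1) * R.ord (R.dv x) ≤
      2 * R.ord (Matrix.of fun i j : Fin n => (⇑(der hx))^[(i : ℕ)] (f j)).det := by
  have hne := wra_ne hx f hf
  have hπ := R.unif_ne_zero
  have hchain := wrl_chain R.dv (der hx) (der hx R.unif) (fun g => R.der_eq hx g) f
  obtain ⟨g, hg⟩ : ∃ g : Fin n → Φ, g = fun j => R.unif ^ (-e) * f j := ⟨_, rfl⟩
  have hfg : f = fun j => R.unif ^ e * g j := by
    funext j
    rw [hg]
    simp only []
    rw [← mul_assoc, ← zpow_add₀ hπ, add_neg_cancel, zpow_zero, one_mul]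
  have hg0 : ∀ j, g j ∈ R.ge 0 := by
    intro j
    rw [hg]
    have := R.mul_mem_ge (R.mem_ge_ord (R.unif ^ (-e))) (he j)
    rw [R.ord_zpow, R.ord_unif, mul_one, neg_add_cancel] at this
    exact this
  have hscale := wrl_scale R.dv (R.unif ^ e) g
  have hfj : ∀ j, R.unif ^ e * g j = f j := fun j => (congrFun hfg j).symm
  simp only [hfj] at hscale
  rw [hscale] at hchain
  have hW0 := WRA_det R (Matrix.of fun i j : Fin n => (⇑(R.dv))^[(i : ℕ)] (g j))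
    (fun i j => WRA_iter R i (hg0 j))
  set W := (Matrix.of fun i j : Fin n => (⇑(R.dv))^[(i : ℕ)] (g j)).det with hW
  rw [hchain] at hne ⊢
  have h1 : der hx R.unif ^ (n * (n - 1) / 2) ≠ 0 := left_ne_zero_of_mul hne
  have h2 : (R.unif ^ e) ^ n * W ≠ 0 := right_ne_zero_of_mul hne
  have h3 : W ≠ 0 := right_ne_zero_of_mul h2
  have h4 : 0 ≤ R.ord W := R.le_ord_of_mem hW0 h3
  rw [R.ord_mul _ _ h1 h2, R.ord_mul _ _ (left_ne_zero_of_mul h2) h3, R.ord_pow, R.ord_pow,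
    R.ord_zpow, R.ord_unif, R.ord_der_unif hx]
  have h5 : (((n * (n - 1) / 2 : ℕ) : ℤ)) * 2 = (n : ℤ) * ((n : ℤ) - 1) := by
    have h6 : n * (n - 1) / 2 * 2 = n * (n - 1) :=
      Nat.div_mul_cancel (Nat.even_mul_pred_self n).two_dvd
    rcases Nat.eq_zero_or_pos n with h0 | h0
    · subst h0
      simp
    · have h7 : ((n * (n - 1) / 2 * 2 : ℕ) : ℤ) = ((n * (n - 1) : ℕ) : ℤ) := by rw [h6]
      push_cast [Nat.cast_sub h0] at h7 ⊢
      exact h7
  have h8 : 2 * ((((n * (n - 1) / 2 : ℕ) : ℤ)) * -R.ord (R.dv x)) =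
      - ((n : ℤ) * ((n : ℤ) - 1) * R.ord (R.dv x)) := by
    rw [← h5]
    ring
  linarith

end Pool.Agent.ESH
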