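import Pool.Agent.ESH.DefsE

/-!
# ESH / WRL: change of derivation and scaling in Wronskians

`wrl_scale`: `D^i (h f) = ∑ binom(i, r) D^(i-r) h * D^r f`: the matrix is a lower triangular matrix with diagonal `h` times the matrix of `f`.
`wrl_chain`: `D' = θ D`.  `D'^i f = θ^i D^i f + (combination of D^r f, r < i)` (induction on `i`; the coefficients do not depend on `f`): lower triangular matrix with diagonal
`θ^i`; `∏_{i<n} θ^i = θ^(n(n-1)/2)`.
-/

namespace Pool.Agent.ESH

private theorem WRL_gen {F : Type*} [CommRing F] {n : ℕ} (S T : ℕ → F → F) (u : ℕ → F)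
    (h : ∀ i, ∃ a : ℕ → F, a i = u i ∧ ∀ f : F, T i f = ∑ r ∈ Finset.range (i + 1), a r * S r f)
    (f : Fin n → F) :
    (Matrix.of fun i j : Fin n => T (i : ℕ) (f j)).det =
      (∏ i : Fin n, u i) * (Matrix.of fun i j : Fin n => S (i : ℕ) (f j)).det := by
  classical
  choose a ha haf using h
  let L : Matrix (Fin n) (Fin n) F := Matrix.of fun i r => if r ≤ i then a i r else 0
  have h1 : (Matrix.of fun i j : Fin n => T (i : ℕ) (f j)) =
      L * (Matrix.of fun i j : Fin n => S (i : ℕ) (f j)) := by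
    ext i j
    rw [Matrix.mul_apply, Matrix.of_apply, haf]
    simp only [L, Matrix.of_apply]
    rw [Finset.sum_congr rfl (g := fun r : Fin n =>
      (fun r : ℕ => if r ≤ (i : ℕ) then a i r * S r (f j) else 0) (r : ℕ))
      (fun r _ => by
        by_cases hr : r ≤ i
        · have hr' : (r : ℕ) ≤ (i : ℕ) := hr
          simp [hr, hr']
        · have hr' : ¬ ((r : ℕ) ≤ (i : ℕ)) := hr
          simp [hr, hr'])]
    rw [Fin.sum_univ_eq_sum_range (fun r : ℕ => if r ≤ (i : ℕ) then a i r * S r (f j) else 0) n]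
    have h2 : Finset.range (i + 1) ⊆ Finset.range n := by
      intro r hr
      rw [Finset.mem_range] at hr ⊢
      have := i.2
      omega
    rw [← Finset.sum_subset h2 (f := fun r : ℕ => if r ≤ (i : ℕ) then a i r * S r (f j) else 0)]
    · refine Finset.sum_congr rfl (fun r hr => ?_)
      rw [Finset.mem_range] at hr
      rw [if_pos (by omega)]
    · intro r _ hr
      rw [Finset.mem_range] at hr
      rw [if_neg (by omega)]
  have h2 : L.det = ∏ i : Fin n, u i := by
    rw [Matrix.det_of_isLowerTriangular L (by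
      intro i j hij
      have hij' : i < j := hij
      simp only [L, Matrix.of_apply]
      rw [if_neg (not_le.2 hij')])]
    refine Finset.prod_congr rfl (fun i _ => ?_)
    simp only [L, Matrix.of_apply]
    rw [if_pos le_rfl, ha]
  rw [h1, Matrix.det_mul, h2]

private theorem WRL_step {F : Type*} [CommRing F] {K : Type*} [CommRing K] [Algebra K F]
    (D : Derivation K F F) (θ : F) (i : ℕ) (a : ℕ → F) (f : F) :
    ∑ r ∈ Finset.range (i + 1 + 1), (θ * ((if r ≤ i then D (a r) else 0) +
        (if r = 0 then 0 else a (r - 1)))) * (⇑D)^[r] f =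
      θ * D (∑ r ∈ Finset.range (i + 1), a r * (⇑D)^[r] f) := by
  have h1 : ∑ r ∈ Finset.range (i + 1 + 1), (if r ≤ i then D (a r) else 0) * (⇑D)^[r] f =
      ∑ r ∈ Finset.range (i + 1), D (a r) * (⇑D)^[r] f := by
    rw [Finset.sum_range_succ, if_neg (by omega), zero_mul, add_zero]
    refine Finset.sum_congr rfl (fun r hr => ?_)
    rw [Finset.mem_range] at hr
    rw [if_pos (by omega)]
  have h2 : ∑ r ∈ Finset.range (i + 1 + 1), (if r = 0 then 0 else a (r - 1)) * (⇑D)^[r] f =
      ∑ r ∈ Finset.range (i + 1), a r * (⇑D)^[r + 1] f := by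
    rw [Finset.sum_range_succ', if_pos rfl, zero_mul, add_zero]
    refine Finset.sum_congr rfl (fun r _ => ?_)
    rw [if_neg (by omega), Nat.add_sub_cancel]
  have h3 : D (∑ r ∈ Finset.range (i + 1), a r * (⇑D)^[r] f) =
      ∑ r ∈ Finset.range (i + 1), D (a r) * (⇑D)^[r] f +
        ∑ r ∈ Finset.range (i + 1), a r * (⇑D)^[r + 1] f := by
    rw [map_sum, ← Finset.sum_add_distrib]
    refine Finset.sum_congr rfl (fun r _ => ?_)
    rw [Derivation.leibniz, smul_eq_mul, smul_eq_mul, Function.iterate_succ_apply']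
    ring
  rw [h3, ← h1, ← h2, ← Finset.sum_add_distrib, Finset.mul_sum]
  refine Finset.sum_congr rfl (fun r _ => ?_)
  ring

theorem wrl_scale {K F : Type*} [CommRing K] [CommRing F] [Algebra K F] (D : Derivation K F F) {n : ℕ}
    (h : F) (f : Fin n → F) :
    (Matrix.of fun i j : Fin n => (⇑D)^[(i : ℕ)] (h * f j)).det =
      h ^ n * (Matrix.of fun i j : Fin n => (⇑D)^[(i : ℕ)] (f j)).det := by
  have key : ∀ i : ℕ, ∃ a : ℕ → F, a i = h ∧ ∀ g : F, (⇑D)^[i] (h * g) =
      ∑ r ∈ Finset.range (i + 1), a r * (⇑D)^[r] g := by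
    intro i
    induction i with
    | zero =>
      refine ⟨fun _ => h, rfl, fun g => ?_⟩
      simp
    | succ i ih =>
      obtain ⟨a, ha, hag⟩ := ih
      refine ⟨fun r => 1 * ((if r ≤ i then D (a r) else 0) + (if r = 0 then 0 else a (r - 1))),
        ?_, fun g => ?_⟩
      · simp [ha]
      · rw [WRL_step D 1 i a g, ← hag g, one_mul, Function.iterate_succ_apply']
  have h2 := WRL_gen (fun i g => (⇑D)^[i] g) (fun i g => (⇑D)^[i] (h * g)) (fun _ => h) key f
  rw [Finset.prod_const, Finset.card_univ, Fintype.card_fin] at h2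
  exact h2

theorem wrl_chain {K F : Type*} [CommRing K] [CommRing F] [Algebra K F] (D D' : Derivation K F F) (θ : F)
    (hD : ∀ f : F, D' f = θ * D f) {n : ℕ} (f : Fin n → F) :
    (Matrix.of fun i j : Fin n => (⇑D')^[(i : ℕ)] (f j)).det =
      θ ^ (n * (n - 1) / 2) * (Matrix.of fun i j : Fin n => (⇑D)^[(i : ℕ)] (f j)).det := by
  have key : ∀ i : ℕ, ∃ a : ℕ → F, a i = θ ^ i ∧ ∀ g : F, (⇑D')^[i] g =
      ∑ r ∈ Finset.range (i + 1), a r * (⇑D)^[r] g := by
    intro i
    induction i with
    | zero =>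
      refine ⟨fun _ => 1, by simp, fun g => ?_⟩
      simp
    | succ i ih =>
      obtain ⟨a, ha, hag⟩ := ih
      refine ⟨fun r => θ * ((if r ≤ i then D (a r) else 0) + (if r = 0 then 0 else a (r - 1))),
        ?_, fun g => ?_⟩
      · simp [ha, pow_succ, mul_comm]
      · rw [WRL_step D θ i a g, ← hag g, Function.iterate_succ_apply', hD]
  have h2 := WRL_gen (fun i g => (⇑D)^[i] g) (fun i g => (⇑D')^[i] g) (fun i => θ ^ i) key f
  have h3 : (∏ i : Fin n, θ ^ (i : ℕ)) = θ ^ (n * (n - 1) / 2) := by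
    rw [Finset.prod_pow_eq_pow_sum, Fin.sum_univ_eq_sum_range (fun i => i) n,
      Finset.sum_range_id]
  rw [h3] at h2
  exact h2

end Pool.Agent.ESH
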