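import Pool.Agent.ESH.ZLP

/-!
# ESH / ZL: the zero lemma

Let `M` have characteristic `0`, `a, y ∈ M` non-zero with `1, a, a^2, ..., a^(L-1)` distinct, `L ≤ S ≤ r`
and `L * (K - 1) < R * (S - L + 1)`.  If `∑_{k<K} ∑_{l<L} c k l * choose(r u + s, k) * (y^u * a^s)^l = 0`
for all `u < R`, `s < S`, then `c = 0`.

Proof.  Put `p_l(X) = ∑_k (c k l / k!) * descPochhammer M k` (so `p_l(n) = ∑_k c k l * choose(n, k)` for
natural `n`: `descPochhammer_eval_eq_descFactorial`, `Nat.descFactorial_eq_factorial_mul_choose`; and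
`p_l = 0` iff all `c k l = 0` because `descPochhammer M k` is monic of degree `k`; `deg p_l ≤ K - 1`).
Let `T = {l | p_l ≠ 0}` and suppose `n = card T ≥ 1`; enumerate `T` as `l_1, ..., l_n` (`T.orderEmbOfFin`).
By ZLP (nodes `a ^ l_i`) the polynomial `D(X) = det(p_{l_j}(X + i) a^(l_j i))_{i,j<n}` is non-zero of degree
`≤ n (K - 1)`.  For `u < R` and `s₀ ≤ S - n`, put `z = r u + s₀`.  For `i < n` the hypothesis at
`(u, s₀ + i)` reads `∑_j p_{l_j}(z + i) * (a^(l_j))^i * (y^u * a^s₀)^(l_j) = 0`, that is the matrix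
`D(z)` kills the non-zero vector `((y^u a^s₀)^(l_j))_j`; so `D(z) = 0` (`Matrix.exists_mulVec_eq_zero_iff`).
The `R * (S - n + 1)` numbers `z = r u + s₀` are distinct since `s₀ < S ≤ r`, so
`R (S - n + 1) ≤ n (K - 1)` (`Polynomial.card_roots'`).  But `n ≤ L` gives
`n (K - 1) ≤ L (K - 1) < R (S - L + 1) ≤ R (S - n + 1)`: contradiction.
-/

namespace Pool.Agent.ESH

open Polynomial

theorem zl {M : Type*} [Field M] [CharZero M] (a y : M) (ha : a ≠ 0) (hy : y ≠ 0) (K L r R S : ℕ)
    (hinj : ∀ i < L, ∀ j < L, a ^ i = a ^ j → i = j) (hL : 1 ≤ L) (hLS : L ≤ S) (hSr : S ≤ r)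
    (hlt : L * (K - 1) < R * (S - L + 1)) (c : Fin K → Fin L → M)
    (h : ∀ u < R, ∀ s < S, ∑ k : Fin K, ∑ l : Fin L,
      c k l * ((r * u + s).choose (k : ℕ) : M) * (y ^ u * a ^ s) ^ (l : ℕ) = 0) :
    c = 0 := by
  classical
  by_contra hc
  -- the polynomials
  let P : Fin L → M[X] := fun l => ∑ k : Fin K,
    C (c k l / ((k : ℕ).factorial : M)) * descPochhammer M (k : ℕ)
  have heval : ∀ (l : Fin L) (z : ℕ), (P l).eval (z : M) =
      ∑ k : Fin K, c k l * (z.choose (k : ℕ) : M) := by
    intro l z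
    show (∑ k : Fin K, C (c k l / ((k : ℕ).factorial : M)) * descPochhammer M (k : ℕ)).eval
      (z : M) = _
    rw [eval_finsetSum]
    refine Finset.sum_congr rfl fun k _ => ?_
    rw [eval_mul, eval_C, descPochhammer_eval_eq_descFactorial,
      Nat.descFactorial_eq_factorial_mul_choose, Nat.cast_mul, ← mul_assoc,
      div_mul_cancel₀ _ (Nat.cast_ne_zero.2 (Nat.factorial_ne_zero _))]
  have hPdeg : ∀ l, (P l).natDegree ≤ K - 1 := by
    intro l
    refine natDegree_sum_le_of_forall_le _ _ fun k _ => ?_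
    refine (natDegree_C_mul_le _ _).trans ?_
    rw [descPochhammer_natDegree]
    have := k.2
    omega
  have hP0 : ∀ l, P l = 0 → ∀ k, c k l = 0 := by
    intro l hl k
    obtain ⟨k, hk⟩ := k
    induction k using Nat.strong_induction_on with
    | _ k ih =>
      have h1 := heval l k
      rw [hl, eval_zero, Finset.sum_eq_single (⟨k, hk⟩ : Fin K)] at h1
      · rw [Nat.choose_self, Nat.cast_one, mul_one] at h1
        exact h1.symm
      · intro j _ hj
        rcases lt_trichotomy (j : ℕ) k with h2 | h2 | h2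
        · have h3 := ih (j : ℕ) h2 j.2
          rw [show (⟨(j : ℕ), j.2⟩ : Fin K) = j from rfl] at h3
          rw [h3, zero_mul]
        · exact absurd (Fin.ext h2) hj
        · rw [Nat.choose_eq_zero_of_lt h2, Nat.cast_zero, mul_zero]
      · intro h2
        exact absurd (Finset.mem_univ _) h2
  set T : Finset (Fin L) := Finset.univ.filter (fun l => P l ≠ 0) with hT
  have hTne : T.Nonempty := by
    by_contra hE
    rw [Finset.not_nonempty_iff_eq_empty] at hE
    apply hc
    funext k l
    refine hP0 l ?_ k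
    by_contra h2
    have : l ∈ T := by rw [hT, Finset.mem_filter]; exact ⟨Finset.mem_univ _, h2⟩
    rw [hE] at this
    exact absurd this (Finset.notMem_empty _)
  set n := T.card with hn
  have hn1 : 1 ≤ n := Finset.card_pos.2 hTne
  have hnL : n ≤ L := by
    have := Finset.card_le_univ T
    rwa [Fintype.card_fin] at this
  let e : Fin n ↪o Fin L := T.orderEmbOfFin rfl
  have heT : ∀ j, e j ∈ T := fun j => T.orderEmbOfFin_mem rfl j
  have hep : ∀ j, P (e j) ≠ 0 := fun j => by
    have := heT j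
    rw [hT, Finset.mem_filter] at this
    exact this.2
  have hinj' : Function.Injective (fun j : Fin n => a ^ (e j : ℕ)) := by
    intro i j hij
    have := hinj (e i) (e i).2 (e j) (e j).2 hij
    exact e.injective (Fin.ext this)
  obtain ⟨hD0, hDdeg⟩ := zlp (fun j => P (e j)) hep (fun j => a ^ (e j : ℕ)) hinj'
  set D : M[X] := (Matrix.of fun i l : Fin n => (P (e l)).comp (X + C ((i : ℕ) : M)) *
    C ((a ^ (e l : ℕ)) ^ (i : ℕ))).det with hD
  have hDdeg' : D.natDegree ≤ n * (K - 1) := by
    refine hDdeg.trans ((Finset.sum_le_sum fun j _ => hPdeg (e j)).trans ?_)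
    rw [Finset.sum_const, Finset.card_univ, Fintype.card_fin, smul_eq_mul]
  -- the zeros
  have hroot : ∀ u < R, ∀ s₀, s₀ + n ≤ S → D.eval ((r * u + s₀ : ℕ) : M) = 0 := by
    intro u hu s₀ hs₀
    have h1 : D.eval ((r * u + s₀ : ℕ) : M) = (Matrix.of fun i l : Fin n =>
        (P (e l)).eval (((r * u + (s₀ + i) : ℕ)) : M) * (a ^ (e l : ℕ)) ^ (i : ℕ)).det := by
      rw [hD, ← coe_evalRingHom, RingHom.map_det]
      congr 1
      ext i l
      simp only [RingHom.mapMatrix_apply, Matrix.map_apply, Matrix.of_apply, coe_evalRingHom,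
        eval_mul, eval_C, eval_comp, eval_add, eval_X]
      congr 2
      push_cast
      ring
    rw [h1, ← Matrix.exists_mulVec_eq_zero_iff]
    refine ⟨fun j => (y ^ u * a ^ s₀) ^ (e j : ℕ), ?_, ?_⟩
    · intro h2
      have h3 := congrFun h2 ⟨0, hn1⟩
      simp only [Pi.zero_apply] at h3
      exact (pow_ne_zero _ (mul_ne_zero (pow_ne_zero _ hy) (pow_ne_zero _ ha))) h3
    · funext i
      rw [Matrix.mulVec, dotProduct, Pi.zero_apply]
      have h2 := h u hu (s₀ + i) (by have := i.2; omega)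
      rw [Finset.sum_comm] at h2
      have h3 : ∀ l : Fin L, ∑ k : Fin K, c k l * ((r * u + (s₀ + i)).choose (k : ℕ) : M) *
          (y ^ u * a ^ (s₀ + (i : ℕ))) ^ (l : ℕ) =
          (P l).eval (((r * u + (s₀ + i) : ℕ)) : M) * (y ^ u * a ^ (s₀ + (i : ℕ))) ^ (l : ℕ) := by
        intro l
        rw [heval, Finset.sum_mul]
      rw [Finset.sum_congr rfl fun l _ => h3 l] at h2
      have h4 : ∑ l ∈ T, (P l).eval (((r * u + (s₀ + i) : ℕ)) : M) *
          (y ^ u * a ^ (s₀ + (i : ℕ))) ^ (l : ℕ) = 0 := by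
        rw [← h2]
        refine Finset.sum_subset (Finset.subset_univ _) fun l _ hl => ?_
        have : P l = 0 := by
          by_contra h5
          exact hl (by rw [hT, Finset.mem_filter]; exact ⟨Finset.mem_univ _, h5⟩)
        rw [this, eval_zero, zero_mul]
      have h5 : T = Finset.univ.map e.toEmbedding := by
        rw [Finset.map_orderEmbOfFin_univ]
      rw [h5, Finset.sum_map] at h4
      rw [← h4]
      refine Finset.sum_congr rfl fun j _ => ?_
      rw [Matrix.of_apply]
      show _ = (P (e j)).eval (((r * u + (s₀ + i) : ℕ)) : M) *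
          (y ^ u * a ^ (s₀ + (i : ℕ))) ^ ((e j : Fin L) : ℕ)
      rw [pow_add a s₀ i, ← mul_assoc (y ^ u), mul_pow (y ^ u * a ^ s₀), ← pow_mul a (i : ℕ),
        ← pow_mul a ((e j : Fin L) : ℕ) (i : ℕ), mul_comm (i : ℕ)]
      ring
  -- counting
  have hcount : R * (S - n + 1) ≤ D.natDegree := by
    have hinj2 : Set.InjOn (fun q : ℕ × ℕ => ((r * q.1 + q.2 : ℕ) : M))
        ((Finset.range R ×ˢ Finset.range (S - n + 1) : Finset (ℕ × ℕ)) : Set (ℕ × ℕ)) := by
      rintro ⟨u, s⟩ hq ⟨u', s'⟩ hq' hqq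
      rw [Finset.mem_coe, Finset.mem_product, Finset.mem_range, Finset.mem_range] at hq hq'
      simp only at hq hq' hqq
      have h1 : r * u + s = r * u' + s' := Nat.cast_injective hqq
      have hs : s < r := by omega
      have hs' : s' < r := by omega
      have h2 : u = u' := by
        rcases lt_trichotomy u u' with h3 | h3 | h3
        · have h4 : r * (u + 1) ≤ r * u' := Nat.mul_le_mul_left r h3
          rw [Nat.mul_add, Nat.mul_one] at h4
          omega
        · exact h3
        · have h4 : r * (u' + 1) ≤ r * u := Nat.mul_le_mul_left r h3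
          rw [Nat.mul_add, Nat.mul_one] at h4
          omega
      subst h2
      have h3 : s = s' := by omega
      rw [h3]
    have h1 := Finset.card_image_of_injOn hinj2
    rw [Finset.card_product, Finset.card_range, Finset.card_range] at h1
    rw [← h1]
    refine le_trans ?_ (card_roots' D)
    refine le_trans (Finset.card_le_card (t := D.roots.toFinset) ?_) (Multiset.toFinset_card_le _)
    intro z hz
    rw [Finset.mem_image] at hz
    obtain ⟨⟨u, s⟩, hq, rfl⟩ := hz
    rw [Finset.mem_product, Finset.mem_range, Finset.mem_range] at hq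
    simp only at hq
    rw [Multiset.mem_toFinset, mem_roots hD0, IsRoot.def]
    exact hroot u hq.1 s (by omega)
  have h1 : n * (K - 1) ≤ L * (K - 1) := Nat.mul_le_mul_right _ hnL
  have h2 : R * (S - L + 1) ≤ R * (S - n + 1) := Nat.mul_le_mul_left _ (by omega)
  omega

end Pool.Agent.ESH
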