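import Mathlib

/-!
# ESH / ZLP: leading coefficient of the shifted determinant

For non-zero polynomials `p_l` (`l < n`) over a field and distinct nodes `b_l` put
`D(X) = det ( p_l (X + i) * b_l ^ i )_{i, l < n}`.  Then `D ≠ 0` and `deg D ≤ d := ∑ deg p_l`.

Proof.  In the Leibniz expansion every term is `± ∏_l p_l(X + σ l) b_l^(σ l)`, of degree `≤ d`, and its
coefficient of `X ^ d` is `± ∏_l lead(p_l) b_l^(σ l)` (`natDegree` and leading coefficient are unchanged by
`comp (X + C c)`: `Polynomial.natDegree_comp`, `Polynomial.leadingCoeff_comp`, or `Polynomial.taylor`).  So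
the coefficient of `X ^ d` of `D` is `(∏ lead p_l) * det (b_l ^ i)`, the Vandermonde determinant, which is
non-zero (`Matrix.det_vandermonde_ne_zero_iff`).
-/

namespace Pool.Agent.ESH

open Polynomial

theorem zlp {M : Type*} [Field M] {n : ℕ} (p : Fin n → M[X]) (hp : ∀ l, p l ≠ 0) (b : Fin n → M)
    (hb : Function.Injective b) :
    (Matrix.of fun i l : Fin n => (p l).comp (X + C ((i : ℕ) : M)) * C (b l ^ (i : ℕ))).det ≠ 0 ∧
    (Matrix.of fun i l : Fin n => (p l).comp (X + C ((i : ℕ) : M)) * C (b l ^ (i : ℕ))).det.natDegree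
      ≤ ∑ l, (p l).natDegree := by
  classical
  set d := ∑ l, (p l).natDegree with hd
  have hlead : ∀ (l : Fin n) (a : M), ((p l).comp (X + C a)).leadingCoeff =
      (p l).leadingCoeff := by
    intro l a
    rw [leadingCoeff_comp (by rw [natDegree_X_add_C]; exact one_ne_zero), leadingCoeff_X_add_C,
      one_pow, mul_one]
  have hdeg : ∀ (l : Fin n) (a : M), ((p l).comp (X + C a)).natDegree = (p l).natDegree := by
    intro l a
    rw [natDegree_comp, natDegree_X_add_C, mul_one]
  have hne : ∀ (l : Fin n) (a : M), (p l).comp (X + C a) ≠ 0 := by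
    intro l a
    rw [← leadingCoeff_ne_zero, hlead, leadingCoeff_ne_zero]
    exact hp l
  have hPdeg : ∀ σ : Equiv.Perm (Fin n),
      (∏ l, (p l).comp (X + C (((σ l : Fin n) : ℕ) : M))).natDegree = d := by
    intro σ
    rw [natDegree_prod _ _ fun l _ => hne l _]
    exact Finset.sum_congr rfl fun l _ => hdeg l _
  have hPlead : ∀ σ : Equiv.Perm (Fin n),
      (∏ l, (p l).comp (X + C (((σ l : Fin n) : ℕ) : M))).coeff d = ∏ l, (p l).leadingCoeff := by
    intro σ
    have h1 := leadingCoeff_prod (Finset.univ : Finset (Fin n))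
      (fun l => (p l).comp (X + C (((σ l : Fin n) : ℕ) : M)))
    rw [leadingCoeff, hPdeg] at h1
    rw [h1]
    exact Finset.prod_congr rfl fun l _ => hlead l _
  have hterm : ∀ σ : Equiv.Perm (Fin n),
      ∏ l, (Matrix.of fun i l : Fin n =>
        (p l).comp (X + C ((i : ℕ) : M)) * C (b l ^ (i : ℕ))) (σ l) l =
      (∏ l, (p l).comp (X + C (((σ l : Fin n) : ℕ) : M))) *
        C (∏ l, b l ^ ((σ l : Fin n) : ℕ)) := by
    intro σ
    simp only [Matrix.of_apply]
    rw [Finset.prod_mul_distrib, map_prod]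
  have hdet : (Matrix.of fun i l : Fin n =>
      (p l).comp (X + C ((i : ℕ) : M)) * C (b l ^ (i : ℕ))).det =
      ∑ σ : Equiv.Perm (Fin n), C (((Equiv.Perm.sign σ : ℤˣ) : ℤ) : M) *
        ((∏ l, (p l).comp (X + C (((σ l : Fin n) : ℕ) : M))) *
        C (∏ l, b l ^ ((σ l : Fin n) : ℕ))) := by
    rw [Matrix.det_apply']
    refine Finset.sum_congr rfl fun σ _ => ?_
    rw [hterm σ]
    congr 1
  constructor
  · intro h0
    have h1 : (Matrix.of fun i l : Fin n =>
      (p l).comp (X + C ((i : ℕ) : M)) * C (b l ^ (i : ℕ))).det.coeff d = 0 := by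
      rw [h0, coeff_zero]
    rw [hdet, finsetSum_coeff] at h1
    have h2 : ∀ σ : Equiv.Perm (Fin n), (C (((Equiv.Perm.sign σ : ℤˣ) : ℤ) : M) *
        ((∏ l, (p l).comp (X + C (((σ l : Fin n) : ℕ) : M))) *
        C (∏ l, b l ^ ((σ l : Fin n) : ℕ)))).coeff d =
        (∏ l, (p l).leadingCoeff) * ((((Equiv.Perm.sign σ : ℤˣ) : ℤ) : M) *
          ∏ l, b l ^ ((σ l : Fin n) : ℕ)) := by
      intro σ
      rw [coeff_C_mul, coeff_mul_C, hPlead]
      ring
    rw [Finset.sum_congr rfl fun σ _ => h2 σ, ← Finset.mul_sum] at h1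
    have h3 : ∑ σ : Equiv.Perm (Fin n), (((Equiv.Perm.sign σ : ℤˣ) : ℤ) : M) *
          ∏ l, b l ^ ((σ l : Fin n) : ℕ) = (Matrix.vandermonde b).det := by
      rw [← Matrix.det_transpose, Matrix.det_apply']
      rfl
    rw [h3, mul_eq_zero] at h1
    rcases h1 with h1 | h1
    · rw [Finset.prod_eq_zero_iff] at h1
      obtain ⟨l, -, hl⟩ := h1
      exact hp l (leadingCoeff_eq_zero.1 hl)
    · exact (Matrix.det_vandermonde_ne_zero_iff.2 hb) h1
  · rw [hdet]
    refine natDegree_sum_le_of_forall_le _ _ fun σ _ => ?_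
    refine (natDegree_C_mul_le _ _).trans ((natDegree_mul_C_le _ _).trans ?_)
    rw [hPdeg]

end Pool.Agent.ESH
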